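import Pool.Agent.H54.UB.Core

/-! Universal bases, part G1: this file joins several modules to save build time. -/

section S_PA

/-!
# Row PA: closure properties of compact polyhedra

`IsPoly X` = finite union of convex hulls of finite sets.  Everything here is elementary.

* `exists_simplices`: Caratheodory (`convexHull_eq_union`): `convexHull s` is the union of the
  `convexHull t`, `t ⊆ s` affinely independent (nonempty if the point exists); finitely many `t`.
* `prod`: `convexHull_prod`.  `image_affine`: `AffineMap.image_convexHull`.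
* `isCompact`: `Set.Finite.isCompact_convexHull`.
-/

open Set Topology

namespace Pool.H54.UB

variable {E F : Type*} [NormedAddCommGroup E] [NormedSpace ℝ E]
  [NormedAddCommGroup F] [NormedSpace ℝ F]

theorem IsPoly.hull (s : Finset E) : IsPoly (convexHull ℝ (s : Set E)) := ⟨{s}, by simp⟩

theorem IsPoly.hull_finite {s : Set E} (hs : s.Finite) : IsPoly (convexHull ℝ s) := by
  have h := IsPoly.hull hs.toFinset
  rwa [hs.coe_toFinset] at h

theorem IsPoly.empty : IsPoly (∅ : Set E) := ⟨∅, by simp⟩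

theorem IsPoly.singleton (x : E) : IsPoly ({x} : Set E) := by
  have h := IsPoly.hull ({x} : Finset E)
  rwa [Finset.coe_singleton, convexHull_singleton] at h

theorem IsPoly.segment (x y : E) : IsPoly (segment ℝ x y) := by
  rw [← convexHull_pair]
  exact IsPoly.hull_finite (Set.toFinite _)

theorem IsPoly.union {X Y : Set E} (hX : IsPoly X) (hY : IsPoly Y) : IsPoly (X ∪ Y) := by
  classical
  obtain ⟨S, rfl⟩ := hX
  obtain ⟨T, rfl⟩ := hY
  refine ⟨S ∪ T, ?_⟩
  ext x
  simp only [mem_union, mem_iUnion, Finset.mem_union, exists_prop]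
  constructor
  · rintro (⟨s, hs, h⟩ | ⟨s, hs, h⟩)
    · exact ⟨s, Or.inl hs, h⟩
    · exact ⟨s, Or.inr hs, h⟩
  · rintro ⟨s, hs | hs, h⟩
    · exact Or.inl ⟨s, hs, h⟩
    · exact Or.inr ⟨s, hs, h⟩

theorem IsPoly.biUnion {ι : Type*} {s : Set ι} (hs : s.Finite) {X : ι → Set E}
    (h : ∀ i ∈ s, IsPoly (X i)) : IsPoly (⋃ i ∈ s, X i) := by
  induction s, hs using Set.Finite.induction_on with
  | empty =>
    rw [Set.biUnion_empty]
    exact IsPoly.empty
  | insert _ _ ih =>
    rw [Set.biUnion_insert]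
    exact (h _ (Set.mem_insert _ _)).union (ih fun i hi => h i (Set.mem_insert_of_mem _ hi))

theorem IsPoly.image_affine {X : Set E} (hX : IsPoly X) (A : E →ᵃ[ℝ] F) : IsPoly (A '' X) := by
  obtain ⟨S, rfl⟩ := hX
  have h1 : A '' (⋃ s ∈ S, convexHull ℝ (s : Set E)) =
      ⋃ s ∈ (S : Set (Finset E)), A '' convexHull ℝ (s : Set E) := by
    rw [Set.image_iUnion₂]
    rfl
  rw [h1]
  refine IsPoly.biUnion S.finite_toSet fun s _ => ?_
  rw [AffineMap.image_convexHull]
  exact IsPoly.hull_finite (s.finite_toSet.image _)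

theorem IsPoly.prod {X : Set E} {Y : Set F} (hX : IsPoly X) (hY : IsPoly Y) :
    IsPoly (X ×ˢ Y) := by
  obtain ⟨S, rfl⟩ := hX
  obtain ⟨T, rfl⟩ := hY
  have h1 : (⋃ s ∈ S, convexHull ℝ (s : Set E)) ×ˢ (⋃ t ∈ T, convexHull ℝ (t : Set F)) =
      ⋃ s ∈ (S : Set (Finset E)), ⋃ t ∈ (T : Set (Finset F)),
        convexHull ℝ (s : Set E) ×ˢ convexHull ℝ (t : Set F) := by
    ext ⟨x, y⟩
    simp only [mem_prod, mem_iUnion, exists_prop, Finset.mem_coe]
    constructor
    · rintro ⟨⟨s, hs, hx⟩, t, ht, hy⟩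
      exact ⟨s, hs, t, ht, hx, hy⟩
    · rintro ⟨s, hs, t, ht, hx, hy⟩
      exact ⟨⟨s, hs, hx⟩, t, ht, hy⟩
  rw [h1]
  refine IsPoly.biUnion S.finite_toSet fun s _ => IsPoly.biUnion T.finite_toSet fun t _ => ?_
  rw [← convexHull_prod]
  exact IsPoly.hull_finite (s.finite_toSet.prod t.finite_toSet)

theorem IsPoly.isCompact {X : Set E} (hX : IsPoly X) : IsCompact X := by
  obtain ⟨S, rfl⟩ := hX
  exact S.finite_toSet.isCompact_biUnion fun s _ => Set.Finite.isCompact_convexHull ℝ s.finite_toSet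

/-- Decomposition into simplices. -/
theorem IsPoly.exists_simplices {X : Set E} (hX : IsPoly X) :
    ∃ S : Finset (Finset E), X = (⋃ s ∈ S, convexHull ℝ (s : Set E)) ∧
      ∀ s ∈ S, s.Nonempty ∧ AffineIndependent ℝ (fun x : s => (x : E)) := by
  classical
  obtain ⟨S, rfl⟩ := hX
  refine ⟨(S.biUnion (fun s => s.powerset)).filter
    (fun t => t.Nonempty ∧ AffineIndependent ℝ (fun x : t => (x : E))), ?_, ?_⟩
  · ext x
    simp only [mem_iUnion, Finset.mem_filter, Finset.mem_biUnion, Finset.mem_powerset, exists_prop]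
    constructor
    · rintro ⟨s, hs, hx⟩
      rw [convexHull_eq_union] at hx
      simp only [mem_iUnion, exists_prop] at hx
      obtain ⟨t, hts, ht, hx⟩ := hx
      refine ⟨t, ⟨⟨s, hs, ?_⟩, ?_, ht⟩, hx⟩
      · exact Finset.coe_subset.1 hts
      · have : (t : Set E).Nonempty := convexHull_nonempty_iff.1 ⟨x, hx⟩
        exact Finset.coe_nonempty.1 this
    · rintro ⟨t, ⟨⟨s, hs, hts⟩, -⟩, hx⟩
      exact ⟨s, hs, convexHull_mono (Finset.coe_subset.2 hts) hx⟩
  · intro t ht
    exact (Finset.mem_filter.1 ht).2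

end Pool.H54.UB

end S_PA

section S_PB

/-!
# Row PB: a bounded intersection of finitely many closed half spaces is a polyhedron

Proof.  `P = {x | ∀ i, 0 ≤ A i x}` is convex, closed (affine maps are continuous in finite
dimension) and bounded, hence compact.  By Krein-Milman (`closure_convexHull_extremePoints` or
similar) `P = closure (convexHull (P.extremePoints ℝ))`.  The set of extreme points is finite: the
map `x ↦ {i | A i x = 0}` is injective on extreme points: if `x ≠ y` are extreme with the same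
active set, then for small `ε > 0` the points `x ± ε (x - y)` are in `P` (the active constraints are
affine and vanish at `x` and `y`, hence on the line; the others are positive at `x`), so `x` is the
midpoint of two different points of `P`.  The convex hull of a finite set is compact, hence closed,
so `P = convexHull (finite set)`.  (If `ι` is empty then boundedness forces `E` to be trivial, the
same proof works.)
-/

open Set Topology

namespace Pool.H54.UB

variable {E : Type*} [NormedAddCommGroup E] [NormedSpace ℝ E] [FiniteDimensional ℝ E]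

omit [FiniteDimensional ℝ E] in
private theorem PB_val (A : E →ᵃ[ℝ] ℝ) (x y : E) (t : ℝ) :
    A (x + t • (x - y)) = A x + t * (A x - A y) := by
  have h1 : A (x + t • (x - y)) = A.linear (t • (x - y)) + A x := by
    have := A.map_vadd x (t • (x - y))
    rwa [vadd_eq_add, vadd_eq_add, add_comm (t • (x - y)) x] at this
  have h2 : A.linear (x - y) = A x - A y := by
    have := A.linearMap_vsub x y
    rwa [vsub_eq_sub, vsub_eq_sub] at this
  rw [h1, map_smul, h2, smul_eq_mul]
  ring

theorem isPoly_of_halfspaces {ι : Type*} [Finite ι] (A : ι → E →ᵃ[ℝ] ℝ)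
    (hb : Bornology.IsBounded {x : E | ∀ i, 0 ≤ A i x}) :
    IsPoly {x : E | ∀ i, 0 ≤ A i x} := by
  obtain ⟨P, hP⟩ : ∃ P, P = {x : E | ∀ i, 0 ≤ A i x} := ⟨_, rfl⟩
  rw [← hP] at hb ⊢
  have hmem : ∀ x, x ∈ P ↔ ∀ i, 0 ≤ A i x := fun x => by rw [hP]; rfl
  have hPi : P = ⋂ i, (A i) ⁻¹' Ici 0 := by
    rw [hP]
    ext x
    simp
  have hconv : Convex ℝ P := by
    rw [hPi]
    exact convex_iInter fun i => (convex_Ici 0).affine_preimage (A i)
  have hclosed : IsClosed P := by
    rw [hPi]
    exact isClosed_iInter fun i => isClosed_Ici.preimage (A i).continuous_of_finiteDimensional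
  have hcomp : IsCompact P := Metric.isCompact_of_isClosed_isBounded hclosed hb
  have hinj : InjOn (fun x : E => {i | A i x = 0}) (P.extremePoints ℝ) := by
    intro x hx y hy hxy
    by_contra hne
    have hx' := mem_extremePoints.1 hx
    have hy' := mem_extremePoints.1 hy
    have hev : ∀ᶠ t in 𝓝 (0 : ℝ), ∀ i, 0 ≤ A i x + t * (A i x - A i y) := by
      rw [Filter.eventually_all]
      intro i
      by_cases h0 : A i x = 0
      · have h1 : A i y = 0 := by
          have : i ∈ {i | A i x = 0} := h0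
          have h2 : i ∈ {i | A i y = 0} := by
            have h3 : {i | A i x = 0} = {i | A i y = 0} := hxy
            rw [← h3]
            exact this
          exact h2
        refine Filter.Eventually.of_forall fun t => ?_
        rw [h0, h1]
        simp
      · have hpos : 0 < A i x := lt_of_le_of_ne ((hmem x).1 hx'.1 i) (Ne.symm h0)
        have hc : Continuous fun t : ℝ => A i x + t * (A i x - A i y) := by fun_prop
        have h2 := hc.continuousAt (x := (0 : ℝ))
        have h3 : (0 : ℝ) < A i x + 0 * (A i x - A i y) := by rw [zero_mul, add_zero]; exact hpos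
        exact (h2.eventually (lt_mem_nhds h3)).mono fun t ht => ht.le
    obtain ⟨δ, hδ, hball⟩ := Metric.eventually_nhds_iff.1 hev
    have hp1 : x + (δ / 2) • (x - y) ∈ P := by
      rw [hmem]
      intro i
      rw [PB_val]
      refine hball ?_ i
      rw [Real.dist_eq, sub_zero, abs_of_pos (by positivity)]
      linarith
    have hp2 : x + (-(δ / 2)) • (x - y) ∈ P := by
      rw [hmem]
      intro i
      rw [PB_val]
      refine hball ?_ i
      rw [Real.dist_eq, sub_zero, abs_neg, abs_of_pos (by positivity)]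
      linarith
    have hseg : x ∈ openSegment ℝ (x + (δ / 2) • (x - y)) (x + (-(δ / 2)) • (x - y)) := by
      refine ⟨1 / 2, 1 / 2, by norm_num, by norm_num, by norm_num, ?_⟩
      module
    have h4 := (hx'.2 _ hp1 _ hp2 hseg).1
    have h5 : (δ / 2) • (x - y) = 0 := by
      have := congrArg (fun z => z - x) h4
      simpa using this
    rcases smul_eq_zero.1 h5 with h6 | h6
    · linarith
    · exact hne (sub_eq_zero.1 h6)
  have hfin : (P.extremePoints ℝ).Finite := (Set.toFinite _).of_finite_image hinj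
  have hkm := closure_convexHull_extremePoints hcomp hconv
  have hcl : IsClosed (convexHull ℝ (P.extremePoints ℝ)) := hfin.isClosed_convexHull ℝ
  rw [hcl.closure_eq] at hkm
  refine ⟨{hfin.toFinset}, ?_⟩
  rw [Finset.set_biUnion_singleton, hfin.coe_toFinset, hkm]

end Pool.H54.UB

end S_PB

section S_PC

/-!
# Row PC: a simplex is an intersection of half spaces

Proof.  Let `s` be affinely independent and nonempty.  Extend it to an affine basis `b` of `E`
(`exists_affineBasis` / `AffineBasis.exists_affine_subbasis`, `AffineIndependent.exists_subset_...`;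
finite because `E` is finite dimensional) and take the barycentric coordinates `b.coord i`
(affine functionals `E →ᵃ[ℝ] ℝ`): a point is in `convexHull s` iff all coordinates are `≥ 0` and the
coordinates outside `s` are `= 0`, i.e. also `0 ≤ - b.coord i x` for `i ∉ s`.
(`AffineBasis.convexHull_eq_nonneg_coord` is the case where `s` is the whole basis.)
-/

open Set Topology

namespace Pool.H54.UB

variable {E : Type*} [NormedAddCommGroup E] [NormedSpace ℝ E] [FiniteDimensional ℝ E]

theorem simplex_halfspaces (s : Finset E) (hne : s.Nonempty)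
    (hs : AffineIndependent ℝ (fun x : s => (x : E))) :
    ∃ (n : ℕ) (A : Fin n → E →ᵃ[ℝ] ℝ), convexHull ℝ (s : Set E) = {x | ∀ i, 0 ≤ A i x} := by
  classical
  obtain ⟨t, hst, hti, htop⟩ := exists_subset_affineIndependent_affineSpan_eq_top hs
  have htf : t.Finite := finite_set_of_fin_dim_affineIndependent ℝ hti
  have : Fintype t := htf.fintype
  let b : AffineBasis t ℝ E := ⟨fun p => (p : E), hti, by rw [Subtype.range_coe]; exact htop⟩
  have hb : ∀ i : t, b i = (i : E) := fun _ => rfl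
  let ι := t ⊕ {i : t // (i : E) ∉ s}
  let e : ι ≃ Fin (Fintype.card ι) := Fintype.equivFin ι
  let A : ι → E →ᵃ[ℝ] ℝ := Sum.elim (fun i => b.coord i) (fun i => -b.coord i.1)
  refine ⟨Fintype.card ι, fun i => A (e.symm i), ?_⟩
  have h1 : {x : E | ∀ i, 0 ≤ A (e.symm i) x} =
      {x | (∀ i : t, 0 ≤ b.coord i x) ∧ ∀ i : t, (i : E) ∉ s → b.coord i x = 0} := by
    ext x
    simp only [mem_ofPred_eq]
    constructor
    · intro h
      have h' : ∀ i : ι, 0 ≤ A i x := fun i => by
        have := h (e i)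
        rwa [Equiv.symm_apply_apply] at this
      refine ⟨fun i => h' (Sum.inl i), fun i hi => le_antisymm ?_ (h' (Sum.inl i))⟩
      have h2 : 0 ≤ -(b.coord i x) := h' (Sum.inr ⟨i, hi⟩)
      linarith
    · rintro ⟨h2, h3⟩ i
      rcases e.symm i with j | j
      · exact h2 j
      · change 0 ≤ -(b.coord j.1 x)
        rw [h3 j.1 j.2, neg_zero]
  rw [h1]
  apply subset_antisymm
  · refine convexHull_min ?_ ?_
    · intro x hx
      have hxt : x ∈ t := hst hx
      have h2 : x = b ⟨x, hxt⟩ := rfl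
      refine ⟨fun i => ?_, fun i hi => ?_⟩
      · rw [h2, b.coord_apply]
        split_ifs <;> norm_num
      · rw [h2, b.coord_apply_ne]
        rintro rfl
        exact hi hx
    · intro x hx y hy a c ha hc hac
      have hcomb : ∀ i : t, b.coord i (a • x + c • y) = a * b.coord i x + c * b.coord i y := by
        intro i
        have h := Convex.combo_affine_apply (f := b.coord i) (x := x) (y := y) hac
        simpa using h
      refine ⟨fun i => ?_, fun i hi => ?_⟩
      · rw [hcomb]
        have := hx.1 i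
        have := hy.1 i
        positivity
      · rw [hcomb, hx.2 i hi, hy.2 i hi]
        ring
  · rintro x ⟨hx1, hx2⟩
    have h3 : ∑ i ∈ Finset.univ.filter (fun i : t => (i : E) ∈ s), b.coord i x = 1 := by
      rw [← b.sum_coord_apply_eq_one x]
      refine Finset.sum_subset (Finset.subset_univ _) fun i _ hi => hx2 i ?_
      simpa using hi
    have h4 : ∑ i ∈ Finset.univ.filter (fun i : t => (i : E) ∈ s), b.coord i x • (i : E) = x := by
      conv_rhs => rw [← b.linear_combination_coord_eq_self x]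
      refine Finset.sum_subset (Finset.subset_univ _) fun i _ hi => ?_
      rw [hx2 i (by simpa using hi), zero_smul]
    rw [← h4]
    refine (convex_convexHull ℝ _).sum_mem (fun i _ => hx1 i) h3 fun i hi => ?_
    exact subset_convexHull ℝ _ (Finset.mem_coe.2 (Finset.mem_filter.1 hi).2)

open scoped Pointwise in
/-- Every bounded set is contained in a simplex. -/
theorem exists_big_simplex {X : Set E} (hX : Bornology.IsBounded X) :
    ∃ s : Finset E, s.Nonempty ∧ AffineIndependent ℝ (fun x : s => (x : E)) ∧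
      X ⊆ convexHull ℝ (s : Set E) := by
  classical
  obtain ⟨b, hb, -⟩ := exists_mem_interior_convexHull_affineBasis (s := (univ : Set E)) (x := 0)
    Filter.univ_mem
  obtain ⟨ε, hε, hball⟩ := Metric.isOpen_iff.1 isOpen_interior 0 hb
  obtain ⟨M, hM⟩ := hX.subset_closedBall (0 : E)
  let R : ℝ := (|M| + 1) / ε
  have hM0 : 0 < |M| + 1 := by positivity
  have hR : 0 < R := div_pos hM0 hε
  have hRi : AffineIndependent ℝ (fun i => R • b i) := by
    have h := b.ind.map' ((R • (LinearMap.id : E →ₗ[ℝ] E)).toAffineMap) (by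
      intro x y hxy
      have h2 : R • x = R • y := hxy
      exact smul_right_injective E hR.ne' h2)
    exact h
  refine ⟨Finset.univ.image (fun i => R • b i), ?_, ?_, ?_⟩
  · exact Finset.univ_nonempty.image _
  · have h := hRi.range
    have hr : ((Finset.univ.image (fun i => R • b i) : Finset E) : Set E) = range (fun i => R • b i) := by
      simp
    have h2 : AffineIndependent ℝ (fun x : ((Finset.univ.image (fun i => R • b i) : Finset E) : Set E) => (x : E)) := by
      rw [hr]
      exact h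
    exact h2
  · have hr : ((Finset.univ.image (fun i => R • b i) : Finset E) : Set E) = R • range b := by
      rw [Finset.coe_image, Finset.coe_univ, image_univ, ← image_smul, ← range_comp]
      rfl
    rw [hr, convexHull_smul]
    intro x hx
    rw [mem_smul_set_iff_inv_smul_mem₀ hR.ne']
    apply interior_subset
    apply hball
    have h5 : ‖x‖ ≤ M := by simpa using hM hx
    rw [mem_ball_zero_iff, norm_smul, norm_inv, Real.norm_of_nonneg hR.le]
    have h6 : R⁻¹ * (|M| + 1) = ε := by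
      change ((|M| + 1) / ε)⁻¹ * (|M| + 1) = ε
      field_simp
    have h7 : ‖x‖ < |M| + 1 := by
      have := le_abs_self M
      linarith
    calc R⁻¹ * ‖x‖ < R⁻¹ * (|M| + 1) := by
          apply mul_lt_mul_of_pos_left h7
          positivity
      _ = ε := h6

end Pool.H54.UB

end S_PC

section S_PD

/-!
# Row PD: intersections and affine preimages of polyhedra

Proof.  By `IsPoly.exists_simplices` reduce to simplices; by `simplex_halfspaces` the set in
question (`conv s ∩ conv t`, resp. `conv s ∩ A⁻¹ (conv t)`, resp. `conv s ∩ {0 ≤ a}`) is a bounded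
intersection of finitely many half spaces; apply `isPoly_of_halfspaces`, and take finite unions.
-/

open Set Topology

namespace Pool.H54.UB

variable {E F : Type*} [NormedAddCommGroup E] [NormedSpace ℝ E] [FiniteDimensional ℝ E]
  [NormedAddCommGroup F] [NormedSpace ℝ F] [FiniteDimensional ℝ F]

/-- Adding finitely many affine inequalities to a polyhedron. -/
theorem PD_core {X : Set E} (hX : IsPoly X) {ι : Type*} [Finite ι] (B : ι → E →ᵃ[ℝ] ℝ) :
    IsPoly (X ∩ {x | ∀ i, 0 ≤ B i x}) := by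
  obtain ⟨S, hS, hSs⟩ := hX.exists_simplices
  have h1 : X ∩ {x | ∀ i, 0 ≤ B i x} =
      ⋃ s ∈ (S : Set (Finset E)), (convexHull ℝ (s : Set E) ∩ {x | ∀ i, 0 ≤ B i x}) := by
    rw [hS]
    ext x
    simp only [mem_inter_iff, mem_iUnion, Finset.mem_coe, exists_prop]
    constructor
    · rintro ⟨⟨s, hs, hx⟩, hb⟩
      exact ⟨s, hs, hx, hb⟩
    · rintro ⟨s, hs, hx, hb⟩
      exact ⟨⟨s, hs, hx⟩, hb⟩
  rw [h1]
  refine IsPoly.biUnion S.finite_toSet ?_
  intro s hs
  obtain ⟨n, A, hA⟩ := simplex_halfspaces s (hSs s hs).1 (hSs s hs).2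
  have hset : convexHull ℝ (s : Set E) ∩ {x | ∀ i, 0 ≤ B i x} =
      {x | ∀ i : Fin n ⊕ ι, 0 ≤ (Sum.elim A B i) x} := by
    rw [hA]
    ext x
    simp only [mem_inter_iff, mem_setOf_eq, Sum.forall, Sum.elim_inl, Sum.elim_inr]
  rw [hset]
  refine isPoly_of_halfspaces _ ?_
  rw [← hset]
  exact ((IsPoly.hull s).isCompact.isBounded).subset inter_subset_left

theorem IsPoly.inter_preimage {X : Set E} {Y : Set F} (hX : IsPoly X) (hY : IsPoly Y)
    (A : E →ᵃ[ℝ] F) : IsPoly (X ∩ A ⁻¹' Y) := by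
  obtain ⟨T, hT, hTs⟩ := hY.exists_simplices
  have h1 : X ∩ A ⁻¹' Y =
      ⋃ t ∈ (T : Set (Finset F)), (X ∩ A ⁻¹' (convexHull ℝ (t : Set F))) := by
    rw [hT]
    ext x
    simp only [mem_inter_iff, mem_preimage, mem_iUnion, Finset.mem_coe, exists_prop]
    constructor
    · rintro ⟨hx, t, ht, hA⟩
      exact ⟨t, ht, hx, hA⟩
    · rintro ⟨t, ht, hx, hA⟩
      exact ⟨hx, t, ht, hA⟩
  rw [h1]
  refine IsPoly.biUnion T.finite_toSet ?_
  intro t ht
  obtain ⟨n, B, hB⟩ := simplex_halfspaces t (hTs t ht).1 (hTs t ht).2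
  have hset : X ∩ A ⁻¹' (convexHull ℝ (t : Set F)) =
      X ∩ {x | ∀ i, 0 ≤ ((B i).comp A) x} := by
    rw [hB]
    rfl
  rw [hset]
  exact PD_core hX _

theorem IsPoly.inter {X Y : Set E} (hX : IsPoly X) (hY : IsPoly Y) : IsPoly (X ∩ Y) :=
  hX.inter_preimage hY (AffineMap.id ℝ E)

theorem IsPoly.inter_halfspace {X : Set E} (hX : IsPoly X) (a : E →ᵃ[ℝ] ℝ) :
    IsPoly (X ∩ {x | 0 ≤ a x}) := by
  have h := PD_core hX (fun _ : Unit => a)
  have hset : {x : E | ∀ _ : Unit, 0 ≤ a x} = {x | 0 ≤ a x} := by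
    ext x
    simp
  rwa [hset] at h

theorem IsPoly.inter_hyperplane {X : Set E} (hX : IsPoly X) (a : E →ᵃ[ℝ] ℝ) :
    IsPoly (X ∩ {x | a x = 0}) := by
  have h := (hX.inter_halfspace a).inter_halfspace (-a)
  have hset : X ∩ {x : E | 0 ≤ a x} ∩ {x | 0 ≤ (-a) x} = X ∩ {x | a x = 0} := by
    ext x
    simp only [mem_inter_iff, mem_setOf_eq]
    have hn : (-a) x = -(a x) := rfl
    rw [hn]
    constructor
    · rintro ⟨⟨hx, h1⟩, h2⟩
      exact ⟨hx, by linarith⟩
    · rintro ⟨hx, h1⟩
      exact ⟨⟨hx, by linarith⟩, by linarith⟩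
  rwa [hset] at h

/-- Bounded half space intersections, version with an index set and inequalities `a ≤ b`. -/
theorem isPoly_box {m : ℕ} (a b : Fin m → ℝ) :
    IsPoly {y : Fin m → ℝ | ∀ i, a i ≤ y i ∧ y i ≤ b i} := by
  let P : Fin m → (Fin m → ℝ) →ᵃ[ℝ] ℝ := fun i =>
    (LinearMap.proj (R := ℝ) (φ := fun _ : Fin m => ℝ) i).toAffineMap
  let C : ℝ → (Fin m → ℝ) →ᵃ[ℝ] ℝ := fun c => AffineMap.const ℝ (Fin m → ℝ) c
  have hset : {y : Fin m → ℝ | ∀ i, a i ≤ y i ∧ y i ≤ b i} =
      {y | ∀ k : Fin m ⊕ Fin m, 0 ≤ (Sum.elim (fun i => P i - C (a i))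
        (fun i => C (b i) - P i) k) y} := by
    ext y
    simp only [mem_setOf_eq, Sum.forall, Sum.elim_inl, Sum.elim_inr]
    have h1 : ∀ i, (P i - C (a i)) y = y i - a i := fun i => rfl
    have h2 : ∀ i, (C (b i) - P i) y = b i - y i := fun i => rfl
    simp only [h1, h2, sub_nonneg]
    exact forall_and
  rw [hset]
  refine isPoly_of_halfspaces _ ?_
  rw [← hset]
  refine (Metric.isBounded_Icc a b).subset ?_
  intro y hy
  exact ⟨fun i => (hy i).1, fun i => (hy i).2⟩

end Pool.H54.UB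

end S_PD

section S_GA

/-!
# Row GA: basic facts on the geometric complexes `GC`

`GC.IsCarrier K x s`: `x` has strictly positive barycentric coordinates with respect to the face `s`.

* `exists_carrier`: a point of `convexHull s` is a convex combination of `s`; drop the vertices with
  weight 0 (the remaining set is nonempty since the weights sum to 1) and use `K.down`.
* `carrier_unique`: `K.uniq`.
* `affineIndependent`: if `Σ_{x∈s} c x = 0`, `Σ c x • x = 0`, `c ≠ 0`, compare the positive weights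
  `1/|s|` and `1/|s| + ε c` for small `ε > 0`: contradiction with `K.uniq` (`s = t`).
* `carrier_sub`: if `x ∈ convexHull s`, `s` a face, then the carrier of `x` is contained in `s`
  (the carrier produced inside `s` is the unique one).
* `adapted` lemmas: unfold.
* `ofSimplex`: all nonempty subsets of an affinely independent finset; `uniq` from affine
  independence (extend weights by zero; `affineIndependent_iff_...`, or
  `AffineIndependent` + `Finset.affineCombination` equality).
* `restrict`: the subcomplex of the faces contained in an adapted set.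
* `exists_top_nhds`/finite closed cover: every point `x` of the space has a neighbourhood `U` such
  that all points of `U ∩ K.space` have a carrier containing the carrier of `x` (the union of the
  hulls of the faces not containing the carrier of `x` is closed and does not contain `x`).
-/

open Set Topology

namespace Pool.H54.UB

variable {E : Type*} [NormedAddCommGroup E] [NormedSpace ℝ E]

/-- `s` is the carrier of `x`. -/
def GC.IsCarrier (K : GC E) (x : E) (s : Finset E) : Prop :=
  s ∈ K.faces ∧ ∃ w : E → ℝ, (∀ y ∈ s, 0 < w y) ∧ ∑ y ∈ s, w y = 1 ∧ ∑ y ∈ s, w y • y = x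

theorem GC.exists_carrier {K : GC E} {x : E} {s : Finset E} (hs : s ∈ K.faces)
    (hx : x ∈ convexHull ℝ (s : Set E)) : ∃ t ⊆ s, K.IsCarrier x t := by
  classical
  obtain ⟨w, hw0, hw1, hwx⟩ := Finset.mem_convexHull'.1 hx
  have hsub : s.filter (fun y => 0 < w y) ⊆ s := Finset.filter_subset _ _
  have hzero : ∀ y ∈ s, y ∉ s.filter (fun y => 0 < w y) → w y = 0 := by
    intro y hy hny
    have h1 : ¬ 0 < w y := fun h => hny (Finset.mem_filter.2 ⟨hy, h⟩)
    exact le_antisymm (not_lt.1 h1) (hw0 y hy)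
  have hsum : ∑ y ∈ s.filter (fun y => 0 < w y), w y = 1 := by
    rw [Finset.sum_subset hsub hzero]; exact hw1
  have hsum2 : ∑ y ∈ s.filter (fun y => 0 < w y), w y • y = x := by
    rw [Finset.sum_subset hsub (fun y hy hny => by rw [hzero y hy hny, zero_smul])]; exact hwx
  have hne : (s.filter (fun y => 0 < w y)).Nonempty := by
    rw [Finset.nonempty_iff_ne_empty]
    intro h
    rw [h, Finset.sum_empty] at hsum
    exact zero_ne_one hsum
  exact ⟨_, hsub, K.down s hs _ hsub hne, w, fun y hy => (Finset.mem_filter.1 hy).2, hsum, hsum2⟩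

theorem GC.exists_carrier' {K : GC E} {x : E} (hx : x ∈ K.space) : ∃ t, K.IsCarrier x t := by
  obtain ⟨s, hs, hxs⟩ := Set.mem_iUnion₂.1 hx
  obtain ⟨t, -, ht⟩ := GC.exists_carrier hs hxs
  exact ⟨t, ht⟩

theorem GC.carrier_unique {K : GC E} {x : E} {s t : Finset E} (hs : K.IsCarrier x s)
    (ht : K.IsCarrier x t) : s = t := by
  obtain ⟨hs1, w, hw0, hw1, hwx⟩ := hs
  obtain ⟨ht1, v, hv0, hv1, hvx⟩ := ht
  exact (K.uniq s hs1 t ht1 w v hw0 hv0 hw1 hv1 (hwx.trans hvx.symm)).1

theorem GC.IsCarrier.mem_hull {K : GC E} {x : E} {s : Finset E} (h : K.IsCarrier x s) :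
    x ∈ convexHull ℝ (s : Set E) := by
  obtain ⟨_, w, hw0, hw1, hwx⟩ := h
  exact Finset.mem_convexHull'.2 ⟨w, fun y hy => (hw0 y hy).le, hw1, hwx⟩

theorem GC.carrier_sub {K : GC E} {x : E} {s t : Finset E} (hs : s ∈ K.faces)
    (hx : x ∈ convexHull ℝ (s : Set E)) (ht : K.IsCarrier x t) : t ⊆ s := by
  obtain ⟨t', ht', hc⟩ := GC.exists_carrier hs hx
  rw [GC.carrier_unique ht hc]
  exact ht'

theorem GC.affineIndependent {K : GC E} {s : Finset E} (hs : s ∈ K.faces) :
    AffineIndependent ℝ (fun x : s => (x : E)) := by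
  classical
  rw [affineIndependent_iff]
  intro u w hw0 hw1 e he
  obtain ⟨c, hc⟩ : ∃ c : E → ℝ, c = fun y => if h : y ∈ s then (if (⟨y, h⟩ : s) ∈ u then w ⟨y, h⟩ else 0) else 0 :=
    ⟨_, rfl⟩
  have hcs : ∀ y : s, c y = if y ∈ u then w y else 0 := by
    intro y
    rw [hc]
    simp only [y.2, dite_true]
  have h1 : ∑ y ∈ s, c y = 0 := by
    rw [← Finset.sum_coe_sort s (fun y => c y)]
    rw [Finset.sum_congr rfl (fun y _ => hcs y)]
    rw [Finset.sum_ite_mem, Finset.univ_inter]
    exact hw0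
  have h2 : ∑ y ∈ s, c y • y = 0 := by
    rw [← Finset.sum_coe_sort s (fun y => c y • y)]
    have : ∀ y : s, c y • (y : E) = if y ∈ u then w y • (y : E) else 0 := by
      intro y
      rw [hcs y]
      split_ifs
      · rfl
      · rw [zero_smul]
    rw [Finset.sum_congr rfl (fun y _ => this y)]
    rw [Finset.sum_ite_mem, Finset.univ_inter]
    exact hw1
  have hne : s.Nonempty := K.ne s hs
  have hn : (0 : ℝ) < s.card := by exact_mod_cast hne.card_pos
  have hM : (0 : ℝ) < 1 + ∑ y ∈ s, |c y| := by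
    have : 0 ≤ ∑ y ∈ s, |c y| := Finset.sum_nonneg (fun y _ => abs_nonneg _)
    linarith
  obtain ⟨M, hMd⟩ : ∃ M : ℝ, M = 1 + ∑ y ∈ s, |c y| := ⟨_, rfl⟩
  rw [← hMd] at hM
  have hlt : ∀ y ∈ s, |c y| < M := by
    intro y hy
    have : |c y| ≤ ∑ y ∈ s, |c y| := Finset.single_le_sum (f := fun y => |c y|) (fun y _ => abs_nonneg _) hy
    rw [hMd]; linarith
  have key := K.uniq s hs s hs (fun _ => 1 / (s.card : ℝ)) (fun y => 1 / (s.card : ℝ) * (1 + c y / M))
    (fun y _ => by positivity)
    (fun y hy => by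
      have h3 := hlt y hy
      have h4 : -(1 : ℝ) < c y / M := by
        rw [lt_div_iff₀ hM]
        have := neg_abs_le (c y)
        linarith
      have h5 : (0 : ℝ) < 1 + c y / M := by linarith
      positivity)
    (by
      rw [Finset.sum_const, nsmul_eq_mul]
      field_simp)
    (by
      rw [← Finset.mul_sum, Finset.sum_add_distrib, ← Finset.sum_div, h1, Finset.sum_const, nsmul_eq_mul]
      simp only [zero_div, add_zero, mul_one]
      field_simp)
    (by
      have h6 : ∀ y ∈ s, (1 / (s.card : ℝ) * (1 + c y / M)) • y =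
          (1 / (s.card : ℝ)) • y + (1 / (s.card : ℝ) / M) • (c y • y) := by
        intro y _
        rw [smul_smul, ← add_smul]
        congr 1
        ring
      rw [Finset.sum_congr rfl h6, Finset.sum_add_distrib, ← Finset.smul_sum (r := 1 / (s.card : ℝ) / M), h2,
        smul_zero, add_zero])
  have h7 := key.2 (e : E) e.2
  have h8 : c e = 0 := by
    have h9 : (1 / (s.card : ℝ)) * (c e / M) = 0 := by linarith
    have h10 : c e / M = 0 := by
      rcases mul_eq_zero.1 h9 with h | h
      · exact absurd h (one_div_pos.2 hn).ne'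
      · exact h
    rcases div_eq_zero_iff.1 h10 with h | h
    · exact h
    · exact absurd h hM.ne'
  rw [hcs e, if_pos he] at h8
  exact h8

theorem GC.mem_of_mem_hull {K : GC E} {s : Finset E} (hs : s ∈ K.faces) {v : E}
    (hv : v ∈ K.verts) (h : v ∈ convexHull ℝ (s : Set E)) : v ∈ s := by
  obtain ⟨t, ht, hvt⟩ := hv
  have hc : K.IsCarrier v {v} :=
    ⟨K.down t ht {v} (Finset.singleton_subset_iff.2 hvt) (Finset.singleton_nonempty v),
      fun _ => 1, fun _ _ => one_pos, by simp, by simp⟩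
  exact GC.carrier_sub hs h hc (Finset.mem_singleton_self v)

theorem GC.verts_carrier {K : GC E} {v : E} (hv : v ∈ K.verts) : K.IsCarrier v {v} := by
  obtain ⟨t, ht, hvt⟩ := hv
  exact ⟨K.down t ht {v} (Finset.singleton_subset_iff.2 hvt) (Finset.singleton_nonempty v),
      fun _ => 1, fun _ _ => one_pos, by simp, by simp⟩

theorem GC.isPoly (K : GC E) : IsPoly K.space :=
  ⟨K.fin.toFinset, by
    unfold GC.space
    ext x
    simp only [Set.mem_iUnion, Set.Finite.mem_toFinset]⟩

theorem GC.isPoly_adapted [FiniteDimensional ℝ E] {K : GC E} {Y : Set E} (h : K.Adapted Y)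
    (hY : Y ⊆ K.space) : IsPoly Y ∧ Y = ⋃ s ∈ {s | s ∈ K.faces ∧ convexHull ℝ (s : Set E) ⊆ Y},
      convexHull ℝ (s : Set E) := by
  classical
  have hEq : Y = ⋃ s ∈ {s | s ∈ K.faces ∧ convexHull ℝ (s : Set E) ⊆ Y},
      convexHull ℝ (s : Set E) := by
    ext x
    simp only [Set.mem_iUnion, Set.mem_ofPred_eq]
    constructor
    · intro hx
      obtain ⟨t, ht⟩ := GC.exists_carrier' (hY hx)
      have hm := ht.mem_hull
      obtain ⟨ht1, w, hw0, hw1, hwx⟩ := ht
      exact ⟨t, ⟨ht1, h t ht1 w hw0 hw1 (hwx.symm ▸ hx)⟩, hm⟩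
    · rintro ⟨s, ⟨_, hs⟩, hx⟩
      exact hs hx
  refine ⟨⟨(K.fin.toFinset).filter (fun s => convexHull ℝ (s : Set E) ⊆ Y), ?_⟩, hEq⟩
  conv_lhs => rw [hEq]
  ext x
  simp only [Set.mem_iUnion, Set.mem_ofPred_eq, Finset.mem_filter, Set.Finite.mem_toFinset]

theorem GC.adapted_iff {K : GC E} {Y : Set E} :
    K.Adapted Y ↔ ∀ x s, K.IsCarrier x s → x ∈ Y → convexHull ℝ (s : Set E) ⊆ Y := by
  constructor
  · rintro h x s ⟨hs, w, hw0, hw1, hwx⟩ hx
    exact h s hs w hw0 hw1 (hwx.symm ▸ hx)
  · intro h s hs w hw0 hw1 hx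
    exact h _ s ⟨hs, w, hw0, hw1, rfl⟩ hx

theorem GC.Adapted.inter {K : GC E} {Y Z : Set E} (hY : K.Adapted Y) (hZ : K.Adapted Z) :
    K.Adapted (Y ∩ Z) := by
  intro s hs w hw0 hw1 hx
  exact Set.subset_inter (hY s hs w hw0 hw1 hx.1) (hZ s hs w hw0 hw1 hx.2)

theorem GC.Adapted.union {K : GC E} {Y Z : Set E} (hY : K.Adapted Y) (hZ : K.Adapted Z) :
    K.Adapted (Y ∪ Z) := by
  intro s hs w hw0 hw1 hx
  rcases hx with hx | hx
  · exact (hY s hs w hw0 hw1 hx).trans Set.subset_union_left
  · exact (hZ s hs w hw0 hw1 hx).trans Set.subset_union_right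

/-- Points near `x` have a carrier that contains the carrier of `x`. -/
theorem GC.exists_nhd_star {K : GC E} {x : E} {s : Finset E} (hs : K.IsCarrier x s) :
    ∃ U ∈ 𝓝 x, ∀ y ∈ U ∩ K.space, ∀ t, K.IsCarrier y t → s ⊆ t := by
  have hfin : {t | t ∈ K.faces ∧ ¬ s ⊆ t}.Finite := K.fin.subset (fun t ht => ht.1)
  have hcl : IsClosed (⋃ t ∈ {t | t ∈ K.faces ∧ ¬ s ⊆ t}, convexHull ℝ (t : Set E)) :=
    hfin.isClosed_biUnion (fun t _ => (t.finite_toSet.isCompact_convexHull ℝ).isClosed)
  refine ⟨(⋃ t ∈ {t | t ∈ K.faces ∧ ¬ s ⊆ t}, convexHull ℝ (t : Set E))ᶜ, hcl.isOpen_compl.mem_nhds ?_, ?_⟩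
  · intro hx
    obtain ⟨t, ht, hxt⟩ := Set.mem_iUnion₂.1 hx
    exact ht.2 (GC.carrier_sub ht.1 hxt hs)
  · rintro y ⟨hy, -⟩ t ht
    by_contra hst
    exact hy (Set.mem_iUnion₂.2 ⟨t, ⟨ht.1, hst⟩, ht.mem_hull⟩)

/-- The full complex of an affinely independent set. -/
theorem GC.ofSimplex (s : Finset E) (hs : AffineIndependent ℝ (fun x : s => (x : E))) :
    ∃ K : GC E, (∀ t : Finset E, t ∈ K.faces ↔ t ⊆ s ∧ t.Nonempty) ∧
      (s.Nonempty → K.space = convexHull ℝ (s : Set E)) := by
  classical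
  have key : ∀ c : E → ℝ, ∑ y ∈ s, c y = 0 → ∑ y ∈ s, c y • y = 0 → ∀ y ∈ s, c y = 0 := by
    intro c h1 h2 y hy
    rw [affineIndependent_iff] at hs
    have h3 := hs Finset.univ (fun y : s => c y) (by rw [Finset.sum_coe_sort s (fun y => c y)]; exact h1)
      (by rw [Finset.sum_coe_sort s (fun y => c y • y)]; exact h2) ⟨y, hy⟩ (Finset.mem_univ _)
    exact h3
  have hext : ∀ t : Finset E, t ⊆ s → ∀ w : E → ℝ,
      ∑ y ∈ s, (if y ∈ t then w y else 0) = ∑ y ∈ t, w y := by
    intro t ht w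
    rw [Finset.sum_ite_mem, Finset.inter_eq_right.2 ht]
  have hext2 : ∀ t : Finset E, t ⊆ s → ∀ w : E → ℝ,
      ∑ y ∈ s, (if y ∈ t then w y else 0) • y = ∑ y ∈ t, w y • y := by
    intro t ht w
    have : ∀ y ∈ s, (if y ∈ t then w y else 0) • y = if y ∈ t then w y • y else 0 := by
      intro y _
      split_ifs
      · rfl
      · rw [zero_smul]
    rw [Finset.sum_congr rfl this, Finset.sum_ite_mem, Finset.inter_eq_right.2 ht]
  refine ⟨{ faces := {t | t ⊆ s ∧ t.Nonempty}
            fin := (s.powerset.finite_toSet).subset (fun t ht => by simpa using ht.1)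
            ne := fun t ht => ht.2
            down := fun t ht u hu hne => ⟨hu.trans ht.1, hne⟩
            uniq := ?_ }, fun t => Iff.rfl, ?_⟩
  · rintro t ⟨ht, -⟩ u ⟨hu, -⟩ w v hw0 hv0 hw1 hv1 hwv
    have hz := key (fun y => (if y ∈ t then w y else 0) - (if y ∈ u then v y else 0))
      (by rw [Finset.sum_sub_distrib, hext t ht, hext u hu, hw1, hv1, sub_self])
      (by
        simp only [sub_smul]
        rw [Finset.sum_sub_distrib, hext2 t ht, hext2 u hu, hwv, sub_self])
    have htu : t ⊆ u := by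
      intro y hy
      by_contra hyu
      have := hz y (ht hy)
      rw [if_pos hy, if_neg hyu, sub_zero] at this
      exact (hw0 y hy).ne' this
    have hut : u ⊆ t := by
      intro y hy
      by_contra hyt
      have := hz y (hu hy)
      rw [if_neg hyt, if_pos hy, zero_sub, neg_eq_zero] at this
      exact (hv0 y hy).ne' this
    refine ⟨htu.antisymm hut, fun y hy => ?_⟩
    have := hz y (ht hy)
    rw [if_pos hy, if_pos (htu hy)] at this
    linarith
  · intro hne
    unfold GC.space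
    apply Set.Subset.antisymm
    · refine Set.iUnion₂_subset (fun t ht => convexHull_mono ?_)
      exact_mod_cast ht.1
    · exact Set.subset_biUnion_of_mem (u := fun t : Finset E => convexHull ℝ (t : Set E))
        (show s ∈ {t | t ⊆ s ∧ t.Nonempty} from ⟨Finset.Subset.refl s, hne⟩)

/-- The subcomplex of the faces contained in `Y`. -/
theorem GC.restrict (K : GC E) (Y : Set E) (hY : K.Adapted Y) :
    ∃ K' : GC E, (∀ t, t ∈ K'.faces ↔ t ∈ K.faces ∧ convexHull ℝ (t : Set E) ⊆ Y) ∧
      K'.space = K.space ∩ Y ∧ ∀ Z, K.Adapted Z → K'.Adapted Z := by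
  refine ⟨{ faces := {t | t ∈ K.faces ∧ convexHull ℝ (t : Set E) ⊆ Y}
            fin := K.fin.subset (fun t ht => ht.1)
            ne := fun t ht => K.ne t ht.1
            down := fun t ht u hu hne => ⟨K.down t ht.1 u hu hne,
              (convexHull_mono (by exact_mod_cast hu)).trans ht.2⟩
            uniq := fun t ht u hu => K.uniq t ht.1 u hu.1 }, fun t => Iff.rfl, ?_, ?_⟩
  · unfold GC.space
    ext x
    simp only [Set.mem_iUnion, Set.mem_ofPred_eq, Set.mem_inter_iff]
    constructor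
    · rintro ⟨t, ⟨ht, htY⟩, hx⟩
      exact ⟨⟨t, ht, hx⟩, htY hx⟩
    · rintro ⟨⟨t, ht, hx⟩, hxY⟩
      obtain ⟨u, hut, hu⟩ := GC.exists_carrier ht hx
      have hm := hu.mem_hull
      obtain ⟨hu1, w, hw0, hw1, hwx⟩ := hu
      exact ⟨u, ⟨hu1, hY u hu1 w hw0 hw1 (hwx.symm ▸ hxY)⟩, hm⟩
  · intro Z hZ t ht w hw0 hw1 hx
    exact hZ t ht.1 w hw0 hw1 hx

end Pool.H54.UB

end S_GA

section S_GB

/-!
# Row GB: splitting an edge of a geometric complex

Let `{a, b}` be an edge (contained in some face), `0 < t < 1`, `c = (1-t) a + t b`.  New faces: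
* the faces of `K` that do not contain both `a` and `b`,
* `insert c s'` where `s'` is a (possibly empty) finset not containing both `a` and `b` with
  `s' ∪ {a, b} ∈ K.faces`.
(`c` is not a vertex of `K`, because its carrier is `{a, b}`.)

`uniq`: for a positive weight `w` on a new face `s` define the weight `Φ w` on `K`:
if `c ∉ s` then `w`, otherwise `w - w c 1_c + w c ((1-t) 1_a + t 1_b)`; it is positive exactly on the
face `s` resp. `(s \ {c}) ∪ {a, b}` of `K`, and has the same barycentre.  By `K.uniq` the weights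
`Φ w = Φ v =: u` agree.  Recover `w` from `u`: `w c = min (u a / (1-t)) (u b / t)` if both `u a` and
`u b` are positive, and `w c = 0` otherwise (because at least one of `w a`, `w b` is `0`), and then
`w a = u a - (1-t) w c`, `w b = u b - t w c`, `w x = u x` for the other `x`.  So `w = v` as functions
supported on the faces, and the faces (supports) are equal.

`space`: `⊆`: every new face lies in the hull of an old face.  `⊇`: given a positive weight `u` on an
old face `s`: if `s` does not contain both `a` and `b` nothing to do; otherwise use the formula above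
to write the point with the new weights.

Edges of the new complex: read off from the description of the new faces.
-/

open Set Topology

namespace Pool.H54.UB

variable {E : Type*} [NormedAddCommGroup E] [NormedSpace ℝ E]

/-- `u ≠ v` are the ends of an edge. -/
def GC.Edge (K : GC E) (u v : E) : Prop := u ≠ v ∧ ∃ s ∈ K.faces, u ∈ s ∧ v ∈ s

set_option linter.unusedSectionVars false

open Classical in
/-- the old face that carries the new face `s` -/
noncomputable def GB_car (a b c : E) (s : Finset E) : Finset E :=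
  if c ∈ s then s.erase c ∪ {a, b} else s

open Classical in
/-- extension by zero -/
noncomputable def GB_ext (s : Finset E) (w : E → ℝ) (x : E) : ℝ := if x ∈ s then w x else 0

open Classical in
/-- the weights on the old face -/
noncomputable def GB_push (a b c : E) (t : ℝ) (s : Finset E) (w : E → ℝ) (x : E) : ℝ :=
  if x = c then 0 else GB_ext s w x + GB_ext s w c * (if x = a then 1 - t else if x = b then t else 0)

theorem GB_ext_nonneg {s : Finset E} {w : E → ℝ} (hw : ∀ x ∈ s, 0 < w x) (x : E) :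
    0 ≤ GB_ext s w x := by
  unfold GB_ext
  split_ifs with h
  · exact (hw x h).le
  · exact le_rfl

theorem GB_ext_pos {s : Finset E} {w : E → ℝ} (hw : ∀ x ∈ s, 0 < w x) (x : E) :
    0 < GB_ext s w x ↔ x ∈ s := by
  unfold GB_ext
  split_ifs with h
  · exact ⟨fun _ => h, fun _ => hw x h⟩
  · exact ⟨fun h1 => absurd h1 (lt_irrefl _), fun h1 => absurd h1 h⟩

theorem GB_ext_zero {s : Finset E} {w : E → ℝ} {x : E} (h : x ∉ s) : GB_ext s w x = 0 := by
  unfold GB_ext
  rw [if_neg h]

theorem GB_ext_mem {s : Finset E} {w : E → ℝ} {x : E} (h : x ∈ s) : GB_ext s w x = w x := by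
  unfold GB_ext
  rw [if_pos h]

theorem GB_car_mem {a b c x : E} {s : Finset E} (hx : x ∈ s) (hxc : x ≠ c) :
    x ∈ GB_car a b c s := by
  classical
  unfold GB_car
  split_ifs
  · exact Finset.mem_union_left _ (Finset.mem_erase.2 ⟨hxc, hx⟩)
  · exact hx

theorem GB_car_ab {a b c : E} {s : Finset E} (hc : c ∈ s) :
    a ∈ GB_car a b c s ∧ b ∈ GB_car a b c s := by
  classical
  unfold GB_car
  rw [if_pos hc]
  constructor <;> apply Finset.mem_union_right <;> simp

theorem GB_car_mono {a b c : E} {s s' : Finset E} (h : s ⊆ s') :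
    GB_car a b c s ⊆ GB_car a b c s' := by
  classical
  intro x hx
  unfold GB_car at hx
  split_ifs at hx with hc
  · rcases Finset.mem_union.1 hx with h1 | h1
    · exact GB_car_mem (h (Finset.mem_of_mem_erase h1)) (Finset.ne_of_mem_erase h1)
    · have h2 := GB_car_ab (a := a) (b := b) (h hc)
      simp only [Finset.mem_insert, Finset.mem_singleton] at h1
      rcases h1 with rfl | rfl
      · exact h2.1
      · exact h2.2
  · exact GB_car_mem (h hx) fun h1 => hc (h1 ▸ hx)

theorem GB_car_ne {a b c : E} {s : Finset E} (h : s.Nonempty) : (GB_car a b c s).Nonempty := by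
  by_cases hc : c ∈ s
  · exact ⟨a, (GB_car_ab hc).1⟩
  · obtain ⟨x, hx⟩ := h
    exact ⟨x, GB_car_mem hx fun h1 => hc (h1 ▸ hx)⟩

theorem GB_push_a {a b c : E} {t : ℝ} {s : Finset E} {w : E → ℝ} (hac : a ≠ c) :
    GB_push a b c t s w a = GB_ext s w a + GB_ext s w c * (1 - t) := by
  unfold GB_push
  rw [if_neg hac, if_pos rfl]

theorem GB_push_b {a b c : E} {t : ℝ} {s : Finset E} {w : E → ℝ} (hab : a ≠ b) (hbc : b ≠ c) :
    GB_push a b c t s w b = GB_ext s w b + GB_ext s w c * t := by
  unfold GB_push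
  rw [if_neg hbc, if_neg hab.symm, if_pos rfl]

theorem GB_push_x {a b c x : E} {t : ℝ} {s : Finset E} {w : E → ℝ} (hxa : x ≠ a) (hxb : x ≠ b)
    (hxc : x ≠ c) : GB_push a b c t s w x = GB_ext s w x := by
  unfold GB_push
  rw [if_neg hxc, if_neg hxa, if_neg hxb, mul_zero, add_zero]

theorem GB_push_pos {a b c : E} {t : ℝ} (ht0 : 0 < t) (ht1 : t < 1) (hab : a ≠ b) (hac : a ≠ c)
    (hbc : b ≠ c) {s : Finset E} {w : E → ℝ} (hw : ∀ x ∈ s, 0 < w x) {x : E}
    (hx : x ∈ GB_car a b c s) : 0 < GB_push a b c t s w x := by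
  classical
  have h0 := GB_ext_nonneg hw
  unfold GB_car at hx
  split_ifs at hx with hc
  · have hcp : 0 < GB_ext s w c := (GB_ext_pos hw c).2 hc
    have ha : 0 < GB_push a b c t s w a := by
      rw [GB_push_a hac]
      have := mul_pos hcp (show 0 < 1 - t by linarith)
      linarith [h0 a]
    have hb : 0 < GB_push a b c t s w b := by
      rw [GB_push_b hab hbc]
      have := mul_pos hcp ht0
      linarith [h0 b]
    by_cases hxa : x = a
    · rw [hxa]; exact ha
    by_cases hxb : x = b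
    · rw [hxb]; exact hb
    rcases Finset.mem_union.1 hx with h1 | h1
    · rw [GB_push_x hxa hxb (Finset.ne_of_mem_erase h1)]
      exact (GB_ext_pos hw x).2 (Finset.mem_of_mem_erase h1)
    · simp only [Finset.mem_insert, Finset.mem_singleton] at h1
      exact absurd h1 (by tauto)
  · have hxc : x ≠ c := fun h => hc (h ▸ hx)
    unfold GB_push
    rw [if_neg hxc, GB_ext_zero hc, zero_mul, add_zero]
    exact (GB_ext_pos hw x).2 hx

theorem GB_push_zero {a b c : E} {t : ℝ} {s : Finset E} {w : E → ℝ} {x : E}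
    (hx : x ∉ GB_car a b c s) : GB_push a b c t s w x = 0 := by
  unfold GB_push
  split_ifs with h1 h2 h3
  · rfl
  · have hc : c ∉ s := fun h => hx (h2 ▸ (GB_car_ab h).1)
    have hxs : x ∉ s := fun h => hx (GB_car_mem h h1)
    rw [GB_ext_zero hc, GB_ext_zero hxs, zero_mul, add_zero]
  · have hc : c ∉ s := fun h => hx (h3 ▸ (GB_car_ab h).2)
    have hxs : x ∉ s := fun h => hx (GB_car_mem h h1)
    rw [GB_ext_zero hc, GB_ext_zero hxs, zero_mul, add_zero]
  · have hxs : x ∉ s := fun h => hx (GB_car_mem h h1)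
    rw [GB_ext_zero hxs, mul_zero, add_zero]

theorem GB_push_sum {M : Type*} [AddCommGroup M] [Module ℝ M] {a b c : E} {t : ℝ} (hab : a ≠ b)
    (hac : a ≠ c) (hbc : b ≠ c) (g : E → M) (hg : g c = (1 - t) • g a + t • g b) (s : Finset E)
    (w : E → ℝ) :
    ∑ x ∈ GB_car a b c s, GB_push a b c t s w x • g x = ∑ x ∈ s, w x • g x := by
  classical
  by_cases hc : c ∈ s
  · have hcar : GB_car a b c s = s.erase c ∪ {a, b} := by
      unfold GB_car
      rw [if_pos hc]
    have hcn : c ∉ GB_car a b c s := by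
      rw [hcar, Finset.mem_union, Finset.mem_insert, Finset.mem_singleton]
      rintro (h | h | h)
      · exact Finset.ne_of_mem_erase h rfl
      · exact hac h.symm
      · exact hbc h.symm
    have h1 : ∀ x ∈ GB_car a b c s, GB_push a b c t s w x • g x = GB_ext s w x • g x +
        w c • ((if x = a then 1 - t else if x = b then t else 0 : ℝ) • g x) := by
      intro x hx
      have hxc : x ≠ c := fun h => hcn (h ▸ hx)
      unfold GB_push
      rw [if_neg hxc, GB_ext_mem hc, add_smul, mul_smul]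
    rw [Finset.sum_congr rfl h1, Finset.sum_add_distrib, ← Finset.smul_sum]
    have h2 : ∑ x ∈ GB_car a b c s, GB_ext s w x • g x = ∑ x ∈ s.erase c, w x • g x := by
      rw [← Finset.sum_subset (s₁ := s.erase c)]
      · exact Finset.sum_congr rfl fun x hx => by rw [GB_ext_mem (Finset.mem_of_mem_erase hx)]
      · rw [hcar]
        exact Finset.subset_union_left
      · intro x hx hx'
        have hxs : x ∉ s := fun h => hx' (Finset.mem_erase.2 ⟨fun h' => hcn (h' ▸ hx), h⟩)
        rw [GB_ext_zero hxs, zero_smul]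
    have h3 : ∑ x ∈ GB_car a b c s, (if x = a then 1 - t else if x = b then t else 0 : ℝ) • g x =
        g c := by
      have hpair : ({a, b} : Finset E) ⊆ GB_car a b c s := by
        rw [hcar]
        exact Finset.subset_union_right
      rw [← Finset.sum_subset hpair]
      · rw [Finset.sum_pair hab, if_pos rfl, if_neg hab.symm, if_pos rfl, hg]
      · intro x _ hx
        simp only [Finset.mem_insert, Finset.mem_singleton, not_or] at hx
        rw [if_neg hx.1, if_neg hx.2, zero_smul]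
    rw [h2, h3, Finset.sum_erase_add s _ hc]
  · have hcar : GB_car a b c s = s := by
      unfold GB_car
      rw [if_neg hc]
    rw [hcar]
    refine Finset.sum_congr rfl fun x hx => ?_
    have hxc : x ≠ c := fun h => hc (h ▸ hx)
    unfold GB_push
    rw [if_neg hxc, GB_ext_zero hc, zero_mul, add_zero, GB_ext_mem hx]

/-- the weights are determined by the pushed weights -/
theorem GB_recover {a b c : E} {t : ℝ} (ht0 : 0 < t) (ht1 : t < 1) (hab : a ≠ b) (hac : a ≠ c)
    (hbc : b ≠ c) {s s' : Finset E} {w v : E → ℝ} (hw : ∀ x ∈ s, 0 < w x) (hv : ∀ x ∈ s', 0 < v x)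
    (hs : ¬ (a ∈ s ∧ b ∈ s)) (hs' : ¬ (a ∈ s' ∧ b ∈ s'))
    (h : ∀ x, GB_push a b c t s w x = GB_push a b c t s' v x) :
    s = s' ∧ ∀ x ∈ s, w x = v x := by
  have n1 := GB_ext_nonneg hw
  have n2 := GB_ext_nonneg hv
  have e1 := h a
  have e2 := h b
  rw [GB_push_a hac, GB_push_a hac] at e1
  rw [GB_push_b hab hbc, GB_push_b hab hbc] at e2
  have z1 : GB_ext s w a = 0 ∨ GB_ext s w b = 0 := by
    by_cases ha : a ∈ s
    · exact Or.inr (GB_ext_zero fun hb => hs ⟨ha, hb⟩)
    · exact Or.inl (GB_ext_zero ha)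
  have z2 : GB_ext s' v a = 0 ∨ GB_ext s' v b = 0 := by
    by_cases ha : a ∈ s'
    · exact Or.inr (GB_ext_zero fun hb => hs' ⟨ha, hb⟩)
    · exact Or.inl (GB_ext_zero ha)
  have hcc : GB_ext s w c = GB_ext s' v c := by
    rcases lt_trichotomy (GB_ext s w c) (GB_ext s' v c) with h1 | h1 | h1
    · exfalso
      have q1 := mul_pos (sub_pos.2 h1) (show 0 < 1 - t by linarith)
      have q2 := mul_pos (sub_pos.2 h1) ht0
      rcases z1 with h2 | h2
      · have := n2 a
        nlinarith
      · have := n2 b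
        nlinarith
    · exact h1
    · exfalso
      have q1 := mul_pos (sub_pos.2 h1) (show 0 < 1 - t by linarith)
      have q2 := mul_pos (sub_pos.2 h1) ht0
      rcases z2 with h2 | h2
      · have := n1 a
        nlinarith
      · have := n1 b
        nlinarith
  have hall : ∀ x, GB_ext s w x = GB_ext s' v x := by
    intro x
    by_cases hxc : x = c
    · rw [hxc]; exact hcc
    by_cases hxa : x = a
    · rw [hxa]
      rw [hcc] at e1
      linarith
    by_cases hxb : x = b
    · rw [hxb]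
      rw [hcc] at e2
      linarith
    have e3 := h x
    rwa [GB_push_x hxa hxb hxc, GB_push_x hxa hxb hxc] at e3
  have hss : s = s' := by
    ext x
    rw [← GB_ext_pos hw x, ← GB_ext_pos hv x, hall x]
  refine ⟨hss, fun x hx => ?_⟩
  have := hall x
  rwa [GB_ext_mem hx, GB_ext_mem (hss ▸ hx)] at this

theorem GB_hull_sum {M : Type*} [AddCommGroup M] [Module ℝ M] {p q c : E} {τ m : ℝ}
    (hpq : p ≠ q) {s : Finset E} (hp : p ∈ s) (hq : q ∈ s) (hcs : c ∉ s)
    {u : E → ℝ} (hmp : m * (1 - τ) = u p) (g : E → M) (hg : g c = (1 - τ) • g p + τ • g q)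
    {s' : Finset E} (hs' : ∀ x, x ∈ s' ↔ x = c ∨ (x ∈ s ∧ x ≠ p)) (W : E → ℝ) (hWc : W c = m)
    (hWq : W q = u q - τ * m) (hW : ∀ x, x ≠ c → x ≠ q → W x = u x) :
    ∑ x ∈ s', W x • g x = ∑ x ∈ s, u x • g x := by
  classical
  have hs'e : s' = insert c (s.erase p) := by
    ext x
    rw [hs', Finset.mem_insert, Finset.mem_erase]
    tauto
  rw [hs'e, Finset.sum_insert (fun h => hcs (Finset.mem_of_mem_erase h)), hWc]
  have hqe : q ∈ s.erase p := Finset.mem_erase.2 ⟨hpq.symm, hq⟩
  have h2 : ∑ x ∈ s.erase p, W x • g x = ∑ x ∈ s.erase p, u x • g x - (τ * m) • g q := by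
    rw [← Finset.add_sum_erase _ _ hqe, ← Finset.add_sum_erase (s.erase p)
      (fun x => u x • g x) hqe]
    have h3 : ∀ x ∈ (s.erase p).erase q, W x • g x = u x • g x := by
      intro x hx
      have hxc : x ≠ c := fun h =>
        hcs (h ▸ Finset.mem_of_mem_erase (Finset.mem_of_mem_erase hx))
      rw [hW x hxc (Finset.ne_of_mem_erase hx)]
    rw [hWq, sub_smul, Finset.sum_congr rfl h3]
    abel
  rw [h2, hg, ← Finset.add_sum_erase s (fun x => u x • g x) hp, ← hmp]
  module

/-- replacing a vertex by the new vertex -/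
theorem GB_hull {p q c : E} {τ : ℝ} (h0 : 0 < τ) (h1 : τ < 1) (hpq : p ≠ q)
    (hc : c = (1 - τ) • p + τ • q) {s : Finset E} (hp : p ∈ s) (hq : q ∈ s) (hcs : c ∉ s)
    {u : E → ℝ} (hu : ∀ x ∈ s, 0 < u x) (hsum : ∑ x ∈ s, u x = 1)
    (hle : τ * u p ≤ (1 - τ) * u q) {s' : Finset E}
    (hs' : ∀ x, x ∈ s' ↔ x = c ∨ (x ∈ s ∧ x ≠ p)) :
    ∑ x ∈ s, u x • x ∈ convexHull ℝ (s' : Set E) := by
  classical
  have h1t : (0 : ℝ) < 1 - τ := by linarith
  obtain ⟨m, hm⟩ : ∃ m, m = u p / (1 - τ) := ⟨_, rfl⟩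
  have hmp : m * (1 - τ) = u p := by
    rw [hm]
    field_simp
  have hm0 : 0 < m := by
    rw [hm]
    exact div_pos (hu p hp) h1t
  have hmq : τ * m ≤ u q := by
    have h2 : (τ * m) * (1 - τ) ≤ u q * (1 - τ) := by
      rw [mul_assoc, hmp]
      linarith
    exact le_of_mul_le_mul_right h2 h1t
  have hqc : q ≠ c := fun h => hcs (h ▸ hq)
  have w1 : (if c = c then m else if c = q then u q - τ * m else u c) = m := if_pos rfl
  have w2 : (if q = c then m else if q = q then u q - τ * m else u q) = u q - τ * m := by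
    rw [if_neg hqc, if_pos rfl]
  have w3 : ∀ x, x ≠ c → x ≠ q →
      (if x = c then m else if x = q then u q - τ * m else u x) = u x := by
    intro x h2 h3
    rw [if_neg h2, if_neg h3]
  rw [Finset.mem_convexHull']
  refine ⟨fun x => if x = c then m else if x = q then u q - τ * m else u x, ?_, ?_, ?_⟩
  · intro x hx
    show 0 ≤ if x = c then m else if x = q then u q - τ * m else u x
    split_ifs with h2 h3
    · exact hm0.le
    · linarith
    · rcases (hs' x).1 hx with h4 | h4
      · exact absurd h4 h2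
      · exact (hu x h4.1).le
  · have h2 := GB_hull_sum hpq hp hq hcs hmp (fun _ => (1 : ℝ)) (by simp) hs'
      (fun x => if x = c then m else if x = q then u q - τ * m else u x) w1 w2 w3
    simp only [smul_eq_mul, mul_one] at h2
    rw [h2, hsum]
  · exact GB_hull_sum hpq hp hq hcs hmp (fun x => x) hc hs'
      (fun x => if x = c then m else if x = q then u q - τ * m else u x) w1 w2 w3

theorem GC.split (K : GC E) (a b : E) (hab : K.Edge a b) (t : ℝ) (ht0 : 0 < t) (ht1 : t < 1) :
    ∃ K' : GC E, K'.space = K.space ∧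
      (∀ s ∈ K'.faces, ∃ s' ∈ K.faces, convexHull ℝ (s : Set E) ⊆ convexHull ℝ (s' : Set E)) ∧
      (∀ u v, K'.Edge u v →
        (K.Edge u v ∧ ¬ (u = a ∧ v = b) ∧ ¬ (u = b ∧ v = a)) ∨
        (u = (1 - t) • a + t • b ∧ ∃ s ∈ K.faces, a ∈ s ∧ b ∈ s ∧ v ∈ s) ∨
        (v = (1 - t) • a + t • b ∧ ∃ s ∈ K.faces, a ∈ s ∧ b ∈ s ∧ u ∈ s)) := by
  classical
  obtain ⟨hne, s₀, hs₀, ha₀, hb₀⟩ := hab
  obtain ⟨c, hc⟩ : ∃ c, c = (1 - t) • a + t • b := ⟨_, rfl⟩
  have hpair : ({a, b} : Finset E) ∈ K.faces := by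
    refine K.down s₀ hs₀ _ ?_ ⟨a, by simp⟩
    intro x hx
    simp only [Finset.mem_insert, Finset.mem_singleton] at hx
    rcases hx with rfl | rfl
    · exact ha₀
    · exact hb₀
  -- `c` is not a vertex
  have hcv : ∀ s ∈ K.faces, c ∉ s := by
    intro s hs hcs
    have h1 : ({c} : Finset E) ∈ K.faces :=
      K.down s hs _ (Finset.singleton_subset_iff.2 hcs) ⟨c, by simp⟩
    have h2 := K.uniq _ h1 _ hpair (fun _ => 1) (fun x => if x = a then 1 - t else t)
      (fun _ _ => one_pos) (fun x _ => by split_ifs <;> linarith)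
      (by simp) (by rw [Finset.sum_pair hne, if_pos rfl, if_neg hne.symm]; ring)
      (by
        rw [Finset.sum_pair hne, if_pos rfl, if_neg hne.symm, Finset.sum_singleton, one_smul, hc])
    have h3 := congrArg Finset.card h2.1
    rw [Finset.card_pair hne, Finset.card_singleton] at h3
    omega
  have hac : a ≠ c := fun h => hcv _ hpair (by rw [← h]; simp)
  have hbc : b ≠ c := fun h => hcv _ hpair (by rw [← h]; simp)
  have hsub : ∀ s : Finset E, GB_car a b c s ∈ K.faces →
      convexHull ℝ (s : Set E) ⊆ convexHull ℝ (GB_car a b c s : Set E) := by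
    intro s _
    refine convexHull_min (fun x hx => ?_) (convex_convexHull ℝ _)
    by_cases hxc : x = c
    · rw [hxc]
      rw [hxc] at hx
      have h1 := GB_car_ab (a := a) (b := b) (Finset.mem_coe.1 hx)
      have h2 : (1 - t) • a + t • b ∈ convexHull ℝ (GB_car a b c s : Set E) :=
        (convex_convexHull ℝ _) (subset_convexHull ℝ _ (Finset.mem_coe.2 h1.1))
          (subset_convexHull ℝ _ (Finset.mem_coe.2 h1.2)) (sub_nonneg.2 ht1.le) ht0.le
          (sub_add_cancel _ _)
      rwa [← hc] at h2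
    · exact subset_convexHull ℝ _ (GB_car_mem (Finset.mem_coe.1 hx) hxc)
  let K' : GC E :=
    { faces := {s | s.Nonempty ∧ ¬ (a ∈ s ∧ b ∈ s) ∧ GB_car a b c s ∈ K.faces}
      fin := by
        refine Set.Finite.subset
          (Finset.finite_toSet (insert c K.verts_finite.toFinset).powerset) ?_
        rintro s ⟨-, -, h3⟩
        rw [Finset.mem_coe, Finset.mem_powerset]
        intro x hx
        by_cases hxc : x = c
        · rw [hxc]
          exact Finset.mem_insert_self _ _
        · refine Finset.mem_insert_of_mem ?_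
          rw [Set.Finite.mem_toFinset]
          exact ⟨_, h3, GB_car_mem hx hxc⟩
      ne := fun s hs => hs.1
      down := by
        rintro s ⟨-, h2, h3⟩ s' hs' hne'
        exact ⟨hne', fun h => h2 ⟨hs' h.1, hs' h.2⟩,
          K.down _ h3 _ (GB_car_mono hs') (GB_car_ne hne')⟩
      uniq := by
        rintro s ⟨-, h2, h3⟩ s' ⟨-, h2', h3'⟩ w v hw hv sw sv hwv
        have q1 := GB_push_sum (t := t) hne hac hbc (fun _ => (1 : ℝ)) (by simp) s w
        have q1' := GB_push_sum (t := t) hne hac hbc (fun _ => (1 : ℝ)) (by simp) s' v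
        have q2 := GB_push_sum (t := t) hne hac hbc (fun x => x) hc s w
        have q2' := GB_push_sum (t := t) hne hac hbc (fun x => x) hc s' v
        simp only [smul_eq_mul, mul_one] at q1 q1'
        have h4 := K.uniq _ h3 _ h3' (GB_push a b c t s w) (GB_push a b c t s' v)
          (fun x hx => GB_push_pos ht0 ht1 hne hac hbc hw hx)
          (fun x hx => GB_push_pos ht0 ht1 hne hac hbc hv hx)
          (q1.trans sw) (q1'.trans sv) ((q2.trans hwv).trans q2'.symm)
        refine GB_recover ht0 ht1 hne hac hbc hw hv h2 h2' fun x => ?_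
        by_cases hx : x ∈ GB_car a b c s
        · exact h4.2 x hx
        · rw [GB_push_zero hx]
          rw [h4.1] at hx
          rw [GB_push_zero hx] }
  have hK'f : ∀ s, s ∈ K'.faces ↔ s.Nonempty ∧ ¬ (a ∈ s ∧ b ∈ s) ∧ GB_car a b c s ∈ K.faces :=
    fun s => Iff.rfl
  have hfaces : ∀ s ∈ K'.faces, ∃ s' ∈ K.faces,
      convexHull ℝ (s : Set E) ⊆ convexHull ℝ (s' : Set E) := fun s hs =>
    ⟨GB_car a b c s, ((hK'f s).1 hs).2.2, hsub s ((hK'f s).1 hs).2.2⟩
  refine ⟨K', ?_, hfaces, ?_⟩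
  · apply Subset.antisymm
    · intro x hx
      unfold GC.space at hx ⊢
      simp only [mem_iUnion] at hx ⊢
      obtain ⟨s, hs, hx⟩ := hx
      obtain ⟨s', hs', h⟩ := hfaces s hs
      exact ⟨s', hs', h hx⟩
    · intro x hx
      obtain ⟨s, hs, u, hu, hu1, hux⟩ := GC.exists_carrier' hx
      have hcs := hcv s hs
      unfold GC.space
      simp only [mem_iUnion]
      by_cases hboth : a ∈ s ∧ b ∈ s
      · rcases le_total (t * u a) ((1 - t) * u b) with hle | hle
        · refine ⟨insert c (s.erase a), (hK'f _).2 ⟨⟨c, Finset.mem_insert_self _ _⟩, ?_, ?_⟩, ?_⟩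
          · rintro ⟨h1, -⟩
            rw [Finset.mem_insert] at h1
            rcases h1 with h1 | h1
            · exact hac h1
            · exact Finset.ne_of_mem_erase h1 rfl
          · refine K.down s hs _ ?_ (GB_car_ne ⟨c, Finset.mem_insert_self _ _⟩)
            intro y hy
            unfold GB_car at hy
            rw [if_pos (Finset.mem_insert_self _ _)] at hy
            simp only [Finset.mem_union, Finset.mem_erase, Finset.mem_insert,
              Finset.mem_singleton] at hy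
            rcases hy with ⟨h1, h2 | h2⟩ | h2 | h2
            · exact absurd h2 h1
            · exact h2.2
            · rw [h2]; exact hboth.1
            · rw [h2]; exact hboth.2
          · rw [← hux]
            refine GB_hull ht0 ht1 hne hc hboth.1 hboth.2 hcs hu hu1 hle fun y => ?_
            rw [Finset.mem_insert, Finset.mem_erase]
            tauto
        · refine ⟨insert c (s.erase b), (hK'f _).2 ⟨⟨c, Finset.mem_insert_self _ _⟩, ?_, ?_⟩, ?_⟩
          · rintro ⟨-, h1⟩
            rw [Finset.mem_insert] at h1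
            rcases h1 with h1 | h1
            · exact hbc h1
            · exact Finset.ne_of_mem_erase h1 rfl
          · refine K.down s hs _ ?_ (GB_car_ne ⟨c, Finset.mem_insert_self _ _⟩)
            intro y hy
            unfold GB_car at hy
            rw [if_pos (Finset.mem_insert_self _ _)] at hy
            simp only [Finset.mem_union, Finset.mem_erase, Finset.mem_insert,
              Finset.mem_singleton] at hy
            rcases hy with ⟨h1, h2 | h2⟩ | h2 | h2
            · exact absurd h2 h1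
            · exact h2.2
            · rw [h2]; exact hboth.1
            · rw [h2]; exact hboth.2
          · rw [← hux]
            refine GB_hull (p := b) (q := a) (τ := 1 - t) (by linarith) (by linarith) hne.symm
              (by rw [hc, sub_sub_cancel, add_comm]) hboth.2 hboth.1 hcs hu hu1 (by linarith)
              fun y => ?_
            rw [Finset.mem_insert, Finset.mem_erase]
            tauto
      · refine ⟨s, (hK'f s).2 ⟨K.ne s hs, hboth, ?_⟩, ?_⟩
        · unfold GB_car
          rw [if_neg hcs]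
          exact hs
        · rw [Finset.mem_convexHull']
          exact ⟨u, fun y hy => (hu y hy).le, hu1, hux⟩
  · rintro u v ⟨huv, s, hs, hus, hvs⟩
    obtain ⟨-, h2, h3⟩ := (hK'f s).1 hs
    by_cases huc : u = c
    · refine Or.inr (Or.inl ⟨by rw [huc, hc], GB_car a b c s, h3, ?_⟩)
      have h4 := GB_car_ab (a := a) (b := b) (huc ▸ hus)
      exact ⟨h4.1, h4.2, GB_car_mem hvs fun h => huv (by rw [huc, h])⟩
    by_cases hvc : v = c
    · refine Or.inr (Or.inr ⟨by rw [hvc, hc], GB_car a b c s, h3, ?_⟩)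
      have h4 := GB_car_ab (a := a) (b := b) (hvc ▸ hvs)
      exact ⟨h4.1, h4.2, GB_car_mem hus huc⟩
    · refine Or.inl ⟨⟨huv, GB_car a b c s, h3, GB_car_mem hus huc, GB_car_mem hvs hvc⟩, ?_, ?_⟩
      · rintro ⟨rfl, rfl⟩
        exact h2 ⟨hus, hvs⟩
      · rintro ⟨rfl, rfl⟩
        exact h2 ⟨hvs, hus⟩

end Pool.H54.UB

end S_GB

section S_GD

/-!
# Row GD: refining a complex so that finitely many affine functions have constant sign

`K.NoCross A`: no edge has ends with values of `A` of opposite strict signs.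

`refine_one`: induction on the (finite) number of ordered pairs `(u, v)` with `K.Edge u v` and
`A u * A v < 0`.  If there is such an edge `{a, b}` split it at the point `c` of the open segment with
`A c = 0` (`GC.split` with `t = A a / (A a - A b)`).  New edges have an end `c` with `A c = 0`, so
they are not crossing; the old edges except `{a, b}` remain: the number decreases.
Preservation: if `K.NoCross A'` then the new complex satisfies it: for a new edge `{c, x}`,
`a, b, x` in a common face: `A' c * A' x = (1-t) (A' a * A' x) + t (A' b * A' x) ≥ 0`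
(if `x = a`: `A' a * A' a ≥ 0`, fine).

`refine_list`: induction on the number of functionals.

`sign_on_face`: if `K.NoCross A` and `s` is a face then `A ≥ 0` on `s` or `A ≤ 0` on `s`.
-/

open Set Topology

namespace Pool.H54.UB

variable {E : Type*} [NormedAddCommGroup E] [NormedSpace ℝ E]

def GC.NoCross (K : GC E) (A : E →ᵃ[ℝ] ℝ) : Prop := ∀ u v, K.Edge u v → 0 ≤ A u * A v

theorem GD_aff (A : E →ᵃ[ℝ] ℝ) (a b : E) (t : ℝ) :
    A ((1 - t) • a + t • b) = (1 - t) * A a + t * A b := by
  have h := A.apply_lineMap a b t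
  rw [AffineMap.lineMap_apply_module, AffineMap.lineMap_apply_module] at h
  simpa [smul_eq_mul] using h

theorem GD_aff_sum (A : E →ᵃ[ℝ] ℝ) (s : Finset E) (w : E → ℝ) (hw : ∑ x ∈ s, w x = 1) :
    A (∑ x ∈ s, w x • x) = ∑ x ∈ s, w x * A x := by
  have h1 : ∀ x, A x = A.linear x + A 0 := fun x => by
    have := congrFun A.decomp x
    simpa using this
  rw [h1, map_sum]
  have h2 : ∑ x ∈ s, w x * A x = ∑ x ∈ s, (w x * A.linear x + w x * A 0) :=
    Finset.sum_congr rfl (fun x _ => by rw [h1 x]; ring)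
  rw [h2, Finset.sum_add_distrib, ← Finset.sum_mul, hw, one_mul]
  congr 1
  exact Finset.sum_congr rfl (fun x _ => by rw [map_smul, smul_eq_mul])

theorem GD_fin (K : GC E) (A : E →ᵃ[ℝ] ℝ) :
    {p : E × E | K.Edge p.1 p.2 ∧ A p.1 * A p.2 < 0}.Finite := by
  refine (K.verts_finite.prod K.verts_finite).subset ?_
  rintro ⟨u, v⟩ ⟨⟨-, s, hs, hu, hv⟩, -⟩
  exact ⟨⟨s, hs, hu⟩, ⟨s, hs, hv⟩⟩

theorem GD_pres {K : GC E} {A : E →ᵃ[ℝ] ℝ} (h : K.NoCross A) {a b x : E} {s : Finset E}
    (hs : s ∈ K.faces) (ha : a ∈ s) (hb : b ∈ s) (hx : x ∈ s) {t : ℝ} (ht0 : 0 < t) (ht1 : t < 1) :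
    0 ≤ A ((1 - t) • a + t • b) * A x := by
  have key : ∀ y ∈ s, 0 ≤ A y * A x := by
    intro y hy
    by_cases hyx : y = x
    · rw [hyx]; exact mul_self_nonneg _
    · exact h y x ⟨hyx, s, hs, hy, hx⟩
  rw [GD_aff]
  have h1 := mul_nonneg (sub_nonneg.2 ht1.le) (key a ha)
  have h2 := mul_nonneg ht0.le (key b hb)
  nlinarith

theorem GC.refine_one (K : GC E) (A : E →ᵃ[ℝ] ℝ) :
    ∃ K' : GC E, K'.space = K.space ∧
      (∀ s ∈ K'.faces, ∃ s' ∈ K.faces, convexHull ℝ (s : Set E) ⊆ convexHull ℝ (s' : Set E)) ∧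
      K'.NoCross A ∧ ∀ A' : E →ᵃ[ℝ] ℝ, K.NoCross A' → K'.NoCross A' := by
  obtain ⟨N, hN⟩ : ∃ N, {p : E × E | K.Edge p.1 p.2 ∧ A p.1 * A p.2 < 0}.ncard = N := ⟨_, rfl⟩
  induction N using Nat.strong_induction_on generalizing K with
  | _ N ih =>
    by_cases hemp : ∀ u v, K.Edge u v → 0 ≤ A u * A v
    · exact ⟨K, rfl, fun s hs => ⟨s, hs, subset_rfl⟩, hemp, fun A' h => h⟩
    · push Not at hemp
      obtain ⟨a, b, hab, hneg⟩ := hemp
      have hd : A a - A b ≠ 0 := by
        intro h
        have : A a = A b := by linarith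
        rw [this] at hneg
        exact absurd (mul_self_nonneg (A b)) (not_le.2 hneg)
      obtain ⟨t, ht⟩ : ∃ t, t = A a / (A a - A b) := ⟨_, rfl⟩
      have hmul : t * (A a - A b) = A a := by rw [ht, div_mul_cancel₀ _ hd]
      have hsq : 0 < (A a - A b) ^ 2 := by positivity
      have ht0 : 0 < t := by
        have h1 : t * (A a - A b) ^ 2 = A a * (A a - A b) := by rw [pow_two, ← mul_assoc, hmul]
        have h2 : 0 < A a * (A a - A b) := by nlinarith [mul_self_nonneg (A a)]
        rw [← h1] at h2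
        exact (pos_iff_pos_of_mul_pos h2).2 hsq
      have ht1 : t < 1 := by
        have h1 : (1 - t) * (A a - A b) ^ 2 = - (A b * (A a - A b)) := by
          have : (1 - t) * (A a - A b) = - A b := by linarith
          rw [pow_two, ← mul_assoc, this]; ring
        have h2 : 0 < - (A b * (A a - A b)) := by nlinarith [mul_self_nonneg (A b)]
        rw [← h1] at h2
        have := (pos_iff_pos_of_mul_pos h2).2 hsq
        linarith
      have hc : A ((1 - t) • a + t • b) = 0 := by
        rw [GD_aff]; linarith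
      obtain ⟨K1, h1s, h1f, h1e⟩ := K.split a b hab t ht0 ht1
      have hlt : {p : E × E | K1.Edge p.1 p.2 ∧ A p.1 * A p.2 < 0}.ncard < N := by
        rw [← hN]
        apply Set.ncard_lt_ncard _ (GD_fin K A)
        rw [Set.ssubset_iff_of_subset]
        · refine ⟨(a, b), ⟨hab, hneg⟩, ?_⟩
          rintro ⟨h, -⟩
          rcases h1e a b h with ⟨-, h2, -⟩ | ⟨h2, -⟩ | ⟨h2, -⟩
          · exact h2 ⟨rfl, rfl⟩
          · rw [← h2] at hc
            rw [hc] at hneg; simp at hneg
          · rw [← h2] at hc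
            rw [hc] at hneg; simp at hneg
        · rintro ⟨u, v⟩ ⟨h, hn⟩
          simp only at h hn
          rcases h1e u v h with ⟨h2, -⟩ | ⟨h2, -⟩ | ⟨h2, -⟩
          · exact ⟨h2, hn⟩
          · rw [h2, hc] at hn; simp at hn
          · rw [h2, hc] at hn; simp at hn
      obtain ⟨K2, h2s, h2f, h2c, h2p⟩ := ih _ hlt K1 rfl
      refine ⟨K2, h2s.trans h1s, ?_, h2c, ?_⟩
      · intro s hs
        obtain ⟨s', hs', hss⟩ := h2f s hs
        obtain ⟨s'', hs'', hss'⟩ := h1f s' hs'
        exact ⟨s'', hs'', hss.trans hss'⟩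
      · intro A' hA'
        apply h2p
        intro u v huv
        rcases h1e u v huv with ⟨h3, -⟩ | ⟨h3, s, hs, ha, hb, hv⟩ | ⟨h3, s, hs, ha, hb, hu⟩
        · exact hA' u v h3
        · rw [h3]
          exact GD_pres hA' hs ha hb hv ht0 ht1
        · rw [h3, mul_comm]
          exact GD_pres hA' hs ha hb hu ht0 ht1

theorem GC.refine_list (K : GC E) (L : List (E →ᵃ[ℝ] ℝ)) :
    ∃ K' : GC E, K'.space = K.space ∧
      (∀ s ∈ K'.faces, ∃ s' ∈ K.faces, convexHull ℝ (s : Set E) ⊆ convexHull ℝ (s' : Set E)) ∧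
      ∀ A ∈ L, K'.NoCross A := by
  induction L with
  | nil => exact ⟨K, rfl, fun s hs => ⟨s, hs, subset_rfl⟩, fun A hA => absurd hA (by simp)⟩
  | cons A L ih =>
    obtain ⟨K1, h1s, h1f, h1c⟩ := ih
    obtain ⟨K2, h2s, h2f, h2c, h2p⟩ := K1.refine_one A
    refine ⟨K2, h2s.trans h1s, ?_, ?_⟩
    · intro s hs
      obtain ⟨s', hs', hss⟩ := h2f s hs
      obtain ⟨s'', hs'', hss'⟩ := h1f s' hs'
      exact ⟨s'', hs'', hss.trans hss'⟩
    · intro A' hA'
      rcases List.mem_cons.1 hA' with rfl | h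
      · exact h2c
      · exact h2p A' (h1c A' h)

theorem GC.NoCross.sign_on_face {K : GC E} {A : E →ᵃ[ℝ] ℝ} (h : K.NoCross A) {s : Finset E}
    (hs : s ∈ K.faces) : (∀ x ∈ s, 0 ≤ A x) ∨ (∀ x ∈ s, A x ≤ 0) := by
  by_contra hcon
  push Not at hcon
  obtain ⟨⟨x, hx, hx0⟩, y, hy, hy0⟩ := hcon
  have hne : x ≠ y := by
    rintro rfl
    exact absurd hx0 (not_lt.2 hy0.le)
  have := h x y ⟨hne, s, hs, hx, hy⟩
  exact absurd (mul_neg_of_neg_of_pos hx0 hy0) (not_lt.2 this)

/-- An intersection of half spaces all of whose functionals do not cross is adapted. -/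
theorem GC.adapted_halfspaces {K : GC E} {n : ℕ} (A : Fin n → E →ᵃ[ℝ] ℝ)
    (h : ∀ i, K.NoCross (A i)) : K.Adapted {x | ∀ i, 0 ≤ A i x} := by
  intro s hs w hw hw1 hmem
  have hx : ∀ x ∈ s, ∀ i, 0 ≤ A i x := by
    intro x hx i
    rcases (h i).sign_on_face hs with h1 | h1
    · exact h1 x hx
    · have h2 : 0 ≤ A i (∑ x ∈ s, w x • x) := hmem i
      rw [GD_aff_sum _ _ _ hw1] at h2
      have h3 : ∀ y ∈ s, w y * A i y ≤ 0 := fun y hy => mul_nonpos_of_nonneg_of_nonpos (hw y hy).le (h1 y hy)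
      have h4 : ∑ y ∈ s, w y * A i y = 0 := le_antisymm (Finset.sum_nonpos h3) h2
      have h5 := (Finset.sum_eq_zero_iff_of_nonpos h3).1 h4 x hx
      rcases mul_eq_zero.1 h5 with h6 | h6
      · exact absurd h6 (hw x hx).ne'
      · rw [h6]
  have hconv : Convex ℝ {x : E | ∀ i, 0 ≤ A i x} := by
    have : {x : E | ∀ i, 0 ≤ A i x} = ⋂ i, (A i) ⁻¹' (Set.Ici (0 : ℝ)) := by
      ext x; simp
    rw [this]
    exact convex_iInter fun i => (convex_Ici (0 : ℝ)).affine_preimage (A i)
  exact convexHull_min (fun x hx' => hx x hx') hconv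

end Pool.H54.UB

end S_GD

section S_TRI

/-!
# Row TRI: the triangulation theorem

Proof.  `X` is bounded, so it lies in a big simplex `convexHull s₀` (`exists_big_simplex`); start from
`GC.ofSimplex s₀`.  Decompose `X` and all the `A ∈ Y` into simplices (`IsPoly.exists_simplices`),
collect in a list all the functionals that describe these simplices (`simplex_halfspaces`), and
refine (`GC.refine_list`).  By `GC.adapted_halfspaces` all the simplices are adapted, hence
(`GC.Adapted.union`, finite unions) `X` and all the `A ∈ Y` are adapted.  Finally restrict to the faces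
contained in `X` (`GC.restrict`); the space is `convexHull s₀ ∩ X = X`.

`triang_over`: same, starting from a given complex (a common refinement): every face of the new
complex is contained in the hull of a face of `K`: apply `GC.refine_list` to `K` itself instead of the
big simplex.
-/

open Set Topology

namespace Pool.H54.UB

variable {E : Type*} [NormedAddCommGroup E] [NormedSpace ℝ E] [FiniteDimensional ℝ E]

/-- finitely many functionals describe the simplices of a compact polyhedron -/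
theorem TRI_funs (A : Set E) (hA : IsPoly A) :
    ∃ L : List (E →ᵃ[ℝ] ℝ), ∀ K : GC E, (∀ B ∈ L, K.NoCross B) → K.Adapted A := by
  obtain ⟨S, hS, hS2⟩ := hA.exists_simplices
  have hunion : ∀ T : Finset (Finset E), T ⊆ S →
      ∃ L : List (E →ᵃ[ℝ] ℝ), ∀ K : GC E, (∀ B ∈ L, K.NoCross B) →
        K.Adapted (⋃ s ∈ T, convexHull ℝ (s : Set E)) := by
    classical
    intro T
    induction T using Finset.induction_on with
    | empty =>
      intro _
      refine ⟨[], fun K _ => ?_⟩
      intro s hs w hw hw1 hmem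
      simp at hmem
    | insert s T hs ih =>
      intro hT
      obtain ⟨L, hL⟩ := ih (fun t ht => hT (Finset.mem_insert_of_mem ht))
      obtain ⟨hne, hind⟩ := hS2 s (hT (Finset.mem_insert_self s T))
      obtain ⟨n, B, hB⟩ := simplex_halfspaces s hne hind
      refine ⟨List.ofFn B ++ L, fun K hK => ?_⟩
      rw [Finset.set_biUnion_insert]
      refine GC.Adapted.union ?_ (hL K fun C hC => hK C (List.mem_append_right _ hC))
      rw [hB]
      exact GC.adapted_halfspaces B fun i => hK (B i) (List.mem_append_left _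
        ((List.mem_ofFn' B (B i)).2 ⟨i, rfl⟩))
  obtain ⟨L, hL⟩ := hunion S subset_rfl
  refine ⟨L, fun K hK => ?_⟩
  rw [hS]
  exact hL K hK

theorem TRI_list (Y : Finset (Set E)) (hY : ∀ A ∈ Y, IsPoly A) :
    ∃ L : List (E →ᵃ[ℝ] ℝ), ∀ K : GC E, (∀ B ∈ L, K.NoCross B) → ∀ A ∈ Y, K.Adapted A := by
  classical
  induction Y using Finset.induction_on with
  | empty => exact ⟨[], fun K _ A hA => absurd hA (Finset.notMem_empty A)⟩
  | insert A Y hA ih =>
    obtain ⟨L, hL⟩ := ih (fun B hB => hY B (Finset.mem_insert_of_mem hB))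
    obtain ⟨L', hL'⟩ := TRI_funs A (hY A (Finset.mem_insert_self A Y))
    refine ⟨L ++ L', fun K hK B hB => ?_⟩
    rcases Finset.mem_insert.1 hB with rfl | hB
    · exact hL' K fun C hC => hK C (List.mem_append_right _ hC)
    · exact hL K (fun C hC => hK C (List.mem_append_left _ hC)) B hB

theorem triang_over (K : GC E) (Y : Finset (Set E)) (hY : ∀ A ∈ Y, IsPoly A) :
    ∃ K' : GC E, K'.space = K.space ∧
      (∀ s ∈ K'.faces, ∃ s' ∈ K.faces, convexHull ℝ (s : Set E) ⊆ convexHull ℝ (s' : Set E)) ∧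
      ∀ A ∈ Y, K'.Adapted A := by
  obtain ⟨L, hL⟩ := TRI_list Y hY
  obtain ⟨K', h1, h2, h3⟩ := K.refine_list L
  exact ⟨K', h1, h2, hL K' h3⟩

theorem triang (X : Set E) (hX : IsPoly X) (Y : Finset (Set E))
    (hY : ∀ A ∈ Y, IsPoly A ∧ A ⊆ X) :
    ∃ K : GC E, K.space = X ∧ ∀ A ∈ Y, K.Adapted A := by
  classical
  obtain ⟨s₀, hne, hind, hsub⟩ := exists_big_simplex hX.isCompact.isBounded
  obtain ⟨K₀, -, hK₀⟩ := GC.ofSimplex s₀ hind
  have hY' : ∀ A ∈ insert X Y, IsPoly A := by
    intro A hA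
    rcases Finset.mem_insert.1 hA with rfl | hA
    · exact hX
    · exact (hY A hA).1
  obtain ⟨K₁, h1, -, h3⟩ := triang_over K₀ (insert X Y) hY'
  obtain ⟨K₂, -, h5, h6⟩ := K₁.restrict X (h3 X (Finset.mem_insert_self X Y))
  refine ⟨K₂, ?_, fun A hA => h6 A (h3 A (Finset.mem_insert_of_mem hA))⟩
  rw [h5, h1, hK₀ hne]
  exact Set.inter_eq_self_of_subset_right hsub

end Pool.H54.UB

end S_TRI

section S_PE

/-!
# Row PE: PL maps, first part

`PLOn f X` means that the graph `G = {(x, f x) | x ∈ X}` is a compact polyhedron in `E × F`.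

* `domain`, `image`: images of `G` under the linear projections.
* `restrict`: `graph (f|X) = G ∩ (X ×ˢ f(N))`, `preimage`: projection of `G ∩ (N ×ˢ Y)`.
* `pieces`: write `G` as a union of `convexHull σ` (`σ ⊆ E × F` finite, may be taken affinely
  independent); the projection `convexHull (fst '' σ)` of `convexHull σ` is a piece `P` on which `f`
  is affine: `f (Σ w_i x_i) = Σ w_i y_i` for `(x_i, y_i) ∈ σ`, because `(Σ w x, Σ w y)` is a point of
  `G`, and `G` is a graph.  To get an affine map on all of `E`: if `σ` is affinely independent then so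
  is `fst '' σ` (the projection is injective on `convexHull σ ⊆ G`, hence on its affine span), extend
  it to an affine basis and prescribe the values.
* `of_pieces`: the graph over a piece `convexHull s` on which `f = A` is affine is the image of
  `convexHull s` under the affine map `x ↦ (x, A x)`.
* `continuousOn`: from `pieces`: finite closed cover by sets on which `f` is continuous
  (`LocallyFinite.continuousOn_iUnion`, `continuousOn_... union`), or: compact graph.
-/

open Set Topology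

namespace Pool.H54.UB

variable {E F : Type*} [NormedAddCommGroup E] [NormedSpace ℝ E] [FiniteDimensional ℝ E]
  [NormedAddCommGroup F] [NormedSpace ℝ F] [FiniteDimensional ℝ F]

theorem PE_fst (f : E → F) (X : Set E) :
    (LinearMap.fst ℝ E F).toAffineMap '' ((fun x => (x, f x)) '' X) = X := by
  ext x
  constructor
  · rintro ⟨_, ⟨y, hy, rfl⟩, rfl⟩
    exact hy
  · intro hx
    exact ⟨(x, f x), ⟨x, hx, rfl⟩, rfl⟩

theorem PE_snd (f : E → F) (X : Set E) :
    (LinearMap.snd ℝ E F).toAffineMap '' ((fun x => (x, f x)) '' X) = f '' X := by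
  ext x
  constructor
  · rintro ⟨_, ⟨y, hy, rfl⟩, rfl⟩
    exact ⟨y, hy, rfl⟩
  · rintro ⟨y, hy, rfl⟩
    exact ⟨(y, f y), ⟨y, hy, rfl⟩, rfl⟩

theorem PLOn.domain {f : E → F} {X : Set E} (hf : PLOn f X) : IsPoly X := by
  have h := IsPoly.image_affine hf (LinearMap.fst ℝ E F).toAffineMap
  rwa [PE_fst] at h

theorem PLOn.image {f : E → F} {X : Set E} (hf : PLOn f X) : IsPoly (f '' X) := by
  have h := IsPoly.image_affine hf (LinearMap.snd ℝ E F).toAffineMap
  rwa [PE_snd] at h

theorem PLOn.congr {f g : E → F} {X : Set E} (hf : PLOn f X) (h : EqOn f g X) : PLOn g X := by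
  have h1 : (fun x => (x, g x)) '' X = (fun x => (x, f x)) '' X :=
    Set.image_congr fun x hx => by rw [h hx]
  unfold PLOn
  rw [h1]
  exact hf

theorem PLOn.mono {f : E → F} {N X : Set E} (hf : PLOn f N) (hX : IsPoly X) (h : X ⊆ N) :
    PLOn f X := by
  have h1 : (fun x => (x, f x)) '' X = ((fun x => (x, f x)) '' N) ∩ (X ×ˢ (f '' N)) := by
    ext ⟨x, y⟩
    constructor
    · rintro ⟨z, hz, he⟩
      rw [Prod.mk.injEq] at he
      obtain ⟨rfl, rfl⟩ := he
      exact ⟨⟨z, h hz, rfl⟩, hz, z, h hz, rfl⟩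
    · rintro ⟨⟨z, hz, he⟩, hx, -⟩
      rw [Prod.mk.injEq] at he
      obtain ⟨rfl, rfl⟩ := he
      exact ⟨z, hx, rfl⟩
  unfold PLOn
  rw [h1]
  exact IsPoly.inter hf (hX.prod hf.image)

theorem PLOn.preimage {f : E → F} {N : Set E} {Y : Set F} (hf : PLOn f N) (hY : IsPoly Y) :
    IsPoly (N ∩ f ⁻¹' Y) := by
  have h1 : N ∩ f ⁻¹' Y =
      (LinearMap.fst ℝ E F).toAffineMap '' (((fun x => (x, f x)) '' N) ∩ (N ×ˢ Y)) := by
    ext x
    constructor
    · rintro ⟨hx, hy⟩
      exact ⟨(x, f x), ⟨⟨x, hx, rfl⟩, hx, hy⟩, rfl⟩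
    · rintro ⟨_, ⟨⟨z, hz, rfl⟩, -, h2⟩, rfl⟩
      exact ⟨hz, h2⟩
  rw [h1]
  exact (IsPoly.inter hf (hf.domain.prod hY)).image_affine _

theorem PE_graph (A : E →ᵃ[ℝ] F) {X : Set E} (hX : IsPoly X) :
    IsPoly ((fun x => (x, A x)) '' X) :=
  hX.image_affine ((AffineMap.id ℝ E).prod A)

theorem PLOn.of_affOn {f : E → F} {s : Finset E} (h : AffOn f (convexHull ℝ (s : Set E))) :
    PLOn f (convexHull ℝ (s : Set E)) := by
  obtain ⟨A, hA⟩ := h
  exact PLOn.congr (f := A) (PE_graph A (IsPoly.hull s)) hA.symm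

theorem PLOn.union {f : E → F} {X Y : Set E} (hX : PLOn f X) (hY : PLOn f Y) :
    PLOn f (X ∪ Y) := by
  unfold PLOn
  rw [Set.image_union]
  exact IsPoly.union hX hY

theorem PLOn.biUnion {ι : Type*} {s : Set ι} (hs : s.Finite) {f : E → F} {X : ι → Set E}
    (h : ∀ i ∈ s, PLOn f (X i)) : PLOn f (⋃ i ∈ s, X i) := by
  unfold PLOn
  rw [Set.image_iUnion₂]
  exact IsPoly.biUnion hs h

theorem PLOn.of_pieces {f : E → F} (S : Finset (Finset E))
    (h : ∀ s ∈ S, AffOn f (convexHull ℝ (s : Set E))) :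
    PLOn f (⋃ s ∈ S, convexHull ℝ (s : Set E)) :=
  PLOn.biUnion S.finite_toSet fun s hs => PLOn.of_affOn (h s hs)

theorem PLOn.affine (A : E →ᵃ[ℝ] F) {X : Set E} (hX : IsPoly X) : PLOn A X := PE_graph A hX

/-- differences of points of a convex set fill its direction -/
theorem PE_span {V : Type*} [AddCommGroup V] [Module ℝ V] {C : Set V} (hC : Convex ℝ C)
    (hne : C.Nonempty) {w : V} (hw : w ∈ vectorSpan ℝ C) :
    ∃ r : ℝ, 0 ≤ r ∧ ∃ a ∈ C, ∃ b ∈ C, w = r • (a - b) := by
  rw [vectorSpan_def] at hw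
  induction hw using Submodule.span_induction with
  | mem x hx =>
    obtain ⟨a, ha, b, hb, rfl⟩ := hx
    exact ⟨1, zero_le_one, a, ha, b, hb, by simp⟩
  | zero =>
    obtain ⟨a, ha⟩ := hne
    exact ⟨0, le_rfl, a, ha, a, ha, by simp⟩
  | add x y _ _ hx hy =>
    obtain ⟨r, hr, a, ha, b, hb, rfl⟩ := hx
    obtain ⟨s, hs, c, hc, d, hd, rfl⟩ := hy
    rcases eq_or_lt_of_le (add_nonneg hr hs) with h0 | h0
    · have h1 : r = 0 := by linarith
      have h2 : s = 0 := by linarith
      exact ⟨0, le_rfl, a, ha, a, ha, by rw [h1, h2]; simp⟩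
    · refine ⟨r + s, h0.le, (r / (r + s)) • a + (s / (r + s)) • c, ?_,
        (r / (r + s)) • b + (s / (r + s)) • d, ?_, ?_⟩
      · exact hC ha hc (by positivity) (by positivity) (by field_simp)
      · exact hC hb hd (by positivity) (by positivity) (by field_simp)
      · have e1 : (r + s) * (r / (r + s)) = r := by field_simp
        have e2 : (r + s) * (s / (r + s)) = s := by field_simp
        calc r • (a - b) + s • (c - d)
            = ((r + s) * (r / (r + s))) • (a - b) + ((r + s) * (s / (r + s))) • (c - d) := by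
              rw [e1, e2]
          _ = _ := by module
  | smul c x _ hx =>
    obtain ⟨r, hr, a, ha, b, hb, rfl⟩ := hx
    rcases le_total 0 c with h0 | h0
    · exact ⟨c * r, mul_nonneg h0 hr, a, ha, b, hb, by rw [smul_smul]⟩
    · refine ⟨(-c) * r, mul_nonneg (by linarith) hr, b, hb, a, ha, ?_⟩
      rw [smul_smul, ← neg_sub a b, smul_neg, ← neg_smul]
      congr 1
      ring

/-- the projection is injective on the direction of a convex piece of the graph -/
theorem PE_ker {f : E → F} {C : Set (E × F)} (hC : Convex ℝ C) (hne : C.Nonempty)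
    (hG : ∀ p ∈ C, p.2 = f p.1) {w : E × F} (hw : w ∈ vectorSpan ℝ C) (h0 : w.1 = 0) : w = 0 := by
  obtain ⟨r, hr, a, ha, b, hb, rfl⟩ := PE_span hC hne hw
  rcases eq_or_lt_of_le hr with h1 | h1
  · rw [← h1, zero_smul]
  · have h2 : r • (a.1 - b.1) = 0 := h0
    rw [smul_eq_zero] at h2
    have h3 : a.1 = b.1 := by
      rcases h2 with h2 | h2
      · exact absurd h2 h1.ne'
      · exact sub_eq_zero.1 h2
    have h4 : a.2 = b.2 := by rw [hG a ha, hG b hb, h3]
    have h5 : a = b := Prod.ext h3 h4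
    rw [h5, sub_self, smul_zero]

theorem PE_affOn {f : E → F} {C : Set (E × F)} (hC : Convex ℝ C) (hne : C.Nonempty)
    (hG : ∀ p ∈ C, p.2 = f p.1) : AffOn f (Prod.fst '' C) := by
  obtain ⟨p0, hp0⟩ := hne
  obtain ⟨φ, hφ⟩ : ∃ φ : vectorSpan ℝ C →ₗ[ℝ] E,
      φ = (LinearMap.fst ℝ E F).comp (vectorSpan ℝ C).subtype := ⟨_, rfl⟩
  have hker : LinearMap.ker φ = ⊥ := by
    rw [LinearMap.ker_eq_bot']
    rintro ⟨w, hw⟩ h
    rw [hφ] at h
    have := PE_ker hC ⟨p0, hp0⟩ hG hw h
    exact Subtype.ext this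
  obtain ⟨g, hg⟩ := φ.exists_leftInverse_of_injective hker
  have hgw : ∀ w : vectorSpan ℝ C, g (φ w) = w := fun w => by
    have := congrArg (fun l : vectorSpan ℝ C →ₗ[ℝ] vectorSpan ℝ C => l w) hg
    exact this
  obtain ⟨L, hL⟩ : ∃ L : E →ₗ[ℝ] F, L =
    (LinearMap.snd ℝ E F).comp ((vectorSpan ℝ C).subtype.comp g) := ⟨_, rfl⟩
  refine ⟨L.toAffineMap + AffineMap.const ℝ E (p0.2 - L p0.1), ?_⟩
  rintro x ⟨p, hp, rfl⟩
  have hw : p - p0 ∈ vectorSpan ℝ C := by
    have := vsub_mem_vectorSpan ℝ hp hp0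
    rwa [vsub_eq_sub] at this
  have h1 := hgw ⟨p - p0, hw⟩
  have h2 : φ ⟨p - p0, hw⟩ = p.1 - p0.1 := by rw [hφ]; rfl
  rw [h2] at h1
  have h3 : L (p.1 - p0.1) = p.2 - p0.2 := by
    rw [hL]
    show ((g (p.1 - p0.1) : vectorSpan ℝ C) : E × F).2 = _
    rw [h1]
    rfl
  show f p.1 = L p.1 + (p0.2 - L p0.1)
  rw [← hG p hp]
  rw [map_sub] at h3
  have h4 : L p.1 = p.2 - p0.2 + L p0.1 := by rw [← h3]; abel
  rw [h4]
  abel

theorem PLOn.pieces {f : E → F} {N : Set E} (hf : PLOn f N) :
    ∃ S : Finset (Finset E), N = (⋃ s ∈ S, convexHull ℝ (s : Set E)) ∧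
      ∀ s ∈ S, s.Nonempty ∧ AffineIndependent ℝ (fun x : s => (x : E)) ∧
        AffOn f (convexHull ℝ (s : Set E)) := by
  classical
  obtain ⟨S, hS, hS2⟩ := IsPoly.exists_simplices hf
  have himg : ∀ s : Finset (E × F), convexHull ℝ ((s.image Prod.fst : Finset E) : Set E) =
      Prod.fst '' convexHull ℝ (s : Set (E × F)) := by
    intro s
    rw [Finset.coe_image]
    exact ((LinearMap.fst ℝ E F).toAffineMap.image_convexHull (s : Set (E × F))).symm
  have hG : ∀ s ∈ S, ∀ p ∈ convexHull ℝ (s : Set (E × F)), p.2 = f p.1 := by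
    intro s hs p hp
    have h1 : p ∈ (fun x => (x, f x)) '' N := by
      rw [hS]
      exact mem_iUnion₂.2 ⟨s, hs, hp⟩
    obtain ⟨x, -, rfl⟩ := h1
    rfl
  refine ⟨S.image (fun s => s.image Prod.fst), ?_, ?_⟩
  · rw [← PE_fst f N, hS, Set.image_iUnion₂]
    ext x
    simp only [mem_iUnion, Finset.mem_image, exists_prop]
    constructor
    · rintro ⟨s, hs, h⟩
      refine ⟨s.image Prod.fst, ⟨s, hs, rfl⟩, ?_⟩
      rw [himg]
      exact h
    · rintro ⟨_, ⟨s, hs, rfl⟩, h⟩
      rw [himg] at h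
      exact ⟨s, hs, h⟩
  · intro t ht
    obtain ⟨s, hs, rfl⟩ := Finset.mem_image.1 ht
    obtain ⟨hne, hind⟩ := hS2 s hs
    have hneC : (convexHull ℝ (s : Set (E × F))).Nonempty :=
      convexHull_nonempty_iff.2 (Finset.coe_nonempty.2 hne)
    refine ⟨hne.image _, ?_, ?_⟩
    · obtain ⟨x0, hx0⟩ := hne
      rw [affineIndependent_iff_linearIndependent_vsub ℝ _ (⟨x0, hx0⟩ : s)] at hind
      have h1 := hind.map (f := LinearMap.fst ℝ E F) (by
        rw [Submodule.disjoint_def]
        intro w hw hk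
        refine PE_ker (convex_convexHull ℝ _) hneC (hG s hs) ?_ hk
        refine Submodule.span_le.2 ?_ hw
        rintro _ ⟨i, rfl⟩
        exact vsub_mem_vectorSpan ℝ (subset_convexHull ℝ _ i.1.2) (subset_convexHull ℝ _ hx0))
      have h2 : AffineIndependent ℝ (fun x : s => (x : E × F).1) := by
        rw [affineIndependent_iff_linearIndependent_vsub ℝ _ (⟨x0, hx0⟩ : s)]
        exact h1
      have h3 := h2.range
      refine h3.mono ?_
      intro y hy
      obtain ⟨p, hp, rfl⟩ := Finset.mem_image.1 (Finset.mem_coe.1 hy)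
      exact ⟨⟨p, hp⟩, rfl⟩
    · rw [himg]
      exact PE_affOn (convex_convexHull ℝ _) hneC (hG s hs)

theorem PLOn.continuousOn {f : E → F} {N : Set E} (hf : PLOn f N) : ContinuousOn f N := by
  have hc : IsCompact ((fun x => (x, f x)) '' N) := IsPoly.isCompact hf
  intro x hx
  rw [ContinuousWithinAt, Filter.tendsto_iff_ultrafilter]
  intro U hU
  have hUN : N ∈ U := hU self_mem_nhdsWithin
  have hUx : (U : Filter E) ≤ 𝓝 x := hU.trans nhdsWithin_le_nhds
  obtain ⟨G, hG⟩ : ∃ G : Ultrafilter (E × F), G = U.map (fun x => (x, f x)) := ⟨_, rfl⟩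
  have h1 : (G : Filter (E × F)) ≤ Filter.principal ((fun x => (x, f x)) '' N) := by
    rw [hG, Filter.le_principal_iff]
    exact Filter.mem_of_superset (Filter.image_mem_map hUN) subset_rfl
  obtain ⟨p, ⟨z, hz, rfl⟩, hp⟩ := hc.ultrafilter_le_nhds G h1
  have h2 : Filter.Tendsto Prod.fst (G : Filter (E × F)) (𝓝 z) :=
    (continuous_fst.tendsto _).mono_left hp
  have h3 : Filter.Tendsto Prod.snd (G : Filter (E × F)) (𝓝 (f z)) :=
    (continuous_snd.tendsto _).mono_left hp
  rw [hG, Ultrafilter.coe_map] at h2 h3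
  rw [Filter.tendsto_map'_iff] at h2 h3
  have h2' : Filter.Tendsto (fun x : E => x) (U : Filter E) (𝓝 z) := h2
  have hUx' : Filter.Tendsto (fun x : E => x) (U : Filter E) (𝓝 x) := hUx
  have h4 : z = x := tendsto_nhds_unique h2' hUx'
  rw [h4] at h3
  exact h3

theorem AffOn.injOn_of_finite {f : E → F} {C : Set E} (hC : Convex ℝ C) (hf : AffOn f C)
    (h : ∀ y, (C ∩ f ⁻¹' {y}).Finite) : InjOn f C := by
  obtain ⟨A, hA⟩ := hf
  intro a ha b hb hab
  by_contra hne
  have h1 : (AffineMap.lineMap a b : ℝ → E) '' Icc (0 : ℝ) 1 ⊆ C ∩ f ⁻¹' {f a} := by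
    rintro _ ⟨t, ht, rfl⟩
    have hmem : (AffineMap.lineMap a b : ℝ → E) t ∈ C := by
      refine hC.segment_subset ha hb ?_
      rw [segment_eq_image_lineMap]
      exact ⟨t, ht, rfl⟩
    refine ⟨hmem, ?_⟩
    show f _ = f a
    rw [hA hmem, AffineMap.apply_lineMap, ← hA ha, ← hA hb, hab, AffineMap.lineMap_same_apply]
  have h2 : ((AffineMap.lineMap a b : ℝ → E) '' Icc (0 : ℝ) 1).Infinite := by
    rw [Set.infinite_image_iff]
    · exact Set.Icc_infinite zero_lt_one
    · exact (AffineMap.lineMap_injective ℝ hne).injOn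
  exact h2 ((h (f a)).subset h1)

end Pool.H54.UB

end S_PE

section S_PF

/-!
# Row PF: PL maps, second part (composition, inverse, pairs, lattice operations)

* `comp`: the graph of `g ∘ f` over `X` is the image under the linear map `(x, y, z) ↦ (x, z)` of
  `(graph f ×ˢ g(Y)) ∩ {(x, y, z) | (y, z) ∈ graph g}` (use `IsPoly.prod`, `IsPoly.inter_preimage`).
* `prodMk`: graph of `(f, g)` = `{(x, y, z) | (x, y) ∈ graph f, (x, z) ∈ graph g}`.
* `symm`: swap the graph.
* `max`, `min`, `abs`, `add`, `smul`: compose `prodMk` with the function `max : ℝ × ℝ → ℝ`, which is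
  PL on every compact polyhedron `Y ⊆ ℝ × ℝ` (`Y = Y ∩ {p.1 ≤ p.2} ∪ Y ∩ {p.2 ≤ p.1}`,
  `IsPoly.inter_halfspace`, `PLOn.affine`, `PLOn.congr`, `PLOn.union`).
* `pi`: for `f : E → Fin m → ℝ`: induction on `m` or directly: the graph is
  `⋂ i {(x, y) | (x, y i) ∈ graph (f · i)}` intersected with `X ×ˢ box`.
-/

set_option linter.unusedSectionVars false

open Set Topology

namespace Pool.H54.UB

variable {E F G : Type*} [NormedAddCommGroup E] [NormedSpace ℝ E] [FiniteDimensional ℝ E]
  [NormedAddCommGroup F] [NormedSpace ℝ F] [FiniteDimensional ℝ F]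
  [NormedAddCommGroup G] [NormedSpace ℝ G] [FiniteDimensional ℝ G]

/-- the affine map `((x, y), z) ↦ (y, z)` -/
noncomputable def PF_a (E F G : Type*) [NormedAddCommGroup E] [NormedSpace ℝ E]
    [NormedAddCommGroup F] [NormedSpace ℝ F] [NormedAddCommGroup G] [NormedSpace ℝ G] :
    (E × F) × G →ᵃ[ℝ] F × G :=
  (((LinearMap.snd ℝ E F).comp (LinearMap.fst ℝ (E × F) G)).prod
    (LinearMap.snd ℝ (E × F) G)).toAffineMap

/-- the affine map `((x, y), z) ↦ (x, z)` -/
noncomputable def PF_b (E F G : Type*) [NormedAddCommGroup E] [NormedSpace ℝ E]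
    [NormedAddCommGroup F] [NormedSpace ℝ F] [NormedAddCommGroup G] [NormedSpace ℝ G] :
    (E × F) × G →ᵃ[ℝ] E × G :=
  (((LinearMap.fst ℝ E F).comp (LinearMap.fst ℝ (E × F) G)).prod
    (LinearMap.snd ℝ (E × F) G)).toAffineMap

/-- the affine map `((x, y), z) ↦ (x, (y, z))` -/
noncomputable def PF_c (E F G : Type*) [NormedAddCommGroup E] [NormedSpace ℝ E]
    [NormedAddCommGroup F] [NormedSpace ℝ F] [NormedAddCommGroup G] [NormedSpace ℝ G] :
    (E × F) × G →ᵃ[ℝ] E × (F × G) :=
  (((LinearMap.fst ℝ E F).comp (LinearMap.fst ℝ (E × F) G)).prod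
    (((LinearMap.snd ℝ E F).comp (LinearMap.fst ℝ (E × F) G)).prod
    (LinearMap.snd ℝ (E × F) G))).toAffineMap

/-- the affine map `(x, y) ↦ (y, x)` -/
noncomputable def PF_s (E F : Type*) [NormedAddCommGroup E] [NormedSpace ℝ E]
    [NormedAddCommGroup F] [NormedSpace ℝ F] : E × F →ᵃ[ℝ] F × E :=
  ((LinearMap.snd ℝ E F).prod (LinearMap.fst ℝ E F)).toAffineMap

theorem PF_a_apply (x : E) (y : F) (z : G) : PF_a E F G ((x, y), z) = (y, z) := rfl
theorem PF_b_apply (x : E) (y : F) (z : G) : PF_b E F G ((x, y), z) = (x, z) := rfl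
theorem PF_c_apply (x : E) (y : F) (z : G) : PF_c E F G ((x, y), z) = (x, (y, z)) := rfl
theorem PF_s_apply (x : E) (y : F) : PF_s E F (x, y) = (y, x) := rfl

theorem PLOn.comp {f : E → F} {g : F → G} {X : Set E} {Y : Set F} (hg : PLOn g Y)
    (hf : PLOn f X) (h : MapsTo f X Y) : PLOn (fun x => g (f x)) X := by
  have h1 : IsPoly ((((fun x => (x, f x)) '' X) ×ˢ (g '' Y)) ∩
      (PF_a E F G) ⁻¹' ((fun y => (y, g y)) '' Y)) :=
    IsPoly.inter_preimage (IsPoly.prod hf hg.image) hg _
  have h2 := h1.image_affine (PF_b E F G)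
  have h3 : (fun x => (x, g (f x))) '' X = (PF_b E F G) '' ((((fun x => (x, f x)) '' X) ×ˢ (g '' Y)) ∩
      (PF_a E F G) ⁻¹' ((fun y => (y, g y)) '' Y)) := by
    ext p
    constructor
    · rintro ⟨x, hx, rfl⟩
      exact ⟨((x, f x), g (f x)), ⟨⟨⟨x, hx, rfl⟩, ⟨f x, h hx, rfl⟩⟩, ⟨f x, h hx, rfl⟩⟩, rfl⟩
    · rintro ⟨⟨⟨x, y⟩, z⟩, ⟨⟨⟨x', hx', e1⟩, _⟩, ⟨y', hy', e2⟩⟩, rfl⟩
      rw [PF_a_apply] at e2
      simp only [Prod.mk.injEq] at e1 e2
      obtain ⟨rfl, rfl⟩ := e1
      obtain ⟨rfl, rfl⟩ := e2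
      exact ⟨x', hx', rfl⟩
  unfold PLOn
  rw [h3]
  exact h2

theorem PLOn.prodMk {f : E → F} {g : E → G} {X : Set E} (hf : PLOn f X) (hg : PLOn g X) :
    PLOn (fun x => (f x, g x)) X := by
  have h1 : IsPoly ((((fun x => (x, f x)) '' X) ×ˢ (g '' X)) ∩
      (PF_b E F G) ⁻¹' ((fun y => (y, g y)) '' X)) :=
    IsPoly.inter_preimage (IsPoly.prod hf hg.image) hg _
  have h2 := h1.image_affine (PF_c E F G)
  have h3 : (fun x => (x, (f x, g x))) '' X = (PF_c E F G) '' ((((fun x => (x, f x)) '' X) ×ˢ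
      (g '' X)) ∩ (PF_b E F G) ⁻¹' ((fun y => (y, g y)) '' X)) := by
    ext p
    constructor
    · rintro ⟨x, hx, rfl⟩
      exact ⟨((x, f x), g x), ⟨⟨⟨x, hx, rfl⟩, ⟨x, hx, rfl⟩⟩, ⟨x, hx, rfl⟩⟩, rfl⟩
    · rintro ⟨⟨⟨x, y⟩, z⟩, ⟨⟨⟨x', hx', e1⟩, _⟩, ⟨y', hy', e2⟩⟩, rfl⟩
      rw [PF_b_apply] at e2
      simp only [Prod.mk.injEq] at e1 e2
      obtain ⟨rfl, rfl⟩ := e1
      obtain ⟨rfl, rfl⟩ := e2
      exact ⟨_, hx', rfl⟩
  unfold PLOn
  rw [h3]
  exact h2

/-- Any left inverse is PL. -/
theorem PLOn.of_leftInv {f : E → F} {g : F → E} {X : Set E} (hf : PLOn f X)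
    (h : ∀ x ∈ X, g (f x) = x) : PLOn g (f '' X) := by
  have h2 := IsPoly.image_affine hf (PF_s E F)
  have h3 : (fun y => (y, g y)) '' (f '' X) = (PF_s E F) '' ((fun x => (x, f x)) '' X) := by
    ext p
    constructor
    · rintro ⟨_, ⟨x, hx, rfl⟩, rfl⟩
      refine ⟨(x, f x), ⟨x, hx, rfl⟩, ?_⟩
      show (f x, x) = (f x, g (f x))
      rw [h x hx]
    · rintro ⟨_, ⟨x, hx, rfl⟩, rfl⟩
      refine ⟨f x, ⟨x, hx, rfl⟩, ?_⟩
      show (f x, g (f x)) = (f x, x)
      rw [h x hx]
  unfold PLOn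
  rw [h3]
  exact h2

theorem PLOn.symm {f : E → F} {X : Set E} (hf : PLOn f X) (hi : InjOn f X) :
    PLOn (Function.invFunOn f X) (f '' X) :=
  hf.of_leftInv fun _ hx => hi.leftInvOn_invFunOn hx

/-- Affine post-composition and pre-composition. -/
theorem PLOn.affine_comp {f : E → F} {X : Set E} (hf : PLOn f X) (A : F →ᵃ[ℝ] G) :
    PLOn (fun x => A (f x)) X :=
  (PLOn.affine A hf.image).comp hf (mapsTo_image f X)

theorem PLOn.comp_affine {f : F → G} {X : Set E} (A : E →ᵃ[ℝ] F) (hX : IsPoly X)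
    (hf : PLOn f (A '' X)) : PLOn (fun x => f (A x)) X :=
  hf.comp (PLOn.affine A hX) (mapsTo_image A X)

theorem PLOn.const {X : Set E} (hX : IsPoly X) (c : F) : PLOn (fun _ => c) X :=
  PLOn.affine (AffineMap.const ℝ E c) hX

theorem PLOn.id {X : Set E} (hX : IsPoly X) : PLOn (fun x => x) X :=
  PLOn.affine (AffineMap.id ℝ E) hX

theorem PLOn.add {f g : E → F} {X : Set E} (hf : PLOn f X) (hg : PLOn g X) :
    PLOn (fun x => f x + g x) X :=
  (hf.prodMk hg).affine_comp ((LinearMap.fst ℝ F F + LinearMap.snd ℝ F F).toAffineMap)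

theorem PLOn.const_smul {f : E → F} {X : Set E} (hf : PLOn f X) (c : ℝ) :
    PLOn (fun x => c • f x) X :=
  hf.affine_comp ((c • (LinearMap.id : F →ₗ[ℝ] F)).toAffineMap)

/-- the difference of the coordinates -/
noncomputable def PF_d : ℝ × ℝ →ᵃ[ℝ] ℝ := (LinearMap.snd ℝ ℝ ℝ - LinearMap.fst ℝ ℝ ℝ).toAffineMap

/-- the difference of the coordinates -/
noncomputable def PF_e : ℝ × ℝ →ᵃ[ℝ] ℝ := (LinearMap.fst ℝ ℝ ℝ - LinearMap.snd ℝ ℝ ℝ).toAffineMap

theorem PF_max {Y : Set (ℝ × ℝ)} (hY : IsPoly Y) :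
    PLOn (fun p : ℝ × ℝ => Max.max p.1 p.2) Y := by
  have h1 : Y = (Y ∩ {p | 0 ≤ PF_d p}) ∪ (Y ∩ {p | 0 ≤ PF_e p}) := by
    rw [← inter_union_distrib_left]
    symm
    rw [inter_eq_left]
    intro p _
    rcases le_total p.1 p.2 with h | h
    · left
      show 0 ≤ p.2 - p.1
      linarith
    · right
      show 0 ≤ p.1 - p.2
      linarith
  rw [h1]
  refine PLOn.union ?_ ?_
  · refine PLOn.congr (PLOn.affine (LinearMap.snd ℝ ℝ ℝ).toAffineMap (hY.inter_halfspace PF_d)) ?_
    intro p hp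
    have h2 : 0 ≤ p.2 - p.1 := hp.2
    show p.2 = Max.max p.1 p.2
    rw [max_eq_right (by linarith)]
  · refine PLOn.congr (PLOn.affine (LinearMap.fst ℝ ℝ ℝ).toAffineMap (hY.inter_halfspace PF_e)) ?_
    intro p hp
    have h2 : 0 ≤ p.1 - p.2 := hp.2
    show p.1 = Max.max p.1 p.2
    rw [max_eq_left (by linarith)]

theorem PLOn.max {f g : E → ℝ} {X : Set E} (hf : PLOn f X) (hg : PLOn g X) :
    PLOn (fun x => max (f x) (g x)) X :=
  (PF_max (hf.prodMk hg).image).comp (hf.prodMk hg) (mapsTo_image _ X)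

theorem PLOn.min {f g : E → ℝ} {X : Set E} (hf : PLOn f X) (hg : PLOn g X) :
    PLOn (fun x => min (f x) (g x)) X := by
  have h := ((hf.const_smul (-1)).max (hg.const_smul (-1))).const_smul (-1)
  refine h.congr ?_
  intro x _
  show (-1 : ℝ) • Max.max ((-1 : ℝ) • f x) ((-1 : ℝ) • g x) = Min.min (f x) (g x)
  simp only [smul_eq_mul, neg_mul, one_mul]
  rw [max_neg_neg, neg_neg]

/-- the affine map `(x, y) ↦ (x, y i)` -/
noncomputable def PF_p (E : Type*) [NormedAddCommGroup E] [NormedSpace ℝ E] {m : ℕ} (i : Fin m) :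
    E × (Fin m → ℝ) →ᵃ[ℝ] E × ℝ :=
  ((LinearMap.fst ℝ E (Fin m → ℝ)).prod
    ((LinearMap.proj i).comp (LinearMap.snd ℝ E (Fin m → ℝ)))).toAffineMap

theorem PF_p_apply {m : ℕ} (i : Fin m) (x : E) (y : Fin m → ℝ) : PF_p E i (x, y) = (x, y i) := rfl

theorem PLOn.pi {m : ℕ} {f : E → Fin m → ℝ} {X : Set E} (hX : IsPoly X)
    (h : ∀ i, PLOn (fun x => f x i) X) : PLOn f X := by
  have hb : ∀ i, ∃ c : ℝ × ℝ, ∀ x ∈ X, c.1 ≤ f x i ∧ f x i ≤ c.2 := by
    intro i
    have h1 := (h i).image.isCompact.isBounded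
    obtain ⟨R, hR⟩ := h1.subset_closedBall 0
    refine ⟨(-R, R), fun x hx => ?_⟩
    have h2 := hR ⟨x, hx, rfl⟩
    rw [mem_closedBall_zero_iff, Real.norm_eq_abs] at h2
    exact abs_le.1 h2
  choose c hc using hb
  have hbox := isPoly_box (fun i => (c i).1) (fun i => (c i).2)
  have key : ∀ s : Finset (Fin m), IsPoly {p : E × (Fin m → ℝ) | p ∈ X ×ˢ
      {y : Fin m → ℝ | ∀ i, (c i).1 ≤ y i ∧ y i ≤ (c i).2} ∧
      ∀ i ∈ s, (p.1, p.2 i) ∈ (fun x => (x, f x i)) '' X} := by
    intro s
    classical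
    induction s using Finset.induction_on with
    | empty =>
      have e : {p : E × (Fin m → ℝ) | p ∈ X ×ˢ
          {y : Fin m → ℝ | ∀ i, (c i).1 ≤ y i ∧ y i ≤ (c i).2} ∧
          ∀ i ∈ (∅ : Finset (Fin m)), (p.1, p.2 i) ∈ (fun x => (x, f x i)) '' X} =
          X ×ˢ {y : Fin m → ℝ | ∀ i, (c i).1 ≤ y i ∧ y i ≤ (c i).2} := by
        ext p
        simp
      rw [e]
      exact hX.prod hbox
    | insert j s hj ih =>
      have e : {p : E × (Fin m → ℝ) | p ∈ X ×ˢ
          {y : Fin m → ℝ | ∀ i, (c i).1 ≤ y i ∧ y i ≤ (c i).2} ∧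
          ∀ i ∈ insert j s, (p.1, p.2 i) ∈ (fun x => (x, f x i)) '' X} =
          {p : E × (Fin m → ℝ) | p ∈ X ×ˢ
          {y : Fin m → ℝ | ∀ i, (c i).1 ≤ y i ∧ y i ≤ (c i).2} ∧
          ∀ i ∈ s, (p.1, p.2 i) ∈ (fun x => (x, f x i)) '' X} ∩
          (PF_p E j) ⁻¹' ((fun x => (x, f x j)) '' X) := by
        ext p
        constructor
        · rintro ⟨h1, h2⟩
          exact ⟨⟨h1, fun i hi => h2 i (Finset.mem_insert_of_mem hi)⟩,
            h2 j (Finset.mem_insert_self _ _)⟩
        · rintro ⟨⟨h1, h2⟩, h3⟩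
          refine ⟨h1, fun i hi => ?_⟩
          rcases Finset.mem_insert.1 hi with rfl | hi
          · exact h3
          · exact h2 i hi
      rw [e]
      exact ih.inter_preimage (h j) _
  have h4 := key Finset.univ
  have e : (fun x => (x, f x)) '' X = {p : E × (Fin m → ℝ) | p ∈ X ×ˢ
      {y : Fin m → ℝ | ∀ i, (c i).1 ≤ y i ∧ y i ≤ (c i).2} ∧
      ∀ i ∈ (Finset.univ : Finset (Fin m)), (p.1, p.2 i) ∈ (fun x => (x, f x i)) '' X} := by
    ext p
    constructor
    · rintro ⟨x, hx, rfl⟩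
      exact ⟨⟨hx, fun i => hc i x hx⟩, fun i _ => ⟨x, hx, rfl⟩⟩
    · rintro ⟨⟨h1, _⟩, h2⟩
      refine ⟨p.1, h1, ?_⟩
      apply Prod.ext
      · rfl
      · funext i
        obtain ⟨x, _, hx⟩ := h2 i (Finset.mem_univ i)
        simp only [Prod.mk.injEq] at hx
        obtain ⟨e1, e2⟩ := hx
        rw [← e1]
        exact e2
  unfold PLOn
  rw [e]
  exact h4

theorem PLOn.apply {m : ℕ} {f : E → Fin m → ℝ} {X : Set E} (hf : PLOn f X) (i : Fin m) :
    PLOn (fun x => f x i) X :=
  hf.affine_comp ((LinearMap.proj (R := ℝ) (φ := fun _ : Fin m => ℝ) i).toAffineMap)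

theorem PLOn.prodMap {F' : Type*} [NormedAddCommGroup F'] [NormedSpace ℝ F']
    [FiniteDimensional ℝ F'] {f : E → F} {g : G → F'} {X : Set E} {Y : Set G}
    (hf : PLOn f X) (hg : PLOn g Y) : PLOn (fun p : E × G => (f p.1, g p.2)) (X ×ˢ Y) := by
  have hP : IsPoly (X ×ˢ Y) := hf.domain.prod hg.domain
  have h1 : PLOn (fun p : E × G => f p.1) (X ×ˢ Y) :=
    hf.comp (PLOn.affine (LinearMap.fst ℝ E G).toAffineMap hP) (fun p hp => hp.1)
  have h2 : PLOn (fun p : E × G => g p.2) (X ×ˢ Y) :=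
    hg.comp (PLOn.affine (LinearMap.snd ℝ E G).toAffineMap hP) (fun p hp => hp.2)
  exact h1.prodMk h2

/-- Finite maxima and minima over nonempty finsets. -/
theorem PLOn.sup' {ι : Type*} (s : Finset ι) (hs : s.Nonempty) {f : ι → E → ℝ} {X : Set E}
    (h : ∀ i ∈ s, PLOn (f i) X) : PLOn (fun x => s.sup' hs (fun i => f i x)) X := by
  induction hs using Finset.Nonempty.cons_induction with
  | singleton a =>
    refine PLOn.congr (h a (Finset.mem_singleton_self a)) fun x _ => ?_
    rw [Finset.sup'_singleton]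
  | cons a s ha hs ih =>
    have h1 := (h a (Finset.mem_cons_self a s)).max (ih fun i hi => h i (Finset.mem_cons_of_mem hi))
    refine PLOn.congr h1 fun x _ => ?_
    rw [Finset.sup'_cons hs]

theorem PLOn.inf' {ι : Type*} (s : Finset ι) (hs : s.Nonempty) {f : ι → E → ℝ} {X : Set E}
    (h : ∀ i ∈ s, PLOn (f i) X) : PLOn (fun x => s.inf' hs (fun i => f i x)) X := by
  induction hs using Finset.Nonempty.cons_induction with
  | singleton a =>
    refine PLOn.congr (h a (Finset.mem_singleton_self a)) fun x _ => ?_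
    rw [Finset.inf'_singleton]
  | cons a s ha hs ih =>
    have h1 := (h a (Finset.mem_cons_self a s)).min (ih fun i hi => h i (Finset.mem_cons_of_mem hi))
    refine PLOn.congr h1 fun x _ => ?_
    rw [Finset.inf'_cons hs]

/-- If the finite union of PL homeomorphic images... : a PL injection has a PL image and maps
polyhedra to polyhedra. -/
theorem PLOn.image_poly {f : E → F} {X Y : Set E} (hf : PLOn f X) (hY : IsPoly Y) (h : Y ⊆ X) :
    IsPoly (f '' Y) :=
  (hf.mono hY h).image

end Pool.H54.UB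

end S_PF
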