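import Pool.Agent.H54.UB.Core
import Pool.Agent.H54.UM.G1

/-! Universal bases, part G2: this file joins several modules to save build time. -/

section S_CRF

/-!
# Row CRF: refinements adapted to a chart, image complexes

* `image_complex`: faces of `L'` = images of the faces of `L`.  `uniq`: positive weights on `h(s)`,
  `h(t)` with the same barycentre pull back (`h` is injective on `s`, affine on the hulls) to positive
  weights on `s`, `t`, whose barycentres have the same image under `h`, hence are equal.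
* `affine_refine`: `PLOn.pieces` for `h`, and `triang` for `X` with the list
  `{A ∩ X | A ∈ Y} ∪ {pieces}`.  (`L.Adapted (A ∩ X)` implies `L.Adapted A` as hulls lie in `X`.)
  A face has a carrier point in some piece, so its hull is contained in that piece.
* `chart_refine`: combine the two.
* `carrier_refine`: `x, y` with the same `L`-carrier `s`; `a` the `K`-carrier of `x`;
  `convexHull s ⊆ convexHull a` since `L` is adapted to `convexHull a` and `x` is in it; so the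
  `K`-carrier `a'` of `y` is `⊆ a` (`carrier_sub`); exchanging the roles `a ⊆ a'`.
* `exists_face_dim`: if `O` is open, `x ∈ O ∩ convexHull a`, `a` a face of `K` (affinely independent),
  `convexHull a ∩ O ⊆ L.space` and `L` is adapted to `convexHull a`, then there is an `L`-face `b` with
  `b.card = a.card`, `convexHull b ⊆ convexHull a` and a point `y ∈ O` with `L`-carrier `b` and
  `K`-carrier `a`.  Proof: the points of `O ∩ convexHull a` with `K`-carrier `a` form a nonempty open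
  subset of `convexHull a` in its affine span (dimension `card a - 1`); it is covered by the hulls of the
  finitely many `L`-faces contained in `convexHull a`; those with fewer vertices than `a` are closed and
  nowhere dense in the affine span (Baire; or transport to `Fin (card a - 1) → ℝ` by an affine
  isomorphism and use measure zero); no face in `convexHull a` can have more vertices than `a`
  (affine independence).
-/

set_option linter.unusedSectionVars false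

open Set Topology

namespace Pool.H54.UB

variable {E F : Type*} [NormedAddCommGroup E] [NormedSpace ℝ E] [FiniteDimensional ℝ E]
  [NormedAddCommGroup F] [NormedSpace ℝ F] [FiniteDimensional ℝ F]

theorem CRF_aff_sum (A : E →ᵃ[ℝ] F) (s : Finset E) (w : E → ℝ) (hw : ∑ x ∈ s, w x = 1) :
    A (∑ x ∈ s, w x • x) = ∑ x ∈ s, w x • A x := by
  have hdec : ∀ x : E, A x = A.linear x + A 0 := fun x => by
    have := A.decomp
    exact congrFun this x
  rw [hdec, map_sum]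
  have h2 : ∑ x ∈ s, w x • A x = ∑ x ∈ s, (w x • A.linear x) + ∑ x ∈ s, w x • A 0 := by
    rw [← Finset.sum_add_distrib]
    exact Finset.sum_congr rfl fun x _ => by rw [hdec x, smul_add]
  rw [h2, ← Finset.sum_smul, hw, one_smul]
  congr 1
  exact Finset.sum_congr rfl fun x _ => by rw [map_smul]

theorem CRF_h_sum {h : E → F} {s : Finset E} (hh : AffOn h (convexHull ℝ (s : Set E))) {w : E → ℝ}
    (hw0 : ∀ x ∈ s, 0 < w x) (hw : ∑ x ∈ s, w x = 1) :
    h (∑ x ∈ s, w x • x) = ∑ x ∈ s, w x • h x := by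
  obtain ⟨A, hA⟩ := hh
  have h1 : ∑ x ∈ s, w x • x ∈ convexHull ℝ (s : Set E) :=
    Finset.mem_convexHull'.2 ⟨w, fun y hy => (hw0 y hy).le, hw, rfl⟩
  rw [hA h1, CRF_aff_sum A s w hw]
  exact Finset.sum_congr rfl fun x hx => by rw [hA (subset_convexHull ℝ _ hx)]

theorem CRF_image_hull {h : E → F} {s : Finset E} (hh : AffOn h (convexHull ℝ (s : Set E))) :
    h '' convexHull ℝ (s : Set E) = convexHull ℝ (h '' (s : Set E)) := by
  obtain ⟨A, hA⟩ := hh
  rw [Set.image_congr hA, A.image_convexHull]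
  congr 1
  exact Set.image_congr fun x hx => (hA (subset_convexHull ℝ _ hx)).symm

theorem GC.image_complex (L : GC E) (h : E → F)
    (hh : ∀ s ∈ L.faces, AffOn h (convexHull ℝ (s : Set E))) (hi : InjOn h L.space) :
    ∃ L' : GC F, (∀ s' : Finset F, s' ∈ L'.faces ↔ ∃ s ∈ L.faces, (s' : Set F) = h '' (s : Set E)) ∧
      L'.space = h '' L.space ∧
      (∀ x s, L.IsCarrier x s → ∀ s' : Finset F, (s' : Set F) = h '' (s : Set E) →
        L'.IsCarrier (h x) s') ∧
      (∀ s ∈ L.faces, h '' convexHull ℝ (s : Set E) = convexHull ℝ (h '' (s : Set E))) := by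
  classical
  have hsub : ∀ s ∈ L.faces, convexHull ℝ (s : Set E) ⊆ L.space := fun s hs =>
    Set.subset_iUnion₂ (s := fun (s : Finset E) (_ : s ∈ L.faces) => convexHull ℝ (s : Set E)) s hs
  have hinj : ∀ s ∈ L.faces, InjOn h (s : Set E) := fun s hs =>
    hi.mono ((subset_convexHull ℝ _).trans (hsub s hs))
  have himg : ∀ (s : Finset E) (s' : Finset F), (s' : Set F) = h '' (s : Set E) → s' = s.image h := by
    intro s s' h1
    apply Finset.coe_injective
    rw [h1, Finset.coe_image]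
  have hsum : ∀ s ∈ L.faces, ∀ (s' : Finset F), (s' : Set F) = h '' (s : Set E) →
      ∀ (g : F → ℝ), ∑ y ∈ s', g y = ∑ x ∈ s, g (h x) := by
    intro s hs s' h1 g
    rw [himg s s' h1]
    exact Finset.sum_image (hinj s hs)
  have hsumF : ∀ s ∈ L.faces, ∀ (s' : Finset F), (s' : Set F) = h '' (s : Set E) →
      ∀ (g : F → F), ∑ y ∈ s', g y = ∑ x ∈ s, g (h x) := by
    intro s hs s' h1 g
    rw [himg s s' h1]
    exact Finset.sum_image (hinj s hs)
  let L' : GC F :=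
    { faces := {s' | ∃ s ∈ L.faces, (s' : Set F) = h '' (s : Set E)}
      fin := by
        refine (L.fin.image (fun s => s.image h)).subset ?_
        rintro s' ⟨s, hs, h1⟩
        exact ⟨s, hs, (himg s s' h1).symm⟩
      ne := by
        rintro s' ⟨s, hs, h1⟩
        rw [← Finset.coe_nonempty, h1]
        exact (Finset.coe_nonempty.2 (L.ne s hs)).image h
      down := by
        rintro s' ⟨s, hs, h1⟩ t' ht' hne
        have h2 : h '' ((s.filter (fun x => h x ∈ t') : Finset E) : Set E) = (t' : Set F) := by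
          ext y
          constructor
          · rintro ⟨x, hx, rfl⟩
            exact (Finset.mem_filter.1 hx).2
          · intro hy
            have h3 : y ∈ h '' (s : Set E) := by rw [← h1]; exact ht' hy
            obtain ⟨x, hx, rfl⟩ := h3
            exact ⟨x, Finset.mem_coe.2 (Finset.mem_filter.2 ⟨hx, hy⟩), rfl⟩
        refine ⟨s.filter (fun x => h x ∈ t'), L.down s hs _ (Finset.filter_subset _ _) ?_, h2.symm⟩
        obtain ⟨y, hy⟩ := hne
        have h3 : y ∈ h '' ((s.filter (fun x => h x ∈ t') : Finset E) : Set E) := by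
          rw [h2]; exact hy
        obtain ⟨x, hx, -⟩ := h3
        exact ⟨x, hx⟩
      uniq := by
        rintro s' ⟨s, hs, h1⟩ t' ⟨t, ht, h2⟩ w v hw hv hw1 hv1 heq
        have hw' : ∀ x ∈ s, 0 < w (h x) := fun x hx => hw _ (by
          rw [himg s s' h1]; exact Finset.mem_image_of_mem h hx)
        have hv' : ∀ x ∈ t, 0 < v (h x) := fun x hx => hv _ (by
          rw [himg t t' h2]; exact Finset.mem_image_of_mem h hx)
        rw [hsum s hs s' h1] at hw1
        rw [hsum t ht t' h2] at hv1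
        rw [hsumF s hs s' h1, hsumF t ht t' h2] at heq
        have h3 := CRF_h_sum (hh s hs) hw' hw1
        have h4 := CRF_h_sum (hh t ht) hv' hv1
        have h5 : ∑ x ∈ s, w (h x) • x ∈ L.space := hsub s hs
          (Finset.mem_convexHull'.2 ⟨_, fun y hy => (hw' y hy).le, hw1, rfl⟩)
        have h6 : ∑ x ∈ t, v (h x) • x ∈ L.space := hsub t ht
          (Finset.mem_convexHull'.2 ⟨_, fun y hy => (hv' y hy).le, hv1, rfl⟩)
        have h7 : ∑ x ∈ s, w (h x) • x = ∑ x ∈ t, v (h x) • x :=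
          hi h5 h6 (h3.trans (heq.trans h4.symm))
        obtain ⟨h8, h9⟩ := L.uniq s hs t ht (fun x => w (h x)) (fun x => v (h x)) hw' hv' hw1 hv1 h7
        refine ⟨by rw [himg s s' h1, himg t t' h2, h8], ?_⟩
        intro y hy
        rw [himg s s' h1] at hy
        obtain ⟨x, hx, rfl⟩ := Finset.mem_image.1 hy
        exact h9 x hx }
  have hface : ∀ s' : Finset F, s' ∈ L'.faces ↔ ∃ s ∈ L.faces, (s' : Set F) = h '' (s : Set E) :=
    fun s' => Iff.rfl
  have hhull : ∀ s ∈ L.faces, h '' convexHull ℝ (s : Set E) = convexHull ℝ (h '' (s : Set E)) :=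
    fun s hs => CRF_image_hull (hh s hs)
  refine ⟨L', hface, ?_, ?_, hhull⟩
  · ext y
    constructor
    · intro hy
      obtain ⟨s', hs', hy'⟩ := Set.mem_iUnion₂.1 hy
      obtain ⟨s, hs, h1⟩ := (hface s').1 hs'
      rw [h1, ← hhull s hs] at hy'
      obtain ⟨x, hx, rfl⟩ := hy'
      exact ⟨x, hsub s hs hx, rfl⟩
    · rintro ⟨x, hx, rfl⟩
      obtain ⟨s, hs, hx'⟩ := Set.mem_iUnion₂.1 hx
      refine Set.mem_iUnion₂.2 ⟨s.image h, (hface _).2 ⟨s, hs, Finset.coe_image⟩, ?_⟩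
      rw [Finset.coe_image, ← hhull s hs]
      exact ⟨x, hx', rfl⟩
  · rintro x s ⟨hs, w, hw0, hw1, hwx⟩ s' h1
    have hinv : ∀ y ∈ s, Function.invFunOn h (s : Set E) (h y) = y := fun y hy =>
      (hinj s hs).leftInvOn_invFunOn hy
    refine ⟨(hface s').2 ⟨s, hs, h1⟩, fun y => w (Function.invFunOn h (s : Set E) y), ?_, ?_, ?_⟩
    · intro y hy
      rw [himg s s' h1] at hy
      obtain ⟨z, hz, rfl⟩ := Finset.mem_image.1 hy
      show 0 < w (Function.invFunOn h (s : Set E) (h z))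
      rw [hinv z hz]
      exact hw0 z hz
    · rw [hsum s hs s' h1, ← hw1]
      exact Finset.sum_congr rfl fun y hy => by rw [hinv y hy]
    · rw [hsumF s hs s' h1, ← hwx, CRF_h_sum (hh s hs) hw0 hw1]
      refine Finset.sum_congr rfl fun y hy => ?_
      show w (Function.invFunOn h (s : Set E) (h y)) • h y = w y • h y
      rw [hinv y hy]

theorem CRF_bary (s : Finset E) (hne : s.Nonempty) :
    ∃ w : E → ℝ, (∀ x ∈ s, 0 < w x) ∧ ∑ x ∈ s, w x = 1 := by
  have hc : (0 : ℝ) < s.card := by exact_mod_cast hne.card_pos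
  refine ⟨fun _ => 1 / s.card, fun x _ => by positivity, ?_⟩
  rw [Finset.sum_const, nsmul_eq_mul]
  field_simp

theorem affine_refine {X : Set E} {h : E → F} (hh : PLOn h X) (Y : Finset (Set E))
    (hY : ∀ A ∈ Y, IsPoly A) :
    ∃ L : GC E, L.space = X ∧ (∀ A ∈ Y, L.Adapted A) ∧
      ∀ s ∈ L.faces, AffOn h (convexHull ℝ (s : Set E)) := by
  classical
  obtain ⟨S, hS, hS2⟩ := hh.pieces
  have hX : IsPoly X := hh.domain
  obtain ⟨L, hL, hL2⟩ := triang X hX (Y.image (fun A => A ∩ X) ∪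
    S.image (fun s : Finset E => convexHull ℝ (s : Set E))) (by
      intro A hA
      rcases Finset.mem_union.1 hA with hA | hA
      · obtain ⟨B, hB, rfl⟩ := Finset.mem_image.1 hA
        exact ⟨(hY B hB).inter hX, Set.inter_subset_right⟩
      · obtain ⟨s, hs, rfl⟩ := Finset.mem_image.1 hA
        refine ⟨IsPoly.hull s, ?_⟩
        rw [hS]
        exact Set.subset_iUnion₂
          (s := fun (s : Finset E) (_ : s ∈ S) => convexHull ℝ (s : Set E)) s hs)
  refine ⟨L, hL, ?_, ?_⟩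
  · intro A hA s hs w hw hw1 hmem
    have h1 := hL2 (A ∩ X) (Finset.mem_union_left _ (Finset.mem_image.2 ⟨A, hA, rfl⟩)) s hs w hw hw1
      ⟨hmem, by
        rw [← hL]
        exact Set.mem_iUnion₂.2 ⟨s, hs,
          Finset.mem_convexHull'.2 ⟨w, fun y hy => (hw y hy).le, hw1, rfl⟩⟩⟩
    exact h1.trans Set.inter_subset_left
  · intro s hs
    obtain ⟨w, hw, hw1⟩ := CRF_bary s (L.ne s hs)
    have h1 : ∑ x ∈ s, w x • x ∈ X := by
      rw [← hL]
      exact Set.mem_iUnion₂.2 ⟨s, hs,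
        Finset.mem_convexHull'.2 ⟨w, fun y hy => (hw y hy).le, hw1, rfl⟩⟩
    rw [hS] at h1
    obtain ⟨t, ht, h2⟩ := Set.mem_iUnion₂.1 h1
    have h3 := hL2 _ (Finset.mem_union_right _ (Finset.mem_image.2 ⟨t, ht, rfl⟩)) s hs w hw hw1 h2
    obtain ⟨A, hA⟩ := (hS2 t ht).2.2
    exact ⟨A, hA.mono h3⟩

theorem chart_refine {m : ℕ} {M U : Set E} {h : E → Fin m → ℝ} (hc : IsChart m M U h)
    (Y : Finset (Set E)) (hY : ∀ A ∈ Y, IsPoly A) :
    ∃ (L : GC E) (L' : GC (Fin m → ℝ)), L.space = U ∧ (∀ A ∈ Y, L.Adapted A) ∧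
      (∀ s ∈ L.faces, AffOn h (convexHull ℝ (s : Set E))) ∧ L'.space = cube m ∧
      (∀ s' : Finset (Fin m → ℝ), s' ∈ L'.faces ↔
        ∃ s ∈ L.faces, (s' : Set (Fin m → ℝ)) = h '' (s : Set E)) ∧
      (∀ x s, L.IsCarrier x s → ∀ s' : Finset (Fin m → ℝ),
        (s' : Set (Fin m → ℝ)) = h '' (s : Set E) → L'.IsCarrier (h x) s') ∧
      (∀ s ∈ L.faces, h '' convexHull ℝ (s : Set E) = convexHull ℝ (h '' (s : Set E))) := by
  obtain ⟨-, h1, h2, h3⟩ := hc
  obtain ⟨L, hL1, hL2, hL3⟩ := affine_refine h1 Y hY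
  obtain ⟨L', h4, h5, h6, h7⟩ := L.image_complex h hL3 (by rw [hL1]; exact h2)
  exact ⟨L, L', hL1, hL2, hL3, by rw [h5, hL1, h3], h4, h6, h7⟩

/-- The finite set of hulls of the faces, as polyhedra (for use as `Y`). -/
theorem GC.exists_hulls (K : GC E) :
    ∃ Y : Finset (Set E), (∀ A, A ∈ Y ↔ ∃ s ∈ K.faces, A = convexHull ℝ (s : Set E)) ∧
      ∀ A ∈ Y, IsPoly A := by
  classical
  refine ⟨K.fin.toFinset.image (fun s : Finset E => convexHull ℝ (s : Set E)), ?_, ?_⟩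
  · intro A
    rw [Finset.mem_image]
    constructor
    · rintro ⟨s, hs, rfl⟩
      exact ⟨s, K.fin.mem_toFinset.1 hs, rfl⟩
    · rintro ⟨s, hs, rfl⟩
      exact ⟨s, K.fin.mem_toFinset.2 hs, rfl⟩
  · intro A hA
    obtain ⟨s, -, rfl⟩ := Finset.mem_image.1 hA
    exact IsPoly.hull s

theorem GC.carrier_refine {K L : GC E}
    (had : ∀ s ∈ K.faces, L.Adapted (convexHull ℝ (s : Set E))) {x y : E} {s a : Finset E}
    (hx : L.IsCarrier x s) (hy : L.IsCarrier y s) (ha : K.IsCarrier x a) :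
    K.IsCarrier y a ∧ convexHull ℝ (s : Set E) ⊆ convexHull ℝ (a : Set E) := by
  have h1 : convexHull ℝ (s : Set E) ⊆ convexHull ℝ (a : Set E) :=
    GC.adapted_iff.1 (had a ha.1) x s hx ha.mem_hull
  have h2 : y ∈ convexHull ℝ (a : Set E) := h1 hy.mem_hull
  obtain ⟨a', ha', hc⟩ := GC.exists_carrier ha.1 h2
  have h3 : convexHull ℝ (s : Set E) ⊆ convexHull ℝ (a' : Set E) :=
    GC.adapted_iff.1 (had a' hc.1) y s hy hc.mem_hull
  have h4 : a ⊆ a' := GC.carrier_sub hc.1 (h3 hx.mem_hull) ha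
  have h5 : a' = a := Finset.Subset.antisymm ha' h4
  exact ⟨h5 ▸ hc, h1⟩

/-- the weights on `a` given by a vector indexed by `Fin (n + 1)`. -/
theorem CRF_weights {a : Finset E} {n : ℕ} (e : a ≃ Fin (n + 1)) (ω : Fin (n + 1) → ℝ) :
    ∃ w : E → ℝ, (∀ j, w (e.symm j : E) = ω j) ∧ (∑ x ∈ a, w x = ∑ j, ω j) ∧
      ∑ x ∈ a, w x • x = ∑ j, ω j • (e.symm j : E) := by
  classical
  have h1 : ∀ j, (fun y : E => if h : y ∈ a then ω (e ⟨y, h⟩) else 0) (e.symm j : E) = ω j := by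
    intro j
    have h2 : ((e.symm j : a) : E) ∈ a := (e.symm j).2
    simp only [h2, dite_true]
    congr 1
    exact e.apply_symm_apply j
  refine ⟨fun y => if h : y ∈ a then ω (e ⟨y, h⟩) else 0, h1, ?_, ?_⟩
  · rw [← Finset.sum_coe_sort a, ← Equiv.sum_comp e.symm]
    exact Finset.sum_congr rfl fun j _ => h1 j
  · rw [← Finset.sum_coe_sort a, ← Equiv.sum_comp e.symm]
    exact Finset.sum_congr rfl fun j _ => by rw [h1 j]

theorem GC.exists_face_dim {K L : GC E} {a : Finset E} (ha : a ∈ K.faces)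
    (had : L.Adapted (convexHull ℝ (a : Set E))) {O : Set E} (hO : IsOpen O) {x : E} (hx : x ∈ O)
    (hxa : x ∈ convexHull ℝ (a : Set E)) (hsub : convexHull ℝ (a : Set E) ∩ O ⊆ L.space) :
    ∃ b ∈ L.faces, b.card = a.card ∧ convexHull ℝ (b : Set E) ⊆ convexHull ℝ (a : Set E) ∧
      ∃ y ∈ O, L.IsCarrier y b ∧ K.IsCarrier y a := by
  classical
  obtain ⟨n, hn⟩ : ∃ n, a.card = n + 1 := ⟨a.card - 1, by
    have := (K.ne a ha).card_pos
    omega⟩
  have e : a ≃ Fin (n + 1) := a.equivFinOfCardEq hn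
  obtain ⟨p, hp⟩ : ∃ p : Fin (n + 1) → E, p = fun j => (e.symm j : E) := ⟨_, rfl⟩
  have hpa : ∀ j, p j ∈ a := fun j => by rw [hp]; exact (e.symm j).2
  have haff : AffineIndependent ℝ p := by
    have h1 := K.affineIndependent ha
    have h2 := h1.comp_embedding e.symm.toEmbedding
    rw [hp]
    exact h2
  -- the linear map
  obtain ⟨T, hT⟩ : ∃ T : (Fin n → ℝ) →ₗ[ℝ] E, ∀ z, T z = ∑ i, z i • (p i.succ - p 0) :=
    ⟨Fintype.linearCombination ℝ (fun i : Fin n => p i.succ - p 0), fun z => by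
      rw [Fintype.linearCombination_apply]⟩
  have hTinj : Function.Injective T := by
    have h1 : LinearIndependent ℝ (fun i : Fin n => p i.succ - p 0) := by
      have h2 := (affineIndependent_iff_linearIndependent_vsub ℝ p 0).1 haff
      have h3 := h2.comp (fun i : Fin n => (⟨i.succ, Fin.succ_ne_zero i⟩ : {x // x ≠ (0 : Fin (n + 1))}))
        (fun i j hij => Fin.succ_injective _ (Subtype.ext_iff.1 hij))
      exact h3
    rw [← LinearMap.ker_eq_bot, LinearMap.ker_eq_bot']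
    intro z hz
    rw [hT] at hz
    exact funext (Fintype.linearIndependent_iff.1 h1 z hz)
  have hTcont : Continuous T := T.continuous_of_finiteDimensional
  have hφ : ∀ z : Fin n → ℝ, p 0 + T z = ∑ j, (Fin.cons (1 - ∑ i, z i) z : Fin (n + 1) → ℝ) j • p j := by
    intro z
    rw [hT, Fin.sum_univ_succ]
    simp only [Fin.cons_zero, Fin.cons_succ, smul_sub, Finset.sum_sub_distrib, ← Finset.sum_smul,
      sub_smul, one_smul]
    abel
  have hcar : ∀ z : Fin n → ℝ, (∀ i, 0 < z i) → ∑ i, z i < 1 → K.IsCarrier (p 0 + T z) a := by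
    intro z hz hz1
    obtain ⟨w, hw1, hw2, hw3⟩ := CRF_weights e (Fin.cons (1 - ∑ i, z i) z)
    refine ⟨ha, w, ?_, ?_, ?_⟩
    · intro y hy
      have h1 : y = (e.symm (e ⟨y, hy⟩) : E) := by rw [e.symm_apply_apply]
      rw [h1, hw1]
      refine Fin.cases ?_ (fun i => ?_) (e ⟨y, hy⟩)
      · rw [Fin.cons_zero]; linarith
      · rw [Fin.cons_succ]; exact hz i
    · rw [hw2, Fin.sum_univ_succ]
      simp only [Fin.cons_zero, Fin.cons_succ]
      ring
    · rw [hw3, hφ, hp]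
  -- the open set
  obtain ⟨U, hU⟩ : ∃ U : Set (Fin n → ℝ), U = {z | (∀ i, 0 < z i) ∧ ∑ i, z i < 1 ∧ p 0 + T z ∈ O} :=
    ⟨_, rfl⟩
  have hUopen : IsOpen U := by
    have h1 : U = (⋂ i, {z : Fin n → ℝ | 0 < z i}) ∩ ({z | ∑ i, z i < 1} ∩
        (fun z => p 0 + T z) ⁻¹' O) := by
      rw [hU]; ext z; simp
    rw [h1]
    refine IsOpen.inter (isOpen_iInter_of_finite fun i => ?_) (IsOpen.inter ?_ ?_)
    · exact isOpen_lt continuous_const (continuous_apply i)
    · exact isOpen_lt (continuous_finsetSum _ fun i _ => continuous_apply i) continuous_const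
    · exact hO.preimage (continuous_const.add hTcont)
  have hUne : U.Nonempty := by
    obtain ⟨w, hw0, hw1, hwx⟩ := Finset.mem_convexHull'.1 hxa
    -- coordinates of x
    have hn0 : (0 : ℝ) < n + 1 := by positivity
    have hwsum : ∑ j, w (p j) = 1 := by
      rw [← hw1, ← Finset.sum_coe_sort a, ← Equiv.sum_comp e.symm, hp]
    have hwsum2 : ∑ j, w (p j) • p j = x := by
      rw [← hwx, ← Finset.sum_coe_sort a, ← Equiv.sum_comp e.symm, hp]
    have hf : ∀ t : ℝ, ∃ z : Fin n → ℝ, z = fun i => (1 - t) * w (p i.succ) + t * (1 / (n + 1)) :=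
      fun t => ⟨_, rfl⟩
    obtain ⟨f, hfdef⟩ : ∃ f : ℝ → Fin n → ℝ,
        f = fun t i => (1 - t) * w (p i.succ) + t * (1 / (n + 1)) := ⟨_, rfl⟩
    have hfc : Continuous f := by
      rw [hfdef]
      refine continuous_pi fun i => ?_
      fun_prop
    have hf0 : p 0 + T (f 0) = x := by
      rw [hφ, ← hwsum2]
      refine Finset.sum_congr rfl fun j _ => ?_
      congr 1
      refine Fin.cases ?_ (fun i => ?_) j
      · rw [Fin.cons_zero]
        have h2 := hwsum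
        rw [Fin.sum_univ_succ] at h2
        have h3 : ∑ i, f 0 i = ∑ i : Fin n, w (p i.succ) :=
          Finset.sum_congr rfl fun i _ => by rw [hfdef]; simp
        rw [h3]
        linarith
      · rw [Fin.cons_succ, hfdef]; simp
    have hmemO : ∀ᶠ t in 𝓝 (0 : ℝ), p 0 + T (f t) ∈ O := by
      have hc : Continuous fun t => p 0 + T (f t) := continuous_const.add (hTcont.comp hfc)
      exact hc.continuousAt.eventually_mem (hO.mem_nhds (by rw [hf0]; exact hx))
    obtain ⟨t, ht0, ht1, htO⟩ : ∃ t : ℝ, 0 < t ∧ t < 1 ∧ p 0 + T (f t) ∈ O := by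
      have h1 : ∀ᶠ t in 𝓝[>] (0 : ℝ), p 0 + T (f t) ∈ O := hmemO.filter_mono nhdsWithin_le_nhds
      have h2 : ∀ᶠ t in 𝓝[>] (0 : ℝ), t ∈ Ioo (0 : ℝ) 1 := Ioo_mem_nhdsGT one_pos
      obtain ⟨t, h3, h4⟩ := (h1.and h2).exists
      exact ⟨t, h4.1, h4.2, h3⟩
    refine ⟨f t, ?_⟩
    rw [hU]
    refine ⟨fun i => ?_, ?_, htO⟩
    · rw [hfdef]
      have h1 : 0 ≤ w (p i.succ) := hw0 _ (hpa _)
      have h2 : 0 < t * (1 / ((n : ℝ) + 1)) := by positivity
      have h3 : 0 ≤ (1 - t) * w (p i.succ) := mul_nonneg (by linarith) h1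
      show 0 < (1 - t) * w (p i.succ) + t * (1 / (n + 1))
      linarith
    · have h1 : ∑ i, f t i = (1 - t) * ∑ i : Fin n, w (p i.succ) + t * (n / (n + 1)) := by
        rw [hfdef, Finset.mul_sum, Finset.sum_add_distrib, Finset.sum_const, Finset.card_univ,
          Fintype.card_fin, nsmul_eq_mul]
        congr 1
        field_simp
      have h2 : ∑ i : Fin n, w (p i.succ) ≤ 1 := by
        have h3 := hwsum
        rw [Fin.sum_univ_succ] at h3
        have h4 := hw0 _ (hpa 0)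
        linarith
      have h5 : (n : ℝ) / (n + 1) < 1 := by
        rw [div_lt_one hn0]; linarith
      rw [h1]
      nlinarith
  -- dimension
  have hdim : ∀ (b : Finset E), AffineIndependent ℝ (fun x : b => (x : E)) → b.Nonempty →
      Module.finrank ℝ (vectorSpan ℝ (b : Set E)) + 1 = b.card := by
    intro b hb hne
    obtain ⟨k, hk⟩ : ∃ k, b.card = k + 1 := ⟨b.card - 1, by have := hne.card_pos; omega⟩
    have h1 := hb.finrank_vectorSpan (n := k) (by rw [Fintype.card_coe, hk])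
    have h2 : Set.range (fun x : b => (x : E)) = (b : Set E) := by
      ext y; simp
    rw [h2] at h1
    rw [h1, hk]
  by_contra hcon
  push Not at hcon
  have hcov : U ⊆ ⋃ b ∈ {b | b ∈ L.faces ∧ b.card < a.card}, (fun z => p 0 + T z) ⁻¹'
      (affineSpan ℝ (b : Set E) : Set E) := by
    intro z hz
    rw [hU] at hz
    obtain ⟨hz1, hz2, hz3⟩ := hz
    have hc := hcar z hz1 hz2
    obtain ⟨b, hb⟩ := GC.exists_carrier' (hsub ⟨hc.mem_hull, hz3⟩)
    have hba : convexHull ℝ (b : Set E) ⊆ convexHull ℝ (a : Set E) :=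
      GC.adapted_iff.1 had _ b hb hc.mem_hull
    have hcard : b.card ≤ a.card := by
      have h1 := hdim a (K.affineIndependent ha) (K.ne a ha)
      have h2 := hdim b (L.affineIndependent hb.1) (L.ne b hb.1)
      have h3 : vectorSpan ℝ (b : Set E) ≤ vectorSpan ℝ (a : Set E) := by
        have h4 : (b : Set E) ⊆ (affineSpan ℝ (a : Set E) : Set E) :=
          ((subset_convexHull ℝ _).trans hba).trans (convexHull_subset_affineSpan _)
        have h5 : affineSpan ℝ (b : Set E) ≤ affineSpan ℝ (a : Set E) := affineSpan_le.2 h4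
        rw [← direction_affineSpan, ← direction_affineSpan]
        exact AffineSubspace.direction_le h5
      have h6 := Submodule.finrank_mono h3
      omega
    have hlt : b.card < a.card := by
      refine lt_of_le_of_ne hcard fun heq => ?_
      exact hcon b hb.1 heq hba _ hz3 hb hc
    exact Set.mem_iUnion₂.2 ⟨b, ⟨hb.1, hlt⟩, convexHull_subset_affineSpan _ hb.mem_hull⟩
  have hnull : MeasureTheory.volume (⋃ b ∈ {b | b ∈ L.faces ∧ b.card < a.card},
      (fun z => p 0 + T z) ⁻¹' (affineSpan ℝ (b : Set E) : Set E)) = 0 := by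
    have hfin : {b | b ∈ L.faces ∧ b.card < a.card}.Finite := L.fin.subset fun b hb => hb.1
    rw [MeasureTheory.measure_biUnion_null_iff hfin.countable]
    rintro b ⟨hb, hlt⟩
    obtain ⟨φ, hφ'⟩ : ∃ φ : (Fin n → ℝ) →ᵃ[ℝ] E, ∀ z, φ z = p 0 + T z :=
      ⟨AffineMap.const ℝ _ (p 0) + T.toAffineMap, fun z => rfl⟩
    have h1 : (fun z => p 0 + T z) ⁻¹' (affineSpan ℝ (b : Set E) : Set E)
        = ((affineSpan ℝ (b : Set E)).comap φ : Set (Fin n → ℝ)) := by
      ext z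
      rw [Set.mem_preimage, SetLike.mem_coe, SetLike.mem_coe, AffineSubspace.mem_comap, hφ']
    rw [h1]
    apply MeasureTheory.Measure.addHaar_affineSubspace
    intro htop
    have h2 : ∀ z, p 0 + T z ∈ affineSpan ℝ (b : Set E) := by
      intro z
      have h3 : z ∈ (affineSpan ℝ (b : Set E)).comap φ := by rw [htop]; trivial
      rw [AffineSubspace.mem_comap, hφ'] at h3
      exact h3
    have h4 : LinearMap.range T ≤ vectorSpan ℝ (b : Set E) := by
      rintro _ ⟨z, rfl⟩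
      rw [← direction_affineSpan]
      have h5 := AffineSubspace.vsub_mem_direction (h2 z) (h2 0)
      rw [map_zero, add_zero, vsub_eq_sub, add_sub_cancel_left] at h5
      exact h5
    have h6 := Submodule.finrank_mono h4
    rw [LinearMap.finrank_range_of_inj hTinj, Module.finrank_fin_fun] at h6
    have h7 := hdim b (L.affineIndependent hb) (L.ne b hb)
    omega
  have hpos := hUopen.measure_pos MeasureTheory.volume hUne
  exact absurd (MeasureTheory.measure_mono_null hcov hnull) hpos.ne'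

end Pool.H54.UB

end S_CRF

section S_LFA

/-!
# Row LFA: lifts of simplices under a nondegenerate PL map, the complex upstairs

Setting: `Adm K S f N` (see `Core.lean`): `N = ⋃ conv s`, `f` affine and injective on each piece
`conv s`, `K` adapted to the sets `f (conv s)` and `f (conv s ∩ conv s')`.

* `lift_unique`: `σ` in the piece `s`, `σ'` in `s'`, `y = ∑ w σ = ∑ w σ'` (`w > 0`), so
  `f y = ∑ w t =: x` has `K`-carrier `range t` and `x ∈ f (conv s ∩ conv s')`; `ad2` gives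
  `t a ∈ f (conv s ∩ conv s')` for all `a`, say `t a = f z`, and injectivity on the pieces gives
  `σ a = z = σ' a`.
* `exists_lift`: `y` in the piece `s`; `ad1`: `convexHull (range t) ⊆ f (conv s)`, so `t a = f (σ a)`
  with `σ a ∈ conv s`; `f (∑ w σ) = ∑ w t = f y`, so `∑ w σ = y`.
* `finite`: at most one lift in each piece.
* `pullback`: faces = finsets `t ≠ ∅` contained in a piece `conv s` whose image is a face of `K`
  (`f` is injective on `t`).  `uniq`: positive combinations `y` of `t` and of `t'`; apply the argument of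
  `lift_unique` (their images have the same barycentre, so `f(t) = f(t')` with the same weights by
  `K.uniq`; then `t = t'`).  `space`: `exists_lift`.
  Adapted: if `y ∈ Y` has carrier `t ⊆ conv s` then `f y ∈ f (Y ∩ conv s)`, so
  `convexHull (f t) ⊆ f (Y ∩ conv s)`, and by injectivity on `conv s`, `convexHull t ⊆ Y`.
-/

open Set Topology

namespace Pool.H54.UB

variable {E F : Type*} [NormedAddCommGroup E] [NormedSpace ℝ E] [FiniteDimensional ℝ E]
  [NormedAddCommGroup F] [NormedSpace ℝ F] [FiniteDimensional ℝ F]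
  {K : GC F} {S : Finset (Finset E)} {f : E → F} {N : Set E}

omit [FiniteDimensional ℝ E] [FiniteDimensional ℝ F] in
private theorem LFA_aff (A : E →ᵃ[ℝ] F) {ι : Type*} (s : Finset ι) (w : ι → ℝ) (p : ι → E)
    (hw : ∑ i ∈ s, w i = 1) : A (∑ i ∈ s, w i • p i) = ∑ i ∈ s, w i • A (p i) := by
  have hA : ∀ x, A x = A.linear x + A 0 := fun x => congrFun A.decomp x
  rw [hA, map_sum]
  have h1 : ∀ i ∈ s, w i • A (p i) = A.linear (w i • p i) + w i • A 0 := by
    intro i _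
    rw [hA (p i), smul_add, map_smul]
  rw [Finset.sum_congr rfl h1, Finset.sum_add_distrib, ← Finset.sum_smul, hw, one_smul]

omit [FiniteDimensional ℝ E] [FiniteDimensional ℝ F] in
/-- a map which is affine on a convex set commutes with convex combinations -/
private theorem LFA_conv {f : E → F} {C : Set E} (hC : Convex ℝ C) (hf : AffOn f C) {ι : Type*}
    (s : Finset ι) (w : ι → ℝ) (p : ι → E) (hw0 : ∀ i ∈ s, 0 ≤ w i) (hw : ∑ i ∈ s, w i = 1)
    (hp : ∀ i ∈ s, p i ∈ C) :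
    ∑ i ∈ s, w i • p i ∈ C ∧ f (∑ i ∈ s, w i • p i) = ∑ i ∈ s, w i • f (p i) := by
  obtain ⟨A, hA⟩ := hf
  have h1 : ∑ i ∈ s, w i • p i ∈ C := hC.sum_mem hw0 hw hp
  refine ⟨h1, ?_⟩
  rw [hA h1, LFA_aff A s w p hw]
  exact Finset.sum_congr rfl fun i hi => by rw [hA (hp i hi)]

omit [FiniteDimensional ℝ F] in
/-- the carrier of a positive combination of a tuple -/
private theorem LFA_tup {K : GC F} {n : ℕ} {t : Fin n → F} (ht : K.Tup t) {w : Fin n → ℝ}
    (hw : ∀ a, 0 < w a) (hw1 : ∑ a, w a = 1) {Y : Set F} (hY : K.Adapted Y)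
    (hx : ∑ a, w a • t a ∈ Y) : ∀ a, t a ∈ Y := by
  classical
  obtain ⟨s, hs, hts⟩ := ht
  have hne : (Finset.univ.image t).Nonempty := by
    rw [Finset.image_nonempty, Finset.univ_nonempty_iff]
    by_contra hc
    rw [not_nonempty_iff] at hc
    rw [Finset.univ_eq_empty, Finset.sum_empty] at hw1
    exact zero_ne_one hw1
  have hsub : Finset.univ.image t ⊆ s := by
    intro z hz
    obtain ⟨a, -, rfl⟩ := Finset.mem_image.1 hz
    exact hts a
  have hT := K.down s hs _ hsub hne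
  have h1 := hY _ hT (fun z => ∑ a ∈ Finset.univ.filter (fun a => t a = z), w a) ?_ ?_ ?_
  · intro a
    refine h1 (subset_convexHull ℝ _ ?_)
    rw [Finset.mem_coe]
    exact Finset.mem_image_of_mem t (Finset.mem_univ a)
  · intro z hz
    obtain ⟨a, -, rfl⟩ := Finset.mem_image.1 hz
    refine Finset.sum_pos (fun b _ => hw b) ⟨a, ?_⟩
    rw [Finset.mem_filter]
    exact ⟨Finset.mem_univ a, rfl⟩
  · rw [← hw1]
    exact Finset.sum_fiberwise_of_maps_to (fun a _ => Finset.mem_image_of_mem t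
      (Finset.mem_univ a)) w
  · have h2 : ∑ z ∈ Finset.univ.image t,
        (∑ a ∈ Finset.univ.filter (fun a => t a = z), w a) • z = ∑ a, w a • t a := by
      rw [← Finset.sum_fiberwise_of_maps_to (s := Finset.univ) (t := Finset.univ.image t)
        (g := t) (fun a _ => Finset.mem_image_of_mem t (Finset.mem_univ a))
        (fun a => w a • t a)]
      refine Finset.sum_congr rfl fun z _ => ?_
      rw [Finset.sum_smul]
      refine Finset.sum_congr rfl fun a ha => ?_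
      rw [Finset.mem_filter] at ha
      rw [ha.2]
    rw [h2]
    exact hx

omit [FiniteDimensional ℝ E] [FiniteDimensional ℝ F] in
theorem Adm.lift_maps_aux (h : Adm K S f N) {n : ℕ} {t : Fin n → F} {σ : Fin n → E} {s : Finset E}
    (hs : s ∈ S) (hσ : ∀ a, σ a ∈ convexHull ℝ (s : Set E)) (hf : ∀ a, f (σ a) = t a)
    {w : Fin n → ℝ} (hw : ∀ a, 0 ≤ w a) (hw1 : ∑ a, w a = 1) :
    ∑ a, w a • σ a ∈ convexHull ℝ (s : Set E) ∧ f (∑ a, w a • σ a) = ∑ a, w a • t a := by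
  obtain ⟨h1, h2⟩ := LFA_conv (convex_convexHull ℝ (s : Set E)) (h.aff s hs) Finset.univ w σ
    (fun a _ => hw a) hw1 (fun a _ => hσ a)
  refine ⟨h1, h2.trans ?_⟩
  exact Finset.sum_congr rfl fun a _ => by rw [hf a]

omit [FiniteDimensional ℝ E] [FiniteDimensional ℝ F] in
theorem Adm.lift_unique (h : Adm K S f N) {n : ℕ} {t : Fin n → F} (ht : K.Tup t)
    {σ σ' : Fin n → E} (hσ : IsLift S f t σ) (hσ' : IsLift S f t σ') {w : Fin n → ℝ}
    (hw : ∀ a, 0 < w a) (hw1 : ∑ a, w a = 1) (heq : ∑ a, w a • σ a = ∑ a, w a • σ' a) :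
    σ = σ' := by
  obtain ⟨⟨s, hs, h1⟩, h2⟩ := hσ
  obtain ⟨⟨s', hs', h1'⟩, h2'⟩ := hσ'
  obtain ⟨g1, g2⟩ := h.lift_maps_aux hs h1 h2 (fun a => (hw a).le) hw1
  obtain ⟨g1', -⟩ := h.lift_maps_aux hs' h1' h2' (fun a => (hw a).le) hw1
  rw [← heq] at g1'
  have h3 := LFA_tup ht hw hw1 (h.ad2 s hs s' hs') ⟨_, ⟨g1, g1'⟩, g2⟩
  funext a
  obtain ⟨z, ⟨hz, hz'⟩, hfz⟩ := h3 a
  have e1 : σ a = z := h.inj s hs (h1 a) hz (by rw [h2 a, hfz])
  have e2 : σ' a = z := h.inj s' hs' (h1' a) hz' (by rw [h2' a, hfz])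
  rw [e1, e2]

omit [FiniteDimensional ℝ E] [FiniteDimensional ℝ F] in
theorem Adm.exists_lift (h : Adm K S f N) {n : ℕ} {t : Fin n → F} (ht : K.Tup t)
    {w : Fin n → ℝ} (hw : ∀ a, 0 < w a) (hw1 : ∑ a, w a = 1) {y : E} (hy : y ∈ N)
    (hfy : f y = ∑ a, w a • t a) : ∃ σ, IsLift S f t σ ∧ ∑ a, w a • σ a = y := by
  rw [h.cover] at hy
  obtain ⟨s, hs, hys⟩ := Set.mem_iUnion₂.1 hy
  have h3 := LFA_tup ht hw hw1 (h.ad1 s hs) ⟨y, hys, hfy⟩
  choose σ hσ hfσ using h3
  obtain ⟨g1, g2⟩ := h.lift_maps_aux hs hσ hfσ (fun a => (hw a).le) hw1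
  exact ⟨σ, ⟨⟨s, hs, hσ⟩, hfσ⟩, h.inj s hs g1 hys (by rw [g2, hfy])⟩

omit [FiniteDimensional ℝ E] [FiniteDimensional ℝ F] in
theorem Adm.lift_maps (h : Adm K S f N) {n : ℕ} {t : Fin n → F} {σ : Fin n → E}
    (hσ : IsLift S f t σ) {w : Fin n → ℝ} (hw : ∀ a, 0 ≤ w a) (hw1 : ∑ a, w a = 1) :
    ∑ a, w a • σ a ∈ N ∧ f (∑ a, w a • σ a) = ∑ a, w a • t a := by
  obtain ⟨⟨s, hs, h1⟩, h2⟩ := hσ
  obtain ⟨g1, g2⟩ := h.lift_maps_aux hs h1 h2 hw hw1
  refine ⟨?_, g2⟩
  rw [h.cover]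
  exact Set.mem_iUnion₂.2 ⟨s, hs, g1⟩

omit [FiniteDimensional ℝ E] [FiniteDimensional ℝ F] in
theorem Adm.mem_lifts (h : Adm K S f N) {n : ℕ} (t : Fin n → F) (σ : Fin n → E) :
    σ ∈ lifts S f t ↔ IsLift S f t σ := by
  classical
  have hfin : {σ : Fin n → E | IsLift S f t σ}.Finite := by
    have h1 : {σ : Fin n → E | IsLift S f t σ} ⊆
        ⋃ s ∈ S, {σ : Fin n → E | (∀ a, σ a ∈ convexHull ℝ (s : Set E)) ∧
          ∀ a, f (σ a) = t a} := by
      rintro τ ⟨⟨s, hs, h2⟩, h3⟩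
      exact Set.mem_iUnion₂.2 ⟨s, hs, h2, h3⟩
    refine (S.finite_toSet.biUnion fun s hs => ?_).subset h1
    refine Set.Subsingleton.finite ?_
    rintro τ ⟨h2, h3⟩ τ' ⟨h2', h3'⟩
    funext a
    exact h.inj s hs (h2 a) (h2' a) (by rw [h3 a, h3' a])
  unfold lifts
  rw [dif_pos hfin, Set.Finite.mem_toFinset]
  rfl

omit [NormedSpace ℝ E] [FiniteDimensional ℝ E] [FiniteDimensional ℝ F] in
/-- push forward of weights -/
private theorem LFA_push {t : Finset E} {u : Finset F} (hu : f '' (t : Set E) = u)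
    (hi : InjOn f (t : Set E)) (w : E → ℝ) (hw : ∀ x ∈ t, 0 < w x) (hw1 : ∑ x ∈ t, w x = 1) :
    ∃ W : F → ℝ, (∀ x ∈ t, W (f x) = w x) ∧ (∀ z ∈ u, 0 < W z) ∧ ∑ z ∈ u, W z = 1 ∧
      ∑ z ∈ u, W z • z = ∑ x ∈ t, w x • f x := by
  classical
  have h1 : u = t.image f := by
    apply Finset.coe_injective
    rw [Finset.coe_image, hu]
  have h2 : ∀ x ∈ t, Function.invFunOn f (t : Set E) (f x) = x := fun x hx =>
    hi.leftInvOn_invFunOn hx
  refine ⟨fun z => w (Function.invFunOn f (t : Set E) z), ?_, ?_, ?_, ?_⟩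
  · intro x hx
    simp only
    rw [h2 x hx]
  · intro z hz
    rw [h1] at hz
    obtain ⟨x, hx, rfl⟩ := Finset.mem_image.1 hz
    simp only
    rw [h2 x hx]
    exact hw x hx
  · rw [h1, Finset.sum_image fun a ha b hb hab => hi ha hb hab, ← hw1]
    exact Finset.sum_congr rfl fun x hx => by rw [h2 x hx]
  · rw [h1, Finset.sum_image fun a ha b hb hab => hi ha hb hab]
    exact Finset.sum_congr rfl fun x hx => by simp only [h2 x hx]

omit [FiniteDimensional ℝ E] [FiniteDimensional ℝ F] in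
private theorem LFA_face (h : Adm K S f N) {t : Finset E} {s : Finset E} (hs : s ∈ S)
    (hts : (t : Set E) ⊆ convexHull ℝ (s : Set E)) {u : Finset F} (hu : f '' (t : Set E) = u)
    (w : E → ℝ) (hw : ∀ x ∈ t, 0 < w x) (hw1 : ∑ x ∈ t, w x = 1) :
    ∃ W : F → ℝ, (∀ x ∈ t, W (f x) = w x) ∧ (∀ z ∈ u, 0 < W z) ∧ ∑ z ∈ u, W z = 1 ∧
      ∑ z ∈ u, W z • z = f (∑ x ∈ t, w x • x) ∧ ∑ x ∈ t, w x • x ∈ convexHull ℝ (s : Set E) := by
  obtain ⟨W, h1, h2, h3, h4⟩ := LFA_push hu ((h.inj s hs).mono hts) w hw hw1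
  obtain ⟨g1, g2⟩ := LFA_conv (convex_convexHull ℝ (s : Set E)) (h.aff s hs) t w (fun x => x)
    (fun x hx => (hw x hx).le) hw1 (fun x hx => hts hx)
  exact ⟨W, h1, h2, h3, by rw [h4, g2], g1⟩

omit [FiniteDimensional ℝ E] [FiniteDimensional ℝ F] in
private theorem LFA_sub (h : Adm K S f N) {t t' : Finset E} {s s' : Finset E} (hs : s ∈ S)
    (hs' : s' ∈ S) (hts : (t : Set E) ⊆ convexHull ℝ (s : Set E))
    (hts' : (t' : Set E) ⊆ convexHull ℝ (s' : Set E)) {u : Finset F} (huK : u ∈ K.faces)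
    (hu : f '' (t : Set E) = u) (hu' : f '' (t' : Set E) = u) (w : E → ℝ)
    (hw : ∀ x ∈ t, 0 < w x) (hw1 : ∑ x ∈ t, w x = 1)
    (hy : ∑ x ∈ t, w x • x ∈ convexHull ℝ (s' : Set E)) : t ⊆ t' := by
  obtain ⟨W, h1, h2, h3, h4, h5⟩ := LFA_face h hs hts hu w hw hw1
  have h6 := h.ad2 s hs s' hs' u huK W h2 h3 (by
    rw [h4]
    exact ⟨_, ⟨h5, hy⟩, rfl⟩)
  intro x hx
  have h7 : f x ∈ (u : Set F) := by
    rw [← hu]
    exact ⟨x, hx, rfl⟩
  obtain ⟨z, ⟨hz, hz'⟩, hfz⟩ := h6 (subset_convexHull ℝ _ h7)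
  have e1 : x = z := h.inj s hs (hts hx) hz hfz.symm
  rw [← hu'] at h7
  obtain ⟨x', hx', hfx'⟩ := h7
  have e2 : x' = z := h.inj s' hs' (hts' hx') hz' (by rw [hfx', hfz])
  rw [e1, ← e2]
  exact hx'

omit [FiniteDimensional ℝ E] [FiniteDimensional ℝ F] in
private theorem LFA_uniq (h : Adm K S f N) {t t' : Finset E}
    (ht : ∃ s ∈ S, (t : Set E) ⊆ convexHull ℝ (s : Set E))
    (ht' : ∃ s ∈ S, (t' : Set E) ⊆ convexHull ℝ (s : Set E))
    (hu : ∃ u ∈ K.faces, f '' (t : Set E) = u) (hu' : ∃ u ∈ K.faces, f '' (t' : Set E) = u)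
    (w v : E → ℝ) (hw : ∀ x ∈ t, 0 < w x) (hv : ∀ x ∈ t', 0 < v x) (hw1 : ∑ x ∈ t, w x = 1)
    (hv1 : ∑ x ∈ t', v x = 1) (e : ∑ x ∈ t, w x • x = ∑ x ∈ t', v x • x) :
    t = t' ∧ ∀ x ∈ t, w x = v x := by
  obtain ⟨s, hs, hts⟩ := ht
  obtain ⟨s', hs', hts'⟩ := ht'
  obtain ⟨u, huK, hu⟩ := hu
  obtain ⟨u', huK', hu'⟩ := hu'
  obtain ⟨W, h1, h2, h3, h4, h5⟩ := LFA_face h hs hts hu w hw hw1
  obtain ⟨W', h1', h2', h3', h4', h5'⟩ := LFA_face h hs' hts' hu' v hv hv1
  obtain ⟨e1, e2⟩ := K.uniq u huK u' huK' W W' h2 h2' h3 h3' (by rw [h4, h4', e])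
  subst e1
  have i1 : t ⊆ t' := LFA_sub h hs hs' hts hts' huK hu hu' w hw hw1 (by rw [e]; exact h5')
  have i2 : t' ⊆ t := LFA_sub h hs' hs hts' hts huK hu' hu v hv hv1 (by rw [← e]; exact h5)
  refine ⟨Finset.Subset.antisymm i1 i2, fun x hx => ?_⟩
  have h6 : f x ∈ u := by
    rw [← Finset.mem_coe, ← hu]
    exact ⟨x, hx, rfl⟩
  rw [← h1 x hx, ← h1' x (i1 hx)]
  exact e2 _ h6

omit [FiniteDimensional ℝ E] [FiniteDimensional ℝ F] in
private theorem LFA_fin (h : Adm K S f N) :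
    {t : Finset E | t.Nonempty ∧ (∃ s ∈ S, (t : Set E) ⊆ convexHull ℝ (s : Set E)) ∧
      ∃ u ∈ K.faces, f '' (t : Set E) = u}.Finite := by
  have h1 : {t : Finset E | t.Nonempty ∧ (∃ s ∈ S, (t : Set E) ⊆ convexHull ℝ (s : Set E)) ∧
      ∃ u ∈ K.faces, f '' (t : Set E) = u} ⊆ ⋃ s ∈ S, ⋃ u ∈ K.faces,
        {t : Finset E | (t : Set E) ⊆ convexHull ℝ (s : Set E) ∧ f '' (t : Set E) = u} := by
    rintro t ⟨-, ⟨s, hs, h2⟩, u, hu, h3⟩
    exact Set.mem_iUnion₂.2 ⟨s, hs, Set.mem_iUnion₂.2 ⟨u, hu, h2, h3⟩⟩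
  refine (S.finite_toSet.biUnion fun s hs => K.fin.biUnion fun u _ => ?_).subset h1
  refine Set.Subsingleton.finite ?_
  rintro t ⟨h2, h3⟩ t' ⟨h2', h3'⟩
  apply Finset.coe_injective
  exact ((h.inj s hs).image_eq_image_iff h2 h2').1 (by rw [h3, h3'])

/-- the complex upstairs -/
private def LFA_K (h : Adm K S f N) : GC E where
  faces := {t : Finset E | t.Nonempty ∧ (∃ s ∈ S, (t : Set E) ⊆ convexHull ℝ (s : Set E)) ∧
      ∃ u ∈ K.faces, f '' (t : Set E) = u}
  fin := LFA_fin h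
  ne := fun t ht => ht.1
  down := by
    classical
    rintro t ⟨-, ⟨s, hs, h2⟩, u, hu, h3⟩ t' ht' hne
    refine ⟨hne, ⟨s, hs, fun x hx => h2 (ht' hx)⟩, t'.image f, ?_, by rw [Finset.coe_image]⟩
    refine K.down u hu _ ?_ (hne.image f)
    intro z hz
    obtain ⟨x, hx, rfl⟩ := Finset.mem_image.1 hz
    rw [← Finset.mem_coe, ← h3]
    exact ⟨x, ht' hx, rfl⟩
  uniq := fun t ht t' ht' w v hw hv hw1 hv1 e =>
    LFA_uniq h ht.2.1 ht'.2.1 ht.2.2 ht'.2.2 w v hw hv hw1 hv1 e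

omit [FiniteDimensional ℝ E] [FiniteDimensional ℝ F] in
private theorem LFA_cover (h : Adm K S f N) {y : E} (hy : y ∈ N) :
    ∃ t : Finset E, (t.Nonempty ∧ (∃ s ∈ S, (t : Set E) ⊆ convexHull ℝ (s : Set E)) ∧
      ∃ u ∈ K.faces, f '' (t : Set E) = u) ∧ y ∈ convexHull ℝ (t : Set E) := by
  classical
  have hfy := h.maps hy
  rw [h.cover] at hy
  obtain ⟨s, hs, hys⟩ := Set.mem_iUnion₂.1 hy
  obtain ⟨u, hu, W, hW, hW1, hWy⟩ := GC.exists_carrier' hfy
  have h1 := h.ad1 s hs u hu W hW hW1 (by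
    rw [hWy]
    exact ⟨y, hys, rfl⟩)
  have h2 : ∀ z : F, ∃ x : E, z ∈ u → x ∈ convexHull ℝ (s : Set E) ∧ f x = z := by
    intro z
    by_cases hz : z ∈ u
    · obtain ⟨x, hx, hfx⟩ := h1 (subset_convexHull ℝ _ (Finset.mem_coe.2 hz))
      exact ⟨x, fun _ => ⟨hx, hfx⟩⟩
    · exact ⟨0, fun h3 => absurd h3 hz⟩
  choose g hg using h2
  obtain ⟨g1, g2⟩ := LFA_conv (convex_convexHull ℝ (s : Set E)) (h.aff s hs) u W g
    (fun z hz => (hW z hz).le) hW1 (fun z hz => (hg z hz).1)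
  have e : ∑ z ∈ u, W z • g z = y := by
    refine h.inj s hs g1 hys ?_
    rw [g2, ← hWy]
    exact Finset.sum_congr rfl fun z hz => by rw [(hg z hz).2]
  refine ⟨u.image g, ⟨(K.ne u hu).image g, ⟨s, hs, ?_⟩, u, hu, ?_⟩, ?_⟩
  · intro x hx
    rw [Finset.mem_coe] at hx
    obtain ⟨z, hz, rfl⟩ := Finset.mem_image.1 hx
    exact (hg z hz).1
  · ext z
    constructor
    · rintro ⟨x, hx, rfl⟩
      rw [Finset.mem_coe] at hx
      obtain ⟨z, hz, rfl⟩ := Finset.mem_image.1 hx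
      rw [(hg z hz).2]
      exact hz
    · intro hz
      exact ⟨g z, Finset.mem_coe.2 (Finset.mem_image_of_mem g hz), (hg z hz).2⟩
  · rw [← e]
    refine (convex_convexHull ℝ _).sum_mem (fun z hz => (hW z hz).le) hW1 fun z hz => ?_
    exact subset_convexHull ℝ _ (Finset.mem_coe.2 (Finset.mem_image_of_mem g hz))

omit [FiniteDimensional ℝ E] [FiniteDimensional ℝ F] in
private theorem LFA_ad (h : Adm K S f N) {Y : Set E}
    (hY : ∀ s ∈ S, K.Adapted (f '' (Y ∩ convexHull ℝ (s : Set E)))) : (LFA_K h).Adapted Y := by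
  rintro t ⟨-, ⟨s, hs, hts⟩, u, hu, h3⟩ w hw hw1 hy
  obtain ⟨W, h1, h2, h3', h4, h5⟩ := LFA_face h hs hts h3 w hw hw1
  have h6 := hY s hs u hu W h2 h3' (by
    rw [h4]
    exact ⟨_, ⟨hy, h5⟩, rfl⟩)
  intro y' hy'
  have hy's : y' ∈ convexHull ℝ (s : Set E) :=
    (convex_convexHull ℝ (s : Set E)).convexHull_subset_iff.2 hts hy'
  obtain ⟨v, hv0, hv1, hvy⟩ := Finset.mem_convexHull'.1 hy'
  obtain ⟨g1, g2⟩ := LFA_conv (convex_convexHull ℝ (s : Set E)) (h.aff s hs) t v (fun x => x)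
    hv0 hv1 (fun x hx => hts hx)
  rw [hvy] at g1 g2
  have h7 : f y' ∈ convexHull ℝ (u : Set F) := by
    rw [g2]
    refine (convex_convexHull ℝ _).sum_mem hv0 hv1 fun x hx => subset_convexHull ℝ _ ?_
    rw [← h3]
    exact ⟨x, hx, rfl⟩
  obtain ⟨z, ⟨hzY, hzs⟩, hfz⟩ := h6 h7
  have e : y' = z := h.inj s hs hy's hzs hfz.symm
  rw [e]
  exact hzY

omit [FiniteDimensional ℝ E] [FiniteDimensional ℝ F] in
theorem Adm.pullback (h : Adm K S f N) :
    ∃ K' : GC E, K'.space = N ∧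
      (∀ t : Finset E, t ∈ K'.faces ↔ t.Nonempty ∧ (∃ s ∈ S, (t : Set E) ⊆ convexHull ℝ (s : Set E))
        ∧ ∃ u ∈ K.faces, f '' (t : Set E) = u) ∧
      ∀ Y ⊆ N, (∀ s ∈ S, K.Adapted (f '' (Y ∩ convexHull ℝ (s : Set E)))) → K'.Adapted Y := by
  refine ⟨LFA_K h, ?_, fun t => Iff.rfl, fun Y _ hY => LFA_ad h hY⟩
  apply Set.Subset.antisymm
  · intro y hy
    obtain ⟨t, ⟨-, ⟨s, hs, hts⟩, -⟩, hyt⟩ := Set.mem_iUnion₂.1 hy
    rw [h.cover]
    exact Set.mem_iUnion₂.2 ⟨s, hs,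
      (convex_convexHull ℝ (s : Set E)).convexHull_subset_iff.2 hts hyt⟩
  · intro y hy
    obtain ⟨t, ht, hyt⟩ := LFA_cover h hy
    exact Set.mem_iUnion₂.2 ⟨t, ht, hyt⟩

omit [FiniteDimensional ℝ E] [FiniteDimensional ℝ F] in
/-- Tuples of the complex upstairs. -/
theorem Adm.tup_iff (h : Adm K S f N) {K' : GC E}
    (hK' : ∀ t : Finset E, t ∈ K'.faces ↔ t.Nonempty ∧
      (∃ s ∈ S, (t : Set E) ⊆ convexHull ℝ (s : Set E)) ∧ ∃ u ∈ K.faces, f '' (t : Set E) = u)
    {n : ℕ} (hn : 0 < n) (σ : Fin n → E) :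
    K'.Tup σ ↔ K.Tup (fun a => f (σ a)) ∧ IsLift S f (fun a => f (σ a)) σ := by
  classical
  have _ := h
  constructor
  · rintro ⟨t, ht, hσ⟩
    obtain ⟨-, ⟨s, hs, hts⟩, u, hu, h3⟩ := (hK' t).1 ht
    refine ⟨⟨u, hu, fun a => ?_⟩, ⟨s, hs, fun a => hts (hσ a)⟩, fun a => rfl⟩
    rw [← Finset.mem_coe, ← h3]
    exact ⟨σ a, hσ a, rfl⟩
  · rintro ⟨⟨u, hu, hfu⟩, ⟨s, hs, hσ⟩, -⟩
    have hne : (Finset.univ.image σ).Nonempty := by
      rw [Finset.image_nonempty, Finset.univ_nonempty_iff]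
      exact ⟨⟨0, hn⟩⟩
    refine ⟨Finset.univ.image σ, (hK' _).2 ⟨hne, ⟨s, hs, ?_⟩, (Finset.univ.image σ).image f,
      K.down u hu _ ?_ (hne.image f), (Finset.coe_image).symm⟩,
      fun a => Finset.mem_image_of_mem σ (Finset.mem_univ a)⟩
    · intro x hx
      rw [Finset.mem_coe] at hx
      obtain ⟨a, -, rfl⟩ := Finset.mem_image.1 hx
      exact hσ a
    · intro z hz
      obtain ⟨x, hx, rfl⟩ := Finset.mem_image.1 hz
      obtain ⟨a, -, rfl⟩ := Finset.mem_image.1 hx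
      exact hfu a

end Pool.H54.UB

end S_LFA

section S_SDT

/-!
# Row SDT: linear algebra of `sdet`

`sdet h a = det (h (a (i+1)) - h (a 0))_{i<m}` is the signed volume (times `m!`).
Key formula (`sdet_eq_det`): it is the determinant of the `(m+1) × (m+1)` matrix with rows
`(1, h (a i))` (subtract the first row, expand along the first column: `Matrix.det_succ_column_zero`).
Everything else follows:
* `sdet_perm`: permuting the rows (`Matrix.det_permute`).
* `sdet_comb`: if `a' i = ∑_k W i k • a k` with row sums 1 and `A` is affine, then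
  `sdet A a' = det W * sdet A a` (`Matrix.det_mul`).
* `sdet_cons_comb`: `sdet` is affine in the first entry.
* `sdet_ne_zero_iff`: nonzero iff the points `h (a i)` are affinely independent.
* `sdet_insertNth`: moving the first entry to position `j`.
-/

open Set Topology

namespace Pool.H54.UB

variable {E : Type*} [NormedAddCommGroup E] [NormedSpace ℝ E] {m : ℕ}

/-- the bordered matrix -/
def SDT_mat (h : E → Fin m → ℝ) (a : Fin (m + 1) → E) : Matrix (Fin (m + 1)) (Fin (m + 1)) ℝ :=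
  Matrix.of fun i j : Fin (m + 1) => (Fin.cons (1 : ℝ) (h (a i)) : Fin (m + 1) → ℝ) j

theorem SDT_zero (h : E → Fin m → ℝ) (a : Fin (m + 1) → E) (i : Fin (m + 1)) :
    SDT_mat h a i 0 = 1 := by
  simp [SDT_mat]

theorem SDT_succ (h : E → Fin m → ℝ) (a : Fin (m + 1) → E) (i : Fin (m + 1)) (j : Fin m) :
    SDT_mat h a i j.succ = h (a i) j := by
  simp [SDT_mat]

theorem SDT_det (h : E → Fin m → ℝ) (a : Fin (m + 1) → E) : sdet h a = (SDT_mat h a).det := by
  obtain ⟨A, hA⟩ : ∃ A : Matrix (Fin (m + 1)) (Fin (m + 1)) ℝ, A = Matrix.of fun i j =>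
    SDT_mat h a i j + (if i = 0 then 0 else -1) * SDT_mat h a 0 j := ⟨_, rfl⟩
  have h1 : A.det = (SDT_mat h a).det :=
    Matrix.det_eq_of_forall_row_eq_smul_add_const (fun i : Fin (m + 1) => if i = 0 then 0 else -1) 0
      (by simp) (fun i j => by rw [hA]; rfl)
  rw [← h1, Matrix.det_succ_column_zero, Fin.sum_univ_succ]
  have h2 : ∀ i : Fin m, A i.succ 0 = 0 := by
    intro i
    rw [hA]
    show SDT_mat h a i.succ 0 + (if i.succ = 0 then 0 else -1) * SDT_mat h a 0 0 = 0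
    rw [SDT_zero, SDT_zero, if_neg (Fin.succ_ne_zero i)]
    ring
  have h3 : A 0 0 = 1 := by
    rw [hA]
    show SDT_mat h a 0 0 + (if (0 : Fin (m + 1)) = 0 then 0 else -1) * SDT_mat h a 0 0 = 1
    rw [SDT_zero, if_pos rfl]
    ring
  rw [Finset.sum_eq_zero fun i _ => by rw [h2]; ring, h3]
  simp only [Fin.val_zero, pow_zero, one_mul, add_zero, Fin.zero_succAbove]
  unfold sdet
  congr 1
  ext i j
  rw [hA]
  show h (a i.succ) j - h (a 0) j = SDT_mat h a i.succ j.succ +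
    (if i.succ = 0 then 0 else -1) * SDT_mat h a 0 j.succ
  rw [SDT_succ, SDT_succ, if_neg (Fin.succ_ne_zero i)]
  ring

theorem sdet_eq_det (h : E → Fin m → ℝ) (a : Fin (m + 1) → E) :
    sdet h a = Matrix.det (Matrix.of fun i j : Fin (m + 1) =>
      (Fin.cons (1 : ℝ) (h (a i)) : Fin (m + 1) → ℝ) j) := SDT_det h a

theorem sdet_congr {h h' : E → Fin m → ℝ} {a : Fin (m + 1) → E} (e : ∀ i, h (a i) = h' (a i)) :
    sdet h a = sdet h' a := by
  unfold sdet
  simp only [e]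

theorem sdet_perm (h : E → Fin m → ℝ) (a : Fin (m + 1) → E) (π : Equiv.Perm (Fin (m + 1))) :
    sdet h (a ∘ π) = (Equiv.Perm.sign π : ℤ) * sdet h a := by
  rw [SDT_det, SDT_det, ← Matrix.det_permute]
  rfl

theorem SDT_aff {ι : Type*} (s : Finset ι) (w : ι → ℝ) (z : ι → E) (hw : ∑ i ∈ s, w i = 1)
    (A : E →ᵃ[ℝ] (Fin m → ℝ)) : A (∑ i ∈ s, w i • z i) = ∑ i ∈ s, w i • A (z i) := by
  have h1 : ∀ x, A x = A.linear x + A 0 := fun x => by
    have := congrFun A.decomp x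
    simpa using this
  rw [h1, map_sum]
  have h2 : ∑ i ∈ s, w i • A (z i) = ∑ i ∈ s, (w i • A.linear (z i) + w i • A 0) :=
    Finset.sum_congr rfl (fun i _ => by rw [h1 (z i), smul_add])
  rw [h2, Finset.sum_add_distrib, ← Finset.sum_smul, hw, one_smul]
  congr 1
  exact Finset.sum_congr rfl (fun i _ => by rw [map_smul])

theorem sdet_comb (A : E →ᵃ[ℝ] (Fin m → ℝ)) (a a' : Fin (m + 1) → E)
    (W : Matrix (Fin (m + 1)) (Fin (m + 1)) ℝ) (hW : ∀ i, ∑ k, W i k = 1)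
    (ha : ∀ i, a' i = ∑ k, W i k • a k) : sdet A a' = W.det * sdet A a := by
  rw [SDT_det, SDT_det, ← Matrix.det_mul]
  congr 1
  ext i j
  rw [Matrix.mul_apply]
  refine Fin.cases ?_ (fun j => ?_) j
  · rw [SDT_zero]
    simp only [SDT_zero, mul_one]
    exact (hW i).symm
  · rw [SDT_succ]
    simp only [SDT_succ]
    rw [ha i, SDT_aff _ _ _ (hW i), Finset.sum_apply]
    rfl

theorem sdet_cons_comb {ι : Type*} (s : Finset ι) (w : ι → ℝ) (z : ι → E) (hw : ∑ i ∈ s, w i = 1)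
    (A : E →ᵃ[ℝ] (Fin m → ℝ)) (t : Fin m → E) :
    sdet A (Fin.cons (∑ i ∈ s, w i • z i) t : Fin (m + 1) → E) =
      ∑ i ∈ s, w i * sdet A (Fin.cons (z i) t : Fin (m + 1) → E) := by
  have hrow : ∀ u : E, sdet A (Fin.cons u t : Fin (m + 1) → E) =
      ∑ j : Fin (m + 1), (-1) ^ (j : ℕ) * (Fin.cons (1 : ℝ) (A u) : Fin (m + 1) → ℝ) j *
        (Matrix.of fun i k : Fin m => (Fin.cons (1 : ℝ) (A (t i)) : Fin (m + 1) → ℝ)
          (j.succAbove k)).det := by
    intro u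
    rw [SDT_det, Matrix.det_succ_row_zero]
    refine Finset.sum_congr rfl fun j _ => ?_
    congr 1
  simp only [hrow]
  simp only [Finset.mul_sum]
  rw [Finset.sum_comm]
  refine Finset.sum_congr rfl fun j _ => ?_
  have h1 : (Fin.cons (1 : ℝ) (A (∑ i ∈ s, w i • z i)) : Fin (m + 1) → ℝ) j =
      ∑ i ∈ s, w i * (Fin.cons (1 : ℝ) (A (z i)) : Fin (m + 1) → ℝ) j := by
    refine Fin.cases ?_ (fun j => ?_) j
    · simp only [Fin.cons_zero, mul_one]
      exact hw.symm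
    · simp only [Fin.cons_succ]
      rw [SDT_aff _ _ _ hw, Finset.sum_apply]
      rfl
  rw [h1, Finset.mul_sum, Finset.sum_mul]
  exact Finset.sum_congr rfl fun i _ => by ring

theorem sdet_ne_zero_iff (h : E → Fin m → ℝ) (a : Fin (m + 1) → E) :
    sdet h a ≠ 0 ↔ AffineIndependent ℝ (fun i => h (a i)) := by
  rw [affineIndependent_iff_linearIndependent_vsub ℝ _ (0 : Fin (m + 1)),
    ← linearIndependent_equiv (finSuccAboveEquiv (0 : Fin (m + 1)))]
  unfold sdet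
  rw [← isUnit_iff_ne_zero, ← Matrix.isUnit_iff_isUnit_det,
    ← Matrix.linearIndependent_rows_iff_isUnit]
  rfl

theorem sdet_insertNth (h : E → Fin m → ℝ) (j : Fin (m + 1)) (u : E) (t : Fin m → E) :
    sdet h (Fin.insertNth j u t : Fin (m + 1) → E) =
      (-1) ^ (j : ℕ) * sdet h (Fin.cons u t : Fin (m + 1) → E) := by
  have h1 : (Fin.insertNth j u t : Fin (m + 1) → E) =
      (Fin.cons u t : Fin (m + 1) → E) ∘ j.cycleRange := by
    funext i
    refine Fin.succAboveCases j ?_ (fun k => ?_) i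
    · rw [Fin.insertNth_apply_same, Function.comp_apply, Fin.cycleRange_self, Fin.cons_zero]
    · rw [Fin.insertNth_apply_succAbove, Function.comp_apply, Fin.cycleRange_succAbove,
        Fin.cons_succ]
  rw [h1, sdet_perm, Fin.sign_cycleRange]
  push_cast
  rfl

/-- The first entry may be replaced by a point of the affine span of the others: value 0. -/
theorem sdet_cons_self (h : E → Fin m → ℝ) (t : Fin m → E) (k : Fin m) :
    sdet h (Fin.cons (t k) t : Fin (m + 1) → E) = 0 := by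
  rw [SDT_det]
  refine Matrix.det_zero_of_row_eq (Fin.succ_ne_zero k).symm ?_
  funext j
  show (Fin.cons (1 : ℝ) (h ((Fin.cons (t k) t : Fin (m + 1) → E) 0)) : Fin (m + 1) → ℝ) j =
    (Fin.cons (1 : ℝ) (h ((Fin.cons (t k) t : Fin (m + 1) → E) k.succ)) : Fin (m + 1) → ℝ) j
  rw [Fin.cons_zero, Fin.cons_succ]

/-- Composition with an affine map: `sdet A a = sdet id (A ∘ a)`. -/
theorem sdet_comp (h : E → Fin m → ℝ) (a : Fin (m + 1) → E) :
    sdet h a = sdet (fun x : Fin m → ℝ => x) (fun i => h (a i)) := rfl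

/-- If `t` is affinely independent in `E` (`m+1` points) and `B, B'` are affine maps to `ℝ^m`, and `a`
consists of affine combinations of `t` with `sdet B a * sdet B' a > 0`, then
`sdet B t * sdet B' t > 0`. -/
theorem sdet_mul_pos_of_comb (B B' : E →ᵃ[ℝ] (Fin m → ℝ)) (t a : Fin (m + 1) → E)
    (ha : ∀ i, a i ∈ affineSpan ℝ (range t)) (h : 0 < sdet B a * sdet B' a) :
    0 < sdet B t * sdet B' t := by
  choose W hW1 hW2 using fun i => eq_affineCombination_of_mem_affineSpan_of_fintype (ha i)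
  have hW3 : ∀ i, a i = ∑ k, W i k • t k := fun i => by
    rw [hW2 i, Finset.affineCombination_eq_linear_combination _ _ _ (hW1 i)]
  have e1 := sdet_comb B t a (Matrix.of W) hW1 hW3
  have e2 := sdet_comb B' t a (Matrix.of W) hW1 hW3
  rw [e1, e2] at h
  have h1 : (Matrix.of W).det * sdet B t * ((Matrix.of W).det * sdet B' t) =
      (Matrix.of W).det ^ 2 * (sdet B t * sdet B' t) := by ring
  rw [h1] at h
  by_contra hc
  push Not at hc
  exact absurd h (not_lt.mpr (mul_nonpos_of_nonneg_of_nonpos (sq_nonneg _) hc))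

end Pool.H54.UB

end S_SDT

section S_GRM

/-!
# Row GRM: geometric complexes in `ℝ^m`

* `no_same_side` (any `E`): `r ⊆ a ∩ b`, `u ∈ a`, `v ∈ b`, `a = insert u r`, `b = insert v r` as sets, and
  `u = α v + ∑_{x ∈ r} β x • x` with `α > 0`, `α + ∑ β = 1`.  Let `g` be the barycentre of `r`.  For small
  `η > 0` the point `(1-η) g + η u` is a positive combination of `a = r ∪ {u}` and equals
  `η α v + ∑ ((1-η)/|r| + η β x) x`, a positive combination of `b`; so `a = b` by `K.uniq`.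
* `card_le`: affinely independent sets in `ℝ^m` have at most `m+1` points.
* `exists_top_of_interior`: the hulls of the faces with at most `m` vertices are closed with empty
  interior (contained in a proper affine subspace); if `x` were not in the (closed) union of the
  hulls of the faces with `m+1` vertices, a neighbourhood of `x` would be covered by finitely many
  closed sets with empty interior (Baire / `IsClosed.interior_union_left`...).
* `opposite`: write `z ↦ sdet id (cons z t)`, affine in `z` (`sdet_cons_comb`), zero on `range t`,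
  nonzero at `u` and `v` (affine independence of `a`, `b`).  Write `u` as an affine combination of the
  affine basis `(v, t)`: `u = α v + ∑ β_i t_i`, then `δ u = α δ v`.  If the product is positive then
  `α > 0`, contradiction with `no_same_side`.
* `two_of_interior`: let `t` enumerate `r`, `δ z = sdet id (cons z t)`.  For a vector `n` with
  `δ (x + n) > δ x = 0` the points `x ± η n` are in `L.space` for small `η`, and by
  `exists_top_of_interior` (they are interior points) in the hull of a face with `m+1` vertices; by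
  finiteness there is such a face `a` containing `x + η n` for arbitrarily small `η > 0` (a sequence
  tending to 0), so `x ∈ convexHull a` (closed), `r ⊆ a` (`carrier_sub`), and the remaining vertex `u`
  of `a` has `δ u > 0`.  Similarly `b` with `δ < 0`.  Any other face `d ⊇ r` with `m+1` vertices has its
  remaining vertex on one of the two sides (`δ ≠ 0`), so it is `a` or `b` by `opposite`.
-/

open Set Topology

namespace Pool.H54.UB

theorem GC.no_same_side {E : Type*} [NormedAddCommGroup E] [NormedSpace ℝ E] (L : GC E)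
    {a b r : Finset E} (ha : a ∈ L.faces) (hb : b ∈ L.faces) (hab : a ≠ b) (hr : r.Nonempty)
    {u v : E} (hua : (a : Set E) = insert u (r : Set E)) (hvb : (b : Set E) = insert v (r : Set E))
    (hu : u ∉ r) (hv : v ∉ r) {α : ℝ} (hα : 0 < α) {β : E → ℝ} (hsum : α + ∑ x ∈ r, β x = 1)
    (h : u = α • v + ∑ x ∈ r, β x • x) : False := by
  classical
  have ha' : a = insert u r := Finset.coe_injective (by rw [Finset.coe_insert]; exact hua)
  have hb' : b = insert v r := Finset.coe_injective (by rw [Finset.coe_insert]; exact hvb)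
  have hn : (0 : ℝ) < r.card := by exact_mod_cast hr.card_pos
  obtain ⟨n, hnn⟩ : ∃ n : ℝ, n = r.card := ⟨_, rfl⟩
  rw [← hnn] at hn
  obtain ⟨M, hM⟩ : ∃ M : ℝ, M = 1 + ∑ x ∈ r, |β x| := ⟨_, rfl⟩
  have hs0 : 0 ≤ ∑ x ∈ r, |β x| := Finset.sum_nonneg fun _ _ => abs_nonneg _
  have hMp : 0 < M := by linarith
  have hβ : ∀ x ∈ r, |β x| ≤ M := by
    intro x hx
    have := Finset.single_le_sum (f := fun x => |β x|) (fun _ _ => abs_nonneg _) hx
    linarith
  obtain ⟨η, hη⟩ : ∃ η : ℝ, η = 1 / (2 * (1 + n * M)) := ⟨_, rfl⟩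
  have hD : 0 < 1 + n * M := by positivity
  have hη0 : 0 < η := by rw [hη]; positivity
  have hη1 : η * (1 + n * M) = 1 / 2 := by
    rw [hη]
    field_simp
  have hη2 : η < 1 := by nlinarith [mul_pos hn hMp]
  have hw : ∀ x ∈ r, 0 < (1 - η) / n + η * β x := by
    intro x hx
    have h1 := hβ x hx
    have h2 := neg_abs_le (β x)
    have h3 : -(η * M) ≤ η * β x := by nlinarith
    have h4 : η * M < (1 - η) / n := by
      rw [lt_div_iff₀ hn]
      nlinarith
    linarith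
  have hru : ∀ x ∈ r, x ≠ u := fun x hx he => hu (he ▸ hx)
  have hrv : ∀ x ∈ r, x ≠ v := fun x hx he => hv (he ▸ hx)
  have hsumn : ∑ _x ∈ r, (1 - η) / n = 1 - η := by
    rw [Finset.sum_const, nsmul_eq_mul, ← hnn]
    field_simp
  have key := L.uniq a ha b hb (fun y => if y = u then η else (1 - η) / n)
    (fun y => if y = v then η * α else (1 - η) / n + η * β y) ?_ ?_ ?_ ?_ ?_
  · exact hab key.1
  · intro y hy
    rw [ha', Finset.mem_insert] at hy
    rcases hy with rfl | hy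
    · simp only [if_true]
      exact hη0
    · simp only [if_neg (hru y hy)]
      exact div_pos (by linarith) hn
  · intro y hy
    rw [hb', Finset.mem_insert] at hy
    rcases hy with rfl | hy
    · simp only [if_true]
      positivity
    · simp only [if_neg (hrv y hy)]
      exact hw y hy
  · rw [ha', Finset.sum_insert hu, Finset.sum_congr rfl fun x hx => if_neg (hru x hx), hsumn]
    simp
  · rw [hb', Finset.sum_insert hv, Finset.sum_congr rfl fun x hx => if_neg (hrv x hx),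
      Finset.sum_add_distrib, hsumn, ← Finset.mul_sum]
    simp only [if_true]
    linear_combination η * hsum
  · rw [ha', hb', Finset.sum_insert hu, Finset.sum_insert hv]
    have e1 : ∑ x ∈ r, (if x = u then η else (1 - η) / n) • x = ∑ x ∈ r, ((1 - η) / n) • x :=
      Finset.sum_congr rfl fun x hx => by rw [if_neg (hru x hx)]
    have e2 : ∑ x ∈ r, (if x = v then η * α else (1 - η) / n + η * β x) • x =
        ∑ x ∈ r, ((1 - η) / n) • x + η • ∑ x ∈ r, β x • x := by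
      rw [Finset.smul_sum, ← Finset.sum_add_distrib]
      refine Finset.sum_congr rfl fun x hx => ?_
      rw [if_neg (hrv x hx), add_smul, mul_smul]
    simp only [if_true] at e1 e2 ⊢
    rw [e1, e2]
    have e3 : η • u = (η * α) • v + η • ∑ x ∈ r, β x • x := by
      conv_lhs => rw [h]
      rw [smul_add, smul_smul]
    rw [e3]
    abel

theorem GC.card_le {m : ℕ} (L : GC (Fin m → ℝ)) {s : Finset (Fin m → ℝ)} (hs : s ∈ L.faces) :
    s.card ≤ m + 1 := by
  have h1 := (GC.affineIndependent hs).card_le_finrank_succ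
  rw [Fintype.card_coe] at h1
  have h2 := Submodule.finrank_le (vectorSpan ℝ (Set.range fun x : s => (x : Fin m → ℝ)))
  rw [Module.finrank_fin_fun] at h2
  omega

theorem GRM_thin {m : ℕ} {s : Finset (Fin m → ℝ)} (hs : s.Nonempty) (hc : s.card ≤ m) :
    MeasureTheory.volume (convexHull ℝ (s : Set (Fin m → ℝ))) = 0 := by
  classical
  have h1 : affineSpan ℝ (s : Set (Fin m → ℝ)) ≠ ⊤ := by
    intro h
    have h2 : vectorSpan ℝ (s : Set (Fin m → ℝ)) = ⊤ := by
      rw [← direction_affineSpan, h, AffineSubspace.direction_top]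
    have h3 : Module.finrank ℝ (vectorSpan ℝ (s : Set (Fin m → ℝ))) = m := by
      rw [h2, finrank_top, Module.finrank_fin_fun]
    obtain ⟨n, hn⟩ : ∃ n, s.card = n + 1 := ⟨s.card - 1, by have := hs.card_pos; omega⟩
    have h4 := finrank_vectorSpan_image_finset_le ℝ (id : (Fin m → ℝ) → (Fin m → ℝ)) s hn
    rw [Finset.image_id] at h4
    omega
  exact MeasureTheory.measure_mono_null (convexHull_subset_affineSpan _)
    (MeasureTheory.Measure.addHaar_affineSubspace _ _ h1)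

theorem GC.exists_top_of_interior {m : ℕ} (L : GC (Fin m → ℝ)) {x : Fin m → ℝ}
    (hx : x ∈ interior L.space) :
    ∃ s ∈ L.faces, s.card = m + 1 ∧ x ∈ convexHull ℝ (s : Set (Fin m → ℝ)) := by
  by_contra hcon
  push Not at hcon
  have hcl : IsClosed (⋃ t ∈ {t | t ∈ L.faces ∧ t.card = m + 1},
      convexHull ℝ (t : Set (Fin m → ℝ))) :=
    (L.fin.subset fun t ht => ht.1).isClosed_biUnion
      (fun t _ => (t.finite_toSet.isCompact_convexHull ℝ).isClosed)
  have hxn : x ∉ ⋃ t ∈ {t | t ∈ L.faces ∧ t.card = m + 1},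
      convexHull ℝ (t : Set (Fin m → ℝ)) := by
    intro h
    obtain ⟨t, ht, hxt⟩ := Set.mem_iUnion₂.1 h
    exact hcon t ht.1 ht.2 hxt
  have hop : IsOpen (interior L.space ∩ (⋃ t ∈ {t | t ∈ L.faces ∧ t.card = m + 1},
      convexHull ℝ (t : Set (Fin m → ℝ)))ᶜ) := isOpen_interior.inter hcl.isOpen_compl
  have hpos := hop.measure_pos MeasureTheory.volume ⟨x, hx, hxn⟩
  have hsub : interior L.space ∩ (⋃ t ∈ {t | t ∈ L.faces ∧ t.card = m + 1},
      convexHull ℝ (t : Set (Fin m → ℝ)))ᶜ ⊆ ⋃ t ∈ {t | t ∈ L.faces ∧ t.card ≤ m},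
      convexHull ℝ (t : Set (Fin m → ℝ)) := by
    rintro y ⟨hy, hyn⟩
    obtain ⟨t, ht, hyt⟩ := Set.mem_iUnion₂.1 (interior_subset hy)
    refine Set.mem_iUnion₂.2 ⟨t, ⟨ht, ?_⟩, hyt⟩
    have h1 := L.card_le ht
    by_contra h2
    exact hyn (Set.mem_iUnion₂.2 ⟨t, ⟨ht, by omega⟩, hyt⟩)
  have hz : MeasureTheory.volume (⋃ t ∈ {t | t ∈ L.faces ∧ t.card ≤ m},
      convexHull ℝ (t : Set (Fin m → ℝ))) = 0 := by
    rw [MeasureTheory.measure_biUnion_null_iff (L.fin.subset fun t ht => ht.1).countable]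
    intro t ht
    exact GRM_thin (L.ne t ht.1) ht.2
  exact hpos.ne' (MeasureTheory.measure_mono_null hsub hz)

theorem GRM_comb {m : ℕ} {ι : Type*} (s : Finset ι) (w : ι → ℝ) (z : ι → (Fin m → ℝ))
    (hw : ∑ i ∈ s, w i = 1) (t : Fin m → (Fin m → ℝ)) :
    sdet (fun x : Fin m → ℝ => x) (Fin.cons (∑ i ∈ s, w i • z i) t : Fin (m + 1) → (Fin m → ℝ)) =
      ∑ i ∈ s, w i * sdet (fun x : Fin m → ℝ => x)
        (Fin.cons (z i) t : Fin (m + 1) → (Fin m → ℝ)) :=
  sdet_cons_comb s w z hw (AffineMap.id ℝ (Fin m → ℝ)) t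

theorem GRM_ind {m : ℕ} {L : GC (Fin m → ℝ)} {a : Finset (Fin m → ℝ)} (ha : a ∈ L.faces)
    (t : Fin m → (Fin m → ℝ)) (ht : Function.Injective t) (hta : ∀ i, t i ∈ a)
    {u : Fin m → ℝ} (hu : u ∈ a) (hu' : u ∉ range t) :
    AffineIndependent ℝ (Fin.cons u t : Fin (m + 1) → (Fin m → ℝ)) := by
  have hinj : Function.Injective (Fin.cons u t : Fin (m + 1) → (Fin m → ℝ)) :=
    Fin.cons_injective_iff.2 ⟨hu', ht⟩
  have hmem : ∀ i, (Fin.cons u t : Fin (m + 1) → (Fin m → ℝ)) i ∈ a := by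
    intro i
    refine Fin.cases ?_ (fun j => ?_) i
    · simpa using hu
    · simpa using hta j
  let f : Fin (m + 1) ↪ a := ⟨fun i => ⟨(Fin.cons u t : Fin (m + 1) → (Fin m → ℝ)) i, hmem i⟩,
    fun i j hij => hinj (congrArg Subtype.val hij)⟩
  exact (GC.affineIndependent ha).comp_embedding f

theorem GRM_ne {m : ℕ} {L : GC (Fin m → ℝ)} {a : Finset (Fin m → ℝ)} (ha : a ∈ L.faces)
    (t : Fin m → (Fin m → ℝ)) (ht : Function.Injective t) (hta : ∀ i, t i ∈ a)
    {u : Fin m → ℝ} (hu : u ∈ a) (hu' : u ∉ range t) :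
    sdet (fun x : Fin m → ℝ => x) (Fin.cons u t : Fin (m + 1) → (Fin m → ℝ)) ≠ 0 :=
  (sdet_ne_zero_iff _ _).2 (GRM_ind ha t ht hta hu hu')

theorem GRM_set {m : ℕ} {a : Finset (Fin m → ℝ)} (hac : a.card = m + 1)
    (t : Fin m → (Fin m → ℝ)) (ht : Function.Injective t) (hta : ∀ i, t i ∈ a)
    {u : Fin m → ℝ} (hu : u ∈ a) (hu' : u ∉ range t) [DecidableEq (Fin m → ℝ)] :
    a = insert u (Finset.univ.image t) := by
  symm
  apply Finset.eq_of_subset_of_card_le
  · intro y hy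
    rw [Finset.mem_insert, Finset.mem_image] at hy
    rcases hy with rfl | ⟨i, -, rfl⟩
    · exact hu
    · exact hta i
  · rw [hac, Finset.card_insert_of_notMem, Finset.card_image_of_injective _ ht, Finset.card_univ,
      Fintype.card_fin]
    intro hy
    rw [Finset.mem_image] at hy
    obtain ⟨i, -, hi⟩ := hy
    exact hu' ⟨i, hi⟩

theorem GC.opposite {m : ℕ} (L : GC (Fin m → ℝ)) {a b : Finset (Fin m → ℝ)} (ha : a ∈ L.faces)
    (hb : b ∈ L.faces) (hac : a.card = m + 1) (hbc : b.card = m + 1) (hab : a ≠ b)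
    (t : Fin m → (Fin m → ℝ)) (ht : Function.Injective t) (hta : ∀ i, t i ∈ a)
    (htb : ∀ i, t i ∈ b) {u v : Fin m → ℝ} (hu : u ∈ a) (hu' : u ∉ range t) (hv : v ∈ b)
    (hv' : v ∉ range t) :
    sdet (fun x : Fin m → ℝ => x) (Fin.cons u t : Fin (m + 1) → (Fin m → ℝ)) *
      sdet (fun x : Fin m → ℝ => x) (Fin.cons v t : Fin (m + 1) → (Fin m → ℝ)) < 0 := by
  classical
  have hau := GRM_set hac t ht hta hu hu'
  have hbv := GRM_set hbc t ht htb hv hv'
  rcases Nat.eq_zero_or_pos m with hm | hm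
  · exfalso
    subst hm
    apply hab
    rw [hau, hbv, Subsingleton.elim u v]
  haveI : Nonempty (Fin m) := ⟨⟨0, hm⟩⟩
  have hnu := GRM_ne ha t ht hta hu hu'
  have hnv := GRM_ne hb t ht htb hv hv'
  have hind := GRM_ind hb t ht htb hv hv'
  have htop : affineSpan ℝ (Set.range (Fin.cons v t : Fin (m + 1) → (Fin m → ℝ))) = ⊤ := by
    rw [hind.affineSpan_eq_top_iff_card_eq_finrank_add_one, Fintype.card_fin,
      Module.finrank_fin_fun]
  have hmem : u ∈ affineSpan ℝ (Set.range (Fin.cons v t : Fin (m + 1) → (Fin m → ℝ))) := by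
    rw [htop]
    exact AffineSubspace.mem_top _ _ _
  obtain ⟨w, hw1, hw2⟩ := eq_affineCombination_of_mem_affineSpan_of_fintype hmem
  rw [Finset.affineCombination_eq_linear_combination _ _ _ hw1] at hw2
  have hd : sdet (fun x : Fin m → ℝ => x) (Fin.cons u t : Fin (m + 1) → (Fin m → ℝ)) =
      w 0 * sdet (fun x : Fin m → ℝ => x) (Fin.cons v t : Fin (m + 1) → (Fin m → ℝ)) := by
    have h1 := GRM_comb Finset.univ w (Fin.cons v t : Fin (m + 1) → (Fin m → ℝ)) hw1 t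
    rw [← hw2, Fin.sum_univ_succ] at h1
    rw [h1]
    have h2 : ∑ i : Fin m, w i.succ * sdet (fun x : Fin m → ℝ => x)
        (Fin.cons ((Fin.cons v t : Fin (m + 1) → (Fin m → ℝ)) i.succ) t :
          Fin (m + 1) → (Fin m → ℝ)) = 0 := by
      apply Finset.sum_eq_zero
      intro i _
      rw [Fin.cons_succ, sdet_cons_self, mul_zero]
    rw [h2, add_zero, Fin.cons_zero]
  by_contra hcon
  push Not at hcon
  have hw0 : 0 < w 0 := by
    rw [hd] at hcon hnu
    have h3 : 0 < sdet (fun x : Fin m → ℝ => x) (Fin.cons v t : Fin (m + 1) → (Fin m → ℝ)) ^ 2 :=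
      by positivity
    have h4 : w 0 ≠ 0 := fun h => hnu (by rw [h, zero_mul])
    rcases lt_or_gt_of_ne h4 with h5 | h5
    · nlinarith
    · exact h5
  have hsum := hw1
  rw [Fin.sum_univ_succ] at hsum
  rw [Fin.sum_univ_succ, Fin.cons_zero] at hw2
  have hβ : ∀ i, w (Fin.succ (Function.invFun t (t i))) = w i.succ := by
    intro i
    rw [Function.leftInverse_invFun ht i]
  refine L.no_same_side (r := Finset.univ.image t) (u := u) (v := v) (α := w 0)
    (β := fun y => w (Fin.succ (Function.invFun t y))) ha hb hab ?_ ?_ ?_ ?_ ?_ hw0 ?_ ?_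
  · exact ⟨t ⟨0, hm⟩, Finset.mem_image_of_mem _ (Finset.mem_univ _)⟩
  · conv_lhs => rw [hau]
    rw [Finset.coe_insert]
  · conv_lhs => rw [hbv]
    rw [Finset.coe_insert]
  · intro hy
    rw [Finset.mem_image] at hy
    obtain ⟨i, -, hi⟩ := hy
    exact hu' ⟨i, hi⟩
  · intro hy
    rw [Finset.mem_image] at hy
    obtain ⟨i, -, hi⟩ := hy
    exact hv' ⟨i, hi⟩
  · rw [Finset.sum_image fun i _ j _ hij => ht hij]
    simp only [hβ]
    exact hsum
  · rw [Finset.sum_image fun i _ j _ hij => ht hij]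
    simp only [hβ]
    rw [hw2]
    simp only [Fin.cons_succ]

theorem GC.two_of_interior {m : ℕ} (L : GC (Fin m → ℝ)) {r : Finset (Fin m → ℝ)}
    (hr : r ∈ L.faces) (hrc : r.card = m) {x : Fin m → ℝ} (hx : L.IsCarrier x r)
    (hxi : x ∈ interior L.space) :
    ∃ a ∈ L.faces, ∃ b ∈ L.faces, a ≠ b ∧ a.card = m + 1 ∧ b.card = m + 1 ∧ r ⊆ a ∧ r ⊆ b ∧
      ∀ d ∈ L.faces, d.card = m + 1 → r ⊆ d → d = a ∨ d = b := by
  classical
  let e := r.equivFinOfCardEq hrc
  let t : Fin m → (Fin m → ℝ) := fun i => ((e.symm i : r) : Fin m → ℝ)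
  have ht : Function.Injective t := fun i j hij => e.symm.injective (Subtype.ext hij)
  have htr : ∀ i, t i ∈ r := fun i => (e.symm i).2
  have hrt : ∀ y ∈ r, y ∈ range t := fun y hy => ⟨e ⟨y, hy⟩, by simp [t]⟩
  have hrt' : ∀ y, y ∉ r → y ∉ range t := by
    rintro y hy ⟨i, rfl⟩
    exact hy (htr i)
  obtain ⟨δ, hδ⟩ : ∃ δ : (Fin m → ℝ) → ℝ, δ = fun z => sdet (fun x : Fin m → ℝ => x)
    (Fin.cons z t : Fin (m + 1) → (Fin m → ℝ)) := ⟨_, rfl⟩
  have hδr : ∀ y ∈ r, δ y = 0 := by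
    intro y hy
    obtain ⟨i, rfl⟩ := hrt y hy
    rw [hδ]
    exact sdet_cons_self _ t i
  have hδc : ∀ {ι : Type} (s : Finset ι) (w : ι → ℝ) (z : ι → (Fin m → ℝ)), ∑ i ∈ s, w i = 1 →
      δ (∑ i ∈ s, w i • z i) = ∑ i ∈ s, w i * δ (z i) := by
    intro ι s w z hw
    rw [hδ]
    exact GRM_comb s w z hw t
  have hδx : δ x = 0 := by
    obtain ⟨_, w, hw0, hw1, hwx⟩ := hx
    rw [← hwx]
    have h1 := hδc r w (fun y => y) hw1
    rw [h1]
    exact Finset.sum_eq_zero fun y hy => by rw [hδr y hy, mul_zero]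
  obtain ⟨a, ha, hac, hxa⟩ := L.exists_top_of_interior hxi
  have hra : r ⊆ a := GC.carrier_sub ha hxa hx
  obtain ⟨u, hua, hur⟩ := Finset.exists_mem_notMem_of_card_lt_card (s := r) (t := a) (by omega)
  have hδu : δ u ≠ 0 := by
    rw [hδ]
    exact GRM_ne ha t ht (fun i => hra (htr i)) hua (hrt' u hur)
  obtain ⟨U, hU, hstar⟩ := GC.exists_nhd_star hx
  -- a point on the other side
  have hcont : Continuous fun η : ℝ => x + η • (x - u) := by fun_prop
  have hnb : U ∩ interior L.space ∈ 𝓝 x := Filter.inter_mem hU (isOpen_interior.mem_nhds hxi)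
  have hev : ∀ᶠ η in 𝓝 (0 : ℝ), x + η • (x - u) ∈ U ∩ interior L.space := by
    refine hcont.continuousAt.eventually_mem ?_
    simpa using hnb
  obtain ⟨d0, hd0, hd⟩ := Metric.eventually_nhds_iff.1 hev
  have hη0 : 0 < d0 / 2 := by linarith
  have hy := hd (y := d0 / 2) (by
    rw [dist_zero_right, Real.norm_of_nonneg hη0.le]
    linarith)
  obtain ⟨η, hη⟩ : ∃ η : ℝ, η = d0 / 2 := ⟨_, rfl⟩
  rw [← hη] at hη0 hy
  obtain ⟨y, hyd⟩ : ∃ y, y = x + η • (x - u) := ⟨_, rfl⟩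
  rw [← hyd] at hy
  have hδy : δ y = -(η * δ u) := by
    have h1 := hδc (Finset.univ : Finset (Fin 2)) ![1 + η, -η] ![x, u] (by
      rw [Fin.sum_univ_two]
      simp)
    rw [Fin.sum_univ_two, Fin.sum_univ_two] at h1
    simp only [Matrix.cons_val_zero, Matrix.cons_val_one] at h1
    have h2 : y = (1 + η) • x + (-η) • u := by
      rw [hyd, smul_sub, add_smul, one_smul, neg_smul]
      abel
    rw [h2, h1, hδx]
    ring
  obtain ⟨b, hb, hbc, hyb⟩ := L.exists_top_of_interior hy.2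
  obtain ⟨t', ht'b, ht'⟩ := GC.exists_carrier hb hyb
  have hrb : r ⊆ b := (hstar y ⟨hy.1, interior_subset hy.2⟩ t' ht').trans ht'b
  obtain ⟨v, hvb, hvr⟩ := Finset.exists_mem_notMem_of_card_lt_card (s := r) (t := b) (by omega)
  have hbi : b = insert v r := by
    symm
    apply Finset.eq_of_subset_of_card_le
    · intro z hz
      rw [Finset.mem_insert] at hz
      rcases hz with rfl | hz
      · exact hvb
      · exact hrb hz
    · rw [hbc, Finset.card_insert_of_notMem hvr, hrc]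
  have hopp : ∀ {c d : Finset (Fin m → ℝ)}, c ∈ L.faces → d ∈ L.faces → c.card = m + 1 →
      d.card = m + 1 → c ≠ d → r ⊆ c → r ⊆ d → ∀ {z z' : Fin m → ℝ}, z ∈ c → z ∉ r → z' ∈ d →
      z' ∉ r → δ z * δ z' < 0 := by
    intro c d hc hd hcc hdc hcd hrc' hrd z z' hz hzr hz' hzr'
    rw [hδ]
    exact L.opposite hc hd hcc hdc hcd t ht (fun i => hrc' (htr i)) (fun i => hrd (htr i)) hz
      (hrt' z hzr) hz' (hrt' z' hzr')
  have hδv : δ u * δ v < 0 := by
    obtain ⟨c, hc0, hc1, hcx⟩ := Finset.mem_convexHull'.1 hyb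
    have h1 := hδc b c (fun z => z) hc1
    rw [hcx, hδy, hbi, Finset.sum_insert hvr, Finset.sum_eq_zero (s := r) fun z hz => by
      rw [hδr z hz, mul_zero], add_zero] at h1
    have h2 := hc0 v hvb
    have h3 : 0 < δ u ^ 2 := by positivity
    have h4 : c v * (δ u * δ v) = -(η * δ u ^ 2) := by
      linear_combination (-δ u) * h1
    by_contra hcon
    push Not at hcon
    have h5 : 0 ≤ c v * (δ u * δ v) := mul_nonneg h2 hcon
    have h6 : 0 < η * δ u ^ 2 := mul_pos hη0 h3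
    linarith
  have hne : a ≠ b := by
    intro hab
    have h1 : v ∈ a := by rw [hab]; exact hvb
    have h2 : u = v := by
      have h3 : u ∈ insert v r := by rw [← hbi, ← hab]; exact hua
      rw [Finset.mem_insert] at h3
      exact h3.resolve_right hur
    rw [h2] at hδv
    nlinarith [mul_self_nonneg (δ v)]
  refine ⟨a, ha, b, hb, hne, hac, hbc, hra, hrb, fun d hd hdc hrd => ?_⟩
  obtain ⟨w, hwd, hwr⟩ := Finset.exists_mem_notMem_of_card_lt_card (s := r) (t := d) (by omega)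
  by_contra hcon
  push Not at hcon
  have h1 := hopp hd ha hdc hac hcon.1 hrd hra hwd hwr hua hur
  have h2 := hopp hd hb hdc hbc hcon.2 hrd hrb hwd hwr hvb hvr
  -- signs
  have h3 : 0 < (δ w * δ u) * (δ w * δ v) := mul_pos_of_neg_of_neg h1 h2
  have h4 : (δ w * δ u) * (δ w * δ v) = δ w ^ 2 * (δ u * δ v) := by ring
  rw [h4] at h3
  have h5 : δ w ^ 2 * (δ u * δ v) ≤ 0 := mul_nonpos_of_nonneg_of_nonpos (sq_nonneg _) hδv.le
  linarith

end Pool.H54.UB

end S_GRM

section S_PUR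

/-!
# Row PUR: triangulations of a closed PL manifold are pure

`local_data`: for `x ∈ M` take a chart `(U, h)` at `x` (`ChartAt`), and `chart_refine` for
`Y = ` hulls of the faces of `K` (`GC.exists_hulls`).

Claim 1 (`card_le`): every face `s` of `K` has at most `m+1` vertices.  Take `x` = barycentre of `s`
(carrier `s`), a chart at `x`, `L, L'` from `chart_refine`, an open `O ∋ x` with `O ∩ M ⊆ U`
(`U ∈ 𝓝[M] x`).  `GC.exists_face_dim` gives an `L`-face `b` with `b.card = s.card`; `h` is injective on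
it, so `h(b)` is an `L'`-face with the same number of vertices, `≤ m+1` by `GC.card_le`.

Claim 2: every face `s` is contained in a face with `m+1` vertices.  Same `x`; `h x` is an interior
point of the cube `= L'.space`; `GC.exists_top_of_interior` gives an `L'`-face `h(b)` with `m+1`
vertices, `h x ∈ convexHull (h b) = h (convexHull b)`, so `x ∈ convexHull b` (`h` injective on `U`).
Let `y` be the barycentre of `b`, `a` its `K`-carrier: `convexHull b ⊆ convexHull a`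
(`carrier_refine`), so `x ∈ convexHull a` and `s ⊆ a` (`carrier_sub`); `b` is affinely independent with
`m+1` points in the affine span of `a`, so `a.card ≥ m+1`, and `= m+1` by claim 1.
-/

open Set Topology

namespace Pool.H54.UB

variable {E : Type*} [NormedAddCommGroup E] [NormedSpace ℝ E] [FiniteDimensional ℝ E]

theorem interior_cube_mem {m : ℕ} {y : Fin m → ℝ} (h : ∀ i, -1 < y i ∧ y i < 1) :
    y ∈ interior (cube m) := by
  have h1 : IsOpen (Set.pi (univ : Set (Fin m)) (fun _ => Ioo (-1 : ℝ) 1)) :=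
    isOpen_set_pi finite_univ fun _ _ => isOpen_Ioo
  have h2 : Set.pi (univ : Set (Fin m)) (fun _ => Ioo (-1 : ℝ) 1) ⊆ cube m := by
    intro z hz i
    have := hz i (mem_univ i)
    exact ⟨this.1.le, this.2.le⟩
  exact interior_maximal h2 h1 (fun i _ => h i)

/-- A set of affinely independent points in the hull of `a` has at most `a.card` points. -/
theorem card_le_of_hull_subset {a b : Finset E}
    (hb : AffineIndependent ℝ (fun x : b => (x : E)))
    (h : convexHull ℝ (b : Set E) ⊆ convexHull ℝ (a : Set E)) : b.card ≤ a.card :=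
  AffineIndependent.card_le_card_of_subset_affineSpan hb
    ((subset_convexHull ℝ _).trans (h.trans (convexHull_subset_affineSpan _)))

theorem PUR_bary (s : Finset E) (hne : s.Nonempty) :
    ∃ w : E → ℝ, (∀ x ∈ s, 0 < w x) ∧ ∑ x ∈ s, w x = 1 := by
  have hc : (0 : ℝ) < s.card := by exact_mod_cast hne.card_pos
  refine ⟨fun _ => 1 / (s.card : ℝ), fun x _ => by positivity, ?_⟩
  rw [Finset.sum_const, nsmul_eq_mul]
  field_simp

theorem PUR_data {m : ℕ} {M : Set E} (hM : IsClosedPLManifold m M) (K : GC E)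
    (hK : K.space = M) {s : Finset E} (hs : s ∈ K.faces) :
    ∃ (x : E) (U O : Set E) (h : E → Fin m → ℝ) (L : GC E) (L' : GC (Fin m → ℝ)),
      K.IsCarrier x s ∧ U ⊆ M ∧ x ∈ U ∧ InjOn h U ∧ IsOpen O ∧ x ∈ O ∧ O ∩ M ⊆ U ∧
      (∀ t ∈ K.faces, L.Adapted (convexHull ℝ (t : Set E))) ∧ L.space = U ∧
      h x ∈ interior L'.space ∧ (∀ s' : Finset (Fin m → ℝ), s' ∈ L'.faces ↔
        ∃ s ∈ L.faces, (s' : Set (Fin m → ℝ)) = h '' (s : Set E)) ∧
      (∀ s ∈ L.faces, h '' convexHull ℝ (s : Set E) = convexHull ℝ (h '' (s : Set E))) := by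
  obtain ⟨w, hw0, hw1⟩ := PUR_bary s (K.ne s hs)
  have hx : K.IsCarrier (∑ y ∈ s, w y • y) s := ⟨hs, w, hw0, hw1, rfl⟩
  obtain ⟨x, hxe⟩ : ∃ x, x = ∑ y ∈ s, w y • y := ⟨_, rfl⟩
  rw [← hxe] at hx
  have hxK : x ∈ K.space := mem_biUnion hs hx.mem_hull
  obtain ⟨U, h, hc, hxU, hnU, hint⟩ := hM.2 x (hK ▸ hxK)
  obtain ⟨Y, hY1, hY2⟩ := GC.exists_hulls K
  obtain ⟨L, L', hL1, hL2, -, hL4, hL5, -, hL7⟩ := chart_refine hc Y hY2
  obtain ⟨O, hO, hxO, hOU⟩ := mem_nhdsWithin.1 hnU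
  exact ⟨x, U, O, h, L, L', hx, hc.1, hxU, hc.2.2.1, hO, hxO, hOU,
    fun t ht => hL2 _ ((hY1 _).2 ⟨t, ht, rfl⟩), hL1, by rw [hL4]; exact interior_cube_mem hint,
    hL5, hL7⟩

theorem PUR_card {m : ℕ} {L : GC E} {h : E → Fin m → ℝ}
    (hi : InjOn h L.space) {b : Finset E} (hb : b ∈ L.faces) {b' : Finset (Fin m → ℝ)}
    (he : (b' : Set (Fin m → ℝ)) = h '' (b : Set E)) : b'.card = b.card := by
  classical
  have h1 : b' = b.image h := by
    apply Finset.coe_injective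
    rw [he, Finset.coe_image]
  rw [h1, Finset.card_image_of_injOn]
  refine hi.mono fun x hx => ?_
  exact mem_biUnion hb (subset_convexHull ℝ _ hx)

theorem PUR_le {m : ℕ} {M : Set E} (hM : IsClosedPLManifold m M) (K : GC E)
    (hK : K.space = M) {s : Finset E} (hs : s ∈ K.faces) : s.card ≤ m + 1 := by
  classical
  obtain ⟨x, U, O, h, L, L', hx, hUM, hxU, hi, hO, hxO, hOU, had, hLs, -, hf, -⟩ :=
    PUR_data hM K hK hs
  obtain ⟨b, hb, hbc, -, -⟩ := GC.exists_face_dim hs (had s hs) hO hxO hx.mem_hull (by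
    rintro z ⟨hz1, hz2⟩
    rw [hLs]
    refine hOU ⟨hz2, ?_⟩
    rw [← hK]
    exact mem_biUnion hs hz1)
  have h1 : (b.image h) ∈ L'.faces := (hf _).2 ⟨b, hb, Finset.coe_image⟩
  have h2 : (b.image h).card = b.card := PUR_card (hLs ▸ hi) hb (Finset.coe_image)
  have h3 := L'.card_le h1
  omega

theorem GC.pure {m : ℕ} {M : Set E} (hM : IsClosedPLManifold m M) (K : GC E)
    (hK : K.space = M) :
    (∀ s ∈ K.faces, ∃ s' ∈ K.faces, s ⊆ s' ∧ s'.card = m + 1) ∧
      ∀ s ∈ K.faces, s.card ≤ m + 1 := by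
  refine ⟨fun s hs => ?_, fun s hs => PUR_le hM K hK hs⟩
  obtain ⟨x, U, O, h, L, L', hx, hUM, hxU, hi, hO, hxO, hOU, had, hLs, hint, hf, hhull⟩ :=
    PUR_data hM K hK hs
  obtain ⟨s', hs', hs'c, hxs'⟩ := L'.exists_top_of_interior hint
  obtain ⟨b, hb, hbe⟩ := (hf s').1 hs'
  have hbc : b.card = m + 1 := by
    rw [← PUR_card (hLs ▸ hi) hb hbe, hs'c]
  rw [hbe, ← hhull b hb] at hxs'
  obtain ⟨z, hz, hzx⟩ := hxs'
  have hzU : z ∈ U := by
    rw [← hLs]
    exact mem_biUnion hb hz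
  have hzx' : z = x := hi hzU hxU hzx
  rw [hzx'] at hz
  obtain ⟨w, hw0, hw1⟩ := PUR_bary b (L.ne b hb)
  have hy : L.IsCarrier (∑ y ∈ b, w y • y) b := ⟨hb, w, hw0, hw1, rfl⟩
  have hyK : (∑ y ∈ b, w y • y) ∈ K.space := by
    rw [hK]
    apply hUM
    rw [← hLs]
    exact mem_biUnion hb hy.mem_hull
  obtain ⟨a, ha⟩ := GC.exists_carrier' hyK
  have h1 := (GC.carrier_refine had hy hy ha).2
  refine ⟨a, ha.1, GC.carrier_sub ha.1 (h1 hz) hx, ?_⟩
  have h2 := card_le_of_hull_subset (GC.affineIndependent hb) h1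
  have h3 := PUR_le hM K hK ha.1
  omega

end Pool.H54.UB

end S_PUR

section S_LFB

/-!
# Row LFB: number of lifts, injectivity on facets

Setting: `f : N → M` is a `k`-sheeted covering outside `B`, `K` triangulates `M` and is adapted to `f` and
to `B`.
* `card_eq`: for a `K`-tuple `t` with positive weights, `σ ↦ ∑ w a • σ a` is a bijection from the
  lifts of `t` onto `N ∩ f⁻¹ {∑ w a • t a}` (`lift_unique`, `exists_lift`, `lift_maps`).
* `not_mem_codim`: if `a` is a face with at least `m` vertices then no point with carrier `a` is in `B`: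
  otherwise `convexHull a ⊆ B` (adapted), a finite union of hulls of at most `m-1` points, impossible by
  dimension (finitely many closed sets, each contained in an affine subspace of smaller dimension,
  cannot cover `convexHull a`; Baire or measure inside the affine span of `a`).
* So for a tuple `t` whose range is a face with `m` or `m+1` vertices there are exactly `k` lifts.
* `facet_inj`: let `σ, σ'` be lifts of `t ∈ K.tops m`, equal off the index `j`; `m ≥ 1`.  Let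
  `y = (1/m) ∑_{i} σ (δ_j i)` (same for `σ'`), `x = f y`; `x ∉ B`.  `f : N \ f⁻¹ B → M \ B` is a covering,
  hence locally injective at `y`.  For `0 < η < 1`: `y_η = (1-η) y + η σ j`, `y'_η = (1-η) y + η σ' j` are
  in `N`, tend to `y`, `f y_η = (1-η) x + η t j = f y'_η` has carrier `range t`, so it is not in `B`.  For
  small `η`, `y_η = y'_η`, so `σ j = σ' j`.
-/

open Set Topology

namespace Pool.H54.UB

variable {E F : Type*} [NormedAddCommGroup E] [NormedSpace ℝ E] [FiniteDimensional ℝ E]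
  [NormedAddCommGroup F] [NormedSpace ℝ F] [FiniteDimensional ℝ F]
  {K : GC F} {S : Finset (Finset E)} {f : E → F} {N : Set E}

theorem Adm.card_eq (h : Adm K S f N) {n : ℕ} {t : Fin n → F} (ht : K.Tup t) {w : Fin n → ℝ}
    (hw : ∀ a, 0 < w a) (hw1 : ∑ a, w a = 1) :
    (lifts S f t).card = (N ∩ f ⁻¹' {∑ a, w a • t a}).ncard := by
  have himg : (fun σ : Fin n → E => ∑ a, w a • σ a) '' (lifts S f t : Set (Fin n → E)) =
      N ∩ f ⁻¹' {∑ a, w a • t a} := by
    ext y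
    constructor
    · rintro ⟨σ, hσ, rfl⟩
      have h1 := (h.mem_lifts t σ).1 (by exact_mod_cast hσ)
      have h2 := h.lift_maps h1 (fun a => (hw a).le) hw1
      exact ⟨h2.1, h2.2⟩
    · rintro ⟨hy, hfy⟩
      obtain ⟨σ, h1, h2⟩ := h.exists_lift ht hw hw1 hy hfy
      exact ⟨σ, by exact_mod_cast (h.mem_lifts t σ).2 h1, h2⟩
  have hinj : InjOn (fun σ : Fin n → E => ∑ a, w a • σ a) (lifts S f t : Set (Fin n → E)) := by
    intro σ hσ σ' hσ' heq
    exact h.lift_unique ht ((h.mem_lifts t σ).1 (by exact_mod_cast hσ))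
      ((h.mem_lifts t σ').1 (by exact_mod_cast hσ')) hw hw1 heq
  rw [← himg, hinj.ncard_image, Set.ncard_coe_finset]

theorem not_mem_codim {m : ℕ} {B : Set F} (hB2 : IsCodimTwo m B) (hBad : K.Adapted B)
    {x : F} {a : Finset F} (hx : K.IsCarrier x a) (ha : m ≤ a.card) : x ∉ B := by
  classical
  intro hxB
  obtain ⟨⟨T, hT, hTB⟩, -⟩ := hB2
  have h1 : convexHull ℝ (a : Set F) ⊆ B := GC.adapted_iff.1 hBad x a hx hxB
  have hpoly : ∀ s : Finset F, IsPoly (convexHull ℝ (s : Set F)) := fun s =>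
    ⟨{s}, by simp⟩
  obtain ⟨K', h2, -, h3⟩ := triang_over K (insert (convexHull ℝ (a : Set F))
    (T.image fun s : Finset F => convexHull ℝ (s : Set F))) (by
      intro A hA
      rcases Finset.mem_insert.1 hA with rfl | hA
      · exact hpoly a
      · obtain ⟨s, -, rfl⟩ := Finset.mem_image.1 hA
        exact hpoly s)
  obtain ⟨b, hb, hbc, hba, y, -, hyb, -⟩ := GC.exists_face_dim (L := K') hx.1
    (h3 _ (Finset.mem_insert_self _ _)) isOpen_univ (mem_univ x) hx.mem_hull (by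
      rw [h2]
      exact inter_subset_left.trans (Set.subset_biUnion_of_mem (u := fun t : Finset F =>
        convexHull ℝ (t : Set F)) hx.1))
  have hyB : y ∈ B := h1 (hba hyb.mem_hull)
  rw [hTB] at hyB
  obtain ⟨s, hs, hys⟩ := Set.mem_iUnion₂.1 hyB
  have h4 := GC.adapted_iff.1 (h3 _ (Finset.mem_insert_of_mem (Finset.mem_image_of_mem (fun s : Finset F => convexHull ℝ (s : Set F)) hs))) y b
    hyb hys
  have h5 := card_le_of_hull_subset (GC.affineIndependent hb) h4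
  have h6 := hT s hs
  omega

omit [FiniteDimensional ℝ F] in
private theorem LFB_carrier {n : ℕ} (hn : 0 < n) {t : Fin n → F} (ht : K.Tup t)
    (hinj : Function.Injective t) {w : Fin n → ℝ} (hw : ∀ a, 0 < w a) (hw1 : ∑ a, w a = 1) :
    ∃ s : Finset F, s.card = n ∧ K.IsCarrier (∑ a, w a • t a) s := by
  classical
  obtain ⟨s, hs, hts⟩ := ht
  refine ⟨Finset.univ.image t, ?_, K.down s hs _ ?_ ?_, Function.extend t w 0, ?_, ?_, ?_⟩
  · rw [Finset.card_image_of_injective _ hinj, Finset.card_univ, Fintype.card_fin]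
  · intro y hy
    obtain ⟨a, -, rfl⟩ := Finset.mem_image.1 hy
    exact hts a
  · exact ⟨t ⟨0, hn⟩, Finset.mem_image_of_mem _ (Finset.mem_univ _)⟩
  · intro y hy
    obtain ⟨a, -, rfl⟩ := Finset.mem_image.1 hy
    rw [hinj.extend_apply]
    exact hw a
  · rw [Finset.sum_image (fun a _ b _ hab => hinj hab)]
    simp only [hinj.extend_apply]
    exact hw1
  · rw [Finset.sum_image (fun a _ b _ hab => hinj hab)]
    simp only [hinj.extend_apply]

omit [FiniteDimensional ℝ F] in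
private theorem LFB_space {x : F} {s : Finset F} (hx : K.IsCarrier x s) : x ∈ K.space :=
  Set.mem_iUnion₂.2 ⟨s, hx.1, hx.mem_hull⟩

/-- `k` lifts of ordered facets and top simplices (`t` injective with `m` or `m+1` entries). -/
theorem Adm.card_lifts (h : Adm K S f N) {m k : ℕ} {M : Set F} (hK : K.space = M) {B : Set F}
    (hB2 : IsCodimTwo m B) (hBad : K.Adapted B)
    (hcard : ∀ x ∈ M \ B, (N ∩ f ⁻¹' {x}).ncard = k) {n : ℕ} (hn : m ≤ n) (hn0 : 0 < n)
    {t : Fin n → F} (ht : K.Tup t) (hinj : Function.Injective t) :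
    (lifts S f t).card = k := by
  have hn' : (0 : ℝ) < n := by exact_mod_cast hn0
  have hw : ∀ a : Fin n, (0 : ℝ) < (fun _ => 1 / (n : ℝ)) a := fun a => by positivity
  have hw1 : ∑ a : Fin n, (fun _ => 1 / (n : ℝ)) a = 1 := by
    simp only [Finset.sum_const, Finset.card_univ, Fintype.card_fin, nsmul_eq_mul]
    field_simp
  rw [h.card_eq ht hw hw1]
  obtain ⟨s, hsc, hs⟩ := LFB_carrier hn0 ht hinj hw hw1
  apply hcard
  refine ⟨?_, not_mem_codim hB2 hBad hs (by omega)⟩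
  rw [← hK]
  exact LFB_space hs

theorem Adm.facet_inj (h : Adm K S f N) {m : ℕ} (hm : 1 ≤ m) {M : Set F} (hK : K.space = M)
    (hf : MapsTo f N M) {B : Set F} (hB2 : IsCodimTwo m B) (hBad : K.Adapted B)
    (hcov : IsCoveringMap (fun y : ↥(N \ f ⁻¹' B) => (⟨f y, hf y.2.1, y.2.2⟩ : ↥(M \ B))))
    {t : Fin (m + 1) → F} (ht : t ∈ K.tops m) (j : Fin (m + 1)) :
    InjOn (fun σ : Fin (m + 1) → E => σ ∘ j.succAbove) (lifts S f t) := by
  intro σ hσ σ' hσ' heq
  have hσ1 := (h.mem_lifts t σ).1 (by exact_mod_cast hσ)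
  have hσ1' := (h.mem_lifts t σ').1 (by exact_mod_cast hσ')
  obtain ⟨hinj, htup⟩ := GC.mem_tops.1 ht
  have hm' : (0 : ℝ) < m := by exact_mod_cast hm
  have hoff : ∀ i, σ (j.succAbove i) = σ' (j.succAbove i) := fun i => congrFun heq i
  -- weights
  let w : ℝ → Fin (m + 1) → ℝ := fun η a => if a = j then η else (1 - η) / m
  have hwj : ∀ η, w η j = η := fun η => if_pos rfl
  have hwo : ∀ η i, w η (j.succAbove i) = (1 - η) / m := fun η i =>
    if_neg (Fin.succAbove_ne j i)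
  have hsum : ∀ η, ∑ a, w η a = 1 := by
    intro η
    rw [Fin.sum_univ_succAbove _ j, hwj]
    simp only [hwo, Finset.sum_const, Finset.card_univ, Fintype.card_fin, nsmul_eq_mul]
    field_simp
    ring
  have hw0 : ∀ η, 0 ≤ η → η ≤ 1 → ∀ a, 0 ≤ w η a := by
    intro η h0 h1 a
    simp only [w]
    split_ifs
    · exact h0
    · exact div_nonneg (by linarith) hm'.le
  have hwp : ∀ η, 0 < η → η < 1 → ∀ a, 0 < w η a := by
    intro η h0 h1 a
    simp only [w]
    split_ifs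
    · exact h0
    · exact div_pos (by linarith) hm'
  have hexp : ∀ η (τ : Fin (m + 1) → E), ∑ a, w η a • τ a =
      η • τ j + ∑ i, ((1 - η) / m) • τ (j.succAbove i) := by
    intro η τ
    rw [Fin.sum_univ_succAbove _ j, hwj]
    simp only [hwo]
  have hexpF : ∀ η (τ : Fin (m + 1) → F), ∑ a, w η a • τ a =
      η • τ j + ∑ i, ((1 - η) / m) • τ (j.succAbove i) := by
    intro η τ
    rw [Fin.sum_univ_succAbove _ j, hwj]
    simp only [hwo]
  -- the centre
  have hy := h.lift_maps hσ1 (hw0 0 le_rfl zero_le_one) (hsum 0)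
  have hxB : (∑ a, w 0 a • t a) ∉ B := by
    have h1 : K.Tup (fun i => t (j.succAbove i)) := by
      obtain ⟨s, hs, hts⟩ := htup
      exact ⟨s, hs, fun i => hts _⟩
    obtain ⟨s, hsc, hs⟩ := LFB_carrier (w := fun _ : Fin m => 1 / (m : ℝ)) (by omega) h1
      (hinj.comp Fin.succAbove_right_injective) (fun _ => by positivity) (by
        simp only [Finset.sum_const, Finset.card_univ, Fintype.card_fin, nsmul_eq_mul]
        field_simp)
    rw [hexpF, zero_smul, zero_add, sub_zero]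
    exact not_mem_codim hB2 hBad hs (by omega)
  have hyN : ∑ a, w 0 a • σ a ∈ N \ f ⁻¹' B := by
    refine ⟨hy.1, ?_⟩
    rw [mem_preimage, hy.2]
    exact hxB
  -- points near the centre
  have hpt : ∀ η, 0 < η → η < 1 → ∀ τ : Fin (m + 1) → E, IsLift S f t τ →
      ∑ a, w η a • τ a ∈ N \ f ⁻¹' B ∧ f (∑ a, w η a • τ a) = ∑ a, w η a • t a := by
    intro η h0 h1 τ hτ
    have h2 := h.lift_maps hτ (hw0 η h0.le h1.le) (hsum η)
    refine ⟨⟨h2.1, ?_⟩, h2.2⟩
    rw [mem_preimage, h2.2]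
    obtain ⟨s, hsc, hs⟩ := LFB_carrier (by omega) htup hinj (hwp η h0 h1) (hsum η)
    exact not_mem_codim hB2 hBad hs (by omega)
  obtain ⟨e, he1, he2⟩ := hcov.isLocalHomeomorph ⟨_, hyN⟩
  have hopen := e.open_source
  obtain ⟨U, hU, hUe⟩ := isOpen_induced_iff.1 hopen
  have hyU : ∑ a, w 0 a • σ a ∈ U := by
    have : (⟨_, hyN⟩ : ↥(N \ f ⁻¹' B)) ∈ Subtype.val ⁻¹' U := by rw [hUe]; exact he1
    exact this
  have hsame : ∑ a, w 0 a • σ' a = ∑ a, w 0 a • σ a := by
    rw [hexp, hexp, zero_smul, zero_smul]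
    simp only [hoff]
  have hcont : ∀ τ : Fin (m + 1) → E, Continuous fun η : ℝ => ∑ a, w η a • τ a := by
    intro τ
    have : (fun η : ℝ => ∑ a, w η a • τ a) = fun η : ℝ =>
      η • τ j + ∑ i, ((1 - η) / m) • τ (j.succAbove i) := by
      funext η; exact hexp η τ
    rw [this]
    fun_prop
  have ev1 : ∀ᶠ η in 𝓝 (0 : ℝ), ∑ a, w η a • σ a ∈ U :=
    (hcont σ).continuousAt (hU.mem_nhds hyU)
  have ev2 : ∀ᶠ η in 𝓝 (0 : ℝ), ∑ a, w η a • σ' a ∈ U :=
    (hcont σ').continuousAt (hU.mem_nhds (by rw [hsame]; exact hyU))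
  have ev3 : ∀ᶠ η in 𝓝[>] (0 : ℝ), η < 1 := by
    filter_upwards [mem_nhdsWithin_of_mem_nhds (Iio_mem_nhds (zero_lt_one (α := ℝ)))] with η hη
    exact hη
  obtain ⟨η, ⟨⟨⟨h1, h2⟩, h3⟩, h4⟩⟩ := (((ev1.and ev2).filter_mono nhdsWithin_le_nhds).and ev3 |>.and
    self_mem_nhdsWithin).exists
  have h4' : 0 < η := h4
  obtain ⟨p1, p2⟩ := hpt η h4' h3 σ hσ1
  obtain ⟨p1', p2'⟩ := hpt η h4' h3 σ' hσ1'
  have m1 : (⟨_, p1⟩ : ↥(N \ f ⁻¹' B)) ∈ e.source := by rw [← hUe]; exact h1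
  have m2 : (⟨_, p1'⟩ : ↥(N \ f ⁻¹' B)) ∈ e.source := by rw [← hUe]; exact h2
  have key := e.injOn m1 m2 (by
    rw [← he2]
    apply Subtype.ext
    change f _ = f _
    rw [p2, p2'])
  have key2 : ∑ a, w η a • σ a = ∑ a, w η a • σ' a := congrArg Subtype.val key
  rw [hexp, hexp] at key2
  simp only [hoff] at key2
  have key3 : η • σ j = η • σ' j := add_right_cancel key2
  have key4 : σ j = σ' j := smul_right_injective E h4'.ne' key3
  funext a
  rcases Fin.eq_self_or_eq_succAbove j a with rfl | ⟨i, rfl⟩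
  · exact key4
  · exact hoff i

end Pool.H54.UB

end S_LFB

section S_GRC

/-!
# Row GRC: connectivity through facets in `ℝ^m`

Proof.  `D` is open, `convexHull a` has nonempty interior and is the closure of its interior, so
there is `x ∈ interior (convexHull a) ∩ D`; similarly the set `interior (convexHull b) ∩ D` is open and
nonempty; choose in it a point `y` outside all the affine subspaces `affineSpan (insert x r)`, `r` a
face with at most `m-1` vertices (`dim ≤ m-1`, proper subspaces; finitely many have empty interior).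
Then no point of the segment `[x, y]` lies in `convexHull r` for such an `r` (except if `x` itself were
in `affineSpan r`: choose also `x` outside the finitely many `affineSpan r`): if
`z ∈ [x,y] ∩ affineSpan r`, `z ≠ x`, then `y` is in `affineSpan (insert x r)`.
So all points `z` of `[x,y] ⊆ D ⊆ L.space` have a carrier with `m` or `m+1` vertices.  Each `z ∈ D`
lies in the hull of a face with `m+1` vertices (`exists_top_of_interior`).  The sets
`F = {τ ∈ [0,1] | z_τ in the hull of a face a' with m+1 vertices and P a'}`,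
`G = {.. and ¬ P a'}` are closed, cover `[0,1]`; `0 ∈ F` (the only face with `m+1` vertices that
contains `x` is `a`: its carrier is `a`).  If `¬ P b` then `1 ∈ G`, so by connectedness of `[0,1]`
there is `τ ∈ F ∩ G`: `z_τ ∈ conv a' ∩ conv a''`, `P a'`, `¬ P a''`; the carrier `r` of `z_τ` is contained
in both; if it has `m+1` vertices then `a' = r = a''`, contradiction; if it has `m` vertices then `hP`
gives `P a''`, contradiction.
-/

open Set Topology

namespace Pool.H54.UB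

theorem GRC_thin {m : ℕ} {s : Finset (Fin m → ℝ)} (hs : s.Nonempty) (hc : s.card ≤ m) :
    MeasureTheory.volume (affineSpan ℝ (s : Set (Fin m → ℝ)) : Set (Fin m → ℝ)) = 0 := by
  classical
  have h1 : affineSpan ℝ (s : Set (Fin m → ℝ)) ≠ ⊤ := by
    intro h
    have h2 : vectorSpan ℝ (s : Set (Fin m → ℝ)) = ⊤ := by
      rw [← direction_affineSpan, h, AffineSubspace.direction_top]
    have h3 : Module.finrank ℝ (vectorSpan ℝ (s : Set (Fin m → ℝ))) = m := by
      rw [h2, finrank_top, Module.finrank_fin_fun]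
    obtain ⟨n, hn⟩ : ∃ n, s.card = n + 1 := ⟨s.card - 1, by have := hs.card_pos; omega⟩
    have h4 := finrank_vectorSpan_image_finset_le ℝ (id : (Fin m → ℝ) → (Fin m → ℝ)) s hn
    rw [Finset.image_id] at h4
    omega
  exact MeasureTheory.Measure.addHaar_affineSubspace _ _ h1

theorem GRC_avoid {m : ℕ} {U : Set (Fin m → ℝ)} (hU : IsOpen U) (hne : U.Nonempty)
    {A : Set (Finset (Fin m → ℝ))} (hA : A.Finite)
    (h : ∀ s ∈ A, s.Nonempty ∧ s.card ≤ m) :
    ∃ x ∈ U, ∀ s ∈ A, x ∉ affineSpan ℝ (s : Set (Fin m → ℝ)) := by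
  by_contra hc
  push Not at hc
  have hpos := hU.measure_pos MeasureTheory.volume hne
  have hsub : U ⊆ ⋃ s ∈ A, (affineSpan ℝ (s : Set (Fin m → ℝ)) : Set (Fin m → ℝ)) := by
    intro x hx
    obtain ⟨s, hs, h1⟩ := hc x hx
    exact Set.mem_iUnion₂.2 ⟨s, hs, h1⟩
  have hz : MeasureTheory.volume
      (⋃ s ∈ A, (affineSpan ℝ (s : Set (Fin m → ℝ)) : Set (Fin m → ℝ))) = 0 := by
    rw [MeasureTheory.measure_biUnion_null_iff hA.countable]
    intro s hs
    exact GRC_thin (h s hs).1 (h s hs).2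
  exact hpos.ne' (MeasureTheory.measure_mono_null hsub hz)

theorem GRC_int {m : ℕ} (L : GC (Fin m → ℝ)) {D : Set (Fin m → ℝ)} (hD : IsOpen D)
    {a : Finset (Fin m → ℝ)} (ha : a ∈ L.faces) (hac : a.card = m + 1)
    (hDa : (convexHull ℝ (a : Set (Fin m → ℝ)) ∩ D).Nonempty) :
    (interior (convexHull ℝ (a : Set (Fin m → ℝ))) ∩ D).Nonempty := by
  have hind := GC.affineIndependent ha
  have htop : affineSpan ℝ (a : Set (Fin m → ℝ)) = ⊤ := by
    have h1 : affineSpan ℝ (Set.range fun x : a => (x : Fin m → ℝ)) = ⊤ := by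
      rw [hind.affineSpan_eq_top_iff_card_eq_finrank_add_one, Fintype.card_coe, hac,
        Module.finrank_fin_fun]
    have h2 : (Set.range fun x : a => (x : Fin m → ℝ)) = (a : Set (Fin m → ℝ)) := by
      ext x
      simp
    rwa [h2] at h1
  have hne : (interior (convexHull ℝ (a : Set (Fin m → ℝ)))).Nonempty :=
    interior_convexHull_nonempty_iff_affineSpan_eq_top.2 htop
  obtain ⟨x, hx, hxD⟩ := hDa
  have h1 : x ∈ closure (interior (convexHull ℝ (a : Set (Fin m → ℝ)))) := by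
    rw [(convex_convexHull ℝ _).closure_interior_eq_closure_of_nonempty_interior hne]
    exact subset_closure hx
  obtain ⟨y, hy1, hy2⟩ := mem_closure_iff.1 h1 D hD hxD
  exact ⟨y, hy2, hy1⟩

theorem GC.conn_convex {m : ℕ} (L : GC (Fin m → ℝ)) (D : Set (Fin m → ℝ)) (hD : IsOpen D)
    (hDc : Convex ℝ D) (hDs : D ⊆ L.space) (P : Finset (Fin m → ℝ) → Prop)
    (hP : ∀ a ∈ L.faces, ∀ b ∈ L.faces, a.card = m + 1 → b.card = m + 1 → P a →
      (∃ (r : Finset (Fin m → ℝ)) (x : Fin m → ℝ),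
        x ∈ D ∧ L.IsCarrier x r ∧ r ⊆ a ∧ r ⊆ b ∧ r.card = m) → P b)
    {a b : Finset (Fin m → ℝ)} (ha : a ∈ L.faces) (hb : b ∈ L.faces) (hac : a.card = m + 1)
    (hbc : b.card = m + 1) (hDa : (convexHull ℝ (a : Set (Fin m → ℝ)) ∩ D).Nonempty)
    (hDb : (convexHull ℝ (b : Set (Fin m → ℝ)) ∩ D).Nonempty) (hPa : P a) : P b := by
  classical
  by_contra hPb
  obtain ⟨x, ⟨hx1, hx2⟩, hx3⟩ := GRC_avoid (A := {r | r ∈ L.faces ∧ r.card < m})
    (isOpen_interior.inter hD) (GRC_int L hD ha hac hDa) (L.fin.subset fun r hr => hr.1)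
    (fun r hr => ⟨L.ne r hr.1, hr.2.le⟩)
  obtain ⟨y, ⟨hy1, hy2⟩, hy3⟩ := GRC_avoid
    (A := (fun r : Finset (Fin m → ℝ) => insert x r) '' {r | r ∈ L.faces ∧ r.card < m})
    (isOpen_interior.inter hD) (GRC_int L hD hb hbc hDb)
    ((L.fin.subset fun r hr => hr.1).image _)
    (by
      rintro _ ⟨r, hr, rfl⟩
      refine ⟨Finset.insert_nonempty _ _, ?_⟩
      have h1 := Finset.card_insert_le x r
      have h2 := hr.2
      show (insert x r : Finset (Fin m → ℝ)).card ≤ m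
      omega)
  have hcl : ∀ Q : Finset (Fin m → ℝ) → Prop, IsClosed (⋃ t ∈ {t | t ∈ L.faces ∧ Q t},
      convexHull ℝ (t : Set (Fin m → ℝ))) := fun Q =>
    (L.fin.subset fun t ht => ht.1).isClosed_biUnion
      (fun t _ => (t.finite_toSet.isCompact_convexHull ℝ).isClosed)
  have hpre := (convex_segment (𝕜 := ℝ) x y).isPreconnected
  obtain ⟨z, hz, hz1, hz2⟩ := isPreconnected_closed_iff.1 hpre _ _
    (hcl fun t => t.card = m + 1 ∧ P t) (hcl fun t => t.card = m + 1 ∧ ¬ P t)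
    (by
      intro z hz
      have hzD : z ∈ D := hDc.segment_subset hx2 hy2 hz
      obtain ⟨t, ht, htc, hzt⟩ := L.exists_top_of_interior (interior_maximal hDs hD hzD)
      by_cases h : P t
      · exact Or.inl (Set.mem_iUnion₂.2 ⟨t, ⟨ht, htc, h⟩, hzt⟩)
      · exact Or.inr (Set.mem_iUnion₂.2 ⟨t, ⟨ht, htc, h⟩, hzt⟩))
    ⟨x, left_mem_segment ℝ x y, Set.mem_iUnion₂.2 ⟨a, ⟨ha, hac, hPa⟩, interior_subset hx1⟩⟩
    ⟨y, right_mem_segment ℝ x y, Set.mem_iUnion₂.2 ⟨b, ⟨hb, hbc, hPb⟩, interior_subset hy1⟩⟩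
  obtain ⟨a', ⟨ha', hac', hPa'⟩, hza'⟩ := Set.mem_iUnion₂.1 hz1
  obtain ⟨b', ⟨hb', hbc', hPb'⟩, hzb'⟩ := Set.mem_iUnion₂.1 hz2
  obtain ⟨r, hra, hr⟩ := GC.exists_carrier ha' hza'
  have hrb := GC.carrier_sub hb' hzb' hr
  have hzD : z ∈ D := hDc.segment_subset hx2 hy2 hz
  rcases lt_trichotomy r.card m with h | h | h
  · have hzr : z ∈ affineSpan ℝ (r : Set (Fin m → ℝ)) :=
      convexHull_subset_affineSpan _ hr.mem_hull
    rw [segment_eq_image_lineMap] at hz
    obtain ⟨τ, hτ, rfl⟩ := hz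
    rcases eq_or_ne τ 0 with h0 | h0
    · rw [h0, AffineMap.lineMap_apply_zero] at hzr
      exact hx3 r ⟨hr.1, h⟩ hzr
    · have h1 : y = AffineMap.lineMap x (AffineMap.lineMap x y τ) τ⁻¹ := by
        simp only [AffineMap.lineMap_apply_module']
        rw [add_sub_cancel_right, smul_smul, inv_mul_cancel₀ h0, one_smul, sub_add_cancel]
      apply hy3 (insert x r) ⟨r, ⟨hr.1, h⟩, rfl⟩
      rw [h1]
      apply AffineMap.lineMap_mem
      · exact subset_affineSpan ℝ _ (by simp)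
      · exact affineSpan_mono ℝ (by simp) hzr
  · exact hPb' (hP a' ha' b' hb' hac' hbc' hPa' ⟨r, z, hzD, hr, hra, hrb, h⟩)
  · have h1 : r = a' := Finset.eq_of_subset_of_card_le hra (by omega)
    have h2 : r = b' := Finset.eq_of_subset_of_card_le hrb (by omega)
    exact hPb' (h2 ▸ h1 ▸ hPa')

end Pool.H54.UB

end S_GRC

section S_LCN

/-!
# Row LCN: local connectivity through facets

Proof.  Let `x` be the barycentre of `s`; chart `(U, h)` at `x`; `L, L'` from `chart_refine` with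
`Y` = hulls of the faces of `K`.  Let `V ∋ x` be open with: `V ∩ M ⊆ U`, and all points of `V ∩ M` have a
`K`-carrier containing `s` (`GC.exists_nhd_star`).  Choose an open ball (convex) `D` around `h x`,
`D ⊆ cube m`, with `h⁻¹(D) ∩ U ⊆ V` (the inverse of `h : U → cube` is continuous: `U` compact).

For an `L'`-face `a' = h(a₁)` with `m+1` vertices let `τ(a') =` the `K`-carrier of the barycentre of
`a₁`: a face of `K` with `convexHull a₁ ⊆ convexHull τ(a')`, so it has `m+1` vertices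
(`card_le_of_hull_subset`, `GC.pure`).  Put `P' a' :⟺ P (τ a')`.

Hypothesis of `GC.conn_convex` for `P'`: `a' = h(a₁)`, `b' = h(b₁)` share `r' = h(r₁)` with `m` vertices,
and some `z ∈ D` has carrier `r'`; `z = h y`, `y ∈ V` with `L`-carrier `r₁` (carriers correspond).  If
`τ a' = τ b'` nothing to do.  Otherwise let `r` be the `K`-carrier of `y`: `s ⊆ r` (as `y ∈ V`), `r ⊆ τ a'`,
`r ⊆ τ b'` (`carrier_sub`, as `y ∈ convexHull a₁ ⊆ convexHull (τ a')`), and `r.card ≥ m` since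
`convexHull r₁ ⊆ convexHull r` (`carrier_refine`); `r.card = m`, otherwise `r = τ a' = τ b'`.  So `hP`
applies.

The given faces `a, b ⊇ s`: `x ∈ convexHull a`; `GC.exists_face_dim` for `a` and the open set
`V' = V ∩ h⁻¹(D)`-like neighbourhood of `x` gives an `L`-face `a₁` with `m+1` vertices,
`convexHull a₁ ⊆ convexHull a`, and a point `y` of it with `h y ∈ D`, `K`-carrier of `y` equal to `a`, so
`τ (h a₁) = a`.  Similarly `b`.  Conclude with `GC.conn_convex`.
-/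

open Set Topology

namespace Pool.H54.UB

variable {E : Type*} [NormedAddCommGroup E] [NormedSpace ℝ E] [FiniteDimensional ℝ E]

omit [FiniteDimensional ℝ E] in
private theorem LCN_bary (K : GC E) {s : Finset E} (hs : s ∈ K.faces) : ∃ x, K.IsCarrier x s := by
  have hn : (0 : ℝ) < s.card := by exact_mod_cast (K.ne s hs).card_pos
  refine ⟨_, hs, fun _ => 1 / (s.card : ℝ), fun _ _ => by positivity, ?_, rfl⟩
  rw [Finset.sum_const, nsmul_eq_mul]
  field_simp

omit [FiniteDimensional ℝ E] in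
private theorem LCN_vert {L : GC E} {s : Finset E} (hs : s ∈ L.faces) {v : E} (hv : v ∈ s) :
    v ∈ L.space :=
  Set.mem_iUnion₂.2 ⟨s, hs, subset_convexHull ℝ _ hv⟩

omit [FiniteDimensional ℝ E] in
private theorem LCN_sub {F : Type*} {L : GC E} {h : E → F} (hi : InjOn h L.space)
    {r a : Finset E} {r' a' : Finset F} (hr : r ∈ L.faces) (ha : a ∈ L.faces)
    (er : (r' : Set F) = h '' (r : Set E)) (ea : (a' : Set F) = h '' (a : Set E))
    (hra : r' ⊆ a') : r ⊆ a := by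
  intro v hv
  have h1 : h v ∈ (a' : Set F) := hra (by
    rw [← Finset.mem_coe, er]
    exact mem_image_of_mem h hv)
  rw [ea] at h1
  obtain ⟨w, hw, hwv⟩ := h1
  rw [← hi (LCN_vert ha hw) (LCN_vert hr hv) hwv]
  exact hw

omit [FiniteDimensional ℝ E] in
private theorem LCN_card {F : Type*} {L : GC E} {h : E → F} (hi : InjOn h L.space)
    {r : Finset E} {r' : Finset F} (hr : r ∈ L.faces)
    (er : (r' : Set F) = h '' (r : Set E)) : r'.card = r.card := by
  classical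
  have h1 : r' = r.image h := by
    apply Finset.coe_injective
    rw [er, Finset.coe_image]
  rw [h1]
  exact Finset.card_image_of_injOn (hi.mono fun v hv => LCN_vert hr hv)

theorem GC.localConn {m : ℕ} {M : Set E} (hM : IsClosedPLManifold m M) (K : GC E)
    (hK : K.space = M) (s : Finset E) (hs : s ∈ K.faces) (P : Finset E → Prop)
    (hP : ∀ a ∈ K.faces, ∀ b ∈ K.faces, a.card = m + 1 → b.card = m + 1 →
      (∃ r : Finset E, s ⊆ r ∧ r ⊆ a ∧ r ⊆ b ∧ r.card = m) → P a → P b)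
    (a b : Finset E) (ha : a ∈ K.faces) (hb : b ∈ K.faces) (hac : a.card = m + 1)
    (hbc : b.card = m + 1) (hsa : s ⊆ a) (hsb : s ⊆ b) : P a → P b := by
  classical
  intro hPa
  obtain ⟨x, hx⟩ := LCN_bary K hs
  have hxs := hx.mem_hull
  have hxM : x ∈ M := by
    rw [← hK]
    exact Set.mem_iUnion₂.2 ⟨s, hs, hxs⟩
  obtain ⟨U, h, hc, hxU, hUn, hint⟩ := hM.2 x hxM
  obtain ⟨hUM, hPL, hinj, himg⟩ := hc
  obtain ⟨Y, hY1, hY2⟩ := K.exists_hulls
  obtain ⟨L, L', hL, had, -, hL', hfac, hcar, -⟩ := chart_refine ⟨hUM, hPL, hinj, himg⟩ Y hY2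
  have had' : ∀ t ∈ K.faces, L.Adapted (convexHull ℝ (t : Set E)) := fun t ht =>
    had _ ((hY1 _).2 ⟨t, ht, rfl⟩)
  have hinjL : InjOn h L.space := by rw [hL]; exact hinj
  have hpure := GC.pure hM K hK
  -- the neighbourhoods
  obtain ⟨O1, hO1, hxO1, hO1U⟩ := mem_nhdsWithin.1 hUn
  obtain ⟨O2', hO2', hstar'⟩ := GC.exists_nhd_star hx
  obtain ⟨O2, hO2s, hO2, hxO2⟩ := mem_nhds_iff.1 hO2'
  obtain ⟨V, hV⟩ : ∃ V : Set E, V = O1 ∩ O2 := ⟨_, rfl⟩
  have hVo : IsOpen V := by rw [hV]; exact hO1.inter hO2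
  have hxV : x ∈ V := by rw [hV]; exact ⟨hxO1, hxO2⟩
  have hstar : ∀ y ∈ V ∩ M, ∀ t, K.IsCarrier y t → s ⊆ t := by
    rintro y ⟨hy, hyM⟩ t ht
    rw [hV] at hy
    exact hstar' y ⟨hO2s hy.2, hK ▸ hyM⟩ t ht
  have hUc : IsCompact U := hPL.domain.isCompact
  have hhc : ContinuousOn h U := hPL.continuousOn
  have hCc : IsClosed (h '' (U \ V)) :=
    ((hUc.diff hVo).image_of_continuousOn (hhc.mono sdiff_subset)).isClosed
  have hxC : h x ∉ h '' (U \ V) := by
    rintro ⟨y, hy, hyx⟩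
    rw [hinj hy.1 hxU hyx] at hy
    exact hy.2 hxV
  obtain ⟨ε, hε, hball⟩ := Metric.isOpen_iff.1 (hCc.isOpen_compl.inter isOpen_interior) (h x)
    ⟨hxC, interior_cube_mem hint⟩
  obtain ⟨D, hD⟩ : ∃ D : Set (Fin m → ℝ), D = Metric.ball (h x) ε := ⟨_, rfl⟩
  rw [← hD] at hball
  have hDV : ∀ y ∈ U, h y ∈ D → y ∈ V := by
    intro y hy hyD
    by_contra hyV
    exact (hball hyD).1 ⟨y, ⟨hy, hyV⟩, rfl⟩
  have hDo : IsOpen D := by rw [hD]; exact Metric.isOpen_ball
  have hDL : D ⊆ L'.space := by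
    rw [hL']
    exact fun z hz => interior_subset (hball hz).2
  -- the transported property
  obtain ⟨P', hP'⟩ : ∃ P' : Finset (Fin m → ℝ) → Prop, ∀ a', P' a' ↔
      ∀ (a₁ : Finset E) (y : E) (c : Finset E), a₁ ∈ L.faces →
        (a' : Set (Fin m → ℝ)) = h '' (a₁ : Set E) → L.IsCarrier y a₁ → K.IsCarrier y c → P c :=
    ⟨_, fun _ => Iff.rfl⟩
  -- the K-carrier of a point with a top dimensional L-carrier
  have htop : ∀ (a₁ c : Finset E) (y : E), L.IsCarrier y a₁ → K.IsCarrier y c →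
      a₁.card = m + 1 → c ∈ K.faces ∧ c.card = m + 1 ∧
        convexHull ℝ (a₁ : Set E) ⊆ convexHull ℝ (c : Set E) := by
    intro a₁ c y h1 h2 h3
    have h4 := (GC.carrier_refine had' h1 h1 h2).2
    have h5 := card_le_of_hull_subset (GC.affineIndependent h1.1) h4
    have h6 := hpure.2 c h2.1
    exact ⟨h2.1, by omega, h4⟩
  have hP'' : ∀ a' ∈ L'.faces, ∀ b' ∈ L'.faces, a'.card = m + 1 → b'.card = m + 1 → P' a' →
      (∃ (r : Finset (Fin m → ℝ)) (x : Fin m → ℝ),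
        x ∈ D ∧ L'.IsCarrier x r ∧ r ⊆ a' ∧ r ⊆ b' ∧ r.card = m) → P' b' := by
    rintro a' ha' b' hb' hac' hbc' hPa' ⟨r', z, hzD, hzr', hra', hrb', hrc'⟩
    rw [hP'] at hPa' ⊢
    intro b₁ yb β hb₁ eb hyb hβ
    obtain ⟨a₁, ha₁, ea⟩ := (hfac a').1 ha'
    obtain ⟨ya, hya⟩ := LCN_bary L ha₁
    have hyaM : ya ∈ K.space := by
      rw [hK]
      apply hUM
      rw [← hL]
      exact Set.mem_iUnion₂.2 ⟨a₁, ha₁, hya.mem_hull⟩
    obtain ⟨α, hα⟩ := GC.exists_carrier' hyaM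
    have hPα : P α := hPa' a₁ ya α ha₁ ea hya hα
    have ca₁ : a₁.card = m + 1 := by rw [← LCN_card hinjL ha₁ ea, hac']
    have cb₁ : b₁.card = m + 1 := by rw [← LCN_card hinjL hb₁ eb, hbc']
    obtain ⟨hαK, cα, sα⟩ := htop a₁ α ya hya hα ca₁
    obtain ⟨hβK, cβ, sβ⟩ := htop b₁ β yb hyb hβ cb₁
    -- the point `y` above `z`
    have hz : z ∈ h '' U := by
      rw [himg, ← hL']
      exact hDL hzD
    obtain ⟨y, hyU, rfl⟩ := hz
    have hyV := hDV y hyU hzD
    obtain ⟨r₁, hr₁⟩ := GC.exists_carrier' (K := L) (x := y) (by rw [hL]; exact hyU)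
    have er : (r' : Set (Fin m → ℝ)) = h '' (r₁ : Set E) := by
      have h1 := hcar y r₁ hr₁ (r₁.image h) (by rw [Finset.coe_image])
      rw [GC.carrier_unique hzr' h1, Finset.coe_image]
    have hr₁a : r₁ ⊆ a₁ := LCN_sub hinjL hr₁.1 ha₁ er ea hra'
    have hr₁b : r₁ ⊆ b₁ := LCN_sub hinjL hr₁.1 hb₁ er eb hrb'
    have cr₁ : r₁.card = m := by rw [← LCN_card hinjL hr₁.1 er, hrc']
    have hyM : y ∈ M := hUM hyU
    obtain ⟨r, hr⟩ := GC.exists_carrier' (K := K) (x := y) (by rw [hK]; exact hyM)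
    have hsr : s ⊆ r := hstar y ⟨hyV, hyM⟩ r hr
    have hyr₁ := hr₁.mem_hull
    have hrα : r ⊆ α := GC.carrier_sub hαK
      (sα (convexHull_mono (by exact_mod_cast hr₁a) hyr₁)) hr
    have hrβ : r ⊆ β := GC.carrier_sub hβK
      (sβ (convexHull_mono (by exact_mod_cast hr₁b) hyr₁)) hr
    have hcr : m ≤ r.card := by
      have h4 := (GC.carrier_refine had' hr₁ hr₁ hr).2
      have h5 := card_le_of_hull_subset (GC.affineIndependent hr₁.1) h4
      omega
    by_cases hrm : r.card = m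
    · exact hP α hαK β hβK cα cβ ⟨r, hsr, hrα, hrβ, hrm⟩ hPα
    · have e1 : r = α := Finset.eq_of_subset_of_card_le hrα (by omega)
      have e2 : r = β := Finset.eq_of_subset_of_card_le hrβ (by omega)
      rw [← e2, e1]
      exact hPα
  -- the faces over `a` and `b`
  have hcont : h ⁻¹' D ∈ 𝓝[U] x := hhc x hxU (hDo.mem_nhds (by
    rw [hD]
    exact Metric.mem_ball_self hε))
  obtain ⟨O3, hO3, hxO3, hO3D⟩ := mem_nhdsWithin.1 hcont
  have hface : ∀ c : Finset E, c ∈ K.faces → c.card = m + 1 → s ⊆ c →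
      ∃ c₁ ∈ L.faces, c₁.card = m + 1 ∧ ∃ y, h y ∈ D ∧ L.IsCarrier y c₁ ∧ K.IsCarrier y c := by
    intro c hcK hcc hsc
    have hxc : x ∈ convexHull ℝ (c : Set E) := convexHull_mono (by exact_mod_cast hsc) hxs
    obtain ⟨c₁, hc₁, cc₁, -, y, hyO, hyc₁, hyc⟩ := GC.exists_face_dim hcK (had' c hcK)
      (hVo.inter hO3) (x := x) ⟨hxV, hxO3⟩ hxc (by
        rintro y ⟨hyc, hyV, -⟩
        rw [hL]
        rw [hV] at hyV
        refine hO1U ⟨hyV.1, ?_⟩
        rw [← hK]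
        exact Set.mem_iUnion₂.2 ⟨c, hcK, hyc⟩)
    refine ⟨c₁, hc₁, cc₁.trans hcc, y, ?_, hyc₁, hyc⟩
    have hyU : y ∈ U := by
      rw [← hL]
      exact Set.mem_iUnion₂.2 ⟨c₁, hc₁, hyc₁.mem_hull⟩
    exact hO3D ⟨hyO.2, hyU⟩
  obtain ⟨a₁, ha₁, ca₁, ya, hyaD, hya, hyaK⟩ := hface a ha hac hsa
  obtain ⟨b₁, hb₁, cb₁, yb, hybD, hyb, hybK⟩ := hface b hb hbc hsb
  have ea : ((a₁.image h : Finset (Fin m → ℝ)) : Set (Fin m → ℝ)) = h '' (a₁ : Set E) :=
    Finset.coe_image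
  have eb : ((b₁.image h : Finset (Fin m → ℝ)) : Set (Fin m → ℝ)) = h '' (b₁ : Set E) :=
    Finset.coe_image
  have hPa' : P' (a₁.image h) := by
    rw [hP']
    intro a₂ y₂ c ha₂ e₂ hy₂ hc₂
    have e3 : a₂ = a₁ := Finset.Subset.antisymm
      (LCN_sub hinjL ha₂ ha₁ e₂ ea (Finset.Subset.refl _))
      (LCN_sub hinjL ha₁ ha₂ ea e₂ (Finset.Subset.refl _))
    rw [e3] at hy₂
    have h5 := (GC.carrier_refine had' hya hy₂ hyaK).1
    rw [GC.carrier_unique hc₂ h5]
    exact hPa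
  have hPb' := GC.conn_convex L' D hDo (by rw [hD]; exact convex_ball _ _) hDL P' hP''
    ((hfac _).2 ⟨a₁, ha₁, ea⟩) ((hfac _).2 ⟨b₁, hb₁, eb⟩)
    ((LCN_card hinjL ha₁ ea).trans ca₁) ((LCN_card hinjL hb₁ eb).trans cb₁)
    ⟨h ya, (hcar ya a₁ hya _ ea).mem_hull, hyaD⟩ ⟨h yb, (hcar yb b₁ hyb _ eb).mem_hull, hybD⟩
    hPa'
  rw [hP'] at hPb'
  exact hPb' b₁ yb b hb₁ eb hyb hybK

end Pool.H54.UB

end S_LCN

section S_LFC

/-!
# Row LFC: consistency of the lifts over common faces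

Claim: for ordered top simplices `t, t'` and index maps with `t ∘ α = t' ∘ α' =: v` the multisets of the
restricted lifts agree.

`b = 0`: both multisets are `k` copies of the unique function.
`b ≥ 1`: `s = ` finset of the entries of `v`, a face.  For a top face `a ⊇ s` let `P a` be: for all
`t'' ∈ K.tops m` with range `a` and all `α''` with `t'' ∘ α'' = v`,
`(lifts t'').map (· ∘ α'') = (lifts t).map (· ∘ α)`.
* Reordering: if `t'' = t₀ ∘ π` then `lifts t'' = (lifts t₀).map (· ∘ π)`, and `α'' = π⁻¹ ∘ α₀` (since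
  `t₀` is injective), so it is enough to check one ordering; in particular `P (range t)`.
* `GC.localConn`: let `a, b` be top faces with a common facet `r ⊇ s`.  Order `r` as `ρ : Fin m → F`
  (injective), `t_a = cons u ρ`, `t_b = cons w ρ`, and write `v = ρ ∘ γ`.  Restriction
  `σ ↦ σ ∘ Fin.succ` maps `lifts t_a` injectively (`Adm.facet_inj` with `j = 0`) into `lifts ρ`; both
  have `k` elements (`Adm.card_lifts`), so `(lifts t_a).map (· ∘ succ) = lifts ρ` as multisets, and the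
  restriction to `v` is `(lifts ρ).map (· ∘ γ)`.  Same for `t_b`.
So `P (range t)` implies `P (range t')`.
-/

open Set Topology

namespace Pool.H54.UB

variable {E F : Type*} [NormedAddCommGroup E] [NormedSpace ℝ E] [FiniteDimensional ℝ E]
  [NormedAddCommGroup F] [NormedSpace ℝ F] [FiniteDimensional ℝ F]
  {K : GC F} {S : Finset (Finset E)} {f : E → F} {N : Set E}

theorem LFC_perm (h : Adm K S f N) {n : ℕ} (t : Fin n → F) (π : Equiv.Perm (Fin n)) :
    (lifts S f (t ∘ π)).val = (lifts S f t).val.map (fun σ => σ ∘ π) := by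
  classical
  have hinj : Function.Injective (fun σ : Fin n → E => σ ∘ π) := by
    intro σ σ' e
    funext i
    have := congrFun e (π.symm i)
    simpa using this
  have h1 : lifts S f (t ∘ π) = (lifts S f t).image (fun σ => σ ∘ π) := by
    ext σ
    rw [h.mem_lifts, Finset.mem_image]
    constructor
    · rintro ⟨⟨s, hs, h1⟩, h2⟩
      refine ⟨σ ∘ π.symm, (h.mem_lifts _ _).2 ⟨⟨s, hs, fun a => h1 _⟩, fun a => ?_⟩, ?_⟩
      · show f (σ (π.symm a)) = t a
        rw [h2 (π.symm a)]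
        show t (π (π.symm a)) = t a
        rw [Equiv.apply_symm_apply]
      · funext a
        show σ (π.symm (π a)) = σ a
        rw [Equiv.symm_apply_apply]
    · rintro ⟨τ, hτ, rfl⟩
      obtain ⟨⟨s, hs, h1⟩, h2⟩ := (h.mem_lifts _ _).1 hτ
      exact ⟨⟨s, hs, fun a => h1 _⟩, fun a => h2 _⟩
  rw [h1, Finset.image_val_of_injOn (fun x _ y _ e => hinj e)]

theorem LFC_reord (h : Adm K S f N) {n b : ℕ} {t t' : Fin n → F} (ht : Function.Injective t)
    (ht' : Function.Injective t') {r : Finset F} (hr : r.card = n) (h1 : ∀ i, t i ∈ r)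
    (h2 : ∀ i, t' i ∈ r) {α α' : Fin b → Fin n} (e : t ∘ α = t' ∘ α') :
    (lifts S f t).val.map (fun σ => σ ∘ α) = (lifts S f t').val.map (fun σ => σ ∘ α') := by
  classical
  have h3 : Finset.univ.image t' = r := by
    apply Finset.eq_of_subset_of_card_le
    · intro x hx
      obtain ⟨i, -, rfl⟩ := Finset.mem_image.1 hx
      exact h2 i
    · rw [Finset.card_image_of_injective _ ht', Finset.card_univ, Fintype.card_fin, hr]
  have h4 : ∀ i, ∃ k, t' k = t i := by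
    intro i
    have : t i ∈ Finset.univ.image t' := by rw [h3]; exact h1 i
    obtain ⟨k, -, hk⟩ := Finset.mem_image.1 this
    exact ⟨k, hk⟩
  choose g hg using h4
  have hginj : Function.Injective g := by
    intro i j e
    apply ht
    rw [← hg i, ← hg j, e]
  obtain ⟨π, hπ⟩ : ∃ π : Equiv.Perm (Fin n), ∀ i, π i = g i :=
    ⟨Equiv.ofBijective g (Finite.injective_iff_bijective.1 hginj), fun i => rfl⟩
  have h5 : t = t' ∘ π := by
    funext i
    show t i = t' (π i)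
    rw [hπ, hg]
  have h6 : π ∘ α = α' := by
    funext i
    apply ht'
    have := congrFun e i
    rw [h5] at this
    exact this
  rw [h5, LFC_perm h, Multiset.map_map, ← h6]
  rfl

theorem LFC_fac (h : Adm K S f N) {m k : ℕ} (hm : 1 ≤ m) {M : Set F} (hK : K.space = M)
    (hf : MapsTo f N M) {B : Set F} (hB2 : IsCodimTwo m B) (hBad : K.Adapted B)
    (hcov : IsCoveringMap (fun y : ↥(N \ f ⁻¹' B) => (⟨f y, hf y.2.1, y.2.2⟩ : ↥(M \ B))))
    (hcard : ∀ x ∈ M \ B, (N ∩ f ⁻¹' {x}).ncard = k) {t : Fin (m + 1) → F} (ht : t ∈ K.tops m)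
    {r : Finset F} (hr : r.card = m) (hrt : ∀ x ∈ r, ∃ i, t i = x) {b : ℕ}
    {α : Fin b → Fin (m + 1)} (hα : ∀ i, t (α i) ∈ r) :
    ∃ (ρ : Fin m → F) (γ : Fin b → Fin m), Function.Injective ρ ∧ (∀ i, ρ i ∈ r) ∧
      ρ ∘ γ = t ∘ α ∧
      (lifts S f t).val.map (fun σ => σ ∘ α) = (lifts S f ρ).val.map (fun σ => σ ∘ γ) := by
  classical
  have ht' := GC.mem_tops.1 ht
  have hinj := ht'.1
  have himc : (Finset.univ.image t).card = m + 1 := by
    rw [Finset.card_image_of_injective _ hinj, Finset.card_univ, Fintype.card_fin]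
  obtain ⟨j, hj⟩ : ∃ j, t j ∉ r := by
    by_contra hc
    push Not at hc
    have : (Finset.univ.image t) ⊆ r := by
      intro x hx
      obtain ⟨i, -, rfl⟩ := Finset.mem_image.1 hx
      exact hc i
    have := Finset.card_le_card this
    omega
  have hre : r = (Finset.univ.image t).erase (t j) := by
    apply Finset.eq_of_subset_of_card_le
    · intro x hx
      obtain ⟨i, rfl⟩ := hrt x hx
      refine Finset.mem_erase.2 ⟨fun e => hj (e ▸ hx), Finset.mem_image_of_mem _ (Finset.mem_univ _)⟩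
    · rw [Finset.card_erase_of_mem (Finset.mem_image_of_mem _ (Finset.mem_univ _)), himc, hr]
      exact le_rfl
  have hmem : ∀ i : Fin m, t (j.succAbove i) ∈ r := by
    intro i
    rw [hre]
    refine Finset.mem_erase.2 ⟨fun e => ?_, Finset.mem_image_of_mem _ (Finset.mem_univ _)⟩
    exact Fin.succAbove_ne j i (hinj e)
  have hγ : ∀ i, ∃ c, j.succAbove c = α i := by
    intro i
    apply Fin.exists_succAbove_eq
    intro e
    apply hj
    rw [← e]
    exact hα i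
  choose γ hγ using hγ
  have hρinj : Function.Injective (t ∘ j.succAbove) := hinj.comp (Fin.succAbove_right_injective)
  have hρtup : K.Tup (t ∘ j.succAbove) := by
    obtain ⟨s, hs, h1⟩ := ht'.2
    exact ⟨s, hs, fun a => h1 _⟩
  refine ⟨t ∘ j.succAbove, γ, hρinj, hmem, ?_, ?_⟩
  · funext i
    show t (j.succAbove (γ i)) = t (α i)
    rw [hγ]
  · have hI := h.facet_inj hm hK hf hB2 hBad hcov ht j
    have e1 : (lifts S f t).image (fun σ : Fin (m + 1) → E => σ ∘ j.succAbove) =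
        lifts S f (t ∘ j.succAbove) := by
      apply Finset.eq_of_subset_of_card_le
      · intro σ hσ
        obtain ⟨τ, hτ, rfl⟩ := Finset.mem_image.1 hσ
        obtain ⟨⟨s, hs, h1⟩, h2⟩ := (h.mem_lifts _ _).1 hτ
        exact (h.mem_lifts _ _).2 ⟨⟨s, hs, fun a => h1 _⟩, fun a => h2 _⟩
      · rw [Finset.card_image_of_injOn hI,
          h.card_lifts hK hB2 hBad hcard (Nat.le_succ m) (Nat.succ_pos m) ht'.2 hinj,
          h.card_lifts hK hB2 hBad hcard le_rfl hm hρtup hρinj]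
    have e2 : (lifts S f (t ∘ j.succAbove)).val =
        (lifts S f t).val.map (fun σ : Fin (m + 1) → E => σ ∘ j.succAbove) := by
      rw [← e1, Finset.image_val_of_injOn hI]
    rw [e2, Multiset.map_map]
    congr 1
    funext σ
    funext i
    show σ (α i) = σ (j.succAbove (γ i))
    rw [hγ]

theorem Adm.lifts_cons (h : Adm K S f N) {m k : ℕ} (hm : 1 ≤ m) {M : Set F}
    (hM : IsClosedPLManifold m M) (hK : K.space = M)
    (hf : MapsTo f N M) {B : Set F} (hB2 : IsCodimTwo m B) (hBad : K.Adapted B)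
    (hcov : IsCoveringMap (fun y : ↥(N \ f ⁻¹' B) => (⟨f y, hf y.2.1, y.2.2⟩ : ↥(M \ B))))
    (hcard : ∀ x ∈ M \ B, (N ∩ f ⁻¹' {x}).ncard = k) :
    ∀ t ∈ K.tops m, ∀ t' ∈ K.tops m, ∀ (b : ℕ) (α α' : Fin b → Fin (m + 1)), t ∘ α = t' ∘ α' →
      (lifts S f t).val.map (fun σ => σ ∘ α) = (lifts S f t').val.map (fun σ => σ ∘ α') := by
  classical
  intro t ht t' ht' b α α' e
  have htt := GC.mem_tops.1 ht
  have htt' := GC.mem_tops.1 ht'
  rcases Nat.eq_zero_or_pos b with hb | hb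
  · subst hb
    have h1 : (lifts S f t).card = k :=
      h.card_lifts hK hB2 hBad hcard (Nat.le_succ m) (Nat.succ_pos m) htt.2 htt.1
    have h2 : (lifts S f t').card = k :=
      h.card_lifts hK hB2 hBad hcard (Nat.le_succ m) (Nat.succ_pos m) htt'.2 htt'.1
    have e1 : (fun σ : Fin (m + 1) → E => σ ∘ α) = fun _ => Fin.elim0 := by
      funext σ i
      exact Fin.elim0 i
    have e2 : (fun σ : Fin (m + 1) → E => σ ∘ α') = fun _ => Fin.elim0 := by
      funext σ i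
      exact Fin.elim0 i
    rw [e1, e2, Multiset.map_const', Multiset.map_const']
    congr 1
    exact h1.trans h2.symm
  · have face : ∀ u : Fin (m + 1) → F, u ∈ K.tops m → (Finset.univ.image u) ∈ K.faces ∧
        (Finset.univ.image u).card = m + 1 := by
      intro u hu
      have hu' := GC.mem_tops.1 hu
      constructor
      · obtain ⟨s, hs, h1⟩ := hu'.2
        refine K.down s hs _ (fun x hx => ?_) ⟨u 0, Finset.mem_image_of_mem _ (Finset.mem_univ _)⟩
        obtain ⟨i, -, rfl⟩ := Finset.mem_image.1 hx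
        exact h1 i
      · rw [Finset.card_image_of_injective _ hu'.1, Finset.card_univ, Fintype.card_fin]
    have hsface : Finset.univ.image (t ∘ α) ∈ K.faces := by
      refine K.down _ (face t ht).1 _ (fun x hx => ?_)
        ⟨(t ∘ α) ⟨0, hb⟩, Finset.mem_image_of_mem _ (Finset.mem_univ _)⟩
      obtain ⟨i, -, rfl⟩ := Finset.mem_image.1 hx
      exact Finset.mem_image_of_mem _ (Finset.mem_univ _)
    have key := GC.localConn hM K hK (Finset.univ.image (t ∘ α)) hsface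
      (fun a => ∀ u ∈ K.tops m, (∀ i, u i ∈ a) → ∀ β : Fin b → Fin (m + 1), u ∘ β = t ∘ α →
        (lifts S f u).val.map (fun σ => σ ∘ β) = (lifts S f t).val.map (fun σ => σ ∘ α))
      (by
        rintro a ha c hc hac hcc ⟨r, hsr, hra, hrc, hrm⟩ hPa u hu huc β hβ
        obtain ⟨ta, hta1, hta2⟩ : ∃ ta : Fin (m + 1) → F, Function.Injective ta ∧ ∀ i, ta i ∈ a :=
          ⟨fun i => ((Finset.equivFinOfCardEq hac).symm i : F), fun i j hij =>
            (Finset.equivFinOfCardEq hac).symm.injective (Subtype.ext hij), fun i =>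
              ((Finset.equivFinOfCardEq hac).symm i).2⟩
        have htatop : ta ∈ K.tops m := GC.mem_tops.2 ⟨hta1, a, ha, hta2⟩
        have hima : Finset.univ.image ta = a := by
          apply Finset.eq_of_subset_of_card_le
          · intro x hx
            obtain ⟨i, -, rfl⟩ := Finset.mem_image.1 hx
            exact hta2 i
          · rw [(face ta htatop).2, hac]
        have himc : Finset.univ.image u = c := by
          apply Finset.eq_of_subset_of_card_le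
          · intro x hx
            obtain ⟨i, -, rfl⟩ := Finset.mem_image.1 hx
            exact huc i
          · rw [(face u hu).2, hcc]
        have hsura : ∀ x ∈ a, ∃ i, ta i = x := by
          intro x hx
          rw [← hima] at hx
          obtain ⟨i, -, hi⟩ := Finset.mem_image.1 hx
          exact ⟨i, hi⟩
        have hsurc : ∀ x ∈ c, ∃ i, u i = x := by
          intro x hx
          rw [← himc] at hx
          obtain ⟨i, -, hi⟩ := Finset.mem_image.1 hx
          exact ⟨i, hi⟩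
        have hv : ∀ i, t (α i) ∈ r := fun i =>
          hsr (Finset.mem_image_of_mem (t ∘ α) (Finset.mem_univ i))
        choose δ hδ using fun i => hsura (t (α i)) (hra (hv i))
        have hδ' : ta ∘ δ = t ∘ α := funext hδ
        have e1 := hPa ta htatop hta2 δ hδ'
        obtain ⟨ρ, γ, a1, a2, a3, a4⟩ := LFC_fac h hm hK hf hB2 hBad hcov hcard htatop hrm
          (fun x hx => hsura x (hra hx)) (α := δ) (fun i => by rw [hδ i]; exact hv i)
        obtain ⟨ρ', γ', b1, b2, b3, b4⟩ := LFC_fac h hm hK hf hB2 hBad hcov hcard hu hrm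
          (fun x hx => hsurc x (hrc hx)) (α := β)
          (fun i => by
            have := congrFun hβ i
            show (u ∘ β) i ∈ r
            rw [this]
            exact hv i)
        rw [b4, ← e1, a4]
        exact LFC_reord h b1 a1 hrm b2 a2 (by rw [b3, a3, hβ, hδ']))
      (Finset.univ.image t) (Finset.univ.image t') (face t ht).1 (face t' ht').1 (face t ht).2
      (face t' ht').2
      (by
        intro x hx
        obtain ⟨i, -, rfl⟩ := Finset.mem_image.1 hx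
        exact Finset.mem_image_of_mem _ (Finset.mem_univ _))
      (by
        intro x hx
        obtain ⟨i, -, rfl⟩ := Finset.mem_image.1 hx
        rw [e]
        exact Finset.mem_image_of_mem _ (Finset.mem_univ _))
      (by
        intro u hu hua β hβ
        exact LFC_reord h (GC.mem_tops.1 hu).1 htt.1 (face t ht).2 hua
          (fun i => Finset.mem_image_of_mem _ (Finset.mem_univ _)) hβ)
    exact (key t' ht' (fun i => Finset.mem_image_of_mem _ (Finset.mem_univ _)) α' e.symm).symm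

end Pool.H54.UB

end S_LFC

section S_ASA

/-!
# Row ASA: cocycles near the diagonal, basic lemmas

`NCoc c S`, `NTriv c S` (see `Core.lean`).  Note `c a a = 1` for `a ∈ S` if `NCoc c S`.

* `union_closed`: `g_A`, `g_B` primitives on the closed sets `A, B`.  On `A ∩ B` the function
  `g_A g_B⁻¹` is locally constant: for `x, y ∈ A ∩ B` close to each other
  `(g_A x)⁻¹ g_A y = c x y = (g_B x)⁻¹ g_B y`; so it is constant `= a` (`IsPreconnected`,
  e.g. `IsPreconnected.constant_of_...` / `isPreconnected_iff_subset_of_disjoint`).  Put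
  `g = g_A` on `A` and `a * g_B` on `B \ A` (they agree on `A ∩ B`).  Near a point `z ∈ A ∩ B`:
  for `x ∈ A, y ∈ B` close to `z`: `c x y = c x z * c z y = (g x)⁻¹ g z (g z)⁻¹ g y`.  Near a point
  `z ∉ B` a neighbourhood misses `B` (closed).
* `union_two`: same, but `g_A g_B⁻¹` is constant `a₁` on `W₁` and `a₂` on `W₂`; compare with the
  primitive `g_S` on `S`: `g_S g_A⁻¹` is constant on `S ∩ A`, `g_S g_B⁻¹` is constant on `S ∩ B`, and
  evaluate at points of `S ∩ W₁` and `S ∩ W₂`: `a₁ = a₂`.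
* `retract`: `T` is the image of `S`: `c` on `T`, pull back by `φ`, primitive `g` on `S`, then
  `g ∘ ψ` is a primitive of `c` on `T`, because `φ (ψ y) = y` on `T`.
-/

open Set Topology

namespace Pool.H54.UB

variable {X Y Q : Type*} [TopologicalSpace X] [TopologicalSpace Y] [Group Q]

theorem NCoc.mono {c : X → X → Q} {S T : Set X} (h : NCoc c T) (hST : S ⊆ T) : NCoc c S := by
  intro x hx
  obtain ⟨U, hU, h1⟩ := h x (hST hx)
  exact ⟨U, hU, fun a ha b hb d hd => h1 a ⟨ha.1, hST ha.2⟩ b ⟨hb.1, hST hb.2⟩ d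
    ⟨hd.1, hST hd.2⟩⟩

theorem NTriv.mono {c : X → X → Q} {S T : Set X} (h : NTriv c T) (hST : S ⊆ T) : NTriv c S := by
  obtain ⟨g, h⟩ := h
  refine ⟨g, fun x hx => ?_⟩
  obtain ⟨U, hU, h1⟩ := h x (hST hx)
  exact ⟨U, hU, fun a ha b hb => h1 a ⟨ha.1, hST ha.2⟩ b ⟨hb.1, hST hb.2⟩⟩

theorem NTriv.ncoc {c : X → X → Q} {S : Set X} (h : NTriv c S) : NCoc c S := by
  obtain ⟨g, h⟩ := h
  intro x hx
  obtain ⟨U, hU, h1⟩ := h x hx
  refine ⟨U, hU, fun a ha b hb d hd => ?_⟩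
  rw [h1 a ha b hb, h1 b hb d hd, h1 a ha d hd]
  group

private theorem ASA_pull {S : Set Y} {φ : Y → X} (hφ : ContinuousOn φ S) {y : Y} (hy : y ∈ S)
    {U : Set X} (hU : U ∈ 𝓝 (φ y)) : ∃ V ∈ 𝓝 y, ∀ a ∈ V ∩ S, φ a ∈ U ∩ φ '' S := by
  have h1 : φ ⁻¹' U ∈ 𝓝[S] y := hφ y hy hU
  obtain ⟨V, hV, h2⟩ := mem_nhdsWithin_iff_exists_mem_nhds_inter.1 h1
  exact ⟨V, hV, fun a ha => ⟨h2 ha, mem_image_of_mem φ ha.2⟩⟩

theorem NCoc.comp {c : X → X → Q} {S : Set Y} {φ : Y → X} (hφ : ContinuousOn φ S)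
    (h : NCoc c (φ '' S)) : NCoc (fun a b => c (φ a) (φ b)) S := by
  intro y hy
  obtain ⟨U, hU, h1⟩ := h (φ y) (mem_image_of_mem φ hy)
  obtain ⟨V, hV, h2⟩ := ASA_pull hφ hy hU
  exact ⟨V, hV, fun a ha b hb d hd => h1 _ (h2 a ha) _ (h2 b hb) _ (h2 d hd)⟩

theorem NTriv.comp {c : X → X → Q} {S : Set Y} {φ : Y → X} (hφ : ContinuousOn φ S)
    (h : NTriv c (φ '' S)) : NTriv (fun a b => c (φ a) (φ b)) S := by
  obtain ⟨g, h⟩ := h
  refine ⟨fun y => g (φ y), fun y hy => ?_⟩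
  obtain ⟨U, hU, h1⟩ := h (φ y) (mem_image_of_mem φ hy)
  obtain ⟨V, hV, h2⟩ := ASA_pull hφ hy hU
  exact ⟨V, hV, fun a ha b hb => h1 _ (h2 a ha) _ (h2 b hb)⟩

theorem NCoc.self {c : X → X → Q} {S : Set X} (h : NCoc c S) {x : X} (hx : x ∈ S) : c x x = 1 :=
  by
  obtain ⟨U, hU, h1⟩ := h x hx
  have hxU : x ∈ U ∩ S := ⟨mem_of_mem_nhds hU, hx⟩
  exact mul_eq_left.1 (h1 x hxU x hxU x hxU)

/-- Two functions with the same local differences differ by a constant on a preconnected set. -/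
theorem const_of_local {g g' : X → Q} {S : Set X} (hS : IsPreconnected S)
    (h : ∀ x ∈ S, ∃ U ∈ 𝓝 x, ∀ y ∈ U ∩ S, (g x)⁻¹ * g y = (g' x)⁻¹ * g' y)
    {x y : X} (hx : x ∈ S) (hy : y ∈ S) : g x * (g' x)⁻¹ = g y * (g' y)⁻¹ := by
  let _ : TopologicalSpace Q := ⊥
  have _ : DiscreteTopology Q := ⟨rfl⟩
  have hc : ContinuousOn (fun x => g x * (g' x)⁻¹) S := by
    intro z hz
    obtain ⟨U, hU, h1⟩ := h z hz
    refine (continuousWithinAt_const (b := g z * (g' z)⁻¹)).congr_of_eventuallyEq ?_ rfl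
    filter_upwards [mem_nhdsWithin_of_mem_nhds hU, self_mem_nhdsWithin] with w hw hw'
    have h2 := h1 w ⟨hw, hw'⟩
    have h3 : g w = g z * ((g' z)⁻¹ * g' w) := by
      rw [← h2]
      group
    rw [h3]
    group
  exact hS.constant hc hx hy

/-- the local differences of two primitives agree -/
private theorem ASA_loc {c : X → X → Q} {S S' T : Set X} {g g' : X → Q}
    (h : ∀ x ∈ S, ∃ U ∈ 𝓝 x, ∀ a ∈ U ∩ S, ∀ b ∈ U ∩ S, c a b = (g a)⁻¹ * g b)
    (h' : ∀ x ∈ S', ∃ U ∈ 𝓝 x, ∀ a ∈ U ∩ S', ∀ b ∈ U ∩ S', c a b = (g' a)⁻¹ * g' b)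
    (hT : T ⊆ S) (hT' : T ⊆ S') :
    ∀ x ∈ T, ∃ U ∈ 𝓝 x, ∀ y ∈ U ∩ T, (g x)⁻¹ * g y = (g' x)⁻¹ * g' y := by
  intro x hx
  obtain ⟨U, hU, h1⟩ := h x (hT hx)
  obtain ⟨V, hV, h2⟩ := h' x (hT' hx)
  refine ⟨U ∩ V, Filter.inter_mem hU hV, fun y hy => ?_⟩
  rw [← h1 x ⟨mem_of_mem_nhds hU, hT hx⟩ y ⟨hy.1.1, hT hy.2⟩,
    ← h2 x ⟨mem_of_mem_nhds hV, hT' hx⟩ y ⟨hy.1.2, hT' hy.2⟩]

private theorem ASA_glue {c : X → X → Q} {A B : Set X} (hA : IsClosed A) (hB : IsClosed B)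
    (hc : NCoc c (A ∪ B)) {g g' : X → Q}
    (h : ∀ x ∈ A, ∃ U ∈ 𝓝 x, ∀ a ∈ U ∩ A, ∀ b ∈ U ∩ A, c a b = (g a)⁻¹ * g b)
    (h' : ∀ x ∈ B, ∃ U ∈ 𝓝 x, ∀ a ∈ U ∩ B, ∀ b ∈ U ∩ B, c a b = (g' a)⁻¹ * g' b)
    (q : Q) (hq : ∀ x ∈ A ∩ B, g x = q * g' x) : NTriv c (A ∪ B) := by
  classical
  obtain ⟨G, hG⟩ : ∃ G : X → Q, G = fun x => if x ∈ A then g x else q * g' x := ⟨_, rfl⟩
  have GA : ∀ x ∈ A, G x = g x := fun x hx => by
    rw [hG]
    exact if_pos hx
  have GB : ∀ x ∈ B, G x = q * g' x := fun x hx => by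
    by_cases hxA : x ∈ A
    · rw [GA x hxA, hq x ⟨hxA, hx⟩]
    · rw [hG]
      exact if_neg hxA
  refine ⟨G, fun x hx => ?_⟩
  by_cases hxA : x ∈ A
  · obtain ⟨U, hU, h1⟩ := h x hxA
    by_cases hxB : x ∈ B
    · obtain ⟨V, hV, h2⟩ := h' x hxB
      obtain ⟨W, hW, h3⟩ := hc x hx
      have hxU := mem_of_mem_nhds hU
      have hxV := mem_of_mem_nhds hV
      have hxW := mem_of_mem_nhds hW
      refine ⟨U ∩ (V ∩ W), Filter.inter_mem hU (Filter.inter_mem hV hW), ?_⟩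
      have e1 : ∀ a ∈ (U ∩ (V ∩ W)) ∩ (A ∪ B), c a x = (G a)⁻¹ * G x := by
        rintro a ⟨⟨haU, haV, haW⟩, ha | ha⟩
        · rw [h1 a ⟨haU, ha⟩ x ⟨hxU, hxA⟩, GA a ha, GA x hxA]
        · rw [h2 a ⟨haV, ha⟩ x ⟨hxV, hxB⟩, GB a ha, GB x hxB]
          group
      have e2 : ∀ a ∈ (U ∩ (V ∩ W)) ∩ (A ∪ B), c x a = (G x)⁻¹ * G a := by
        rintro a ⟨⟨haU, haV, haW⟩, ha | ha⟩
        · rw [h1 x ⟨hxU, hxA⟩ a ⟨haU, ha⟩, GA a ha, GA x hxA]
        · rw [h2 x ⟨hxV, hxB⟩ a ⟨haV, ha⟩, GB a ha, GB x hxB]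
          group
      intro a ha b hb
      rw [← h3 a ⟨ha.1.2.2, ha.2⟩ x ⟨hxW, hx⟩ b ⟨hb.1.2.2, hb.2⟩, e1 a ha, e2 b hb]
      group
    · refine ⟨U ∩ Bᶜ, Filter.inter_mem hU (hB.isOpen_compl.mem_nhds hxB), ?_⟩
      rintro a ⟨⟨haU, haB⟩, ha⟩ b ⟨⟨hbU, hbB⟩, hb⟩
      have ha' : a ∈ A := ha.resolve_right haB
      have hb' : b ∈ A := hb.resolve_right hbB
      rw [h1 a ⟨haU, ha'⟩ b ⟨hbU, hb'⟩, GA a ha', GA b hb']
  · have hxB : x ∈ B := hx.resolve_left hxA
    obtain ⟨V, hV, h2⟩ := h' x hxB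
    refine ⟨V ∩ Aᶜ, Filter.inter_mem hV (hA.isOpen_compl.mem_nhds hxA), ?_⟩
    rintro a ⟨⟨haV, haA⟩, ha⟩ b ⟨⟨hbV, hbA⟩, hb⟩
    have ha' : a ∈ B := ha.resolve_left haA
    have hb' : b ∈ B := hb.resolve_left hbA
    rw [h2 a ⟨haV, ha'⟩ b ⟨hbV, hb'⟩, GB a ha', GB b hb']
    group

theorem NTriv.union_closed {c : X → X → Q} {A B : Set X} (hA : IsClosed A) (hB : IsClosed B)
    (hc : NCoc c (A ∪ B)) (hAB : IsPreconnected (A ∩ B)) (h1 : NTriv c A) (h2 : NTriv c B) :
    NTriv c (A ∪ B) := by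
  obtain ⟨g, h⟩ := h1
  obtain ⟨g', h'⟩ := h2
  have hl := ASA_loc h h' (inter_subset_left : A ∩ B ⊆ A) inter_subset_right
  by_cases hne : (A ∩ B).Nonempty
  · obtain ⟨z, hz⟩ := hne
    refine ASA_glue hA hB hc h h' (g z * (g' z)⁻¹) fun x hx => ?_
    rw [← const_of_local hAB hl hx hz]
    group
  · refine ASA_glue hA hB hc h h' 1 fun x hx => ?_
    exact absurd ⟨x, hx⟩ hne

theorem NTriv.union_two {c : X → X → Q} {A B W₁ W₂ S : Set X} (hA : IsClosed A) (hB : IsClosed B)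
    (hc : NCoc c (A ∪ B)) (hAB : A ∩ B = W₁ ∪ W₂) (hW₁ : IsPreconnected W₁)
    (hW₂ : IsPreconnected W₂) (h1 : NTriv c A) (h2 : NTriv c B) (hS : S ⊆ A ∪ B)
    (hSA : IsPreconnected (S ∩ A)) (hSB : IsPreconnected (S ∩ B)) (hS1 : (S ∩ W₁).Nonempty)
    (hS2 : (S ∩ W₂).Nonempty) (h3 : NTriv c S) : NTriv c (A ∪ B) := by
  obtain ⟨g, h⟩ := h1
  obtain ⟨g', h'⟩ := h2
  obtain ⟨s, hs⟩ := h3
  have w1 : W₁ ⊆ A ∩ B := by
    rw [hAB]
    exact subset_union_left
  have w2 : W₂ ⊆ A ∩ B := by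
    rw [hAB]
    exact subset_union_right
  obtain ⟨z₁, hz₁S, hz₁⟩ := hS1
  obtain ⟨z₂, hz₂S, hz₂⟩ := hS2
  have l1 := ASA_loc h h' (w1.trans inter_subset_left) (w1.trans inter_subset_right)
  have l2 := ASA_loc h h' (w2.trans inter_subset_left) (w2.trans inter_subset_right)
  have lA := ASA_loc hs h (inter_subset_left : S ∩ A ⊆ S) inter_subset_right
  have lB := ASA_loc hs h' (inter_subset_left : S ∩ B ⊆ S) inter_subset_right
  have eA := const_of_local hSA lA ⟨hz₁S, (w1 hz₁).1⟩ ⟨hz₂S, (w2 hz₂).1⟩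
  have eB := const_of_local hSB lB ⟨hz₁S, (w1 hz₁).2⟩ ⟨hz₂S, (w2 hz₂).2⟩
  have e : g z₁ * (g' z₁)⁻¹ = g z₂ * (g' z₂)⁻¹ := by
    have e1 : g z₁ * (g' z₁)⁻¹ = (s z₁ * (g z₁)⁻¹)⁻¹ * (s z₁ * (g' z₁)⁻¹) := by group
    rw [e1, eA, eB]
    group
  refine ASA_glue hA hB hc h h' (g z₁ * (g' z₁)⁻¹) fun x hx => ?_
  rw [hAB] at hx
  rcases hx with hx | hx
  · rw [← const_of_local hW₁ l1 hx hz₁]
    group
  · rw [e, ← const_of_local hW₂ l2 hx hz₂]
    group

theorem NTriv.singleton {c : X → X → Q} {x : X} (h : NCoc c {x}) : NTriv c {x} := by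
  refine ⟨fun _ => 1, fun y hy => ⟨univ, Filter.univ_mem, ?_⟩⟩
  rintro a ⟨-, ha⟩ b ⟨-, hb⟩
  rw [mem_singleton_iff] at ha hb
  rw [ha, hb, h.self (mem_singleton x)]
  group

theorem QTriv.retract {S : Set X} {T : Set Y} {φ : X → Y} {ψ : Y → X}
    (hφ : ContinuousOn φ S) (hψ : ContinuousOn ψ T) (hST : MapsTo φ S T) (hTS : MapsTo ψ T S)
    (h : ∀ y ∈ T, φ (ψ y) = y) (hS : QTriv Q S) : QTriv Q T := by
  intro c hc
  have h1 : NCoc (fun a b => c (φ a) (φ b)) S := NCoc.comp hφ (hc.mono hST.image_subset)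
  obtain ⟨g, h2⟩ := NTriv.comp hψ ((hS _ h1).mono hTS.image_subset)
  refine ⟨g, fun x hx => ?_⟩
  obtain ⟨U, hU, h3⟩ := h2 x hx
  refine ⟨U, hU, fun a ha b hb => ?_⟩
  have h4 : c (φ (ψ a)) (φ (ψ b)) = (g a)⁻¹ * g b := h3 a ha b hb
  rwa [h a ha.2, h b hb.2] at h4

end Pool.H54.UB

end S_ASA

section S_ASB

/-!
# Row ASB: cocycles near the diagonal: intervals and homotopy invariance

* `qtriv_Icc`: compactness of `[0,1]`: `sup {t | NTriv c (Icc 0 t)}`, or finite subdivision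
  `0 = t_0 < .. < t_n = 1` such that `c` satisfies the cocycle identity on the intervals
  `[t_{i-1}, t_{i+1}]` (Lebesgue number), and `NTriv.union_closed` with
  `Icc 0 t_i ∩ Icc t_i t_{i+1} = {t_i}`.
* `NTriv.prod_Icc`: for `a ∈ S` let `p_a : ℝ → Q` be a primitive of `t, s ↦ c (a,t) (a,s)` on `[0,1]`
  with `p_a 0 = 1` (left multiply), and `g₀` a primitive of `c (·,0) (·,0)` on `S`.  Put
  `g (a,t) = g₀ a * p_a t`.  Fix `a ∈ S`.  By compactness of `{a} × [0,1]` there are `V ∈ 𝓝 a`,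
  and a subdivision `0 = t_0 < ... < t_n = 1` such that for each `i` the cocycle identity
  holds for triples in `(V ∩ S) × [t_{i-1}, t_{i+1}]`.  Claim: for `b ∈ V ∩ S` (small `V`), and all
  `t ∈ [0,1]`: `p_b t = c(..)`: precisely the function
  `F_b t = (g (a,t))⁻¹ ...`: the quantity `g (a,t) * c (a,t) (b,t) * (g (b,t))⁻¹` is locally constant in
  `t ∈ [0,1]` (as `c (a,t) (b,t) = c (a,t) (a,s) c (a,s) (b,s) c (b,s) (b,t)` for `s, t` in the same
  interval), hence constant, equal to its value at `t = 0`, which is `1` if `V` is small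
  (`g₀` is a primitive near `a`).  So `c (a,t) (b,t) = (g (a,t))⁻¹ g (b,t)` for all `b ∈ V ∩ S`,
  `t ∈ [0,1]`; then for `(b,s)`, `(b',s')` close to `(a,t)`:
  `c (b,s) (b',s') = c (b,s) (a,s) c (a,s) (a,s') c (a,s') (b',s') = (g (b,s))⁻¹ g (b',s')`.
* `NTriv.deform`: apply the previous statement to `c ∘ H` and the time reversed homotopy: the
  restriction to `t = 1` is the pull back of `NTriv c T` under `H (·,1)`, so `c ∘ H` is trivial on
  `S × [0,1]`, restrict to `t = 0`.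
* `QTriv.convex`: `S = ∅` trivial; otherwise deform to a point: `H (x,t) = (1-t) x + t x₀`.
* `NTriv.move`: the classes of `c ∘ Φ_0` and `c ∘ Φ_1` are trivial simultaneously.
-/

open Set Topology

namespace Pool.H54.UB

variable {X A Q : Type*} [TopologicalSpace X] [TopologicalSpace A] [Group Q]

private theorem ASB_congr {S : Set X} {c c' : X → X → Q} (h : ∀ a ∈ S, ∀ b ∈ S, c a b = c' a b)
    (hc : NTriv c S) : NTriv c' S := by
  obtain ⟨g, hg⟩ := hc
  refine ⟨g, fun x hx => ?_⟩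
  obtain ⟨U, hU, h1⟩ := hg x hx
  refine ⟨U, hU, fun a ha b hb => ?_⟩
  rw [← h a ha.2 b hb.2]
  exact h1 a ha b hb

private theorem ASB_full {S : Set X} {c : X → X → Q} {x₀ : X} (hx₀ : x₀ ∈ S)
    (h : ∀ a ∈ S, ∀ b ∈ S, ∀ d ∈ S, c a b * c b d = c a d) : NTriv c S := by
  refine ⟨fun z => c x₀ z, fun x _ => ⟨univ, Filter.univ_mem, fun a ha b hb => ?_⟩⟩
  beta_reduce
  rw [← h x₀ hx₀ a ha.2 b hb.2]
  group

private theorem ASB_step {a b : ℝ} {c : ℝ → ℝ → Q} (hc : NCoc c (Icc a b)) {x y : ℝ} (hax : a ≤ x)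
    (hxy : x ≤ y) (hyb : y ≤ b)
    (h : ∀ u ∈ Icc x y, ∀ v ∈ Icc x y, ∀ w ∈ Icc x y, c u v * c v w = c u w)
    (h1 : NTriv c (Icc a x)) : NTriv c (Icc a y) := by
  have e : Icc a x ∪ Icc x y = Icc a y := Icc_union_Icc_eq_Icc hax hxy
  rw [← e]
  refine NTriv.union_closed isClosed_Icc isClosed_Icc ?_ ?_ h1
    (ASB_full (left_mem_Icc.2 hxy) h)
  · rw [e]; exact hc.mono (Icc_subset_Icc le_rfl hyb)
  · have e2 : Icc a x ∩ Icc x y = {x} := by
      ext z
      simp only [mem_inter_iff, mem_Icc, mem_singleton_iff]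
      constructor
      · rintro ⟨⟨_, h2⟩, h3, _⟩; exact le_antisymm h2 h3
      · rintro rfl; exact ⟨⟨hax, le_rfl⟩, le_rfl, hxy⟩
    rw [e2]; exact isPreconnected_singleton

theorem qtriv_Icc (a b : ℝ) : QTriv Q (Icc a b) := by
  intro c hc
  by_cases hab : a ≤ b
  · have h1 : NTriv c (Icc a a) := by
      rw [Icc_self]
      exact NTriv.singleton (hc.mono (by rw [singleton_subset_iff]; exact left_mem_Icc.2 hab))
    refine (isPreconnected_Icc (a := a) (b := b)).induction₂'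
      (fun x y => NTriv c (Icc a x) → NTriv c (Icc a y)) ?_ ?_ (left_mem_Icc.2 hab)
      (right_mem_Icc.2 hab) h1
    · intro x hx
      obtain ⟨U, hU, h2⟩ := hc x hx
      obtain ⟨r, hr, hrU⟩ := Metric.mem_nhds_iff.1 hU
      filter_upwards [mem_nhdsWithin_of_mem_nhds (Metric.ball_mem_nhds x hr), self_mem_nhdsWithin]
        with y hy1 hy2
      have hy3 : |y - x| < r := by rwa [Metric.mem_ball, Real.dist_eq] at hy1
      have key : ∀ u v : ℝ, u ∈ Icc a b → v ∈ Icc a b → |u - x| < r → |v - x| < r → u ≤ v →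
          NTriv c (Icc a u) → NTriv c (Icc a v) := by
        intro u v hu hv hu1 hv1 huv
        refine ASB_step hc hu.1 huv hv.2 ?_
        have h3 : ∀ w ∈ Icc u v, w ∈ U ∩ Icc a b := by
          intro w hw
          refine ⟨hrU ?_, hu.1.trans hw.1, hw.2.trans hv.2⟩
          rw [Metric.mem_ball, Real.dist_eq, abs_lt]
          rw [abs_lt] at hu1 hv1
          constructor
          · linarith [hw.1, hu1.1]
          · linarith [hw.2, hv1.2]
        intro u1 hu1 v1 hv1 w1 hw1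
        exact h2 _ (h3 _ hu1) _ (h3 _ hv1) _ (h3 _ hw1)
      have hxx : |x - x| < r := by simpa using hr
      rcases le_total x y with h4 | h4
      · exact ⟨key x y hx hy2 hxx hy3 h4, fun h5 => h5.mono (Icc_subset_Icc le_rfl h4)⟩
      · exact ⟨fun h5 => h5.mono (Icc_subset_Icc le_rfl h4), key y x hy2 hx hy3 hxx h4⟩
    · intro x y z _ _ _ h2 h3 h4
      exact h3 (h2 h4)
  · rw [Icc_eq_empty hab]
    exact ⟨fun _ => 1, fun x hx => absurd hx (notMem_empty x)⟩

private theorem ASB_prim {S : Set A} {c : A × ℝ → A × ℝ → Q} (hc : NCoc c (S ×ˢ Icc (0 : ℝ) 1))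
    (t₀ : ℝ) {a : A} (ha : a ∈ S) : ∃ p : ℝ → Q, p t₀ = 1 ∧ ∀ t ∈ Icc (0 : ℝ) 1, ∃ U ∈ 𝓝 t,
      ∀ s ∈ U ∩ Icc (0 : ℝ) 1, ∀ s' ∈ U ∩ Icc (0 : ℝ) 1, c (a, s) (a, s') = (p s)⁻¹ * p s' := by
  have h1 : NCoc (fun s s' : ℝ => c (a, s) (a, s')) (Icc (0 : ℝ) 1) := by
    refine NCoc.comp (φ := fun s : ℝ => (a, s)) (by fun_prop) (hc.mono ?_)
    rintro _ ⟨s, hs, rfl⟩
    exact ⟨ha, hs⟩
  obtain ⟨g, hg⟩ := qtriv_Icc (Q := Q) 0 1 _ h1
  refine ⟨fun s => (g t₀)⁻¹ * g s, by group, fun t ht => ?_⟩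
  obtain ⟨U, hU, h2⟩ := hg t ht
  refine ⟨U, hU, fun s hs s' hs' => ?_⟩
  rw [show c (a, s) (a, s') = (g s)⁻¹ * g s' from h2 s hs s' hs']
  group

theorem NTriv.prod_Icc {S : Set A} {c : A × ℝ → A × ℝ → Q} (hc : NCoc c (S ×ˢ Icc (0 : ℝ) 1))
    (t₀ : ℝ) (ht₀ : t₀ ∈ Icc (0 : ℝ) 1) (h0 : NTriv (fun a b => c (a, t₀) (b, t₀)) S) :
    NTriv c (S ×ˢ Icc (0 : ℝ) 1) := by
  classical
  obtain ⟨g₀, hg₀⟩ := h0
  have hp : ∀ a : A, ∃ p : ℝ → Q, a ∈ S → (p t₀ = 1 ∧ ∀ t ∈ Icc (0 : ℝ) 1, ∃ U ∈ 𝓝 t,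
      ∀ s ∈ U ∩ Icc (0 : ℝ) 1, ∀ s' ∈ U ∩ Icc (0 : ℝ) 1, c (a, s) (a, s') = (p s)⁻¹ * p s') := by
    intro a
    by_cases ha : a ∈ S
    · obtain ⟨p, hp⟩ := ASB_prim hc t₀ ha
      exact ⟨p, fun _ => hp⟩
    · exact ⟨fun _ => 1, fun h => absurd h ha⟩
  choose p hp using hp
  -- good product neighbourhoods
  have hnb : ∀ a ∈ S, ∀ t ∈ Icc (0 : ℝ) 1, ∃ V ∈ 𝓝 a, ∃ r > 0,
      (∀ x ∈ (V ∩ S) ×ˢ (Metric.ball t r ∩ Icc (0 : ℝ) 1), ∀ y ∈ (V ∩ S) ×ˢ (Metric.ball t r ∩ Icc (0 : ℝ) 1),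
        ∀ z ∈ (V ∩ S) ×ˢ (Metric.ball t r ∩ Icc (0 : ℝ) 1), c x y * c y z = c x z) := by
    intro a ha t ht
    obtain ⟨U, hU, h1⟩ := hc (a, t) ⟨ha, ht⟩
    obtain ⟨V, hV, W, hW, hVW⟩ := mem_nhds_prod_iff.1 hU
    obtain ⟨r, hr, hrW⟩ := Metric.mem_nhds_iff.1 hW
    refine ⟨V, hV, r, hr, ?_⟩
    have h2 : ∀ x ∈ (V ∩ S) ×ˢ (Metric.ball t r ∩ Icc (0 : ℝ) 1), x ∈ U ∩ S ×ˢ Icc (0 : ℝ) 1 := by
      rintro ⟨b, s⟩ ⟨⟨h3, h4⟩, h5, h6⟩
      exact ⟨hVW ⟨h3, hrW h5⟩, h4, h6⟩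
    intro x hx y hy z hz
    exact h1 x (h2 x hx) y (h2 y hy) z (h2 z hz)
  -- the fibre formula
  have hfib : ∀ (V : Set A) (t r : ℝ), (∀ x ∈ (V ∩ S) ×ˢ (Metric.ball t r ∩ Icc (0 : ℝ) 1),
      ∀ y ∈ (V ∩ S) ×ˢ (Metric.ball t r ∩ Icc (0 : ℝ) 1),
        ∀ z ∈ (V ∩ S) ×ˢ (Metric.ball t r ∩ Icc (0 : ℝ) 1), c x y * c y z = c x z) →
      ∀ b ∈ V ∩ S, ∀ s ∈ Metric.ball t r ∩ Icc (0 : ℝ) 1, ∀ s' ∈ Metric.ball t r ∩ Icc (0 : ℝ) 1,
        c (b, s) (b, s') = (p b s)⁻¹ * p b s' := by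
    intro V t r h1 b hb s hs s' hs'
    have hpre : IsPreconnected (Metric.ball t r ∩ Icc (0 : ℝ) 1) := by
      rw [Real.ball_eq_Ioo]
      exact (ordConnected_Ioo.inter ordConnected_Icc).isPreconnected
    have h2 : ∀ x ∈ Metric.ball t r ∩ Icc (0 : ℝ) 1, ∃ U ∈ 𝓝 x, ∀ y ∈ U ∩ (Metric.ball t r ∩ Icc (0 : ℝ) 1),
        (p b x)⁻¹ * p b y = (c (b, s) (b, x))⁻¹ * c (b, s) (b, y) := by
      intro x hx
      obtain ⟨U, hU, h3⟩ := (hp b hb.2).2 x hx.2
      refine ⟨U, hU, fun y hy => ?_⟩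
      rw [← h3 x ⟨mem_of_mem_nhds hU, hx.2⟩ y ⟨hy.1, hy.2.2⟩,
        ← h1 (b, s) ⟨hb, hs⟩ (b, x) ⟨hb, hx⟩ (b, y) ⟨hb, hy.2⟩]
      group
    have h3 := const_of_local (g := p b) (g' := fun y => c (b, s) (b, y)) hpre h2 hs hs'
    have h4 : c (b, s) (b, s) = 1 := by
      have := h1 (b, s) ⟨hb, hs⟩ (b, s) ⟨hb, hs⟩ (b, s) ⟨hb, hs⟩
      exact mul_eq_left.1 this
    simp only [h4, inv_one, mul_one] at h3
    rw [h3]
    group
  -- the horizontal formula
  have hhor : ∀ a ∈ S, ∀ t ∈ Icc (0 : ℝ) 1, ∃ V ∈ 𝓝 a, ∀ b ∈ V ∩ S,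
      c (a, t) (b, t) = (g₀ a * p a t)⁻¹ * (g₀ b * p b t) := by
    intro a ha t ht
    have h1 : ∃ V ∈ 𝓝 a, ∀ b ∈ V ∩ S, c (a, t₀) (b, t₀) = (g₀ a * p a t₀)⁻¹ * (g₀ b * p b t₀) := by
      obtain ⟨V, hV, h2⟩ := hg₀ a ha
      refine ⟨V, hV, fun b hb => ?_⟩
      rw [(hp a ha).1, (hp b hb.2).1, mul_one, mul_one]
      exact h2 a ⟨mem_of_mem_nhds hV, ha⟩ b hb
    refine (isPreconnected_Icc (a := (0 : ℝ)) (b := 1)).induction₂'
      (fun t s => (∃ V ∈ 𝓝 a, ∀ b ∈ V ∩ S, c (a, t) (b, t) = (g₀ a * p a t)⁻¹ * (g₀ b * p b t)) →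
        (∃ V ∈ 𝓝 a, ∀ b ∈ V ∩ S, c (a, s) (b, s) = (g₀ a * p a s)⁻¹ * (g₀ b * p b s))) ?_ ?_ ht₀ ht h1
    · intro x hx
      obtain ⟨V, hV, r, hr, h2⟩ := hnb a ha x hx
      have h3 := hfib V x r h2
      have key : ∀ u ∈ Metric.ball x r ∩ Icc (0 : ℝ) 1, ∀ v ∈ Metric.ball x r ∩ Icc (0 : ℝ) 1,
          (∃ V ∈ 𝓝 a, ∀ b ∈ V ∩ S, c (a, u) (b, u) = (g₀ a * p a u)⁻¹ * (g₀ b * p b u)) →
          (∃ V ∈ 𝓝 a, ∀ b ∈ V ∩ S, c (a, v) (b, v) = (g₀ a * p a v)⁻¹ * (g₀ b * p b v)) := by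
        rintro u hu v hv ⟨V', hV', h4⟩
        refine ⟨V ∩ V', Filter.inter_mem hV hV', ?_⟩
        rintro b ⟨⟨hb1, hb2⟩, hb3⟩
        have ha1 : a ∈ V ∩ S := ⟨mem_of_mem_nhds hV, ha⟩
        rw [← h2 (a, v) ⟨ha1, hv⟩ (a, u) ⟨ha1, hu⟩ (b, v) ⟨⟨hb1, hb3⟩, hv⟩,
          ← h2 (a, u) ⟨ha1, hu⟩ (b, u) ⟨⟨hb1, hb3⟩, hu⟩ (b, v) ⟨⟨hb1, hb3⟩, hv⟩,
          h3 a ha1 v hv u hu, h3 b ⟨hb1, hb3⟩ u hu v hv, h4 b ⟨hb2, hb3⟩]
        group
      have hx1 : x ∈ Metric.ball x r ∩ Icc (0 : ℝ) 1 := ⟨Metric.mem_ball_self hr, hx⟩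
      filter_upwards [mem_nhdsWithin_of_mem_nhds (Metric.ball_mem_nhds x hr), self_mem_nhdsWithin]
        with y hy1 hy2
      exact ⟨key x hx1 y ⟨hy1, hy2⟩, key y ⟨hy1, hy2⟩ x hx1⟩
    · intro x y z _ _ _ h2 h3 h4
      exact h3 (h2 h4)
  refine ⟨fun x => g₀ x.1 * p x.1 x.2, ?_⟩
  rintro ⟨a, t⟩ ⟨ha, ht⟩
  obtain ⟨V, hV, r, hr, h2⟩ := hnb a ha t ht
  have h3 := hfib V t r h2
  obtain ⟨V', hV', h4⟩ := hhor a ha t ht
  refine ⟨(V ∩ V') ×ˢ Metric.ball t r, prod_mem_nhds (Filter.inter_mem hV hV')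
    (Metric.ball_mem_nhds t hr), ?_⟩
  rintro ⟨b, s⟩ ⟨⟨⟨hb1, hb2⟩, hs1⟩, hb3, hs2⟩ ⟨b', s'⟩ ⟨⟨⟨hb1', hb2'⟩, hs1'⟩, hb3', hs2'⟩
  have ha1 : a ∈ V ∩ S := ⟨mem_of_mem_nhds hV, ha⟩
  have hb : b ∈ V ∩ S := ⟨hb1, hb3⟩
  have hb' : b' ∈ V ∩ S := ⟨hb1', hb3'⟩
  have ht1 : t ∈ Metric.ball t r ∩ Icc (0 : ℝ) 1 := ⟨Metric.mem_ball_self hr, ht⟩
  have hs : s ∈ Metric.ball t r ∩ Icc (0 : ℝ) 1 := ⟨hs1, hs2⟩
  have hs' : s' ∈ Metric.ball t r ∩ Icc (0 : ℝ) 1 := ⟨hs1', hs2'⟩
  have e1 := h2 (b, s) ⟨hb, hs⟩ (b, t) ⟨hb, ht1⟩ (b', s') ⟨hb', hs'⟩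
  have e2 := h2 (b, t) ⟨hb, ht1⟩ (b', t) ⟨hb', ht1⟩ (b', s') ⟨hb', hs'⟩
  have e3 := h2 (a, t) ⟨ha1, ht1⟩ (b, t) ⟨hb, ht1⟩ (b', t) ⟨hb', ht1⟩
  have e4 : c (b, t) (b', t) = (c (a, t) (b, t))⁻¹ * c (a, t) (b', t) := by
    rw [← e3]; group
  simp only []
  rw [← e1, ← e2, e4, h3 b hb s hs t ht1, h3 b' hb' t ht1 s' hs', h4 b ⟨hb2, hb3⟩,
    h4 b' ⟨hb2', hb3'⟩]
  group

theorem NTriv.move {S : Set A} {c : X → X → Q} {Φ : A × ℝ → X}
    (hΦ : ContinuousOn Φ (S ×ˢ Icc (0 : ℝ) 1)) (hc : NCoc c (Φ '' (S ×ˢ Icc (0 : ℝ) 1)))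
    {t₀ : ℝ} (ht₀ : t₀ ∈ Icc (0 : ℝ) 1)
    (h0 : NTriv (fun a b => c (Φ (a, t₀)) (Φ (b, t₀))) S) {t : ℝ} (ht : t ∈ Icc (0 : ℝ) 1) :
    NTriv (fun a b => c (Φ (a, t)) (Φ (b, t))) S := by
  have h1 := NCoc.comp hΦ hc
  have h2 := NTriv.prod_Icc h1 t₀ ht₀ h0
  refine NTriv.comp (c := fun x y => c (Φ x) (Φ y)) (φ := fun a : A => (a, t)) (by fun_prop)
    (h2.mono ?_)
  rintro _ ⟨a, ha, rfl⟩
  exact ⟨ha, ht⟩

theorem NTriv.deform {S T : Set X} {c : X → X → Q} {H : X × ℝ → X}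
    (hH : ContinuousOn H (S ×ˢ Icc (0 : ℝ) 1)) (hc : NCoc c S)
    (hS : ∀ x ∈ S, ∀ t ∈ Icc (0 : ℝ) 1, H (x, t) ∈ S) (h0 : ∀ x ∈ S, H (x, 0) = x)
    (h1 : ∀ x ∈ S, H (x, 1) ∈ T) (hT : NTriv c T) : NTriv c S := by
  have hi0 : (0 : ℝ) ∈ Icc (0 : ℝ) 1 := ⟨le_rfl, zero_le_one⟩
  have hi1 : (1 : ℝ) ∈ Icc (0 : ℝ) 1 := ⟨zero_le_one, le_rfl⟩
  have h2 : NTriv (fun a b => c (H (a, 1)) (H (b, 1))) S := by
    refine NTriv.comp (φ := fun a => H (a, 1)) ?_ (hT.mono ?_)
    · refine hH.comp (f := fun a : X => (a, (1 : ℝ))) (by fun_prop) ?_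
      intro a ha
      exact ⟨ha, hi1⟩
    · rintro _ ⟨a, ha, rfl⟩
      exact h1 a ha
  have h3 : NCoc c (H '' (S ×ˢ Icc (0 : ℝ) 1)) := by
    refine hc.mono ?_
    rintro _ ⟨⟨a, s⟩, ⟨ha, hs⟩, rfl⟩
    exact hS a ha s hs
  have h4 := NTriv.move hH h3 hi1 h2 hi0
  refine ASB_congr ?_ h4
  intro a ha b hb
  simp only [h0 a ha, h0 b hb]

theorem QTriv.convex {E : Type*} [NormedAddCommGroup E] [NormedSpace ℝ E] {S : Set E}
    (hS : Convex ℝ S) : QTriv Q S := by
  intro c hc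
  rcases S.eq_empty_or_nonempty with rfl | ⟨x₀, hx₀⟩
  · exact ⟨fun _ => 1, fun x hx => absurd hx (notMem_empty x)⟩
  · refine NTriv.deform (T := {x₀}) (H := fun p : E × ℝ => (1 - p.2) • p.1 + p.2 • x₀)
      (by fun_prop) hc ?_ ?_ ?_ (NTriv.singleton (hc.mono (singleton_subset_iff.2 hx₀)))
    · intro x hx t ht
      exact hS hx hx₀ (by linarith [ht.2]) ht.1 (by ring)
    · intro x _; simp
    · intro x _; simp

/-- Product with a convex set. -/
theorem NTriv.prod_convex {E : Type*} [NormedAddCommGroup E] [NormedSpace ℝ E] {S : Set A}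
    {C : Set E} (hC : Convex ℝ C) {e₀ : E} (he₀ : e₀ ∈ C) {c : A × E → A × E → Q}
    (hc : NCoc c (S ×ˢ C)) (h0 : NTriv (fun a b => c (a, e₀) (b, e₀)) S) :
    NTriv c (S ×ˢ C) := by
  have h1 : NTriv c (S ×ˢ {e₀}) := by
    have h2 : NTriv (fun x y : A × E => c (x.1, e₀) (y.1, e₀)) (S ×ˢ {e₀}) := by
      refine NTriv.comp (c := fun a b => c (a, e₀) (b, e₀)) (φ := Prod.fst) (by fun_prop)
        (h0.mono ?_)
      rintro _ ⟨⟨a, e⟩, ⟨ha, _⟩, rfl⟩
      exact ha
    refine ASB_congr ?_ h2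
    rintro ⟨a, e⟩ ⟨_, he⟩ ⟨b, e'⟩ ⟨_, he'⟩
    rw [mem_singleton_iff] at he he'
    simp only at he he' ⊢
    rw [he, he']
  refine NTriv.deform (T := S ×ˢ {e₀})
    (H := fun p : (A × E) × ℝ => (p.1.1, (1 - p.2) • p.1.2 + p.2 • e₀)) (by fun_prop) hc ?_ ?_ ?_ h1
  · rintro ⟨a, e⟩ ⟨ha, he⟩ t ht
    exact ⟨ha, hC he he₀ (by linarith [ht.2]) ht.1 (by ring)⟩
  · rintro ⟨a, e⟩ _; simp
  · rintro ⟨a, e⟩ ⟨ha, _⟩; exact ⟨ha, by simp⟩

end Pool.H54.UB

end S_ASB

section S_BAR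

/-!
# Row BAR: barycentric coordinates are continuous; the vertex map `lam`

`bary`: define `β v x` = weight of `v` in the unique positive representation of `x` (0 if `v` is not
in the carrier or `x` is not in the space).  On `convexHull s` (`s` a face) it is the restriction of
an affine (hence continuous) function (barycentric coordinate of the affinely independent set `s`,
or by compactness: the map from the standard simplex on `s` to `convexHull s` is a continuous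
bijection of compact Hausdorff spaces, a homeomorphism).  Finite closed cover => continuous on the
space.

`exists_lam`: let `n` be the number of vertices (if the space is empty everything is trivial).
`lam x` := a vertex with maximal `β v x` (so `β (lam x) x ≥ 1/n` for `x` in the space).  The space is
compact, so the `β v` are uniformly continuous on it: there is `δ > 0` with
`dist x y < δ → |β v x - β v y| < 1/n` for all vertices `v`; then `β (lam x) y > 0`, i.e. `lam x`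
belongs to the carrier of `y`.
-/

open Set Topology

namespace Pool.H54.UB

variable {E : Type*} [NormedAddCommGroup E] [NormedSpace ℝ E]

theorem BAR_affcomb (A : E →ᵃ[ℝ] ℝ) (s : Finset E) (w : E → ℝ) (h1 : ∑ u ∈ s, w u = 1) :
    A (∑ u ∈ s, w u • u) = ∑ u ∈ s, w u * A u := by
  have hA : ∀ x, A x = A.linear x + A 0 := by
    intro x
    have := A.decomp
    exact congrFun this x
  rw [hA, map_sum]
  have : ∑ u ∈ s, w u * A u = ∑ u ∈ s, (w u * A.linear u + w u * A 0) := by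
    refine Finset.sum_congr rfl fun u _ => ?_
    rw [hA u]; ring
  rw [this, Finset.sum_add_distrib, ← Finset.sum_mul, h1, one_mul]
  congr 1
  refine Finset.sum_congr rfl fun u _ => ?_
  rw [map_smul, smul_eq_mul]

theorem BAR_cont (A : E →ᵃ[ℝ] ℝ) (s : Finset E) :
    ContinuousOn A (convexHull ℝ (s : Set E)) := by
  have hsub : convexHull ℝ (s : Set E) ⊆ (Submodule.span ℝ (s : Set E) : Set E) :=
    convexHull_min Submodule.subset_span (Submodule.convex _)
  refine ContinuousOn.mono ?_ hsub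
  rw [continuousOn_iff_continuous_domRestrict]
  have hfd : FiniteDimensional ℝ (Submodule.span ℝ (s : Set E)) :=
    FiniteDimensional.span_finset ℝ s
  exact (A.comp (Submodule.span ℝ (s : Set E)).subtype.toAffineMap).continuous_of_finiteDimensional

open Classical in
theorem BAR_coord {s : Finset E} (hs : AffineIndependent ℝ (fun x : s => (x : E))) {v : E}
    (hv : v ∈ s) : ∃ A : E →ᵃ[ℝ] ℝ, ∀ u ∈ s, A u = if u = v then 1 else 0 := by
  obtain ⟨t, hst, ht, hspan⟩ := exists_subset_affineIndependent_affineSpan_eq_top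
    (s := (s : Set E)) (k := ℝ) hs
  let b : AffineBasis t ℝ E := ⟨fun x : t => (x : E), ht, by simpa using hspan⟩
  refine ⟨b.coord ⟨v, hst hv⟩, fun u hu => ?_⟩
  have hbu : b ⟨u, hst hu⟩ = u := rfl
  by_cases huv : u = v
  · subst huv
    rw [if_pos rfl]
    exact b.coord_apply_eq ⟨u, hst hu⟩
  · rw [if_neg huv]
    refine b.coord_apply_ne (i := ⟨v, hst hv⟩) (j := ⟨u, hst hu⟩) ?_
    intro h
    exact huv (congrArg Subtype.val h).symm

open Classical in
/-- The barycentric coordinate. -/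
noncomputable def BAR_b (K : GC E) (v x : E) : ℝ :=
  if h : ∃ (t : Finset E) (w : E → ℝ), t ∈ K.faces ∧ (∀ y ∈ t, 0 < w y) ∧ ∑ y ∈ t, w y = 1 ∧
      ∑ y ∈ t, w y • y = x then
    (if v ∈ h.choose then h.choose_spec.choose v else 0)
  else 0

open Classical in
theorem BAR_b_eq (K : GC E) {v x : E} {t : Finset E} {w : E → ℝ} (ht : t ∈ K.faces)
    (hw : ∀ y ∈ t, 0 < w y) (h1 : ∑ y ∈ t, w y = 1) (hx : ∑ y ∈ t, w y • y = x) :
    BAR_b K v x = if v ∈ t then w v else 0 := by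
  have h : ∃ (t : Finset E) (w : E → ℝ), t ∈ K.faces ∧ (∀ y ∈ t, 0 < w y) ∧ ∑ y ∈ t, w y = 1 ∧
      ∑ y ∈ t, w y • y = x := ⟨t, w, ht, hw, h1, hx⟩
  unfold BAR_b
  rw [dif_pos h]
  obtain ⟨a1, a2, a3, a4⟩ := h.choose_spec.choose_spec
  obtain ⟨e1, e2⟩ := K.uniq t ht _ a1 w _ hw a2 h1 a3 (hx.trans a4.symm)
  by_cases hv : v ∈ t
  · rw [if_pos hv, if_pos (e1 ▸ hv), e2 v hv]
  · rw [if_neg hv, if_neg (fun h' => hv (e1 ▸ h'))]

open Classical in
theorem BAR_b_eq' (K : GC E) {v x : E} {s : Finset E} {w : E → ℝ} (hs : s ∈ K.faces)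
    (hw : ∀ y ∈ s, 0 ≤ w y) (h1 : ∑ y ∈ s, w y = 1) (hx : ∑ y ∈ s, w y • y = x) :
    BAR_b K v x = if v ∈ s then w v else 0 := by
  set t := s.filter (fun y => 0 < w y) with htdef
  have hts : t ⊆ s := Finset.filter_subset _ _
  have hz : ∀ y ∈ s, y ∉ t → w y = 0 := by
    intro y hy hyt
    have : ¬ 0 < w y := fun h => hyt (Finset.mem_filter.2 ⟨hy, h⟩)
    exact le_antisymm (not_lt.1 this) (hw y hy)
  have h1' : ∑ y ∈ t, w y = 1 := by
    rw [Finset.sum_subset hts hz, h1]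
  have hx' : ∑ y ∈ t, w y • y = x := by
    rw [Finset.sum_subset hts (fun y hy hyt => by rw [hz y hy hyt, zero_smul]), hx]
  have hne : t.Nonempty := by
    rw [Finset.nonempty_iff_ne_empty]
    intro h
    rw [h] at h1'
    simp at h1'
  have ht : t ∈ K.faces := K.down s hs t hts hne
  rw [BAR_b_eq K ht (fun y hy => (Finset.mem_filter.1 hy).2) h1' hx']
  by_cases hvt : v ∈ t
  · rw [if_pos hvt, if_pos (hts hvt)]
  · rw [if_neg hvt]
    by_cases hvs : v ∈ s
    · rw [if_pos hvs, hz v hvs hvt]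
    · rw [if_neg hvs]

theorem BAR_mem {s : Finset E} {x : E} (hx : x ∈ convexHull ℝ (s : Set E)) :
    ∃ w : E → ℝ, (∀ y ∈ s, 0 ≤ w y) ∧ ∑ y ∈ s, w y = 1 ∧ ∑ y ∈ s, w y • y = x :=
  Finset.mem_convexHull'.1 hx

theorem BAR_aff (K : GC E) {s : Finset E} (hs : s ∈ K.faces) (v : E) :
    AffOn (BAR_b K v) (convexHull ℝ (s : Set E)) := by
  classical
  by_cases hv : v ∈ s
  · obtain ⟨A, hA⟩ := BAR_coord (K.affineIndependent hs) hv
    refine ⟨A, fun x hx => ?_⟩
    obtain ⟨w, hw, h1, rfl⟩ := BAR_mem hx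
    rw [BAR_b_eq' K hs hw h1 rfl, if_pos hv, BAR_affcomb A s w h1]
    rw [Finset.sum_congr rfl (fun u hu => by rw [hA u hu])]
    simp [Finset.sum_ite_eq', hv]
  · refine ⟨AffineMap.const ℝ E 0, fun x hx => ?_⟩
    obtain ⟨w, hw, h1, rfl⟩ := BAR_mem hx
    rw [BAR_b_eq' K hs hw h1 rfl, if_neg hv]
    simp

theorem BAR_contOn (K : GC E) (v : E) : ContinuousOn (BAR_b K v) K.space := by
  have hfin : Finite K.faces := K.fin
  have hsp : K.space = ⋃ s : K.faces, convexHull ℝ ((s : Finset E) : Set E) := by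
    unfold GC.space
    rw [biUnion_eq_iUnion]
  rw [hsp]
  refine LocallyFinite.continuousOn_iUnion (locallyFinite_of_finite _) (fun s => ?_) (fun s => ?_)
  · exact (Set.Finite.isCompact_convexHull (𝕜 := ℝ) (Finset.finite_toSet _)).isClosed
  · obtain ⟨A, hA⟩ := BAR_aff K s.2 v
    exact (BAR_cont A _).congr hA

theorem GC.bary (K : GC E) :
    ∃ β : E → E → ℝ, (∀ v, ContinuousOn (β v) K.space) ∧ (∀ v x, 0 ≤ β v x) ∧
      (∀ v x s, K.IsCarrier x s → (0 < β v x ↔ v ∈ s)) ∧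
      (∀ x s, K.IsCarrier x s → ∑ v ∈ s, β v x = 1 ∧ ∑ v ∈ s, β v x • v = x) ∧
      ∀ s ∈ K.faces, ∀ v, AffOn (β v) (convexHull ℝ (s : Set E)) := by
  classical
  refine ⟨BAR_b K, BAR_contOn K, ?_, ?_, ?_, fun s hs v => BAR_aff K hs v⟩
  · intro v x
    by_cases h : ∃ (t : Finset E) (w : E → ℝ), t ∈ K.faces ∧ (∀ y ∈ t, 0 < w y) ∧
        ∑ y ∈ t, w y = 1 ∧ ∑ y ∈ t, w y • y = x
    · obtain ⟨t, w, a1, a2, a3, a4⟩ := h
      rw [BAR_b_eq K a1 a2 a3 a4]
      split_ifs with hv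
      · exact (a2 v hv).le
      · exact le_rfl
    · unfold BAR_b
      rw [dif_neg h]
  · rintro v x s ⟨hs, w, a2, a3, a4⟩
    rw [BAR_b_eq K hs a2 a3 a4]
    split_ifs with hv
    · exact ⟨fun _ => hv, fun _ => a2 v hv⟩
    · exact ⟨fun h => absurd h (lt_irrefl _), fun h => absurd h hv⟩
  · rintro x s ⟨hs, w, a2, a3, a4⟩
    have key : ∀ v ∈ s, BAR_b K v x = w v := fun v hv => by
      rw [BAR_b_eq K hs a2 a3 a4, if_pos hv]
    constructor
    · rw [Finset.sum_congr rfl key, a3]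
    · rw [Finset.sum_congr rfl (fun v hv => by rw [key v hv]), a4]

theorem BAR_compact (K : GC E) : IsCompact K.space :=
  K.fin.isCompact_biUnion fun _ _ =>
    Set.Finite.isCompact_convexHull (𝕜 := ℝ) (Finset.finite_toSet _)

theorem GC.exists_lam (K : GC E) :
    ∃ (lam : E → E) (δ : ℝ), 0 < δ ∧ ∀ x ∈ K.space, ∀ y ∈ K.space, dist x y < δ →
      ∀ s, K.IsCarrier y s → lam x ∈ s := by
  classical
  obtain ⟨β, hc, h0, hpos, hsum, -⟩ := K.bary
  rcases K.space.eq_empty_or_nonempty with he | ⟨x0, hx0⟩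
  · refine ⟨id, 1, one_pos, fun x hx => ?_⟩
    rw [he] at hx
    exact hx.elim
  have hsv : ∀ {x s}, K.IsCarrier x s → s ⊆ K.verts_finite.toFinset := by
    intro x s hs v hv
    rw [Set.Finite.mem_toFinset]
    exact ⟨s, hs.1, hv⟩
  set V := K.verts_finite.toFinset with hV
  have hVpos : 0 < V.card := by
    obtain ⟨s, hs⟩ := K.exists_carrier' hx0
    have hne := K.ne s hs.1
    exact Finset.card_pos.2 (hne.mono (hsv hs))
  have hex : ∀ x, ∃ v, x ∈ K.space → v ∈ V ∧ (1 : ℝ) / V.card ≤ β v x := by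
    intro x
    by_cases hx : x ∈ K.space
    · obtain ⟨s, hs⟩ := K.exists_carrier' hx
      obtain ⟨h1, -⟩ := hsum x s hs
      by_contra hcon
      push Not at hcon
      have hlt : ∀ v ∈ s, β v x < (1 : ℝ) / V.card := fun v hv => (hcon v).2 (hsv hs hv)
      have h2 : ∑ v ∈ s, β v x < ∑ v ∈ s, (1 : ℝ) / V.card :=
        Finset.sum_lt_sum_of_nonempty (K.ne s hs.1) hlt
      rw [h1, Finset.sum_const, nsmul_eq_mul] at h2
      have hcard : (s.card : ℝ) ≤ V.card := by exact_mod_cast Finset.card_le_card (hsv hs)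
      have hVp : (0 : ℝ) < V.card := by exact_mod_cast hVpos
      have : (s.card : ℝ) * (1 / V.card) ≤ 1 := by
        rw [mul_one_div, div_le_one hVp]
        exact hcard
      linarith
    · exact ⟨x, fun h => absurd h hx⟩
  choose lam hlam using hex
  have hF : ContinuousOn (fun x => fun v : V => β v x) K.space :=
    continuousOn_pi.2 fun v => hc v
  have hU := (BAR_compact K).uniformContinuousOn_of_continuous hF
  rw [Metric.uniformContinuousOn_iff] at hU
  have hVp : (0 : ℝ) < V.card := by exact_mod_cast hVpos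
  obtain ⟨δ, hδ, hU⟩ := hU (1 / V.card) (by positivity)
  refine ⟨lam, δ, hδ, fun x hx y hy hxy s hs => ?_⟩
  obtain ⟨hl1, hl2⟩ := hlam x hx
  have h3 := hU x hx y hy hxy
  have h4 := (dist_le_pi_dist (fun v : V => β v x) (fun v : V => β v y) ⟨lam x, hl1⟩).trans_lt h3
  rw [Real.dist_eq] at h4
  have h5 := (abs_lt.1 h4).2
  simp only at h5
  rw [← hpos (lam x) y s hs]
  linarith

end Pool.H54.UB

end S_BAR

section S_PIB

/-!
# Row PIB: pulling back a simplicial cocycle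

`lam, δ` from `GC.exists_lam K`.  `c' a b = c (lam (f a)) (lam (f b))` satisfies `NCoc c' N`: for `y ∈ N`
choose a neighbourhood on which `f` (restricted to `N`) has oscillation `< δ`; for `a, b, d` in it the
points `f a, f b, f d` are pairwise `< δ` apart, so `lam (f a), lam (f b), lam (f d)` are all in the
carrier of `f a`; use `hc`.  `QTriv` gives a primitive `g`.

Let `y, y'` be as in the claim, `u = f y`, `u' = f y'` vertices in a common face `s`.  For
`t ∈ [0,1]` put `y_t = (1-t) y + t y'`; `f y_t = (1-t) u + t u'` (affine), whose carrier is contained in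
`{u, u'}` (`GC.carrier_sub` for the face `{u, u'}`), so `lam (f y_t) ∈ {u, u'} ⊆ s`.
`F t = g y_t * c (lam (f y_t)) u'` is locally constant on `[0,1]`:
`(F t)⁻¹ * F t' = c(l_t,u')⁻¹ * c(l_t, l_t') * c (l_t', u') = 1` for `t'` close to `t`, by the cocycle
identity in `s`.  So `F 0 = F 1`, i.e. `g y * c u u' = g y' * c u' u' = g y'` (`lam u = u` because the
carrier of the vertex `u` is `{u}`; `c u' u' = 1`).
-/

open Set Topology

namespace Pool.H54.UB

/-- the image of a segment on which `f` is affine, with end points mapped to vertices of a face -/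
theorem PIB_seg {E F : Type*} [NormedAddCommGroup E] [NormedSpace ℝ E]
    [NormedAddCommGroup F] [NormedSpace ℝ F] {f : E → F} {y y' : E} (ha : AffOn f (segment ℝ y y'))
    {s : Finset F} (h1 : f y ∈ s) (h2 : f y' ∈ s) {z : E} (hz : z ∈ segment ℝ y y') :
    f z ∈ convexHull ℝ (s : Set F) := by
  obtain ⟨A, hA⟩ := ha
  have hy : f y = A y := hA (left_mem_segment ℝ y y')
  have hy' : f y' = A y' := hA (right_mem_segment ℝ y y')
  rw [hA hz]
  have h3 : A z ∈ segment ℝ (A y) (A y') := by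
    rw [← image_segment]
    exact mem_image_of_mem _ hz
  refine segment_subset_convexHull ?_ ?_ h3
  · rw [← hy]
    exact h1
  · rw [← hy']
    exact h2

theorem pull_triv {E F Q : Type*} [NormedAddCommGroup E] [NormedSpace ℝ E]
    [NormedAddCommGroup F] [NormedSpace ℝ F] [Group Q] (K : GC F) (c : F → F → Q)
    (hc : ∀ s ∈ K.faces, ∀ u ∈ s, ∀ v ∈ s, ∀ w ∈ s, c u v * c v w = c u w)
    (N : Set E) (f : E → F) (hf : ContinuousOn f N) (hm : MapsTo f N K.space) (hQ : QTriv Q N) :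
    ∃ g : E → Q, ∀ y ∈ N, ∀ y' ∈ N, segment ℝ y y' ⊆ N → AffOn f (segment ℝ y y') →
      (∃ s ∈ K.faces, f y ∈ s ∧ f y' ∈ s) → c (f y) (f y') = (g y)⁻¹ * g y' := by
  obtain ⟨lam, δ, hδ, hlam⟩ := K.exists_lam
  have hN : NCoc (fun a b => c (lam (f a)) (lam (f b))) N := by
    intro x hx
    obtain ⟨s, hs⟩ := GC.exists_carrier' (hm hx)
    have h1 : ∀ᶠ a in 𝓝[N] x, dist (f a) (f x) < δ := by
      have := (hf x hx).eventually (Metric.ball_mem_nhds (f x) hδ)
      exact this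
    rw [eventually_nhdsWithin_iff] at h1
    refine ⟨_, h1, ?_⟩
    have h2 : ∀ a ∈ {a | a ∈ N → dist (f a) (f x) < δ} ∩ N, lam (f a) ∈ s := fun a ha =>
      hlam _ (hm ha.2) _ (hm hx) (ha.1 ha.2) s hs
    intro a ha b hb d hd
    exact hc s hs.1 _ (h2 a ha) _ (h2 b hb) _ (h2 d hd)
  obtain ⟨g, hg⟩ := hQ _ hN
  refine ⟨g, fun y hy y' hy' hseg haff hs => ?_⟩
  obtain ⟨s, hs, h1, h2⟩ := hs
  have hL : ∀ z ∈ segment ℝ y y', lam (f z) ∈ s := by
    intro z hz
    obtain ⟨t, ht⟩ := GC.exists_carrier' (hm (hseg hz))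
    refine GC.carrier_sub hs (PIB_seg haff h1 h2 hz) ht ?_
    refine hlam _ (hm (hseg hz)) _ (hm (hseg hz)) ?_ t ht
    rw [dist_self]
    exact hδ
  have hv : ∀ u ∈ s, u ∈ K.space → lam u = u := by
    intro u hu hu'
    have h3 := hlam u hu' u hu' (by rw [dist_self]; exact hδ) _ (GC.verts_carrier ⟨s, hs, hu⟩)
    exact Finset.mem_singleton.1 h3
  have hyl := hv _ h1 (hm hy)
  have hyl' := hv _ h2 (hm hy')
  have key := const_of_local (g := g) (g' := fun z => (c (lam (f z)) (f y'))⁻¹)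
    (convex_segment y y').isPreconnected (S := segment ℝ y y') (x := y) (y := y') ?_
    (left_mem_segment ℝ y y') (right_mem_segment ℝ y y')
  · have h3 : c (f y') (f y') = 1 := by
      have h4 := hc s hs _ h2 _ h2 _ h2
      exact mul_eq_left.1 h4
    simp only [inv_inv] at key
    rw [hyl, hyl', h3, mul_one] at key
    rw [← key, inv_mul_cancel_left]
  · intro x hx
    obtain ⟨U, hU, h3⟩ := hg x (hseg hx)
    refine ⟨U, hU, fun z hz => ?_⟩
    rw [← h3 x ⟨mem_of_mem_nhds hU, hseg hx⟩ z ⟨hz.1, hseg hz.2⟩, inv_inv,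
      ← hc s hs _ (hL x hx) _ (hL z hz.2) _ h2, mul_inv_cancel_right]

end Pool.H54.UB

end S_PIB
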