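import Pool.Agent.H54.UB.Core
import Pool.Agent.H54.UM.G1
import Pool.Agent.H54.UM.G2

/-! Universal bases, part G3: this file joins several modules to save build time. -/

section S_TIL

/-!
# Row TIL: the covering complex of a cocycle

`c : V → V → Q` is a cocycle on the tuples of `T`.  The tuples of the covering:
`tilT c T = {(i ↦ (t i, q * c (t 0) (t i))) | t ∈ T, q ∈ Q}`.
Lifts: `tilL L g u = {σ ∈ L (fst ∘ u) | ∀ i, g (σ i) = (u i).2}`.

* `tilT` members satisfy `(u b).2 = (u a).2 * c (u a).1 (u b).1`.  A member is determined by its first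
  components and one of the second components.
* `til_stokes`: for fixed `t, j` the tuples `u ∘ δ_j`, `u` over `t`, are exactly the lifts of
  `r = t ∘ δ_j`: `i ↦ (r i, q' * c (r 0) (r i))`, `q' ∈ Q` (if `m ≥ 1`); so
  `∑_q φ (u_q ∘ δ_j) = φ̃ (r)` with `φ̃ r = ∑_{q'} φ (i ↦ (r i, q' * c (r 0) (r i)))`; apply Stokes.
* `til_card`: for `u ∈ tilT`, `|tilL u| =: D`; define
  `D v q = |{σ ∈ L t | g (σ a) = q}|` for any `t ∈ T`, `a` with `t a = v` (well defined by `hcons` with
  `b = 1`); `D (t a) q = D (t b) (q * c (t a) (t b))` for `t ∈ T`; so by `conn` it is constant `= d`,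
  and summing over `q` gives `d * |Q| = k` (using some `t ∈ T`; if `T` is empty take any `d`... we
  assume `T` nonempty).
* `til_facet`: subset of the injectivity set.  `til_cons`: from `hcons`: filter by the condition
  `g (σ a) = (u a).2` for one index `a`, which is a condition on `σ ∘ α` if `a` is in the range of
  `α`; if `b = 0` both multisets consist of `d` copies of the unique function.
* `til_sum`: `L t` is the disjoint union of the `tilL u`, `u` over `t`.
-/

namespace Pool.H54.UB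

open Finset

section
variable {V W Q R : Type*} [Group Q] [Fintype Q] {m : ℕ}

open Classical in
/-- Tuples of the covering. -/
noncomputable def tilT (c : V → V → Q) (T : Finset (Fin (m + 1) → V)) :
    Finset (Fin (m + 1) → V × Q) :=
  (T ×ˢ (univ : Finset Q)).image (fun p => fun i => (p.1 i, p.2 * c (p.1 0) (p.1 i)))

open Classical in
/-- Lifts of the tuples of the covering. -/
noncomputable def tilL (L : (Fin (m + 1) → V) → Finset (Fin (m + 1) → W)) (g : W → Q)
    (u : Fin (m + 1) → V × Q) : Finset (Fin (m + 1) → W) :=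
  (L (fun i => (u i).1)).filter (fun σ => ∀ i, g (σ i) = (u i).2)

omit [Fintype Q] in
theorem TIL_self {c : V → V → Q} {t : Fin (m + 1) → V}
    (hc : ∀ i j k, c (t i) (t j) * c (t j) (t k) = c (t i) (t k)) (i : Fin (m + 1)) :
    c (t i) (t i) = 1 := by
  have h := hc i i i
  exact mul_eq_left.1 h

theorem mem_tilT {c : V → V → Q} {T : Finset (Fin (m + 1) → V)}
    (hc : ∀ t ∈ T, ∀ i j k, c (t i) (t j) * c (t j) (t k) = c (t i) (t k))
    {u : Fin (m + 1) → V × Q} :
    u ∈ tilT c T ↔ (fun i => (u i).1) ∈ T ∧ ∀ i j, (u j).2 = (u i).2 * c (u i).1 (u j).1 := by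
  classical
  unfold tilT
  simp only [mem_image, mem_product, mem_univ, and_true, Prod.exists]
  constructor
  · rintro ⟨t, q, ht, rfl⟩
    refine ⟨ht, fun i j => ?_⟩
    change q * c (t 0) (t j) = q * c (t 0) (t i) * c (t i) (t j)
    rw [mul_assoc, hc t ht]
  · rintro ⟨ht, h⟩
    refine ⟨_, (u 0).2, ht, ?_⟩
    funext i
    exact Prod.ext rfl (h 0 i).symm

theorem TIL_inj {c : V → V → Q} {T : Finset (Fin (m + 1) → V)}
    (_ : ∀ t ∈ T, ∀ i j k, c (t i) (t j) * c (t j) (t k) = c (t i) (t k)) :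
    Set.InjOn (fun p : (Fin (m + 1) → V) × Q => fun i => (p.1 i, p.2 * c (p.1 0) (p.1 i)))
      (T ×ˢ (univ : Finset Q) : Finset _) := by
  rintro ⟨t, q⟩ h ⟨t', q'⟩ h' e
  simp only [coe_product, Set.mem_prod, mem_coe] at h h'
  have e1 : t = t' := by
    funext i
    exact congrArg Prod.fst (congrFun e i)
  subst e1
  have e2 : q * c (t 0) (t 0) = q' * c (t 0) (t 0) := congrArg Prod.snd (congrFun e 0)
  rw [mul_left_inj] at e2
  rw [e2]

theorem TIL_sum {R : Type*} [AddCommMonoid R] {c : V → V → Q} {T : Finset (Fin (m + 1) → V)}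
    (hc : ∀ t ∈ T, ∀ i j k, c (t i) (t j) * c (t j) (t k) = c (t i) (t k))
    (F : (Fin (m + 1) → V × Q) → R) :
    ∑ u ∈ tilT c T, F u = ∑ t ∈ T, ∑ q : Q, F (fun i => (t i, q * c (t 0) (t i))) := by
  classical
  unfold tilT
  rw [Finset.sum_image (TIL_inj hc), Finset.sum_product]

theorem til_stokes [CommRing R] (hm : 1 ≤ m) (c : V → V → Q) (T : Finset (Fin (m + 1) → V))
    (hc : ∀ t ∈ T, ∀ i j k, c (t i) (t j) * c (t j) (t k) = c (t i) (t k))
    (ε : (Fin (m + 1) → V) → R)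
    (stokes : ∀ φ : (Fin m → V) → R,
      ∑ t ∈ T, ε t * ∑ j : Fin (m + 1), (-1) ^ (j : ℕ) * φ (t ∘ j.succAbove) = 0)
    (φ : (Fin m → V × Q) → R) :
    ∑ u ∈ tilT c T, ε (fun i => (u i).1) *
      ∑ j : Fin (m + 1), (-1) ^ (j : ℕ) * φ (u ∘ j.succAbove) = 0 := by
  classical
  obtain ⟨m, rfl⟩ : ∃ m', m = m' + 1 := ⟨m - 1, by omega⟩
  rw [TIL_sum hc]
  rw [← stokes (fun r => ∑ q : Q, φ (fun i => (r i, q * c (r 0) (r i))))]
  refine Finset.sum_congr rfl fun t ht => ?_
  change ∑ q : Q, ε t * ∑ j : Fin (m + 2), (-1) ^ (j : ℕ) *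
    φ ((fun i => (t i, q * c (t 0) (t i))) ∘ j.succAbove) = _
  rw [← Finset.mul_sum]
  congr 1
  rw [Finset.sum_comm]
  refine Finset.sum_congr rfl fun j _ => ?_
  rw [← Finset.mul_sum]
  congr 1
  refine Fintype.sum_equiv (Equiv.mulRight (c (t 0) (t (j.succAbove 0)))) _ _ fun q => ?_
  congr 1
  funext i
  refine Prod.ext rfl ?_
  change q * c (t 0) (t (j.succAbove i)) =
    q * c (t 0) (t (j.succAbove 0)) * c (t (j.succAbove 0)) (t (j.succAbove i))
  rw [mul_assoc, hc t ht]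

omit [Fintype Q] in
/-- The lifts are determined by one second component. -/
theorem TIL_lift {c : V → V → Q} {T : Finset (Fin (m + 1) → V)}
    {L : (Fin (m + 1) → V) → Finset (Fin (m + 1) → W)} {g : W → Q}
    (hg : ∀ t ∈ T, ∀ σ ∈ L t, ∀ i j, c (t i) (t j) = (g (σ i))⁻¹ * g (σ j))
    {u : Fin (m + 1) → V × Q} (hu : (fun i => (u i).1) ∈ T)
    (hu' : ∀ i j, (u j).2 = (u i).2 * c (u i).1 (u j).1) (a : Fin (m + 1)) [DecidableEq Q] :
    tilL L g u = (L (fun i => (u i).1)).filter (fun σ => g (σ a) = (u a).2) := by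
  classical
  unfold tilL
  ext σ
  simp only [mem_filter]
  constructor
  · rintro ⟨h1, h2⟩
    exact ⟨h1, h2 a⟩
  · rintro ⟨h1, h2⟩
    refine ⟨h1, fun i => ?_⟩
    have h3 := hg _ hu σ h1 a i
    rw [hu' a i, h3, h2, mul_inv_cancel_left]

/-- Number of lifts. -/
theorem til_card (k : ℕ) (c : V → V → Q) (T : Finset (Fin (m + 1) → V)) (hT : T.Nonempty)
    (hc : ∀ t ∈ T, ∀ i j k, c (t i) (t j) * c (t j) (t k) = c (t i) (t k))
    (L : (Fin (m + 1) → V) → Finset (Fin (m + 1) → W)) (hcard : ∀ t ∈ T, (L t).card = k)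
    (hcons : ∀ t ∈ T, ∀ t' ∈ T, ∀ (b : ℕ) (α α' : Fin b → Fin (m + 1)), t ∘ α = t' ∘ α' →
      (L t).val.map (fun σ => σ ∘ α) = (L t').val.map (fun σ => σ ∘ α'))
    (g : W → Q)
    (hg : ∀ t ∈ T, ∀ σ ∈ L t, ∀ i j, c (t i) (t j) = (g (σ i))⁻¹ * g (σ j))
    (conn : ∀ D : V → Q → ℕ,
      (∀ t ∈ T, ∀ i j, ∀ q, D (t i) q = D (t j) (q * c (t i) (t j))) →
      ∀ t ∈ T, ∀ t' ∈ T, ∀ i j q q', D (t i) q = D (t' j) q') :
    ∃ d : ℕ, d * Fintype.card Q = k ∧ ∀ u ∈ tilT c T, (tilL L g u).card = d := by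
  classical
  have key : ∀ t ∈ T, ∀ t' ∈ T, ∀ a a' q, t a = t' a' →
      ((L t).filter (fun σ => g (σ a) = q)).card = ((L t').filter (fun σ => g (σ a') = q)).card := by
    intro t ht t' ht' a a' q h
    have h1 := hcons t ht t' ht' 1 (fun _ => a) (fun _ => a') (by funext _; exact h)
    have h2 := congrArg (fun s : Multiset (Fin 1 → W) => (s.filter (fun τ => g (τ 0) = q)).card) h1
    simp only [Multiset.filter_map, Multiset.card_map] at h2
    exact h2
  let D : V → Q → ℕ := fun v q =>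
    if h : ∃ p : (Fin (m + 1) → V) × Fin (m + 1), p.1 ∈ T ∧ p.1 p.2 = v then
      ((L h.choose.1).filter (fun σ => g (σ h.choose.2) = q)).card else 0
  have hD : ∀ t ∈ T, ∀ a q, D (t a) q = ((L t).filter (fun σ => g (σ a) = q)).card := by
    intro t ht a q
    have h : ∃ p : (Fin (m + 1) → V) × Fin (m + 1), p.1 ∈ T ∧ p.1 p.2 = t a := ⟨(t, a), ht, rfl⟩
    change (if h : ∃ p : (Fin (m + 1) → V) × Fin (m + 1), p.1 ∈ T ∧ p.1 p.2 = t a then
      ((L h.choose.1).filter (fun σ => g (σ h.choose.2) = q)).card else 0) = _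
    rw [dif_pos h]
    exact key _ h.choose_spec.1 _ ht _ _ q h.choose_spec.2
  have hD2 : ∀ t ∈ T, ∀ i j, ∀ q, D (t i) q = D (t j) (q * c (t i) (t j)) := by
    intro t ht i j q
    rw [hD t ht, hD t ht]
    congr 1
    refine Finset.filter_congr fun σ hσ => ?_
    rw [hg t ht σ hσ i j]
    constructor
    · intro h
      rw [← h, mul_inv_cancel_left]
    · intro h
      have h' : g (σ i) * ((g (σ i))⁻¹ * g (σ j)) = q * ((g (σ i))⁻¹ * g (σ j)) := by
        rw [mul_inv_cancel_left]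
        exact h
      exact mul_right_cancel h'
  have hc2 := conn D hD2
  obtain ⟨t₀, ht₀⟩ := hT
  refine ⟨D (t₀ 0) 1, ?_, ?_⟩
  · have h1 : ∑ q : Q, D (t₀ 0) q = k := by
      rw [← hcard t₀ ht₀, Finset.card_eq_sum_card_fiberwise (f := fun σ => g (σ 0)) (t := univ)
        (fun _ _ => mem_coe.2 (mem_univ _))]
      exact Finset.sum_congr rfl fun q _ => hD t₀ ht₀ 0 q
    rw [← h1, Finset.sum_congr rfl (fun q _ => hc2 t₀ ht₀ t₀ ht₀ 0 0 q 1), Finset.sum_const,
      smul_eq_mul, mul_comm, Finset.card_univ]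
  · intro u hu
    obtain ⟨h1, h2⟩ := (mem_tilT hc).1 hu
    rw [TIL_lift hg h1 h2 0]
    have h3 := hD _ h1 0 (u 0).2
    rw [← h3]
    exact hc2 _ h1 _ ht₀ 0 0 _ 1

theorem til_cons (k : ℕ) (c : V → V → Q) (T : Finset (Fin (m + 1) → V)) (hT : T.Nonempty)
    (hc : ∀ t ∈ T, ∀ i j k, c (t i) (t j) * c (t j) (t k) = c (t i) (t k))
    (L : (Fin (m + 1) → V) → Finset (Fin (m + 1) → W)) (hcard : ∀ t ∈ T, (L t).card = k)
    (hcons : ∀ t ∈ T, ∀ t' ∈ T, ∀ (b : ℕ) (α α' : Fin b → Fin (m + 1)), t ∘ α = t' ∘ α' →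
      (L t).val.map (fun σ => σ ∘ α) = (L t').val.map (fun σ => σ ∘ α'))
    (g : W → Q)
    (hg : ∀ t ∈ T, ∀ σ ∈ L t, ∀ i j, c (t i) (t j) = (g (σ i))⁻¹ * g (σ j))
    (conn : ∀ D : V → Q → ℕ,
      (∀ t ∈ T, ∀ i j, ∀ q, D (t i) q = D (t j) (q * c (t i) (t j))) →
      ∀ t ∈ T, ∀ t' ∈ T, ∀ i j q q', D (t i) q = D (t' j) q') :
    ∀ u ∈ tilT c T, ∀ u' ∈ tilT c T, ∀ (b : ℕ) (α α' : Fin b → Fin (m + 1)), u ∘ α = u' ∘ α' →
      (tilL L g u).val.map (fun σ => σ ∘ α) = (tilL L g u').val.map (fun σ => σ ∘ α') := by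
  classical
  intro u hu u' hu' b α α' h
  obtain ⟨h1, h2⟩ := (mem_tilT hc).1 hu
  obtain ⟨h1', h2'⟩ := (mem_tilT hc).1 hu'
  obtain ⟨d, -, hd⟩ := til_card k c T hT hc L hcard hcons g hg conn
  rcases Nat.eq_zero_or_pos b with rfl | hb
  · have e1 : ∀ s : Multiset (Fin 0 → W), s = Multiset.replicate s.card (fun i => i.elim0) := by
      intro s
      rw [Multiset.eq_replicate]
      exact ⟨rfl, fun b _ => Subsingleton.elim _ _⟩
    rw [e1 ((tilL L g u).val.map (fun σ => σ ∘ α)), e1 ((tilL L g u').val.map (fun σ => σ ∘ α')),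
      Multiset.card_map, Multiset.card_map]
    congr 1
    have h3 := hd u hu
    have h4 := hd u' hu'
    exact h3.trans h4.symm
  · have h3 := hcons _ h1 _ h1' b α α' (by
      funext i
      exact congrArg Prod.fst (congrFun h i))
    rw [TIL_lift hg h1 h2 (α ⟨0, hb⟩), TIL_lift hg h1' h2' (α' ⟨0, hb⟩)]
    have h4 : (u (α ⟨0, hb⟩)).2 = (u' (α' ⟨0, hb⟩)).2 :=
      congrArg Prod.snd (congrFun h ⟨0, hb⟩)
    have h5 := congrArg (fun s : Multiset (Fin b → W) =>
      s.filter (fun τ => g (τ ⟨0, hb⟩) = (u (α ⟨0, hb⟩)).2)) h3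
    simp only [Multiset.filter_map] at h5
    rw [← h4]
    exact h5

theorem til_sum [CommRing R] (c : V → V → Q) (T : Finset (Fin (m + 1) → V))
    (hc : ∀ t ∈ T, ∀ i j k, c (t i) (t j) * c (t j) (t k) = c (t i) (t k))
    (L : (Fin (m + 1) → V) → Finset (Fin (m + 1) → W)) (g : W → Q)
    (hg : ∀ t ∈ T, ∀ σ ∈ L t, ∀ i j, c (t i) (t j) = (g (σ i))⁻¹ * g (σ j))
    (ε : (Fin (m + 1) → V) → R) (G : (Fin (m + 1) → W) → R) :
    ∑ u ∈ tilT c T, ε (fun i => (u i).1) * ∑ σ ∈ tilL L g u, G σ =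
      ∑ t ∈ T, ε t * ∑ σ ∈ L t, G σ := by
  classical
  rw [TIL_sum hc]
  refine Finset.sum_congr rfl fun t ht => ?_
  change ∑ q : Q, ε t * ∑ σ ∈ tilL L g (fun i => (t i, q * c (t 0) (t i))), G σ = _
  rw [← Finset.mul_sum]
  congr 1
  rw [← Finset.sum_fiberwise (L t) (fun σ => g (σ 0)) G]
  refine Finset.sum_congr rfl fun q _ => ?_
  have hu : (fun i => (t i, q * c (t 0) (t i))) ∈ tilT c T := by
    unfold tilT
    rw [mem_image]
    exact ⟨(t, q), mem_product.2 ⟨ht, mem_univ _⟩, rfl⟩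
  obtain ⟨h1, h2⟩ := (mem_tilT hc).1 hu
  rw [TIL_lift hg h1 h2 0]
  change ∑ σ ∈ (L t).filter (fun σ => g (σ 0) = q * c (t 0) (t 0)), G σ = _
  rw [TIL_self (hc t ht) 0, mul_one]

end

end Pool.H54.UB

end S_TIL

section S_FDF

/-!
# Definitions for the final assembly
-/

open Set Topology

namespace Pool.H54.UB

variable {E F : Type*} [NormedAddCommGroup E] [NormedSpace ℝ E]
  [NormedAddCommGroup F] [NormedSpace ℝ F]

/-- The combinatorial data of a branched cover of degree `k` adapted to a triangulation `K`. -/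
structure BrC (m k : ℕ) (K : GC F) (S : Finset (Finset E)) (f : E → F) (N : Set E) : Prop where
  adm : Adm K S f N
  cards : ∀ t ∈ K.tops m, (lifts S f t).card = k
  facet : ∀ t ∈ K.tops m, ∀ j : Fin (m + 1),
    InjOn (fun σ : Fin (m + 1) → E => σ ∘ j.succAbove) (lifts S f t)
  cons : ∀ t ∈ K.tops m, ∀ t' ∈ K.tops m, ∀ (b : ℕ) (α α' : Fin b → Fin (m + 1)),
    t ∘ α = t' ∘ α' →
      (lifts S f t).val.map (fun σ => σ ∘ α) = (lifts S f t').val.map (fun σ => σ ∘ α')

/-- A cocycle on the top simplices of `K` whose covering is connected. -/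
structure CCov (m : ℕ) (K : GC F) (Q : Type*) [Group Q] (c : F → F → Q) : Prop where
  coc : ∀ t ∈ K.tops m, ∀ i j k, c (t i) (t j) * c (t j) (t k) = c (t i) (t k)
  conn : ∀ D : F → Q → ℕ,
    (∀ t ∈ K.tops m, ∀ i j, ∀ q, D (t i) q = D (t j) (q * c (t i) (t j))) →
    ∀ t ∈ K.tops m, ∀ t' ∈ K.tops m, ∀ i j q q', D (t i) q = D (t' j) q'
  ne : (K.tops m).Nonempty

/-- `ε` is an orientation: the values are signs, alternating, opposite on the two sides of a facet. -/
structure Ori (m : ℕ) (K : GC F) (ε : (Fin (m + 1) → F) → ℤ) : Prop where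
  sign : ∀ t ∈ K.tops m, ε t = 1 ∨ ε t = -1
  alt : ∀ t ∈ K.tops m, ∀ π : Equiv.Perm (Fin (m + 1)),
    ε (t ∘ π) = (Equiv.Perm.sign π : ℤ) * ε t
  two : ∀ r : Fin m → F, (∃ u, (Fin.cons u r : Fin (m + 1) → F) ∈ K.tops m) →
    ∃ u v, u ≠ v ∧ (Fin.cons u r : Fin (m + 1) → F) ∈ K.tops m ∧
      (Fin.cons v r : Fin (m + 1) → F) ∈ K.tops m ∧
      (∀ w, (Fin.cons w r : Fin (m + 1) → F) ∈ K.tops m → w = u ∨ w = v) ∧
      ε (Fin.cons u r : Fin (m + 1) → F) = - ε (Fin.cons v r : Fin (m + 1) → F)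
  stokes : ∀ (R : Type) [CommRing R] (φ : (Fin m → F) → R),
    ∑ t ∈ K.tops m, (ε t : R) * ∑ j : Fin (m + 1), (-1) ^ (j : ℕ) * φ (t ∘ j.succAbove) = 0

/-- The lifts of `f` carry a primitive `g` of `c ∘ f`. -/
def LPrim (m : ℕ) (K : GC F) (S : Finset (Finset E)) (f : E → F) {Q : Type*} [Group Q]
    (c : F → F → Q) (g : E → Q) : Prop :=
  ∀ t ∈ K.tops m, ∀ σ ∈ lifts S f t, ∀ i j, c (t i) (t j) = (g (σ i))⁻¹ * g (σ j)

/-- `H^i = 0`, `0 < i < m`, for the complex whose ordered top simplices are `T`. -/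
def Acyc {V : Type*} (m : ℕ) (T : Finset (Fin (m + 1) → V)) (R : Type*) [CommRing R] : Prop :=
  ∀ i : ℕ, 0 < i → i < m → ∀ c : (Fin (i + 1) → V) → R,
    (∀ t ∈ T, ∀ α : Fin (i + 2) → Fin (m + 1),
      ∑ j : Fin (i + 2), (-1) ^ (j : ℕ) * c ((t ∘ α) ∘ j.succAbove) = 0) →
    ∃ b : (Fin i → V) → R, ∀ t ∈ T, ∀ α : Fin (i + 1) → Fin (m + 1),
      c (t ∘ α) = ∑ j : Fin (i + 1), (-1) ^ (j : ℕ) * b ((t ∘ α) ∘ j.succAbove)

end Pool.H54.UB

end S_FDF

section S_FA

/-!
# Row FA: a branched cover and a triangulation adapted to it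

* `brc_family`: `S` from `PLOn.pieces`; `f` is injective on every piece by `AffOn.injOn_of_finite`.  The
  family consists of `f '' convexHull s`, `f '' (convexHull s ∩ convexHull s')`, `B`, and
  `f '' (A ∩ convexHull s)` for `A` in the given family (`IsPoly.inter`, `PLOn.image_poly`; `B` is a
  polyhedron by `IsCodimTwo`).  Then `Adm K S f N`, and `Adm.card_lifts` (`n = m + 1`),
  `Adm.facet_inj`, `Adm.lifts_cons`.
* `lprim_exists`: `pull_triv`; for `σ ∈ lifts S f t` (`Adm.mem_lifts`) all `σ i` lie in one piece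
  `convexHull s ⊆ N`, which contains the segment, and `f` is affine on it; `t i, t j` are in a common
  face.  `AffOn.mono`-type step: restrict the affine map to the segment.
-/

open Set Topology

namespace Pool.H54.UB

variable {E F : Type*} [NormedAddCommGroup E] [NormedSpace ℝ E] [FiniteDimensional ℝ E]
  [NormedAddCommGroup F] [NormedSpace ℝ F] [FiniteDimensional ℝ F]

theorem brc_family {m k : ℕ} (hm : 1 ≤ m) {M : Set F} {N : Set E} {f : E → F}
    (hM : IsClosedPLManifold m M) (hf : IsBranchedCover m k N M f)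
    (Y : Finset (Set E)) (hY : ∀ A ∈ Y, IsPoly A ∧ A ⊆ N) :
    ∃ (S : Finset (Finset E)) (G : Finset (Set F)), (∀ A ∈ G, IsPoly A ∧ A ⊆ M) ∧
      ∀ K : GC F, K.space = M → (∀ A ∈ G, K.Adapted A) →
        BrC m k K S f N ∧ ∀ A ∈ Y, ∀ s ∈ S, K.Adapted (f '' (A ∩ convexHull ℝ (s : Set E))) := by
  classical
  obtain ⟨hpl, hfin, hmaps, B, hBM, -, hB2, hcov, hcard⟩ := hf
  obtain ⟨S, hS, hSa⟩ := hpl.pieces
  have hSN : ∀ s ∈ S, convexHull ℝ (s : Set E) ⊆ N := fun s hs => by
    rw [hS]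
    exact subset_biUnion_of_mem (u := fun s : Finset E => convexHull ℝ (s : Set E)) hs
  have hSP : ∀ s ∈ S, IsPoly (convexHull ℝ (s : Set E)) := fun s _ => IsPoly.hull s
  have hBP : IsPoly B := by
    obtain ⟨⟨SB, -, hSB⟩, -⟩ := hB2
    exact ⟨SB, hSB⟩
  obtain ⟨G1, hG1⟩ : ∃ G1 : Finset (Set F), G1 = S.image (fun s : Finset E => f '' convexHull ℝ (s : Set E)) :=
    ⟨_, rfl⟩
  obtain ⟨G2, hG2⟩ : ∃ G2 : Finset (Set F), G2 = (S ×ˢ S).image
      (fun q : Finset E × Finset E =>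
        f '' (convexHull ℝ (q.1 : Set E) ∩ convexHull ℝ (q.2 : Set E))) := ⟨_, rfl⟩
  obtain ⟨G3, hG3⟩ : ∃ G3 : Finset (Set F), G3 = (Y ×ˢ S).image
      (fun q : Set E × Finset E => f '' (q.1 ∩ convexHull ℝ (q.2 : Set E))) := ⟨_, rfl⟩
  refine ⟨S, insert B (G1 ∪ G2 ∪ G3), ?_, ?_⟩
  · intro A hA
    rcases Finset.mem_insert.1 hA with rfl | hA
    · exact ⟨hBP, hBM⟩
    rcases Finset.mem_union.1 hA with hA | hA
    · rcases Finset.mem_union.1 hA with hA | hA
      · rw [hG1, Finset.mem_image] at hA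
        obtain ⟨s, hs, rfl⟩ := hA
        exact ⟨hpl.image_poly (hSP s hs) (hSN s hs),
          (image_mono (hSN s hs)).trans hmaps.image_subset⟩
      · rw [hG2, Finset.mem_image] at hA
        obtain ⟨⟨s, s'⟩, hs, rfl⟩ := hA
        rw [Finset.mem_product] at hs
        have h1 : convexHull ℝ (s : Set E) ∩ convexHull ℝ (s' : Set E) ⊆ N :=
          inter_subset_left.trans (hSN s hs.1)
        exact ⟨hpl.image_poly ((hSP s hs.1).inter (hSP s' hs.2)) h1,
          (image_mono h1).trans hmaps.image_subset⟩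
    · rw [hG3, Finset.mem_image] at hA
      obtain ⟨⟨A', s⟩, hs, rfl⟩ := hA
      rw [Finset.mem_product] at hs
      have h1 : A' ∩ convexHull ℝ (s : Set E) ⊆ N :=
        inter_subset_left.trans (hY A' hs.1).2
      exact ⟨hpl.image_poly ((hY A' hs.1).1.inter (hSP s hs.2)) h1,
        (image_mono h1).trans hmaps.image_subset⟩
  · intro K hK hG
    have hadm : Adm K S f N := by
      refine ⟨hS, fun s hs => (hSa s hs).2.2, fun s hs => ?_, ?_, fun s hs => ?_,
        fun s hs s' hs' => ?_⟩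
      · refine AffOn.injOn_of_finite (convex_convexHull ℝ _) (hSa s hs).2.2 fun y => ?_
        exact (hfin y).subset (inter_subset_inter_left _ (hSN s hs))
      · rw [hK]
        exact hmaps
      · refine hG _ (Finset.mem_insert_of_mem (Finset.mem_union_left _ (Finset.mem_union_left _ ?_)))
        rw [hG1]
        exact Finset.mem_image_of_mem _ hs
      · refine hG _ (Finset.mem_insert_of_mem (Finset.mem_union_left _ (Finset.mem_union_right _ ?_)))
        rw [hG2]
        exact Finset.mem_image.2 ⟨(s, s'), Finset.mem_product.2 ⟨hs, hs'⟩, rfl⟩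
    have hBad : K.Adapted B := hG _ (Finset.mem_insert_self _ _)
    refine ⟨⟨hadm, ?_, ?_, ?_⟩, ?_⟩
    · intro t ht
      obtain ⟨hinj, htup⟩ := GC.mem_tops.1 ht
      exact hadm.card_lifts hK hB2 hBad hcard (Nat.le_succ m) (Nat.succ_pos m) htup hinj
    · intro t ht j
      exact hadm.facet_inj hm hK hmaps hB2 hBad hcov ht j
    · exact hadm.lifts_cons hm hM hK hmaps hB2 hBad hcov hcard
    · intro A hA s hs
      refine hG _ (Finset.mem_insert_of_mem (Finset.mem_union_right _ ?_))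
      rw [hG3]
      exact Finset.mem_image.2 ⟨(A, s), Finset.mem_product.2 ⟨hA, hs⟩, rfl⟩

theorem lprim_exists {Q : Type*} [Group Q] {m : ℕ} {K : GC F} {S : Finset (Finset E)} {f : E → F}
    {N : Set E} (h : Adm K S f N) (hf : ContinuousOn f N) (hQ : QTriv Q N) (c : F → F → Q)
    (hc : ∀ s ∈ K.faces, ∀ u ∈ s, ∀ v ∈ s, ∀ w ∈ s, c u v * c v w = c u w) :
    ∃ g : E → Q, LPrim m K S f c g := by
  obtain ⟨g, hg⟩ := pull_triv K c hc N f hf h.maps hQ
  refine ⟨g, fun t ht σ hσ i j => ?_⟩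
  obtain ⟨⟨s, hs, hσs⟩, hσf⟩ := (h.mem_lifts t σ).1 hσ
  obtain ⟨-, u, hu, htu⟩ := GC.mem_tops.1 ht
  have hsN : convexHull ℝ (s : Set E) ⊆ N := by
    rw [h.cover]
    exact subset_biUnion_of_mem (u := fun s : Finset E => convexHull ℝ (s : Set E)) hs
  have hseg : segment ℝ (σ i) (σ j) ⊆ convexHull ℝ (s : Set E) :=
    (convex_convexHull ℝ _).segment_subset (hσs i) (hσs j)
  obtain ⟨A, hA⟩ := h.aff s hs
  have h1 := hg (σ i) (hsN (hσs i)) (σ j) (hsN (hσs j)) (hseg.trans hsN)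
    ⟨A, hA.mono hseg⟩ ⟨u, hu, by rw [hσf]; exact htu i, by rw [hσf]; exact htu j⟩
  rwa [hσf, hσf] at h1

end Pool.H54.UB

end S_FA

section S_PIA

/-!
# Row PIA: paths in a finite geometric complex

* `space_pathConnected`: connected implies path connected: path components of `K.space` are unions of
  hulls of faces (hulls are convex, so path connected), finitely many, closed, hence clopen.
* `seg`: the straight path between two points of the hull of a face, as a `Path` in `↥K.space`.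
* `seg_trans`: in the hull of a face `seg x y` followed by `seg y z` is homotopic to `seg x z` (the hull
  is convex; homotopy inside the hull, e.g. via `convexHull` simply connected / contractible, or
  an explicit straight line homotopy).
* `star_path`: let `v` be a vertex and `β` a path in `K.space` all of whose points have a carrier
  containing `v`.  Then `β` is homotopic to `seg (β 0) v` followed by `seg v (β 1)`: the straight line
  homotopy `H (s,t) = (1-s) β t + s v` stays in `K.space` (the segment from `v` to a point with carrier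
  `∋ v` lies in the hull of the carrier) and gives `β ≃ seg (β 0) v · const · seg v (β 1)`.
-/

open Set Topology

namespace Pool.H54.UB

variable {E : Type*} [NormedAddCommGroup E] [NormedSpace ℝ E]

private lemma PIA_hull_sub (K : GC E) {s : Finset E} (hs : s ∈ K.faces) :
    convexHull ℝ (s : Set E) ⊆ K.space := fun _ hx => mem_biUnion hs hx

private lemma PIA_joined (K : GC E) {s : Finset E} (hs : s ∈ K.faces) {x y : E}
    (hx : x ∈ convexHull ℝ (s : Set E)) (hy : y ∈ convexHull ℝ (s : Set E)) :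
    JoinedIn K.space x y := by
  have hpc : IsPathConnected (convexHull ℝ (s : Set E)) :=
    (convex_convexHull ℝ (s : Set E)).isPathConnected ⟨x, hx⟩
  exact (hpc.joinedIn x hx y hy).mono (PIA_hull_sub K hs)

theorem GC.space_pathConnected (K : GC E) (hc : IsConnected K.space) :
    PathConnectedSpace ↥K.space := by
  rw [← isPathConnected_iff_pathConnectedSpace]
  obtain ⟨x0, hx0⟩ := hc.nonempty
  refine ⟨x0, hx0, ?_⟩
  intro y hy
  by_contra hny
  have hclosed : ∀ P : Finset E → Prop,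
      IsClosed (⋃ t ∈ {t | t ∈ K.faces ∧ P t}, convexHull ℝ (t : Set E)) := by
    intro P
    have hfin : {t | t ∈ K.faces ∧ P t}.Finite := K.fin.subset (fun t ht => ht.1)
    exact hfin.isClosed_biUnion (fun t _ => (t.finite_toSet.isCompact_convexHull ℝ).isClosed)
  have key := isPreconnected_closed_iff.1 hc.isPreconnected
    (⋃ t ∈ {t | t ∈ K.faces ∧ ∃ z ∈ convexHull ℝ (t : Set E), JoinedIn K.space x0 z},
      convexHull ℝ (t : Set E))
    (⋃ t ∈ {t | t ∈ K.faces ∧ ∃ z ∈ convexHull ℝ (t : Set E), ¬ JoinedIn K.space x0 z},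
      convexHull ℝ (t : Set E)) (hclosed _) (hclosed _)
    (by
      intro z hz
      obtain ⟨t, ht, hzt⟩ := mem_iUnion₂.1 hz
      by_cases hj : JoinedIn K.space x0 z
      · exact Or.inl (mem_iUnion₂.2 ⟨t, ⟨ht, z, hzt, hj⟩, hzt⟩)
      · exact Or.inr (mem_iUnion₂.2 ⟨t, ⟨ht, z, hzt, hj⟩, hzt⟩))
    (by
      obtain ⟨t, ht, hzt⟩ := mem_iUnion₂.1 hx0
      exact ⟨x0, hx0, mem_iUnion₂.2 ⟨t, ⟨ht, x0, hzt, JoinedIn.refl hx0⟩, hzt⟩⟩)
    (by
      obtain ⟨t, ht, hzt⟩ := mem_iUnion₂.1 hy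
      exact ⟨y, hy, mem_iUnion₂.2 ⟨t, ⟨ht, y, hzt, hny⟩, hzt⟩⟩)
  obtain ⟨z, hz, hz1, hz2⟩ := key
  obtain ⟨t1, ⟨ht1, w1, hw1, hj1⟩, hzt1⟩ := mem_iUnion₂.1 hz1
  obtain ⟨t2, ⟨ht2, w2, hw2, hj2⟩, hzt2⟩ := mem_iUnion₂.1 hz2
  exact hj2 ((hj1.trans (PIA_joined K ht1 hw1 hzt1)).trans (PIA_joined K ht2 hzt2 hw2))

/-- Straight path in the hull of a face. -/
noncomputable def GC.seg (K : GC E) {s : Finset E} (hs : s ∈ K.faces) {x y : E}
    (hx : x ∈ convexHull ℝ (s : Set E)) (hy : y ∈ convexHull ℝ (s : Set E)) :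
    Path (⟨x, mem_biUnion hs hx⟩ : ↥K.space) (⟨y, mem_biUnion hs hy⟩ : ↥K.space) where
  toFun t := ⟨AffineMap.lineMap x y (t : ℝ), mem_biUnion hs
    ((convex_convexHull ℝ (s : Set E)).segment_subset hx hy
      (by rw [segment_eq_image_lineMap]; exact ⟨t, t.2, rfl⟩))⟩
  continuous_toFun := by
    refine Continuous.subtype_mk ?_ _
    exact AffineMap.lineMap_continuous.comp continuous_subtype_val
  source' := by ext; simp
  target' := by ext; simp

private lemma PIA_seg_mem (K : GC E) {s : Finset E} (hs : s ∈ K.faces) {x y : E}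
    (hx : x ∈ convexHull ℝ (s : Set E)) (hy : y ∈ convexHull ℝ (s : Set E)) (t : unitInterval) :
    (K.seg hs hx hy t : E) ∈ convexHull ℝ (s : Set E) :=
  (convex_convexHull ℝ (s : Set E)).segment_subset hx hy
      (by rw [segment_eq_image_lineMap]; exact ⟨t, t.2, rfl⟩)

/-- Two paths with values in a simply connected subset are homotopic. -/
private lemma PIA_hom {X : Set E} (D : Set E) (hD : D ⊆ X) [SimplyConnectedSpace ↥D]
    {a b : ↥X} (γ δ : Path a b) (hγ : ∀ t, (γ t : E) ∈ D) (hδ : ∀ t, (δ t : E) ∈ D) :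
    γ.Homotopic δ := by
  have ha : (a : E) ∈ D := by simpa using hγ 0
  have hb : (b : E) ∈ D := by simpa using hγ 1
  have hlift : ∀ η : Path a b, (∀ t, (η t : E) ∈ D) →
      ∃ η' : Path (⟨a, ha⟩ : ↥D) (⟨b, hb⟩ : ↥D),
        (η : Path a b) = η'.map (continuous_inclusion hD) := by
    intro η hη
    refine ⟨{ toFun := fun t => ⟨η t, hη t⟩
              continuous_toFun := (continuous_subtype_val.comp η.continuous).subtype_mk _
              source' := by ext; simp
              target' := by ext; simp }, ?_⟩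
    ext t
    rfl
  obtain ⟨γ', h1⟩ := hlift γ hγ
  obtain ⟨δ', h2⟩ := hlift δ hδ
  have h3 := (SimplyConnectedSpace.paths_homotopic γ' δ').map
    (⟨Set.inclusion hD, continuous_inclusion hD⟩ : C(↥D, ↥X))
  rw [h1, h2]
  exact h3

private lemma PIA_trans_mem {X : Set E} (D : Set E) {a b c : ↥X} (γ : Path a b) (δ : Path b c)
    (hγ : ∀ t, (γ t : E) ∈ D) (hδ : ∀ t, (δ t : E) ∈ D) (t : unitInterval) :
    (γ.trans δ t : E) ∈ D := by
  rw [Path.trans_apply]
  split_ifs
  · exact hγ _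
  · exact hδ _

theorem GC.seg_trans (K : GC E) {s : Finset E} (hs : s ∈ K.faces) {x y z : E}
    (hx : x ∈ convexHull ℝ (s : Set E)) (hy : y ∈ convexHull ℝ (s : Set E))
    (hz : z ∈ convexHull ℝ (s : Set E)) :
    ((K.seg hs hx hy).trans (K.seg hs hy hz)).Homotopic (K.seg hs hx hz) := by
  haveI : ContractibleSpace ↥(convexHull ℝ (s : Set E)) :=
    (convex_convexHull ℝ (s : Set E)).contractibleSpace ⟨x, hx⟩
  refine PIA_hom (convexHull ℝ (s : Set E)) (PIA_hull_sub K hs) _ _ ?_ ?_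
  · exact PIA_trans_mem _ _ _ (PIA_seg_mem K hs hx hy) (PIA_seg_mem K hs hy hz)
  · exact PIA_seg_mem K hs hx hz

theorem GC.seg_symm (K : GC E) {s : Finset E} (hs : s ∈ K.faces) {x y : E}
    (hx : x ∈ convexHull ℝ (s : Set E)) (hy : y ∈ convexHull ℝ (s : Set E)) :
    (K.seg hs hx hy).symm = K.seg hs hy hx := by
  ext t
  show AffineMap.lineMap x y ((unitInterval.symm t : unitInterval) : ℝ)
    = AffineMap.lineMap y x (t : ℝ)
  rw [unitInterval.coe_symm_eq, AffineMap.lineMap_apply_one_sub]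

theorem GC.star_path (K : GC E) {v : E} {a b : ↥K.space} (β : Path a b)
    (hβ : ∀ t s, K.IsCarrier (β t : E) s → v ∈ s) {s s' : Finset E} (hs : s ∈ K.faces)
    (hs' : s' ∈ K.faces) (ha : (a : E) ∈ convexHull ℝ (s : Set E))
    (hb : (b : E) ∈ convexHull ℝ (s' : Set E)) (hv : v ∈ s) (hv' : v ∈ s') :
    β.Homotopic ((K.seg hs ha (subset_convexHull ℝ _ hv)).trans
      (K.seg hs' (subset_convexHull ℝ _ hv') hb)) := by
  have hface : ∀ {t : Finset E}, t ∈ K.faces → v ∈ t → ∀ {z : E}, z ∈ convexHull ℝ (t : Set E) →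
      z ∈ {x : E | segment ℝ v x ⊆ K.space} := by
    intro t ht hvt z hz
    show segment ℝ v z ⊆ K.space
    exact ((convex_convexHull ℝ (t : Set E)).segment_subset
      (subset_convexHull ℝ _ hvt) hz).trans (PIA_hull_sub K ht)
  have hDK : {x : E | segment ℝ v x ⊆ K.space} ⊆ K.space := by
    intro z hz
    exact hz (right_mem_segment ℝ v z)
  have hstar : StarConvex ℝ v {x : E | segment ℝ v x ⊆ K.space} := by
    rw [starConvex_iff_segment_subset]
    intro z hz w hw
    show segment ℝ v w ⊆ K.space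
    refine Set.Subset.trans ?_ hz
    exact (convex_segment v z).segment_subset (left_mem_segment ℝ v z) hw
  haveI : ContractibleSpace ↥{x : E | segment ℝ v x ⊆ K.space} :=
    hstar.contractibleSpace ⟨a, hface hs hv ha⟩
  refine PIA_hom {x : E | segment ℝ v x ⊆ K.space} hDK _ _ ?_ ?_
  · intro t
    obtain ⟨u, hu⟩ := GC.exists_carrier' (K := K) (β t).2
    exact hface hu.1 (hβ t u hu) hu.mem_hull
  · refine PIA_trans_mem _ _ _ (fun t => ?_) (fun t => ?_)
    · exact hface hs hv (PIA_seg_mem K hs ha (subset_convexHull ℝ _ hv) t)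
    · exact hface hs' hv' (PIA_seg_mem K hs' (subset_convexHull ℝ _ hv') hb t)

end Pool.H54.UB

end S_PIA

section S_PIC

/-!
# Row PIC: the simplicial cocycle with values in the fundamental group

`X = ↥K.space` is path connected (`space_pathConnected`).  For every vertex `u` choose a path `α_u` from
`x₀` to `u`.  For `u, v` in a common face put `c u v = [α_u · seg u v · α_v⁻¹] ∈ π₁(X, x₀)` (if Mathlib's
multiplication in `FundamentalGroup` is composition in the opposite order, use the inverse/opposite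
convention: `c u v = [α_v · seg v u · α_u⁻¹]` so that `c u v * c v w = c u w`), otherwise `1`.
The cocycle identity is `seg_trans`.

Connectivity (`D`).  Let `lam, δ` be from `GC.exists_lam`.  Let `β : [0,1] → X` be a path from the vertex
`u` to the vertex `v`.  For `t ∈ [0,1]` let `l_t = lam (β t)` and
`q_t = q * [α_u · β|[0,t] · seg (β t) l_t · α_{l_t}⁻¹]` (with the order convention above).  Claim: for
`t, t'` close to each other `q_{t'} = q_t * c l_t l_{t'}`: by uniform continuity `β` maps the interval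
between `t` and `t'` to the points whose carrier contains `l_t` (`exists_lam`: all `β τ` with
`dist (β t) (β τ) < δ`), so by `star_path`, `β|[t,t'] ≃ seg (β t) l_t · seg l_t (β t')`, and in the
carrier of `β t'`, which contains `l_t` and `l_{t'}`: `seg l_t (β t') · seg (β t') l_{t'} ≃ seg l_t l_{t'}`.
By hypothesis `D l_t q_t = D l_{t'} (q_t * c l_t l_{t'}) = D l_{t'} q_{t'}`: so `t ↦ D l_t q_t` is locally
constant, hence constant: `D u q = D v (q * [α_u · β · α_v⁻¹])`.  Given `q'`, choose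
`β = α_u⁻¹ · γ · α_v` with `[γ] = q⁻¹ q'`.
(Restriction of a path to `[0,t]`: `Path.truncate`, `Path.subpath`, or the path `τ ↦ β (t τ)`.)
-/

open Set Topology

namespace Pool.H54.UB

/-- the class of a path closed up by the paths `A` -/
noncomputable def PIC_G {X : Type*} [TopologicalSpace X] {x₀ : X} (A : ∀ x : X, Path x₀ x) {x y : X}
    (p : Path x y) : FundamentalGroup X x₀ :=
  ((Path.Homotopic.Quotient.mk (A y)).trans (Path.Homotopic.Quotient.mk p.symm)).trans
    (Path.Homotopic.Quotient.mk (A x).symm)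

theorem PIC_G_congr {X : Type*} [TopologicalSpace X] {x₀ : X} (A : ∀ x : X, Path x₀ x) {x y : X}
    {p q : Path x y} (h : p.Homotopic q) : PIC_G A p = PIC_G A q := by
  unfold PIC_G
  rw [Path.Homotopic.Quotient.eq.2 h.symm₂]

theorem PIC_G_trans {X : Type*} [TopologicalSpace X] {x₀ : X} (A : ∀ x : X, Path x₀ x) {x y z : X}
    (p : Path x y) (q : Path y z) : PIC_G A (p.trans q) = PIC_G A p * PIC_G A q := by
  rw [FundamentalGroup.mul_def]
  unfold PIC_G
  rw [Path.trans_symm, Path.Homotopic.Quotient.mk_trans]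
  simp only [Path.Homotopic.Quotient.trans_assoc]
  rw [← Path.Homotopic.Quotient.trans_assoc (Path.Homotopic.Quotient.mk (A y).symm)
    (Path.Homotopic.Quotient.mk (A y)), Path.Homotopic.Quotient.mk_symm (A y),
    Path.Homotopic.Quotient.symm_trans, Path.Homotopic.Quotient.refl_trans]

theorem PIC_G_refl {X : Type*} [TopologicalSpace X] {x₀ : X} (A : ∀ x : X, Path x₀ x) (x : X) :
    PIC_G A (Path.refl x) = 1 := by
  rw [FundamentalGroup.one_def]
  unfold PIC_G
  rw [Path.refl_symm, Path.Homotopic.Quotient.mk_refl, Path.Homotopic.Quotient.trans_refl,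
    Path.Homotopic.Quotient.mk_symm, Path.Homotopic.Quotient.trans_symm]

theorem PIC_G_cast {X : Type*} [TopologicalSpace X] {x₀ : X} (A : ∀ x : X, Path x₀ x) {x y x' y' : X}
    (p : Path x y) (h : x' = x) (h' : y' = y) : PIC_G A (p.cast h h') = PIC_G A p := by
  subst h
  subst h'
  rfl

theorem PIC_G_surj {X : Type*} [TopologicalSpace X] {x₀ : X} (A : ∀ x : X, Path x₀ x) (x y : X)
    (g : FundamentalGroup X x₀) : ∃ p : Path x y, PIC_G A p = g := by
  obtain ⟨γ, hγ⟩ := Path.Homotopic.Quotient.mk_surjective g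
  refine ⟨(((A y).symm.trans γ).trans (A x)).symm, ?_⟩
  unfold PIC_G
  rw [Path.symm_symm, Path.Homotopic.Quotient.mk_trans, Path.Homotopic.Quotient.mk_trans, hγ]
  simp only [Path.Homotopic.Quotient.trans_assoc]
  rw [Path.Homotopic.Quotient.mk_symm (A x), Path.Homotopic.Quotient.trans_symm,
    Path.Homotopic.Quotient.trans_refl, ← Path.Homotopic.Quotient.trans_assoc,
    Path.Homotopic.Quotient.mk_symm (A y), Path.Homotopic.Quotient.trans_symm]
  exact Path.Homotopic.Quotient.refl_trans _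

theorem PIC_between {t t' τ : unitInterval} (h : τ ∈ uIcc t t') : dist τ t ≤ dist t' t := by
  rw [Subtype.dist_eq, Subtype.dist_eq, Real.dist_eq, Real.dist_eq]
  rcases Set.mem_uIcc.1 h with ⟨h1, h2⟩ | ⟨h1, h2⟩
  · have h1' : (t : ℝ) ≤ τ := h1
    have h2' : (τ : ℝ) ≤ t' := h2
    rw [abs_of_nonneg (by linarith), abs_of_nonneg (by linarith)]
    linarith
  · have h1' : (t' : ℝ) ≤ τ := h1
    have h2' : (τ : ℝ) ≤ t := h2
    rw [abs_of_nonpos (by linarith), abs_of_nonpos (by linarith)]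
    linarith

theorem pi1_cocycle {n : ℕ} {M : Set (Fin n → ℝ)} (hc : IsConnected M) (K : GC (Fin n → ℝ))
    (hK : K.space = M) (x₀ : M) :
    ∃ c : (Fin n → ℝ) → (Fin n → ℝ) → FundamentalGroup M x₀,
      (∀ s ∈ K.faces, ∀ u ∈ s, ∀ v ∈ s, ∀ w ∈ s, c u v * c v w = c u w) ∧
      (∀ D : (Fin n → ℝ) → FundamentalGroup M x₀ → ℕ,
        (∀ s ∈ K.faces, ∀ u ∈ s, ∀ v ∈ s, ∀ q, D u q = D v (q * c u v)) →
        ∀ u ∈ K.verts, ∀ v ∈ K.verts, ∀ q q', D u q = D v q') := by
  classical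
  subst hK
  have hpc := K.space_pathConnected hc
  let A : ∀ x : ↥K.space, Path x₀ x := fun x => PathConnectedSpace.somePath x₀ x
  let c : (Fin n → ℝ) → (Fin n → ℝ) → FundamentalGroup ↥K.space x₀ := fun u v =>
    if h : ∃ s, s ∈ K.faces ∧ u ∈ s ∧ v ∈ s then
      PIC_G A (K.seg h.choose_spec.1 (subset_convexHull ℝ _ h.choose_spec.2.1)
        (subset_convexHull ℝ _ h.choose_spec.2.2))
    else 1
  have hcs : ∀ s (hs : s ∈ K.faces) u (hu : u ∈ s) v (hv : v ∈ s), c u v =
      PIC_G A (K.seg hs (subset_convexHull ℝ _ hu) (subset_convexHull ℝ _ hv)) := by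
    intro s hs u hu v hv
    have h : ∃ s, s ∈ K.faces ∧ u ∈ s ∧ v ∈ s := ⟨s, hs, hu, hv⟩
    exact dif_pos h
  refine ⟨c, ?_, ?_⟩
  · intro s hs u hu v hv w hw
    rw [hcs s hs u hu v hv, hcs s hs v hv w hw, hcs s hs u hu w hw, ← PIC_G_trans]
    exact PIC_G_congr A (K.seg_trans hs _ _ _)
  intro D HD u hu v hv q q'
  obtain ⟨lam, δ, hδ, hl⟩ := K.exists_lam
  have hex : ∀ x : ↥K.space, ∃ t, K.IsCarrier (x : Fin n → ℝ) t := fun x => GC.exists_carrier' x.2
  choose car hcar using hex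
  have hlam : ∀ x : ↥K.space, lam x ∈ car x := fun x =>
    hl x x.2 x x.2 (by rw [dist_self]; exact hδ) _ (hcar x)
  let V : ↥K.space → FundamentalGroup ↥K.space x₀ → ℕ := fun x q =>
    D (lam x) (q * PIC_G A (K.seg (hcar x).1 (hcar x).mem_hull (subset_convexHull ℝ _ (hlam x))))
  have hshort : ∀ (x y : ↥K.space) (β : Path x y) (q : FundamentalGroup ↥K.space x₀),
      (∀ t, dist (x : Fin n → ℝ) (β t : Fin n → ℝ) < δ) → V x q = V y (q * PIC_G A β) := by
    intro x y β q hd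
    have hl' : ∀ t s, K.IsCarrier (β t : Fin n → ℝ) s → lam x ∈ s := fun t s hs =>
      hl x x.2 (β t) (β t).2 (hd t) s hs
    have hly : lam x ∈ car y := hl' 1 (car y) (by rw [β.target]; exact hcar y)
    have h1 := K.star_path β hl' (hcar x).1 (hcar y).1 (hcar x).mem_hull (hcar y).mem_hull
      (hlam x) hly
    have h2 := PIC_G_congr A h1
    rw [PIC_G_trans] at h2
    have h3 := PIC_G_congr A (K.seg_trans (hcar y).1 (subset_convexHull ℝ _ hly) (hcar y).mem_hull
      (subset_convexHull ℝ _ (hlam y)))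
    rw [PIC_G_trans, ← hcs (car y) (hcar y).1 (lam x) hly (lam y) (hlam y)] at h3
    have h4 := HD (car y) (hcar y).1 (lam x) hly (lam y) (hlam y)
      (q * PIC_G A (K.seg (hcar x).1 (hcar x).mem_hull (subset_convexHull ℝ _ (hlam x))))
    show D (lam x) (q * PIC_G A (K.seg (hcar x).1 (hcar x).mem_hull
        (subset_convexHull ℝ _ (hlam x)))) =
      D (lam y) (q * PIC_G A β * PIC_G A (K.seg (hcar y).1 (hcar y).mem_hull
        (subset_convexHull ℝ _ (hlam y))))
    rw [h4, ← h3, h2]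
    simp only [mul_assoc]
  have hvert : ∀ (w : Fin n → ℝ) (hw : w ∈ K.verts) (hw' : w ∈ K.space)
      (q : FundamentalGroup ↥K.space x₀), D w q = V ⟨w, hw'⟩ q := by
    intro w hw hw' q
    have h1 : w ∈ car ⟨w, hw'⟩ := by
      rw [GC.carrier_unique (hcar ⟨w, hw'⟩) (GC.verts_carrier hw)]
      exact Finset.mem_singleton_self w
    rw [HD (car ⟨w, hw'⟩) (hcar ⟨w, hw'⟩).1 w h1 (lam w) (hlam ⟨w, hw'⟩) q,
      hcs (car ⟨w, hw'⟩) (hcar ⟨w, hw'⟩).1 w h1 (lam w) (hlam ⟨w, hw'⟩)]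
  have hsp : ∀ w, w ∈ K.verts → w ∈ K.space := by
    rintro w ⟨s, hs, hws⟩
    exact mem_biUnion hs (subset_convexHull ℝ _ hws)
  obtain ⟨β, hβ⟩ := PIC_G_surj A (⟨u, hsp u hu⟩ : ↥K.space) ⟨v, hsp v hv⟩ (q⁻¹ * q')
  let W : unitInterval → ℕ := fun t => V (β t) (q * PIC_G A (β.subpath 0 t))
  have hW : IsLocallyConstant W := by
    rw [IsLocallyConstant.iff_eventually_eq]
    intro t
    have hcont : ContinuousAt (fun τ => β τ) t := β.continuous.continuousAt
    obtain ⟨η, hη, hη'⟩ := Metric.continuousAt_iff.1 hcont δ hδ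
    filter_upwards [Metric.ball_mem_nhds t hη] with t' ht'
    have h1 := hshort (β t) (β t') (β.subpath t t') (q * PIC_G A (β.subpath 0 t)) (by
      intro s
      have h2 := Set.mem_range_self (f := β.subpath t t') s
      rw [Path.range_subpath] at h2
      obtain ⟨τ, hτ, hτe⟩ := h2
      rw [← hτe]
      have h3 := hη' (lt_of_le_of_lt (PIC_between hτ) ht')
      rw [dist_comm]
      exact h3)
    have h4 := PIC_G_congr A ⟨Path.Homotopy.subpathTransSubpath β 0 t t'⟩
    rw [PIC_G_trans] at h4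
    show V (β t') (q * PIC_G A (β.subpath 0 t')) = V (β t) (q * PIC_G A (β.subpath 0 t))
    rw [h1, ← h4, mul_assoc]
  have h01 := hW.apply_eq_of_preconnectedSpace 0 1
  have h0 : W 0 = V ⟨u, hsp u hu⟩ q := by
    show V (β 0) (q * PIC_G A (β.subpath 0 0)) = _
    rw [Path.subpath_self, PIC_G_refl, mul_one, β.source]
  have h1 : W 1 = V ⟨v, hsp v hv⟩ q' := by
    show V (β 1) (q * PIC_G A (β.subpath 0 1)) = _
    rw [Path.subpath_zero_one, PIC_G_cast, hβ, mul_inv_cancel_left, β.target]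
  rw [hvert u hu (hsp u hu), hvert v hv (hsp v hv), ← h0, ← h1, h01]

end Pool.H54.UB

end S_PIC

section S_SA

/-!
# Row SA: chains of tuples; the Vietoris-Rips complex of a convex set is acyclic

Chains of degree `n`: finitely supported functions on `(n+1)`-tuples (repetitions allowed),
`bd n : C_{n+1 entries} → C_{n entries}`, `bd (t) = ∑_j (-1)^j (t ∘ δ_j)`; `bd 0` is the augmentation.

* `bd_bd`, `bd_cone` (cone `Fin.cons a t`): `bd (n+1) (cone a z) = z - cone a (bd n z)`,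
  `bd 0 (cone a z) = z`.
* `vr_acyclic`: let `z` be a cycle whose tuples have entries in the convex set `C` and pairwise
  distances `< ε`.  Let `e < ε` be the maximal distance occurring and `M` a bound for the norms of the
  entries minus `x₀`, where `x₀ ∈ C` is fixed; choose `N` with `e + 2 M / N < ε` and put
  `h_k x = (1 - k/N) x + (k/N) x₀` (maps `C` to `C`, does not increase distances,
  `dist (h_k x) (h_{k+1} x') ≤ dist x x' + M / N ..`).  Prism operator for two maps `f, g`: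
  `P (t) = ∑_k (-1)^k (f t_0, .., f t_k, g t_k, .., g t_n)`, `bd P + P bd = g_* - f_*`.
  So `z = (h_0)_* z` is homologous to `(h_N)_* z = λ (x₀, .., x₀)`.  If `n` is even, its boundary is
  `λ (x₀, .., x₀)` (one entry less) which must be `0`, so `λ = 0`; if `n` is odd it is
  `bd (λ (x₀, .., x₀))` with one more entry.
-/

namespace Pool.H54.UB

open Finset

/-- Boundary of chains of tuples. -/
noncomputable def bd {X R : Type*} [CommRing R] (n : ℕ) :
    ((Fin (n + 1) → X) →₀ R) →ₗ[R] ((Fin n → X) →₀ R) :=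
  Finsupp.linearCombination R
    (fun t => ∑ j : Fin (n + 1), Finsupp.single (t ∘ j.succAbove) ((-1 : R) ^ (j : ℕ)))

/-- Cone. -/
noncomputable def cone {X R : Type*} [CommRing R] (n : ℕ) (a : X) :
    ((Fin n → X) →₀ R) →ₗ[R] ((Fin (n + 1) → X) →₀ R) :=
  Finsupp.lmapDomain R R (fun t => Fin.cons a t)

theorem bd_single {X R : Type*} [CommRing R] (n : ℕ) (t : Fin (n + 1) → X) (r : R) :
    bd n (Finsupp.single t r) =
      ∑ j : Fin (n + 1), Finsupp.single (t ∘ j.succAbove) (r * (-1 : R) ^ (j : ℕ)) := by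
  rw [bd, Finsupp.linearCombination_single, Finset.smul_sum]
  refine Finset.sum_congr rfl fun j _ => ?_
  rw [Finsupp.smul_single, smul_eq_mul]

theorem SA_sign {R : Type*} [CommRing R] (n : ℕ) (i : Fin (n + 2)) (j : Fin (n + 1)) :
    (-1 : R) ^ (i.succAbove j : ℕ) * (-1 : R) ^ (j.predAbove i : ℕ) =
      -((-1 : R) ^ (i : ℕ) * (-1 : R) ^ (j : ℕ)) := by
  rcases lt_or_ge j.castSucc i with h | h
  · rw [Fin.succAbove_of_castSucc_lt _ _ h, Fin.predAbove_of_castSucc_lt _ _ h, Fin.val_castSucc]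
    have h1 : (i : ℕ) = (i.pred (Fin.ne_zero_of_lt h) : ℕ) + 1 := by
      rw [Fin.val_pred]
      have : (j.castSucc : ℕ) < i := h
      omega
    rw [h1, pow_succ]
    ring
  · rw [Fin.succAbove_of_le_castSucc _ _ h, Fin.predAbove_of_le_castSucc _ _ h, Fin.val_succ,
      Fin.coe_castPred, pow_succ]
    ring

theorem bd_bd {X R : Type*} [CommRing R] (n : ℕ) (z : (Fin (n + 2) → X) →₀ R) :
    bd n (bd (n + 1) z) = 0 := by
  induction z using Finsupp.induction_linear with
  | zero => simp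
  | add f g hf hg => rw [map_add, map_add, hf, hg, add_zero]
  | single t r =>
    rw [bd_single, map_sum]
    simp only [bd_single]
    rw [← Finset.sum_product']
    refine Finset.sum_involution
      (fun (p : Fin (n + 2) × Fin (n + 1)) _ => (p.1.succAbove p.2, p.2.predAbove p.1)) ?_ ?_ ?_ ?_
    · rintro ⟨i, j⟩ -
      have h1 : (t ∘ (i.succAbove j).succAbove) ∘ (j.predAbove i).succAbove =
          (t ∘ i.succAbove) ∘ j.succAbove := by
        funext x
        simp only [Function.comp_apply]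
        rw [Fin.succAbove_succAbove_succAbove_predAbove]
      show Finsupp.single ((t ∘ i.succAbove) ∘ j.succAbove)
          (r * (-1 : R) ^ (i : ℕ) * (-1 : R) ^ (j : ℕ)) +
        Finsupp.single ((t ∘ (i.succAbove j).succAbove) ∘ (j.predAbove i).succAbove)
          (r * (-1 : R) ^ (i.succAbove j : ℕ) * (-1 : R) ^ (j.predAbove i : ℕ)) = 0
      rw [h1, ← Finsupp.single_add, mul_assoc r, mul_assoc r, SA_sign]
      have h2 : r * ((-1 : R) ^ (i : ℕ) * (-1 : R) ^ (j : ℕ)) +
          r * -((-1 : R) ^ (i : ℕ) * (-1 : R) ^ (j : ℕ)) = 0 := by ring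
      rw [h2, Finsupp.single_zero]
    · rintro ⟨i, j⟩ - - h
      have h1 : i.succAbove j = i := congrArg Prod.fst h
      exact Fin.succAbove_ne i j h1
    · rintro ⟨i, j⟩ -
      exact Finset.mem_product.2 ⟨Finset.mem_univ _, Finset.mem_univ _⟩
    · rintro ⟨i, j⟩ -
      show ((i.succAbove j).succAbove (j.predAbove i), (j.predAbove i).predAbove (i.succAbove j)) =
        (i, j)
      rcases lt_or_ge j.castSucc i with h | h
      · rw [Fin.succAbove_of_castSucc_lt _ _ h, Fin.predAbove_of_castSucc_lt _ _ h]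
        have h1 : j.castSucc ≤ (i.pred (Fin.ne_zero_of_lt h)).castSucc := by
          rw [Fin.le_def, Fin.val_castSucc, Fin.val_castSucc, Fin.val_pred]
          have : (j.castSucc : ℕ) < i := h
          rw [Fin.val_castSucc] at this
          omega
        rw [Fin.succAbove_of_le_castSucc _ _ h1, Fin.predAbove_of_le_castSucc _ _ h1,
          Fin.succ_pred, Fin.castPred_castSucc]
      · rw [Fin.succAbove_of_le_castSucc _ _ h, Fin.predAbove_of_le_castSucc _ _ h]
        have h1 : (i.castPred (Fin.ne_last_of_lt (lt_of_le_of_lt h (Fin.castSucc_lt_last j)))).castSucc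
            < j.succ := by
          rw [Fin.castSucc_castPred]
          exact lt_of_le_of_lt h (Fin.castSucc_lt_succ)
        rw [Fin.succAbove_of_castSucc_lt _ _ h1, Fin.predAbove_of_castSucc_lt _ _ h1,
          Fin.pred_succ]
        exact Prod.ext (Fin.castSucc_castPred _ _) rfl

theorem SA_cons {X : Type*} (n : ℕ) (a : X) (t : Fin (n + 1) → X) (i : Fin (n + 1)) :
    (Fin.cons a t : Fin (n + 2) → X) ∘ i.succ.succAbove =
      (Fin.cons a (t ∘ i.succAbove) : Fin (n + 1) → X) := by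
  funext x
  refine Fin.cases ?_ (fun k => ?_) x
  · simp
  · simp [Fin.succ_succAbove_succ]

theorem cone_single {X R : Type*} [CommRing R] (n : ℕ) (a : X) (t : Fin n → X) (r : R) :
    cone n a (Finsupp.single t r) = Finsupp.single (Fin.cons a t : Fin (n + 1) → X) r := by
  rw [cone, Finsupp.lmapDomain_apply, Finsupp.mapDomain_single]

theorem bd_cone {X R : Type*} [CommRing R] (n : ℕ) (a : X) (z : (Fin (n + 1) → X) →₀ R) :
    bd (n + 1) (cone (n + 1) a z) = z - cone n a (bd n z) := by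
  induction z using Finsupp.induction_linear with
  | zero => simp
  | add f g hf hg => rw [map_add, map_add, hf, hg, map_add, map_add]; abel
  | single t r =>
    rw [cone_single, bd_single, bd_single, Fin.sum_univ_succ, map_sum]
    have h1 : (Fin.cons a t : Fin (n + 2) → X) ∘ (0 : Fin (n + 2)).succAbove = t := by
      funext x
      simp
    rw [h1, Fin.val_zero, pow_zero, mul_one, sub_eq_add_neg, ← Finset.sum_neg_distrib]
    congr 1
    refine Finset.sum_congr rfl fun i _ => ?_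
    rw [SA_cons, cone_single, ← Finsupp.single_neg, Fin.val_succ, pow_succ]
    congr 1
    ring

theorem bd_cone_zero {X R : Type*} [CommRing R] (a : X) (z : (Fin 0 → X) →₀ R) :
    bd 0 (cone 0 a z) = z := by
  induction z using Finsupp.induction_linear with
  | zero => simp
  | add f g hf hg => rw [map_add, map_add, hf, hg]
  | single t r =>
    rw [cone_single, bd_single]
    rw [Fin.sum_univ_one, Fin.val_zero, pow_zero, mul_one]
    congr 1

theorem cone_support {X R : Type*} [CommRing R] (n : ℕ) (a : X) (z : (Fin n → X) →₀ R)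
    {t : Fin (n + 1) → X} (ht : t ∈ (cone n a z).support) :
    ∃ u ∈ z.support, t = Fin.cons a u := by
  classical
  rw [cone, Finsupp.lmapDomain_apply] at ht
  have h := Finsupp.mapDomain_support ht
  obtain ⟨u, hu, rfl⟩ := Finset.mem_image.1 h
  exact ⟨u, hu, rfl⟩

/-- Push forward. -/
noncomputable def SA_mp {X Y R : Type*} [CommRing R] (f : X → Y) (n : ℕ) :
    ((Fin n → X) →₀ R) →ₗ[R] ((Fin n → Y) →₀ R) :=
  Finsupp.lmapDomain R R (fun t => f ∘ t)

theorem SA_mp_single {X Y R : Type*} [CommRing R] (f : X → Y) (n : ℕ) (t : Fin n → X) (r : R) :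
    SA_mp f n (Finsupp.single t r) = Finsupp.single (f ∘ t) r := by
  rw [SA_mp, Finsupp.lmapDomain_apply, Finsupp.mapDomain_single]

theorem SA_bd_mp {X Y R : Type*} [CommRing R] (f : X → Y) (n : ℕ) (z : (Fin (n + 1) → X) →₀ R) :
    bd n (SA_mp f (n + 1) z) = SA_mp f n (bd n z) := by
  induction z using Finsupp.induction_linear with
  | zero => simp
  | add f g hf hg => rw [map_add, map_add, hf, hg, map_add, map_add]
  | single t r =>
    rw [SA_mp_single, bd_single, bd_single, map_sum]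
    refine Finset.sum_congr rfl fun i _ => ?_
    rw [SA_mp_single]
    rfl

/-- The homotopy between two maps. -/
noncomputable def SA_P {X Y R : Type*} [CommRing R] (f g : X → Y) :
    (n : ℕ) → ((Fin n → X) →₀ R) →ₗ[R] ((Fin (n + 1) → Y) →₀ R)
  | 0 => 0
  | n + 1 => Finsupp.linearCombination R (fun t : Fin (n + 1) → X =>
      cone (n + 1) (f (t 0)) (Finsupp.single (g ∘ t) 1 - Finsupp.single (f ∘ t) 1 -
        SA_P f g n (bd n (Finsupp.single t 1))))

theorem SA_P_single {X Y R : Type*} [CommRing R] (f g : X → Y) (n : ℕ) (t : Fin (n + 1) → X) :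
    SA_P (R := R) f g (n + 1) (Finsupp.single t 1) =
      cone (n + 1) (f (t 0)) (Finsupp.single (g ∘ t) 1 - Finsupp.single (f ∘ t) 1 -
        SA_P f g n (bd n (Finsupp.single t 1))) := by
  rw [SA_P, Finsupp.linearCombination_single, one_smul]

theorem SA_P_eq {X Y R : Type*} [CommRing R] (f g : X → Y) (n : ℕ)
    (z : (Fin (n + 1) → X) →₀ R) :
    bd (n + 1) (SA_P f g (n + 1) z) =
      SA_mp g (n + 1) z - SA_mp f (n + 1) z - SA_P f g n (bd n z) := by
  induction n with
  | zero =>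
    induction z using Finsupp.induction_linear with
    | zero => simp
    | add u v hu hv => simp only [map_add, hu, hv]; abel
    | single t r =>
      have h1 : (Finsupp.single t r : (Fin 1 → X) →₀ R) = r • Finsupp.single t 1 := by
        rw [Finsupp.smul_single, smul_eq_mul, mul_one]
      rw [h1]
      simp only [map_smul]
      rw [← smul_sub, ← smul_sub]
      congr 1
      rw [SA_P_single, bd_cone]
      have h2 : bd 0 (Finsupp.single (g ∘ t) (1 : R) - Finsupp.single (f ∘ t) 1 -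
          SA_P f g 0 (bd 0 (Finsupp.single t 1))) = 0 := by
        rw [map_sub, map_sub, SA_P, LinearMap.zero_apply, map_zero, sub_zero, bd_single, bd_single]
        rw [sub_eq_zero]
        refine Finset.sum_congr rfl fun i _ => ?_
        congr 1
        exact Subsingleton.elim _ _
      rw [h2, map_zero, sub_zero, SA_mp_single, SA_mp_single]
  | succ n ih =>
    induction z using Finsupp.induction_linear with
    | zero => simp
    | add u v hu hv => simp only [map_add, hu, hv]; abel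
    | single t r =>
      have h1 : (Finsupp.single t r : (Fin (n + 2) → X) →₀ R) = r • Finsupp.single t 1 := by
        rw [Finsupp.smul_single, smul_eq_mul, mul_one]
      rw [h1]
      simp only [map_smul]
      rw [← smul_sub, ← smul_sub]
      congr 1
      rw [SA_P_single, bd_cone]
      have h2 : bd (n + 1) (Finsupp.single (g ∘ t) (1 : R) - Finsupp.single (f ∘ t) 1 -
          SA_P f g (n + 1) (bd (n + 1) (Finsupp.single t 1))) = 0 := by
        rw [map_sub, map_sub, ih, bd_bd, map_zero, sub_zero, ← SA_bd_mp, ← SA_bd_mp,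
          SA_mp_single, SA_mp_single]
        abel
      rw [h2, map_zero, sub_zero, SA_mp_single, SA_mp_single]

theorem SA_bd_support {X R : Type*} [CommRing R] (n : ℕ) (u : Fin (n + 1) → X)
    {v : Fin n → X} (hv : v ∈ (bd n (Finsupp.single u (1 : R))).support) :
    ∀ i, ∃ j, v i = u j := by
  classical
  rw [bd_single] at hv
  have h := Finsupp.support_finsetSum hv
  obtain ⟨j, -, hj⟩ := Finset.mem_biUnion.1 h
  have h1 := Finset.mem_singleton.1 (Finsupp.support_single_subset hj)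
  intro i
  exact ⟨j.succAbove i, by rw [h1]; rfl⟩

theorem SA_P_support {X Y R : Type*} [CommRing R] (f g : X → Y) (n : ℕ)
    (z : (Fin n → X) →₀ R) {t : Fin (n + 1) → Y} (ht : t ∈ (SA_P f g n z).support) :
    ∃ u ∈ z.support, ∀ i, ∃ j, t i = f (u j) ∨ t i = g (u j) := by
  classical
  induction n with
  | zero =>
    rw [SA_P, LinearMap.zero_apply] at ht
    simp at ht
  | succ n ih =>
    rw [SA_P, Finsupp.linearCombination_apply, Finsupp.sum] at ht
    have h := Finsupp.support_finsetSum ht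
    obtain ⟨u, hu, hj⟩ := Finset.mem_biUnion.1 h
    have h1 := Finsupp.support_smul hj
    obtain ⟨v, hv, rfl⟩ := cone_support _ _ _ h1
    refine ⟨u, hu, fun i => ?_⟩
    refine Fin.cases ?_ (fun k => ?_) i
    · exact ⟨0, Or.inl (by simp)⟩
    · rw [Fin.cons_succ]
      rcases Finset.mem_union.1 (Finsupp.support_sub hv) with h2 | h2
      · rcases Finset.mem_union.1 (Finsupp.support_sub h2) with h3 | h3
        · have h4 := Finset.mem_singleton.1 (Finsupp.support_single_subset h3)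
          exact ⟨k, Or.inr (by rw [h4]; rfl)⟩
        · have h4 := Finset.mem_singleton.1 (Finsupp.support_single_subset h3)
          exact ⟨k, Or.inl (by rw [h4]; rfl)⟩
      · obtain ⟨u', hu', h3⟩ := ih _ h2
        obtain ⟨j, hj⟩ := h3 k
        obtain ⟨l, hl⟩ := SA_bd_support n u hu' j
        refine ⟨l, ?_⟩
        rwa [← hl]

theorem SA_mp_const {X Y R : Type*} [CommRing R] (y : Y) (n : ℕ) (z : (Fin n → X) →₀ R)
    {t : Fin n → Y} (ht : t ∈ (SA_mp (fun _ : X => y) n z).support) : t = fun _ => y := by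
  classical
  rw [SA_mp, Finsupp.lmapDomain_apply] at ht
  have h := Finsupp.mapDomain_support ht
  obtain ⟨u, hu, rfl⟩ := Finset.mem_image.1 h
  rfl

theorem SA_mp_id {X R : Type*} [CommRing R] (f : X → X) (hf : ∀ x, f x = x) (n : ℕ)
    (z : (Fin n → X) →₀ R) : SA_mp f n z = z := by
  have h1 : (fun t : Fin n → X => f ∘ t) = id := by
    funext t i
    exact hf _
  rw [SA_mp, Finsupp.lmapDomain_apply, h1, Finsupp.mapDomain_id]

theorem vr_acyclic {E R : Type*} [NormedAddCommGroup E] [NormedSpace ℝ E] [CommRing R]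
    (C : Set E) (hC : Convex ℝ C) (hne : C.Nonempty) (ε : ℝ) (hε : 0 < ε) (n : ℕ)
    (z : (Fin (n + 1) → E) →₀ R)
    (hz : ∀ t ∈ z.support, (∀ a, t a ∈ C) ∧ ∀ a b, dist (t a) (t b) < ε) (hcyc : bd n z = 0) :
    ∃ w : (Fin (n + 2) → E) →₀ R,
      (∀ t ∈ w.support, (∀ a, t a ∈ C) ∧ ∀ a b, dist (t a) (t b) < ε) ∧ bd (n + 1) w = z := by
  classical
  obtain ⟨x0, hx0⟩ := hne
  -- the maximal distance
  obtain ⟨e, he, hed⟩ : ∃ e < ε, ∀ t ∈ z.support, ∀ a b, dist (t a) (t b) ≤ e := by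
    have h1 : ∀ t ∈ z.support, ∃ e < ε, ∀ a b, dist (t a) (t b) ≤ e := by
      intro t ht
      have hne : (Finset.univ : Finset (Fin (n + 1) × Fin (n + 1))).Nonempty :=
        ⟨(0, 0), Finset.mem_univ _⟩
      refine ⟨Finset.univ.sup' hne (fun p : Fin (n + 1) × Fin (n + 1) => dist (t p.1) (t p.2)),
        ?_, fun a b => ?_⟩
      · rw [Finset.sup'_lt_iff]
        intro p _
        exact (hz t ht).2 _ _
      · exact Finset.le_sup' (fun p : Fin (n + 1) × Fin (n + 1) => dist (t p.1) (t p.2))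
          (Finset.mem_univ (a, b))
    choose! e he1 he2 using h1
    rcases z.support.eq_empty_or_nonempty with h | h
    · refine ⟨0, hε, fun t ht => ?_⟩
      rw [h] at ht
      exact absurd ht (Finset.notMem_empty t)
    · refine ⟨z.support.sup' h e, ?_, fun t ht a b => ?_⟩
      · rw [Finset.sup'_lt_iff]
        exact he1
      · exact (he2 t ht a b).trans (Finset.le_sup' e ht)
  obtain ⟨M, hM, hMd⟩ : ∃ M : ℝ, 0 ≤ M ∧ ∀ t ∈ z.support, ∀ a, dist (t a) x0 ≤ M := by
    refine ⟨∑ t ∈ z.support, ∑ a, dist (t a) x0,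
      Finset.sum_nonneg fun t _ => Finset.sum_nonneg fun a _ => dist_nonneg, fun t ht a => ?_⟩
    have h1 : dist (t a) x0 ≤ ∑ a, dist (t a) x0 :=
      Finset.single_le_sum (f := fun a => dist (t a) x0) (fun a _ => dist_nonneg)
        (Finset.mem_univ a)
    have h2 : ∑ a, dist (t a) x0 ≤ ∑ t ∈ z.support, ∑ a, dist (t a) x0 :=
      Finset.single_le_sum (f := fun t : Fin (n + 1) → E => ∑ a, dist (t a) x0)
        (fun t _ => Finset.sum_nonneg fun a _ => dist_nonneg) ht
    exact h1.trans h2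
  obtain ⟨N, hN⟩ := exists_nat_gt (M / (ε - e))
  have hN0 : (0 : ℝ) < N := lt_of_le_of_lt (div_nonneg hM (by linarith)) hN
  have hN1 : e + M / N < ε := by
    rw [div_lt_iff₀ (by linarith)] at hN
    have : M / N < ε - e := by
      rw [div_lt_iff₀ hN0]
      linarith
    linarith
  set h : ℕ → E → E := fun k x => AffineMap.lineMap x x0 ((k : ℝ) / N) with hh
  have hmem : ∀ k ≤ N, ∀ x ∈ C, h k x ∈ C := by
    intro k hk x hx
    have h1 : (k : ℝ) / N ∈ Set.Icc (0 : ℝ) 1 := by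
      refine ⟨by positivity, ?_⟩
      rw [div_le_one hN0]
      exact_mod_cast hk
    exact hC.lineMap_mem hx hx0 h1
  have hd1 : ∀ k ≤ N, ∀ x y, dist (h k x) (h k y) ≤ dist x y := by
    intro k hk x y
    have h1 : h k x - h k y = (1 - (k : ℝ) / N) • (x - y) := by
      simp only [hh, AffineMap.lineMap_apply_module]
      module
    rw [dist_eq_norm, h1, norm_smul, dist_eq_norm]
    have h2 : (k : ℝ) / N ≤ 1 := by
      rw [div_le_one hN0]
      exact_mod_cast hk
    have h3 : 0 ≤ (k : ℝ) / N := by positivity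
    rw [Real.norm_of_nonneg (by linarith)]
    exact mul_le_of_le_one_left (norm_nonneg _) (by linarith)
  have hd2 : ∀ k x, dist (h k x) (h (k + 1) x) ≤ dist x x0 / N := by
    intro k x
    have h1 : h k x - h (k + 1) x = (1 / (N : ℝ)) • (x - x0) := by
      simp only [hh, AffineMap.lineMap_apply_module]
      push_cast
      module
    rw [dist_eq_norm, h1, norm_smul, Real.norm_of_nonneg (by positivity), dist_eq_norm]
    apply le_of_eq
    ring
  -- smallness of the homotopies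
  have hsmall : ∀ k < N, ∀ t ∈ (SA_P (h k) (h (k + 1)) (n + 1) z).support,
      (∀ a, t a ∈ C) ∧ ∀ a b, dist (t a) (t b) < ε := by
    intro k hk t ht
    obtain ⟨u, hu, hut⟩ := SA_P_support _ _ _ _ ht
    have hC' := (hz u hu).1
    refine ⟨fun a => ?_, fun a b => ?_⟩
    · obtain ⟨j, hj | hj⟩ := hut a
      · rw [hj]
        exact hmem k hk.le _ (hC' j)
      · rw [hj]
        exact hmem (k + 1) hk _ (hC' j)
    · obtain ⟨j, hj⟩ := hut a
      obtain ⟨l, hl⟩ := hut b
      have e1 := hd1 k hk.le (u j) (u l)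
      have e2 := hd1 (k + 1) hk (u j) (u l)
      have e3 := hed u hu j l
      have e4 := hd2 k (u j)
      have e5 := hd2 k (u l)
      have e6 : dist (u j) x0 / N ≤ M / N := div_le_div_of_nonneg_right (hMd u hu j) hN0.le
      have e7 : dist (u l) x0 / N ≤ M / N := div_le_div_of_nonneg_right (hMd u hu l) hN0.le
      have e8 : 0 ≤ M / N := div_nonneg hM hN0.le
      rcases hj with hj | hj <;> rcases hl with hl | hl <;> rw [hj, hl]
      · linarith
      · have := dist_triangle (h k (u j)) (h k (u l)) (h (k + 1) (u l))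
        linarith
      · have := dist_triangle_left (h (k + 1) (u j)) (h k (u l)) (h k (u j))
        linarith
      · linarith
  -- the homotopy step
  have hstep : ∀ k ≤ N, ∃ w : (Fin (n + 2) → E) →₀ R,
      (∀ t ∈ w.support, (∀ a, t a ∈ C) ∧ ∀ a b, dist (t a) (t b) < ε) ∧
        bd (n + 1) w = SA_mp (h k) (n + 1) z - z := by
    intro k
    induction k with
    | zero =>
      intro _
      refine ⟨0, fun t ht => absurd ht (by simp), ?_⟩
      rw [map_zero, SA_mp_id (h 0) (fun x => by simp [hh]), sub_self]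
    | succ k ih =>
      intro hk
      obtain ⟨w, hw, hw'⟩ := ih (by omega)
      refine ⟨w + SA_P (h k) (h (k + 1)) (n + 1) z, fun t ht => ?_, ?_⟩
      · rcases Finset.mem_union.1 (Finsupp.support_add ht) with h1 | h1
        · exact hw t h1
        · exact hsmall k (by omega) t h1
      · rw [map_add, hw', SA_P_eq, hcyc, map_zero]
        abel
  obtain ⟨w, hw, hw'⟩ := hstep N le_rfl
  have hconst : h N = fun _ => x0 := by
    funext x
    simp only [hh]
    rw [div_self hN0.ne', AffineMap.lineMap_apply_one]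
  have hcN : bd n (SA_mp (h N) (n + 1) z) = 0 := by
    rw [SA_bd_mp, hcyc, map_zero]
  refine ⟨cone (n + 1) x0 (SA_mp (h N) (n + 1) z) - w, fun t ht => ?_, ?_⟩
  · rcases Finset.mem_union.1 (Finsupp.support_sub ht) with h1 | h1
    · obtain ⟨u, hu, rfl⟩ := cone_support _ _ _ h1
      rw [hconst] at hu
      have h2 := SA_mp_const _ _ _ hu
      have h3 : ∀ a, (Fin.cons x0 u : Fin (n + 2) → E) a = x0 := by
        intro a
        refine Fin.cases ?_ (fun k => ?_) a
        · simp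
        · rw [Fin.cons_succ, h2]
      refine ⟨fun a => ?_, fun a b => ?_⟩
      · rw [h3]
        exact hx0
      · rw [h3, h3, dist_self]
        exact hε
    · exact hw t h1
  · rw [map_sub, bd_cone, hcN, map_zero, sub_zero, hw']
    abel

end Pool.H54.UB

end S_SA

section S_SB

/-!
# Row SB: the subdivision chain map and a chain homotopy

`exists_subdiv`: recursion on `n` (choice): `T 0 t = t`, `T 1 t = t`; given `T` up to `n ≥ 1`, for a
tuple `t : Fin (n+1) → E` the chain `z = ∑_j (-1)^j T n (t ∘ δ_j)` is a cycle (`bd T n = ∑ T (n-1)`,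
double sum cancels as in `bd_bd`) supported on tuples with entries in `convexHull (range t)` and
pairwise distances `< ε`; take `T (n+1) t = w` from `vr_acyclic` for `C = convexHull ℝ (range t)`.
To organise the recursion: construct by `Nat.rec` the pair (function, properties), or show by
induction on `N` the existence of `T` with the properties for `n ≤ N` in a subtype with dependent
choice.

`exists_homotopy`: recursion on `n`: `D 0 = 0`,
`D (n+1) t = cone (t 0) (T' (n+1) t - single t 1 - ∑_j (-1)^j D n (t ∘ δ_j))`; the chain in the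
bracket is a cycle (formal computation with the induction hypothesis; for `n = 0` use `h0`), so
`bd (D (n+1) t) = ` the bracket by `bd_cone`.  Supports: entries in `range t`.
-/

namespace Pool.H54.UB

open Finset

theorem SB_alt {X R M : Type*} [CommRing R] [AddCommGroup M] [Module R M] (n : ℕ)
    (G : (Fin n → X) → M) (t : Fin (n + 2) → X) :
    ∑ j : Fin (n + 2), ((-1 : R) ^ (j : ℕ)) • ∑ i : Fin (n + 1), ((-1 : R) ^ (i : ℕ)) •
      G ((t ∘ j.succAbove) ∘ i.succAbove) = 0 := by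
  have h := bd_bd n (Finsupp.single t (1 : R))
  rw [bd_single, map_sum] at h
  have h2 := congrArg (Finsupp.linearCombination R G) h
  rw [map_zero, map_sum] at h2
  rw [← h2]
  refine Finset.sum_congr rfl fun j _ => ?_
  rw [bd_single, map_sum, Finset.smul_sum]
  refine Finset.sum_congr rfl fun i _ => ?_
  rw [Finsupp.linearCombination_single, one_mul, smul_smul]

open Classical in
/-- the subdivision -/
noncomputable def SB_T (E R : Type*) [NormedAddCommGroup E] [NormedSpace ℝ E] [CommRing R]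
    (ε : ℝ) : ∀ n : ℕ, (Fin n → E) → ((Fin n → E) →₀ R)
  | 0, t => Finsupp.single t 1
  | 1, t => Finsupp.single t 1
  | n + 2, t =>
    if h : ∃ w : (Fin (n + 2) → E) →₀ R, (∀ u ∈ w.support,
        (∀ a, u a ∈ convexHull ℝ (Set.range t)) ∧ ∀ a b, dist (u a) (u b) < ε) ∧
        bd (n + 1) w = ∑ j : Fin (n + 2), ((-1 : R) ^ (j : ℕ)) •
          SB_T E R ε (n + 1) (t ∘ j.succAbove)
    then h.choose else 0

theorem SB_supp1 {E R : Type*} [NormedAddCommGroup E] [NormedSpace ℝ E] [CommRing R]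
    {ε : ℝ} (hε : 0 < ε) {n : ℕ} (hn : n ≤ 1) (t : Fin n → E) (r : R)
    (u : Fin n → E) (hu : u ∈ (Finsupp.single t r).support) :
    (∀ a, u a ∈ convexHull ℝ (Set.range t)) ∧ ∀ a b, dist (u a) (u b) < ε := by
  have h1 : u = t := by
    by_contra hne
    rw [Finsupp.mem_support_iff, Finsupp.single_eq_of_ne hne] at hu
    exact hu rfl
  subst h1
  refine ⟨fun a => subset_convexHull ℝ _ ⟨a, rfl⟩, fun a b => ?_⟩
  have h2 : a = b := by
    apply Fin.ext
    have := a.2
    have := b.2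
    omega
  rw [h2, dist_self]
  exact hε

theorem SB_main {E R : Type*} [NormedAddCommGroup E] [NormedSpace ℝ E] [CommRing R]
    (ε : ℝ) (hε : 0 < ε) (n : ℕ) :
    (∀ t : Fin (n + 1) → E, ∀ u ∈ (SB_T E R ε (n + 1) t).support,
        (∀ a, u a ∈ convexHull ℝ (Set.range t)) ∧ ∀ a b, dist (u a) (u b) < ε) ∧
      ∀ t : Fin (n + 1) → E, bd n (SB_T E R ε (n + 1) t) =
        ∑ j : Fin (n + 1), ((-1 : R) ^ (j : ℕ)) • SB_T E R ε n (t ∘ j.succAbove) := by
  induction n with
  | zero =>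
    constructor
    · intro t u hu
      unfold SB_T at hu
      exact SB_supp1 hε le_rfl t 1 u hu
    · intro t
      unfold SB_T
      rw [bd_single]
      refine Finset.sum_congr rfl fun j _ => ?_
      rw [Finsupp.smul_single, smul_eq_mul, mul_one, one_mul]
  | succ n ih =>
    obtain ⟨ih1, ih2⟩ := ih
    have key : ∀ t : Fin (n + 2) → E, ∃ w : (Fin (n + 2) → E) →₀ R, (∀ u ∈ w.support,
        (∀ a, u a ∈ convexHull ℝ (Set.range t)) ∧ ∀ a b, dist (u a) (u b) < ε) ∧
        bd (n + 1) w = ∑ j : Fin (n + 2), ((-1 : R) ^ (j : ℕ)) •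
          SB_T E R ε (n + 1) (t ∘ j.succAbove) := by
      intro t
      apply vr_acyclic (convexHull ℝ (Set.range t)) (convex_convexHull ℝ _)
        ⟨t 0, subset_convexHull ℝ _ ⟨0, rfl⟩⟩ ε hε n
      · have hmem : (∑ j : Fin (n + 2), ((-1 : R) ^ (j : ℕ)) •
            SB_T E R ε (n + 1) (t ∘ j.succAbove)) ∈ Finsupp.supported R R
            {u : Fin (n + 1) → E | (∀ a, u a ∈ convexHull ℝ (Set.range t)) ∧
              ∀ a b, dist (u a) (u b) < ε} := by
          apply Submodule.sum_mem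
          intro j _
          apply Submodule.smul_mem
          rw [Finsupp.mem_supported]
          intro u hu
          obtain ⟨h1, h2⟩ := ih1 _ u hu
          refine ⟨fun a => ?_, h2⟩
          exact convexHull_mono (Set.range_comp_subset_range _ _) (h1 a)
        rw [Finsupp.mem_supported] at hmem
        intro u hu
        exact hmem hu
      · rw [map_sum]
        have h3 := SB_alt (R := R) n (SB_T E R ε n) t
        rw [← h3]
        refine Finset.sum_congr rfl fun j _ => ?_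
        rw [map_smul, ih2]
    constructor
    · intro t u hu
      have h := key t
      unfold SB_T at hu
      rw [dif_pos h] at hu
      exact h.choose_spec.1 u hu
    · intro t
      have h := key t
      have h4 : SB_T E R ε (n + 1 + 1) t = h.choose := by
        rw [SB_T]
        exact dif_pos h
      rw [h4]
      exact h.choose_spec.2

/-- the homotopy -/
noncomputable def SB_D {V R : Type*} [CommRing R] (T' : ∀ n : ℕ, (Fin n → V) → ((Fin n → V) →₀ R)) :
    ∀ n : ℕ, (Fin n → V) → ((Fin (n + 1) → V) →₀ R)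
  | 0, _ => 0
  | n + 1, t => cone (n + 1) (t 0) (T' (n + 1) t - Finsupp.single t 1 -
      ∑ j : Fin (n + 1), ((-1 : R) ^ (j : ℕ)) • SB_D T' n (t ∘ j.succAbove))

theorem SB_hom {V R : Type*} [CommRing R] (Tp : ∀ n : ℕ, (Fin n → V) → Prop)
    (hTp : ∀ n t, Tp (n + 1) t → ∀ j : Fin (n + 1), Tp n (t ∘ j.succAbove))
    (T' : ∀ n : ℕ, (Fin n → V) → ((Fin n → V) →₀ R))
    (h0 : ∀ t, T' 0 t = Finsupp.single t 1)
    (hsupp : ∀ n t, Tp (n + 1) t → ∀ u ∈ (T' (n + 1) t).support, ∀ a, u a ∈ Set.range t)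
    (hbd : ∀ n t, Tp (n + 1) t → bd n (T' (n + 1) t) =
      ∑ j : Fin (n + 1), ((-1 : R) ^ (j : ℕ)) • T' n (t ∘ j.succAbove)) (n : ℕ) :
    ∀ t, Tp (n + 1) t → (∀ u ∈ (SB_D T' (n + 1) t).support, ∀ a, u a ∈ Set.range t) ∧
        bd (n + 1) (SB_D T' (n + 1) t) +
            ∑ j : Fin (n + 1), ((-1 : R) ^ (j : ℕ)) • SB_D T' n (t ∘ j.succAbove)
          = T' (n + 1) t - Finsupp.single t 1 := by
  induction n with
  | zero =>
    intro t ht
    have hB : bd 0 (T' 1 t - Finsupp.single t 1 -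
        ∑ j : Fin 1, ((-1 : R) ^ (j : ℕ)) • SB_D T' 0 (t ∘ j.succAbove)) = 0 := by
      have hz : ∀ s : Fin 0 → V, SB_D T' 0 s = 0 := fun s => rfl
      simp only [hz, smul_zero, Finset.sum_const_zero, sub_zero]
      rw [map_sub, hbd 0 t ht, bd_single, sub_eq_zero]
      refine Finset.sum_congr rfl fun j _ => ?_
      rw [h0, Finsupp.smul_single, smul_eq_mul, mul_one, one_mul]
    constructor
    · intro u hu
      have hu' : u ∈ (cone 1 (t 0) (T' 1 t - Finsupp.single t 1 -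
        ∑ j : Fin 1, ((-1 : R) ^ (j : ℕ)) • SB_D T' 0 (t ∘ j.succAbove))).support := hu
      obtain ⟨v, hv, rfl⟩ := cone_support _ _ _ hu'
      have hmem : (T' 1 t - Finsupp.single t 1 -
          ∑ j : Fin 1, ((-1 : R) ^ (j : ℕ)) • SB_D T' 0 (t ∘ j.succAbove)) ∈
          Finsupp.supported R R {u : Fin 1 → V | ∀ a, u a ∈ Set.range t} := by
        apply Submodule.sub_mem
        · apply Submodule.sub_mem
          · rw [Finsupp.mem_supported]
            exact fun u hu => hsupp 0 t ht u hu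
          · apply Finsupp.single_mem_supported
            exact fun a => ⟨a, rfl⟩
        · apply Submodule.sum_mem
          intro j _
          apply Submodule.smul_mem
          exact Submodule.zero_mem _
      rw [Finsupp.mem_supported] at hmem
      intro a
      refine Fin.cases ?_ (fun b => ?_) a
      · exact ⟨0, rfl⟩
      · rw [Fin.cons_succ]
        exact hmem hv b
    · show bd (0 + 1) (cone (0 + 1) (t 0) (T' (0 + 1) t - Finsupp.single t 1 -
        ∑ j : Fin (0 + 1), ((-1 : R) ^ (j : ℕ)) • SB_D T' 0 (t ∘ j.succAbove))) + _ = _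
      rw [bd_cone, hB, map_zero, sub_zero, sub_add_cancel]
  | succ n ih =>
    intro t ht
    have hB : bd (n + 1) (T' (n + 2) t - Finsupp.single t 1 -
        ∑ j : Fin (n + 2), ((-1 : R) ^ (j : ℕ)) • SB_D T' (n + 1) (t ∘ j.succAbove)) = 0 := by
      have h1 : ∀ j : Fin (n + 2), bd (n + 1) (SB_D T' (n + 1) (t ∘ j.succAbove)) =
          T' (n + 1) (t ∘ j.succAbove) - Finsupp.single (t ∘ j.succAbove) 1 -
            ∑ i : Fin (n + 1), ((-1 : R) ^ (i : ℕ)) • SB_D T' n ((t ∘ j.succAbove) ∘ i.succAbove) :=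
        fun j => eq_sub_of_add_eq (ih _ (hTp _ t ht j)).2
      rw [map_sub, map_sub, hbd (n + 1) t ht, bd_single, map_sum]
      simp only [map_smul, h1, smul_sub, Finset.sum_sub_distrib]
      rw [SB_alt n (SB_D T' n) t, sub_zero]
      have h2 : ∑ x : Fin (n + 2), ((-1 : R) ^ (x : ℕ)) • Finsupp.single (t ∘ x.succAbove) (1 : R) =
          ∑ x : Fin (n + 2), Finsupp.single (t ∘ x.succAbove) (1 * (-1 : R) ^ (x : ℕ)) := by
        refine Finset.sum_congr rfl fun j _ => ?_
        rw [Finsupp.smul_single, smul_eq_mul, mul_one, one_mul]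
      rw [h2]
      abel
    constructor
    · intro u hu
      have hu' : u ∈ (cone (n + 2) (t 0) (T' (n + 2) t - Finsupp.single t 1 -
        ∑ j : Fin (n + 2), ((-1 : R) ^ (j : ℕ)) • SB_D T' (n + 1) (t ∘ j.succAbove))).support := hu
      obtain ⟨v, hv, rfl⟩ := cone_support _ _ _ hu'
      have hmem : (T' (n + 2) t - Finsupp.single t 1 -
          ∑ j : Fin (n + 2), ((-1 : R) ^ (j : ℕ)) • SB_D T' (n + 1) (t ∘ j.succAbove)) ∈
          Finsupp.supported R R {u : Fin (n + 2) → V | ∀ a, u a ∈ Set.range t} := by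
        apply Submodule.sub_mem
        · apply Submodule.sub_mem
          · rw [Finsupp.mem_supported]
            exact fun u hu => hsupp (n + 1) t ht u hu
          · apply Finsupp.single_mem_supported
            exact fun a => ⟨a, rfl⟩
        · apply Submodule.sum_mem
          intro j _
          apply Submodule.smul_mem
          rw [Finsupp.mem_supported]
          intro u hu a
          exact Set.range_comp_subset_range _ _ ((ih _ (hTp _ t ht j)).1 u hu a)
      rw [Finsupp.mem_supported] at hmem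
      intro a
      refine Fin.cases ?_ (fun b => ?_) a
      · exact ⟨0, rfl⟩
      · rw [Fin.cons_succ]
        exact hmem hv b
    · show bd (n + 1 + 1) (cone (n + 1 + 1) (t 0) (T' (n + 1 + 1) t - Finsupp.single t 1 -
        ∑ j : Fin (n + 1 + 1), ((-1 : R) ^ (j : ℕ)) • SB_D T' (n + 1) (t ∘ j.succAbove))) + _ = _
      rw [bd_cone, hB, map_zero, sub_zero, sub_add_cancel]

theorem exists_subdiv {E R : Type*} [NormedAddCommGroup E] [NormedSpace ℝ E] [CommRing R]
    (ε : ℝ) (hε : 0 < ε) :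
    ∃ T : ∀ n : ℕ, (Fin n → E) → ((Fin n → E) →₀ R),
      (∀ n t, ∀ u ∈ (T n t).support,
        (∀ a, u a ∈ convexHull ℝ (Set.range t)) ∧ ∀ a b, dist (u a) (u b) < ε) ∧
      (∀ t, T 0 t = Finsupp.single t 1) ∧ (∀ t, T 1 t = Finsupp.single t 1) ∧
      ∀ n t, bd n (T (n + 1) t) =
        ∑ j : Fin (n + 1), ((-1 : R) ^ (j : ℕ)) • T n (t ∘ j.succAbove) := by
  refine ⟨SB_T E R ε, ?_, fun t => rfl, fun t => rfl, fun n => (SB_main ε hε n).2⟩
  intro n t
  cases n with
  | zero =>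
    intro u hu
    exact SB_supp1 hε (Nat.zero_le 1) t 1 u hu
  | succ n => exact (SB_main ε hε n).1 t

theorem exists_homotopy {V R : Type*} [CommRing R] (Tp : ∀ n : ℕ, (Fin n → V) → Prop)
    (hTp : ∀ n t, Tp (n + 1) t → ∀ j : Fin (n + 1), Tp n (t ∘ j.succAbove))
    (T' : ∀ n : ℕ, (Fin n → V) → ((Fin n → V) →₀ R))
    (h0 : ∀ t, T' 0 t = Finsupp.single t 1)
    (hsupp : ∀ n t, Tp (n + 1) t → ∀ u ∈ (T' (n + 1) t).support, ∀ a, u a ∈ Set.range t)
    (hbd : ∀ n t, Tp (n + 1) t → bd n (T' (n + 1) t) =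
      ∑ j : Fin (n + 1), ((-1 : R) ^ (j : ℕ)) • T' n (t ∘ j.succAbove)) :
    ∃ D : ∀ n : ℕ, (Fin n → V) → ((Fin (n + 1) → V) →₀ R),
      (∀ n t, Tp (n + 1) t → ∀ u ∈ (D (n + 1) t).support, ∀ a, u a ∈ Set.range t) ∧
      (∀ t, D 0 t = 0) ∧
      ∀ n t, Tp (n + 1) t →
        bd (n + 1) (D (n + 1) t) + ∑ j : Fin (n + 1), ((-1 : R) ^ (j : ℕ)) • D n (t ∘ j.succAbove)
          = T' (n + 1) t - Finsupp.single t 1 := by
  have h := SB_hom Tp hTp T' h0 hsupp hbd
  exact ⟨SB_D T', fun n t ht => (h n t ht).1, fun t => rfl, fun n t ht => (h n t ht).2⟩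

end Pool.H54.UB

end S_SB

section S_SC

/-!
# Row SC: cochain homotopy between two vertex maps

`mix f g t k : Fin (i+2) → V` is the tuple `(f t_0, .., f t_k, g t_k, .., g t_i)`.
Put `β v = ∑_{k : Fin i} (-1)^k c (f v_0, .., f v_k, g v_k, .., g v_{i-1})` (this is `c (mix f g v k)`
for `v : Fin i → X`, up to the sign conventions).  Then (formal prism identity)
`∑_j (-1)^j β (t ∘ δ_j) = ± (c (g ∘ t) - c (f ∘ t)) - ∑_k (-1)^k (δ c) (mix f g t k)`
(find the right signs), so if `δ c` vanishes on all `mix f g t k` the function `± β` does the job.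
For `i = 0` the claim is `c (g t_0) = c (f t_0)`.
-/

namespace Pool.H54.UB

open Finset

/-- The mixed tuple `(f t_0, .., f t_k, g t_k, .., g t_i)`. -/
def mix {X V : Type*} {i : ℕ} (f g : X → V) (t : Fin (i + 1) → X) (k : Fin (i + 1)) :
    Fin (i + 2) → V :=
  fun a => if h : (a : ℕ) ≤ k then f (t ⟨a, by omega⟩) else g (t ⟨(a : ℕ) - 1, by omega⟩)

theorem SC_sum {R : Type*} [CommRing R] (i : ℕ) (P : ℕ → ℕ → R) (N : ℕ → R)
    (h1 : ∀ k, P k k = N k) (h2 : ∀ k, P k (k + 1) = N (k + 1)) :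
    ∑ k ∈ range (i + 1), (-1 : R) ^ k * ∑ j ∈ range (i + 2), (-1 : R) ^ j * P k j =
      N 0 - N (i + 1) - ∑ j ∈ range (i + 1), (-1 : R) ^ j *
        ∑ k ∈ range i, (-1 : R) ^ k * (if j ≤ k then P (k + 1) j else P k (j + 1)) := by
  -- the left hand side
  have hL : ∑ k ∈ range (i + 1), (-1 : R) ^ k * ∑ j ∈ range (i + 2), (-1 : R) ^ j * P k j =
      (∑ k ∈ range (i + 1), ∑ j ∈ range (i + 2),
        if j < k then (-1 : R) ^ (k + j) * P k j else 0) +
      (∑ k ∈ range (i + 1), ∑ j ∈ range (i + 2),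
        if j = k then (-1 : R) ^ (k + j) * P k j else 0) +
      (∑ k ∈ range (i + 1), ∑ j ∈ range (i + 2),
        if j = k + 1 then (-1 : R) ^ (k + j) * P k j else 0) +
      (∑ k ∈ range (i + 1), ∑ j ∈ range (i + 2),
        if k + 1 < j then (-1 : R) ^ (k + j) * P k j else 0) := by
    simp only [← Finset.sum_add_distrib, Finset.mul_sum]
    refine Finset.sum_congr rfl fun k _ => Finset.sum_congr rfl fun j _ => ?_
    rw [← mul_assoc, ← pow_add]
    rcases lt_trichotomy j k with h | h | h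
    · rw [if_pos h, if_neg (by omega), if_neg (by omega), if_neg (by omega)]
      ring
    · rw [if_neg (by omega), if_pos h, if_neg (by omega), if_neg (by omega)]
      ring
    · rcases Nat.lt_or_ge (k + 1) j with h' | h'
      · rw [if_neg (by omega), if_neg (by omega), if_neg (by omega), if_pos h']
        ring
      · rw [if_neg (by omega), if_neg (by omega), if_pos (by omega), if_neg (by omega)]
        ring
  have hX2 : (∑ k ∈ range (i + 1), ∑ j ∈ range (i + 2),
        if j = k then (-1 : R) ^ (k + j) * P k j else 0) = ∑ k ∈ range (i + 1), N k := by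
    refine Finset.sum_congr rfl fun k hk => ?_
    rw [Finset.sum_ite_eq', if_pos (by rw [Finset.mem_range] at hk ⊢; omega), h1, ← two_mul,
      pow_mul]
    simp
  have hX3 : (∑ k ∈ range (i + 1), ∑ j ∈ range (i + 2),
        if j = k + 1 then (-1 : R) ^ (k + j) * P k j else 0) =
        - ∑ k ∈ range (i + 1), N (k + 1) := by
    rw [← Finset.sum_neg_distrib]
    refine Finset.sum_congr rfl fun k hk => ?_
    rw [Finset.sum_ite_eq', if_pos (by rw [Finset.mem_range] at hk ⊢; omega), h2,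
      show k + (k + 1) = 2 * k + 1 by ring, pow_succ, pow_mul]
    simp
  have hN : (∑ k ∈ range (i + 1), N k) + (- ∑ k ∈ range (i + 1), N (k + 1)) =
      N 0 - N (i + 1) := by
    rw [← sub_eq_add_neg, ← Finset.sum_sub_distrib, Finset.sum_range_sub']
  -- the right hand side
  have hR : ∑ j ∈ range (i + 1), (-1 : R) ^ j *
        ∑ k ∈ range i, (-1 : R) ^ k * (if j ≤ k then P (k + 1) j else P k (j + 1)) =
      (∑ k ∈ range i, ∑ j ∈ range (i + 1),
        if j < k + 1 then (-1 : R) ^ (k + j) * P (k + 1) j else 0) +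
      ∑ k ∈ range i, ∑ j ∈ range (i + 1),
        if k < j then (-1 : R) ^ (k + j) * P k (j + 1) else 0 := by
    simp only [Finset.mul_sum]
    rw [Finset.sum_comm, ← Finset.sum_add_distrib]
    refine Finset.sum_congr rfl fun k _ => ?_
    rw [← Finset.sum_add_distrib]
    refine Finset.sum_congr rfl fun j _ => ?_
    rw [← mul_assoc, ← pow_add, add_comm j k]
    rcases Nat.lt_or_ge k j with h | h
    · rw [if_neg (by omega), if_neg (by omega), if_pos h]
      ring
    · rw [if_pos h, if_pos (by omega), if_neg (by omega)]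
      ring
  have hX1 : (∑ k ∈ range (i + 1), ∑ j ∈ range (i + 2),
        if j < k then (-1 : R) ^ (k + j) * P k j else 0) =
      - ∑ k ∈ range i, ∑ j ∈ range (i + 1),
        if j < k + 1 then (-1 : R) ^ (k + j) * P (k + 1) j else 0 := by
    rw [Finset.sum_range_succ']
    have e0 : (∑ j ∈ range (i + 2), if j < 0 then (-1 : R) ^ (0 + j) * P 0 j else 0) = 0 :=
      Finset.sum_eq_zero fun j _ => if_neg (by omega)
    rw [e0, add_zero, ← Finset.sum_neg_distrib]
    refine Finset.sum_congr rfl fun k hk => ?_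
    rw [Finset.mem_range] at hk
    rw [Finset.sum_range_succ, if_neg (by omega : ¬ i + 1 < k + 1), add_zero,
      ← Finset.sum_neg_distrib]
    refine Finset.sum_congr rfl fun j _ => ?_
    by_cases h : j < k + 1
    · rw [if_pos h, if_pos h, show k + 1 + j = (k + j) + 1 by ring, pow_succ]
      ring
    · rw [if_neg h, if_neg h, neg_zero]
  have hX4 : (∑ k ∈ range (i + 1), ∑ j ∈ range (i + 2),
        if k + 1 < j then (-1 : R) ^ (k + j) * P k j else 0) =
      - ∑ k ∈ range i, ∑ j ∈ range (i + 1),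
        if k < j then (-1 : R) ^ (k + j) * P k (j + 1) else 0 := by
    rw [Finset.sum_range_succ]
    have e0 : (∑ j ∈ range (i + 2), if i + 1 < j then (-1 : R) ^ (i + j) * P i j else 0) = 0 :=
      Finset.sum_eq_zero fun j hj => if_neg (by rw [Finset.mem_range] at hj; omega)
    rw [e0, add_zero, ← Finset.sum_neg_distrib]
    refine Finset.sum_congr rfl fun k hk => ?_
    rw [Finset.sum_range_succ', if_neg (by omega : ¬ k + 1 < 0), add_zero,
      ← Finset.sum_neg_distrib]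
    refine Finset.sum_congr rfl fun j _ => ?_
    by_cases h : k < j
    · rw [if_pos h, if_pos (by omega), show k + (j + 1) = (k + j) + 1 by ring, pow_succ]
      ring
    · rw [if_neg h, if_neg (by omega), neg_zero]
  rw [hL, hR, hX1, hX2, hX3, hX4, ← hN]
  ring

/-- the mixed tuple with an omitted entry, indices in the natural numbers -/
def SC_P {X V R : Type*} {i : ℕ} (f g : X → V) (c : (Fin (i + 1) → V) → R)
    (T : ℕ → X) (k j : ℕ) : R :=
  c fun a : Fin (i + 1) =>
    if (if (a : ℕ) < j then (a : ℕ) else (a : ℕ) + 1) ≤ k then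
      f (T (if (a : ℕ) < j then (a : ℕ) else (a : ℕ) + 1))
    else g (T ((if (a : ℕ) < j then (a : ℕ) else (a : ℕ) + 1) - 1))

/-- the mixed tuple without repetition -/
def SC_N {X V R : Type*} {i : ℕ} (f g : X → V) (c : (Fin (i + 1) → V) → R)
    (T : ℕ → X) (k : ℕ) : R :=
  c fun a : Fin (i + 1) => if (a : ℕ) < k then f (T a) else g (T a)

theorem SC_PN {X V R : Type*} {i : ℕ} (f g : X → V) (c : (Fin (i + 1) → V) → R)
    (T : ℕ → X) (k : ℕ) : SC_P f g c T k k = SC_N f g c T k := by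
  rw [SC_P, SC_N]
  congr 1
  funext a
  by_cases h : (a : ℕ) < k
  · rw [if_pos h, if_pos h, if_pos h.le]
  · rw [if_neg h, if_neg h, if_neg (by omega), Nat.add_sub_cancel]

theorem SC_PN' {X V R : Type*} {i : ℕ} (f g : X → V) (c : (Fin (i + 1) → V) → R)
    (T : ℕ → X) (k : ℕ) : SC_P f g c T k (k + 1) = SC_N f g c T (k + 1) := by
  rw [SC_P, SC_N]
  congr 1
  funext a
  by_cases h : (a : ℕ) < k + 1
  · rw [if_pos h, if_pos h, if_pos (by omega)]
  · rw [if_neg h, if_neg h, if_neg (by omega), Nat.add_sub_cancel]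

theorem SC_val {n : ℕ} (j : Fin (n + 1)) (a : Fin n) :
    ((j.succAbove a : Fin (n + 1)) : ℕ) = if (a : ℕ) < j then (a : ℕ) else (a : ℕ) + 1 := by
  by_cases h : (a : ℕ) < j
  · rw [if_pos h, Fin.succAbove_of_castSucc_lt j a (by rw [Fin.lt_def]; simpa using h)]
    rfl
  · rw [if_neg h, Fin.succAbove_of_le_castSucc j a (by
      rw [Fin.le_def]; simpa using not_lt.1 h)]
    rfl

theorem SC_mix {X V R : Type*} {i : ℕ} (f g : X → V) (c : (Fin (i + 1) → V) → R)
    (t : Fin (i + 1) → X) (T : ℕ → X) (hT : ∀ a : Fin (i + 1), T a = t a) (k : Fin (i + 1))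
    (j : Fin (i + 2)) : c (mix f g t k ∘ j.succAbove) = SC_P f g c T k j := by
  rw [SC_P]
  congr 1
  funext a
  have hv := SC_val j a
  simp only [Function.comp_apply, mix, hv]
  have ha := a.2
  have hk := k.2
  by_cases h : (if (a : ℕ) < j then (a : ℕ) else (a : ℕ) + 1) ≤ k
  · rw [dif_pos h, if_pos h]
    congr 1
    exact (hT ⟨_, _⟩).symm
  · rw [dif_neg h, if_neg h]
    congr 1
    exact (hT ⟨_, _⟩).symm

/-- the prism cochain -/
def SC_m {X V : Type*} {i : ℕ} (f g : X → V) (v : Fin i → X) (k : Fin i) :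
    Fin (i + 1) → V :=
  fun a => if h : (a : ℕ) ≤ k then f (v ⟨a, by omega⟩) else g (v ⟨(a : ℕ) - 1, by omega⟩)

theorem SC_face {X V R : Type*} {i : ℕ} (f g : X → V) (c : (Fin (i + 1) → V) → R)
    (t : Fin (i + 1) → X) (T : ℕ → X) (hT : ∀ a : Fin (i + 1), T a = t a) (k : Fin i)
    (j : Fin (i + 1)) : c (SC_m f g (t ∘ j.succAbove) k) =
      if (j : ℕ) ≤ k then SC_P f g c T (k + 1) j else SC_P f g c T k (j + 1) := by
  have hk := k.2
  have hval : ∀ b : Fin i, t (j.succAbove b) =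
      T (if (b : ℕ) < j then (b : ℕ) else (b : ℕ) + 1) := fun b => by
    rw [← hT, SC_val]
  by_cases hjk : (j : ℕ) ≤ k
  · rw [if_pos hjk, SC_P]
    congr 1
    funext a
    have ha := a.2
    simp only [SC_m, Function.comp_apply]
    by_cases h : (a : ℕ) ≤ k
    · rw [dif_pos h, hval]
      by_cases h3 : (a : ℕ) < j
      · rw [if_pos h3, if_pos (show (a : ℕ) ≤ k + 1 by omega)]
      · rw [if_neg h3, if_pos (show (a : ℕ) + 1 ≤ k + 1 by omega)]
    · rw [dif_neg h, hval]
      have e1 : ¬ (a : ℕ) < j := by omega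
      have e2 : ¬ (a : ℕ) - 1 < j := by omega
      rw [if_neg e1, if_neg e2, if_neg (by omega)]
      congr 2
      show (a : ℕ) - 1 + 1 = (a : ℕ) + 1 - 1
      omega
  · rw [if_neg hjk, SC_P]
    congr 1
    funext a
    have ha := a.2
    simp only [SC_m, Function.comp_apply]
    by_cases h : (a : ℕ) ≤ k
    · rw [dif_pos h, hval]
      have e1 : (a : ℕ) < j := by omega
      have e2 : (a : ℕ) < j + 1 := by omega
      rw [if_pos e1, if_pos e2, if_pos h]
    · rw [dif_neg h, hval]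
      by_cases h3 : (a : ℕ) < j + 1
      · have e1 : (a : ℕ) - 1 < j := by omega
        rw [if_pos h3, if_pos e1, if_neg h]
      · have e1 : ¬ (a : ℕ) - 1 < j := by omega
        rw [if_neg h3, if_neg e1, if_neg (by omega)]
        congr 2
        show (a : ℕ) - 1 + 1 = (a : ℕ) + 1 - 1
        omega

theorem cochain_homotopy {X V R : Type*} [CommRing R] (i : ℕ) (f g : X → V)
    (c : (Fin (i + 1) → V) → R) :
    ∃ β : (Fin i → X) → R, ∀ t : Fin (i + 1) → X,
      (∀ k : Fin (i + 1), ∑ j : Fin (i + 2), (-1 : R) ^ (j : ℕ) * c (mix f g t k ∘ j.succAbove) = 0) →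
      c (g ∘ t) - c (f ∘ t) = ∑ j : Fin (i + 1), (-1 : R) ^ (j : ℕ) * β (t ∘ j.succAbove) := by
  refine ⟨fun v => ∑ k : Fin i, (-1 : R) ^ (k : ℕ) * c (SC_m f g v k), fun t ht => ?_⟩
  let T : ℕ → X := fun n => t ⟨min n i, by omega⟩
  have hT : ∀ a : Fin (i + 1), T a = t a := fun a => by
    show t ⟨min (a : ℕ) i, _⟩ = t a
    congr 1
    apply Fin.ext
    show min (a : ℕ) i = a
    have := a.2
    omega
  have h1 : ∀ k ∈ range (i + 1), ∑ j ∈ range (i + 2), (-1 : R) ^ j * SC_P f g c T k j = 0 := by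
    intro k hk
    have h2 := ht ⟨k, Finset.mem_range.1 hk⟩
    simp only [SC_mix f g c t T hT] at h2
    rw [← Fin.sum_univ_eq_sum_range (fun j => (-1 : R) ^ j * SC_P f g c T k j) (i + 2)]
    exact h2
  have h3 := SC_sum i (SC_P f g c T) (SC_N f g c T) (SC_PN f g c T) (SC_PN' f g c T)
  rw [Finset.sum_eq_zero fun k hk => by rw [h1 k hk, mul_zero]] at h3
  have h4 : SC_N f g c T 0 = c (g ∘ t) := by
    rw [SC_N]
    congr 1
    funext a
    rw [if_neg (Nat.not_lt_zero _), hT]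
    rfl
  have h5 : SC_N f g c T (i + 1) = c (f ∘ t) := by
    rw [SC_N]
    congr 1
    funext a
    rw [if_pos a.2, hT]
    rfl
  have h6 : ∑ j : Fin (i + 1), (-1 : R) ^ (j : ℕ) *
      (∑ k : Fin i, (-1 : R) ^ (k : ℕ) * c (SC_m f g (t ∘ j.succAbove) k)) =
      ∑ j ∈ range (i + 1), (-1 : R) ^ j *
        ∑ k ∈ range i, (-1 : R) ^ k *
          (if j ≤ k then SC_P f g c T (k + 1) j else SC_P f g c T k (j + 1)) := by
    rw [← Fin.sum_univ_eq_sum_range (fun j => (-1 : R) ^ j *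
        ∑ k ∈ range i, (-1 : R) ^ k *
          (if j ≤ k then SC_P f g c T (k + 1) j else SC_P f g c T k (j + 1))) (i + 1)]
    refine Finset.sum_congr rfl fun j _ => ?_
    rw [← Fin.sum_univ_eq_sum_range (fun k => (-1 : R) ^ k *
          (if (j : ℕ) ≤ k then SC_P f g c T (k + 1) j else SC_P f g c T k (j + 1))) i]
    congr 1
    refine Finset.sum_congr rfl fun k _ => ?_
    rw [SC_face f g c t T hT]
  rw [h4, h5, ← h6] at h3
  linear_combination -h3

end Pool.H54.UB

end S_SC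

section S_SD

/-!
# Row SD: topology of the sup-norm sphere

`sphere_point`: finitely many simplices with at most `m` vertices do not cover the unit sphere of
`Fin (m+1) → ℝ`: otherwise the cones `convexHull (insert 0 s)` would cover the closed unit ball
(every `x` with `0 < ‖x‖ ≤ 1` is on the segment from `0` to `x/‖x‖`), but they have at most `m+1`
vertices, so they lie in the (proper) affine subspaces `affineSpan (insert 0 s)` of dimension `≤ m`,
which have measure zero (`MeasureTheory.Measure.addHaar_affineSubspace`) (or: empty interior, Baire).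

`sphere_null`: `H x t = ‖y‖⁻¹ • y`, `y = (1-t) x - t x₀`; `y ≠ 0`: otherwise `(1-t) x = t x₀`, taking
norms `1 - t = t`, so `x = x₀`.

`sphere_manifold`: charts.  Let `x` be in the sphere, `T = {i | |x i| = 1}` (nonempty), `i₀ ∈ T`,
`s i = x i` for `i ∈ T`.  Near `x` the sphere is `{y | max_{i ∈ T} s i * y i = 1}`.  Use the map
`h y = (coordinates i ≠ i₀: s i * y i - s i₀ * y i₀ for i ∈ T, y i - x i for i ∉ T) / ε`.
It is injective on this set, with inverse: given `z` (put `z i₀ = 0`): `s i y i = 1 + z i - max_T z`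
for `i ∈ T`.  The chart domain `U` = preimage of the cube `[-1,1]^m` inside the sphere and a small box
around `x` (for small `ε` the inverse formula stays near `x`).  `U` is a polyhedron (use `PLOn.symm`
or: image of the cube under the explicit PL inverse, `PLOn.image`), `h` is affine.
-/

open Set Topology

namespace Pool.H54.UB

theorem sphere_point (m : ℕ) (S : Set (Finset (Fin (m + 1) → ℝ))) (hS : S.Finite)
    (hc : ∀ s ∈ S, s.card ≤ m) :
    ∃ x₀ ∈ Metric.sphere (0 : Fin (m + 1) → ℝ) 1, ∀ s ∈ S,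
      x₀ ∉ convexHull ℝ (s : Set (Fin (m + 1) → ℝ)) := by
  classical
  have hne : (⊤ : Subspace ℝ (Fin (m + 1) → ℝ)) ∉
      insert (⊥ : Submodule ℝ (Fin (m + 1) → ℝ))
        (hS.toFinset.image (fun s : Finset (Fin (m + 1) → ℝ) => Submodule.span ℝ (s : Set (Fin (m + 1) → ℝ)))) := by
    intro h
    rcases Finset.mem_insert.1 h with h | h
    · exact top_ne_bot h
    · obtain ⟨s, hs, hs2⟩ := Finset.mem_image.1 h
      have h1 : Module.finrank ℝ (Submodule.span ℝ (s : Set (Fin (m + 1) → ℝ))) ≤ s.card :=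
        finrank_span_finset_le_card s
      rw [hs2, finrank_top, Module.finrank_fin_fun] at h1
      have h2 := hc s ((Set.Finite.mem_toFinset hS).1 hs)
      omega
  have hU := Subspace.biUnion_ne_univ_of_top_notMem hne
  obtain ⟨v, hv⟩ := (Set.ne_univ_iff_exists_notMem _).1 hU
  have hv0 : v ≠ 0 := by
    rintro rfl
    exact hv (Set.mem_iUnion₂.2 ⟨⊥, Finset.mem_insert_self _ _, Submodule.zero_mem _⟩)
  have hn : ‖v‖ ≠ 0 := norm_ne_zero_iff.2 hv0
  refine ⟨‖v‖⁻¹ • v, ?_, ?_⟩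
  · rw [mem_sphere_zero_iff_norm, norm_smul, norm_inv, norm_norm, inv_mul_cancel₀ hn]
  · intro s hs hmem
    have h1 : ‖v‖⁻¹ • v ∈ Submodule.span ℝ (s : Set (Fin (m + 1) → ℝ)) :=
      convexHull_min Submodule.subset_span (Submodule.convex _) hmem
    have h2 : v ∈ Submodule.span ℝ (s : Set (Fin (m + 1) → ℝ)) := by
      have := Submodule.smul_mem _ ‖v‖ h1
      rwa [smul_smul, mul_inv_cancel₀ hn, one_smul] at this
    exact hv (Set.mem_iUnion₂.2 ⟨Submodule.span ℝ (s : Set (Fin (m + 1) → ℝ)),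
      Finset.mem_insert_of_mem (Finset.mem_image.2 ⟨s, (Set.Finite.mem_toFinset hS).2 hs, rfl⟩), h2⟩)

theorem sphere_null (m : ℕ) (x₀ : Fin (m + 1) → ℝ) (hx₀ : ‖x₀‖ = 1) :
    ∃ H : (Fin (m + 1) → ℝ) × ℝ → (Fin (m + 1) → ℝ),
      ContinuousOn H ((Metric.sphere 0 1 \ {x₀}) ×ˢ Icc 0 1) ∧
      (∀ x ∈ Metric.sphere (0 : Fin (m + 1) → ℝ) 1, x ≠ x₀ → H (x, 0) = x ∧ H (x, 1) = -x₀ ∧
        ∀ t ∈ Icc (0 : ℝ) 1, H (x, t) ∈ Metric.sphere (0 : Fin (m + 1) → ℝ) 1) := by
  have key : ∀ x ∈ Metric.sphere (0 : Fin (m + 1) → ℝ) 1, x ≠ x₀ → ∀ t ∈ Icc (0 : ℝ) 1,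
      (1 - t) • x - t • x₀ ≠ 0 := by
    intro x hx hne t ht h0
    have hx1 : ‖x‖ = 1 := mem_sphere_zero_iff_norm.1 hx
    have h1 : (1 - t) • x = t • x₀ := sub_eq_zero.1 h0
    have h2 : ‖(1 - t) • x‖ = ‖t • x₀‖ := by rw [h1]
    rw [norm_smul, norm_smul, hx1, hx₀, Real.norm_of_nonneg ht.1,
      Real.norm_of_nonneg (by linarith [ht.2])] at h2
    have h3 : t = 1 / 2 := by linarith
    subst h3
    have h4 : ((1 : ℝ) / 2) • x = ((1 : ℝ) / 2) • x₀ := by
      have : (1 : ℝ) - 1 / 2 = 1 / 2 := by norm_num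
      rw [this] at h1
      exact h1
    exact hne (smul_right_injective _ (by norm_num : ((1 : ℝ) / 2) ≠ 0) h4)
  refine ⟨fun p => ‖(1 - p.2) • p.1 - p.2 • x₀‖⁻¹ • ((1 - p.2) • p.1 - p.2 • x₀), ?_, ?_⟩
  · have hc1 : ContinuousOn (fun p : (Fin (m + 1) → ℝ) × ℝ => (1 - p.2) • p.1 - p.2 • x₀)
        ((Metric.sphere 0 1 \ {x₀}) ×ˢ Icc 0 1) := by
      apply Continuous.continuousOn
      fun_prop
    have hc2 : ContinuousOn (fun p : (Fin (m + 1) → ℝ) × ℝ => ‖(1 - p.2) • p.1 - p.2 • x₀‖⁻¹)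
        ((Metric.sphere 0 1 \ {x₀}) ×ˢ Icc 0 1) := by
      apply ContinuousOn.inv₀ hc1.norm
      rintro ⟨x, t⟩ ⟨hx, ht⟩
      exact norm_ne_zero_iff.2 (key x hx.1 (fun h => hx.2 h) t ht)
    exact hc2.smul hc1
  · intro x hx hne
    have hx1 : ‖x‖ = 1 := mem_sphere_zero_iff_norm.1 hx
    refine ⟨?_, ?_, ?_⟩
    · simp [hx1]
    · simp [hx₀]
    · intro t ht
      have hn : ‖(1 - t) • x - t • x₀‖ ≠ 0 := norm_ne_zero_iff.2 (key x hx hne t ht)
      rw [mem_sphere_zero_iff_norm, norm_smul, norm_inv, norm_norm, inv_mul_cancel₀ hn]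

theorem sphere_connected (m : ℕ) (hm : 1 ≤ m) :
    IsConnected (Metric.sphere (0 : Fin (m + 1) → ℝ) 1) := by
  apply isConnected_sphere _ _ zero_le_one
  rw [rank_fin_fun]
  exact_mod_cast (by omega : 1 < m + 1)

end Pool.H54.UB

end S_SD

section S_SE

/-!
# Row SE: cohomology of a triangulated sphere vanishes in degrees `0 < i < m`

Let `K.space` be the sphere, `c` a cocycle of degree `i` on the `K`-tuples (`K.Tup`), `0 < i < m`.
1. `lam, δ` from `GC.exists_lam`.  Fact (*): if the points `x_0, .., x_r ∈ K.space` have pairwise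
   distances `< δ` then `lam ∘ x` is a `K`-tuple (all `lam x_j` are in the carrier of `x_0`).
2. `x₀` from `sphere_point` for the faces with at most `m` vertices; let `L` be the union of the hulls
   of these faces: compact, `x₀ ∉ L`.  Call a tuple an `L`-tuple if its entries are in a common face
   with at most `m` vertices; every `K`-tuple with at most `m` entries is an `L`-tuple (`K.down`).
3. `H` from `sphere_null`; it is uniformly continuous on `L × [0,1]`: choose `N ≥ 1` and `ε > 0`,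
   `ε ≤ δ`, such that `dist (H (x, k/N)) (H (x', l/N)) < δ` whenever `x, x' ∈ L`, `dist x x' < ε` and
   `|k - l| ≤ 1`.  Put `f_k x = lam (H (x, k/N))`, `0 ≤ k ≤ N`.
   For a tuple `u : Fin (i+1) → L` with pairwise distances `< ε` all the mixed tuples
   `mix f_k f_{k+1} u a` are `K`-tuples by (*), so by `cochain_homotopy` (`β_k` for `f_k, f_{k+1}`) and
   telescoping: `c (f_N ∘ u) - c (f_0 ∘ u) = δ (∑ β_k) (u)`, and `f_0 = lam` on `L`,
   `f_N ∘ u = (v, .., v)`, `v = lam (-x₀)`.  Let `κ = c (v, .., v)`.  If `i` is odd the cocycle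
   condition for the constant `K`-tuple `(v, .., v)` (`i + 2` entries, odd) gives `κ = 0`; if `i` is
   even the constant function `κ` on `i`-tuples has coboundary `κ`.  So in both cases there is
   `β : (Fin i → E) → R` with `c (lam ∘ u) = ∑_j (-1)^j β (u ∘ δ_j)` for all such `u`.
4. `T` from `exists_subdiv ε`.  For an `L`-tuple `t`, all tuples of the chain `T n t` have entries in
   `L` (hull of the range of `t`, which is contained in the hull of a face `s`), pairwise distances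
   `< ε`.  `T' n t = (lam ∘ ·)_* (T n t)` (`Finsupp.mapDomain`).  The entries `lam (u a)` are in the
   carrier of `u a ∈ convexHull (range t)`, which is contained in `range t` (`GC.carrier_sub` for the
   face `range t`).  `T'` satisfies the hypotheses of `exists_homotopy` with `Tp n t` = (`t` is an
   `L`-tuple; `n ≥ 1`; for `n = 0` put `Tp 0 t = True`), so we get `D`.
5. Evaluate `c` (extended linearly: `Finsupp.sum` / `linearCombination`) on
   `T' (i+1) t - t = bd (D (i+1) t) + ∑_j (-1)^j D i (t ∘ δ_j)` for an `L`-tuple `t` with `i+1` entries: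
   `c (bd (D t)) = (δ c)(D t) = 0` since the tuples of `D t` have entries in a face;
   `c (T' t) = ∑_u (T t)(u) δβ(u) = β (bd (T t)) = ∑_j (-1)^j β (T i (t ∘ δ_j))`.
   Hence `c t = ∑_j (-1)^j b (t ∘ δ_j)` with `b v = β (T i v) - c (D i v)` (linear extensions).
-/

open Set Topology

namespace Pool.H54.UB

/-- extend a function on tuples linearly to chains -/
noncomputable def SE_ev {X R : Type*} [CommRing R] (n : ℕ) (f : (Fin n → X) → R) :
    ((Fin n → X) →₀ R) →ₗ[R] R := Finsupp.linearCombination R f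

/-- the map of chains induced by a map of vertices -/
noncomputable def SE_map {X Y R : Type*} [CommRing R] (n : ℕ) (g : X → Y) :
    ((Fin n → X) →₀ R) →ₗ[R] ((Fin n → Y) →₀ R) := Finsupp.lmapDomain R R (fun u => g ∘ u)

theorem SE_ev_single {X R : Type*} [CommRing R] (n : ℕ) (f : (Fin n → X) → R) (t : Fin n → X)
    (r : R) : SE_ev n f (Finsupp.single t r) = r * f t := by
  unfold SE_ev
  rw [Finsupp.linearCombination_single, smul_eq_mul]

theorem SE_map_single {X Y R : Type*} [CommRing R] (n : ℕ) (g : X → Y) (t : Fin n → X)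
    (r : R) : SE_map n g (Finsupp.single t r) = Finsupp.single (g ∘ t) r := by
  unfold SE_map
  rw [Finsupp.lmapDomain_apply, Finsupp.mapDomain_single]

theorem SE_ev_bd {X R : Type*} [CommRing R] (n : ℕ) (f : (Fin n → X) → R)
    (z : (Fin (n + 1) → X) →₀ R) : SE_ev n f (bd n z) =
      SE_ev (n + 1) (fun u => ∑ j : Fin (n + 1), (-1) ^ (j : ℕ) * f (u ∘ j.succAbove)) z := by
  have h : (SE_ev n f).comp (bd n) =
      SE_ev (n + 1) (fun u => ∑ j : Fin (n + 1), (-1) ^ (j : ℕ) * f (u ∘ j.succAbove)) := by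
    refine Finsupp.lhom_ext fun t r => ?_
    rw [LinearMap.comp_apply, bd_single, map_sum, SE_ev_single, Finset.mul_sum]
    refine Finset.sum_congr rfl fun j _ => ?_
    rw [SE_ev_single]
    ring
  exact LinearMap.congr_fun h z

theorem SE_ev_map {X Y R : Type*} [CommRing R] (n : ℕ) (g : X → Y) (f : (Fin n → Y) → R)
    (z : (Fin n → X) →₀ R) : SE_ev n f (SE_map n g z) = SE_ev n (fun u => f (g ∘ u)) z := by
  have h : (SE_ev n f).comp (SE_map n g) = SE_ev n (fun u => f (g ∘ u)) := by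
    refine Finsupp.lhom_ext fun t r => ?_
    rw [LinearMap.comp_apply, SE_map_single, SE_ev_single, SE_ev_single]
  exact LinearMap.congr_fun h z

theorem SE_bd_map {X Y R : Type*} [CommRing R] (n : ℕ) (g : X → Y)
    (z : (Fin (n + 1) → X) →₀ R) : bd n (SE_map (n + 1) g z) = SE_map n g (bd n z) := by
  have h : (bd (R := R) n).comp (SE_map (n + 1) g) = (SE_map n g).comp (bd n) := by
    refine Finsupp.lhom_ext fun t r => ?_
    rw [LinearMap.comp_apply, SE_map_single, bd_single, LinearMap.comp_apply, bd_single, map_sum]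
    refine Finset.sum_congr rfl fun j _ => ?_
    rw [SE_map_single]
    rfl
  exact LinearMap.congr_fun h z

theorem SE_ev_congr {X R : Type*} [CommRing R] (n : ℕ) (f g : (Fin n → X) → R)
    (z : (Fin n → X) →₀ R) (h : ∀ u ∈ z.support, f u = g u) : SE_ev n f z = SE_ev n g z := by
  unfold SE_ev
  rw [Finsupp.linearCombination_apply, Finsupp.linearCombination_apply]
  refine Finsupp.sum_congr fun u hu => ?_
  rw [h u hu]

theorem SE_ev_zero {X R : Type*} [CommRing R] (n : ℕ) (z : (Fin n → X) →₀ R) :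
    SE_ev n (fun _ => (0 : R)) z = 0 := by
  unfold SE_ev
  rw [Finsupp.linearCombination_apply]
  simp

/-- alternating sum of a constant -/
theorem SE_alt {R : Type*} [CommRing R] (n : ℕ) (κ : R) :
    ∑ j : Fin n, (-1 : R) ^ (j : ℕ) * κ = if Even n then 0 else κ := by
  rw [Fin.sum_univ_eq_sum_range (fun j => (-1 : R) ^ j * κ) n]
  induction n with
  | zero => simp
  | succ n ih =>
    rw [Finset.sum_range_succ, ih]
    by_cases h : Even n
    · have h2 : ¬ Even (n + 1) := by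
        rw [Nat.even_add_one]
        exact fun h3 => h3 h
      rw [if_pos h, if_neg h2, h.neg_one_pow]
      ring
    · have h2 : Even (n + 1) := by
        rw [Nat.even_add_one]
        exact h
      rw [if_neg h, if_pos h2, (Nat.not_even_iff_odd.1 h).neg_one_pow]
      ring

/-- step 3 -/
theorem SE_step3 (m : ℕ) (K : GC (Fin (m + 1) → ℝ)) (hK : K.space = Metric.sphere 0 1)
    (R : Type) [CommRing R] (i : ℕ)
    (c : (Fin (i + 1) → (Fin (m + 1) → ℝ)) → R)
    (hc : ∀ t : Fin (i + 2) → (Fin (m + 1) → ℝ), K.Tup t →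
      ∑ j : Fin (i + 2), (-1) ^ (j : ℕ) * c (t ∘ j.succAbove) = 0)
    (lam : (Fin (m + 1) → ℝ) → (Fin (m + 1) → ℝ)) (δ : ℝ) (hδ : 0 < δ)
    (hlam : ∀ x ∈ K.space, ∀ y ∈ K.space, dist x y < δ → ∀ s, K.IsCarrier y s → lam x ∈ s)
    (x₀ : Fin (m + 1) → ℝ) (hx₀ : x₀ ∈ Metric.sphere (0 : Fin (m + 1) → ℝ) 1)
    (L : Set (Fin (m + 1) → ℝ)) (hL : IsCompact L) (hLK : L ⊆ K.space) (hxL : x₀ ∉ L) :
    ∃ ε > 0, ∃ β : (Fin i → (Fin (m + 1) → ℝ)) → R, ∀ u : Fin (i + 1) → (Fin (m + 1) → ℝ),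
      (∀ a, u a ∈ L) → (∀ a b, dist (u a) (u b) < ε) →
      c (lam ∘ u) = ∑ j : Fin (i + 1), (-1) ^ (j : ℕ) * β (u ∘ j.succAbove) := by
  -- the fact (*)
  have hstar : ∀ (r : ℕ) (x : Fin (r + 1) → (Fin (m + 1) → ℝ)), (∀ a, x a ∈ K.space) →
      (∀ a b, dist (x a) (x b) < δ) → K.Tup (lam ∘ x) := by
    intro r x hx hd
    obtain ⟨s, hs⟩ := GC.exists_carrier' (hx 0)
    exact ⟨s, hs.1, fun a => hlam _ (hx a) _ (hx 0) (hd a 0) s hs⟩
  obtain ⟨H, hHc, hH⟩ := sphere_null m x₀ (by simpa using hx₀)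
  have hLs : L ⊆ Metric.sphere 0 1 := by rw [← hK]; exact hLK
  have hLx : ∀ x ∈ L, x ≠ x₀ := fun x hx h => hxL (h ▸ hx)
  have hcomp : IsCompact (L ×ˢ Icc (0 : ℝ) 1) := hL.prod isCompact_Icc
  have hsub : L ×ˢ Icc (0 : ℝ) 1 ⊆ (Metric.sphere 0 1 \ {x₀}) ×ˢ Icc 0 1 := by
    rintro ⟨x, t⟩ ⟨hx, ht⟩
    exact ⟨⟨hLs hx, hLx x hx⟩, ht⟩
  have hU := hcomp.uniformContinuousOn_of_continuous (hHc.mono hsub)
  rw [Metric.uniformContinuousOn_iff] at hU
  obtain ⟨η, hη, hU⟩ := hU δ hδ
  obtain ⟨N, hN⟩ := exists_nat_one_div_lt hη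
  have hNp : (0 : ℝ) < (N : ℝ) + 1 := by positivity
  -- the maps
  obtain ⟨G, hG⟩ : ∃ G : ℕ → (Fin (m + 1) → ℝ) → (Fin (m + 1) → ℝ),
      G = fun (k : ℕ) x => H (x, (k : ℝ) / (N + 1)) := ⟨_, rfl⟩
  obtain ⟨f, hf⟩ : ∃ f : ℕ → (Fin (m + 1) → ℝ) → (Fin (m + 1) → ℝ),
      f = fun (k : ℕ) x => lam (G k x) := ⟨_, rfl⟩
  have hmemI : ∀ k : ℕ, k ≤ N + 1 → (k : ℝ) / (N + 1) ∈ Icc (0 : ℝ) 1 := by
    intro k hk
    refine ⟨by positivity, ?_⟩
    rw [div_le_one hNp]
    exact_mod_cast hk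
  have hGm : ∀ k ≤ N + 1, ∀ x ∈ L, G k x ∈ K.space := by
    intro k hk x hx
    rw [hK, hG]
    exact (hH x (hLs hx) (hLx x hx)).2.2 _ (hmemI k hk)
  have hGd : ∀ k l : ℕ, k ≤ N + 1 → l ≤ N + 1 → k ≤ l + 1 → l ≤ k + 1 → ∀ x ∈ L, ∀ y ∈ L,
      dist x y < η → dist (G k x) (G l y) < δ := by
    intro k l hk hl hkl hlk x hx y hy hxy
    rw [hG]
    refine hU (x, (k : ℝ) / (N + 1)) ⟨hx, hmemI k hk⟩ (y, (l : ℝ) / (N + 1)) ⟨hy, hmemI l hl⟩ ?_
    rw [Prod.dist_eq]
    refine max_lt hxy ?_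
    show dist ((k : ℝ) / (N + 1)) ((l : ℝ) / (N + 1)) < η
    rw [Real.dist_eq, ← sub_div, abs_div, abs_of_pos hNp]
    refine lt_of_le_of_lt ?_ hN
    refine div_le_div_of_nonneg_right ?_ hNp.le
    rw [abs_le]
    constructor
    · have : (l : ℝ) ≤ k + 1 := by exact_mod_cast hlk
      linarith
    · have : (k : ℝ) ≤ l + 1 := by exact_mod_cast hkl
      linarith
  have hβ : ∀ k : ℕ, ∃ β : (Fin i → (Fin (m + 1) → ℝ)) → R,
      ∀ t : Fin (i + 1) → (Fin (m + 1) → ℝ),
      (∀ a : Fin (i + 1), ∑ j : Fin (i + 2), (-1 : R) ^ (j : ℕ) *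
        c (mix (f k) (f (k + 1)) t a ∘ j.succAbove) = 0) →
      c (f (k + 1) ∘ t) - c (f k ∘ t) =
        ∑ j : Fin (i + 1), (-1 : R) ^ (j : ℕ) * β (t ∘ j.succAbove) :=
    fun k => cochain_homotopy i (f k) (f (k + 1)) c
  choose β hβ using hβ
  -- the constant
  obtain ⟨v, hv⟩ : ∃ v, v = lam (-x₀) := ⟨_, rfl⟩
  have hv2 : ∑ j : Fin (i + 2), (-1 : R) ^ (j : ℕ) * c (fun _ => v) = 0 := by
    have h1 := hstar (i + 1) (fun _ => -x₀) (fun _ => by
      rw [hK]
      simpa using hx₀) (fun _ _ => by simpa using hδ)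
    have h2 := hc _ h1
    rw [hv]
    exact h2
  obtain ⟨γ, hγ⟩ : ∃ γ : R, ∑ j : Fin (i + 1), (-1 : R) ^ (j : ℕ) * γ = c (fun _ => v) := by
    rw [SE_alt] at hv2
    by_cases h : Even i
    · refine ⟨c (fun _ => v), ?_⟩
      rw [SE_alt, if_neg]
      rw [Nat.even_add_one]
      exact fun h3 => h3 h
    · refine ⟨0, ?_⟩
      rw [if_neg (by
        rw [Nat.even_add]
        intro h3
        exact h (h3.2 even_two))] at hv2
      rw [hv2]
      simp
  refine ⟨min η δ, lt_min hη hδ, fun w => γ - ∑ k ∈ Finset.range (N + 1), β k w, ?_⟩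
  intro u hu hd
  have hd1 : ∀ a b, dist (u a) (u b) < η := fun a b => (hd a b).trans_le (min_le_left _ _)
  -- one step
  have hstep : ∀ k < N + 1, c (f (k + 1) ∘ u) - c (f k ∘ u) =
      ∑ j : Fin (i + 1), (-1 : R) ^ (j : ℕ) * β k (u ∘ j.succAbove) := by
    intro k hk
    refine hβ k u fun a => hc _ ?_
    have h1 : mix (f k) (f (k + 1)) u a = lam ∘ (mix (G k) (G (k + 1)) u a) := by
      funext b
      rw [hf]
      unfold mix
      simp only [Function.comp]
      split_ifs <;> rfl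
    rw [h1]
    refine hstar (i + 1) _ ?_ ?_
    · intro b
      unfold mix
      split_ifs
      · exact hGm k hk.le _ (hu _)
      · exact hGm (k + 1) hk _ (hu _)
    · intro b b'
      unfold mix
      split_ifs
      · exact hGd k k hk.le hk.le (by omega) (by omega) _ (hu _) _ (hu _) (hd1 _ _)
      · exact hGd k (k + 1) hk.le hk (by omega) (by omega) _ (hu _) _ (hu _) (hd1 _ _)
      · exact hGd (k + 1) k hk hk.le (by omega) (by omega) _ (hu _) _ (hu _) (hd1 _ _)
      · exact hGd (k + 1) (k + 1) hk hk (by omega) (by omega) _ (hu _) _ (hu _) (hd1 _ _)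
  have htel : c (f (N + 1) ∘ u) - c (f 0 ∘ u) =
      ∑ k ∈ Finset.range (N + 1), ∑ j : Fin (i + 1), (-1 : R) ^ (j : ℕ) *
        β k (u ∘ j.succAbove) := by
    rw [← Finset.sum_range_sub (fun k => c (f k ∘ u))]
    exact Finset.sum_congr rfl fun k hk => hstep k (Finset.mem_range.1 hk)
  have hf0 : f 0 ∘ u = lam ∘ u := by
    funext a
    rw [hf, hG]
    simp only [Function.comp]
    have h1 := (hH (u a) (hLs (hu a)) (hLx _ (hu a))).1
    rw [Nat.cast_zero, zero_div, h1]
  have hfN : f (N + 1) ∘ u = fun _ => v := by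
    funext a
    rw [hf, hG, hv]
    simp only [Function.comp]
    have h1 := (hH (u a) (hLs (hu a)) (hLx _ (hu a))).2.1
    have h2 : ((N + 1 : ℕ) : ℝ) / (N + 1) = 1 := by
      push_cast
      exact div_self hNp.ne'
    rw [h2, h1]
  rw [hf0, hfN] at htel
  have h5 : c (lam ∘ u) = c (fun _ => v) - ∑ k ∈ Finset.range (N + 1),
      ∑ j : Fin (i + 1), (-1 : R) ^ (j : ℕ) * β k (u ∘ j.succAbove) := by
    rw [← htel]
    ring
  rw [h5, ← hγ, Finset.sum_comm, ← Finset.sum_sub_distrib]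
  refine Finset.sum_congr rfl fun j _ => ?_
  rw [mul_sub, Finset.mul_sum]

theorem sphere_acyclic (m : ℕ) (K : GC (Fin (m + 1) → ℝ)) (hK : K.space = Metric.sphere 0 1)
    (R : Type) [CommRing R] (i : ℕ) (hi : 0 < i) (him : i < m)
    (c : (Fin (i + 1) → (Fin (m + 1) → ℝ)) → R)
    (hc : ∀ t : Fin (i + 2) → (Fin (m + 1) → ℝ), K.Tup t →
      ∑ j : Fin (i + 2), (-1) ^ (j : ℕ) * c (t ∘ j.succAbove) = 0) :
    ∃ b : (Fin i → (Fin (m + 1) → ℝ)) → R, ∀ t : Fin (i + 1) → (Fin (m + 1) → ℝ), K.Tup t →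
      c t = ∑ j : Fin (i + 1), (-1) ^ (j : ℕ) * b (t ∘ j.succAbove) := by
  classical
  obtain ⟨lam, δ, hδ, hlam⟩ := K.exists_lam
  have hSfin : {s | s ∈ K.faces ∧ s.card ≤ m}.Finite := K.fin.subset fun s hs => hs.1
  obtain ⟨x₀, hx₀, hx₀'⟩ := sphere_point m {s | s ∈ K.faces ∧ s.card ≤ m} hSfin fun s hs => hs.2
  obtain ⟨L, hL⟩ : ∃ L : Set (Fin (m + 1) → ℝ), L = ⋃ s ∈ {s | s ∈ K.faces ∧ s.card ≤ m},
      convexHull ℝ (s : Set (Fin (m + 1) → ℝ)) := ⟨_, rfl⟩
  have hLc : IsCompact L := by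
    rw [hL]
    exact hSfin.isCompact_biUnion fun s _ => s.finite_toSet.isCompact_convexHull ℝ
  have hLK : L ⊆ K.space := by
    rw [hL]
    intro x hx
    obtain ⟨s, hs, hxs⟩ := Set.mem_iUnion₂.1 hx
    exact Set.mem_iUnion₂.2 ⟨s, hs.1, hxs⟩
  have hxL : x₀ ∉ L := by
    rw [hL]
    intro h
    obtain ⟨s, hs, hxs⟩ := Set.mem_iUnion₂.1 h
    exact hx₀' s hs hxs
  obtain ⟨ε, hε, β, hβ⟩ := SE_step3 m K hK R i c hc lam δ hδ hlam x₀ hx₀ L hLc hLK hxL
  obtain ⟨T, hT, hT0, hT1, hTbd⟩ := exists_subdiv (E := Fin (m + 1) → ℝ) (R := R) ε hε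
  obtain ⟨LT, hLT⟩ : ∃ LT : ∀ n : ℕ, (Fin n → (Fin (m + 1) → ℝ)) → Prop,
      LT = fun n t => ∃ s ∈ K.faces, s.card ≤ m ∧ ∀ a, t a ∈ s := ⟨_, rfl⟩
  have hLTm : ∀ n t, LT n t ↔ ∃ s ∈ K.faces, s.card ≤ m ∧ ∀ a, t a ∈ s := by
    intro n t
    rw [hLT]
  -- hulls
  have hhull : ∀ n t, LT n t → convexHull ℝ (Set.range t) ⊆ L := by
    intro n t ht
    obtain ⟨s, hs, hsc, hts⟩ := (hLTm n t).1 ht
    rw [hL]
    refine Set.Subset.trans ?_ (Set.subset_biUnion_of_mem
      (show s ∈ {s | s ∈ K.faces ∧ s.card ≤ m} from ⟨hs, hsc⟩))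
    refine convexHull_mono ?_
    rintro _ ⟨a, rfl⟩
    exact hts a
  have hlamr : ∀ n (t : Fin (n + 1) → (Fin (m + 1) → ℝ)), LT (n + 1) t →
      ∀ x ∈ convexHull ℝ (Set.range t), lam x ∈ Set.range t := by
    intro n t ht x hx
    obtain ⟨s, hs, hsc, hts⟩ := (hLTm _ t).1 ht
    have hface : Finset.univ.image t ∈ K.faces := by
      refine K.down s hs _ ?_ ⟨t 0, Finset.mem_image_of_mem _ (Finset.mem_univ _)⟩
      intro y hy
      obtain ⟨a, -, rfl⟩ := Finset.mem_image.1 hy
      exact hts a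
    have hcoe : ((Finset.univ.image t : Finset (Fin (m + 1) → ℝ)) : Set (Fin (m + 1) → ℝ)) =
        Set.range t := by simp
    rw [← hcoe] at hx ⊢
    obtain ⟨s', hs', hcar⟩ := GC.exists_carrier hface hx
    have hxK : x ∈ K.space := Set.mem_iUnion₂.2 ⟨_, hface, hx⟩
    exact hs' (hlam x hxK x hxK (by simpa using hδ) s' hcar)
  have hmapsupp : ∀ n (z : (Fin n → (Fin (m + 1) → ℝ)) →₀ R), ∀ u ∈ (SE_map n lam z).support,
      ∃ w ∈ z.support, u = lam ∘ w := by
    intro n z u hu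
    have h1 := Finsupp.mapDomain_support hu
    obtain ⟨w, hw, rfl⟩ := Finset.mem_image.1 h1
    exact ⟨w, hw, rfl⟩
  obtain ⟨D, hD, hD0, hDbd⟩ := exists_homotopy (V := Fin (m + 1) → ℝ) (R := R) LT
    (by
      intro n t ht j
      obtain ⟨s, hs, hsc, hts⟩ := (hLTm _ t).1 ht
      exact (hLTm _ _).2 ⟨s, hs, hsc, fun a => hts _⟩)
    (fun n t => SE_map n lam (T n t))
    (by
      intro t
      show SE_map 0 lam (T 0 t) = Finsupp.single t 1
      rw [hT0, SE_map_single]
      congr 1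
      exact Subsingleton.elim _ _)
    (by
      intro n t ht u hu a
      obtain ⟨w, hw, rfl⟩ := hmapsupp _ _ u hu
      exact hlamr n t ht _ ((hT (n + 1) t w hw).1 a))
    (by
      intro n t ht
      show bd n (SE_map (n + 1) lam (T (n + 1) t)) =
        ∑ j : Fin (n + 1), ((-1 : R) ^ (j : ℕ)) • SE_map n lam (T n (t ∘ j.succAbove))
      rw [SE_bd_map, hTbd, map_sum]
      refine Finset.sum_congr rfl fun j _ => ?_
      rw [map_smul])
  refine ⟨fun w => SE_ev i β (T i w) - SE_ev (i + 1) c (D i w), ?_⟩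
  intro t ht
  have htL : LT (i + 1) t := by
    obtain ⟨s, hs, hts⟩ := ht
    refine (hLTm _ t).2 ⟨Finset.univ.image t, K.down s hs _ ?_
      ⟨t 0, Finset.mem_image_of_mem _ (Finset.mem_univ _)⟩, ?_,
      fun a => Finset.mem_image_of_mem _ (Finset.mem_univ _)⟩
    · intro y hy
      obtain ⟨a, -, rfl⟩ := Finset.mem_image.1 hy
      exact hts a
    · refine Finset.card_image_le.trans ?_
      rw [Finset.card_univ, Fintype.card_fin]
      exact him
  have h1 := congrArg (SE_ev (i + 1) c) (hDbd i t htL)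
  rw [map_add, map_sub, SE_ev_single, one_mul, map_sum] at h1
  -- the cocycle term
  have h2 : SE_ev (i + 1) c (bd (i + 1) (D (i + 1) t)) = 0 := by
    rw [SE_ev_bd, SE_ev_congr (i + 2) _ (fun _ => 0), SE_ev_zero]
    intro u hu
    refine hc u ?_
    obtain ⟨s, hs, hsc, hts⟩ := (hLTm _ t).1 htL
    refine ⟨s, hs, fun a => ?_⟩
    obtain ⟨b, hb⟩ := hD i t htL u hu a
    rw [← hb]
    exact hts b
  have h3 : SE_ev (i + 1) c (SE_map (i + 1) lam (T (i + 1) t)) =
      ∑ j : Fin (i + 1), (-1) ^ (j : ℕ) * SE_ev i β (T i (t ∘ j.succAbove)) := by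
    rw [SE_ev_map, SE_ev_congr (i + 1) _
      (fun u => ∑ j : Fin (i + 1), (-1) ^ (j : ℕ) * β (u ∘ j.succAbove)), ← SE_ev_bd, hTbd,
      map_sum]
    · refine Finset.sum_congr rfl fun j _ => ?_
      rw [map_smul, smul_eq_mul]
    · intro u hu
      obtain ⟨h4, h5⟩ := hT (i + 1) t u hu
      exact hβ u (fun a => hhull _ t htL (h4 a)) h5
  rw [h2, h3, zero_add] at h1
  have h4 : ∑ j : Fin (i + 1), SE_ev (i + 1) c (((-1 : R) ^ (j : ℕ)) • D i (t ∘ j.succAbove)) =
      ∑ j : Fin (i + 1), (-1) ^ (j : ℕ) * SE_ev (i + 1) c (D i (t ∘ j.succAbove)) := by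
    refine Finset.sum_congr rfl fun j _ => ?_
    rw [map_smul, smul_eq_mul]
  rw [h4] at h1
  have h5 : c t = ∑ j : Fin (i + 1), (-1) ^ (j : ℕ) * SE_ev i β (T i (t ∘ j.succAbove)) -
      ∑ j : Fin (i + 1), (-1) ^ (j : ℕ) * SE_ev (i + 1) c (D i (t ∘ j.succAbove)) := by
    rw [h1]
    ring
  rw [h5, ← Finset.sum_sub_distrib]
  refine Finset.sum_congr rfl fun j _ => ?_
  ring

end Pool.H54.UB

end S_SE

section S_SM

/-!
# Row SM: the sup-norm sphere is a closed PL manifold; local criterion for charts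

`chart_of_local`: let `W ⊆ X` be a polyhedron, a neighbourhood of `x` in `X`, `h` PL and injective on
`W`, and suppose that for some `ε₀ > 0` the cube `{y | ∀ i, |y i - h x i| ≤ ε₀}` is contained in `h '' W`.
Then `X` has a chart at `x`: take `ε ≤ ε₀`, `U = W ∩ h⁻¹ (cube around h x of radius ε)`, chart
`(h - h x) / ε`.  `U` is a neighbourhood of `x` in `X` (`h` is continuous on `W`).

`sphere_manifold`: the sphere is the union of the `2 (m+1)` facets `{y | y i = ±1, |y j| ≤ 1}`.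
Let `x` be in the sphere, `T = {i | |x i| = 1}`, `i₀ ∈ T`, `s i = x i` for `i ∈ T`.
`W = {y ∈ sphere | ∀ i ∈ T, s i y i ≥ 1 - η, ∀ i ∉ T, |y i - x i| ≤ η}` with `η` small
(`η < 1`, `|x i| + η < 1` for `i ∉ T`): on `W`, `max_{i∈T} s i y i = 1`.
`h y` = the `m` numbers, indexed by `i ≠ i₀` (`Fin.succAbove i₀`): `s i y i - s i₀ y i₀` for `i ∈ T`,
`y i - x i` for `i ∉ T`: affine, `h x = 0`.  Injective on `W` and explicit inverse: given small `z`, with
`z i₀ = 0`: `s i y i = 1 + z i - max_T z` for `i ∈ T`, `y i = x i + z i` for `i ∉ T`; for `|z| ≤ η/2` this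
is in `W`.
-/

open Set Topology

namespace Pool.H54.UB

theorem chart_of_local {E : Type*} [NormedAddCommGroup E] [NormedSpace ℝ E]
    [FiniteDimensional ℝ E] {m : ℕ} {X W : Set E} {h : E → Fin m → ℝ} {x : E} (hWX : W ⊆ X)
    (hx : x ∈ W) (hW : W ∈ 𝓝[X] x) (hh : PLOn h W) (hi : InjOn h W) {ε₀ : ℝ} (hε : 0 < ε₀)
    (him : ∀ y : Fin m → ℝ, (∀ i, |y i - h x i| ≤ ε₀) → y ∈ h '' W) :
    ∃ U h', ChartAt m X U h' x := by
  have hBp : IsPoly {y : Fin m → ℝ | ∀ i, h x i - ε₀ ≤ y i ∧ y i ≤ h x i + ε₀} :=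
    isPoly_box (fun i => h x i - ε₀) (fun i => h x i + ε₀)
  obtain ⟨B, hB⟩ : ∃ B, B = {y : Fin m → ℝ | ∀ i, h x i - ε₀ ≤ y i ∧ y i ≤ h x i + ε₀} := ⟨_, rfl⟩
  rw [← hB] at hBp
  have hBmem : ∀ y, y ∈ B ↔ ∀ i, |y i - h x i| ≤ ε₀ := by
    intro y
    rw [hB]
    show (∀ i, h x i - ε₀ ≤ y i ∧ y i ≤ h x i + ε₀) ↔ _
    refine forall_congr' fun i => ?_
    rw [abs_le]
    constructor
    · rintro ⟨h1, h2⟩; constructor <;> linarith
    · rintro ⟨h1, h2⟩; constructor <;> linarith
  have hBn : B ∈ 𝓝 (h x) := by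
    refine Filter.mem_of_superset (Metric.closedBall_mem_nhds (h x) hε) ?_
    intro y hy
    rw [hBmem]
    intro i
    have h1 := (dist_pi_le_iff hε.le).1 (Metric.mem_closedBall.1 hy) i
    rwa [Real.dist_eq] at h1
  have hUp : IsPoly (W ∩ h ⁻¹' B) := hh.preimage hBp
  have hUW : W ∩ h ⁻¹' B ⊆ W := inter_subset_left
  have hval : ∀ y i, (ε₀⁻¹ • (h y + (-(h x)))) i = ε₀⁻¹ * (h y i - h x i) := by
    intro y i
    simp only [Pi.smul_apply, Pi.add_apply, Pi.neg_apply, smul_eq_mul]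
    ring
  refine ⟨W ∩ h ⁻¹' B, fun y => ε₀⁻¹ • (h y + (-(h x))), ⟨hUW.trans hWX, ?_, ?_, ?_⟩, ⟨hx, ?_⟩, ?_, ?_⟩
  · exact ((hh.mono hUp hUW).add (PLOn.const hUp (-(h x)))).const_smul ε₀⁻¹
  · intro y hy y' hy' he
    apply hi (hUW hy) (hUW hy')
    have h1 : h y + (-(h x)) = h y' + (-(h x)) := smul_right_injective _ (inv_ne_zero hε.ne') he
    exact add_right_cancel h1
  · ext z
    constructor
    · rintro ⟨y, hy, rfl⟩ i
      have h1 := abs_le.1 ((hBmem _).1 hy.2 i)
      show -1 ≤ (ε₀⁻¹ • (h y + (-(h x)))) i ∧ (ε₀⁻¹ • (h y + (-(h x)))) i ≤ 1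
      rw [hval, inv_mul_eq_div]
      constructor
      · rw [le_div_iff₀ hε]; linarith [h1.1]
      · rw [div_le_one hε]; linarith [h1.2]
    · intro hz
      have h1 : ∀ i, |(h x + ε₀ • z) i - h x i| ≤ ε₀ := by
        intro i
        have h2 := hz i
        simp only [Pi.add_apply, Pi.smul_apply, smul_eq_mul, add_sub_cancel_left]
        rw [abs_mul, abs_of_pos hε]
        have h3 : |z i| ≤ 1 := abs_le.2 h2
        nlinarith
      obtain ⟨w, hw, hwz⟩ := him _ h1
      refine ⟨w, ⟨hw, ?_⟩, ?_⟩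
      · show h w ∈ B
        rw [hwz, hBmem]
        exact h1
      · ext i
        show (ε₀⁻¹ • (h w + (-(h x)))) i = z i
        rw [hval, hwz]
        simp only [Pi.add_apply, Pi.smul_apply, smul_eq_mul, add_sub_cancel_left]
        field_simp
  · show h x ∈ B
    rw [hBmem]
    intro i
    rw [sub_self, abs_zero]
    exact hε.le
  · have hc : ContinuousWithinAt h W x := hh.continuousOn x hx
    exact Filter.inter_mem hW (nhdsWithin_le_of_mem hW (hc hBn))
  · intro i
    show -1 < (ε₀⁻¹ • (h x + (-(h x)))) i ∧ (ε₀⁻¹ • (h x + (-(h x)))) i < 1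
    rw [hval, sub_self, mul_zero]
    constructor <;> norm_num

private theorem SM_mem {m : ℕ} (y : Fin (m + 1) → ℝ) :
    y ∈ Metric.sphere (0 : Fin (m + 1) → ℝ) 1 ↔ (∀ i, |y i| ≤ 1) ∧ ∃ i, |y i| = 1 := by
  rw [mem_sphere_zero_iff_norm]
  constructor
  · intro h
    have h1 : ∀ i, |y i| ≤ 1 := by
      intro i
      have := norm_le_pi_norm y i
      rw [h, Real.norm_eq_abs] at this
      exact this
    refine ⟨h1, ?_⟩
    by_contra hne
    push Not at hne
    have : ‖y‖ < 1 := by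
      rw [pi_norm_lt_iff zero_lt_one]
      intro i
      rw [Real.norm_eq_abs]
      exact lt_of_le_of_ne (h1 i) (hne i)
    rw [h] at this
    exact lt_irrefl _ this
  · rintro ⟨h1, i, hi⟩
    apply le_antisymm
    · rw [pi_norm_le_iff_of_nonneg zero_le_one]
      intro j
      rw [Real.norm_eq_abs]
      exact h1 j
    · rw [← hi, ← Real.norm_eq_abs]
      exact norm_le_pi_norm y i

private theorem SM_poly (m : ℕ) : IsPoly (Metric.sphere (0 : Fin (m + 1) → ℝ) 1) := by
  have h1 : Metric.sphere (0 : Fin (m + 1) → ℝ) 1 =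
      ⋃ p ∈ (univ : Set (Fin (m + 1) × Bool)),
        {y : Fin (m + 1) → ℝ | ∀ i, (if i = p.1 then (if p.2 then (1 : ℝ) else -1) else -1) ≤ y i ∧
          y i ≤ (if i = p.1 then (if p.2 then (1 : ℝ) else -1) else 1)} := by
    ext y
    rw [SM_mem]
    simp only [mem_iUnion, mem_univ, exists_prop, true_and, mem_setOf_eq]
    constructor
    · rintro ⟨h1, i, hi⟩
      rcases (abs_eq zero_le_one).1 hi with h | h
      · refine ⟨(i, true), fun j => ?_⟩
        by_cases hj : j = i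
        · subst hj
          simp [h]
        · simp only [hj, if_false]
          exact abs_le.1 (h1 j)
      · refine ⟨(i, false), fun j => ?_⟩
        by_cases hj : j = i
        · subst hj
          simp [h]
        · simp only [hj, if_false]
          exact abs_le.1 (h1 j)
    · rintro ⟨⟨i, b⟩, hy⟩
      refine ⟨fun j => ?_, i, ?_⟩
      · have h2 := hy j
        by_cases hj : j = i
        · subst hj
          cases b
          · simp at h2
            rw [le_antisymm h2.2 h2.1]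
            norm_num
          · simp at h2
            rw [le_antisymm h2.2 h2.1]
            norm_num
        · simp only [hj, if_false] at h2
          exact abs_le.2 h2
      · have h2 := hy i
        cases b
        · simp at h2
          rw [le_antisymm h2.2 h2.1]
          norm_num
        · simp at h2
          rw [le_antisymm h2.2 h2.1]
          norm_num
  rw [h1]
  exact IsPoly.biUnion (Set.finite_univ) fun p _ => isPoly_box _ _

theorem sphere_manifold (m : ℕ) (hm : 1 ≤ m) :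
    IsClosedPLManifold m (Metric.sphere (0 : Fin (m + 1) → ℝ) 1) := by
  classical
  refine ⟨SM_poly m, fun x hx => ?_⟩
  obtain ⟨hx1, i₀, hi₀⟩ := (SM_mem x).1 hx
  have hsq : ∀ i, |x i| = 1 → x i * x i = 1 := by
    intro i hi
    rw [← abs_mul_abs_self, hi, one_mul]
  -- the radius
  obtain ⟨η, hη0, hη1, hη⟩ : ∃ η : ℝ, 0 < η ∧ η < 1 ∧ ∀ i, |x i| ≠ 1 → |x i| + η < 1 := by
    have h1 : ∀ᶠ η in 𝓝[>] (0 : ℝ), η < 1 :=
      mem_nhdsWithin_of_mem_nhds (Iio_mem_nhds zero_lt_one)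
    have h2 : ∀ᶠ η in 𝓝[>] (0 : ℝ), ∀ i, |x i| ≠ 1 → |x i| + η < 1 := by
      rw [Filter.eventually_all]
      intro i
      by_cases hi : |x i| = 1
      · exact Filter.Eventually.of_forall fun η h => absurd hi h
      · have hlt : |x i| < 1 := lt_of_le_of_ne (hx1 i) hi
        have h3 : ∀ᶠ η in 𝓝[>] (0 : ℝ), η < 1 - |x i| :=
          mem_nhdsWithin_of_mem_nhds (Iio_mem_nhds (by linarith))
        filter_upwards [h3] with η h4 _
        linarith
    have h3 : ∀ᶠ η in 𝓝[>] (0 : ℝ), 0 < η := self_mem_nhdsWithin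
    obtain ⟨η, h4, h5, h6⟩ := (h3.and (h1.and h2)).exists
    exact ⟨η, h4, h5, h6⟩
  obtain ⟨S, hS⟩ : ∃ S, S = Metric.sphere (0 : Fin (m + 1) → ℝ) 1 := ⟨_, rfl⟩
  have hSp : IsPoly S := by rw [hS]; exact SM_poly m
  have hSm : ∀ y, y ∈ S ↔ (∀ i, |y i| ≤ 1) ∧ ∃ i, |y i| = 1 := by
    intro y; rw [hS]; exact SM_mem y
  rw [← hS]
  obtain ⟨W, hW⟩ : ∃ W, W = S ∩ {y : Fin (m + 1) → ℝ | ∀ i, x i - η ≤ y i ∧ y i ≤ x i + η} := ⟨_, rfl⟩
  have hWp : IsPoly W := by
    rw [hW]; exact hSp.inter (isPoly_box (fun i => x i - η) (fun i => x i + η))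
  have hWm : ∀ y, y ∈ W ↔ y ∈ S ∧ ∀ i, |y i - x i| ≤ η := by
    intro y
    rw [hW]
    show (y ∈ S ∧ ∀ i, x i - η ≤ y i ∧ y i ≤ x i + η) ↔ _
    refine and_congr_right fun _ => forall_congr' fun i => ?_
    rw [abs_le]
    constructor
    · rintro ⟨h1, h2⟩; constructor <;> linarith
    · rintro ⟨h1, h2⟩; constructor <;> linarith
  have hWS : W ⊆ S := fun y hy => ((hWm y).1 hy).1
  have hxW : x ∈ W := (hWm x).2 ⟨(hSm x).2 ⟨hx1, i₀, hi₀⟩, fun i => by
    rw [sub_self, abs_zero]; exact hη0.le⟩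
  have hWn : W ∈ 𝓝[S] x := by
    have h1 : Metric.closedBall x η ∈ 𝓝[S] x :=
      mem_nhdsWithin_of_mem_nhds (Metric.closedBall_mem_nhds x hη0)
    refine Filter.mem_of_superset (Filter.inter_mem self_mem_nhdsWithin h1) ?_
    rintro y ⟨hy, hy2⟩
    rw [hWm]
    refine ⟨hy, fun i => ?_⟩
    have h3 := (dist_pi_le_iff hη0.le).1 (Metric.mem_closedBall.1 hy2) i
    rwa [Real.dist_eq] at h3
  -- the chart
  obtain ⟨h, hh⟩ : ∃ h : (Fin (m + 1) → ℝ) → Fin m → ℝ, h = fun y k =>
      if |x (i₀.succAbove k)| = 1 then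
        x (i₀.succAbove k) * y (i₀.succAbove k) - x i₀ * y i₀
      else y (i₀.succAbove k) - x (i₀.succAbove k) := ⟨_, rfl⟩
  have hhT : ∀ y k, |x (i₀.succAbove k)| = 1 →
      h y k = x (i₀.succAbove k) * y (i₀.succAbove k) - x i₀ * y i₀ := by
    intro y k hk
    rw [hh]
    exact if_pos hk
  have hhN : ∀ y k, |x (i₀.succAbove k)| ≠ 1 →
      h y k = y (i₀.succAbove k) - x (i₀.succAbove k) := by
    intro y k hk
    rw [hh]
    exact if_neg hk
  have hhx : ∀ k, h x k = 0 := by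
    intro k
    by_cases hk : |x (i₀.succAbove k)| = 1
    · rw [hhT x k hk, hsq _ hk, hsq _ hi₀, sub_self]
    · rw [hhN x k hk, sub_self]
  have hPL : PLOn h W := by
    refine PLOn.pi hWp fun k => ?_
    by_cases hk : |x (i₀.succAbove k)| = 1
    · have h1 := ((((PLOn.id hWp).apply (i₀.succAbove k)).const_smul (x (i₀.succAbove k))).add
        (((PLOn.id hWp).apply i₀).const_smul (-(x i₀))))
      refine h1.congr fun y _ => ?_
      show x (i₀.succAbove k) • y (i₀.succAbove k) + (-(x i₀)) • y i₀ = h y k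
      rw [hhT y k hk, smul_eq_mul, smul_eq_mul]
      ring
    · have h1 := ((PLOn.id hWp).apply (i₀.succAbove k)).add
        (PLOn.const hWp (-(x (i₀.succAbove k))))
      refine h1.congr fun y _ => ?_
      show y (i₀.succAbove k) + (-(x (i₀.succAbove k))) = h y k
      rw [hhN y k hk]
      ring
  -- the extreme coordinate
  have hle : ∀ y ∈ W, ∀ i, |x i| = 1 → x i * y i ≤ 1 := by
    intro y hy i hi
    have h1 := ((hSm y).1 (hWS hy)).1 i
    have h2 : |x i * y i| ≤ 1 := by rw [abs_mul, hi, one_mul]; exact h1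
    exact (abs_le.1 h2).2
  have hat : ∀ y ∈ W, ∃ i, |x i| = 1 ∧ x i * y i = 1 := by
    intro y hy
    obtain ⟨hyS, hyη⟩ := (hWm y).1 hy
    obtain ⟨_, i, hi⟩ := (hSm y).1 hyS
    have hxi : |x i| = 1 := by
      by_contra hne
      have h1 := hη i hne
      have h2 : |y i| ≤ |x i| + |y i - x i| := by
        have h4 := abs_add_le (x i) (y i - x i)
        have h5 : x i + (y i - x i) = y i := by ring
        rwa [h5] at h4
      have h3 := hyη i
      rw [hi] at h2
      linarith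
    refine ⟨i, hxi, ?_⟩
    have h1 : |x i * y i| = 1 := by rw [abs_mul, hxi, hi, one_mul]
    rcases (abs_eq zero_le_one).1 h1 with h2 | h2
    · exact h2
    · exfalso
      have h3 : |x i * (y i - x i)| ≤ η := by rw [abs_mul, hxi, one_mul]; exact hyη i
      have h4 := (abs_le.1 h3).1
      have h5 : x i * (y i - x i) = x i * y i - x i * x i := by ring
      rw [h5, h2, hsq i hxi] at h4
      linarith
  have hinj : InjOn h W := by
    have key : ∀ y ∈ W, ∀ y' ∈ W, h y = h y' → 0 ≤ x i₀ * y i₀ - x i₀ * y' i₀ := by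
      intro y hy y' hy' he
      obtain ⟨j, hj, hj1⟩ := hat y hy
      have h1 : x j * y j - x i₀ * y i₀ = x j * y' j - x i₀ * y' i₀ := by
        by_cases hji : j = i₀
        · rw [hji]; ring
        · obtain ⟨k, rfl⟩ := Fin.exists_succAbove_eq hji
          have := congrFun he k
          rwa [hhT y k hj, hhT y' k hj] at this
      have h2 := hle y' hy' j hj
      linarith
    intro y hy y' hy' he
    have hc : x i₀ * y i₀ = x i₀ * y' i₀ := by
      have h1 := key y hy y' hy' he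
      have h2 := key y' hy' y hy he.symm
      linarith
    ext i
    have hcancel : ∀ i, |x i| = 1 → x i * y i = x i * y' i → y i = y' i := by
      intro i hi h1
      have hne : x i ≠ 0 := by
        intro h0
        rw [h0, abs_zero] at hi
        exact zero_ne_one hi
      exact mul_left_cancel₀ hne h1
    by_cases hii : i = i₀
    · rw [hii]
      exact hcancel i₀ hi₀ hc
    · obtain ⟨k, rfl⟩ := Fin.exists_succAbove_eq hii
      have h1 := congrFun he k
      by_cases hk : |x (i₀.succAbove k)| = 1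
      · rw [hhT y k hk, hhT y' k hk] at h1
        exact hcancel _ hk (by linarith)
      · rw [hhN y k hk, hhN y' k hk] at h1
        linarith
  refine chart_of_local hWS hxW hWn hPL hinj (ε₀ := η / 2) (by linarith) ?_
  intro z hz
  have hz' : ∀ k, |z k| ≤ η / 2 := by
    intro k
    have := hz k
    rwa [hhx k, sub_zero] at this
  obtain ⟨w, hw⟩ : ∃ w : Fin (m + 1) → ℝ, w = Fin.insertNth (α := fun _ => ℝ) i₀ 0 z := ⟨_, rfl⟩
  have hw0 : w i₀ = 0 := by rw [hw]; exact Fin.insertNth_apply_same _ _ _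
  have hwk : ∀ k, w (i₀.succAbove k) = z k := by
    intro k; rw [hw]; exact Fin.insertNth_apply_succAbove _ _ _ _
  have hwb : ∀ i, |w i| ≤ η / 2 := by
    intro i
    by_cases hi : i = i₀
    · rw [hi, hw0, abs_zero]; linarith
    · obtain ⟨k, rfl⟩ := Fin.exists_succAbove_eq hi
      rw [hwk]; exact hz' k
  obtain ⟨j, hj, hjmax⟩ := Finset.exists_max_image
    (Finset.univ.filter fun i => |x i| = 1) w ⟨i₀, Finset.mem_filter.2 ⟨Finset.mem_univ _, hi₀⟩⟩
  have hj1 : |x j| = 1 := (Finset.mem_filter.1 hj).2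
  have hjm : ∀ i, |x i| = 1 → w i ≤ w j := fun i hi =>
    hjmax i (Finset.mem_filter.2 ⟨Finset.mem_univ _, hi⟩)
  have hjn : 0 ≤ w j := by rw [← hw0]; exact hjm i₀ hi₀
  obtain ⟨y, hy⟩ : ∃ y : Fin (m + 1) → ℝ, y = fun i =>
    if |x i| = 1 then x i * (1 + w i - w j) else x i + w i := ⟨_, rfl⟩
  have hyT : ∀ i, |x i| = 1 → y i = x i * (1 + w i - w j) := by
    intro i hi; rw [hy]; exact if_pos hi
  have hyN : ∀ i, |x i| ≠ 1 → y i = x i + w i := by
    intro i hi; rw [hy]; exact if_neg hi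
  refine ⟨y, (hWm y).2 ⟨(hSm y).2 ⟨fun i => ?_, j, ?_⟩, fun i => ?_⟩, ?_⟩
  · by_cases hi : |x i| = 1
    · rw [hyT i hi, abs_mul, hi, one_mul, abs_le]
      have h1 := (abs_le.1 (hwb i)).1
      have h2 := (abs_le.1 (hwb j)).2
      have h3 := hjm i hi
      constructor <;> linarith
    · rw [hyN i hi]
      have h1 := abs_add_le (x i) (w i)
      have h2 := hwb i
      have h3 := hη i hi
      linarith
  · rw [hyT j hj1, add_sub_cancel_right, mul_one, hj1]
  · by_cases hi : |x i| = 1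
    · have h4 : y i - x i = x i * (w i - w j) := by rw [hyT i hi]; ring
      rw [h4, abs_mul, hi, one_mul, abs_le]
      have h1 := (abs_le.1 (hwb i)).1
      have h2 := (abs_le.1 (hwb j)).2
      have h3 := hjm i hi
      constructor <;> linarith
    · rw [hyN i hi, add_sub_cancel_left]
      have h2 := hwb i
      linarith
  · ext k
    by_cases hk : |x (i₀.succAbove k)| = 1
    · rw [hhT y k hk, hyT _ hk, hyT _ hi₀, ← mul_assoc, ← mul_assoc, hsq _ hk, hsq _ hi₀, hwk, hw0]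
      ring
    · rw [hhN y k hk, hyN _ hk, hwk]
      ring

end Pool.H54.UB

end S_SM

section S_TRF

/-!
# Row TRF: transfer

Proof.  Put `b' v = (1/d) ∑_{σ ∈ L t} b (σ ∘ α)` for any `t ∈ T` and `α : Fin i → Fin (m+1)` with
`v = t ∘ α` (by choice; well defined by `hcons`, `0` if there is no such pair).  Then
`∑_j (-1)^j b' ((t ∘ α) ∘ δ_j) = (1/d) ∑_{σ ∈ L t} ∑_j (-1)^j b ((σ ∘ α) ∘ δ_j)
= (1/d) ∑_{σ ∈ L t} c (t ∘ α) = c (t ∘ α)`.
-/

namespace Pool.H54.UB

open Finset

theorem transfer_acyc {V W R : Type*} [Field R] (m d : ℕ)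
    (T : Finset (Fin (m + 1) → V))
    (L : (Fin (m + 1) → V) → Finset (Fin (m + 1) → W))
    (hcard : ∀ t ∈ T, (L t).card = d) (hd : (d : R) ≠ 0)
    (hcons : ∀ t ∈ T, ∀ t' ∈ T, ∀ (b : ℕ) (α α' : Fin b → Fin (m + 1)), t ∘ α = t' ∘ α' →
      (L t).val.map (fun σ => σ ∘ α) = (L t').val.map (fun σ => σ ∘ α'))
    (i : ℕ) (c : (Fin (i + 1) → V) → R) (b : (Fin i → W) → R)
    (hb : ∀ t ∈ T, ∀ σ ∈ L t, ∀ α : Fin (i + 1) → Fin (m + 1),
      c (t ∘ α) = ∑ j : Fin (i + 1), (-1) ^ (j : ℕ) * b ((σ ∘ α) ∘ j.succAbove)) :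
    ∃ b' : (Fin i → V) → R, ∀ t ∈ T, ∀ α : Fin (i + 1) → Fin (m + 1),
      c (t ∘ α) = ∑ j : Fin (i + 1), (-1) ^ (j : ℕ) * b' ((t ∘ α) ∘ j.succAbove) := by
  classical
  obtain ⟨b', hb'⟩ : ∃ b' : (Fin i → V) → R, ∀ t ∈ T, ∀ α : Fin i → Fin (m + 1),
      b' (t ∘ α) = (d : R)⁻¹ * ∑ σ ∈ L t, b (σ ∘ α) := by
    refine ⟨fun v => if h : ∃ q : (Fin (m + 1) → V) × (Fin i → Fin (m + 1)), q.1 ∈ T ∧
      q.1 ∘ q.2 = v then (d : R)⁻¹ * ∑ σ ∈ L h.choose.1, b (σ ∘ h.choose.2) else 0, ?_⟩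
    intro t ht α
    have h : ∃ q : (Fin (m + 1) → V) × (Fin i → Fin (m + 1)), q.1 ∈ T ∧ q.1 ∘ q.2 = t ∘ α :=
      ⟨(t, α), ht, rfl⟩
    show (if h : ∃ q : (Fin (m + 1) → V) × (Fin i → Fin (m + 1)), q.1 ∈ T ∧
      q.1 ∘ q.2 = t ∘ α then (d : R)⁻¹ * ∑ σ ∈ L h.choose.1, b (σ ∘ h.choose.2) else 0) = _
    rw [dif_pos h]
    have h1 := hcons _ h.choose_spec.1 t ht i _ α h.choose_spec.2
    have h2 := congrArg (fun M : Multiset (Fin i → W) => (M.map b).sum) h1
    simp only [Multiset.map_map] at h2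
    congr 1
  refine ⟨b', fun t ht α => ?_⟩
  have h1 : ∀ j : Fin (i + 1), b' ((t ∘ α) ∘ j.succAbove) =
      (d : R)⁻¹ * ∑ σ ∈ L t, b ((σ ∘ α) ∘ j.succAbove) := fun j => hb' t ht (α ∘ j.succAbove)
  simp only [h1]
  have h2 : ∑ j : Fin (i + 1), (-1 : R) ^ (j : ℕ) * ((d : R)⁻¹ *
      ∑ σ ∈ L t, b ((σ ∘ α) ∘ j.succAbove)) =
      (d : R)⁻¹ * ∑ σ ∈ L t, ∑ j : Fin (i + 1), (-1 : R) ^ (j : ℕ) *
        b ((σ ∘ α) ∘ j.succAbove) := by
    rw [Finset.sum_comm, Finset.mul_sum]
    refine Finset.sum_congr rfl fun j _ => ?_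
    rw [← Finset.mul_sum]
    ring
  rw [h2, Finset.sum_congr rfl fun σ hσ => (hb t ht σ hσ α).symm, Finset.sum_const, hcard t ht,
    nsmul_eq_mul, ← mul_assoc, inv_mul_cancel₀ hd, one_mul]

end Pool.H54.UB

end S_TRF

section S_FB

/-!
# Row FB: the connected covering complex and its acyclicity

* `ccov_pi1`: `c` from `pi1_cocycle`.  `coc`: the entries of `t ∈ K.tops m` are in a face.  `conn`: given `D`
  with the property for top tuples, the property for faces follows from purity (`GC.pure`: every face is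
  contained in a face with `m + 1` vertices, which is the range of some `t ∈ K.tops m`); the entries of
  `t ∈ K.tops m` are in `K.verts`.  `ne`: `M` is nonempty, purity.
* `ccov_unit`: from a `CCov` for any `Q`: `D : F → Unit → ℕ` gives `D' v q = D v ()`.
* `til_degree`: `til_card`; `til_props`: `facet` (subset), `cons` (`til_cons`).
* `cover_acyclic`: `N = sphere`, `K'` from `Adm.pullback`.  Given `c'` on `tilT c (K.tops m)`, apply
  `sphere_acyclic` to `K'` and `c'' τ = c' (fun i => (f (τ i), g (τ i)))`.  Cocycle condition: for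
  `K'.Tup τ` (`τ : Fin (i+2) → E`): by `GC.pure` for the sphere (`sphere_manifold`) the face containing `τ` is
  contained in a face with `m + 1` vertices, the range of some `σ : Fin (m+1) → E` injective, `τ = σ ∘ α`;
  by `Adm.tup_iff`, `K.Tup (f ∘ σ)` and `IsLift S f (f ∘ σ) σ`, `f ∘ σ` is injective (`f` is injective on the
  pieces), so `f ∘ σ ∈ K.tops m`, and `u = (f ∘ σ, g ∘ σ) ∈ tilT c (K.tops m)` by `mem_tilT` and `LPrim`.
  The primitive `b` satisfies for `u ∈ tilT`, `σ ∈ tilL (lifts S f) g u` (so `u i = (f (σ i), g (σ i))`):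
  `c' (u ∘ α) = c'' (σ ∘ α) = ∑ ± b ((σ ∘ α) ∘ δ_j)`.  `transfer_acyc` with `L = tilL (lifts S f) g`,
  `d * card Q = k`, so `(d : R) ≠ 0`.
-/

open Set Topology

namespace Pool.H54.UB

/-- A face with `m + 1` vertices is the range of a top tuple. -/
theorem FB_top {V : Type*} [NormedAddCommGroup V] [NormedSpace ℝ V] {m : ℕ} (K : GC V)
    {s : Finset V} (hs : s ∈ K.faces) (hc : s.card = m + 1) :
    ∃ t ∈ K.tops m, ∀ x ∈ s, ∃ i, t i = x := by
  have e := (Finset.equivFinOfCardEq hc).symm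
  refine ⟨fun i => (e i : V), GC.mem_tops.2 ⟨?_, s, hs, fun a => (e a).2⟩, fun x hx => ?_⟩
  · intro a b hab
    exact e.injective (Subtype.ext hab)
  · exact ⟨e.symm ⟨x, hx⟩, by simp⟩

theorem ccov_pi1 {n m : ℕ} {M : Set (Fin n → ℝ)} (hM : IsClosedPLManifold m M)
    (hc : IsConnected M) (K : GC (Fin n → ℝ)) (hK : K.space = M) (x₀ : M) :
    ∃ c : (Fin n → ℝ) → (Fin n → ℝ) → FundamentalGroup M x₀,
      (∀ s ∈ K.faces, ∀ u ∈ s, ∀ v ∈ s, ∀ w ∈ s, c u v * c v w = c u w) ∧
      CCov m K (FundamentalGroup M x₀) c := by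
  obtain ⟨c, hc1, hc2⟩ := pi1_cocycle hc K hK x₀
  have hpure := (GC.pure hM K hK).1
  refine ⟨c, hc1, ⟨?_, ?_, ?_⟩⟩
  · intro t ht i j k
    obtain ⟨-, s, hs, h⟩ := GC.mem_tops.1 ht
    exact hc1 s hs _ (h i) _ (h j) _ (h k)
  · intro D hD t ht t' ht' i j q q'
    obtain ⟨-, s, hs, h⟩ := GC.mem_tops.1 ht
    obtain ⟨-, s', hs', h'⟩ := GC.mem_tops.1 ht'
    refine hc2 D ?_ (t i) ⟨s, hs, h i⟩ (t' j) ⟨s', hs', h' j⟩ q q'
    intro r hr u hu v hv p
    obtain ⟨r', hr', hrr, hr'c⟩ := hpure r hr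
    obtain ⟨t0, ht0, ht0'⟩ := FB_top K hr' hr'c
    obtain ⟨a, rfl⟩ := ht0' u (hrr hu)
    obtain ⟨b, rfl⟩ := ht0' v (hrr hv)
    exact hD t0 ht0 a b p
  · have hx : (x₀ : Fin n → ℝ) ∈ K.space := by
      rw [hK]
      exact x₀.2
    obtain ⟨s, hs, -⟩ := mem_iUnion₂.1 hx
    obtain ⟨s', hs', -, hs'c⟩ := hpure s hs
    obtain ⟨t0, ht0, -⟩ := FB_top K hs' hs'c
    exact ⟨t0, ht0⟩

variable {E F : Type*} [NormedAddCommGroup E] [NormedSpace ℝ E] [FiniteDimensional ℝ E]
  [NormedAddCommGroup F] [NormedSpace ℝ F] [FiniteDimensional ℝ F]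

theorem ccov_unit {m : ℕ} {K : GC F} {Q : Type*} [Group Q] {c : F → F → Q}
    (h : CCov m K Q c) : CCov m K (Multiplicative Unit) (fun _ _ => 1) := by
  refine ⟨fun t _ i j k => Subsingleton.elim _ _, ?_, h.ne⟩
  intro D hD t ht t' ht' i j q q'
  have h1 := h.conn (fun v _ => D v 1) (fun t ht i j q => by
    have h2 := hD t ht i j 1
    rw [mul_one] at h2
    exact h2) t ht t' ht' i j 1 1
  rw [Subsingleton.elim q 1, Subsingleton.elim q' 1]
  exact h1

theorem til_degree {m k : ℕ} {K : GC F} {S : Finset (Finset E)} {f : E → F} {N : Set E}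
    (h : BrC m k K S f N) {Q : Type*} [Group Q] [Fintype Q] {c : F → F → Q}
    (hc : CCov m K Q c) {g : E → Q} (hg : LPrim m K S f c g) :
    ∃ d : ℕ, d * Fintype.card Q = k ∧
      (∀ u ∈ tilT c (K.tops m), (tilL (lifts S f) g u).card = d) ∧
      (∀ u ∈ tilT c (K.tops m), ∀ j : Fin (m + 1),
        InjOn (fun σ : Fin (m + 1) → E => σ ∘ j.succAbove) (tilL (lifts S f) g u)) ∧
      ∀ u ∈ tilT c (K.tops m), ∀ u' ∈ tilT c (K.tops m), ∀ (b : ℕ) (α α' : Fin b → Fin (m + 1)),
        u ∘ α = u' ∘ α' → (tilL (lifts S f) g u).val.map (fun σ => σ ∘ α) =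
          (tilL (lifts S f) g u').val.map (fun σ => σ ∘ α') := by
  classical
  obtain ⟨d, hd, hd2⟩ := til_card k c (K.tops m) hc.ne hc.coc (lifts S f) h.cards h.cons g hg
    hc.conn
  refine ⟨d, hd, hd2, fun u hu j => ?_, ?_⟩
  · obtain ⟨h1, -⟩ := (mem_tilT hc.coc).1 hu
    refine (h.facet _ h1 j).mono ?_
    intro σ hσ
    unfold tilL at hσ
    exact Finset.mem_coe.2 (Finset.mem_filter.1 (Finset.mem_coe.1 hσ)).1
  · exact til_cons k c (K.tops m) hc.ne hc.coc (lifts S f) h.cards h.cons g hg hc.conn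

theorem cover_acyclic {m k : ℕ} (hm : 1 ≤ m) {K : GC F} {S : Finset (Finset (Fin (m + 1) → ℝ))}
    {f : (Fin (m + 1) → ℝ) → F} (h : BrC m k K S f (Metric.sphere 0 1)) {Q : Type*} [Group Q]
    [Fintype Q] {c : F → F → Q} (hc : CCov m K Q c) {g : (Fin (m + 1) → ℝ) → Q}
    (hg : LPrim m K S f c g) (R : Type) [Field R] (hk : (k : R) ≠ 0) :
    Acyc m (tilT c (K.tops m)) R := by
  classical
  intro i hi him c' hc'
  obtain ⟨K', hK's, hK'f, -⟩ := h.adm.pullback
  obtain ⟨d, hd, hcard, -, hcons⟩ := til_degree h hc hg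
  have hdR : (d : R) ≠ 0 := by
    intro h0
    apply hk
    rw [← hd, Nat.cast_mul, h0, zero_mul]
  have key : ∀ (n : ℕ) (τ : Fin n → (Fin (m + 1) → ℝ)), K'.Tup τ →
      ∃ (σ : Fin (m + 1) → (Fin (m + 1) → ℝ)) (α : Fin n → Fin (m + 1)), τ = σ ∘ α ∧
        (fun a => (f (σ a), g (σ a))) ∈ tilT c (K.tops m) := by
    rintro n τ ⟨s, hs, hτ⟩
    obtain ⟨s', hs', hss, hs'c⟩ := (GC.pure (sphere_manifold m hm) K' hK's).1 s hs
    obtain ⟨σ, hσ, hσs⟩ := FB_top K' hs' hs'c
    have h1 : ∀ a, ∃ i, σ i = τ a := fun a => hσs _ (hss (hτ a))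
    choose α hα using h1
    obtain ⟨hσi, hσt⟩ := GC.mem_tops.1 hσ
    obtain ⟨h2, h3⟩ := (h.adm.tup_iff hK'f (Nat.succ_pos m) σ).1 hσt
    have h4 : (fun a => f (σ a)) ∈ K.tops m := by
      refine GC.mem_tops.2 ⟨?_, h2⟩
      obtain ⟨⟨s0, hs0, h5⟩, -⟩ := h3
      intro a b hab
      exact hσi (h.adm.inj s0 hs0 (h5 a) (h5 b) hab)
    have h5 : σ ∈ lifts S f (fun a => f (σ a)) := (h.adm.mem_lifts _ _).2 h3
    refine ⟨σ, α, funext fun a => (hα a).symm, (mem_tilT hc.coc).2 ⟨h4, fun a b => ?_⟩⟩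
    change g (σ b) = g (σ a) * c (f (σ a)) (f (σ b))
    have h6 := hg _ h4 σ h5 a b
    change c (f (σ a)) (f (σ b)) = _ at h6
    rw [h6, mul_inv_cancel_left]
  obtain ⟨b, hb⟩ := sphere_acyclic m K' hK's R i hi him
    (fun τ => c' (fun a => (f (τ a), g (τ a)))) (by
      intro τ hτ
      obtain ⟨σ, α, rfl, hu⟩ := key _ τ hτ
      exact hc' _ hu α)
  refine transfer_acyc m d (tilT c (K.tops m)) (tilL (lifts S f) g) hcard hdR hcons i c' b ?_
  intro u hu σ hσ α
  obtain ⟨h1, h2⟩ := (mem_tilT hc.coc).1 hu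
  unfold tilL at hσ
  obtain ⟨h3, h4⟩ := Finset.mem_filter.1 hσ
  have h5 := (h.adm.mem_lifts _ _).1 h3
  obtain ⟨⟨s, hs, h6⟩, h7⟩ := h5
  obtain ⟨-, s1, hs1, h8⟩ := GC.mem_tops.1 h1
  have hT : K'.Tup (σ ∘ α) := by
    refine (h.adm.tup_iff hK'f (Nat.succ_pos i) (σ ∘ α)).2 ⟨⟨s1, hs1, fun a => ?_⟩,
      ⟨s, hs, fun a => h6 _⟩, fun a => rfl⟩
    change f (σ (α a)) ∈ s1
    rw [h7]
    exact h8 _
  rw [← hb _ hT]
  congr 1
  funext a
  exact Prod.ext (h7 (α a)).symm (h4 (α a)).symm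

end Pool.H54.UB

end S_FB
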