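import Pool.Agent.H54.UB.Core
import Pool.Agent.H54.UM.G1
import Pool.Agent.H54.UM.G2
import Pool.Agent.H54.UM.G3

/-! Universal bases, part G4: this file joins several modules to save build time. -/

section S_STK

/-!
# Row STK: Stokes for a pseudomanifold with coherent orientation

Proof.  Fix `φ`.  `∑_t ε t ∑_j (-1)^j φ (t ∘ δ_j) = ∑_j ∑_r (-1)^j φ r * (∑_{t ∈ T, t ∘ δ_j = r} ε t)`
(sum over the finitely many `r` that occur).  The tuples `t ∈ T` with `t ∘ δ_j = r` are the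
`Fin.insertNth j w r ∈ T`; since `T` is closed under permutations and `ε` is alternating,
`insertNth j w r ∈ T ↔ cons w r ∈ T` and `ε (insertNth j w r) = (-1)^j ε (cons w r)` (the permutation
moving position `0` to position `j` is a cycle of length `j+1`, e.g. `Fin.cycleRange`; sign `(-1)^j`).
By `htwo` there are exactly two such `w`, with opposite `ε`: the sum vanishes.
-/

namespace Pool.H54.UB

open Finset

theorem STK_ins {X : Type*} {m : ℕ} (j : Fin (m + 1)) (w : X) (r : Fin m → X) :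
    (Fin.insertNth j w r : Fin (m + 1) → X) =
      (Fin.cons w r : Fin (m + 1) → X) ∘ j.cycleRange := by
  funext i
  refine Fin.succAboveCases j ?_ (fun k => ?_) i
  · rw [Fin.insertNth_apply_same, Function.comp_apply, Fin.cycleRange_self, Fin.cons_zero]
  · rw [Fin.insertNth_apply_succAbove, Function.comp_apply, Fin.cycleRange_succAbove,
      Fin.cons_succ]

theorem eps_insertNth {X : Type*} {m : ℕ} (T : Finset (Fin (m + 1) → X))
    (hperm : ∀ t ∈ T, ∀ π : Equiv.Perm (Fin (m + 1)), t ∘ π ∈ T)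
    (ε : (Fin (m + 1) → X) → ℤ)
    (halt : ∀ t ∈ T, ∀ π : Equiv.Perm (Fin (m + 1)),
      ε (t ∘ π) = (Equiv.Perm.sign π : ℤ) * ε t)
    (j : Fin (m + 1)) (w : X) (r : Fin m → X) :
    ((Fin.insertNth j w r : Fin (m + 1) → X) ∈ T ↔ (Fin.cons w r : Fin (m + 1) → X) ∈ T) ∧
    ((Fin.cons w r : Fin (m + 1) → X) ∈ T →
      ε (Fin.insertNth j w r : Fin (m + 1) → X) =
        (-1) ^ (j : ℕ) * ε (Fin.cons w r : Fin (m + 1) → X)) := by
  refine ⟨⟨fun h => ?_, fun h => ?_⟩, fun h => ?_⟩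
  · have h1 := hperm _ h (j.cycleRange).symm
    rw [STK_ins] at h1
    have h2 : ((Fin.cons w r : Fin (m + 1) → X) ∘ j.cycleRange) ∘ ⇑(j.cycleRange).symm =
        (Fin.cons w r : Fin (m + 1) → X) := by
      funext i
      simp only [Function.comp_apply, Equiv.apply_symm_apply]
    rwa [h2] at h1
  · rw [STK_ins]
    exact hperm _ h _
  · rw [STK_ins, halt _ h, Fin.sign_cycleRange]
    push_cast
    rfl

theorem STK_zero {X R : Type*} [CommRing R] {m : ℕ} (T : Finset (Fin (m + 1) → X))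
    (ε : (Fin (m + 1) → X) → ℤ)
    (htwo : ∀ r : Fin m → X, (∃ u, (Fin.cons u r : Fin (m + 1) → X) ∈ T) →
      ∃ u v, u ≠ v ∧ (Fin.cons u r : Fin (m + 1) → X) ∈ T ∧
        (Fin.cons v r : Fin (m + 1) → X) ∈ T ∧
        (∀ w, (Fin.cons w r : Fin (m + 1) → X) ∈ T → w = u ∨ w = v) ∧
        ε (Fin.cons u r : Fin (m + 1) → X) = - ε (Fin.cons v r : Fin (m + 1) → X))
    (φ : (Fin m → X) → R) :
    ∑ t ∈ T, (ε t : R) * φ (fun i => t i.succ) = 0 := by
  have key : ∀ t ∈ T, ∃ w, w ≠ t 0 ∧ (Fin.cons w (fun i => t i.succ) : Fin (m + 1) → X) ∈ T ∧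
      ε (Fin.cons w (fun i => t i.succ) : Fin (m + 1) → X) = - ε t ∧
      ∀ w', (Fin.cons w' (fun i => t i.succ) : Fin (m + 1) → X) ∈ T → w' = t 0 ∨ w' = w := by
    intro t ht
    have e : (Fin.cons (t 0) (fun i => t i.succ) : Fin (m + 1) → X) = t := Fin.cons_self_tail t
    obtain ⟨u, v, huv, hu, hv, hall, hε⟩ := htwo (fun i => t i.succ) ⟨t 0, by rw [e]; exact ht⟩
    rcases hall (t 0) (by rw [e]; exact ht) with h1 | h1
    · refine ⟨v, fun h => huv (h1 ▸ h.symm), hv, ?_, fun w' hw' => ?_⟩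
      · rw [← h1, e] at hε
        rw [hε, neg_neg]
      · rcases hall w' hw' with h2 | h2
        · exact Or.inl (h2.trans h1.symm)
        · exact Or.inr h2
    · refine ⟨u, fun h => huv (h.trans h1), hu, ?_, fun w' hw' => ?_⟩
      · rw [← h1, e] at hε
        exact hε
      · rcases hall w' hw' with h2 | h2
        · exact Or.inr h2
        · exact Or.inl (h2.trans h1.symm)
  choose w hw1 hw2 hw3 hw4 using key
  refine Finset.sum_involution
    (fun t ht => (Fin.cons (w t ht) (fun i => t i.succ) : Fin (m + 1) → X)) ?_ ?_ ?_ ?_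
  · intro t ht
    have h1 : (fun i : Fin m => (Fin.cons (w t ht) (fun i => t i.succ) : Fin (m + 1) → X) i.succ) =
        fun i => t i.succ := by
      funext i
      rw [Fin.cons_succ]
    rw [h1, hw3 t ht]
    push_cast
    ring
  · intro t ht _ h
    apply hw1 t ht
    have := congrFun h 0
    rw [Fin.cons_zero] at this
    exact this
  · intro t ht
    exact hw2 t ht
  · intro t ht
    have h1 : (fun i : Fin m => (Fin.cons (w t ht) (fun i => t i.succ) : Fin (m + 1) → X) i.succ) =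
        fun i => t i.succ := by
      funext i
      rw [Fin.cons_succ]
    have h2 := hw1 _ (hw2 t ht)
    have h3 := hw2 _ (hw2 t ht)
    rw [h1] at h3
    rw [Fin.cons_zero] at h2
    have h4 : w _ (hw2 t ht) = t 0 := by
      rcases hw4 t ht _ h3 with h5 | h5
      · exact h5
      · exact absurd h5 h2
    show (Fin.cons (w _ (hw2 t ht)) (fun i : Fin m =>
      (Fin.cons (w t ht) (fun i => t i.succ) : Fin (m + 1) → X) i.succ) : Fin (m + 1) → X) = t
    rw [h1, h4]
    exact Fin.cons_self_tail t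

theorem stokes_of_two {X R : Type*} [CommRing R] {m : ℕ} (T : Finset (Fin (m + 1) → X))
    (hperm : ∀ t ∈ T, ∀ π : Equiv.Perm (Fin (m + 1)), t ∘ π ∈ T)
    (ε : (Fin (m + 1) → X) → ℤ)
    (halt : ∀ t ∈ T, ∀ π : Equiv.Perm (Fin (m + 1)),
      ε (t ∘ π) = (Equiv.Perm.sign π : ℤ) * ε t)
    (htwo : ∀ r : Fin m → X, (∃ u, (Fin.cons u r : Fin (m + 1) → X) ∈ T) →
      ∃ u v, u ≠ v ∧ (Fin.cons u r : Fin (m + 1) → X) ∈ T ∧
        (Fin.cons v r : Fin (m + 1) → X) ∈ T ∧
        (∀ w, (Fin.cons w r : Fin (m + 1) → X) ∈ T → w = u ∨ w = v) ∧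
        ε (Fin.cons u r : Fin (m + 1) → X) = - ε (Fin.cons v r : Fin (m + 1) → X))
    (φ : (Fin m → X) → R) :
    ∑ t ∈ T, (ε t : R) * ∑ j : Fin (m + 1), (-1) ^ (j : ℕ) * φ (t ∘ j.succAbove) = 0 := by
  simp only [Finset.mul_sum]
  rw [Finset.sum_comm]
  refine Finset.sum_eq_zero fun j _ => ?_
  rw [← STK_zero T ε htwo φ]
  refine Finset.sum_bij (fun t _ => t ∘ ⇑(j.cycleRange).symm) (fun t ht => hperm t ht _) ?_ ?_ ?_
  · intro t _ t' _ h
    funext i
    have := congrFun h (j.cycleRange i)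
    simpa using this
  · intro t ht
    refine ⟨t ∘ ⇑(j.cycleRange), hperm t ht _, ?_⟩
    funext i
    simp only [Function.comp_apply, Equiv.apply_symm_apply]
  · intro t ht
    have h1 : t ∘ ⇑(j.cycleRange).symm ∘ Fin.succ = t ∘ j.succAbove := by
      funext i
      show t ((j.cycleRange).symm i.succ) = t (j.succAbove i)
      rw [← Fin.cycleRange_succAbove j i, Equiv.symm_apply_apply]
    have h2 : ε (t ∘ ⇑(j.cycleRange).symm) = (-1) ^ (j : ℕ) * ε t := by
      rw [halt t ht, Equiv.Perm.sign_symm, Fin.sign_cycleRange]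
      push_cast
      rfl
    have h3 : (fun i : Fin m => (t ∘ ⇑(j.cycleRange).symm) i.succ) = t ∘ j.succAbove := h1
    rw [h2, h3]
    push_cast
    ring

end Pool.H54.UB

end S_STK

section S_IMG

/-!
# Row IMG: tops of an image complex

If `L' = h(L)` is the image complex of `GC.image_complex` (`h` injective on `L.space`, affine on the
hulls) then the ordered top simplices of `L'` are the images `h ∘ t` of those of `L`, bijectively.
-/

open Set Topology

namespace Pool.H54.UB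

variable {E F : Type*} [NormedAddCommGroup E] [NormedSpace ℝ E]
  [NormedAddCommGroup F] [NormedSpace ℝ F]

theorem IMG_sub {L : GC E} {s : Finset E} (hs : s ∈ L.faces) {x : E} (hx : x ∈ s) :
    x ∈ L.space := by
  unfold GC.space
  exact mem_biUnion hs (subset_convexHull ℝ _ hx)

theorem IMG_tup {L : GC E} {n : ℕ} {t : Fin n → E} (ht : L.Tup t) (i : Fin n) : t i ∈ L.space := by
  obtain ⟨s, hs, h⟩ := ht
  exact IMG_sub hs (h i)

theorem GC.tup_image {L : GC E} {L' : GC F} {h : E → F} (hi : InjOn h L.space)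
    (hL' : ∀ s' : Finset F, s' ∈ L'.faces ↔ ∃ s ∈ L.faces, (s' : Set F) = h '' (s : Set E))
    {n : ℕ} (t : Fin n → E) (ht : L.Tup t) : L'.Tup (fun i => h (t i)) := by
  classical
  obtain ⟨s, hs, h1⟩ := ht
  refine ⟨s.image h, (hL' _).2 ⟨s, hs, by simp⟩, fun a => Finset.mem_image_of_mem _ (h1 a)⟩

theorem GC.tops_image {L : GC E} {L' : GC F} {h : E → F} (hi : InjOn h L.space)
    (hL' : ∀ s' : Finset F, s' ∈ L'.faces ↔ ∃ s ∈ L.faces, (s' : Set F) = h '' (s : Set E))
    (m : ℕ) :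
    (∀ t ∈ L.tops m, (fun i => h (t i)) ∈ L'.tops m) ∧
      (∀ t' ∈ L'.tops m, ∃ t ∈ L.tops m, (fun i => h (t i)) = t') ∧
      InjOn (fun t : Fin (m + 1) → E => fun i => h (t i)) (L.tops m) := by
  classical
  refine ⟨fun t ht => ?_, fun t' ht' => ?_, fun t ht t' ht' e => ?_⟩
  · have h1 := GC.mem_tops.1 ht
    refine GC.mem_tops.2 ⟨fun i j e => ?_, GC.tup_image hi hL' t h1.2⟩
    exact h1.1 (hi (IMG_tup h1.2 i) (IMG_tup h1.2 j) e)
  · have h1 := GC.mem_tops.1 ht'
    obtain ⟨s', hs', h2⟩ := h1.2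
    obtain ⟨s, hs, h3⟩ := (hL' s').1 hs'
    have h4 : ∀ i, ∃ x ∈ s, h x = t' i := by
      intro i
      have : t' i ∈ (s' : Set F) := h2 i
      rw [h3] at this
      obtain ⟨x, hx, e⟩ := this
      exact ⟨x, hx, e⟩
    choose t ht hte using h4
    refine ⟨t, GC.mem_tops.2 ⟨fun i j e => ?_, s, hs, ht⟩, funext hte⟩
    apply h1.1
    rw [← hte i, ← hte j, e]
  · have h1 := GC.mem_tops.1 (Finset.mem_coe.1 ht)
    have h2 := GC.mem_tops.1 (Finset.mem_coe.1 ht')
    funext i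
    exact hi (IMG_tup h1.2 i) (IMG_tup h2.2 i) (congrFun e i)

end Pool.H54.UB

end S_IMG

section S_EVA

/-!
# Row EVA: the corner evaluation on a triangulated unit cube

`L` is a complex in `Fin m → ℝ` whose space is the unit cube and which is adapted to the facets
`{y ∈ cube | y i = 0}` and `{y ∈ cube | y i = 1}`.  `θ i v = 1` if `v i = 1`, else `0`.
`ζ` is `±1` on the ordered top simplices, alternating, and (if `m > 0`) satisfies the *relative* Stokes
formula:
`∑_t ζ t ∑_j (-1)^j φ (t ∘ δ_j) = 0` for all `φ` that vanish on the facet tuples `r` whose entries all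
lie in one facet of the cube.  Claim:
`∑_t ζ t ∏_{i<m} (θ i (t (i+1)) - θ i (t i)) = ± (m+1)!`.

Proof by induction on `m`.  `m = 0`: one vertex, the sum is `ζ = ±1`.
Step: `φ r = θ 0 (r 0) * ∏_{1 ≤ i < m} (θ i (r i) - θ i (r (i-1)))` for `r : Fin m → ..`.  Since
`δ (θ_0 ∪ u) = δθ_0 ∪ u` for the cocycle `u = δθ_1 ∪ .. ∪ δθ_{m-1}` (telescoping as in row CH, or a direct
induction), `∑_j (-1)^j φ (t ∘ δ_j) = ∏_{i<m} (θ i (t (i+1)) - θ i (t i))` for every `t`.
Split `φ = φ₁ + φ₂`, `φ₁` = part supported on tuples contained in a facet of the cube, and apply the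
relative Stokes formula to `φ₂`.  Let `r` be a tuple with `r = t ∘ δ_j`, `t` top, contained in a facet
`{y i = c}`: if `i ≥ 1` then `φ r = 0` (one factor is `0`); if `i = 0, c = 0` then `φ r = 0`
(`θ 0 (r 0) = 0`); if all entries are in `{y 0 = 1}`: `φ r = ∏_{1 ≤ i < m} (..)`.  For such `r` there is
exactly one vertex `u_r` with `cons u_r r` a top tuple (`unique_top`: existence: the barycentre of `r`
is a limit of interior points of the cube, each in the hull of a top face, finiteness, closedness,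
`carrier_sub`; uniqueness: two different top faces containing `r` would be on opposite sides of the
hyperplane `{y 0 = 1}` by `GC.opposite`, but both lie in `{y 0 ≤ 1}`).  By `eps_insertNth` (row STK)
`∑_{t, j : t ∘ δ_j = r} (-1)^j ζ t = (m+1) ζ (cons u_r r)`.
So the sum equals `(m+1) ∑_r ζ' r ∏_{1≤i<m} ..` with `ζ' r = ζ (cons u_r r)`, `r` running over the ordered
`m`-element faces of `L` in `{y 0 = 1}`.  The subcomplex of `L` in that facet is mapped by
`y ↦ Fin.tail y` to a complex in `Fin (m-1) → ℝ` (`GC.restrict`, `GC.image_complex`) whose space is the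
unit cube, adapted to its facets; `ζ'` is `±1`, alternating.  Relative Stokes for `ζ'`: let `ψ` (on
`(m-1)`-tuples) vanish on tuples in a facet of the smaller cube; apply `∑_j (-1)^j φ(t∘δ_j) = 0`
for `φ = δ ψ'`, where `ψ' q = ψ (tail ∘ q)` if all entries of `q` are in `{y 0 = 1}`, and `0` otherwise
(`δ δ = 0`, pure algebra, gives `∑_t ζ t ∑_j (-1)^j (δψ') (t ∘ δ_j) = 0` without any hypothesis);
in this sum the tuples `r` not contained in any facet of the cube contribute `0` by the relative Stokes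
formula; a tuple `r` contained in a facet different from `{y 0 = 1}`: every `q = r ∘ δ_j` with
`ψ' q ≠ 0` would be in `{y 0 = 1}` and in the other facet, i.e. its tail in a facet of the smaller
cube (or the facet is `{y 0 = 0}`, impossible; `m ≥ 2`; for `m = 1` the smaller cube is a point and there
is nothing to prove), so `ψ' q = 0`; the remaining `r` are in `{y 0 = 1}` and give
`(m+1) ∑_r ζ' r (δ ψ)(tail r)`; divide by `(m+1) ≠ 0`.
-/

open Set Topology

namespace Pool.H54.UB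

section alg

variable {X R : Type*}

theorem EVA_sign [CommRing R] (n : ℕ) (i : Fin (n + 2)) (j : Fin (n + 1)) :
    (-1 : R) ^ (i.succAbove j : ℕ) * (-1 : R) ^ (j.predAbove i : ℕ) =
      -((-1 : R) ^ (i : ℕ) * (-1 : R) ^ (j : ℕ)) := by
  rcases lt_or_ge j.castSucc i with h | h
  · rw [Fin.succAbove_of_castSucc_lt _ _ h, Fin.predAbove_of_castSucc_lt _ _ h, Fin.val_castSucc]
    have h1 : (i : ℕ) = (i.pred (Fin.ne_zero_of_lt h) : ℕ) + 1 := by
      rw [Fin.val_pred]
      have : (j.castSucc : ℕ) < i := h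
      omega
    rw [h1, pow_succ]
    ring
  · rw [Fin.succAbove_of_le_castSucc _ _ h, Fin.predAbove_of_le_castSucc _ _ h, Fin.val_succ,
      Fin.coe_castPred, pow_succ]
    ring

theorem EVA_dd [CommRing R] (n : ℕ) (φ : (Fin n → X) → R) (t : Fin (n + 2) → X) :
    ∑ i : Fin (n + 2), (-1 : R) ^ (i : ℕ) *
      ∑ j : Fin (n + 1), (-1 : R) ^ (j : ℕ) * φ ((t ∘ i.succAbove) ∘ j.succAbove) = 0 := by
  simp only [Finset.mul_sum]
  rw [← Finset.sum_product']
  refine Finset.sum_involution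
    (fun (p : Fin (n + 2) × Fin (n + 1)) _ => (p.1.succAbove p.2, p.2.predAbove p.1)) ?_ ?_ ?_ ?_
  · rintro ⟨i, j⟩ -
    have h1 : (t ∘ (i.succAbove j).succAbove) ∘ (j.predAbove i).succAbove =
        (t ∘ i.succAbove) ∘ j.succAbove := by
      funext x
      simp only [Function.comp_apply]
      rw [Fin.succAbove_succAbove_succAbove_predAbove]
    show (-1 : R) ^ (i : ℕ) * ((-1 : R) ^ (j : ℕ) * φ ((t ∘ i.succAbove) ∘ j.succAbove)) +
      (-1 : R) ^ (i.succAbove j : ℕ) * ((-1 : R) ^ (j.predAbove i : ℕ) *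
        φ ((t ∘ (i.succAbove j).succAbove) ∘ (j.predAbove i).succAbove)) = 0
    rw [h1, ← mul_assoc, ← mul_assoc, EVA_sign]
    ring
  · rintro ⟨i, j⟩ - - h
    have h1 : i.succAbove j = i := congrArg Prod.fst h
    exact Fin.succAbove_ne i j h1
  · rintro ⟨i, j⟩ -
    exact Finset.mem_product.2 ⟨Finset.mem_univ _, Finset.mem_univ _⟩
  · rintro ⟨i, j⟩ -
    show ((i.succAbove j).succAbove (j.predAbove i), (j.predAbove i).predAbove (i.succAbove j)) =
      (i, j)
    rcases lt_or_ge j.castSucc i with h | h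
    · rw [Fin.succAbove_of_castSucc_lt _ _ h, Fin.predAbove_of_castSucc_lt _ _ h]
      have h1 : j.castSucc ≤ (i.pred (Fin.ne_zero_of_lt h)).castSucc := by
        rw [Fin.le_def, Fin.val_castSucc, Fin.val_castSucc, Fin.val_pred]
        have : (j.castSucc : ℕ) < i := h
        rw [Fin.val_castSucc] at this
        omega
      rw [Fin.succAbove_of_le_castSucc _ _ h1, Fin.predAbove_of_le_castSucc _ _ h1,
        Fin.succ_pred, Fin.castPred_castSucc]
    · rw [Fin.succAbove_of_le_castSucc _ _ h, Fin.predAbove_of_le_castSucc _ _ h]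
      have h1 : (i.castPred (Fin.ne_last_of_lt (lt_of_le_of_lt h (Fin.castSucc_lt_last j)))).castSucc
          < j.succ := by
        rw [Fin.castSucc_castPred]
        exact lt_of_le_of_lt h (Fin.castSucc_lt_succ)
      rw [Fin.succAbove_of_castSucc_lt _ _ h1, Fin.predAbove_of_castSucc_lt _ _ h1,
        Fin.pred_succ]
      exact Prod.ext (Fin.castSucc_castPred _ _) rfl

/-- Product of the coboundaries of the functions `g i`. -/
def EVA_P [CommRing R] {k : ℕ} (g : Fin k → X → R) (r : Fin (k + 1) → X) : R :=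
  ∏ i : Fin k, (g i (r i.succ) - g i (r i.castSucc))

theorem EVA_P_succ [CommRing R] {k : ℕ} (g : Fin (k + 1) → X → R) (r : Fin (k + 2) → X) :
    EVA_P g r = (g 0 (r 1) - g 0 (r 0)) * EVA_P (fun i => g i.succ) (r ∘ Fin.succ) := by
  unfold EVA_P
  rw [Fin.prod_univ_succ]
  rfl

theorem EVA_A_of [CommRing R] {k : ℕ} (g : Fin k → X → R)
    (hg : ∀ t : Fin (k + 2) → X, ∑ j : Fin (k + 2), (-1 : R) ^ (j : ℕ) *
      EVA_P g (t ∘ j.succAbove) = 0) (f : X → R) (t : Fin (k + 2) → X) :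
    ∑ j : Fin (k + 2), (-1 : R) ^ (j : ℕ) *
      (f ((t ∘ j.succAbove) 0) * EVA_P g (t ∘ j.succAbove)) =
      (f (t 1) - f (t 0)) * EVA_P g (t ∘ Fin.succ) := by
  have h1 := hg t
  rw [Fin.sum_univ_succ] at h1
  rw [Fin.sum_univ_succ]
  have h2 : ∀ j : Fin (k + 1), (t ∘ j.succ.succAbove) 0 = t 0 := by
    intro j
    rw [Function.comp_apply, Fin.succ_succAbove_zero]
  simp only [h2]
  have h3 : (t ∘ (0 : Fin (k + 2)).succAbove) = t ∘ Fin.succ := by
    rw [Fin.succAbove_zero]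
  rw [h3] at h1 ⊢
  have h4 : (t ∘ Fin.succ) 0 = t 1 := rfl
  have h5 : ∑ j : Fin (k + 1), (-1 : R) ^ (j.succ : ℕ) *
      (f (t 0) * EVA_P g (t ∘ j.succ.succAbove)) =
      f (t 0) * ∑ j : Fin (k + 1), (-1 : R) ^ (j.succ : ℕ) * EVA_P g (t ∘ j.succ.succAbove) := by
    rw [Finset.mul_sum]
    exact Finset.sum_congr rfl fun j _ => by ring
  rw [h4, h5, Fin.val_zero, pow_zero, one_mul]
  rw [Fin.val_zero, pow_zero, one_mul] at h1
  linear_combination f (t 0) * h1

theorem EVA_cocycle [CommRing R] : ∀ {k : ℕ} (g : Fin k → X → R) (t : Fin (k + 2) → X),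
    ∑ j : Fin (k + 2), (-1 : R) ^ (j : ℕ) * EVA_P g (t ∘ j.succAbove) = 0 := by
  intro k
  induction k with
  | zero =>
    intro g t
    rw [Fin.sum_univ_two]
    simp [EVA_P]
  | succ k ih =>
    intro g t
    have h1 : ∀ r : Fin (k + 2) → X, EVA_P g r = ∑ j : Fin (k + 2), (-1 : R) ^ (j : ℕ) *
        (fun q : Fin (k + 1) → X => g 0 (q 0) * EVA_P (fun i => g i.succ) q)
          (r ∘ j.succAbove) := by
      intro r
      rw [EVA_P_succ]
      exact (EVA_A_of (fun i => g i.succ) (ih _) (g 0) r).symm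
    simp only [h1]
    exact EVA_dd (R := R) (k + 1)
      (fun q : Fin (k + 1) → X => g 0 (q 0) * EVA_P (fun i => g i.succ) q) t

theorem EVA_A [CommRing R] {k : ℕ} (g : Fin (k + 1) → X → R) (t : Fin (k + 2) → X) :
    ∑ j : Fin (k + 2), (-1 : R) ^ (j : ℕ) *
      (g 0 ((t ∘ j.succAbove) 0) * EVA_P (fun i => g i.succ) (t ∘ j.succAbove)) = EVA_P g t := by
  rw [EVA_P_succ]
  exact EVA_A_of (fun i => g i.succ) (EVA_cocycle fun i => g i.succ) (g 0) t

/-- Collapsing the sum over the faces. -/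
theorem EVA_C [CommRing R] {n : ℕ} (T : Finset (Fin (n + 1) → X))
    (hperm : ∀ t ∈ T, ∀ π : Equiv.Perm (Fin (n + 1)), t ∘ π ∈ T)
    (ε : (Fin (n + 1) → X) → ℤ)
    (halt : ∀ t ∈ T, ∀ π : Equiv.Perm (Fin (n + 1)),
      ε (t ∘ π) = (Equiv.Perm.sign π : ℤ) * ε t) (Ψ : (Fin n → X) → R) :
    ∑ t ∈ T, (ε t : R) * ∑ j : Fin (n + 1), (-1 : R) ^ (j : ℕ) * Ψ (t ∘ j.succAbove) =
      ((n + 1 : ℕ) : R) * ∑ t ∈ T, (ε t : R) * Ψ (t ∘ Fin.succ) := by
  simp only [Finset.mul_sum (Finset.univ)]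
  rw [Finset.sum_comm]
  have key : ∀ j : Fin (n + 1),
      ∑ t ∈ T, (ε t : R) * ((-1 : R) ^ (j : ℕ) * Ψ (t ∘ j.succAbove)) =
        ∑ t ∈ T, (ε t : R) * Ψ (t ∘ Fin.succ) := by
    intro j
    have hself : ∀ t : Fin (n + 1) → X,
        (Fin.insertNth j (t j) (t ∘ j.succAbove) : Fin (n + 1) → X) = t := by
      intro t
      exact Fin.insertNth_self_removeNth j t
    refine Finset.sum_nbij' (fun t => (Fin.cons (t j) (t ∘ j.succAbove) : Fin (n + 1) → X))
      (fun t => (Fin.insertNth j (t 0) (t ∘ Fin.succ) : Fin (n + 1) → X)) ?_ ?_ ?_ ?_ ?_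
    · intro t ht
      refine ((eps_insertNth T hperm ε halt j (t j) (t ∘ j.succAbove)).1).1 ?_
      rw [hself]
      exact ht
    · intro t ht
      refine ((eps_insertNth T hperm ε halt j (t 0) (t ∘ Fin.succ)).1).2 ?_
      have : (Fin.cons (t 0) (t ∘ Fin.succ) : Fin (n + 1) → X) = t := Fin.cons_self_tail t
      rw [this]
      exact ht
    · intro t _
      have h1 : (Fin.cons (t j) (t ∘ j.succAbove) : Fin (n + 1) → X) ∘ Fin.succ =
          t ∘ j.succAbove := by
        funext x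
        simp
      show (Fin.insertNth j ((Fin.cons (t j) (t ∘ j.succAbove) : Fin (n + 1) → X) 0)
        ((Fin.cons (t j) (t ∘ j.succAbove) : Fin (n + 1) → X) ∘ Fin.succ) : Fin (n + 1) → X) = t
      rw [h1, Fin.cons_zero, hself]
    · intro t _
      have h1 : (Fin.insertNth j (t 0) (t ∘ Fin.succ) : Fin (n + 1) → X) ∘ j.succAbove =
          t ∘ Fin.succ := by
        funext x
        simp
      show (Fin.cons ((Fin.insertNth j (t 0) (t ∘ Fin.succ) : Fin (n + 1) → X) j)
        ((Fin.insertNth j (t 0) (t ∘ Fin.succ) : Fin (n + 1) → X) ∘ j.succAbove) :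
          Fin (n + 1) → X) = t
      rw [h1, Fin.insertNth_apply_same]
      exact Fin.cons_self_tail t
    · intro t ht
      have h1 : (Fin.cons (t j) (t ∘ j.succAbove) : Fin (n + 1) → X) ∘ Fin.succ =
          t ∘ j.succAbove := by
        funext x
        simp
      have h2 := (eps_insertNth T hperm ε halt j (t j) (t ∘ j.succAbove)).2 (by
        refine ((eps_insertNth T hperm ε halt j (t j) (t ∘ j.succAbove)).1).1 ?_
        rw [hself]
        exact ht)
      rw [hself] at h2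
      rw [h1, h2]
      push_cast
      have h3 : (-1 : R) ^ (j : ℕ) * (-1 : R) ^ (j : ℕ) = 1 := by
        rw [← mul_pow]
        norm_num
      linear_combination (ε (Fin.cons (t j) (t ∘ j.succAbove) : Fin (n + 1) → X) : R) *
        Ψ (t ∘ j.succAbove) * h3
  rw [Finset.sum_congr rfl fun j _ => key j, Finset.sum_const, Finset.card_univ, Fintype.card_fin,
    nsmul_eq_mul]

end alg

section geo

theorem EVA_tops_perm {E : Type*} [NormedAddCommGroup E] [NormedSpace ℝ E] (L : GC E) (n : ℕ) :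
    ∀ t ∈ L.tops n, ∀ π : Equiv.Perm (Fin (n + 1)), t ∘ π ∈ L.tops n := by
  intro t ht π
  rw [GC.mem_tops] at ht ⊢
  obtain ⟨hi, s, hs, hts⟩ := ht
  exact ⟨hi.comp π.injective, s, hs, fun a => hts (π a)⟩

theorem EVA_face {E : Type*} [NormedAddCommGroup E] [NormedSpace ℝ E] [DecidableEq E] {L : GC E} {n : ℕ}
    {t : Fin (n + 1) → E} (h : L.Tup t) : (Finset.univ.image t) ∈ L.faces := by
  obtain ⟨s, hs, hts⟩ := h
  refine L.down s hs _ ?_ ⟨t 0, Finset.mem_image_of_mem t (Finset.mem_univ 0)⟩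
  intro x hx
  obtain ⟨a, -, rfl⟩ := Finset.mem_image.1 hx
  exact hts a

theorem EVA_mem_space {E : Type*} [NormedAddCommGroup E] [NormedSpace ℝ E] {L : GC E} {n : ℕ}
    {t : Fin n → E} (h : L.Tup t) (a : Fin n) : t a ∈ L.space := by
  obtain ⟨s, hs, hts⟩ := h
  exact Set.mem_iUnion₂.2 ⟨s, hs, subset_convexHull ℝ _ (hts a)⟩

theorem EVA_aff {E : Type*} [NormedAddCommGroup E] [NormedSpace ℝ E] {L : GC E} {n : ℕ}
    {t : Fin (n + 1) → E} (hi : Function.Injective t) (h : L.Tup t) : AffineIndependent ℝ t := by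
  classical
  have h1 := GC.affineIndependent (EVA_face h)
  have h2 := h1.comp_embedding (⟨fun i => ⟨t i, Finset.mem_image_of_mem t (Finset.mem_univ i)⟩,
    fun i j hij => hi (congrArg Subtype.val hij)⟩ : Fin (n + 1) ↪ (Finset.univ.image t))
  exact h2

/-- points of the hyperplane `y 0 = 1` -/
theorem EVA_basis {m : ℕ} {L : GC (Fin (m + 1) → ℝ)} (r : Fin (m + 1) → (Fin (m + 1) → ℝ))
    (hri : Function.Injective r) (hrt : L.Tup r) (hr : ∀ a, r a 0 = 1) (w : Fin (m + 1) → ℝ) :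
    ∃ β : Fin (m + 1) → ℝ, ∑ i, β i = w 0 ∧ w = ∑ i, β i • r i := by
  have haff := EVA_aff hri hrt
  have hlin : LinearIndependent ℝ r := by
    rw [Fintype.linearIndependent_iff]
    intro g hg i
    rw [affineIndependent_iff] at haff
    refine haff Finset.univ g ?_ hg i (Finset.mem_univ i)
    have h1 := congrFun hg 0
    rw [Finset.sum_apply] at h1
    simpa [hr] using h1
  have hspan := hlin.span_eq_top_of_card_eq_finrank' (by simp)
  have hw : w ∈ Submodule.span ℝ (range r) := by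
    rw [hspan]
    trivial
  obtain ⟨β, hβ⟩ := (Submodule.mem_span_range_iff_exists_fun ℝ).1 hw
  refine ⟨β, ?_, hβ.symm⟩
  rw [← hβ, Finset.sum_apply]
  simp [hr]

theorem EVA_tail_tup {E : Type*} [NormedAddCommGroup E] [NormedSpace ℝ E] {L : GC E} {n : ℕ}
    {u : E} {r : Fin (n + 1) → E} (h : (Fin.cons u r : Fin (n + 2) → E) ∈ L.tops (n + 1)) :
    Function.Injective r ∧ L.Tup r ∧ ∀ a, r a ≠ u := by
  rw [GC.mem_tops] at h
  obtain ⟨hi, s, hs, hts⟩ := h
  refine ⟨fun a b hab => ?_, ⟨s, hs, fun a => ?_⟩, fun a ha => ?_⟩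
  · have h1 : (Fin.cons u r : Fin (n + 2) → E) a.succ = (Fin.cons u r : Fin (n + 2) → E) b.succ := by
      rw [Fin.cons_succ, Fin.cons_succ, hab]
    exact Fin.succ_injective _ (hi h1)
  · have h1 := hts a.succ
    rwa [Fin.cons_succ] at h1
  · have h1 : (Fin.cons u r : Fin (n + 2) → E) a.succ = (Fin.cons u r : Fin (n + 2) → E) 0 := by
      rw [Fin.cons_succ, Fin.cons_zero, ha]
    exact Fin.succ_ne_zero a (hi h1)

theorem EVA_lt {m : ℕ} {L : GC (Fin (m + 1) → ℝ)} (hsp : L.space ⊆ {z | z 0 ≤ 1})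
    (r : Fin (m + 1) → (Fin (m + 1) → ℝ)) (hr : ∀ a, r a 0 = 1) {u : Fin (m + 1) → ℝ}
    (hu : (Fin.cons u r : Fin (m + 2) → (Fin (m + 1) → ℝ)) ∈ L.tops (m + 1)) : u 0 < 1 := by
  obtain ⟨hri, hrt, -⟩ := EVA_tail_tup hu
  have hu' := hu
  rw [GC.mem_tops] at hu'
  have h0 : u 0 ≤ 1 := by
    have := hsp (EVA_mem_space hu'.2 0)
    rwa [Fin.cons_zero] at this
  refine lt_of_le_of_ne h0 fun h1 => ?_
  obtain ⟨β, hβ, hub⟩ := EVA_basis r hri hrt hr u
  have haff := EVA_aff hu'.1 hu'.2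
  rw [affineIndependent_iff] at haff
  have h2 := haff Finset.univ (Fin.cons (-1) β : Fin (m + 2) → ℝ) (by
    rw [Fin.sum_univ_succ]
    simp only [Fin.cons_zero, Fin.cons_succ]
    rw [hβ, h1]
    ring) (by
    rw [Fin.sum_univ_succ]
    simp only [Fin.cons_zero, Fin.cons_succ]
    rw [← hub]
    module) 0 (Finset.mem_univ 0)
  rw [Fin.cons_zero] at h2
  norm_num at h2

theorem EVA_uniq {m : ℕ} {L : GC (Fin (m + 1) → ℝ)} (hsp : L.space ⊆ {z | z 0 ≤ 1})
    (r : Fin (m + 1) → (Fin (m + 1) → ℝ)) (hr : ∀ a, r a 0 = 1) {u v : Fin (m + 1) → ℝ}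
    (hu : (Fin.cons u r : Fin (m + 2) → (Fin (m + 1) → ℝ)) ∈ L.tops (m + 1))
    (hv : (Fin.cons v r : Fin (m + 2) → (Fin (m + 1) → ℝ)) ∈ L.tops (m + 1)) : u = v := by
  by_contra huv
  obtain ⟨hri, hrt, hru⟩ := EVA_tail_tup hu
  obtain ⟨-, -, hrv⟩ := EVA_tail_tup hv
  have hu0 := EVA_lt hsp r hr hu
  have hv0 := EVA_lt hsp r hr hv
  have hu' := (GC.mem_tops.1 hu).2
  have hv' := (GC.mem_tops.1 hv).2
  have himg : ∀ w : Fin (m + 1) → ℝ,
      ((Finset.univ.image (Fin.cons w r : Fin (m + 2) → (Fin (m + 1) → ℝ)) :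
        Finset (Fin (m + 1) → ℝ)) : Set (Fin (m + 1) → ℝ)) =
        insert w ((Finset.univ.image r : Finset (Fin (m + 1) → ℝ)) : Set (Fin (m + 1) → ℝ)) := by
    intro w
    rw [Finset.coe_image, Finset.coe_image, Finset.coe_univ, Finset.coe_univ, Set.image_univ,
      Set.image_univ, Fin.range_cons]
  have hus : u ∉ Finset.univ.image r := by
    intro h
    obtain ⟨a, -, ha⟩ := Finset.mem_image.1 h
    exact hru a ha
  have hvs : v ∉ Finset.univ.image r := by
    intro h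
    obtain ⟨a, -, ha⟩ := Finset.mem_image.1 h
    exact hrv a ha
  set α : ℝ := (1 - u 0) / (1 - v 0) with hα
  have hαpos : 0 < α := div_pos (by linarith) (by linarith)
  obtain ⟨β, hβ, hub⟩ := EVA_basis r hri hrt hr (u - α • v)
  have hsum : ∀ {M : Type} [AddCommMonoid M] (F : (Fin (m + 1) → ℝ) → M),
      ∑ x ∈ Finset.univ.image r, F x = ∑ i, F (r i) := by
    intro M _ F
    exact Finset.sum_image fun a _ b _ hab => hri hab
  have hext : ∀ i, Function.extend r β 0 (r i) = β i := fun i => hri.extend_apply β 0 i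
  refine GC.no_same_side L (EVA_face hu') (EVA_face hv') ?_
    ⟨r 0, Finset.mem_image_of_mem r (Finset.mem_univ 0)⟩ (himg u) (himg v) hus hvs hαpos
    (β := Function.extend r β 0) ?_ ?_
  · intro hab
    have h1 : u ∈ ((Finset.univ.image (Fin.cons u r : Fin (m + 2) → (Fin (m + 1) → ℝ)) :
        Finset (Fin (m + 1) → ℝ)) : Set (Fin (m + 1) → ℝ)) := by
      rw [himg]
      exact Set.mem_insert _ _
    rw [hab, himg] at h1
    rcases h1 with h1 | h1
    · exact huv h1
    · exact hus h1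
  · rw [hsum]
    simp only [hext]
    rw [hβ]
    simp only [Pi.sub_apply, Pi.smul_apply, smul_eq_mul]
    have h1 : α * (1 - v 0) = 1 - u 0 := by
      rw [hα]
      exact div_mul_cancel₀ _ (by linarith)
    linarith
  · rw [hsum]
    simp only [hext]
    rw [← hub]
    module

theorem EVA_cube_closure (m : ℕ) :
    closure (interior {z : Fin m → ℝ | ∀ i, 0 ≤ z i ∧ z i ≤ 1}) =
      {z : Fin m → ℝ | ∀ i, 0 ≤ z i ∧ z i ≤ 1} := by
  have h1 : {z : Fin m → ℝ | ∀ i, 0 ≤ z i ∧ z i ≤ 1} =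
      Set.pi Set.univ (fun _ : Fin m => Set.Icc (0 : ℝ) 1) := by
    ext z
    exact ⟨fun h i _ => h i, fun h i => h i (Set.mem_univ i)⟩
  rw [h1, interior_pi_set Set.finite_univ]
  simp only [interior_Icc]
  rw [closure_pi_set]
  simp only [closure_Ioo (zero_ne_one' ℝ)]

theorem EVA_exist {m : ℕ} {L : GC (Fin (m + 1) → ℝ)}
    (hsp : L.space = {z | ∀ i, 0 ≤ z i ∧ z i ≤ 1})
    (r : Fin (m + 1) → (Fin (m + 1) → ℝ)) (hri : Function.Injective r) (hrt : L.Tup r) :
    ∃ u, (Fin.cons u r : Fin (m + 2) → (Fin (m + 1) → ℝ)) ∈ L.tops (m + 1) := by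
  have hs1 := EVA_face hrt
  have hcard : (Finset.univ.image r).card = m + 1 := by
    rw [Finset.card_image_of_injective _ hri, Finset.card_univ, Fintype.card_fin]
  have hpos : (0 : ℝ) < (m : ℝ) + 1 := by positivity
  obtain ⟨g, hg⟩ : ∃ g, g = ∑ y ∈ Finset.univ.image r, ((m : ℝ) + 1)⁻¹ • y := ⟨_, rfl⟩
  have hc : L.IsCarrier g (Finset.univ.image r) := by
    refine ⟨hs1, fun _ => ((m : ℝ) + 1)⁻¹, fun _ _ => inv_pos.2 hpos, ?_, hg.symm⟩
    rw [Finset.sum_const, hcard, nsmul_eq_mul]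
    push_cast
    exact mul_inv_cancel₀ hpos.ne'
  have hgs : g ∈ L.space := Set.mem_iUnion₂.2 ⟨_, hs1, hc.mem_hull⟩
  have hfin : {a | a ∈ L.faces ∧ a.card = m + 2}.Finite := L.fin.subset fun a ha => ha.1
  have hcl : IsClosed (⋃ a ∈ {a | a ∈ L.faces ∧ a.card = m + 2}, convexHull ℝ (a : Set (Fin (m + 1) → ℝ))) :=
    hfin.isClosed_biUnion fun a _ => (a.finite_toSet.isCompact_convexHull ℝ).isClosed
  have hsub : interior L.space ⊆
      ⋃ a ∈ {a | a ∈ L.faces ∧ a.card = m + 2}, convexHull ℝ (a : Set (Fin (m + 1) → ℝ)) := by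
    intro x hx
    obtain ⟨a, ha, hac, hxa⟩ := L.exists_top_of_interior hx
    exact Set.mem_iUnion₂.2 ⟨a, ⟨ha, hac⟩, hxa⟩
  have hgA : g ∈ ⋃ a ∈ {a | a ∈ L.faces ∧ a.card = m + 2},
      convexHull ℝ (a : Set (Fin (m + 1) → ℝ)) := by
    apply closure_minimal hsub hcl
    rw [hsp] at hgs ⊢
    rw [EVA_cube_closure]
    exact hgs
  obtain ⟨a, ⟨ha, hac⟩, hga⟩ := Set.mem_iUnion₂.1 hgA
  have hra := GC.carrier_sub ha hga hc
  obtain ⟨u, hu⟩ : (a \ Finset.univ.image r).Nonempty := by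
    rw [← Finset.card_pos, Finset.card_sdiff_of_subset hra, hac, hcard]
    omega
  rw [Finset.mem_sdiff] at hu
  refine ⟨u, ?_⟩
  rw [GC.mem_tops]
  refine ⟨?_, a, ha, ?_⟩
  · rw [Fin.cons_injective_iff]
    refine ⟨?_, hri⟩
    rintro ⟨i, hi⟩
    exact hu.2 (Finset.mem_image.2 ⟨i, Finset.mem_univ i, hi⟩)
  · intro i
    refine Fin.cases ?_ (fun k => ?_) i
    · rw [Fin.cons_zero]
      exact hu.1
    · rw [Fin.cons_succ]
      exact hra (Finset.mem_image_of_mem r (Finset.mem_univ k))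

end geo

section facet

/-- The lift to the facet `y 0 = 1`. -/
def EVA_lift {m : ℕ} (z : Fin m → ℝ) : Fin (m + 1) → ℝ := Fin.cons 1 z

theorem EVA_lift_inj {m : ℕ} : Function.Injective (EVA_lift : (Fin m → ℝ) → Fin (m + 1) → ℝ) := by
  intro a b h
  funext i
  have := congrFun h i.succ
  simpa [EVA_lift] using this

theorem EVA_lift_zero {m : ℕ} (z : Fin m → ℝ) : EVA_lift z 0 = 1 := by simp [EVA_lift]

theorem EVA_lift_succ {m : ℕ} (z : Fin m → ℝ) (i : Fin m) : EVA_lift z i.succ = z i := by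
  simp [EVA_lift]

theorem EVA_lift_tail {m : ℕ} (z : Fin (m + 1) → ℝ) (h : z 0 = 1) :
    EVA_lift (fun i => z i.succ) = z := by
  funext i
  refine Fin.cases ?_ (fun k => ?_) i
  · rw [EVA_lift_zero, h]
  · rw [EVA_lift_succ]

theorem EVA_facet {m : ℕ} {L : GC (Fin (m + 1) → ℝ)}
    (hsp : L.space = {z | ∀ i, 0 ≤ z i ∧ z i ≤ 1})
    (h0 : ∀ i, L.Adapted {z | (∀ i, 0 ≤ z i ∧ z i ≤ 1) ∧ z i = 0})
    (h1 : ∀ i, L.Adapted {z | (∀ i, 0 ≤ z i ∧ z i ≤ 1) ∧ z i = 1}) :
    ∃ L' : GC (Fin m → ℝ), L'.space = {z | ∀ i, 0 ≤ z i ∧ z i ≤ 1} ∧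
      (∀ i, L'.Adapted {z | (∀ i, 0 ≤ z i ∧ z i ≤ 1) ∧ z i = 0}) ∧
      (∀ i, L'.Adapted {z | (∀ i, 0 ≤ z i ∧ z i ≤ 1) ∧ z i = 1}) ∧
      ∀ r : Fin (m + 1) → (Fin m → ℝ), r ∈ L'.tops m ↔
        Function.Injective (fun a => EVA_lift (r a)) ∧ L.Tup (fun a => EVA_lift (r a)) := by
  classical
  obtain ⟨K, hKf, hKs, hKa⟩ := L.restrict _ (h1 0)
  have hKs' : K.space = {z | (∀ i, 0 ≤ z i ∧ z i ≤ 1) ∧ z 0 = 1} := by
    rw [hKs, hsp]
    ext z
    exact ⟨fun h => h.2, fun h => ⟨h.1, h⟩⟩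
  obtain ⟨h, hh⟩ : ∃ h : (Fin (m + 1) → ℝ) → (Fin m → ℝ), h = fun z i => z i.succ := ⟨_, rfl⟩
  have hhl : ∀ z, h (EVA_lift z) = z := by
    intro z
    rw [hh]
    funext i
    exact EVA_lift_succ z i
  have hlh : ∀ z : Fin (m + 1) → ℝ, z 0 = 1 → EVA_lift (h z) = z := by
    intro z hz
    rw [hh]
    exact EVA_lift_tail z hz
  have hinj : InjOn h K.space := by
    intro z hz z' hz' hzz
    rw [hKs'] at hz hz'
    rw [← hlh z hz.2, ← hlh z' hz'.2, hzz]
  have haff : ∀ s ∈ K.faces, AffOn h (convexHull ℝ (s : Set (Fin (m + 1) → ℝ))) := by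
    intro s _
    refine ⟨(LinearMap.funLeft ℝ ℝ (Fin.succ : Fin m → Fin (m + 1))).toAffineMap, ?_⟩
    intro z _
    rw [hh]
    rfl
  obtain ⟨L', hL'f, hL's, hL'c, hL'h⟩ := K.image_complex h haff hinj
  have hcube : L'.space = {z | ∀ i, 0 ≤ z i ∧ z i ≤ 1} := by
    rw [hL's, hKs']
    ext z
    constructor
    · rintro ⟨w, ⟨hw, -⟩, rfl⟩ i
      rw [hh]
      exact hw i.succ
    · intro hz
      refine ⟨EVA_lift z, ⟨fun i => ?_, EVA_lift_zero z⟩, hhl z⟩
      refine Fin.cases ?_ (fun k => ?_) i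
      · rw [EVA_lift_zero]
        norm_num
      · rw [EVA_lift_succ]
        exact hz k
  have hadapt : ∀ (Y : Set (Fin (m + 1) → ℝ)) (Y' : Set (Fin m → ℝ)), L.Adapted Y →
      (∀ z, z 0 = 1 → h z ∈ Y' → (∀ i, 0 ≤ z i ∧ z i ≤ 1) → z ∈ Y) →
      (∀ z ∈ Y, h z ∈ Y') → L'.Adapted Y' := by
    intro Y Y' hY hY1 hY2
    rw [GC.adapted_iff]
    intro x' s' hx's' hx'
    have hx1 : x' ∈ L'.space := Set.mem_iUnion₂.2 ⟨s', hx's'.1, hx's'.mem_hull⟩
    rw [hL's] at hx1
    obtain ⟨x, hx, rfl⟩ := hx1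
    obtain ⟨s, hs⟩ := GC.exists_carrier' hx
    have hs1 : ((s.image h : Finset (Fin m → ℝ)) : Set (Fin m → ℝ)) = h '' (s : Set (Fin (m + 1) → ℝ)) := by
      rw [Finset.coe_image]
    have hs2 := hL'c x s hs (s.image h) hs1
    have hs3 := GC.carrier_unique hx's' hs2
    rw [hs3, hs1, ← hL'h s hs.1]
    have hxK := hx
    rw [hKs'] at hxK
    have hsub := (GC.adapted_iff.1 (hKa Y hY)) x s hs (hY1 x hxK.2 hx' hxK.1)
    rintro _ ⟨z, hz, rfl⟩
    exact hY2 z (hsub hz)
  refine ⟨L', hcube, fun i => ?_, fun i => ?_, ?_⟩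
  · refine hadapt _ _ (h0 i.succ) ?_ ?_
    · intro z _ hz hz'
      refine ⟨hz', ?_⟩
      have := hz.2
      rw [hh] at this
      exact this
    · rintro z ⟨hz, hz'⟩
      rw [hh]
      exact ⟨fun j => hz j.succ, hz'⟩
  · refine hadapt _ _ (h1 i.succ) ?_ ?_
    · intro z _ hz hz'
      refine ⟨hz', ?_⟩
      have := hz.2
      rw [hh] at this
      exact this
    · rintro z ⟨hz, hz'⟩
      rw [hh]
      exact ⟨fun j => hz j.succ, hz'⟩
  · obtain ⟨ht1, ht2, -⟩ := GC.tops_image hinj hL'f m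
    have hK : ∀ t : Fin (m + 1) → (Fin (m + 1) → ℝ), t ∈ K.tops m ↔
        Function.Injective t ∧ L.Tup t ∧ ∀ a, t a 0 = 1 := by
      intro t
      rw [GC.mem_tops]
      constructor
      · rintro ⟨hi, s, hs, hts⟩
        rw [hKf] at hs
        exact ⟨hi, ⟨s, hs.1, hts⟩, fun a => (hs.2 (subset_convexHull ℝ _ (hts a))).2⟩
      · rintro ⟨hi, ht, hta⟩
        refine ⟨hi, Finset.univ.image t, (hKf _).2 ⟨EVA_face ht, ?_⟩, fun a =>
          Finset.mem_image_of_mem t (Finset.mem_univ a)⟩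
        have hconv : Convex ℝ {z : Fin (m + 1) → ℝ | (∀ i, 0 ≤ z i ∧ z i ≤ 1) ∧ z 0 = 1} := by
          intro x hx y hy a b ha hb hab
          refine ⟨fun i => ?_, ?_⟩
          · simp only [Pi.add_apply, Pi.smul_apply, smul_eq_mul]
            have h2 := hx.1 i
            have h3 := hy.1 i
            constructor
            · have := mul_nonneg ha h2.1
              have := mul_nonneg hb h3.1
              linarith
            · have := mul_le_mul_of_nonneg_left h2.2 ha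
              have := mul_le_mul_of_nonneg_left h3.2 hb
              linarith
          · simp only [Pi.add_apply, Pi.smul_apply, smul_eq_mul]
            rw [hx.2, hy.2]
            linarith
        refine convexHull_min ?_ hconv
        intro x hx
        rw [Finset.coe_image] at hx
        obtain ⟨a, -, rfl⟩ := hx
        have := EVA_mem_space ht a
        rw [hsp] at this
        exact ⟨this, hta a⟩
    intro r
    constructor
    · intro hr
      obtain ⟨t, ht, rfl⟩ := ht2 r hr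
      rw [hK] at ht
      have h2 : (fun a => EVA_lift (h (t a))) = t := by
        funext a
        exact hlh (t a) (ht.2.2 a)
      rw [h2]
      exact ⟨ht.1, ht.2.1⟩
    · rintro ⟨hi, ht⟩
      have h2 := ht1 (fun a => EVA_lift (r a)) ((hK _).2 ⟨hi, ht, fun a => EVA_lift_zero _⟩)
      have h3 : (fun i => h (EVA_lift (r i))) = r := by
        funext a
        exact hhl (r a)
      rwa [h3] at h2

end facet

section transfer

open Classical in
/-- The orientation of the facet complex. -/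
noncomputable def EVA_ze {m : ℕ} (L : GC (Fin (m + 1) → ℝ))
    (ζ : (Fin (m + 2) → (Fin (m + 1) → ℝ)) → ℤ) (r : Fin (m + 1) → (Fin m → ℝ)) : ℤ :=
  if h : ∃ u, (Fin.cons u (fun a => EVA_lift (r a)) : Fin (m + 2) → (Fin (m + 1) → ℝ)) ∈
      L.tops (m + 1) then
    ζ (Fin.cons h.choose (fun a => EVA_lift (r a)) : Fin (m + 2) → (Fin (m + 1) → ℝ)) else 0

theorem EVA_le {m : ℕ} {L : GC (Fin (m + 1) → ℝ)} (hsp : L.space = {z | ∀ i, 0 ≤ z i ∧ z i ≤ 1}) :
    L.space ⊆ {z | z 0 ≤ 1} := by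
  rw [hsp]
  intro z hz
  exact (hz 0).2

theorem EVA_ze_eq {m : ℕ} {L : GC (Fin (m + 1) → ℝ)}
    (hsp : L.space = {z | ∀ i, 0 ≤ z i ∧ z i ≤ 1})
    (ζ : (Fin (m + 2) → (Fin (m + 1) → ℝ)) → ℤ) (r : Fin (m + 1) → (Fin m → ℝ))
    {u : Fin (m + 1) → ℝ}
    (hu : (Fin.cons u (fun a => EVA_lift (r a)) : Fin (m + 2) → (Fin (m + 1) → ℝ)) ∈
      L.tops (m + 1)) :
    EVA_ze L ζ r =
      ζ (Fin.cons u (fun a => EVA_lift (r a)) : Fin (m + 2) → (Fin (m + 1) → ℝ)) := by
  have hex : ∃ u, (Fin.cons u (fun a => EVA_lift (r a)) : Fin (m + 2) → (Fin (m + 1) → ℝ)) ∈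
      L.tops (m + 1) := ⟨u, hu⟩
  unfold EVA_ze
  rw [dif_pos hex, EVA_uniq (EVA_le hsp) _ (fun a => EVA_lift_zero _) hex.choose_spec hu]

open Classical in
theorem EVA_transfer {m : ℕ} {R : Type*} [CommRing R] {L : GC (Fin (m + 1) → ℝ)}
    (hsp : L.space = {z | ∀ i, 0 ≤ z i ∧ z i ≤ 1}) {L' : GC (Fin m → ℝ)}
    (hL' : ∀ r : Fin (m + 1) → (Fin m → ℝ), r ∈ L'.tops m ↔
        Function.Injective (fun a => EVA_lift (r a)) ∧ L.Tup (fun a => EVA_lift (r a)))
    (ζ : (Fin (m + 2) → (Fin (m + 1) → ℝ)) → ℤ)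
    (G : (Fin (m + 1) → (Fin m → ℝ)) → R) :
    ∑ t ∈ L.tops (m + 1), (ζ t : R) *
      (if ∀ a, (t ∘ Fin.succ) a 0 = 1 then G (fun a i => (t ∘ Fin.succ) a i.succ) else 0) =
    ∑ r ∈ L'.tops m, (EVA_ze L ζ r : R) * G r := by
  have h1 : ∀ t ∈ L.tops (m + 1), (ζ t : R) *
      (if ∀ a, (t ∘ Fin.succ) a 0 = 1 then G (fun a i => (t ∘ Fin.succ) a i.succ) else 0) =
      if ∀ a, (t ∘ Fin.succ) a 0 = 1 then (ζ t : R) * G (fun a i => (t ∘ Fin.succ) a i.succ)
        else 0 := by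
    intro t _
    rw [mul_ite, mul_zero]
  rw [Finset.sum_congr rfl h1, ← Finset.sum_filter]
  have hcons : ∀ t : Fin (m + 2) → (Fin (m + 1) → ℝ), (∀ a, (t ∘ Fin.succ) a 0 = 1) →
      (Fin.cons (t 0) (fun a => EVA_lift (fun i => (t ∘ Fin.succ) a i.succ)) :
        Fin (m + 2) → (Fin (m + 1) → ℝ)) = t := by
    intro t ht
    have h2 : (fun a => EVA_lift (fun i => (t ∘ Fin.succ) a i.succ)) = t ∘ Fin.succ := by
      funext a
      exact EVA_lift_tail _ (ht a)
    rw [h2]
    exact Fin.cons_self_tail t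
  refine Finset.sum_bij (fun t _ => fun a i => (t ∘ Fin.succ) a i.succ) ?_ ?_ ?_ ?_
  · intro t ht
    rw [Finset.mem_filter] at ht
    have h2 := ht.1
    rw [← hcons t ht.2] at h2
    obtain ⟨h3, h4, -⟩ := EVA_tail_tup h2
    exact (hL' _).2 ⟨h3, h4⟩
  · intro t ht t' ht' htt
    rw [Finset.mem_filter] at ht ht'
    have h2 := ht.1
    have h3 := ht'.1
    rw [← hcons t ht.2] at h2
    rw [← hcons t' ht'.2] at h3
    have htt' : (fun a (i : Fin m) => (t ∘ Fin.succ) a i.succ) =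
      (fun a (i : Fin m) => (t' ∘ Fin.succ) a i.succ) := htt
    have h5 : ∀ a, (fun i : Fin m => (t ∘ Fin.succ) a i.succ) =
        (fun i : Fin m => (t' ∘ Fin.succ) a i.succ) := fun a => congrFun htt' a
    simp only [h5] at h2
    have h4 := EVA_uniq (EVA_le hsp) _ (fun a => EVA_lift_zero _) h2 h3
    rw [← hcons t ht.2, ← hcons t' ht'.2, h4]
    simp only [h5]
  · intro r hr
    obtain ⟨h2, h3⟩ := (hL' r).1 hr
    obtain ⟨u, hu⟩ := EVA_exist hsp _ h2 h3
    refine ⟨_, Finset.mem_filter.2 ⟨hu, fun a => ?_⟩, ?_⟩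
    · rw [Function.comp_apply, Fin.cons_succ, EVA_lift_zero]
    · funext a i
      rw [Function.comp_apply, Fin.cons_succ, EVA_lift_succ]
  · intro t ht
    rw [Finset.mem_filter] at ht
    have h2 := ht.1
    rw [← hcons t ht.2] at h2
    have h3 := EVA_ze_eq hsp ζ _ h2
    rw [hcons t ht.2] at h3
    rw [← h3]

theorem EVA_ze_alt {m : ℕ} {L : GC (Fin (m + 1) → ℝ)}
    (hsp : L.space = {z | ∀ i, 0 ≤ z i ∧ z i ≤ 1}) {L' : GC (Fin m → ℝ)}
    (hL' : ∀ r : Fin (m + 1) → (Fin m → ℝ), r ∈ L'.tops m ↔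
        Function.Injective (fun a => EVA_lift (r a)) ∧ L.Tup (fun a => EVA_lift (r a)))
    (ζ : (Fin (m + 2) → (Fin (m + 1) → ℝ)) → ℤ)
    (hζ : ∀ t ∈ L.tops (m + 1), ∀ π : Equiv.Perm (Fin (m + 2)),
        ζ (t ∘ π) = (Equiv.Perm.sign π : ℤ) * ζ t) :
    ∀ t ∈ L'.tops m, ∀ π : Equiv.Perm (Fin (m + 1)),
        EVA_ze L ζ (t ∘ π) = (Equiv.Perm.sign π : ℤ) * EVA_ze L ζ t := by
  intro t ht π
  obtain ⟨h2, h3⟩ := (hL' t).1 ht
  obtain ⟨u, hu⟩ := EVA_exist hsp _ h2 h3
  have h4 : (Fin.cons u (fun a => EVA_lift ((t ∘ π) a)) : Fin (m + 2) → (Fin (m + 1) → ℝ)) =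
      (Fin.cons u (fun a => EVA_lift (t a)) : Fin (m + 2) → (Fin (m + 1) → ℝ)) ∘
        (Equiv.Perm.decomposeFin.symm (0, π)) := by
    funext i
    refine Fin.cases ?_ (fun k => ?_) i
    · rw [Fin.cons_zero, Function.comp_apply, Equiv.Perm.decomposeFin_symm_apply_zero,
        Fin.cons_zero]
    · have h6 : (Equiv.Perm.decomposeFin.symm ((0 : Fin (m + 2)), π)) k.succ = (π k).succ := by
        rw [Equiv.Perm.decomposeFin_symm_apply_succ, Equiv.swap_self, Equiv.refl_apply]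
      show EVA_lift (t (π k)) = (Fin.cons u (fun a => EVA_lift (t a)) :
        Fin (m + 2) → (Fin (m + 1) → ℝ)) ((Equiv.Perm.decomposeFin.symm ((0 : Fin (m + 2)), π))
          k.succ)
      rw [h6, Fin.cons_succ]
  have h5 : (Fin.cons u (fun a => EVA_lift ((t ∘ π) a)) : Fin (m + 2) → (Fin (m + 1) → ℝ)) ∈
      L.tops (m + 1) := by
    rw [h4]
    exact EVA_tops_perm L (m + 1) _ hu _
  rw [EVA_ze_eq hsp ζ _ h5, EVA_ze_eq hsp ζ t hu, h4, hζ _ hu, Equiv.Perm.decomposeFin.symm_sign,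
    if_pos rfl, one_mul]

/-- all entries in one facet of the cube -/
def EVA_Fac {n k : ℕ} (r : Fin k → (Fin n → ℝ)) : Prop :=
  ∃ i, (∀ a, r a i = 0) ∨ (∀ a, r a i = 1)

open Classical in
theorem EVA_rel {m : ℕ} {R : Type*} [Field R] (hm : 0 < m) (hne : ((m + 2 : ℕ) : R) ≠ 0)
    {L : GC (Fin (m + 1) → ℝ)} (hsp : L.space = {z | ∀ i, 0 ≤ z i ∧ z i ≤ 1})
    {L' : GC (Fin m → ℝ)}
    (hL' : ∀ r : Fin (m + 1) → (Fin m → ℝ), r ∈ L'.tops m ↔
        Function.Injective (fun a => EVA_lift (r a)) ∧ L.Tup (fun a => EVA_lift (r a)))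
    (ζ : (Fin (m + 2) → (Fin (m + 1) → ℝ)) → ℤ)
    (hζ : ∀ t ∈ L.tops (m + 1), ∀ π : Equiv.Perm (Fin (m + 2)),
        ζ (t ∘ π) = (Equiv.Perm.sign π : ℤ) * ζ t)
    (hst : ∀ φ : (Fin (m + 1) → (Fin (m + 1) → ℝ)) → R,
      (∀ r : Fin (m + 1) → (Fin (m + 1) → ℝ), EVA_Fac r → φ r = 0) →
        ∑ t ∈ L.tops (m + 1), (ζ t : R) *
          ∑ j : Fin (m + 2), (-1) ^ (j : ℕ) * φ (t ∘ j.succAbove) = 0)
    (φ : (Fin m → (Fin m → ℝ)) → R)
    (hφ : ∀ r : Fin m → (Fin m → ℝ), EVA_Fac r → φ r = 0) :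
    ∑ t ∈ L'.tops m, (EVA_ze L ζ t : R) *
      ∑ j : Fin (m + 1), (-1) ^ (j : ℕ) * φ (t ∘ j.succAbove) = 0 := by
  set ψ : (Fin m → (Fin (m + 1) → ℝ)) → R := fun q =>
    if ∀ a, q a 0 = 1 then φ (fun a i => q a i.succ) else 0 with hψ
  set D : (Fin (m + 1) → (Fin (m + 1) → ℝ)) → R := fun r =>
    ∑ j : Fin (m + 1), (-1) ^ (j : ℕ) * ψ (r ∘ j.succAbove) with hD
  set G : (Fin (m + 1) → (Fin m → ℝ)) → R := fun r =>
    ∑ j : Fin (m + 1), (-1) ^ (j : ℕ) * φ (r ∘ j.succAbove) with hG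
  have hsplit : ∀ r, D r = (if EVA_Fac r then 0 else D r) +
      (if ∀ a, r a 0 = 1 then G (fun a i => r a i.succ) else 0) := by
    intro r
    by_cases hall : ∀ a, r a 0 = 1
    · have hF : EVA_Fac r := ⟨0, Or.inr hall⟩
      rw [if_pos hF, if_pos hall, zero_add]
      simp only [hD, hG, hψ]
      refine Finset.sum_congr rfl fun j _ => ?_
      have hj : ∀ a, (r ∘ j.succAbove) a 0 = 1 := fun a => hall _
      rw [if_pos hj]
      rfl
    · rw [if_neg hall, add_zero]
      by_cases hF : EVA_Fac r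
      · rw [if_pos hF]
        simp only [hD]
        refine Finset.sum_eq_zero fun j _ => ?_
        have h1 : ψ (r ∘ j.succAbove) = 0 := by
          simp only [hψ]
          split_ifs with h2
          · obtain ⟨i, hi⟩ := hF
            revert hi
            refine Fin.cases ?_ (fun k => ?_) i
            · rintro (hi | hi)
              · exfalso
                have h3 := h2 ⟨0, hm⟩
                rw [Function.comp_apply, hi] at h3
                exact zero_ne_one h3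
              · exact absurd hi hall
            · rintro hi
              apply hφ
              refine ⟨k, ?_⟩
              rcases hi with hi | hi
              · exact Or.inl fun a => hi _
              · exact Or.inr fun a => hi _
          · rfl
        rw [h1, mul_zero]
      · rw [if_neg hF]
  have h1 := hst (fun r => if EVA_Fac r then 0 else D r) (fun r hr => if_pos hr)
  have h2 : ∑ t ∈ L.tops (m + 1), (ζ t : R) *
      ∑ j : Fin (m + 2), (-1) ^ (j : ℕ) * D (t ∘ j.succAbove) = 0 := by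
    refine Finset.sum_eq_zero fun t _ => ?_
    have h3 := EVA_dd (R := R) m ψ t
    simp only [hD]
    rw [h3, mul_zero]
  have h3 := EVA_C (R := R) (L.tops (m + 1)) (EVA_tops_perm L (m + 1)) ζ hζ
    (fun r => if ∀ a, r a 0 = 1 then G (fun a i => r a i.succ) else 0)
  rw [EVA_transfer hsp hL' ζ G] at h3
  have h4 : ∑ t ∈ L.tops (m + 1), (ζ t : R) *
      ∑ j : Fin (m + 2), (-1) ^ (j : ℕ) * D (t ∘ j.succAbove) =
      ∑ t ∈ L.tops (m + 1), (ζ t : R) *
        ∑ j : Fin (m + 2), (-1) ^ (j : ℕ) *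
          (if EVA_Fac (t ∘ j.succAbove) then 0 else D (t ∘ j.succAbove)) +
      ∑ t ∈ L.tops (m + 1), (ζ t : R) *
        ∑ j : Fin (m + 2), (-1) ^ (j : ℕ) *
          (if ∀ a, (t ∘ j.succAbove) a 0 = 1 then G (fun a i => (t ∘ j.succAbove) a i.succ)
            else 0) := by
    rw [← Finset.sum_add_distrib]
    refine Finset.sum_congr rfl fun t _ => ?_
    rw [← mul_add, ← Finset.sum_add_distrib]
    congr 1
    refine Finset.sum_congr rfl fun j _ => ?_
    rw [← mul_add, ← hsplit]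
  rw [h2, h1, zero_add, h3] at h4
  rcases mul_eq_zero.1 h4.symm with h5 | h5
  · exact absurd h5 hne
  · exact h5

end transfer

open Classical in
theorem corner_eval {R : Type*} [Field R] : ∀ (m : ℕ) (_ : (((m + 1).factorial : ℕ) : R) ≠ 0)
    (L : GC (Fin m → ℝ)) (_ : L.space = {z | ∀ i, 0 ≤ z i ∧ z i ≤ 1})
    (_ : ∀ i, L.Adapted {z | (∀ i, 0 ≤ z i ∧ z i ≤ 1) ∧ z i = 0})
    (_ : ∀ i, L.Adapted {z | (∀ i, 0 ≤ z i ∧ z i ≤ 1) ∧ z i = 1})
    (ζ : (Fin (m + 1) → (Fin m → ℝ)) → ℤ) (_ : ∀ t ∈ L.tops m, ζ t = 1 ∨ ζ t = -1)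
    (_ : ∀ t ∈ L.tops m, ∀ π : Equiv.Perm (Fin (m + 1)),
        ζ (t ∘ π) = (Equiv.Perm.sign π : ℤ) * ζ t)
    (_ : 0 < m → ∀ φ : (Fin m → (Fin m → ℝ)) → R,
      (∀ r : Fin m → (Fin m → ℝ), (∃ i, (∀ a, r a i = 0) ∨ (∀ a, r a i = 1)) → φ r = 0) →
        ∑ t ∈ L.tops m, (ζ t : R) * ∑ j : Fin (m + 1), (-1) ^ (j : ℕ) * φ (t ∘ j.succAbove) = 0),
    ∑ t ∈ L.tops m, (ζ t : R) * ∏ i : Fin m,
      ((if t i.succ i = 1 then (1 : R) else 0) - (if t i.castSucc i = 1 then (1 : R) else 0)) ≠ 0 := by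
  intro m
  induction m with
  | zero =>
    intro _ L hsp _ _ ζ hζ1 _ _
    have h1 : (0 : Fin 0 → ℝ) ∈ L.space := by
      rw [hsp]
      intro i
      exact i.elim0
    obtain ⟨s, hs, -⟩ := Set.mem_iUnion₂.1 h1
    obtain ⟨v, hv⟩ := L.ne s hs
    have ht0 : (fun _ : Fin 1 => (0 : Fin 0 → ℝ)) ∈ L.tops 0 := by
      rw [GC.mem_tops]
      refine ⟨fun a b _ => Subsingleton.elim (α := Fin 1) a b, s, hs, fun a => ?_⟩
      rw [Subsingleton.elim (0 : Fin 0 → ℝ) v]
      exact hv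
    have h2 : L.tops 0 = {fun _ : Fin 1 => (0 : Fin 0 → ℝ)} := by
      rw [Finset.eq_singleton_iff_unique_mem]
      exact ⟨ht0, fun t _ => Subsingleton.elim _ _⟩
    rw [h2, Finset.sum_singleton, Finset.prod_of_isEmpty, mul_one]
    rcases hζ1 _ ht0 with h3 | h3 <;> rw [h3] <;> simp
  | succ m ih =>
    intro hfac L hsp h0 h1 ζ hζ1 hζa hst
    rw [Nat.factorial_succ, Nat.cast_mul] at hfac
    have hne : ((m + 2 : ℕ) : R) ≠ 0 := left_ne_zero_of_mul hfac
    have hfac' : (((m + 1).factorial : ℕ) : R) ≠ 0 := right_ne_zero_of_mul hfac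
    obtain ⟨L', hs', h0', h1', hL'⟩ := EVA_facet hsp h0 h1
    have hst' := hst (Nat.succ_pos m)
    have IH := ih hfac' L' hs' h0' h1' (EVA_ze L ζ) (by
      intro t ht
      obtain ⟨h2, h3⟩ := (hL' t).1 ht
      obtain ⟨u, hu⟩ := EVA_exist hsp _ h2 h3
      rw [EVA_ze_eq hsp ζ t hu]
      exact hζ1 _ hu) (EVA_ze_alt hsp hL' ζ hζa) (by
      intro hm φ hφ
      exact EVA_rel hm hne hsp hL' ζ hζa hst' φ hφ)
    set g : Fin (m + 1) → (Fin (m + 1) → ℝ) → R := fun i v => if v i = 1 then (1 : R) else 0 with hg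
    set G : (Fin (m + 1) → (Fin m → ℝ)) → R := fun r => ∏ i : Fin m,
      ((if r i.succ i = 1 then (1 : R) else 0) - (if r i.castSucc i = 1 then (1 : R) else 0)) with hG
    set φ : (Fin (m + 1) → (Fin (m + 1) → ℝ)) → R := fun r =>
      g 0 (r 0) * EVA_P (fun i => g i.succ) r with hφ
    have hA : ∀ t : Fin (m + 2) → (Fin (m + 1) → ℝ), (∏ i : Fin (m + 1),
      ((if t i.succ i = 1 then (1 : R) else 0) - (if t i.castSucc i = 1 then (1 : R) else 0))) =
        ∑ j : Fin (m + 2), (-1 : R) ^ (j : ℕ) * φ (t ∘ j.succAbove) := by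
      intro t
      exact (EVA_A g t).symm
    have hsplit : ∀ r, φ r = (if EVA_Fac r then 0 else φ r) +
        (if ∀ a, r a 0 = 1 then G (fun a i => r a i.succ) else 0) := by
      intro r
      by_cases hall : ∀ a, r a 0 = 1
      · have hF : EVA_Fac r := ⟨0, Or.inr hall⟩
        rw [if_pos hF, if_pos hall, zero_add]
        have h2 : g 0 (r 0) = 1 := if_pos (hall 0)
        show g 0 (r 0) * EVA_P (fun i => g i.succ) r = _
        rw [h2, one_mul]
        rfl
      · rw [if_neg hall, add_zero]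
        by_cases hF : EVA_Fac r
        · rw [if_pos hF]
          obtain ⟨i, hi⟩ := hF
          show g 0 (r 0) * EVA_P (fun i => g i.succ) r = 0
          revert hi
          refine Fin.cases ?_ (fun k => ?_) i
          · rintro (hi | hi)
            · have h2 : g 0 (r 0) = 0 := if_neg (by rw [hi 0]; norm_num)
              rw [h2, zero_mul]
            · exact absurd hi hall
          · intro hi
            have h2 : g k.succ (r k.succ) = g k.succ (r k.castSucc) := by
              simp only [hg]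
              rcases hi with hi | hi
              · rw [hi, hi]
              · rw [hi, hi]
            have h3 : EVA_P (fun i => g i.succ) r = 0 := by
              unfold EVA_P
              exact Finset.prod_eq_zero (Finset.mem_univ k) (sub_eq_zero.2 h2)
            rw [h3, mul_zero]
        · rw [if_neg hF]
    have h2 := hst' (fun r => if EVA_Fac r then 0 else φ r) (fun r hr => if_pos hr)
    have h3 := EVA_C (R := R) (L.tops (m + 1)) (EVA_tops_perm L (m + 1)) ζ hζa
      (fun r => if ∀ a, r a 0 = 1 then G (fun a i => r a i.succ) else 0)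
    rw [EVA_transfer hsp hL' ζ G] at h3
    have h4 : ∑ t ∈ L.tops (m + 1), (ζ t : R) *
        ∑ j : Fin (m + 2), (-1) ^ (j : ℕ) * φ (t ∘ j.succAbove) =
        ∑ t ∈ L.tops (m + 1), (ζ t : R) *
          ∑ j : Fin (m + 2), (-1) ^ (j : ℕ) *
            (if EVA_Fac (t ∘ j.succAbove) then 0 else φ (t ∘ j.succAbove)) +
        ∑ t ∈ L.tops (m + 1), (ζ t : R) *
          ∑ j : Fin (m + 2), (-1) ^ (j : ℕ) *
            (if ∀ a, (t ∘ j.succAbove) a 0 = 1 then G (fun a i => (t ∘ j.succAbove) a i.succ)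
              else 0) := by
      rw [← Finset.sum_add_distrib]
      refine Finset.sum_congr rfl fun t _ => ?_
      rw [← mul_add, ← Finset.sum_add_distrib]
      congr 1
      refine Finset.sum_congr rfl fun j _ => ?_
      rw [← mul_add, ← hsplit]
    rw [h2, zero_add, h3] at h4
    simp only [hA]
    rw [h4]
    exact mul_ne_zero hne IH

end Pool.H54.UB

end S_EVA

section S_EVB

/-!
# Row EVB: the classes of an `EvalData` have nonzero product on every unimodular cycle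

1. Cochains.  For a face `s` of `K` let `A ∈ D.P` be a piece with `convexHull s ⊆ A` (exists: the
   barycentre of `s` is in some `A`, `K` is adapted to `A`).  Put `x i a b = D.φ i A b - D.φ i A a` for any
   face `s ∋ a, b` and any such `A` (choice; `0` if there is none).  Well defined: if
   `{a, b} ⊆ s ∩ s'`, then the segment `[a, b]` is in `A ∩ A'`, and the function
   `D.φ i A - D.φ i A'` is locally constant on it (`D.compat`), hence equal at `a` and `b`
   (connectedness of the segment).  Cocycle identity: use the same `A` for the three vertices.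
2. If `t` is an ordered top simplex and `∏ x i (t i) (t (i+1)) ≠ 0` then the hull of `t` is in `P₀`
   (otherwise it is in a piece `A ≠ P₀` and `D.off` makes one factor `0`).  For such `t` the product is
   `∏ (θ i (t (i+1)) - θ i (t i))`, `θ i v = 1` if `D.y v i = 1`, else `0` (`D.wall`).
3. `L₀` = subcomplex of `K` in `P₀` (`GC.restrict`), `L = y(L₀)` (`GC.image_complex`; `y` is affine on the
   faces by `hy`, injective): space = unit cube (`D.img`), adapted to the facets (from `h0`, `h1`).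
   Transport `ζ` through `t ↦ y ∘ t` (`GC.tops_image`); alternating, `±1`.
4. Relative Stokes for `L`: let `φ` be as in `corner_eval`.  Define `φ' : (Fin m → E) → R` by
   `φ' r = φ (y ∘ r)` if the entries of `r` are in a common face of `L₀`, else `0`.  Then
   `∑_{t ∈ K.tops} ζ t ∑_j (-1)^j φ' (t ∘ δ_j) = 0` by `hst`.  Claim: if `φ' (t ∘ δ_j) ≠ 0` then the hull
   of `t` is in `P₀`: let `z` be the barycentre of the facet `r = t ∘ δ_j`; `y z` is an interior point of
   the cube: its carrier is `y(r)`; if `(y z) i = 0` (or `1`) then all `(y (r a)) i = 0` (adaptedness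
   `h0`, `h1`), and `φ` would vanish.  So `P₀` is a neighbourhood of `z` in `N` (`D.nhd`), points of the
   open simplex `t` close to `z` are in `P₀`, and `K` is adapted to `P₀`.  So the sum only runs over
   `t` in `L₀`, and is the sum for `L`.
5. `corner_eval`.
-/

open Set Topology

namespace Pool.H54.UB

/-- every face is a carrier -/
theorem EVB_bary {E : Type*} [NormedAddCommGroup E] [NormedSpace ℝ E] (K : GC E) {s : Finset E}
    (hs : s ∈ K.faces) : ∃ x, K.IsCarrier x s := by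
  have hc : 0 < (s.card : ℝ) := by exact_mod_cast (K.ne s hs).card_pos
  exact ⟨∑ y ∈ s, ((s.card : ℝ)⁻¹) • y, hs, fun _ => (s.card : ℝ)⁻¹, fun _ _ => inv_pos.2 hc,
    by rw [Finset.sum_const, nsmul_eq_mul, mul_inv_cancel₀ hc.ne'], rfl⟩

/-- points of the open segment from the interior of a face to the opposite vertex -/
theorem EVB_line {E : Type*} [NormedAddCommGroup E] [NormedSpace ℝ E] (K : GC E) {z u : E}
    {r s : Finset E} (hz : K.IsCarrier z r) (hs : s ∈ K.faces) (hu : u ∉ r)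
    (hsr : ∀ x, x ∈ s ↔ x = u ∨ x ∈ r) {η : ℝ} (h0 : 0 < η) (h1 : η < 1) :
    K.IsCarrier ((1 - η) • z + η • u) s := by
  classical
  obtain ⟨-, w, hw, hw1, hwz⟩ := hz
  have hsi : s = insert u r := by
    ext x
    rw [hsr, Finset.mem_insert]
  have hxu : ∀ x ∈ r, x ≠ u := fun x hx h => hu (by rw [← h]; exact hx)
  refine ⟨hs, fun x => if x = u then η else (1 - η) * w x, ?_, ?_, ?_⟩
  · intro x hx
    dsimp only
    split_ifs with h
    · exact h0
    · exact mul_pos (by linarith) (hw x (((hsr x).1 hx).resolve_left h))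
  · have h2 : ∑ x ∈ r, (if x = u then η else (1 - η) * w x) = ∑ x ∈ r, (1 - η) * w x :=
      Finset.sum_congr rfl fun x hx => if_neg (hxu x hx)
    rw [hsi, Finset.sum_insert hu, if_pos rfl, h2, ← Finset.mul_sum, hw1]
    ring
  · have h2 : ∑ x ∈ r, (if x = u then η else (1 - η) * w x) • x = (1 - η) • z := by
      rw [← hwz, Finset.smul_sum]
      exact Finset.sum_congr rfl fun x hx => by rw [if_neg (hxu x hx), mul_smul]
    show ∑ x ∈ s, (if x = u then η else (1 - η) * w x) • x = _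
    rw [hsi, Finset.sum_insert hu, if_pos rfl, h2, add_comm]

section

variable {E : Type*} [NormedAddCommGroup E] [NormedSpace ℝ E] {m : ℕ} {N : Set E} {R : Type*}
  [CommRing R]

theorem EVB_piece (D : EvalData m N R) (K : GC E) (hK : K.space = N)
    (had : ∀ A ∈ D.P, K.Adapted A) {s : Finset E} (hs : s ∈ K.faces) :
    ∃ A ∈ D.P, convexHull ℝ (s : Set E) ⊆ A := by
  obtain ⟨x, hx⟩ := EVB_bary K hs
  have hxN : x ∈ N := by
    rw [← hK]
    exact Set.mem_biUnion hs hx.mem_hull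
  rw [D.cover] at hxN
  obtain ⟨A, hA, hxA⟩ := Set.mem_iUnion₂.1 hxN
  exact ⟨A, hA, GC.adapted_iff.1 (had A hA) x s hx hxA⟩

theorem EVB_wd (D : EvalData m N R) (i : Fin m) {A B : Set E} (hA : A ∈ D.P) (hB : B ∈ D.P)
    {a b : E} (h1 : segment ℝ a b ⊆ A) (h2 : segment ℝ a b ⊆ B) :
    D.φ i A b - D.φ i A a = D.φ i B b - D.φ i B a := by
  let _ : TopologicalSpace R := ⊥
  have : DiscreteTopology R := ⟨rfl⟩
  have hc : ContinuousOn (fun z => D.φ i A z - D.φ i B z) (segment ℝ a b) := by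
    intro x hx
    obtain ⟨U, hU, h⟩ := D.compat i A hA B hB x ⟨h1 hx, h2 hx⟩
    refine ContinuousWithinAt.congr_of_eventuallyEq
      (continuousWithinAt_const (b := D.φ i A x - D.φ i B x)) ?_ rfl
    filter_upwards [mem_nhdsWithin_of_mem_nhds hU, self_mem_nhdsWithin] with z hz hz'
    exact h z ⟨hz, h1 hz', h2 hz'⟩
  have h3 := (convex_segment a b).isPreconnected.constant hc (left_mem_segment ℝ a b)
    (right_mem_segment ℝ a b)
  linear_combination -h3

theorem EVB_x (D : EvalData m N R) : ∃ x : Fin m → E → E → R, ∀ i, ∀ A ∈ D.P, ∀ a b,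
    segment ℝ a b ⊆ A → x i a b = D.φ i A b - D.φ i A a := by
  classical
  refine ⟨fun i a b => if h : ∃ A ∈ D.P, segment ℝ a b ⊆ A then
    D.φ i h.choose b - D.φ i h.choose a else 0, ?_⟩
  intro i A hA a b hab
  have h : ∃ A ∈ D.P, segment ℝ a b ⊆ A := ⟨A, hA, hab⟩
  dsimp only
  rw [dif_pos h]
  exact EVB_wd D i h.choose_spec.1 hA h.choose_spec.2 hab

theorem EVB_facet (D : EvalData m N R) (K : GC E) (hK : K.space = N) (had : K.Adapted D.P₀)
    (h0 : ∀ i, K.Adapted {v | v ∈ D.P₀ ∧ D.y v i = 0})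
    (h1 : ∀ i, K.Adapted {v | v ∈ D.P₀ ∧ D.y v i = 1}) {r s : Finset E} {u : E}
    (hs : s ∈ K.faces) (hr : r.Nonempty) (hu : u ∉ r) (hsr : ∀ x, x ∈ s ↔ x = u ∨ x ∈ r)
    (hrP : convexHull ℝ (r : Set E) ⊆ D.P₀)
    (hr0 : ∀ i, (¬ ∀ x ∈ r, D.y x i = 0) ∧ (¬ ∀ x ∈ r, D.y x i = 1)) :
    convexHull ℝ (s : Set E) ⊆ D.P₀ := by
  have hrf : r ∈ K.faces := K.down s hs r (fun x hx => (hsr x).2 (Or.inr hx)) hr
  obtain ⟨z, hz⟩ := EVB_bary K hrf
  have hzP : z ∈ D.P₀ := hrP hz.mem_hull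
  have hzc : ∀ i, 0 < D.y z i ∧ D.y z i < 1 := by
    intro i
    have h2 : D.y z ∈ D.y '' D.P₀ := mem_image_of_mem _ hzP
    rw [D.img] at h2
    have h3 := h2 i
    refine ⟨lt_of_le_of_ne h3.1 ?_, lt_of_le_of_ne h3.2 ?_⟩
    · intro h4
      have h5 := GC.adapted_iff.1 (h0 i) z r hz ⟨hzP, h4.symm⟩
      exact (hr0 i).1 fun x hx => (h5 (subset_convexHull ℝ _ hx)).2
    · intro h4
      have h5 := GC.adapted_iff.1 (h1 i) z r hz ⟨hzP, h4⟩
      exact (hr0 i).2 fun x hx => (h5 (subset_convexHull ℝ _ hx)).2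
  have hIoo : ∀ᶠ η in 𝓝[>] (0 : ℝ), η ∈ Ioo (0 : ℝ) 1 := Ioo_mem_nhdsGT one_pos
  have ht : Filter.Tendsto (fun η : ℝ => (1 - η) • z + η • u) (𝓝[>] 0) (𝓝[N] z) := by
    rw [tendsto_nhdsWithin_iff]
    constructor
    · have hc : Continuous (fun η : ℝ => (1 - η) • z + η • u) := by fun_prop
      have h2 := hc.tendsto 0
      simp only [sub_zero, one_smul, zero_smul, add_zero] at h2
      exact h2.mono_left nhdsWithin_le_nhds
    · filter_upwards [hIoo] with η hη
      rw [← hK]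
      exact Set.mem_biUnion hs (EVB_line K hz hs hu hsr hη.1 hη.2).mem_hull
  have h2 : ∀ᶠ η in 𝓝[>] (0 : ℝ), (1 - η) • z + η • u ∈ D.P₀ := ht (D.nhd z hzP hzc)
  obtain ⟨η, h3, h4⟩ := (h2.and hIoo).exists
  exact GC.adapted_iff.1 had _ s (EVB_line K hz hs hu hsr h4.1 h4.2) h3

end

theorem EvalData.eval_ne_zero {E : Type*} [NormedAddCommGroup E] [NormedSpace ℝ E]
    [FiniteDimensional ℝ E] {m : ℕ} {N : Set E} {R : Type*} [Field R] (D : EvalData m N R)
    (hR : (((m + 1).factorial : ℕ) : R) ≠ 0) (K : GC E) (hK : K.space = N)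
    (had : ∀ A ∈ D.P, K.Adapted A)
    (hy : ∀ s ∈ K.faces, convexHull ℝ (s : Set E) ⊆ D.P₀ → AffOn D.y (convexHull ℝ (s : Set E)))
    (h0 : ∀ i, K.Adapted {v | v ∈ D.P₀ ∧ D.y v i = 0})
    (h1 : ∀ i, K.Adapted {v | v ∈ D.P₀ ∧ D.y v i = 1})
    (ζ : (Fin (m + 1) → E) → ℤ) (hζ : ∀ t ∈ K.tops m, ζ t = 1 ∨ ζ t = -1)
    (halt : ∀ t ∈ K.tops m, ∀ π : Equiv.Perm (Fin (m + 1)),
        ζ (t ∘ π) = (Equiv.Perm.sign π : ℤ) * ζ t)
    (hst : ∀ φ : (Fin m → E) → R,
        ∑ t ∈ K.tops m, (ζ t : R) * ∑ j : Fin (m + 1), (-1) ^ (j : ℕ) * φ (t ∘ j.succAbove) = 0) :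
    ∃ x : Fin m → E → E → R,
      (∀ i, ∀ s ∈ K.faces, ∀ a ∈ s, ∀ b ∈ s, ∀ d ∈ s, x i a b + x i b d = x i a d) ∧
      ∑ t ∈ K.tops m, (ζ t : R) * ∏ i : Fin m, x i (t i.castSucc) (t i.succ) ≠ 0 := by
  classical
  obtain ⟨x, hx⟩ := EVB_x D
  have hseg : ∀ (s : Finset E) (A : Set E), convexHull ℝ (s : Set E) ⊆ A →
      ∀ a ∈ s, ∀ b ∈ s, segment ℝ a b ⊆ A := fun s A hsA a ha b hb =>
    (segment_subset_convexHull (Finset.mem_coe.2 ha) (Finset.mem_coe.2 hb)).trans hsA
  refine ⟨x, ?_, ?_⟩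
  · intro i s hs a ha b hb d hd
    obtain ⟨A, hA, hsA⟩ := EVB_piece D K hK had hs
    rw [hx i A hA a b (hseg s A hsA a ha b hb), hx i A hA b d (hseg s A hsA b hb d hd),
      hx i A hA a d (hseg s A hsA a ha d hd)]
    ring
  -- the subcomplex in `P₀`
  have hP0 := had D.P₀ D.mem₀
  obtain ⟨L₀, hL₀f, hL₀s, hL₀a⟩ := K.restrict D.P₀ hP0
  have hPN : D.P₀ ⊆ N := by
    intro v hv
    rw [D.cover]
    exact Set.mem_biUnion D.mem₀ hv
  have hL₀P : L₀.space = D.P₀ := by
    rw [hL₀s, hK]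
    exact inter_eq_right.2 hPN
  have hinj : InjOn D.y L₀.space := by
    rw [hL₀P]
    exact D.inj
  obtain ⟨L, hLf, hLs, hLc, hLh⟩ := L₀.image_complex D.y
    (fun s hs => hy s ((hL₀f s).1 hs).1 ((hL₀f s).1 hs).2) hinj
  obtain ⟨hT1, hT2, hT3⟩ := GC.tops_image (L := L₀) (L' := L) (h := D.y) hinj hLf m
  have hspace : L.space = {z | ∀ i, 0 ≤ z i ∧ z i ≤ 1} := by
    rw [hLs, hL₀P, D.img]
  -- adaptedness
  have hadL : ∀ (i : Fin m) (c : ℝ), K.Adapted {v | v ∈ D.P₀ ∧ D.y v i = c} →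
      L.Adapted {z | (∀ i, 0 ≤ z i ∧ z i ≤ 1) ∧ z i = c} := by
    intro i c hc
    rw [GC.adapted_iff]
    rintro x' s' hs' ⟨hx'c, hx'i⟩
    have hx's : x' ∈ D.y '' D.P₀ := by
      rw [D.img]
      exact hx'c
    obtain ⟨v, hv, rfl⟩ := hx's
    have hv' : v ∈ L₀.space := by
      rw [hL₀P]
      exact hv
    obtain ⟨s, hs⟩ := GC.exists_carrier' hv'
    have h2 := hLc v s hs (s.image D.y) (by rw [Finset.coe_image])
    have h3 : s' = s.image D.y := GC.carrier_unique hs' h2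
    have h4 := GC.adapted_iff.1 (hL₀a _ hc) v s hs ⟨hv, hx'i⟩
    rw [h3, Finset.coe_image, ← hLh s hs.1]
    rintro _ ⟨w, hw, rfl⟩
    obtain ⟨hw1, hw2⟩ := h4 hw
    have h5 : D.y w ∈ D.y '' D.P₀ := mem_image_of_mem _ hw1
    rw [D.img] at h5
    exact ⟨h5, hw2⟩
  -- transport
  obtain ⟨g, hg⟩ : ∃ g : (Fin m → ℝ) → E, ∀ v ∈ D.P₀, g (D.y v) = v :=
    ⟨Function.invFunOn D.y D.P₀, D.inj.leftInvOn_invFunOn⟩
  have hTP : ∀ t ∈ L₀.tops m, ∀ a, t a ∈ D.P₀ := by
    intro t ht a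
    obtain ⟨-, s, hs, hts⟩ := GC.mem_tops.1 ht
    exact ((hL₀f s).1 hs).2 (subset_convexHull ℝ _ (hts a))
  have hTg : ∀ t ∈ L₀.tops m, (fun a => g (D.y (t a))) = t := fun t ht =>
    funext fun a => hg _ (hTP t ht a)
  have hsum : ∀ F : (Fin (m + 1) → (Fin m → ℝ)) → R,
      ∑ t' ∈ L.tops m, (ζ (fun a => g (t' a)) : R) * F t' =
        ∑ t ∈ L₀.tops m, (ζ t : R) * F (fun a => D.y (t a)) := by
    intro F
    symm
    refine Finset.sum_bij (fun t _ => fun a => D.y (t a)) hT1 (fun t ht t' ht' h => hT3 ht ht' h)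
      (fun t' ht' => ?_) (fun t ht => ?_)
    · obtain ⟨t, ht, h⟩ := hT2 t' ht'
      exact ⟨t, ht, h⟩
    · rw [hTg t ht]
  have hsub : L₀.tops m ⊆ K.tops m := by
    intro t ht
    obtain ⟨h2, s, hs, hts⟩ := GC.mem_tops.1 ht
    exact GC.mem_tops.2 ⟨h2, s, ((hL₀f s).1 hs).1, hts⟩
  -- relative Stokes
  have hst' : 0 < m → ∀ φ : (Fin m → (Fin m → ℝ)) → R,
      (∀ r : Fin m → (Fin m → ℝ), (∃ i, (∀ a, r a i = 0) ∨ (∀ a, r a i = 1)) → φ r = 0) →
        ∑ t ∈ L.tops m, (ζ (fun a => g (t a)) : R) *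
          ∑ j : Fin (m + 1), (-1) ^ (j : ℕ) * φ (t ∘ j.succAbove) = 0 := by
    intro hm φ hφ
    rw [hsum (fun t => ∑ j : Fin (m + 1), (-1) ^ (j : ℕ) * φ (t ∘ j.succAbove)),
      ← hst (fun r => if L₀.Tup r then φ (fun a => D.y (r a)) else 0),
      ← Finset.sum_subset hsub]
    · refine Finset.sum_congr rfl fun t ht => ?_
      congr 1
      refine Finset.sum_congr rfl fun j _ => ?_
      have h2 : L₀.Tup (t ∘ j.succAbove) := by
        obtain ⟨-, s, hs, hts⟩ := GC.mem_tops.1 ht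
        exact ⟨s, hs, fun a => hts _⟩
      rw [if_pos h2]
      rfl
    · intro t ht hnt
      refine mul_eq_zero_of_right _ (Finset.sum_eq_zero fun j _ => mul_eq_zero_of_right _ ?_)
      split_ifs with h2
      · by_contra h3
        apply hnt
        obtain ⟨hti, s₁, hs₁, hts₁⟩ := GC.mem_tops.1 ht
        obtain ⟨s₂, hs₂, hts₂⟩ := h2
        have hsf : Finset.univ.image t ∈ K.faces := by
          refine K.down s₁ hs₁ _ ?_ ⟨t 0, Finset.mem_image_of_mem _ (Finset.mem_univ _)⟩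
          intro v hv
          obtain ⟨a, -, rfl⟩ := Finset.mem_image.1 hv
          exact hts₁ a
        have h4 : convexHull ℝ ((Finset.univ.image t : Finset E) : Set E) ⊆ D.P₀ := by
          refine EVB_facet D K hK hP0 h0 h1 (r := Finset.univ.image (t ∘ j.succAbove)) (u := t j)
            hsf ?_ ?_ ?_ ?_ ?_
          · exact ⟨_, Finset.mem_image_of_mem _ (Finset.mem_univ (⟨0, hm⟩ : Fin m))⟩
          · intro h5
            obtain ⟨a, -, ha⟩ := Finset.mem_image.1 h5
            exact Fin.succAbove_ne j a (hti ha)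
          · intro v
            constructor
            · intro hv
              obtain ⟨b, -, rfl⟩ := Finset.mem_image.1 hv
              by_cases hbj : b = j
              · exact Or.inl (by rw [hbj])
              · obtain ⟨a, rfl⟩ := Fin.exists_succAbove_eq hbj
                exact Or.inr (Finset.mem_image.2 ⟨a, Finset.mem_univ _, rfl⟩)
            · rintro (rfl | hv)
              · exact Finset.mem_image_of_mem _ (Finset.mem_univ _)
              · obtain ⟨a, -, rfl⟩ := Finset.mem_image.1 hv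
                exact Finset.mem_image_of_mem _ (Finset.mem_univ _)
          · refine (convexHull_mono ?_).trans ((hL₀f s₂).1 hs₂).2
            intro v hv
            obtain ⟨a, -, rfl⟩ := Finset.mem_image.1 (Finset.mem_coe.1 hv)
            exact hts₂ a
          · intro i
            constructor
            · intro h5
              exact h3 (hφ _ ⟨i, Or.inl fun a => h5 _ (Finset.mem_image.2 ⟨a, Finset.mem_univ _, rfl⟩)⟩)
            · intro h5
              exact h3 (hφ _ ⟨i, Or.inr fun a => h5 _ (Finset.mem_image.2 ⟨a, Finset.mem_univ _, rfl⟩)⟩)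
        exact GC.mem_tops.2 ⟨hti, _, (hL₀f _).2 ⟨hsf, h4⟩,
          fun a => Finset.mem_image_of_mem _ (Finset.mem_univ _)⟩
      · rfl
  have key := corner_eval m hR L hspace (fun i => hadL i 0 (h0 i)) (fun i => hadL i 1 (h1 i))
    (fun t' => ζ (fun a => g (t' a))) (by
      intro t' ht'
      obtain ⟨t, ht, rfl⟩ := hT2 t' ht'
      dsimp only
      rw [hTg t ht]
      exact hζ t (hsub ht)) (by
      intro t' ht' π
      obtain ⟨t, ht, rfl⟩ := hT2 t' ht'
      have h2 : (fun a => g (((fun i => D.y (t i)) ∘ π) a)) = t ∘ π :=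
        funext fun a => hg _ (hTP t ht _)
      dsimp only
      rw [h2, hTg t ht]
      exact halt t (hsub ht) π) hst'
  rw [hsum (fun t => ∏ i : Fin m,
      ((if t i.succ i = 1 then (1 : R) else 0) - (if t i.castSucc i = 1 then (1 : R) else 0)))] at key
  rw [← Finset.sum_subset hsub]
  · convert key using 1
    refine Finset.sum_congr rfl fun t ht => ?_
    congr 1
    refine Finset.prod_congr rfl fun i _ => ?_
    have hφ : ∀ v ∈ D.P₀, D.φ i D.P₀ v = if D.y v i = 1 then 1 else 0 := by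
      intro v hv
      split_ifs with h
      · exact (D.wall i v hv).1 h
      · exact (D.wall i v hv).2 h
    obtain ⟨-, s, hs, hts⟩ := GC.mem_tops.1 ht
    rw [hx i D.P₀ D.mem₀ _ _ (hseg s D.P₀ ((hL₀f s).1 hs).2 _ (hts _) _ (hts _)),
      hφ _ (hTP t ht _), hφ _ (hTP t ht _)]
  · intro t ht hnt
    obtain ⟨hti, s, hs, hts⟩ := GC.mem_tops.1 ht
    obtain ⟨A, hA, hsA⟩ := EVB_piece D K hK had hs
    have hAP : A ≠ D.P₀ := by
      rintro rfl
      exact hnt (GC.mem_tops.2 ⟨hti, s, (hL₀f s).2 ⟨hs, hsA⟩, hts⟩)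
    obtain ⟨i, hi⟩ := D.off A hA hAP
    refine mul_eq_zero_of_right _ (Finset.prod_eq_zero (Finset.mem_univ i) ?_)
    rw [hx i A hA _ _ (hseg s A hsA _ (hts _) _ (hts _)), sub_eq_zero]
    exact hi _ (hsA (subset_convexHull ℝ _ (hts _))) _ (hsA (subset_convexHull ℝ _ (hts _)))

end Pool.H54.UB

end S_EVB

section S_FC

/-!
# Row FC: the evaluation on the total space of a branched cover

* `brc_sum`: `K'.tops m` is the disjoint union of the `lifts S f t`, `t ∈ K.tops m`: for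
  `σ ∈ K'.tops m`, `f ∘ σ ∈ K.tops m` (`Adm.tup_iff`, `f` injective on the piece) and `σ ∈ lifts S f (f ∘ σ)`;
  conversely if `σ ∈ lifts S f t`, `t ∈ K.tops m`, then `σ` is injective (`f ∘ σ = t` is) and `K'.Tup σ`.
* `brc_eval`: `K'` from `Adm.pullback`.  The family `Y` consists of the pieces `D.P`, the sets
  `{v ∈ D.P₀ : y_i v = 0}`, `{.. = 1}` (polyhedra by `PLOn.preimage`), and the hulls of the affine pieces
  of `D.y` (`PLOn.pieces`).  If `K` has the stated property for `Y` then `K'` is adapted to all of them.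
  `hy`: a face hull contained in `D.P₀`: the point with equal weights lies in some affine piece of
  `D.y`, hence by adaptedness the whole hull does.
  `ζ σ = ε (f ∘ σ)`.  Signs and alternation from `Ori`.  Stokes for `ζ`: by `brc_sum` the sum is
  `∑ t, ε t * ∑ j, (-1)^j * Φ_j t`, `Φ_j t = ∑ σ ∈ lifts S f t, φ (σ ∘ δ_j)`; by `cons` it depends only on
  `t ∘ δ_j` (the sum over the multiset `(lifts S f t).val.map (· ∘ δ_j)`), `Φ_j t = Ψ (t ∘ δ_j)` for one
  function `Ψ` independent of `j`; apply `Ori.stokes` to `Ψ`.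
  Then `EvalData.eval_ne_zero`, and `brc_sum` for the final sum.
-/

open Set Topology

namespace Pool.H54.UB

variable {E F : Type*} [NormedAddCommGroup E] [NormedSpace ℝ E] [FiniteDimensional ℝ E]
  [NormedAddCommGroup F] [NormedSpace ℝ F] [FiniteDimensional ℝ F]

theorem FC_top {m k : ℕ} {K : GC F} {S : Finset (Finset E)} {f : E → F} {N : Set E}
    (h : BrC m k K S f N) {K' : GC E}
    (hK' : ∀ t : Finset E, t ∈ K'.faces ↔ t.Nonempty ∧
      (∃ s ∈ S, (t : Set E) ⊆ convexHull ℝ (s : Set E)) ∧ ∃ u ∈ K.faces, f '' (t : Set E) = u)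
    {σ : Fin (m + 1) → E} (hσ : σ ∈ K'.tops m) :
    (fun a => f (σ a)) ∈ K.tops m ∧ σ ∈ lifts S f (fun a => f (σ a)) := by
  obtain ⟨hinj, htup⟩ := GC.mem_tops.1 hσ
  obtain ⟨h1, h2⟩ := (h.adm.tup_iff hK' (Nat.succ_pos m) σ).1 htup
  refine ⟨GC.mem_tops.2 ⟨?_, h1⟩, (h.adm.mem_lifts _ σ).2 h2⟩
  obtain ⟨⟨s, hs, h3⟩, -⟩ := h2
  intro a b hab
  exact hinj (h.adm.inj s hs (h3 a) (h3 b) hab)

theorem FC_lift {m k : ℕ} {K : GC F} {S : Finset (Finset E)} {f : E → F} {N : Set E}
    (h : BrC m k K S f N) {K' : GC E}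
    (hK' : ∀ t : Finset E, t ∈ K'.faces ↔ t.Nonempty ∧
      (∃ s ∈ S, (t : Set E) ⊆ convexHull ℝ (s : Set E)) ∧ ∃ u ∈ K.faces, f '' (t : Set E) = u)
    {t : Fin (m + 1) → F} (ht : t ∈ K.tops m) {σ : Fin (m + 1) → E} (hσ : σ ∈ lifts S f t) :
    σ ∈ K'.tops m ∧ (fun a => f (σ a)) = t := by
  have h2 := (h.adm.mem_lifts t σ).1 hσ
  obtain ⟨hinj, htup⟩ := GC.mem_tops.1 ht
  have h3 : (fun a => f (σ a)) = t := funext h2.2
  refine ⟨GC.mem_tops.2 ⟨?_, ?_⟩, h3⟩
  · intro a b hab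
    apply hinj
    rw [← h2.2 a, ← h2.2 b, hab]
  · rw [h.adm.tup_iff hK' (Nat.succ_pos m) σ, h3]
    exact ⟨htup, h2⟩

theorem brc_sum {m k : ℕ} {K : GC F} {S : Finset (Finset E)} {f : E → F} {N : Set E}
    (h : BrC m k K S f N) {K' : GC E}
    (hK' : ∀ t : Finset E, t ∈ K'.faces ↔ t.Nonempty ∧
      (∃ s ∈ S, (t : Set E) ⊆ convexHull ℝ (s : Set E)) ∧ ∃ u ∈ K.faces, f '' (t : Set E) = u)
    {A : Type*} [AddCommMonoid A] (G : (Fin (m + 1) → E) → A) :
    ∑ σ ∈ K'.tops m, G σ = ∑ t ∈ K.tops m, ∑ σ ∈ lifts S f t, G σ := by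
  classical
  rw [← Finset.sum_fiberwise_of_maps_to (g := fun σ : Fin (m + 1) → E => fun a => f (σ a))
    (fun σ hσ => (FC_top h hK' hσ).1) G]
  refine Finset.sum_congr rfl fun t ht => Finset.sum_congr ?_ fun _ _ => rfl
  ext σ
  rw [Finset.mem_filter]
  constructor
  · rintro ⟨h1, h2⟩
    have h3 := (FC_top h hK' h1).2
    rw [h2] at h3
    exact h3
  · intro h1
    exact FC_lift h hK' ht h1

theorem FC_sing {m : ℕ} {N : Set E} {R : Type*} [CommRing R] (D : EvalData m N R) (i : Fin m)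
    (c : ℝ) : IsPoly {v | v ∈ D.P₀ ∧ D.y v i = c} := by
  have h1 : IsPoly ({c} : Set ℝ) := IsPoly.singleton c
  have h2 := (D.pl.apply i).preimage h1
  have h3 : {v | v ∈ D.P₀ ∧ D.y v i = c} = D.P₀ ∩ (fun x => D.y x i) ⁻¹' {c} := by
    ext v
    simp
  rw [h3]
  exact h2

theorem FC_stokes {m k : ℕ} {K : GC F} {S : Finset (Finset E)} {f : E → F} {N : Set E}
    (h : BrC m k K S f N) {ε : (Fin (m + 1) → F) → ℤ} (hε : Ori m K ε) {R : Type} [CommRing R]
    (φ : (Fin m → E) → R) :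
    ∑ t ∈ K.tops m, (ε t : R) * ∑ j : Fin (m + 1), (-1) ^ (j : ℕ) *
      ∑ σ ∈ lifts S f t, φ (σ ∘ j.succAbove) = 0 := by
  classical
  -- the function of the facet
  have hval : ∀ (t : Fin (m + 1) → F) (j : Fin (m + 1)),
      ∑ σ ∈ lifts S f t, φ (σ ∘ j.succAbove) =
        (((lifts S f t).val.map (fun σ => σ ∘ j.succAbove)).map φ).sum := by
    intro t j
    rw [Multiset.map_map]
    rfl
  have hcons : ∀ t ∈ K.tops m, ∀ t' ∈ K.tops m, ∀ j j' : Fin (m + 1),
      t ∘ j.succAbove = t' ∘ j'.succAbove →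
      ∑ σ ∈ lifts S f t, φ (σ ∘ j.succAbove) = ∑ σ ∈ lifts S f t', φ (σ ∘ j'.succAbove) := by
    intro t ht t' ht' j j' hjj
    rw [hval, hval, h.cons t ht t' ht' m j.succAbove j'.succAbove hjj]
  obtain ⟨Ψ, hΨ⟩ : ∃ Ψ : (Fin m → F) → R, ∀ t ∈ K.tops m, ∀ j : Fin (m + 1),
      ∑ σ ∈ lifts S f t, φ (σ ∘ j.succAbove) = Ψ (t ∘ j.succAbove) := by
    refine ⟨fun r => if hr : ∃ p : (Fin (m + 1) → F) × Fin (m + 1), p.1 ∈ K.tops m ∧
      p.1 ∘ p.2.succAbove = r then
        ∑ σ ∈ lifts S f hr.choose.1, φ (σ ∘ hr.choose.2.succAbove) else 0, fun t ht j => ?_⟩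
    have hr : ∃ p : (Fin (m + 1) → F) × Fin (m + 1), p.1 ∈ K.tops m ∧
      p.1 ∘ p.2.succAbove = t ∘ j.succAbove := ⟨(t, j), ht, rfl⟩
    dsimp only
    rw [dif_pos hr]
    exact hcons t ht _ hr.choose_spec.1 j _ hr.choose_spec.2.symm
  have h1 := hε.stokes R Ψ
  rw [← h1]
  refine Finset.sum_congr rfl fun t ht => ?_
  congr 1
  refine Finset.sum_congr rfl fun j _ => ?_
  rw [hΨ t ht j]

theorem brc_eval {m k : ℕ} {N : Set E} {R : Type} [Field R] (D : EvalData m N R)
    (hR : (((m + 1).factorial : ℕ) : R) ≠ 0) :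
    ∃ Y : Finset (Set E), (∀ A ∈ Y, IsPoly A ∧ A ⊆ N) ∧
      ∀ (K : GC F) (S : Finset (Finset E)) (f : E → F), BrC m k K S f N →
        (∀ A ∈ Y, ∀ s ∈ S, K.Adapted (f '' (A ∩ convexHull ℝ (s : Set E)))) →
        ∀ ε : (Fin (m + 1) → F) → ℤ, Ori m K ε →
        ∃ x : Fin m → E → E → R,
          (∀ i, ∀ t ∈ K.tops m, ∀ σ ∈ lifts S f t, ∀ a b c : Fin (m + 1),
            x i (σ a) (σ b) + x i (σ b) (σ c) = x i (σ a) (σ c)) ∧
          ∑ t ∈ K.tops m, (ε t : R) * ∑ σ ∈ lifts S f t,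
            ∏ i : Fin m, x i (σ i.castSucc) (σ i.succ) ≠ 0 := by
  classical
  obtain ⟨T, hT, hT2⟩ := D.pl.pieces
  have hPN : ∀ A ∈ D.P, A ⊆ N := by
    intro A hA
    rw [D.cover]
    exact Set.subset_biUnion_of_mem (u := fun A : Set E => A) (Finset.mem_coe.2 hA)
  have hP0 : D.P₀ ⊆ N := hPN _ D.mem₀
  refine ⟨D.P ∪ (Finset.univ.image fun i : Fin m => {v | v ∈ D.P₀ ∧ D.y v i = 0}) ∪
    (Finset.univ.image fun i : Fin m => {v | v ∈ D.P₀ ∧ D.y v i = 1}) ∪
    (T.image fun s : Finset E => convexHull ℝ (s : Set E)), ?_, ?_⟩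
  · intro A hA
    rw [Finset.mem_union, Finset.mem_union, Finset.mem_union] at hA
    rcases hA with ((hA | hA) | hA) | hA
    · exact ⟨D.poly A hA, hPN A hA⟩
    · obtain ⟨i, -, rfl⟩ := Finset.mem_image.1 hA
      exact ⟨FC_sing D i 0, fun v hv => hP0 hv.1⟩
    · obtain ⟨i, -, rfl⟩ := Finset.mem_image.1 hA
      exact ⟨FC_sing D i 1, fun v hv => hP0 hv.1⟩
    · obtain ⟨s, hs, rfl⟩ := Finset.mem_image.1 hA
      refine ⟨IsPoly.hull s, fun v hv => hP0 ?_⟩
      rw [hT]
      exact Set.mem_iUnion₂.2 ⟨s, hs, hv⟩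
  · intro K S f hB hY ε hε
    obtain ⟨K', hsp, hK', had⟩ := hB.adm.pullback
    have hadP : ∀ A ∈ D.P, K'.Adapted A := fun A hA =>
      had A (hPN A hA) fun s hs => hY A (by
        rw [Finset.mem_union, Finset.mem_union, Finset.mem_union]
        exact Or.inl (Or.inl (Or.inl hA))) s hs
    have had0 : ∀ i, K'.Adapted {v | v ∈ D.P₀ ∧ D.y v i = 0} := fun i =>
      had _ (fun v hv => hP0 hv.1) fun s hs => hY _ (by
        rw [Finset.mem_union, Finset.mem_union, Finset.mem_union]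
        exact Or.inl (Or.inl (Or.inr (Finset.mem_image_of_mem _ (Finset.mem_univ i))))) s hs
    have had1 : ∀ i, K'.Adapted {v | v ∈ D.P₀ ∧ D.y v i = 1} := fun i =>
      had _ (fun v hv => hP0 hv.1) fun s hs => hY _ (by
        rw [Finset.mem_union, Finset.mem_union, Finset.mem_union]
        exact Or.inl (Or.inr (Finset.mem_image_of_mem _ (Finset.mem_univ i)))) s hs
    have hadT : ∀ s0 ∈ T, K'.Adapted (convexHull ℝ (s0 : Set E)) := fun s0 hs0 =>
      had _ (fun v hv => hP0 (by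
        rw [hT]
        exact Set.mem_iUnion₂.2 ⟨s0, hs0, hv⟩)) fun s hs => hY _ (by
        rw [Finset.mem_union]
        exact Or.inr (Finset.mem_image_of_mem (fun s : Finset E => convexHull ℝ (s : Set E))
          hs0)) s hs
    have hy : ∀ s ∈ K'.faces, convexHull ℝ (s : Set E) ⊆ D.P₀ →
        AffOn D.y (convexHull ℝ (s : Set E)) := by
      intro s hs hsP
      obtain ⟨x, hx⟩ := EVB_bary K' hs
      have hxP := hsP hx.mem_hull
      rw [hT] at hxP
      obtain ⟨s0, hs0, hxs0⟩ := Set.mem_iUnion₂.1 hxP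
      have h1 := GC.adapted_iff.1 (hadT s0 hs0) x s hx hxs0
      obtain ⟨A, hA⟩ := (hT2 s0 hs0).2.2
      exact ⟨A, hA.mono h1⟩
    obtain ⟨x, hx1, hx2⟩ := D.eval_ne_zero hR K' hsp hadP hy had0 had1
      (fun σ => ε fun a => f (σ a)) (fun σ hσ => hε.sign _ (FC_top hB hK' hσ).1)
      (fun σ hσ π => hε.alt _ (FC_top hB hK' hσ).1 π) (fun φ => by
        rw [brc_sum hB hK']
        rw [← FC_stokes hB hε φ]
        refine Finset.sum_congr rfl fun t ht => ?_
        have h1 : ∀ σ ∈ lifts S f t, ((ε fun a => f (σ a) : ℤ) : R) *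
            ∑ j : Fin (m + 1), (-1) ^ (j : ℕ) * φ (σ ∘ j.succAbove) =
            (ε t : R) * ∑ j : Fin (m + 1), (-1) ^ (j : ℕ) * φ (σ ∘ j.succAbove) := by
          intro σ hσ
          rw [(FC_lift hB hK' ht hσ).2]
        rw [Finset.sum_congr rfl h1, ← Finset.mul_sum, Finset.sum_comm]
        congr 1
        refine Finset.sum_congr rfl fun j _ => ?_
        rw [Finset.mul_sum])
    refine ⟨x, ?_, ?_⟩
    · intro i t ht σ hσ a b c
      obtain ⟨-, s, hs, h1⟩ := GC.mem_tops.1 (FC_lift hB hK' ht hσ).1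
      exact hx1 i s hs _ (h1 a) _ (h1 b) _ (h1 c)
    · rw [brc_sum hB hK'] at hx2
      intro h0
      apply hx2
      rw [← h0]
      refine Finset.sum_congr rfl fun t ht => ?_
      rw [Finset.mul_sum]
      refine Finset.sum_congr rfl fun σ hσ => ?_
      rw [(FC_lift hB hK' ht hσ).2]

end Pool.H54.UB

end S_FC

section S_CH

/-!
# Row CH: products of 1-cocycles, Stokes for a product with a front cochain

Cochains of degree `n` on a vertex type `X` are functions `(Fin (n+1) → X) → R`.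
A 1-cochain is `x : X → X → R`; it is a cocycle on a tuple `t` if
`x (t a) (t b) + x (t b) (t c) = x (t a) (t c)` for all entries (so `x (t a) (t a) = 0`).

`prod_cocycle`: for `w : Fin (b+2) → X` and 1-cochains `x 0, ..., x (b-1)` (`b ≥ 1`) that are cocycles
on `w`, the product `X_b(v) = ∏_{i<b} x i (v i) (v (i+1))` satisfies
`∑_{j<b+2} (-1)^j X_b (w ∘ succAbove j) = 0`.
Proof: induction on `b`, or telescoping: write
`X_b(w ∘ δ_j)` for `0 < j < b+1` as `P_{j-1} · x_{j-1}(w_{j-1}, w_{j+1}) · S_{j+1}` with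
`P_{k} = ∏_{i<k} x_i(w_i, w_{i+1})`, `S_k = ∏_{i ≥ k-1, i<b} x_i (w_{i+1}, w_{i+2})`, and
`x_{j-1}(w_{j-1},w_{j+1}) = x_{j-1}(w_{j-1}, w_j) + x_{j-1}(w_j, w_{j+1})`: the alternating sum
telescopes against the terms `j = 0` and `j = b+1`.

`int_front`: a chain is a finite family `τ : ι → (Fin (m+1) → X)` with weights `wt` such that
(Stokes) `∑_i wt i ∑_j (-1)^j φ (τ i ∘ succAbove j) = 0` for every `φ : (Fin m → X) → R`.
For `1 ≤ b ≤ m`, `c : (Fin b → X) → R` and 1-cochains `a i` that are cocycles on all `τ i`: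
`∑_i wt i * (δ c)(front b-face of τ i) * ∏_{k ≥ b} a k (τ i k) (τ i (k+1)) = 0`.
Proof: apply Stokes to `φ (v) = c (v_0, .., v_{b-1}) * ∏_{k ≥ b} a k (v_{k-1}) (v_k)` (`v : Fin m → X`);
the terms `j < b` of `δ φ` are `(-1)^j c(front ∘ δ_j) * ∏_{k ≥ b} a k (τ k) (τ (k+1))`;
the terms `j ≥ b`: `c (τ_0 .. τ_{b-1})` times the product over the tail `τ_{b-1}, ..., τ_m` with one
of the entries `τ_b, ..., τ_m` omitted; the alternating sum of these is
`(-1)^b c (τ_0..τ_{b-1}) ∏_{k ≥ b} a k (τ k)(τ (k+1))` by `prod_cocycle` for the tail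
(`∑_{j ≥ b-1} (omit τ_j) ± = 0`, the term `j = b-1` being the product over `τ_b..τ_m`), which is
exactly the missing term `j = b` of `(δ c)(front)`, with the right sign.  (If `b = m` the tail
product is empty; then the claim is Stokes itself.)
It is convenient to prove everything for sequences `ℕ → X` (no casts) and then to specialise.
-/

namespace Pool.H54.UB

open Finset

private def CH_D {X : Type*} (w : ℕ → X) (j i : ℕ) : X := if i < j then w i else w (i + 1)

private theorem CH_seq {X R : Type*} [CommRing R] (x : ℕ → X → X → R) (w : ℕ → X) (b : ℕ)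
    (h : ∀ i < b, x i (w i) (w (i + 1)) + x i (w (i + 1)) (w (i + 2)) = x i (w i) (w (i + 2))) :
    ∑ j ∈ range (b + 2), (-1 : R) ^ j *
      ∏ i ∈ range b, x i (CH_D w j i) (CH_D w j (i + 1)) = 0 := by
  induction b with
  | zero => simp [Finset.sum_range_succ]
  | succ b ih =>
    have ih := ih (fun i hi => h i (by omega))
    have hb := h b (by omega)
    have eP : ∀ j, b + 1 ≤ j → ∏ i ∈ range b, x i (CH_D w j i) (CH_D w j (i + 1)) =
        ∏ i ∈ range b, x i (w i) (w (i + 1)) := by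
      intro j hj
      refine Finset.prod_congr rfl fun i hi => ?_
      rw [Finset.mem_range] at hi
      rw [CH_D, CH_D, if_pos (by omega), if_pos (by omega)]
    rw [Finset.sum_range_succ, eP (b + 1) le_rfl] at ih
    rw [Finset.sum_range_succ, Finset.sum_range_succ]
    have e1 : ∑ j ∈ range (b + 1), (-1 : R) ^ j *
        ∏ i ∈ range (b + 1), x i (CH_D w j i) (CH_D w j (i + 1)) =
        (∑ j ∈ range (b + 1), (-1 : R) ^ j *
          ∏ i ∈ range b, x i (CH_D w j i) (CH_D w j (i + 1))) * x b (w (b + 1)) (w (b + 2)) := by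
      rw [Finset.sum_mul]
      refine Finset.sum_congr rfl fun j hj => ?_
      rw [Finset.mem_range] at hj
      rw [Finset.prod_range_succ]
      have h1 : CH_D w j b = w (b + 1) := if_neg (by omega)
      have h2 : CH_D w j (b + 1) = w (b + 2) := if_neg (by omega)
      rw [h1, h2]
      ring
    rw [e1, Finset.prod_range_succ, Finset.prod_range_succ, eP (b + 1) le_rfl,
      eP (b + 1 + 1) (by omega)]
    have h1 : CH_D w (b + 1) b = w b := if_pos (by omega)
    have h2 : CH_D w (b + 1) (b + 1) = w (b + 2) := if_neg (by omega)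
    have h3 : CH_D w (b + 1 + 1) b = w b := if_pos (by omega)
    have h4 : CH_D w (b + 1 + 1) (b + 1) = w (b + 1) := if_pos (by omega)
    rw [h1, h2, h3, h4]
    linear_combination x b (w (b + 1)) (w (b + 2)) * ih -
      (-1) ^ (b + 1) * (∏ i ∈ range b, x i (w i) (w (i + 1))) * hb

/-- Extension of a tuple to a sequence. -/
private def CH_T {X : Type*} {m : ℕ} (t : Fin (m + 1) → X) (n : ℕ) : X :=
  t ⟨min n m, by omega⟩

private theorem CH_T_val {X : Type*} {m : ℕ} (t : Fin (m + 1) → X) (k : Fin (m + 1)) :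
    CH_T t k = t k := by
  rw [CH_T]
  congr 1
  apply Fin.ext
  show min (k : ℕ) m = k
  omega

private theorem CH_T_D {X : Type*} {m : ℕ} (t : Fin (m + 1) → X) (j k : ℕ)
    (p : Fin (m + 1)) (hp : (p : ℕ) = if k < j then k else k + 1) :
    CH_D (CH_T t) j k = t p := by
  rw [← CH_T_val t p, hp, CH_D]
  split_ifs <;> rfl

private theorem CH_sa {n : ℕ} (j : Fin (n + 1)) (k : Fin n) :
    ((j.succAbove k : Fin (n + 1)) : ℕ) = if (k : ℕ) < j then (k : ℕ) else k + 1 := by
  rw [Fin.succAbove]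
  by_cases h : (k : ℕ) < j
  · rw [if_pos (show k.castSucc < j from h), if_pos h]
    rfl
  · rw [if_neg (show ¬ k.castSucc < j from h), if_neg h]
    rfl

theorem prod_cocycle {X R : Type*} [CommRing R] (b : ℕ) (hb : 1 ≤ b) (x : Fin b → X → X → R)
    (w : Fin (b + 2) → X)
    (h : ∀ i, ∀ u v z : Fin (b + 2), x i (w u) (w v) + x i (w v) (w z) = x i (w u) (w z)) :
    ∑ j : Fin (b + 2), (-1 : R) ^ (j : ℕ) *
      ∏ i : Fin b, x i (w (j.succAbove i.castSucc)) (w (j.succAbove i.succ)) = 0 := by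
  obtain ⟨x', hx'⟩ : ∃ x' : ℕ → X → X → R, ∀ i : Fin b, x' i = x i :=
    ⟨fun i => if h : i < b then x ⟨i, h⟩ else fun _ _ => 0, fun i => by simp⟩
  have key := CH_seq x' (CH_T w) b (fun i hi => by
    have e : ∀ n (hn : n < b + 2), CH_T w n = w ⟨n, hn⟩ := fun n hn => CH_T_val w ⟨n, hn⟩
    rw [e i (by omega), e (i + 1) (by omega), e (i + 2) (by omega),
      show x' i = x ⟨i, hi⟩ from hx' ⟨i, hi⟩]
    exact h _ _ _ _)
  rw [← key, ← Fin.sum_univ_eq_sum_range]
  refine Finset.sum_congr rfl fun j _ => ?_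
  rw [← Fin.prod_univ_eq_prod_range]
  congr 1
  refine Finset.prod_congr rfl fun i _ => ?_
  rw [hx', CH_T_D w j i (j.succAbove i.castSucc) (CH_sa j i.castSucc),
    CH_T_D w j (i + 1) (j.succAbove i.succ) (CH_sa j i.succ)]

private theorem CH_filter {R : Type*} [CommRing R] (b n : ℕ) (F : ℕ → R) :
    ∏ k ∈ univ.filter (fun k : Fin (b + n) => b ≤ (k : ℕ)), F k =
      ∏ i ∈ range n, F (b + i) := by
  rw [Finset.prod_filter, Fin.prod_univ_eq_prod_range (fun k => if b ≤ k then F k else 1) (b + n),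
    Finset.prod_range_add]
  have e1 : ∏ k ∈ range b, (if b ≤ k then F k else 1) = 1 :=
    Finset.prod_eq_one fun k hk => by
      rw [Finset.mem_range] at hk
      exact if_neg (by omega)
  rw [e1, one_mul]
  exact Finset.prod_congr rfl fun k _ => if_pos (by omega)

private theorem CH_point {X R : Type*} [CommRing R] (b n : ℕ) (hb : 1 ≤ b)
    (t : Fin (b + n + 1) → X) (c : (Fin b → X) → R) (a : Fin (b + n) → X → X → R)
    (ha : ∀ k, ∀ u v z : Fin (b + n + 1), a k (t u) (t v) + a k (t v) (t z) = a k (t u) (t z))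
    (φ : (Fin (b + n) → X) → R)
    (hφ : ∀ v, φ v = c (fun k => v (Fin.castLE (by omega) k)) *
      ∏ k ∈ univ.filter (fun k : Fin (b + n) => b ≤ (k : ℕ)),
        a k (v ⟨(k : ℕ) - 1, by omega⟩) (v k)) :
    ∑ j : Fin (b + n + 1), (-1 : R) ^ (j : ℕ) * φ (t ∘ j.succAbove) =
      (∑ j : Fin (b + 1), (-1) ^ (j : ℕ) *
        c (fun k : Fin b => t (Fin.castLE (by omega) (j.succAbove k)))) *
      ∏ k ∈ univ.filter (fun k : Fin (b + n) => b ≤ (k : ℕ)),
        a k (t k.castSucc) (t k.succ) := by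
  obtain ⟨A, hA⟩ : ∃ A : ℕ → X → X → R, ∀ i : Fin (b + n), A i = a i :=
    ⟨fun i => if h : i < b + n then a ⟨i, h⟩ else fun _ _ => 0, fun i => by simp⟩
  obtain ⟨T, hT⟩ : ∃ T : ℕ → X, T = CH_T t := ⟨_, rfl⟩
  -- the terms as functions of sequences
  have e1 : ∀ j : Fin (b + n + 1), φ (t ∘ j.succAbove) =
      c (fun k : Fin b => CH_D T j k) *
        ∏ i ∈ range n, A (b + i) (CH_D T j (b + i - 1)) (CH_D T j (b + i)) := by
    intro j
    rw [hφ, ← CH_filter b n (fun k => A k (CH_D T j (k - 1)) (CH_D T j k))]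
    congr 1
    · congr 1
      funext k
      rw [hT]
      exact (CH_T_D t j k _ (by
        show ((j.succAbove (Fin.castLE (by omega) k) : Fin (b + n + 1)) : ℕ) = _
        rw [CH_sa]
        rfl)).symm
    · refine Finset.prod_congr rfl fun k hk => ?_
      rw [hA, hT]
      congr 1
      · exact (CH_T_D t j (k - 1) (j.succAbove ⟨(k : ℕ) - 1, by omega⟩)
          (CH_sa j ⟨(k : ℕ) - 1, by omega⟩)).symm
      · exact (CH_T_D t j k _ (CH_sa j k)).symm
  have e2 : ∀ j : Fin (b + 1), c (fun k : Fin b => t (Fin.castLE (by omega) (j.succAbove k))) =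
      c (fun k : Fin b => CH_D T j k) := by
    intro j
    congr 1
    funext k
    rw [hT]
    exact (CH_T_D t j k _ (by
      show ((j.succAbove k : Fin (b + 1)) : ℕ) = _
      rw [CH_sa])).symm
  have e3 : ∏ k ∈ univ.filter (fun k : Fin (b + n) => b ≤ (k : ℕ)),
      a k (t k.castSucc) (t k.succ) = ∏ i ∈ range n, A (b + i) (T (b + i)) (T (b + i + 1)) := by
    rw [← CH_filter b n (fun k => A k (T k) (T (k + 1)))]
    refine Finset.prod_congr rfl fun k hk => ?_
    rw [hA, hT, ← CH_T_val t k.castSucc, ← CH_T_val t k.succ]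
    rfl
  rw [e3]
  simp only [e1, e2]
  rw [Fin.sum_univ_eq_sum_range (fun j => (-1 : R) ^ j * (c (fun k : Fin b => CH_D T j k) *
        ∏ i ∈ range n, A (b + i) (CH_D T j (b + i - 1)) (CH_D T j (b + i)))) (b + n + 1),
    Fin.sum_univ_eq_sum_range (fun j => (-1 : R) ^ j * c (fun k : Fin b => CH_D T j k)) (b + 1),
    show b + n + 1 = b + (n + 1) by ring, Finset.sum_range_add, Finset.sum_range_succ _ b,
    add_mul]
  congr 1
  · rw [Finset.sum_mul]
    refine Finset.sum_congr rfl fun j hj => ?_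
    rw [Finset.mem_range] at hj
    rw [mul_assoc]
    congr 2
    refine Finset.prod_congr rfl fun i _ => ?_
    have h1 : CH_D T j (b + i - 1) = T (b + i) := by
      rw [CH_D, if_neg (by omega)]
      congr 1
      omega
    have h2 : CH_D T j (b + i) = T (b + i + 1) := by
      rw [CH_D, if_neg (by omega)]
    rw [h1, h2]
  · have key := CH_seq (fun i => A (b + i)) (fun i => T (b - 1 + i)) n (fun i hi => by
      have e : ∀ p (hp : p < b + n + 1), T p = t ⟨p, hp⟩ := fun p hp => by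
        rw [hT]
        exact CH_T_val t ⟨p, hp⟩
      show A (b + i) (T (b - 1 + i)) (T (b - 1 + (i + 1))) +
        A (b + i) (T (b - 1 + (i + 1))) (T (b - 1 + (i + 2))) =
        A (b + i) (T (b - 1 + i)) (T (b - 1 + (i + 2)))
      rw [e (b - 1 + i) (by omega), e (b - 1 + (i + 1)) (by omega),
        e (b - 1 + (i + 2)) (by omega),
        show A (b + i) = a ⟨b + i, by omega⟩ from hA ⟨b + i, by omega⟩]
      exact ha _ _ _ _)
    rw [Finset.sum_range_succ'] at key
    have k0 : ∏ i ∈ range n, A (b + i) (CH_D (fun i => T (b - 1 + i)) 0 i)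
        (CH_D (fun i => T (b - 1 + i)) 0 (i + 1)) =
        ∏ i ∈ range n, A (b + i) (T (b + i)) (T (b + i + 1)) := by
      refine Finset.prod_congr rfl fun i _ => ?_
      have h1 : CH_D (fun i => T (b - 1 + i)) 0 i = T (b + i) := by
        show T (b - 1 + (i + 1)) = _
        congr 1
        omega
      have h2 : CH_D (fun i => T (b - 1 + i)) 0 (i + 1) = T (b + i + 1) := by
        show T (b - 1 + (i + 1 + 1)) = _
        congr 1
        omega
      rw [h1, h2]
    have k1 : ∀ j, ∏ i ∈ range n, A (b + i) (CH_D (fun i => T (b - 1 + i)) (j + 1) i)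
        (CH_D (fun i => T (b - 1 + i)) (j + 1) (i + 1)) =
        ∏ i ∈ range n, A (b + i) (CH_D T (b + j) (b + i - 1)) (CH_D T (b + j) (b + i)) := by
      intro j
      refine Finset.prod_congr rfl fun i _ => ?_
      have h1 : CH_D (fun i => T (b - 1 + i)) (j + 1) i = CH_D T (b + j) (b + i - 1) := by
        unfold CH_D
        by_cases h : i < j + 1
        · rw [if_pos h, if_pos (by omega)]
          show T (b - 1 + i) = T (b + i - 1)
          congr 1
          omega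
        · rw [if_neg h, if_neg (by omega)]
          show T (b - 1 + (i + 1)) = T (b + i - 1 + 1)
          congr 1
          omega
      have h2 : CH_D (fun i => T (b - 1 + i)) (j + 1) (i + 1) = CH_D T (b + j) (b + i) := by
        unfold CH_D
        by_cases h : i + 1 < j + 1
        · rw [if_pos h, if_pos (by omega)]
          show T (b - 1 + (i + 1)) = T (b + i)
          congr 1
          omega
        · rw [if_neg h, if_neg (by omega)]
          show T (b - 1 + (i + 1 + 1)) = T (b + i + 1)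
          congr 1
          omega
      rw [h1, h2]
    rw [k0, pow_zero, one_mul, Finset.sum_congr rfl (fun j _ => by rw [k1 j])] at key
    have k2 : ∀ j ∈ range (n + 1), (-1 : R) ^ (b + j) *
        (c (fun k : Fin b => CH_D T (b + j) k) * ∏ i ∈ range n,
          A (b + i) (CH_D T (b + j) (b + i - 1)) (CH_D T (b + j) (b + i))) =
        -((-1) ^ b * c (fun k : Fin b => CH_D T b k)) * ((-1) ^ (j + 1) *
          ∏ i ∈ range n, A (b + i) (CH_D T (b + j) (b + i - 1)) (CH_D T (b + j) (b + i))) := by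
      intro j _
      have h3 : (fun k : Fin b => CH_D T (b + j) k) = fun k : Fin b => CH_D T b k := by
        funext k
        rw [CH_D, CH_D, if_pos (by omega), if_pos (by omega)]
      rw [h3]
      ring
    rw [Finset.sum_congr rfl k2, ← Finset.mul_sum]
    linear_combination -((-1) ^ b * c (fun k : Fin b => CH_D T b k)) * key

theorem int_front {X R ι : Type*} [CommRing R] [Fintype ι] (m : ℕ)
    (τ : ι → Fin (m + 1) → X) (wt : ι → R)
    (stokes : ∀ φ : (Fin m → X) → R,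
      ∑ i, wt i * ∑ j : Fin (m + 1), (-1) ^ (j : ℕ) * φ (τ i ∘ j.succAbove) = 0)
    (b : ℕ) (hb : 1 ≤ b) (hbm : b ≤ m) (c : (Fin b → X) → R) (a : Fin m → X → X → R)
    (ha : ∀ k, ∀ i, ∀ u v z : Fin (m + 1),
      a k (τ i u) (τ i v) + a k (τ i v) (τ i z) = a k (τ i u) (τ i z)) :
    ∑ i, wt i * (∑ j : Fin (b + 1), (-1) ^ (j : ℕ) *
        c (fun k : Fin b => τ i (Fin.castLE (by omega) (j.succAbove k)))) *
      ∏ k ∈ univ.filter (fun k : Fin m => b ≤ (k : ℕ)), a k (τ i k.castSucc) (τ i k.succ) = 0 := by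
  obtain ⟨n, rfl⟩ := Nat.exists_eq_add_of_le hbm
  rw [← stokes (fun v => c (fun k => v (Fin.castLE (by omega) k)) *
    ∏ k ∈ univ.filter (fun k : Fin (b + n) => b ≤ (k : ℕ)),
      a k (v ⟨(k : ℕ) - 1, by omega⟩) (v k))]
  refine Finset.sum_congr rfl fun i _ => ?_
  rw [CH_point b n hb (τ i) c a (fun k => ha k i) _ (fun v => rfl), mul_assoc]

end Pool.H54.UB

end S_CH

section S_PERM

/-!
# Row PERM: the integral of a product of 1-cocycles is alternating

`I(a) = ∑_i wt i * ∏_{k<m} a k (τ i k) (τ i (k+1))` for a chain `(τ, wt)` satisfying Stokes and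
1-cochains `a k` that are cocycles on all the tuples `τ i`.

`int_swap`: exchanging `a r` and `a (r+1)` changes the sign.  Apply Stokes to the cochain
`φ(v) = ∏_{k<r} a k (v_k)(v_{k+1}) * (a r (v_r)(v_{r+1}) * a (r+1) (v_r)(v_{r+1})) *
        ∏_{k>r+1} a k (v_{k-1})(v_k)`   (`v : Fin m → X`).
With `h(v_0,v_1) = A(v_0,v_1) B(v_0,v_1)`, `A, B` cocycles:
`h(v_1,v_2) - h(v_0,v_2) + h(v_0,v_1) = - A(v_0,v_1)B(v_1,v_2) - B(v_0,v_1)A(v_1,v_2)`,
(because `A(v_0,v_2) = A(v_0,v_1)+A(v_1,v_2)` etc.) and the two outer products are products of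
cocycles (telescoping as in the proof of `prod_cocycle`), so `δ φ (t)` is
`∓ (∏_{k<r} ..) * (a_r(t_r,t_{r+1}) a_{r+1}(t_{r+1},t_{r+2}) + a_{r+1}(t_r,t_{r+1}) a_r(t_{r+1},t_{r+2}))
* (∏_{k>r+1} ..)`, and its integral is 0.

`int_perm`: adjacent transpositions generate the symmetric group
(`Equiv.Perm.mclosure_swap_castSucc_succ`), `Equiv.Perm.sign` is multiplicative.
-/

namespace Pool.H54.UB

open Finset

/-- the coboundary of a product of 1-cochains -/
theorem PERM_cup {X R : Type*} [CommRing R] (T : ℕ → X) (c : ℕ → X → X → R) (n : ℕ) :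
    ∑ j ∈ range (n + 2), (-1 : R) ^ j *
        ∏ k ∈ range n, c k (T (if k < j then k else k + 1)) (T (if k + 1 < j then k + 1 else k + 2)) =
      ∑ j ∈ range n, (-1 : R) ^ (j + 1) * ((∏ k ∈ range j, c k (T k) (T (k + 1))) *
        (c j (T j) (T (j + 2)) - c j (T j) (T (j + 1)) - c j (T (j + 1)) (T (j + 2))) *
        ∏ k ∈ Ico (j + 1) n, c k (T (k + 1)) (T (k + 2))) := by
  induction n with
  | zero => simp [Finset.sum_range_succ]
  | succ n ih =>
    have hR : ∑ j ∈ range (n + 1), (-1 : R) ^ (j + 1) * ((∏ k ∈ range j, c k (T k) (T (k + 1))) *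
        (c j (T j) (T (j + 2)) - c j (T j) (T (j + 1)) - c j (T (j + 1)) (T (j + 2))) *
        ∏ k ∈ Ico (j + 1) (n + 1), c k (T (k + 1)) (T (k + 2))) =
        (∑ j ∈ range n, (-1 : R) ^ (j + 1) * ((∏ k ∈ range j, c k (T k) (T (k + 1))) *
        (c j (T j) (T (j + 2)) - c j (T j) (T (j + 1)) - c j (T (j + 1)) (T (j + 2))) *
        ∏ k ∈ Ico (j + 1) n, c k (T (k + 1)) (T (k + 2)))) * c n (T (n + 1)) (T (n + 2)) +
        (-1 : R) ^ (n + 1) * ((∏ k ∈ range n, c k (T k) (T (k + 1))) *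
        (c n (T n) (T (n + 2)) - c n (T n) (T (n + 1)) - c n (T (n + 1)) (T (n + 2)))) := by
      rw [Finset.sum_range_succ, Finset.Ico_self, Finset.prod_empty, mul_one, Finset.sum_mul]
      congr 1
      refine Finset.sum_congr rfl fun j hj => ?_
      have hj' := Finset.mem_range.1 hj
      rw [Finset.prod_Ico_succ_top (by omega)]
      ring
    rw [hR, ← ih]
    rw [Finset.sum_range_succ _ (n + 2), Finset.sum_range_succ _ (n + 1),
      Finset.sum_range_succ _ (n + 1)]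
    have h1 : ∀ j ∈ range (n + 1), (-1 : R) ^ j *
        ∏ k ∈ range (n + 1), c k (T (if k < j then k else k + 1))
          (T (if k + 1 < j then k + 1 else k + 2)) =
        ((-1 : R) ^ j * ∏ k ∈ range n, c k (T (if k < j then k else k + 1))
          (T (if k + 1 < j then k + 1 else k + 2))) * c n (T (n + 1)) (T (n + 2)) := by
      intro j hj
      have hj' := Finset.mem_range.1 hj
      rw [Finset.prod_range_succ, if_neg (show ¬ n < j by omega),
        if_neg (show ¬ n + 1 < j by omega)]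
      ring
    rw [Finset.sum_congr rfl h1, ← Finset.sum_mul]
    have h2 : ∏ k ∈ range (n + 1), c k (T (if k < n + 1 then k else k + 1))
          (T (if k + 1 < n + 1 then k + 1 else k + 2)) =
        (∏ k ∈ range n, c k (T k) (T (k + 1))) * c n (T n) (T (n + 2)) := by
      rw [Finset.prod_range_succ, if_pos (show n < n + 1 by omega),
        if_neg (show ¬ n + 1 < n + 1 by omega)]
      congr 1
      refine Finset.prod_congr rfl fun k hk => ?_
      have hk' := Finset.mem_range.1 hk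
      rw [if_pos (show k < n + 1 by omega), if_pos (show k + 1 < n + 1 by omega)]
    have h3 : ∏ k ∈ range (n + 1), c k (T (if k < n + 2 then k else k + 1))
          (T (if k + 1 < n + 2 then k + 1 else k + 2)) =
        (∏ k ∈ range n, c k (T k) (T (k + 1))) * c n (T n) (T (n + 1)) := by
      rw [Finset.prod_range_succ, if_pos (show n < n + 2 by omega),
        if_pos (show n + 1 < n + 2 by omega)]
      congr 1
      refine Finset.prod_congr rfl fun k hk => ?_
      have hk' := Finset.mem_range.1 hk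
      rw [if_pos (show k < n + 2 by omega), if_pos (show k + 1 < n + 2 by omega)]
    have h4 : ∏ k ∈ range n, c k (T (if k < n + 1 then k else k + 1))
          (T (if k + 1 < n + 1 then k + 1 else k + 2)) =
        ∏ k ∈ range n, c k (T k) (T (k + 1)) := by
      refine Finset.prod_congr rfl fun k hk => ?_
      have hk' := Finset.mem_range.1 hk
      rw [if_pos (show k < n + 1 by omega), if_pos (show k + 1 < n + 1 by omega)]
    rw [h2, h3, h4]
    ring

theorem PERM_split {R : Type*} [CommRing R] (g : ℕ → R) {r n : ℕ} (h : r < n) :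
    ∏ k ∈ range (n + 1), g k =
      (∏ k ∈ range r, g k) * (g r * g (r + 1)) * ∏ k ∈ Ico (r + 1) n, g (k + 1) := by
  obtain ⟨d, rfl⟩ : ∃ d, n = r + 1 + d := ⟨n - (r + 1), by omega⟩
  have e1 : r + 1 + d + 1 = (r + 1 + 1) + d := by ring
  rw [e1, Finset.prod_range_add, Finset.prod_range_succ, Finset.prod_range_succ,
    Finset.prod_Ico_eq_prod_range]
  have e2 : r + 1 + d - (r + 1) = d := by omega
  rw [e2]
  have e3 : ∏ x ∈ range d, g (r + 1 + 1 + x) = ∏ x ∈ range d, g (r + 1 + x + 1) :=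
    Finset.prod_congr rfl fun x _ => by congr 1; ring
  rw [e3]
  ring

/-- the coboundary of the product with the double factor at `r` -/
theorem PERM_key {X R : Type*} [CommRing R] (T : ℕ → X) (a : ℕ → X → X → R) (n r : ℕ) (hr : r < n)
    (ha : ∀ k u v z, a k (T u) (T v) + a k (T v) (T z) = a k (T u) (T z)) :
    ∑ j ∈ range (n + 2), (-1 : R) ^ j *
        ∏ k ∈ range n, (if k < r then a k else if k = r then
          (fun x y => a r x y * a (r + 1) x y) else a (k + 1))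
          (T (if k < j then k else k + 1)) (T (if k + 1 < j then k + 1 else k + 2)) =
      (-1 : R) ^ (r + 1) * (∏ k ∈ range (n + 1), a k (T k) (T (k + 1)) +
        ∏ k ∈ range (n + 1), a (Equiv.swap r (r + 1) k) (T k) (T (k + 1))) := by
  obtain ⟨c, hc⟩ : ∃ c : ℕ → X → X → R, c = fun k => if k < r then a k else if k = r then
          (fun x y => a r x y * a (r + 1) x y) else a (k + 1) := ⟨_, rfl⟩
  have h1 := PERM_cup T c n
  rw [hc] at h1
  rw [h1, ← hc]
  have hlt : ∀ k, k < r → c k = a k := fun k hk => by rw [hc]; simp only [if_pos hk]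
  have heq : c r = fun x y => a r x y * a (r + 1) x y := by rw [hc]; simp
  have hgt : ∀ k, r < k → c k = a (k + 1) := fun k hk => by
    rw [hc]; simp only [if_neg (show ¬ k < r by omega), if_neg (show ¬ k = r by omega)]
  rw [Finset.sum_eq_single r]
  · congr 1
    rw [PERM_split _ hr, PERM_split _ hr, Equiv.swap_apply_left, Equiv.swap_apply_right, heq]
    have e1 : ∏ k ∈ range r, c k (T k) (T (k + 1)) = ∏ k ∈ range r, a k (T k) (T (k + 1)) :=
      Finset.prod_congr rfl fun k hk => by rw [hlt k (Finset.mem_range.1 hk)]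
    have e2 : ∏ k ∈ range r, a (Equiv.swap r (r + 1) k) (T k) (T (k + 1)) =
        ∏ k ∈ range r, a k (T k) (T (k + 1)) :=
      Finset.prod_congr rfl fun k hk => by
        have := Finset.mem_range.1 hk
        rw [Equiv.swap_apply_of_ne_of_ne (by omega) (by omega)]
    have e3 : ∏ k ∈ Ico (r + 1) n, c k (T (k + 1)) (T (k + 2)) =
        ∏ k ∈ Ico (r + 1) n, a (k + 1) (T (k + 1)) (T (k + 1 + 1)) :=
      Finset.prod_congr rfl fun k hk => by
        have := (Finset.mem_Ico.1 hk).1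
        rw [hgt k (by omega)]
    have e4 : ∏ k ∈ Ico (r + 1) n, a (Equiv.swap r (r + 1) (k + 1)) (T (k + 1)) (T (k + 1 + 1)) =
        ∏ k ∈ Ico (r + 1) n, a (k + 1) (T (k + 1)) (T (k + 1 + 1)) :=
      Finset.prod_congr rfl fun k hk => by
        have := (Finset.mem_Ico.1 hk).1
        rw [Equiv.swap_apply_of_ne_of_ne (by omega) (by omega)]
    rw [e1, e2, e3, e4]
    have f1 := ha r r (r + 1) (r + 2)
    have f2 := ha (r + 1) r (r + 1) (r + 2)
    simp only
    rw [← f1, ← f2]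
    ring
  · intro j hj hne
    have hcoc : c j (T j) (T (j + 1)) + c j (T (j + 1)) (T (j + 2)) = c j (T j) (T (j + 2)) := by
      rcases lt_or_gt_of_ne hne with h | h
      · rw [hlt j h]; exact ha _ _ _ _
      · rw [hgt j h]; exact ha _ _ _ _
    rw [← hcoc]
    ring
  · intro h
    exact absurd (Finset.mem_range.2 hr) h

theorem PERM_swap {X R ι : Type*} [CommRing R] [Fintype ι] (n : ℕ)
    (τ : ι → Fin (n + 1 + 1) → X) (wt : ι → R)
    (stokes : ∀ φ : (Fin (n + 1) → X) → R,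
      ∑ i, wt i * ∑ j : Fin (n + 1 + 1), (-1) ^ (j : ℕ) * φ (τ i ∘ j.succAbove) = 0)
    (a : Fin (n + 1) → X → X → R)
    (ha : ∀ k, ∀ i, ∀ u v z : Fin (n + 1 + 1),
      a k (τ i u) (τ i v) + a k (τ i v) (τ i z) = a k (τ i u) (τ i z))
    (r : Fin n) :
    ∑ i, wt i * ∏ k : Fin (n + 1), a (Equiv.swap r.castSucc r.succ k) (τ i k.castSucc)
        (τ i k.succ) =
      - ∑ i, wt i * ∏ k : Fin (n + 1), a k (τ i k.castSucc) (τ i k.succ) := by
  obtain ⟨a', ha'⟩ : ∃ a' : ℕ → X → X → R, a' = fun k => if h : k < n + 1 then a ⟨k, h⟩ else 0 :=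
    ⟨_, rfl⟩
  have ha'k : ∀ k : Fin (n + 1), a' k.1 = a k := fun k => by
    rw [ha']; simp only [dif_pos k.2]
  obtain ⟨T, hT⟩ : ∃ T : ι → ℕ → X, T = fun i k => if h : k < n + 1 + 1 then τ i ⟨k, h⟩ else
    τ i 0 := ⟨_, rfl⟩
  have hTk : ∀ i, ∀ k : Fin (n + 1 + 1), T i k.1 = τ i k := fun i k => by
    rw [hT]; simp only [dif_pos k.2]
  have hTr : ∀ i, ∀ k, ∃ u, T i k = τ i u := fun i k => by
    by_cases h : k < n + 1 + 1
    · exact ⟨⟨k, h⟩, hTk i ⟨k, h⟩⟩
    · exact ⟨0, by rw [hT]; simp only [dif_neg h]⟩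
  have hcoc : ∀ i k u v z, a' k (T i u) (T i v) + a' k (T i v) (T i z) = a' k (T i u) (T i z) := by
    intro i k u v z
    obtain ⟨u', hu⟩ := hTr i u
    obtain ⟨v', hv⟩ := hTr i v
    obtain ⟨z', hz⟩ := hTr i z
    rw [hu, hv, hz]
    by_cases h : k < n + 1
    · have := ha'k ⟨k, h⟩
      rw [show a' k = a ⟨k, h⟩ from this]
      exact ha _ _ _ _ _
    · have : a' k = 0 := by rw [ha']; simp only [dif_neg h]
      rw [this]; simp
  have key := fun i => PERM_key (T i) a' n r.1 r.2 (hcoc i)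
  have hst := stokes (fun v => ∏ k : Fin n, (if k.1 < r.1 then a' k.1 else if k.1 = r.1 then
          (fun x y => a' r.1 x y * a' (r.1 + 1) x y) else a' (k.1 + 1)) (v k.castSucc) (v k.succ))
  have hL : ∀ i, ∑ j : Fin (n + 1 + 1), (-1 : R) ^ (j : ℕ) *
      ∏ k : Fin n, (if k.1 < r.1 then a' k.1 else if k.1 = r.1 then
          (fun x y => a' r.1 x y * a' (r.1 + 1) x y) else a' (k.1 + 1))
          ((τ i ∘ j.succAbove) k.castSucc) ((τ i ∘ j.succAbove) k.succ) =
      (-1 : R) ^ (r.1 + 1) * (∏ k : Fin (n + 1), a k (τ i k.castSucc) (τ i k.succ) +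
        ∏ k : Fin (n + 1), a (Equiv.swap r.castSucc r.succ k) (τ i k.castSucc) (τ i k.succ)) := by
    intro i
    have e1 : ∏ k ∈ range (n + 1), a' k (T i k) (T i (k + 1)) =
        ∏ k : Fin (n + 1), a k (τ i k.castSucc) (τ i k.succ) := by
      rw [Finset.prod_range]
      refine Finset.prod_congr rfl fun k _ => ?_
      rw [ha'k k]
      have f1 := hTk i k.castSucc
      have f2 := hTk i k.succ
      rw [Fin.val_castSucc] at f1
      rw [Fin.val_succ] at f2
      rw [f1, f2]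
    have e2 : ∏ k ∈ range (n + 1), a' (Equiv.swap r.1 (r.1 + 1) k) (T i k) (T i (k + 1)) =
        ∏ k : Fin (n + 1), a (Equiv.swap r.castSucc r.succ k) (τ i k.castSucc) (τ i k.succ) := by
      rw [Finset.prod_range]
      refine Finset.prod_congr rfl fun k _ => ?_
      have f1 := hTk i k.castSucc
      have f2 := hTk i k.succ
      rw [Fin.val_castSucc] at f1
      rw [Fin.val_succ] at f2
      have f3 : Equiv.swap r.1 (r.1 + 1) k.1 = (Equiv.swap r.castSucc r.succ k).1 := by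
        rw [Equiv.swap_apply_def, Equiv.swap_apply_def]
        have g1 : (k = r.castSucc) ↔ k.1 = r.1 := by
          rw [Fin.ext_iff, Fin.val_castSucc]
        have g2 : (k = r.succ) ↔ k.1 = r.1 + 1 := by
          rw [Fin.ext_iff, Fin.val_succ]
        by_cases h1 : k.1 = r.1
        · rw [if_pos h1, if_pos (g1.2 h1), Fin.val_succ]
        · by_cases h2 : k.1 = r.1 + 1
          · rw [if_neg h1, if_pos h2, if_neg (fun h => h1 (g1.1 h)), if_pos (g2.2 h2),
              Fin.val_castSucc]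
          · rw [if_neg h1, if_neg h2, if_neg (fun h => h1 (g1.1 h)),
              if_neg (fun h => h2 (g2.1 h))]
      rw [f1, f2, f3, ha'k]
    rw [← e1, ← e2, ← key i, Finset.sum_range]
    refine Finset.sum_congr rfl fun j _ => ?_
    congr 1
    rw [Finset.prod_range]
    refine Finset.prod_congr rfl fun k _ => ?_
    have f1 : (τ i ∘ j.succAbove) k.castSucc = T i (if k.1 < j.1 then k.1 else k.1 + 1) := by
      rw [Function.comp_apply, ← hTk i]
      congr 1
      unfold Fin.succAbove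
      by_cases h : k.1 < j.1
      · rw [if_pos h, if_pos (by rw [Fin.lt_def]; exact h)]
        rfl
      · rw [if_neg h, if_neg (by rw [Fin.lt_def]; exact h)]
        rfl
    have f2 : (τ i ∘ j.succAbove) k.succ = T i (if k.1 + 1 < j.1 then k.1 + 1 else k.1 + 2) := by
      rw [Function.comp_apply, ← hTk i]
      congr 1
      unfold Fin.succAbove
      by_cases h : k.1 + 1 < j.1
      · rw [if_pos h, if_pos (by rw [Fin.lt_def]; exact h)]
        rfl
      · rw [if_neg h, if_neg (by rw [Fin.lt_def]; exact h)]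
        rfl
    rw [f1, f2]
  simp only [hL] at hst
  have h5 : (-1 : R) ^ (r.1 + 1) * ∑ i, wt i *
      (∏ k : Fin (n + 1), a k (τ i k.castSucc) (τ i k.succ) +
        ∏ k : Fin (n + 1), a (Equiv.swap r.castSucc r.succ k) (τ i k.castSucc) (τ i k.succ)) = 0 := by
    rw [Finset.mul_sum, ← hst]
    exact Finset.sum_congr rfl fun i _ => by ring
  have h6 : ∑ i, wt i *
      (∏ k : Fin (n + 1), a k (τ i k.castSucc) (τ i k.succ) +
        ∏ k : Fin (n + 1), a (Equiv.swap r.castSucc r.succ k) (τ i k.castSucc) (τ i k.succ)) = 0 := by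
    have h7 := congrArg (fun x => (-1 : R) ^ (r.1 + 1) * x) h5
    simp only [mul_zero, ← mul_assoc, ← mul_pow, neg_one_mul, neg_neg, one_pow, one_mul] at h7
    exact h7
  simp only [mul_add, Finset.sum_add_distrib] at h6
  rw [eq_neg_iff_add_eq_zero, add_comm]
  exact h6

theorem int_perm {X R ι : Type*} [CommRing R] [Fintype ι] (m : ℕ)
    (τ : ι → Fin (m + 1) → X) (wt : ι → R)
    (stokes : ∀ φ : (Fin m → X) → R,
      ∑ i, wt i * ∑ j : Fin (m + 1), (-1) ^ (j : ℕ) * φ (τ i ∘ j.succAbove) = 0)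
    (a : Fin m → X → X → R)
    (ha : ∀ k, ∀ i, ∀ u v z : Fin (m + 1),
      a k (τ i u) (τ i v) + a k (τ i v) (τ i z) = a k (τ i u) (τ i z))
    (π : Equiv.Perm (Fin m)) :
    ∑ i, wt i * ∏ k : Fin m, a (π k) (τ i k.castSucc) (τ i k.succ) =
      ((Equiv.Perm.sign π : ℤ) : R) *
        ∑ i, wt i * ∏ k : Fin m, a k (τ i k.castSucc) (τ i k.succ) := by
  cases m with
  | zero =>
    have h : π = 1 := Subsingleton.elim _ _
    rw [h]
    simp
  | succ n =>
    have hmem : π ∈ Submonoid.closure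
        (Set.range fun i : Fin n => Equiv.swap i.castSucc i.succ) := by
      rw [Equiv.Perm.mclosure_swap_castSucc_succ]
      trivial
    induction hmem using Submonoid.closure_induction generalizing a with
    | mem x hx =>
      obtain ⟨r, rfl⟩ := hx
      have h1 := PERM_swap n τ wt stokes a ha r
      have h2 : r.castSucc ≠ r.succ := (Fin.castSucc_lt_succ).ne
      simp only
      rw [h1, Equiv.Perm.sign_swap h2]
      simp
    | one => simp
    | mul x y _ _ hx hy =>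
      have h1 := hy (fun k => a (x k)) (fun k => ha (x k))
      have h2 := hx a ha
      simp only [Equiv.Perm.mul_apply] at h1 ⊢
      rw [h1, h2, Equiv.Perm.sign_mul]
      push_cast
      ring

end Pool.H54.UB

end S_PERM

section S_NEWT

/-!
# Row NEWT: the combinatorial Newton argument

Let `I : (Fin m → Fin d) → R`, `d < m`, such that for every nonempty proper subset `B` of `Fin m` and
every `s`, `∑_{j} I (i ↦ if i ∈ B then j else s i) = 0`.  Then `∑_j I (fun _ => j) = 0` if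
`(m-1)! ≠ 0` in the field `R`.

Proof.  For `κ : Fin m → Fin r` put `S κ = ∑_{e : Fin r ↪ Fin d} I (e ∘ κ)`.
For `κ : Fin m → Fin (r+1)` surjective, `r ≥ 1`:
`S κ = - ∑_{t : Fin r} S (merge_t ∘ κ)`, `merge_t : Fin (r+1) → Fin r`, `last ↦ t`, `castSucc i ↦ i`:
an embedding `Fin (r+1) ↪ Fin d` is an embedding `e : Fin r ↪ Fin d` together with a value `j` outside
its range; `∑_{j ∈ range e complement} = ∑_{all j} - ∑_{t} (j = e t)`, and `∑_{all j} = 0` by the
hypothesis for `B = κ⁻¹ (last)` (nonempty and proper because `κ` is surjective and `r ≥ 1`).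
`merge_t ∘ κ` is again surjective.  By induction on `r`:
`S κ = (-1)^r r! S (const : Fin m → Fin 1)` for surjective `κ : Fin m → Fin (r+1)`, and
`S const = ∑_j I (fun _ => j)`.  For `κ = id` (`r + 1 = m`; note `m ≥ 1` since `d < m`) there is no
embedding `Fin m ↪ Fin d`, so `0 = (-1)^(m-1) (m-1)! S const`.
-/

namespace Pool.H54.UB

open Finset

open Classical in
/-- sum over the injective maps -/
noncomputable def NEWT_S {R : Type*} [Field R] {m d : ℕ} (I : (Fin m → Fin d) → R) (r : ℕ)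
    (κ : Fin m → Fin r) : R :=
  ∑ e : Fin r → Fin d, if Function.Injective e then I (e ∘ κ) else 0

theorem NEWT_cons {m d r : ℕ} (κ : Fin m → Fin (r + 1)) (e : Fin r → Fin d) (t : Fin r) :
    (Fin.cons (e t) e : Fin (r + 1) → Fin d) ∘ κ =
      e ∘ ((Fin.cons t id : Fin (r + 1) → Fin r) ∘ κ) := by
  funext i
  simp only [Function.comp_apply]
  refine Fin.cases ?_ (fun x => ?_) (κ i)
  · simp
  · simp

theorem NEWT_zero {R : Type*} [Field R] {m d : ℕ} (I : (Fin m → Fin d) → R)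
    (h : ∀ B : Finset (Fin m), B.Nonempty → B ≠ univ → ∀ s : Fin m → Fin d,
      ∑ j : Fin d, I (fun i => if i ∈ B then j else s i) = 0) {r : ℕ} (hr : 0 < r)
    (κ : Fin m → Fin (r + 1)) (hκ : Function.Surjective κ) (e : Fin r → Fin d) :
    ∑ j : Fin d, I ((Fin.cons j e : Fin (r + 1) → Fin d) ∘ κ) = 0 := by
  have h1 := h (univ.filter fun i => κ i = 0) ?_ ?_
    (fun i => (Fin.cons (e ⟨0, hr⟩) e : Fin (r + 1) → Fin d) (κ i))
  · rw [← h1]
    refine sum_congr rfl fun j _ => ?_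
    congr 1
    funext i
    by_cases hi : κ i = 0
    · simp [hi]
    · simp only [Function.comp_apply, mem_filter, mem_univ, true_and, hi, if_false]
      obtain ⟨x, hx⟩ := Fin.exists_succ_eq.mpr hi
      rw [← hx]
      simp
  · obtain ⟨i, hi⟩ := hκ 0
    exact ⟨i, by simp [hi]⟩
  · intro h2
    obtain ⟨i, hi⟩ := hκ (Fin.succ ⟨0, hr⟩)
    have h3 : i ∈ univ.filter fun i => κ i = 0 := by
      rw [h2]
      exact mem_univ i
    rw [mem_filter] at h3
    rw [hi] at h3
    exact Fin.succ_ne_zero _ h3.2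

theorem NEWT_step {R : Type*} [Field R] {m d : ℕ} (I : (Fin m → Fin d) → R)
    (h : ∀ B : Finset (Fin m), B.Nonempty → B ≠ univ → ∀ s : Fin m → Fin d,
      ∑ j : Fin d, I (fun i => if i ∈ B then j else s i) = 0) {r : ℕ} (hr : 0 < r)
    (κ : Fin m → Fin (r + 1)) (hκ : Function.Surjective κ) :
    NEWT_S I (r + 1) κ = -∑ t : Fin r, NEWT_S I r ((Fin.cons t id : Fin (r + 1) → Fin r) ∘ κ) := by
  classical
  unfold NEWT_S
  rw [← (Fin.consEquiv (fun _ : Fin (r + 1) => Fin d)).sum_comp, Fintype.sum_prod_type_right,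
    sum_comm (s := (univ : Finset (Fin r))), ← sum_neg_distrib]
  refine sum_congr rfl fun e _ => ?_
  by_cases he : Function.Injective e
  · have h1 : ∀ j : Fin d, (if Function.Injective ((Fin.consEquiv (fun _ : Fin (r + 1) => Fin d))
        (j, e)) then I (((Fin.consEquiv (fun _ : Fin (r + 1) => Fin d)) (j, e)) ∘ κ) else 0) =
        I ((Fin.cons j e : Fin (r + 1) → Fin d) ∘ κ) -
          if j ∈ Set.range e then I ((Fin.cons j e : Fin (r + 1) → Fin d) ∘ κ) else 0 := by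
      intro j
      have h2 : ((Fin.consEquiv (fun _ : Fin (r + 1) => Fin d)) (j, e)) =
          (Fin.cons j e : Fin (r + 1) → Fin d) := rfl
      rw [h2]
      by_cases hj : j ∈ Set.range e
      · rw [if_pos hj, sub_self, if_neg]
        rw [Fin.cons_injective_iff]
        exact fun h3 => h3.1 hj
      · rw [if_neg hj, sub_zero, if_pos]
        rw [Fin.cons_injective_iff]
        exact ⟨hj, he⟩
    rw [sum_congr rfl fun j _ => h1 j, sum_sub_distrib, NEWT_zero I h hr κ hκ e, zero_sub]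
    congr 1
    rw [← sum_filter]
    have h3 : (univ.filter fun j : Fin d => j ∈ Set.range e) = univ.image e := by
      ext j
      simp
    rw [h3, sum_image fun a _ b _ hab => he hab]
    refine sum_congr rfl fun t _ => ?_
    rw [if_pos he, NEWT_cons]
  · have h1 : ∀ j : Fin d, ¬ Function.Injective
        ((Fin.consEquiv (fun _ : Fin (r + 1) => Fin d)) (j, e)) := by
      intro j h2
      have h3 : ((Fin.consEquiv (fun _ : Fin (r + 1) => Fin d)) (j, e)) =
          (Fin.cons j e : Fin (r + 1) → Fin d) := rfl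
      rw [h3, Fin.cons_injective_iff] at h2
      exact he h2.2
    rw [sum_congr rfl fun j _ => if_neg (h1 j), sum_congr rfl fun t _ => if_neg he]
    simp

theorem NEWT_ind {R : Type*} [Field R] {m d : ℕ} (I : (Fin m → Fin d) → R)
    (h : ∀ B : Finset (Fin m), B.Nonempty → B ≠ univ → ∀ s : Fin m → Fin d,
      ∑ j : Fin d, I (fun i => if i ∈ B then j else s i) = 0) (r : ℕ) :
    ∀ κ : Fin m → Fin (r + 1), Function.Surjective κ →
      NEWT_S I (r + 1) κ = (-1) ^ r * (r.factorial : R) * NEWT_S I 1 (fun _ => 0) := by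
  induction r with
  | zero =>
    intro κ _
    have : κ = fun _ => 0 := by
      funext i
      exact Fin.ext (by omega)
    rw [this]
    simp
  | succ r ih =>
    intro κ hκ
    rw [NEWT_step I h (Nat.succ_pos r) κ hκ]
    have h1 : ∀ t : Fin (r + 1),
        NEWT_S I (r + 1) ((Fin.cons t id : Fin (r + 1 + 1) → Fin (r + 1)) ∘ κ) =
          (-1) ^ r * (r.factorial : R) * NEWT_S I 1 (fun _ => 0) := by
      intro t
      refine ih _ (Function.Surjective.comp ?_ hκ)
      intro x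
      exact ⟨x.succ, by simp⟩
    rw [sum_congr rfl fun t _ => h1 t, sum_const, card_univ, Fintype.card_fin, nsmul_eq_mul,
      Nat.factorial_succ]
    push_cast
    ring

theorem newton_like {R : Type*} [Field R] (m d : ℕ) (hd : d < m) (I : (Fin m → Fin d) → R)
    (h : ∀ B : Finset (Fin m), B.Nonempty → B ≠ univ → ∀ s : Fin m → Fin d,
      ∑ j : Fin d, I (fun i => if i ∈ B then j else s i) = 0)
    (hm : ((m.factorial : ℕ) : R) ≠ 0) :
    ∑ j : Fin d, I (fun _ => j) = 0 := by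
  classical
  obtain ⟨r, rfl⟩ : ∃ r, m = r + 1 := ⟨m - 1, by omega⟩
  have h1 := NEWT_ind I h r id Function.surjective_id
  have h2 : NEWT_S I (r + 1) id = 0 := by
    unfold NEWT_S
    refine sum_eq_zero fun e _ => if_neg fun he => ?_
    have h3 := Fintype.card_le_of_injective e he
    rw [Fintype.card_fin, Fintype.card_fin] at h3
    omega
  have h3 : NEWT_S I 1 (fun _ => 0) = ∑ j : Fin d, I (fun _ => j) := by
    unfold NEWT_S
    refine Fintype.sum_equiv (Equiv.funUnique (Fin 1) (Fin d)) _ _ fun e => ?_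
    rw [if_pos (Function.injective_of_subsingleton e)]
    rfl
  rw [h2, h3] at h1
  have h4 : ((r.factorial : ℕ) : R) ≠ 0 := by
    intro h5
    apply hm
    rw [Nat.factorial_succ]
    push_cast
    rw [h5, mul_zero]
  have h5 : ((-1 : R) ^ r * (r.factorial : R)) ≠ 0 :=
    mul_ne_zero (pow_ne_zero _ (by simp)) h4
  exact (mul_eq_zero.mp h1.symm).resolve_left h5

end Pool.H54.UB

end S_NEWT

section S_BEA

/-!
# Row BEA: the complex of orderings of the fibre

Given a finite set `T` of `(m+1)`-tuples in `V` with weights `ε` satisfying Stokes, and for every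
`t ∈ T` a set `L t` of `d` lifts (tuples in `W`) such that the facets of the lifts of a fixed `t` are
distinct (`hfacet`) and the multisets of the facets agree whenever two tuples of `T` share a facet
(special case of `hcons`), consider the family of all `(t, e)`, `t ∈ T`, `e` a bijection
`Fin d ≃ L t`, as a chain in the vertex type `V × (Fin d → W)`:
`τ (t, e) i = (t i, fun j => (e j) i)`, with weight `ε t`.

`bea_stokes`: it satisfies Stokes.  Proof: for `φ` and fixed `t, j` the sum over `e` of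
`φ (i ↦ (t (δ_j i), k ↦ (e k) (δ_j i)))` is a sum over all bijections from `Fin d` to the *set* of
facets `{σ ∘ δ_j | σ ∈ L t}` (`σ ↦ σ ∘ δ_j` is injective on `L t`), hence depends only on
`r = t ∘ δ_j` (for another `t', j'` with the same `r` the two sets of facets agree by `hcons`).  Call
it `φ̃ (r)` and apply Stokes for `(T, ε)` to `φ̃`.

Here the index type is `Σ t : T, (Fin d ≃ L t)` (a `Fintype`, classical decidability).
-/

namespace Pool.H54.UB

open Finset

open Classical in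
/-- the enumerations of the finite set `L` -/
noncomputable def BEA_P {X : Type*} (d : ℕ) (L : Finset X) : Finset (Fin d → X) :=
  (Fintype.piFinset fun _ : Fin d => L).filter
    (fun g => Function.Injective g ∧ ∀ s ∈ L, ∃ k, g k = s)

theorem BEA_mem {X : Type*} {d : ℕ} {L : Finset X} {g : Fin d → X} :
    g ∈ BEA_P d L ↔ (∀ k, g k ∈ L) ∧ Function.Injective g ∧ ∀ s ∈ L, ∃ k, g k = s := by
  classical
  unfold BEA_P
  rw [Finset.mem_filter, Fintype.mem_piFinset]

theorem BEA_sum {X R : Type*} [AddCommMonoid R] (d : ℕ) (L : Finset X) [Fintype (Fin d ≃ L)]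
    (H : (Fin d → X) → R) :
    ∑ e : (Fin d ≃ L), H (fun k => (e k).1) = ∑ g ∈ BEA_P d L, H g := by
  refine Finset.sum_bij (fun (e : Fin d ≃ L) _ => fun k => (e k).1) ?_ ?_ ?_ ?_
  · intro e _
    rw [BEA_mem]
    refine ⟨fun k => (e k).2, ?_, ?_⟩
    · intro k k' h
      exact e.injective (Subtype.ext h)
    · intro s hs
      exact ⟨e.symm ⟨s, hs⟩, by simp⟩
  · intro e1 _ e2 _ h
    ext k
    exact congrFun h k
  · intro g hg
    rw [BEA_mem] at hg
    obtain ⟨h1, h2, h3⟩ := hg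
    refine ⟨Equiv.ofBijective (fun k => (⟨g k, h1 k⟩ : L)) ⟨?_, ?_⟩, Finset.mem_univ _, ?_⟩
    · intro k k' h
      exact h2 (congrArg Subtype.val h)
    · rintro ⟨s, hs⟩
      obtain ⟨k, hk⟩ := h3 s hs
      exact ⟨k, Subtype.ext hk⟩
    · funext k
      rfl
  · intro e _
    rfl

theorem BEA_image {X Y R : Type*} [DecidableEq Y] [AddCommMonoid R] (d : ℕ) (L : Finset X) (u : X → Y)
    (hu : Set.InjOn u L) (H : (Fin d → Y) → R) :
    ∑ g ∈ BEA_P d L, H (fun k => u (g k)) = ∑ g ∈ BEA_P d (L.image u), H g := by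
  refine Finset.sum_bij (fun g _ => fun k => u (g k)) ?_ ?_ ?_ ?_
  · intro g hg
    rw [BEA_mem] at hg ⊢
    obtain ⟨h1, h2, h3⟩ := hg
    refine ⟨fun k => Finset.mem_image_of_mem u (h1 k), ?_, ?_⟩
    · intro k k' h
      exact h2 (hu (h1 k) (h1 k') h)
    · intro s hs
      obtain ⟨a, ha, rfl⟩ := Finset.mem_image.1 hs
      obtain ⟨k, hk⟩ := h3 a ha
      exact ⟨k, by rw [hk]⟩
  · intro g1 hg1 g2 hg2 h
    rw [BEA_mem] at hg1 hg2
    funext k
    exact hu (hg1.1 k) (hg2.1 k) (congrFun h k)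
  · intro g hg
    rw [BEA_mem] at hg
    obtain ⟨h1, h2, h3⟩ := hg
    have h4 : ∀ k, ∃ a ∈ L, u a = g k := fun k => by
      obtain ⟨a, ha, hau⟩ := Finset.mem_image.1 (h1 k)
      exact ⟨a, ha, hau⟩
    choose s hs hsu using h4
    refine ⟨s, ?_, ?_⟩
    · rw [BEA_mem]
      refine ⟨hs, ?_, ?_⟩
      · intro k k' h
        apply h2
        rw [← hsu k, ← hsu k', h]
      · intro a ha
        obtain ⟨k, hk⟩ := h3 (u a) (Finset.mem_image_of_mem u ha)
        refine ⟨k, hu (hs k) ha ?_⟩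
        rw [hsu k, hk]
    · funext k
      exact hsu k
  · intro g _
    rfl

theorem bea_stokes {V W R : Type*} [Field R] (m d : ℕ)
    (T : Finset (Fin (m + 1) → V)) (ε : (Fin (m + 1) → V) → R)
    (stokes : ∀ φ : (Fin m → V) → R,
      ∑ t ∈ T, ε t * ∑ j : Fin (m + 1), (-1) ^ (j : ℕ) * φ (t ∘ j.succAbove) = 0)
    (L : (Fin (m + 1) → V) → Finset (Fin (m + 1) → W))
    (hfacet : ∀ t ∈ T, ∀ j : Fin (m + 1),
      Set.InjOn (fun σ : Fin (m + 1) → W => σ ∘ j.succAbove) (L t))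
    (hcons : ∀ t ∈ T, ∀ t' ∈ T, ∀ (b : ℕ) (α α' : Fin b → Fin (m + 1)), t ∘ α = t' ∘ α' →
      (L t).val.map (fun σ => σ ∘ α) = (L t').val.map (fun σ => σ ∘ α'))
    [Fintype (Σ t : T, (Fin d ≃ L t.1))]
    (φ : (Fin m → V × (Fin d → W)) → R) :
    ∑ q : (Σ t : T, (Fin d ≃ L t.1)), ε q.1.1 * ∑ j : Fin (m + 1), (-1) ^ (j : ℕ) *
      φ (fun i => (q.1.1 (j.succAbove i), fun k => (q.2 k).1 (j.succAbove i))) = 0 := by
  classical
  obtain ⟨F, hF⟩ : ∃ F : (Fin m → V) → (Fin d → (Fin m → W)) → R,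
      F = fun r g => φ (fun i => (r i, fun k => g k i)) := ⟨_, rfl⟩
  obtain ⟨S, hS⟩ : ∃ S : (Fin (m + 1) → V) → Fin (m + 1) → Finset (Fin m → W),
      S = fun t j => (L t).image (fun σ => σ ∘ j.succAbove) := ⟨_, rfl⟩
  have hSc : ∀ t ∈ T, ∀ t' ∈ T, ∀ j j' : Fin (m + 1), t ∘ j.succAbove = t' ∘ j'.succAbove →
      S t j = S t' j' := by
    intro t ht t' ht' j j' h
    have h1 := hcons t ht t' ht' m j.succAbove j'.succAbove h
    rw [hS]
    ext r
    have h2 := congrArg (fun M : Multiset (Fin m → W) => r ∈ M) h1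
    simp only [Multiset.mem_map, Finset.mem_val] at h2
    simp only [Finset.mem_image]
    exact h2.to_iff
  have hsum : ∀ t ∈ T, ∀ j : Fin (m + 1), ∑ e : (Fin d ≃ L t),
      φ (fun i => (t (j.succAbove i), fun k => (e k).1 (j.succAbove i))) =
      ∑ g ∈ BEA_P d (S t j), F (t ∘ j.succAbove) g := by
    intro t ht j
    have h1 := BEA_sum d (L t) (fun g => F (t ∘ j.succAbove) (fun k => g k ∘ j.succAbove))
    have h2 := BEA_image d (L t) (fun σ : Fin (m + 1) → W => σ ∘ j.succAbove) (hfacet t ht j)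
      (F (t ∘ j.succAbove))
    have h3 : S t j = (L t).image (fun σ => σ ∘ j.succAbove) := by rw [hS]
    rw [h3]
    refine Eq.trans ?_ (h1.trans h2)
    rw [hF]
    rfl
  obtain ⟨ψ, hψ⟩ : ∃ ψ : (Fin m → V) → R, ∀ t ∈ T, ∀ j : Fin (m + 1),
      ψ (t ∘ j.succAbove) = ∑ g ∈ BEA_P d (S t j), F (t ∘ j.succAbove) g := by
    refine ⟨fun r => if h : ∃ q : (Fin (m + 1) → V) × Fin (m + 1), q.1 ∈ T ∧
      q.1 ∘ q.2.succAbove = r then ∑ g ∈ BEA_P d (S h.choose.1 h.choose.2), F r g else 0, ?_⟩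
    intro t ht j
    have h : ∃ q : (Fin (m + 1) → V) × Fin (m + 1), q.1 ∈ T ∧
      q.1 ∘ q.2.succAbove = t ∘ j.succAbove := ⟨(t, j), ht, rfl⟩
    show (if h : ∃ q : (Fin (m + 1) → V) × Fin (m + 1), q.1 ∈ T ∧
      q.1 ∘ q.2.succAbove = t ∘ j.succAbove then
        ∑ g ∈ BEA_P d (S h.choose.1 h.choose.2), F (t ∘ j.succAbove) g else 0) = _
    rw [dif_pos h]
    rw [hSc _ h.choose_spec.1 t ht _ j h.choose_spec.2]
  obtain rfl : ‹Fintype (Σ t : T, (Fin d ≃ L t.1))› = Sigma.instFintype := Subsingleton.elim _ _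
  rw [Fintype.sum_sigma]
  have h1 := stokes ψ
  rw [← Finset.sum_coe_sort] at h1
  rw [← h1]
  refine Finset.sum_congr rfl fun t _ => ?_
  show ∑ e : (Fin d ≃ L t.1), ε t.1 * ∑ j : Fin (m + 1), (-1) ^ (j : ℕ) *
      φ (fun i => (t.1 (j.succAbove i), fun k => (e k).1 (j.succAbove i))) = _
  rw [← Finset.mul_sum, Finset.sum_comm]
  congr 1
  refine Finset.sum_congr rfl fun j _ => ?_
  rw [← Finset.mul_sum, hsum t.1 t.2 j, hψ t.1 t.2 j]

/-- Summing over all bijections, one chosen sheet. -/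
theorem sum_equiv_apply {R W : Type*} [Field R] (d : ℕ) (L : Finset W) (hL : L.card = d)
    [Fintype (Fin d ≃ L)] (j : Fin d) (G : W → R) :
    ∑ e : (Fin d ≃ L), G (e j).1 = ((d - 1).factorial : ℕ) * ∑ σ ∈ L, G σ := by
  classical
  have hd : 0 < d := lt_of_le_of_lt (Nat.zero_le _) j.2
  obtain rfl : ‹Fintype (Fin d ≃ L)› = Equiv.instFintype := Subsingleton.elim _ _
  -- the fibres
  obtain ⟨Nf, hNf⟩ : ∃ Nf : L → ℕ, Nf = fun σ =>
      ((Finset.univ : Finset (Fin d ≃ L)).filter (fun e => e j = σ)).card := ⟨_, rfl⟩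
  have hconst : ∀ σ σ' : L, Nf σ ≤ Nf σ' := by
    intro σ σ'
    rw [hNf]
    refine Finset.card_le_card_of_injOn (fun e => e.trans (Equiv.swap σ σ')) ?_ ?_
    · intro e he
      have he' : e j = σ := by simpa using he
      simp [he']
    · intro e _ e' _ h
      have h1 := congrArg (fun q : Fin d ≃ L => q.trans (Equiv.swap σ σ')) h
      simp only [Equiv.trans_assoc] at h1
      have h2 : (Equiv.swap σ σ').trans (Equiv.swap σ σ') = Equiv.refl L := by
        ext x
        simp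
      rw [h2] at h1
      simpa using h1
  have hcard : Fintype.card (Fin d ≃ L) = d.factorial := by
    have e0 : Fin d ≃ L := (Fintype.equivFinOfCardEq (by simpa using hL)).symm
    have h1 := Fintype.card_equiv e0
    rw [Fintype.card_fin] at h1
    rw [← h1]
  have hsumN : ∑ σ : L, Nf σ = d.factorial := by
    rw [← hcard, ← Finset.card_univ, hNf]
    exact (Finset.card_eq_sum_card_fiberwise (f := fun e : Fin d ≃ L => e j)
      (s := Finset.univ) (t := Finset.univ) (fun _ _ => Finset.mem_coe.2 (Finset.mem_univ _))).symm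
  have hN : ∀ σ : L, Nf σ = (d - 1).factorial := by
    intro σ
    have h1 : ∑ σ' : L, Nf σ' = d * Nf σ := by
      rw [Finset.sum_congr rfl fun σ' _ => le_antisymm (hconst σ' σ) (hconst σ σ')]
      simp [hL]
    rw [hsumN] at h1
    have h2 : d * (d - 1).factorial = d.factorial := Nat.mul_factorial_pred hd.ne'
    rw [← h2] at h1
    exact (Nat.eq_of_mul_eq_mul_left hd h1).symm
  rw [← Finset.sum_fiberwise (Finset.univ : Finset (Fin d ≃ L)) (fun e => e j)
    (fun e => G (e j).1)]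
  have h3 : ∀ σ : L, ∑ e ∈ (Finset.univ : Finset (Fin d ≃ L)).filter (fun e => e j = σ),
      G (e j).1 = ((d - 1).factorial : ℕ) * G σ.1 := by
    intro σ
    rw [Finset.sum_congr rfl (g := fun _ => G σ.1) (fun e he => by
      rw [(Finset.mem_filter.1 he).2])]
    rw [Finset.sum_const, nsmul_eq_mul, ← hN σ, hNf]
  rw [Finset.sum_congr rfl fun σ _ => h3 σ, ← Finset.mul_sum]
  congr 1
  exact Finset.sum_coe_sort L G

end Pool.H54.UB

end S_BEA

section S_BEB

/-!
# Row BEB: the Berstein-Edmonds argument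

Notation as in `BEA`: index type `Σ t : T, (Fin d ≃ L t)`, vertex type `X' = V × (Fin d → W)`.
For `s : Fin m → Fin d` put
`I s = ∑_{(t,e)} ε t * ∏_{i<m} x i ((e (s i)) i) ((e (s i)) (i+1))`.

Claim (exactness).  For `B` nonempty and proper and every `s`:
`∑_j I (i ↦ if i ∈ B then j else s i) = 0`.
Proof.  `b = |B|`, `0 < b < m`.  Choose a permutation `π` of `Fin m` with `π k ∈ B ↔ k < b`.
For fixed `j` the 1-cochains on `X'`: `a k (u, u') = x k (u.2 (if k ∈ B then j else s k))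
(u'.2 (...))` are cocycles on all tuples `τ (t, e)`; by `int_perm` (row PERM)
`∫ ∏ a (π k) = sign π ∫ ∏ a k`.  In `∫ ∏_k a (π k)` the first `b` factors use the sheet `j`, the other
factors do not depend on `j`.  Sum over `j`: the front factor becomes
`∑_j X ((e j) restricted to 0..b)` with `X (w) = ∏_{k<b} x (π k) (w_k) (w_{k+1})`, which equals
`C (t_0, .., t_b)` where `C (v) = ∑_{σ ∈ L t'} X (σ ∘ α)` for any `t' ∈ T`, `α` with `v = t' ∘ α`
(well defined by `hcons`; define it by choice, `0` if there is no such `t', α`).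
`C` is a cocycle on the `T`-tuples by `prod_cocycle` (row CH), so by `acyc` (degree `i = b`,
`0 < b < m`) there is `c : (Fin b → V) → R` with `C (t ∘ α) = ∑_j (-1)^j c (t ∘ α ∘ δ_j)`.  Now
`int_front` (row CH) for the chain of `BEA` (Stokes: `bea_stokes`), the cochain `c ∘ (Prod.fst ∘ ·)`
and the `a (π k)` gives `0`.

By `newton_like`: `∑_j I (fun _ => j) = 0`.  If `d = 0` then all `L t` are empty and the claim is
trivial; otherwise `∑_j I (const j) = d * (d-1)! * ∑_t ε t ∑_{σ ∈ L t} ∏_i x i (σ i) (σ (i+1))`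
by `sum_equiv_apply`, and `d! ∣ m!` is nonzero in `R`.
-/

namespace Pool.H54.UB

open Finset

theorem BEB_card {m b : ℕ} (h : b ≤ m) : Fintype.card {k : Fin m // (k : ℕ) < b} = b := by
  have e : {k : Fin m // (k : ℕ) < b} ≃ Fin b :=
    { toFun := fun k => ⟨k.1, k.2⟩
      invFun := fun k => ⟨Fin.castLE h k, k.2⟩
      left_inv := fun k => by ext; rfl
      right_inv := fun k => by ext; rfl }
  rw [Fintype.card_congr e, Fintype.card_fin]

theorem BEB_perm {m b : ℕ} (B : Finset (Fin m)) (hb : B.card = b) :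
    ∃ π : Equiv.Perm (Fin m), ∀ k, π k ∈ B ↔ (k : ℕ) < b := by
  classical
  have hbm : b ≤ m := by
    rw [← hb]
    simpa using Finset.card_le_univ B
  have h1 : Fintype.card {k : Fin m // (k : ℕ) < b} = Fintype.card {k : Fin m // k ∈ B} := by
    rw [BEB_card hbm, Fintype.card_coe, hb]
  let e : {k : Fin m // (k : ℕ) < b} ≃ {k : Fin m // k ∈ B} := Fintype.equivOfCardEq h1
  refine ⟨e.extendSubtype, fun k => ⟨fun hk => ?_, fun hk => ?_⟩⟩
  · by_contra hc
    exact e.extendSubtype_not_mem k hc hk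
  · exact e.extendSubtype_mem k hk

theorem BEB_split {R : Type*} [CommRing R] {m b : ℕ} (hbm : b ≤ m) (f : Fin m → R) :
    ∏ k : Fin m, f k = (∏ k : Fin b, f (Fin.castLE hbm k)) *
      ∏ k ∈ univ.filter (fun k : Fin m => b ≤ (k : ℕ)), f k := by
  classical
  rw [← Finset.prod_filter_mul_prod_filter_not univ (fun k : Fin m => (k : ℕ) < b)]
  congr 1
  · symm
    refine Finset.prod_bij' (fun k _ => Fin.castLE hbm k)
      (fun k hk => ⟨k.1, (Finset.mem_filter.1 hk).2⟩) ?_ ?_ ?_ ?_ ?_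
    · intro k _
      exact Finset.mem_filter.2 ⟨Finset.mem_univ _, k.2⟩
    · intro k _
      exact Finset.mem_univ _
    · intro k _
      rfl
    · intro k _
      rfl
    · intro k _
      rfl
  · refine Finset.prod_congr ?_ fun _ _ => rfl
    ext k
    simp

open Classical in
/-- The cochain obtained by summing over the lifts. -/
noncomputable def BEB_C {V W R : Type*} [Field R] {m b : ℕ} (T : Finset (Fin (m + 1) → V))
    (L : (Fin (m + 1) → V) → Finset (Fin (m + 1) → W)) (X : (Fin b → W) → R)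
    (v : Fin b → V) : R :=
  if h : ∃ p : (Fin (m + 1) → V) × (Fin b → Fin (m + 1)), p.1 ∈ T ∧ v = p.1 ∘ p.2 then
    ∑ σ ∈ L h.choose.1, X (σ ∘ h.choose.2) else 0

theorem BEB_C_eq {V W R : Type*} [Field R] {m b : ℕ} {T : Finset (Fin (m + 1) → V)}
    {L : (Fin (m + 1) → V) → Finset (Fin (m + 1) → W)}
    (hcons : ∀ t ∈ T, ∀ t' ∈ T, ∀ (b : ℕ) (α α' : Fin b → Fin (m + 1)), t ∘ α = t' ∘ α' →
      (L t).val.map (fun σ => σ ∘ α) = (L t').val.map (fun σ => σ ∘ α'))
    (X : (Fin b → W) → R) {t : Fin (m + 1) → V} (ht : t ∈ T) (α : Fin b → Fin (m + 1)) :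
    BEB_C T L X (t ∘ α) = ∑ σ ∈ L t, X (σ ∘ α) := by
  have h : ∃ p : (Fin (m + 1) → V) × (Fin b → Fin (m + 1)), p.1 ∈ T ∧ t ∘ α = p.1 ∘ p.2 :=
    ⟨(t, α), ht, rfl⟩
  rw [BEB_C, dif_pos h]
  obtain ⟨h1, h2⟩ := h.choose_spec
  have h3 := hcons t ht _ h1 b α _ h2
  have h4 : ∀ (t : Fin (m + 1) → V) (α : Fin b → Fin (m + 1)),
      ∑ σ ∈ L t, X (σ ∘ α) = (((L t).val.map (fun σ => σ ∘ α)).map X).sum := by
    intro t α
    rw [Multiset.map_map]
    rfl
  rw [h4, h4, h3]

section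

variable {V W R : Type*} [Field R] {m d : ℕ} {T : Finset (Fin (m + 1) → V)}
  {L : (Fin (m + 1) → V) → Finset (Fin (m + 1) → W)}

/-- the tuples of the complex of orderings -/
def BEB_tau (q : (Σ t : T, (Fin d ≃ L t.1))) (i : Fin (m + 1)) : V × (Fin d → W) :=
  (q.1.1 i, fun k => (q.2 k).1 i)

/-- the integrals -/
noncomputable def BEB_I [Fintype (Σ t : T, (Fin d ≃ L t.1))] (ε : (Fin (m + 1) → V) → R)
    (x : Fin m → W → W → R) (s : Fin m → Fin d) : R :=
  ∑ q : (Σ t : T, (Fin d ≃ L t.1)), ε q.1.1 *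
    ∏ i : Fin m, x i ((q.2 (s i)).1 i.castSucc) ((q.2 (s i)).1 i.succ)

theorem BEB_exact [Fintype (Σ t : T, (Fin d ≃ L t.1))] (ε : (Fin (m + 1) → V) → R)
    (stokes : ∀ φ : (Fin m → V) → R,
      ∑ t ∈ T, ε t * ∑ j : Fin (m + 1), (-1) ^ (j : ℕ) * φ (t ∘ j.succAbove) = 0)
    (hfacet : ∀ t ∈ T, ∀ j : Fin (m + 1),
      Set.InjOn (fun σ : Fin (m + 1) → W => σ ∘ j.succAbove) (L t))
    (hcons : ∀ t ∈ T, ∀ t' ∈ T, ∀ (b : ℕ) (α α' : Fin b → Fin (m + 1)), t ∘ α = t' ∘ α' →
      (L t).val.map (fun σ => σ ∘ α) = (L t').val.map (fun σ => σ ∘ α'))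
    (acyc : ∀ i : ℕ, 0 < i → i < m → ∀ c : (Fin (i + 1) → V) → R,
      (∀ t ∈ T, ∀ α : Fin (i + 2) → Fin (m + 1),
        ∑ j : Fin (i + 2), (-1) ^ (j : ℕ) * c ((t ∘ α) ∘ j.succAbove) = 0) →
      ∃ b : (Fin i → V) → R, ∀ t ∈ T, ∀ α : Fin (i + 1) → Fin (m + 1),
        c (t ∘ α) = ∑ j : Fin (i + 1), (-1) ^ (j : ℕ) * b ((t ∘ α) ∘ j.succAbove))
    (x : Fin m → W → W → R)
    (hx : ∀ i, ∀ t ∈ T, ∀ σ ∈ L t, ∀ a b c : Fin (m + 1),
      x i (σ a) (σ b) + x i (σ b) (σ c) = x i (σ a) (σ c))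
    (B : Finset (Fin m)) (hB : B.Nonempty) (hB' : B ≠ univ) (s : Fin m → Fin d) :
    ∑ j : Fin d, BEB_I (T := T) (L := L) ε x (fun i => if i ∈ B then j else s i) = 0 := by
  classical
  set b := B.card with hb
  have hb1 : 1 ≤ b := Finset.card_pos.2 hB
  have hbm : b < m := by
    have h1 : B ⊂ univ := Finset.ssubset_univ_iff.2 hB'
    simpa using Finset.card_lt_card h1
  obtain ⟨π, hπ⟩ := BEB_perm B hb.symm
  have hst : ∀ φ : (Fin m → V × (Fin d → W)) → R,
      ∑ q : (Σ t : T, (Fin d ≃ L t.1)), ε q.1.1 * ∑ j : Fin (m + 1), (-1) ^ (j : ℕ) *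
        φ (BEB_tau q ∘ j.succAbove) = 0 := fun φ =>
    bea_stokes m d T ε stokes L hfacet hcons φ
  have hcoc : ∀ (i : Fin m) (k : Fin d) (q : (Σ t : T, (Fin d ≃ L t.1))) (u v z : Fin (m + 1)),
      x i ((q.2 k).1 u) ((q.2 k).1 v) + x i ((q.2 k).1 v) ((q.2 k).1 z) =
        x i ((q.2 k).1 u) ((q.2 k).1 z) := fun i k q u v z =>
    hx i q.1.1 q.1.2 (q.2 k).1 (q.2 k).2 u v z
  -- the front cochain
  let X : (Fin (b + 1) → W) → R := fun w =>
    ∏ k : Fin b, x (π (Fin.castLE hbm.le k)) (w k.castSucc) (w k.succ)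
  have hC := fun {t : Fin (m + 1) → V} (ht : t ∈ T) (α : Fin (b + 1) → Fin (m + 1)) =>
    BEB_C_eq (R := R) hcons X ht α
  obtain ⟨cc, hcc⟩ := acyc b hb1 hbm (BEB_C T L X) (by
    intro t ht α
    have h1 : ∀ j : Fin (b + 2), BEB_C T L X ((t ∘ α) ∘ j.succAbove) =
        ∑ σ ∈ L t, X (σ ∘ (α ∘ j.succAbove)) := fun j => hC ht (α ∘ j.succAbove)
    simp only [h1, Finset.mul_sum]
    rw [Finset.sum_comm]
    refine Finset.sum_eq_zero fun σ hσ => ?_
    exact prod_cocycle b hb1 (fun k => x (π (Fin.castLE hbm.le k))) (σ ∘ α)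
      (fun i u v z => hx _ t ht σ hσ _ _ _))
  -- the permuted integrals
  have hperm : ∀ j : Fin d, ∑ q : (Σ t : T, (Fin d ≃ L t.1)), ε q.1.1 *
      ∏ k : Fin m, x (π k) ((q.2 (if π k ∈ B then j else s (π k))).1 k.castSucc)
        ((q.2 (if π k ∈ B then j else s (π k))).1 k.succ) =
      ((Equiv.Perm.sign π : ℤ) : R) *
        BEB_I (T := T) (L := L) ε x (fun i => if i ∈ B then j else s i) := by
    intro j
    exact int_perm m (BEB_tau (T := T) (L := L) (d := d)) (fun q => ε q.1.1) hst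
      (fun k u u' => x k (u.2 (if k ∈ B then j else s k)) (u'.2 (if k ∈ B then j else s k)))
      (fun k q u v z => hcoc k _ q u v z) π
  have hsum : ∑ j : Fin d, ∑ q : (Σ t : T, (Fin d ≃ L t.1)), ε q.1.1 *
      ∏ k : Fin m, x (π k) ((q.2 (if π k ∈ B then j else s (π k))).1 k.castSucc)
        ((q.2 (if π k ∈ B then j else s (π k))).1 k.succ) = 0 := by
    rw [Finset.sum_comm]
    have h2 := int_front m (BEB_tau (T := T) (L := L) (d := d)) (fun q => ε q.1.1) hst b hb1
      hbm.le (fun v => cc (fun k => (v k).1))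
      (fun k u u' => x (π k) (u.2 (s (π k))) (u'.2 (s (π k))))
      (fun k q u v z => hcoc (π k) _ q u v z)
    rw [← h2]
    refine Finset.sum_congr rfl fun q _ => ?_
    rw [← Finset.mul_sum, mul_assoc]
    congr 1
    have h3 : (∑ j : Fin (b + 1), (-1 : R) ^ (j : ℕ) * cc (fun k : Fin b =>
        (BEB_tau q (Fin.castLE (by omega) (j.succAbove k))).1)) =
        ∑ j : Fin d, X ((q.2 j).1 ∘ Fin.castLE (by omega)) := by
      have h4 := hcc q.1.1 q.1.2 (Fin.castLE (by omega))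
      rw [hC q.1.2] at h4
      have h5 : ∑ j : Fin d, X ((q.2 j).1 ∘ Fin.castLE (by omega)) =
          ∑ σ ∈ L q.1.1, X (σ ∘ Fin.castLE (by omega)) := by
        rw [Equiv.sum_comp q.2 (fun σ : L q.1.1 => X (σ.1 ∘ Fin.castLE (by omega)))]
        exact Finset.sum_coe_sort (L q.1.1) (fun σ => X (σ ∘ Fin.castLE (by omega)))
      rw [h5, h4]
      rfl
    rw [h3, Finset.sum_mul]
    refine Finset.sum_congr rfl fun j _ => ?_
    rw [BEB_split hbm.le]
    congr 1
    · refine Finset.prod_congr rfl fun k _ => ?_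
      have h6 : π (Fin.castLE hbm.le k) ∈ B := (hπ _).2 k.2
      rw [if_pos h6]
      rfl
    · refine Finset.prod_congr rfl fun k hk => ?_
      have h6 : ¬ π k ∈ B := fun h => by
        have h7 := (hπ k).1 h
        have h8 := (Finset.mem_filter.1 hk).2
        omega
      rw [if_neg h6]
      rfl
  simp only [hperm, ← Finset.mul_sum] at hsum
  rcases mul_eq_zero.1 hsum with h | h
  · exfalso
    rcases Int.units_eq_one_or (Equiv.Perm.sign π) with h1 | h1
    · rw [h1] at h; simp at h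
    · rw [h1] at h; simp at h
  · exact h

end

/-- Berstein-Edmonds, combinatorial form. -/
theorem berstein_edmonds {V W R : Type*} [Field R] (m d : ℕ) (hd : d < m)
    (T : Finset (Fin (m + 1) → V)) (ε : (Fin (m + 1) → V) → R)
    (stokes : ∀ φ : (Fin m → V) → R,
      ∑ t ∈ T, ε t * ∑ j : Fin (m + 1), (-1) ^ (j : ℕ) * φ (t ∘ j.succAbove) = 0)
    (L : (Fin (m + 1) → V) → Finset (Fin (m + 1) → W))
    (hcard : ∀ t ∈ T, (L t).card = d)
    (hfacet : ∀ t ∈ T, ∀ j : Fin (m + 1),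
      Set.InjOn (fun σ : Fin (m + 1) → W => σ ∘ j.succAbove) (L t))
    (hcons : ∀ t ∈ T, ∀ t' ∈ T, ∀ (b : ℕ) (α α' : Fin b → Fin (m + 1)), t ∘ α = t' ∘ α' →
      (L t).val.map (fun σ => σ ∘ α) = (L t').val.map (fun σ => σ ∘ α'))
    (acyc : ∀ i : ℕ, 0 < i → i < m → ∀ c : (Fin (i + 1) → V) → R,
      (∀ t ∈ T, ∀ α : Fin (i + 2) → Fin (m + 1),
        ∑ j : Fin (i + 2), (-1) ^ (j : ℕ) * c ((t ∘ α) ∘ j.succAbove) = 0) →
      ∃ b : (Fin i → V) → R, ∀ t ∈ T, ∀ α : Fin (i + 1) → Fin (m + 1),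
        c (t ∘ α) = ∑ j : Fin (i + 1), (-1) ^ (j : ℕ) * b ((t ∘ α) ∘ j.succAbove))
    (x : Fin m → W → W → R)
    (hx : ∀ i, ∀ t ∈ T, ∀ σ ∈ L t, ∀ a b c : Fin (m + 1),
      x i (σ a) (σ b) + x i (σ b) (σ c) = x i (σ a) (σ c))
    (hm : ((m.factorial : ℕ) : R) ≠ 0) :
    ∑ t ∈ T, ε t * ∑ σ ∈ L t, ∏ i : Fin m, x i (σ i.castSucc) (σ i.succ) = 0 := by
  classical
  rcases Nat.eq_zero_or_pos d with h0 | h0
  · refine Finset.sum_eq_zero fun t ht => ?_
    have h1 := hcard t ht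
    rw [h0, Finset.card_eq_zero] at h1
    rw [h1, Finset.sum_empty, mul_zero]
  · have h1 := newton_like m d hd (BEB_I (T := T) (L := L) ε x)
      (BEB_exact ε stokes hfacet hcons acyc x hx) hm
    have h2 : ∀ j : Fin d, BEB_I (T := T) (L := L) ε x (fun _ => j) =
        ((d - 1).factorial : ℕ) *
          ∑ t ∈ T, ε t * ∑ σ ∈ L t, ∏ i : Fin m, x i (σ i.castSucc) (σ i.succ) := by
      intro j
      rw [BEB_I, Fintype.sum_sigma, Finset.mul_sum,
        ← Finset.sum_coe_sort T (fun t => (((d - 1).factorial : ℕ) : R) *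
          (ε t * ∑ σ ∈ L t, ∏ i : Fin m, x i (σ i.castSucc) (σ i.succ)))]
      refine Finset.sum_congr rfl fun t _ => ?_
      simp only
      rw [← Finset.mul_sum, sum_equiv_apply d (L t.1) (hcard t.1 t.2) j
        (fun σ => ∏ i : Fin m, x i (σ i.castSucc) (σ i.succ))]
      ring
    simp only [h2, Finset.sum_const, Finset.card_univ, Fintype.card_fin, nsmul_eq_mul] at h1
    rw [← mul_assoc] at h1
    rcases mul_eq_zero.1 h1 with h | h
    · exfalso
      have h3 : ((d : ℕ) : R) * (((d - 1).factorial : ℕ) : R) = ((d.factorial : ℕ) : R) := by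
        rw [← Nat.cast_mul, Nat.mul_factorial_pred (by omega)]
      rw [h3] at h
      obtain ⟨k, hk⟩ := Nat.factorial_dvd_factorial hd.le
      apply hm
      rw [hk, Nat.cast_mul, h, zero_mul]
    · exact h

end Pool.H54.UB

end S_BEB
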