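import Pool.Agent.H54.UB.Core
import Pool.Agent.H54.UM.G2
import Pool.Agent.H54.UM.G3
import Pool.Agent.H54.UM.G4

/-! Universal bases, part G5: this file joins several modules to save build time. -/

section S_ORA

/-!
# Row ORA: the orientation sign of a top simplex, local statement

Setting: `K` triangulates the closed PL manifold `M`, `t` an ordered top simplex,
`C = convexHull (range t)`, `x ∈ C` with `K`-carrier `range t` (an interior point of the simplex),
`(U, h)` a chart at `x`.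

Claim: there is a neighbourhood `V` of `x` such that all affine germs of `h` at points of `V` have the
same sign: if `O` is open, `O ∩ C` nonempty, `O ∩ C ⊆ U ∩ V`, `h = B` on `O ∩ C`, similarly `O', B'`, then
`0 < sdet B t * sdet B' t`.

Proof.  `L, L'` from `chart_refine` (`Y` = hulls of the faces of `K`).  For an `L`-face `a` with `m+1`
vertices contained in `C` let `B_a` be an affine map with `h = B_a` on `convexHull a`; `B_a` is determined
on the affine span of `t`, and `sdet B_a t ≠ 0` (`h(a)` is affinely independent; `sdet_comb`,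
`sdet_ne_zero_iff`).  Choose an open ball `D` around `h x` in the cube with `h⁻¹ D ∩ U` contained in the
set of points with `K`-carrier `range t` (`GC.exists_nhd_star`; top faces are maximal), and put
`V = ` an open set with `V ∩ M ⊆ h⁻¹ D`.
Apply `GC.conn_convex` to `P' (h(a)) :⟺ 0 < sdet B_a t` (resp. `< 0`).  Adjacent faces: `a, b ⊆ C`
(they meet the set of points with `K`-carrier `range t`), `r ⊆ a ∩ b` with `m` vertices, enumerate `r` by
`ρ : Fin m → E`, `a = insert u r`, `b = insert v r`.  In the affine span of `t` (of dimension `m`, spanned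
by `b`) write `u = α v + ∑ β_x x`; `α ≠ 0`, and `α < 0` by `GC.no_same_side`.  `B_a = B_b` on `r`; let
`δ z = sdet id (cons z (h ∘ ρ))`.  `δ (h u) * δ (h v) < 0` by `GC.opposite` for `L'`.
`δ (B_a u) = α δ (B_a v)` (`sdet_cons_comb`, terms with `z ∈ ρ` vanish), so
`sdet B_a (cons v ρ) * sdet B_b (cons v ρ) = δ (B_a v) δ (B_b v) = δ (h u) δ (h v) / α > 0`, and
`sdet_mul_pos_of_comb` gives `0 < sdet B_a t * sdet B_b t`.

A germ `(O, B)` as in the claim: `O ∩ C` contains points with `K`-carrier `range t`, so by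
`GC.exists_face_dim` it meets an `L`-face `a ⊆ C` with `m+1` vertices in a point with `L`-carrier `a`, hence
`B = B_a` on a nonempty open subset of the hull of `a`, so on its affine span.  (m+1 affinely
independent points close to this point.)
-/

open Set Topology

namespace Pool.H54.UB

variable {E : Type*} [NormedAddCommGroup E] [NormedSpace ℝ E] [FiniteDimensional ℝ E]

/-- `B` is an affine germ of the chart `(U, h)` on the simplex `t`, inside the set `V`. -/
def Germ {m : ℕ} (U : Set E) (h : E → Fin m → ℝ) (t : Fin (m + 1) → E) (V : Set E)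
    (B : E →ᵃ[ℝ] (Fin m → ℝ)) : Prop :=
  ∃ O : Set E, IsOpen O ∧ (O ∩ convexHull ℝ (range t)).Nonempty ∧
    O ∩ convexHull ℝ (range t) ⊆ U ∩ V ∧ EqOn h B (O ∩ convexHull ℝ (range t))

/-- enumeration of a finset -/
theorem ORA_enum {α : Type*} (a : Finset α) (n : ℕ) (h : a.card = n) :
    ∃ β : Fin n → α, Function.Injective β ∧ ∀ x, x ∈ a ↔ ∃ i, β i = x := by
  refine ⟨fun i => ((a.equivFinOfCardEq h).symm i : α), ?_, ?_⟩
  · intro i j hij
    exact (a.equivFinOfCardEq h).symm.injective (Subtype.ext hij)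
  · intro x
    constructor
    · intro hx
      exact ⟨a.equivFinOfCardEq h ⟨x, hx⟩, by simp⟩
    · rintro ⟨i, rfl⟩
      exact ((a.equivFinOfCardEq h).symm i).2

theorem ORA_top {m : ℕ} {M : Set E} (hM : IsClosedPLManifold m M) (K : GC E)
    (hK : K.space = M) {t : Fin (m + 1) → E} (ht : t ∈ K.tops m) :
    ∃ s ∈ K.faces, (s : Set E) = range t ∧ s.card = m + 1 := by
  classical
  obtain ⟨hinj, s, hs, hts⟩ := GC.mem_tops.1 ht
  have hcard := (GC.pure hM K hK).2 s hs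
  have h1 : (Finset.univ.image t).card = m + 1 := by
    rw [Finset.card_image_of_injective _ hinj, Finset.card_univ, Fintype.card_fin]
  have h2 : Finset.univ.image t ⊆ s := by
    intro x hx
    obtain ⟨i, _, rfl⟩ := Finset.mem_image.1 hx
    exact hts i
  have h3 : Finset.univ.image t = s := Finset.eq_of_subset_of_card_le h2 (by omega)
  refine ⟨s, hs, ?_, ?_⟩
  · rw [← h3, Finset.coe_image, Finset.coe_univ, image_univ]
  · rw [← h3, h1]

theorem ORA_affind {m : ℕ} {M : Set E} (hM : IsClosedPLManifold m M) (K : GC E)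
    (hK : K.space = M) {t : Fin (m + 1) → E} (ht : t ∈ K.tops m) : AffineIndependent ℝ t := by
  obtain ⟨s, hs, hsr, _⟩ := ORA_top hM K hK ht
  obtain ⟨hinj, _⟩ := GC.mem_tops.1 ht
  have hmem : ∀ i, t i ∈ s := by
    intro i
    have : t i ∈ (s : Set E) := by rw [hsr]; exact ⟨i, rfl⟩
    exact this
  have h1 := (GC.affineIndependent hs).comp_embedding
    ⟨fun i => (⟨t i, hmem i⟩ : s), fun i j hij => hinj (congrArg Subtype.val hij)⟩
  exact h1

/-- data of a refinement adapted to a chart -/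
structure ORA_CD {m : ℕ} (K : GC E) (U : Set E) (h : E → Fin m → ℝ) (L : GC E)
    (L' : GC (Fin m → ℝ)) : Prop where
  space : L.space = U
  ad : ∀ s ∈ K.faces, L.Adapted (convexHull ℝ (s : Set E))
  aff : ∀ s ∈ L.faces, AffOn h (convexHull ℝ (s : Set E))
  inj : InjOn h U
  sp' : L'.space = cube m
  faces' : ∀ s' : Finset (Fin m → ℝ), s' ∈ L'.faces ↔
    ∃ s ∈ L.faces, (s' : Set (Fin m → ℝ)) = h '' (s : Set E)
  hull : ∀ s ∈ L.faces, h '' convexHull ℝ (s : Set E) = convexHull ℝ (h '' (s : Set E))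

theorem ORA_exists {m : ℕ} {M U : Set E} {h : E → Fin m → ℝ} (K : GC E)
    (hc : IsChart m M U h) : ∃ L L', ORA_CD K U h L L' := by
  obtain ⟨Y, hY1, hY2⟩ := K.exists_hulls
  obtain ⟨L, L', h1, h2, h3, h4, h5, _, h7⟩ := chart_refine hc Y hY2
  exact ⟨L, L', ⟨h1, fun s hs => h2 _ ((hY1 _).2 ⟨s, hs, rfl⟩), h3, hc.2.2.1, h4, h5, h7⟩⟩

section CD

variable {m : ℕ} {K : GC E} {U : Set E} {h : E → Fin m → ℝ} {L : GC E} {L' : GC (Fin m → ℝ)}

omit [FiniteDimensional ℝ E] in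
theorem ORA_CD.hullU (hd : ORA_CD K U h L L') {s : Finset E} (hs : s ∈ L.faces) :
    convexHull ℝ (s : Set E) ⊆ U := by
  rw [← hd.space]
  exact subset_biUnion_of_mem (u := fun t : Finset E => convexHull ℝ (t : Set E)) hs

omit [FiniteDimensional ℝ E] in
theorem ORA_CD.subU (hd : ORA_CD K U h L L') {s : Finset E} (hs : s ∈ L.faces) :
    (s : Set E) ⊆ U :=
  (subset_convexHull ℝ _).trans (hd.hullU hs)

omit [FiniteDimensional ℝ E] in
theorem ORA_CD.img (hd : ORA_CD K U h L L') {s : Finset E} (hs : s ∈ L.faces) :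
    ∃ s' ∈ L'.faces, (s' : Set (Fin m → ℝ)) = h '' (s : Set E) ∧ s'.card = s.card := by
  classical
  have h1 : ((s.image h : Finset (Fin m → ℝ)) : Set (Fin m → ℝ)) = h '' (s : Set E) :=
    Finset.coe_image
  refine ⟨s.image h, (hd.faces' _).2 ⟨s, hs, h1⟩, h1, ?_⟩
  exact Finset.card_image_of_injOn (hd.inj.mono (hd.subU hs))

omit [FiniteDimensional ℝ E] in
theorem ORA_CD.card (hd : ORA_CD K U h L L') {s : Finset E} (hs : s ∈ L.faces) :
    s.card ≤ m + 1 := by
  obtain ⟨s', hs', _, hc⟩ := hd.img hs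
  rw [← hc]
  exact L'.card_le hs'

omit [FiniteDimensional ℝ E] in
theorem ORA_CD.ind (hd : ORA_CD K U h L L') {s : Finset E} (hs : s ∈ L.faces)
    {β : Fin (m + 1) → E} (hβ : Function.Injective β) (hβs : ∀ i, β i ∈ s) :
    AffineIndependent ℝ (fun i => h (β i)) := by
  obtain ⟨s', hs', hc, _⟩ := hd.img hs
  have hmem : ∀ i, h (β i) ∈ s' := by
    intro i
    have : h (β i) ∈ (s' : Set (Fin m → ℝ)) := by
      rw [hc]
      exact ⟨β i, hβs i, rfl⟩
    exact this
  have h1 := (GC.affineIndependent hs').comp_embedding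
    ⟨fun i => (⟨h (β i), hmem i⟩ : s'), fun i j hij => hβ (hd.inj (hd.subU hs (hβs i))
      (hd.subU hs (hβs j)) (congrArg Subtype.val hij))⟩
  exact h1

end CD

omit [FiniteDimensional ℝ E] in
theorem ORA_same {m : ℕ} {h : E → Fin m → ℝ} (B1 B2 : E →ᵃ[ℝ] (Fin m → ℝ))
    (t β : Fin (m + 1) → E) (hβ : ∀ i, β i ∈ affineSpan ℝ (range t))
    (h1 : ∀ i, B1 (β i) = h (β i)) (h2 : ∀ i, B2 (β i) = h (β i))
    (hi : AffineIndependent ℝ (fun i => h (β i))) : 0 < sdet B1 t * sdet B2 t := by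
  refine sdet_mul_pos_of_comb B1 B2 t β hβ ?_
  have e1 : sdet B1 β = sdet h β := sdet_congr h1
  have e2 : sdet B2 β = sdet h β := sdet_congr h2
  rw [e1, e2]
  exact mul_self_pos.2 ((sdet_ne_zero_iff h β).2 hi)

omit [FiniteDimensional ℝ E] in
theorem ORA_move (b : Finset E) (hb : b.Nonempty) {y : E} (hy : y ∈ convexHull ℝ (b : Set E))
    {O : Set E} (hO : IsOpen O) (hyO : y ∈ O) :
    ∃ w : E → ℝ, (∀ z ∈ b, 0 < w z) ∧ ∑ z ∈ b, w z = 1 ∧ ∑ z ∈ b, w z • z ∈ O := by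
  obtain ⟨w, hw0, hw1, hwy⟩ := Finset.mem_convexHull'.1 hy
  have hn : (0 : ℝ) < b.card := by exact_mod_cast hb.card_pos
  obtain ⟨g, hg⟩ : ∃ g : E, g = ∑ z ∈ b, (1 / (b.card : ℝ)) • z := ⟨_, rfl⟩
  have hφ : Continuous (fun ε : ℝ => (1 - ε) • y + ε • g) := by fun_prop
  have h1 : ∀ᶠ ε in 𝓝[>] (0 : ℝ), (1 - ε) • y + ε • g ∈ O := by
    have h3 : (fun ε : ℝ => (1 - ε) • y + ε • g) ⁻¹' O ∈ 𝓝 (0 : ℝ) := by
      apply hφ.continuousAt.preimage_mem_nhds
      have : (1 - (0 : ℝ)) • y + (0 : ℝ) • g = y := by simp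
      rw [this]
      exact hO.mem_nhds hyO
    exact nhdsWithin_le_nhds h3
  have h2 : ∀ᶠ ε in 𝓝[>] (0 : ℝ), ε ∈ Ioo (0 : ℝ) 1 := Ioo_mem_nhdsGT (by norm_num)
  obtain ⟨ε, h1, h2⟩ := (h1.and h2).exists
  refine ⟨fun z => (1 - ε) * w z + ε * (1 / (b.card : ℝ)), ?_, ?_, ?_⟩
  · intro z hz
    have h3 : 0 ≤ (1 - ε) * w z := mul_nonneg (by linarith [h2.2]) (hw0 z hz)
    have h4 : 0 < ε * (1 / (b.card : ℝ)) := mul_pos h2.1 (by positivity)
    linarith
  · rw [Finset.sum_add_distrib, ← Finset.mul_sum, hw1, Finset.sum_const, nsmul_eq_mul]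
    field_simp
    ring
  · have h5 : ∑ z ∈ b, ((1 - ε) * w z + ε * (1 / (b.card : ℝ))) • z = (1 - ε) • y + ε • g := by
      rw [hg, ← hwy, Finset.smul_sum, Finset.smul_sum, ← Finset.sum_add_distrib]
      refine Finset.sum_congr rfl ?_
      intro z _
      rw [add_smul, mul_smul, mul_smul]
    rw [h5]
    exact h1

omit [FiniteDimensional ℝ E] in
/-- affine maps that agree near a point of a convex set agree on it -/
theorem ORA_ext {F : Type*} [AddCommGroup F] [Module ℝ F] (B B' : E →ᵃ[ℝ] F) {C O : Set E}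
    (hC : Convex ℝ C) (hO : IsOpen O) {y : E} (hyO : y ∈ O) (hyC : y ∈ C)
    (hEq : EqOn B B' (O ∩ C)) : EqOn B B' C := by
  intro z hz
  have hφ : Continuous (fun ε : ℝ => (1 - ε) • y + ε • z) := by fun_prop
  have h1 : ∀ᶠ ε in 𝓝[>] (0 : ℝ), (1 - ε) • y + ε • z ∈ O := by
    have h3 : (fun ε : ℝ => (1 - ε) • y + ε • z) ⁻¹' O ∈ 𝓝 (0 : ℝ) := by
      apply hφ.continuousAt.preimage_mem_nhds
      have : (1 - (0 : ℝ)) • y + (0 : ℝ) • z = y := by simp
      rw [this]
      exact hO.mem_nhds hyO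
    exact nhdsWithin_le_nhds h3
  have h2 : ∀ᶠ ε in 𝓝[>] (0 : ℝ), ε ∈ Ioo (0 : ℝ) 1 := Ioo_mem_nhdsGT (by norm_num)
  obtain ⟨ε, h1, h2⟩ := (h1.and h2).exists
  have hmem : (1 - ε) • y + ε • z ∈ C := hC hyC hz (by linarith [h2.2]) h2.1.le (by ring)
  have h3 := hEq ⟨h1, hmem⟩
  have h4 := hEq ⟨hyO, hyC⟩
  have h5 : (1 - ε) • y + ε • z = AffineMap.lineMap y z ε := by
    rw [AffineMap.lineMap_apply_module]
  rw [h5, AffineMap.apply_lineMap, AffineMap.apply_lineMap, AffineMap.lineMap_apply_module,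
    AffineMap.lineMap_apply_module, h4] at h3
  have h6 : ε • B z = ε • B' z := add_left_cancel h3
  exact smul_right_injective F h2.1.ne' h6

theorem exists_germ {m : ℕ} {M : Set E} (hM : IsClosedPLManifold m M) (K : GC E)
    (hK : K.space = M) {t : Fin (m + 1) → E} (ht : t ∈ K.tops m) {U : Set E} {h : E → Fin m → ℝ}
    (hc : IsChart m M U h) {V : Set E} (hV : IsOpen V)
    (hne : ∃ x ∈ V, U ∈ 𝓝[M] x ∧ x ∈ convexHull ℝ (range t)) :
    ∃ B, Germ U h t V B := by
  obtain ⟨x, hxV, hxU, hxC⟩ := hne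
  obtain ⟨st, hst, hstr, hstc⟩ := ORA_top hM K hK ht
  obtain ⟨L, L', hd⟩ := ORA_exists K hc
  obtain ⟨O1, hO1, hxO1, hsub1⟩ := mem_nhdsWithin.1 hxU
  have hCM : convexHull ℝ (st : Set E) ⊆ M := by
    rw [← hK]
    exact subset_biUnion_of_mem (u := fun t : Finset E => convexHull ℝ (t : Set E)) hst
  rw [← hstr] at hxC
  obtain ⟨b, hb, hbc, hbC, y, hyO, hyb, hyK⟩ := GC.exists_face_dim (L := L) hst (hd.ad st hst)
    (hO1.inter hV) ⟨hxO1, hxV⟩ hxC (by
      rw [hd.space]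
      rintro z ⟨hz1, hz2⟩
      exact hsub1 ⟨hz2.1, hCM hz1⟩)
  obtain ⟨U0, hU0, hstar⟩ := GC.exists_nhd_star hyb
  have hcar : ∀ z ∈ U0 ∩ L.space, z ∈ convexHull ℝ (b : Set E) := by
    rintro z ⟨hz0, hzL⟩
    obtain ⟨c, hcz⟩ := GC.exists_carrier' hzL
    have h1 := hstar z ⟨hz0, hzL⟩ c hcz
    have h2 := hd.card hcz.1
    have h3 : b = c := Finset.eq_of_subset_of_card_le h1 (by omega)
    rw [h3]
    exact hcz.mem_hull
  obtain ⟨B, hB⟩ := hd.aff b hb
  refine ⟨B, interior U0 ∩ (O1 ∩ V), isOpen_interior.inter (hO1.inter hV), ⟨y,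
    ⟨mem_interior_iff_mem_nhds.2 hU0, hyO⟩, ?_⟩, ?_, ?_⟩
  · rw [← hstr]
    exact hbC hyb.mem_hull
  · rintro z ⟨⟨hz0, hz1, hz2⟩, hzC⟩
    rw [← hstr] at hzC
    exact ⟨hsub1 ⟨hz1, hCM hzC⟩, hz2⟩
  · rintro z ⟨⟨hz0, hz1, hz2⟩, hzC⟩
    rw [← hstr] at hzC
    refine hB (hcar z ⟨interior_subset hz0, ?_⟩)
    rw [hd.space]
    exact hsub1 ⟨hz1, hCM hzC⟩

theorem germ_ne_zero {m : ℕ} {M : Set E} (hM : IsClosedPLManifold m M) (K : GC E)
    (hK : K.space = M) {t : Fin (m + 1) → E} (ht : t ∈ K.tops m) {U : Set E} {h : E → Fin m → ℝ}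
    (hc : IsChart m M U h) {V : Set E} {B : E →ᵃ[ℝ] (Fin m → ℝ)} (hB : Germ U h t V B) :
    sdet B t ≠ 0 := by
  obtain ⟨st, hst, hstr, hstc⟩ := ORA_top hM K hK ht
  have htA := ORA_affind hM K hK ht
  obtain ⟨hinj, _⟩ := GC.mem_tops.1 ht
  obtain ⟨O, hO, ⟨x0, hx0O, hx0C⟩, hsub, hEq⟩ := hB
  rw [← hstr] at hx0C
  obtain ⟨w, hw0, hw1, hwO⟩ := ORA_move st (K.ne st hst) hx0C hO hx0O
  have hst' : st = Finset.univ.map ⟨t, hinj⟩ := by
    apply Finset.coe_injective
    rw [hstr, Finset.coe_map, Finset.coe_univ, image_univ]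
    rfl
  have hw0' : ∀ i, 0 < w (t i) := by
    intro i
    apply hw0
    have : t i ∈ (st : Set E) := by rw [hstr]; exact ⟨i, rfl⟩
    exact this
  have hw1' : ∑ i, w (t i) = 1 := by
    rw [← hw1, hst', Finset.sum_map]
    rfl
  have hwO' : ∑ i, w (t i) • t i ∈ O := by
    have : ∑ z ∈ st, w z • z = ∑ i, w (t i) • t i := by
      rw [hst', Finset.sum_map]
      rfl
    rw [← this]
    exact hwO
  rw [sdet_ne_zero_iff, affineIndependent_iff]
  intro s c hc0 hc1 e he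
  classical
  obtain ⟨v, hv⟩ : ∃ v : E, v = ∑ e ∈ s, c e • t e := ⟨_, rfl⟩
  have hdec : ∀ z, B z = B.linear z + B 0 := by
    intro z
    have := congrFun B.decomp z
    simpa using this
  have hlin : B.linear v = 0 := by
    rw [hv, map_sum]
    have h1 : ∀ e ∈ s, B.linear (c e • t e) = c e • B (t e) - c e • B 0 := by
      intro e _
      rw [map_smul, hdec (t e), smul_add, add_sub_cancel_right]
    rw [Finset.sum_congr rfl h1, Finset.sum_sub_distrib, hc1, ← Finset.sum_smul, hc0, zero_smul,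
      sub_zero]
  obtain ⟨x, hx⟩ : ∃ x : E, x = ∑ i, w (t i) • t i := ⟨_, rfl⟩
  rw [← hx] at hwO'
  obtain ⟨c', hc'⟩ : ∃ c' : Fin (m + 1) → ℝ, c' = fun i => if i ∈ s then c i else 0 := ⟨_, rfl⟩
  have hc's : ∑ i, c' i = 0 := by
    rw [hc', Finset.sum_ite_mem, Finset.univ_inter]
    exact hc0
  have hc'v : ∑ i, c' i • t i = v := by
    rw [hv, hc']
    simp only [ite_smul, zero_smul]
    rw [Finset.sum_ite_mem, Finset.univ_inter]
  have h1 : ∀ᶠ δ in 𝓝[>] (0 : ℝ), x + δ • v ∈ O := by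
    have hφ : Continuous (fun δ : ℝ => x + δ • v) := by fun_prop
    have h3 : (fun δ : ℝ => x + δ • v) ⁻¹' O ∈ 𝓝 (0 : ℝ) := by
      apply hφ.continuousAt.preimage_mem_nhds
      rw [zero_smul, add_zero]
      exact hO.mem_nhds hwO'
    exact nhdsWithin_le_nhds h3
  have h2 : ∀ᶠ δ in 𝓝[>] (0 : ℝ), ∀ i, 0 < w (t i) + δ * c' i := by
    rw [Filter.eventually_all]
    intro i
    have hφ : Continuous (fun δ : ℝ => w (t i) + δ * c' i) := by fun_prop
    have h3 : (fun δ : ℝ => w (t i) + δ * c' i) ⁻¹' (Ioi 0) ∈ 𝓝 (0 : ℝ) := by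
      apply hφ.continuousAt.preimage_mem_nhds
      rw [zero_mul, add_zero]
      exact isOpen_Ioi.mem_nhds (hw0' i)
    exact nhdsWithin_le_nhds h3
  have h3 : ∀ᶠ δ in 𝓝[>] (0 : ℝ), 0 < δ := eventually_mem_nhdsWithin
  obtain ⟨δ, ⟨h1, h2⟩, h3⟩ := ((h1.and h2).and h3).exists
  have hxC : x ∈ convexHull ℝ (range t) := by
    rw [hx]
    exact (convex_convexHull ℝ _).sum_mem (fun i _ => (hw0' i).le) hw1'
      (fun i _ => subset_convexHull ℝ _ ⟨i, rfl⟩)
  have hxC' : x + δ • v ∈ convexHull ℝ (range t) := by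
    have h4 : x + δ • v = ∑ i, (w (t i) + δ * c' i) • t i := by
      rw [hx, ← hc'v, Finset.smul_sum, ← Finset.sum_add_distrib]
      refine Finset.sum_congr rfl ?_
      intro i _
      rw [add_smul, mul_smul]
    rw [h4]
    refine (convex_convexHull ℝ _).sum_mem (fun i _ => (h2 i).le) ?_
      (fun i _ => subset_convexHull ℝ _ ⟨i, rfl⟩)
    rw [Finset.sum_add_distrib, hw1', ← Finset.mul_sum, hc's, mul_zero, add_zero]
  have h5 : h (x + δ • v) = h x := by
    rw [hEq ⟨h1, hxC'⟩, hEq ⟨hwO', hxC⟩, hdec (x + δ • v), hdec x, map_add, map_smul, hlin,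
      smul_zero, add_zero]
  have h6 : x + δ • v = x := hc.2.2.1 (hsub ⟨h1, hxC'⟩).1 (hsub ⟨hwO', hxC⟩).1 h5
  have h7 : v = 0 := by
    have h8 : δ • v = 0 := by
      have := add_eq_left.1 h6
      exact this
    exact (smul_eq_zero.1 h8).resolve_left h3.ne'
  rw [affineIndependent_iff] at htA
  exact htA s c hc0 (by rw [← hv, h7]) e he

theorem ORA_pos {a c : ℝ} (h : 0 < a * c ^ 2) : 0 < a := by
  by_contra hcon
  push Not at hcon
  have := mul_nonpos_of_nonpos_of_nonneg hcon (sq_nonneg c)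
  linarith

omit [FiniteDimensional ℝ E] in
/-- germs in adjacent simplices -/
theorem ORA_adj {m : ℕ} {K : GC E} {U : Set E} {h : E → Fin m → ℝ} {L : GC E}
    {L' : GC (Fin m → ℝ)} (hd : ORA_CD K U h L L') {a b r : Finset E} (ha : a ∈ L.faces)
    (hb : b ∈ L.faces) (hac : a.card = m + 1) (hbc : b.card = m + 1) (hab : a ≠ b) (hra : r ⊆ a)
    (hrb : r ⊆ b) (hrc : r.card = m) (hrne : r.Nonempty) {t : Fin (m + 1) → E}
    (htA : AffineIndependent ℝ t)
    (haC : convexHull ℝ (a : Set E) ⊆ convexHull ℝ (range t))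
    (hbC : convexHull ℝ (b : Set E) ⊆ convexHull ℝ (range t)) {Ba Bb : E →ᵃ[ℝ] (Fin m → ℝ)}
    (hBa : EqOn h Ba (convexHull ℝ (a : Set E))) (hBb : EqOn h Bb (convexHull ℝ (b : Set E))) :
    0 < sdet Ba t * sdet Bb t := by
  classical
  obtain ⟨u, hur, hua⟩ := Finset.exists_eq_insert_iff.2 (⟨hra, by omega⟩ : r ⊆ a ∧ r.card + 1 = a.card)
  obtain ⟨v, hvr, hvb⟩ := Finset.exists_eq_insert_iff.2 (⟨hrb, by omega⟩ : r ⊆ b ∧ r.card + 1 = b.card)
  obtain ⟨ρ, hρ, hρr⟩ := ORA_enum r m hrc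
  have hρm : ∀ i, ρ i ∈ r := fun i => (hρr _).2 ⟨i, rfl⟩
  have huam : u ∈ a := by rw [← hua]; exact Finset.mem_insert_self u r
  have hvbm : v ∈ b := by rw [← hvb]; exact Finset.mem_insert_self v r
  -- the enumeration of b
  obtain ⟨β, hβ⟩ : ∃ β : Fin (m + 1) → E, β = Fin.cons v ρ := ⟨_, rfl⟩
  have hβ0 : β 0 = v := by rw [hβ, Fin.cons_zero]
  have hβs : ∀ i : Fin m, β i.succ = ρ i := by intro i; rw [hβ, Fin.cons_succ]
  have hβinj : Function.Injective β := by
    rw [hβ, Fin.cons_injective_iff]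
    refine ⟨?_, hρ⟩
    rintro ⟨i, hi⟩
    exact hvr (hi ▸ hρm i)
  have hβb : ∀ i, β i ∈ b := by
    intro i
    refine Fin.cases ?_ (fun j => ?_) i
    · rw [hβ0]; exact hvbm
    · rw [hβs]; exact hrb (hρm j)
  have hspanC : ∀ z ∈ convexHull ℝ (range t), z ∈ affineSpan ℝ (range t) :=
    fun z hz => convexHull_subset_affineSpan _ hz
  have hβsp : ∀ i, β i ∈ affineSpan ℝ (range t) :=
    fun i => hspanC _ (hbC (subset_convexHull ℝ _ (hβb i)))
  have hβind : AffineIndependent ℝ β := by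
    have h1 := (GC.affineIndependent hb).comp_embedding
      ⟨fun i => (⟨β i, hβb i⟩ : b), fun i j hij => hβinj (congrArg Subtype.val hij)⟩
    exact h1
  have hspan : affineSpan ℝ (range β) = affineSpan ℝ (range t) := by
    refine hβind.affineSpan_eq_of_le_of_card_eq_finrank_add_one ?_ ?_
    · rw [affineSpan_le]
      rintro _ ⟨i, rfl⟩
      exact hβsp i
    · rw [direction_affineSpan, htA.finrank_vectorSpan (n := m) (by simp), Fintype.card_fin]
  have husp : u ∈ affineSpan ℝ (range β) := by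
    rw [hspan]
    exact hspanC _ (haC (subset_convexHull ℝ _ huam))
  obtain ⟨w, hw1, hwu⟩ := eq_affineCombination_of_mem_affineSpan_of_fintype husp
  rw [Finset.affineCombination_eq_linear_combination _ _ _ hw1] at hwu
  rw [Fin.sum_univ_succ] at hw1 hwu
  simp only [hβs, hβ0] at hwu
  -- the function on r
  obtain ⟨γ, hγ⟩ : ∃ γ : E → ℝ, ∀ i, γ (ρ i) = w i.succ :=
    ⟨Function.extend ρ (fun i => w i.succ) 0, fun i => hρ.extend_apply _ _ i⟩
  have hrmap : r = Finset.univ.map ⟨ρ, hρ⟩ := by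
    ext z
    rw [hρr, Finset.mem_map]
    constructor
    · rintro ⟨i, hi⟩; exact ⟨i, Finset.mem_univ _, hi⟩
    · rintro ⟨i, _, hi⟩; exact ⟨i, hi⟩
  have hsum1 : w 0 + ∑ x ∈ r, γ x = 1 := by
    rw [hrmap, Finset.sum_map, ← hw1]
    congr 1
    exact Finset.sum_congr rfl (fun i _ => hγ i)
  have hsum2 : u = w 0 • v + ∑ x ∈ r, γ x • x := by
    rw [hrmap, Finset.sum_map, hwu]
    congr 1
    refine Finset.sum_congr rfl (fun i _ => ?_)
    change w i.succ • ρ i = γ (ρ i) • ρ i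
    rw [hγ i]
  have hα : ¬ 0 < w 0 := by
    intro hα
    exact L.no_same_side ha hb hab hrne (u := u) (v := v)
      (by rw [← hua, Finset.coe_insert]) (by rw [← hvb, Finset.coe_insert]) hur hvr hα hsum1 hsum2
  -- opposite signs
  obtain ⟨a', ha', ha'c, ha'n⟩ := hd.img ha
  obtain ⟨b', hb', hb'c, hb'n⟩ := hd.img hb
  have hma : ∀ z ∈ a, h z ∈ a' := by
    intro z hz
    have : h z ∈ (a' : Set (Fin m → ℝ)) := by rw [ha'c]; exact ⟨z, hz, rfl⟩
    exact this
  have hmb : ∀ z ∈ b, h z ∈ b' := by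
    intro z hz
    have : h z ∈ (b' : Set (Fin m → ℝ)) := by rw [hb'c]; exact ⟨z, hz, rfl⟩
    exact this
  have hab' : a' ≠ b' := by
    intro he
    apply hab
    apply Finset.coe_injective
    have h1 : h '' (a : Set E) = h '' (b : Set E) := by rw [← ha'c, ← hb'c, he]
    exact (hd.inj.image_eq_image_iff (hd.subU ha) (hd.subU hb)).1 h1
  have hopp := L'.opposite ha' hb' (by omega) (by omega) hab' (fun i => h (ρ i))
    (fun i j hij => hρ (hd.inj (hd.subU ha (hra (hρm i))) (hd.subU ha (hra (hρm j))) hij))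
    (fun i => hma _ (hra (hρm i))) (fun i => hmb _ (hrb (hρm i))) (u := h u) (v := h v)
    (hma u huam)
    (by
      rintro ⟨i, hi⟩
      apply hur
      rw [← hd.inj (hd.subU ha (hra (hρm i))) (hd.subU ha huam) hi]
      exact hρm i)
    (hmb v hvbm)
    (by
      rintro ⟨i, hi⟩
      apply hvr
      rw [← hd.inj (hd.subU hb (hrb (hρm i))) (hd.subU hb hvbm) hi]
      exact hρm i)
  have hconsu : (fun i => h ((Fin.cons u ρ : Fin (m + 1) → E) i)) =
      (Fin.cons (h u) (fun i => h (ρ i)) : Fin (m + 1) → (Fin m → ℝ)) := by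
    funext i
    refine Fin.cases ?_ (fun j => ?_) i
    · rw [Fin.cons_zero, Fin.cons_zero]
    · rw [Fin.cons_succ, Fin.cons_succ]
  have hconsv : (fun i => h ((Fin.cons v ρ : Fin (m + 1) → E) i)) =
      (Fin.cons (h v) (fun i => h (ρ i)) : Fin (m + 1) → (Fin m → ℝ)) := by
    funext i
    refine Fin.cases ?_ (fun j => ?_) i
    · rw [Fin.cons_zero, Fin.cons_zero]
    · rw [Fin.cons_succ, Fin.cons_succ]
  rw [← hconsu, ← hconsv, ← sdet_comp, ← sdet_comp] at hopp
  have hBaa : ∀ z ∈ a, h z = Ba z := fun z hz => hBa (subset_convexHull ℝ _ hz)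
  have hBbb : ∀ z ∈ b, h z = Bb z := fun z hz => hBb (subset_convexHull ℝ _ hz)
  have e1 : sdet h (Fin.cons u ρ : Fin (m + 1) → E) = sdet Ba (Fin.cons u ρ : Fin (m + 1) → E) := by
    apply sdet_congr
    intro i
    refine Fin.cases ?_ (fun j => ?_) i
    · rw [Fin.cons_zero]; exact hBaa u huam
    · rw [Fin.cons_succ]; exact hBaa _ (hra (hρm j))
  have e2 : sdet h (Fin.cons v ρ : Fin (m + 1) → E) = sdet Bb (Fin.cons v ρ : Fin (m + 1) → E) := by
    apply sdet_congr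
    intro i
    refine Fin.cases ?_ (fun j => ?_) i
    · rw [Fin.cons_zero]; exact hBbb v hvbm
    · rw [Fin.cons_succ]; exact hBbb _ (hrb (hρm j))
  have e3 : sdet Ba (Fin.cons u ρ : Fin (m + 1) → E) =
      w 0 * sdet Ba (Fin.cons v ρ : Fin (m + 1) → E) := by
    have hu2 : u = ∑ i : Fin (m + 1), w i • β i := by
      rw [Fin.sum_univ_succ]
      simp only [hβs, hβ0]
      exact hwu
    have hw2 : ∑ i : Fin (m + 1), w i = 1 := by
      rw [Fin.sum_univ_succ]
      exact hw1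
    conv_lhs => rw [hu2]
    rw [sdet_cons_comb Finset.univ w β hw2 Ba ρ, Fin.sum_univ_succ]
    simp only [hβs, hβ0, sdet_cons_self, mul_zero, Finset.sum_const_zero, add_zero]
  rw [e1, e2, e3] at hopp
  have hw0 : w 0 < 0 := by
    rcases lt_trichotomy (w 0) 0 with h1 | h1 | h1
    · exact h1
    · rw [h1] at hopp
      simp at hopp
    · exact absurd h1 hα
  have hpos : 0 < sdet Ba (Fin.cons v ρ : Fin (m + 1) → E) *
      sdet Bb (Fin.cons v ρ : Fin (m + 1) → E) := by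
    have h1 : w 0 * (sdet Ba (Fin.cons v ρ : Fin (m + 1) → E) *
      sdet Bb (Fin.cons v ρ : Fin (m + 1) → E)) < 0 := by
      rw [← mul_assoc]
      exact hopp
    by_contra hcon
    push Not at hcon
    have h2 := mul_nonneg_of_nonpos_of_nonpos hw0.le hcon
    linarith
  exact sdet_mul_pos_of_comb Ba Bb t (Fin.cons v ρ) (fun i => hβ ▸ hβsp i) hpos

theorem germ_local {m : ℕ} {M : Set E} (hM : IsClosedPLManifold m M) (K : GC E)
    (hK : K.space = M) {t : Fin (m + 1) → E} (ht : t ∈ K.tops m) {U : Set E} {h : E → Fin m → ℝ}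
    {x : E} (hc : ChartAt m M U h x) (hx : ∀ s, K.IsCarrier x s → (s : Set E) = range t) :
    ∃ V : Set E, IsOpen V ∧ x ∈ V ∧ ∀ B B', Germ U h t V B → Germ U h t V B' →
      0 < sdet B t * sdet B' t := by
  obtain ⟨st, hst, hstr, hstc⟩ := ORA_top hM K hK ht
  have htA := ORA_affind hM K hK ht
  obtain ⟨hch, hxU, hUn, hcube⟩ := hc
  obtain ⟨L, L', hd⟩ := ORA_exists K hch
  have hxM : x ∈ M := hch.1 hxU
  have hcont : ContinuousOn h U := hch.2.1.continuousOn
  have hCM : convexHull ℝ (st : Set E) ⊆ M := by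
    rw [← hK]
    exact subset_biUnion_of_mem (u := fun t : Finset E => convexHull ℝ (t : Set E)) hst
  have hxc : K.IsCarrier x st := by
    obtain ⟨s, hs⟩ := GC.exists_carrier' (K := K) (x := x) (by rw [hK]; exact hxM)
    have : s = st := by
      apply Finset.coe_injective
      rw [hx s hs, hstr]
    rwa [this] at hs
  obtain ⟨V0', hV0', hstar⟩ := GC.exists_nhd_star hxc
  have hV0 : ∀ z ∈ interior V0', z ∈ M → z ∈ convexHull ℝ (st : Set E) := by
    intro z hz hzM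
    obtain ⟨c, hcz⟩ := GC.exists_carrier' (K := K) (x := z) (by rw [hK]; exact hzM)
    have h1 := hstar z ⟨interior_subset hz, by rw [hK]; exact hzM⟩ c hcz
    have h2 := (GC.pure hM K hK).2 c hcz.1
    have h3 : st = c := Finset.eq_of_subset_of_card_le h1 (by omega)
    rw [h3]
    exact hcz.mem_hull
  -- faces of L that meet the neighbourhood are in the simplex
  have hsubC : ∀ b ∈ L.faces, ∀ y ∈ convexHull ℝ (b : Set E), y ∈ interior V0' →
      convexHull ℝ (b : Set E) ⊆ convexHull ℝ (st : Set E) := by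
    intro b hb y hyb hy
    obtain ⟨w, hw0, hw1, hwO⟩ := ORA_move b (L.ne b hb) hyb isOpen_interior hy
    have h1 : ∑ z ∈ b, w z • z ∈ convexHull ℝ (b : Set E) :=
      Finset.mem_convexHull'.2 ⟨w, fun z hz => (hw0 z hz).le, hw1, rfl⟩
    exact hd.ad st hst b hb w hw0 hw1 (hV0 _ hwO (hch.1 (hd.hullU hb h1)))
  obtain ⟨D, hDo, hDc, hhx, hDcube, hDpre⟩ : ∃ D : Set (Fin m → ℝ), IsOpen D ∧ Convex ℝ D ∧
      h x ∈ D ∧ D ⊆ cube m ∧ ∀ z ∈ U, h z ∈ D → z ∈ interior V0' := by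
    have hcomp : IsCompact (U \ interior V0') :=
      (IsPoly.isCompact hch.2.1.domain).diff isOpen_interior
    have hcl : IsClosed (h '' (U \ interior V0')) :=
      (hcomp.image_of_continuousOn (hcont.mono sdiff_subset)).isClosed
    have hnot : h x ∉ h '' (U \ interior V0') := by
      rintro ⟨z, ⟨hz1, hz2⟩, hz3⟩
      have := hch.2.2.1 hz1 hxU hz3
      rw [this] at hz2
      exact hz2 (mem_interior_iff_mem_nhds.2 hV0')
    have hopen : IsOpen ((h '' (U \ interior V0'))ᶜ ∩ interior (cube m)) :=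
      hcl.isOpen_compl.inter isOpen_interior
    obtain ⟨r, hr, hball⟩ := Metric.isOpen_iff.1 hopen (h x) ⟨hnot, interior_cube_mem hcube⟩
    refine ⟨Metric.ball (h x) r, Metric.isOpen_ball, convex_ball _ _, Metric.mem_ball_self hr,
      fun z hz => interior_subset (hball hz).2, fun z hz hzD => ?_⟩
    by_contra hcon
    exact (hball hzD).1 ⟨z, ⟨hz, hcon⟩, rfl⟩
  obtain ⟨V, hVo, hxV, hVsub⟩ : ∃ V : Set E, IsOpen V ∧ x ∈ V ∧ V ∩ M ⊆ h ⁻¹' D ∩ U := by
    have h1 : h ⁻¹' D ∈ 𝓝[U] x := (hcont x hxU).preimage_mem_nhdsWithin (hDo.mem_nhds hhx)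
    have h2 : 𝓝[M] x ≤ 𝓝[U] x := nhdsWithin_le_of_mem hUn
    have h3 : h ⁻¹' D ∩ U ∈ 𝓝[M] x := Filter.inter_mem (h2 h1) hUn
    obtain ⟨V, hV1, hV2, hV3⟩ := mem_nhdsWithin.1 h3
    exact ⟨V, hV1, hV2, hV3⟩
  refine ⟨V, hVo, hxV, fun B B' hB hB' => ?_⟩
  have key : ∀ B, Germ U h t V B → ∃ b ∈ L.faces, b.card = m + 1 ∧
      convexHull ℝ (b : Set E) ⊆ convexHull ℝ (range t) ∧
      (∃ z ∈ convexHull ℝ (b : Set E), h z ∈ D) ∧ ∃ Bb : E →ᵃ[ℝ] (Fin m → ℝ),
        EqOn h Bb (convexHull ℝ (b : Set E)) ∧ 0 < sdet B t * sdet Bb t := by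
    rintro B ⟨O, hO, ⟨x1, hx1O, hx1C⟩, hsub, hEq⟩
    rw [← hstr] at hx1C
    obtain ⟨b, hb, hbc, hbC, y, hyO, hyb, hyK⟩ := GC.exists_face_dim (L := L) hst (hd.ad st hst)
      hO hx1O hx1C (by
        rw [hd.space]
        rintro z ⟨hz1, hz2⟩
        rw [hstr] at hz1
        exact (hsub ⟨hz2, hz1⟩).1)
    rw [hstr] at hbC
    obtain ⟨Bb, hBb⟩ := hd.aff b hb
    have hyb' := hyb.mem_hull
    have hbm : b.card = m + 1 := hbc.trans hstc
    have hyV := hsub ⟨hyO, hbC hyb'⟩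
    have hyD : h y ∈ D := (hVsub ⟨hyV.2, hch.1 hyV.1⟩).1
    refine ⟨b, hb, hbm, hbC, ⟨y, hyb', hyD⟩, Bb, hBb, ?_⟩
    have hEq2 : EqOn B Bb (convexHull ℝ (b : Set E)) := by
      refine ORA_ext B Bb (convex_convexHull ℝ _) hO hyO hyb' ?_
      rintro z ⟨hzO, hzb⟩
      rw [← hEq ⟨hzO, hbC hzb⟩]
      exact hBb hzb
    obtain ⟨β, hβ, hβb⟩ := ORA_enum b (m + 1) hbm
    have hβm : ∀ i, β i ∈ b := fun i => (hβb _).2 ⟨i, rfl⟩
    refine ORA_same (h := h) B Bb t β (fun i => convexHull_subset_affineSpan _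
      (hbC (subset_convexHull ℝ _ (hβm i)))) (fun i => ?_) (fun i => ?_) (hd.ind hb hβ hβm)
    · rw [hEq2 (subset_convexHull ℝ _ (hβm i))]
      exact (hBb (subset_convexHull ℝ _ (hβm i))).symm
    · exact (hBb (subset_convexHull ℝ _ (hβm i))).symm
  obtain ⟨b1, hb1, hb1c, hb1C, ⟨z1, hz1, hz1D⟩, B1, hB1, hs1⟩ := key B hB
  obtain ⟨b2, hb2, hb2c, hb2C, ⟨z2, hz2, hz2D⟩, B2, hB2, hs2⟩ := key B' hB'
  obtain ⟨b1', hb1', hb1'c, hb1'n⟩ := hd.img hb1
  obtain ⟨b2', hb2', hb2'c, hb2'n⟩ := hd.img hb2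
  have hconn : ∃ a ∈ L.faces, (b2' : Set (Fin m → ℝ)) = h '' (a : Set E) ∧
      convexHull ℝ (a : Set E) ⊆ convexHull ℝ (range t) ∧ ∃ Ba : E →ᵃ[ℝ] (Fin m → ℝ),
        EqOn h Ba (convexHull ℝ (a : Set E)) ∧ 0 < sdet B t * sdet Ba t := by
    refine L'.conn_convex D hDo hDc (by rw [hd.sp']; exact hDcube)
      (fun s' => ∃ a ∈ L.faces, (s' : Set (Fin m → ℝ)) = h '' (a : Set E) ∧
        convexHull ℝ (a : Set E) ⊆ convexHull ℝ (range t) ∧ ∃ Ba : E →ᵃ[ℝ] (Fin m → ℝ),
        EqOn h Ba (convexHull ℝ (a : Set E)) ∧ 0 < sdet B t * sdet Ba t) ?_ hb1' hb2'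
      (by omega) (by omega) ?_ ?_ ?_
    · rintro a' ha' b' hb' ha'm hb'm ⟨a, ha, haa', haC, Ba, hBa, hsa⟩ ⟨r', z, hzD, hzr, hra', hrb', hrm⟩
      obtain ⟨b, hb, hbb'⟩ := (hd.faces' b').1 hb'
      obtain ⟨r, hr, hrr'⟩ := (hd.faces' r').1 hzr.1
      have hzm := hzr.mem_hull
      rw [hrr', ← hd.hull r hr] at hzm
      obtain ⟨y, hyr, hyz⟩ := hzm
      have hsubr : ∀ (c : Finset E) (c' : Finset (Fin m → ℝ)), c ∈ L.faces →
          (c' : Set (Fin m → ℝ)) = h '' (c : Set E) → r' ⊆ c' → r ⊆ c := by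
        intro c c' hcf hcc' hrc' p hp
        have h1 : h p ∈ (r' : Set (Fin m → ℝ)) := by rw [hrr']; exact ⟨p, hp, rfl⟩
        have h2 : h p ∈ (c' : Set (Fin m → ℝ)) := hrc' h1
        rw [hcc'] at h2
        obtain ⟨p', hp', hpp'⟩ := h2
        have := hd.inj (hd.subU hcf hp') (hd.subU hr hp) hpp'
        rw [← this]
        exact hp'
      have hra := hsubr a a' ha haa' hra'
      have hrb := hsubr b b' hb hbb' hrb'
      have hcardeq : ∀ (c : Finset E) (c' : Finset (Fin m → ℝ)), c ∈ L.faces →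
          (c' : Set (Fin m → ℝ)) = h '' (c : Set E) → c.card = c'.card := by
        intro c c' hcf hcc'
        obtain ⟨c'', _, h2, h3⟩ := hd.img hcf
        have : c'' = c' := by
          apply Finset.coe_injective
          rw [h2, hcc']
        rw [← this, h3]
      have hac := hcardeq a a' ha haa'
      have hbc := hcardeq b b' hb hbb'
      have hrc := hcardeq r r' hr hrr'
      have hyU : y ∈ U := hd.hullU hr hyr
      have hyV0 : y ∈ interior V0' := hDpre y hyU (by rw [hyz]; exact hzD)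
      have hbC : convexHull ℝ (b : Set E) ⊆ convexHull ℝ (range t) := by
        rw [← hstr]
        exact hsubC b hb y (convexHull_mono (by exact_mod_cast hrb) hyr) hyV0
      by_cases hab : a = b
      · subst hab
        exact ⟨a, ha, hbb', haC, Ba, hBa, hsa⟩
      · obtain ⟨Bb, hBb⟩ := hd.aff b hb
        refine ⟨b, hb, hbb', hbC, Bb, hBb, ?_⟩
        have h1 := ORA_adj hd ha hb (by omega) (by omega) hab hra hrb (by omega) (L.ne r hr) htA
          haC hbC hBa hBb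
        have h2 := mul_pos hsa h1
        have h3 : sdet B t * sdet Ba t * (sdet Ba t * sdet Bb t) =
            (sdet B t * sdet Bb t) * (sdet Ba t) ^ 2 := by ring
        rw [h3] at h2
        exact ORA_pos h2
    · refine ⟨h z1, ?_, hz1D⟩
      rw [hb1'c, ← hd.hull b1 hb1]
      exact ⟨z1, hz1, rfl⟩
    · refine ⟨h z2, ?_, hz2D⟩
      rw [hb2'c, ← hd.hull b2 hb2]
      exact ⟨z2, hz2, rfl⟩
    · exact ⟨b1, hb1, hb1'c, hb1C, B1, hB1, hs1⟩
  obtain ⟨a, ha, haa', haC, Ba, hBa, hsa⟩ := hconn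
  have hab2 : a = b2 := by
    apply Finset.coe_injective
    have h1 : h '' (a : Set E) = h '' (b2 : Set E) := by rw [← haa', ← hb2'c]
    exact (hd.inj.image_eq_image_iff (hd.subU ha) (hd.subU hb2)).1 h1
  subst hab2
  obtain ⟨β, hβ, hβb⟩ := ORA_enum a (m + 1) hb2c
  have hβm : ∀ i, β i ∈ a := fun i => (hβb _).2 ⟨i, rfl⟩
  have hs3 : 0 < sdet Ba t * sdet B2 t :=
    ORA_same (h := h) Ba B2 t β (fun i => convexHull_subset_affineSpan _
      (haC (subset_convexHull ℝ _ (hβm i))))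
      (fun i => (hBa (subset_convexHull ℝ _ (hβm i))).symm)
      (fun i => (hB2 (subset_convexHull ℝ _ (hβm i))).symm) (hd.ind ha hβ hβm)
  have h4 := mul_pos (mul_pos hsa hs3) hs2
  have h5 : sdet B t * sdet Ba t * (sdet Ba t * sdet B2 t) * (sdet B' t * sdet B2 t) =
      (sdet B t * sdet B' t) * (sdet Ba t * sdet B2 t) ^ 2 := by ring
  rw [h5] at h4
  exact ORA_pos h4

end Pool.H54.UB

end S_ORA

section S_TWO

/-!
# Row TWO: a facet lies in exactly two top simplices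

Proof.  `x` = barycentre of `r`, chart `(U, h)` at `x`, `L, L'` from `chart_refine` (`Y` = hulls of the
faces of `K`).  By `GC.exists_face_dim` (for the face `r` of `K`, an open neighbourhood `O` of `x` with
`O ∩ M ⊆ U` and `h (O ∩ U) ⊆ interior (cube m)`) there is an `L`-face `r₁` with `m` vertices,
`convexHull r₁ ⊆ convexHull r`, and `y ∈ O` with `L`-carrier `r₁`, `K`-carrier `r`.  `h y` has
`L'`-carrier `h(r₁)` and is an interior point of the cube: `GC.two_of_interior` gives exactly two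
`L'`-faces `h(a₁) ≠ h(b₁)` with `m+1` vertices containing `h(r₁)`, so `r₁ ⊆ a₁, b₁`.
Let `a, b` be the `K`-carriers of the barycentres of `a₁, b₁`; `m+1` vertices; `r ⊆ a, b` because
`y ∈ convexHull a₁ ⊆ convexHull a` has `K`-carrier `r`.

`a ≠ b`: suppose `a = b = insert u r`.  Let `λ` be the barycentric coordinate of `u` on
`convexHull a` (affine).  `a₁ = insert u₁ r₁`, `b₁ = insert v₁ r₁`, `λ = 0` on `r₁`, and `λ u₁ > 0`,
`λ v₁ > 0` (otherwise `a₁ ⊆ convexHull r` would have `m+1` affinely independent points).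
`u₁ - (λ u₁/λ v₁) v₁` has barycentric coordinate `0` at `u`, so it is `(1 - λ u₁/λ v₁)` times..: an affine
combination of `r`, hence of `r₁` (`m` affinely independent points in `affineSpan r` span it):
`u₁ = α v₁ + ∑ β_x x`, `α > 0`: contradiction with `GC.no_same_side`.

Any other `d ⊇ r` with `m+1` vertices: by `GC.exists_face_dim` applied to `d` at the point `y` with
arbitrarily small open neighbourhoods of `y` (finitely many `L`-faces, so one face `d₁` works for all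
small neighbourhoods, and then `y ∈ convexHull d₁` by closedness): `d₁` has `m+1` vertices,
`convexHull d₁ ⊆ convexHull d`, `r₁ ⊆ d₁` (`carrier_sub`).  So `d₁ = a₁` or `b₁`, and the `K`-carrier of the
barycentre of `d₁` is `d`: `d = a` or `d = b`.

`top_sides`: the same picture with a chart, in the form needed for orientations: for a facet `r` and
`a = insert u r`, `b = insert v r` the two top simplices and any chart `(U, h)` at the barycentre `x`
of `r` and any neighbourhood `O` of `x`: there are `m+1`-element sets `a₁ ⊆ convexHull a ∩ O`.. see the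
statement.  (Take `O` into account by intersecting it with the neighbourhood above; all of `a₁`, `b₁`
need not be inside `O`, only in `U`; this is what we state.)
-/

open Set Topology

namespace Pool.H54.UB

set_option linter.unusedSectionVars false

variable {E : Type*} [NormedAddCommGroup E] [NormedSpace ℝ E] [FiniteDimensional ℝ E]

theorem TWO_fun {ι : Type*} [Finite ι] (p : ι → E) (hp : AffineIndependent ℝ p) (c : ι → ℝ) :
    ∃ F : E →ᵃ[ℝ] ℝ, ∀ i, F (p i) = c i := by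
  classical
  rcases isEmpty_or_nonempty ι with hi | ⟨⟨i₀⟩⟩
  · exact ⟨AffineMap.const ℝ E 0, fun i => (hi.false i).elim⟩
  have hli := (affineIndependent_iff_linearIndependent_vsub ℝ p i₀).1 hp
  obtain ⟨g, hg⟩ := ((Finsupp.linearCombination ℝ (fun i : {x // x ≠ i₀} => c i - c i₀)).comp
    hli.repr).exists_extend
  have hg' : ∀ i : {x // x ≠ i₀}, g (p i -ᵥ p i₀) = c i - c i₀ := by
    intro i
    have hmem : (p i -ᵥ p i₀) ∈ Submodule.span ℝ (range fun i : {x // x ≠ i₀} => (p i -ᵥ p i₀ : E)) :=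
      Submodule.subset_span ⟨i, rfl⟩
    have h1 := congrArg (fun f => f ⟨_, hmem⟩) hg
    simp only [LinearMap.comp_apply, Submodule.subtype_apply] at h1
    rw [h1, hli.repr_eq_single i ⟨_, hmem⟩ rfl]
    simp
  refine ⟨g.toAffineMap + AffineMap.const ℝ E (c i₀ - g (p i₀)), fun i => ?_⟩
  by_cases h : i = i₀
  · subst h
    simp
  · have h1 := hg' ⟨i, h⟩
    simp only [vsub_eq_sub, map_sub] at h1
    simp only [AffineMap.coe_add, Pi.add_apply, LinearMap.coe_toAffineMap, AffineMap.const_apply]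
    linarith

theorem TWO_comb {ι : Type*} [Fintype ι] (p : ι → E) (z : E) (hz : z ∈ affineSpan ℝ (range p)) :
    ∃ w : ι → ℝ, ∑ i, w i = 1 ∧ z = ∑ i, w i • p i := by
  obtain ⟨w, hw, h⟩ := eq_affineCombination_of_mem_affineSpan_of_fintype hz
  refine ⟨w, hw, ?_⟩
  rw [h, Finset.affineCombination_eq_linear_combination _ _ _ hw]

theorem TWO_map {F : Type*} [NormedAddCommGroup F] [NormedSpace ℝ F] {ι : Type*} (s : Finset ι)
    (A : E →ᵃ[ℝ] F) (p : ι → E) (w : ι → ℝ) (hw : ∑ i ∈ s, w i = 1) :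
    A (∑ i ∈ s, w i • p i) = ∑ i ∈ s, w i • A (p i) := by
  rw [← Finset.affineCombination_eq_linear_combination _ _ _ hw, Finset.map_affineCombination _ _ _ hw,
    Finset.affineCombination_eq_linear_combination _ _ _ hw]
  rfl

theorem TWO_ind {s : Finset E} (hs : AffineIndependent ℝ (fun x : s => (x : E))) {n : ℕ}
    {p : Fin n → E} (hp : Function.Injective p) (hr : ∀ i, p i ∈ s) : AffineIndependent ℝ p := by
  have h := hs.comp_embedding (⟨fun i => (⟨p i, hr i⟩ : s), fun i j hij => hp (congrArg Subtype.val hij)⟩ : Fin n ↪ s)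
  exact h

theorem TWO_enum {s : Finset E} {n : ℕ} (h : s.card = n) :
    ∃ p : Fin n → E, Function.Injective p ∧ range p = (s : Set E) := by
  refine ⟨fun i => ((s.equivFinOfCardEq h).symm i : E), ?_, ?_⟩
  · intro i j hij
    exact (s.equivFinOfCardEq h).symm.injective (Subtype.ext hij)
  · ext z
    constructor
    · rintro ⟨i, rfl⟩
      exact ((s.equivFinOfCardEq h).symm i).2
    · intro hz
      exact ⟨s.equivFinOfCardEq h ⟨z, hz⟩, by simp⟩

theorem TWO_insert {r a : Finset E} {m : ℕ} (hr : r.card = m) (ha : a.card = m + 1) (h : r ⊆ a) :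
    ∃ u, u ∉ r ∧ (a : Set E) = insert u (r : Set E) := by
  classical
  obtain ⟨u, hu, hau⟩ := Finset.exists_eq_insert_iff.2 ⟨h, by rw [hr, ha]⟩
  exact ⟨u, hu, by rw [← hau, Finset.coe_insert]⟩

/-- equality of affine spans -/
theorem TWO_span {n : ℕ} {p q : Fin (n + 1) → E} (hp : AffineIndependent ℝ p)
    (hq : AffineIndependent ℝ q) (h : ∀ i, q i ∈ affineSpan ℝ (range p)) :
    affineSpan ℝ (range q) = affineSpan ℝ (range p) := by
  apply hq.affineSpan_eq_of_le_of_card_eq_finrank_add_one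
  · rw [affineSpan_le]
    rintro _ ⟨i, rfl⟩
    exact h i
  · rw [direction_affineSpan, hp.finrank_vectorSpan (n := n) (by simp), Fintype.card_fin]

theorem TWO_bary {L : GC E} {d : Finset E} (hd : d ∈ L.faces) : ∃ p, L.IsCarrier p d := by
  have h1 : (0 : ℝ) < d.card := by exact_mod_cast (L.ne d hd).card_pos
  refine ⟨∑ y ∈ d, (1 / (d.card : ℝ)) • y, hd, fun _ => 1 / (d.card : ℝ), fun _ _ => by positivity, ?_, rfl⟩
  rw [Finset.sum_const, nsmul_eq_mul]
  field_simp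

/-- the local picture at a facet `r` of `K` with top simplices `a`, `b` -/
structure TWO_Pic {m : ℕ} (K : GC E) (U : Set E) (h : E → Fin m → ℝ) (r a b : Finset E)
    (u₁ v₁ : E) (ρ : Fin m → E) (A B : E →ᵃ[ℝ] (Fin m → ℝ)) : Prop where
  ha : a ∈ K.faces
  hb : b ∈ K.faces
  hac : a.card = m + 1
  hbc : b.card = m + 1
  hra : r ⊆ a
  hrb : r ⊆ b
  hab : a ≠ b
  uniq : ∀ d ∈ K.faces, d.card = m + 1 → r ⊆ d → d = a ∨ d = b
  ρr : ∀ i, ρ i ∈ convexHull ℝ (r : Set E)
  ρi : AffineIndependent ℝ ρ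
  iu : AffineIndependent ℝ (Fin.cons u₁ ρ : Fin (m + 1) → E)
  iv : AffineIndependent ℝ (Fin.cons v₁ ρ : Fin (m + 1) → E)
  ua : u₁ ∈ convexHull ℝ (a : Set E)
  vb : v₁ ∈ convexHull ℝ (b : Set E)
  Ua : convexHull ℝ (range (Fin.cons u₁ ρ : Fin (m + 1) → E)) ⊆ U
  Ub : convexHull ℝ (range (Fin.cons v₁ ρ : Fin (m + 1) → E)) ⊆ U
  hA : EqOn h A (convexHull ℝ (range (Fin.cons u₁ ρ : Fin (m + 1) → E)))
  hB : EqOn h B (convexHull ℝ (range (Fin.cons v₁ ρ : Fin (m + 1) → E)))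
  neg : sdet A (Fin.cons u₁ ρ : Fin (m + 1) → E) * sdet B (Fin.cons v₁ ρ : Fin (m + 1) → E) < 0

theorem TWO_Pic.symm {m : ℕ} {K : GC E} {U : Set E} {h : E → Fin m → ℝ} {r a b : Finset E}
    {u₁ v₁ : E} {ρ : Fin m → E} {A B : E →ᵃ[ℝ] (Fin m → ℝ)} (P : TWO_Pic K U h r a b u₁ v₁ ρ A B) :
    TWO_Pic K U h r b a v₁ u₁ ρ B A where
  ha := P.hb
  hb := P.ha
  hac := P.hbc
  hbc := P.hac
  hra := P.hrb
  hrb := P.hra
  hab := P.hab.symm
  uniq := fun d hd hdc hrd => (P.uniq d hd hdc hrd).symm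
  ρr := P.ρr
  ρi := P.ρi
  iu := P.iv
  iv := P.iu
  ua := P.vb
  vb := P.ua
  Ua := P.Ub
  Ub := P.Ua
  hA := P.hB
  hB := P.hA
  neg := by rw [mul_comm]; exact P.neg

/-- the functional that vanishes on the facet -/
theorem TWO_func {a r : Finset E} (ha : AffineIndependent ℝ (fun x : a => (x : E))) {u : E}
    (hu : u ∉ r) (hau : (a : Set E) = insert u (r : Set E)) :
    ∃ F : E →ᵃ[ℝ] ℝ, (∀ x ∈ r, F x = 0) ∧ (∀ z ∈ convexHull ℝ (r : Set E), F z = 0) ∧
      ∀ z ∈ convexHull ℝ (a : Set E), 0 ≤ F z ∧ (F z = 0 → z ∈ convexHull ℝ (r : Set E)) := by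
  classical
  have hau' : a = insert u r := by
    apply Finset.coe_injective
    rw [hau, Finset.coe_insert]
  obtain ⟨F, hF⟩ := TWO_fun (fun x : a => (x : E)) ha (fun x => if (x : E) = u then 1 else 0)
  have hF0 : ∀ x ∈ r, F x = 0 := by
    intro x hx
    have hxa : x ∈ a := by rw [hau']; exact Finset.mem_insert_of_mem hx
    have h1 := hF ⟨x, hxa⟩
    have hne : x ≠ u := fun h => hu (h ▸ hx)
    simpa [hne] using h1
  have hFu : F u = 1 := by
    have hua : u ∈ a := by rw [hau']; exact Finset.mem_insert_self u r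
    have h1 := hF ⟨u, hua⟩
    simpa using h1
  refine ⟨F, hF0, ?_, ?_⟩
  · intro z hz
    obtain ⟨w, hw0, hw1, hwz⟩ := Finset.mem_convexHull'.1 hz
    rw [← hwz, TWO_map r F (fun x => x) w hw1]
    refine Finset.sum_eq_zero fun x hx => ?_
    rw [hF0 x hx, smul_zero]
  · intro z hz
    obtain ⟨w, hw0, hw1, hwz⟩ := Finset.mem_convexHull'.1 hz
    have h1 : F z = w u := by
      rw [← hwz, TWO_map a F (fun x => x) w hw1, hau', Finset.sum_insert hu, hFu]
      rw [Finset.sum_eq_zero (fun x hx => by rw [hF0 x hx, smul_zero])]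
      simp
    refine ⟨?_, fun h0 => ?_⟩
    · rw [h1]
      exact hw0 u (by rw [hau']; exact Finset.mem_insert_self u r)
    · rw [h1] at h0
      rw [hau', Finset.sum_insert hu, h0, zero_add] at hw1
      rw [hau', Finset.sum_insert hu, h0, zero_smul, zero_add] at hwz
      refine Finset.mem_convexHull'.2 ⟨w, fun x hx => hw0 x ?_, hw1, hwz⟩
      rw [hau']
      exact Finset.mem_insert_of_mem hx

/-- the two top simplices of `L` at `r₁` cannot lie in the same top simplex of `K` -/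
theorem TWO_ne {m : ℕ} (L : GC E) {a r a₁ b₁ r₁ : Finset E}
    (hai : AffineIndependent ℝ (fun x : a => (x : E))) (hac : a.card = m + 1) (hrc : r.card = m)
    (hra : r ⊆ a) (ha₁ : a₁ ∈ L.faces) (hb₁ : b₁ ∈ L.faces) (hr₁ : r₁.Nonempty)
    (hab : a₁ ≠ b₁) (hr₁c : r₁.card = m) (ha₁c : a₁.card = m + 1) (hb₁c : b₁.card = m + 1)
    (hra₁ : r₁ ⊆ a₁) (hrb₁ : r₁ ⊆ b₁)
    (hr₁r : convexHull ℝ (r₁ : Set E) ⊆ convexHull ℝ (r : Set E))
    (ha₁a : convexHull ℝ (a₁ : Set E) ⊆ convexHull ℝ (a : Set E))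
    (hb₁a : convexHull ℝ (b₁ : Set E) ⊆ convexHull ℝ (a : Set E)) : False := by
  classical
  obtain ⟨u, hu, hau⟩ := TWO_insert hrc hac hra
  obtain ⟨u₁, hu₁, hau₁⟩ := TWO_insert hr₁c ha₁c hra₁
  obtain ⟨v₁, hv₁, hbv₁⟩ := TWO_insert hr₁c hb₁c hrb₁
  obtain ⟨F, hF0, hFr, hFa⟩ := TWO_func hai hu hau
  have hpos : ∀ (d : Finset E) (z : E), d ∈ L.faces → d.card = m + 1 → z ∉ r₁ →
      (d : Set E) = insert z (r₁ : Set E) → convexHull ℝ (d : Set E) ⊆ convexHull ℝ (a : Set E) →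
      0 < F z := by
    intro d z hd hdc hz hdz hda
    have hzd : z ∈ convexHull ℝ (d : Set E) := subset_convexHull ℝ _ (by rw [hdz]; exact mem_insert z _)
    obtain ⟨h1, h2⟩ := hFa z (hda hzd)
    rcases h1.lt_or_eq with h3 | h3
    · exact h3
    · exfalso
      have h4 := h2 h3.symm
      have h5 : convexHull ℝ (d : Set E) ⊆ convexHull ℝ (r : Set E) := by
        refine convexHull_min ?_ (convex_convexHull ℝ _)
        rw [hdz]
        refine insert_subset h4 ?_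
        exact (subset_convexHull ℝ _).trans hr₁r
      have h6 := card_le_of_hull_subset (L.affineIndependent hd) h5
      omega
  have hFu := hpos a₁ u₁ ha₁ ha₁c hu₁ hau₁ ha₁a
  have hFv := hpos b₁ v₁ hb₁ hb₁c hv₁ hbv₁ hb₁a
  -- enumerate
  obtain ⟨p, hp, hpa⟩ := TWO_enum hac
  obtain ⟨q, hq, hqb⟩ := TWO_enum hb₁c
  have hpi : AffineIndependent ℝ p := TWO_ind hai hp fun i => by
    have : p i ∈ (a : Set E) := by rw [← hpa]; exact mem_range_self i
    exact this
  have hqi : AffineIndependent ℝ q := TWO_ind (L.affineIndependent hb₁) hq fun i => by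
    have : q i ∈ (b₁ : Set E) := by rw [← hqb]; exact mem_range_self i
    exact this
  have hsub : ∀ i, q i ∈ affineSpan ℝ (range p) := by
    intro i
    have h1 : q i ∈ convexHull ℝ (b₁ : Set E) := subset_convexHull ℝ _ (by rw [← hqb]; exact mem_range_self i)
    have h2 := hb₁a h1
    rw [← hpa] at h2
    exact convexHull_subset_affineSpan _ h2
  have hspan := TWO_span hpi hqi hsub
  have hu₁s : u₁ ∈ affineSpan ℝ (range q) := by
    rw [hspan, hpa]
    apply convexHull_subset_affineSpan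
    apply ha₁a
    exact subset_convexHull ℝ _ (by rw [hau₁]; exact mem_insert u₁ _)
  rw [hqb] at hu₁s
  have hu₁s' : u₁ ∈ affineSpan ℝ (range (fun x : b₁ => (x : E))) := by
    rw [Subtype.range_coe_subtype]
    exact hu₁s
  obtain ⟨w, hw1, hwu⟩ := TWO_comb _ _ hu₁s'
  obtain ⟨W, hW⟩ : ∃ W : E → ℝ, ∀ x : b₁, w x = W x :=
    ⟨fun x => if h : x ∈ b₁ then w ⟨x, h⟩ else 0, fun x => by simp⟩
  have hb₁' : b₁ = insert v₁ r₁ := by
    apply Finset.coe_injective
    rw [hbv₁, Finset.coe_insert]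
  have hw1' : W v₁ + ∑ x ∈ r₁, W x = 1 := by
    rw [← Finset.sum_insert hv₁, ← hb₁', ← hw1, ← Finset.sum_coe_sort b₁ W]
    exact Finset.sum_congr rfl fun x _ => (hW x).symm
  have hwu' : u₁ = W v₁ • v₁ + ∑ x ∈ r₁, W x • x := by
    rw [← Finset.sum_insert (f := fun x => W x • x) hv₁, ← hb₁']
    rw [← Finset.sum_coe_sort b₁ (fun x => W x • x)]
    conv_lhs => rw [hwu]
    exact Finset.sum_congr rfl fun x _ => by rw [hW x]
  have hFeq : F u₁ = W v₁ * F v₁ := by
    have h1 : u₁ = ∑ x ∈ b₁, W x • x := by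
      rw [hb₁', Finset.sum_insert hv₁]
      exact hwu'
    have h2 : ∑ x ∈ b₁, W x = 1 := by
      rw [hb₁', Finset.sum_insert hv₁]
      exact hw1'
    rw [h1, TWO_map b₁ F (fun x => x) W h2, hb₁', Finset.sum_insert hv₁]
    rw [Finset.sum_eq_zero (fun x hx => by
      rw [hFr x (hr₁r (subset_convexHull ℝ _ hx)), smul_zero])]
    simp
  have hα : 0 < W v₁ := by
    by_contra hcon
    have h1 : W v₁ * F v₁ ≤ 0 := mul_nonpos_of_nonpos_of_nonneg (not_lt.1 hcon) hFv.le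
    linarith
  exact L.no_same_side ha₁ hb₁ hab hr₁ hau₁ hbv₁ hu₁ hv₁ hα hw1' hwu'

theorem TWO_exists_pic {m : ℕ} {M : Set E} (hM : IsClosedPLManifold m M) (K : GC E)
    (hK : K.space = M) {r : Finset E} (hr : r ∈ K.faces) (hrc : r.card = m) {U : Set E}
    {h : E → Fin m → ℝ} {x : E} (hx : K.IsCarrier x r) (hc : ChartAt m M U h x) :
    ∃ (a b : Finset E) (u₁ v₁ : E) (ρ : Fin m → E) (A B : E →ᵃ[ℝ] (Fin m → ℝ)),
      TWO_Pic K U h r a b u₁ v₁ ρ A B := by
  classical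
  obtain ⟨⟨hUM, hPL, hinj, himg⟩, hxU, hnhd, hint⟩ := hc
  obtain ⟨Y, hY1, hY2⟩ := K.exists_hulls
  obtain ⟨L, L', hLs, hLY, hLaff, hL's, hL'f, hL'c, hL'h⟩ :=
    chart_refine ⟨hUM, hPL, hinj, himg⟩ Y hY2
  have hLad : ∀ s ∈ K.faces, L.Adapted (convexHull ℝ (s : Set E)) :=
    fun s hs => hLY _ ((hY1 _).2 ⟨s, hs, rfl⟩)
  have hcont : ContinuousOn h U := hPL.continuousOn
  obtain ⟨O, hO, hxO, hOM, hOint⟩ : ∃ O : Set E, IsOpen O ∧ x ∈ O ∧ O ∩ M ⊆ U ∧
      ∀ y ∈ O ∩ U, h y ∈ interior (cube m) := by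
    have h1 : h ⁻¹' interior (cube m) ∈ 𝓝[U] x :=
      (hcont x hxU).preimage_mem_nhdsWithin (isOpen_interior.mem_nhds (interior_cube_mem hint))
    obtain ⟨O1, hO1, hx1, hs1⟩ := mem_nhdsWithin.1 hnhd
    obtain ⟨O2, hO2, hx2, hs2⟩ := mem_nhdsWithin.1 h1
    exact ⟨O1 ∩ O2, hO1.inter hO2, ⟨hx1, hx2⟩, fun y hy => hs1 ⟨hy.1.1, hy.2⟩,
      fun y hy => hs2 ⟨hy.1.2, hy.2⟩⟩
  have hKM : ∀ s ∈ K.faces, convexHull ℝ (s : Set E) ⊆ M := by
    rw [← hK]
    exact fun s hs => Set.subset_biUnion_of_mem (u := fun s : Finset E => convexHull ℝ (s : Set E)) hs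
  obtain ⟨r₁, hr₁, hr₁c, hr₁r, y, hyO, hyL, hyK⟩ := GC.exists_face_dim hr (hLad r hr) hO hxO
    hx.mem_hull (by rw [hLs]; exact fun z hz => hOM ⟨hz.2, hKM r hr hz.1⟩)
  rw [hrc] at hr₁c
  have hLU : ∀ s ∈ L.faces, convexHull ℝ (s : Set E) ⊆ U := by
    rw [← hLs]
    exact fun s hs => Set.subset_biUnion_of_mem (u := fun s : Finset E => convexHull ℝ (s : Set E)) hs
  have hLU' : ∀ s ∈ L.faces, (s : Set E) ⊆ U := fun s hs => (subset_convexHull ℝ _).trans (hLU s hs)
  have hyU : y ∈ U := hLU r₁ hr₁ hyL.mem_hull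
  have himgL : ∀ s ∈ L.faces, s.image h ∈ L'.faces := fun s hs =>
    (hL'f _).2 ⟨s, hs, by rw [Finset.coe_image]⟩
  have hcard : ∀ s ∈ L.faces, (s.image h).card = s.card := fun s hs =>
    Finset.card_image_of_injOn (hinj.mono (hLU' s hs))
  have hyL' : L'.IsCarrier (h y) (r₁.image h) := hL'c y r₁ hyL _ (by rw [Finset.coe_image])
  obtain ⟨a', ha', b', hb', hab', hac', hbc', hra', hrb', huniq'⟩ :=
    L'.two_of_interior (himgL r₁ hr₁) (by rw [hcard r₁ hr₁, hr₁c]) hyL'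
      (by rw [hL's]; exact hOint y ⟨hyO, hyU⟩)
  have pull : ∀ d' ∈ L'.faces, d'.card = m + 1 → r₁.image h ⊆ d' →
      ∃ d ∈ L.faces, d.image h = d' ∧ d.card = m + 1 ∧ r₁ ⊆ d := by
    intro d' hd' hdc' hrd'
    obtain ⟨d, hd, hdd'⟩ := (hL'f d').1 hd'
    have h1 : d.image h = d' := by
      apply Finset.coe_injective
      rw [Finset.coe_image, hdd']
    refine ⟨d, hd, h1, ?_, ?_⟩
    · rw [← hcard d hd, h1, hdc']
    · intro z hz
      have h2 : h z ∈ d.image h := by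
        rw [h1]
        exact hrd' (Finset.mem_image_of_mem h hz)
      obtain ⟨z', hz', hzz'⟩ := Finset.mem_image.1 h2
      rw [← hinj (hLU' d hd hz') (hLU' r₁ hr₁ hz) hzz']
      exact hz'
  obtain ⟨a₁, ha₁, rfl, ha₁c, hra₁⟩ := pull a' ha' hac' hra'
  obtain ⟨b₁, hb₁, rfl, hb₁c, hrb₁⟩ := pull b' hb' hbc' hrb'
  have hab₁ : a₁ ≠ b₁ := fun h => hab' (by rw [h])
  have up : ∀ d ∈ L.faces, d.card = m + 1 → r₁ ⊆ d →
      ∃ e ∈ K.faces, e.card = m + 1 ∧ r ⊆ e ∧ convexHull ℝ (d : Set E) ⊆ convexHull ℝ (e : Set E) ∧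
        ∀ z, L.IsCarrier z d → K.IsCarrier z e := by
    intro d hd hdc hrd
    obtain ⟨p, hp⟩ := TWO_bary hd
    have hpM : p ∈ K.space := by
      rw [hK]
      exact hUM (hLU d hd hp.mem_hull)
    obtain ⟨e, he⟩ := GC.exists_carrier' hpM
    have hde : convexHull ℝ (d : Set E) ⊆ convexHull ℝ (e : Set E) :=
      (GC.carrier_refine hLad hp hp he).2
    have hec : e.card = m + 1 := by
      apply le_antisymm ((GC.pure hM K hK).2 e he.1)
      rw [← hdc]
      exact card_le_of_hull_subset (L.affineIndependent hd) hde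
    refine ⟨e, he.1, hec, ?_, hde, fun z hz => (GC.carrier_refine hLad hp hz he).1⟩
    have hye : y ∈ convexHull ℝ (e : Set E) :=
      hde (convexHull_mono (by exact_mod_cast hrd) hyL.mem_hull)
    exact GC.carrier_sub he.1 hye hyK
  obtain ⟨a, ha, hac, hra, haa, hca⟩ := up a₁ ha₁ ha₁c hra₁
  obtain ⟨b, hb, hbc, hrb, hbb, hcb⟩ := up b₁ hb₁ hb₁c hrb₁
  have hr₁ne : r₁.Nonempty := L.ne r₁ hr₁
  have hab : a ≠ b := by
    intro hab
    subst hab
    exact TWO_ne L (K.affineIndependent ha) hac hrc hra ha₁ hb₁ hr₁ne hab₁ hr₁c ha₁c hb₁c hra₁ hrb₁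
      hr₁r haa hbb
  have huniq : ∀ d ∈ K.faces, d.card = m + 1 → r ⊆ d → d = a ∨ d = b := by
    intro d hd hdc hrd
    obtain ⟨V, hV, hVs⟩ := GC.exists_nhd_star hyL
    have hyd : y ∈ convexHull ℝ (d : Set E) :=
      convexHull_mono (by exact_mod_cast hrd) hyK.mem_hull
    obtain ⟨d₁, hd₁, hd₁c, hd₁d, z, hzO, hzL, hzK⟩ := GC.exists_face_dim (L := L) hd (hLad d hd)
      (O := O ∩ interior V) (hO.inter isOpen_interior) (x := y)
      ⟨hyO, mem_interior_iff_mem_nhds.2 hV⟩ hyd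
      (by rw [hLs]; exact fun z hz => hOM ⟨hz.2.1, hKM d hd hz.1⟩)
    have hzU : z ∈ L.space := by
      rw [hLs]
      exact hLU d₁ hd₁ hzL.mem_hull
    have hrd₁ : r₁ ⊆ d₁ := hVs z ⟨interior_subset hzO.2, hzU⟩ d₁ hzL
    have hsub : r₁.image h ⊆ d₁.image h := Finset.image_subset_image hrd₁
    have hinjL : ∀ c ∈ L.faces, c.image h = d₁.image h → c = d₁ := by
      intro c hcL hcd
      apply Finset.coe_injective
      have h1 : h '' (c : Set E) = h '' (d₁ : Set E) := by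
        rw [← Finset.coe_image, hcd, Finset.coe_image]
      exact (hinj.image_eq_image_iff (hLU' c hcL) (hLU' d₁ hd₁)).1 h1
    rcases huniq' (d₁.image h) (himgL d₁ hd₁) (by rw [hcard d₁ hd₁, hd₁c, hdc]) hsub with h1 | h1
    · left
      have h2 := hinjL a₁ ha₁ h1.symm
      rw [← h2] at hzL
      exact GC.carrier_unique hzK (hca z hzL)
    · right
      have h2 := hinjL b₁ hb₁ h1.symm
      rw [← h2] at hzL
      exact GC.carrier_unique hzK (hcb z hzL)
  obtain ⟨u₁, hu₁, hau₁⟩ := TWO_insert hr₁c ha₁c hra₁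
  obtain ⟨v₁, hv₁, hbv₁⟩ := TWO_insert hr₁c hb₁c hrb₁
  obtain ⟨ρ, hρ, hρr⟩ := TWO_enum hr₁c
  have hρm : ∀ i, ρ i ∈ r₁ := by
    intro i
    have h1 : ρ i ∈ (r₁ : Set E) := by
      rw [← hρr]
      exact mem_range_self i
    exact h1
  have hru : range (Fin.cons u₁ ρ : Fin (m + 1) → E) = (a₁ : Set E) := by
    rw [Fin.range_cons, hρr, hau₁]
  have hrv : range (Fin.cons v₁ ρ : Fin (m + 1) → E) = (b₁ : Set E) := by
    rw [Fin.range_cons, hρr, hbv₁]
  have hju : Function.Injective (Fin.cons u₁ ρ : Fin (m + 1) → E) := by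
    rw [Fin.cons_injective_iff]
    exact ⟨by rw [hρr]; exact hu₁, hρ⟩
  have hjv : Function.Injective (Fin.cons v₁ ρ : Fin (m + 1) → E) := by
    rw [Fin.cons_injective_iff]
    exact ⟨by rw [hρr]; exact hv₁, hρ⟩
  have hmu : ∀ i, (Fin.cons u₁ ρ : Fin (m + 1) → E) i ∈ a₁ := by
    intro i
    have h1 : (Fin.cons u₁ ρ : Fin (m + 1) → E) i ∈ (a₁ : Set E) := by
      rw [← hru]
      exact mem_range_self i
    exact h1
  have hmv : ∀ i, (Fin.cons v₁ ρ : Fin (m + 1) → E) i ∈ b₁ := by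
    intro i
    have h1 : (Fin.cons v₁ ρ : Fin (m + 1) → E) i ∈ (b₁ : Set E) := by
      rw [← hrv]
      exact mem_range_self i
    exact h1
  obtain ⟨A, hA⟩ := hLaff a₁ ha₁
  obtain ⟨B, hB⟩ := hLaff b₁ hb₁
  have hu₁a : u₁ ∈ a₁ := by
    have := hmu 0
    rwa [Fin.cons_zero] at this
  have hv₁b : v₁ ∈ b₁ := by
    have := hmv 0
    rwa [Fin.cons_zero] at this
  have hopp := L'.opposite (himgL a₁ ha₁) (himgL b₁ hb₁) (by rw [hcard a₁ ha₁, ha₁c])
    (by rw [hcard b₁ hb₁, hb₁c]) hab' (fun i => h (ρ i))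
    (fun i j hij => hρ (hinj (hLU' r₁ hr₁ (hρm i)) (hLU' r₁ hr₁ (hρm j)) hij))
    (fun i => Finset.mem_image_of_mem h (hra₁ (hρm i)))
    (fun i => Finset.mem_image_of_mem h (hrb₁ (hρm i)))
    (u := h u₁) (v := h v₁) (Finset.mem_image_of_mem h hu₁a)
    (by
      rintro ⟨i, hi⟩
      have h1 := hinj (hLU' r₁ hr₁ (hρm i)) (hLU' a₁ ha₁ hu₁a) hi
      exact hu₁ (h1 ▸ hρm i))
    (Finset.mem_image_of_mem h hv₁b)
    (by
      rintro ⟨i, hi⟩
      have h1 := hinj (hLU' r₁ hr₁ (hρm i)) (hLU' b₁ hb₁ hv₁b) hi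
      exact hv₁ (h1 ▸ hρm i))
  have hsA : sdet A (Fin.cons u₁ ρ : Fin (m + 1) → E) =
      sdet (fun x : Fin m → ℝ => x) (Fin.cons (h u₁) (fun i => h (ρ i)) : Fin (m + 1) → (Fin m → ℝ)) := by
    rw [sdet_congr (h' := h) (fun i => (hA (subset_convexHull ℝ _ (hmu i))).symm), sdet_comp]
    refine congrArg _ ?_
    funext i
    refine Fin.cases ?_ (fun j => ?_) i
    · simp
    · simp
  have hsB : sdet B (Fin.cons v₁ ρ : Fin (m + 1) → E) =
      sdet (fun x : Fin m → ℝ => x) (Fin.cons (h v₁) (fun i => h (ρ i)) : Fin (m + 1) → (Fin m → ℝ)) := by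
    rw [sdet_congr (h' := h) (fun i => (hB (subset_convexHull ℝ _ (hmv i))).symm), sdet_comp]
    refine congrArg _ ?_
    funext i
    refine Fin.cases ?_ (fun j => ?_) i
    · simp
    · simp
  refine ⟨a, b, u₁, v₁, ρ, A, B, ?_⟩
  exact
    { ha := ha
      hb := hb
      hac := hac
      hbc := hbc
      hra := hra
      hrb := hrb
      hab := hab
      uniq := huniq
      ρr := fun i => hr₁r (subset_convexHull ℝ _ (hρm i))
      ρi := TWO_ind (L.affineIndependent hr₁) hρ hρm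
      iu := TWO_ind (L.affineIndependent ha₁) hju hmu
      iv := TWO_ind (L.affineIndependent hb₁) hjv hmv
      ua := haa (subset_convexHull ℝ _ hu₁a)
      vb := hbb (subset_convexHull ℝ _ hv₁b)
      Ua := by rw [hru]; exact hLU a₁ ha₁
      Ub := by rw [hrv]; exact hLU b₁ hb₁
      hA := by rw [hru]; exact hA
      hB := by rw [hrv]; exact hB
      neg := by rw [hsA, hsB]; exact hopp }

theorem TWO_open {n : ℕ} {p q : Fin (n + 1) → E} (hp : AffineIndependent ℝ p)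
    (hq : AffineIndependent ℝ q) (hqp : ∀ i, q i ∈ convexHull ℝ (range p)) :
    ∃ O : Set E, IsOpen O ∧ (O ∩ convexHull ℝ (range p)).Nonempty ∧
      O ∩ convexHull ℝ (range p) ⊆ convexHull ℝ (range q) := by
  classical
  have hF : ∀ i : Fin (n + 1), ∃ F : E →ᵃ[ℝ] ℝ, ∀ j, F (q j) = if i = j then 1 else 0 :=
    fun i => TWO_fun q hq fun j => if i = j then 1 else 0
  choose F hF using hF
  have hval : ∀ (w : Fin (n + 1) → ℝ), ∑ j, w j = 1 → ∀ i, F i (∑ j, w j • q j) = w i := by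
    intro w hw i
    rw [TWO_map _ (F i) q w hw]
    simp [hF]
  refine ⟨{y | ∀ i, 0 < F i y}, ?_, ?_, ?_⟩
  · have h1 : {y : E | ∀ i, 0 < F i y} = ⋂ i, {y | 0 < F i y} := by
      ext y
      simp
    rw [h1]
    exact isOpen_iInter_of_finite fun i =>
      isOpen_lt continuous_const (F i).continuous_of_finiteDimensional
  · have h1 : ∑ _j : Fin (n + 1), (1 / ((n : ℝ) + 1)) = 1 := by
      rw [Finset.sum_const, Finset.card_univ, Fintype.card_fin, nsmul_eq_mul]
      push_cast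
      field_simp
    refine ⟨∑ j, (1 / ((n : ℝ) + 1)) • q j, ?_, ?_⟩
    · intro i
      rw [hval (fun _ => 1 / ((n : ℝ) + 1)) h1 i]
      positivity
    · exact (convex_convexHull ℝ _).sum_mem (fun i _ => by positivity) h1 (fun i _ => hqp i)
  · rintro y ⟨hy, hyp⟩
    have hspan := TWO_span hp hq fun i => convexHull_subset_affineSpan _ (hqp i)
    have h1 : y ∈ affineSpan ℝ (range q) := by
      rw [hspan]
      exact convexHull_subset_affineSpan _ hyp
    obtain ⟨w, hw, rfl⟩ := TWO_comb q y h1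
    refine (convex_convexHull ℝ _).sum_mem (fun i _ => ?_) hw
      (fun i _ => subset_convexHull ℝ _ (mem_range_self i))
    have h2 := hy i
    rw [hval w hw i] at h2
    exact h2.le

theorem TWO_sdet {m : ℕ} (A : E →ᵃ[ℝ] (Fin m → ℝ)) (u u₁ : E) (t ρ : Fin m → E)
    (w : Fin (m + 1) → ℝ) (hw : ∑ k, w k = 1)
    (hu₁ : u₁ = ∑ k, w k • (Fin.cons u t : Fin (m + 1) → E) k) (W : Matrix (Fin m) (Fin m) ℝ)
    (hW : ∀ i, ∑ j, W i j = 1) (hρ : ∀ i, ρ i = ∑ j, W i j • t j) :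
    sdet A (Fin.cons u₁ ρ : Fin (m + 1) → E) =
      w 0 * W.det * sdet A (Fin.cons u t : Fin (m + 1) → E) := by
  have h1 := sdet_comb A (Fin.cons u t : Fin (m + 1) → E) (Fin.cons u₁ ρ : Fin (m + 1) → E)
    (Matrix.of (Fin.cons w (fun i => (Fin.cons 0 (W i) : Fin (m + 1) → ℝ)) :
      Fin (m + 1) → Fin (m + 1) → ℝ)) ?_ ?_
  · rw [h1]
    congr 1
    rw [Matrix.det_succ_column_zero, Fin.sum_univ_succ]
    rw [Finset.sum_eq_zero (fun i _ => by simp)]
    have h2 : (Matrix.of (Fin.cons w (fun i => (Fin.cons 0 (W i) : Fin (m + 1) → ℝ)) :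
        Fin (m + 1) → Fin (m + 1) → ℝ)).submatrix (Fin.succAbove 0) Fin.succ = W := by
      ext i j
      simp
    rw [h2]
    simp
  · intro i
    refine Fin.cases ?_ (fun j => ?_) i
    · simpa using hw
    · rw [Fin.sum_univ_succ]
      simpa using hW j
  · intro i
    refine Fin.cases ?_ (fun j => ?_) i
    · simpa using hu₁
    · rw [Fin.sum_univ_succ]
      simpa using hρ j

theorem TWO_weights {n : ℕ} {p : Fin n → E} (hp : Function.Injective p) {s : Finset E}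
    (hs : range p = (s : Set E)) {z : E} (hz : z ∈ convexHull ℝ (s : Set E)) :
    ∃ w : Fin n → ℝ, (∀ i, 0 ≤ w i) ∧ ∑ i, w i = 1 ∧ z = ∑ i, w i • p i := by
  classical
  have hs' : s = Finset.univ.image p := by
    apply Finset.coe_injective
    rw [← hs, Finset.coe_image, Finset.coe_univ, image_univ]
  obtain ⟨w, hw0, hw1, hwz⟩ := Finset.mem_convexHull'.1 hz
  rw [hs', Finset.sum_image (fun i _ j _ h => hp h)] at hw1 hwz
  refine ⟨fun i => w (p i), fun i => hw0 _ ?_, hw1, hwz.symm⟩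
  rw [hs']
  exact Finset.mem_image_of_mem p (Finset.mem_univ i)

/-- The local statement on sides, for given enumerations of the simplices. -/
theorem TWO_side {m : ℕ} (hm : 1 ≤ m) {K : GC E} {U : Set E} {h : E → Fin m → ℝ}
    {r a b : Finset E} {u₁ v₁ : E} {ρ : Fin m → E} {A B : E →ᵃ[ℝ] (Fin m → ℝ)}
    (P : TWO_Pic K U h r a b u₁ v₁ ρ A B) {t : Fin m → E} {u v : E}
    (hu : Function.Injective (Fin.cons u t : Fin (m + 1) → E))
    (hv : Function.Injective (Fin.cons v t : Fin (m + 1) → E)) (hr : range t = (r : Set E))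
    (ha : range (Fin.cons u t : Fin (m + 1) → E) = (a : Set E))
    (hb : range (Fin.cons v t : Fin (m + 1) → E) = (b : Set E)) :
    (∀ i, A (t i) = B (t i)) ∧
      (∃ O : Set E, IsOpen O ∧
        (O ∩ convexHull ℝ (range (Fin.cons u t : Fin (m + 1) → E))).Nonempty ∧
        O ∩ convexHull ℝ (range (Fin.cons u t : Fin (m + 1) → E)) ⊆ U ∧
        EqOn h A (O ∩ convexHull ℝ (range (Fin.cons u t : Fin (m + 1) → E)))) ∧
      (∃ O : Set E, IsOpen O ∧
        (O ∩ convexHull ℝ (range (Fin.cons v t : Fin (m + 1) → E))).Nonempty ∧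
        O ∩ convexHull ℝ (range (Fin.cons v t : Fin (m + 1) → E)) ⊆ U ∧
        EqOn h B (O ∩ convexHull ℝ (range (Fin.cons v t : Fin (m + 1) → E)))) ∧
      sdet A (Fin.cons u t : Fin (m + 1) → E) * sdet B (Fin.cons v t : Fin (m + 1) → E) < 0 := by
  classical
  have ht : Function.Injective t := (Fin.cons_injective_iff.1 hu).2
  have hai := K.affineIndependent P.ha
  have hbi := K.affineIndependent P.hb
  have hmem : ∀ {n : ℕ} {p : Fin n → E} {s : Finset E}, range p = (s : Set E) → ∀ i, p i ∈ s := by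
    intro n p s hps i
    have h1 : p i ∈ (s : Set E) := by
      rw [← hps]
      exact mem_range_self i
    exact h1
  have hui : AffineIndependent ℝ (Fin.cons u t : Fin (m + 1) → E) := TWO_ind hai hu (hmem ha)
  have hvi : AffineIndependent ℝ (Fin.cons v t : Fin (m + 1) → E) := TWO_ind hbi hv (hmem hb)
  have hti : AffineIndependent ℝ t := TWO_ind hai ht fun i => P.hra (hmem hr i)
  have hrU : range ρ ⊆ convexHull ℝ (range t) := by
    rintro _ ⟨i, rfl⟩
    rw [hr]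
    exact P.ρr i
  have hra : convexHull ℝ (r : Set E) ⊆ convexHull ℝ (a : Set E) :=
    convexHull_mono (by exact_mod_cast P.hra)
  have hrb : convexHull ℝ (r : Set E) ⊆ convexHull ℝ (b : Set E) :=
    convexHull_mono (by exact_mod_cast P.hrb)
  refine ⟨?_, ?_, ?_, ?_⟩
  · intro i
    obtain ⟨k, rfl⟩ : ∃ k, m = k + 1 := ⟨m - 1, by omega⟩
    have hspan := TWO_span hti P.ρi fun i => convexHull_subset_affineSpan _ (hrU (mem_range_self i))
    have h1 : t i ∈ affineSpan ℝ (range ρ) := by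
      rw [hspan]
      exact subset_affineSpan ℝ _ (mem_range_self i)
    obtain ⟨w, hw, hwt⟩ := TWO_comb ρ (t i) h1
    rw [hwt, TWO_map _ A ρ w hw, TWO_map _ B ρ w hw]
    refine Finset.sum_congr rfl fun j _ => ?_
    have h2 : h (ρ j) = A (ρ j) := P.hA (subset_convexHull ℝ _ (by
      rw [Fin.range_cons]
      exact mem_insert_of_mem _ (mem_range_self j)))
    have h3 : h (ρ j) = B (ρ j) := P.hB (subset_convexHull ℝ _ (by
      rw [Fin.range_cons]
      exact mem_insert_of_mem _ (mem_range_self j)))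
    rw [← h2, ← h3]
  · obtain ⟨O, hO, hne, hsub⟩ := TWO_open hui P.iu (by
      intro i
      rw [ha]
      refine Fin.cases ?_ (fun j => ?_) i
      · rw [Fin.cons_zero]
        exact P.ua
      · rw [Fin.cons_succ]
        exact hra (P.ρr j))
    exact ⟨O, hO, hne, hsub.trans P.Ua, P.hA.mono hsub⟩
  · obtain ⟨O, hO, hne, hsub⟩ := TWO_open hvi P.iv (by
      intro i
      rw [hb]
      refine Fin.cases ?_ (fun j => ?_) i
      · rw [Fin.cons_zero]
        exact P.vb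
      · rw [Fin.cons_succ]
        exact hrb (P.ρr j))
    exact ⟨O, hO, hne, hsub.trans P.Ub, P.hB.mono hsub⟩
  · obtain ⟨w, hw0, hw1, hwu⟩ := TWO_weights hu ha P.ua
    obtain ⟨w', hw0', hw1', hwu'⟩ := TWO_weights hv hb P.vb
    have hρw : ∀ i, ∃ W : Fin m → ℝ, (∀ j, 0 ≤ W j) ∧ ∑ j, W j = 1 ∧ ρ i = ∑ j, W j • t j :=
      fun i => TWO_weights ht hr (P.ρr i)
    choose W hW0 hW1 hWρ using hρw
    have e1 := TWO_sdet A u u₁ t ρ w hw1 hwu (Matrix.of W) hW1 hWρ
    have e2 := TWO_sdet B v v₁ t ρ w' hw1' hwu' (Matrix.of W) hW1 hWρ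
    have hneg := P.neg
    rw [e1, e2] at hneg
    by_contra hcon
    have h1 : 0 ≤ w 0 * w' 0 * (Matrix.of W).det ^ 2 *
        (sdet A (Fin.cons u t : Fin (m + 1) → E) * sdet B (Fin.cons v t : Fin (m + 1) → E)) :=
      mul_nonneg (mul_nonneg (mul_nonneg (hw0 0) (hw0' 0)) (sq_nonneg _)) (not_lt.1 hcon)
    have h2 : w 0 * w' 0 * (Matrix.of W).det ^ 2 *
        (sdet A (Fin.cons u t : Fin (m + 1) → E) * sdet B (Fin.cons v t : Fin (m + 1) → E)) =
        w 0 * (Matrix.of W).det * sdet A (Fin.cons u t : Fin (m + 1) → E) *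
          (w' 0 * (Matrix.of W).det * sdet B (Fin.cons v t : Fin (m + 1) → E)) := by ring
    linarith

theorem GC.two_tops {m : ℕ} {M : Set E} (hM : IsClosedPLManifold m M) (K : GC E)
    (hK : K.space = M) {r : Finset E} (hr : r ∈ K.faces) (hrc : r.card = m) :
    ∃ a ∈ K.faces, ∃ b ∈ K.faces, a ≠ b ∧ a.card = m + 1 ∧ b.card = m + 1 ∧ r ⊆ a ∧ r ⊆ b ∧
      ∀ d ∈ K.faces, d.card = m + 1 → r ⊆ d → d = a ∨ d = b := by
  obtain ⟨x, hx⟩ := TWO_bary hr
  have hxM : x ∈ M := by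
    rw [← hK]
    exact Set.mem_biUnion hr hx.mem_hull
  obtain ⟨U, h, hc⟩ := hM.2 x hxM
  obtain ⟨a, b, u₁, v₁, ρ, A, B, P⟩ := TWO_exists_pic hM K hK hr hrc hx hc
  exact ⟨a, P.ha, b, P.hb, P.hab, P.hac, P.hbc, P.hra, P.hrb, P.uniq⟩

/-- For an oriented pair of top simplices `(u, t)`, `(v, t)` sharing the facet `t` and a chart at the
barycentre `x` of the facet: there are points `p ∈ convexHull (u, t)`, `q ∈ convexHull (v, t)` and affine
germs `B`, `B'` of `h` (near `p` resp. `q`), which agree on `t`, such that `h p = B p` and `h q = B' q`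
are on opposite sides of the hyperplane through `B ∘ t`. -/
theorem GC.top_sides {m : ℕ} {M : Set E} (hM : IsClosedPLManifold m M) (K : GC E)
    (hK : K.space = M) (hm : 1 ≤ m) (t : Fin m → E) (u v : E) (huv : u ≠ v)
    (hu : (Fin.cons u t : Fin (m + 1) → E) ∈ K.tops m)
    (hv : (Fin.cons v t : Fin (m + 1) → E) ∈ K.tops m) {U : Set E} {h : E → Fin m → ℝ}
    (hc : ChartAt m M U h (Finset.centroid ℝ Finset.univ t)) :
    ∃ B B' : E →ᵃ[ℝ] (Fin m → ℝ), (∀ i, B (t i) = B' (t i)) ∧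
      (∃ O : Set E, IsOpen O ∧
        (O ∩ convexHull ℝ (range (Fin.cons u t : Fin (m + 1) → E))).Nonempty ∧
        O ∩ convexHull ℝ (range (Fin.cons u t : Fin (m + 1) → E)) ⊆ U ∧
        EqOn h B (O ∩ convexHull ℝ (range (Fin.cons u t : Fin (m + 1) → E)))) ∧
      (∃ O : Set E, IsOpen O ∧
        (O ∩ convexHull ℝ (range (Fin.cons v t : Fin (m + 1) → E))).Nonempty ∧
        O ∩ convexHull ℝ (range (Fin.cons v t : Fin (m + 1) → E)) ⊆ U ∧
        EqOn h B' (O ∩ convexHull ℝ (range (Fin.cons v t : Fin (m + 1) → E)))) ∧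
      sdet B (Fin.cons u t : Fin (m + 1) → E) * sdet B' (Fin.cons v t : Fin (m + 1) → E) < 0 := by
  classical
  obtain ⟨hui, su, hsu, hsu'⟩ := GC.mem_tops.1 hu
  obtain ⟨hvi, sv, hsv, hsv'⟩ := GC.mem_tops.1 hv
  have ht : Function.Injective t := (Fin.cons_injective_iff.1 hui).2
  have hm' : Nonempty (Fin m) := ⟨⟨0, by omega⟩⟩
  obtain ⟨r, hr⟩ : ∃ r : Finset E, r = Finset.univ.image t := ⟨_, rfl⟩
  obtain ⟨a, ha⟩ : ∃ a : Finset E, a = Finset.univ.image (Fin.cons u t : Fin (m + 1) → E) := ⟨_, rfl⟩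
  obtain ⟨b, hb⟩ : ∃ b : Finset E, b = Finset.univ.image (Fin.cons v t : Fin (m + 1) → E) := ⟨_, rfl⟩
  have hrr : range t = (r : Set E) := by
    rw [hr, Finset.coe_image, Finset.coe_univ, image_univ]
  have haa : range (Fin.cons u t : Fin (m + 1) → E) = (a : Set E) := by
    rw [ha, Finset.coe_image, Finset.coe_univ, image_univ]
  have hbb : range (Fin.cons v t : Fin (m + 1) → E) = (b : Set E) := by
    rw [hb, Finset.coe_image, Finset.coe_univ, image_univ]
  have hrc : r.card = m := by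
    rw [hr, Finset.card_image_of_injective _ ht, Finset.card_univ, Fintype.card_fin]
  have hac : a.card = m + 1 := by
    rw [ha, Finset.card_image_of_injective _ hui, Finset.card_univ, Fintype.card_fin]
  have hbc : b.card = m + 1 := by
    rw [hb, Finset.card_image_of_injective _ hvi, Finset.card_univ, Fintype.card_fin]
  have hra : r ⊆ a := by
    rw [← Finset.coe_subset, ← hrr, ← haa, Fin.range_cons]
    exact subset_insert _ _
  have hrb : r ⊆ b := by
    rw [← Finset.coe_subset, ← hrr, ← hbb, Fin.range_cons]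
    exact subset_insert _ _
  have haf : a ∈ K.faces := by
    refine K.down su hsu a ?_ (Finset.card_pos.1 (by omega))
    rw [ha]
    intro z hz
    obtain ⟨i, _, rfl⟩ := Finset.mem_image.1 hz
    exact hsu' i
  have hbf : b ∈ K.faces := by
    refine K.down sv hsv b ?_ (Finset.card_pos.1 (by omega))
    rw [hb]
    intro z hz
    obtain ⟨i, _, rfl⟩ := Finset.mem_image.1 hz
    exact hsv' i
  have hrf : r ∈ K.faces := K.down a haf r hra (Finset.card_pos.1 (by omega))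
  have hab : a ≠ b := by
    intro hab
    have h1 : u ∈ (b : Set E) := by
      rw [← hab, ← haa, Fin.range_cons]
      exact mem_insert u _
    rw [← hbb, Fin.range_cons] at h1
    rcases h1 with h1 | h1
    · exact huv h1
    · exact (Fin.cons_injective_iff.1 hui).1 h1
  have hx : K.IsCarrier (Finset.centroid ℝ Finset.univ t) r := by
    have hmpos : (0 : ℝ) < m := by exact_mod_cast hm
    refine ⟨hrf, fun _ => (m : ℝ)⁻¹, fun _ _ => by positivity, ?_, ?_⟩
    · rw [Finset.sum_const, hrc, nsmul_eq_mul]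
      field_simp
    · rw [hr, Finset.sum_image (fun i _ j _ h => ht h), Finset.centroid_def,
        Finset.affineCombination_eq_linear_combination _ _ _
          (Finset.sum_centroidWeights_eq_one_of_nonempty ℝ _ Finset.univ_nonempty)]
      refine Finset.sum_congr rfl fun i _ => ?_
      rw [Finset.centroidWeights_apply, Finset.card_univ, Fintype.card_fin]
  obtain ⟨a', b', u₁, v₁, ρ, A, B, P⟩ := TWO_exists_pic hM K hK hrf hrc hx hc
  rcases P.uniq a haf hac hra with h1 | h1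
  · rcases P.uniq b hbf hbc hrb with h2 | h2
    · exact absurd (h1.trans h2.symm) hab
    · subst h1
      subst h2
      exact ⟨A, B, TWO_side hm P hui hvi hrr haa hbb⟩
  · rcases P.uniq b hbf hbc hrb with h2 | h2
    · subst h1
      subst h2
      exact ⟨B, A, TWO_side hm P.symm hui hvi hrr haa hbb⟩
    · exact absurd (h1.trans h2.symm) hab

end Pool.H54.UB

end S_TWO

section S_ORB

/-!
# Row ORB: the fundamental cycle of an oriented closed PL manifold

Let `A` be the oriented atlas.  `AGerm t B`: `∃ c ∈ A, Germ c.1 c.2 t univ B`.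
1. For an interior point `x` of the simplex `t` (carrier `range t`) there is a neighbourhood `V_x` such
   that all germs of all charts of `A` inside `V_x` have the same sign: take `c ∈ A` with `ChartAt` at `x`
   and `V` from `germ_local`; if `(O, B')` is a germ of another chart `c' ∈ A` inside `V`, then choose
   (`exists_germ` applied inside `O`; i.e. with `V := V ∩ O`, at a point of `O ∩ convexHull (range t)`
   near which `c.1` is a neighbourhood) a germ `(O'', B'')` of `c` with `O'' ⊆ O`, pick `m+1` affinely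
   independent points `a` of `O'' ∩ convexHull (range t)` close together, so that
   `convexHull (range a) ⊆ O'' ∩ ..` (`O''` may be shrunk to a ball: convex): both charts are affine on
   it, so `0 ≤ sdet c.2 a * sdet c'.2 a`, and both are nonzero, hence `0 < sdet B'' t * sdet B' t` by
   `sdet_mul_pos_of_comb`.
2. The set of interior points of the simplex is convex, hence connected, so all germs on `t` have the
   same sign (a germ inside `O` can be restricted to a neighbourhood of an interior point in `O`).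
3. `ε t = 1` if there is `B` with `AGerm t B` and `0 < sdet B t`, else `-1`.  `Germ` only depends on
   `range t`; `sdet_perm` gives the alternating property.
4. For a facet tuple `r` with `cons u r ∈ K.tops m`: `GC.two_tops` gives exactly two extensions
   `u ≠ v`; `GC.top_sides` for a chart of `A` at the barycentre of `r` gives germs `B`, `B'` with
   `sdet B (cons u r) * sdet B' (cons v r) < 0`: `ε (cons u r) = - ε (cons v r)`.
5. `stokes_of_two`.
-/

open Set Topology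

namespace Pool.H54.UB

variable {E : Type*} [NormedAddCommGroup E] [NormedSpace ℝ E] [FiniteDimensional ℝ E]

/-- `B` is a germ on `t`, inside `V`, of a chart of the atlas `A`. -/
private def ORB_AG {m : ℕ} (A : Set (Set E × (E → Fin m → ℝ))) (t : Fin (m + 1) → E) (V : Set E)
    (B : E →ᵃ[ℝ] (Fin m → ℝ)) : Prop := ∃ c ∈ A, Germ c.1 c.2 t V B

private theorem ORB_scale {m : ℕ} (B : E →ᵃ[ℝ] (Fin m → ℝ)) (t : Fin (m + 1) → E)
    (y : E) (w : Fin (m + 1) → ℝ) (hw : ∑ k, w k = 1) (hy : ∑ k, w k • t k = y) (e : ℝ)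
    (he : e ≠ 0) :
    sdet B t = (Matrix.of fun i k : Fin (m + 1) =>
      (1 - 1 / e) * w k + (if i = k then 1 / e else 0)).det *
      sdet B (fun i => (1 - e) • y + e • t i) := by
  classical
  apply sdet_comb
  · intro i
    simp only [Matrix.of_apply]
    rw [Finset.sum_add_distrib, ← Finset.mul_sum, hw, Finset.sum_ite_eq Finset.univ i]
    simp
  · intro i
    simp only [Matrix.of_apply]
    have h1 : ∑ k, w k • ((1 - e) • y + e • t k) = y := by
      simp only [smul_add]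
      rw [Finset.sum_add_distrib, ← Finset.sum_smul, hw, one_smul]
      have h2 : ∑ k, w k • e • t k = e • y := by
        rw [← hy, Finset.smul_sum]
        exact Finset.sum_congr rfl fun k _ => smul_comm _ _ _
      rw [h2, ← add_smul]
      simp
    have h3 : ∀ k, ((1 - 1 / e) * w k + (if i = k then 1 / e else 0)) • ((1 - e) • y + e • t k) =
        (1 - 1 / e) • (w k • ((1 - e) • y + e • t k)) +
          (if i = k then (1 / e) • ((1 - e) • y + e • t k) else 0) := by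
      intro k
      rw [add_smul, mul_smul]
      by_cases hik : i = k
      · rw [if_pos hik, if_pos hik]
      · rw [if_neg hik, if_neg hik, zero_smul]
    rw [Finset.sum_congr rfl fun k _ => h3 k, Finset.sum_add_distrib, ← Finset.smul_sum, h1,
      Finset.sum_ite_eq Finset.univ i]
    simp only [Finset.mem_univ, if_true]
    rw [smul_add, smul_smul, smul_smul]
    have h4 : 1 / e * e = 1 := by field_simp
    have h5 : 1 / e * (1 - e) = 1 / e - 1 := by field_simp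
    rw [h4, h5, one_smul, ← add_assoc, ← add_smul]
    simp

private theorem ORB_small {m : ℕ} (t : Fin (m + 1) → E) {y : E}
    (hy : y ∈ convexHull ℝ (range t)) {O : Set E} (hO : IsOpen O) (hyO : y ∈ O) :
    ∃ e : ℝ, 0 < e ∧ convexHull ℝ (range fun i => (1 - e) • y + e • t i) ⊆
      O ∩ convexHull ℝ (range t) := by
  obtain ⟨r, hr, hball⟩ := Metric.isOpen_iff.1 hO y hyO
  have h1 : ∀ i, ∀ᶠ e in 𝓝[>] (0 : ℝ), (1 - e) • y + e • t i ∈ Metric.ball y r := by
    intro i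
    have hφ : Continuous (fun e : ℝ => (1 - e) • y + e • t i) := by fun_prop
    have h3 : (fun e : ℝ => (1 - e) • y + e • t i) ⁻¹' (Metric.ball y r) ∈ 𝓝 (0 : ℝ) := by
      apply hφ.continuousAt.preimage_mem_nhds
      have : (1 - (0 : ℝ)) • y + (0 : ℝ) • t i = y := by simp
      rw [this]
      exact Metric.ball_mem_nhds y hr
    exact nhdsWithin_le_nhds h3
  have h2 : ∀ᶠ e in 𝓝[>] (0 : ℝ), e ∈ Ioo (0 : ℝ) 1 := Ioo_mem_nhdsGT (by norm_num)
  obtain ⟨e, h1, h2⟩ := ((Filter.eventually_all.2 h1).and h2).exists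
  refine ⟨e, h2.1, subset_inter ?_ ?_⟩
  · refine (convexHull_min ?_ (convex_ball y r)).trans hball
    rintro _ ⟨i, rfl⟩
    exact h1 i
  · refine convexHull_min ?_ (convex_convexHull ℝ _)
    rintro _ ⟨i, rfl⟩
    exact convex_convexHull ℝ _ hy (subset_convexHull ℝ _ ⟨i, rfl⟩) (by linarith [h2.2]) h2.1.le
      (by ring)

section ORB

variable {m : ℕ} {M : Set E} {A : Set (Set E × (E → Fin m → ℝ))} {K : GC E}
  {t : Fin (m + 1) → E}

private theorem ORB_pair (hM : IsClosedPLManifold m M)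
    (hK : K.space = M) (hA1 : ∀ c ∈ A, IsChart m M c.1 c.2)
    (hA3 : ∀ c ∈ A, ∀ c' ∈ A, ∀ a : Fin (m + 1) → E,
      convexHull ℝ (range a) ⊆ c.1 ∩ c'.1 →
      AffOn c.2 (convexHull ℝ (range a)) → AffOn c'.2 (convexHull ℝ (range a)) →
      0 ≤ sdet c.2 a * sdet c'.2 a)
    (ht : t ∈ K.tops m) {c c' : Set E × (E → Fin m → ℝ)} (hc : c ∈ A) (hc' : c' ∈ A)
    {O O' : Set E} (hO : IsOpen O) (hO' : IsOpen O') {B B' : E →ᵃ[ℝ] (Fin m → ℝ)}
    (hne : ((O ∩ O') ∩ convexHull ℝ (range t)).Nonempty)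
    (h1 : O ∩ convexHull ℝ (range t) ⊆ c.1) (h2 : EqOn c.2 B (O ∩ convexHull ℝ (range t)))
    (h1' : O' ∩ convexHull ℝ (range t) ⊆ c'.1)
    (h2' : EqOn c'.2 B' (O' ∩ convexHull ℝ (range t))) : 0 < sdet B t * sdet B' t := by
  obtain ⟨y, hyO, hyC⟩ := hne
  have hB : Germ c.1 c.2 t univ B :=
    ⟨O, hO, ⟨y, hyO.1, hyC⟩, fun z hz => ⟨h1 hz, mem_univ z⟩, h2⟩
  have hB' : Germ c'.1 c'.2 t univ B' :=
    ⟨O', hO', ⟨y, hyO.2, hyC⟩, fun z hz => ⟨h1' hz, mem_univ z⟩, h2'⟩
  have hn := germ_ne_zero hM K hK ht (hA1 c hc) hB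
  have hn' := germ_ne_zero hM K hK ht (hA1 c' hc') hB'
  obtain ⟨e, he, hsub⟩ := ORB_small t hyC (hO.inter hO') hyO
  obtain ⟨w, hw0, hw1, hwy⟩ : ∃ w : Fin (m + 1) → ℝ, (∀ k, 0 ≤ w k) ∧ ∑ k, w k = 1 ∧
      ∑ k, w k • t k = y := by
    rw [convexHull_range_eq_exists_affineCombination] at hyC
    obtain ⟨s, w, hw0, hw1, hwy⟩ := hyC
    classical
    refine ⟨fun k => if k ∈ s then w k else 0, fun k => ?_, ?_, ?_⟩
    · by_cases hk : k ∈ s
      · simp only [if_pos hk]; exact hw0 k hk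
      · simp only [if_neg hk]; exact le_refl 0
    · rw [← hw1, Finset.sum_ite_mem, Finset.univ_inter]
    · rw [← hwy, Finset.affineCombination_eq_linear_combination _ _ _ hw1]
      simp only [ite_smul, zero_smul]
      rw [Finset.sum_ite_mem, Finset.univ_inter]
  obtain ⟨a, ha⟩ : ∃ a : Fin (m + 1) → E, a = fun i => (1 - e) • y + e • t i := ⟨_, rfl⟩
  rw [← ha] at hsub
  have hs1 : convexHull ℝ (range a) ⊆ O ∩ convexHull ℝ (range t) :=
    fun z hz => ⟨(hsub hz).1.1, (hsub hz).2⟩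
  have hs2 : convexHull ℝ (range a) ⊆ O' ∩ convexHull ℝ (range t) :=
    fun z hz => ⟨(hsub hz).1.2, (hsub hz).2⟩
  have hpos := hA3 c hc c' hc' a (fun z hz => ⟨h1 (hs1 hz), h1' (hs2 hz)⟩)
    ⟨B, fun z hz => h2 (hs1 hz)⟩ ⟨B', fun z hz => h2' (hs2 hz)⟩
  have hmem : ∀ i, a i ∈ convexHull ℝ (range a) := fun i => subset_convexHull ℝ _ ⟨i, rfl⟩
  rw [sdet_congr (h := c.2) (h' := B) (fun i => h2 (hs1 (hmem i))),
    sdet_congr (h := c'.2) (h' := B') (fun i => h2' (hs2 (hmem i)))] at hpos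
  have e1 := ORB_scale B t y w hw1 hwy e he.ne'
  have e2 := ORB_scale B' t y w hw1 hwy e he.ne'
  rw [← ha] at e1 e2
  have h3 : 0 ≤ sdet B t * sdet B' t := by
    rw [e1, e2, mul_mul_mul_comm]
    exact mul_nonneg (mul_self_nonneg _) hpos
  exact lt_of_le_of_ne h3 (Ne.symm (mul_ne_zero hn hn'))

/-- interior points of the simplex `t` -/
private def ORB_I (t : Fin (m + 1) → E) : Set E :=
  {x | ∃ w : Fin (m + 1) → ℝ, (∀ i, 0 < w i) ∧ ∑ i, w i = 1 ∧ ∑ i, w i • t i = x}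

omit [FiniteDimensional ℝ E] in
private theorem ORB_I_convex (t : Fin (m + 1) → E) : Convex ℝ (ORB_I t) := by
  rintro x ⟨w, hw0, hw1, rfl⟩ y ⟨v, hv0, hv1, rfl⟩ a b ha hb hab
  refine ⟨fun i => a * w i + b * v i, fun i => ?_, ?_, ?_⟩
  · rcases ha.eq_or_lt with h | h
    · have hb' : 0 < b := by linarith
      have := mul_pos hb' (hv0 i)
      have := mul_nonneg ha (hw0 i).le
      linarith
    · have := mul_pos h (hw0 i)
      have := mul_nonneg hb (hv0 i).le
      linarith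
  · rw [Finset.sum_add_distrib, ← Finset.mul_sum, ← Finset.mul_sum, hw1, hv1]
    linarith
  · rw [Finset.smul_sum, Finset.smul_sum, ← Finset.sum_add_distrib]
    refine Finset.sum_congr rfl fun i _ => ?_
    rw [add_smul, mul_smul, mul_smul]

omit [FiniteDimensional ℝ E] in
private theorem ORB_I_hull {x : E} (hx : x ∈ ORB_I t) : x ∈ convexHull ℝ (range t) := by
  obtain ⟨w, hw0, hw1, rfl⟩ := hx
  exact (convex_convexHull ℝ (range t)).sum_mem (fun i _ => (hw0 i).le) hw1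
    (fun i _ => subset_convexHull ℝ _ ⟨i, rfl⟩)

private theorem ORB_I_carrier (hM : IsClosedPLManifold m M) (hK : K.space = M)
    (ht : t ∈ K.tops m) {x : E} (hx : x ∈ ORB_I t) :
    ∀ s, K.IsCarrier x s → (s : Set E) = range t := by
  classical
  obtain ⟨st, hst, hstr, hstc⟩ := ORA_top hM K hK ht
  obtain ⟨hinj, _⟩ := GC.mem_tops.1 ht
  obtain ⟨w, hw0, hw1, hwx⟩ := hx
  have hst' : st = Finset.univ.map ⟨t, hinj⟩ := by
    apply Finset.coe_injective
    rw [hstr, Finset.coe_map, Finset.coe_univ, image_univ]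
    rfl
  have hinv : ∀ i, Function.invFun t (t i) = i := Function.leftInverse_invFun hinj
  have hc : K.IsCarrier x st := by
    refine ⟨hst, fun z => w (Function.invFun t z), ?_, ?_, ?_⟩
    · intro y _
      exact hw0 _
    · rw [hst', Finset.sum_map]
      simp only [Function.Embedding.coeFn_mk, hinv]
      exact hw1
    · rw [hst', Finset.sum_map]
      simp only [Function.Embedding.coeFn_mk, hinv]
      exact hwx
  intro s hs
  rw [GC.carrier_unique hs hc, hstr]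

private theorem ORB_I_meets (hM : IsClosedPLManifold m M) (hK : K.space = M)
    (ht : t ∈ K.tops m) {y : E} (hy : y ∈ convexHull ℝ (range t)) {O : Set E} (hO : IsOpen O)
    (hyO : y ∈ O) : ∃ x ∈ O, x ∈ ORB_I t := by
  classical
  obtain ⟨st, hst, hstr, hstc⟩ := ORA_top hM K hK ht
  obtain ⟨hinj, _⟩ := GC.mem_tops.1 ht
  have hst' : st = Finset.univ.map ⟨t, hinj⟩ := by
    apply Finset.coe_injective
    rw [hstr, Finset.coe_map, Finset.coe_univ, image_univ]
    rfl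
  rw [← hstr] at hy
  obtain ⟨w, hw0, hw1, hwO⟩ := ORA_move st (K.ne st hst) hy hO hyO
  have hmem : ∀ i, t i ∈ st := by
    intro i
    have : t i ∈ (st : Set E) := by rw [hstr]; exact ⟨i, rfl⟩
    exact this
  refine ⟨_, hwO, fun i => w (t i), fun i => hw0 _ (hmem i), ?_, ?_⟩
  · rw [hst', Finset.sum_map] at hw1
    exact hw1
  · rw [hst', Finset.sum_map]
    rfl

private theorem ORB_hullM (hK : K.space = M) (ht : t ∈ K.tops m) :
    convexHull ℝ (range t) ⊆ M := by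
  obtain ⟨_, s, hs, hts⟩ := GC.mem_tops.1 ht
  rw [← hK]
  refine Subset.trans (convexHull_mono ?_)
    (subset_biUnion_of_mem (u := fun t : Finset E => convexHull ℝ (t : Set E)) hs)
  rintro _ ⟨i, rfl⟩
  exact hts i

private theorem ORB_exists (hM : IsClosedPLManifold m M) (hK : K.space = M)
    (hA1 : ∀ c ∈ A, IsChart m M c.1 c.2)
    (hA2 : ∀ x ∈ M, ∃ c ∈ A, ChartAt m M c.1 c.2 x)
    (ht : t ∈ K.tops m) {x : E} (hx : x ∈ convexHull ℝ (range t)) {V : Set E} (hV : IsOpen V)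
    (hxV : x ∈ V) : ∃ B, ORB_AG A t V B := by
  obtain ⟨c, hc, hcx⟩ := hA2 x (ORB_hullM hK ht hx)
  obtain ⟨B, hB⟩ := exists_germ hM K hK ht (hA1 c hc) hV ⟨x, hxV, hcx.2.2.1, hx⟩
  exact ⟨B, c, hc, hB⟩

private theorem ORB_local (hM : IsClosedPLManifold m M)
    (hK : K.space = M) (hA1 : ∀ c ∈ A, IsChart m M c.1 c.2)
    (hA2 : ∀ x ∈ M, ∃ c ∈ A, ChartAt m M c.1 c.2 x)
    (hA3 : ∀ c ∈ A, ∀ c' ∈ A, ∀ a : Fin (m + 1) → E,
      convexHull ℝ (range a) ⊆ c.1 ∩ c'.1 →
      AffOn c.2 (convexHull ℝ (range a)) → AffOn c'.2 (convexHull ℝ (range a)) →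
      0 ≤ sdet c.2 a * sdet c'.2 a)
    (ht : t ∈ K.tops m) {x : E} (hx : x ∈ ORB_I t) :
    ∃ V, IsOpen V ∧ x ∈ V ∧ ∀ B B', ORB_AG A t V B → ORB_AG A t V B' →
      0 < sdet B t * sdet B' t := by
  have hxC := ORB_I_hull hx
  obtain ⟨c, hc, hcx⟩ := hA2 x (ORB_hullM hK ht hxC)
  obtain ⟨V0, hV0, hxV0, hloc⟩ := germ_local hM K hK ht hcx (ORB_I_carrier hM hK ht hx)
  obtain ⟨Ox, hOx, hxOx, hsubx⟩ := mem_nhdsWithin.1 hcx.2.2.1
  refine ⟨V0 ∩ Ox, hV0.inter hOx, ⟨hxV0, hxOx⟩, ?_⟩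
  have key : ∀ B, ORB_AG A t (V0 ∩ Ox) B → ∃ B2, Germ c.1 c.2 t V0 B2 ∧
      0 < sdet B t * sdet B2 t := by
    rintro B ⟨c', hc', O, hO, ⟨z, hzO, hzC⟩, hsub, hEq⟩
    have hzV := hsub ⟨hzO, hzC⟩
    obtain ⟨B2, O2, hO2, ⟨z2, hz2O, hz2C⟩, hsub2, hEq2⟩ := exists_germ hM K hK ht (hA1 c hc)
      (V := (V0 ∩ Ox) ∩ O) ((hV0.inter hOx).inter hO) ⟨z, ⟨hzV.2, hzO⟩,
        mem_nhdsWithin.2 ⟨Ox, hOx, hzV.2.2, hsubx⟩, hzC⟩
    refine ⟨B2, ⟨O2, hO2, ⟨z2, hz2O, hz2C⟩, fun y hy => ⟨(hsub2 hy).1, (hsub2 hy).2.1.1⟩, hEq2⟩,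
      ?_⟩
    exact ORB_pair hM hK hA1 hA3 ht hc' hc hO hO2
      ⟨z2, ⟨(hsub2 ⟨hz2O, hz2C⟩).2.2, hz2O⟩, hz2C⟩ (fun y hy => (hsub hy).1) hEq
      (fun y hy => (hsub2 hy).1) hEq2
  intro B B' hB hB'
  obtain ⟨B2, hB2, h2⟩ := key B hB
  obtain ⟨B3, hB3, h3⟩ := key B' hB'
  have h4 := hloc B2 B3 hB2 hB3
  have h5 := mul_pos (mul_pos h2 h4) h3
  have h6 : sdet B t * sdet B2 t * (sdet B2 t * sdet B3 t) * (sdet B' t * sdet B3 t) =
      (sdet B t * sdet B' t) * (sdet B2 t * sdet B3 t) ^ 2 := by ring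
  rw [h6] at h5
  exact ORA_pos h5

private theorem ORB_global (hM : IsClosedPLManifold m M)
    (hK : K.space = M) (hA1 : ∀ c ∈ A, IsChart m M c.1 c.2)
    (hA2 : ∀ x ∈ M, ∃ c ∈ A, ChartAt m M c.1 c.2 x)
    (hA3 : ∀ c ∈ A, ∀ c' ∈ A, ∀ a : Fin (m + 1) → E,
      convexHull ℝ (range a) ⊆ c.1 ∩ c'.1 →
      AffOn c.2 (convexHull ℝ (range a)) → AffOn c'.2 (convexHull ℝ (range a)) →
      0 ≤ sdet c.2 a * sdet c'.2 a)
    (ht : t ∈ K.tops m) :
    (∀ B, ORB_AG A t univ B → 0 < sdet B t) ∨ (∀ B, ORB_AG A t univ B → sdet B t < 0) := by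
  obtain ⟨u, hu⟩ : ∃ u : Set E, u = ⋃₀ {V | IsOpen V ∧ ∀ B, ORB_AG A t V B → 0 < sdet B t} :=
    ⟨_, rfl⟩
  obtain ⟨v, hv⟩ : ∃ v : Set E, v = ⋃₀ {V | IsOpen V ∧ ∀ B, ORB_AG A t V B → sdet B t < 0} :=
    ⟨_, rfl⟩
  have huo : IsOpen u := by
    rw [hu]
    exact isOpen_sUnion fun V hV => hV.1
  have hvo : IsOpen v := by
    rw [hv]
    exact isOpen_sUnion fun V hV => hV.1
  have hcov : ORB_I t ⊆ u ∪ v := by
    intro x hx
    obtain ⟨V, hV, hxV, hloc⟩ := ORB_local hM hK hA1 hA2 hA3 ht hx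
    obtain ⟨B0, hB0⟩ := ORB_exists hM hK hA1 hA2 ht (ORB_I_hull hx) hV hxV
    have h0 := hloc B0 B0 hB0 hB0
    have hne : sdet B0 t ≠ 0 := by
      intro h
      rw [h] at h0
      simp at h0
    rcases lt_or_gt_of_ne hne with h | h
    · right
      rw [hv]
      refine ⟨V, ⟨hV, fun B hB => ?_⟩, hxV⟩
      have h1 := hloc B0 B hB0 hB
      by_contra hcon
      push Not at hcon
      have := mul_nonpos_of_nonpos_of_nonneg h.le hcon
      linarith
    · left
      rw [hu]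
      refine ⟨V, ⟨hV, fun B hB => ?_⟩, hxV⟩
      have h1 := hloc B0 B hB0 hB
      by_contra hcon
      push Not at hcon
      have := mul_nonpos_of_nonneg_of_nonpos h.le hcon
      linarith
  have hdis : ORB_I t ∩ (u ∩ v) = ∅ := by
    rw [eq_empty_iff_forall_notMem]
    rintro x ⟨hx, hxu, hxv⟩
    rw [hu] at hxu
    rw [hv] at hxv
    obtain ⟨V, ⟨hV, hV1⟩, hxV⟩ := hxu
    obtain ⟨V', ⟨hV', hV1'⟩, hxV'⟩ := hxv
    obtain ⟨B, c, hc, O, hO, hne, hsub, hEq⟩ := ORB_exists hM hK hA1 hA2 ht (ORB_I_hull hx)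
      (hV.inter hV') ⟨hxV, hxV'⟩
    have h1 := hV1 B ⟨c, hc, O, hO, hne, fun z hz => ⟨(hsub hz).1, (hsub hz).2.1⟩, hEq⟩
    have h2 := hV1' B ⟨c, hc, O, hO, hne, fun z hz => ⟨(hsub hz).1, (hsub hz).2.2⟩, hEq⟩
    linarith
  have hpre := (ORB_I_convex t).isPreconnected
  have hres : ∀ B, ORB_AG A t univ B → ∀ W : Set E, IsOpen W → (ORB_I t ⊆ W) →
      ∃ x ∈ ORB_I t, x ∈ W ∧ ∀ V, IsOpen V → x ∈ V → ORB_AG A t V B := by
    rintro B ⟨c, hc, O, hO, ⟨z, hzO, hzC⟩, hsub, hEq⟩ W _ hIW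
    obtain ⟨x, hxO, hxI⟩ := ORB_I_meets hM hK ht hzC hO hzO
    refine ⟨x, hxI, hIW hxI, fun V hV hxV => ⟨c, hc, O ∩ V, hO.inter hV,
      ⟨x, ⟨hxO, hxV⟩, ORB_I_hull hxI⟩, ?_, ?_⟩⟩
    · rintro y ⟨⟨hy1, hy2⟩, hy3⟩
      exact ⟨(hsub ⟨hy1, hy3⟩).1, hy2⟩
    · rintro y ⟨⟨hy1, hy2⟩, hy3⟩
      exact hEq ⟨hy1, hy3⟩
  rcases isPreconnected_iff_subset_of_disjoint.1 hpre u v huo hvo hcov hdis with h | h
  · left
    intro B hB
    obtain ⟨x, hxI, hxW, hV⟩ := hres B hB u huo h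
    rw [hu] at hxW
    obtain ⟨V, ⟨hVo, hV1⟩, hxV⟩ := hxW
    exact hV1 B (hV V hVo hxV)
  · right
    intro B hB
    obtain ⟨x, hxI, hxW, hV⟩ := hres B hB v hvo h
    rw [hv] at hxW
    obtain ⟨V, ⟨hVo, hV1⟩, hxV⟩ := hxW
    exact hV1 B (hV V hVo hxV)

end ORB

theorem GC.orientation {m : ℕ} (hm : 1 ≤ m) {M : Set E} (hM : IsClosedPLManifold m M)
    (ho : IsOrientable m M) (K : GC E) (hK : K.space = M) :
    ∃ ε : (Fin (m + 1) → E) → ℤ, (∀ t ∈ K.tops m, ε t = 1 ∨ ε t = -1) ∧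
      (∀ t ∈ K.tops m, ∀ π : Equiv.Perm (Fin (m + 1)),
        ε (t ∘ π) = (Equiv.Perm.sign π : ℤ) * ε t) ∧
      (∀ r : Fin m → E, (∃ u, (Fin.cons u r : Fin (m + 1) → E) ∈ K.tops m) →
        ∃ u v, u ≠ v ∧ (Fin.cons u r : Fin (m + 1) → E) ∈ K.tops m ∧
          (Fin.cons v r : Fin (m + 1) → E) ∈ K.tops m ∧
          (∀ w, (Fin.cons w r : Fin (m + 1) → E) ∈ K.tops m → w = u ∨ w = v) ∧
          ε (Fin.cons u r : Fin (m + 1) → E) = - ε (Fin.cons v r : Fin (m + 1) → E)) ∧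
      ∀ (R : Type) [CommRing R] (φ : (Fin m → E) → R),
        ∑ t ∈ K.tops m, (ε t : R) * ∑ j : Fin (m + 1), (-1) ^ (j : ℕ) * φ (t ∘ j.succAbove) = 0 := by
  classical
  obtain ⟨A, hA1, hA2, hA3⟩ := ho
  obtain ⟨ε, hε⟩ : ∃ ε : (Fin (m + 1) → E) → ℤ, ∀ t, ε t =
      if ∃ B, ORB_AG A t univ B ∧ 0 < sdet B t then 1 else -1 := ⟨_, fun _ => rfl⟩
  have hgl := fun (t : Fin (m + 1) → E) (ht : t ∈ K.tops m) =>
    ORB_global hM hK hA1 hA2 hA3 ht
  have hpos : ∀ t ∈ K.tops m, ∀ B, ORB_AG A t univ B → 0 < sdet B t → ε t = 1 := by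
    intro t _ B hB h
    rw [hε, if_pos ⟨B, hB, h⟩]
  have hneg : ∀ t ∈ K.tops m, ∀ B, ORB_AG A t univ B → sdet B t < 0 → ε t = -1 := by
    intro t ht B hB h
    rw [hε, if_neg]
    rintro ⟨B', hB', h'⟩
    rcases hgl t ht with h1 | h1
    · linarith [h1 B hB]
    · linarith [h1 B' hB']
  have hex : ∀ t ∈ K.tops m, ∃ B, ORB_AG A t univ B := by
    intro t ht
    exact ORB_exists hM hK hA1 hA2 ht (x := t 0) (subset_convexHull ℝ _ ⟨0, rfl⟩) isOpen_univ
      (mem_univ _)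
  have hne0 : ∀ t ∈ K.tops m, ∀ B, ORB_AG A t univ B → sdet B t < 0 ∨ 0 < sdet B t := by
    rintro t ht B ⟨c, hc, hB⟩
    exact lt_or_gt_of_ne (germ_ne_zero hM K hK ht (hA1 c hc) hB)
  have hperm : ∀ t ∈ K.tops m, ∀ π : Equiv.Perm (Fin (m + 1)), t ∘ π ∈ K.tops m := by
    intro t ht π
    obtain ⟨hinj, s, hs, hts⟩ := GC.mem_tops.1 ht
    exact GC.mem_tops.2 ⟨hinj.comp π.injective, s, hs, fun i => hts (π i)⟩
  have halt : ∀ t ∈ K.tops m, ∀ π : Equiv.Perm (Fin (m + 1)),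
      ε (t ∘ π) = (Equiv.Perm.sign π : ℤ) * ε t := by
    intro t ht π
    have htπ := hperm t ht π
    obtain ⟨B, hB⟩ := hex t ht
    have hr : range (t ∘ π) = range t := π.surjective.range_comp t
    have hBπ : ORB_AG A (t ∘ π) univ B := by
      obtain ⟨c, hc, hg⟩ := hB
      refine ⟨c, hc, ?_⟩
      unfold Germ at hg ⊢
      rw [hr]
      exact hg
    have hd := sdet_perm B t π
    rcases Int.units_eq_one_or (Equiv.Perm.sign π) with h1 | h1
    · rw [h1] at hd ⊢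
      simp only [Units.val_one, Int.cast_one, one_mul] at hd ⊢
      rcases hne0 t ht B hB with h2 | h2
      · rw [hneg t ht B hB h2, hneg _ htπ B hBπ (by rw [hd]; exact h2)]
      · rw [hpos t ht B hB h2, hpos _ htπ B hBπ (by rw [hd]; exact h2)]
    · rw [h1] at hd ⊢
      simp only [Units.val_neg, Units.val_one, Int.cast_neg, Int.cast_one, neg_mul, one_mul]
        at hd ⊢
      rcases hne0 t ht B hB with h2 | h2
      · rw [hneg t ht B hB h2, hpos _ htπ B hBπ (by rw [hd]; linarith)]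
        norm_num
      · rw [hpos t ht B hB h2, hneg _ htπ B hBπ (by rw [hd]; linarith)]
  have htwo : ∀ r : Fin m → E, (∃ u, (Fin.cons u r : Fin (m + 1) → E) ∈ K.tops m) →
        ∃ u v, u ≠ v ∧ (Fin.cons u r : Fin (m + 1) → E) ∈ K.tops m ∧
          (Fin.cons v r : Fin (m + 1) → E) ∈ K.tops m ∧
          (∀ w, (Fin.cons w r : Fin (m + 1) → E) ∈ K.tops m → w = u ∨ w = v) ∧
          ε (Fin.cons u r : Fin (m + 1) → E) = - ε (Fin.cons v r : Fin (m + 1) → E) := by
    rintro r ⟨u0, hu0⟩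
    obtain ⟨hinj0, s0, hs0, hts0⟩ := GC.mem_tops.1 hu0
    have hrinj : Function.Injective r := by
      intro i j hij
      have h1 : (Fin.cons u0 r : Fin (m + 1) → E) i.succ = (Fin.cons u0 r : Fin (m + 1) → E) j.succ := by
        rw [Fin.cons_succ, Fin.cons_succ, hij]
      exact Fin.succ_injective _ (hinj0 h1)
    obtain ⟨rf, hrf⟩ : ∃ rf : Finset E, rf = Finset.univ.image r := ⟨_, rfl⟩
    have hrfc : rf.card = m := by
      rw [hrf, Finset.card_image_of_injective _ hrinj, Finset.card_univ, Fintype.card_fin]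
    have hmemr : ∀ z, z ∈ rf ↔ ∃ i, r i = z := by
      intro z
      rw [hrf]
      simp
    have hrs0 : rf ⊆ s0 := by
      intro z hz
      obtain ⟨i, rfl⟩ := (hmemr z).1 hz
      have := hts0 i.succ
      rwa [Fin.cons_succ] at this
    have hrne : rf.Nonempty := by
      rw [← Finset.card_pos]
      omega
    have hrface : rf ∈ K.faces := K.down s0 hs0 rf hrs0 hrne
    obtain ⟨a, ha, b, hb, hab, hac, hbc, hra, hrb, huniq⟩ := GC.two_tops hM K hK hrface hrfc
    have hins : ∀ d : Finset E, d ∈ K.faces → d.card = m + 1 → rf ⊆ d →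
        ∃ u, u ∉ rf ∧ d = insert u rf := by
      intro d _ hdc hrd
      have h1 : (d \ rf).card = 1 := by
        rw [Finset.card_sdiff_of_subset hrd]
        omega
      obtain ⟨u, hu⟩ := Finset.card_eq_one.1 h1
      have hu' : u ∈ d \ rf := by rw [hu]; exact Finset.mem_singleton_self u
      refine ⟨u, (Finset.mem_sdiff.1 hu').2, ?_⟩
      rw [← Finset.union_sdiff_of_subset hrd, hu, Finset.union_comm]
      rfl
    obtain ⟨u, hur, hau⟩ := hins a ha hac hra
    obtain ⟨v, hvr, hbv⟩ := hins b hb hbc hrb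
    have huv : u ≠ v := by
      rintro rfl
      exact hab (hau.trans hbv.symm)
    have htop : ∀ (d : Finset E) (w : E), d ∈ K.faces → w ∉ rf → d = insert w rf →
        (Fin.cons w r : Fin (m + 1) → E) ∈ K.tops m := by
      intro d w hd hw hdw
      refine GC.mem_tops.2 ⟨?_, d, hd, ?_⟩
      · rw [Fin.cons_injective_iff]
        refine ⟨?_, hrinj⟩
        rintro ⟨i, hi⟩
        exact hw ((hmemr w).2 ⟨i, hi⟩)
      · intro i
        rw [hdw]
        refine Fin.cases ?_ (fun j => ?_) i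
        · rw [Fin.cons_zero]
          exact Finset.mem_insert_self _ _
        · rw [Fin.cons_succ]
          exact Finset.mem_insert_of_mem ((hmemr _).2 ⟨j, rfl⟩)
    have hut := htop a u ha hur hau
    have hvt := htop b v hb hvr hbv
    refine ⟨u, v, huv, hut, hvt, ?_, ?_⟩
    · intro w hw
      obtain ⟨hinjw, sw, hsw, htsw⟩ := GC.mem_tops.1 hw
      have hwr : w ∉ rf := by
        intro h
        obtain ⟨i, hi⟩ := (hmemr w).1 h
        have h1 : (Fin.cons w r : Fin (m + 1) → E) i.succ =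
            (Fin.cons w r : Fin (m + 1) → E) 0 := by
          rw [Fin.cons_succ, Fin.cons_zero, hi]
        exact Fin.succ_ne_zero i (hinjw h1)
      have hsub : insert w rf ⊆ sw := by
        intro z hz
        rcases Finset.mem_insert.1 hz with h | h
        · rw [h]
          have := htsw 0
          rwa [Fin.cons_zero] at this
        · obtain ⟨i, rfl⟩ := (hmemr z).1 h
          have := htsw i.succ
          rwa [Fin.cons_succ] at this
      have hface : insert w rf ∈ K.faces :=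
        K.down sw hsw _ hsub (Finset.insert_nonempty _ _)
      have hcard : (insert w rf).card = m + 1 := by
        rw [Finset.card_insert_of_notMem hwr, hrfc]
      rcases huniq _ hface hcard (Finset.subset_insert _ _) with h | h
      · left
        have h1 : w ∈ insert u rf := by
          rw [← hau, ← h]
          exact Finset.mem_insert_self _ _
        rcases Finset.mem_insert.1 h1 with h2 | h2
        · exact h2
        · exact absurd h2 hwr
      · right
        have h1 : w ∈ insert v rf := by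
          rw [← hbv, ← h]
          exact Finset.mem_insert_self _ _
        rcases Finset.mem_insert.1 h1 with h2 | h2
        · exact h2
        · exact absurd h2 hwr
    · have hcen : Finset.centroid ℝ Finset.univ r ∈ M := by
        have hne : (Finset.univ : Finset (Fin m)).Nonempty := by
          rw [Finset.univ_nonempty_iff]
          exact ⟨⟨0, by omega⟩⟩
        have h1 : Finset.centroid ℝ Finset.univ r ∈ convexHull ℝ (range r) := by
          rw [Finset.centroid_eq_centerMass _ hne]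
          refine Finset.centerMass_mem_convexHull _ ?_ ?_ ?_
          · intro i _
            rw [Finset.centroidWeights_apply]
            positivity
          · rw [Finset.sum_centroidWeights_eq_one_of_nonempty ℝ _ hne]
            norm_num
          · intro i _
            exact ⟨i, rfl⟩
        refine ORB_hullM hK hut (convexHull_mono ?_ h1)
        rintro _ ⟨i, rfl⟩
        exact ⟨i.succ, Fin.cons_succ _ _ _⟩
      obtain ⟨c, hc, hcx⟩ := hA2 _ hcen
      obtain ⟨B, B', _, ⟨O, hO, hOn, hOs, hOe⟩, ⟨O', hO', hOn', hOs', hOe'⟩, hlt⟩ :=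
        GC.top_sides hM K hK hm r u v huv hut hvt hcx
      have hBg : ORB_AG A (Fin.cons u r : Fin (m + 1) → E) univ B :=
        ⟨c, hc, O, hO, hOn, fun z hz => ⟨hOs hz, mem_univ z⟩, hOe⟩
      have hBg' : ORB_AG A (Fin.cons v r : Fin (m + 1) → E) univ B' :=
        ⟨c, hc, O', hO', hOn', fun z hz => ⟨hOs' hz, mem_univ z⟩, hOe'⟩
      rcases hne0 _ hut B hBg with h1 | h1 <;> rcases hne0 _ hvt B' hBg' with h2 | h2
      · have := mul_pos_of_neg_of_neg h1 h2
        linarith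
      · rw [hneg _ hut B hBg h1, hpos _ hvt B' hBg' h2]
      · rw [hpos _ hut B hBg h1, hneg _ hvt B' hBg' h2]
        norm_num
      · have := mul_pos h1 h2
        linarith
  refine ⟨ε, ?_, halt, htwo, fun R _ φ => stokes_of_two (K.tops m) hperm ε halt htwo φ⟩
  intro t ht
  obtain ⟨B, hB⟩ := hex t ht
  rcases hne0 t ht B hB with h | h
  · right
    exact hneg t ht B hB h
  · left
    exact hpos t ht B hB h

end Pool.H54.UB

end S_ORB

section S_ORC

/-!
# Row ORC: relative sign of two charts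

`exists_small_simplex`: two charts `(U, h)`, `(U', h')` at `x` (both `ChartAt`), `V ∋ x` open: there is an
ordered `m`-simplex `a` with hull in `U ∩ U' ∩ V` on which both charts are affine, nondegenerate for both.
Proof: `chart_refine` for `(U, h)` with `Y = {U ∩ U'} ∪ {pieces of h' on U ∩ U'}` (`IsPoly.inter`,
`PLOn.mono`, `PLOn.pieces`).  `h x` is an interior point of the cube, so it lies in the hull of an
`L'`-face `h(b)` with `m+1` vertices; points of the interior of the simplex `b` close to `x` are in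
`U ∩ U'` (neighbourhood of `x` in `X`), so `convexHull b ⊆ U ∩ U'`, and in a piece of `h'`; so `h'` is
affine on it.  Shrink `b` towards `x` (homothety `z ↦ x + η (z - x)`).

`pair_sign`: near `x` all such simplices have the same sign `σ` of `sdet h a * sdet h' a`.
Proof: same `L, L'`.  For `L`-faces `b` with `m+1` vertices contained in `U ∩ U'` the sign of
`sdet h b̂ * sdet h' b̂` (`b̂` any ordering of `b`) is well defined and nonzero.  Let `D` be an open ball
around `h x` in the cube such that `h⁻¹(D) ∩ U` is contained in an open set `V₀ ∩ X ⊆ U ∩ U'` around `x`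
(neighbourhood in `X`).  If `b, b'` are adjacent along `r`, and the facet `h(r)` has a carrier point in
`D`, then `b, b' ⊆ U ∩ U'` (adaptedness: points of the open simplices close to a point of `V₀`), and both
`h(b), h(b')` and `h'(b), h'(b')` are on opposite sides (`GC.opposite` for `L'` and for the image complex
of `L` restricted to `U ∩ U'` under `h'`), so the two signs (products) agree.  `GC.conn_convex`: all
`b` with `h(b)` meeting `D` have the same sign `σ`.  Let `V` be open with `x ∈ V`, `V ∩ X ⊆ h⁻¹ D`.  A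
simplex `a` with hull in `U ∩ U' ∩ V` on which both are affine: if `sdet h a = 0` the product is `0`;
otherwise `h(a)` is a nondegenerate simplex in `D`, its interior meets the interior of some `h(b)`
(`b` top), and comparing on a small simplex in the intersection (`sdet_comb`) both `sdet h a` and
`sdet h b̂` differ by the same factor as `sdet h' a` and `sdet h' b̂`, so the products have the same sign.
-/

open Set Topology

namespace Pool.H54.UB

section ORCaux

variable {E : Type*} [NormedAddCommGroup E] [NormedSpace ℝ E]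
  {F : Type*} [NormedAddCommGroup F] [NormedSpace ℝ F]

theorem ORC_aff_sum {ι : Type*} (s : Finset ι) (w : ι → ℝ) (z : ι → E) (hw : ∑ i ∈ s, w i = 1)
    (A : E →ᵃ[ℝ] F) : A (∑ i ∈ s, w i • z i) = ∑ i ∈ s, w i • A (z i) := by
  have hd : ∀ x, A x = A.linear x + A 0 := fun x => by
    have := A.map_vadd 0 x
    simpa using this
  have h2 : ∑ i ∈ s, w i • A (z i) = ∑ i ∈ s, (A.linear (w i • z i) + w i • A 0) :=
    Finset.sum_congr rfl fun i _ => by rw [hd (z i), smul_add, map_smul]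
  rw [h2, Finset.sum_add_distrib, ← Finset.sum_smul, hw, one_smul, ← map_sum]
  exact hd _

theorem ORC_mem_hull {n : ℕ} {a : Fin n → E} {x : E} (hx : x ∈ convexHull ℝ (range a)) :
    ∃ w : Fin n → ℝ, (∀ i, 0 ≤ w i) ∧ ∑ i, w i = 1 ∧ ∑ i, w i • a i = x := by
  have hconv : Convex ℝ ((Fintype.linearCombination ℝ a) '' stdSimplex ℝ (Fin n)) :=
    (convex_stdSimplex ℝ (Fin n)).linear_image _
  have hsub : range a ⊆ (Fintype.linearCombination ℝ a) '' stdSimplex ℝ (Fin n) := by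
    rintro _ ⟨i, rfl⟩
    exact ⟨Pi.single i 1, single_mem_stdSimplex ℝ i, by
      simp [Fintype.linearCombination_apply_single]⟩
  obtain ⟨w, hw, rfl⟩ := convexHull_min hsub hconv hx
  exact ⟨w, hw.1, hw.2, by simp [Fintype.linearCombination_apply]⟩

/-- an affine map injective on a nondegenerate simplex maps it to a nondegenerate simplex -/
theorem ORC_indep {n : ℕ} {β : Fin (n + 1) → E} (hβ : AffineIndependent ℝ β) {h : E → F}
    (hA : AffOn h (convexHull ℝ (range β))) (hi : InjOn h (convexHull ℝ (range β))) :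
    AffineIndependent ℝ (fun i => h (β i)) := by
  classical
  obtain ⟨A, hA⟩ := hA
  rw [affineIndependent_iff]
  intro s w hw0 hw1
  obtain ⟨v, hv⟩ : ∃ v : Fin (n + 1) → ℝ, v = fun i => if i ∈ s then w i else 0 := ⟨_, rfl⟩
  have hv0 : ∑ i, v i = 0 := by
    rw [hv]
    simp only [Finset.sum_ite_mem, Finset.univ_inter]
    exact hw0
  have hv1 : ∑ i, v i • h (β i) = 0 := by
    rw [hv]
    simp only [ite_smul, zero_smul, Finset.sum_ite_mem, Finset.univ_inter]
    exact hw1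
  obtain ⟨M, hM⟩ : ∃ M : ℝ, M = 1 + ∑ i, |v i| := ⟨_, rfl⟩
  have hM0 : 0 < M := by
    have : 0 ≤ ∑ i, |v i| := Finset.sum_nonneg fun i _ => abs_nonneg _
    rw [hM]; linarith
  have hvM : ∀ i, |v i| ≤ M := fun i => by
    have : |v i| ≤ ∑ i, |v i| :=
      Finset.single_le_sum (f := fun i => |v i|) (fun i _ => abs_nonneg _) (Finset.mem_univ i)
    rw [hM]; linarith
  have hN : (0 : ℝ) < (n : ℝ) + 1 := by positivity
  obtain ⟨ε, hε⟩ : ∃ ε : ℝ, ε = 1 / (((n : ℝ) + 1) * M) := ⟨_, rfl⟩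
  have hε0 : 0 < ε := by rw [hε]; positivity
  have hεv : ∀ i, |ε * v i| ≤ 1 / ((n : ℝ) + 1) := by
    intro i
    rw [abs_mul, abs_of_pos hε0, hε]
    calc 1 / (((n : ℝ) + 1) * M) * |v i| ≤ 1 / (((n : ℝ) + 1) * M) * M :=
          mul_le_mul_of_nonneg_left (hvM i) (by positivity)
      _ = 1 / ((n : ℝ) + 1) := by field_simp
  have hsum0 : ∑ _i : Fin (n + 1), (1 / ((n : ℝ) + 1)) = 1 := by
    simp only [Finset.sum_const, Finset.card_univ, Fintype.card_fin, nsmul_eq_mul]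
    push_cast
    field_simp
  have hsum1 : ∑ i : Fin (n + 1), (1 / ((n : ℝ) + 1) + ε * v i) = 1 := by
    rw [Finset.sum_add_distrib, ← Finset.mul_sum, hv0, hsum0]
    ring
  have hp0 : ∑ i : Fin (n + 1), (1 / ((n : ℝ) + 1)) • β i ∈ convexHull ℝ (range β) :=
    (convex_convexHull ℝ _).sum_mem (fun i _ => by positivity) hsum0
      (fun i _ => subset_convexHull ℝ _ (mem_range_self i))
  have hp1 : ∑ i : Fin (n + 1), (1 / ((n : ℝ) + 1) + ε * v i) • β i ∈ convexHull ℝ (range β) :=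
    (convex_convexHull ℝ _).sum_mem (fun i _ => by
        have := (abs_le.1 (hεv i)).1
        linarith) hsum1
      (fun i _ => subset_convexHull ℝ _ (mem_range_self i))
  have hAβ : ∀ i, A (β i) = h (β i) := fun i =>
    (hA (subset_convexHull ℝ _ (mem_range_self i))).symm
  have heq : h (∑ i : Fin (n + 1), (1 / ((n : ℝ) + 1) + ε * v i) • β i) =
      h (∑ i : Fin (n + 1), (1 / ((n : ℝ) + 1)) • β i) := by
    rw [hA hp0, hA hp1, ORC_aff_sum _ _ _ hsum1, ORC_aff_sum _ _ _ hsum0]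
    simp only [hAβ, add_smul, Finset.sum_add_distrib, mul_smul]
    rw [← Finset.smul_sum (r := ε), hv1, smul_zero, add_zero]
  have h3 := hi hp1 hp0 heq
  simp only [add_smul, Finset.sum_add_distrib, mul_smul] at h3
  rw [← Finset.smul_sum (r := ε), add_eq_left, smul_eq_zero] at h3
  have h4 : ∑ i, v i • β i = 0 := h3.resolve_left hε0.ne'
  have h5 := (affineIndependent_iff.1 hβ) Finset.univ v hv0 h4
  intro e he
  have h6 := h5 e (Finset.mem_univ e)
  rw [hv] at h6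
  simpa [he] using h6

theorem ORC_hom_indep {n : ℕ} {q : Fin n → F} (hq : AffineIndependent ℝ q) (p : F)
    {η : ℝ} (h0 : η ≠ 0) : AffineIndependent ℝ (fun i => (1 - η) • p + η • q i) := by
  have hinj : Function.Injective (AffineMap.homothety p η : F →ᵃ[ℝ] F) := by
    intro x y hxy
    simp only [AffineMap.homothety_apply, vsub_eq_sub, vadd_eq_add, add_left_inj] at hxy
    have := smul_right_injective F h0 hxy
    simpa using this
  have h1 := hq.map' (AffineMap.homothety p η : F →ᵃ[ℝ] F) hinj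
  convert h1 using 1
  funext i
  simp only [Function.comp_apply, AffineMap.homothety_apply, vsub_eq_sub, vadd_eq_add]
  module

theorem ORC_hom_mem {C : Set E} (hC : Convex ℝ C) {z w : E} (hz : z ∈ C) (hw : w ∈ C) {η : ℝ}
    (h0 : 0 < η) (h1 : η ≤ 1) : (1 - η) • z + η • w ∈ C :=
  hC hz hw (by linarith) h0.le (by ring)

theorem ORC_hom_map {h : E → F} {C : Set E} (hC : Convex ℝ C) (hA : AffOn h C) {z w : E}
    (hz : z ∈ C) (hw : w ∈ C) {η : ℝ} (h0 : 0 < η) (h1 : η ≤ 1) :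
    h ((1 - η) • z + η • w) = (1 - η) • h z + η • h w := by
  obtain ⟨A, hA⟩ := hA
  rw [hA (ORC_hom_mem hC hz hw h0 h1), hA hz, hA hw]
  have hd : ∀ x, A x = A.linear x + A 0 := fun x => by
    have := A.map_vadd 0 x
    simpa using this
  rw [hd, hd z, hd w, map_add, map_smul, map_smul]
  module

theorem ORC_carrier {L : GC E} {b : Finset E} (hb : b ∈ L.faces) {z : E}
    (hz : z ∈ convexHull ℝ (b : Set E)) :
    ∃ g ∈ convexHull ℝ (b : Set E), ∀ η : ℝ, 0 < η → η ≤ 1 →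
      L.IsCarrier ((1 - η) • z + η • g) b := by
  have hne := L.ne b hb
  have hc : (0 : ℝ) < b.card := by exact_mod_cast hne.card_pos
  have hs : ∑ _y ∈ b, (1 / (b.card : ℝ)) = 1 := by
    rw [Finset.sum_const, nsmul_eq_mul]
    field_simp
  refine ⟨∑ y ∈ b, (1 / (b.card : ℝ)) • y, ?_, ?_⟩
  · exact Finset.mem_convexHull'.2 ⟨fun _ => 1 / (b.card : ℝ), fun _ _ => by positivity, hs, rfl⟩
  · intro η h0 h1
    obtain ⟨w, hw0, hw1, hwz⟩ := Finset.mem_convexHull'.1 hz
    refine ⟨hb, fun y => (1 - η) * w y + η * (1 / (b.card : ℝ)), ?_, ?_, ?_⟩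
    · intro y hy
      have h2 := hw0 y hy
      have h3 : 0 ≤ (1 - η) * w y := mul_nonneg (by linarith) h2
      have h4 : 0 < η * (1 / (b.card : ℝ)) := by positivity
      linarith
    · rw [Finset.sum_add_distrib, ← Finset.mul_sum, ← Finset.mul_sum, hw1, hs]
      ring
    · rw [← hwz]
      simp only [add_smul, Finset.sum_add_distrib, mul_smul, Finset.smul_sum]

theorem ORC_lim {O : Set E} (hO : IsOpen O) {z : E} (hz : z ∈ O) (g : E) :
    ∃ δ : ℝ, 0 < δ ∧ δ ≤ 1 ∧ ∀ η : ℝ, 0 < η → η ≤ δ → (1 - η) • z + η • g ∈ O := by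
  have hcont : Continuous (fun η : ℝ => (1 - η) • z + η • g) := by fun_prop
  have hmem : (fun η : ℝ => (1 - η) • z + η • g) ⁻¹' O ∈ 𝓝 (0 : ℝ) := by
    apply hcont.continuousAt.preimage_mem_nhds
    apply hO.mem_nhds
    simpa using hz
  obtain ⟨ε, hε, hb⟩ := Metric.mem_nhds_iff.1 hmem
  refine ⟨min (ε / 2) 1, by positivity, min_le_right _ _, ?_⟩
  intro η h0 h1
  apply hb
  rw [Metric.mem_ball, Real.dist_eq, sub_zero, abs_of_pos h0]
  have := h1.trans (min_le_left _ _)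
  linarith

theorem ORC_enum {b : Finset E} {n : ℕ} (hb : b.card = n) :
    ∃ β : Fin n → E, Function.Injective β ∧ range β = (b : Set E) := by
  let e := b.equivFinOfCardEq hb
  refine ⟨fun i => (e.symm i : E), ?_, ?_⟩
  · exact Subtype.coe_injective.comp e.symm.injective
  · ext y
    constructor
    · rintro ⟨i, rfl⟩
      exact (e.symm i).2
    · intro hy
      exact ⟨e ⟨y, hy⟩, by simp⟩

theorem ORC_perm {n : ℕ} {β γ : Fin n → E} (hβ : Function.Injective β)
    (hγ : Function.Injective γ) (h : range β = range γ) :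
    ∃ π : Equiv.Perm (Fin n), γ = β ∘ π := by
  have h1 : ∀ i, ∃ j, β j = γ i := fun i => by
    have : γ i ∈ range β := by rw [h]; exact mem_range_self i
    exact this
  choose f hf using h1
  have hfi : Function.Injective f := by
    intro i j hij
    apply hγ
    rw [← hf i, ← hf j, hij]
  refine ⟨Equiv.ofBijective f (Finite.injective_iff_bijective.1 hfi), ?_⟩
  funext i
  simp [hf i]

theorem ORC_face_indep {L : GC E} {b : Finset E} (hb : b ∈ L.faces) {n : ℕ} {β : Fin n → E}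
    (hβ : Function.Injective β) (hr : range β = (b : Set E)) : AffineIndependent ℝ β := by
  have h1 := GC.affineIndependent hb
  have hmem : ∀ i, β i ∈ b := fun i => by
    have : β i ∈ (b : Set E) := by rw [← hr]; exact mem_range_self i
    exact this
  let e : Fin n ↪ b := ⟨fun i => ⟨β i, hmem i⟩, fun i j hij => hβ (congrArg Subtype.val hij)⟩
  exact h1.comp_embedding e

end ORCaux

section ORCsdet

variable {E : Type*} [NormedAddCommGroup E] [NormedSpace ℝ E] {m : ℕ}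

theorem ORC_prod_perm (h h' : E → Fin m → ℝ) {β γ : Fin (m + 1) → E}
    (hβ : Function.Injective β) (hγ : Function.Injective γ) (hr : range β = range γ) :
    sdet h γ * sdet h' γ = sdet h β * sdet h' β := by
  obtain ⟨π, rfl⟩ := ORC_perm hβ hγ hr
  rw [sdet_perm, sdet_perm]
  have : ((Equiv.Perm.sign π : ℤ) : ℝ) * ((Equiv.Perm.sign π : ℤ) : ℝ) = 1 := by
    rcases Int.units_eq_one_or (Equiv.Perm.sign π) with h1 | h1 <;> rw [h1] <;> norm_num
  calc ((Equiv.Perm.sign π : ℤ) : ℝ) * sdet h β * (((Equiv.Perm.sign π : ℤ) : ℝ) * sdet h' β)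
      = (((Equiv.Perm.sign π : ℤ) : ℝ) * ((Equiv.Perm.sign π : ℤ) : ℝ)) *
        (sdet h β * sdet h' β) := by ring
    _ = _ := by rw [this, one_mul]

theorem ORC_comb {a c : Fin (m + 1) → E} (hc : ∀ i, c i ∈ convexHull ℝ (range a))
    {h h' : E → Fin m → ℝ} (hA : AffOn h (convexHull ℝ (range a)))
    (hA' : AffOn h' (convexHull ℝ (range a))) :
    ∃ d : ℝ, sdet h c = d * sdet h a ∧ sdet h' c = d * sdet h' a := by
  obtain ⟨A, hA⟩ := hA
  obtain ⟨A', hA'⟩ := hA'
  choose W hW0 hW1 hW using fun i => ORC_mem_hull (hc i)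
  have ha : ∀ i, a i ∈ convexHull ℝ (range a) := fun i => subset_convexHull ℝ _ (mem_range_self i)
  refine ⟨Matrix.det (Matrix.of W), ?_, ?_⟩
  · rw [sdet_congr (h' := A) (fun i => hA (hc i)), sdet_congr (h' := A) (fun i => hA (ha i))]
    exact sdet_comb A a c (Matrix.of W) hW1 (fun i => (hW i).symm)
  · rw [sdet_congr (h' := A') (fun i => hA' (hc i)), sdet_congr (h' := A') (fun i => hA' (ha i))]
    exact sdet_comb A' a c (Matrix.of W) hW1 (fun i => (hW i).symm)

theorem ORC_interior {a : Fin (m + 1) → (Fin m → ℝ)} (ha : AffineIndependent ℝ a) :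
    (interior (convexHull ℝ (range a))).Nonempty := by
  rw [interior_convexHull_nonempty_iff_affineSpan_eq_top]
  rw [ha.affineSpan_eq_top_iff_card_eq_finrank_add_one]
  simp

theorem ORC_image {h : E → Fin m → ℝ} {a : Fin (m + 1) → E}
    (hA : AffOn h (convexHull ℝ (range a))) :
    convexHull ℝ (range fun i => h (a i)) = h '' convexHull ℝ (range a) := by
  obtain ⟨A, hA⟩ := hA
  have h1 : h '' convexHull ℝ (range a) = A '' convexHull ℝ (range a) := hA.image_eq
  have h2 : (range fun i => h (a i)) = A '' range a := by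
    rw [← range_comp]
    congr 1
    funext i
    exact hA (subset_convexHull ℝ _ (mem_range_self i))
  rw [h1, h2, AffineMap.image_convexHull]

end ORCsdet

variable {E : Type*} [NormedAddCommGroup E] [NormedSpace ℝ E] [FiniteDimensional ℝ E]

theorem ORC_opp {m : ℕ} (K : GC E) (h : E → Fin m → ℝ)
    (hh : ∀ s ∈ K.faces, AffOn h (convexHull ℝ (s : Set E))) (hi : InjOn h K.space)
    {a b : Finset E} (ha : a ∈ K.faces) (hb : b ∈ K.faces) (hac : a.card = m + 1)
    (hbc : b.card = m + 1) (hab : a ≠ b) (t : Fin m → E) (ht : Function.Injective t)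
    (hta : ∀ i, t i ∈ a) (htb : ∀ i, t i ∈ b) {u v : E} (hu : u ∈ a) (hu' : u ∉ range t)
    (hv : v ∈ b) (hv' : v ∉ range t) :
    sdet h (Fin.cons u t : Fin (m + 1) → E) * sdet h (Fin.cons v t : Fin (m + 1) → E) < 0 := by
  classical
  obtain ⟨K', hK'f, -, -, -⟩ := GC.image_complex K h hh hi
  have hsp : ∀ {s : Finset E}, s ∈ K.faces → ∀ {y : E}, y ∈ s → y ∈ K.space := by
    intro s hs y hy
    exact mem_iUnion₂.2 ⟨s, hs, subset_convexHull ℝ _ hy⟩
  have hinja : Set.InjOn h (a : Set E) := fun x hx y hy hxy => hi (hsp ha hx) (hsp ha hy) hxy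
  have hinjb : Set.InjOn h (b : Set E) := fun x hx y hy hxy => hi (hsp hb hx) (hsp hb hy) hxy
  have ha' : a.image h ∈ K'.faces := (hK'f _).2 ⟨a, ha, by rw [Finset.coe_image]⟩
  have hb' : b.image h ∈ K'.faces := (hK'f _).2 ⟨b, hb, by rw [Finset.coe_image]⟩
  have hac' : (a.image h).card = m + 1 := by rw [Finset.card_image_of_injOn hinja, hac]
  have hbc' : (b.image h).card = m + 1 := by rw [Finset.card_image_of_injOn hinjb, hbc]
  have hab' : a.image h ≠ b.image h := by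
    intro e
    apply hab
    have key : ∀ {s t : Finset E}, s ∈ K.faces → t ∈ K.faces → s.image h = t.image h → s ⊆ t := by
      intro s t hs ht e y hy
      have h1 : h y ∈ t.image h := by rw [← e]; exact Finset.mem_image_of_mem h hy
      obtain ⟨z, hz, hzy⟩ := Finset.mem_image.1 h1
      have := hi (hsp ht hz) (hsp hs hy) hzy
      rw [← this]; exact hz
    exact Finset.Subset.antisymm (key ha hb e) (key hb ha e.symm)
  have ht' : Function.Injective (fun i => h (t i)) := by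
    intro i j hij
    exact ht (hi (hsp ha (hta i)) (hsp ha (hta j)) hij)
  have hu'' : h u ∉ range (fun i => h (t i)) := by
    rintro ⟨i, hi'⟩
    exact hu' ⟨i, hi (hsp ha (hta i)) (hsp ha hu) hi'⟩
  have hv'' : h v ∉ range (fun i => h (t i)) := by
    rintro ⟨i, hi'⟩
    exact hv' ⟨i, hi (hsp hb (htb i)) (hsp hb hv) hi'⟩
  have key := GC.opposite K' ha' hb' hac' hbc' hab' (fun i => h (t i)) ht'
    (fun i => Finset.mem_image_of_mem h (hta i)) (fun i => Finset.mem_image_of_mem h (htb i))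
    (Finset.mem_image_of_mem h hu) hu'' (Finset.mem_image_of_mem h hv) hv''
  have hcons : ∀ w : E, (fun i => h ((Fin.cons w t : Fin (m + 1) → E) i)) =
      (Fin.cons (h w) (fun i => h (t i)) : Fin (m + 1) → (Fin m → ℝ)) := by
    intro w
    funext i
    refine Fin.cases ?_ (fun j => ?_) i
    · simp
    · simp
  rw [sdet_comp h, sdet_comp h (Fin.cons v t), hcons, hcons]
  exact key

/-- the data of a chart refined by a second chart -/
theorem ORC_setup {m : ℕ} {X U U' : Set E} {h h' : E → Fin m → ℝ}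
    (hc : IsChart m X U h) (hc' : IsChart m X U' h') :
    ∃ (L : GC E) (L' : GC (Fin m → ℝ)), L.space = U ∧ L.Adapted (U ∩ U') ∧
      (∀ b ∈ L.faces, convexHull ℝ (b : Set E) ⊆ U ∩ U' → AffOn h' (convexHull ℝ (b : Set E))) ∧
      (∀ s ∈ L.faces, AffOn h (convexHull ℝ (s : Set E))) ∧ L'.space = cube m ∧
      (∀ s' : Finset (Fin m → ℝ), s' ∈ L'.faces ↔
        ∃ s ∈ L.faces, (s' : Set (Fin m → ℝ)) = h '' (s : Set E)) ∧
      (∀ x s, L.IsCarrier x s → ∀ s' : Finset (Fin m → ℝ),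
        (s' : Set (Fin m → ℝ)) = h '' (s : Set E) → L'.IsCarrier (h x) s') ∧
      (∀ s ∈ L.faces, h '' convexHull ℝ (s : Set E) = convexHull ℝ (h '' (s : Set E))) := by
  classical
  have hU : IsPoly U := hc.2.1.domain
  have hU' : IsPoly U' := hc'.2.1.domain
  have hUU : IsPoly (U ∩ U') := hU.inter hU'
  have hPL : PLOn h' (U ∩ U') := hc'.2.1.mono hUU inter_subset_right
  obtain ⟨S, hS, hSaff⟩ := hPL.pieces
  obtain ⟨L, L', h1, h2, h3, h4, h5, h6, h7⟩ := chart_refine hc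
    (insert (U ∩ U') (S.image fun s : Finset E => convexHull ℝ (s : Set E))) (by
      intro A hA
      rcases Finset.mem_insert.1 hA with rfl | hA
      · exact hUU
      · obtain ⟨s, -, rfl⟩ := Finset.mem_image.1 hA
        exact IsPoly.hull s)
  refine ⟨L, L', h1, h2 _ (Finset.mem_insert_self _ _), ?_, h3, h4, h5, h6, h7⟩
  intro b hb hsub
  have hne : (convexHull ℝ (b : Set E)).Nonempty := by
    obtain ⟨y, hy⟩ := L.ne b hb
    exact ⟨y, subset_convexHull ℝ _ hy⟩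
  obtain ⟨z, hz⟩ := hne
  obtain ⟨g, hg, hgc⟩ := ORC_carrier hb hz
  have hgb := hgc 1 one_pos le_rfl
  have hgm : (1 - (1 : ℝ)) • z + (1 : ℝ) • g ∈ U ∩ U' := hsub hgb.mem_hull
  rw [hS] at hgm
  obtain ⟨s, hs, hgs⟩ := mem_iUnion₂.1 hgm
  have had := h2 (convexHull ℝ (s : Set E))
    (Finset.mem_insert_of_mem (Finset.mem_image_of_mem (fun s : Finset E => convexHull ℝ (s : Set E)) hs))
  have hbs := (GC.adapted_iff.1 had) _ _ hgb hgs
  obtain ⟨A, hA⟩ := (hSaff s hs).2.2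
  exact ⟨A, hA.mono hbs⟩

theorem ORC_top {m : ℕ} {U : Set E} {h : E → Fin m → ℝ} (hi : InjOn h U) {L : GC E}
    {L' : GC (Fin m → ℝ)} (hLs : L.space = U)
    (hf : ∀ s' : Finset (Fin m → ℝ), s' ∈ L'.faces ↔
        ∃ s ∈ L.faces, (s' : Set (Fin m → ℝ)) = h '' (s : Set E))
    (hh : ∀ s ∈ L.faces, h '' convexHull ℝ (s : Set E) = convexHull ℝ (h '' (s : Set E)))
    {x : E} (hx : x ∈ U) {s' : Finset (Fin m → ℝ)} (hs' : s' ∈ L'.faces)
    (hxs : h x ∈ convexHull ℝ (s' : Set (Fin m → ℝ))) :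
    ∃ b ∈ L.faces, (s' : Set (Fin m → ℝ)) = h '' (b : Set E) ∧ b.card = s'.card ∧
      x ∈ convexHull ℝ (b : Set E) := by
  classical
  obtain ⟨b, hb, hbs⟩ := (hf s').1 hs'
  refine ⟨b, hb, hbs, ?_, ?_⟩
  · have h1 : s' = b.image h := by
      apply Finset.coe_injective
      rw [Finset.coe_image, hbs]
    rw [h1, Finset.card_image_of_injOn]
    intro y hy z hz hyz
    apply hi _ _ hyz
    · rw [← hLs]; exact mem_iUnion₂.2 ⟨b, hb, subset_convexHull ℝ _ hy⟩
    · rw [← hLs]; exact mem_iUnion₂.2 ⟨b, hb, subset_convexHull ℝ _ hz⟩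
  · rw [hbs, ← hh b hb] at hxs
    obtain ⟨z, hz, hzx⟩ := hxs
    have hzU : z ∈ U := by rw [← hLs]; exact mem_iUnion₂.2 ⟨b, hb, hz⟩
    rw [← hi hzU hx hzx]
    exact hz

theorem ORC_nhd {m : ℕ} {X U U' : Set E} {h h' : E → Fin m → ℝ} {x : E}
    (hc : ChartAt m X U h x) (hc' : ChartAt m X U' h' x) :
    ∃ V₀ : Set E, IsOpen V₀ ∧ x ∈ V₀ ∧ V₀ ∩ X ⊆ U ∩ U' := by
  have := Filter.inter_mem hc.2.2.1 hc'.2.2.1
  exact mem_nhdsWithin.1 this

/-- a face of `L` through a point of the open set `V₀` is contained in `U ∩ U'` -/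
theorem ORC_sub {X U U' V₀ : Set E} (hUX : U ⊆ X) (hV₀ : IsOpen V₀) (hV : V₀ ∩ X ⊆ U ∩ U')
    {L : GC E} (hLs : L.space = U) (had : L.Adapted (U ∩ U')) {b : Finset E} (hb : b ∈ L.faces)
    {z : E} (hz : z ∈ V₀) (hzb : z ∈ convexHull ℝ (b : Set E)) :
    convexHull ℝ (b : Set E) ⊆ U ∩ U' := by
  obtain ⟨g, hg, hgc⟩ := ORC_carrier hb hzb
  obtain ⟨δ, hδ, hδ1, hlim⟩ := ORC_lim hV₀ hz g
  have hc := hgc δ hδ hδ1
  apply (GC.adapted_iff.1 had) _ _ hc
  apply hV
  refine ⟨hlim δ hδ le_rfl, hUX ?_⟩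
  rw [← hLs]
  exact mem_iUnion₂.2 ⟨b, hb, hc.mem_hull⟩

theorem exists_small_simplex {m : ℕ} {X U U' : Set E} {h h' : E → Fin m → ℝ} {x : E}
    (hc : ChartAt m X U h x) (hc' : ChartAt m X U' h' x) {V : Set E} (hV : IsOpen V)
    (hx : x ∈ V) :
    ∃ a : Fin (m + 1) → E, convexHull ℝ (range a) ⊆ U ∩ U' ∩ V ∧
      AffOn h (convexHull ℝ (range a)) ∧ AffOn h' (convexHull ℝ (range a)) ∧
      sdet h a ≠ 0 ∧ sdet h' a ≠ 0 := by
  obtain ⟨L, L', hLs, had, haff', haff, hL's, hf, hcar, hh⟩ := ORC_setup hc.1 hc'.1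
  obtain ⟨V₀, hV₀, hxV₀, hVU⟩ := ORC_nhd hc hc'
  have hi : InjOn h U := hc.1.2.2.1
  have hi' : InjOn h' U' := hc'.1.2.2.1
  obtain ⟨s', hs', hs'c, hxs'⟩ := L'.exists_top_of_interior (x := h x)
    (by rw [hL's]; exact interior_cube_mem hc.2.2.2)
  obtain ⟨b, hb, hbs, hbc, hxb⟩ := ORC_top hi hLs hf hh hc.2.1 hs' hxs'
  have hsub := ORC_sub hc.1.1 hV₀ hVU hLs had hb hxV₀ hxb
  obtain ⟨β, hβ, hβr⟩ := ORC_enum (hbc.trans hs'c)
  have hβi := ORC_face_indep hb hβ hβr
  rw [← hβr] at hxb hsub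
  have hA : AffOn h (convexHull ℝ (range β)) := by rw [hβr]; exact haff b hb
  have hA' : AffOn h' (convexHull ℝ (range β)) := by
    rw [hβr]; exact haff' b hb (by rw [← hβr]; exact hsub)
  have hind := ORC_indep hβi hA (hi.mono (hsub.trans inter_subset_left))
  have hind' := ORC_indep hβi hA' (hi'.mono (hsub.trans inter_subset_right))
  -- a ball inside V
  obtain ⟨r, hr, hrV⟩ := Metric.isOpen_iff.1 hV x hx
  have hlim : ∀ i, ∃ δ : ℝ, 0 < δ ∧ δ ≤ 1 ∧ ∀ η : ℝ, 0 < η → η ≤ δ →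
      (1 - η) • x + η • β i ∈ Metric.ball x r := fun i =>
    ORC_lim Metric.isOpen_ball (Metric.mem_ball_self hr) (β i)
  choose δ hδ0 hδ1 hδ using hlim
  obtain ⟨η, hη0, hηle⟩ : ∃ η : ℝ, 0 < η ∧ ∀ i, η ≤ δ i := by
    refine ⟨Finset.univ.inf' Finset.univ_nonempty δ, ?_, fun i => Finset.inf'_le _ (Finset.mem_univ i)⟩
    rw [Finset.lt_inf'_iff]
    exact fun i _ => hδ0 i
  have hη1 : η ≤ 1 := (hηle 0).trans (hδ1 0)
  have hcvx : Convex ℝ (convexHull ℝ (range β)) := convex_convexHull ℝ _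
  have hmem : ∀ i, β i ∈ convexHull ℝ (range β) := fun i =>
    subset_convexHull ℝ _ (mem_range_self i)
  have hsub2 : convexHull ℝ (range fun i => (1 - η) • x + η • β i) ⊆ convexHull ℝ (range β) := by
    apply convexHull_min _ hcvx
    rintro _ ⟨i, rfl⟩
    exact ORC_hom_mem hcvx hxb (hmem i) hη0 hη1
  refine ⟨fun i => (1 - η) • x + η • β i, ?_, ?_, ?_, ?_, ?_⟩
  · intro y hy
    refine ⟨hsub (hsub2 hy), hrV ?_⟩
    have : convexHull ℝ (range fun i => (1 - η) • x + η • β i) ⊆ Metric.ball x r := by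
      apply convexHull_min _ (convex_ball x r)
      rintro _ ⟨i, rfl⟩
      exact hδ i η hη0 (hηle i)
    exact this hy
  · obtain ⟨A, hA⟩ := hA
    exact ⟨A, hA.mono hsub2⟩
  · obtain ⟨A, hA⟩ := hA'
    exact ⟨A, hA.mono hsub2⟩
  · rw [sdet_ne_zero_iff]
    have e : (fun i => h ((1 - η) • x + η • β i)) = fun i => (1 - η) • h x + η • h (β i) :=
      funext fun i => ORC_hom_map hcvx hA hxb (hmem i) hη0 hη1
    show AffineIndependent ℝ (fun i => h ((1 - η) • x + η • β i))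
    rw [e]
    exact ORC_hom_indep hind (h x) hη0.ne'
  · rw [sdet_ne_zero_iff]
    have e : (fun i => h' ((1 - η) • x + η • β i)) = fun i => (1 - η) • h' x + η • h' (β i) :=
      funext fun i => ORC_hom_map hcvx hA' hxb (hmem i) hη0 hη1
    show AffineIndependent ℝ (fun i => h' ((1 - η) • x + η • β i))
    rw [e]
    exact ORC_hom_indep hind' (h' x) hη0.ne'

/-- crossing a facet does not change the sign of the product -/
theorem ORC_adj {m : ℕ} {U U' : Set E} {h h' : E → Fin m → ℝ} (hi : InjOn h U)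
    (hi' : InjOn h' U') {L : GC E} (hLs : L.space = U) (had : L.Adapted (U ∩ U'))
    (haff' : ∀ b ∈ L.faces, convexHull ℝ (b : Set E) ⊆ U ∩ U' →
      AffOn h' (convexHull ℝ (b : Set E)))
    (haff : ∀ s ∈ L.faces, AffOn h (convexHull ℝ (s : Set E)))
    {a b r : Finset E} (ha : a ∈ L.faces) (hb : b ∈ L.faces) (hac : a.card = m + 1)
    (hbc : b.card = m + 1) (hra : r ⊆ a) (hrb : r ⊆ b) (hrc : r.card = m)
    (haN : convexHull ℝ (a : Set E) ⊆ U ∩ U') (hbN : convexHull ℝ (b : Set E) ⊆ U ∩ U')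
    {α β : Fin (m + 1) → E} (hα : Function.Injective α) (hαr : range α = (a : Set E))
    (hβ : Function.Injective β) (hβr : range β = (b : Set E))
    (hpos : 0 < sdet h α * sdet h' α) : 0 < sdet h β * sdet h' β := by
  by_cases hab : a = b
  · subst hab
    rw [ORC_prod_perm h h' hα hβ (hαr.trans hβr.symm)]
    exact hpos
  obtain ⟨t, ht, htr⟩ := ORC_enum hrc
  have hta : ∀ i, t i ∈ a := fun i => hra (by
    have : t i ∈ (r : Set E) := by rw [← htr]; exact mem_range_self i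
    exact this)
  have htb : ∀ i, t i ∈ b := fun i => hrb (by
    have : t i ∈ (r : Set E) := by rw [← htr]; exact mem_range_self i
    exact this)
  have hex : ∀ {c : Finset E}, r ⊆ c → c.card = m + 1 → ∃ u ∈ c, u ∉ range t := by
    intro c hrc' hcc
    by_contra hcon
    push Not at hcon
    have : c ⊆ r := fun y hy => by
      have := hcon y hy
      rw [htr] at this
      exact this
    have := Finset.card_le_card this
    omega
  obtain ⟨u, hu, hu'⟩ := hex hra hac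
  obtain ⟨v, hv, hv'⟩ := hex hrb hbc
  have hcons : ∀ {c : Finset E} {w : E}, (∀ i, t i ∈ c) → c.card = m + 1 → w ∈ c →
      w ∉ range t → Function.Injective (Fin.cons w t : Fin (m + 1) → E) ∧
        range (Fin.cons w t : Fin (m + 1) → E) = (c : Set E) := by
    classical
    intro c w htc hcc hw hw'
    have hinj : Function.Injective (Fin.cons w t : Fin (m + 1) → E) :=
      Fin.cons_injective_iff.2 ⟨hw', ht⟩
    refine ⟨hinj, ?_⟩
    have h1 : Finset.univ.image (Fin.cons w t : Fin (m + 1) → E) = c := by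
      apply Finset.eq_of_subset_of_card_le
      · intro y hy
        obtain ⟨i, -, rfl⟩ := Finset.mem_image.1 hy
        refine Fin.cases ?_ (fun j => ?_) i
        · simpa using hw
        · simpa using htc j
      · rw [Finset.card_image_of_injective _ hinj, hcc]
        simp
    rw [← h1]
    simp
  obtain ⟨hci, hcr⟩ := hcons hta hac hu hu'
  obtain ⟨hdi, hdr⟩ := hcons htb hbc hv hv'
  have e1 := ORC_opp L h haff (by rw [hLs]; exact hi) ha hb hac hbc hab t ht hta htb hu hu' hv hv'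
  obtain ⟨K, hKf, hKs, -⟩ := GC.restrict L (U ∩ U') had
  have e2 := ORC_opp K h' (fun s hs => haff' s ((hKf s).1 hs).1 ((hKf s).1 hs).2)
    (hi'.mono (by rw [hKs]; exact fun y hy => hy.2.2)) ((hKf a).2 ⟨ha, haN⟩)
    ((hKf b).2 ⟨hb, hbN⟩) hac hbc hab t ht hta htb hu hu' hv hv'
  rw [ORC_prod_perm h h' hci hα (hcr.trans hαr.symm)] at hpos
  rw [ORC_prod_perm h h' hdi hβ (hdr.trans hβr.symm)]
  have h4 := mul_pos_of_neg_of_neg e1 e2
  have h5 : 0 < (sdet h (Fin.cons u t : Fin (m + 1) → E) * sdet h' (Fin.cons u t : Fin (m + 1) → E)) *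
      (sdet h (Fin.cons v t : Fin (m + 1) → E) * sdet h' (Fin.cons v t : Fin (m + 1) → E)) := by
    calc 0 < _ := h4
      _ = _ := by ring
  exact (mul_pos_iff_of_pos_left hpos).1 h5

theorem pair_sign {m : ℕ} {X U U' : Set E} {h h' : E → Fin m → ℝ} {x : E}
    (hX : IsClosedPLManifold m X) (hc : ChartAt m X U h x) (hc' : ChartAt m X U' h' x) :
    ∃ σ : ℤˣ, ∃ V : Set E, IsOpen V ∧ x ∈ V ∧ ∀ a : Fin (m + 1) → E,
      convexHull ℝ (range a) ⊆ U ∩ U' ∩ V → AffOn h (convexHull ℝ (range a)) →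
      AffOn h' (convexHull ℝ (range a)) → 0 ≤ ((σ : ℤ) : ℝ) * (sdet h a * sdet h' a) := by
  obtain ⟨L, L', hLs, had, haff', haff, hL's, hf, hcar, hh⟩ := ORC_setup hc.1 hc'.1
  obtain ⟨V₀, hV₀, hxV₀, hVU⟩ := ORC_nhd hc hc'
  have hi : InjOn h U := hc.1.2.2.1
  have hi' : InjOn h' U' := hc'.1.2.2.1
  have hcont : ContinuousOn h U := hc.1.2.1.continuousOn
  have hUc : IsCompact U := hc.1.2.1.domain.isCompact
  have himg : h '' U = cube m := hc.1.2.2.2
  -- the ball `D`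
  have hclosed : IsClosed (h '' (U \ V₀)) :=
    ((hUc.diff hV₀).image_of_continuousOn (hcont.mono sdiff_subset)).isClosed
  have hxn : h x ∉ h '' (U \ V₀) := by
    rintro ⟨y, ⟨hyU, hyV⟩, hyx⟩
    rw [hi hyU hc.2.1 hyx] at hyV
    exact hyV hxV₀
  obtain ⟨ρ, hρ, hρD⟩ := Metric.isOpen_iff.1 (hclosed.isOpen_compl.inter isOpen_interior) (h x)
    ⟨hxn, interior_cube_mem hc.2.2.2⟩
  obtain ⟨D, hDdef⟩ : ∃ D, D = Metric.ball (h x) ρ := ⟨_, rfl⟩
  rw [← hDdef] at hρD
  have hDo : IsOpen D := by rw [hDdef]; exact Metric.isOpen_ball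
  have hDc : Convex ℝ D := by rw [hDdef]; exact convex_ball _ _
  have hxD : h x ∈ D := by rw [hDdef]; exact Metric.mem_ball_self hρ
  have hDint : D ⊆ interior (cube m) := fun y hy => (hρD hy).2
  have hDs : D ⊆ L'.space := by rw [hL's]; exact hDint.trans interior_subset
  have hDV : ∀ y ∈ U, h y ∈ D → y ∈ V₀ := by
    intro y hy hyD
    by_contra hyV
    exact (hρD hyD).1 ⟨y, ⟨hy, hyV⟩, rfl⟩
  -- the open set `V`
  obtain ⟨V, hVo, hxV, hVD⟩ := mem_nhdsWithin.1 ((hcont x hc.2.1).preimage_mem_nhdsWithin (hDo.mem_nhds hxD))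
  -- injectivity on faces
  have hUmem : ∀ {s : Finset E}, s ∈ L.faces → convexHull ℝ (s : Set E) ⊆ U := by
    intro s hs y hy
    rw [← hLs]
    exact mem_iUnion₂.2 ⟨s, hs, hy⟩
  have hfinj : ∀ {s t : Finset E}, s ∈ L.faces → t ∈ L.faces →
      h '' (s : Set E) ⊆ h '' (t : Set E) → s ⊆ t := by
    intro s t hs ht hst y hy
    obtain ⟨z, hz, hzy⟩ := hst ⟨y, hy, rfl⟩
    have := hi (hUmem ht (subset_convexHull ℝ _ hz)) (hUmem hs (subset_convexHull ℝ _ hy)) hzy
    rw [← this]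
    exact hz
  have hfcard : ∀ {s : Finset E} {s' : Finset (Fin m → ℝ)}, s ∈ L.faces →
      (s' : Set (Fin m → ℝ)) = h '' (s : Set E) → s.card = s'.card := by
    classical
    intro s s' hs hss
    have h1 : s' = s.image h := by
      apply Finset.coe_injective
      rw [Finset.coe_image, hss]
    rw [h1, Finset.card_image_of_injOn]
    intro y hy z hz hyz
    exact hi (hUmem hs (subset_convexHull ℝ _ hy)) (hUmem hs (subset_convexHull ℝ _ hz)) hyz
  have hcar' : ∀ {z : E} {s' : Finset (Fin m → ℝ)} {r : Finset E}, z ∈ U → r ∈ L.faces →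
      (s' : Set (Fin m → ℝ)) = h '' (r : Set E) → L'.IsCarrier (h z) s' → L.IsCarrier z r := by
    classical
    intro z s' r hz hr hrs hcz
    rw [← hLs] at hz
    obtain ⟨q, hq⟩ := GC.exists_carrier' hz
    have h1 := hcar z q hq (q.image h) (by rw [Finset.coe_image])
    have h2 := GC.carrier_unique h1 hcz
    have h3 : h '' (q : Set E) = h '' (r : Set E) := by
      rw [← hrs, ← h2, Finset.coe_image]
    have h4 : q = r := Finset.Subset.antisymm (hfinj hq.1 hr h3.subset) (hfinj hr hq.1 h3.symm.subset)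
    rw [← h4]
    exact hq
  -- the predicate
  obtain ⟨P, hP⟩ : ∃ P : Finset (Fin m → ℝ) → Prop, P = fun s' : Finset (Fin m → ℝ) => ∀ b ∈ L.faces,
      (s' : Set (Fin m → ℝ)) = h '' (b : Set E) → ∀ β : Fin (m + 1) → E, Function.Injective β →
      range β = (b : Set E) → 0 < sdet h β * sdet h' β := ⟨_, rfl⟩
  -- faces meeting `D` are inside `U ∩ U'`
  have hsubD : ∀ {b : Finset E} {s' : Finset (Fin m → ℝ)}, b ∈ L.faces →
      (s' : Set (Fin m → ℝ)) = h '' (b : Set E) →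
      (convexHull ℝ (s' : Set (Fin m → ℝ)) ∩ D).Nonempty →
      convexHull ℝ (b : Set E) ⊆ U ∩ U' := by
    intro b s' hb hbs hne
    obtain ⟨y, hy, hyD⟩ := hne
    rw [hbs, ← hh b hb] at hy
    obtain ⟨z, hz, rfl⟩ := hy
    exact ORC_sub hc.1.1 hV₀ hVU hLs had hb (hDV z (hUmem hb hz) hyD) hz
  have hstep : ∀ a ∈ L'.faces, ∀ b ∈ L'.faces, a.card = m + 1 → b.card = m + 1 → P a →
      (∃ (r : Finset (Fin m → ℝ)) (x : Fin m → ℝ),
        x ∈ D ∧ L'.IsCarrier x r ∧ r ⊆ a ∧ r ⊆ b ∧ r.card = m) → P b := by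
    intro a' ha' b' hb' hac hbc hPa ⟨r', y, hyD, hyr, hra, hrb, hrc⟩
    obtain ⟨r, hr, hrs⟩ := (hf r').1 hyr.1
    obtain ⟨a, ha, has⟩ := (hf a').1 ha'
    have hyr' : y ∈ convexHull ℝ (r' : Set (Fin m → ℝ)) := hyr.mem_hull
    have hyD' : ∀ {s' : Finset (Fin m → ℝ)}, r' ⊆ s' →
        (convexHull ℝ (s' : Set (Fin m → ℝ)) ∩ D).Nonempty := fun hs =>
      ⟨y, convexHull_mono (Finset.coe_subset.2 hs) hyr', hyD⟩
    rw [hP] at hPa ⊢
    intro b hb hbs β hβ hβr
    have hrab : ∀ {c : Finset E} {c' : Finset (Fin m → ℝ)}, c ∈ L.faces →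
        (c' : Set (Fin m → ℝ)) = h '' (c : Set E) → r' ⊆ c' → r ⊆ c := by
      intro c c' hc hcc hrc
      apply hfinj hr hc
      rw [← hrs, ← hcc]
      exact Finset.coe_subset.2 hrc
    obtain ⟨α, hα, hαr⟩ := ORC_enum ((hfcard ha has).trans hac)
    exact ORC_adj hi hi' hLs had haff' haff ha hb ((hfcard ha has).trans hac)
      ((hfcard hb hbs).trans hbc) (hrab ha has hra) (hrab hb hbs hrb) ((hfcard hr hrs).trans hrc)
      (hsubD ha has (hyD' hra)) (hsubD hb hbs (hyD' hrb)) hα hαr hβ hβr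
      (hPa a ha has α hα hαr)
  -- nonvanishing on top faces in `U ∩ U'`
  have hnz : ∀ {b : Finset E}, b ∈ L.faces → convexHull ℝ (b : Set E) ⊆ U ∩ U' →
      ∀ β : Fin (m + 1) → E, Function.Injective β → range β = (b : Set E) →
      AffineIndependent ℝ (fun i => h (β i)) ∧ AffineIndependent ℝ (fun i => h' (β i)) := by
    intro b hb hbN β hβ hβr
    have hβi := ORC_face_indep hb hβ hβr
    have h1 := haff b hb
    have h2 := haff' b hb hbN
    rw [← hβr] at h1 h2 hbN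
    exact ⟨ORC_indep hβi h1 (hi.mono (hbN.trans inter_subset_left)),
      ORC_indep hβi h2 (hi'.mono (hbN.trans inter_subset_right))⟩
  -- the top face at `x`
  obtain ⟨s₀, hs₀, hs₀c, hxs₀⟩ := L'.exists_top_of_interior (x := h x)
    (by rw [hL's]; exact interior_cube_mem hc.2.2.2)
  have hs₀D : (convexHull ℝ (s₀ : Set (Fin m → ℝ)) ∩ D).Nonempty := ⟨h x, hxs₀, hxD⟩
  -- local comparison
  have hcmp : ∀ a : Fin (m + 1) → E,
      convexHull ℝ (range a) ⊆ U ∩ U' ∩ V → AffOn h (convexHull ℝ (range a)) →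
      AffOn h' (convexHull ℝ (range a)) → sdet h a ≠ 0 →
      ∃ s' ∈ L'.faces, s'.card = m + 1 ∧ (convexHull ℝ (s' : Set (Fin m → ℝ)) ∩ D).Nonempty ∧
        ∃ b ∈ L.faces, (s' : Set (Fin m → ℝ)) = h '' (b : Set E) ∧
        ∃ β : Fin (m + 1) → E, Function.Injective β ∧ range β = (b : Set E) ∧
        sdet h β * sdet h' β ≠ 0 ∧
        ∃ p q κ : ℝ, κ ≠ 0 ∧ κ = p ^ 2 * (sdet h β * sdet h' β) ∧
          κ = q ^ 2 * (sdet h a * sdet h' a) := by
    intro a haN hA hA' ha0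
    have hai : AffineIndependent ℝ (fun i => h (a i)) := (sdet_ne_zero_iff h a).1 ha0
    obtain ⟨y₀, hy₀⟩ := ORC_interior hai
    have hD1 : interior (convexHull ℝ (range fun i => h (a i))) ⊆ D := by
      intro y hy
      have := interior_subset hy
      rw [ORC_image hA] at this
      obtain ⟨z, hz, rfl⟩ := this
      exact hVD ⟨(haN hz).2, (haN hz).1.1⟩
    obtain ⟨s', hs', hs'c, hy₀s'⟩ := L'.exists_top_of_interior (x := y₀)
      (by rw [hL's]; exact hDint (hD1 hy₀))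
    obtain ⟨g, hg, hgc⟩ := ORC_carrier hs' hy₀s'
    obtain ⟨δ, hδ, hδ1, hlim⟩ := ORC_lim isOpen_interior hy₀ g
    have hyc := hgc δ hδ hδ1
    have hyi := hlim δ hδ le_rfl
    obtain ⟨y, hy⟩ : ∃ y, y = (1 - δ) • y₀ + δ • g := ⟨_, rfl⟩
    rw [← hy] at hyc hyi
    have hya := interior_subset hyi
    rw [ORC_image hA] at hya
    obtain ⟨z, hza, hzy⟩ := hya
    have hzU : z ∈ U := (haN hza).1.1
    obtain ⟨b, hb, hbs, hbc, hzb⟩ := ORC_top hi hLs hf hh hzU hs' (by
      rw [hzy]; exact hyc.mem_hull)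
    have hzc : L.IsCarrier z b := hcar' hzU hb hbs (by rw [hzy]; exact hyc)
    have hbN : convexHull ℝ (b : Set E) ⊆ U ∩ U' :=
      (GC.adapted_iff.1 had) _ _ hzc (haN hza).1
    obtain ⟨β, hβ, hβr⟩ := ORC_enum (hbc.trans hs'c)
    obtain ⟨hind, hind'⟩ := hnz hb hbN β hβ hβr
    have hB : AffOn h (convexHull ℝ (range β)) := by rw [hβr]; exact haff b hb
    have hB' : AffOn h' (convexHull ℝ (range β)) := by rw [hβr]; exact haff' b hb hbN
    have hzβ : z ∈ convexHull ℝ (range β) := by rw [hβr]; exact hzb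
    have hcvx : Convex ℝ (convexHull ℝ (range β)) := convex_convexHull ℝ _
    have hmem : ∀ i, β i ∈ convexHull ℝ (range β) := fun i =>
      subset_convexHull ℝ _ (mem_range_self i)
    have hlim2 : ∀ i, ∃ δ : ℝ, 0 < δ ∧ δ ≤ 1 ∧ ∀ η : ℝ, 0 < η → η ≤ δ →
        (1 - η) • y + η • h (β i) ∈ interior (convexHull ℝ (range fun i => h (a i))) := fun i =>
      ORC_lim isOpen_interior hyi (h (β i))
    choose ε hε0 hε1 hε using hlim2
    obtain ⟨η, hη0, hηle⟩ : ∃ η : ℝ, 0 < η ∧ ∀ i, η ≤ ε i := by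
      refine ⟨Finset.univ.inf' Finset.univ_nonempty ε, ?_,
        fun i => Finset.inf'_le _ (Finset.mem_univ i)⟩
      rw [Finset.lt_inf'_iff]
      exact fun i _ => hε0 i
    have hη1 : η ≤ 1 := (hηle 0).trans (hε1 0)
    have hcβ : ∀ i, (1 - η) • z + η • β i ∈ convexHull ℝ (range β) := fun i =>
      ORC_hom_mem hcvx hzβ (hmem i) hη0 hη1
    have hcmap : ∀ i, h ((1 - η) • z + η • β i) = (1 - η) • y + η • h (β i) := fun i => by
      rw [ORC_hom_map hcvx hB hzβ (hmem i) hη0 hη1, hzy]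
    have hca : ∀ i, (1 - η) • z + η • β i ∈ convexHull ℝ (range a) := by
      intro i
      have h1 := interior_subset (hε i η hη0 (hηle i))
      rw [ORC_image hA, ← hcmap i] at h1
      obtain ⟨z', hz', hzz⟩ := h1
      have h2 : (1 - η) • z + η • β i ∈ U := by
        apply hUmem hb
        rw [← hβr]
        exact hcβ i
      rw [← hi (haN hz').1.1 h2 hzz]
      exact hz'
    obtain ⟨p, hp1, hp2⟩ := ORC_comb hcβ hB hB'
    obtain ⟨q, hq1, hq2⟩ := ORC_comb hca hA hA'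
    have hκ1 : sdet h (fun i => (1 - η) • z + η • β i) ≠ 0 := by
      rw [sdet_ne_zero_iff]
      have e : (fun i => h ((1 - η) • z + η • β i)) = fun i => (1 - η) • h z + η • h (β i) :=
        funext fun i => ORC_hom_map hcvx hB hzβ (hmem i) hη0 hη1
      show AffineIndependent ℝ (fun i => h ((1 - η) • z + η • β i))
      rw [e]
      exact ORC_hom_indep hind (h z) hη0.ne'
    have hκ2 : sdet h' (fun i => (1 - η) • z + η • β i) ≠ 0 := by
      rw [sdet_ne_zero_iff]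
      have e : (fun i => h' ((1 - η) • z + η • β i)) = fun i => (1 - η) • h' z + η • h' (β i) :=
        funext fun i => ORC_hom_map hcvx hB' hzβ (hmem i) hη0 hη1
      show AffineIndependent ℝ (fun i => h' ((1 - η) • z + η • β i))
      rw [e]
      exact ORC_hom_indep hind' (h' z) hη0.ne'
    refine ⟨s', hs', hs'c, ⟨y, hyc.mem_hull, hD1 hyi⟩, b, hb, hbs, β, hβ, hβr,
      mul_ne_zero ((sdet_ne_zero_iff h β).2 hind) ((sdet_ne_zero_iff h' β).2 hind'),
      p, q, sdet h (fun i => (1 - η) • z + η • β i) * sdet h' (fun i => (1 - η) • z + η • β i),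
      mul_ne_zero hκ1 hκ2, ?_, ?_⟩
    · rw [hp1, hp2]; ring
    · rw [hq1, hq2]; ring
  by_cases hPs : P s₀
  · refine ⟨1, V, hVo, hxV, ?_⟩
    intro a haN hA hA'
    by_cases ha0 : sdet h a = 0
    · rw [ha0]; simp
    obtain ⟨s', hs', hs'c, hs'D, b, hb, hbs, β, hβ, hβr, hne, p, q, κ, hκ, hκp, hκq⟩ :=
      hcmp a haN hA hA' ha0
    have hPs' := L'.conn_convex D hDo hDc hDs P hstep hs₀ hs' hs₀c hs'c hs₀D hs'D hPs
    rw [hP] at hPs'
    have hpos := hPs' b hb hbs β hβ hβr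
    have hκ0 : 0 ≤ κ := by rw [hκp]; positivity
    have hκ1 : 0 < κ := lt_of_le_of_ne hκ0 hκ.symm
    simp only [Units.val_one, Int.cast_one, one_mul]
    by_contra hneg
    push Not at hneg
    have : κ ≤ 0 := by
      rw [hκq]
      exact mul_nonpos_of_nonneg_of_nonpos (sq_nonneg q) hneg.le
    linarith
  · refine ⟨-1, V, hVo, hxV, ?_⟩
    intro a haN hA hA'
    by_cases ha0 : sdet h a = 0
    · rw [ha0]; simp
    obtain ⟨s', hs', hs'c, hs'D, b, hb, hbs, β, hβ, hβr, hne, p, q, κ, hκ, hκp, hκq⟩ :=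
      hcmp a haN hA hA' ha0
    have hPs' : ¬ P s' := fun hPs' =>
      hPs (L'.conn_convex D hDo hDc hDs P hstep hs' hs₀ hs'c hs₀c hs'D hs₀D hPs')
    have hneg : sdet h β * sdet h' β ≤ 0 := by
      by_contra hpos
      push Not at hpos
      apply hPs'
      rw [hP]
      intro b₂ hb₂ hbs₂ γ hγ hγr
      have : b₂ = b := Finset.Subset.antisymm (hfinj hb₂ hb (by rw [← hbs₂, hbs]))
        (hfinj hb hb₂ (by rw [← hbs₂, hbs]))
      rw [this] at hγr
      rw [ORC_prod_perm h h' hβ hγ (hβr.trans hγr.symm)]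
      exact hpos
    have hκ0 : κ ≤ 0 := by
      rw [hκp]
      exact mul_nonpos_of_nonneg_of_nonpos (sq_nonneg p) hneg
    have hκ1 : κ < 0 := lt_of_le_of_ne hκ0 hκ
    simp only [Units.val_neg, Units.val_one, Int.cast_neg, Int.cast_one, neg_mul, one_mul]
    by_contra hcon
    push Not at hcon
    have : 0 ≤ κ := by
      rw [hκq]
      have : 0 ≤ sdet h a * sdet h' a := by linarith
      positivity
    linarith

end Pool.H54.UB

end S_ORC

section S_ORD

/-!
# Row ORD: no nontrivial `ℤˣ`-cocycle implies orientable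

Proof.  `m = 0`: any atlas works (`sdet = 1`).  Let `m ≥ 1`.
1. `X` is compact.  For each `x` choose a chart; finitely many `(U_i, h_i)`, `i ∈ I`, and closed sets
   `C_i ⊆ X` covering `X` such that every `x ∈ C_i` satisfies `ChartAt m X U_i h_i x`
   (the set `W_i` of such `x` is open in `X`: it is the preimage of the open cube intersected with the
   interior of `U_i` relative to `X`; shrink the finite open cover of the compact space `X` to a closed
   cover, or use a Lebesgue number: `C_i = {x ∈ X | closed ball (x, δ) ∩ X ⊆ W_i}`).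
   Choose `i(x)` with `x ∈ C_{i(x)}`.
2. For `x ∈ W_i ∩ W_j` let `s_ij x ∈ ℤˣ` be the sign `σ` of `pair_sign` (unique, by
   `exists_small_simplex`).  It is locally constant on `W_i ∩ W_j` (same `V`; at `y ∈ V` compare on a
   small simplex at `y`), `s_ij s_jk = s_ik` on triple intersections (compare on a small simplex on
   which the three charts are affine and nondegenerate; `exists_small_simplex` for two charts, then
   subdivide for the third: or prove a three chart version), `s_ii = 1`, `s_ij = s_ji`.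
3. `c x y = s_{i(x) i(y)} x`.  `NCoc c X`: near `x₀` all points `x` have `x₀ ∈ C_{i(x)}` (finite closed
   cover), and all the finitely many `s_ij` with `x₀ ∈ W_i ∩ W_j` are constant near `x₀`.
4. Let `g` be a primitive (`hQ`); near every `x₀`: `c x y = g x * g y` (`ℤˣ` is commutative of
   exponent 2).
5. Atlas: for `x ∈ X` a chart `(U_x, h_x)` at `x` with `U_x = h_{i(x)}⁻¹ (small cube around h_{i(x)} x)`,
   rescaled to the standard cube (positive homothety), contained in a neighbourhood of `x` on which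
   `c y z = g y g z` and `s_{i(x) j}` is constant for the `j` with `x ∈ C_j` and all points `y` have
   `x ∈ C_{i(y)}`; if `g x = -1` compose with the reflection of the coordinate `0` (`m ≥ 1`), which
   changes the sign of `sdet`.  For two such charts at `x`, `y` and a simplex `a` in `U_x ∩ U_y`
   (nondegenerate) let `z` be a point of its hull: `c x z = s_{i(x) i(z)} x = s_{i(x) i(z)} z`,
   `c y z = s_{i(y) i(z)} z`, so `s_{i(x) i(y)} z = c x z * c y z = g x g z g y g z = g x g y`; hence the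
   signs of the modified charts agree.
-/

open Set Topology

namespace Pool.H54.UB

variable {E : Type*} [NormedAddCommGroup E] [NormedSpace ℝ E] [FiniteDimensional ℝ E]

/-- a Lebesgue number -/
theorem ORD_leb {X : Set E} (hX : IsCompact X) (Q : Set E → Prop)
    (h : ∀ x ∈ X, ∃ O : Set E, IsOpen O ∧ x ∈ O ∧ Q O) :
    ∃ δ > 0, ∀ x ∈ X, ∃ O : Set E, Q O ∧ Metric.ball x δ ⊆ O := by
  choose! O hO1 hO2 hO3 using h
  obtain ⟨δ, hδ, hδ'⟩ := lebesgue_number_lemma_of_metric (c := fun x : X => O x) hX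
    (fun x => hO1 x x.2) (fun x hx => mem_iUnion.2 ⟨⟨x, hx⟩, hO2 x hx⟩)
  refine ⟨δ, hδ, fun x hx => ?_⟩
  obtain ⟨i, hi⟩ := hδ' x hx
  exact ⟨O i, hO3 i i.2, hi⟩

/-- the domain of validity of a chart is open -/
theorem ORD_open {m : ℕ} {X U : Set E} {h : E → Fin m → ℝ} {x : E} (hc : ChartAt m X U h x) :
    ∃ O : Set E, IsOpen O ∧ x ∈ O ∧ ∀ y ∈ O ∩ X, ChartAt m X U h y := by
  obtain ⟨h1, h2, h3, h4⟩ := hc
  obtain ⟨O₁, hO₁, hx₁, hs₁⟩ := mem_nhdsWithin.1 h3
  have hcont : ContinuousOn h U := h1.2.1.continuousOn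
  have hop : IsOpen {y : Fin m → ℝ | ∀ i, -1 < y i ∧ y i < 1} := by
    have : {y : Fin m → ℝ | ∀ i, -1 < y i ∧ y i < 1} =
        ⋂ i, {y : Fin m → ℝ | -1 < y i ∧ y i < 1} := by
      ext y
      simp
    rw [this]
    refine isOpen_iInter_of_finite fun i => ?_
    exact (isOpen_lt continuous_const (continuous_apply i)).inter
      (isOpen_lt (continuous_apply i) continuous_const)
  obtain ⟨O₂, hO₂, hs₂⟩ := (continuousOn_iff'.1 hcont) _ hop
  refine ⟨O₁ ∩ O₂, hO₁.inter hO₂, ⟨hx₁, ?_⟩, ?_⟩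
  · have : x ∈ h ⁻¹' {y : Fin m → ℝ | ∀ i, -1 < y i ∧ y i < 1} ∩ U := ⟨h4, h2⟩
    rw [hs₂] at this
    exact this.1
  · rintro y ⟨⟨hy1, hy2⟩, hyX⟩
    have hyU : y ∈ U := hs₁ ⟨hy1, hyX⟩
    refine ⟨h1, hyU, mem_nhdsWithin.2 ⟨O₁, hO₁, hy1, hs₁⟩, ?_⟩
    have : y ∈ O₂ ∩ U := ⟨hy2, hyU⟩
    rw [← hs₂] at this
    exact this.1

theorem ORD_weights {m : ℕ} {a a' : Fin (m + 1) → E}
    (ha' : ∀ i, a' i ∈ convexHull ℝ (range a)) :
    ∃ W : Matrix (Fin (m + 1)) (Fin (m + 1)) ℝ, (∀ i, ∑ k, W i k = 1) ∧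
      ∀ i, a' i = ∑ k, W i k • a k := by
  have h : ∀ i, ∃ w : Fin (m + 1) → ℝ, ∑ k, w k = 1 ∧ a' i = ∑ k, w k • a k := by
    intro i
    obtain ⟨w, hw, hw'⟩ := eq_affineCombination_of_mem_affineSpan_of_fintype
      (convexHull_subset_affineSpan _ (ha' i))
    refine ⟨w, hw, ?_⟩
    rw [hw', Finset.affineCombination_eq_linear_combination _ _ _ hw]
  choose W h1 h2 using h
  exact ⟨W, h1, h2⟩

theorem ORD_sdet {m : ℕ} {h : E → Fin m → ℝ} {a a' : Fin (m + 1) → E}
    (hA : AffOn h (convexHull ℝ (range a))) (ha' : ∀ i, a' i ∈ convexHull ℝ (range a))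
    (W : Matrix (Fin (m + 1)) (Fin (m + 1)) ℝ) (hW : ∀ i, ∑ k, W i k = 1)
    (hW' : ∀ i, a' i = ∑ k, W i k • a k) : sdet h a' = W.det * sdet h a := by
  obtain ⟨A, hA⟩ := hA
  have h1 : sdet h a' = sdet A a' := sdet_congr fun i => hA (ha' i)
  have h2 : sdet h a = sdet A a := sdet_congr fun i =>
    hA (subset_convexHull ℝ _ (mem_range_self i))
  rw [h1, h2]
  exact sdet_comb A a a' W hW hW'

/-- the relative sign of two charts at a point -/
def ORD_P (m : ℕ) (U U' : Set E) (h h' : E → Fin m → ℝ) (z : E) (σ : ℤˣ) : Prop :=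
  ∃ V : Set E, IsOpen V ∧ z ∈ V ∧ ∀ a : Fin (m + 1) → E,
      convexHull ℝ (range a) ⊆ U ∩ U' ∩ V → AffOn h (convexHull ℝ (range a)) →
      AffOn h' (convexHull ℝ (range a)) → 0 ≤ ((σ : ℤ) : ℝ) * (sdet h a * sdet h' a)

theorem ORD_sign {σ τ : ℤˣ} {p : ℝ} (hp : p ≠ 0) (h1 : 0 ≤ ((σ : ℤ) : ℝ) * p)
    (h2 : 0 ≤ ((τ : ℤ) : ℝ) * p) : σ = τ := by
  rcases Int.units_eq_one_or σ with rfl | rfl <;> rcases Int.units_eq_one_or τ with rfl | rfl
  · rfl
  · exfalso
    simp only [Units.val_one, Int.cast_one, one_mul, Units.val_neg, Int.cast_neg, neg_mul] at h1 h2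
    exact hp (le_antisymm (by linarith) h1)
  · exfalso
    simp only [Units.val_one, Int.cast_one, one_mul, Units.val_neg, Int.cast_neg, neg_mul] at h1 h2
    exact hp (le_antisymm (by linarith) h2)
  · rfl

theorem ORD_uniq {m : ℕ} {X U U' : Set E} {h h' : E → Fin m → ℝ} {z : E}
    (hc : ChartAt m X U h z) (hc' : ChartAt m X U' h' z) {σ τ : ℤˣ}
    (h1 : ORD_P m U U' h h' z σ) (h2 : ORD_P m U U' h h' z τ) : σ = τ := by
  obtain ⟨V, hV, hz, h1⟩ := h1
  obtain ⟨V', hV', hz', h2⟩ := h2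
  obtain ⟨a, ha1, ha2, ha3, ha4, ha5⟩ := exists_small_simplex hc hc' (hV.inter hV') ⟨hz, hz'⟩
  exact ORD_sign (mul_ne_zero ha4 ha5)
    (h1 a (fun y hy => ⟨(ha1 hy).1, (ha1 hy).2.1⟩) ha2 ha3)
    (h2 a (fun y hy => ⟨(ha1 hy).1, (ha1 hy).2.2⟩) ha2 ha3)

theorem ORD_loc {m : ℕ} {U U' : Set E} {h h' : E → Fin m → ℝ} {z : E} {σ : ℤˣ}
    (h1 : ORD_P m U U' h h' z σ) :
    ∃ V : Set E, IsOpen V ∧ z ∈ V ∧ ∀ y ∈ V, ORD_P m U U' h h' y σ := by
  obtain ⟨V, hV, hz, h1⟩ := h1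
  exact ⟨V, hV, hz, fun y hy => ⟨V, hV, hy, h1⟩⟩

/-- a small simplex for three charts -/
theorem ORD_three {m : ℕ} {X U₁ U₂ U₃ : Set E} {h₁ h₂ h₃ : E → Fin m → ℝ} {z : E}
    (hc₁ : ChartAt m X U₁ h₁ z) (hc₂ : ChartAt m X U₂ h₂ z) (hc₃ : ChartAt m X U₃ h₃ z)
    {V : Set E} (hV : IsOpen V) (hz : z ∈ V) :
    ∃ a : Fin (m + 1) → E, convexHull ℝ (range a) ⊆ U₁ ∩ U₂ ∩ U₃ ∩ V ∧
      AffOn h₁ (convexHull ℝ (range a)) ∧ AffOn h₂ (convexHull ℝ (range a)) ∧
      AffOn h₃ (convexHull ℝ (range a)) ∧ sdet h₁ a ≠ 0 ∧ sdet h₂ a ≠ 0 ∧ sdet h₃ a ≠ 0 := by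
  obtain ⟨O₁, hO₁, hz₁, ho₁⟩ := ORD_open hc₁
  obtain ⟨O₂, hO₂, hz₂, ho₂⟩ := ORD_open hc₂
  obtain ⟨a, ha1, ha2, ha3, ha4, ha5⟩ := exists_small_simplex hc₁ hc₃
    (hV.inter (hO₁.inter hO₂)) ⟨hz, hz₁, hz₂⟩
  have hind : AffineIndependent ℝ (fun i => h₁ (a i)) := (sdet_ne_zero_iff h₁ a).1 ha4
  have htop : affineSpan ℝ (range fun i => h₁ (a i)) = ⊤ := by
    rw [hind.affineSpan_eq_top_iff_card_eq_finrank_add_one]
    simp
  have hint : (interior (convexHull ℝ (range fun i => h₁ (a i)))).Nonempty :=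
    interior_convexHull_nonempty_iff_affineSpan_eq_top.2 htop
  have himg : convexHull ℝ (range fun i => h₁ (a i)) = h₁ '' convexHull ℝ (range a) := by
    obtain ⟨A, hA⟩ := ha2
    have e1 : (range fun i => h₁ (a i)) = A '' range a := by
      rw [← range_comp]
      congr 1
      funext i
      exact hA (subset_convexHull ℝ _ (mem_range_self i))
    rw [e1, ← AffineMap.image_convexHull]
    exact (image_congr hA).symm
  obtain ⟨w, hw⟩ := hint
  have hw2 : w ∈ h₁ '' convexHull ℝ (range a) := by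
    rw [← himg]
    exact interior_subset hw
  obtain ⟨z', hz', hzw⟩ := hw2
  obtain ⟨O₃, hO₃, hs₃⟩ := (continuousOn_iff'.1 hc₁.1.2.1.continuousOn) _
    (isOpen_interior (s := convexHull ℝ (range fun i => h₁ (a i))))
  have hz'1 : z' ∈ U₁ := (ha1 hz').1.1
  have hz'O₃ : z' ∈ O₃ := by
    have h5 : z' ∈ h₁ ⁻¹' interior (convexHull ℝ (range fun i => h₁ (a i))) ∩ U₁ := by
      refine ⟨?_, hz'1⟩
      rw [mem_preimage, hzw]
      exact hw
    rw [hs₃] at h5
    exact h5.1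
  have hsub : ∀ y ∈ O₃ ∩ U₁, y ∈ convexHull ℝ (range a) := by
    intro y hy
    have hyU : y ∈ U₁ := hy.2
    rw [← hs₃] at hy
    have h5 : h₁ y ∈ h₁ '' convexHull ℝ (range a) := by
      rw [← himg]
      exact interior_subset hy.1
    obtain ⟨y', hy', he⟩ := h5
    have : y' = y := hc₁.1.2.2.1 (ha1 hy').1.1 hyU he
    rwa [← this]
  have hz'X : z' ∈ X := hc₁.1.1 hz'1
  obtain ⟨b, hb1, hb2, hb3, hb4, hb5⟩ := exists_small_simplex
    (ho₁ z' ⟨(ha1 hz').2.2.1, hz'X⟩) (ho₂ z' ⟨(ha1 hz').2.2.2, hz'X⟩) hO₃ hz'O₃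
  have hba : convexHull ℝ (range b) ⊆ convexHull ℝ (range a) := fun y hy =>
    hsub y ⟨(hb1 hy).2, (hb1 hy).1.1⟩
  have hbi : ∀ i, b i ∈ convexHull ℝ (range a) := fun i =>
    hba (subset_convexHull ℝ _ (mem_range_self i))
  obtain ⟨W, hW, hW'⟩ := ORD_weights hbi
  have e1 := ORD_sdet ha2 hbi W hW hW'
  have e3 := ORD_sdet ha3 hbi W hW hW'
  refine ⟨b, fun y hy => ⟨⟨(hb1 hy).1, (ha1 (hba hy)).1.2⟩, (ha1 (hba hy)).2.1⟩, hb2, hb3, ?_,
    hb4, hb5, ?_⟩
  · obtain ⟨A, hA⟩ := ha3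
    exact ⟨A, hA.mono hba⟩
  · rw [e3]
    rw [e1] at hb4
    exact mul_ne_zero (left_ne_zero_of_mul hb4) ha5

theorem ORD_mul {m : ℕ} {X U₁ U₂ U₃ : Set E} {h₁ h₂ h₃ : E → Fin m → ℝ} {z : E}
    (hc₁ : ChartAt m X U₁ h₁ z) (hc₂ : ChartAt m X U₂ h₂ z) (hc₃ : ChartAt m X U₃ h₃ z)
    {σ τ ρ : ℤˣ} (h12 : ORD_P m U₁ U₂ h₁ h₂ z σ) (h23 : ORD_P m U₂ U₃ h₂ h₃ z τ)
    (h13 : ORD_P m U₁ U₃ h₁ h₃ z ρ) : σ * τ = ρ := by
  obtain ⟨V, hV, hz, h12⟩ := h12
  obtain ⟨V', hV', hz', h23⟩ := h23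
  obtain ⟨V'', hV'', hz'', h13⟩ := h13
  obtain ⟨a, ha, a1, a2, a3, d1, d2, d3⟩ := ORD_three hc₁ hc₂ hc₃
    (hV.inter (hV'.inter hV'')) ⟨hz, hz', hz''⟩
  have e12 := h12 a (fun y hy => ⟨⟨(ha hy).1.1.1, (ha hy).1.1.2⟩, (ha hy).2.1⟩) a1 a2
  have e23 := h23 a (fun y hy => ⟨⟨(ha hy).1.1.2, (ha hy).1.2⟩, (ha hy).2.2.1⟩) a2 a3
  have e13 := h13 a (fun y hy => ⟨⟨(ha hy).1.1.1, (ha hy).1.2⟩, (ha hy).2.2.2⟩) a1 a3
  refine ORD_sign (mul_ne_zero d1 d3) ?_ e13
  have h5 := mul_nonneg e12 e23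
  have h6 : 0 < sdet h₂ a * sdet h₂ a := mul_self_pos.2 d2
  have h7 : (((σ * τ : ℤˣ) : ℤ) : ℝ) = ((σ : ℤ) : ℝ) * ((τ : ℤ) : ℝ) := by
    rw [Units.val_mul, Int.cast_mul]
  rw [h7]
  refine nonneg_of_mul_nonneg_left (b := sdet h₂ a * sdet h₂ a) ?_ h6
  calc (0 : ℝ) ≤ _ := h5
    _ = _ := by ring

theorem ORD_const {m : ℕ} {X U U' : Set E} {h h' : E → Fin m → ℝ} (hX : IsClosedPLManifold m X)
    {N : Set E} (hN : IsPreconnected N) (h1 : ∀ z ∈ N, ChartAt m X U h z)
    (h2 : ∀ z ∈ N, ChartAt m X U' h' z) {x y : E} (hx : x ∈ N) (hy : y ∈ N) {σ : ℤˣ}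
    (hP : ORD_P m U U' h h' x σ) : ORD_P m U U' h h' y σ := by
  have hex : ∀ z ∈ N, ∃ τ : ℤˣ, ORD_P m U U' h h' z τ := fun z hz =>
    pair_sign hX (h1 z hz) (h2 z hz)
  choose! s hs using hex
  let _ : TopologicalSpace ℤˣ := ⊥
  have _ : DiscreteTopology ℤˣ := ⟨rfl⟩
  have hc : ContinuousOn s N := by
    intro z hz
    obtain ⟨V, hV, hzV, hV'⟩ := ORD_loc (hs z hz)
    refine (continuousWithinAt_const (b := s z)).congr_of_eventuallyEq ?_ rfl
    filter_upwards [mem_nhdsWithin_of_mem_nhds (hV.mem_nhds hzV), self_mem_nhdsWithin]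
      with w hw hw'
    exact ORD_uniq (h1 w hw') (h2 w hw') (hs w hw') (hV' w hw)
  have e1 : s x = s y := hN.constant hc hx hy
  have e2 : s x = σ := ORD_uniq (h1 x hx) (h2 x hx) (hs x hx) hP
  have e3 := hs y hy
  rwa [← e1, e2] at e3

/-- small preconnected chart domains -/
theorem ORD_small {m : ℕ} {X U : Set E} {h : E → Fin m → ℝ} {x : E} (hc : ChartAt m X U h x)
    {ε : ℝ} (hε : 0 < ε) :
    ∃ ρ : ℝ, 0 < ρ ∧ ∃ N : Set E, N ⊆ U ∧ N ⊆ Metric.ball x ε ∧ IsPreconnected N ∧ x ∈ N ∧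
      N ∈ 𝓝[X] x ∧ IsPoly N ∧ h '' N = {y | ∀ i, h x i - ρ ≤ y i ∧ y i ≤ h x i + ρ} := by
  obtain ⟨⟨h1, h2, h3, h4⟩, h5, h6, h7⟩ := hc
  have hU : IsCompact U := h2.domain.isCompact
  have hcont : ContinuousOn h U := h2.continuousOn
  -- the far away part
  have hK : IsCompact (h '' (U \ Metric.ball x ε)) :=
    (hU.diff Metric.isOpen_ball).image_of_continuousOn (hcont.mono diff_subset)
  have hxK : h x ∈ (h '' (U \ Metric.ball x ε))ᶜ := by
    rintro ⟨y, hy, he⟩
    have : y = x := h3 hy.1 h5 he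
    rw [this] at hy
    exact hy.2 (Metric.mem_ball_self hε)
  obtain ⟨r₁, hr₁, hb₁⟩ := Metric.isOpen_iff.1 hK.isClosed.isOpen_compl _ hxK
  have hxc : h x ∈ interior (cube m) := interior_cube_mem h7
  obtain ⟨r₂, hr₂, hb₂⟩ := Metric.isOpen_iff.1 isOpen_interior _ hxc
  obtain ⟨ρ, hρ, hρ1, hρ2⟩ : ∃ ρ : ℝ, 0 < ρ ∧ ρ < r₁ ∧ ρ < r₂ :=
    ⟨min r₁ r₂ / 2, by positivity, by
      have := min_le_left r₁ r₂
      linarith, by
      have := min_le_right r₁ r₂
      linarith⟩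
  obtain ⟨B, hB⟩ : ∃ B : Set (Fin m → ℝ), B = {y | ∀ i, h x i - ρ ≤ y i ∧ y i ≤ h x i + ρ} :=
    ⟨_, rfl⟩
  have hBball : ∀ y ∈ B, dist y (h x) ≤ ρ := by
    intro y hy
    rw [hB] at hy
    rw [dist_pi_le_iff hρ.le]
    intro i
    rw [Real.dist_eq, abs_le]
    have := hy i
    constructor <;> linarith [this.1, this.2]
  have hBcube : B ⊆ cube m := fun y hy =>
    interior_subset (hb₂ (Metric.mem_ball.2 (lt_of_le_of_lt (hBball y hy) hρ2)))
  have hBconv : Convex ℝ B := by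
    have : B = Set.pi univ fun i => Icc (h x i - ρ) (h x i + ρ) := by
      rw [hB]
      ext y
      simp only [mem_setOf_eq, mem_pi, mem_univ, forall_const, mem_Icc]
    rw [this]
    exact convex_pi fun i _ => convex_Icc _ _
  have hBpoly : IsPoly B := by
    rw [hB]
    exact isPoly_box _ _
  have hxB : h x ∈ B := by
    rw [hB]
    intro i
    constructor <;> linarith
  refine ⟨ρ, hρ, U ∩ h ⁻¹' B, inter_subset_left, ?_, ?_, ⟨h5, hxB⟩, ?_, h2.preimage hBpoly, ?_⟩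
  · rintro y ⟨hy, hyB⟩
    by_contra hcon
    exact hb₁ (Metric.mem_ball.2 (lt_of_le_of_lt (hBball _ hyB) hρ1)) ⟨y, ⟨hy, hcon⟩, rfl⟩
  · -- preconnected
    have : CompactSpace U := isCompact_iff_compactSpace.1 hU
    have hcr : Continuous (U.restrict h) := continuousOn_iff_continuous_restrict.1 hcont
    have hpre : IsPreconnected ((U.restrict h) ⁻¹' B) := by
      refine IsPreconnected.preimage_of_isClosedMap hBconv.isPreconnected ?_ hcr.isClosedMap ?_
      · exact h3.injective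
      · intro y hy
        have : y ∈ h '' U := by
          rw [h4]
          exact hBcube hy
        obtain ⟨u, hu, rfl⟩ := this
        exact ⟨⟨u, hu⟩, rfl⟩
    have heq : U ∩ h ⁻¹' B = Subtype.val '' ((U.restrict h) ⁻¹' B) := by
      ext y
      constructor
      · rintro ⟨hy, hyB⟩
        exact ⟨⟨y, hy⟩, hyB, rfl⟩
      · rintro ⟨⟨u, hu⟩, huB, rfl⟩
        exact ⟨hu, huB⟩
    rw [heq]
    exact hpre.image _ continuous_subtype_val.continuousOn
  · -- neighbourhood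
    have hBn : B ∈ 𝓝 (h x) := by
      refine Filter.mem_of_superset (Metric.ball_mem_nhds (h x) hρ) ?_
      intro y hy
      rw [hB]
      intro i
      have h8 : dist (y i) (h x i) < ρ := lt_of_le_of_lt (dist_le_pi_dist y (h x) i)
        (Metric.mem_ball.1 hy)
      rw [Real.dist_eq, abs_lt] at h8
      constructor <;> linarith [h8.1, h8.2]
    have h8 : h ⁻¹' B ∈ 𝓝[U] x := hcont x h5 hBn
    have h9 : 𝓝[X] x ≤ 𝓝[U] x := by
      rw [nhdsWithin_le_iff]
      exact h6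
    exact Filter.inter_mem h6 (h9 h8)
  · ext y
    constructor
    · rintro ⟨u, ⟨_, hu⟩, rfl⟩
      rw [hB] at hu
      exact hu
    · intro hy
      have hyB : y ∈ B := by
        rw [hB]
        exact hy
      have : y ∈ h '' U := by
        rw [h4]
        exact hBcube hyB
      obtain ⟨u, hu, rfl⟩ := this
      exact ⟨u, ⟨hu, hyB⟩, rfl⟩

/-- shrinking a simplex towards one of its vertices -/
theorem ORD_shrink {m : ℕ} {U U' : Set E} {h h' : E → Fin m → ℝ} {a : Fin (m + 1) → E} {σ : ℤˣ}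
    (hP : ORD_P m U U' h h' (a 0) σ) (ha : convexHull ℝ (range a) ⊆ U ∩ U')
    (h1 : AffOn h (convexHull ℝ (range a))) (h2 : AffOn h' (convexHull ℝ (range a))) :
    0 ≤ ((σ : ℤ) : ℝ) * (sdet h a * sdet h' a) := by
  obtain ⟨V, hV, hz, hP⟩ := hP
  obtain ⟨r, hr, hrV⟩ := Metric.isOpen_iff.1 hV _ hz
  obtain ⟨η, hη1, hη0, hη2⟩ : ∃ η : ℝ, (∀ i, AffineMap.lineMap (a 0) (a i) η ∈ Metric.ball (a 0) r)
      ∧ 0 < η ∧ η < 1 := by
    have e1 : ∀ᶠ η : ℝ in 𝓝[>] 0, ∀ i, AffineMap.lineMap (a 0) (a i) η ∈ Metric.ball (a 0) r := by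
      rw [Filter.eventually_all]
      intro i
      have hcl : Continuous fun η : ℝ => (AffineMap.lineMap (a 0) (a i) η : E) :=
        AffineMap.lineMap_continuous
      have h5 : (fun η : ℝ => (AffineMap.lineMap (a 0) (a i) η : E)) ⁻¹' Metric.ball (a 0) r ∈
          𝓝 (0 : ℝ) := by
        refine hcl.continuousAt.preimage_mem_nhds ?_
        rw [AffineMap.lineMap_apply_zero]
        exact Metric.ball_mem_nhds _ hr
      exact mem_nhdsWithin_of_mem_nhds h5
    have e2 : ∀ᶠ η : ℝ in 𝓝[>] 0, 0 < η := self_mem_nhdsWithin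
    have e3 : ∀ᶠ η : ℝ in 𝓝[>] 0, η < 1 :=
      mem_nhdsWithin_of_mem_nhds (Iio_mem_nhds one_pos)
    exact (e1.and (e2.and e3)).exists
  obtain ⟨b, hb⟩ : ∃ b : Fin (m + 1) → E, b = fun i => AffineMap.lineMap (a 0) (a i) η := ⟨_, rfl⟩
  have hba : ∀ i, b i ∈ convexHull ℝ (range a) := by
    intro i
    rw [hb]
    exact (convex_convexHull ℝ (range a)).lineMap_mem (subset_convexHull ℝ _ (mem_range_self 0))
      (subset_convexHull ℝ _ (mem_range_self i)) ⟨hη0.le, hη2.le⟩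
  have hsub : convexHull ℝ (range b) ⊆ convexHull ℝ (range a) := by
    refine convexHull_min ?_ (convex_convexHull ℝ _)
    rintro _ ⟨i, rfl⟩
    exact hba i
  have hsub2 : convexHull ℝ (range b) ⊆ Metric.ball (a 0) r := by
    refine convexHull_min ?_ (convex_ball _ _)
    rintro _ ⟨i, rfl⟩
    rw [hb]
    exact hη1 i
  have key : ∀ k : E → Fin m → ℝ, AffOn k (convexHull ℝ (range a)) →
      sdet k b = η ^ m * sdet k a := by
    rintro k ⟨A, hA⟩
    have e0 : ∀ i, k (a i) = A (a i) := fun i => hA (subset_convexHull ℝ _ (mem_range_self i))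
    have e1 : ∀ i j, k (b i) j = k (a 0) j + η * (k (a i) j - k (a 0) j) := by
      intro i j
      rw [hA (hba i), hb]
      beta_reduce
      rw [AffineMap.apply_lineMap, e0, e0, AffineMap.lineMap_apply]
      simp only [vsub_eq_sub, vadd_eq_add, Pi.add_apply, Pi.smul_apply, Pi.sub_apply, smul_eq_mul]
      ring
    unfold sdet
    have e2 : (Matrix.of fun i j : Fin m => k (b i.succ) j - k (b 0) j) =
        η • (Matrix.of fun i j : Fin m => k (a i.succ) j - k (a 0) j) := by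
      ext i j
      rw [Matrix.smul_apply, Matrix.of_apply, Matrix.of_apply, e1, e1, smul_eq_mul]
      ring
    rw [e2, Matrix.det_smul, Fintype.card_fin]
  have h5 := hP b (fun y hy => ⟨ha (hsub hy), hrV (hsub2 hy)⟩)
    (h1.imp fun A hA => hA.mono hsub) (h2.imp fun A hA => hA.mono hsub)
  rw [key h h1, key h' h2] at h5
  have h6 : 0 < η ^ m * η ^ m := by positivity
  refine nonneg_of_mul_nonneg_left (b := η ^ m * η ^ m) ?_ h6
  calc (0 : ℝ) ≤ _ := h5
    _ = _ := by ring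

/-- the affine coordinate change `w ↦ c (w - p)` -/
noncomputable def ORD_aff {m : ℕ} (c p : Fin m → ℝ) : (Fin m → ℝ) →ᵃ[ℝ] (Fin m → ℝ) :=
  (LinearMap.pi fun i => c i • LinearMap.proj (R := ℝ) (φ := fun _ : Fin m => ℝ) i).toAffineMap +
    AffineMap.const ℝ (Fin m → ℝ) (fun i => -(c i * p i))

theorem ORD_aff_apply {m : ℕ} (c p w : Fin m → ℝ) (i : Fin m) :
    ORD_aff c p w i = c i * (w i - p i) := by
  have : ORD_aff c p w i = c i * w i + -(c i * p i) := rfl
  rw [this]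
  ring

theorem ORD_sdet_aff {m : ℕ} (c p : Fin m → ℝ) (h : E → Fin m → ℝ) (a : Fin (m + 1) → E) :
    sdet (fun y => ORD_aff c p (h y)) a = (∏ i, c i) * sdet h a := by
  unfold sdet
  rw [← Matrix.det_mul_row]
  congr 1
  ext i j
  change ORD_aff c p (h (a i.succ)) j - ORD_aff c p (h (a 0)) j =
    c j * (h (a i.succ) j - h (a 0) j)
  rw [ORD_aff_apply, ORD_aff_apply]
  ring

theorem ORD_affOn {m : ℕ} {c p : Fin m → ℝ} (hc : ∀ i, c i ≠ 0) {h : E → Fin m → ℝ} {S : Set E}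
    (hA : AffOn (fun y => ORD_aff c p (h y)) S) : AffOn h S := by
  obtain ⟨A, hA⟩ := hA
  refine ⟨(ORD_aff (fun i => (c i)⁻¹) (fun i => -(c i * p i))).comp A, fun y hy => ?_⟩
  rw [AffineMap.comp_apply, ← hA hy]
  funext i
  beta_reduce
  rw [ORD_aff_apply, ORD_aff_apply]
  field_simp [hc i]
  ring

/-- the small oriented chart -/
theorem ORD_chart {m : ℕ} {X U N : Set E} {h : E → Fin m → ℝ} {x : E} (hc : ChartAt m X U h x)
    {ρ : ℝ} (hρ : 0 < ρ) (hNU : N ⊆ U) (hxN : x ∈ N) (hN : N ∈ 𝓝[X] x) (hpoly : IsPoly N)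
    (himg : h '' N = {y | ∀ i, h x i - ρ ≤ y i ∧ y i ≤ h x i + ρ}) {c : Fin m → ℝ}
    (hcρ : ∀ i, c i = ρ⁻¹ ∨ c i = -ρ⁻¹) :
    ChartAt m X N (fun y => ORD_aff c (h x) (h y)) x := by
  obtain ⟨⟨h1, h2, h3, h4⟩, h5, h6, h7⟩ := hc
  have hρ' : 0 < ρ⁻¹ := inv_pos.2 hρ
  have hc0 : ∀ i, c i ≠ 0 := by
    intro i
    rcases hcρ i with h8 | h8
    · rw [h8]
      exact hρ'.ne'
    · rw [h8]
      exact neg_ne_zero.2 hρ'.ne'
  refine ⟨⟨hNU.trans h1, (h2.mono hpoly hNU).affine_comp _, ?_, ?_⟩, hxN, hN, ?_⟩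
  · intro y hy y' hy' he
    apply h3 (hNU hy) (hNU hy')
    funext i
    have h8 := congrFun he i
    beta_reduce at h8
    rw [ORD_aff_apply, ORD_aff_apply] at h8
    have h9 := mul_left_cancel₀ (hc0 i) h8
    linarith
  · ext w
    constructor
    · rintro ⟨y, hy, rfl⟩ i
      have h8 : h y ∈ h '' N := mem_image_of_mem h hy
      rw [himg] at h8
      have h9 := h8 i
      beta_reduce
      rw [ORD_aff_apply]
      have h10 : -1 ≤ ρ⁻¹ * (h y i - h x i) ∧ ρ⁻¹ * (h y i - h x i) ≤ 1 := by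
        rw [← div_eq_inv_mul, le_div_iff₀ hρ, div_le_iff₀ hρ]
        constructor <;> linarith [h9.1, h9.2]
      rcases hcρ i with h11 | h11
      · rw [h11]
        exact h10
      · rw [h11]
        constructor <;> linarith [h10.1, h10.2]
    · intro hw
      have h8 : (fun i => h x i + (c i)⁻¹ * w i) ∈ h '' N := by
        rw [himg]
        intro i
        have h9 := hw i
        have h10 : -ρ ≤ ρ * w i ∧ ρ * w i ≤ ρ := by
          constructor <;> nlinarith [h9.1, h9.2]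
        beta_reduce
        rcases hcρ i with h11 | h11
        · rw [h11, inv_inv]
          constructor <;> linarith [h10.1, h10.2]
        · rw [h11, inv_neg, inv_inv]
          constructor <;> linarith [h10.1, h10.2]
      obtain ⟨y, hy, he⟩ := h8
      refine ⟨y, hy, ?_⟩
      funext i
      beta_reduce
      rw [ORD_aff_apply, he]
      have := hc0 i
      field_simp
      ring
  · intro i
    beta_reduce
    rw [ORD_aff_apply, sub_self, mul_zero]
    constructor <;> norm_num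

theorem orientable_of_qtriv {m : ℕ} {X : Set E} (hX : IsClosedPLManifold m X)
    (hQ : QTriv ℤˣ X) : IsOrientable m X := by
  have hcomp : IsCompact X := hX.1.isCompact
  rcases Nat.eq_zero_or_pos m with rfl | hm
  · refine ⟨{c | IsChart 0 X c.1 c.2}, fun c hc => hc, fun x hx => ?_, ?_⟩
    · obtain ⟨U, h, hc⟩ := hX.2 x hx
      exact ⟨(U, h), hc.1, hc⟩
    · intro c _ c' _ a _ _ _
      unfold sdet
      rw [Matrix.det_isEmpty, Matrix.det_isEmpty, mul_one]
      exact zero_le_one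
  obtain ⟨n, rfl⟩ : ∃ n, m = n + 1 := ⟨m - 1, by omega⟩
  -- uniform charts
  obtain ⟨δ₁, hδ₁, hL₁⟩ := ORD_leb hcomp
    (fun O => ∃ (U : Set E) (h : E → Fin (n + 1) → ℝ), ∀ y ∈ O ∩ X, ChartAt (n + 1) X U h y)
    (fun x hx => by
      obtain ⟨U, h, hc⟩ := hX.2 x hx
      obtain ⟨O, hO, hxO, hO'⟩ := ORD_open hc
      exact ⟨O, hO, hxO, U, h, hO'⟩)
  have hch : ∀ x ∈ X, ∃ (U : Set E) (h : E → Fin (n + 1) → ℝ),
      ∀ y ∈ X, dist y x < δ₁ → ChartAt (n + 1) X U h y := by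
    intro x hx
    obtain ⟨O, ⟨U, h, hO⟩, hO'⟩ := hL₁ x hx
    exact ⟨U, h, fun y hy hd => hO y ⟨hO' (Metric.mem_ball.2 hd), hy⟩⟩
  choose! U h hUh using hch
  have hself : ∀ x ∈ X, ChartAt (n + 1) X (U x) (h x) x := fun x hx =>
    hUh x hx x hx (by rw [dist_self]; exact hδ₁)
  have hsg : ∀ x ∈ X, ∀ y ∈ X, dist x y < δ₁ →
      ∃ σ : ℤˣ, ORD_P (n + 1) (U x) (U y) (h x) (h y) x σ := fun x hx y hy hd =>
    pair_sign hX (hself x hx) (hUh y hy x hx hd)
  choose! c hc using hsg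
  -- the cocycle
  have hcoc : NCoc c X := by
    intro x₀ hx₀
    obtain ⟨ρ, hρ, N, hN1, hN2, hN3, hN4, hN5, hN6, hN7⟩ :=
      ORD_small (hself x₀ hx₀) (half_pos hδ₁)
    obtain ⟨O, hO, hxO, hON⟩ := mem_nhdsWithin.1 hN5
    have hNX : N ⊆ X := hN1.trans (hself x₀ hx₀).1.1
    have hd : ∀ a ∈ N, ∀ b ∈ N, dist a b < δ₁ := by
      intro a ha b hb
      have e1 := Metric.mem_ball.1 (hN2 ha)
      have e2 := Metric.mem_ball.1 (hN2 hb)
      have e3 := dist_triangle_right a b x₀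
      linarith
    refine ⟨O, hO.mem_nhds hxO, fun a ha b hb d hd' => ?_⟩
    have haN := hON ha
    have hbN := hON hb
    have hdN := hON hd'
    have hC : ∀ u ∈ N, ∀ z ∈ N, ChartAt (n + 1) X (U u) (h u) z := fun u hu z hz =>
      hUh u (hNX hu) z (hNX hz) (hd z hz u hu)
    have p1 := hc a (hNX haN) b (hNX hbN) (hd a haN b hbN)
    have p2 := hc b (hNX hbN) d (hNX hdN) (hd b hbN d hdN)
    have p3 := hc a (hNX haN) d (hNX hdN) (hd a haN d hdN)
    have p2' := ORD_const hX hN3 (hC b hbN) (hC d hdN) hbN haN p2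
    exact ORD_mul (hC a haN a haN) (hC b hbN a haN) (hC d hdN a haN) p1 p2' p3
  obtain ⟨g, hg⟩ := hQ c hcoc
  obtain ⟨δ₂, hδ₂, hL₂⟩ := ORD_leb hcomp
    (fun O => ∀ a ∈ O ∩ X, ∀ b ∈ O ∩ X, c a b = (g a)⁻¹ * g b)
    (fun x hx => by
      obtain ⟨V, hV, hV'⟩ := hg x hx
      obtain ⟨O, hOV, hO, hxO⟩ := mem_nhds_iff.1 hV
      exact ⟨O, hO, hxO, fun a ha b hb => hV' a ⟨hOV ha.1, ha.2⟩ b ⟨hOV hb.1, hb.2⟩⟩)
  have hg2 : ∀ a ∈ X, ∀ b ∈ X, dist a b < δ₂ → c a b = (g a)⁻¹ * g b := by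
    intro a ha b hb hd
    obtain ⟨O, hO, hO'⟩ := hL₂ a ha
    refine hO a ⟨hO' (Metric.mem_ball_self hδ₂), ha⟩ b ⟨hO' ?_, hb⟩
    rw [Metric.mem_ball, dist_comm]
    exact hd
  obtain ⟨ε, hε, hε1, hε2⟩ : ∃ ε : ℝ, 0 < ε ∧ 3 * ε < δ₁ ∧ 3 * ε < δ₂ :=
    ⟨min δ₁ δ₂ / 4, by positivity, by
      have := min_le_left δ₁ δ₂
      have : 0 < min δ₁ δ₂ := lt_min hδ₁ hδ₂
      linarith, by
      have := min_le_right δ₁ δ₂
      have : 0 < min δ₁ δ₂ := lt_min hδ₁ hδ₂
      linarith⟩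
  have hsm := fun x (hx : x ∈ X) => ORD_small (hself x hx) hε
  choose! ρ hρ N hN1 hN2 hN3 hN4 hN5 hN6 hN7 using hsm
  obtain ⟨s, hs⟩ : ∃ s : E → ℝ, s = fun x => (((g x : ℤˣ) : ℤ) : ℝ) := ⟨_, rfl⟩
  obtain ⟨C, hC⟩ : ∃ C : E → Fin (n + 1) → ℝ,
      C = fun x => Fin.cons (s x * (ρ x)⁻¹) (fun _ => (ρ x)⁻¹) := ⟨_, rfl⟩
  have hs1 : ∀ x, s x = 1 ∨ s x = -1 := by
    intro x
    rw [hs]
    beta_reduce
    rcases Int.units_eq_one_or (g x) with h1 | h1
    · left
      rw [h1]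
      simp
    · right
      rw [h1]
      simp
  have hC1 : ∀ x i, C x i = (ρ x)⁻¹ ∨ C x i = -(ρ x)⁻¹ := by
    intro x i
    rw [hC]
    beta_reduce
    refine Fin.cases ?_ (fun j => ?_) i
    · rw [Fin.cons_zero]
      rcases hs1 x with h1 | h1
      · left
        rw [h1, one_mul]
      · right
        rw [h1, neg_one_mul]
    · left
      rw [Fin.cons_succ]
  have hC2 : ∀ x, ∏ i, C x i = s x * (ρ x)⁻¹ ^ (n + 1) := by
    intro x
    rw [Fin.prod_univ_succ, hC]
    simp only [Fin.cons_zero, Fin.cons_succ, Finset.prod_const, Finset.card_univ,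
      Fintype.card_fin]
    ring
  have hC3 : ∀ x ∈ X, ∀ i, C x i ≠ 0 := by
    intro x hx i
    have h1 : 0 < (ρ x)⁻¹ := inv_pos.2 (hρ x hx)
    rcases hC1 x i with h2 | h2
    · rw [h2]
      exact h1.ne'
    · rw [h2]
      exact neg_ne_zero.2 h1.ne'
  have hchart : ∀ x ∈ X, ChartAt (n + 1) X (N x) (fun y => ORD_aff (C x) (h x x) (h x y)) x :=
    fun x hx => ORD_chart (hself x hx) (hρ x hx) (hN1 x hx) (hN4 x hx) (hN5 x hx) (hN6 x hx)
      (hN7 x hx) (hC1 x)
  refine ⟨{q | ∃ x ∈ X, q = (N x, fun y => ORD_aff (C x) (h x x) (h x y))}, ?_, ?_, ?_⟩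
  · rintro _ ⟨x, hx, rfl⟩
    exact (hchart x hx).1
  · intro x hx
    exact ⟨_, ⟨x, hx, rfl⟩, hchart x hx⟩
  · rintro _ ⟨x, hx, rfl⟩ _ ⟨y, hy, rfl⟩ a ha h1 h2
    simp only at ha h1 h2 ⊢
    have h1' := ORD_affOn (hC3 x hx) h1
    have h2' := ORD_affOn (hC3 y hy) h2
    have hz := ha (subset_convexHull ℝ _ (mem_range_self (0 : Fin (n + 1 + 1))))
    have d1 := Metric.mem_ball.1 (hN2 x hx hz.1)
    have d2 := Metric.mem_ball.1 (hN2 y hy hz.2)
    have d3 : dist x y < 2 * ε := by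
      have := dist_triangle_left x y (a 0)
      linarith
    have hcxy : c x y = (g x)⁻¹ * g y := hg2 x hx y hy (by linarith)
    have p1 := hc x hx y hy (by linarith)
    have hNX : N x ⊆ X := (hN1 x hx).trans (hself x hx).1.1
    have q1 : ∀ z ∈ N x, ChartAt (n + 1) X (U x) (h x) z := fun z hz =>
      hUh x hx z (hNX hz) (by
        have := Metric.mem_ball.1 (hN2 x hx hz)
        linarith)
    have q2 : ∀ z ∈ N x, ChartAt (n + 1) X (U y) (h y) z := fun z hz =>
      hUh y hy z (hNX hz) (by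
        have := Metric.mem_ball.1 (hN2 x hx hz)
        have := dist_triangle z x y
        linarith)
    have p2 := ORD_const hX (hN3 x hx) q1 q2 (hN4 x hx) hz.1 p1
    have p3 := ORD_shrink p2 (fun z hz => ⟨hN1 x hx (ha hz).1, hN1 y hy (ha hz).2⟩) h1' h2'
    rw [ORD_sdet_aff, ORD_sdet_aff, hC2, hC2]
    have e1 : ((c x y : ℤ) : ℝ) = s x * s y := by
      rw [hcxy, Int.units_inv_eq_self, Units.val_mul, Int.cast_mul, hs]
    rw [e1] at p3
    have e2 : 0 ≤ (ρ x)⁻¹ ^ (n + 1) * (ρ y)⁻¹ ^ (n + 1) := by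
      have h3 := hρ x hx
      have h4 := hρ y hy
      positivity
    calc (0 : ℝ) ≤ ((ρ x)⁻¹ ^ (n + 1) * (ρ y)⁻¹ ^ (n + 1)) *
          (s x * s y * (sdet (h x) a * sdet (h y) a)) := mul_nonneg e2 p3
      _ = _ := by ring

end Pool.H54.UB

end S_ORD

section S_ASC

/-!
# Row ASC: the sphere of dimension `≥ 2` has only trivial cocycles

`A = {x ∈ S | 0 ≤ x 0}`, `B = {x ∈ S | x 0 ≤ 0}` closed, `A ∪ B = S`.  `A` deforms to the point `e_0`:
`H (x, t) = normalisation of (1-t) x + t e_0` (the coordinate `0` is `≥ 0`, positive for `t > 0`, so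
the vector is nonzero); `NTriv.deform`, `NTriv.singleton`; similarly `B` with `-e_0`.
`A ∩ B = {x | ‖x‖ = 1, x 0 = 0}` is the image of the unit sphere of `Fin m → ℝ` under
`Fin.cons 0`, connected because `m ≥ 2` (`isConnected_sphere`, `Module.rank = m > 1`).
`NTriv.union_closed`.
-/

open Set Topology

namespace Pool.H54.UB

/-- the closed half spheres -/
def ASC_half (m : ℕ) (σ : ℝ) : Set (Fin (m + 1) → ℝ) :=
  {x | ‖x‖ = 1 ∧ 0 ≤ σ * x 0}

private theorem ASC_half_closed (m : ℕ) (σ : ℝ) : IsClosed (ASC_half m σ) := by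
  have h1 : IsClosed {x : Fin (m + 1) → ℝ | ‖x‖ = 1} := isClosed_eq (by fun_prop) (by fun_prop)
  have h2 : IsClosed {x : Fin (m + 1) → ℝ | 0 ≤ σ * x 0} := isClosed_le (by fun_prop) (by fun_prop)
  exact h1.inter h2

private theorem ASC_qhalf (m : ℕ) {σ : ℝ} (hσ : |σ| = 1) (Q : Type*) [Group Q]
    {c : (Fin (m + 1) → ℝ) → (Fin (m + 1) → ℝ) → Q} (hc : NCoc c (ASC_half m σ)) :
    NTriv c (ASC_half m σ) := by
  have hσ2 : σ * σ = 1 := by
    have := abs_mul_abs_self σ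
    rw [hσ] at this
    linarith
  set e : Fin (m + 1) → ℝ := Pi.single 0 σ with he
  have he0 : e 0 = σ := by simp [he]
  have hen : ‖e‖ = 1 := by
    rw [he, Pi.norm_single, Real.norm_eq_abs, hσ]
  have hmem : e ∈ ASC_half m σ := ⟨hen, by rw [he0, hσ2]; exact zero_le_one⟩
  have hnn : ∀ x ∈ ASC_half m σ, ∀ t ∈ Icc (0 : ℝ) 1, 0 ≤ σ * ((1 - t) • x + t • e) 0 := by
    intro x hx t ht
    have h1 : σ * ((1 - t) • x + t • e) 0 = (1 - t) * (σ * x 0) + t * (σ * σ) := by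
      simp only [Pi.add_apply, Pi.smul_apply, smul_eq_mul, he0]
      ring
    rw [h1, hσ2]
    have h2 := mul_nonneg (sub_nonneg.2 ht.2) hx.2
    linarith [ht.1]
  have key : ∀ x ∈ ASC_half m σ, ∀ t ∈ Icc (0 : ℝ) 1, (1 - t) • x + t • e ≠ 0 := by
    intro x hx t ht h0
    have h1 : σ * ((1 - t) • x + t • e) 0 = (1 - t) * (σ * x 0) + t * (σ * σ) := by
      simp only [Pi.add_apply, Pi.smul_apply, smul_eq_mul, he0]
      ring
    rw [h0, hσ2] at h1
    have h2 := mul_nonneg (sub_nonneg.2 ht.2) hx.2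
    have h3 : t = 0 := by
      have : (0 : ℝ) = (1 - t) * (σ * x 0) + t * 1 := by simpa using h1
      linarith [ht.1]
    rw [h3] at h0
    have h4 : x = 0 := by simpa using h0
    have h5 := hx.1
    rw [h4, norm_zero] at h5
    exact zero_ne_one h5
  refine NTriv.deform (T := {e})
    (H := fun p => ‖(1 - p.2) • p.1 + p.2 • e‖⁻¹ • ((1 - p.2) • p.1 + p.2 • e)) ?_ hc ?_ ?_ ?_
    (NTriv.singleton (hc.mono (singleton_subset_iff.2 hmem)))
  · have hc1 : ContinuousOn (fun p : (Fin (m + 1) → ℝ) × ℝ => (1 - p.2) • p.1 + p.2 • e)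
        (ASC_half m σ ×ˢ Icc 0 1) := by
      apply Continuous.continuousOn
      fun_prop
    have hc2 : ContinuousOn (fun p : (Fin (m + 1) → ℝ) × ℝ => ‖(1 - p.2) • p.1 + p.2 • e‖⁻¹)
        (ASC_half m σ ×ˢ Icc 0 1) := by
      apply ContinuousOn.inv₀ hc1.norm
      rintro ⟨x, t⟩ ⟨hx, ht⟩
      exact norm_ne_zero_iff.2 (key x hx t ht)
    exact hc2.smul hc1
  · intro x hx t ht
    have hn : ‖(1 - t) • x + t • e‖ ≠ 0 := norm_ne_zero_iff.2 (key x hx t ht)
    refine ⟨?_, ?_⟩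
    · show ‖‖(1 - t) • x + t • e‖⁻¹ • ((1 - t) • x + t • e)‖ = 1
      rw [norm_smul, norm_inv, norm_norm, inv_mul_cancel₀ hn]
    · show 0 ≤ σ * (‖(1 - t) • x + t • e‖⁻¹ • ((1 - t) • x + t • e)) 0
      rw [Pi.smul_apply, smul_eq_mul]
      have h1 := hnn x hx t ht
      have h2 : 0 ≤ ‖(1 - t) • x + t • e‖⁻¹ := by positivity
      have h3 := mul_nonneg h2 h1
      linarith
  · intro x hx
    simp [hx.1]
  · intro x hx
    simp [hen]

private theorem ASC_inter (m : ℕ) (hm : 2 ≤ m) :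
    IsPreconnected (ASC_half m 1 ∩ ASC_half m (-1)) := by
  obtain ⟨k, rfl⟩ : ∃ k, m = k + 1 := ⟨m - 1, by omega⟩
  have h1 := (sphere_connected k (by omega)).isPreconnected
  have h2 : Continuous (fun x : Fin (k + 1) → ℝ => (Fin.cons (0 : ℝ) x : Fin (k + 1 + 1) → ℝ)) := by
    refine continuous_pi fun i => ?_
    refine Fin.cases ?_ (fun j => ?_) i
    · simp only [Fin.cons_zero]
      exact continuous_const
    · simp only [Fin.cons_succ]
      exact continuous_apply j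
  have h3 := h1.image _ h2.continuousOn
  have hnorm : ∀ x : Fin (k + 1) → ℝ, ‖(Fin.cons (0 : ℝ) x : Fin (k + 1 + 1) → ℝ)‖ = ‖x‖ := by
    intro x
    apply le_antisymm
    · refine (pi_norm_le_iff_of_nonneg (norm_nonneg x)).2 fun i => ?_
      refine Fin.cases ?_ (fun j => ?_) i
      · simp
      · simpa using norm_le_pi_norm x j
    · refine (pi_norm_le_iff_of_nonneg (norm_nonneg _)).2 fun j => ?_
      have := norm_le_pi_norm (Fin.cons (0 : ℝ) x : Fin (k + 1 + 1) → ℝ) j.succ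
      simpa using this
  have h4 : ASC_half (k + 1) 1 ∩ ASC_half (k + 1) (-1) =
      (fun x : Fin (k + 1) → ℝ => (Fin.cons (0 : ℝ) x : Fin (k + 1 + 1) → ℝ)) ''
        Metric.sphere (0 : Fin (k + 1) → ℝ) 1 := by
    ext y
    constructor
    · rintro ⟨⟨hy1, hy2⟩, -, hy3⟩
      have hy0 : y 0 = 0 := by linarith
      have hcons : (Fin.cons (0 : ℝ) (Fin.tail y) : Fin (k + 1 + 1) → ℝ) = y := by
        rw [← hy0]
        exact Fin.cons_self_tail y
      refine ⟨Fin.tail y, ?_, hcons⟩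
      rw [mem_sphere_zero_iff_norm, ← hnorm, hcons]
      exact hy1
    · rintro ⟨x, hx, rfl⟩
      rw [mem_sphere_zero_iff_norm] at hx
      refine ⟨⟨by rw [hnorm, hx], ?_⟩, ⟨by rw [hnorm, hx], ?_⟩⟩
      · simp
      · simp
  rw [h4]
  exact h3

theorem sphere_qtriv (m : ℕ) (hm : 2 ≤ m) (Q : Type*) [Group Q] :
    QTriv Q (Metric.sphere (0 : Fin (m + 1) → ℝ) 1) := by
  intro c hc
  have h1 : Metric.sphere (0 : Fin (m + 1) → ℝ) 1 = ASC_half m 1 ∪ ASC_half m (-1) := by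
    ext y
    rw [mem_sphere_zero_iff_norm]
    constructor
    · intro hy
      rcases le_total 0 (y 0) with h | h
      · exact Or.inl ⟨hy, by linarith⟩
      · exact Or.inr ⟨hy, by linarith⟩
    · rintro (h | h)
      · exact h.1
      · exact h.1
  rw [h1] at hc ⊢
  refine NTriv.union_closed (ASC_half_closed m 1) (ASC_half_closed m (-1)) hc (ASC_inter m hm)
    (ASC_qhalf m (by norm_num) Q (hc.mono subset_union_left))
    (ASC_qhalf m (by norm_num) Q (hc.mono subset_union_right))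

end Pool.H54.UB

end S_ASC
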