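import Pool.Agent.H54.UB.Core
import Pool.Agent.H54.UM.G1
import Pool.Agent.H54.UM.G2
import Pool.Agent.H54.UM.G3

/-! Universal bases, part G6: this file joins several modules to save build time. -/

section S_MBD

/-!
# Row MBD: interior points and boundary points of PL manifolds, local criteria

`IntPt n X x`: `X` has an `n`-dimensional chart at `x`.  `BdPt n X D x`: `X` has a half space chart at
`x` of dimension `n+1`, in which `D` is the boundary hyperplane.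

* `of_nhds`: choose a linear isomorphism `F ≃ (Fin n → ℝ)` (equal dimension), translate `h x` to `0`,
  take `U = W ∩ h⁻¹ (small cube)` (resp. small half cube), rescale (same as `chart_of_local`, row SM).
  `U` is a polyhedron (`PLOn.preimage`), a neighbourhood of `x` in `X` since `h` is continuous on `W`.
* `data`: trivial from the definitions.
* `congr_nhds`: intersect the domain with a small closed cube around `x` (a polyhedron after choosing
  coordinates of `E`; e.g. use `exists_big_simplex`-like small simplex neighbourhood or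
  `isPoly_of_halfspaces`) contained in `V`, and use `of_nhds` (the image is still a neighbourhood of
  `h x` in `ℝ^n`, resp. in the half space, because `h : U → h(U)` is a homeomorphism: `U` compact).
* `image`: compose with the inverse of `φ` (`PLOn.symm`); `φ` is a homeomorphism onto its image.
-/

open Set Topology

namespace Pool.H54.UB

variable {E F : Type*} [NormedAddCommGroup E] [NormedSpace ℝ E] [FiniteDimensional ℝ E]
  [NormedAddCommGroup F] [NormedSpace ℝ F] [FiniteDimensional ℝ F]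

theorem MBD_inj_nhds {A B : Type*} [TopologicalSpace A] [TopologicalSpace B] [T2Space B]
    {W P : Set A} {S : Set B} {x : A} {f : A → B} (hW : IsCompact W) (hf : ContinuousOn f W)
    (hi : InjOn f W) (hx : x ∈ W) (hP : P ∈ 𝓝 x) (h : f '' W ∈ 𝓝[S] (f x)) :
    f '' (W ∩ P) ∈ 𝓝[S] (f x) := by
  obtain ⟨O, hOP, hO, hxO⟩ := mem_nhds_iff.1 hP
  have hc : IsCompact (f '' (W \ O)) :=
    (hW.diff hO).image_of_continuousOn (hf.mono Set.sdiff_subset)
  have hn : (f '' (W \ O))ᶜ ∈ 𝓝 (f x) := hc.isClosed.isOpen_compl.mem_nhds (by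
    rintro ⟨y, ⟨hyW, hyO⟩, hy⟩
    exact hyO (hi hyW hx hy ▸ hxO))
  refine Filter.mem_of_superset (Filter.inter_mem h (mem_nhdsWithin_of_mem_nhds hn)) ?_
  rintro _ ⟨⟨y, hyW, rfl⟩, hy⟩
  refine ⟨y, ⟨hyW, hOP ?_⟩, rfl⟩
  by_contra hyO
  exact hy ⟨y, ⟨hyW, hyO⟩, rfl⟩

theorem MBD_small {x : E} {V : Set E} (hV : V ∈ 𝓝 x) :
    ∃ P : Set E, IsPoly P ∧ P ⊆ V ∧ P ∈ 𝓝 x := by
  obtain ⟨s, -, -, hs⟩ := exists_big_simplex (X := Metric.closedBall x 1)
    Metric.isBounded_closedBall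
  have hK : IsPoly (convexHull ℝ (s : Set E)) := IsPoly.hull s
  obtain ⟨R, hR⟩ := hK.isCompact.isBounded.subset_closedBall x
  obtain ⟨δ, hδ, hδV⟩ := Metric.mem_nhds_iff.1 hV
  have hR0 : 0 ≤ R := by
    have h1 : x ∈ Metric.closedBall x R := hR (hs (Metric.mem_closedBall_self zero_le_one))
    simpa using h1
  set ε : ℝ := δ / (2 * (R + 1)) with hε
  have hε0 : 0 < ε := by positivity
  refine ⟨AffineMap.homothety x ε '' convexHull ℝ (s : Set E), hK.image_affine _, ?_, ?_⟩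
  · rintro _ ⟨y, hy, rfl⟩
    apply hδV
    have h1 : dist y x ≤ R := hR hy
    rw [Metric.mem_ball, AffineMap.homothety_apply, dist_eq_norm]
    simp only [vsub_eq_sub, vadd_eq_add, add_sub_cancel_right, norm_smul, Real.norm_eq_abs,
      abs_of_pos hε0]
    rw [← dist_eq_norm]
    have h2 : ε * (R + 1) = δ / 2 := by rw [hε]; field_simp
    nlinarith
  · refine Filter.mem_of_superset (Metric.closedBall_mem_nhds x hε0) ?_
    intro y hy
    refine ⟨AffineMap.homothety x ε⁻¹ y, hs ?_, ?_⟩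
    · rw [Metric.mem_closedBall, AffineMap.homothety_apply, dist_eq_norm]
      simp only [vsub_eq_sub, vadd_eq_add, add_sub_cancel_right, norm_smul, Real.norm_eq_abs,
        abs_of_pos (inv_pos.2 hε0)]
      rw [← dist_eq_norm]
      have h1 : dist y x ≤ ε := hy
      calc ε⁻¹ * dist y x ≤ ε⁻¹ * ε := by gcongr
        _ = 1 := inv_mul_cancel₀ hε0.ne'
    · simp only [AffineMap.homothety_apply, vsub_eq_sub, vadd_eq_add, add_sub_cancel_right,
        smul_smul, mul_inv_cancel₀ hε0.ne', one_smul, sub_add_cancel]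

/-- Half cube. -/
theorem MBD_half (n : ℕ) : IsPoly {p : (Fin n → ℝ) × ℝ | p.1 ∈ cube n ∧ 0 ≤ p.2 ∧ p.2 ≤ 1} := by
  have h1 : IsPoly (cube n) := isPoly_box (fun _ => -1) (fun _ => 1)
  have h2 : IsPoly (segment ℝ (0 : ℝ) 1) := IsPoly.segment 0 1
  have h3 := h1.prod h2
  rw [segment_eq_Icc (zero_le_one)] at h3
  exact h3

theorem MBD_cube_nhds {n : ℕ} {y : Fin n → ℝ} (hy : ∀ i, -1 < y i ∧ y i < 1) :
    cube n ∈ 𝓝 y := by
  have h1 : Set.pi univ (fun _ : Fin n => Icc (-1 : ℝ) 1) ∈ 𝓝 y :=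
    set_pi_mem_nhds finite_univ fun i _ => Icc_mem_nhds (hy i).1 (hy i).2
  refine Filter.mem_of_superset h1 ?_
  intro z hz i
  exact hz i (mem_univ i)

theorem MBD_image_nhds {X W : Set E} {x : E} {φ : E → F} (hφ : PLOn φ X) (hi : InjOn φ X)
    (hx : x ∈ X) (hWX : W ⊆ X) (hW : W ∈ 𝓝[X] x) : φ '' W ∈ 𝓝[φ '' X] (φ x) := by
  rw [mem_nhdsWithin_iff_exists_mem_nhds_inter] at hW
  obtain ⟨P, hP, hPW⟩ := hW
  have h1 := MBD_inj_nhds (S := φ '' X) hφ.domain.isCompact hφ.continuousOn hi hx hP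
    self_mem_nhdsWithin
  refine Filter.mem_of_superset h1 (image_mono ?_)
  rintro y ⟨h2, h3⟩
  exact hPW ⟨h3, h2⟩

theorem MBD_image_pl {G : Type*} [NormedAddCommGroup G] [NormedSpace ℝ G]
    [FiniteDimensional ℝ G] {X U : Set E} {φ : E → F} (hφ : PLOn φ X) (hi : InjOn φ X)
    (hU : U ⊆ X) {h : E → G} (hh : PLOn h U) :
    PLOn (fun y => h (Function.invFunOn φ X y)) (φ '' U) := by
  refine PLOn.comp (Y := U) hh ((hφ.symm hi).mono (hφ.image_poly hh.domain hU)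
    (image_mono hU)) ?_
  rintro _ ⟨y, hy, rfl⟩
  rw [hi.leftInvOn_invFunOn (hU hy)]
  exact hy

theorem MBD_nhds_congr {X Y V : Set E} {x : E} (hV : V ∈ 𝓝 x) (hXY : X ∩ V = Y ∩ V) :
    𝓝[X] x = 𝓝[Y] x := by
  rw [← nhdsWithin_inter_of_mem' (s := X) (mem_nhdsWithin_of_mem_nhds hV),
    ← nhdsWithin_inter_of_mem' (s := Y) (mem_nhdsWithin_of_mem_nhds hV), hXY]

def IntPt (n : ℕ) (X : Set E) (x : E) : Prop := ∃ U h, ChartAt n X U h x

def BdPt (n : ℕ) (X D : Set E) (x : E) : Prop :=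
  ∃ (U : Set E) (h : E → (Fin n → ℝ) × ℝ), U ⊆ X ∧ x ∈ U ∧ U ∈ 𝓝[X] x ∧ PLOn h U ∧ InjOn h U ∧
    h '' U = {p | p.1 ∈ cube n ∧ 0 ≤ p.2 ∧ p.2 ≤ 1} ∧ (∀ y ∈ U, y ∈ D ↔ (h y).2 = 0) ∧ h x = 0

theorem IntPt.of_nhds {n : ℕ} {X W : Set E} {x : E} (hF : Module.finrank ℝ F = n) (hWX : W ⊆ X)
    (hx : x ∈ W) (hW : W ∈ 𝓝[X] x) {h : E → F} (hh : PLOn h W) (hi : InjOn h W)
    (him : h '' W ∈ 𝓝 (h x)) : IntPt n X x := by

  let L : F ≃L[ℝ] (Fin n → ℝ) := ContinuousLinearEquiv.ofFinrankEq (by simpa using hF)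
  let A : F →ᵃ[ℝ] (Fin n → ℝ) := (L : F →ₗ[ℝ] (Fin n → ℝ)).toAffineMap
  have hA : ∀ v, A v = L v := fun v => rfl
  have h1 : PLOn (fun y => A (h y)) W := hh.affine_comp A
  have h2 : InjOn (fun y => A (h y)) W := by
    intro y hy z hz hyz
    exact hi hy hz (L.injective hyz)
  have h3 : (fun y => A (h y)) '' W ∈ 𝓝 (A (h x)) := by
    have h4 : L '' (h '' W) ∈ 𝓝 (L (h x)) := L.toHomeomorph.isOpenMap.image_mem_nhds him
    rw [image_image] at h4
    exact h4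
  obtain ⟨ε, hε, hεW⟩ := Metric.nhds_basis_closedBall.mem_iff.1 h3
  exact chart_of_local hWX hx hW h1 h2 hε fun y hy => hεW (by
    rw [Metric.mem_closedBall, dist_pi_le_iff hε.le]
    intro i
    rw [Real.dist_eq]
    exact hy i)

theorem BdPt.of_nhds {n : ℕ} {X D W : Set E} {x : E} (hF : Module.finrank ℝ F = n) (hWX : W ⊆ X)
    (hx : x ∈ W) (hW : W ∈ 𝓝[X] x) {h : E → F × ℝ} (hh : PLOn h W) (hi : InjOn h W)
    (hpos : ∀ y ∈ W, 0 ≤ (h y).2) (hD : ∀ y ∈ W, y ∈ D ↔ (h y).2 = 0) (hx0 : (h x).2 = 0)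
    (him : h '' W ∈ 𝓝[{p : F × ℝ | 0 ≤ p.2}] (h x)) : BdPt n X D x := by

  let L : F ≃L[ℝ] (Fin n → ℝ) := ContinuousLinearEquiv.ofFinrankEq (by simpa using hF)
  -- the image contains a small half ball
  rw [mem_nhdsWithin_iff_exists_mem_nhds_inter] at him
  obtain ⟨P, hP, hPW⟩ := him
  let M : (F × ℝ) ≃L[ℝ] ((Fin n → ℝ) × ℝ) := L.prodCongr (ContinuousLinearEquiv.refl ℝ ℝ)
  have hM : ∀ p : F × ℝ, M p = (L p.1, p.2) := fun p => rfl
  have hMP : M '' P ∈ 𝓝 (M (h x)) := M.toHomeomorph.isOpenMap.image_mem_nhds hP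
  obtain ⟨ε, hε, hεP⟩ := Metric.nhds_basis_closedBall.mem_iff.1 hMP
  let T : (Fin n → ℝ) × ℝ →ᵃ[ℝ] (Fin n → ℝ) × ℝ :=
    ε⁻¹ • (AffineMap.id ℝ ((Fin n → ℝ) × ℝ) - AffineMap.const ℝ ((Fin n → ℝ) × ℝ) (M (h x)))
  have hT : ∀ p, T p = ε⁻¹ • (p - M (h x)) := fun p => rfl
  let A : F × ℝ →ᵃ[ℝ] (Fin n → ℝ) × ℝ :=
    T.comp ((M : (F × ℝ) →ₗ[ℝ] ((Fin n → ℝ) × ℝ)).toAffineMap)
  have hA : ∀ p, A p = ε⁻¹ • (M p - M (h x)) := fun p => rfl
  have hAi : Function.Injective A := by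
    intro p q hpq
    rw [hA, hA] at hpq
    have h1 := smul_right_injective _ (inv_ne_zero hε.ne') hpq
    exact M.injective (sub_left_injective h1)
  have h1 : PLOn (fun y => A (h y)) W := hh.affine_comp A
  have h2 : InjOn (fun y => A (h y)) W := fun y hy z hz hyz => hi hy hz (hAi hyz)
  have hA2 : ∀ p : F × ℝ, (A p).2 = ε⁻¹ * p.2 := by
    intro p
    rw [hA, hM, hM]
    simp [hx0]
  set Q : Set ((Fin n → ℝ) × ℝ) := {p | p.1 ∈ cube n ∧ 0 ≤ p.2 ∧ p.2 ≤ 1} with hQ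
  have hA0 : A (h x) = 0 := by rw [hA]; simp
  refine ⟨W ∩ (fun y => A (h y)) ⁻¹' Q, fun y => A (h y), inter_subset_left.trans hWX,
    ⟨hx, ?_⟩, ?_, h1.mono (h1.preimage (MBD_half n)) inter_subset_left,
    h2.mono inter_subset_left, ?_, ?_, hA0⟩
  · change A (h x) ∈ Q
    rw [hA0]
    refine ⟨fun i => ?_, le_rfl, zero_le_one⟩
    simp
  · refine Filter.inter_mem hW ?_
    have hc : ContinuousWithinAt (fun y => A (h y)) W x := h1.continuousOn x hx
    have hc' : Filter.Tendsto (fun y => A (h y)) (𝓝[X] x) (𝓝 0) := by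
      have h3 : Filter.Tendsto (fun y => A (h y)) (𝓝[W] x) (𝓝 (A (h x))) := hc
      rw [hA0] at h3
      refine h3.mono_left ?_
      rw [← nhdsWithin_inter_of_mem' (s := X) hW]
      exact nhdsWithin_mono _ inter_subset_right
    have h4 : {p : (Fin n → ℝ) × ℝ | p.1 ∈ cube n ∧ p.2 < 1} ∈ 𝓝 (0 : (Fin n → ℝ) × ℝ) := by
      have h5 : cube n ∈ 𝓝 (0 : Fin n → ℝ) := MBD_cube_nhds fun i => by simp
      have h6 : Iio (1 : ℝ) ∈ 𝓝 (0 : ℝ) := Iio_mem_nhds one_pos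
      exact prod_mem_nhds h5 h6
    filter_upwards [hc' h4, hW] with y hy hyW
    refine ⟨hy.1, ?_, hy.2.le⟩
    change 0 ≤ (A (h y)).2
    rw [hA2]
    exact mul_nonneg (inv_nonneg.2 hε.le) (hpos y hyW)
  · apply Subset.antisymm
    · rintro _ ⟨y, hy, rfl⟩
      exact hy.2
    · intro p hp
      have h3 : M (h x) + ε • p ∈ M '' P := by
        apply hεP
        rw [Metric.mem_closedBall, dist_eq_norm, add_sub_cancel_left, norm_smul,
          Real.norm_eq_abs, abs_of_pos hε]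
        have h4 : ‖p‖ ≤ 1 := by
          rw [Prod.norm_def]
          refine max_le ?_ ?_
          · rw [pi_norm_le_iff_of_nonneg zero_le_one]
            intro i
            rw [Real.norm_eq_abs, abs_le]
            exact hp.1 i
          · rw [Real.norm_eq_abs, abs_le]
            exact ⟨by linarith [hp.2.1], hp.2.2⟩
        nlinarith
      obtain ⟨q, hq, hqp⟩ := h3
      have h5 : q.2 = ε * p.2 := by
        have h6 := congrArg Prod.snd hqp
        rw [hM, hM] at h6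
        simpa [hx0] using h6
      have h6 : q ∈ h '' W := hPW ⟨hq, by
        change 0 ≤ q.2
        rw [h5]
        exact mul_nonneg hε.le hp.2.1⟩
      obtain ⟨y, hy, rfl⟩ := h6
      have h7 : A (h y) = p := by
        rw [hA, hqp, add_sub_cancel_left, smul_smul, inv_mul_cancel₀ hε.ne', one_smul]
      exact ⟨y, ⟨hy, by change A (h y) ∈ Q; rw [h7]; exact hp⟩, h7⟩
  · intro y hy
    rw [hD y hy.1]
    change _ ↔ (A (h y)).2 = 0
    rw [hA2]
    constructor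
    · intro h3; rw [h3, mul_zero]
    · intro h3
      rcases mul_eq_zero.1 h3 with h4 | h4
      · exact absurd h4 (inv_ne_zero hε.ne')
      · exact h4

theorem IntPt.data {n : ℕ} {X : Set E} {x : E} (h : IntPt n X x) :
    ∃ (W : Set E) (f : E → Fin n → ℝ), W ⊆ X ∧ x ∈ W ∧ W ∈ 𝓝[X] x ∧ PLOn f W ∧ InjOn f W ∧
      f '' W ∈ 𝓝 (f x) := by

  obtain ⟨U, f, ⟨hU, hf, hi, him⟩, hx, hn, hc⟩ := h
  exact ⟨U, f, hU, hx, hn, hf, hi, by rw [him]; exact MBD_cube_nhds hc⟩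

theorem BdPt.data {n : ℕ} {X D : Set E} {x : E} (h : BdPt n X D x) :
    ∃ (W : Set E) (f : E → (Fin n → ℝ) × ℝ), W ⊆ X ∧ x ∈ W ∧ W ∈ 𝓝[X] x ∧ PLOn f W ∧
      InjOn f W ∧ (∀ y ∈ W, 0 ≤ (f y).2) ∧ (∀ y ∈ W, y ∈ D ↔ (f y).2 = 0) ∧ (f x).2 = 0 ∧
      f '' W ∈ 𝓝[{p : (Fin n → ℝ) × ℝ | 0 ≤ p.2}] (f x) := by

  obtain ⟨U, f, hU, hx, hn, hf, hi, him, hD, h0⟩ := h
  refine ⟨U, f, hU, hx, hn, hf, hi, ?_, hD, by rw [h0]; rfl, ?_⟩
  · intro y hy
    have h1 : f y ∈ f '' U := mem_image_of_mem f hy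
    rw [him] at h1
    exact h1.2.1
  · rw [him, h0, mem_nhdsWithin_iff_exists_mem_nhds_inter]
    refine ⟨cube n ×ˢ Iio (1 : ℝ), prod_mem_nhds (MBD_cube_nhds fun i => by simp)
      (Iio_mem_nhds one_pos), ?_⟩
    rintro p ⟨⟨h1, h2⟩, h3⟩
    exact ⟨h1, h3, le_of_lt h2⟩

theorem BdPt.mem {n : ℕ} {X D : Set E} {x : E} (h : BdPt n X D x) : x ∈ X ∧ x ∈ D := by

  obtain ⟨U, f, hU, hx, hn, hf, hi, him, hD, h0⟩ := h
  exact ⟨hU hx, (hD x hx).2 (by rw [h0]; rfl)⟩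

theorem IntPt.congr_nhds {n : ℕ} {X Y V : Set E} {x : E} (hV : V ∈ 𝓝 x) (hXY : X ∩ V = Y ∩ V)
    (h : IntPt n X x) : IntPt n Y x := by

  obtain ⟨W, f, hWX, hx, hn, hf, hi, him⟩ := h.data
  obtain ⟨P, hP, hPV, hPn⟩ := MBD_small hV
  have hf' : PLOn f (W ∩ P) := hf.mono (hf.domain.inter hP) inter_subset_left
  refine IntPt.of_nhds (F := Fin n → ℝ) (by simp) (W := W ∩ P) ?_ ⟨hx, mem_of_mem_nhds hPn⟩ ?_ hf'
    (hi.mono inter_subset_left) ?_
  · rintro y ⟨hy, hyP⟩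
    have h1 : y ∈ X ∩ V := ⟨hWX hy, hPV hyP⟩
    rw [hXY] at h1
    exact h1.1
  · rw [← MBD_nhds_congr hV hXY]
    exact Filter.inter_mem hn (mem_nhdsWithin_of_mem_nhds hPn)
  · have h1 := MBD_inj_nhds (S := univ) hf.domain.isCompact hf.continuousOn hi hx hPn
      (by rw [nhdsWithin_univ]; exact him)
    rwa [nhdsWithin_univ] at h1

theorem BdPt.congr_nhds {n : ℕ} {X Y D D' V : Set E} {x : E} (hV : V ∈ 𝓝 x)
    (hXY : X ∩ V = Y ∩ V) (hDD : D ∩ V = D' ∩ V) (h : BdPt n X D x) : BdPt n Y D' x := by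

  obtain ⟨W, f, hWX, hx, hn, hf, hi, hpos, hD, h0, him⟩ := h.data
  obtain ⟨P, hP, hPV, hPn⟩ := MBD_small hV
  have hf' : PLOn f (W ∩ P) := hf.mono (hf.domain.inter hP) inter_subset_left
  refine BdPt.of_nhds (F := Fin n → ℝ) (by simp) (W := W ∩ P) ?_ ⟨hx, mem_of_mem_nhds hPn⟩ ?_ hf'
    (hi.mono inter_subset_left) (fun y hy => hpos y hy.1) ?_ h0 ?_
  · rintro y ⟨hy, hyP⟩
    have h1 : y ∈ X ∩ V := ⟨hWX hy, hPV hyP⟩
    rw [hXY] at h1
    exact h1.1
  · rw [← MBD_nhds_congr hV hXY]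
    exact Filter.inter_mem hn (mem_nhdsWithin_of_mem_nhds hPn)
  · intro y hy
    rw [← hD y hy.1]
    constructor
    · intro h1
      have h2 : y ∈ D' ∩ V := ⟨h1, hPV hy.2⟩
      rw [← hDD] at h2
      exact h2.1
    · intro h1
      have h2 : y ∈ D ∩ V := ⟨h1, hPV hy.2⟩
      rw [hDD] at h2
      exact h2.1
  · exact MBD_inj_nhds hf.domain.isCompact hf.continuousOn hi hx hPn him

theorem IntPt.image {n : ℕ} {X : Set E} {x : E} {φ : E → F} (hφ : PLOn φ X) (hi : InjOn φ X)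
    (hx : x ∈ X) (h : IntPt n X x) : IntPt n (φ '' X) (φ x) := by

  obtain ⟨U, f, ⟨hU, hf, hfi, him⟩, hxU, hn, hc⟩ := h
  have hinv : ∀ y ∈ U, Function.invFunOn φ X (φ y) = y := fun y hy =>
    hi.leftInvOn_invFunOn (hU hy)
  refine ⟨φ '' U, fun y => f (Function.invFunOn φ X y), ⟨image_mono hU,
    MBD_image_pl hφ hi hU hf, ?_, ?_⟩, mem_image_of_mem φ hxU,
    MBD_image_nhds hφ hi hx hU hn, ?_⟩
  · rintro _ ⟨y, hy, rfl⟩ _ ⟨z, hz, rfl⟩ hyz
    simp only [hinv y hy, hinv z hz] at hyz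
    rw [hfi hy hz hyz]
  · rw [image_image, ← him]
    exact image_congr fun y hy => by rw [hinv y hy]
  · intro i
    simp only [hinv x hxU]
    exact hc i

theorem BdPt.image {n : ℕ} {X D : Set E} {x : E} {φ : E → F} (hφ : PLOn φ X) (hi : InjOn φ X)
    (hD : D ⊆ X) (h : BdPt n X D x) : BdPt n (φ '' X) (φ '' D) (φ x) := by

  obtain ⟨U, f, hU, hxU, hn, hf, hfi, him, hDf, h0⟩ := h
  have hinv : ∀ y ∈ U, Function.invFunOn φ X (φ y) = y := fun y hy =>
    hi.leftInvOn_invFunOn (hU hy)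
  refine ⟨φ '' U, fun y => f (Function.invFunOn φ X y), image_mono hU,
    mem_image_of_mem φ hxU, MBD_image_nhds hφ hi (hU hxU) hU hn,
    MBD_image_pl hφ hi hU hf, ?_, ?_, ?_, ?_⟩
  · rintro _ ⟨y, hy, rfl⟩ _ ⟨z, hz, rfl⟩ hyz
    simp only [hinv y hy, hinv z hz] at hyz
    rw [hfi hy hz hyz]
  · rw [image_image, ← him]
    exact image_congr fun y hy => by rw [hinv y hy]
  · rintro _ ⟨y, hy, rfl⟩
    simp only [hinv y hy]
    rw [← hDf y hy]
    constructor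
    · rintro ⟨z, hz, hzy⟩
      rw [← hi (hD hz) (hU hy) hzy]
      exact hz
    · intro h1
      exact mem_image_of_mem φ h1
  · simp only [hinv x hxU]
    exact h0

end Pool.H54.UB

end S_MBD

section S_MBP

/-!
# Row MBP: products of PL manifolds with boundary

Use the local data (`IntPt.data`, `BdPt.data`), product maps (`PLOn.prodMap`), reorder the factors by
linear isomorphisms, and `of_nhds`.
* interior × interior: `(f, g) : W × W' → (Fin n → ℝ) × (Fin m → ℝ)`.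
* boundary × interior: `((f₁, g), f₂)`, boundary `D × Y`.  interior × boundary: symmetric.
* boundary × boundary (corner): `f = (f₁, s)`, `g = (g₁, t)`, `s, t ≥ 0`; use the PL homeomorphism
  `(s, t) ↦ (s - t, min s t)` from `{s, t ≥ 0}` onto `ℝ × {r ≥ 0}`, with inverse
  `(a, r) ↦ (r + max a 0, r + max (-a) 0)`; so `h = (((f₁, g₁), s - t), min s t)`; `min s t = 0` iff
  `s = 0` or `t = 0`, i.e. on `X × D' ∪ D × Y`.  The image is a neighbourhood in the half space because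
  the map `(s,t) ↦ (s-t, min s t)` is a homeomorphism of the quadrant onto the half plane.
-/

open Set Topology

namespace Pool.H54.UB

variable {E F : Type*} [NormedAddCommGroup E] [NormedSpace ℝ E] [FiniteDimensional ℝ E]
  [NormedAddCommGroup F] [NormedSpace ℝ F] [FiniteDimensional ℝ F]

private theorem MBP_img {A B : Type*} [TopologicalSpace A] [TopologicalSpace B] (φ : A → B)
    (ψ : B → A) {H : Set B} {K : Set A} {b : B} (hψ : Continuous ψ)
    (hm : MapsTo ψ H K) (hr : ∀ q ∈ H, φ (ψ q) = q) {S : Set A} (hS : S ∈ 𝓝[K] (ψ b)) :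
    φ '' S ∈ 𝓝[H] b := by
  have h0 : Filter.Tendsto ψ (𝓝[H] b) (𝓝[K] (ψ b)) :=
    hψ.continuousWithinAt.tendsto_nhdsWithin hm
  have h1 : ψ ⁻¹' S ∈ 𝓝[H] b := h0 hS
  filter_upwards [h1, self_mem_nhdsWithin] with q hq hqH
  exact ⟨ψ q, hq, hr q hqH⟩

private theorem MBP_inj {A B : Type*} {f : E → A} {g : F → B} {W : Set E} {W' : Set F}
    (hf : InjOn f W) (hg : InjOn g W') :
    InjOn (fun p : E × F => (f p.1, g p.2)) (W ×ˢ W') := by
  rintro ⟨a, b⟩ ⟨ha, hb⟩ ⟨a', b'⟩ ⟨ha', hb'⟩ he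
  have h1 : f a = f a' := congrArg Prod.fst he
  have h2 : g b = g b' := congrArg Prod.snd he
  exact Prod.ext (hf ha ha' h1) (hg hb hb' h2)

theorem IntPt.prod {n m : ℕ} {X : Set E} {Y : Set F} {x : E} {y : F} (hx : IntPt n X x)
    (hy : IntPt m Y y) : IntPt (n + m) (X ×ˢ Y) (x, y) := by
  obtain ⟨W, f, hWX, hxW, hW, hf, hfi, hfim⟩ := hx.data
  obtain ⟨W', g, hWY, hyW, hW', hg, hgi, hgim⟩ := hy.data
  refine IntPt.of_nhds (F := (Fin n → ℝ) × (Fin m → ℝ)) (W := W ×ˢ W')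
    (h := fun p => (f p.1, g p.2)) ?_ (Set.prod_mono hWX hWY) ⟨hxW, hyW⟩
    (nhdsWithin_prod hW hW') (hf.prodMap hg) (MBP_inj hfi hgi) ?_
  · rw [Module.finrank_prod, Module.finrank_fin_fun, Module.finrank_fin_fun]
  · rw [← Set.prod_image_image_eq]
    exact prod_mem_nhds hfim hgim

/-- the affine map `((a, s), b) ↦ ((a, b), s)` -/
private noncomputable def MBP_r (A B : Type*) [NormedAddCommGroup A] [NormedSpace ℝ A]
    [NormedAddCommGroup B] [NormedSpace ℝ B] : (A × ℝ) × B →ₗ[ℝ] (A × B) × ℝ :=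
  (((LinearMap.fst ℝ A ℝ).comp (LinearMap.fst ℝ (A × ℝ) B)).prod (LinearMap.snd ℝ (A × ℝ) B)).prod
    ((LinearMap.snd ℝ A ℝ).comp (LinearMap.fst ℝ (A × ℝ) B))

/-- the affine map `(a, (b, s)) ↦ ((a, b), s)` -/
private noncomputable def MBP_l (A B : Type*) [NormedAddCommGroup A] [NormedSpace ℝ A]
    [NormedAddCommGroup B] [NormedSpace ℝ B] : A × (B × ℝ) →ₗ[ℝ] (A × B) × ℝ :=
  ((LinearMap.fst ℝ A (B × ℝ)).prod ((LinearMap.fst ℝ B ℝ).comp (LinearMap.snd ℝ A (B × ℝ)))).prod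
    ((LinearMap.snd ℝ B ℝ).comp (LinearMap.snd ℝ A (B × ℝ)))

theorem BdPt.prod_int {n m : ℕ} {X D : Set E} {Y : Set F} {x : E} {y : F} (hx : BdPt n X D x)
    (hy : IntPt m Y y) : BdPt (n + m) (X ×ˢ Y) (D ×ˢ Y) (x, y) := by
  obtain ⟨W, f, hWX, hxW, hW, hf, hfi, hfp, hfD, hf0, hfim⟩ := hx.data
  obtain ⟨W', g, hWY, hyW, hW', hg, hgi, hgim⟩ := hy.data
  have hPL : PLOn (fun p : E × F => (((f p.1).1, g p.2), (f p.1).2)) (W ×ˢ W') :=
    (hf.prodMap hg).affine_comp (MBP_r (Fin n → ℝ) (Fin m → ℝ)).toAffineMap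
  refine BdPt.of_nhds (F := (Fin n → ℝ) × (Fin m → ℝ)) (W := W ×ˢ W')
    (h := fun p => (((f p.1).1, g p.2), (f p.1).2)) ?_ (Set.prod_mono hWX hWY) ⟨hxW, hyW⟩
    (nhdsWithin_prod hW hW') hPL ?_ ?_ ?_ ?_ ?_
  · rw [Module.finrank_prod, Module.finrank_fin_fun, Module.finrank_fin_fun]
  · intro p hp q hq he
    apply MBP_inj hfi hgi hp hq
    have h1 : (f p.1).1 = (f q.1).1 := congrArg (fun z => z.1.1) he
    have h2 : g p.2 = g q.2 := congrArg (fun z => z.1.2) he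
    have h3 : (f p.1).2 = (f q.1).2 := congrArg (fun z => z.2) he
    exact Prod.ext (Prod.ext h1 h3) h2
  · intro p hp
    exact hfp _ hp.1
  · intro p hp
    show (p.1 ∈ D ∧ p.2 ∈ Y) ↔ (f p.1).2 = 0
    rw [← hfD _ hp.1]
    exact ⟨fun h => h.1, fun h => ⟨h, hWY hp.2⟩⟩
  · exact hf0
  · have h1 : (fun p : E × F => (((f p.1).1, g p.2), (f p.1).2)) '' (W ×ˢ W') =
        (fun z : ((Fin n → ℝ) × ℝ) × (Fin m → ℝ) => ((z.1.1, z.2), z.1.2)) ''
          ((f '' W) ×ˢ (g '' W')) := by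
      rw [Set.prod_image_image_eq, Set.image_image]
    rw [h1]
    refine MBP_img (K := {q : ((Fin n → ℝ) × ℝ) | 0 ≤ q.2} ×ˢ univ) _
      (fun z : ((Fin n → ℝ) × (Fin m → ℝ)) × ℝ => ((z.1.1, z.2), z.1.2)) (by fun_prop) ?_ ?_ ?_
    · intro z hz
      exact ⟨hz, mem_univ _⟩
    · intro z _
      rfl
    · refine nhdsWithin_prod hfim ?_
      rw [nhdsWithin_univ]
      exact hgim

theorem IntPt.prod_bd {n m : ℕ} {X : Set E} {Y D : Set F} {x : E} {y : F} (hx : IntPt n X x)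
    (hy : BdPt m Y D y) : BdPt (n + m) (X ×ˢ Y) (X ×ˢ D) (x, y) := by
  obtain ⟨W, f, hWX, hxW, hW, hf, hfi, hfim⟩ := hx.data
  obtain ⟨W', g, hWY, hyW, hW', hg, hgi, hgp, hgD, hg0, hgim⟩ := hy.data
  have hPL : PLOn (fun p : E × F => ((f p.1, (g p.2).1), (g p.2).2)) (W ×ˢ W') :=
    (hf.prodMap hg).affine_comp (MBP_l (Fin n → ℝ) (Fin m → ℝ)).toAffineMap
  refine BdPt.of_nhds (F := (Fin n → ℝ) × (Fin m → ℝ)) (W := W ×ˢ W')
    (h := fun p => ((f p.1, (g p.2).1), (g p.2).2)) ?_ (Set.prod_mono hWX hWY) ⟨hxW, hyW⟩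
    (nhdsWithin_prod hW hW') hPL ?_ ?_ ?_ ?_ ?_
  · rw [Module.finrank_prod, Module.finrank_fin_fun, Module.finrank_fin_fun]
  · intro p hp q hq he
    apply MBP_inj hfi hgi hp hq
    have h1 : f p.1 = f q.1 := congrArg (fun z => z.1.1) he
    have h2 : (g p.2).1 = (g q.2).1 := congrArg (fun z => z.1.2) he
    have h3 : (g p.2).2 = (g q.2).2 := congrArg (fun z => z.2) he
    exact Prod.ext h1 (Prod.ext h2 h3)
  · intro p hp
    exact hgp _ hp.2
  · intro p hp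
    show (p.1 ∈ X ∧ p.2 ∈ D) ↔ (g p.2).2 = 0
    rw [← hgD _ hp.2]
    exact ⟨fun h => h.2, fun h => ⟨hWX hp.1, h⟩⟩
  · exact hg0
  · have h1 : (fun p : E × F => ((f p.1, (g p.2).1), (g p.2).2)) '' (W ×ˢ W') =
        (fun z : (Fin n → ℝ) × ((Fin m → ℝ) × ℝ) => ((z.1, z.2.1), z.2.2)) ''
          ((f '' W) ×ˢ (g '' W')) := by
      rw [Set.prod_image_image_eq, Set.image_image]
    rw [h1]
    refine MBP_img (K := univ ×ˢ {q : ((Fin m → ℝ) × ℝ) | 0 ≤ q.2}) _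
      (fun z : ((Fin n → ℝ) × (Fin m → ℝ)) × ℝ => (z.1.1, (z.1.2, z.2))) (by fun_prop) ?_ ?_ ?_
    · intro z hz
      exact ⟨mem_univ _, hz⟩
    · intro z _
      rfl
    · refine nhdsWithin_prod ?_ hgim
      rw [nhdsWithin_univ]
      exact hfim

/-- The boundary description is local: here `x` is an interior point of `X` away from `D`. -/
theorem IntPt.prod_bd' {n m : ℕ} {X D : Set E} {Y D' : Set F} {x : E} {y : F}
    (hx : IntPt n X x) (hD : IsClosed D) (hxD : x ∉ D) (hy : BdPt m Y D' y) :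
    BdPt (n + m) (X ×ˢ Y) (X ×ˢ D' ∪ D ×ˢ Y) (x, y) := by
  refine BdPt.congr_nhds (V := Dᶜ ×ˢ univ) (prod_mem_nhds (hD.isOpen_compl.mem_nhds hxD)
    Filter.univ_mem) rfl ?_ (hx.prod_bd hy)
  ext ⟨a, b⟩
  constructor
  · rintro ⟨h1, h2⟩
    exact ⟨Or.inl h1, h2⟩
  · rintro ⟨h1 | h1, h2⟩
    · exact ⟨h1, h2⟩
    · exact absurd h1.1 h2.1

theorem BdPt.prod_int' {n m : ℕ} {X D : Set E} {Y D' : Set F} {x : E} {y : F}
    (hx : BdPt n X D x) (hD : IsClosed D') (hyD : y ∉ D') (hy : IntPt m Y y) :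
    BdPt (n + m) (X ×ˢ Y) (X ×ˢ D' ∪ D ×ˢ Y) (x, y) := by
  refine BdPt.congr_nhds (V := univ ×ˢ D'ᶜ) (prod_mem_nhds Filter.univ_mem
    (hD.isOpen_compl.mem_nhds hyD)) rfl ?_ (hx.prod_int hy)
  ext ⟨a, b⟩
  constructor
  · rintro ⟨h1, h2⟩
    exact ⟨Or.inr h1, h2⟩
  · rintro ⟨h1 | h1, h2⟩
    · exact absurd h1.2 h2.2
    · exact ⟨h1, h2⟩

private theorem MBP_min (s t s' t' : ℝ) (h1 : s - t = s' - t') (h2 : min s t = min s' t') :
    s = s' ∧ t = t' := by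
  rcases le_total s t with h | h
  · have h' : s' ≤ t' := by linarith
    rw [min_eq_left h, min_eq_left h'] at h2
    exact ⟨h2, by linarith⟩
  · have h' : t' ≤ s' := by linarith
    rw [min_eq_right h, min_eq_right h'] at h2
    exact ⟨by linarith, h2⟩

private theorem MBP_min0 (s t : ℝ) (hs : 0 ≤ s) (ht : 0 ≤ t) : min s t = 0 ↔ t = 0 ∨ s = 0 := by
  constructor
  · intro h
    rcases le_total s t with h1 | h1
    · rw [min_eq_left h1] at h; exact Or.inr h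
    · rw [min_eq_right h1] at h; exact Or.inl h
  · rintro (h | h)
    · rw [h, min_eq_right hs]
    · rw [h, min_eq_left ht]

theorem BdPt.prod_bd {n m : ℕ} {X D : Set E} {Y D' : Set F} {x : E} {y : F} (hx : BdPt n X D x)
    (hy : BdPt m Y D' y) :
    BdPt (n + m + 1) (X ×ˢ Y) (X ×ˢ D' ∪ D ×ˢ Y) (x, y) := by
  obtain ⟨W, f, hWX, hxW, hW, hf, hfi, hfp, hfD, hf0, hfim⟩ := hx.data
  obtain ⟨W', g, hWY, hyW, hW', hg, hgi, hgp, hgD, hg0, hgim⟩ := hy.data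
  have hP : PLOn (fun p : E × F => (f p.1, g p.2)) (W ×ˢ W') := hf.prodMap hg
  have hs : PLOn (fun p : E × F => (f p.1).2) (W ×ˢ W') :=
    hP.affine_comp ((LinearMap.snd ℝ (Fin n → ℝ) ℝ).comp
      (LinearMap.fst ℝ ((Fin n → ℝ) × ℝ) ((Fin m → ℝ) × ℝ))).toAffineMap
  have ht : PLOn (fun p : E × F => (g p.2).2) (W ×ˢ W') :=
    hP.affine_comp ((LinearMap.snd ℝ (Fin m → ℝ) ℝ).comp
      (LinearMap.snd ℝ ((Fin n → ℝ) × ℝ) ((Fin m → ℝ) × ℝ))).toAffineMap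
  have ha : PLOn (fun p : E × F => (f p.1).1) (W ×ˢ W') :=
    hP.affine_comp ((LinearMap.fst ℝ (Fin n → ℝ) ℝ).comp
      (LinearMap.fst ℝ ((Fin n → ℝ) × ℝ) ((Fin m → ℝ) × ℝ))).toAffineMap
  have hb : PLOn (fun p : E × F => (g p.2).1) (W ×ˢ W') :=
    hP.affine_comp ((LinearMap.fst ℝ (Fin m → ℝ) ℝ).comp
      (LinearMap.snd ℝ ((Fin n → ℝ) × ℝ) ((Fin m → ℝ) × ℝ))).toAffineMap
  have hd : PLOn (fun p : E × F => (f p.1).2 - (g p.2).2) (W ×ˢ W') := by
    refine (hs.add (ht.const_smul (-1))).congr fun p _ => ?_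
    show (f p.1).2 + (-1 : ℝ) • (g p.2).2 = (f p.1).2 - (g p.2).2
    rw [smul_eq_mul]; ring
  have hPL : PLOn (fun p : E × F => ((((f p.1).1, (g p.2).1), (f p.1).2 - (g p.2).2),
      min (f p.1).2 (g p.2).2)) (W ×ˢ W') :=
    ((ha.prodMk hb).prodMk hd).prodMk (hs.min ht)
  refine BdPt.of_nhds (F := ((Fin n → ℝ) × (Fin m → ℝ)) × ℝ) (W := W ×ˢ W')
    (h := fun p => ((((f p.1).1, (g p.2).1), (f p.1).2 - (g p.2).2),
      min (f p.1).2 (g p.2).2)) ?_ (Set.prod_mono hWX hWY) ⟨hxW, hyW⟩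
    (nhdsWithin_prod hW hW') hPL ?_ ?_ ?_ ?_ ?_
  · rw [Module.finrank_prod, Module.finrank_prod, Module.finrank_fin_fun, Module.finrank_fin_fun,
      Module.finrank_self]
  · intro p hp q hq he
    apply MBP_inj hfi hgi hp hq
    have h1 : (f p.1).1 = (f q.1).1 := congrArg (fun z => z.1.1.1) he
    have h2 : (g p.2).1 = (g q.2).1 := congrArg (fun z => z.1.1.2) he
    have h3 : (f p.1).2 - (g p.2).2 = (f q.1).2 - (g q.2).2 := congrArg (fun z => z.1.2) he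
    have h4 : min (f p.1).2 (g p.2).2 = min (f q.1).2 (g q.2).2 := congrArg (fun z => z.2) he
    obtain ⟨h5, h6⟩ := MBP_min _ _ _ _ h3 h4
    exact Prod.ext (Prod.ext h1 h5) (Prod.ext h2 h6)
  · intro p hp
    exact le_min (hfp _ hp.1) (hgp _ hp.2)
  · intro p hp
    show (p ∈ X ×ˢ D' ∪ D ×ˢ Y) ↔ min (f p.1).2 (g p.2).2 = 0
    rw [MBP_min0 _ _ (hfp _ hp.1) (hgp _ hp.2), ← hfD _ hp.1, ← hgD _ hp.2]
    constructor
    · rintro (h | h)
      · exact Or.inl h.2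
      · exact Or.inr h.1
    · rintro (h | h)
      · exact Or.inl ⟨hWX hp.1, h⟩
      · exact Or.inr ⟨h, hWY hp.2⟩
  · show min (f x).2 (g y).2 = 0
    rw [hf0, hg0, min_self]
  · have h1 : (fun p : E × F => ((((f p.1).1, (g p.2).1), (f p.1).2 - (g p.2).2),
          min (f p.1).2 (g p.2).2)) '' (W ×ˢ W') =
        (fun z : ((Fin n → ℝ) × ℝ) × ((Fin m → ℝ) × ℝ) =>
          (((z.1.1, z.2.1), z.1.2 - z.2.2), min z.1.2 z.2.2)) ''
          ((f '' W) ×ˢ (g '' W')) := by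
      rw [Set.prod_image_image_eq, Set.image_image]
    rw [h1]
    refine MBP_img (K := {q : ((Fin n → ℝ) × ℝ) | 0 ≤ q.2} ×ˢ {q : ((Fin m → ℝ) × ℝ) | 0 ≤ q.2}) _
      (fun z : (((Fin n → ℝ) × (Fin m → ℝ)) × ℝ) × ℝ =>
        ((z.1.1.1, z.2 + max z.1.2 0), (z.1.1.2, z.2 + max (-z.1.2) 0))) (by fun_prop) ?_ ?_ ?_
    · intro z hz
      have hz' : 0 ≤ z.2 := hz
      exact ⟨add_nonneg hz' (le_max_right _ _), add_nonneg hz' (le_max_right _ _)⟩
    · rintro ⟨⟨⟨a, b⟩, c⟩, r⟩ _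
      show (((a, b), (r + max c 0) - (r + max (-c) 0)), min (r + max c 0) (r + max (-c) 0))
        = (((a, b), c), r)
      rcases le_total c 0 with hc | hc
      · rw [max_eq_right hc, max_eq_left (by linarith : (0 : ℝ) ≤ -c), add_zero,
          min_eq_left (by linarith)]
        congr 2
        ring
      · rw [max_eq_left hc, max_eq_right (by linarith : -c ≤ (0 : ℝ)), add_zero,
          min_eq_right (by linarith)]
        congr 2
        ring
    · have h2 : ((((f x).1, (f x).2), ((g y).1, (g y).2)) : ((Fin n → ℝ) × ℝ) × ((Fin m → ℝ) × ℝ)) =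
          (((f x).1, min (f x).2 (g y).2 + max ((f x).2 - (g y).2) 0),
            ((g y).1, min (f x).2 (g y).2 + max (-((f x).2 - (g y).2)) 0)) := by
        rw [hf0, hg0]
        simp
      show (f '' W) ×ˢ (g '' W') ∈ 𝓝[{q : ((Fin n → ℝ) × ℝ) | 0 ≤ q.2} ×ˢ
          {q : ((Fin m → ℝ) × ℝ) | 0 ≤ q.2}]
          (((f x).1, min (f x).2 (g y).2 + max ((f x).2 - (g y).2) 0),
            ((g y).1, min (f x).2 (g y).2 + max (-((f x).2 - (g y).2)) 0))
      rw [← h2]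
      exact nhdsWithin_prod hfim hgim

theorem IsClosedPLManifold.prod {n m : ℕ} {X : Set E} {Y : Set F}
    (hX : IsClosedPLManifold n X) (hY : IsClosedPLManifold m Y) :
    IsClosedPLManifold (n + m) (X ×ˢ Y) := by
  refine ⟨hX.1.prod hY.1, ?_⟩
  rintro ⟨x, y⟩ ⟨hx, hy⟩
  exact IntPt.prod (hX.2 x hx) (hY.2 y hy)

end Pool.H54.UB

end S_MBP

section S_MBG

/-!
# Row MBG: the boundary is a manifold; gluing along the boundary; balls and shells

* `boundary`: `f : W → (Fin n → ℝ) × ℝ` half space chart at `x ∈ D`; restrict the first component to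
  `W ∩ D = W ∩ {f₂ = 0}` (a polyhedron): PL, injective, image a neighbourhood of `f₁ x`.
* `glue`: `f : W → ..`, `g : W' → ..` half space charts of `A`, `B` at `x`.  Shrinking we may assume that
  `W ∩ D` and `W' ∩ D` agree: replace `W'` by the part of `W'` whose vertical projection is in `W`:
  Let `θ = f₁ ∘ (g₁ restricted to W' ∩ D)⁻¹`, a PL homeomorphism between neighbourhoods of `g₁ x` and
  `f₁ x` in `ℝ^n`.  On a smaller polyhedral neighbourhood `W''` of `x` in `B` (points `y ∈ W'` with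
  `(g₁ y, 0)` in the image of `W' ∩ W ∩ D`) put `h y = (θ (g₁ y), - g₂ y)`; on `W` put
  `h = (f₁, f₂)`.  They agree on `D` (`f₂ = g₂ = 0`, `θ (g₁ y) = f₁ y`), so `h` is well defined, PL and
  injective on `W ∪ W''` (`f₂ ≥ 0`, `- g₂ ≤ 0`), and its image contains a half ball on each side:
  a neighbourhood of `h x` in `ℝ^n × ℝ` (dimension `n+1`).  `W ∪ W''` is a neighbourhood of `x` in
  `A ∪ B`.  Use `A ∩ B = D`.
* `bdpt_ball`, `bdpt_shell`: `y` with `‖y‖ = 1` (sup norm) in `Fin (k+1) → ℝ`, `T = {i | |y i| = 1}`,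
  `i₀ ∈ T`, `s i = y i`.  Near `y`, `‖z‖ = max_{i ∈ T} s i z i =: μ z`.  Map
  `z ↦ ((s i z i - s i₀ z i₀ for i ∈ T \ i₀, z i for i ∉ T), ± (μ z - 1))`: a PL homeomorphism of a
  neighbourhood of `y` (inverse: `s i z i = ζ i + (μ - max_T ζ)`, `ζ i₀ = 0`), with `μ z - 1 ≥ 0` on the
  shell and `1 - μ z ≥ 0` on the ball.
* `intpt_of_interior`: use the inclusion as chart.
-/

open Set Topology

namespace Pool.H54.UB

variable {E : Type*} [NormedAddCommGroup E] [NormedSpace ℝ E] [FiniteDimensional ℝ E]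

theorem MBG_nhds_mk {G : Type*} [NormedAddCommGroup G] {S : Set (G × ℝ)} {a : G}
    (h : S ∈ 𝓝[{p : G × ℝ | 0 ≤ p.2}] ((a, 0) : G × ℝ)) : {q : G | (q, (0 : ℝ)) ∈ S} ∈ 𝓝 a := by
  have h1 : Filter.Tendsto (fun q : G => (q, (0 : ℝ))) (𝓝 a)
      (𝓝[{p : G × ℝ | 0 ≤ p.2}] ((a, 0) : G × ℝ)) := by
    refine tendsto_nhdsWithin_iff.2 ⟨?_, Filter.Eventually.of_forall fun q => ?_⟩
    · exact (by fun_prop : Continuous fun q : G => (q, (0 : ℝ))).tendsto a
    · show (0 : ℝ) ≤ 0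
      exact le_rfl
  exact h1 h

theorem BdPt.boundary {n : ℕ} {X D : Set E} {x : E} (h : BdPt n X D x) (hD : D ⊆ X) :
    IntPt n D x := by
  have hmem := h.mem
  obtain ⟨W, f, hWX, hxW, hW, hpl, hinj, hpos, hDW, hx0, him⟩ := h.data
  have hP : IsPoly (W ∩ f ⁻¹' (f '' W ∩ {p | (LinearMap.snd ℝ (Fin n → ℝ) ℝ).toAffineMap p = 0})) :=
    hpl.preimage (hpl.image.inter_hyperplane _)
  have hWD : W ∩ f ⁻¹' (f '' W ∩ {p | (LinearMap.snd ℝ (Fin n → ℝ) ℝ).toAffineMap p = 0}) =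
      W ∩ D := by
    ext y
    constructor
    · rintro ⟨hy, -, hy2⟩
      exact ⟨hy, (hDW y hy).2 hy2⟩
    · rintro ⟨hy, hy2⟩
      exact ⟨hy, mem_image_of_mem f hy, (hDW y hy).1 hy2⟩
  rw [hWD] at hP
  have hfx : f x = ((f x).1, 0) := Prod.ext rfl hx0
  refine IntPt.of_nhds (F := Fin n → ℝ) (W := W ∩ D) (h := fun y => (f y).1)
    (by simp) inter_subset_right ⟨hxW, hmem.2⟩ ?_ ?_ ?_ ?_
  · exact Filter.inter_mem (nhdsWithin_mono x hD hW) self_mem_nhdsWithin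
  · exact (hpl.mono hP inter_subset_left).affine_comp (LinearMap.fst ℝ (Fin n → ℝ) ℝ).toAffineMap
  · intro y hy y' hy' he
    refine hinj hy.1 hy'.1 (Prod.ext he ?_)
    rw [(hDW y hy.1).1 hy.2, (hDW y' hy'.1).1 hy'.2]
  · rw [hfx] at him
    refine Filter.mem_of_superset (MBG_nhds_mk him) ?_
    rintro q ⟨y, hy, hyq⟩
    refine ⟨y, ⟨hy, (hDW y hy).2 (by rw [hyq])⟩, ?_⟩
    show (f y).1 = q
    rw [hyq]

theorem intpt_of_interior {n : ℕ} (hE : Module.finrank ℝ E = n) {X : Set E} {x : E}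
    (hx : x ∈ interior X) : IntPt n X x := by
  obtain ⟨P, hP, hPX, hPx⟩ := MBD_small (isOpen_interior.mem_nhds hx)
  exact IntPt.of_nhds (F := E) (W := P) (h := fun y => y) hE (hPX.trans interior_subset)
    (mem_of_mem_nhds hPx) (mem_nhdsWithin_of_mem_nhds hPx) (PLOn.id hP) (fun _ _ _ _ h => h)
    (by rwa [image_id'])

theorem isPoly_closedBall (k : ℕ) (r : ℝ) : IsPoly (Metric.closedBall (0 : Fin k → ℝ) r) := by
  rcases lt_or_ge r 0 with hr | hr
  · rw [Metric.closedBall_eq_empty.2 hr]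
    exact IsPoly.empty
  · have h1 : Metric.closedBall (0 : Fin k → ℝ) r =
        {y : Fin k → ℝ | ∀ i, (fun _ => -r) i ≤ y i ∧ y i ≤ (fun _ => r) i} := by
      ext y
      rw [mem_closedBall_zero_iff, pi_norm_le_iff_of_nonneg hr]
      simp only [Real.norm_eq_abs, abs_le, mem_setOf_eq]
    rw [h1]
    exact isPoly_box _ _

theorem MBG_sphere_mem {k : ℕ} (y : Fin k → ℝ) :
    y ∈ Metric.sphere (0 : Fin k → ℝ) 1 ↔ y ∈ Metric.closedBall (0 : Fin k → ℝ) 1 ∧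
      ∃ i, |y i| = 1 := by
  rw [mem_sphere_zero_iff_norm, mem_closedBall_zero_iff]
  constructor
  · intro h
    refine ⟨h.le, ?_⟩
    by_contra hne
    push Not at hne
    have : ‖y‖ < 1 := by
      rw [pi_norm_lt_iff zero_lt_one]
      intro i
      have h1 := norm_le_pi_norm y i
      rw [h, Real.norm_eq_abs] at h1
      rw [Real.norm_eq_abs]
      exact lt_of_le_of_ne h1 (hne i)
    rw [h] at this
    exact lt_irrefl _ this
  · rintro ⟨h1, i, hi⟩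
    refine le_antisymm h1 ?_
    rw [← hi, ← Real.norm_eq_abs]
    exact norm_le_pi_norm y i

theorem isPoly_sphere (k : ℕ) : IsPoly (Metric.sphere (0 : Fin k → ℝ) 1) := by
  have hc : ∀ (i : Fin k) (c : ℝ), IsPoly (Metric.closedBall (0 : Fin k → ℝ) 1 ∩
      {y | ((LinearMap.proj (R := ℝ) (φ := fun _ : Fin k => ℝ) i).toAffineMap -
        AffineMap.const ℝ (Fin k → ℝ) c) y = 0}) := fun i c =>
    (isPoly_closedBall k 1).inter_hyperplane _
  have h1 : Metric.sphere (0 : Fin k → ℝ) 1 = ⋃ p ∈ (univ : Set (Fin k × Bool)),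
      (Metric.closedBall (0 : Fin k → ℝ) 1 ∩
      {y | ((LinearMap.proj (R := ℝ) (φ := fun _ : Fin k => ℝ) p.1).toAffineMap -
        AffineMap.const ℝ (Fin k → ℝ) (if p.2 then (1 : ℝ) else -1)) y = 0}) := by
    ext y
    rw [MBG_sphere_mem]
    simp only [mem_iUnion, mem_univ, exists_prop, true_and, mem_inter_iff, mem_setOf_eq]
    constructor
    · rintro ⟨h1, i, hi⟩
      rcases (abs_eq zero_le_one).1 hi with h | h
      · exact ⟨(i, true), h1, by simp [h]⟩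
      · exact ⟨(i, false), h1, by simp [h]⟩
    · rintro ⟨⟨i, b⟩, h1, h2⟩
      refine ⟨h1, i, ?_⟩
      cases b
      · have h3 : y i - (-1) = 0 := h2
        rw [sub_eq_zero] at h3
        rw [h3]; norm_num
      · have h3 : y i - 1 = 0 := h2
        rw [sub_eq_zero] at h3
        rw [h3]; norm_num
  rw [h1]
  exact IsPoly.biUnion finite_univ fun p _ => hc p.1 _

theorem BdPt.glue {n : ℕ} {A B D : Set E} {x : E} (hA : BdPt n A D x) (hB : BdPt n B D x)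
    (hD : A ∩ B = D) : IntPt (n + 1) (A ∪ B) x := by
  classical
  have hxA := hA.mem
  have hxB := hB.mem
  have hDA : D ⊆ A := by rw [← hD]; exact inter_subset_left
  have hDB : D ⊆ B := by rw [← hD]; exact inter_subset_right
  obtain ⟨WA, f, hWA, hxWA, hWAn, hfpl, hfi, hfpos, hfD, hfx, hfim⟩ := hA.data
  obtain ⟨WB, g, hWB, hxWB, hWBn, hgpl, hgi, hgpos, hgD, hgx, hgim⟩ := hB.data
  have hfx' : f x = ((f x).1, 0) := Prod.ext rfl hfx
  have hgx' : g x = ((g x).1, 0) := Prod.ext rfl hgx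
  -- a small polyhedral neighbourhood
  obtain ⟨VA, hVA, hVA'⟩ := mem_nhdsWithin_iff_exists_mem_nhds_inter.1 hWAn
  obtain ⟨VB, hVB, hVB'⟩ := mem_nhdsWithin_iff_exists_mem_nhds_inter.1 hWBn
  obtain ⟨P, hP, hPV, hPn⟩ := MBD_small (Filter.inter_mem hVA hVB)
  have hPA : ∀ y ∈ P, y ∈ A → y ∈ WA := fun y hy hyA => hVA' ⟨(hPV hy).1, hyA⟩
  have hPB : ∀ y ∈ P, y ∈ B → y ∈ WB := fun y hy hyB => hVB' ⟨(hPV hy).2, hyB⟩
  -- the set Z = D ∩ P
  obtain ⟨Z, hZ⟩ : ∃ Z, Z = D ∩ P := ⟨_, rfl⟩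
  have hZm : ∀ y, y ∈ Z ↔ y ∈ D ∧ y ∈ P := fun y => by rw [hZ]; rfl
  have hZA : Z ⊆ WA := fun y hy => hPA y ((hZm y).1 hy).2 (hDA ((hZm y).1 hy).1)
  have hZB : Z ⊆ WB := fun y hy => hPB y ((hZm y).1 hy).2 (hDB ((hZm y).1 hy).1)
  have hZP : IsPoly Z := by
    have h1 : IsPoly (WA ∩ f ⁻¹' (f '' WA ∩
        {p | (LinearMap.snd ℝ (Fin n → ℝ) ℝ).toAffineMap p = 0})) :=
      hfpl.preimage (hfpl.image.inter_hyperplane _)
    have h2 : Z = WA ∩ f ⁻¹' (f '' WA ∩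
        {p | (LinearMap.snd ℝ (Fin n → ℝ) ℝ).toAffineMap p = 0}) ∩ P := by
      ext y
      rw [hZm]
      constructor
      · rintro ⟨h3, h4⟩
        have h5 := hPA y h4 (hDA h3)
        exact ⟨⟨h5, mem_image_of_mem f h5, (hfD y h5).1 h3⟩, h4⟩
      · rintro ⟨⟨h3, -, h4⟩, h5⟩
        exact ⟨(hfD y h3).2 h4, h5⟩
    rw [h2]
    exact h1.inter hP
  have hfZ : ∀ y ∈ Z, (f y).2 = 0 := fun y hy => (hfD y (hZA hy)).1 ((hZm y).1 hy).1
  have hgZ : ∀ y ∈ Z, (g y).2 = 0 := fun y hy => (hgD y (hZB hy)).1 ((hZm y).1 hy).1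
  -- the projections on the boundary
  obtain ⟨g₁, hg₁⟩ : ∃ g₁ : E → Fin n → ℝ, g₁ = fun y => (g y).1 := ⟨_, rfl⟩
  obtain ⟨f₁, hf₁⟩ : ∃ f₁ : E → Fin n → ℝ, f₁ = fun y => (f y).1 := ⟨_, rfl⟩
  have hg₁v : ∀ y, g₁ y = (g y).1 := fun y => by rw [hg₁]
  have hf₁v : ∀ y, f₁ y = (f y).1 := fun y => by rw [hf₁]
  have hg₁Z : PLOn g₁ Z := by
    rw [hg₁]
    exact (hgpl.mono hZP hZB).affine_comp (LinearMap.fst ℝ (Fin n → ℝ) ℝ).toAffineMap
  have hf₁Z : PLOn f₁ Z := by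
    rw [hf₁]
    exact (hfpl.mono hZP hZA).affine_comp (LinearMap.fst ℝ (Fin n → ℝ) ℝ).toAffineMap
  have hg₁i : InjOn g₁ Z := fun y hy y' hy' he => by
    rw [hg₁v, hg₁v] at he
    exact hgi (hZB hy) (hZB hy') (Prod.ext he (by rw [hgZ y hy, hgZ y' hy']))
  have hf₁i : InjOn f₁ Z := fun y hy y' hy' he => by
    rw [hf₁v, hf₁v] at he
    exact hfi (hZA hy) (hZA hy') (Prod.ext he (by rw [hfZ y hy, hfZ y' hy']))
  obtain ⟨θ, hθ⟩ : ∃ θ : (Fin n → ℝ) → Fin n → ℝ,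
    θ = fun q => f₁ (Function.invFunOn g₁ Z q) := ⟨_, rfl⟩
  have hθv : ∀ y ∈ Z, θ (g₁ y) = f₁ y := fun y hy => by
    rw [hθ]
    show f₁ (Function.invFunOn g₁ Z (g₁ y)) = f₁ y
    rw [hg₁i.leftInvOn_invFunOn hy]
  have hθpl : PLOn θ (g₁ '' Z) := by
    rw [hθ]
    exact MBD_image_pl hg₁Z hg₁i (le_refl Z) hf₁Z
  -- the part of B
  obtain ⟨W2, hW2⟩ : ∃ W2, W2 = WB ∩ g₁ ⁻¹' (g₁ '' Z) := ⟨_, rfl⟩
  have hg₁pl : PLOn g₁ WB := by
    rw [hg₁]
    exact hgpl.affine_comp (LinearMap.fst ℝ (Fin n → ℝ) ℝ).toAffineMap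
  have hW2P : IsPoly W2 := by rw [hW2]; exact hg₁pl.preimage hg₁Z.image
  have hW2B : W2 ⊆ WB := by rw [hW2]; exact inter_subset_left
  have hW2m : ∀ y ∈ W2, g₁ y ∈ g₁ '' Z := fun y hy => by rw [hW2] at hy; exact hy.2
  have hW2D : ∀ y ∈ W2, (g y).2 = 0 → y ∈ Z := by
    intro y hy hy0
    obtain ⟨z, hz, hzy⟩ := hW2m y hy
    have h1 : z = y := hgi (hZB hz) (hW2B hy) (Prod.ext (by rw [← hg₁v, ← hg₁v, hzy])
      (by rw [hgZ z hz, hy0]))
    rw [← h1]; exact hz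
  obtain ⟨h, hh⟩ : ∃ h : E → (Fin n → ℝ) × ℝ, h = fun y =>
    if y ∈ WA then f y else (θ (g₁ y), (-1 : ℝ) • (g y).2) := ⟨_, rfl⟩
  have hhA : ∀ y ∈ WA, h y = f y := fun y hy => by rw [hh]; exact if_pos hy
  have hhB : ∀ y ∈ W2, h y = (θ (g₁ y), (-1 : ℝ) • (g y).2) := by
    intro y hy
    by_cases hyA : y ∈ WA
    · rw [hhA y hyA]
      have hyD : y ∈ D := by rw [← hD]; exact ⟨hWA hyA, hWB (hW2B hy)⟩
      have h0 := (hgD y (hW2B hy)).1 hyD
      have hyZ := hW2D y hy h0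
      rw [hθv y hyZ, h0, smul_zero, hf₁v]
      exact Prod.ext rfl (hfZ y hyZ)
    · rw [hh]; exact if_neg hyA
  have hθi : InjOn θ (g₁ '' Z) := by
    rintro _ ⟨y, hy, rfl⟩ _ ⟨y', hy', rfl⟩ he
    rw [hθv y hy, hθv y' hy'] at he
    rw [hf₁i hy hy' he]
  have hpl : PLOn h (WA ∪ W2) := by
    refine PLOn.union (hfpl.congr fun y hy => (hhA y hy).symm) ?_
    refine PLOn.congr (f := fun y => (θ (g₁ y), (-1 : ℝ) • (g y).2)) ?_
      (fun y hy => (hhB y hy).symm)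
    refine PLOn.prodMk ?_ ?_
    · exact hθpl.comp (hg₁pl.mono hW2P hW2B) hW2m
    · exact ((hgpl.mono hW2P hW2B).affine_comp
        (LinearMap.snd ℝ (Fin n → ℝ) ℝ).toAffineMap).const_smul (-1)
  have hcross : ∀ y ∈ WA, ∀ y' ∈ W2, h y = h y' → y = y' := by
    intro y hy y' hy' he
    rw [hhA y hy, hhB y' hy'] at he
    have h1 : (f y).1 = θ (g₁ y') := congrArg Prod.fst he
    have h2 : (f y).2 = (-1 : ℝ) • (g y').2 := congrArg Prod.snd he
    have h3 := hfpos y hy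
    have h4 := hgpos y' (hW2B hy')
    rw [smul_eq_mul] at h2
    have h5 : (f y).2 = 0 := by linarith
    have h6 : (g y').2 = 0 := by linarith
    have h7 := hW2D y' hy' h6
    rw [hθv y' h7, hf₁v] at h1
    exact hfi hy (hZA h7) (Prod.ext h1 (by rw [h5, hfZ y' h7]))
  have hinj : InjOn h (WA ∪ W2) := by
    rintro y (hy | hy) y' (hy' | hy') he
    · rw [hhA y hy, hhA y' hy'] at he
      exact hfi hy hy' he
    · exact hcross y hy y' hy' he
    · exact (hcross y' hy' y hy he.symm).symm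
    · rw [hhB y hy, hhB y' hy'] at he
      have h1 : θ (g₁ y) = θ (g₁ y') := congrArg Prod.fst he
      have h2 : (-1 : ℝ) • (g y).2 = (-1 : ℝ) • (g y').2 := congrArg Prod.snd he
      have h3 := hθi (hW2m y hy) (hW2m y' hy') h1
      rw [smul_eq_mul, smul_eq_mul] at h2
      refine hgi (hW2B hy) (hW2B hy') (Prod.ext ?_ (by linarith))
      rw [← hg₁v, ← hg₁v, h3]
  -- neighbourhoods
  have hZg : g₁ '' Z ∈ 𝓝 (g₁ x) := by
    have h1 : g '' (WB ∩ P) ∈ 𝓝[{p : (Fin n → ℝ) × ℝ | 0 ≤ p.2}] (g x) :=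
      MBD_inj_nhds hgpl.domain.isCompact hgpl.continuousOn hgi hxWB hPn hgim
    rw [hgx'] at h1
    have h2 := MBG_nhds_mk h1
    rw [hg₁v]
    refine Filter.mem_of_superset h2 ?_
    rintro q ⟨y, ⟨hy, hyP⟩, hyq⟩
    have h3 : y ∈ D := (hgD y hy).2 (by rw [hyq])
    exact ⟨y, (hZm y).2 ⟨h3, hyP⟩, by rw [hg₁v, hyq]⟩
  have hxW : x ∈ WA ∪ W2 := Or.inl hxWA
  have hWn : WA ∪ W2 ∈ 𝓝[A ∪ B] x := by
    rw [nhdsWithin_union]
    refine Filter.mem_sup.2 ⟨Filter.mem_of_superset hWAn subset_union_left, ?_⟩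
    have h1 : ContinuousWithinAt g₁ WB x := hg₁pl.continuousOn x hxWB
    have h2 : g₁ ⁻¹' (g₁ '' Z) ∈ 𝓝[WB] x := h1 hZg
    obtain ⟨O, hO, hO'⟩ := mem_nhdsWithin_iff_exists_mem_nhds_inter.1 h2
    refine Filter.mem_of_superset (Filter.inter_mem hWBn (mem_nhdsWithin_of_mem_nhds hO)) ?_
    rintro y ⟨hy, hyO⟩
    right
    rw [hW2]
    exact ⟨hy, hO' ⟨hyO, hy⟩⟩
  refine IntPt.of_nhds (F := (Fin n → ℝ) × ℝ) (W := WA ∪ W2) (h := h) ?_ ?_ hxW hWn hpl hinj ?_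
  · rw [Module.finrank_prod]
    simp
  · exact union_subset_union hWA (hW2B.trans hWB)
  · rw [hhA x hxWA]
    -- product neighbourhood in g '' WB
    have hgim' := hgim
    rw [hgx'] at hgim'
    obtain ⟨O, hO, hO'⟩ := mem_nhdsWithin_iff_exists_mem_nhds_inter.1 hgim'
    rw [nhds_prod_eq, Filter.mem_prod_iff] at hO
    obtain ⟨O₁, hO₁, O₂, hO₂, hOO⟩ := hO
    have h1 : ContinuousWithinAt g₁ WB x := hg₁pl.continuousOn x hxWB
    have h2 : g₁ ⁻¹' O₁ ∈ 𝓝[WB] x := by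
      apply h1
      rw [hg₁v]
      exact hO₁
    obtain ⟨V, hV, hV'⟩ := mem_nhdsWithin_iff_exists_mem_nhds_inter.1 h2
    have h3 : f '' (WA ∩ (P ∩ V)) ∈ 𝓝[{p : (Fin n → ℝ) × ℝ | 0 ≤ p.2}] (f x) :=
      MBD_inj_nhds hfpl.domain.isCompact hfpl.continuousOn hfi hxWA (Filter.inter_mem hPn hV) hfim
    rw [hfx'] at h3
    have h4 := MBG_nhds_mk h3
    have hfim' := hfim
    rw [hfx'] at hfim'
    obtain ⟨U, hU, hU'⟩ := mem_nhdsWithin_iff_exists_mem_nhds_inter.1 hfim'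
    rw [hfx']
    have h5 : {p : (Fin n → ℝ) × ℝ | p ∈ U ∧ p.1 ∈ {q | (q, (0 : ℝ)) ∈ f '' (WA ∩ (P ∩ V))} ∧
        -p.2 ∈ O₂} ∈ 𝓝 (((f x).1, 0) : (Fin n → ℝ) × ℝ) := by
      refine Filter.inter_mem hU (Filter.inter_mem ?_ ?_)
      · exact (continuous_fst.tendsto (((f x).1, (0 : ℝ)) : (Fin n → ℝ) × ℝ)) h4
      · have : ContinuousAt (fun p : (Fin n → ℝ) × ℝ => -p.2) (((f x).1, 0)) := by fun_prop
        refine this.preimage_mem_nhds ?_
        show O₂ ∈ 𝓝 (-(0 : ℝ))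
        rw [neg_zero]
        exact hO₂
    refine Filter.mem_of_superset h5 ?_
    rintro p ⟨hp1, hp2, hp3⟩
    rcases le_total 0 p.2 with hp | hp
    · obtain ⟨y, hy, hyp⟩ := hU' ⟨hp1, hp⟩
      exact ⟨y, Or.inl hy, by rw [hhA y hy, hyp]⟩
    · obtain ⟨y₁, ⟨hy₁, hy₁P, hy₁V⟩, hy₁p⟩ := hp2
      have hy₁D : y₁ ∈ D := (hfD y₁ hy₁).2 (by rw [hy₁p])
      have hy₁Z : y₁ ∈ Z := (hZm y₁).2 ⟨hy₁D, hy₁P⟩
      have h6 : g₁ y₁ ∈ O₁ := hV' ⟨hy₁V, hZB hy₁Z⟩
      have h7 : (g₁ y₁, -p.2) ∈ g '' WB := hO' ⟨hOO ⟨h6, hp3⟩, by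
        show 0 ≤ -p.2
        linarith⟩
      obtain ⟨y, hy, hyp⟩ := h7
      have h8 : g₁ y = g₁ y₁ := by rw [hg₁v, hyp]
      have hy2 : y ∈ W2 := by
        rw [hW2]
        refine ⟨hy, ?_⟩
        show g₁ y ∈ g₁ '' Z
        rw [h8]
        exact mem_image_of_mem g₁ hy₁Z
      refine ⟨y, Or.inr hy2, ?_⟩
      rw [hhB y hy2, h8, hθv y₁ hy₁Z, hf₁v, hy₁p, hyp]
      refine Prod.ext rfl ?_
      show (-1 : ℝ) • (-p.2) = p.2
      rw [smul_eq_mul]
      ring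

theorem MBG_attain {k : ℕ} (z : Fin (k + 1) → ℝ) : ∃ i, |z i| = ‖z‖ := by
  obtain ⟨i, hi⟩ := Finite.exists_max (fun i => |z i|)
  refine ⟨i, le_antisymm ?_ ?_⟩
  · rw [← Real.norm_eq_abs]
    exact norm_le_pi_norm z i
  · rw [pi_norm_le_iff_of_nonneg (abs_nonneg _)]
    intro j
    rw [Real.norm_eq_abs]
    exact hi j

theorem MBG_norm_pl {k : ℕ} {X : Set (Fin (k + 1) → ℝ)} (hX : IsPoly X) :
    PLOn (fun z : Fin (k + 1) → ℝ => ‖z‖) X := by
  have h1 : PLOn (fun z : Fin (k + 1) → ℝ =>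
      Finset.univ.sup' ⟨0, Finset.mem_univ 0⟩ (fun i => max (z i) ((-1 : ℝ) • z i))) X :=
    PLOn.sup' Finset.univ ⟨0, Finset.mem_univ 0⟩ fun i _ =>
      ((PLOn.id hX).apply i).max (((PLOn.id hX).apply i).const_smul (-1))
  refine h1.congr fun z _ => ?_
  have habs : ∀ i, max (z i) ((-1 : ℝ) • z i) = |z i| := fun i => by
    rw [smul_eq_mul, neg_one_mul]
    rfl
  show Finset.univ.sup' _ (fun i => max (z i) ((-1 : ℝ) • z i)) = ‖z‖
  simp only [habs]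
  obtain ⟨i, hi⟩ := MBG_attain z
  refine le_antisymm (Finset.sup'_le _ _ fun j _ => ?_) ?_
  · rw [← Real.norm_eq_abs]
    exact norm_le_pi_norm z j
  · rw [← hi]
    exact Finset.le_sup' (fun i => |z i|) (Finset.mem_univ i)

/-- The ball (`e = -1`) and the shell (`e = 1`) near a boundary point. -/
theorem MBG_bd (k : ℕ) {x : Fin (k + 1) → ℝ} (hx : ‖x‖ = 1) (e : ℝ) (he : e * e = 1)
    (S : Set (Fin (k + 1) → ℝ)) (hSp : IsPoly S)
    (hSm : ∀ z, ‖z‖ ≤ 2 → (z ∈ S ↔ 0 ≤ e * (‖z‖ - 1))) :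
    BdPt k S (Metric.sphere 0 1) x := by
  classical
  have he1 : |e| = 1 := by
    have h1 : |e| * |e| = 1 := by rw [← abs_mul, he, abs_one]
    have h2 := abs_nonneg e
    nlinarith
  have hx1 : ∀ i, |x i| ≤ 1 := fun i => by
    rw [← hx, ← Real.norm_eq_abs]
    exact norm_le_pi_norm x i
  obtain ⟨i₀, hi₀'⟩ := MBG_attain x
  have hi₀ : |x i₀| = 1 := by rw [hi₀', hx]
  have hsq : ∀ i, |x i| = 1 → x i * x i = 1 := by
    intro i hi
    rw [← abs_mul_abs_self, hi, one_mul]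
  obtain ⟨η, hη0, hη1, hη⟩ : ∃ η : ℝ, 0 < η ∧ η < 1 / 2 ∧ ∀ i, |x i| ≠ 1 → |x i| + 2 * η < 1 := by
    have h1 : ∀ᶠ η in 𝓝[>] (0 : ℝ), η < 1 / 2 :=
      mem_nhdsWithin_of_mem_nhds (Iio_mem_nhds (by norm_num))
    have h2 : ∀ᶠ η in 𝓝[>] (0 : ℝ), ∀ i, |x i| ≠ 1 → |x i| + 2 * η < 1 := by
      rw [Filter.eventually_all]
      intro i
      by_cases hi : |x i| = 1
      · exact Filter.Eventually.of_forall fun η h => absurd hi h
      · have hlt : |x i| < 1 := lt_of_le_of_ne (hx1 i) hi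
        have h3 : ∀ᶠ η in 𝓝[>] (0 : ℝ), η < (1 - |x i|) / 2 :=
          mem_nhdsWithin_of_mem_nhds (Iio_mem_nhds (by linarith))
        filter_upwards [h3] with η h4 _
        linarith
    have h3 : ∀ᶠ η in 𝓝[>] (0 : ℝ), 0 < η := self_mem_nhdsWithin
    obtain ⟨η, h4, h5, h6⟩ := (h3.and (h1.and h2)).exists
    exact ⟨η, h4, h5, h6⟩
  obtain ⟨W, hW⟩ : ∃ W, W = S ∩ {y : Fin (k + 1) → ℝ | ∀ i, x i - η ≤ y i ∧ y i ≤ x i + η} :=
    ⟨_, rfl⟩
  have hWp : IsPoly W := by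
    rw [hW]; exact hSp.inter (isPoly_box (fun i => x i - η) (fun i => x i + η))
  have hWm : ∀ y, y ∈ W ↔ y ∈ S ∧ ∀ i, |y i - x i| ≤ η := by
    intro y
    rw [hW]
    show (y ∈ S ∧ ∀ i, x i - η ≤ y i ∧ y i ≤ x i + η) ↔ _
    refine and_congr_right fun _ => forall_congr' fun i => ?_
    rw [abs_le]
    constructor
    · rintro ⟨h1, h2⟩; constructor <;> linarith
    · rintro ⟨h1, h2⟩; constructor <;> linarith
  -- norms in the box
  have hbox2 : ∀ y : Fin (k + 1) → ℝ, (∀ i, |y i - x i| ≤ η) → ‖y‖ ≤ 2 := by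
    intro y hy
    rw [pi_norm_le_iff_of_nonneg (by norm_num)]
    intro i
    rw [Real.norm_eq_abs]
    have h1 := abs_add_le (x i) (y i - x i)
    have h2 : x i + (y i - x i) = y i := by ring
    rw [h2] at h1
    have h3 := hx1 i
    have h4 := hy i
    linarith
  have hle : ∀ y : Fin (k + 1) → ℝ, ∀ i, |x i| = 1 → x i * y i ≤ ‖y‖ := by
    intro y i hi
    have h1 : |x i * y i| ≤ ‖y‖ := by
      rw [abs_mul, hi, one_mul, ← Real.norm_eq_abs]
      exact norm_le_pi_norm y i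
    exact (abs_le.1 h1).2
  have hlow : ∀ y : Fin (k + 1) → ℝ, (∀ i, |y i - x i| ≤ η) → ∀ i, |x i| = 1 →
      1 - η ≤ x i * y i := by
    intro y hy i hi
    have h3 : |x i * (y i - x i)| ≤ η := by rw [abs_mul, hi, one_mul]; exact hy i
    have h4 := (abs_le.1 h3).1
    have h5 : x i * (y i - x i) = x i * y i - x i * x i := by ring
    rw [h5, hsq i hi] at h4
    linarith
  have hat : ∀ y : Fin (k + 1) → ℝ, (∀ i, |y i - x i| ≤ η) →
      ∃ i, |x i| = 1 ∧ x i * y i = ‖y‖ := by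
    intro y hy
    obtain ⟨i, hi⟩ := MBG_attain y
    have h0 := hle y i₀ hi₀
    have h00 := hlow y hy i₀ hi₀
    have hxi : |x i| = 1 := by
      by_contra hne
      have h1 := hη i hne
      have h2 : |y i| ≤ |x i| + |y i - x i| := by
        have h4 := abs_add_le (x i) (y i - x i)
        have h5 : x i + (y i - x i) = y i := by ring
        rwa [h5] at h4
      have h3 := hy i
      rw [hi] at h2
      linarith
    refine ⟨i, hxi, ?_⟩
    have h1 : |x i * y i| = ‖y‖ := by rw [abs_mul, hxi, hi, one_mul]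
    have h2 := hlow y hy i hxi
    rwa [abs_of_nonneg (by linarith)] at h1
  have hxS : x ∈ S := (hSm x (by rw [hx]; norm_num)).2 (by rw [hx]; norm_num)
  have hWS : W ⊆ S := fun y hy => ((hWm y).1 hy).1
  have hxW : x ∈ W := (hWm x).2 ⟨hxS, fun i => by rw [sub_self, abs_zero]; exact hη0.le⟩
  have hWn : W ∈ 𝓝[S] x := by
    have h1 : Metric.closedBall x η ∈ 𝓝[S] x :=
      mem_nhdsWithin_of_mem_nhds (Metric.closedBall_mem_nhds x hη0)
    refine Filter.mem_of_superset (Filter.inter_mem self_mem_nhdsWithin h1) ?_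
    rintro y ⟨hy, hy2⟩
    rw [hWm]
    refine ⟨hy, fun i => ?_⟩
    have h3 := (dist_pi_le_iff hη0.le).1 (Metric.mem_closedBall.1 hy2) i
    rwa [Real.dist_eq] at h3
  -- the chart
  obtain ⟨h, hh⟩ : ∃ h : (Fin (k + 1) → ℝ) → Fin k → ℝ, h = fun y l =>
      if |x (i₀.succAbove l)| = 1 then
        x (i₀.succAbove l) * y (i₀.succAbove l) - x i₀ * y i₀
      else y (i₀.succAbove l) - x (i₀.succAbove l) := ⟨_, rfl⟩
  have hhT : ∀ y l, |x (i₀.succAbove l)| = 1 →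
      h y l = x (i₀.succAbove l) * y (i₀.succAbove l) - x i₀ * y i₀ := by
    intro y l hl
    rw [hh]
    exact if_pos hl
  have hhN : ∀ y l, |x (i₀.succAbove l)| ≠ 1 →
      h y l = y (i₀.succAbove l) - x (i₀.succAbove l) := by
    intro y l hl
    rw [hh]
    exact if_neg hl
  have hhx : h x = 0 := by
    funext l
    show h x l = 0
    by_cases hl : |x (i₀.succAbove l)| = 1
    · rw [hhT x l hl, hsq _ hl, hsq _ hi₀, sub_self]
    · rw [hhN x l hl, sub_self]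
  have hPL : PLOn h W := by
    refine PLOn.pi hWp fun l => ?_
    by_cases hl : |x (i₀.succAbove l)| = 1
    · have h1 := ((((PLOn.id hWp).apply (i₀.succAbove l)).const_smul (x (i₀.succAbove l))).add
        (((PLOn.id hWp).apply i₀).const_smul (-(x i₀))))
      refine h1.congr fun y _ => ?_
      show x (i₀.succAbove l) • y (i₀.succAbove l) + (-(x i₀)) • y i₀ = h y l
      rw [hhT y l hl, smul_eq_mul, smul_eq_mul]
      ring
    · have h1 := ((PLOn.id hWp).apply (i₀.succAbove l)).add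
        (PLOn.const hWp (-(x (i₀.succAbove l))))
      refine h1.congr fun y _ => ?_
      show y (i₀.succAbove l) + (-(x (i₀.succAbove l))) = h y l
      rw [hhN y l hl]
      ring
  have hPL2 : PLOn (fun y : Fin (k + 1) → ℝ => (h y, e * (‖y‖ - 1))) W := by
    refine hPL.prodMk ?_
    have h1 := ((MBG_norm_pl hWp).add (PLOn.const hWp (-1 : ℝ))).const_smul e
    refine h1.congr fun y _ => ?_
    show e • (‖y‖ + -1) = e * (‖y‖ - 1)
    rw [smul_eq_mul]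
    ring
  have hcancel : ∀ i a b, |x i| = 1 → x i * a = x i * b → a = b := by
    intro i a b hi h1
    have hne : x i ≠ 0 := by
      intro h0
      rw [h0, abs_zero] at hi
      exact zero_ne_one hi
    exact mul_left_cancel₀ hne h1
  have hinj : InjOn (fun y : Fin (k + 1) → ℝ => (h y, e * (‖y‖ - 1))) W := by
    have key : ∀ y ∈ W, ∀ y' ∈ W, h y = h y' → ‖y‖ = ‖y'‖ →
        0 ≤ x i₀ * y i₀ - x i₀ * y' i₀ := by
      intro y hy y' hy' he hn
      obtain ⟨j, hj, hj1⟩ := hat y ((hWm y).1 hy).2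
      have h1 : x j * y j - x i₀ * y i₀ = x j * y' j - x i₀ * y' i₀ := by
        by_cases hji : j = i₀
        · rw [hji]; ring
        · obtain ⟨l, rfl⟩ := Fin.exists_succAbove_eq hji
          have := congrFun he l
          rwa [hhT y l hj, hhT y' l hj] at this
      have h2 := hle y' j hj
      linarith
    intro y hy y' hy' heq
    have hh1 : h y = h y' := congrArg Prod.fst heq
    have hn1 : e * (‖y‖ - 1) = e * (‖y'‖ - 1) := congrArg Prod.snd heq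
    have hne : e ≠ 0 := by
      intro h0
      rw [h0] at he
      simp at he
    have hn : ‖y‖ = ‖y'‖ := by
      have := mul_left_cancel₀ hne hn1
      linarith
    have hc : x i₀ * y i₀ = x i₀ * y' i₀ := by
      have h1 := key y hy y' hy' hh1 hn
      have h2 := key y' hy' y hy hh1.symm hn.symm
      linarith
    ext i
    by_cases hii : i = i₀
    · rw [hii]
      exact hcancel i₀ _ _ hi₀ hc
    · obtain ⟨l, rfl⟩ := Fin.exists_succAbove_eq hii
      have h1 := congrFun hh1 l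
      by_cases hl : |x (i₀.succAbove l)| = 1
      · rw [hhT y l hl, hhT y' l hl] at h1
        exact hcancel _ _ _ hl (by linarith)
      · rw [hhN y l hl, hhN y' l hl] at h1
        linarith
  refine BdPt.of_nhds (F := Fin k → ℝ) (W := W) (h := fun y => (h y, e * (‖y‖ - 1))) (by simp)
    hWS hxW hWn hPL2 hinj ?_ ?_ ?_ ?_
  · intro y hy
    have h1 := (hWm y).1 hy
    exact (hSm y (hbox2 y h1.2)).1 h1.1
  · intro y hy
    rw [mem_sphere_zero_iff_norm]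
    show ‖y‖ = 1 ↔ e * (‖y‖ - 1) = 0
    constructor
    · intro h1
      rw [h1, sub_self, mul_zero]
    · intro h1
      rcases mul_eq_zero.1 h1 with h2 | h2
      · rw [h2] at he
        simp at he
      · linarith
  · show e * (‖x‖ - 1) = 0
    rw [hx, sub_self, mul_zero]
  · have hpt : (h x, e * (‖x‖ - 1)) = ((0 : Fin k → ℝ), (0 : ℝ)) := by
      rw [hhx, hx, sub_self, mul_zero]
    show _ ∈ 𝓝[_] ((h x, e * (‖x‖ - 1)) : (Fin k → ℝ) × ℝ)
    rw [hpt]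
    have hball : Metric.closedBall ((0 : Fin k → ℝ), (0 : ℝ)) (η / 4) ∈
        𝓝[{p : (Fin k → ℝ) × ℝ | 0 ≤ p.2}] ((0 : Fin k → ℝ), (0 : ℝ)) :=
      mem_nhdsWithin_of_mem_nhds (Metric.closedBall_mem_nhds _ (by linarith))
    refine Filter.mem_of_superset (Filter.inter_mem hball self_mem_nhdsWithin) ?_
    rintro ⟨z, r⟩ ⟨hzr, hr0⟩
    have hr0' : 0 ≤ r := hr0
    have hzr' : ‖z‖ ≤ η / 4 ∧ ‖r‖ ≤ η / 4 := by
      have h1 := Metric.mem_closedBall.1 hzr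
      rw [Prod.dist_eq, max_le_iff] at h1
      simpa using h1
    have hr1 : r ≤ η / 4 := by
      have := hzr'.2
      rw [Real.norm_eq_abs] at this
      exact (abs_le.1 this).2
    have hz' : ∀ l, |z l| ≤ η / 4 := by
      intro l
      rw [← Real.norm_eq_abs]
      exact (norm_le_pi_norm z l).trans hzr'.1
    have her : |e * r| ≤ η / 4 := by
      rw [abs_mul, he1, one_mul, abs_of_nonneg hr0']
      exact hr1
    obtain ⟨w, hw⟩ : ∃ w : Fin (k + 1) → ℝ, w = Fin.insertNth (α := fun _ => ℝ) i₀ 0 z := ⟨_, rfl⟩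
    have hw0 : w i₀ = 0 := by rw [hw]; exact Fin.insertNth_apply_same _ _ _
    have hwk : ∀ l, w (i₀.succAbove l) = z l := by
      intro l; rw [hw]; exact Fin.insertNth_apply_succAbove _ _ _ _
    have hwb : ∀ i, |w i| ≤ η / 4 := by
      intro i
      by_cases hi : i = i₀
      · rw [hi, hw0, abs_zero]; linarith
      · obtain ⟨l, rfl⟩ := Fin.exists_succAbove_eq hi
        rw [hwk]; exact hz' l
    obtain ⟨j, hj, hjmax⟩ := Finset.exists_max_image
      (Finset.univ.filter fun i => |x i| = 1) w ⟨i₀, Finset.mem_filter.2 ⟨Finset.mem_univ _, hi₀⟩⟩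
    have hj1 : |x j| = 1 := (Finset.mem_filter.1 hj).2
    have hjm : ∀ i, |x i| = 1 → w i ≤ w j := fun i hi =>
      hjmax i (Finset.mem_filter.2 ⟨Finset.mem_univ _, hi⟩)
    obtain ⟨y, hy⟩ : ∃ y : Fin (k + 1) → ℝ, y = fun i =>
      if |x i| = 1 then x i * (1 + e * r + w i - w j) else x i + w i := ⟨_, rfl⟩
    have hyT : ∀ i, |x i| = 1 → y i = x i * (1 + e * r + w i - w j) := by
      intro i hi; rw [hy]; exact if_pos hi
    have hyN : ∀ i, |x i| ≠ 1 → y i = x i + w i := by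
      intro i hi; rw [hy]; exact if_neg hi
    have h1 := abs_le.1 her
    have hybox : ∀ i, |y i - x i| ≤ η := by
      intro i
      by_cases hi : |x i| = 1
      · have h4 : y i - x i = x i * (e * r + w i - w j) := by rw [hyT i hi]; ring
        rw [h4, abs_mul, hi, one_mul, abs_le]
        have h2 := abs_le.1 (hwb i)
        have h3 := abs_le.1 (hwb j)
        constructor <;> linarith
      · rw [hyN i hi, add_sub_cancel_left]
        have h2 := hwb i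
        linarith
    have hxy : ∀ i, |x i| = 1 → x i * y i = 1 + e * r + w i - w j := by
      intro i hi
      rw [hyT i hi, ← mul_assoc, hsq i hi, one_mul]
    have hnorm : ‖y‖ = 1 + e * r := by
      obtain ⟨i, hi, hi2⟩ := hat y hybox
      refine le_antisymm ?_ ?_
      · rw [← hi2, hxy i hi]
        have := hjm i hi
        linarith
      · have := hle y j hj1
        rw [hxy j hj1] at this
        linarith
    refine ⟨y, (hWm y).2 ⟨(hSm y (hbox2 y hybox)).2 ?_, hybox⟩, ?_⟩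
    · rw [hnorm]
      have h5 : e * (1 + e * r - 1) = (e * e) * r := by ring
      rw [h5, he, one_mul]
      exact hr0'
    · refine Prod.ext ?_ ?_
      · funext l
        show h y l = z l
        by_cases hl : |x (i₀.succAbove l)| = 1
        · rw [hhT y l hl, hxy _ hl, hxy _ hi₀, hwk, hw0]
          ring
        · rw [hhN y l hl, hyN _ hl, hwk]
          ring
      · show e * (‖y‖ - 1) = r
        rw [hnorm]
        have h5 : e * (1 + e * r - 1) = (e * e) * r := by ring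
        rw [h5, he, one_mul]

theorem bdpt_ball (k : ℕ) {y : Fin (k + 1) → ℝ} (hy : ‖y‖ = 1) :
    BdPt k (Metric.closedBall (0 : Fin (k + 1) → ℝ) 1) (Metric.sphere 0 1) y := by
  refine MBG_bd k hy (-1) (by norm_num) _ (isPoly_closedBall _ 1) fun z _ => ?_
  rw [mem_closedBall_zero_iff]
  constructor <;> intro h <;> linarith

theorem MBG_shell_poly (k : ℕ) : IsPoly {z : Fin (k + 1) → ℝ | 1 ≤ ‖z‖ ∧ ‖z‖ ≤ 2} := by
  have h1 : PLOn (fun z : Fin (k + 1) → ℝ => ‖z‖) (Metric.closedBall 0 2) :=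
    MBG_norm_pl (isPoly_closedBall _ 2)
  have h2 := h1.preimage (IsPoly.segment (1 : ℝ) 2)
  rw [segment_eq_Icc (by norm_num)] at h2
  have h3 : {z : Fin (k + 1) → ℝ | 1 ≤ ‖z‖ ∧ ‖z‖ ≤ 2} =
      Metric.closedBall 0 2 ∩ (fun z : Fin (k + 1) → ℝ => ‖z‖) ⁻¹' Icc 1 2 := by
    ext z
    constructor
    · rintro ⟨h4, h5⟩
      exact ⟨mem_closedBall_zero_iff.2 h5, h4, h5⟩
    · rintro ⟨-, h4, h5⟩
      exact ⟨h4, h5⟩
  rw [h3]
  exact h2

theorem bdpt_shell (k : ℕ) {y : Fin (k + 1) → ℝ} (hy : ‖y‖ = 1) :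
    BdPt k {z : Fin (k + 1) → ℝ | 1 ≤ ‖z‖ ∧ ‖z‖ ≤ 2} (Metric.sphere 0 1) y := by
  refine MBG_bd k hy 1 (by norm_num) _ (MBG_shell_poly k) fun z hz => ?_
  constructor
  · rintro ⟨h1, -⟩
    linarith
  · intro h1
    exact ⟨by linarith, hz⟩

end Pool.H54.UB

end S_MBG

section S_REM

/-!
# Row REM: removing an open tube from a manifold

`Tube P k X ι`: `ι : P × [-2,2]^k → X` is a PL embedding whose restriction to the open tube
`P × (-2,2)^k` is open.  (`closedBall 0 2`, `ball 0 2` for the sup norm.)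

* `closure_diff`: triangulate `X` adapted to `X ∩ Y` (`triang`): `X \ Y` is the union of the open
  simplices whose hull is not contained in `Y` (i.e. whose carrier points are not in `Y`), its closure
  is the union of their hulls.
* `poly_remove`: `X \ ι(P × ball 0 1) = closure (X \ ι(P × closedBall 0 1))`: `⊇`: `ι(P × ball 0 1)` is open
  in `X` (from `nhd`: for `p ∈ P × ball 0 1` the image of `P × closedBall 0 2` is a neighbourhood of `ι p`
  in `X`, and `ι⁻¹` is continuous on it (compact), so a smaller neighbourhood lies in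
  `ι(P × ball 0 1)`) and `X` is closed; `⊆`: points of `ι(P × sphere 0 1)` are limits of
  `ι(z, (1+η) u)`.
* `bdpt`: near `ι(z,u)`, `‖u‖ = 1`, the set `X \ ι(P × ball 0 1)` agrees with the image under `ι` of
  `P × {1 ≤ ‖u'‖ ≤ 2}`; use `IntPt.prod_bd` (`P` at `z`, `bdpt_shell`), `BdPt.image` for `ι`,
  `BdPt.congr_nhds`.
* `intpt`: `ι(P × closedBall 0 1)` is closed and does not contain `x`: `IntPt.congr_nhds`.
-/

open Set Topology Metric

namespace Pool.H54.UB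

variable {E G : Type*} [NormedAddCommGroup E] [NormedSpace ℝ E] [FiniteDimensional ℝ E]
  [NormedAddCommGroup G] [NormedSpace ℝ G] [FiniteDimensional ℝ G]

structure Tube (P : Set G) (k : ℕ) (X : Set E) (ι : G × (Fin k → ℝ) → E) : Prop where
  pl : PLOn ι (P ×ˢ closedBall (0 : Fin k → ℝ) 2)
  inj : InjOn ι (P ×ˢ closedBall (0 : Fin k → ℝ) 2)
  maps : MapsTo ι (P ×ˢ closedBall (0 : Fin k → ℝ) 2) X
  nhd : ∀ p ∈ P ×ˢ ball (0 : Fin k → ℝ) 2, ι '' (P ×ˢ closedBall (0 : Fin k → ℝ) 2) ∈ 𝓝[X] (ι p)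

theorem IsPoly.closure_diff {X Y : Set E} (hX : IsPoly X) (hY : IsPoly Y) :
    IsPoly (closure (X \ Y)) := by
  classical
  have hXY : IsPoly (X ∩ Y) := hX.inter hY
  obtain ⟨K, hK, hKa⟩ := triang X hX {X ∩ Y} (by
    intro A hA
    rw [Finset.mem_singleton] at hA
    subst hA
    exact ⟨hXY, inter_subset_left⟩)
  have hKY : K.Adapted (X ∩ Y) := hKa _ (Finset.mem_singleton_self _)
  have hfin : {s | s ∈ K.faces ∧ ¬ convexHull ℝ (s : Set E) ⊆ X ∩ Y}.Finite :=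
    K.fin.subset fun s hs => hs.1
  have hEq : closure (X \ Y) = ⋃ s ∈ {s | s ∈ K.faces ∧ ¬ convexHull ℝ (s : Set E) ⊆ X ∩ Y},
      convexHull ℝ (s : Set E) := by
    apply Subset.antisymm
    · refine closure_minimal ?_ (hfin.isClosed_biUnion fun s _ =>
        (IsPoly.hull s).isCompact.isClosed)
      rintro x ⟨hx, hxY⟩
      rw [← hK] at hx
      obtain ⟨s, hs, hxs⟩ := mem_iUnion₂.1 hx
      exact mem_iUnion₂.2 ⟨s, ⟨hs, fun h => hxY (h hxs).2⟩, hxs⟩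
    · refine iUnion₂_subset ?_
      rintro s ⟨hs, hns⟩ x hx
      have hsne := K.ne s hs
      have hcard : (0 : ℝ) < s.card := by exact_mod_cast hsne.card_pos
      obtain ⟨w, hw0, hw1, hwx⟩ := Finset.mem_convexHull'.1 hx
      have hpt : ∀ t : ℝ, 0 < t → t ≤ 1 →
          ((1 - t) • x + t • (∑ y ∈ s, (s.card : ℝ)⁻¹ • y)) ∈ X \ Y := by
        intro t ht ht1
        have hform : (1 - t) • x + t • (∑ y ∈ s, (s.card : ℝ)⁻¹ • y) =
            ∑ y ∈ s, ((1 - t) * w y + t * (s.card : ℝ)⁻¹) • y := by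
          rw [← hwx, Finset.smul_sum, Finset.smul_sum, ← Finset.sum_add_distrib]
          refine Finset.sum_congr rfl fun y _ => ?_
          rw [smul_smul, smul_smul, add_smul]
        have hpos : ∀ y ∈ s, 0 < (1 - t) * w y + t * (s.card : ℝ)⁻¹ := by
          intro y hy
          have h1 : 0 ≤ (1 - t) * w y := mul_nonneg (by linarith) (hw0 y hy)
          have h2 : 0 < t * (s.card : ℝ)⁻¹ := by positivity
          linarith
        have hsum : ∑ y ∈ s, ((1 - t) * w y + t * (s.card : ℝ)⁻¹) = 1 := by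
          rw [Finset.sum_add_distrib, ← Finset.mul_sum, hw1, Finset.sum_const, nsmul_eq_mul]
          field_simp
          ring
        rw [hform]
        refine ⟨?_, fun hYm => hns ?_⟩
        · rw [← hK]
          refine mem_iUnion₂.2 ⟨s, hs, ?_⟩
          exact Finset.mem_convexHull'.2 ⟨_, fun y hy => (hpos y hy).le, hsum, rfl⟩
        · refine hKY s hs _ hpos hsum ⟨?_, hYm⟩
          rw [← hK]
          refine mem_iUnion₂.2 ⟨s, hs, ?_⟩
          exact Finset.mem_convexHull'.2 ⟨_, fun y hy => (hpos y hy).le, hsum, rfl⟩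
      have hlim : Filter.Tendsto (fun t : ℝ => (1 - t) • x + t • (∑ y ∈ s, (s.card : ℝ)⁻¹ • y))
          (𝓝[>] 0) (𝓝 x) := by
        have hc : Continuous fun t : ℝ => (1 - t) • x + t • (∑ y ∈ s, (s.card : ℝ)⁻¹ • y) := by
          fun_prop
        have h1 := hc.tendsto 0
        simp only [sub_zero, one_smul, zero_smul, add_zero] at h1
        exact h1.mono_left nhdsWithin_le_nhds
      refine mem_closure_of_tendsto hlim ?_
      filter_upwards [Ioc_mem_nhdsGT (zero_lt_one' ℝ)] with t ht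
      exact hpt t ht.1 ht.2
  rw [hEq]
  exact IsPoly.biUnion hfin fun s _ => IsPoly.hull s

private theorem REM_sub (k : ℕ) (P : Set G) {r : ℝ} (hr : r ≤ 2) :
    P ×ˢ ball (0 : Fin k → ℝ) r ⊆ P ×ˢ closedBall (0 : Fin k → ℝ) 2 :=
  prod_mono le_rfl (ball_subset_closedBall.trans (closedBall_subset_closedBall hr))

private theorem REM_sub' (k : ℕ) (P : Set G) :
    P ×ˢ closedBall (0 : Fin k → ℝ) 1 ⊆ P ×ˢ closedBall (0 : Fin k → ℝ) 2 :=
  prod_mono le_rfl (closedBall_subset_closedBall one_le_two)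

theorem Tube.isOpen_ball {P : Set G} {k : ℕ} {X : Set E} {ι : G × (Fin k → ℝ) → E}
    (h : Tube P k X ι) (hP : IsPoly P) {r : ℝ} (hr : r ≤ 2) {p : G × (Fin k → ℝ)}
    (hp : p ∈ P ×ˢ ball (0 : Fin k → ℝ) r) : ι '' (P ×ˢ ball (0 : Fin k → ℝ) r) ∈ 𝓝[X] (ι p) := by
  have hC : IsCompact (P ×ˢ closedBall (0 : Fin k → ℝ) 2) := h.pl.domain.isCompact
  have hpC : p ∈ P ×ˢ closedBall (0 : Fin k → ℝ) 2 := REM_sub k P hr hp
  have hcl : IsClosed {q : G × (Fin k → ℝ) | r ≤ ‖q.2‖} :=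
    isClosed_le continuous_const continuous_snd.norm
  have hC' : IsCompact (P ×ˢ closedBall (0 : Fin k → ℝ) 2 ∩ {q | r ≤ ‖q.2‖}) := hC.inter_right hcl
  have himg : IsClosed (ι '' (P ×ˢ closedBall (0 : Fin k → ℝ) 2 ∩ {q | r ≤ ‖q.2‖})) :=
    (hC'.image_of_continuousOn (h.pl.continuousOn.mono inter_subset_left)).isClosed
  have hpn : ι p ∉ ι '' (P ×ˢ closedBall (0 : Fin k → ℝ) 2 ∩ {q | r ≤ ‖q.2‖}) := by
    rintro ⟨q, ⟨hq, hqr⟩, he⟩
    have hqp := h.inj hq hpC he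
    rw [hqp] at hqr
    have h1 := hp.2
    rw [mem_ball_zero_iff] at h1
    exact absurd hqr (not_le.2 h1)
  have hn1 : (ι '' (P ×ˢ closedBall (0 : Fin k → ℝ) 2 ∩ {q | r ≤ ‖q.2‖}))ᶜ ∈ 𝓝[X] (ι p) :=
    mem_nhdsWithin_of_mem_nhds (himg.isOpen_compl.mem_nhds hpn)
  have hn2 := h.nhd p ⟨hp.1, ball_subset_ball hr hp.2⟩
  filter_upwards [hn1, hn2] with y hy1 hy2
  obtain ⟨q, hq, rfl⟩ := hy2
  refine ⟨q, ⟨hq.1, ?_⟩, rfl⟩
  rw [mem_ball_zero_iff]
  by_contra hlt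
  exact hy1 ⟨q, ⟨hq, not_lt.1 hlt⟩, rfl⟩

private theorem REM_closed {P : Set G} {k : ℕ} {X : Set E} {ι : G × (Fin k → ℝ) → E}
    (h : Tube P k X ι) (hP : IsPoly P) {A : Set E} (hA : A ⊆ X)
    (hd : ∀ y ∈ A, y ∉ ι '' (P ×ˢ ball (0 : Fin k → ℝ) 1)) :
    ∀ y ∈ closure A, y ∉ ι '' (P ×ˢ ball (0 : Fin k → ℝ) 1) := by
  rintro y hy ⟨p, hp, rfl⟩
  have h1 := h.isOpen_ball hP one_le_two hp
  have h2 : ι '' (P ×ˢ ball (0 : Fin k → ℝ) 1) ∈ 𝓝[A] (ι p) := nhdsWithin_mono _ hA h1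
  have h3 : (𝓝[A] (ι p)).NeBot := mem_closure_iff_nhdsWithin_neBot.1 hy
  obtain ⟨z, hz1, hz2⟩ := h3.nonempty_of_mem (Filter.inter_mem h2 self_mem_nhdsWithin)
  exact hd z hz2 hz1

theorem Tube.poly_remove {P : Set G} {k : ℕ} {X : Set E} {ι : G × (Fin k → ℝ) → E}
    (h : Tube P k X ι) (hP : IsPoly P) (hX : IsPoly X) (hk : 1 ≤ k) :
    IsPoly (X \ ι '' (P ×ˢ ball (0 : Fin k → ℝ) 1)) := by
  have hT : IsPoly (ι '' (P ×ˢ closedBall (0 : Fin k → ℝ) 1)) :=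
    h.pl.image_poly (hP.prod (isPoly_closedBall k 1)) (REM_sub' k P)
  have hEq : X \ ι '' (P ×ˢ ball (0 : Fin k → ℝ) 1) =
      closure (X \ ι '' (P ×ˢ closedBall (0 : Fin k → ℝ) 1)) := by
    apply Subset.antisymm
    · rintro x ⟨hx, hxb⟩
      by_cases hxc : x ∈ ι '' (P ×ˢ closedBall (0 : Fin k → ℝ) 1)
      · obtain ⟨⟨z, u⟩, ⟨hz, hu⟩, rfl⟩ := hxc
        have hu1 : ‖u‖ = 1 := by
          have h1 : ‖u‖ ≤ 1 := mem_closedBall_zero_iff.1 hu
          refine le_antisymm h1 ?_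
          by_contra hlt
          exact hxb ⟨(z, u), ⟨hz, mem_ball_zero_iff.2 (not_le.1 hlt)⟩, rfl⟩
        have hmap : MapsTo (fun η : ℝ => ((z, (1 + η) • u) : G × (Fin k → ℝ))) (Icc 0 1)
            (P ×ˢ closedBall (0 : Fin k → ℝ) 2) := by
          intro η hη
          refine ⟨hz, mem_closedBall_zero_iff.2 ?_⟩
          show ‖(1 + η) • u‖ ≤ 2
          rw [norm_smul, hu1, mul_one, Real.norm_of_nonneg (by linarith [hη.1])]
          linarith [hη.2]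
        have hcont : ContinuousOn (fun η : ℝ => ι (z, (1 + η) • u)) (Icc 0 1) :=
          h.pl.continuousOn.comp (by fun_prop) hmap
        have hlim : Filter.Tendsto (fun η : ℝ => ι (z, (1 + η) • u)) (𝓝[Ioc 0 1] 0)
            (𝓝 (ι (z, u))) := by
          have h1 := hcont 0 (left_mem_Icc.2 zero_le_one)
          have h2 : Filter.Tendsto (fun η : ℝ => ι (z, (1 + η) • u)) (𝓝[Icc 0 1] 0)
              (𝓝 (ι (z, (1 + (0 : ℝ)) • u))) := h1
          rw [add_zero, one_smul] at h2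
          exact h2.mono_left (nhdsWithin_mono _ Ioc_subset_Icc_self)
        have hne : (𝓝[Ioc (0 : ℝ) 1] 0).NeBot := by
          rw [← mem_closure_iff_nhdsWithin_neBot, closure_Ioc (zero_ne_one' ℝ)]
          exact left_mem_Icc.2 zero_le_one
        refine mem_closure_of_tendsto hlim ?_
        filter_upwards [self_mem_nhdsWithin] with η hη
        have hη' : η ∈ Icc (0 : ℝ) 1 := Ioc_subset_Icc_self hη
        refine ⟨h.maps (hmap hη'), ?_⟩
        rintro ⟨q, hq, he⟩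
        have hqq := h.inj (REM_sub' k P hq) (hmap hη') he
        have h3 := hq.2
        rw [hqq, mem_closedBall_zero_iff] at h3
        have h4 : ‖(1 + η) • u‖ ≤ 1 := h3
        rw [norm_smul, hu1, mul_one, Real.norm_of_nonneg (by linarith [hη.1])] at h4
        linarith [hη.1]
      · exact subset_closure ⟨hx, hxc⟩
    · intro x hx
      refine ⟨?_, ?_⟩
      · exact closure_minimal diff_subset hX.isCompact.isClosed hx
      · refine REM_closed h hP diff_subset ?_ x hx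
        rintro y ⟨_, hy⟩ hyb
        exact hy (image_mono (prod_mono le_rfl ball_subset_closedBall) hyb)
  rw [hEq]
  exact hX.closure_diff hT

private theorem REM_shell (k : ℕ) : IsPoly {z : Fin (k + 1) → ℝ | 1 ≤ ‖z‖ ∧ ‖z‖ ≤ 2} := by
  have hEq : {z : Fin (k + 1) → ℝ | 1 ≤ ‖z‖ ∧ ‖z‖ ≤ 2} =
      ⋃ i ∈ (univ : Set (Fin (k + 1))),
        ((closedBall (0 : Fin (k + 1) → ℝ) 2 ∩ {z | 0 ≤ ((LinearMap.proj (R := ℝ)
            (φ := fun _ : Fin (k + 1) => ℝ) i).toAffineMap -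
            AffineMap.const ℝ (Fin (k + 1) → ℝ) (1 : ℝ)) z}) ∪
          (closedBall (0 : Fin (k + 1) → ℝ) 2 ∩ {z | 0 ≤ (-(LinearMap.proj (R := ℝ)
            (φ := fun _ : Fin (k + 1) => ℝ) i).toAffineMap -
            AffineMap.const ℝ (Fin (k + 1) → ℝ) (1 : ℝ)) z})) := by
    ext z
    simp only [mem_setOf_eq, mem_iUnion, mem_univ, exists_prop, true_and, mem_union, mem_inter_iff,
      mem_closedBall_zero_iff]
    have h1 : ∀ i, (0 ≤ ((LinearMap.proj (R := ℝ) (φ := fun _ : Fin (k + 1) => ℝ) i).toAffineMap -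
            AffineMap.const ℝ (Fin (k + 1) → ℝ) (1 : ℝ)) z) ↔ 1 ≤ z i := by
      intro i
      have : ((LinearMap.proj (R := ℝ) (φ := fun _ : Fin (k + 1) => ℝ) i).toAffineMap -
            AffineMap.const ℝ (Fin (k + 1) → ℝ) (1 : ℝ)) z = z i - 1 := rfl
      rw [this]
      constructor <;> intro h <;> linarith
    have h2 : ∀ i, (0 ≤ (-(LinearMap.proj (R := ℝ) (φ := fun _ : Fin (k + 1) => ℝ) i).toAffineMap -
            AffineMap.const ℝ (Fin (k + 1) → ℝ) (1 : ℝ)) z) ↔ z i ≤ -1 := by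
      intro i
      have : (-(LinearMap.proj (R := ℝ) (φ := fun _ : Fin (k + 1) => ℝ) i).toAffineMap -
            AffineMap.const ℝ (Fin (k + 1) → ℝ) (1 : ℝ)) z = -(z i) - 1 := rfl
      rw [this]
      constructor <;> intro h <;> linarith
    simp only [h1, h2]
    constructor
    · rintro ⟨ha, hb⟩
      have hex : ∃ i, 1 ≤ ‖z i‖ := by
        by_contra hno
        push Not at hno
        have : ‖z‖ < 1 := (pi_norm_lt_iff one_pos).2 hno
        linarith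
      obtain ⟨i, hi⟩ := hex
      refine ⟨i, ?_⟩
      rw [Real.norm_eq_abs, le_abs'] at hi
      rcases hi with hi | hi
      · exact Or.inr ⟨hb, hi⟩
      · exact Or.inl ⟨hb, hi⟩
    · rintro ⟨i, ⟨hb, hi⟩ | ⟨hb, hi⟩⟩
      · refine ⟨?_, hb⟩
        calc (1 : ℝ) ≤ z i := hi
          _ ≤ ‖z i‖ := le_abs_self _
          _ ≤ ‖z‖ := norm_le_pi_norm z i
      · refine ⟨?_, hb⟩
        calc (1 : ℝ) ≤ -z i := by linarith
          _ ≤ ‖z i‖ := neg_le_abs _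
          _ ≤ ‖z‖ := norm_le_pi_norm z i
  rw [hEq]
  refine IsPoly.biUnion (Set.finite_univ) fun i _ => IsPoly.union ?_ ?_
  · exact (isPoly_closedBall (k + 1) 2).inter_halfspace _
  · exact (isPoly_closedBall (k + 1) 2).inter_halfspace _

theorem Tube.bdpt {P : Set G} {j k : ℕ} {X : Set E} {ι : G × (Fin (k + 1) → ℝ) → E}
    (h : Tube P (k + 1) X ι) (hP : IsClosedPLManifold j P) {z : G} (hz : z ∈ P)
    {u : Fin (k + 1) → ℝ} (hu : ‖u‖ = 1) :
    BdPt (j + k) (X \ ι '' (P ×ˢ ball (0 : Fin (k + 1) → ℝ) 1))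
      (ι '' (P ×ˢ sphere (0 : Fin (k + 1) → ℝ) 1)) (ι (z, u)) := by
  have h1 : IntPt j P z := hP.2 z hz
  have h2 := IntPt.prod_bd h1 (bdpt_shell k hu)
  have hsub : P ×ˢ {z : Fin (k + 1) → ℝ | 1 ≤ ‖z‖ ∧ ‖z‖ ≤ 2} ⊆
      P ×ˢ closedBall (0 : Fin (k + 1) → ℝ) 2 :=
    prod_mono le_rfl fun w hw => mem_closedBall_zero_iff.2 hw.2
  have hpl : PLOn ι (P ×ˢ {z : Fin (k + 1) → ℝ | 1 ≤ ‖z‖ ∧ ‖z‖ ≤ 2}) :=
    h.pl.mono (hP.1.prod (REM_shell k)) hsub
  have hDs : P ×ˢ sphere (0 : Fin (k + 1) → ℝ) 1 ⊆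
      P ×ˢ {z : Fin (k + 1) → ℝ | 1 ≤ ‖z‖ ∧ ‖z‖ ≤ 2} := by
    refine prod_mono le_rfl fun w hw => ?_
    rw [mem_sphere_zero_iff_norm] at hw
    exact ⟨hw.ge, by rw [hw]; norm_num⟩
  have h3 := h2.image hpl (h.inj.mono hsub) hDs
  have huz : (z, u) ∈ P ×ˢ ball (0 : Fin (k + 1) → ℝ) 2 :=
    ⟨hz, mem_ball_zero_iff.2 (by rw [hu]; norm_num)⟩
  obtain ⟨V, hV, hVX⟩ := mem_nhdsWithin_iff_exists_mem_nhds_inter.1 (h.nhd (z, u) huz)
  refine h3.congr_nhds hV ?_ rfl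
  ext y
  constructor
  · rintro ⟨⟨p, hp, rfl⟩, hyV⟩
    refine ⟨⟨h.maps (hsub hp), ?_⟩, hyV⟩
    rintro ⟨q, hq, he⟩
    have hqp := h.inj (REM_sub (k + 1) P one_le_two hq) (hsub hp) he
    have h4 := hq.2
    rw [hqp, mem_ball_zero_iff] at h4
    exact absurd hp.2.1 (not_le.2 h4)
  · rintro ⟨⟨hyX, hyb⟩, hyV⟩
    obtain ⟨p, hp, rfl⟩ := hVX ⟨hyV, hyX⟩
    refine ⟨⟨p, ⟨hp.1, ?_, mem_closedBall_zero_iff.1 hp.2⟩, rfl⟩, hyV⟩
    by_contra hlt
    exact hyb ⟨p, ⟨hp.1, mem_ball_zero_iff.2 (not_le.1 hlt)⟩, rfl⟩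

private theorem REM_T {P : Set G} {k : ℕ} {X : Set E} {ι : G × (Fin k → ℝ) → E}
    (h : Tube P k X ι) (hP : IsPoly P) : IsClosed (ι '' (P ×ˢ closedBall (0 : Fin k → ℝ) 1)) :=
  ((hP.isCompact.prod (isCompact_closedBall _ _)).image_of_continuousOn
    (h.pl.continuousOn.mono (REM_sub' k P))).isClosed

theorem Tube.intpt {P : Set G} {n k : ℕ} {X : Set E} {ι : G × (Fin k → ℝ) → E}
    (h : Tube P k X ι) (hP : IsPoly P) {x : E}
    (hx : x ∉ ι '' (P ×ˢ closedBall (0 : Fin k → ℝ) 1)) (hX : IntPt n X x) :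
    IntPt n (X \ ι '' (P ×ˢ ball (0 : Fin k → ℝ) 1)) x := by
  refine hX.congr_nhds ((REM_T h hP).isOpen_compl.mem_nhds hx) ?_
  ext y
  constructor
  · rintro ⟨hy, hyc⟩
    refine ⟨⟨hy, fun hyb => hyc ?_⟩, hyc⟩
    exact image_mono (prod_mono le_rfl ball_subset_closedBall) hyb
  · rintro ⟨⟨hy, _⟩, hyc⟩
    exact ⟨hy, hyc⟩

/-- Removing an open tube with connected boundary leaves a connected set. -/
theorem Tube.connected_remove {P : Set G} {k : ℕ} {X : Set E} {ι : G × (Fin k → ℝ) → E}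
    (h : Tube P k X ι) (hP : IsPoly P) (hX : IsConnected X) (hXc : IsClosed X)
    (hS : IsConnected (P ×ˢ sphere (0 : Fin k → ℝ) 1)) :
    IsConnected (X \ ι '' (P ×ˢ ball (0 : Fin k → ℝ) 1)) := by
  set A := X \ ι '' (P ×ˢ ball (0 : Fin k → ℝ) 1) with hA
  set T := ι '' (P ×ˢ closedBall (0 : Fin k → ℝ) 1) with hT
  set S := ι '' (P ×ˢ sphere (0 : Fin k → ℝ) 1) with hSd
  have hTc : IsClosed T := REM_T h hP
  have hAc : IsClosed A := by
    rw [← closure_subset_iff_isClosed]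
    intro y hy
    exact ⟨closure_minimal diff_subset hXc hy, REM_closed h hP diff_subset (fun y hy => hy.2) y hy⟩
  have hsub : P ×ˢ sphere (0 : Fin k → ℝ) 1 ⊆ P ×ˢ closedBall (0 : Fin k → ℝ) 2 :=
    (prod_mono le_rfl sphere_subset_closedBall).trans (REM_sub' k P)
  have hSc : IsConnected S := hS.image _ (h.pl.continuousOn.mono hsub)
  have hSA : S ⊆ A := by
    rintro _ ⟨p, hp, rfl⟩
    refine ⟨h.maps (hsub hp), ?_⟩
    rintro ⟨q, hq, he⟩
    have hqp := h.inj (REM_sub k P one_le_two hq) (hsub hp) he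
    have h4 := hq.2
    rw [hqp, mem_ball_zero_iff] at h4
    have h5 := mem_sphere_zero_iff_norm.1 hp.2
    rw [h5] at h4
    exact lt_irrefl _ h4
  have hAT : ∀ y ∈ A, y ∈ T → y ∈ S := by
    rintro y hyA ⟨p, hp, rfl⟩
    refine ⟨p, ⟨hp.1, mem_sphere_zero_iff_norm.2 (le_antisymm (mem_closedBall_zero_iff.1 hp.2) ?_)⟩,
      rfl⟩
    by_contra hlt
    exact hyA.2 ⟨p, ⟨hp.1, mem_ball_zero_iff.2 (not_le.1 hlt)⟩, rfl⟩
  have hXAT : X ⊆ A ∪ T := by
    intro y hy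
    by_cases hyb : y ∈ ι '' (P ×ˢ ball (0 : Fin k → ℝ) 1)
    · exact Or.inr (image_mono (prod_mono le_rfl ball_subset_closedBall) hyb)
    · exact Or.inl ⟨hy, hyb⟩
  have key : ∀ t t' : Set E, IsClosed t → IsClosed t' → A ⊆ t ∪ t' → (A ∩ t').Nonempty →
      (S ∩ t).Nonempty → ¬ (S ∩ t').Nonempty → (A ∩ (t ∩ t')).Nonempty := by
    intro t t' ht ht' hAtt hAt' hSt hSt'
    have h1 := isPreconnected_closed_iff.1 hX.isPreconnected ((A ∩ t) ∪ T) (A ∩ t')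
      ((hAc.inter ht).union hTc) (hAc.inter ht')
      (by
        intro y hy
        rcases hXAT hy with hyA | hyT
        · rcases hAtt hyA with h2 | h2
          · exact Or.inl (Or.inl ⟨hyA, h2⟩)
          · exact Or.inr ⟨hyA, h2⟩
        · exact Or.inl (Or.inr hyT))
      (by
        obtain ⟨y, hy, hyt⟩ := hSt
        exact ⟨y, (hSA hy).1, Or.inl ⟨hSA hy, hyt⟩⟩)
      (by
        obtain ⟨y, hy, hyt⟩ := hAt'
        exact ⟨y, hy.1, hy, hyt⟩)
    obtain ⟨y, _, hy1, hyA, hyt'⟩ := h1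
    rcases hy1 with ⟨_, hyt⟩ | hyT
    · exact ⟨y, hyA, hyt, hyt'⟩
    · exact absurd ⟨y, hAT y hyA hyT, hyt'⟩ hSt'
  refine ⟨hSc.nonempty.mono hSA, ?_⟩
  rw [isPreconnected_closed_iff]
  intro t t' ht ht' hAtt hAt hAt'
  by_cases hSt : (S ∩ t).Nonempty
  · by_cases hSt' : (S ∩ t').Nonempty
    · obtain ⟨y, hy, hyy⟩ := isPreconnected_closed_iff.1 hSc.isPreconnected t t' ht ht'
        (hSA.trans hAtt) hSt hSt'
      exact ⟨y, hSA hy, hyy⟩
    · exact key t t' ht ht' hAtt hAt' hSt hSt'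
  · have hSt' : (S ∩ t').Nonempty := by
      obtain ⟨y, hy⟩ := hSc.nonempty
      rcases hAtt (hSA hy) with h1 | h1
      · exact absurd ⟨y, hy, h1⟩ hSt
      · exact ⟨y, hy, h1⟩
    have h1 := key t' t ht' ht (by rw [union_comm]; exact hAtt) hAt hSt' hSt
    rwa [inter_comm t' t] at h1

end Pool.H54.UB

end S_REM

section S_WND

/-!
# Row WND: the square `gam = ∂[-1,1]^2` as a circle of length 8

`wnd s = (wf s, wf (s - 2))` runs around the square with period 8: `wnd 0 = (1,-1)`, `wnd 2 = (1,1)`,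
`wnd 4 = (-1,1)`, `wnd 6 = (-1,-1)`.  `wf s = max (-1) (min 1 (2 - d s))`, where
`d s = |(s-1) - 8 round((s-1)/8)|` is the distance of `s - 1` to `8 ℤ`.
On one period: `wf s = 1` on `[0,2]`, `3 - s` on `[2,4]`, `-1` on `[4,6]`, `s - 7` on `[6,8]`.

* `wnd_per`: `round (x + k) = round x + k`.
* `wnd_eq_iff`: reduce to `s, t ∈ [0,8)` by `wnd_per` and inspect the four sides (on each side one of the
  coordinates is `±1` and the other determines `s`).
* `wnd_cont`: `wf` is continuous because the distance to `8 ℤ` is (`|x - 8 round (x/8)|`; e.g. show that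
  it is 1-Lipschitz, or glue the formulas on the intervals `[8k-3, 8k+5]`).
* `wnd_pl`: on an interval of length at most 1 with integer end points both coordinates are affine; cover
  `Icc a b` by the finitely many intervals `[k, k+1] ∩ [a,b]` and use `PLOn.biUnion`, `PLOn.mono`.
* `wnd_open`: `wnd '' (gam-complement)`: the set `wnd '' (Icc (s+ε) (s+8-ε))` is compact, does not
  contain `wnd s`, and together with `wnd '' Ioo (s-ε) (s+ε)` covers `gam` (`ε < 4`).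
* `ang z` is the parameter in `[0,8)`.
* `pl_desc`: the graph over `gam` is `{(wnd s, F s) : s ∈ [0,8]}`, the image of a PL map; for
  `s ∈ [0,8]`: `ang (wnd s) = s` for `s < 8` and `ang (wnd 8) = 0`.
* `arc_qtriv`: `QTriv.retract` from `Icc a b` with the inverse of `wnd` on the arc (compactness).
-/

open Set Topology

namespace Pool.H54.UB

/-- The plane. -/
abbrev V2 : Type := Fin 2 → ℝ

noncomputable def wf (s : ℝ) : ℝ := max (-1) (min 1 (2 - |(s - 1) - 8 * round ((s - 1) / 8)|))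

noncomputable def wnd (s : ℝ) : V2 := ![wf s, wf (s - 2)]

def gam : Set V2 := Metric.sphere 0 1

private theorem WND_mem (y : V2) : y ∈ gam ↔ (∀ i, |y i| ≤ 1) ∧ ∃ i, |y i| = 1 := by
  unfold gam
  rw [mem_sphere_zero_iff_norm]
  constructor
  · intro h
    have h1 : ∀ i, |y i| ≤ 1 := by
      intro i
      have := norm_le_pi_norm y i
      rw [h, Real.norm_eq_abs] at this
      exact this
    refine ⟨h1, ?_⟩
    by_contra hne
    push Not at hne
    have : ‖y‖ < 1 := by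
      rw [pi_norm_lt_iff zero_lt_one]
      intro i
      rw [Real.norm_eq_abs]
      exact lt_of_le_of_ne (h1 i) (hne i)
    rw [h] at this
    exact lt_irrefl _ this
  · rintro ⟨h1, i, hi⟩
    apply le_antisymm
    · rw [pi_norm_le_iff_of_nonneg zero_le_one]
      intro j
      rw [Real.norm_eq_abs]
      exact h1 j
    · rw [← hi, ← Real.norm_eq_abs]
      exact norm_le_pi_norm y i

private theorem WND_wf_per (s : ℝ) (k : ℤ) : wf (s + 8 * k) = wf s := by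
  unfold wf
  have h1 : (s + 8 * k - 1) / 8 = (s - 1) / 8 + k := by ring
  rw [h1, round_add_intCast]
  have h2 : s + 8 * (k : ℝ) - 1 - 8 * ((round ((s - 1) / 8) + k : ℤ) : ℝ) =
      (s - 1) - 8 * (round ((s - 1) / 8) : ℝ) := by
    push_cast
    ring
  rw [h2]

/-- the formula on the central period -/
private theorem WND_wf_mid (s : ℝ) (h1 : -3 ≤ s) (h2 : s ≤ 5) :
    wf s = max (-1) (min 1 (2 - |s - 1|)) := by
  unfold wf
  rcases eq_or_lt_of_le h2 with h3 | h3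
  · subst h3
    have h4 : round (((5 : ℝ) - 1) / 8) = 1 := by
      rw [round_eq]
      norm_num
    rw [h4]
    norm_num
  · have h4 : round ((s - 1) / 8) = 0 := by
      rw [round_eq, Int.floor_eq_zero_iff]
      constructor
      · linarith
      · linarith
    rw [h4]
    norm_num

private theorem WND_a1 (s : ℝ) (h1 : 0 ≤ s) (h2 : s ≤ 2) : wf s = 1 := by
  rw [WND_wf_mid s (by linarith) (by linarith)]
  have h3 : |s - 1| ≤ 1 := abs_le.2 ⟨by linarith, by linarith⟩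
  rw [min_eq_left (by linarith), max_eq_right (by norm_num)]

private theorem WND_a2 (s : ℝ) (h1 : 2 ≤ s) (h2 : s ≤ 4) : wf s = 3 - s := by
  rw [WND_wf_mid s (by linarith) (by linarith), abs_of_nonneg (by linarith),
    min_eq_right (by linarith), max_eq_right (by linarith)]
  ring

private theorem WND_a0 (s : ℝ) (h1 : -2 ≤ s) (h2 : s ≤ 0) : wf s = s + 1 := by
  rw [WND_wf_mid s (by linarith) (by linarith), abs_of_nonpos (by linarith),
    min_eq_right (by linarith), max_eq_right (by linarith)]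
  ring

private theorem WND_a3 (s : ℝ) (h1 : 4 ≤ s) (h2 : s ≤ 6) : wf s = -1 := by
  rcases le_total s 5 with h3 | h3
  · rw [WND_wf_mid s (by linarith) (by linarith), abs_of_nonneg (by linarith),
      min_eq_right (by linarith), max_eq_left (by linarith)]
  · have h4 := WND_wf_per s (-1)
    rw [← h4, WND_wf_mid _ (by push_cast; linarith) (by push_cast; linarith),
      abs_of_nonpos (by push_cast; linarith), min_eq_right (by push_cast; linarith),
      max_eq_left (by push_cast; linarith)]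

private theorem WND_a4 (s : ℝ) (h1 : 6 ≤ s) (h2 : s ≤ 8) : wf s = s - 7 := by
  have h4 := WND_wf_per s (-1)
  rw [← h4, WND_a0 _ (by push_cast; linarith) (by push_cast; linarith)]
  push_cast
  ring

private theorem WND_s1 (s : ℝ) (h1 : 0 ≤ s) (h2 : s ≤ 2) : wnd s = ![1, s - 1] := by
  unfold wnd
  rw [WND_a1 s h1 h2, WND_a0 (s - 2) (by linarith) (by linarith)]
  congr 2
  ring_nf

private theorem WND_s2 (s : ℝ) (h1 : 2 ≤ s) (h2 : s ≤ 4) : wnd s = ![3 - s, 1] := by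
  unfold wnd
  rw [WND_a2 s h1 h2, WND_a1 (s - 2) (by linarith) (by linarith)]

private theorem WND_s3 (s : ℝ) (h1 : 4 ≤ s) (h2 : s ≤ 6) : wnd s = ![-1, 5 - s] := by
  unfold wnd
  rw [WND_a3 s h1 h2, WND_a2 (s - 2) (by linarith) (by linarith)]
  congr 2
  ring_nf

private theorem WND_s4 (s : ℝ) (h1 : 6 ≤ s) (h2 : s ≤ 8) : wnd s = ![s - 7, -1] := by
  unfold wnd
  rw [WND_a4 s h1 h2, WND_a3 (s - 2) (by linarith) (by linarith)]

theorem wnd_per (s : ℝ) (k : ℤ) : wnd (s + 8 * k) = wnd s := by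
  unfold wnd
  have h1 : s + 8 * (k : ℝ) - 2 = (s - 2) + 8 * k := by ring
  rw [h1, WND_wf_per, WND_wf_per]

/-- reduction to a period -/
private theorem WND_red (s a : ℝ) : ∃ k : ℤ, a ≤ s + 8 * k ∧ s + 8 * k < a + 8 := by
  refine ⟨-⌊(s - a) / 8⌋, ?_, ?_⟩
  · have := Int.floor_le ((s - a) / 8)
    push_cast
    linarith
  · have := Int.lt_floor_add_one ((s - a) / 8)
    push_cast
    linarith

private theorem WND_mem0 (s : ℝ) (h1 : 0 ≤ s) (h2 : s ≤ 8) : wnd s ∈ gam := by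
  rw [WND_mem]
  rcases le_total s 2 with h3 | h3
  · rw [WND_s1 s h1 h3]
    refine ⟨fun i => ?_, 0, by simp⟩
    fin_cases i
    · simp
    · show |s - 1| ≤ 1
      exact abs_le.2 ⟨by linarith, by linarith⟩
  rcases le_total s 4 with h4 | h4
  · rw [WND_s2 s h3 h4]
    refine ⟨fun i => ?_, 1, by simp⟩
    fin_cases i
    · show |3 - s| ≤ 1
      exact abs_le.2 ⟨by linarith, by linarith⟩
    · simp
  rcases le_total s 6 with h5 | h5
  · rw [WND_s3 s h4 h5]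
    refine ⟨fun i => ?_, 0, by simp⟩
    fin_cases i
    · simp
    · show |5 - s| ≤ 1
      exact abs_le.2 ⟨by linarith, by linarith⟩
  · rw [WND_s4 s h5 h2]
    refine ⟨fun i => ?_, 1, by simp⟩
    fin_cases i
    · show |s - 7| ≤ 1
      exact abs_le.2 ⟨by linarith, by linarith⟩
    · simp

theorem wnd_mem (s : ℝ) : wnd s ∈ gam := by
  obtain ⟨k, h1, h2⟩ := WND_red s 0
  rw [← wnd_per s k]
  exact WND_mem0 _ h1 (by linarith)

/-- explicit inverse on the period -/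
private noncomputable def WND_inv (z : V2) : ℝ :=
  if z 0 = 1 ∧ z 1 < 1 then z 1 + 1 else
  if z 1 = 1 ∧ -1 < z 0 then 3 - z 0 else
  if z 0 = -1 ∧ -1 < z 1 then 5 - z 1 else z 0 + 7

private theorem WND_inv_wnd (s : ℝ) (h1 : 0 ≤ s) (h2 : s < 8) : WND_inv (wnd s) = s := by
  unfold WND_inv
  rcases lt_or_ge s 2 with h3 | h3
  · rw [WND_s1 s h1 h3.le]
    have e0 : (![1, s - 1] : V2) 0 = 1 := rfl
    have e1 : (![1, s - 1] : V2) 1 = s - 1 := rfl
    rw [e0, e1, if_pos ⟨rfl, by linarith⟩]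
    ring
  rcases lt_or_ge s 4 with h4 | h4
  · rw [WND_s2 s h3 h4.le]
    have e0 : (![3 - s, 1] : V2) 0 = 3 - s := rfl
    have e1 : (![3 - s, 1] : V2) 1 = 1 := rfl
    rw [e0, e1, if_neg (fun h => lt_irrefl _ h.2), if_pos ⟨rfl, by linarith⟩]
    ring
  rcases lt_or_ge s 6 with h5 | h5
  · rw [WND_s3 s h4 h5.le]
    have e0 : (![-1, 5 - s] : V2) 0 = -1 := rfl
    have e1 : (![-1, 5 - s] : V2) 1 = 5 - s := rfl
    rw [e0, e1, if_neg (fun h => by linarith [h.1]), if_neg (fun h => lt_irrefl _ h.2),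
      if_pos ⟨rfl, by linarith⟩]
    ring
  · rw [WND_s4 s h5 h2.le]
    have e0 : (![s - 7, -1] : V2) 0 = s - 7 := rfl
    have e1 : (![s - 7, -1] : V2) 1 = -1 := rfl
    rw [e0, e1, if_neg (fun h => by linarith [h.1]), if_neg (fun h => by linarith [h.1]),
      if_neg (fun h => lt_irrefl _ h.2)]
    ring

theorem wnd_eq_iff {s t : ℝ} : wnd s = wnd t ↔ ∃ k : ℤ, t = s + 8 * k := by
  constructor
  · intro h
    obtain ⟨k, h1, h2⟩ := WND_red s 0
    obtain ⟨l, h3, h4⟩ := WND_red t 0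
    have h5 : WND_inv (wnd (s + 8 * k)) = WND_inv (wnd (t + 8 * l)) := by
      rw [wnd_per, wnd_per, h]
    rw [WND_inv_wnd _ h1 (by linarith), WND_inv_wnd _ h3 (by linarith)] at h5
    refine ⟨k - l, ?_⟩
    push_cast
    linarith
  · rintro ⟨k, rfl⟩
    rw [wnd_per]

theorem wnd_surj (a : ℝ) {z : V2} (hz : z ∈ gam) : ∃ s ∈ Ico a (a + 8), wnd s = z := by
  have hz0 : z = ![z 0, z 1] := by
    funext i
    fin_cases i <;> rfl
  obtain ⟨s, hs⟩ : ∃ s, wnd s = z := by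
    obtain ⟨hle, i, hi⟩ := (WND_mem z).1 hz
    have hl0 := abs_le.1 (hle 0)
    have hl1 := abs_le.1 (hle 1)
    fin_cases i
    · rcases (abs_eq zero_le_one).1 hi with h | h
      · have h' : z 0 = 1 := h
        refine ⟨z 1 + 1, ?_⟩
        rw [WND_s1 _ (by linarith) (by linarith)]
        conv_rhs => rw [hz0, h']
        congr 2
        ring_nf
      · have h' : z 0 = -1 := h
        refine ⟨5 - z 1, ?_⟩
        rw [WND_s3 _ (by linarith) (by linarith)]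
        conv_rhs => rw [hz0, h']
        congr 2
        ring_nf
    · rcases (abs_eq zero_le_one).1 hi with h | h
      · have h' : z 1 = 1 := h
        refine ⟨3 - z 0, ?_⟩
        rw [WND_s2 _ (by linarith) (by linarith)]
        conv_rhs => rw [hz0, h']
        congr 1
        ring
      · have h' : z 1 = -1 := h
        refine ⟨z 0 + 7, ?_⟩
        rw [WND_s4 _ (by linarith) (by linarith)]
        conv_rhs => rw [hz0, h']
        congr 1
        ring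
  obtain ⟨k, h1, h2⟩ := WND_red s a
  exact ⟨s + 8 * k, ⟨h1, h2⟩, by rw [wnd_per, hs]⟩

private theorem WND_int (k : ℤ) (h1 : (-8 : ℝ) < 8 * k) (h2 : (8 : ℝ) * k < 8) : k = 0 := by
  have h3 : ((-1 : ℤ) : ℝ) < k := by push_cast; linarith
  have h4 : (k : ℝ) < ((1 : ℤ) : ℝ) := by push_cast; linarith
  have h5 : -1 < k := by exact_mod_cast h3
  have h6 : k < 1 := by exact_mod_cast h4
  omega

theorem wnd_injOn {a b : ℝ} (hab : b < a + 8) : InjOn wnd (Icc a b) := by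
  intro s hs t ht h
  obtain ⟨k, hk⟩ := wnd_eq_iff.1 h
  have h0 : k = 0 := WND_int k (by linarith [hs.1, hs.2, ht.1, ht.2]) (by linarith [hs.1, hs.2, ht.1, ht.2])
  rw [h0] at hk
  simp only [Int.cast_zero, mul_zero, add_zero] at hk
  exact hk.symm

private theorem WND_wf_cont : Continuous wf := by
  have h1 : wf = fun s => max (-1) (min 1 (2 - 8 * ‖(((s - 1) / 8 : ℝ) : UnitAddCircle)‖)) := by
    funext s
    unfold wf
    rw [UnitAddCircle.norm_eq]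
    have h2 : |(s - 1) - 8 * (round ((s - 1) / 8) : ℝ)| =
        8 * |(s - 1) / 8 - (round ((s - 1) / 8) : ℝ)| := by
      rw [← abs_of_pos (show (0 : ℝ) < 8 by norm_num), ← abs_mul]
      congr 1
      rw [abs_of_pos (show (0 : ℝ) < 8 by norm_num)]
      ring
    rw [h2]
  rw [h1]
  have h3 : Continuous fun s : ℝ => (((s - 1) / 8 : ℝ) : UnitAddCircle) :=
    (AddCircle.continuous_mk' (1 : ℝ)).comp (by fun_prop)
  exact continuous_const.max (continuous_const.min (continuous_const.sub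
    (continuous_const.mul h3.norm)))

theorem wnd_cont : Continuous wnd := by
  refine continuous_pi fun i => ?_
  fin_cases i
  · exact WND_wf_cont
  · exact WND_wf_cont.comp (continuous_id.sub continuous_const)

theorem isPoly_Icc (a b : ℝ) : IsPoly (Icc a b) := by
  rcases le_or_gt a b with h | h
  · rw [← segment_eq_Icc h]
    exact IsPoly.segment a b
  · rw [Icc_eq_empty (not_le.2 h)]
    exact IsPoly.empty

private theorem WND_aff (j : ℤ) : ∃ c v : V2, ∀ s : ℝ, 2 * (j : ℝ) ≤ s → s ≤ 2 * j + 2 →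
    wnd s = c + s • v := by
  obtain ⟨k, i, hi, rfl⟩ : ∃ k i : ℤ, (i = 0 ∨ i = 1 ∨ i = 2 ∨ i = 3) ∧ j = 4 * k + i :=
    ⟨j / 4, j % 4, by omega, by omega⟩
  have hk : ∀ s : ℝ, wnd s = wnd (s - 8 * k) := by
    intro s
    have := wnd_per s (-k)
    push_cast at this
    rw [← this]
    congr 1
    ring
  rcases hi with rfl | rfl | rfl | rfl
  · refine ⟨![1, -8 * k - 1], ![0, 1], fun s h1 h2 => ?_⟩
    push_cast at h1 h2
    rw [hk, WND_s1 _ (by linarith) (by linarith)]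
    funext i
    fin_cases i
    · simp
    · simp; ring
  · refine ⟨![3 + 8 * k, 1], ![-1, 0], fun s h1 h2 => ?_⟩
    push_cast at h1 h2
    rw [hk, WND_s2 _ (by linarith) (by linarith)]
    funext i
    fin_cases i
    · simp; ring
    · simp
  · refine ⟨![-1, 5 + 8 * k], ![0, -1], fun s h1 h2 => ?_⟩
    push_cast at h1 h2
    rw [hk, WND_s3 _ (by linarith) (by linarith)]
    funext i
    fin_cases i
    · simp
    · simp; ring
  · refine ⟨![-8 * k - 7, -1], ![1, 0], fun s h1 h2 => ?_⟩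
    push_cast at h1 h2
    rw [hk, WND_s4 _ (by linarith) (by linarith)]
    funext i
    fin_cases i
    · simp; ring
    · simp

theorem wnd_pl (a b : ℝ) : PLOn wnd (Icc a b) := by
  have h1 : ∀ j : ℤ, PLOn wnd (Icc (2 * (j : ℝ)) (2 * j + 2)) := by
    intro j
    obtain ⟨c, v, hcv⟩ := WND_aff j
    have h2 := PLOn.affine (AffineMap.lineMap (k := ℝ) c (c + v) : ℝ →ᵃ[ℝ] V2)
      (isPoly_Icc (2 * (j : ℝ)) (2 * j + 2))
    refine h2.congr fun s hs => ?_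
    rw [hcv s hs.1 hs.2, AffineMap.lineMap_apply_module', add_sub_cancel_left, add_comm]
  have h2 : PLOn wnd (⋃ j ∈ Icc ⌊a / 2⌋ ⌊b / 2⌋, Icc (2 * (j : ℝ)) (2 * j + 2)) :=
    PLOn.biUnion (Set.finite_Icc _ _) fun j _ => h1 j
  refine h2.mono (isPoly_Icc a b) ?_
  intro s hs
  refine mem_iUnion₂.2 ⟨⌊s / 2⌋, ⟨Int.floor_le_floor (by linarith [hs.1]),
    Int.floor_le_floor (by linarith [hs.2])⟩, ?_, ?_⟩
  · have := Int.floor_le (s / 2)
    linarith
  · have := Int.lt_floor_add_one (s / 2)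
    linarith

theorem wnd_open (s : ℝ) {ε : ℝ} (hε : 0 < ε) : wnd '' Ioo (s - ε) (s + ε) ∈ 𝓝[gam] (wnd s) := by
  have hK : IsClosed (wnd '' Icc (s + ε) (s + 8 - ε)) :=
    (isCompact_Icc.image wnd_cont).isClosed
  have hn : wnd s ∉ wnd '' Icc (s + ε) (s + 8 - ε) := by
    rintro ⟨t, ht, he⟩
    obtain ⟨k, hk⟩ := wnd_eq_iff.1 he.symm
    have h1 := ht.1
    have h2 := ht.2
    have h3 : k = 0 := WND_int k (by linarith) (by linarith)
    rw [h3] at hk
    simp only [Int.cast_zero, mul_zero, add_zero] at hk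
    linarith
  have h1 : (wnd '' Icc (s + ε) (s + 8 - ε))ᶜ ∈ 𝓝[gam] (wnd s) :=
    mem_nhdsWithin_of_mem_nhds (hK.isOpen_compl.mem_nhds hn)
  refine Filter.mem_of_superset (Filter.inter_mem self_mem_nhdsWithin h1) ?_
  rintro z ⟨hz, hzK⟩
  obtain ⟨t, ht, rfl⟩ := wnd_surj (s - ε) hz
  rcases eq_or_lt_of_le ht.1 with h2 | h2
  · by_cases h4 : ε ≤ 4
    · exfalso
      apply hzK
      refine ⟨t + 8 * ((1 : ℤ) : ℝ), ⟨?_, ?_⟩, wnd_per t 1⟩
      · push_cast; linarith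
      · push_cast; linarith
    · refine ⟨t + 8 * ((1 : ℤ) : ℝ), ⟨?_, ?_⟩, wnd_per t 1⟩
      · push_cast; linarith
      · push_cast; linarith
  · rcases lt_or_ge t (s + ε) with h3 | h3
    · exact ⟨t, ⟨h2, h3⟩, rfl⟩
    · exfalso
      apply hzK
      exact ⟨t, ⟨h3, by linarith [ht.2]⟩, rfl⟩

theorem gam_mfd : IsClosedPLManifold 1 gam := sphere_manifold 1 le_rfl

theorem gam_conn : IsConnected gam := sphere_connected 1 le_rfl

noncomputable def ang (z : V2) : ℝ := Function.invFunOn wnd (Ico 0 8) z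

theorem ang_mem {z : V2} (hz : z ∈ gam) : ang z ∈ Ico (0 : ℝ) 8 ∧ wnd (ang z) = z := by
  obtain ⟨s, hs, hsz⟩ := wnd_surj 0 hz
  rw [zero_add] at hs
  exact ⟨Function.invFunOn_mem ⟨s, hs, hsz⟩, Function.invFunOn_eq ⟨s, hs, hsz⟩⟩

theorem ang_wnd (s : ℝ) : ∃ k : ℤ, ang (wnd s) = s + 8 * k :=
  wnd_eq_iff.1 (ang_mem (wnd_mem s)).2.symm

variable {E : Type*} [NormedAddCommGroup E] [NormedSpace ℝ E] [FiniteDimensional ℝ E]

theorem pl_desc {F : ℝ → E} (hF : PLOn F (Icc 0 8)) (hper : F 8 = F 0) :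
    PLOn (fun z => F (ang z)) gam ∧ ∀ s ∈ Icc (0 : ℝ) 8, F (ang (wnd s)) = F s := by
  have key : ∀ s ∈ Icc (0 : ℝ) 8, F (ang (wnd s)) = F s := by
    intro s hs
    obtain ⟨k, hk⟩ := ang_wnd s
    have h1 := (ang_mem (wnd_mem s)).1
    rcases eq_or_lt_of_le hs.2 with h2 | h2
    · have h3 : k + 1 = 0 := WND_int (k + 1) (by push_cast; linarith [h1.1, h1.2])
        (by push_cast; linarith [h1.1, h1.2])
      have h4 : k = -1 := by omega
      rw [h4] at hk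
      push_cast at hk
      have h5 : ang (wnd s) = 0 := by rw [hk, h2]; norm_num
      rw [h5, h2, hper]
    · have h3 : k = 0 := WND_int k (by linarith [h1.1, h1.2, hs.1]) (by linarith [h1.1, h1.2, hs.1])
      rw [h3] at hk
      simp only [Int.cast_zero, mul_zero, add_zero] at hk
      rw [hk]
  refine ⟨?_, key⟩
  have h1 : IsPoly ((fun s => (wnd s, F s)) '' Icc (0 : ℝ) 8) := ((wnd_pl 0 8).prodMk hF).image
  have h2 : (fun z => (z, F (ang z))) '' gam = (fun s => (wnd s, F s)) '' Icc (0 : ℝ) 8 := by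
    ext p
    constructor
    · rintro ⟨z, hz, rfl⟩
      obtain ⟨h3, h4⟩ := ang_mem hz
      refine ⟨ang z, ⟨h3.1, h3.2.le⟩, ?_⟩
      show (wnd (ang z), F (ang z)) = (z, F (ang z))
      rw [h4]
    · rintro ⟨s, hs, rfl⟩
      refine ⟨wnd s, wnd_mem s, ?_⟩
      show (wnd s, F (ang (wnd s))) = (wnd s, F s)
      rw [key s hs]
  unfold PLOn
  rw [h2]
  exact h1

theorem arc_qtriv {a b : ℝ} (hab : b < a + 8) (Q : Type*) [Group Q] :
    QTriv Q (wnd '' Icc a b) := by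
  have hinj := wnd_injOn hab
  refine QTriv.retract (S := Icc a b) (φ := wnd) (ψ := Function.invFunOn wnd (Icc a b))
    wnd_cont.continuousOn ?_ (mapsTo_image _ _) ?_ ?_ (qtriv_Icc a b)
  · rw [continuousOn_iff_isClosed]
    intro C hC
    refine ⟨wnd '' (Icc a b ∩ C), ((isCompact_Icc.inter_right hC).image wnd_cont).isClosed, ?_⟩
    ext z
    constructor
    · rintro ⟨hz, hzT⟩
      refine ⟨⟨Function.invFunOn wnd (Icc a b) z, ⟨Function.invFunOn_mem hzT, hz⟩,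
        Function.invFunOn_eq hzT⟩, hzT⟩
    · rintro ⟨⟨r, ⟨hr, hrC⟩, rfl⟩, hzT⟩
      refine ⟨?_, hzT⟩
      show Function.invFunOn wnd (Icc a b) (wnd r) ∈ C
      rw [hinj.leftInvOn_invFunOn hr]
      exact hrC
  · intro z hz
    exact Function.invFunOn_mem hz
  · intro z hz
    exact Function.invFunOn_eq hz

theorem arc_conn {a b : ℝ} (hab : a ≤ b) : IsConnected (wnd '' Icc a b) :=
  (isConnected_Icc hab).image _ wnd_cont.continuousOn

end Pool.H54.UB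

end S_WND

section S_TUB

/-!
# Row TUB: calculus of tubes

* `emb_nhds`: a continuous injection on a compact set is a homeomorphism onto its image.
* `Tube.image_nhds`, `CubeT.image_nhds`: `emb_nhds` and the field `nhd`
  (`𝓝[X] y ≤ 𝓝[ι '' (..)] y` because `ι '' (..) ∈ 𝓝[X] y`; a neighbourhood of `p` within the closed tube
  is mapped to a neighbourhood of `ι p` within `ι '' (..)`, hence within `X`).
* `Tube.comp`, `CubeT.comp`: `PLOn.comp`, injectivity, `maps`, and `image_nhds` for the outer tube applied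
  to the neighbourhood `κ '' (..)` of `κ p` in `P × closedBall 0 2` (`κ p` is in `P × ball 0 2`).
* `CubeT.tubeGam`: `(z, u) ↦ (ι u, z)`; `nhds` of a product.
* `Tube.finite`: the tubes `ι j`, `j ∈ J` (finite set of reals) have disjoint images; the tube
  `((z, j), u) ↦ ι j (z, u)` over `P × J`.  PL: union over `j ∈ J` of PL maps (`PLOn.biUnion`,
  `PLOn.congr`).
-/

open Set Topology Metric

namespace Pool.H54.UB

variable {E F G G' : Type*} [NormedAddCommGroup E] [NormedSpace ℝ E] [FiniteDimensional ℝ E]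
  [NormedAddCommGroup F] [NormedSpace ℝ F] [FiniteDimensional ℝ F]
  [NormedAddCommGroup G] [NormedSpace ℝ G] [FiniteDimensional ℝ G]
  [NormedAddCommGroup G'] [NormedSpace ℝ G'] [FiniteDimensional ℝ G']

theorem emb_nhds {X Y : Type*} [TopologicalSpace X] [TopologicalSpace Y] [T2Space Y] {K : Set X}
    (hK : IsCompact K) {ι : X → Y} (hc : ContinuousOn ι K) (hi : InjOn ι K) {p : X} (hp : p ∈ K)
    {V : Set X} (hV : V ∈ 𝓝[K] p) : ι '' (V ∩ K) ∈ 𝓝[ι '' K] (ι p) := by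
  obtain ⟨O, hO, hpO, hOV⟩ := mem_nhdsWithin.1 hV
  have hcl : IsClosed (ι '' (K \ O)) :=
    ((hK.diff hO).image_of_continuousOn (hc.mono diff_subset)).isClosed
  have hnot : ι p ∈ (ι '' (K \ O))ᶜ := by
    rintro ⟨q, hq, he⟩
    have : q = p := hi hq.1 hp he
    rw [this] at hq
    exact hq.2 hpO
  refine mem_nhdsWithin.2 ⟨(ι '' (K \ O))ᶜ, hcl.isOpen_compl, hnot, ?_⟩
  rintro y ⟨hy1, q, hq, rfl⟩
  have hqO : q ∈ O := by
    by_contra hcon
    exact hy1 ⟨q, ⟨hq, hcon⟩, rfl⟩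
  exact ⟨q, ⟨hOV ⟨hqO, hq⟩, hq⟩, rfl⟩

/-- A PL cube `ι : [-2,2]^k → X`, open on the interior. -/
structure CubeT (k : ℕ) (X : Set E) (ι : (Fin k → ℝ) → E) : Prop where
  pl : PLOn ι (closedBall (0 : Fin k → ℝ) 2)
  inj : InjOn ι (closedBall (0 : Fin k → ℝ) 2)
  maps : MapsTo ι (closedBall (0 : Fin k → ℝ) 2) X
  nhd : ∀ p ∈ ball (0 : Fin k → ℝ) 2, ι '' closedBall (0 : Fin k → ℝ) 2 ∈ 𝓝[X] (ι p)

theorem TUB_sub (k : ℕ) (P : Set G) {p : G × (Fin k → ℝ)} (hp : p ∈ P ×ˢ ball (0 : Fin k → ℝ) 2) :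
    p ∈ P ×ˢ closedBall (0 : Fin k → ℝ) 2 := ⟨hp.1, ball_subset_closedBall hp.2⟩

theorem TUB_le {X Y : Set E} {y : E} (h : Y ∈ 𝓝[X] y) {W : Set E} (hW : W ∈ 𝓝[Y] y) :
    W ∈ 𝓝[X] y := by
  have h1 : 𝓝[X] y ≤ 𝓝[Y] y := by
    rw [nhdsWithin_le_iff]
    exact h
  exact h1 hW

theorem Tube.image_nhds {P : Set G} {k : ℕ} {X : Set E} {ι : G × (Fin k → ℝ) → E}
    (h : Tube P k X ι) {p : G × (Fin k → ℝ)} (hp : p ∈ P ×ˢ ball (0 : Fin k → ℝ) 2)
    {V : Set (G × (Fin k → ℝ))} (hV : V ∈ 𝓝[P ×ˢ closedBall (0 : Fin k → ℝ) 2] p) :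
    ι '' (V ∩ P ×ˢ closedBall (0 : Fin k → ℝ) 2) ∈ 𝓝[X] (ι p) :=
  TUB_le (h.nhd p hp) (emb_nhds h.pl.domain.isCompact h.pl.continuousOn h.inj (TUB_sub k P hp) hV)

theorem CubeT.image_nhds {k : ℕ} {X : Set E} {ι : (Fin k → ℝ) → E} (h : CubeT k X ι)
    {p : Fin k → ℝ} (hp : p ∈ ball (0 : Fin k → ℝ) 2) {V : Set (Fin k → ℝ)} (hV : V ∈ 𝓝 p) :
    ι '' (V ∩ closedBall (0 : Fin k → ℝ) 2) ∈ 𝓝[X] (ι p) :=
  TUB_le (h.nhd p hp) (emb_nhds h.pl.domain.isCompact h.pl.continuousOn h.inj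
    (ball_subset_closedBall hp) (mem_nhdsWithin_of_mem_nhds hV))

theorem Tube.comp {P : Set G} {P' : Set G'} {k k' : ℕ} {X : Set E} {ι : G × (Fin k → ℝ) → E}
    {κ : G' × (Fin k' → ℝ) → G × (Fin k → ℝ)} (h : Tube P k X ι)
    (h' : Tube P' k' (P ×ˢ closedBall (0 : Fin k → ℝ) 2) κ)
    (hm : MapsTo κ (P' ×ˢ closedBall (0 : Fin k' → ℝ) 2) (P ×ˢ ball (0 : Fin k → ℝ) 2)) :
    Tube P' k' X (fun p => ι (κ p)) where
  pl := h.pl.comp h'.pl h'.maps
  inj := fun p hp q hq he => h'.inj hp hq (h.inj (h'.maps hp) (h'.maps hq) he)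
  maps := fun p hp => h.maps (h'.maps hp)
  nhd := by
    intro p hp
    have hpC := TUB_sub k' P' hp
    have h1 := h.image_nhds (hm hpC) (h'.nhd p hp)
    refine Filter.mem_of_superset h1 ?_
    rintro _ ⟨_, ⟨⟨q, hq, rfl⟩, -⟩, rfl⟩
    exact ⟨q, hq, rfl⟩

theorem CubeT.comp {P : Set G} {k k' : ℕ} {X : Set E} {ι : G × (Fin k → ℝ) → E}
    {κ : (Fin k' → ℝ) → G × (Fin k → ℝ)} (h : Tube P k X ι)
    (h' : CubeT k' (P ×ˢ closedBall (0 : Fin k → ℝ) 2) κ)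
    (hm : MapsTo κ (closedBall (0 : Fin k' → ℝ) 2) (P ×ˢ ball (0 : Fin k → ℝ) 2)) :
    CubeT k' X (fun p => ι (κ p)) where
  pl := h.pl.comp h'.pl h'.maps
  inj := fun p hp q hq he => h'.inj hp hq (h.inj (h'.maps hp) (h'.maps hq) he)
  maps := fun p hp => h.maps (h'.maps hp)
  nhd := by
    intro p hp
    have hpC := ball_subset_closedBall hp
    have h1 := h.image_nhds (hm hpC) (h'.nhd p hp)
    refine Filter.mem_of_superset h1 ?_
    rintro _ ⟨_, ⟨⟨q, hq, rfl⟩, -⟩, rfl⟩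
    exact ⟨q, hq, rfl⟩

/-- The solid torus `gam × cube` in `X × gam`. -/
theorem CubeT.tubeGam {k : ℕ} {X : Set E} {ι : (Fin k → ℝ) → E} (h : CubeT k X ι) :
    Tube gam k (X ×ˢ gam) (fun p : V2 × (Fin k → ℝ) => (ι p.2, p.1)) where
  pl := by
    have hP : IsPoly (gam ×ˢ closedBall (0 : Fin k → ℝ) 2) := gam_mfd.1.prod h.pl.domain
    have h1 : PLOn (fun p : V2 × (Fin k → ℝ) => p.2) (gam ×ˢ closedBall (0 : Fin k → ℝ) 2) :=
      PLOn.affine (LinearMap.snd ℝ V2 (Fin k → ℝ)).toAffineMap hP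
    have h2 : PLOn (fun p : V2 × (Fin k → ℝ) => p.1) (gam ×ˢ closedBall (0 : Fin k → ℝ) 2) :=
      PLOn.affine (LinearMap.fst ℝ V2 (Fin k → ℝ)).toAffineMap hP
    exact (h.pl.comp h1 fun p hp => hp.2).prodMk h2
  inj := by
    intro p hp q hq he
    have e1 : ι p.2 = ι q.2 := congrArg Prod.fst he
    have e2 : p.1 = q.1 := congrArg Prod.snd he
    exact Prod.ext e2 (h.inj hp.2 hq.2 e1)
  maps := fun p hp => ⟨h.maps hp.2, hp.1⟩
  nhd := by
    intro p hp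
    have h1 := nhdsWithin_prod (h.nhd p.2 hp.2) (self_mem_nhdsWithin (s := gam) (a := p.1))
    refine Filter.mem_of_superset h1 ?_
    rintro ⟨a, b⟩ ⟨⟨u, hu, hua⟩, hb⟩
    refine ⟨(b, u), ⟨hb, hu⟩, ?_⟩
    exact Prod.ext hua rfl

theorem CubeT.mono {k : ℕ} {X Y : Set E} {ι : (Fin k → ℝ) → E} (h : CubeT k X ι) (hYX : Y ⊆ X)
    (hY : MapsTo ι (closedBall (0 : Fin k → ℝ) 2) Y) : CubeT k Y ι where
  pl := h.pl
  inj := h.inj
  maps := hY
  nhd := fun p hp => nhdsWithin_mono _ hYX (h.nhd p hp)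

theorem Tube.finite {P : Set G} {k : ℕ} {X : Set E} {J : Set ℝ} (hJ : J.Finite)
    {ι : ℝ → G × (Fin k → ℝ) → E} (h : ∀ j ∈ J, Tube P k X (ι j))
    (hd : ∀ j ∈ J, ∀ j' ∈ J, j ≠ j' →
      Disjoint (ι j '' (P ×ˢ closedBall (0 : Fin k → ℝ) 2))
        (ι j' '' (P ×ˢ closedBall (0 : Fin k → ℝ) 2))) :
    Tube (P ×ˢ J) k X (fun q : (G × ℝ) × (Fin k → ℝ) => ι q.1.2 (q.1.1, q.2)) where
  pl := by
    have hset : (P ×ˢ J) ×ˢ closedBall (0 : Fin k → ℝ) 2 =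
        ⋃ j ∈ J, (P ×ˢ {j}) ×ˢ closedBall (0 : Fin k → ℝ) 2 := by
      ext ⟨⟨a, b⟩, u⟩
      simp only [mem_prod, mem_iUnion, mem_singleton_iff, exists_prop]
      constructor
      · rintro ⟨⟨h1, h2⟩, h3⟩
        exact ⟨b, h2, ⟨h1, rfl⟩, h3⟩
      · rintro ⟨j, hj, ⟨h1, h2⟩, h3⟩
        rw [h2]
        exact ⟨⟨h1, hj⟩, h3⟩
    rw [hset]
    refine PLOn.biUnion hJ fun j hj => ?_
    have hB : IsPoly ((P ×ˢ {j}) ×ˢ closedBall (0 : Fin k → ℝ) 2) := by
      obtain ⟨A, hA⟩ : ∃ A : G × (Fin k → ℝ) →ᵃ[ℝ] (G × ℝ) × (Fin k → ℝ),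
          ∀ p, A p = ((p.1, j), p.2) :=
        ⟨(((LinearMap.fst ℝ G (Fin k → ℝ)).toAffineMap).prod
          (AffineMap.const ℝ (G × (Fin k → ℝ)) j)).prod
            (LinearMap.snd ℝ G (Fin k → ℝ)).toAffineMap, fun p => rfl⟩
      have h1 := (h j hj).pl.domain.image_affine A
      have h2 : A '' (P ×ˢ closedBall (0 : Fin k → ℝ) 2) =
          (P ×ˢ {j}) ×ˢ closedBall (0 : Fin k → ℝ) 2 := by
        ext ⟨⟨a, b⟩, u⟩
        constructor
        · rintro ⟨p, hp, he⟩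
          rw [hA] at he
          have e1 : p.1 = a := congrArg (fun q : (G × ℝ) × (Fin k → ℝ) => q.1.1) he
          have e2 : j = b := congrArg (fun q : (G × ℝ) × (Fin k → ℝ) => q.1.2) he
          have e3 : p.2 = u := congrArg (fun q : (G × ℝ) × (Fin k → ℝ) => q.2) he
          rw [← e1, ← e2, ← e3]
          exact ⟨⟨hp.1, rfl⟩, hp.2⟩
        · rintro ⟨⟨h3, h4⟩, h5⟩
          have h6 : b = j := h4
          refine ⟨(a, u), ⟨h3, h5⟩, ?_⟩
          rw [hA, h6]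
      rwa [h2] at h1
    obtain ⟨A, hA⟩ : ∃ A : (G × ℝ) × (Fin k → ℝ) →ᵃ[ℝ] G × (Fin k → ℝ),
        ∀ q, A q = (q.1.1, q.2) :=
      ⟨((LinearMap.fst ℝ G ℝ).comp (LinearMap.fst ℝ (G × ℝ) (Fin k → ℝ))).toAffineMap.prod
        (LinearMap.snd ℝ (G × ℝ) (Fin k → ℝ)).toAffineMap, fun q => rfl⟩
    have h1 : PLOn (fun q => ι j (A q)) ((P ×ˢ {j}) ×ˢ closedBall (0 : Fin k → ℝ) 2) := by
      refine (h j hj).pl.comp (PLOn.affine A hB) ?_
      intro q hq
      rw [hA]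
      exact ⟨hq.1.1, hq.2⟩
    refine h1.congr ?_
    intro q hq
    have h2 : q.1.2 = j := hq.1.2
    show ι j (A q) = ι q.1.2 (q.1.1, q.2)
    rw [hA, h2]
  inj := by
    intro p hp q hq he
    have he' : ι p.1.2 (p.1.1, p.2) = ι q.1.2 (q.1.1, q.2) := he
    have m1 : ((p.1.1, p.2) : G × (Fin k → ℝ)) ∈ P ×ˢ closedBall (0 : Fin k → ℝ) 2 :=
      ⟨hp.1.1, hp.2⟩
    have m2 : ((q.1.1, q.2) : G × (Fin k → ℝ)) ∈ P ×ˢ closedBall (0 : Fin k → ℝ) 2 :=
      ⟨hq.1.1, hq.2⟩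
    have hj : p.1.2 = q.1.2 := by
      by_contra hne
      refine Set.disjoint_left.1 (hd _ hp.1.2 _ hq.1.2 hne) ⟨_, m1, rfl⟩ ?_
      rw [he']
      exact ⟨_, m2, rfl⟩
    rw [← hj] at he'
    have h3 := (h _ hp.1.2).inj m1 m2 he'
    obtain ⟨e1, e2⟩ := Prod.mk.inj h3
    exact Prod.ext (Prod.ext e1 hj) e2
  maps := fun p hp => (h _ hp.1.2).maps ⟨hp.1.1, hp.2⟩
  nhd := by
    intro p hp
    have h1 := (h _ hp.1.2).nhd (p.1.1, p.2) ⟨hp.1.1, hp.2⟩
    refine Filter.mem_of_superset h1 ?_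
    rintro _ ⟨q, hq, rfl⟩
    exact ⟨((q.1, p.1.2), q.2), ⟨⟨hq.1, hp.1.2⟩, hq.2⟩, rfl⟩

end Pool.H54.UB

end S_TUB

section S_NTA

/-!
# Row NTA: the three straight tubes in the 3-torus

`tub0 (z, u) = (z, wnd (1 + u 0 / 4), wnd (3 + u 1 / 4))`, and its images under the rotation
`rho (x, y, z) = (z, x, y)`.  With `tubj j = rho^j ∘ tub0`:
`tubj 1 (z,u) = (wnd (3 + u 1/4), z, wnd (1 + u 0/4))`, `tubj 2 (z,u) = (wnd (1+u 0/4), wnd (3+u 1/4), z)`.

* each is a tube: PL (`wnd_pl` on `[1/2, 3/2]`, `[5/2, 7/2]`), injective (`wnd_injOn`), neighbourhoods: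
  `wnd_open` and products of neighbourhoods.  For `|u i| < 2`.
* the images are pairwise disjoint: the coordinate in which tube `j` is in `wnd '' Icc (1/2) (3/2)` is one in
  which another tube is in `wnd '' Icc (5/2) (7/2)`: tubes 0, 1: third coordinate (`5/2..7/2` against
  `1/2..3/2`); tubes 1, 2: first; tubes 0, 2: second coordinate.
* `Tube.finite` with `J3 = {0, 1, 2}`, then compare with `tub3`.
* `mem_tub3`: membership in the removed part by coordinates.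
-/

open Set Topology Metric

namespace Pool.H54.UB

abbrev V6 : Type := V2 × V2 × V2

def T3 : Set V6 := gam ×ˢ gam ×ˢ gam

def J3 : Set ℝ := {0, 1, 2}

def rho (x : V6) : V6 := (x.2.2, x.1, x.2.1)

noncomputable def tub0 (q : V2 × V2) : V6 := (q.1, wnd (1 + q.2 0 / 4), wnd (3 + q.2 1 / 4))

open Classical in
noncomputable def tub3 (q : (V2 × ℝ) × V2) : V6 :=
  if q.1.2 = 0 then tub0 (q.1.1, q.2) else if q.1.2 = 1 then rho (tub0 (q.1.1, q.2))
  else rho (rho (tub0 (q.1.1, q.2)))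

/-- The open arcs removed. -/
noncomputable def ar1 : Set V2 := wnd '' Ioo (3 / 4) (5 / 4)
noncomputable def ar3 : Set V2 := wnd '' Ioo (11 / 4) (13 / 4)

/-- The 3-torus minus the open tubes. -/
def A3 : Set V6 := T3 \ tub3 '' ((gam ×ˢ J3) ×ˢ ball (0 : V2) 1)

theorem T3_mfd : IsClosedPLManifold 3 T3 := gam_mfd.prod (gam_mfd.prod gam_mfd)

theorem T3_conn : IsConnected T3 := gam_conn.prod (gam_conn.prod gam_conn)

theorem NTA_fin : J3.Finite := by
  unfold J3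
  exact Set.toFinite _

theorem NTA_J0 : IsClosedPLManifold 0 J3 := by
  refine ⟨?_, fun x hx => ?_⟩
  · have h : J3 = {0} ∪ ({1} ∪ {2}) := by
      ext x
      exact Iff.rfl
    rw [h]
    exact (IsPoly.singleton 0).union ((IsPoly.singleton 1).union (IsPoly.singleton 2))
  · refine ⟨{x}, fun _ => 0, ⟨singleton_subset_iff.2 hx, PLOn.const (IsPoly.singleton x) 0,
      injOn_singleton _ _, ?_⟩, mem_singleton x, ?_, fun i => i.elim0⟩
    · rw [image_singleton]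
      ext y
      constructor
      · intro _ i
        exact i.elim0
      · intro _
        exact Subsingleton.elim _ _
    · refine mem_nhdsWithin.2 ⟨(J3 \ {x})ᶜ, (NTA_fin.subset sdiff_subset).isClosed.isOpen_compl,
        fun h => h.2 rfl, ?_⟩
      rintro y ⟨hy1, hy2⟩
      by_contra hne
      exact hy1 ⟨hy2, hne⟩

theorem J3_mfd : IsClosedPLManifold 1 (gam ×ˢ J3) := gam_mfd.prod NTA_J0

theorem NTA_ball {r : ℝ} (hr : 0 < r) (u : V2) :
    u ∈ ball (0 : V2) r ↔ |u 0| < r ∧ |u 1| < r := by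
  rw [mem_ball_zero_iff, pi_norm_lt_iff hr]
  constructor
  · intro h
    exact ⟨h 0, h 1⟩
  · rintro ⟨h0, h1⟩ i
    fin_cases i
    · exact h0
    · exact h1

theorem NTA_cball {r : ℝ} (hr : 0 ≤ r) (u : V2) :
    u ∈ closedBall (0 : V2) r ↔ |u 0| ≤ r ∧ |u 1| ≤ r := by
  rw [mem_closedBall_zero_iff, pi_norm_le_iff_of_nonneg hr]
  constructor
  · intro h
    exact ⟨h 0, h 1⟩
  · rintro ⟨h0, h1⟩ i
    fin_cases i
    · exact h0
    · exact h1

theorem NTA_l (c : ℝ) (i : Fin 2) :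
    PLOn (fun q : V2 × V2 => wnd (c + q.2 i / 4)) (gam ×ˢ closedBall (0 : V2) 2) := by
  have hP : IsPoly (gam ×ˢ closedBall (0 : V2) 2) := gam_mfd.1.prod (isPoly_closedBall 2 2)
  have h1 : PLOn (fun q : V2 × V2 => q.2) (gam ×ˢ closedBall (0 : V2) 2) :=
    PLOn.affine (LinearMap.snd ℝ V2 V2).toAffineMap hP
  have h2 : PLOn (fun q : V2 × V2 => c + q.2 i / 4) (gam ×ˢ closedBall (0 : V2) 2) := by
    refine ((PLOn.const hP c).add ((h1.apply i).const_smul (1 / 4))).congr fun q _ => ?_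
    show c + (1 / 4) • q.2 i = c + q.2 i / 4
    rw [smul_eq_mul]
    ring
  refine (wnd_pl (c - 1 / 2) (c + 1 / 2)).comp h2 fun q hq => ?_
  have h3 := (NTA_cball (by norm_num) q.2).1 hq.2
  have h4 : |q.2 i| ≤ 2 := by
    fin_cases i
    · exact h3.1
    · exact h3.2
  have h5 := abs_le.1 h4
  constructor
  · linarith
  · linarith

theorem NTA_inj {a b c : ℝ} (ha : |a| ≤ 2) (hb : |b| ≤ 2)
    (h : wnd (c + a / 4) = wnd (c + b / 4)) : a = b := by
  have h1 := abs_le.1 ha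
  have h2 := abs_le.1 hb
  have h3 := wnd_injOn (a := c - 1 / 2) (b := c + 1 / 2) (by linarith)
    ⟨by linarith, by linarith⟩ ⟨by linarith, by linarith⟩ h
  linarith

theorem NTA_tub0 : Tube gam 2 T3 tub0 where
  pl := by
    have hP : IsPoly (gam ×ˢ closedBall (0 : V2) 2) := gam_mfd.1.prod (isPoly_closedBall 2 2)
    have h1 : PLOn (fun q : V2 × V2 => q.1) (gam ×ˢ closedBall (0 : V2) 2) :=
      PLOn.affine (LinearMap.fst ℝ V2 V2).toAffineMap hP
    exact h1.prodMk ((NTA_l 1 0).prodMk (NTA_l 3 1))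
  inj := by
    intro p hp q hq he
    have e1 : p.1 = q.1 := congrArg (fun x : V6 => x.1) he
    have e2 : wnd (1 + p.2 0 / 4) = wnd (1 + q.2 0 / 4) := congrArg (fun x : V6 => x.2.1) he
    have e3 : wnd (3 + p.2 1 / 4) = wnd (3 + q.2 1 / 4) := congrArg (fun x : V6 => x.2.2) he
    have h1 := (NTA_cball (by norm_num) p.2).1 hp.2
    have h2 := (NTA_cball (by norm_num) q.2).1 hq.2
    have e4 := NTA_inj h1.1 h2.1 e2
    have e5 := NTA_inj h1.2 h2.2 e3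
    refine Prod.ext e1 (funext fun i => ?_)
    fin_cases i
    · exact e4
    · exact e5
  maps := fun p hp => ⟨hp.1, wnd_mem _, wnd_mem _⟩
  nhd := by
    intro p hp
    have h0 := (NTA_ball (by norm_num) p.2).1 hp.2
    have ha : 0 < (2 - |p.2 0|) / 4 := by linarith [h0.1]
    have hb : 0 < (2 - |p.2 1|) / 4 := by linarith [h0.2]
    have h1 := nhdsWithin_prod (self_mem_nhdsWithin (s := gam) (a := p.1))
      (nhdsWithin_prod (wnd_open (1 + p.2 0 / 4) ha) (wnd_open (3 + p.2 1 / 4) hb))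
    refine Filter.mem_of_superset h1 ?_
    rintro ⟨x, y, z⟩ ⟨hx, ⟨s, hs, hsy⟩, t, ht, htz⟩
    have a1 := neg_abs_le (p.2 0)
    have a2 := le_abs_self (p.2 0)
    have a3 := neg_abs_le (p.2 1)
    have a4 := le_abs_self (p.2 1)
    have hsy' : wnd s = y := hsy
    have htz' : wnd t = z := htz
    refine ⟨(x, ![4 * (s - 1), 4 * (t - 3)]), ⟨hx, ?_⟩, ?_⟩
    · rw [NTA_cball (by norm_num)]
      constructor
      · show |4 * (s - 1)| ≤ 2
        rw [abs_le]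
        constructor
        · linarith [hs.1, hs.2]
        · linarith [hs.1, hs.2]
      · show |4 * (t - 3)| ≤ 2
        rw [abs_le]
        constructor
        · linarith [ht.1, ht.2]
        · linarith [ht.1, ht.2]
    · show (x, wnd (1 + 4 * (s - 1) / 4), wnd (3 + 4 * (t - 3) / 4)) = (x, y, z)
      rw [← hsy', ← htz']
      have e1 : 1 + 4 * (s - 1) / 4 = s := by ring
      have e2 : 3 + 4 * (t - 3) / 4 = t := by ring
      rw [e1, e2]

theorem NTA_rho_cont : Continuous rho := by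
  unfold rho
  fun_prop

theorem NTA_rho_T3 : MapsTo rho T3 T3 := fun x hx => ⟨hx.2.2, hx.1, hx.2.1⟩

theorem NTA_rho3 (x : V6) : rho (rho (rho x)) = x := rfl

theorem NTA_rho_inj : Function.Injective rho := by
  intro x y h
  rw [← NTA_rho3 x, h, NTA_rho3]

theorem NTA_rho_aff : ∃ A : V6 →ᵃ[ℝ] V6, ∀ x, A x = rho x :=
  ⟨(((LinearMap.snd ℝ V2 V2).comp (LinearMap.snd ℝ V2 (V2 × V2))).prod
    ((LinearMap.fst ℝ V2 (V2 × V2)).prod
      ((LinearMap.fst ℝ V2 V2).comp (LinearMap.snd ℝ V2 (V2 × V2))))).toAffineMap, fun _ => rfl⟩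

theorem NTA_rho_tube {ι : V2 × V2 → V6} (h : Tube gam 2 T3 ι) :
    Tube gam 2 T3 (fun q => rho (ι q)) where
  pl := by
    obtain ⟨A, hA⟩ := NTA_rho_aff
    exact (h.pl.affine_comp A).congr fun q _ => hA _
  inj := fun p hp q hq he => h.inj hp hq (NTA_rho_inj he)
  maps := fun p hp => NTA_rho_T3 (h.maps hp)
  nhd := by
    intro p hp
    have h1 := h.nhd p hp
    have hc : Continuous fun x => rho (rho x) := NTA_rho_cont.comp NTA_rho_cont
    have h2 : Filter.Tendsto (fun x => rho (rho x)) (𝓝[T3] (rho (ι p))) (𝓝[T3] (ι p)) :=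
      hc.continuousWithinAt.tendsto_nhdsWithin fun x hx => NTA_rho_T3 (NTA_rho_T3 hx)
    refine Filter.mem_of_superset (h2 h1) ?_
    rintro y ⟨q, hq, hqy⟩
    refine ⟨q, hq, ?_⟩
    show rho (ι q) = y
    rw [hqy, NTA_rho3]

theorem NTA_t0 (z u : V2) : tub3 ((z, 0), u) = tub0 (z, u) := by
  unfold tub3
  rw [if_pos rfl]

theorem NTA_t1 (z u : V2) : tub3 ((z, 1), u) = rho (tub0 (z, u)) := by
  unfold tub3
  rw [if_neg (by norm_num), if_pos rfl]

theorem NTA_t2 (z u : V2) : tub3 ((z, 2), u) = rho (rho (tub0 (z, u))) := by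
  unfold tub3
  rw [if_neg (by norm_num), if_neg (by norm_num)]

/-- the two arcs are disjoint -/
theorem NTA_arcs {z : V2} (h1 : z ∈ wnd '' Icc (1 / 2) (3 / 2)) (h2 : z ∈ wnd '' Icc (5 / 2) (7 / 2)) :
    False := by
  obtain ⟨s, hs, rfl⟩ := h1
  obtain ⟨t, ht, he⟩ := h2
  have h3 := wnd_injOn (a := 0) (b := 4) (by norm_num) ⟨by linarith [ht.1], by linarith [ht.2]⟩
    ⟨by linarith [hs.1], by linarith [hs.2]⟩ he
  linarith [ht.1, hs.2]

theorem NTA_mem0 {q : V2 × V2} (hq : q ∈ gam ×ˢ closedBall (0 : V2) 2) :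
    (tub0 q).2.1 ∈ wnd '' Icc (1 / 2) (3 / 2) ∧ (tub0 q).2.2 ∈ wnd '' Icc (5 / 2) (7 / 2) := by
  have h1 := (NTA_cball (by norm_num) q.2).1 hq.2
  have h2 := abs_le.1 h1.1
  have h3 := abs_le.1 h1.2
  exact ⟨⟨_, ⟨by linarith, by linarith⟩, rfl⟩, ⟨_, ⟨by linarith, by linarith⟩, rfl⟩⟩

theorem NTA_d01 {q q' : V2 × V2} (hq : q ∈ gam ×ˢ closedBall (0 : V2) 2)
    (hq' : q' ∈ gam ×ˢ closedBall (0 : V2) 2) (h : tub0 q = rho (tub0 q')) : False := by
  have h1 := (NTA_mem0 hq).2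
  have h2 := (NTA_mem0 hq').1
  have h3 : (tub0 q).2.2 = (tub0 q').2.1 := congrArg (fun x : V6 => x.2.2) h
  rw [h3] at h1
  exact NTA_arcs h2 h1

theorem NTA_d02 {q q' : V2 × V2} (hq : q ∈ gam ×ˢ closedBall (0 : V2) 2)
    (hq' : q' ∈ gam ×ˢ closedBall (0 : V2) 2) (h : tub0 q = rho (rho (tub0 q'))) : False := by
  have h1 := (NTA_mem0 hq).1
  have h2 := (NTA_mem0 hq').2
  have h3 : (tub0 q).2.1 = (tub0 q').2.2 := congrArg (fun x : V6 => x.2.1) h
  rw [h3] at h1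
  exact NTA_arcs h1 h2

theorem tub3_tube : Tube (gam ×ˢ J3) 2 T3 tub3 := by
  have h := Tube.finite (P := gam) (k := 2) (X := T3) NTA_fin
    (ι := fun j q => tub3 ((q.1, j), q.2)) ?_ ?_
  · exact h
  · intro j hj
    rcases hj with rfl | rfl | hj
    · have h1 : (fun q : V2 × V2 => tub3 ((q.1, 0), q.2)) = tub0 := funext fun q => NTA_t0 q.1 q.2
      show Tube gam 2 T3 (fun q : V2 × V2 => tub3 ((q.1, 0), q.2))
      rw [h1]
      exact NTA_tub0
    · have h1 : (fun q : V2 × V2 => tub3 ((q.1, 1), q.2)) = fun q => rho (tub0 q) :=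
        funext fun q => NTA_t1 q.1 q.2
      show Tube gam 2 T3 (fun q : V2 × V2 => tub3 ((q.1, 1), q.2))
      rw [h1]
      exact NTA_rho_tube NTA_tub0
    · have hj' : j = 2 := hj
      subst hj'
      have h1 : (fun q : V2 × V2 => tub3 ((q.1, 2), q.2)) = fun q => rho (rho (tub0 q)) :=
        funext fun q => NTA_t2 q.1 q.2
      show Tube gam 2 T3 (fun q : V2 × V2 => tub3 ((q.1, 2), q.2))
      rw [h1]
      exact NTA_rho_tube (NTA_rho_tube NTA_tub0)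
  · intro j hj j' hj' hne
    rw [Set.disjoint_left]
    rintro x ⟨q, hq, hqx⟩ ⟨q', hq', hqx'⟩
    have h1 : tub3 ((q.1, j), q.2) = tub3 ((q'.1, j'), q'.2) := hqx.trans hqx'.symm
    rcases hj with rfl | rfl | hj
    · rcases hj' with rfl | rfl | hj'
      · exact hne rfl
      · rw [NTA_t0, NTA_t1] at h1
        exact NTA_d01 hq hq' h1
      · have hj2 : j' = 2 := hj'
        rw [hj2, NTA_t0, NTA_t2] at h1
        exact NTA_d02 hq hq' h1
    · rcases hj' with rfl | rfl | hj'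
      · rw [NTA_t0, NTA_t1] at h1
        exact NTA_d01 hq' hq h1.symm
      · exact hne rfl
      · have hj2 : j' = 2 := hj'
        rw [hj2, NTA_t1, NTA_t2] at h1
        exact NTA_d01 hq hq' (NTA_rho_inj h1)
    · have hj1 : j = 2 := hj
      rcases hj' with rfl | rfl | hj'
      · rw [hj1, NTA_t2, NTA_t0] at h1
        exact NTA_d02 hq' hq h1.symm
      · rw [hj1, NTA_t2, NTA_t1] at h1
        exact NTA_d01 hq' hq (NTA_rho_inj h1).symm
      · have hj2 : j' = 2 := hj'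
        exact hne (hj1.trans hj2.symm)

theorem NTA_m0 (y : V6) : (∃ z ∈ gam, ∃ u ∈ ball (0 : V2) 1, tub0 (z, u) = y) ↔
    (y.1 ∈ gam ∧ y.2.1 ∈ ar1 ∧ y.2.2 ∈ ar3) := by
  constructor
  · rintro ⟨z, hz, u, hu, rfl⟩
    have h1 := (NTA_ball one_pos u).1 hu
    have h2 := abs_lt.1 h1.1
    have h3 := abs_lt.1 h1.2
    exact ⟨hz, ⟨_, ⟨by linarith, by linarith⟩, rfl⟩, ⟨_, ⟨by linarith, by linarith⟩, rfl⟩⟩
  · obtain ⟨x, y, w⟩ := y
    rintro ⟨hx, ⟨s, hs, hsy⟩, t, ht, htw⟩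
    have hsy' : wnd s = y := hsy
    have htw' : wnd t = w := htw
    refine ⟨x, hx, ![4 * (s - 1), 4 * (t - 3)], ?_, ?_⟩
    · rw [NTA_ball one_pos]
      constructor
      · show |4 * (s - 1)| < 1
        rw [abs_lt]
        constructor
        · linarith [hs.1, hs.2]
        · linarith [hs.1, hs.2]
      · show |4 * (t - 3)| < 1
        rw [abs_lt]
        constructor
        · linarith [ht.1, ht.2]
        · linarith [ht.1, ht.2]
    · show (x, wnd (1 + 4 * (s - 1) / 4), wnd (3 + 4 * (t - 3) / 4)) = (x, y, w)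
      rw [← hsy', ← htw']
      have e1 : 1 + 4 * (s - 1) / 4 = s := by ring
      have e2 : 3 + 4 * (t - 3) / 4 = t := by ring
      rw [e1, e2]

theorem mem_tub3 (x : V6) : x ∈ tub3 '' ((gam ×ˢ J3) ×ˢ ball (0 : V2) 1) ↔
    (x.1 ∈ gam ∧ x.2.1 ∈ ar1 ∧ x.2.2 ∈ ar3) ∨ (x.2.1 ∈ gam ∧ x.2.2 ∈ ar1 ∧ x.1 ∈ ar3) ∨
      (x.2.2 ∈ gam ∧ x.1 ∈ ar1 ∧ x.2.1 ∈ ar3) := by
  constructor
  · rintro ⟨⟨⟨z, j⟩, u⟩, ⟨⟨hz, hj⟩, hu⟩, rfl⟩
    have hj' : j = 0 ∨ j = 1 ∨ j = 2 := hj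
    have h0 := (NTA_m0 (tub0 (z, u))).1 ⟨z, hz, u, hu, rfl⟩
    rcases hj' with rfl | rfl | rfl
    · rw [NTA_t0]
      exact Or.inl h0
    · rw [NTA_t1]
      exact Or.inr (Or.inl h0)
    · rw [NTA_t2]
      exact Or.inr (Or.inr h0)
  · rintro (h | h | h)
    · obtain ⟨z, hz, u, hu, he⟩ := (NTA_m0 x).2 h
      refine ⟨((z, 0), u), ⟨⟨hz, Or.inl rfl⟩, hu⟩, ?_⟩
      rw [NTA_t0, he]
    · obtain ⟨z, hz, u, hu, he⟩ := (NTA_m0 (rho (rho x))).2 h
      refine ⟨((z, 1), u), ⟨⟨hz, Or.inr (Or.inl rfl)⟩, hu⟩, ?_⟩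
      rw [NTA_t1, he, NTA_rho3]
    · obtain ⟨z, hz, u, hu, he⟩ := (NTA_m0 (rho x)).2 h
      refine ⟨((z, 2), u), ⟨⟨hz, Or.inr (Or.inr rfl)⟩, hu⟩, ?_⟩
      rw [NTA_t2, he, NTA_rho3]

theorem rho_A3 : MapsTo rho A3 A3 := by
  intro x hx
  refine ⟨NTA_rho_T3 hx.1, fun h => hx.2 ?_⟩
  rw [mem_tub3] at h ⊢
  rcases h with h | h | h
  · exact Or.inr (Or.inr h)
  · exact Or.inl h
  · exact Or.inr (Or.inl h)

end Pool.H54.UB

end S_NTA

section S_EVC

/-!
# Row EVC: evaluation data with an index type and a distinguished cube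

`EvC m N R`: like `EvalData m N R`, the pieces are `A a`, `a` in a finite index type, with local
primitives `φ i a`; moreover a PL cube `κ` in `N` disjoint from the distinguished piece `A o` on which all
`φ i a` are locally constant.

* `restrict`: pieces `D.A a ∩ Y`, everything else unchanged (`IsPoly.inter`; `D.A D.o ∩ Y = D.A D.o`).
* `map`: transport by a linear equivalence `L`: pieces `L '' D.A a`, functions composed with `L.symm`
  (`PLOn.comp_affine` / `IsPoly.image_affine` for `L` as an affine map).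
* `toEvalData`: `P` is the image of `A`; for `S ∈ P` choose the index `o` if `S = A o`, any index with
  `A a = S` otherwise; `φ i S` is `φ i` of that index.
-/

open Set Topology Metric

namespace Pool.H54.UB

variable {E F : Type*} [NormedAddCommGroup E] [NormedSpace ℝ E]
  [NormedAddCommGroup F] [NormedSpace ℝ F]

structure EvC (m : ℕ) (N : Set E) (R : Type*) [CommRing R] where
  ι : Type
  fin : Finite ι
  A : ι → Set E
  poly : ∀ a, IsPoly (A a)
  cover : N = ⋃ a, A a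
  φ : Fin m → ι → E → R
  compat : ∀ i a b, ∀ x ∈ A a ∩ A b, ∃ U ∈ 𝓝 x, ∀ y ∈ U ∩ (A a ∩ A b),
    φ i a y - φ i b y = φ i a x - φ i b x
  o : ι
  y : E → Fin m → ℝ
  pl : PLOn y (A o)
  inj : InjOn y (A o)
  img : y '' A o = {z | ∀ i, 0 ≤ z i ∧ z i ≤ 1}
  nhd : ∀ v ∈ A o, (∀ i, 0 < y v i ∧ y v i < 1) → A o ∈ 𝓝[N] v
  wall : ∀ i, ∀ v ∈ A o, (y v i = 1 → φ i o v = 1) ∧ (y v i ≠ 1 → φ i o v = 0)
  off : ∀ a, a ≠ o → ∃ i, ∀ x ∈ A a, ∀ x' ∈ A a, φ i a x = φ i a x'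
  κ : (Fin m → ℝ) → E
  cube : CubeT m N κ
  lc : ∀ i a, ∀ u ∈ closedBall (0 : Fin m → ℝ) 2, κ u ∈ A a → ∃ U ∈ 𝓝 u,
    ∀ u' ∈ U ∩ closedBall (0 : Fin m → ℝ) 2, κ u' ∈ A a → φ i a (κ u') = φ i a (κ u)
  disj : ∀ u ∈ closedBall (0 : Fin m → ℝ) 2, κ u ∉ A o

variable [FiniteDimensional ℝ E] [FiniteDimensional ℝ F]

theorem EvC.restrict {m : ℕ} {N : Set E} {R : Type*} [CommRing R] (D : EvC m N R) {Y : Set E}
    (hY : IsPoly Y) (hYN : Y ⊆ N) (ho : D.A D.o ⊆ Y)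
    (hκ : MapsTo D.κ (closedBall (0 : Fin m → ℝ) 2) Y) :
    ∃ D' : EvC m Y R, D'.ι = D.ι ∧ (∀ v, D'.κ v = D.κ v) ∧ D'.A D'.o = D.A D.o ∧
      ∀ a' : D'.ι, ∃ a : D.ι, D'.A a' = D.A a ∩ Y ∧ ∀ i x, D'.φ i a' x = D.φ i a x := by
  have hoY : D.A D.o ∩ Y = D.A D.o := inter_eq_left.2 ho
  refine ⟨
    { ι := D.ι
      fin := D.fin
      A := fun a => D.A a ∩ Y
      poly := fun a => (D.poly a).inter hY
      cover := ?_
      φ := D.φ
      compat := ?_
      o := D.o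
      y := D.y
      pl := ?_
      inj := D.inj.mono inter_subset_left
      img := ?_
      nhd := ?_
      wall := fun i v hv => D.wall i v hv.1
      off := ?_
      κ := D.κ
      cube := D.cube.mono hYN hκ
      lc := ?_
      disj := fun u hu h => D.disj u hu h.1 }, rfl, fun _ => rfl, hoY, fun a' => ⟨a', rfl, fun _ _ => rfl⟩⟩
  · rw [← iUnion_inter, ← D.cover, inter_eq_right.2 hYN]
  · intro i a b x hx
    obtain ⟨U, hU, h⟩ := D.compat i a b x ⟨hx.1.1, hx.2.1⟩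
    exact ⟨U, hU, fun z hz => h z ⟨hz.1, hz.2.1.1, hz.2.2.1⟩⟩
  · rw [hoY]
    exact D.pl
  · rw [hoY]
    exact D.img
  · intro v hv hy
    exact Filter.inter_mem (nhdsWithin_mono v hYN (D.nhd v hv.1 hy)) self_mem_nhdsWithin
  · intro a ha
    obtain ⟨i, hi⟩ := D.off a ha
    exact ⟨i, fun x hx x' hx' => hi x hx.1 x' hx'.1⟩
  · intro i a u hu hua
    obtain ⟨U, hU, h⟩ := D.lc i a u hu hua.1
    exact ⟨U, hU, fun u' hu' hu'a => h u' hu' hu'a.1⟩

theorem EVC_mem (L : E ≃L[ℝ] F) {S : Set E} {x : F} : x ∈ L '' S ↔ L.symm x ∈ S := by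
  constructor
  · rintro ⟨p, hp, rfl⟩
    rw [L.symm_apply_apply]
    exact hp
  · intro h
    exact ⟨L.symm x, h, L.apply_symm_apply x⟩

theorem EVC_nhds (L : E ≃L[ℝ] F) {S N : Set E} {p : E} (h : S ∈ 𝓝[N] p) :
    L '' S ∈ 𝓝[L '' N] (L p) := by
  have h1 : 𝓝[L '' N] (L p) = Filter.map L (𝓝[N] p) :=
    (L.toHomeomorph.isEmbedding.map_nhdsWithin_eq N p).symm
  rw [h1]
  exact Filter.image_mem_map h

theorem EvC.map {m : ℕ} {N : Set E} {R : Type*} [CommRing R] (D : EvC m N R) (L : E ≃L[ℝ] F) :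
    Nonempty (EvC m (L '' N) R) := by
  obtain ⟨A, hA⟩ : ∃ A : E →ᵃ[ℝ] F, ∀ v, A v = L v :=
    ⟨(L : E →ₗ[ℝ] F).toAffineMap, fun _ => rfl⟩
  obtain ⟨B, hB⟩ : ∃ B : F →ᵃ[ℝ] E, ∀ v, B v = L.symm v :=
    ⟨(L.symm : F →ₗ[ℝ] E).toAffineMap, fun _ => rfl⟩
  have hpoly : ∀ S : Set E, IsPoly S → IsPoly (L '' S) := by
    intro S hS
    have h1 := hS.image_affine A
    have h2 : A '' S = L '' S := image_congr fun v _ => hA v
    rwa [h2] at h1
  refine ⟨
    { ι := D.ι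
      fin := D.fin
      A := fun a => L '' D.A a
      poly := fun a => hpoly _ (D.poly a)
      cover := ?_
      φ := fun i a x => D.φ i a (L.symm x)
      compat := ?_
      o := D.o
      y := fun x => D.y (L.symm x)
      pl := ?_
      inj := ?_
      img := ?_
      nhd := ?_
      wall := ?_
      off := ?_
      κ := fun v => L (D.κ v)
      cube := ?_
      lc := ?_
      disj := ?_ }⟩
  · rw [← image_iUnion, ← D.cover]
  · rintro i a b x ⟨hxa, hxb⟩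
    rw [EVC_mem] at hxa hxb
    obtain ⟨U, hU, h⟩ := D.compat i a b (L.symm x) ⟨hxa, hxb⟩
    refine ⟨L.symm ⁻¹' U, L.symm.continuous.continuousAt.preimage_mem_nhds hU, ?_⟩
    rintro z ⟨hz, hza, hzb⟩
    rw [EVC_mem] at hza hzb
    exact h (L.symm z) ⟨hz, hza, hzb⟩
  · have h1 : PLOn B (L '' D.A D.o) := PLOn.affine B (hpoly _ (D.poly D.o))
    have h2 : MapsTo B (L '' D.A D.o) (D.A D.o) := by
      intro x hx
      rw [hB]
      exact (EVC_mem L).1 hx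
    refine (D.pl.comp h1 h2).congr fun x _ => ?_
    show D.y (B x) = D.y (L.symm x)
    rw [hB]
  · intro x hx x' hx' e
    exact L.symm.injective (D.inj ((EVC_mem L).1 hx) ((EVC_mem L).1 hx') e)
  · rw [← D.img, image_image]
    refine image_congr fun v _ => ?_
    rw [L.symm_apply_apply]
  · intro v hv hy
    have h1 := EVC_nhds L (D.nhd (L.symm v) ((EVC_mem L).1 hv) hy)
    rwa [L.apply_symm_apply] at h1
  · intro i v hv
    exact D.wall i (L.symm v) ((EVC_mem L).1 hv)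
  · intro a ha
    obtain ⟨i, hi⟩ := D.off a ha
    exact ⟨i, fun x hx x' hx' => hi _ ((EVC_mem L).1 hx) _ ((EVC_mem L).1 hx')⟩
  · refine ⟨?_, ?_, ?_, ?_⟩
    · refine (D.cube.pl.affine_comp A).congr fun v _ => ?_
      exact hA _
    · intro u hu u' hu' e
      exact D.cube.inj hu hu' (L.injective e)
    · intro u hu
      exact ⟨D.κ u, D.cube.maps hu, rfl⟩
    · intro p hp
      have h1 := EVC_nhds L (D.cube.nhd p hp)
      rwa [image_image] at h1
  · intro i a u hu hua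
    rw [EVC_mem, L.symm_apply_apply] at hua
    obtain ⟨U, hU, h⟩ := D.lc i a u hu hua
    refine ⟨U, hU, fun u' hu' hu'a => ?_⟩
    rw [EVC_mem, L.symm_apply_apply] at hu'a
    show D.φ i a (L.symm (L (D.κ u'))) = D.φ i a (L.symm (L (D.κ u)))
    rw [L.symm_apply_apply, L.symm_apply_apply]
    exact h u' hu' hu'a
  · intro u hu h
    rw [EVC_mem, L.symm_apply_apply] at h
    exact D.disj u hu h

theorem EvC.toEvalData {m : ℕ} {N : Set E} {R : Type*} [CommRing R] (D : EvC m N R) :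
    Nonempty (EvalData m N R) := by
  classical
  have hf : Finite D.ι := D.fin
  obtain ⟨idx, hidx1, hidx2⟩ : ∃ idx : Set E → D.ι, idx (D.A D.o) = D.o ∧
      ∀ a, D.A (idx (D.A a)) = D.A a := by
    refine ⟨fun S => if S = D.A D.o then D.o else
      if h : ∃ a, D.A a = S then h.choose else D.o, ?_, ?_⟩
    · simp only [if_true]
    · intro a
      by_cases h : D.A a = D.A D.o
      · simp only [if_pos h]
        exact h.symm
      · have h2 : ∃ b, D.A b = D.A a := ⟨a, rfl⟩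
        simp only [if_neg h, dif_pos h2]
        exact h2.choose_spec
  have hfr : (range D.A).Finite := finite_range D.A
  have hP : ∀ S, S ∈ hfr.toFinset ↔ ∃ a, D.A a = S := fun S => by
    rw [Set.Finite.mem_toFinset, mem_range]
  have hP2 : ∀ S, S ∈ hfr.toFinset → D.A (idx S) = S := by
    intro S hS
    obtain ⟨a, rfl⟩ := (hP S).1 hS
    exact hidx2 a
  refine ⟨
    { P := hfr.toFinset
      poly := ?_
      cover := ?_
      φ := fun i S => D.φ i (idx S)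
      compat := ?_
      P₀ := D.A D.o
      mem₀ := (hP _).2 ⟨D.o, rfl⟩
      y := D.y
      pl := D.pl
      inj := D.inj
      img := D.img
      nhd := D.nhd
      wall := ?_
      off := ?_ }⟩
  · intro S hS
    obtain ⟨a, rfl⟩ := (hP S).1 hS
    exact D.poly a
  · refine D.cover.trans ?_
    ext x
    rw [mem_iUnion, mem_iUnion₂]
    constructor
    · rintro ⟨a, ha⟩
      exact ⟨D.A a, (hP _).2 ⟨a, rfl⟩, ha⟩
    · rintro ⟨S, hS, hx⟩
      obtain ⟨a, rfl⟩ := (hP S).1 hS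
      exact ⟨a, hx⟩
  · intro i S hS T hT x hx
    have e1 := hP2 S hS
    have e2 := hP2 T hT
    have h := D.compat i (idx S) (idx T) x (by rw [e1, e2]; exact hx)
    rw [e1, e2] at h
    exact h
  · intro i v hv
    show (D.y v i = 1 → D.φ i (idx (D.A D.o)) v = 1) ∧ (D.y v i ≠ 1 → D.φ i (idx (D.A D.o)) v = 0)
    rw [hidx1]
    exact D.wall i v hv
  · intro S hS hne
    have e1 := hP2 S hS
    have h1 : idx S ≠ D.o := by
      intro e
      apply hne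
      rw [← e1, e]
    obtain ⟨i, hi⟩ := D.off (idx S) h1
    rw [e1] at hi
    exact ⟨i, hi⟩

end Pool.H54.UB

end S_EVC

section S_GLU

/-!
# Row GLU: PL extension and abstract gluing

* `pl_extend`: triangulate `A` adapted to `D` and to the pieces of `f` on `D` (`PLOn.pieces`, `triang`);
  `g x = ∑_v β_v x • g₀ v` over the vertices, `β` from `GC.bary`, `g₀ v = f v` if `v ∈ D`, else `0`.
  On a face contained in a piece of `D` on which `f` is affine all vertices are in `D`, so `g = f`.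
  `g` is affine on every face: PL (`PLOn.of_pieces`).
* `pl_bump`: triangulate `A` adapted to `D`;
  `u x = max over the faces τ with convexHull τ ⊄ D of (min over v ∈ τ of β_v x)` (`0` if there is no such
  face).  If `x ∉ D` its carrier `τ` is such a face and the minimum is positive.  If `x ∈ D` and `τ` is
  such a face, then `τ` is not contained in the carrier `s` of `x` (`convexHull s ⊆ D`), so there is
  `v ∈ τ` with `β_v x = 0`.  PL by `PLOn.sup'`, `PLOn.inf'`, and `β_v` is affine on the faces.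
* `glue_embed`: `jA x = (x, Φ x, u_A x)`, `jB y = (Ψ y, y, - u_B y)`, `Ψ` extends `φ` from `D_B` to `B`, `Φ`
  extends the inverse of `φ` (`PLOn.symm`) from `D_A` to `A`; `u_A, u_B` bumps vanishing exactly on `D_A`,
  `D_B`.  If `jA x = jB y` then `u_A x = - u_B y`, so both are `0`, `x ∈ D_A`, `y ∈ D_B`, `x = Ψ y = φ y`.
* `glue_mfd`: for `x` in the image of `A \ D_A`: `jA(A) ∪ jB(B)` agrees with `jA(A)` near `jA x` (`jB(B)` is
  closed and does not contain it): `IntPt.image`, `IntPt.congr_nhds`.  On the common boundary: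
  `BdPt.image` for both sides and `BdPt.glue`.
-/

open Set Topology

namespace Pool.H54.UB

variable {E F : Type*} [NormedAddCommGroup E] [NormedSpace ℝ E] [FiniteDimensional ℝ E]
  [NormedAddCommGroup F] [NormedSpace ℝ F] [FiniteDimensional ℝ F]

/-- affine maps and convex combinations -/
theorem GLU_affcomb (A : E →ᵃ[ℝ] F) (s : Finset E) (w : E → ℝ) (h1 : ∑ u ∈ s, w u = 1) :
    A (∑ u ∈ s, w u • u) = ∑ u ∈ s, w u • A u := by
  have hA : ∀ x, A x = A.linear x + A 0 := by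
    intro x
    have := A.decomp
    exact congrFun this x
  rw [hA, map_sum]
  have h2 : ∀ u ∈ s, w u • A u = A.linear (w u • u) + w u • A 0 := by
    intro u _
    rw [hA u, smul_add, map_smul]
  rw [Finset.sum_congr rfl h2, Finset.sum_add_distrib, ← Finset.sum_smul, h1, one_smul]

theorem GLU_sum {ι : Type*} (s : Finset ι) {f : ι → E → F} {X : Set E} (hX : IsPoly X)
    (h : ∀ i ∈ s, PLOn (f i) X) : PLOn (fun x => ∑ i ∈ s, f i x) X := by
  classical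
  induction s using Finset.induction_on with
  | empty =>
    refine (PLOn.const hX (0 : F)).congr ?_
    intro x _
    simp
  | insert i s hi ih =>
    have h1 := (h i (Finset.mem_insert_self i s)).add
      (ih (fun j hj => h j (Finset.mem_insert_of_mem hj)))
    refine h1.congr ?_
    intro x _
    simp [Finset.sum_insert hi]

theorem GLU_plOn (K : GC E) {f : E → F}
    (h : ∀ s ∈ K.faces, AffOn f (convexHull ℝ (s : Set E))) : PLOn f K.space := by
  have h1 := PLOn.of_pieces (f := f) K.fin.toFinset (fun s hs => h s (K.fin.mem_toFinset.1 hs))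
  have h2 : (⋃ s ∈ K.fin.toFinset, convexHull ℝ (s : Set E)) = K.space := by
    unfold GC.space
    ext x
    simp
  rwa [h2] at h1

theorem pl_extend {A D : Set E} (hA : IsPoly A) (hDA : D ⊆ A) {f : E → F} (hf : PLOn f D) :
    ∃ g : E → F, PLOn g A ∧ EqOn g f D := by
  classical
  obtain ⟨S, hS, hS2⟩ := hf.pieces
  obtain ⟨K, hK, hK2⟩ := triang A hA (S.image (fun s : Finset E => convexHull ℝ (s : Set E))) (by
    intro B hB
    obtain ⟨s, hs, rfl⟩ := Finset.mem_image.1 hB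
    refine ⟨IsPoly.hull s, ?_⟩
    refine Subset.trans ?_ hDA
    rw [hS]
    exact subset_biUnion_of_mem (u := fun s : Finset E => convexHull ℝ (s : Set E)) hs)
  obtain ⟨β, -, h0, hpos, hsum, haff⟩ := K.bary
  obtain ⟨V, hV⟩ : ∃ V : Finset E, ∀ v, v ∈ V ↔ v ∈ K.verts :=
    ⟨K.verts_finite.toFinset, fun v => K.verts_finite.mem_toFinset⟩
  refine ⟨fun x => ∑ v ∈ V, β v x • (if v ∈ D then f v else 0), ?_, ?_⟩
  · refine GLU_sum V hA (fun v _ => ?_)
    have h1 : PLOn (β v) A := by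
      rw [← hK]
      exact GLU_plOn K (fun s hs => haff s hs v)
    exact h1.affine_comp
      (LinearMap.toSpanSingleton ℝ F (if v ∈ D then f v else 0)).toAffineMap
  · intro x hx
    have hxA : x ∈ K.space := by rw [hK]; exact hDA hx
    obtain ⟨t, ht⟩ := K.exists_carrier' hxA
    have hx' := hx
    rw [hS] at hx'
    obtain ⟨s₀, hs₀, hxs⟩ := mem_iUnion₂.1 hx'
    have hsub : convexHull ℝ (t : Set E) ⊆ convexHull ℝ (s₀ : Set E) :=
      GC.adapted_iff.1 (hK2 _ (Finset.mem_image_of_mem _ hs₀)) x t ht hxs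
    obtain ⟨B, hB⟩ := (hS2 s₀ hs₀).2.2
    obtain ⟨e1, e2⟩ := hsum x t ht
    have htV : t ⊆ V := fun v hv => (hV v).2 ⟨t, ht.1, hv⟩
    have h3 : (∑ v ∈ V, β v x • (if v ∈ D then f v else 0)) =
        ∑ v ∈ t, β v x • (if v ∈ D then f v else 0) := by
      symm
      refine Finset.sum_subset htV (fun v _ hv => ?_)
      have h4 : β v x = 0 := by
        by_contra hne
        exact hv ((hpos v x t ht).1 (lt_of_le_of_ne (h0 v x) (Ne.symm hne)))
      rw [h4, zero_smul]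
    change (∑ v ∈ V, β v x • (if v ∈ D then f v else 0)) = f x
    rw [h3, hB hxs]
    conv_rhs => rw [← e2]
    rw [GLU_affcomb B t (fun v => β v x) e1]
    refine Finset.sum_congr rfl (fun v hv => ?_)
    have hv1 : v ∈ convexHull ℝ (s₀ : Set E) := hsub (subset_convexHull ℝ _ hv)
    have hv2 : v ∈ D := by
      rw [hS]
      exact mem_iUnion₂.2 ⟨s₀, hs₀, hv1⟩
    rw [if_pos hv2, hB hv1]

theorem pl_bump {A D : Set E} (hA : IsPoly A) (hD : IsPoly D) (hDA : D ⊆ A) :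
    ∃ u : E → ℝ, PLOn u A ∧ (∀ x ∈ A, 0 ≤ u x) ∧ ∀ x ∈ A, u x = 0 ↔ x ∈ D := by
  classical
  obtain ⟨K, hK, hK2⟩ := triang A hA {D} (by
    intro B hB
    rw [Finset.mem_singleton] at hB
    subst hB
    exact ⟨hD, hDA⟩)
  have hKD := hK2 D (Finset.mem_singleton_self D)
  obtain ⟨β, -, h0, hpos, hsum, haff⟩ := K.bary
  obtain ⟨T, hT⟩ : ∃ T : Finset (Finset E), ∀ τ, τ ∈ T ↔
      τ ∈ K.faces ∧ ¬ convexHull ℝ (τ : Set E) ⊆ D :=
    ⟨K.fin.toFinset.filter (fun τ => ¬ convexHull ℝ (τ : Set E) ⊆ D), fun τ => by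
      rw [Finset.mem_filter, K.fin.mem_toFinset]⟩
  obtain ⟨m, hm⟩ : ∃ m : Finset E → E → ℝ, ∀ (τ : Finset E) (hτ : τ.Nonempty) (x : E),
      m τ x = τ.inf' hτ (fun v => β v x) :=
    ⟨fun τ x => if h : τ.Nonempty then τ.inf' h (fun v => β v x) else 0, fun τ hτ x => by
      simp only [dif_pos hτ]⟩
  have hm0 : ∀ τ ∈ T, ∀ x, 0 ≤ m τ x := by
    intro τ hτ x
    rw [hm τ (K.ne τ ((hT τ).1 hτ).1) x]
    exact Finset.le_inf' _ _ (fun v _ => h0 v x)
  refine ⟨fun x => ∑ τ ∈ T, m τ x, ?_, fun x _ => Finset.sum_nonneg (fun τ hτ => hm0 τ hτ x), ?_⟩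
  · refine GLU_sum T hA (fun τ hτ => ?_)
    have hne := K.ne τ ((hT τ).1 hτ).1
    refine (PLOn.inf' τ hne (f := β) (X := A) (fun v _ => ?_)).congr ?_
    · rw [← hK]
      exact GLU_plOn K (fun s hs => haff s hs v)
    · intro x _
      exact (hm τ hne x).symm
  · intro x hx
    have hxA : x ∈ K.space := by rw [hK]; exact hx
    obtain ⟨t, ht⟩ := K.exists_carrier' hxA
    constructor
    · intro hu
      by_contra hxD
      have htT : t ∈ T := (hT t).2 ⟨ht.1, fun hsub => hxD (hsub ht.mem_hull)⟩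
      have hmt : 0 < m t x := by
        rw [hm t (K.ne t ht.1) x, Finset.lt_inf'_iff]
        intro v hv
        exact (hpos v x t ht).2 hv
      have : 0 < ∑ τ ∈ T, m τ x :=
        Finset.sum_pos' (fun τ hτ => hm0 τ hτ x) ⟨t, htT, hmt⟩
      exact this.ne' hu
    · intro hxD
      have hsub : convexHull ℝ (t : Set E) ⊆ D := GC.adapted_iff.1 hKD x t ht hxD
      refine Finset.sum_eq_zero (fun τ hτ => ?_)
      have hτ2 : ¬ τ ⊆ t := by
        intro hst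
        refine ((hT τ).1 hτ).2 (Subset.trans ?_ hsub)
        exact convexHull_mono (Finset.coe_subset.2 hst)
      obtain ⟨v, hv, hvt⟩ := Finset.not_subset.1 hτ2
      have h4 : β v x = 0 := by
        by_contra hne
        exact hvt ((hpos v x t ht).1 (lt_of_le_of_ne (h0 v x) (Ne.symm hne)))
      refine le_antisymm ?_ (hm0 τ hτ x)
      rw [hm τ (K.ne τ ((hT τ).1 hτ).1) x, ← h4]
      exact Finset.inf'_le (fun v => β v x) hv

theorem glue_embed {A DA : Set E} {B DB : Set F} (hA : IsPoly A) (hB : IsPoly B)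
    (hDA : IsPoly DA) (hDB : IsPoly DB) (hAs : DA ⊆ A) (hBs : DB ⊆ B) {φ : F → E}
    (hφ : PLOn φ DB) (hi : InjOn φ DB) (him : φ '' DB = DA) :
    ∃ (jA : E → E × F × ℝ) (jB : F → E × F × ℝ), PLOn jA A ∧ InjOn jA A ∧ PLOn jB B ∧ InjOn jB B ∧
      (∀ y ∈ DB, jA (φ y) = jB y) ∧ (∀ x ∈ A, ∀ y ∈ B, jA x = jB y → y ∈ DB ∧ x = φ y) := by
  obtain ⟨Ψ, hΨ, hΨe⟩ := pl_extend hB hBs hφ
  have hsym : PLOn (Function.invFunOn φ DB) DA := by
    have := hφ.symm hi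
    rwa [him] at this
  obtain ⟨Φ, hΦ, hΦe⟩ := pl_extend hA hAs hsym
  obtain ⟨u, hu, hu0, huz⟩ := pl_bump hA hDA hAs
  obtain ⟨w, hw, hw0, hwz⟩ := pl_bump hB hDB hBs
  refine ⟨fun x => (x, Φ x, u x), fun y => (Ψ y, y, - w y), ?_, ?_, ?_, ?_, ?_, ?_⟩
  · exact (PLOn.id hA).prodMk (hΦ.prodMk hu)
  · intro x _ y _ hxy
    exact congrArg Prod.fst hxy
  · refine hΨ.prodMk ((PLOn.id hB).prodMk ?_)
    refine (hw.const_smul (-1)).congr ?_
    intro y _
    simp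
  · intro x _ y _ hxy
    exact congrArg (fun p : E × F × ℝ => p.2.1) hxy
  · intro y hy
    have hyA : φ y ∈ DA := by rw [← him]; exact mem_image_of_mem _ hy
    have e1 : Ψ y = φ y := hΨe hy
    have e2 : Φ (φ y) = y := by
      rw [hΦe hyA]
      exact hi.leftInvOn_invFunOn hy
    have e3 : u (φ y) = 0 := (huz _ (hAs hyA)).2 hyA
    have e4 : w y = 0 := (hwz _ (hBs hy)).2 hy
    simp only [e1, e2, e3, e4, neg_zero]
  · intro x hx y hy hxy
    have e1 : x = Ψ y := congrArg Prod.fst hxy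
    have e3 : u x = - w y := congrArg (fun p : E × F × ℝ => p.2.2) hxy
    have hx0 := hu0 x hx
    have hy0 := hw0 y hy
    have hwy : w y = 0 := by linarith
    have hyD : y ∈ DB := (hwz y hy).1 hwy
    exact ⟨hyD, by rw [e1, hΨe hyD]⟩

theorem glue_mfd {n : ℕ} {A DA : Set E} {B DB : Set F} (hA : IsPoly A) (hB : IsPoly B)
    (hDA : IsPoly DA) (hDB : IsPoly DB) (hAs : DA ⊆ A) (hBs : DB ⊆ B)
    (hAi : ∀ x ∈ A \ DA, IntPt (n + 1) A x) (hAb : ∀ x ∈ DA, BdPt n A DA x)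
    (hBi : ∀ x ∈ B \ DB, IntPt (n + 1) B x) (hBb : ∀ x ∈ DB, BdPt n B DB x)
    {φ : F → E} (hφ : PLOn φ DB) (hi : InjOn φ DB) (him : φ '' DB = DA) :
    ∃ (jA : E → E × F × ℝ) (jB : F → E × F × ℝ), PLOn jA A ∧ InjOn jA A ∧ PLOn jB B ∧ InjOn jB B ∧
      (∀ y ∈ DB, jA (φ y) = jB y) ∧ (∀ x ∈ A, ∀ y ∈ B, jA x = jB y → y ∈ DB ∧ x = φ y) ∧
      IsClosedPLManifold (n + 1) (jA '' A ∪ jB '' B) := by
  obtain ⟨jA, jB, h1, h2, h3, h4, h5, h6⟩ := glue_embed hA hB hDA hDB hAs hBs hφ hi him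
  refine ⟨jA, jB, h1, h2, h3, h4, h5, h6, h1.image.union h3.image, ?_⟩
  have hclA : IsClosed (jA '' A) := h1.image.isCompact.isClosed
  have hclB : IsClosed (jB '' B) := h3.image.isCompact.isClosed
  have hDD : jB '' DB = jA '' DA := by
    rw [← him, image_image]
    refine image_congr (fun y hy => (h5 y hy).symm)
  have hbd : ∀ y ∈ DB, IntPt (n + 1) (jA '' A ∪ jB '' B) (jB y) := by
    intro y hy
    have hyA : φ y ∈ DA := by rw [← him]; exact mem_image_of_mem _ hy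
    have k1 := (hAb (φ y) hyA).image h1 h2 hAs
    have k2 := (hBb y hy).image h3 h4 hBs
    rw [h5 y hy] at k1
    rw [hDD] at k2
    refine k1.glue k2 ?_
    apply Subset.antisymm
    · rintro p ⟨⟨x, hx, rfl⟩, ⟨z, hz, hxz⟩⟩
      obtain ⟨hz1, hz2⟩ := h6 x hx z hz hxz.symm
      refine mem_image_of_mem _ ?_
      rw [hz2, ← him]
      exact mem_image_of_mem _ hz1
    · rintro p hp
      refine ⟨image_mono hAs hp, ?_⟩
      rw [← hDD] at hp
      exact image_mono hBs hp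
  have key : ∀ p ∈ jA '' A ∪ jB '' B, IntPt (n + 1) (jA '' A ∪ jB '' B) p := by
    rintro p (⟨x, hx, rfl⟩ | ⟨y, hy, rfl⟩)
    · by_cases hxD : x ∈ DA
      · rw [← him] at hxD
        obtain ⟨y, hy, rfl⟩ := hxD
        rw [h5 y hy]
        exact hbd y hy
      · have k := (hAi x ⟨hx, hxD⟩).image h1 h2 hx
        have hnot : jA x ∈ (jB '' B)ᶜ := by
          rintro ⟨z, hz, hzx⟩
          obtain ⟨hz1, hz2⟩ := h6 x hx z hz hzx.symm
          apply hxD
          rw [hz2, ← him]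
          exact mem_image_of_mem _ hz1
        refine k.congr_nhds (hclB.isOpen_compl.mem_nhds hnot) ?_
        rw [union_inter_distrib_right, inter_compl_self, union_empty]
    · by_cases hyD : y ∈ DB
      · exact hbd y hyD
      · have k := (hBi y ⟨hy, hyD⟩).image h3 h4 hy
        have hnot : jB y ∈ (jA '' A)ᶜ := by
          rintro ⟨x, hx, hxy⟩
          exact hyD (h6 x hx y hy hxy).1
        refine k.congr_nhds (hclA.isOpen_compl.mem_nhds hnot) ?_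
        rw [union_inter_distrib_right, inter_compl_self, empty_union]
  intro p hp
  exact key p hp

end Pool.H54.UB

end S_GLU

section S_EVG

/-!
# Row EVG: gluing evaluation data

`Glued A B DB φ jA jB H`: `jA`, `jB` are PL embeddings of `A`, `B` into `H` whose images meet exactly
along `jB '' DB`, where `jB = jA ∘ φ`.
`EvB`: pieces and local primitives on `B`, without distinguished piece.

Construction on `jA '' A ∪ jB '' B`: index type `D.ι ⊕ D'.ι`, pieces `jA '' D.A a`, `jB '' D'.A b`, functions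
`D.φ i a ∘ (inverse of jA)`, `D'.φ i b ∘ (inverse of jB)` (`Function.invFunOn jA A`, continuous on the
compact image); `o`, `y`, `κ` from `D` (`y ∘ inverse of jA`, PL by `PLOn.symm`, `PLOn.comp`; `κ' = jA ∘ κ`).
* compat on two pieces of `A`: transport through the homeomorphism `jA`; same for `B`; mixed: a point of
  `jA '' D.A a ∩ jB '' D'.A b` is `jB y = jA (φ y)`, `y ∈ DB`: the hypothesis `cross`, transported by the
  homeomorphism `jB` (both signs: `a - b` and `b - a`).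
* nhd: `jA '' D.A o` is a neighbourhood of `jA v` in `jA '' A` (`emb_nhds`), and `jB '' B` is closed and does
  not contain `jA v` (`v ∉ φ '' DB` by `ho`), so it is a neighbourhood in the union.
* cube: same argument with `hκ`.
-/

open Set Topology Metric

namespace Pool.H54.UB

variable {E F H : Type*} [NormedAddCommGroup E] [NormedSpace ℝ E]
  [NormedAddCommGroup F] [NormedSpace ℝ F]
  [NormedAddCommGroup H] [NormedSpace ℝ H]

structure Glued (A : Set E) (B DB : Set F) (φ : F → E) (jA : E → H) (jB : F → H) : Prop where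
  plA : PLOn jA A
  injA : InjOn jA A
  plB : PLOn jB B
  injB : InjOn jB B
  sub : DB ⊆ B
  maps : MapsTo φ DB A
  plφ : PLOn φ DB
  comm : ∀ y ∈ DB, jA (φ y) = jB y
  sep : ∀ x ∈ A, ∀ y ∈ B, jA x = jB y → y ∈ DB ∧ x = φ y

structure EvB (m : ℕ) (N : Set E) (R : Type*) [CommRing R] where
  ι : Type
  fin : Finite ι
  A : ι → Set E
  poly : ∀ a, IsPoly (A a)
  cover : N = ⋃ a, A a
  φ : Fin m → ι → E → R
  compat : ∀ i a b, ∀ x ∈ A a ∩ A b, ∃ U ∈ 𝓝 x, ∀ y ∈ U ∩ (A a ∩ A b),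
    φ i a y - φ i b y = φ i a x - φ i b x
  off : ∀ a, ∃ i, ∀ x ∈ A a, ∀ x' ∈ A a, φ i a x = φ i a x'

variable [FiniteDimensional ℝ E] [FiniteDimensional ℝ F] [FiniteDimensional ℝ H]

omit [FiniteDimensional ℝ E] [FiniteDimensional ℝ H] in
theorem EVG_tr {K : Set E} (hK : IsCompact K) {j : E → H} (hc : ContinuousOn j K)
    (hi : InjOn j K) {gj : H → E} (hg : ∀ x ∈ K, gj (j x) = x) {p : E} (hp : p ∈ K) {U : Set E}
    (hU : U ∈ 𝓝 p) : ∃ W ∈ 𝓝 (j p), ∀ z ∈ W, z ∈ j '' K → gj z ∈ U := by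
  have h1 := emb_nhds hK hc hi hp (mem_nhdsWithin_of_mem_nhds hU)
  obtain ⟨O, hO, hpO, hOV⟩ := mem_nhdsWithin.1 h1
  refine ⟨O, hO.mem_nhds hpO, fun z hz hzK => ?_⟩
  obtain ⟨q, ⟨hqU, hqK⟩, rfl⟩ := hOV ⟨hz, hzK⟩
  rw [hg q hqK]
  exact hqU

omit [FiniteDimensional ℝ E] [FiniteDimensional ℝ F] [FiniteDimensional ℝ H] in
theorem EVG_sub {ι : Type*} {N : Set E} {A : ι → Set E} (h : N = ⋃ a, A a) (a : ι) : A a ⊆ N := by
  rw [h]
  exact subset_iUnion A a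

omit [FiniteDimensional ℝ E] [FiniteDimensional ℝ F] in
theorem EVG_nhds {X : Type*} [TopologicalSpace X] {P Q V : Set X} {x : X} (hQ : IsClosed Q)
    (hx : x ∉ Q) (hV : V ∈ 𝓝[P] x) : V ∈ 𝓝[P ∪ Q] x := by
  rw [nhdsWithin_union]
  refine Filter.mem_sup.2 ⟨hV, ?_⟩
  have h1 : 𝓝[Q] x = ⊥ := by
    rw [← notMem_closure_iff_nhdsWithin_eq_bot, hQ.closure_eq]
    exact hx
  rw [h1]
  exact Filter.mem_bot

theorem Glued.evc {m : ℕ} {R : Type*} [CommRing R] {A : Set E} {B DB : Set F} {φ : F → E}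
    {jA : E → H} {jB : F → H} (g : Glued A B DB φ jA jB) (hDB : IsPoly DB) (D : EvC m A R)
    (D' : EvB m B R)
    (cross : ∀ i a b, ∀ y ∈ DB, y ∈ D'.A b → φ y ∈ D.A a → ∃ U ∈ 𝓝 y, ∀ y' ∈ U ∩ DB,
      y' ∈ D'.A b → φ y' ∈ D.A a →
      D.φ i a (φ y') - D'.φ i b y' = D.φ i a (φ y) - D'.φ i b y)
    (ho : ∀ y ∈ DB, φ y ∉ D.A D.o)
    (hκ : ∀ u ∈ closedBall (0 : Fin m → ℝ) 2, D.κ u ∉ φ '' DB) :
    Nonempty (EvC m (jA '' A ∪ jB '' B) R) := by
  classical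
  set gA : H → E := Function.invFunOn jA A with hgA
  set gB : H → F := Function.invFunOn jB B with hgB
  have lA : ∀ x ∈ A, gA (jA x) = x := fun x hx => g.injA.leftInvOn_invFunOn hx
  have lB : ∀ x ∈ B, gB (jB x) = x := fun x hx => g.injB.leftInvOn_invFunOn hx
  have cA : IsCompact A := g.plA.domain.isCompact
  have cB : IsCompact B := g.plB.domain.isCompact
  have subA : ∀ a, D.A a ⊆ A := EVG_sub D.cover
  have subB : ∀ b, D'.A b ⊆ B := EVG_sub D'.cover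
  have clB : IsClosed (jB '' B) := (cB.image_of_continuousOn g.plB.continuousOn).isClosed
  have mixed : ∀ i a b, ∀ x, x ∈ jA '' D.A a → x ∈ jB '' D'.A b → ∃ U ∈ 𝓝 x, ∀ y ∈ U,
      y ∈ jA '' D.A a → y ∈ jB '' D'.A b →
      D.φ i a (gA y) - D'.φ i b (gB y) = D.φ i a (gA x) - D'.φ i b (gB x) := by
    rintro i a b x ⟨p, hp, rfl⟩ ⟨q, hq, hqp⟩
    obtain ⟨hqD, hpq⟩ := g.sep p (subA a hp) q (subB b hq) hqp.symm
    obtain ⟨U, hU, hU2⟩ := cross i a b q hqD hq (hpq ▸ hp)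
    obtain ⟨W, hW, hW2⟩ := EVG_tr cB g.plB.continuousOn g.injB lB (subB b hq) hU
    rw [hqp] at hW
    refine ⟨W, hW, ?_⟩
    rintro y hy ⟨p', hp', rfl⟩ ⟨q', hq', hqp'⟩
    obtain ⟨hqD', hpq'⟩ := g.sep p' (subA a hp') q' (subB b hq') hqp'.symm
    have e1 := hW2 (jA p') hy ⟨q', subB b hq', hqp'⟩
    have e2 : gB (jA p') = q' := by rw [← hqp', lB q' (subB b hq')]
    have e3 : gB (jA p) = q := by rw [← hqp, lB q (subB b hq)]
    rw [e2] at e1
    rw [e2, e3, lA p' (subA a hp'), lA p (subA a hp)]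
    have e4 := hU2 q' ⟨e1, hqD'⟩ hq' (hpq' ▸ hp')
    rw [← hpq, ← hpq'] at e4
    exact e4
  have poA : IsPoly (jA '' D.A D.o) := g.plA.image_poly (D.poly D.o) (subA D.o)
  have plgA : PLOn gA (jA '' D.A D.o) :=
    (g.plA.of_leftInv lA).mono poA (image_mono (subA D.o))
  haveI := D.fin
  haveI := D'.fin
  refine ⟨{ ι := D.ι ⊕ D'.ι
            fin := inferInstance
            A := Sum.elim (fun a => jA '' D.A a) (fun b => jB '' D'.A b)
            poly := ?_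
            cover := ?_
            φ := fun i => Sum.elim (fun a z => D.φ i a (gA z)) (fun b z => D'.φ i b (gB z))
            compat := ?_
            o := Sum.inl D.o
            y := fun z => D.y (gA z)
            pl := ?_
            inj := ?_
            img := ?_
            nhd := ?_
            wall := ?_
            off := ?_
            κ := fun u => jA (D.κ u)
            cube := ?_
            lc := ?_
            disj := ?_ }⟩
  · rintro (a | b)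
    · exact g.plA.image_poly (D.poly a) (subA a)
    · exact g.plB.image_poly (D'.poly b) (subB b)
  · rw [iUnion_sum]
    simp only [Sum.elim_inl, Sum.elim_inr]
    rw [← image_iUnion, ← image_iUnion, ← D.cover, ← D'.cover]
  · rintro i (a | a) (b | b) x ⟨hxa, hxb⟩
    · obtain ⟨p, hp, rfl⟩ := hxa
      obtain ⟨q, hq, hqp⟩ := hxb
      have hpq : q = p := g.injA (subA b hq) (subA a hp) hqp
      rw [hpq] at hq
      obtain ⟨U, hU, hU2⟩ := D.compat i a b p ⟨hp, hq⟩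
      obtain ⟨W, hW, hW2⟩ := EVG_tr cA g.plA.continuousOn g.injA lA (subA a hp) hU
      refine ⟨W, hW, ?_⟩
      rintro y ⟨hyW, ⟨p', hp', rfl⟩, ⟨q', hq', hqp'⟩⟩
      have hpq' : q' = p' := g.injA (subA b hq') (subA a hp') hqp'
      rw [hpq'] at hq'
      have e1 := hW2 (jA p') hyW ⟨p', subA a hp', rfl⟩
      rw [lA p' (subA a hp')] at e1
      have e2 := hU2 p' ⟨e1, hp', hq'⟩
      simp only [Sum.elim_inl]
      rw [lA p' (subA a hp'), lA p (subA a hp)]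
      exact e2
    · obtain ⟨U, hU, hU2⟩ := mixed i a b x hxa hxb
      exact ⟨U, hU, fun y hy => hU2 y hy.1 hy.2.1 hy.2.2⟩
    · obtain ⟨U, hU, hU2⟩ := mixed i b a x hxb hxa
      refine ⟨U, hU, fun y hy => ?_⟩
      have e := hU2 y hy.1 hy.2.2 hy.2.1
      simp only [Sum.elim_inl, Sum.elim_inr]
      linear_combination -e
    · obtain ⟨p, hp, rfl⟩ := hxa
      obtain ⟨q, hq, hqp⟩ := hxb
      have hpq : q = p := g.injB (subB b hq) (subB a hp) hqp
      rw [hpq] at hq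
      obtain ⟨U, hU, hU2⟩ := D'.compat i a b p ⟨hp, hq⟩
      obtain ⟨W, hW, hW2⟩ := EVG_tr cB g.plB.continuousOn g.injB lB (subB a hp) hU
      refine ⟨W, hW, ?_⟩
      rintro y ⟨hyW, ⟨p', hp', rfl⟩, ⟨q', hq', hqp'⟩⟩
      have hpq' : q' = p' := g.injB (subB b hq') (subB a hp') hqp'
      rw [hpq'] at hq'
      have e1 := hW2 (jB p') hyW ⟨p', subB a hp', rfl⟩
      rw [lB p' (subB a hp')] at e1
      have e2 := hU2 p' ⟨e1, hp', hq'⟩
      simp only [Sum.elim_inr]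
      rw [lB p' (subB a hp'), lB p (subB a hp)]
      exact e2
  · refine D.pl.comp plgA ?_
    rintro _ ⟨p, hp, rfl⟩
    rw [lA p (subA D.o hp)]
    exact hp
  · rintro _ ⟨p, hp, rfl⟩ _ ⟨q, hq, rfl⟩ he
    simp only [lA p (subA D.o hp), lA q (subA D.o hq)] at he
    rw [D.inj hp hq he]
  · rw [← D.img]
    simp only [Sum.elim_inl]
    rw [image_image]
    exact image_congr fun p hp => by rw [lA p (subA D.o hp)]
  · rintro _ ⟨p, hp, rfl⟩ hv
    simp only [lA p (subA D.o hp)] at hv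
    have h1 := D.nhd p hp hv
    have h2 := emb_nhds cA g.plA.continuousOn g.injA (subA D.o hp) h1
    refine EVG_nhds clB ?_ (Filter.mem_of_superset h2 (image_mono inter_subset_left))
    rintro ⟨q, hq, hqp⟩
    obtain ⟨hqD, hpq⟩ := g.sep p (subA D.o hp) q hq hqp.symm
    exact ho q hqD (hpq ▸ hp)
  · rintro i _ ⟨p, hp, rfl⟩
    simp only [Sum.elim_inl, lA p (subA D.o hp)]
    exact D.wall i p hp
  · rintro (a | b) hne
    · obtain ⟨i, hi⟩ := D.off a (fun h => hne (by rw [h]))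
      refine ⟨i, ?_⟩
      rintro _ ⟨p, hp, rfl⟩ _ ⟨q, hq, rfl⟩
      simp only [Sum.elim_inl, lA p (subA a hp), lA q (subA a hq)]
      exact hi p hp q hq
    · obtain ⟨i, hi⟩ := D'.off b
      refine ⟨i, ?_⟩
      rintro _ ⟨p, hp, rfl⟩ _ ⟨q, hq, rfl⟩
      simp only [Sum.elim_inr, lB p (subB b hp), lB q (subB b hq)]
      exact hi p hp q hq
  · refine ⟨?_, ?_, ?_, ?_⟩
    · exact g.plA.comp D.cube.pl D.cube.maps
    · intro p hp q hq he
      exact D.cube.inj hp hq (g.injA (D.cube.maps hp) (D.cube.maps hq) he)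
    · intro p hp
      exact Or.inl ⟨D.κ p, D.cube.maps hp, rfl⟩
    · intro p hp
      have hpC := ball_subset_closedBall hp
      have h1 := D.cube.nhd p hp
      have h2 := emb_nhds cA g.plA.continuousOn g.injA (D.cube.maps hpC) h1
      refine EVG_nhds clB ?_ (Filter.mem_of_superset h2 ?_)
      · rintro ⟨q, hq, hqp⟩
        obtain ⟨hqD, hpq⟩ := g.sep _ (D.cube.maps hpC) q hq hqp.symm
        exact hκ p hpC ⟨q, hqD, hpq.symm⟩
      · rintro _ ⟨_, ⟨⟨u, hu, rfl⟩, -⟩, rfl⟩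
        exact ⟨u, hu, rfl⟩
  · rintro i (a | b) u hu hua
    · obtain ⟨p, hp, hpu⟩ := hua
      have hpu' : p = D.κ u := g.injA (subA a hp) (D.cube.maps hu) hpu
      rw [hpu'] at hp
      obtain ⟨U, hU, hU2⟩ := D.lc i a u hu hp
      refine ⟨U, hU, ?_⟩
      rintro u' hu' ⟨q, hq, hqu⟩
      have hqu' : q = D.κ u' := g.injA (subA a hq) (D.cube.maps hu'.2) hqu
      rw [hqu'] at hq
      simp only [Sum.elim_inl, lA _ (subA a hp), lA _ (subA a hq)]
      exact hU2 u' hu' hq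
    · exfalso
      obtain ⟨q, hq, hqp⟩ := hua
      obtain ⟨hqD, hpq⟩ := g.sep _ (D.cube.maps hu) q (subB b hq) hqp.symm
      exact hκ u hu ⟨q, hqD, hpq.symm⟩
  · rintro u hu ⟨p, hp, hpu⟩
    have hpu' : p = D.κ u := g.injA (subA D.o hp) (D.cube.maps hu) hpu
    rw [hpu'] at hp
    exact D.disj u hu hp

end Pool.H54.UB

end S_EVG

section S_TOR

/-!
# Row TOR: linear automorphisms of the torus `gam × gam`

`T (z, z') = (wnd (a θ + b θ'), wnd (c θ + d θ'))` with `θ = ang z`, `θ' = ang z'`.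
* `T (wnd s, wnd t) = (wnd (a s + b t), wnd (c s + d t))` by `ang_wnd`, `wnd_per` (integers `a b c d`).
* PL: the graph over `gam × gam` is the image of `[0,8]^2` under the PL map
  `(s, t) ↦ ((wnd s, wnd t), (wnd (a s + b t), wnd (c s + d t)))` (`PLOn.comp` of `wnd_pl` on a large
  interval with an affine map, `PLOn.prodMk`).
* bijective with inverse the map of the inverse matrix `[d, -b; -c, a]`.
-/

open Set Topology

namespace Pool.H54.UB

theorem TOR_form (a b : ℝ) : ∃ L : ℝ × ℝ →ᵃ[ℝ] ℝ, ∀ p, L p = a * p.1 + b * p.2 :=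
  ⟨(a • LinearMap.fst ℝ ℝ ℝ + b • LinearMap.snd ℝ ℝ ℝ).toAffineMap, fun _ => rfl⟩

theorem TOR_pl (a b : ℝ) : PLOn (fun p : ℝ × ℝ => wnd (a * p.1 + b * p.2))
    (Icc (0 : ℝ) 8 ×ˢ Icc (0 : ℝ) 8) := by
  obtain ⟨L, hL⟩ := TOR_form a b
  have h1 : PLOn L (Icc (0 : ℝ) 8 ×ˢ Icc (0 : ℝ) 8) :=
    PLOn.affine L ((isPoly_Icc 0 8).prod (isPoly_Icc 0 8))
  have h2 : MapsTo L (Icc (0 : ℝ) 8 ×ˢ Icc (0 : ℝ) 8)
      (Icc (-(8 * (|a| + |b|))) (8 * (|a| + |b|))) := by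
    rintro ⟨s, t⟩ ⟨hs, ht⟩
    change s ∈ Icc (0 : ℝ) 8 at hs
    change t ∈ Icc (0 : ℝ) 8 at ht
    rw [hL]
    have h3 : |a * s| ≤ 8 * |a| := by
      rw [abs_mul, abs_of_nonneg hs.1]
      nlinarith [abs_nonneg a, hs.2]
    have h4 : |b * t| ≤ 8 * |b| := by
      rw [abs_mul, abs_of_nonneg ht.1]
      nlinarith [abs_nonneg b, ht.2]
    have h5 := abs_le.1 h3
    have h6 := abs_le.1 h4
    constructor
    · show -(8 * (|a| + |b|)) ≤ a * s + b * t
      linarith [h5.1, h6.1]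
    · show a * s + b * t ≤ 8 * (|a| + |b|)
      linarith [h5.2, h6.2]
  refine ((wnd_pl _ _).comp h1 h2).congr fun p _ => ?_
  show wnd (L p) = _
  rw [hL]

theorem torus_map (a b c d : ℤ) :
    ∃ T : V2 × V2 → V2 × V2, PLOn T (gam ×ˢ gam) ∧
      ∀ s t : ℝ, T (wnd s, wnd t) = (wnd (a * s + b * t), wnd (c * s + d * t)) := by
  obtain ⟨T, hT⟩ : ∃ T : V2 × V2 → V2 × V2, ∀ z z', T (z, z') =
      (wnd (a * ang z + b * ang z'), wnd (c * ang z + d * ang z')) :=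
    ⟨fun p => (wnd (a * ang p.1 + b * ang p.2), wnd (c * ang p.1 + d * ang p.2)),
      fun _ _ => rfl⟩
  have h2 : ∀ s t : ℝ, T (wnd s, wnd t) = (wnd (a * s + b * t), wnd (c * s + d * t)) := by
    intro s t
    obtain ⟨k, hk⟩ := ang_wnd s
    obtain ⟨l, hl⟩ := ang_wnd t
    rw [hT, hk, hl]
    have e1 : (a : ℝ) * (s + 8 * k) + b * (t + 8 * l) =
        (a * s + b * t) + 8 * ((a * k + b * l : ℤ) : ℝ) := by
      push_cast
      ring
    have e2 : (c : ℝ) * (s + 8 * k) + d * (t + 8 * l) =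
        (c * s + d * t) + 8 * ((c * k + d * l : ℤ) : ℝ) := by
      push_cast
      ring
    rw [e1, e2, wnd_per, wnd_per]
  refine ⟨T, ?_, h2⟩
  have hG : PLOn (fun p : ℝ × ℝ => ((wnd p.1, wnd p.2),
      (wnd (a * p.1 + b * p.2), wnd (c * p.1 + d * p.2)))) (Icc (0 : ℝ) 8 ×ˢ Icc (0 : ℝ) 8) := by
    have e1 : PLOn (fun p : ℝ × ℝ => wnd p.1) (Icc (0 : ℝ) 8 ×ˢ Icc (0 : ℝ) 8) :=
      (TOR_pl 1 0).congr fun p _ => by simp
    have e2 : PLOn (fun p : ℝ × ℝ => wnd p.2) (Icc (0 : ℝ) 8 ×ˢ Icc (0 : ℝ) 8) :=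
      (TOR_pl 0 1).congr fun p _ => by simp
    exact (e1.prodMk e2).prodMk ((TOR_pl a b).prodMk (TOR_pl c d))
  have hset : (fun x => (x, T x)) '' (gam ×ˢ gam) = (fun p : ℝ × ℝ => ((wnd p.1, wnd p.2),
      (wnd (a * p.1 + b * p.2), wnd (c * p.1 + d * p.2)))) '' (Icc (0 : ℝ) 8 ×ˢ Icc (0 : ℝ) 8) := by
    apply Subset.antisymm
    · rintro _ ⟨⟨z, z'⟩, ⟨hz, hz'⟩, rfl⟩
      have h3 := ang_mem hz
      have h4 := ang_mem hz'
      refine ⟨(ang z, ang z'), ⟨⟨h3.1.1, h3.1.2.le⟩, ⟨h4.1.1, h4.1.2.le⟩⟩, ?_⟩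
      show ((wnd (ang z), wnd (ang z')), _) = ((z, z'), T (z, z'))
      rw [h3.2, h4.2, hT]
    · rintro _ ⟨⟨s, t⟩, -, rfl⟩
      refine ⟨(wnd s, wnd t), ⟨wnd_mem s, wnd_mem t⟩, ?_⟩
      show ((wnd s, wnd t), T (wnd s, wnd t)) = _
      rw [h2]
  unfold PLOn
  rw [hset]
  exact hG.image

theorem torus_auto (a b c d : ℤ) (h : a * d - b * c = 1) :
    ∃ T T' : V2 × V2 → V2 × V2, PLOn T (gam ×ˢ gam) ∧ InjOn T (gam ×ˢ gam) ∧
      T '' (gam ×ˢ gam) = gam ×ˢ gam ∧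
      (∀ s t : ℝ, T (wnd s, wnd t) = (wnd (a * s + b * t), wnd (c * s + d * t))) ∧
      PLOn T' (gam ×ˢ gam) ∧ (∀ p ∈ gam ×ˢ gam, T' (T p) = p ∧ T (T' p) = p ∧
        T' p ∈ gam ×ˢ gam) ∧
      (∀ s t : ℝ, T' (wnd s, wnd t) = (wnd (d * s - b * t), wnd (- c * s + a * t))) := by
  obtain ⟨T, hT1, hT2⟩ := torus_map a b c d
  obtain ⟨T', hT1', hT2'⟩ := torus_map d (-b) (-c) a
  have h' : (a : ℝ) * d - b * c = 1 := by exact_mod_cast h
  have hT3 : ∀ s t : ℝ, T' (wnd s, wnd t) = (wnd (d * s - b * t), wnd (- c * s + a * t)) := by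
    intro s t
    rw [hT2']
    push_cast
    congr 2
    ring
  have hmaps : ∀ p ∈ gam ×ˢ gam, T p ∈ gam ×ˢ gam := by
    rintro ⟨z, z'⟩ ⟨hz, hz'⟩
    obtain ⟨s, -, rfl⟩ := wnd_surj 0 hz
    obtain ⟨t, -, rfl⟩ := wnd_surj 0 hz'
    rw [hT2]
    exact ⟨wnd_mem _, wnd_mem _⟩
  have hinv : ∀ p ∈ gam ×ˢ gam, T' (T p) = p ∧ T (T' p) = p ∧ T' p ∈ gam ×ˢ gam := by
    rintro ⟨z, z'⟩ ⟨hz, hz'⟩
    obtain ⟨s, -, rfl⟩ := wnd_surj 0 hz
    obtain ⟨t, -, rfl⟩ := wnd_surj 0 hz'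
    refine ⟨?_, ?_, ?_⟩
    · rw [hT2, hT3]
      congr 2
      · linear_combination s * h'
      · linear_combination t * h'
    · rw [hT3, hT2]
      congr 2
      · linear_combination s * h'
      · linear_combination t * h'
    · rw [hT3]
      exact ⟨wnd_mem _, wnd_mem _⟩
  refine ⟨T, T', hT1, ?_, ?_, hT2, hT1', hinv, hT3⟩
  · intro p hp q hq e
    rw [← (hinv p hp).1, ← (hinv q hq).1, e]
  · apply Subset.antisymm
    · rintro _ ⟨p, hp, rfl⟩
      exact hmaps p hp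
    · intro p hp
      exact ⟨T' p, (hinv p hp).2.2, (hinv p hp).2.1⟩

end Pool.H54.UB

end S_TOR

section S_NTB

/-!
# Row NTB: the base manifold (Dehn filling of the 3-torus minus three tubes)

`T` is the automorphism of `gam × gam` of `torus_auto`.
`B3 = (gam × J3) × closedBall 0 1`, `DB3 = (gam × J3) × gam`,
`phi3 T ((z, j), w) = tub3 ((z', j), w')`, `(z', w') = T (z, w)`.

* manifold: `A3`: `Tube.poly_remove`, `Tube.bdpt` (`j = 1`, `k = 1`), `Tube.intpt` for `tub3_tube`;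
  `DA = tub3 '' (.. × sphere 0 1)`, `gam = sphere 0 1`.  `B3`: `IntPt.prod_bd` with `bdpt_ball 1`,
  `IntPt.prod` with `intpt_of_interior`; `gam × J3` is a closed 1-manifold (`J3_mfd`).
  `phi3 T` is PL, injective with image `DA` because `T` is a PL bijection of `gam × gam`.  `glue_mfd`.
* connected: `connected_remove_finite`: if `X' = X \ tubes` were the union of two disjoint nonempty
  relatively closed sets `U`, `V`, each connected set `tub '' ((gam × {j}) × sphere)` lies in one of them; add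
  the closed tube to that one: a separation of `X`.  (`X' ` nonempty.)  Each `jB '' ((gam × {j}) × ..)` is
  connected and meets `jA '' A3`.
-/

open Set Topology Metric

namespace Pool.H54.UB

variable {E G : Type*} [NormedAddCommGroup E] [NormedSpace ℝ E] [FiniteDimensional ℝ E]
  [NormedAddCommGroup G] [NormedSpace ℝ G] [FiniteDimensional ℝ G]

def B3 : Set ((V2 × ℝ) × V2) := (gam ×ˢ J3) ×ˢ closedBall (0 : V2) 1

def DB3 : Set ((V2 × ℝ) × V2) := (gam ×ˢ J3) ×ˢ gam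

noncomputable def phi3 (T : V2 × V2 → V2 × V2) (q : (V2 × ℝ) × V2) : V6 :=
  tub3 (((T (q.1.1, q.2)).1, q.1.2), (T (q.1.1, q.2)).2)

theorem NTB_poly {J : Set ℝ} (hJ : J.Finite) : IsPoly J := by
  have h := IsPoly.biUnion hJ (X := fun j : ℝ => ({j} : Set ℝ)) fun j _ => IsPoly.singleton j
  have h2 : (⋃ i ∈ J, ({i} : Set ℝ)) = J := by
    ext x
    simp
  rwa [h2] at h

theorem NTB_closed {Q : Set G} {k : ℕ} {X : Set E} {ι : G × (Fin k → ℝ) → E}
    (h : Tube Q k X ι) (hQ : IsPoly Q) (hXc : IsClosed X) :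
    IsClosed (X \ ι '' (Q ×ˢ ball (0 : Fin k → ℝ) 1)) := by
  rw [← closure_subset_iff_isClosed]
  intro y hy
  have hyX : y ∈ X := closure_minimal (fun x hx => hx.1) hXc hy
  refine ⟨hyX, ?_⟩
  rintro ⟨p, hp, rfl⟩
  have h1 := h.isOpen_ball hQ (r := 1) (by norm_num) hp
  obtain ⟨O, hO, hpO, hsub⟩ := mem_nhdsWithin.1 h1
  obtain ⟨x, hxO, hxA⟩ := mem_closure_iff.1 hy O hO hpO
  exact hxA.2 (hsub ⟨hxO, hxA.1⟩)

theorem Tube.connected_remove_finite {P : Set G} {k : ℕ} {X : Set E} {J : Set ℝ}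
    (hJ : J.Finite) (hJne : J.Nonempty) {ι : (G × ℝ) × (Fin k → ℝ) → E}
    (h : Tube (P ×ˢ J) k X ι) (hP : IsPoly P) (hX : IsConnected X) (hXc : IsClosed X)
    (hS : IsConnected (P ×ˢ sphere (0 : Fin k → ℝ) 1)) :
    IsConnected (X \ ι '' ((P ×ˢ J) ×ˢ ball (0 : Fin k → ℝ) 1)) := by
  have hQ : IsPoly (P ×ˢ J) := hP.prod (NTB_poly hJ)
  have hAc := NTB_closed h hQ hXc
  set A := X \ ι '' ((P ×ˢ J) ×ˢ ball (0 : Fin k → ℝ) 1) with hA
  obtain ⟨f, hf⟩ : ∃ f : ℝ → G × (Fin k → ℝ) → E, ∀ j q, f j q = ι ((q.1, j), q.2) :=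
    ⟨fun j q => ι ((q.1, j), q.2), fun _ _ => rfl⟩
  have hfc : ∀ j ∈ J, ContinuousOn (f j) (P ×ˢ closedBall (0 : Fin k → ℝ) 2) := by
    intro j hj
    have h1 : Continuous fun q : G × (Fin k → ℝ) => ((q.1, j), q.2) := by fun_prop
    have h2 : ContinuousOn (fun q : G × (Fin k → ℝ) => ι ((q.1, j), q.2))
        (P ×ˢ closedBall (0 : Fin k → ℝ) 2) :=
      h.pl.continuousOn.comp h1.continuousOn fun q hq => ⟨⟨hq.1, hj⟩, hq.2⟩
    exact h2.congr fun q _ => hf j q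
  have hsub : P ×ˢ sphere (0 : Fin k → ℝ) 1 ⊆ P ×ˢ closedBall (0 : Fin k → ℝ) 2 :=
    prod_mono le_rfl (sphere_subset_closedBall.trans (closedBall_subset_closedBall one_le_two))
  have hsub1 : P ×ˢ closedBall (0 : Fin k → ℝ) 1 ⊆ P ×ˢ closedBall (0 : Fin k → ℝ) 2 :=
    prod_mono le_rfl (closedBall_subset_closedBall one_le_two)
  have hinj : ∀ j ∈ J, ∀ j' ∈ J, ∀ q ∈ P ×ˢ closedBall (0 : Fin k → ℝ) 2,
      ∀ q' ∈ P ×ˢ closedBall (0 : Fin k → ℝ) 2, f j q = f j' q' → j = j' ∧ q = q' := by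
    intro j hj j' hj' q hq q' hq' he
    rw [hf, hf] at he
    have h1 := h.inj (show ((q.1, j), q.2) ∈ (P ×ˢ J) ×ˢ closedBall (0 : Fin k → ℝ) 2 from
      ⟨⟨hq.1, hj⟩, hq.2⟩) (show ((q'.1, j'), q'.2) ∈ (P ×ˢ J) ×ˢ closedBall (0 : Fin k → ℝ) 2 from
      ⟨⟨hq'.1, hj'⟩, hq'.2⟩) he
    have e1 : q.1 = q'.1 := congrArg (fun z : (G × ℝ) × (Fin k → ℝ) => z.1.1) h1
    have e2 : j = j' := congrArg (fun z : (G × ℝ) × (Fin k → ℝ) => z.1.2) h1
    have e3 : q.2 = q'.2 := congrArg (fun z : (G × ℝ) × (Fin k → ℝ) => z.2) h1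
    exact ⟨e2, Prod.ext e1 e3⟩
  set S : ℝ → Set E := fun j => f j '' (P ×ˢ sphere (0 : Fin k → ℝ) 1) with hSdef
  set T : ℝ → Set E := fun j => f j '' (P ×ˢ closedBall (0 : Fin k → ℝ) 1) with hTdef
  have hSc : ∀ j ∈ J, IsConnected (S j) := fun j hj => hS.image _ ((hfc j hj).mono hsub)
  have hTc : ∀ j ∈ J, IsClosed (T j) := fun j hj =>
    ((hP.isCompact.prod (isCompact_closedBall _ _)).image_of_continuousOn
      ((hfc j hj).mono hsub1)).isClosed
  have hSA : ∀ j ∈ J, S j ⊆ A := by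
    rintro j hj _ ⟨q, hq, rfl⟩
    refine ⟨?_, ?_⟩
    · rw [hf]
      exact h.maps ⟨⟨hq.1, hj⟩, (hsub hq).2⟩
    · rintro ⟨⟨⟨z, j'⟩, u⟩, ⟨⟨hz, hj'⟩, hu⟩, he⟩
      have hu2 : u ∈ closedBall (0 : Fin k → ℝ) 2 :=
        closedBall_subset_closedBall one_le_two (ball_subset_closedBall hu)
      have h1 := hinj j' hj' j hj (z, u) ⟨hz, hu2⟩ q (hsub hq) (by rw [hf]; exact he)
      have h2 : u = q.2 := congrArg Prod.snd h1.2
      have h3 := mem_sphere_zero_iff_norm.1 hq.2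
      rw [← h2] at h3
      have h4 := mem_ball_zero_iff.1 hu
      rw [h3] at h4
      exact lt_irrefl _ h4
  have hAT : ∀ j ∈ J, ∀ y ∈ A, y ∈ T j → y ∈ S j := by
    rintro j hj y hyA ⟨q, hq, rfl⟩
    refine ⟨q, ⟨hq.1, mem_sphere_zero_iff_norm.2 (le_antisymm (mem_closedBall_zero_iff.1 hq.2) ?_)⟩,
      rfl⟩
    by_contra hlt
    refine hyA.2 ⟨((q.1, j), q.2), ⟨⟨hq.1, hj⟩, mem_ball_zero_iff.2 (not_le.1 hlt)⟩, ?_⟩
    rw [hf]
  have hXAT : ∀ y ∈ X, y ∈ A ∨ ∃ j ∈ J, y ∈ T j := by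
    intro y hy
    by_cases hyb : y ∈ ι '' ((P ×ˢ J) ×ˢ ball (0 : Fin k → ℝ) 1)
    · obtain ⟨⟨⟨z, j⟩, u⟩, ⟨⟨hz, hj⟩, hu⟩, he⟩ := hyb
      refine Or.inr ⟨j, hj, (z, u), ⟨hz, ball_subset_closedBall hu⟩, ?_⟩
      rw [hf]
      exact he
    · exact Or.inl ⟨hy, hyb⟩
  refine ⟨?_, ?_⟩
  · obtain ⟨j, hj⟩ := hJne
    exact (hSc j hj).nonempty.mono (hSA j hj)
  rw [isPreconnected_closed_iff]
  intro t t' ht ht' hAtt hAt hAt'
  by_contra hempty
  have hno : ∀ y ∈ A, y ∈ t → y ∉ t' := fun y hy h1 h2 => hempty ⟨y, hy, h1, h2⟩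
  have hfin1 : {j | j ∈ J ∧ (S j ∩ t).Nonempty}.Finite := hJ.subset fun j hj => hj.1
  have hfin2 : {j | j ∈ J ∧ ¬ (S j ∩ t).Nonempty}.Finite := hJ.subset fun j hj => hj.1
  have h1 := isPreconnected_closed_iff.1 hX.isPreconnected
    ((A ∩ t) ∪ ⋃ j ∈ {j | j ∈ J ∧ (S j ∩ t).Nonempty}, T j)
    ((A ∩ t') ∪ ⋃ j ∈ {j | j ∈ J ∧ ¬ (S j ∩ t).Nonempty}, T j)
    ((hAc.inter ht).union (hfin1.isClosed_biUnion fun j hj => hTc j hj.1))
    ((hAc.inter ht').union (hfin2.isClosed_biUnion fun j hj => hTc j hj.1))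
    (by
      intro y hy
      rcases hXAT y hy with hyA | ⟨j, hj, hyT⟩
      · rcases hAtt hyA with h2 | h2
        · exact Or.inl (Or.inl ⟨hyA, h2⟩)
        · exact Or.inr (Or.inl ⟨hyA, h2⟩)
      · by_cases hjt : (S j ∩ t).Nonempty
        · exact Or.inl (Or.inr (mem_iUnion₂.2 ⟨j, ⟨hj, hjt⟩, hyT⟩))
        · exact Or.inr (Or.inr (mem_iUnion₂.2 ⟨j, ⟨hj, hjt⟩, hyT⟩)))
    (by
      obtain ⟨y, hy, hyt⟩ := hAt
      exact ⟨y, hy.1, Or.inl ⟨hy, hyt⟩⟩)
    (by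
      obtain ⟨y, hy, hyt⟩ := hAt'
      exact ⟨y, hy.1, Or.inl ⟨hy, hyt⟩⟩)
  obtain ⟨y, _, hy1, hy2⟩ := h1
  rcases hy1 with ⟨hyA, hyt⟩ | hyT
  · rcases hy2 with ⟨_, hyt'⟩ | hyT'
    · exact hno y hyA hyt hyt'
    · obtain ⟨j, ⟨hj, hjt⟩, hyj⟩ := mem_iUnion₂.1 hyT'
      exact hjt ⟨y, hAT j hj y hyA hyj, hyt⟩
  · obtain ⟨j, ⟨hj, hjt⟩, hyj⟩ := mem_iUnion₂.1 hyT
    rcases hy2 with ⟨hyA, hyt'⟩ | hyT'
    · have hyS := hAT j hj y hyA hyj
      obtain ⟨z, hz, hzz⟩ := isPreconnected_closed_iff.1 (hSc j hj).isPreconnected t t' ht ht'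
        ((hSA j hj).trans hAtt) hjt ⟨y, hyS, hyt'⟩
      exact hno z (hSA j hj hz) hzz.1 hzz.2
    · obtain ⟨j', ⟨hj', hjt'⟩, hyj'⟩ := mem_iUnion₂.1 hyT'
      obtain ⟨q, hq, hqy⟩ := hyj
      obtain ⟨q', hq', hqy'⟩ := hyj'
      have h2 := hinj j hj j' hj' q (hsub1 hq) q' (hsub1 hq') (hqy.trans hqy'.symm)
      rw [h2.1] at hjt
      exact hjt' hjt

theorem NTB_P : IsPoly (gam ×ˢ J3) := J3_mfd.1

theorem NTB_J3 : J3.Finite := by
  unfold J3
  exact Set.toFinite _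

/-- the boundary of the exterior -/
noncomputable def NTB_DA : Set V6 := tub3 '' ((gam ×ˢ J3) ×ˢ sphere (0 : V2) 1)

theorem NTB_sph : (gam ×ˢ J3) ×ˢ sphere (0 : V2) 1 ⊆ (gam ×ˢ J3) ×ˢ closedBall (0 : V2) 2 :=
  prod_mono le_rfl (sphere_subset_closedBall.trans (closedBall_subset_closedBall one_le_two))

theorem NTB_DA_sub : NTB_DA ⊆ A3 := by
  rintro _ ⟨p, hp, rfl⟩
  refine ⟨tub3_tube.maps (NTB_sph hp), ?_⟩
  rintro ⟨q, hq, he⟩
  have hqp := tub3_tube.inj (show q ∈ (gam ×ˢ J3) ×ˢ closedBall (0 : V2) 2 from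
    ⟨hq.1, closedBall_subset_closedBall one_le_two (ball_subset_closedBall hq.2)⟩) (NTB_sph hp) he
  have h4 := hq.2
  rw [hqp, mem_ball_zero_iff] at h4
  have h5 := mem_sphere_zero_iff_norm.1 hp.2
  rw [h5] at h4
  exact lt_irrefl _ h4

theorem NTB_int {x : V6} (hx : x ∈ A3) (hD : x ∉ NTB_DA) : IntPt 3 A3 x := by
  refine tub3_tube.intpt NTB_P ?_ (T3_mfd.2 x hx.1)
  rintro ⟨p, hp, rfl⟩
  have h1 : ‖p.2‖ ≤ 1 := mem_closedBall_zero_iff.1 hp.2
  rcases h1.lt_or_eq with h2 | h2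
  · exact hx.2 ⟨p, ⟨hp.1, mem_ball_zero_iff.2 h2⟩, rfl⟩
  · exact hD ⟨p, ⟨hp.1, mem_sphere_zero_iff_norm.2 h2⟩, rfl⟩

theorem NTB_bd {x : V6} (hD : x ∈ NTB_DA) : BdPt 2 A3 NTB_DA x := by
  obtain ⟨⟨z, u⟩, hp, rfl⟩ := hD
  exact tub3_tube.bdpt (k := 1) (j := 1) J3_mfd hp.1 (mem_sphere_zero_iff_norm.1 hp.2)

theorem NTB_Bint {x : (V2 × ℝ) × V2} (hx : x ∈ B3) (hD : x ∉ DB3) : IntPt 3 B3 x := by
  obtain ⟨p, u⟩ := x
  have h1 : IntPt 1 (gam ×ˢ J3) p := J3_mfd.2 p hx.1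
  have h2 : ‖u‖ ≤ 1 := mem_closedBall_zero_iff.1 hx.2
  have h3 : ‖u‖ < 1 := by
    rcases h2.lt_or_eq with h | h
    · exact h
    · exact absurd ⟨hx.1, mem_sphere_zero_iff_norm.2 h⟩ hD
  have h4 : IntPt 2 (closedBall (0 : V2) 1) u :=
    intpt_of_interior (by simp) (ball_subset_interior_closedBall (mem_ball_zero_iff.2 h3))
  exact h1.prod h4

theorem NTB_Bbd {x : (V2 × ℝ) × V2} (hD : x ∈ DB3) : BdPt 2 B3 DB3 x := by
  obtain ⟨p, u⟩ := x
  have h1 : IntPt 1 (gam ×ˢ J3) p := J3_mfd.2 p hD.1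
  exact h1.prod_bd (bdpt_ball 1 (mem_sphere_zero_iff_norm.1 hD.2))

theorem NTB_phi_maps {T : V2 × V2 → V2 × V2} (him : T '' (gam ×ˢ gam) = gam ×ˢ gam)
    {q : (V2 × ℝ) × V2} (hq : q ∈ DB3) :
    ((((T (q.1.1, q.2)).1, q.1.2), (T (q.1.1, q.2)).2) : (V2 × ℝ) × V2) ∈
      (gam ×ˢ J3) ×ˢ sphere (0 : V2) 1 := by
  have h1 : T (q.1.1, q.2) ∈ gam ×ˢ gam := by
    rw [← him]
    exact ⟨_, ⟨hq.1.1, hq.2⟩, rfl⟩
  exact ⟨⟨h1.1, hq.1.2⟩, h1.2⟩

theorem NTB_phi_pl {T : V2 × V2 → V2 × V2} (hT : PLOn T (gam ×ˢ gam))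
    (him : T '' (gam ×ˢ gam) = gam ×ˢ gam) : PLOn (phi3 T) DB3 := by
  have hDB : IsPoly DB3 := NTB_P.prod gam_mfd.1
  have a1 : PLOn (fun q : (V2 × ℝ) × V2 => q.1.1) DB3 :=
    PLOn.affine ((LinearMap.fst ℝ V2 ℝ).comp (LinearMap.fst ℝ (V2 × ℝ) V2)).toAffineMap hDB
  have a2 : PLOn (fun q : (V2 × ℝ) × V2 => q.1.2) DB3 :=
    PLOn.affine ((LinearMap.snd ℝ V2 ℝ).comp (LinearMap.fst ℝ (V2 × ℝ) V2)).toAffineMap hDB
  have a3 : PLOn (fun q : (V2 × ℝ) × V2 => q.2) DB3 :=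
    PLOn.affine (LinearMap.snd ℝ (V2 × ℝ) V2).toAffineMap hDB
  have b1 : PLOn (fun q : (V2 × ℝ) × V2 => T (q.1.1, q.2)) DB3 :=
    hT.comp (a1.prodMk a3) fun q hq => ⟨hq.1.1, hq.2⟩
  have b2 : PLOn (fun q : (V2 × ℝ) × V2 => (T (q.1.1, q.2)).1) DB3 :=
    b1.affine_comp (LinearMap.fst ℝ V2 V2).toAffineMap
  have b3 : PLOn (fun q : (V2 × ℝ) × V2 => (T (q.1.1, q.2)).2) DB3 :=
    b1.affine_comp (LinearMap.snd ℝ V2 V2).toAffineMap
  exact tub3_tube.pl.comp ((b2.prodMk a2).prodMk b3) fun q hq => NTB_sph (NTB_phi_maps him hq)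

theorem NTB_phi_inj {T : V2 × V2 → V2 × V2} (hi : InjOn T (gam ×ˢ gam))
    (him : T '' (gam ×ˢ gam) = gam ×ˢ gam) : InjOn (phi3 T) DB3 := by
  intro q hq q' hq' he
  have h1 := tub3_tube.inj (NTB_sph (NTB_phi_maps him hq)) (NTB_sph (NTB_phi_maps him hq')) he
  obtain ⟨e12, e3⟩ := Prod.mk.inj h1
  obtain ⟨e1, e2⟩ := Prod.mk.inj e12
  have e4 : ((q.1.1, q.2) : V2 × V2) = (q'.1.1, q'.2) :=
    hi ⟨hq.1.1, hq.2⟩ ⟨hq'.1.1, hq'.2⟩ (Prod.ext e1 e3)
  obtain ⟨e5, e6⟩ := Prod.mk.inj e4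
  exact Prod.ext (Prod.ext e5 e2) e6

theorem NTB_phi_im {T : V2 × V2 → V2 × V2} (him : T '' (gam ×ˢ gam) = gam ×ˢ gam) :
    phi3 T '' DB3 = NTB_DA := by
  apply Subset.antisymm
  · rintro _ ⟨q, hq, rfl⟩
    exact ⟨_, NTB_phi_maps him hq, rfl⟩
  · rintro _ ⟨⟨⟨z, j⟩, u⟩, ⟨⟨hz, hj⟩, hu⟩, rfl⟩
    have h1 : ((z, u) : V2 × V2) ∈ T '' (gam ×ˢ gam) := by
      rw [him]
      exact ⟨hz, hu⟩
    obtain ⟨⟨a, b⟩, ⟨ha, hb⟩, hab⟩ := h1
    refine ⟨((a, j), b), ⟨⟨ha, hj⟩, hb⟩, ?_⟩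
    show tub3 (((T (a, b)).1, j), (T (a, b)).2) = tub3 ((z, j), u)
    rw [hab]

theorem NTB_A3_conn : IsConnected A3 :=
  Tube.connected_remove_finite NTB_J3 ⟨0, Or.inl rfl⟩ tub3_tube gam_mfd.1 T3_conn
    T3_mfd.1.isCompact.isClosed (gam_conn.prod gam_conn)

theorem base_glue {T : V2 × V2 → V2 × V2} (hT : PLOn T (gam ×ˢ gam))
    (hi : InjOn T (gam ×ˢ gam)) (him : T '' (gam ×ˢ gam) = gam ×ˢ gam) :
    ∃ (jA : V6 → V6 × ((V2 × ℝ) × V2) × ℝ) (jB : (V2 × ℝ) × V2 → V6 × ((V2 × ℝ) × V2) × ℝ),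
      Glued A3 B3 DB3 (phi3 T) jA jB ∧ IsPoly DB3 ∧
      IsClosedPLManifold 3 (jA '' A3 ∪ jB '' B3) ∧ IsConnected (jA '' A3 ∪ jB '' B3) := by
  have hA : IsPoly A3 := tub3_tube.poly_remove NTB_P T3_mfd.1 one_le_two
  have hB : IsPoly B3 := NTB_P.prod (isPoly_closedBall 2 1)
  have hDA : IsPoly NTB_DA := tub3_tube.pl.image_poly (NTB_P.prod gam_mfd.1) NTB_sph
  have hDB : IsPoly DB3 := NTB_P.prod gam_mfd.1
  have hBs : DB3 ⊆ B3 := prod_mono le_rfl sphere_subset_closedBall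
  have hpl := NTB_phi_pl hT him
  have hinj := NTB_phi_inj hi him
  have himg := NTB_phi_im him
  obtain ⟨jA, jB, h1, h2, h3, h4, h5, h6, h7⟩ := glue_mfd (n := 2) hA hB hDA hDB NTB_DA_sub hBs
    (fun x hx => NTB_int hx.1 hx.2) (fun x hx => NTB_bd hx)
    (fun x hx => NTB_Bint hx.1 hx.2) (fun x hx => NTB_Bbd hx) hpl hinj himg
  have hmaps : MapsTo (phi3 T) DB3 A3 := fun q hq => NTB_DA_sub (by
    rw [← himg]
    exact ⟨q, hq, rfl⟩)
  refine ⟨jA, jB, ⟨h1, h2, h3, h4, hBs, hmaps, hpl, h5, h6⟩, hDB, h7, ?_⟩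
  have cA : IsConnected (jA '' A3) := NTB_A3_conn.image _ h1.continuousOn
  have hBj : ∀ j ∈ J3, (gam ×ˢ {j}) ×ˢ closedBall (0 : V2) 1 ⊆ B3 := by
    rintro j hj ⟨⟨z, j'⟩, u⟩ ⟨⟨hz, hj'⟩, hu⟩
    have : j' = j := hj'
    rw [this]
    exact ⟨⟨hz, hj⟩, hu⟩
  have cB : ∀ j ∈ J3, IsConnected (jB '' ((gam ×ˢ {j}) ×ˢ closedBall (0 : V2) 1)) := by
    intro j hj
    refine IsConnected.image ?_ _ (h3.continuousOn.mono (hBj j hj))
    refine (gam_conn.prod isConnected_singleton).prod ?_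
    exact (convex_closedBall (0 : V2) 1).isConnected ⟨0, by simp⟩
  obtain ⟨z0, hz0⟩ := gam_conn.nonempty
  have hmeet : ∀ j ∈ J3, (jA '' A3 ∩ jB '' ((gam ×ˢ {j}) ×ˢ closedBall (0 : V2) 1)).Nonempty := by
    intro j hj
    have hq : (((z0, j), z0) : (V2 × ℝ) × V2) ∈ DB3 := ⟨⟨hz0, hj⟩, hz0⟩
    refine ⟨jB ((z0, j), z0), ⟨phi3 T ((z0, j), z0), hmaps hq, h5 _ hq⟩, ((z0, j), z0), ?_, rfl⟩
    exact ⟨⟨hz0, rfl⟩, sphere_subset_closedBall hz0⟩
  have c0 := cA.union (hmeet 0 (Or.inl rfl)) (cB 0 (Or.inl rfl))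
  have c1 := c0.union ((hmeet 1 (Or.inr (Or.inl rfl))).mono
    (inter_subset_inter_left _ subset_union_left)) (cB 1 (Or.inr (Or.inl rfl)))
  have c2 := c1.union ((hmeet 2 (Or.inr (Or.inr rfl))).mono
    (inter_subset_inter_left _ (subset_union_left.trans subset_union_left)))
    (cB 2 (Or.inr (Or.inr rfl)))
  have heq : jA '' A3 ∪ jB '' B3 = ((jA '' A3 ∪ jB '' ((gam ×ˢ {0}) ×ˢ closedBall (0 : V2) 1)) ∪
      jB '' ((gam ×ˢ {1}) ×ˢ closedBall (0 : V2) 1)) ∪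
      jB '' ((gam ×ˢ {2}) ×ˢ closedBall (0 : V2) 1) := by
    apply Subset.antisymm
    · rintro x (hx | ⟨⟨⟨z, j⟩, u⟩, ⟨⟨hz, hj⟩, hu⟩, rfl⟩)
      · exact Or.inl (Or.inl (Or.inl hx))
      · have hj' : j = 0 ∨ j = 1 ∨ j = 2 := hj
        rcases hj' with rfl | rfl | rfl
        · exact Or.inl (Or.inl (Or.inr ⟨_, ⟨⟨hz, rfl⟩, hu⟩, rfl⟩))
        · exact Or.inl (Or.inr ⟨_, ⟨⟨hz, rfl⟩, hu⟩, rfl⟩)
        · exact Or.inr ⟨_, ⟨⟨hz, rfl⟩, hu⟩, rfl⟩
    · rintro x (((hx | hx) | hx) | hx)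
      · exact Or.inl hx
      · exact Or.inr (image_mono (hBj 0 (Or.inl rfl)) hx)
      · exact Or.inr (image_mono (hBj 1 (Or.inr (Or.inl rfl))) hx)
      · exact Or.inr (image_mono (hBj 2 (Or.inr (Or.inr rfl))) hx)
  rw [heq]
  exact c2

end Pool.H54.UB

end S_NTB
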