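import Pool.Agent.H54.UB.Core
import Pool.Agent.H54.UM.G2
import Pool.Agent.H54.UM.G6

/-! Universal bases, part G7: this file joins several modules to save build time. -/

section S_PRL

/-!
# Row PRL: cocycles near the diagonal of a product

* `NCoc.unif`: Lebesgue number of the cover of the compact set `S` by the neighbourhoods from `NCoc`:
  there is `δ > 0` such that the identity holds for `a b d ∈ S` with pairwise distances `< δ`.
* `NTriv.prod_move`: fix `δ` for `S = A ×ˢ B`.  If `b, b' ∈ B`, `dist b b' < δ` and `g` is a primitive of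
  `c` on `A × {b}`, then `h a = g a * c (a,b) (a,b')` is a primitive on `A × {b'}`:
  `c (a,b') (a',b') = c (a,b') (a,b) * c (a,b) (a',b) * c (a',b) (a',b')` for `a'` near `a` (and
  `c x x = 1`, `c x y * c y x = 1` for `dist x y < δ`).  So the set of `b ∈ B` for which `c` is trivial on
  `A × {b}` is relatively open with relatively open complement: it is everything as `B` is preconnected.
* `NTriv.prod`: by `prod_move` (with the factors exchanged) `c` is trivial on `{x} × B` for every `x ∈ A`.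
  Let `g₀` be a primitive on `A × {b}` and let `g x` be the primitive on `{x} × B` normalised by
  `g x b = g₀ x` (multiply by a constant on the left).  Put `G (x,y) = g x y`.  For `x, x' ∈ A` with
  `dist x x' < δ` the function `h y = G (x,y) * c (x,y) (x',y)` is a primitive on `{x'} × B`, so
  `h = q * G (x', ·)` on `B` (`const_of_local`), and `h b = g₀ x * c (x,b) (x',b)`, which is `g₀ x'` for `x'`
  near `x`, so `q = 1`.  Hence near `(x,y)`:
  `c (x',y') (x'',y'') = ... = (G (x',y'))⁻¹ * G (x'',y'')` (go through `(x, y')`, `(x, y'')`).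
-/

open Set Topology

namespace Pool.H54.UB

variable {X Y Q : Type*} [MetricSpace X] [MetricSpace Y] [Group Q]

theorem NCoc.unif {c : X → X → Q} {S : Set X} (hS : IsCompact S) (hc : NCoc c S) :
    ∃ δ : ℝ, 0 < δ ∧ ∀ a ∈ S, ∀ b ∈ S, ∀ d ∈ S, dist a b < δ → dist b d < δ → dist a d < δ →
      c a b * c b d = c a d := by
  choose U hU hUc using fun x : S => hc x.1 x.2
  obtain ⟨δ, hδ, h⟩ := lebesgue_number_lemma_of_metric (c := fun x : S => interior (U x)) hS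
    (fun x => isOpen_interior)
    (fun x hx => mem_iUnion.2 ⟨⟨x, hx⟩, mem_interior_iff_mem_nhds.2 (hU ⟨x, hx⟩)⟩)
  refine ⟨δ, hδ, fun a ha b hb d hd h1 h2 h3 => ?_⟩
  obtain ⟨i, hi⟩ := h a ha
  have hsub := hi.trans interior_subset
  exact hUc i a ⟨hsub (Metric.mem_ball_self hδ), ha⟩ b ⟨hsub (Metric.mem_ball'.2 h1), hb⟩ d
    ⟨hsub (Metric.mem_ball'.2 h3), hd⟩

theorem PRL_quad {c : X → X → Q} {S : Set X} (hc : NCoc c S) {δ : ℝ} (hδ : 0 < δ)
    (h : ∀ a ∈ S, ∀ b ∈ S, ∀ d ∈ S, dist a b < δ → dist b d < δ → dist a d < δ →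
      c a b * c b d = c a d)
    {p q p' q' : X} (hp : p ∈ S) (hq : q ∈ S) (hp' : p' ∈ S) (hq' : q' ∈ S) (h1 : dist p p' < δ)
    (h2 : dist p q < δ) (h3 : dist p' q < δ) (h4 : dist q q' < δ) (h5 : dist p' q' < δ) :
    c p' q' = (c p p')⁻¹ * c p q * c q q' := by
  have h1' : dist p' p < δ := by rwa [dist_comm]
  have e1 : c p p' * c p' p = 1 := by
    rw [h p hp p' hp' p hp h1 h1' (by rwa [dist_self]), hc.self hp]
  have e2 : c p' p = (c p p')⁻¹ := eq_inv_of_mul_eq_one_right e1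
  have e3 := h p' hp' p hp q hq h1' h2 h3
  have e4 := h p' hp' q hq q' hq' h3 h4 h5
  rw [← e4, ← e3, e2]

theorem PRL_dist {δ : ℝ} {a a' : X} {b b' : Y} (h1 : dist a a' < δ) (h2 : dist b b' < δ) :
    dist (a, b) (a', b') < δ := by
  rw [Prod.dist_eq]
  exact max_lt h1 h2

theorem PRL_self {δ : ℝ} (hδ : 0 < δ) (a : X) : dist a a < δ := by
  rw [dist_self]
  exact hδ

theorem NTriv.prod_move {A : Set X} {B : Set Y} (hA : IsCompact A) (hB : IsCompact B)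
    (hBc : IsPreconnected B) {c : X × Y → X × Y → Q} (hc : NCoc c (A ×ˢ B)) {b b' : Y}
    (hb : b ∈ B) (hb' : b' ∈ B) (h : NTriv c (A ×ˢ {b})) : NTriv c (A ×ˢ {b'}) := by
  obtain ⟨δ, hδ, hu⟩ := hc.unif (hA.prod hB)
  have key : ∀ b₁ ∈ B, ∀ b₂ ∈ B, dist b₁ b₂ < δ →
      NTriv c (A ×ˢ {b₁}) → NTriv c (A ×ˢ {b₂}) := by
    rintro b₁ hb₁ b₂ hb₂ hd ⟨g, hg⟩
    have hd' : dist b₂ b₁ < δ := by rwa [dist_comm]
    refine ⟨fun p => g (p.1, b₁) * c (p.1, b₁) (p.1, b₂), ?_⟩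
    intro p hp
    obtain ⟨U, hU, h1⟩ := hg (p.1, b₁) ⟨hp.1, rfl⟩
    refine ⟨{q | (q.1, b₁) ∈ U ∧ dist q.1 p.1 < δ / 2}, ?_, ?_⟩
    · apply Filter.inter_mem
      · have h2 : Continuous (fun q : X × Y => (q.1, b₁)) :=
          Continuous.prodMk continuous_fst continuous_const
        exact h2.continuousAt.preimage_mem_nhds hU
      · have h2 : Continuous (fun q : X × Y => dist q.1 p.1) := continuous_fst.dist continuous_const
        refine h2.continuousAt.preimage_mem_nhds (Iio_mem_nhds ?_)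
        rw [dist_self]
        exact half_pos hδ
    · rintro ⟨a, y₁⟩ ⟨⟨ha1, ha2⟩, ha3, hy₁⟩ ⟨a', y₂⟩ ⟨⟨ha1', ha2'⟩, ha3', hy₂⟩
      have e1 : y₁ = b₂ := hy₁
      have e2 : y₂ = b₂ := hy₂
      rw [e1, e2]
      have haa : dist a a' < δ := by
        have h2 := dist_triangle_right a a' p.1
        have h3 : dist a p.1 < δ / 2 := ha2
        have h4 : dist a' p.1 < δ / 2 := ha2'
        linarith
      show c (a, b₂) (a', b₂) = (g (a, b₁) * c (a, b₁) (a, b₂))⁻¹ *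
        (g (a', b₁) * c (a', b₁) (a', b₂))
      rw [PRL_quad hc hδ hu (p := (a, b₁)) (q := (a', b₁)) (p' := (a, b₂)) (q' := (a', b₂))
        ⟨ha3, hb₁⟩ ⟨ha3', hb₁⟩ ⟨ha3, hb₂⟩ ⟨ha3', hb₂⟩ (PRL_dist (PRL_self hδ a) hd)
        (PRL_dist haa (PRL_self hδ b₁)) (PRL_dist haa hd') (PRL_dist (PRL_self hδ a') hd)
        (PRL_dist haa (PRL_self hδ b₂)), h1 (a, b₁) ⟨ha1, ha3, rfl⟩ (a', b₁) ⟨ha1', ha3', rfl⟩]
      group
  exact hBc.induction₂' (fun b₁ b₂ => NTriv c (A ×ˢ {b₁}) → NTriv c (A ×ˢ {b₂}))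
    (fun x hx => by
      filter_upwards [mem_nhdsWithin_of_mem_nhds (Metric.ball_mem_nhds x hδ),
        self_mem_nhdsWithin] with y hy hyB
      have hy' : dist x y < δ := by
        rw [dist_comm]
        exact hy
      exact ⟨key x hx y hyB hy', key y hyB x hx hy⟩)
    (fun _ _ _ _ _ _ h1 h2 h3 => h2 (h1 h3)) hb hb' h

omit [MetricSpace X] [MetricSpace Y] [Group Q] in
theorem PRL_swap_swap (c : X × Y → X × Y → Q) :
    (fun p q : X × Y => (fun p q : Y × X => c p.swap q.swap) p.swap q.swap) = c := by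
  funext p q
  simp only [Prod.swap_swap]

theorem NTriv.prod_move' {A : Set X} {B : Set Y} (hA : IsCompact A) (hB : IsCompact B)
    (hAc : IsPreconnected A) {c : X × Y → X × Y → Q} (hc : NCoc c (A ×ˢ B)) {a a' : X}
    (ha : a ∈ A) (ha' : a' ∈ A) (h : NTriv c ({a} ×ˢ B)) : NTriv c ({a'} ×ˢ B) := by
  have hc' : NCoc (fun p q : Y × X => c p.swap q.swap) (B ×ˢ A) :=
    NCoc.comp (φ := Prod.swap) continuous_swap.continuousOn (by rwa [image_swap_prod])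
  have h' : NTriv (fun p q : Y × X => c p.swap q.swap) (B ×ˢ {a}) :=
    NTriv.comp (φ := Prod.swap) continuous_swap.continuousOn (by rwa [image_swap_prod])
  have h2 := NTriv.prod_move hB hA hAc hc' ha ha' h'
  have h3 : NTriv (fun p q : X × Y => (fun p q : Y × X => c p.swap q.swap) p.swap q.swap)
      ({a'} ×ˢ B) :=
    NTriv.comp (φ := Prod.swap) continuous_swap.continuousOn (by rwa [image_swap_prod])
  rwa [PRL_swap_swap] at h3

theorem NTriv.prod {A : Set X} {B : Set Y} (hA : IsCompact A) (hB : IsCompact B)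
    (hAc : IsPreconnected A) (hBc : IsPreconnected B) {c : X × Y → X × Y → Q}
    (hc : NCoc c (A ×ˢ B)) {a : X} {b : Y} (ha : a ∈ A) (hb : b ∈ B)
    (h1 : NTriv c (A ×ˢ {b})) (h2 : NTriv c ({a} ×ˢ B)) : NTriv c (A ×ˢ B) := by
  obtain ⟨δ, hδ, hu⟩ := hc.unif (hA.prod hB)
  obtain ⟨g₀, hg₀⟩ := h1
  have hex : ∀ x : X, ∃ g : X × Y → Q, x ∈ A → ∀ p ∈ ({x} : Set X) ×ˢ B, ∃ U ∈ 𝓝 p,
      ∀ q ∈ U ∩ (({x} : Set X) ×ˢ B), ∀ r ∈ U ∩ (({x} : Set X) ×ˢ B),
        c q r = (g q)⁻¹ * g r := by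
    intro x
    by_cases hx : x ∈ A
    · obtain ⟨g, hg⟩ := NTriv.prod_move' hA hB hAc hc ha hx h2
      exact ⟨g, fun _ => hg⟩
    · exact ⟨fun _ => 1, fun h => absurd h hx⟩
  choose γ hγ using hex
  obtain ⟨G, hGdef⟩ : ∃ G : X × Y → Q, ∀ p, G p = g₀ (p.1, b) * (γ p.1 (p.1, b))⁻¹ * γ p.1 p :=
    ⟨_, fun _ => rfl⟩
  have hGb : ∀ x, G (x, b) = g₀ (x, b) := fun x => by
    rw [hGdef, inv_mul_cancel_right]
  have hG : ∀ x ∈ A, ∀ y ∈ B, ∃ W ∈ 𝓝 y, ∀ y' ∈ W ∩ B, ∀ y'' ∈ W ∩ B,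
      c (x, y') (x, y'') = (G (x, y'))⁻¹ * G (x, y'') := by
    intro x hxA y hy
    obtain ⟨U, hU, h3⟩ := hγ x hxA (x, y) ⟨rfl, hy⟩
    have h4 : Continuous (fun y' : Y => (x, y')) := Continuous.prodMk_right x
    refine ⟨{y' | (x, y') ∈ U}, h4.continuousAt.preimage_mem_nhds hU, ?_⟩
    intro y' hy' y'' hy''
    rw [h3 (x, y') ⟨hy'.1, rfl, hy'.2⟩ (x, y'') ⟨hy''.1, rfl, hy''.2⟩, hGdef, hGdef]
    group
  have hV : ∀ x ∈ A, ∃ V ∈ 𝓝 x, ∀ x' ∈ V ∩ A, ∀ y ∈ B,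
      c (x, y) (x', y) = (G (x, y))⁻¹ * G (x', y) := by
    intro x hxA
    obtain ⟨U, hU, h3⟩ := hg₀ (x, b) ⟨hxA, rfl⟩
    have h4 : Continuous (fun x' : X => (x', b)) := Continuous.prodMk_left b
    refine ⟨{x' | (x', b) ∈ U} ∩ Metric.ball x δ,
      Filter.inter_mem (h4.continuousAt.preimage_mem_nhds hU) (Metric.ball_mem_nhds x hδ), ?_⟩
    rintro x' ⟨⟨hx'U, hx'δ⟩, hx'A⟩ y hy
    have hd : dist x x' < δ := by
      rw [dist_comm]
      exact hx'δ
    have key := const_of_local (g := fun y => G (x, y) * c (x, y) (x', y))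
      (g' := fun y => G (x', y)) hBc (fun y hy => by
        obtain ⟨W, hW, h4⟩ := hG x hxA y hy
        obtain ⟨W', hW', h5⟩ := hG x' hx'A y hy
        refine ⟨W ∩ W' ∩ Metric.ball y δ,
          Filter.inter_mem (Filter.inter_mem hW hW') (Metric.ball_mem_nhds y hδ), ?_⟩
        rintro y' ⟨⟨⟨hy1, hy2⟩, hy3⟩, hy4⟩
        have hd2 : dist y y' < δ := by
          rw [dist_comm]
          exact hy3
        have hd' : dist x' x < δ := hx'δ
        have h6 := PRL_quad hc hδ hu (p := (x, y)) (p' := (x', y)) (q := (x, y'))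
          (q' := (x', y')) ⟨hxA, hy⟩ ⟨hxA, hy4⟩ ⟨hx'A, hy⟩ ⟨hx'A, hy4⟩
          (PRL_dist hd (PRL_self hδ y)) (PRL_dist (PRL_self hδ x) hd2) (PRL_dist hd' hd2)
          (PRL_dist hd (PRL_self hδ y')) (PRL_dist (PRL_self hδ x') hd2)
        rw [h5 y ⟨mem_of_mem_nhds hW', hy⟩ y' ⟨hy2, hy4⟩,
          h4 y ⟨mem_of_mem_nhds hW, hy⟩ y' ⟨hy1, hy4⟩] at h6
        show (G (x, y) * c (x, y) (x', y))⁻¹ * (G (x, y') * c (x, y') (x', y')) =
          (G (x', y))⁻¹ * G (x', y')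
        rw [h6]
        group) hy hb
    have h5 := h3 (x, b) ⟨mem_of_mem_nhds hU, hxA, rfl⟩ (x', b) ⟨hx'U, hx'A, rfl⟩
    rw [hGb, hGb, h5, mul_inv_cancel_left, mul_inv_cancel] at key
    rw [← mul_inv_eq_one.1 key, inv_mul_cancel_left]
  refine ⟨G, ?_⟩
  rintro ⟨x, y⟩ ⟨hxA, hyB⟩
  obtain ⟨V, hV1, hV2⟩ := hV x hxA
  obtain ⟨W, hW, h4⟩ := hG x hxA y hyB
  refine ⟨(V ∩ Metric.ball x (δ / 2)) ×ˢ (W ∩ Metric.ball y (δ / 2)),
    prod_mem_nhds (Filter.inter_mem hV1 (Metric.ball_mem_nhds x (half_pos hδ)))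
      (Filter.inter_mem hW (Metric.ball_mem_nhds y (half_pos hδ))), ?_⟩
  rintro ⟨x', y'⟩ ⟨⟨⟨hx1, hx2⟩, hy1, hy2⟩, hx3, hy3⟩ ⟨x'', y''⟩
    ⟨⟨⟨hx1', hx2'⟩, hy1', hy2'⟩, hx3', hy3'⟩
  have d1 : dist x' x < δ / 2 := hx2
  have d2 : dist y' y < δ / 2 := hy2
  have d3 : dist x'' x < δ / 2 := hx2'
  have d4 : dist y'' y < δ / 2 := hy2'
  have d5 : dist x x' < δ := by
    rw [dist_comm]
    linarith
  have d6 : dist x x'' < δ := by
    rw [dist_comm]
    linarith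
  have d7 : dist x' x < δ := by linarith
  have d8 : dist y' y'' < δ := by
    have := dist_triangle_right y' y'' y
    linarith
  have d9 : dist x' x'' < δ := by
    have := dist_triangle_right x' x'' x
    linarith
  rw [PRL_quad hc hδ hu (p := (x, y')) (p' := (x', y')) (q := (x, y'')) (q' := (x'', y''))
    ⟨hxA, hy3⟩ ⟨hxA, hy3'⟩ ⟨hx3, hy3⟩ ⟨hx3', hy3'⟩ (PRL_dist d5 (PRL_self hδ y'))
    (PRL_dist (PRL_self hδ x) d8) (PRL_dist d7 d8) (PRL_dist d6 (PRL_self hδ y''))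
    (PRL_dist d9 d8), hV2 x' ⟨hx1, hx3⟩ y' hy3, h4 y' ⟨hy1, hy3⟩ y'' ⟨hy1', hy3'⟩,
    hV2 x'' ⟨hx1', hx3'⟩ y'' hy3']
  group

/-- Triviality on a slice, in two forms. -/
theorem NTriv.slice_iff {A : Set X} {y : Y} {c : X × Y → X × Y → Q} :
    NTriv c (A ×ˢ {y}) ↔ NTriv (fun a a' => c (a, y) (a', y)) A := by
  constructor
  · intro h
    refine NTriv.comp (φ := fun a => (a, y)) (Continuous.prodMk_left y).continuousOn ?_
    rwa [prod_singleton] at h
  · rintro ⟨g, hg⟩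
    refine ⟨fun p => g p.1, ?_⟩
    rintro ⟨a, y₁⟩ ⟨ha, -⟩
    obtain ⟨U, hU, h1⟩ := hg a ha
    refine ⟨{p | p.1 ∈ U}, continuous_fst.continuousAt.preimage_mem_nhds hU, ?_⟩
    rintro ⟨a₁, y₁⟩ ⟨h2, h3, h4⟩ ⟨a₂, y₂⟩ ⟨h5, h6, h7⟩
    have e1 : y₁ = y := h4
    have e2 : y₂ = y := h7
    rw [e1, e2]
    exact h1 a₁ ⟨h2, h3⟩ a₂ ⟨h5, h6⟩

theorem NTriv.slice_iff' {B : Set Y} {x : X} {c : X × Y → X × Y → Q} :
    NTriv c ({x} ×ˢ B) ↔ NTriv (fun b b' => c (x, b) (x, b')) B := by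
  constructor
  · intro h
    refine NTriv.comp (φ := fun b => (x, b)) (Continuous.prodMk_right x).continuousOn ?_
    rwa [singleton_prod] at h
  · rintro ⟨g, hg⟩
    refine ⟨fun p => g p.2, ?_⟩
    rintro ⟨x₁, b⟩ ⟨-, hb⟩
    obtain ⟨U, hU, h1⟩ := hg b hb
    refine ⟨{p | p.2 ∈ U}, continuous_snd.continuousAt.preimage_mem_nhds hU, ?_⟩
    rintro ⟨x₁, b₁⟩ ⟨h2, h3, h4⟩ ⟨x₂, b₂⟩ ⟨h5, h6, h7⟩
    have e1 : x₁ = x := h3
    have e2 : x₂ = x := h6
    rw [e1, e2]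
    exact h1 b₁ ⟨h2, h4⟩ b₂ ⟨h5, h7⟩

theorem QTriv.prod {A : Set X} {B : Set Y} (hA : IsCompact A) (hB : IsCompact B)
    (hAc : IsPreconnected A) (hBc : IsPreconnected B) (h1 : QTriv Q A) (h2 : QTriv Q B) :
    QTriv Q (A ×ˢ B) := by
  intro c hc
  rcases A.eq_empty_or_nonempty with hE | ⟨a, ha⟩
  · refine ⟨fun _ => 1, fun p hp => ?_⟩
    rw [hE] at hp
    exact absurd hp.1 (notMem_empty _)
  rcases B.eq_empty_or_nonempty with hE | ⟨b, hb⟩
  · refine ⟨fun _ => 1, fun p hp => ?_⟩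
    rw [hE] at hp
    exact absurd hp.2 (notMem_empty _)
  refine NTriv.prod hA hB hAc hBc hc ha hb ?_ ?_
  · rw [NTriv.slice_iff]
    refine h1 _ (NCoc.comp (φ := fun a => (a, b)) (Continuous.prodMk_left b).continuousOn
      (hc.mono ?_))
    rintro _ ⟨a', ha', rfl⟩
    exact ⟨ha', hb⟩
  · rw [NTriv.slice_iff']
    refine h2 _ (NCoc.comp (φ := fun b => (a, b)) (Continuous.prodMk_right a).continuousOn
      (hc.mono ?_))
    rintro _ ⟨b', hb', rfl⟩
    exact ⟨ha, hb'⟩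

end Pool.H54.UB

end S_PRL

section S_NTC

/-!
# Row NTC: meridians are trivial if the longitudes are

`A3 = {x ∈ T3 : not (x₂ ∈ ar1 ∧ x₃ ∈ ar3), not (x₃ ∈ ar1 ∧ x₁ ∈ ar3), not (x₁ ∈ ar1 ∧ x₂ ∈ ar3)}` (`mem_tub3`).
Composing with `rho` (`rho_A3`, `c ∘ rho`) it suffices to treat `j = 0` (for `j = 1`, `2` apply the case `0` to
`c (rho ·) (rho ·)`, `c (rho (rho ·)) ..`; the hypothesis is invariant: tube `j` is mapped to `j + 1`).

`j = 0`, at the level `x₁ = wnd 5` (not in `ar1`, `ar3`; so tubes 1, 2 are avoided): the set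
`F = {wnd 5} × (gam × K' ∪ K'' × gam)`, `K' = wnd '' Icc (13/4) (43/4)`, `K'' = wnd '' Icc (5/4) (35/4)` (the
complements in `gam` of `ar3`, `ar1`), is contained in `A3`.
* `c` is trivial on `{wnd 5} × gam × {wnd 1}`: the loop of tube 1 with `u = (0, 1)` is
  `z ↦ (wnd (3+1/4), z, wnd 1)`; move the first coordinate from `13/4` to `5` (`NTriv.move`,
  `Φ (z, t) = (wnd (13/4 + (7/4) t), z, wnd 1)`): third coordinate `wnd 1 ∉ ar3`, first not in `ar3` nor `ar1`.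
* `c` is trivial on `{wnd 5} × {wnd 3} × gam`: the loop of tube 2 with `u = (-1, 0)` is
  `z ↦ (wnd (1 - 1/4), wnd 3, z)`; move the first coordinate from `3/4` down to `-3` (`wnd (-3) = wnd 5`): it
  avoids `ar1` and `ar3`, second coordinate `wnd 3 ∉ ar1`.
* `wnd 1 = wnd 9 ∈ K'`, `arc_qtriv` for `K'`, `NTriv.prod`: trivial on `{wnd 5} × gam × K'`; similarly
  `wnd 3 ∈ K''`: trivial on `{wnd 5} × K'' × gam`.  The intersection `K'' × K'` is connected:
  `NTriv.union_closed`.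
* the loop `u ↦ tub3 ((wnd 5, 0), u)`, `u ∈ gam`, is in `F` (`‖u‖ = 1`): `NTriv.mono`, `NTriv.comp`.
-/

open Set Topology Metric

namespace Pool.H54.UB

private theorem NTC_int (k : ℤ) (h1 : -1 < (k : ℝ)) (h2 : (k : ℝ) < 1) : k = 0 := by
  have h3 : (-1 : ℤ) < k := by exact_mod_cast h1
  have h4 : k < (1 : ℤ) := by exact_mod_cast h2
  omega

private theorem NTC_n1 {t : ℝ} (h : 5 / 4 ≤ t) (h' : t ≤ 35 / 4) : wnd t ∉ ar1 := by
  rintro ⟨s, hs, he⟩
  obtain ⟨k, hk⟩ := wnd_eq_iff.1 he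
  have h1 := hs.1
  have h2 := hs.2
  have h0 : k = 0 := NTC_int k (by linarith) (by linarith)
  rw [h0] at hk
  simp only [Int.cast_zero, mul_zero, add_zero] at hk
  linarith

private theorem NTC_n3 {t : ℝ} (h : 13 / 4 ≤ t) (h' : t ≤ 43 / 4) : wnd t ∉ ar3 := by
  rintro ⟨s, hs, he⟩
  obtain ⟨k, hk⟩ := wnd_eq_iff.1 he
  have h1 := hs.1
  have h2 := hs.2
  have h0 : k = 0 := NTC_int k (by linarith) (by linarith)
  rw [h0] at hk
  simp only [Int.cast_zero, mul_zero, add_zero] at hk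
  linarith

private theorem NTC_p1 : wnd 9 = wnd 1 := by
  have := wnd_per 1 1
  norm_num at this
  exact this

private theorem NTC_p2 : wnd (35 / 4) = wnd (3 / 4) := by
  have := wnd_per (3 / 4) 1
  norm_num at this
  exact this

private theorem NTC_p3 : wnd (43 / 4) = wnd (11 / 4) := by
  have := wnd_per (11 / 4) 1
  norm_num at this
  exact this

private theorem NTC_A3 {x y z : V2} (hx : x ∈ gam) (hy : y ∈ gam) (hz : z ∈ gam)
    (h0 : ¬ (y ∈ ar1 ∧ z ∈ ar3)) (h1 : ¬ (z ∈ ar1 ∧ x ∈ ar3)) (h2 : ¬ (x ∈ ar1 ∧ y ∈ ar3)) :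
    ((x, y, z) : V6) ∈ A3 := by
  refine ⟨⟨hx, hy, hz⟩, ?_⟩
  rw [mem_tub3]
  rintro (h | h | h)
  · exact h0 h.2
  · exact h1 h.2
  · exact h2 h.2

private theorem NTC_gam {y : V2} (h : y ∈ gam) : |y 0| = 1 ∨ |y 1| = 1 := by
  unfold gam at h
  rw [mem_sphere_zero_iff_norm] at h
  by_contra hne
  push Not at hne
  have h1 : ∀ i, |y i| ≤ 1 := by
    intro i
    have := norm_le_pi_norm y i
    rw [h, Real.norm_eq_abs] at this
    exact this
  have : ‖y‖ < 1 := by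
    rw [pi_norm_lt_iff zero_lt_one]
    intro i
    rw [Real.norm_eq_abs]
    fin_cases i
    · exact lt_of_le_of_ne (h1 0) hne.1
    · exact lt_of_le_of_ne (h1 1) hne.2
  rw [h] at this
  exact lt_irrefl _ this

private theorem NTC_compact : IsCompact gam := isCompact_sphere 0 1

private theorem NTC_loop {u : V2} (hu : u ∈ gam) :
    ((wnd (1 + u 0 / 4), wnd (3 + u 1 / 4)) : V2 × V2) ∈
      gam ×ˢ (wnd '' Icc (13 / 4) (43 / 4)) ∪ (wnd '' Icc (5 / 4) (35 / 4)) ×ˢ gam := by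
  rcases NTC_gam hu with h | h
  · right
    refine ⟨?_, wnd_mem _⟩
    show wnd (1 + u 0 / 4) ∈ _
    rcases (abs_eq zero_le_one).1 h with h | h
    · exact ⟨5 / 4, by constructor <;> norm_num, by rw [h]; norm_num⟩
    · refine ⟨35 / 4, by constructor <;> norm_num, ?_⟩
      rw [NTC_p2, h]
      norm_num
  · left
    refine ⟨wnd_mem _, ?_⟩
    show wnd (3 + u 1 / 4) ∈ _
    rcases (abs_eq zero_le_one).1 h with h | h
    · exact ⟨13 / 4, by constructor <;> norm_num, by rw [h]; norm_num⟩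
    · refine ⟨43 / 4, by constructor <;> norm_num, ?_⟩
      rw [NTC_p3, h]
      norm_num

private theorem NTC_core {Q : Type*} [Group Q] {c : V6 → V6 → Q} (hc : NCoc c A3)
    (h1 : NTriv (fun a b : V2 => c (wnd (13 / 4), a, wnd 1) (wnd (13 / 4), b, wnd 1)) gam)
    (h2 : NTriv (fun a b : V2 => c (wnd (3 / 4), wnd 3, a) (wnd (3 / 4), wnd 3, b)) gam) :
    NTriv (fun a b : V2 => c (tub0 (wnd 5, a)) (tub0 (wnd 5, b))) gam := by
  have i0 : (0 : ℝ) ∈ Icc (0 : ℝ) 1 := ⟨le_rfl, zero_le_one⟩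
  have i1 : (1 : ℝ) ∈ Icc (0 : ℝ) 1 := ⟨zero_le_one, le_rfl⟩
  have m1 : NTriv (fun a b : V2 => c (wnd 5, a, wnd 1) (wnd 5, b, wnd 1)) gam := by
    have hcont : Continuous (fun q : V2 × ℝ => ((wnd (13 / 4 + (7 / 4) * q.2), q.1, wnd 1) : V6)) := by
      have := wnd_cont
      fun_prop
    have hm := NTriv.move (S := gam) (c := c)
      (Φ := fun q : V2 × ℝ => ((wnd (13 / 4 + (7 / 4) * q.2), q.1, wnd 1) : V6))
      hcont.continuousOn (hc.mono ?_) i0 ?_ i1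
    · have e : (13 / 4 + (7 / 4) * 1 : ℝ) = 5 := by norm_num
      simp only [e] at hm
      exact hm
    · rintro _ ⟨⟨z, t⟩, ⟨hz, ht⟩, rfl⟩
      have ht1 := ht.1
      have ht2 := ht.2
      simp only at ht1 ht2
      refine NTC_A3 (wnd_mem _) hz (wnd_mem _) ?_ ?_ ?_
      · rintro ⟨-, h⟩
        rw [← NTC_p1] at h
        exact NTC_n3 (by norm_num) (by norm_num) h
      · rintro ⟨-, h⟩
        exact NTC_n3 (by linarith) (by linarith) h
      · rintro ⟨h, -⟩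
        exact NTC_n1 (by linarith) (by linarith) h
    · have e : (13 / 4 + (7 / 4) * 0 : ℝ) = 13 / 4 := by norm_num
      simp only [e]
      exact h1
  have m2 : NTriv (fun a b : V2 => c (wnd 5, wnd 3, a) (wnd 5, wnd 3, b)) gam := by
    have hcont : Continuous (fun q : V2 × ℝ => ((wnd (35 / 4 - (15 / 4) * q.2), wnd 3, q.1) : V6)) := by
      have := wnd_cont
      fun_prop
    have hm := NTriv.move (S := gam) (c := c)
      (Φ := fun q : V2 × ℝ => ((wnd (35 / 4 - (15 / 4) * q.2), wnd 3, q.1) : V6))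
      hcont.continuousOn (hc.mono ?_) i0 ?_ i1
    · have e : (35 / 4 - (15 / 4) * 1 : ℝ) = 5 := by norm_num
      simp only [e] at hm
      exact hm
    · rintro _ ⟨⟨z, t⟩, ⟨hz, ht⟩, rfl⟩
      have ht1 := ht.1
      have ht2 := ht.2
      simp only at ht1 ht2
      refine NTC_A3 (wnd_mem _) (wnd_mem _) hz ?_ ?_ ?_
      · rintro ⟨h, -⟩
        exact NTC_n1 (by norm_num) (by norm_num) h
      · rintro ⟨-, h⟩
        exact NTC_n3 (by linarith) (by linarith) h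
      · rintro ⟨h, -⟩
        exact NTC_n1 (by linarith) (by linarith) h
    · have e : (35 / 4 - (15 / 4) * 0 : ℝ) = 35 / 4 := by norm_num
      simp only [e, NTC_p2]
      exact h2
  -- the cocycle on the level
  have hd : NCoc (fun p q : V2 × V2 => c (wnd 5, p) (wnd 5, q))
      (gam ×ˢ (wnd '' Icc (13 / 4) (43 / 4)) ∪ (wnd '' Icc (5 / 4) (35 / 4)) ×ˢ gam) := by
    refine NCoc.comp (φ := fun p : V2 × V2 => ((wnd 5, p) : V6)) (by fun_prop) (hc.mono ?_)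
    rintro _ ⟨⟨y, z⟩, h, rfl⟩
    have hyz : y ∈ gam ∧ z ∈ gam := by
      rcases h with ⟨hy, s, -, hs⟩ | ⟨⟨s, -, hs⟩, hz⟩
      · exact ⟨hy, by rw [← show wnd s = z from hs]; exact wnd_mem s⟩
      · exact ⟨by rw [← show wnd s = y from hs]; exact wnd_mem s, hz⟩
    refine NTC_A3 (wnd_mem _) hyz.1 hyz.2 ?_ ?_ ?_
    · rintro ⟨h3, h4⟩
      rcases h with ⟨-, s, hs, he⟩ | ⟨⟨s, hs, he⟩, -⟩
      · rw [← show wnd s = z from he] at h4
        exact NTC_n3 hs.1 hs.2 h4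
      · rw [← show wnd s = y from he] at h3
        exact NTC_n1 hs.1 hs.2 h3
    · rintro ⟨-, h⟩
      exact NTC_n3 (by norm_num) (by norm_num) h
    · rintro ⟨h, -⟩
      exact NTC_n1 (by norm_num) (by norm_num) h
  have hK1 : IsCompact (wnd '' Icc (13 / 4) (43 / 4)) := isCompact_Icc.image wnd_cont
  have hK2 : IsCompact (wnd '' Icc (5 / 4) (35 / 4)) := isCompact_Icc.image wnd_cont
  have cK1 : IsConnected (wnd '' Icc (13 / 4) (43 / 4)) := arc_conn (by norm_num)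
  have cK2 : IsConnected (wnd '' Icc (5 / 4) (35 / 4)) := arc_conn (by norm_num)
  have sK1 : wnd '' Icc (13 / 4) (43 / 4) ⊆ gam := by
    rintro _ ⟨s, -, rfl⟩
    exact wnd_mem s
  have sK2 : wnd '' Icc (5 / 4) (35 / 4) ⊆ gam := by
    rintro _ ⟨s, -, rfl⟩
    exact wnd_mem s
  have b1 : wnd 1 ∈ wnd '' Icc (13 / 4) (43 / 4) :=
    ⟨9, by constructor <;> norm_num, NTC_p1⟩
  have b3 : wnd 3 ∈ wnd '' Icc (5 / 4) (35 / 4) := ⟨3, by constructor <;> norm_num, rfl⟩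
  have t1 : NTriv (fun p q : V2 × V2 => c (wnd 5, p) (wnd 5, q))
      (gam ×ˢ (wnd '' Icc (13 / 4) (43 / 4))) := by
    have hd1 := hd.mono (subset_union_left)
    refine NTriv.prod NTC_compact hK1 gam_conn.isPreconnected cK1.isPreconnected hd1
      (wnd_mem 0) b1 ?_ ?_
    · rw [NTriv.slice_iff]
      exact m1
    · rw [NTriv.slice_iff']
      refine arc_qtriv (by norm_num) Q _ (NCoc.comp
        (c := fun p q : V2 × V2 => c (wnd 5, p) (wnd 5, q)) (φ := fun b : V2 => (wnd 0, b))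
        (by fun_prop) (hd1.mono ?_))
      rintro _ ⟨b, hb, rfl⟩
      exact ⟨wnd_mem 0, hb⟩
  have t2 : NTriv (fun p q : V2 × V2 => c (wnd 5, p) (wnd 5, q))
      ((wnd '' Icc (5 / 4) (35 / 4)) ×ˢ gam) := by
    have hd2 := hd.mono (subset_union_right)
    refine NTriv.prod hK2 NTC_compact cK2.isPreconnected gam_conn.isPreconnected hd2
      b3 (wnd_mem 0) ?_ ?_
    · rw [NTriv.slice_iff]
      refine arc_qtriv (by norm_num) Q _ (NCoc.comp
        (c := fun p q : V2 × V2 => c (wnd 5, p) (wnd 5, q)) (φ := fun a : V2 => (a, wnd 0))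
        (by fun_prop) (hd2.mono ?_))
      rintro _ ⟨a, ha, rfl⟩
      exact ⟨ha, wnd_mem 0⟩
    · rw [NTriv.slice_iff']
      exact m2
  have t3 : NTriv (fun p q : V2 × V2 => c (wnd 5, p) (wnd 5, q))
      (gam ×ˢ (wnd '' Icc (13 / 4) (43 / 4)) ∪ (wnd '' Icc (5 / 4) (35 / 4)) ×ˢ gam) := by
    refine NTriv.union_closed (NTC_compact.isClosed.prod hK1.isClosed)
      (hK2.isClosed.prod NTC_compact.isClosed) hd ?_ t1 t2
    rw [prod_inter_prod, inter_eq_right.2 sK2, inter_eq_left.2 sK1]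
    exact cK2.isPreconnected.prod cK1.isPreconnected
  have t4 := NTriv.comp (c := fun p q : V2 × V2 => c (wnd 5, p) (wnd 5, q)) (S := gam)
    (φ := fun u : V2 => ((wnd (1 + u 0 / 4), wnd (3 + u 1 / 4)) : V2 × V2))
    (Continuous.continuousOn (by
      have := wnd_cont
      fun_prop)) (t3.mono (by
      rintro _ ⟨u, hu, rfl⟩
      exact NTC_loop hu))
  exact t4

private theorem NTC_u01 : (![0, 1] : V2) ∈ gam := by
  unfold gam
  rw [mem_sphere_zero_iff_norm]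
  apply le_antisymm
  · rw [pi_norm_le_iff_of_nonneg zero_le_one]
    intro i
    fin_cases i <;> simp
  · have := norm_le_pi_norm (![0, 1] : V2) 1
    simpa using this

private theorem NTC_u10 : (![-1, 0] : V2) ∈ gam := by
  unfold gam
  rw [mem_sphere_zero_iff_norm]
  apply le_antisymm
  · rw [pi_norm_le_iff_of_nonneg zero_le_one]
    intro i
    fin_cases i <;> simp
  · have := norm_le_pi_norm (![-1, 0] : V2) 0
    simpa using this

private theorem NTC_core' {Q : Type*} [Group Q] {c : V6 → V6 → Q} (hc : NCoc c A3)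
    (h1 : ∀ u ∈ gam, NTriv (fun a b : V2 => c (rho (tub0 (a, u))) (rho (tub0 (b, u)))) gam)
    (h2 : ∀ u ∈ gam,
      NTriv (fun a b : V2 => c (rho (rho (tub0 (a, u)))) (rho (rho (tub0 (b, u))))) gam) :
    NTriv (fun a b : V2 => c (tub0 (wnd 5, a)) (tub0 (wnd 5, b))) gam := by
  refine NTC_core hc ?_ ?_
  · have h := h1 _ NTC_u01
    have e : ∀ a : V2, rho (tub0 (a, ![0, 1])) = (wnd (13 / 4), a, wnd 1) := by
      intro a
      simp only [rho, tub0]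
      norm_num
    simp only [e] at h
    exact h
  · have h := h2 _ NTC_u10
    have e : ∀ a : V2, rho (rho (tub0 (a, ![-1, 0]))) = (wnd (3 / 4), wnd 3, a) := by
      intro a
      simp only [rho, tub0]
      norm_num
    simp only [e] at h
    exact h

private theorem NTC_rho3 (x : V6) : rho (rho (rho x)) = x := rfl

private theorem NTC_rho_cont : Continuous rho := by
  unfold rho
  fun_prop

private theorem NTC_rho_coc {Q : Type*} [Group Q] {c : V6 → V6 → Q} (hc : NCoc c A3) :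
    NCoc (fun x y : V6 => c (rho x) (rho y)) A3 :=
  NCoc.comp NTC_rho_cont.continuousOn (hc.mono rho_A3.image_subset)

private theorem NTC_t0 (z u : V2) : tub3 ((z, 0), u) = tub0 (z, u) := by
  unfold tub3
  rw [if_pos rfl]

private theorem NTC_t1 (z u : V2) : tub3 ((z, 1), u) = rho (tub0 (z, u)) := by
  unfold tub3
  rw [if_neg one_ne_zero, if_pos rfl]

private theorem NTC_t2 (z u : V2) : tub3 ((z, 2), u) = rho (rho (tub0 (z, u))) := by
  unfold tub3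
  rw [if_neg two_ne_zero, if_neg (by norm_num)]

private theorem NTC_j0 : (0 : ℝ) ∈ J3 := Or.inl rfl
private theorem NTC_j1 : (1 : ℝ) ∈ J3 := Or.inr (Or.inl rfl)
private theorem NTC_j2 : (2 : ℝ) ∈ J3 := Or.inr (Or.inr rfl)

theorem A3_mu {Q : Type*} [Group Q] {c : V6 → V6 → Q} (hc : NCoc c A3)
    (he : ∀ j ∈ J3, ∀ u ∈ gam,
      NTriv (fun a b : V2 => c (tub3 ((a, j), u)) (tub3 ((b, j), u))) gam) :
    ∀ j ∈ J3, NTriv (fun a b : V2 => c (tub3 ((wnd 5, j), a)) (tub3 ((wnd 5, j), b))) gam := by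
  have e0 : ∀ u ∈ gam, NTriv (fun a b : V2 => c (tub0 (a, u)) (tub0 (b, u))) gam := by
    intro u hu
    have h := he 0 NTC_j0 u hu
    simp only [NTC_t0] at h
    exact h
  have e1 : ∀ u ∈ gam,
      NTriv (fun a b : V2 => c (rho (tub0 (a, u))) (rho (tub0 (b, u)))) gam := by
    intro u hu
    have h := he 1 NTC_j1 u hu
    simp only [NTC_t1] at h
    exact h
  have e2 : ∀ u ∈ gam, NTriv (fun a b : V2 => c (rho (rho (tub0 (a, u))))
      (rho (rho (tub0 (b, u))))) gam := by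
    intro u hu
    have h := he 2 NTC_j2 u hu
    simp only [NTC_t2] at h
    exact h
  rintro j (rfl | rfl | rfl)
  · simp only [NTC_t0]
    exact NTC_core' hc e1 e2
  · simp only [NTC_t1]
    exact NTC_core' (c := fun x y : V6 => c (rho x) (rho y)) (NTC_rho_coc hc) e2
      (fun u hu => e0 u hu)
  · simp only [NTC_t2]
    exact NTC_core' (c := fun x y : V6 => c (rho (rho x)) (rho (rho y)))
      (NTC_rho_coc (c := fun x y : V6 => c (rho x) (rho y)) (NTC_rho_coc hc))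
      (fun u hu => e0 u hu) (fun u hu => e1 u hu)

/-- A cocycle on the 3-torus which is trivial on the three tubes is trivial. -/
theorem T3_triv {Q : Type*} [Group Q] {c : V6 → V6 → Q} (hc : NCoc c T3)
    (h : ∀ j ∈ J3, NTriv (fun a b : V2 => c (tub3 ((a, j), 0)) (tub3 ((b, j), 0))) gam) :
    NTriv c T3 := by
  have h0 : NTriv (fun a b : V2 => c (a, wnd 1, wnd 3) (b, wnd 1, wnd 3)) gam := by
    have h := h 0 NTC_j0
    have e : ∀ a : V2, tub3 ((a, 0), 0) = (a, wnd 1, wnd 3) := by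
      intro a
      rw [NTC_t0]
      simp [tub0]
    simp only [e] at h
    exact h
  have h1 : NTriv (fun a b : V2 => c (wnd 3, a, wnd 1) (wnd 3, b, wnd 1)) gam := by
    have h := h 1 NTC_j1
    have e : ∀ a : V2, tub3 ((a, 1), 0) = (wnd 3, a, wnd 1) := by
      intro a
      rw [NTC_t1]
      simp [rho, tub0]
    simp only [e] at h
    exact h
  have h2 : NTriv (fun a b : V2 => c (wnd 1, wnd 3, a) (wnd 1, wnd 3, b)) gam := by
    have h := h 2 NTC_j2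
    have e : ∀ a : V2, tub3 ((a, 2), 0) = (wnd 1, wnd 3, a) := by
      intro a
      rw [NTC_t2]
      simp [rho, tub0]
    simp only [e] at h
    exact h
  have cg := NTC_compact
  have pg := gam_conn.isPreconnected
  have m2 : NTriv c ({wnd 3} ×ˢ ({wnd 3} ×ˢ gam)) := by
    refine NTriv.prod_move' (A := gam) (B := {wnd 3} ×ˢ gam) cg
      (isCompact_singleton.prod cg) pg (hc.mono ?_) (wnd_mem 1) (wnd_mem 3) ?_
    · rintro ⟨x, y, z⟩ ⟨hx, hy, hz⟩
      refine ⟨hx, ?_, hz⟩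
      rw [show y = wnd 3 from hy]
      exact wnd_mem 3
    · rw [NTriv.slice_iff', NTriv.slice_iff']
      exact h2
  have hd : NCoc (fun p q : V2 × V2 => c (wnd 3, p) (wnd 3, q)) (gam ×ˢ gam) := by
    refine NCoc.comp (φ := fun p : V2 × V2 => ((wnd 3, p) : V6)) (by fun_prop) (hc.mono ?_)
    rintro _ ⟨⟨y, z⟩, h, rfl⟩
    exact ⟨wnd_mem 3, h⟩
  have t1 : NTriv (fun p q : V2 × V2 => c (wnd 3, p) (wnd 3, q)) (gam ×ˢ gam) := by
    refine NTriv.prod cg cg pg pg hd (wnd_mem 3) (wnd_mem 1) ?_ ?_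
    · rw [NTriv.slice_iff]
      exact h1
    · rw [NTriv.slice_iff'] at m2
      exact m2
  refine NTriv.prod cg (cg.prod cg) pg (pg.prod pg) hc (wnd_mem 3)
    (b := (wnd 1, wnd 3)) ⟨wnd_mem 1, wnd_mem 3⟩ ?_ ?_
  · rw [NTriv.slice_iff]
    exact h0
  · rw [NTriv.slice_iff']
    exact t1

end Pool.H54.UB

end S_NTC

section S_EXT

/-!
# Row EXT: extending a cocycle over a tube on whose boundary it is trivial

Let `A = X \ ι (P × ball 0 1)`.  Step 1: `c` is trivial on the shell `Sh = ι (P × {1 ≤ ‖u‖ ≤ 2}) ⊆ A`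
(`NTriv.deform` with `H (ι (z,u), t) = ι (z, (1-t) u + t u/‖u‖)`, written with the inverse of `ι`, which is
continuous on the compact image; `T = ι (P × sphere 0 1)`).  Let `g` be a primitive on the shell; redefine
`g x = 1` for `x ∉ Sh`.
Step 2: put `c' a b = (g a)⁻¹ * g b` if `a, b ∈ W := ι (P × closedBall 0 2)`, and `c' a b = c a b` otherwise.
* Near a point `x ∈ ι (P × ball 0 2)`: `W` is a neighbourhood in `X`, so `c'` is the coboundary of `g`
  there.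
* Near any point `x ∈ A`, for `a, b ∈ A` near `x`: if `a, b ∈ W` then `a, b ∈ Sh` (injectivity of `ι`) and
  `c a b = (g a)⁻¹ * g b = c' a b` provided `x ∈ Sh` and `a, b` are near `x`; if `x ∉ Sh` then (`x ∉ W`,
  `W` closed) `a, b ∉ W`.  So `c' = c` near `x` on `A`: in particular `c'` satisfies the cocycle identity
  near every point of `A \ ι (P × closedBall 0 1)`, which is open in `X`.
Hence `NCoc c' X`; and `c'` is trivial on `W` (primitive `g`).
-/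

open Set Topology Metric

namespace Pool.H54.UB

variable {E G : Type*} [NormedAddCommGroup E] [NormedSpace ℝ E] [FiniteDimensional ℝ E]
  [NormedAddCommGroup G] [NormedSpace ℝ G] [FiniteDimensional ℝ G]

theorem EXT_congr {X Q : Type*} [TopologicalSpace X] [Group Q] {c c' : X → X → Q} {S : Set X}
    (h : ∀ a ∈ S, ∀ b ∈ S, c a b = c' a b) (hc : NTriv c S) : NTriv c' S := by
  obtain ⟨g, hg⟩ := hc
  refine ⟨g, fun x hx => ?_⟩
  obtain ⟨U, hU, h1⟩ := hg x hx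
  exact ⟨U, hU, fun a ha b hb => by rw [← h a ha.2 b hb.2]; exact h1 a ha b hb⟩

theorem EXT_inv {X Y : Type*} [TopologicalSpace X] [TopologicalSpace Y] [T2Space Y] [Nonempty X]
    {K : Set X} (hK : IsCompact K) {ι : X → Y} (hc : ContinuousOn ι K) (hi : InjOn ι K) :
    ContinuousOn (Function.invFunOn ι K) (ι '' K) := by
  rintro _ ⟨p, hp, rfl⟩
  have hinv : ∀ q ∈ K, Function.invFunOn ι K (ι q) = q := fun q hq => hi.leftInvOn_invFunOn hq
  intro V hV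
  rw [hinv p hp] at hV
  have h1 := emb_nhds hK hc hi hp (mem_nhdsWithin_of_mem_nhds hV)
  rw [Filter.mem_map]
  refine Filter.mem_of_superset h1 ?_
  rintro _ ⟨q, ⟨hqV, hqK⟩, rfl⟩
  show Function.invFunOn ι K (ι q) ∈ V
  rw [hinv q hqK]
  exact hqV

/-- the shell -/
def EXT_sh (k : ℕ) : Set (Fin k → ℝ) := {u | 1 ≤ ‖u‖ ∧ ‖u‖ ≤ 2}

theorem EXT_shell {Q : Type*} [Group Q] {P : Set G} {k : ℕ} {X : Set E}
    {ι : G × (Fin k → ℝ) → E} (h : Tube P k X ι)
    {c : E → E → Q} (hc : NCoc c (ι '' (P ×ˢ EXT_sh k)))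
    (ht : NTriv c (ι '' (P ×ˢ sphere (0 : Fin k → ℝ) 1))) : NTriv c (ι '' (P ×ˢ EXT_sh k)) := by
  have hK : IsCompact (P ×ˢ closedBall (0 : Fin k → ℝ) 2) := h.pl.domain.isCompact
  have hιc := h.pl.continuousOn
  have hsub : P ×ˢ EXT_sh k ⊆ P ×ˢ closedBall (0 : Fin k → ℝ) 2 :=
    prod_mono le_rfl fun u hu => mem_closedBall_zero_iff.2 hu.2
  have hsub1 : P ×ˢ sphere (0 : Fin k → ℝ) 1 ⊆ P ×ˢ closedBall (0 : Fin k → ℝ) 2 :=
    prod_mono le_rfl fun u hu => mem_closedBall_zero_iff.2 (by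
      rw [mem_sphere_zero_iff_norm] at hu
      rw [hu]
      norm_num)
  have h1 : NCoc (fun a b => c (ι a) (ι b)) (P ×ˢ EXT_sh k) := NCoc.comp (hιc.mono hsub) hc
  have h2 : NTriv (fun a b => c (ι a) (ι b)) (P ×ˢ sphere (0 : Fin k → ℝ) 1) :=
    NTriv.comp (hιc.mono hsub1) ht
  have h3 : NTriv (fun a b => c (ι a) (ι b)) (P ×ˢ EXT_sh k) := by
    refine NTriv.deform (T := P ×ˢ sphere (0 : Fin k → ℝ) 1)
      (H := fun q : (G × (Fin k → ℝ)) × ℝ =>
        (q.1.1, ((1 - q.2) + q.2 * ‖q.1.2‖⁻¹) • q.1.2)) ?_ h1 ?_ ?_ ?_ h2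
    · have hn : ContinuousOn (fun q : (G × (Fin k → ℝ)) × ℝ => ‖q.1.2‖⁻¹)
          ((P ×ˢ EXT_sh k) ×ˢ Icc (0 : ℝ) 1) := by
        refine ContinuousOn.inv₀ (by fun_prop) ?_
        rintro ⟨⟨z, u⟩, t⟩ ⟨⟨_, hu⟩, _⟩
        have h4 : 1 ≤ ‖u‖ := hu.1
        show ‖u‖ ≠ 0
        linarith
      have hf : ContinuousOn (fun q : (G × (Fin k → ℝ)) × ℝ => q.2)
          ((P ×ˢ EXT_sh k) ×ˢ Icc (0 : ℝ) 1) := continuous_snd.continuousOn
      have hu : ContinuousOn (fun q : (G × (Fin k → ℝ)) × ℝ => q.1.2)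
          ((P ×ˢ EXT_sh k) ×ˢ Icc (0 : ℝ) 1) := (continuous_snd.comp continuous_fst).continuousOn
      have hz : ContinuousOn (fun q : (G × (Fin k → ℝ)) × ℝ => q.1.1)
          ((P ×ˢ EXT_sh k) ×ˢ Icc (0 : ℝ) 1) := (continuous_fst.comp continuous_fst).continuousOn
      exact hz.prodMk (((continuousOn_const.sub hf).add (hf.mul hn)).smul hu)
    · rintro ⟨z, u⟩ ⟨hz, hu⟩ t ht'
      refine ⟨hz, ?_⟩
      have a1 : 1 ≤ ‖u‖ := hu.1
      have a2 : ‖u‖ ≤ 2 := hu.2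
      have a3 : 0 < ‖u‖ := by linarith
      have a4 : ‖(1 - t + t * ‖u‖⁻¹) • u‖ = (1 - t) * ‖u‖ + t := by
        rw [norm_smul, Real.norm_of_nonneg]
        · field_simp
        · have : 0 ≤ t * ‖u‖⁻¹ := mul_nonneg ht'.1 (inv_nonneg.2 a3.le)
          linarith [ht'.2]
      show 1 ≤ ‖(1 - t + t * ‖u‖⁻¹) • u‖ ∧ ‖(1 - t + t * ‖u‖⁻¹) • u‖ ≤ 2
      rw [a4]
      have b1 := ht'.1
      have b2 := ht'.2
      constructor
      · nlinarith [mul_nonneg (sub_nonneg.2 b2) (sub_nonneg.2 a1)]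
      · nlinarith [mul_nonneg (sub_nonneg.2 b2) (sub_nonneg.2 a2)]
    · rintro ⟨z, u⟩ _
      show (z, ((1 - 0) + 0 * ‖u‖⁻¹) • u) = (z, u)
      rw [sub_zero, zero_mul, add_zero, one_smul]
    · rintro ⟨z, u⟩ ⟨hz, hu⟩
      refine ⟨hz, ?_⟩
      have a1 : 1 ≤ ‖u‖ := hu.1
      have a3 : ‖u‖ ≠ 0 := by
        intro h0
        rw [h0] at a1
        linarith
      show ((1 - 1) + 1 * ‖u‖⁻¹) • u ∈ sphere (0 : Fin k → ℝ) 1
      rw [mem_sphere_zero_iff_norm, sub_self, zero_add, one_mul, norm_smul, norm_inv, norm_norm,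
        inv_mul_cancel₀ a3]
  have hinvK : ∀ q ∈ P ×ˢ closedBall (0 : Fin k → ℝ) 2,
      Function.invFunOn ι (P ×ˢ closedBall (0 : Fin k → ℝ) 2) (ι q) = q :=
    fun q hq => h.inj.leftInvOn_invFunOn hq
  have h5 : NTriv (fun a b => (fun a b => c (ι a) (ι b))
      (Function.invFunOn ι (P ×ˢ closedBall (0 : Fin k → ℝ) 2) a)
      (Function.invFunOn ι (P ×ˢ closedBall (0 : Fin k → ℝ) 2) b)) (ι '' (P ×ˢ EXT_sh k)) := by
    refine NTriv.comp (c := fun a b => c (ι a) (ι b))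
      (φ := Function.invFunOn ι (P ×ˢ closedBall (0 : Fin k → ℝ) 2))
      ((EXT_inv hK hιc h.inj).mono (image_mono hsub)) (h3.mono ?_)
    rintro _ ⟨_, ⟨q, hq, rfl⟩, rfl⟩
    rw [hinvK q (hsub hq)]
    exact hq
  refine EXT_congr ?_ h5
  rintro _ ⟨q, hq, rfl⟩ _ ⟨q', hq', rfl⟩
  simp only [hinvK q (hsub hq), hinvK q' (hsub hq')]

theorem tube_extend {Q : Type*} [Group Q] {P : Set G} {k : ℕ} {X : Set E}
    {ι : G × (Fin k → ℝ) → E} (h : Tube P k X ι) (hP : IsPoly P) (hX : IsClosed X)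
    {c : E → E → Q} (hc : NCoc c (X \ ι '' (P ×ˢ ball (0 : Fin k → ℝ) 1)))
    (ht : NTriv c (ι '' (P ×ˢ sphere (0 : Fin k → ℝ) 1))) :
    ∃ c' : E → E → Q, NCoc c' X ∧
      (∀ x ∈ X \ ι '' (P ×ˢ ball (0 : Fin k → ℝ) 1), ∃ U ∈ 𝓝 x,
        ∀ a ∈ U ∩ (X \ ι '' (P ×ˢ ball (0 : Fin k → ℝ) 1)),
        ∀ b ∈ U ∩ (X \ ι '' (P ×ˢ ball (0 : Fin k → ℝ) 1)), c' a b = c a b) ∧
      NTriv c' (ι '' (P ×ˢ closedBall (0 : Fin k → ℝ) 2)) := by
  classical
  have hK : IsCompact (P ×ˢ closedBall (0 : Fin k → ℝ) 2) := h.pl.domain.isCompact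
  have hιc := h.pl.continuousOn
  have hb1 : P ×ˢ ball (0 : Fin k → ℝ) 1 ⊆ P ×ˢ closedBall (0 : Fin k → ℝ) 2 :=
    prod_mono le_rfl (ball_subset_closedBall.trans (closedBall_subset_closedBall one_le_two))
  have hb1' : P ×ˢ closedBall (0 : Fin k → ℝ) 1 ⊆ P ×ˢ closedBall (0 : Fin k → ℝ) 2 :=
    prod_mono le_rfl (closedBall_subset_closedBall one_le_two)
  have hW : IsClosed (ι '' (P ×ˢ closedBall (0 : Fin k → ℝ) 2)) :=
    (hK.image_of_continuousOn hιc).isClosed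
  have hT : IsClosed (ι '' (P ×ˢ closedBall (0 : Fin k → ℝ) 1)) :=
    ((hP.isCompact.prod (isCompact_closedBall _ _)).image_of_continuousOn
      (hιc.mono hb1')).isClosed
  have hsub : P ×ˢ EXT_sh k ⊆ P ×ˢ closedBall (0 : Fin k → ℝ) 2 :=
    prod_mono le_rfl fun u hu => mem_closedBall_zero_iff.2 hu.2
  set A := X \ ι '' (P ×ˢ ball (0 : Fin k → ℝ) 1) with hAdef
  set W := ι '' (P ×ˢ closedBall (0 : Fin k → ℝ) 2) with hWdef
  have hShA : ι '' (P ×ˢ EXT_sh k) ⊆ A := by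
    rintro _ ⟨p, hp, rfl⟩
    refine ⟨h.maps (hsub hp), ?_⟩
    rintro ⟨q, hq, he⟩
    have hqp := h.inj (hb1 hq) (hsub hp) he
    have h4 := hq.2
    rw [hqp, mem_ball_zero_iff] at h4
    exact absurd hp.2.1 (not_le.2 h4)
  have hAW : ∀ y ∈ A, y ∈ W → y ∈ ι '' (P ×ˢ EXT_sh k) := by
    rintro y hyA ⟨p, hp, rfl⟩
    refine ⟨p, ⟨hp.1, ?_, mem_closedBall_zero_iff.1 hp.2⟩, rfl⟩
    by_contra hlt
    exact hyA.2 ⟨p, ⟨hp.1, mem_ball_zero_iff.2 (not_le.1 hlt)⟩, rfl⟩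
  obtain ⟨g, hg⟩ := EXT_shell h (hc.mono hShA) ht
  have hc'W : ∀ a ∈ W, ∀ b ∈ W,
      (if a ∈ W ∧ b ∈ W then (g a)⁻¹ * g b else c a b) = (g a)⁻¹ * g b :=
    fun a ha b hb => if_pos ⟨ha, hb⟩
  have hloc : ∀ x ∈ A, ∃ U ∈ 𝓝 x, ∀ a ∈ U ∩ A, ∀ b ∈ U ∩ A,
      (if a ∈ W ∧ b ∈ W then (g a)⁻¹ * g b else c a b) = c a b := by
    intro x hx
    by_cases hxW : x ∈ W
    · obtain ⟨U, hU, h1⟩ := hg x (hAW x hx hxW)
      refine ⟨U, hU, fun a ha b hb => ?_⟩
      by_cases hab : a ∈ W ∧ b ∈ W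
      · rw [if_pos hab]
        exact (h1 a ⟨ha.1, hAW a ha.2 hab.1⟩ b ⟨hb.1, hAW b hb.2 hab.2⟩).symm
      · rw [if_neg hab]
    · refine ⟨Wᶜ, hW.isOpen_compl.mem_nhds hxW, fun a ha b hb => ?_⟩
      rw [if_neg (fun hab => ha.1 hab.1)]
  refine ⟨fun a b => if a ∈ W ∧ b ∈ W then (g a)⁻¹ * g b else c a b, ?_, hloc, ?_⟩
  · intro x hx
    by_cases hxb : x ∈ ι '' (P ×ˢ ball (0 : Fin k → ℝ) 2)
    · obtain ⟨p, hp, rfl⟩ := hxb
      obtain ⟨U, hU, hUX⟩ := mem_nhdsWithin_iff_exists_mem_nhds_inter.1 (h.nhd p hp)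
      refine ⟨U, hU, fun a ha b hb d hd => ?_⟩
      simp only [hc'W a (hUX ha) b (hUX hb), hc'W b (hUX hb) d (hUX hd), hc'W a (hUX ha) d (hUX hd)]
      group
    · have hxT : x ∉ ι '' (P ×ˢ closedBall (0 : Fin k → ℝ) 1) := by
        intro h1
        refine hxb (image_mono (prod_mono le_rfl ?_) h1)
        exact closedBall_subset_ball one_lt_two
      have hUA : ∀ y ∈ (ι '' (P ×ˢ closedBall (0 : Fin k → ℝ) 1))ᶜ ∩ X, y ∈ A := by
        rintro y ⟨hy1, hy2⟩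
        refine ⟨hy2, fun h1 => hy1 (image_mono (prod_mono le_rfl ball_subset_closedBall) h1)⟩
      have hxA : x ∈ A := hUA x ⟨hxT, hx⟩
      obtain ⟨U1, hU1, h1⟩ := hc x hxA
      obtain ⟨U2, hU2, h2⟩ := hloc x hxA
      refine ⟨(ι '' (P ×ˢ closedBall (0 : Fin k → ℝ) 1))ᶜ ∩ (U1 ∩ U2),
        Filter.inter_mem (hT.isOpen_compl.mem_nhds hxT) (Filter.inter_mem hU1 hU2), ?_⟩
      intro a ha b hb d hd
      have ha' := hUA a ⟨ha.1.1, ha.2⟩
      have hb' := hUA b ⟨hb.1.1, hb.2⟩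
      have hd' := hUA d ⟨hd.1.1, hd.2⟩
      have e1 := h2 a ⟨ha.1.2.2, ha'⟩ b ⟨hb.1.2.2, hb'⟩
      have e2 := h2 b ⟨hb.1.2.2, hb'⟩ d ⟨hd.1.2.2, hd'⟩
      have e3 := h2 a ⟨ha.1.2.2, ha'⟩ d ⟨hd.1.2.2, hd'⟩
      simp only [e1, e2, e3]
      exact h1 a ⟨ha.1.2.1, ha'⟩ b ⟨hb.1.2.1, hb'⟩ d ⟨hd.1.2.1, hd'⟩
  · exact ⟨g, fun x _ => ⟨univ, Filter.univ_mem, fun a ha b hb => hc'W a ha.2 b hb.2⟩⟩

/-- If the extended cocycle is trivial, so is the given one. -/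
theorem NTriv.of_local_eq {X Q : Type*} [TopologicalSpace X] [Group Q] {c c' : X → X → Q}
    {S : Set X} (h : ∀ x ∈ S, ∃ U ∈ 𝓝 x, ∀ a ∈ U ∩ S, ∀ b ∈ U ∩ S, c' a b = c a b)
    (hc : NTriv c' S) : NTriv c S := by
  obtain ⟨g, hg⟩ := hc
  refine ⟨g, fun x hx => ?_⟩
  obtain ⟨U, hU, h1⟩ := hg x hx
  obtain ⟨U', hU', h2⟩ := h x hx
  refine ⟨U ∩ U', Filter.inter_mem hU hU', fun a ha b hb => ?_⟩
  rw [← h2 a ⟨ha.1.2, ha.2⟩ b ⟨hb.1.2, hb.2⟩]
  exact h1 a ⟨ha.1.1, ha.2⟩ b ⟨hb.1.1, hb.2⟩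

end Pool.H54.UB

end S_EXT

section S_STL

/-!
# Row STL: cocycles on a solid torus `gam × C`, `C` convex

Fix `e₀ ∈ C`.  The cocycle `(s, t) ↦ c (wnd s, e₀) (wnd t, e₀)` on the line (`NCoc.comp`) has a primitive
`G : ℝ → Q` (`QTriv.convex` for `univ`).  `s ↦ G (s + 8)` is a primitive of the same cocycle (`wnd_per`),
so `G (s + 8) = τ * G s` for a constant `τ` (`const_of_local` on `univ`), and `G (s + 8 n) = τ ^ n * G s`
for `n : ℤ`.

* `τ = 1`: `G` is 8-periodic, `z ↦ G (ang z)` is a primitive on `gam` (near `wnd s` every point of `gam` is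
  `wnd t` with `t` near `s` by `wnd_open`, and `G (ang (wnd t)) = G t` by `ang_wnd`); then
  `NTriv.prod_convex`.
* A loop `κ` with `(κ (wnd s)).1 = wnd (n s + r)`: by `NTriv.move` with
  `Φ (z, t) = ((κ z).1, (1-t) • (κ z).2 + t • e₀)`, `c` is trivial along `κ` iff it is trivial along
  `z ↦ ((κ z).1, e₀)`.  If `h` is a primitive of the latter on `gam`, then `s ↦ h (wnd s)` and
  `s ↦ G (n s + r)` are primitives of the same cocycle on the line, so `h (wnd s) = q * G (n s + r)`;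
  periodicity of the left side gives `τ ^ n = 1`.  Conversely, if `τ ^ n = 1` then `s ↦ G (n s + r)` is
  periodic and descends to `gam` as above.
-/

open Set Topology

namespace Pool.H54.UB

variable {E : Type*} [NormedAddCommGroup E] [NormedSpace ℝ E]

theorem STL_per {Q : Type*} [Group Q] {G : ℝ → Q} {τ : Q} (h : ∀ s, G (s + 8) = τ * G s) (n : ℤ)
    (s : ℝ) : G (s + 8 * n) = τ ^ n * G s := by
  have hp : ∀ (k : ℕ) (s : ℝ), G (s + 8 * k) = τ ^ (k : ℤ) * G s := by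
    intro k
    induction k with
    | zero => intro s; simp
    | succ k ih =>
      intro s
      have h1 : s + 8 * ((k + 1 : ℕ) : ℝ) = (s + 8) + 8 * (k : ℝ) := by push_cast; ring
      rw [h1, ih, h s, ← mul_assoc]
      congr 1
      push_cast
      rw [zpow_add_one]
  obtain ⟨k, rfl | rfl⟩ := n.eq_nat_or_neg
  · have h1 := hp k s
    exact_mod_cast h1
  · have h1 := hp k (s + 8 * ((-(k : ℤ) : ℤ) : ℝ))
    have h2 : s + 8 * ((-(k : ℤ) : ℤ) : ℝ) + 8 * (k : ℝ) = s := by push_cast; ring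
    rw [h2] at h1
    rw [h1, ← mul_assoc, ← zpow_add]
    simp

/-- two primitives on the line differ by a constant -/
theorem STL_const {Q : Type*} [Group Q] {c : ℝ → ℝ → Q} {g g' : ℝ → Q}
    (h : ∀ s, ∃ U ∈ 𝓝 s, ∀ a ∈ U, ∀ b ∈ U, c a b = (g a)⁻¹ * g b)
    (h' : ∀ s, ∃ U ∈ 𝓝 s, ∀ a ∈ U, ∀ b ∈ U, c a b = (g' a)⁻¹ * g' b) (s t : ℝ) :
    g s * (g' s)⁻¹ = g t * (g' t)⁻¹ := by
  refine const_of_local (S := univ) isPreconnected_univ ?_ (mem_univ _) (mem_univ _)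
  intro x _
  obtain ⟨U, hU, h1⟩ := h x
  obtain ⟨V, hV, h2⟩ := h' x
  refine ⟨U ∩ V, Filter.inter_mem hU hV, fun y hy => ?_⟩
  rw [← h1 x (mem_of_mem_nhds hU) y hy.1.1, ← h2 x (mem_of_mem_nhds hV) y hy.1.2]

/-- periodic primitives descend -/
theorem STL_desc {Q : Type*} [Group Q] {c : V2 → V2 → Q} {H : ℝ → Q}
    (h : ∀ s, ∃ U ∈ 𝓝 s, ∀ a ∈ U, ∀ b ∈ U, c (wnd a) (wnd b) = (H a)⁻¹ * H b)
    (hper : ∀ (k : ℤ) (s : ℝ), H (s + 8 * k) = H s) : NTriv c gam := by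
  refine ⟨fun z => H (ang z), fun x hx => ?_⟩
  obtain ⟨-, hs⟩ := ang_mem hx
  obtain ⟨U, hU, h1⟩ := h (ang x)
  obtain ⟨ε, hε, hεU⟩ := Metric.mem_nhds_iff.1 hU
  have h2 := wnd_open (ang x) hε
  rw [hs] at h2
  obtain ⟨V, hV, hVs⟩ := mem_nhdsWithin_iff_exists_mem_nhds_inter.1 h2
  have hIoo : Ioo (ang x - ε) (ang x + ε) ⊆ U := by
    rw [← Real.ball_eq_Ioo]
    exact hεU
  refine ⟨V, hV, ?_⟩
  rintro a ha b hb
  obtain ⟨α, hα, rfl⟩ := hVs ha
  obtain ⟨β, hβ, rfl⟩ := hVs hb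
  have hA : ∀ s, H (ang (wnd s)) = H s := by
    intro s
    obtain ⟨k, hk⟩ := ang_wnd s
    rw [hk, hper]
  show c (wnd α) (wnd β) = (H (ang (wnd α)))⁻¹ * H (ang (wnd β))
  rw [hA, hA, h1 α (hIoo hα) β (hIoo hβ)]

theorem solid_torus {Q : Type*} [Group Q] {C : Set E} (hC : Convex ℝ C) (hne : C.Nonempty)
    {c : V2 × E → V2 × E → Q} (hc : NCoc c (gam ×ˢ C)) :
    ∃ τ : Q, (τ = 1 → NTriv c (gam ×ˢ C)) ∧
      ∀ (n : ℤ) (r : ℝ) (κ : V2 → V2 × E), ContinuousOn κ gam → MapsTo κ gam (gam ×ˢ C) →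
        (∀ s : ℝ, (κ (wnd s)).1 = wnd (n * s + r)) →
        (NTriv (fun a b => c (κ a) (κ b)) gam ↔ τ ^ n = 1) := by
  obtain ⟨e₀, he₀⟩ := hne
  -- the cocycle on the line
  have hl : NCoc (fun s t : ℝ => c (wnd s, e₀) (wnd t, e₀)) univ := by
    refine NCoc.comp (c := c) (φ := fun s : ℝ => (wnd s, e₀)) ?_ (hc.mono ?_)
    · exact (wnd_cont.prodMk continuous_const).continuousOn
    · rintro _ ⟨s, -, rfl⟩
      exact ⟨wnd_mem s, he₀⟩
  obtain ⟨G, hG0⟩ := QTriv.convex (convex_univ (𝕜 := ℝ) (E := ℝ)) _ hl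
  have hG : ∀ s, ∃ U ∈ 𝓝 s, ∀ a ∈ U, ∀ b ∈ U, c (wnd a, e₀) (wnd b, e₀) = (G a)⁻¹ * G b := by
    intro s
    obtain ⟨U, hU, h1⟩ := hG0 s (mem_univ s)
    exact ⟨U, hU, fun a ha b hb => h1 a ⟨ha, mem_univ a⟩ b ⟨hb, mem_univ b⟩⟩
  have hpull : ∀ (n r : ℝ) (s : ℝ), ∃ U ∈ 𝓝 s, ∀ a ∈ U, ∀ b ∈ U,
      c (wnd (n * a + r), e₀) (wnd (n * b + r), e₀) = (G (n * a + r))⁻¹ * G (n * b + r) := by
    intro n r s
    obtain ⟨U, hU, h1⟩ := hG (n * s + r)
    have hcont : Continuous (fun x : ℝ => n * x + r) := by fun_prop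
    exact ⟨(fun x : ℝ => n * x + r) ⁻¹' U, hcont.continuousAt.preimage_mem_nhds hU,
      fun a ha b hb => h1 _ ha _ hb⟩
  have hper1 : ∀ s, wnd (s + 8) = wnd s := by
    intro s
    have := wnd_per s 1
    rwa [Int.cast_one, mul_one] at this
  have h8 : ∀ s, ∃ U ∈ 𝓝 s, ∀ a ∈ U, ∀ b ∈ U,
      c (wnd a, e₀) (wnd b, e₀) = (G (a + 8))⁻¹ * G (b + 8) := by
    intro s
    obtain ⟨U, hU, h1⟩ := hpull 1 8 s
    refine ⟨U, hU, fun a ha b hb => ?_⟩
    have := h1 a ha b hb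
    rwa [one_mul, one_mul, hper1, hper1] at this
  obtain ⟨τ, hτ⟩ : ∃ τ : Q, ∀ s, G (s + 8) = τ * G s := by
    refine ⟨G (0 + 8) * (G 0)⁻¹, fun s => ?_⟩
    have := STL_const h8 hG s 0
    rw [← this]
    group
  refine ⟨τ, ?_, ?_⟩
  · intro h1
    refine NTriv.prod_convex hC he₀ hc (STL_desc (c := fun a b => c (a, e₀) (b, e₀)) hG ?_)
    intro k s
    rw [STL_per hτ k s, h1, one_zpow, one_mul]
  · intro n r κ hκ hκm hκ1
    -- the line cocycle of the loop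
    have hline : ∀ s, ∃ U ∈ 𝓝 s, ∀ a ∈ U, ∀ b ∈ U,
        c ((κ (wnd a)).1, e₀) ((κ (wnd b)).1, e₀) = (G (n * a + r))⁻¹ * G (n * b + r) := by
      intro s
      obtain ⟨U, hU, h1⟩ := hpull n r s
      refine ⟨U, hU, fun a ha b hb => ?_⟩
      rw [hκ1, hκ1]
      exact h1 a ha b hb
    have hB : NTriv (fun a b => c ((κ a).1, e₀) ((κ b).1, e₀)) gam ↔ τ ^ n = 1 := by
      constructor
      · rintro ⟨h, hh⟩
        have h1 : ∀ s, ∃ U ∈ 𝓝 s, ∀ a ∈ U, ∀ b ∈ U,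
            c ((κ (wnd a)).1, e₀) ((κ (wnd b)).1, e₀) = (h (wnd a))⁻¹ * h (wnd b) := by
          intro s
          obtain ⟨U, hU, h1⟩ := hh (wnd s) (wnd_mem s)
          exact ⟨wnd ⁻¹' U, wnd_cont.continuousAt.preimage_mem_nhds hU,
            fun a ha b hb => h1 _ ⟨ha, wnd_mem a⟩ _ ⟨hb, wnd_mem b⟩⟩
        have h2 := STL_const h1 hline 0 (0 + 8)
        rw [hper1] at h2
        have h3 := mul_left_cancel h2
        rw [inv_inj] at h3
        have h4 : (n : ℝ) * (0 + 8) + r = (n * 0 + r) + 8 * n := by ring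
        rw [h4, STL_per hτ] at h3
        exact (mul_eq_right.1 h3.symm)
      · intro hn
        refine STL_desc (c := fun a b => c ((κ a).1, e₀) ((κ b).1, e₀)) hline ?_
        intro k s
        have h4 : (n : ℝ) * (s + 8 * k) + r = (n * s + r) + 8 * ((n * k : ℤ) : ℝ) := by
          push_cast
          ring
        show G ((n : ℝ) * (s + 8 * k) + r) = G (n * s + r)
        rw [h4, STL_per hτ, zpow_mul, hn, one_zpow, one_mul]
    rw [← hB]
    -- the homotopy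
    obtain ⟨Φ, hΦ⟩ : ∃ Φ : V2 × ℝ → V2 × E, Φ = fun p =>
        ((κ p.1).1, (1 - p.2) • (κ p.1).2 + p.2 • e₀) := ⟨_, rfl⟩
    have hκ' : ContinuousOn (fun p : V2 × ℝ => κ p.1) (gam ×ˢ Icc (0 : ℝ) 1) :=
      hκ.comp continuous_fst.continuousOn (fun p hp => hp.1)
    have hΦc : ContinuousOn Φ (gam ×ˢ Icc (0 : ℝ) 1) := by
      rw [hΦ]
      refine ContinuousOn.prodMk (continuous_fst.comp_continuousOn hκ') ?_
      refine ContinuousOn.add (ContinuousOn.smul (by fun_prop)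
        (continuous_snd.comp_continuousOn hκ')) (by fun_prop)
    have hΦm : Φ '' (gam ×ˢ Icc (0 : ℝ) 1) ⊆ gam ×ˢ C := by
      rintro _ ⟨⟨z, t⟩, ⟨hz, ht⟩, rfl⟩
      rw [hΦ]
      refine ⟨(hκm hz).1, ?_⟩
      exact hC (hκm hz).2 he₀ (by linarith [ht.2]) ht.1 (by ring)
    have hcΦ := hc.mono hΦm
    have h0 : (0 : ℝ) ∈ Icc (0 : ℝ) 1 := ⟨le_rfl, zero_le_one⟩
    have h1 : (1 : ℝ) ∈ Icc (0 : ℝ) 1 := ⟨zero_le_one, le_rfl⟩
    have e0 : (fun a b => c (Φ (a, 0)) (Φ (b, 0))) = fun a b => c (κ a) (κ b) := by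
      rw [hΦ]
      funext a b
      simp
    have e1 : (fun a b => c (Φ (a, 1)) (Φ (b, 1))) = fun a b => c ((κ a).1, e₀) ((κ b).1, e₀) := by
      rw [hΦ]
      funext a b
      simp
    constructor
    · intro h
      rw [← e1]
      rw [← e0] at h
      exact NTriv.move hΦc hcΦ h0 h h1
    · intro h
      rw [← e0]
      rw [← e1] at h
      exact NTriv.move hΦc hcΦ h1 h h0

end Pool.H54.UB

end S_STL

section S_NTQ

/-!
# Row NTQ: cocycles on the base manifold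

`T (wnd s, wnd t) = (wnd (a s + p t), wnd (c s + l t))`, `T' (wnd s, wnd t) = (wnd (l s - p t), ..)` its inverse.
Let `w` be a cocycle on `jA '' A3 ∪ jB '' B3` with values in `Q`, `q ^ l = 1` for all `q`, `p` prime, `p ∤ l`.
For `j ∈ J3` put `w_j (z,v) (z',v') = w (jB ((z,j),v)) (jB ((z',j),v'))` on `gam × closedBall 0 1`, and let
`τ_j` be from `solid_torus`.
1. For `u ∈ gam` the loop `z ↦ tub3 ((z,j),u)` is `phi3 T` of `T' (z,u)`: `jA (tub3 ((z,j),u)) = jB ((z',j),v')`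
   with `(z',v') = T' (z,u)`, `z' = wnd (l s - p t)` for `z = wnd s`, `u = wnd t`: winding number `l`, and
   `τ_j ^ l = 1`.  So `cA = w (jA ·) (jA ·)` is trivial along it.
2. `A3_mu`: `cA` is trivial along `u ↦ tub3 ((wnd 5, j), u)`, which corresponds to
   `T' (wnd 5, wnd t) = (wnd (5 l - p t), ..)`: winding number `-p`, so `τ_j ^ p = 1`, hence `τ_j = 1`, and
   `w_j` is trivial on `gam × closedBall 0 1`.
3. So `w` is trivial on `jB '' ((gam × {j}) × closedBall)`, and `cA` is trivial on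
   `tub3 '' ((gam × {j}) × gam)` for each `j`, hence on the disjoint union over `j ∈ J3`
   (`NTriv.union_closed` with empty intersections).
4. `tube_extend`: `c'` on `T3`, trivial on the tubes; `T3_triv`: trivial on `T3`; so `cA` is trivial on `A3`,
   `w` on `jA '' A3`.
5. Add the three solid tori one by one (`NTriv.union_closed`): the intersection with the union of `jA '' A3`
   and the previous ones is the torus `jB '' ((gam × {j}) × gam)`, connected.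
-/

open Set Topology Metric

namespace Pool.H54.UB

theorem NTQ_push {X Y Q : Type*} [TopologicalSpace X] [TopologicalSpace Y] [T2Space Y] [Group Q]
    {K S : Set X} (hK : IsCompact K) {ι : X → Y} (hc : ContinuousOn ι K) (hi : InjOn ι K)
    (hS : S ⊆ K) {w : Y → Y → Q} (h : NTriv (fun a b => w (ι a) (ι b)) S) : NTriv w (ι '' S) := by
  rcases S.eq_empty_or_nonempty with he | ⟨x0, _⟩
  · rw [he, image_empty]
    exact ⟨fun _ => 1, fun x hx => absurd hx (notMem_empty x)⟩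
  · have : Nonempty X := ⟨x0⟩
    have hinv : ∀ q ∈ K, Function.invFunOn ι K (ι q) = q := fun q hq => hi.leftInvOn_invFunOn hq
    have h1 : ContinuousOn (Function.invFunOn ι K) (ι '' S) :=
      (EXT_inv hK hc hi).mono (image_mono hS)
    have h2 : Function.invFunOn ι K '' (ι '' S) = S := by
      ext y
      constructor
      · rintro ⟨_, ⟨z, hz, rfl⟩, rfl⟩
        rw [hinv z (hS hz)]
        exact hz
      · intro hy
        exact ⟨ι y, ⟨y, hy, rfl⟩, hinv y (hS hy)⟩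
    have h3 : NTriv (fun a b => w (ι a) (ι b)) (Function.invFunOn ι K '' (ι '' S)) := by
      rw [h2]; exact h
    have h4 := NTriv.comp h1 h3
    refine EXT_congr ?_ h4
    rintro _ ⟨a, ha, rfl⟩ _ ⟨b, hb, rfl⟩
    show w (ι (Function.invFunOn ι K (ι a))) (ι (Function.invFunOn ι K (ι b))) = w (ι a) (ι b)
    rw [hinv a (hS ha), hinv b (hS hb)]

theorem NTQ_gam_ball : gam ⊆ closedBall (0 : V2) 1 := sphere_subset_closedBall

theorem NTQ_gam_compact : IsCompact gam := isCompact_sphere _ _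

theorem NTQ_J3_fin : J3.Finite := by
  unfold J3
  exact Set.toFinite _

/-- adding one solid torus -/
theorem NTQ_step {H : Type*} [NormedAddCommGroup H] [NormedSpace ℝ H] [FiniteDimensional ℝ H]
    {φ : (V2 × ℝ) × V2 → V6} {jA : V6 → H} {jB : (V2 × ℝ) × V2 → H}
    (g : Glued A3 B3 DB3 φ jA jB) {Q : Type*} [Group Q] {w : H → H → Q}
    (hw : NCoc w (jA '' A3 ∪ jB '' B3)) {J : Set ℝ} (hJ : J ⊆ J3) {j : ℝ} (hj : j ∈ J3)
    (hjJ : j ∉ J) (h1 : NTriv w (jA '' A3 ∪ jB '' ((gam ×ˢ J) ×ˢ closedBall (0 : V2) 1)))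
    (h2 : NTriv w (jB '' ((gam ×ˢ {j}) ×ˢ closedBall (0 : V2) 1))) :
    NTriv w (jA '' A3 ∪ jB '' ((gam ×ˢ insert j J) ×ˢ closedBall (0 : V2) 1)) := by
  have hsubJ : (gam ×ˢ J) ×ˢ closedBall (0 : V2) 1 ⊆ B3 :=
    prod_mono (prod_mono le_rfl hJ) le_rfl
  have hsubj : (gam ×ˢ ({j} : Set ℝ)) ×ˢ closedBall (0 : V2) 1 ⊆ B3 :=
    prod_mono (prod_mono le_rfl (singleton_subset_iff.2 hj)) le_rfl
  have hcB := g.plB.continuousOn
  have hcA := g.plA.continuousOn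
  have hAc : IsCompact (jA '' A3) := g.plA.domain.isCompact.image_of_continuousOn hcA
  have hJc : IsCompact (jB '' ((gam ×ˢ J) ×ˢ closedBall (0 : V2) 1)) :=
    ((NTQ_gam_compact.prod (NTQ_J3_fin.subset hJ).isCompact).prod
      (isCompact_closedBall _ _)).image_of_continuousOn (hcB.mono hsubJ)
  have hjc : IsCompact (jB '' ((gam ×ˢ ({j} : Set ℝ)) ×ˢ closedBall (0 : V2) 1)) :=
    ((NTQ_gam_compact.prod isCompact_singleton).prod
      (isCompact_closedBall _ _)).image_of_continuousOn (hcB.mono hsubj)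
  have e : jA '' A3 ∪ jB '' ((gam ×ˢ insert j J) ×ˢ closedBall (0 : V2) 1) =
      (jA '' A3 ∪ jB '' ((gam ×ˢ J) ×ˢ closedBall (0 : V2) 1)) ∪
        jB '' ((gam ×ˢ ({j} : Set ℝ)) ×ˢ closedBall (0 : V2) 1) := by
    rw [union_assoc, ← image_union]
    congr 2
    ext q
    simp only [mem_prod, mem_insert_iff, mem_union, mem_singleton_iff]
    tauto
  rw [e]
  apply NTriv.union_closed (hAc.isClosed.union hJc.isClosed) hjc.isClosed
  · apply hw.mono
    rintro y ((hy | hy) | hy)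
    · exact Or.inl hy
    · exact Or.inr (image_mono hsubJ hy)
    · exact Or.inr (image_mono hsubj hy)
  · have e2 : (jA '' A3 ∪ jB '' ((gam ×ˢ J) ×ˢ closedBall (0 : V2) 1)) ∩
        jB '' ((gam ×ˢ ({j} : Set ℝ)) ×ˢ closedBall (0 : V2) 1) =
        (fun q : V2 × V2 => jB ((q.1, j), q.2)) '' (gam ×ˢ gam) := by
      ext y
      constructor
      · rintro ⟨hy, q, hq, rfl⟩
        have hqB := hsubj hq
        have hq1 : q.1.2 = j := hq.1.2
        rcases hy with ⟨x, hx, hxy⟩ | ⟨q', hq', hqq⟩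
        · have h3 := (g.sep x hx q hqB hxy).1
          refine ⟨(q.1.1, q.2), ⟨hq.1.1, h3.2⟩, ?_⟩
          simp only
          rw [← hq1]
        · have h4 := g.injB (hsubJ hq') hqB hqq
          rw [h4] at hq'
          exact absurd (hq1 ▸ hq'.1.2) hjJ
      · rintro ⟨q, hq, rfl⟩
        have hDB : (((q.1, j), q.2) : (V2 × ℝ) × V2) ∈ DB3 := ⟨⟨hq.1, hj⟩, hq.2⟩
        refine ⟨Or.inl ⟨φ ((q.1, j), q.2), g.maps hDB, g.comm _ hDB⟩, ?_⟩
        exact ⟨((q.1, j), q.2), ⟨⟨hq.1, rfl⟩, NTQ_gam_ball hq.2⟩, rfl⟩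
    rw [e2]
    apply (gam_conn.isPreconnected.prod gam_conn.isPreconnected).image
    apply hcB.comp
    · fun_prop
    · intro q hq
      exact ⟨⟨hq.1, hj⟩, NTQ_gam_ball hq.2⟩
  · exact h1
  · exact h2

/-- adding one tube boundary -/
theorem NTQ_tube {Q : Type*} [Group Q] {c : V6 → V6 → Q} (hc : NCoc c A3)
    (hA : ∀ j ∈ J3, tub3 '' ((gam ×ˢ ({j} : Set ℝ)) ×ˢ gam) ⊆ A3) {J : Set ℝ} (hJ : J ⊆ J3) {j : ℝ}
    (hj : j ∈ J3) (hjJ : j ∉ J) (h1 : NTriv c (tub3 '' ((gam ×ˢ J) ×ˢ gam)))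
    (h2 : NTriv c (tub3 '' ((gam ×ˢ {j}) ×ˢ gam))) :
    NTriv c (tub3 '' ((gam ×ˢ insert j J) ×ˢ gam)) := by
  have hb : gam ⊆ closedBall (0 : V2) 2 := by
    intro u hu
    have : ‖u‖ = 1 := mem_sphere_zero_iff_norm.1 hu
    rw [mem_closedBall_zero_iff, this]
    norm_num
  have hsubJ : (gam ×ˢ J) ×ˢ gam ⊆ (gam ×ˢ J3) ×ˢ closedBall (0 : V2) 2 :=
    prod_mono (prod_mono le_rfl hJ) hb
  have hsubj : (gam ×ˢ ({j} : Set ℝ)) ×ˢ gam ⊆ (gam ×ˢ J3) ×ˢ closedBall (0 : V2) 2 :=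
    prod_mono (prod_mono le_rfl (singleton_subset_iff.2 hj)) hb
  have hct := tub3_tube.pl.continuousOn
  have hJc : IsCompact (tub3 '' ((gam ×ˢ J) ×ˢ gam)) :=
    ((NTQ_gam_compact.prod (NTQ_J3_fin.subset hJ).isCompact).prod
      NTQ_gam_compact).image_of_continuousOn (hct.mono hsubJ)
  have hjc : IsCompact (tub3 '' ((gam ×ˢ ({j} : Set ℝ)) ×ˢ gam)) :=
    ((NTQ_gam_compact.prod isCompact_singleton).prod
      NTQ_gam_compact).image_of_continuousOn (hct.mono hsubj)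
  have e : tub3 '' ((gam ×ˢ insert j J) ×ˢ gam) =
      tub3 '' ((gam ×ˢ J) ×ˢ gam) ∪ tub3 '' ((gam ×ˢ ({j} : Set ℝ)) ×ˢ gam) := by
    rw [← image_union]
    congr 1
    ext q
    simp only [mem_prod, mem_insert_iff, mem_union, mem_singleton_iff]
    tauto
  rw [e]
  apply NTriv.union_closed hJc.isClosed hjc.isClosed
  · apply hc.mono
    rintro _ (⟨q, hq, rfl⟩ | ⟨q, hq, rfl⟩)
    · exact hA q.1.2 (hJ hq.1.2) ⟨q, ⟨⟨hq.1.1, rfl⟩, hq.2⟩, rfl⟩
    · exact hA j hj ⟨q, hq, rfl⟩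
  · have e2 : tub3 '' ((gam ×ˢ J) ×ˢ gam) ∩ tub3 '' ((gam ×ˢ ({j} : Set ℝ)) ×ˢ gam) = ∅ := by
      apply eq_empty_of_forall_notMem
      rintro y ⟨⟨q, hq, rfl⟩, ⟨q', hq', hqq⟩⟩
      have := tub3_tube.inj (hsubj hq') (hsubJ hq) hqq
      rw [this] at hq'
      have h3 : q.1.2 = j := hq'.1.2
      exact hjJ (h3 ▸ hq.1.2)
    rw [e2]
    exact isPreconnected_empty
  · exact h1
  · exact h2

theorem base_qtriv {H : Type*} [NormedAddCommGroup H] [NormedSpace ℝ H] [FiniteDimensional ℝ H]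
    {p l : ℕ} (hp : p.Prime) (hpl : ¬ p ∣ l) {a c : ℤ} (hdet : a * l - p * c = 1)
    {T T' : V2 × V2 → V2 × V2} (hT : PLOn T (gam ×ˢ gam)) (hT' : PLOn T' (gam ×ˢ gam))
    (hTT : ∀ q ∈ gam ×ˢ gam, T' (T q) = q ∧ T (T' q) = q ∧ T' q ∈ gam ×ˢ gam)
    (hTm : MapsTo T (gam ×ˢ gam) (gam ×ˢ gam))
    (hTf : ∀ s t : ℝ, T (wnd s, wnd t) = (wnd (a * s + p * t), wnd (c * s + l * t)))
    (hTf' : ∀ s t : ℝ, T' (wnd s, wnd t) = (wnd (l * s - p * t), wnd (-c * s + a * t)))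
    {jA : V6 → H} {jB : (V2 × ℝ) × V2 → H} (g : Glued A3 B3 DB3 (phi3 T) jA jB)
    (Q : Type*) [Group Q] (hl : ∀ q : Q, q ^ l = 1) : QTriv Q (jA '' A3 ∪ jB '' B3) := by
  intro w hw
  have hcA := g.plA.continuousOn
  have hcB := g.plB.continuousOn
  have hct := tub3_tube.pl.continuousOn
  have hcT' := hT'.continuousOn
  have hwA : NCoc (fun a b => w (jA a) (jA b)) A3 := NCoc.comp hcA (hw.mono subset_union_left)
  -- the corresponding points
  have hcorr : ∀ j ∈ J3, ∀ z ∈ gam, ∀ u ∈ gam,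
      jB (((T' (z, u)).1, j), (T' (z, u)).2) = jA (tub3 ((z, j), u)) ∧ tub3 ((z, j), u) ∈ A3 := by
    intro j hj z hz u hu
    obtain ⟨-, h2, h3⟩ := hTT (z, u) ⟨hz, hu⟩
    have hDB : ((((T' (z, u)).1, j), (T' (z, u)).2) : (V2 × ℝ) × V2) ∈ DB3 := ⟨⟨h3.1, hj⟩, h3.2⟩
    have e : phi3 T (((T' (z, u)).1, j), (T' (z, u)).2) = tub3 ((z, j), u) := by
      unfold phi3
      have e1 : T ((T' (z, u)).1, (T' (z, u)).2) = (z, u) := h2
      simp only [e1]
    have h4 := g.comm _ hDB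
    have h5 := g.maps hDB
    rw [e] at h4 h5
    exact ⟨h4.symm, h5⟩
  -- the solid tori
  have hmapj : ∀ j ∈ J3, ContinuousOn (fun q : V2 × V2 => jB ((q.1, j), q.2))
      (gam ×ˢ closedBall (0 : V2) 1) := by
    intro j hj
    apply hcB.comp
    · fun_prop
    · intro q hq
      exact ⟨⟨hq.1, hj⟩, hq.2⟩
  have hCne : (closedBall (0 : V2) 1).Nonempty := ⟨0, mem_closedBall_self zero_le_one⟩
  have hτ : ∀ j ∈ J3, ∃ τ : Q,
      (τ = 1 → NTriv (fun q q' : V2 × V2 => w (jB ((q.1, j), q.2)) (jB ((q'.1, j), q'.2)))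
        (gam ×ˢ closedBall (0 : V2) 1)) ∧
      ∀ (n : ℤ) (r : ℝ) (κ : V2 → V2 × V2), ContinuousOn κ gam →
        MapsTo κ gam (gam ×ˢ closedBall (0 : V2) 1) →
        (∀ s : ℝ, (κ (wnd s)).1 = wnd (n * s + r)) →
        (NTriv (fun a b => w (jB (((κ a).1, j), (κ a).2)) (jB (((κ b).1, j), (κ b).2))) gam ↔
          τ ^ n = 1) := by
    intro j hj
    have h1 : NCoc (fun q q' : V2 × V2 => w (jB ((q.1, j), q.2)) (jB ((q'.1, j), q'.2)))
        (gam ×ˢ closedBall (0 : V2) 1) := by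
      apply NCoc.comp (hmapj j hj)
      apply hw.mono
      rintro _ ⟨q, hq, rfl⟩
      exact Or.inr ⟨_, ⟨⟨hq.1, hj⟩, hq.2⟩, rfl⟩
    exact solid_torus (convex_closedBall _ _) hCne h1
  choose! τ hτ1 hτ2 using hτ
  -- step 1
  have hstep1 : ∀ j ∈ J3, ∀ u ∈ gam, NTriv (fun a b : V2 =>
      w (jA (tub3 ((a, j), u))) (jA (tub3 ((b, j), u)))) gam := by
    intro j hj u hu
    obtain ⟨t, -, ht⟩ := wnd_surj 0 hu
    have hκc : ContinuousOn (fun z : V2 => T' (z, u)) gam := by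
      apply hcT'.comp
      · fun_prop
      · intro z hz
        exact ⟨hz, hu⟩
    have h1 := (hτ2 j hj l (-(p * t)) (fun z => T' (z, u)) hκc (by
        intro z hz
        have := (hTT (z, u) ⟨hz, hu⟩).2.2
        exact ⟨this.1, NTQ_gam_ball this.2⟩) (by
        intro s
        have := hTf' s t
        rw [ht] at this
        simp only [this]
        push_cast
        rw [sub_eq_add_neg])).2 (by
        rw [zpow_natCast]
        exact hl _)
    refine EXT_congr ?_ h1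
    intro a ha b hb
    rw [(hcorr j hj a ha u hu).1, (hcorr j hj b hb u hu).1]
  -- step 2
  have hmu := A3_mu hwA hstep1
  have hτ3 : ∀ j ∈ J3, τ j = 1 := by
    intro j hj
    have h5 : wnd 5 ∈ gam := wnd_mem 5
    have hκc : ContinuousOn (fun u : V2 => T' (wnd 5, u)) gam := by
      apply hcT'.comp
      · fun_prop
      · intro z hz
        exact ⟨h5, hz⟩
    have h1 := (hτ2 j hj (-p) (l * 5) (fun u => T' (wnd 5, u)) hκc (by
        intro z hz
        have := (hTT (wnd 5, z) ⟨h5, hz⟩).2.2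
        exact ⟨this.1, NTQ_gam_ball this.2⟩) (by
        intro s
        have := hTf' 5 s
        simp only [this]
        push_cast
        congr 1
        ring)).1 (by
        refine EXT_congr ?_ (hmu j hj)
        intro a ha b hb
        rw [(hcorr j hj _ h5 a ha).1, (hcorr j hj _ h5 b hb).1])
    rw [zpow_neg, zpow_natCast, inv_eq_one] at h1
    have h2 := pow_gcd_eq_one.2 ⟨h1, hl (τ j)⟩
    rwa [(hp.coprime_iff_not_dvd.2 hpl).gcd_eq_one, pow_one] at h2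
  -- `w` on the solid tori
  have hSj : ∀ j ∈ J3, NTriv w (jB '' ((gam ×ˢ ({j} : Set ℝ)) ×ˢ closedBall (0 : V2) 1)) := by
    intro j hj
    have h1 := hτ1 j hj (hτ3 j hj)
    have h2 := NTQ_push (w := w) (NTQ_gam_compact.prod (isCompact_closedBall (0 : V2) 1)) (hmapj j hj) (by
      intro q hq q' hq' he
      have := g.injB (show (((q.1, j), q.2) : (V2 × ℝ) × V2) ∈ B3 from ⟨⟨hq.1, hj⟩, hq.2⟩)
        (show (((q'.1, j), q'.2) : (V2 × ℝ) × V2) ∈ B3 from ⟨⟨hq'.1, hj⟩, hq'.2⟩) he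
      have h3 : q.1 = q'.1 := congrArg (fun r : (V2 × ℝ) × V2 => r.1.1) this
      have h4 : q.2 = q'.2 := congrArg (fun r : (V2 × ℝ) × V2 => r.2) this
      exact Prod.ext h3 h4) le_rfl h1
    have e : (fun q : V2 × V2 => jB ((q.1, j), q.2)) '' (gam ×ˢ closedBall (0 : V2) 1) =
        jB '' ((gam ×ˢ ({j} : Set ℝ)) ×ˢ closedBall (0 : V2) 1) := by
      ext y
      constructor
      · rintro ⟨q, hq, rfl⟩
        exact ⟨_, ⟨⟨hq.1, mem_singleton j⟩, hq.2⟩, rfl⟩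
      · rintro ⟨q, hq, rfl⟩
        have hq1 : q.1.2 = j := hq.1.2
        refine ⟨(q.1.1, q.2), ⟨hq.1.1, hq.2⟩, ?_⟩
        simp only
        rw [← hq1]
    rw [← e]
    exact h2
  -- `cA` on the tube boundaries
  have hAj : ∀ j ∈ J3, tub3 '' ((gam ×ˢ ({j} : Set ℝ)) ×ˢ gam) ⊆ A3 := by
    rintro j hj _ ⟨q, hq, rfl⟩
    have hq1 : q.1.2 = j := hq.1.2
    have := (hcorr j hj q.1.1 hq.1.1 q.2 hq.2).2
    rw [← hq1] at this
    exact this
  have hEj : ∀ j ∈ J3, NTriv (fun a b => w (jA a) (jA b)) (tub3 '' ((gam ×ˢ ({j} : Set ℝ)) ×ˢ gam)) := by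
    intro j hj
    apply NTriv.comp (hcA.mono (hAj j hj))
    apply (hSj j hj).mono
    rintro _ ⟨_, ⟨q, hq, rfl⟩, rfl⟩
    have hq1 : q.1.2 = j := hq.1.2
    have h1 := (hcorr j hj q.1.1 hq.1.1 q.2 hq.2).1
    have h3 := (hTT (q.1.1, q.2) ⟨hq.1.1, hq.2⟩).2.2
    have e : (((q.1.1, j), q.2) : (V2 × ℝ) × V2) = q := by rw [← hq1]
    rw [e] at h1
    rw [← h1]
    exact ⟨_, ⟨⟨h3.1, mem_singleton j⟩, NTQ_gam_ball h3.2⟩, rfl⟩
  have hE : NTriv (fun a b => w (jA a) (jA b)) (tub3 '' ((gam ×ˢ J3) ×ˢ gam)) := by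
    have e0 : tub3 '' ((gam ×ˢ (∅ : Set ℝ)) ×ˢ gam) = ∅ := by simp
    have k0 : NTriv (fun a b => w (jA a) (jA b)) (tub3 '' ((gam ×ˢ (∅ : Set ℝ)) ×ˢ gam)) := by
      rw [e0]
      exact ⟨fun _ => 1, fun x hx => absurd hx (notMem_empty x)⟩
    have m0 : (0 : ℝ) ∈ J3 := by simp [J3]
    have m1 : (1 : ℝ) ∈ J3 := by simp [J3]
    have m2 : (2 : ℝ) ∈ J3 := by simp [J3]
    have k1 := NTQ_tube hwA hAj (empty_subset _) m2 (notMem_empty _) k0 (hEj 2 m2)
    have k2 := NTQ_tube hwA hAj (J := insert 2 ∅)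
      (by intro x hx; simp at hx; rw [hx]; exact m2) m1 (by simp) k1 (hEj 1 m1)
    have k3 := NTQ_tube hwA hAj (J := insert 1 (insert 2 ∅))
      (by intro x hx; simp at hx; rcases hx with h | h <;> rw [h] <;> assumption) m0
      (by simp) k2 (hEj 0 m0)
    have e3 : insert (0 : ℝ) (insert 1 (insert 2 ∅)) = J3 := by simp [J3]
    rwa [e3] at k3
  -- step 4
  have hT3 : IsClosed T3 := (NTQ_gam_compact.prod (NTQ_gam_compact.prod NTQ_gam_compact)).isClosed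
  obtain ⟨c', hc'1, hc'2, hc'3⟩ := tube_extend tub3_tube J3_mfd.1 hT3 (c := fun a b => w (jA a) (jA b))
    hwA hE
  have hA3 : NTriv (fun a b => w (jA a) (jA b)) A3 := by
    apply NTriv.of_local_eq hc'2
    apply (T3_triv hc'1 ?_).mono sdiff_subset
    intro j hj
    have h0 : (0 : V2) ∈ closedBall (0 : V2) 2 := mem_closedBall_self (by norm_num)
    apply NTriv.comp (φ := fun a : V2 => tub3 ((a, j), 0))
    · apply hct.comp
      · fun_prop
      · intro z hz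
        exact ⟨⟨hz, hj⟩, h0⟩
    · apply hc'3.mono
      rintro _ ⟨z, hz, rfl⟩
      exact ⟨_, ⟨⟨hz, hj⟩, h0⟩, rfl⟩
  have hwA3 : NTriv w (jA '' A3) :=
    NTQ_push g.plA.domain.isCompact hcA g.injA le_rfl hA3
  -- step 5
  have m0 : (0 : ℝ) ∈ J3 := by simp [J3]
  have m1 : (1 : ℝ) ∈ J3 := by simp [J3]
  have m2 : (2 : ℝ) ∈ J3 := by simp [J3]
  have e0 : jA '' A3 ∪ jB '' ((gam ×ˢ (∅ : Set ℝ)) ×ˢ closedBall (0 : V2) 1) = jA '' A3 := by simp
  have k0 : NTriv w (jA '' A3 ∪ jB '' ((gam ×ˢ (∅ : Set ℝ)) ×ˢ closedBall (0 : V2) 1)) := by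
    rw [e0]
    exact hwA3
  have k1 := NTQ_step g hw (empty_subset _) m2 (notMem_empty _) k0 (hSj 2 m2)
  have k2 := NTQ_step g hw (J := insert 2 ∅)
    (by intro x hx; simp at hx; rw [hx]; exact m2) m1 (by simp) k1 (hSj 1 m1)
  have k3 := NTQ_step g hw (J := insert 1 (insert 2 ∅))
    (by intro x hx; simp at hx; rcases hx with h | h <;> rw [h] <;> assumption) m0
    (by simp) k2 (hSj 0 m0)
  have e3 : insert (0 : ℝ) (insert 1 (insert 2 ∅)) = J3 := by simp [J3]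
  rw [e3] at k3
  exact k3

end Pool.H54.UB

end S_NTQ

section S_NTE

/-!
# Row NTE: evaluation data on the 3-torus

Direct construction.  Arcs `slab = wnd '' Icc 7 8`, `rest = wnd '' Icc 0 7`; `gam = slab ∪ rest`,
`slab ∩ rest = {wnd 0, wnd 7}`.
* index type `Bool × Bool × Bool`, pieces `K₁ × K₂ × K₃`, `K = slab` for `true`, `rest` for `false`;
  `o = (true, true, true)`.
* `φ i a x = if a_i = true ∧ x_i = wnd 0 then 1 else 0`.  compat: on `slab ∩ slab`, `rest ∩ rest` the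
  difference is `0`, on `slab ∩ rest` (two points in the coordinate `i`) every function of `x_i` is locally
  constant.
* `y x = ![s₁ - 7, s₂ - 7, s₃ - 7]` for `x_i = wnd s_i`, `s_i ∈ [7,8]`.
* cube: `κ v = (wnd (3 + v 0 / 8), wnd (3 + v 1 / 8), wnd (3 + v 2 / 8))`, coordinates in
  `wnd '' Icc (11/4) (13/4)`, which is in the interior of `rest` and disjoint from `slab`; all `φ` vanish
  there.
-/

open Set Topology Metric

namespace Pool.H54.UB

/-- The coordinates of a point of the 3-torus. -/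
def co3 (i : Fin 3) (x : V6) : V2 := ![x.1, x.2.1, x.2.2] i

theorem NTE_int (k : ℤ) (h1 : -1 < (k : ℝ)) (h2 : (k : ℝ) < 1) : k = 0 := by
  have h3 : -1 < k := by exact_mod_cast h1
  have h4 : k < 1 := by exact_mod_cast h2
  omega

/-- the two arcs -/
noncomputable def NTE_S (b : Bool) : Set V2 := if b = true then wnd '' Icc 7 8 else wnd '' Icc 0 7

theorem NTE_S_true : NTE_S true = wnd '' Icc 7 8 := by
  unfold NTE_S
  rw [if_pos rfl]

theorem NTE_S_false : NTE_S false = wnd '' Icc 0 7 := by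
  unfold NTE_S
  rw [if_neg (by simp)]

theorem NTE_S_poly (b : Bool) : IsPoly (NTE_S b) := by
  cases b
  · rw [NTE_S_false]; exact (wnd_pl 0 7).image
  · rw [NTE_S_true]; exact (wnd_pl 7 8).image

theorem NTE_S_sub (b : Bool) : NTE_S b ⊆ gam := by
  cases b
  · rw [NTE_S_false]; rintro _ ⟨s, -, rfl⟩; exact wnd_mem s
  · rw [NTE_S_true]; rintro _ ⟨s, -, rfl⟩; exact wnd_mem s

theorem NTE_S_cover {z : V2} (hz : z ∈ gam) : ∃ b, z ∈ NTE_S b := by
  obtain ⟨s, ⟨h1, h2⟩, rfl⟩ := wnd_surj 0 hz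
  rw [zero_add] at h2
  rcases le_total s 7 with h | h
  · exact ⟨false, by rw [NTE_S_false]; exact ⟨s, ⟨h1, h⟩, rfl⟩⟩
  · exact ⟨true, by rw [NTE_S_true]; exact ⟨s, ⟨h, h2.le⟩, rfl⟩⟩

theorem NTE_S_inter {z : V2} (h1 : z ∈ NTE_S true) (h2 : z ∈ NTE_S false) :
    z = wnd 0 ∨ z = wnd 7 := by
  rw [NTE_S_true] at h1
  rw [NTE_S_false] at h2
  obtain ⟨s, ⟨hs1, hs2⟩, rfl⟩ := h1
  obtain ⟨t, ⟨ht1, ht2⟩, he⟩ := h2
  obtain ⟨k, hk⟩ := wnd_eq_iff.1 he
  have hk1 : (-1 : ℝ) < k := by linarith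
  have hk2 : (k : ℝ) < 2 := by linarith
  have h3 : -1 < k := by exact_mod_cast hk1
  have h4 : k < 2 := by exact_mod_cast hk2
  have h5 : k = 0 ∨ k = 1 := by omega
  rcases h5 with rfl | rfl
  · right
    have : s = 7 := by push_cast at hk; linarith
    rw [this]
  · left
    have h6 := wnd_per 0 1
    have : s = 0 + 8 * ((1 : ℤ) : ℝ) := by push_cast at hk ⊢; linarith
    rw [this, h6]

/-- the coordinates of the index -/
def NTE_b (i : Fin 3) (a : Bool × Bool × Bool) : Bool := ![a.1, a.2.1, a.2.2] i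

theorem NTE_cont (i : Fin 3) : Continuous (co3 i) := by
  fin_cases i
  · exact continuous_fst
  · exact continuous_fst.comp continuous_snd
  · exact continuous_snd.comp continuous_snd

theorem NTE_prod (S : Fin 3 → Set V2) : {x : V6 | ∀ i, co3 i x ∈ S i} = S 0 ×ˢ S 1 ×ˢ S 2 := by
  ext x
  constructor
  · intro h
    exact ⟨h 0, h 1, h 2⟩
  · rintro ⟨h0, h1, h2⟩ i
    fin_cases i
    · exact h0
    · exact h1
    · exact h2

theorem NTE_ext {x x' : V6} (h : ∀ i, co3 i x = co3 i x') : x = x' :=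
  Prod.ext (h 0) (Prod.ext (h 1) (h 2))

theorem NTE_T3 : T3 = {x : V6 | ∀ i, co3 i x ∈ (fun _ : Fin 3 => gam) i} := by
  rw [NTE_prod]
  rfl

theorem NTE_poly {S : Fin 3 → Set V2} (h : ∀ i, IsPoly (S i)) :
    IsPoly {x : V6 | ∀ i, co3 i x ∈ S i} := by
  rw [NTE_prod]
  exact (h 0).prod ((h 1).prod (h 2))

theorem NTE_nhds {S : Fin 3 → Set V2} {v : V6} (h : ∀ i, S i ∈ 𝓝[gam] (co3 i v)) :
    {x : V6 | ∀ i, co3 i x ∈ S i} ∈ 𝓝[T3] v := by
  rw [NTE_prod]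
  have h1 := nhdsWithin_prod (h 0) (nhdsWithin_prod (h 1) (h 2))
  exact h1

theorem NTE_co_pl (i : Fin 3) {X : Set V6} (hX : IsPoly X) : PLOn (co3 i) X := by
  fin_cases i
  · exact PLOn.affine (LinearMap.fst ℝ V2 (V2 × V2)).toAffineMap hX
  · exact PLOn.affine ((LinearMap.fst ℝ V2 V2).comp (LinearMap.snd ℝ V2 (V2 × V2))).toAffineMap hX
  · exact PLOn.affine ((LinearMap.snd ℝ V2 V2).comp (LinearMap.snd ℝ V2 (V2 × V2))).toAffineMap hX

/-- the parameter on the arc `wnd '' Icc 7 8` -/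
noncomputable def NTE_par (z : V2) : ℝ := Function.invFunOn wnd (Icc 7 8) z

theorem NTE_par_wnd {s : ℝ} (hs : s ∈ Icc (7 : ℝ) 8) : NTE_par (wnd s) = s :=
  (wnd_injOn (a := 7) (b := 8) (by norm_num)).leftInvOn_invFunOn hs

theorem NTE_par_pl : PLOn NTE_par (wnd '' Icc 7 8) :=
  (wnd_pl 7 8).symm (wnd_injOn (a := 7) (b := 8) (by norm_num))

theorem NTE_arc_nhds {a b s : ℝ} (h1 : a < s) (h2 : s < b) : wnd '' Icc a b ∈ 𝓝[gam] (wnd s) := by
  refine Filter.mem_of_superset (wnd_open s (ε := min (s - a) (b - s))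
    (lt_min (by linarith) (by linarith))) ?_
  refine image_mono ?_
  rintro t ⟨ht1, ht2⟩
  have h3 := min_le_left (s - a) (b - s)
  have h4 := min_le_right (s - a) (b - s)
  exact ⟨by linarith, by linarith⟩

theorem NTE_cball : IsPoly (closedBall (0 : Fin 3 → ℝ) 2) := by
  have h := isPoly_box (m := 3) (fun _ => -2) (fun _ => 2)
  have h2 : closedBall (0 : Fin 3 → ℝ) 2 = {y : Fin 3 → ℝ | ∀ i, (-2 : ℝ) ≤ y i ∧ y i ≤ 2} := by
    ext y
    rw [mem_closedBall, dist_zero_right, pi_norm_le_iff_of_nonneg (by norm_num)]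
    simp only [mem_ofPred_eq]
    exact forall_congr' fun i => by rw [Real.norm_eq_abs, abs_le]
  rw [h2]
  exact h

theorem NTE_mem_cball {v : Fin 3 → ℝ} (hv : v ∈ closedBall (0 : Fin 3 → ℝ) 2) (i : Fin 3) :
    -2 ≤ v i ∧ v i ≤ 2 := by
  rw [mem_closedBall, dist_zero_right, pi_norm_le_iff_of_nonneg (by norm_num)] at hv
  have := hv i
  rwa [Real.norm_eq_abs, abs_le] at this

theorem NTE_mem_ball {v : Fin 3 → ℝ} (hv : v ∈ ball (0 : Fin 3 → ℝ) 2) (i : Fin 3) :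
    -2 < v i ∧ v i < 2 := by
  rw [mem_ball, dist_zero_right, pi_norm_lt_iff (by norm_num)] at hv
  have := hv i
  rwa [Real.norm_eq_abs, abs_lt] at this

/-- the cube -/
noncomputable def NTE_k (v : Fin 3 → ℝ) : V6 :=
  (wnd (3 + v 0 / 8), wnd (3 + v 1 / 8), wnd (3 + v 2 / 8))

theorem NTE_k_co (v : Fin 3 → ℝ) (i : Fin 3) : co3 i (NTE_k v) = wnd (3 + v i / 8) := by
  fin_cases i <;> rfl

theorem NTE_k_mem {v : Fin 3 → ℝ} (hv : v ∈ closedBall (0 : Fin 3 → ℝ) 2) (i : Fin 3) :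
    3 + v i / 8 ∈ Icc (11 / 4 : ℝ) (13 / 4) := by
  obtain ⟨h1, h2⟩ := NTE_mem_cball hv i
  exact ⟨by linarith, by linarith⟩

theorem NTE_cube : CubeT 3 T3 NTE_k where
  pl := by
    have h1 : ∀ i : Fin 3, PLOn (fun v : Fin 3 → ℝ => wnd (3 + v i / 8))
        (closedBall (0 : Fin 3 → ℝ) 2) := by
      intro i
      have h2 : PLOn (fun v : Fin 3 → ℝ => 3 + v i / 8) (closedBall (0 : Fin 3 → ℝ) 2) := by
        have h3 := (PLOn.const NTE_cball (3 : ℝ)).add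
          (((PLOn.id NTE_cball).apply i).const_smul (1 / 8))
        refine h3.congr fun v _ => ?_
        show (3 : ℝ) + (1 / 8) * v i = 3 + v i / 8
        ring
      exact (wnd_pl (11 / 4) (13 / 4)).comp h2 fun v hv => NTE_k_mem hv i
    exact (h1 0).prodMk ((h1 1).prodMk (h1 2))
  inj := by
    intro v hv v' hv' he
    funext i
    have h1 : wnd (3 + v i / 8) = wnd (3 + v' i / 8) := by
      rw [← NTE_k_co, ← NTE_k_co, he]
    have h2 := wnd_injOn (a := 11 / 4) (b := 13 / 4) (by norm_num) (NTE_k_mem hv i)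
      (NTE_k_mem hv' i) h1
    linarith
  maps := by
    intro v _
    rw [NTE_T3]
    intro i
    rw [NTE_k_co]
    exact wnd_mem _
  nhd := by
    intro p hp
    refine Filter.mem_of_superset (NTE_nhds (S := fun _ => wnd '' Icc (11 / 4) (13 / 4)) ?_) ?_
    · intro i
      rw [NTE_k_co]
      obtain ⟨h1, h2⟩ := NTE_mem_ball hp i
      exact NTE_arc_nhds (by linarith) (by linarith)
    · intro x hx
      have h1 : ∀ i, ∃ s ∈ Icc (11 / 4 : ℝ) (13 / 4), wnd s = co3 i x := hx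
      choose s hs hsx using h1
      refine ⟨fun i => 8 * (s i - 3), ?_, ?_⟩
      · rw [mem_closedBall, dist_zero_right, pi_norm_le_iff_of_nonneg (by norm_num)]
        intro i
        obtain ⟨h2, h3⟩ := hs i
        rw [Real.norm_eq_abs, abs_le]
        exact ⟨by linarith, by linarith⟩
      · refine NTE_ext fun i => ?_
        rw [NTE_k_co, ← hsx i]
        congr 1
        ring

theorem NTE_k_ne {v : Fin 3 → ℝ} (hv : v ∈ closedBall (0 : Fin 3 → ℝ) 2) (i : Fin 3) :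
    co3 i (NTE_k v) ∉ wnd '' Icc 7 8 := by
  rw [NTE_k_co]
  rintro ⟨s, ⟨hs1, hs2⟩, he⟩
  obtain ⟨h1, h2⟩ := NTE_k_mem hv i
  obtain ⟨k, hk⟩ := wnd_eq_iff.1 he.symm
  have h3 : k = 0 := NTE_int k (by linarith) (by linarith)
  rw [h3] at hk
  push_cast at hk
  linarith

open Classical in
/-- the local primitives -/
noncomputable def NTE_phi (R : Type*) [CommRing R] (i : Fin 3) (a : Bool × Bool × Bool) (x : V6) : R :=
  if NTE_b i a = true ∧ co3 i x = wnd 0 then 1 else 0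

theorem NTE_phi_true (R : Type*) [CommRing R] {i : Fin 3} {a : Bool × Bool × Bool}
    (h : NTE_b i a = true) (x : V6) :
    NTE_phi R i a x = open Classical in if co3 i x = wnd 0 then 1 else 0 := by
  unfold NTE_phi
  by_cases hx : co3 i x = wnd 0
  · rw [if_pos ⟨h, hx⟩, if_pos hx]
  · rw [if_neg (fun h2 => hx h2.2), if_neg hx]

theorem NTE_phi_false (R : Type*) [CommRing R] {i : Fin 3} {a : Bool × Bool × Bool}
    (h : NTE_b i a = false) (x : V6) : NTE_phi R i a x = 0 := by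
  unfold NTE_phi
  rw [if_neg]
  rintro ⟨h2, -⟩
  rw [h] at h2
  exact Bool.false_ne_true h2

/-- the pieces -/
def NTE_A (a : Bool × Bool × Bool) : Set V6 := {x | ∀ i, co3 i x ∈ NTE_S (NTE_b i a)}

noncomputable def NTE_D (R : Type*) [CommRing R] : EvC 3 T3 R where
  ι := Bool × Bool × Bool
  fin := inferInstance
  A := NTE_A
  poly := fun a => NTE_poly fun i => NTE_S_poly _
  cover := by
    ext x
    rw [mem_iUnion]
    constructor
    · intro hx
      rw [NTE_T3] at hx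
      obtain ⟨b0, h0⟩ := NTE_S_cover (hx 0)
      obtain ⟨b1, h1⟩ := NTE_S_cover (hx 1)
      obtain ⟨b2, h2⟩ := NTE_S_cover (hx 2)
      refine ⟨(b0, b1, b2), fun i => ?_⟩
      fin_cases i
      · exact h0
      · exact h1
      · exact h2
    · rintro ⟨a, ha⟩
      rw [NTE_T3]
      intro i
      exact NTE_S_sub _ (ha i)
  φ := NTE_phi R
  compat := by
    intro i a b x hx
    by_cases hab : NTE_b i a = NTE_b i b
    · have h1 : ∀ y, NTE_phi R i a y = NTE_phi R i b y := by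
        intro y
        unfold NTE_phi
        rw [hab]
      refine ⟨univ, Filter.univ_mem, fun y _ => ?_⟩
      rw [h1 y, h1 x, sub_self, sub_self]
    · have key : ∀ z ∈ NTE_A a ∩ NTE_A b, co3 i z = wnd 0 ∨ co3 i z = wnd 7 := by
        intro z hz
        have h1 := hz.1 i
        have h2 := hz.2 i
        rcases Bool.eq_false_or_eq_true (NTE_b i a) with h3 | h3
        · have h4 : NTE_b i b = false := by
            rw [h3] at hab
            simpa using Ne.symm hab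
          rw [h3] at h1
          rw [h4] at h2
          exact NTE_S_inter h1 h2
        · have h4 : NTE_b i b = true := by
            rw [h3] at hab
            simpa using Ne.symm hab
          rw [h3] at h1
          rw [h4] at h2
          exact NTE_S_inter h2 h1
      have hfin : (({wnd 0, wnd 7} : Set V2) \ {co3 i x}).Finite :=
        ((Set.finite_singleton _).insert _).subset Set.sdiff_subset
      have hopen : IsOpen (co3 i ⁻¹' (({wnd 0, wnd 7} : Set V2) \ {co3 i x})ᶜ) :=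
        hfin.isClosed.isOpen_compl.preimage (NTE_cont i)
      refine ⟨_, hopen.mem_nhds ?_, ?_⟩
      · intro h
        exact h.2 rfl
      · rintro y ⟨hy1, hy2⟩
        have he : co3 i y = co3 i x := by
          by_contra hne
          apply hy1
          refine ⟨?_, hne⟩
          rcases key y hy2 with h | h
          · rw [h]; simp
          · rw [h]; simp
        unfold NTE_phi
        rw [he]
  o := (true, true, true)
  y := fun x i => NTE_par (co3 i x) - 7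
  pl := by
    have hP : IsPoly (NTE_A (true, true, true)) := NTE_poly fun i => NTE_S_poly _
    refine PLOn.pi hP fun i => ?_
    have h1 : PLOn (fun x => NTE_par (co3 i x)) (NTE_A (true, true, true)) := by
      refine NTE_par_pl.comp (NTE_co_pl i hP) ?_
      intro x hx
      have h2 := hx i
      have h3 : NTE_b i (true, true, true) = true := by fin_cases i <;> rfl
      rw [h3, NTE_S_true] at h2
      exact h2
    have h2 := h1.add (PLOn.const hP (-7 : ℝ))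
    exact h2.congr fun x _ => by ring
  inj := by
    intro x hx x' hx' he
    refine NTE_ext fun i => ?_
    have h3 : NTE_b i (true, true, true) = true := by fin_cases i <;> rfl
    have h1 := hx i
    have h2 := hx' i
    rw [h3, NTE_S_true] at h1 h2
    obtain ⟨s, hs, hsx⟩ := h1
    obtain ⟨t, ht, htx⟩ := h2
    have h4 : NTE_par (co3 i x) - 7 = NTE_par (co3 i x') - 7 := congrFun he i
    rw [← hsx, ← htx, NTE_par_wnd hs, NTE_par_wnd ht] at h4
    have h5 : s = t := by linarith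
    rw [← hsx, ← htx, h5]
  img := by
    ext z
    constructor
    · rintro ⟨x, hx, rfl⟩ i
      have h3 : NTE_b i (true, true, true) = true := by fin_cases i <;> rfl
      have h1 := hx i
      rw [h3, NTE_S_true] at h1
      obtain ⟨s, hs, hsx⟩ := h1
      show 0 ≤ NTE_par (co3 i x) - 7 ∧ NTE_par (co3 i x) - 7 ≤ 1
      rw [← hsx, NTE_par_wnd hs]
      exact ⟨by linarith [hs.1], by linarith [hs.2]⟩
    · intro hz
      have hs : ∀ i, 7 + z i ∈ Icc (7 : ℝ) 8 := fun i => ⟨by linarith [(hz i).1], by linarith [(hz i).2]⟩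
      have hco : ∀ i, co3 i ((wnd (7 + z 0), wnd (7 + z 1), wnd (7 + z 2)) : V6) = wnd (7 + z i) := by
        intro i
        fin_cases i <;> rfl
      refine ⟨(wnd (7 + z 0), wnd (7 + z 1), wnd (7 + z 2)), ?_, ?_⟩
      · intro i
        have h3 : NTE_b i (true, true, true) = true := by fin_cases i <;> rfl
        rw [h3, NTE_S_true, hco]
        exact ⟨_, hs i, rfl⟩
      · funext i
        show NTE_par (co3 i ((wnd (7 + z 0), wnd (7 + z 1), wnd (7 + z 2)) : V6)) - 7 = z i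
        rw [hco, NTE_par_wnd (hs i)]
        ring
  nhd := by
    intro v hv hlt
    refine NTE_nhds fun i => ?_
    have h3 : NTE_b i (true, true, true) = true := by fin_cases i <;> rfl
    have h1 := hv i
    rw [h3, NTE_S_true] at h1 ⊢
    obtain ⟨s, hs, hsx⟩ := h1
    have h2 : 0 < NTE_par (co3 i v) - 7 ∧ NTE_par (co3 i v) - 7 < 1 := hlt i
    rw [← hsx, NTE_par_wnd hs] at h2
    rw [← hsx]
    exact NTE_arc_nhds (by linarith [h2.1]) (by linarith [h2.2])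
  wall := by
    intro i v hv
    have h3 : NTE_b i (true, true, true) = true := by fin_cases i <;> rfl
    have h1 := hv i
    rw [h3, NTE_S_true] at h1
    obtain ⟨s, hs, hsx⟩ := h1
    rw [NTE_phi_true R h3]
    have h8 : wnd 8 = wnd 0 := by
      have := wnd_per 0 1
      rw [← this]
      norm_num
    show (NTE_par (co3 i v) - 7 = 1 → _) ∧ (NTE_par (co3 i v) - 7 ≠ 1 → _)
    rw [← hsx, NTE_par_wnd hs]
    constructor
    · intro h
      have h4 : s = 8 := by linarith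
      rw [if_pos (by rw [h4, h8])]
    · intro h
      rw [if_neg]
      intro h5
      rw [← h8] at h5
      have h6 := wnd_injOn (a := 7) (b := 8) (by norm_num) hs (by norm_num) h5
      apply h
      rw [h6]
      norm_num
  off := by
    intro a ha
    have h1 : ∃ i, NTE_b i a = false := by
      by_contra hcon
      push Not at hcon
      apply ha
      have h2 : ∀ i, NTE_b i a = true := fun i => by simpa using hcon i
      have e0 := h2 0
      have e1 := h2 1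
      have e2 := h2 2
      obtain ⟨a0, a1, a2⟩ := a
      have f0 : a0 = true := e0
      have f1 : a1 = true := e1
      have f2 : a2 = true := e2
      rw [f0, f1, f2]
    obtain ⟨i, hi⟩ := h1
    refine ⟨i, fun x _ x' _ => ?_⟩
    rw [NTE_phi_false R hi, NTE_phi_false R hi]
  κ := NTE_k
  cube := NTE_cube
  lc := by
    intro i a u hu _
    have h0 : wnd 0 ∈ wnd '' Icc 7 8 := by
      have := wnd_per 0 1
      rw [← this]
      exact ⟨0 + 8 * ((1 : ℤ) : ℝ), by norm_num, rfl⟩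
    have key : ∀ u ∈ closedBall (0 : Fin 3 → ℝ) 2, NTE_phi R i a (NTE_k u) = 0 := by
      intro u hu
      unfold NTE_phi
      rw [if_neg]
      rintro ⟨-, h⟩
      apply NTE_k_ne hu i
      rw [h]
      exact h0
    refine ⟨univ, Filter.univ_mem, fun u' hu' _ => ?_⟩
    rw [key u hu, key u' hu'.2]
  disj := by
    intro u hu h
    have h1 := h 0
    have h3 : NTE_b 0 (true, true, true) = true := rfl
    rw [h3, NTE_S_true] at h1
    exact NTE_k_ne hu 0 h1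

theorem T3_evc (R : Type*) [CommRing R] :
    ∃ D : EvC 3 T3 R,
      (∀ i a, (∀ x ∈ D.A a, co3 i x ∈ wnd '' Icc 7 8 ∧
            D.φ i a x = open Classical in if co3 i x = wnd 0 then 1 else 0) ∨
          ∀ x ∈ D.A a, co3 i x ∈ wnd '' Icc 0 7 ∧ D.φ i a x = 0) ∧
      (∀ x ∈ D.A D.o, ∀ i, co3 i x ∈ wnd '' Icc 7 8) ∧
      ∀ v ∈ closedBall (0 : Fin 3 → ℝ) 2, ∀ i, co3 i (D.κ v) ∈ wnd '' Icc (11 / 4) (13 / 4) := by
  refine ⟨NTE_D R, ?_, ?_, ?_⟩
  · intro i a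
    rcases Bool.eq_false_or_eq_true (NTE_b i a) with h | h
    · left
      intro x hx
      have h1 : co3 i x ∈ NTE_S (NTE_b i a) := hx i
      rw [h, NTE_S_true] at h1
      exact ⟨h1, NTE_phi_true R h x⟩
    · right
      intro x hx
      have h1 : co3 i x ∈ NTE_S (NTE_b i a) := hx i
      rw [h, NTE_S_false] at h1
      exact ⟨h1, NTE_phi_false R h x⟩
  · intro x hx i
    have h3 : NTE_b i (true, true, true) = true := by fin_cases i <;> rfl
    have h1 : co3 i x ∈ NTE_S (NTE_b i (true, true, true)) := hx i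
    rw [h3, NTE_S_true] at h1
    exact h1
  · intro v hv i
    show co3 i (NTE_k v) ∈ wnd '' Icc (11 / 4) (13 / 4)
    rw [NTE_k_co]
    exact ⟨_, NTE_k_mem hv i, rfl⟩

end Pool.H54.UB

end S_NTE

section S_NTF

/-!
# Row NTF: evaluation data on the base manifold

* restrict the data of `T3_evc` to `A3` (`EvC.restrict`; `A3` is a polyhedron by `Tube.poly_remove`): a point
  of `D.A D.o` has all coordinates in `wnd '' Icc 7 8`, a point of the cube has all coordinates in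
  `wnd '' Icc (11/4) (13/4)`, points of the closed tubes have a coordinate in `wnd '' Icc (3/4) (5/4)`.
* `EvB 3 B3`: index type `Fin 3 × Bool`, pieces `(K × {j}) × closedBall 0 1`, `K = wnd '' Icc 7 8` (true) or
  `wnd '' Icc 0 7` (false).  Local primitives: `φ i (j, _) = 0` for `i ≠ j`.  For `i = j`: if `K` is given by
  `s ∈ [7,8]` resp. `s ∈ [0,7]` (the parameter of `z` in that interval) and `w = wnd t ∈ gam` put
  `φ j (j,K) ((z,j),w) = (⌊(a s + p t)/8⌋ : ZMod p)` (independent of the choice of `t`, as `t + 8` adds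
  `p = 0`), and for `w ∉ gam` put `a` if `K` is the slab and `z = wnd 0`, and `0` otherwise.
  compat: on the overlap `z = wnd 7`: difference `0`; on `z = wnd 0` (`s = 8`, resp. `s = 0`): difference
  `⌊(8a + p t)/8⌋ - ⌊p t/8⌋ = a`, and `a - 0 = a` for `w ∉ gam`.
* cross condition at `y = ((wnd s, j), wnd t)`: `phi3 T y` has `j`-th coordinate `wnd (a s + p t)`, the other
  coordinates are in `wnd '' Icc (3/4) (5/4)` or `wnd '' Icc (11/4) (13/4)`, not in `wnd '' Icc 7 8`: so for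
  `i ≠ j` the second alternative holds and both functions are `0`.  For `i = j`: on
  `{a s + p t ∈ ⋃ [8k, 8k+7]}` (`rest`) `⌊(a s + p t)/8⌋` is locally constant; on
  `{a s + p t ∈ ⋃ [8k+7, 8k+8]}` (`slab`) the difference
  `(if wnd (a s + p t) = wnd 0 then 1 else 0) - ⌊(a s + p t)/8⌋ = -k` is locally constant.
  Near a point of `K × gam` every point is `(wnd s', wnd t')` with `s'` in the interval of `K` near `s` and
  `t'` near `t`.  (Different `j` are separated by the real coordinate.)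
* `Glued.evc`.
-/

open Set Topology Metric

namespace Pool.H54.UB

theorem NTF_int {k : ℤ} (h1 : (-8 : ℝ) < 8 * k) (h2 : (8 : ℝ) * k < 8) : k = 0 := by
  have h3 : (-1 : ℝ) < k := by linarith
  have h4 : (k : ℝ) < 1 := by linarith
  have h5 : (-1 : ℤ) < k := by exact_mod_cast h3
  have h6 : k < 1 := by exact_mod_cast h4
  omega

theorem NTF_eq {s t : ℝ} (h : wnd s = wnd t) (h1 : s < t + 8) (h2 : t < s + 8) : s = t := by
  obtain ⟨k, hk⟩ := wnd_eq_iff.1 h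
  have h3 : k = 0 := NTF_int (by linarith) (by linarith)
  rw [h3] at hk
  push_cast at hk
  linarith

noncomputable def NTF_lo (b : Bool) : ℝ := cond b 7 0
noncomputable def NTF_hi (b : Bool) : ℝ := cond b 8 7
def NTF_I (b : Bool) : Set ℝ := Icc (NTF_lo b) (NTF_hi b)

theorem NTF_len (b : Bool) : NTF_hi b ≤ NTF_lo b + 7 := by
  cases b <;> norm_num [NTF_lo, NTF_hi]

theorem NTF_inj (b : Bool) : InjOn wnd (NTF_I b) := wnd_injOn (by have := NTF_len b; linarith)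

noncomputable def NTF_par (b : Bool) (z : V2) : ℝ := Function.invFunOn wnd (NTF_I b) z

theorem NTF_par_wnd (b : Bool) {s : ℝ} (hs : s ∈ NTF_I b) : NTF_par b (wnd s) = s :=
  (NTF_inj b).leftInvOn_invFunOn hs

noncomputable def NTF_fl (p : ℕ) (a : ℤ) (s t : ℝ) : ZMod p :=
  ((⌊((a : ℝ) * s + (p : ℝ) * t) / 8⌋ : ℤ) : ZMod p)

theorem NTF_fl_per (p : ℕ) (a : ℤ) (s t : ℝ) (k : ℤ) :
    NTF_fl p a s (t + 8 * k) = NTF_fl p a s t := by
  have h : ((a : ℝ) * s + (p : ℝ) * (t + 8 * k)) / 8 =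
      ((a : ℝ) * s + (p : ℝ) * t) / 8 + (((p : ℤ) * k : ℤ) : ℝ) := by
    push_cast
    ring
  rw [NTF_fl, NTF_fl, h, Int.floor_add_intCast]
  push_cast
  rw [ZMod.natCast_self, zero_mul, add_zero]

theorem NTF_fl_eight (p : ℕ) (a : ℤ) (t : ℝ) :
    NTF_fl p a 8 t = NTF_fl p a 0 t + (a : ZMod p) := by
  have h : ((a : ℝ) * 8 + (p : ℝ) * t) / 8 = ((a : ℝ) * 0 + (p : ℝ) * t) / 8 + ((a : ℤ) : ℝ) := by
    ring
  rw [NTF_fl, NTF_fl, h, Int.floor_add_intCast]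
  push_cast
  rfl

open Classical in
noncomputable def NTF_phi (p : ℕ) (a : ℤ) (i : Fin 3) (c : Fin 3 × Bool)
    (q : (V2 × ℝ) × V2) : ZMod p :=
  if i = c.1 then
    (if q.2 ∈ gam then NTF_fl p a (NTF_par c.2 q.1.1) (ang q.2)
      else if c.2 = true ∧ q.1.1 = wnd 0 then (a : ZMod p) else 0)
  else 0

theorem NTF_phi_ne (p : ℕ) (a : ℤ) {i : Fin 3} {c : Fin 3 × Bool} (h : i ≠ c.1)
    (q : (V2 × ℝ) × V2) : NTF_phi p a i c q = 0 := by
  rw [NTF_phi, if_neg h]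

theorem NTF_phi_gam (p : ℕ) (a : ℤ) (j : Fin 3) (b : Bool) {s : ℝ} (hs : s ∈ NTF_I b) (r t : ℝ) :
    NTF_phi p a j (j, b) ((wnd s, r), wnd t) = NTF_fl p a s t := by
  obtain ⟨k, hk⟩ := ang_wnd t
  rw [NTF_phi, if_pos rfl, if_pos (wnd_mem t)]
  show NTF_fl p a (NTF_par b (wnd s)) (ang (wnd t)) = _
  rw [NTF_par_wnd b hs, hk, NTF_fl_per]

def NTF_A (c : Fin 3 × Bool) : Set ((V2 × ℝ) × V2) :=
  ((wnd '' NTF_I c.2) ×ˢ {((c.1 : ℕ) : ℝ)}) ×ˢ closedBall (0 : V2) 1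

theorem NTF_J3 (r : ℝ) : r ∈ J3 ↔ ∃ j : Fin 3, r = ((j : ℕ) : ℝ) := by
  unfold J3
  constructor
  · rintro (h | h | h)
    · exact ⟨0, by rw [h]; norm_num⟩
    · exact ⟨1, by rw [h]; norm_num⟩
    · refine ⟨2, ?_⟩
      rw [mem_singleton_iff.1 h]
      norm_num
  · rintro ⟨j, rfl⟩
    fin_cases j <;> norm_num

theorem NTF_cover : B3 = ⋃ c, NTF_A c := by
  ext ⟨⟨z, r⟩, w⟩
  simp only [B3, NTF_A, mem_iUnion, mem_prod, mem_singleton_iff]
  constructor
  · rintro ⟨⟨hz, hr⟩, hw⟩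
    obtain ⟨j, hj⟩ := (NTF_J3 r).1 hr
    obtain ⟨s, hs, rfl⟩ := wnd_surj 0 hz
    rcases le_total s 7 with h7 | h7
    · exact ⟨(j, false), ⟨⟨s, ⟨hs.1, h7⟩, rfl⟩, hj⟩, hw⟩
    · refine ⟨(j, true), ⟨⟨s, ⟨h7, ?_⟩, rfl⟩, hj⟩, hw⟩
      have h8 := hs.2
      show s ≤ 8
      linarith
  · rintro ⟨c, ⟨⟨s, hs, rfl⟩, hr⟩, hw⟩
    exact ⟨⟨wnd_mem s, (NTF_J3 r).2 ⟨_, hr⟩⟩, hw⟩

theorem NTF_two {z : V2} (h1 : z ∈ wnd '' NTF_I true) (h2 : z ∈ wnd '' NTF_I false) :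
    (z = wnd 7 ∧ NTF_par true z = 7 ∧ NTF_par false z = 7) ∨
      (z = wnd 0 ∧ NTF_par true z = 8 ∧ NTF_par false z = 0) := by
  obtain ⟨s, hs, rfl⟩ := h1
  obtain ⟨s', hs', h⟩ := h2
  rw [NTF_par_wnd true hs, ← h, NTF_par_wnd false hs']
  have a1 : 7 ≤ s := hs.1
  have a2 : s ≤ 8 := hs.2
  have a3 : 0 ≤ s' := hs'.1
  have a4 : s' ≤ 7 := hs'.2
  by_cases h8 : s < s' + 8
  · have h3 := NTF_eq h.symm h8 (by linarith)
    have h4 : s' = 7 := by linarith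
    exact Or.inl ⟨by rw [h4], by linarith, h4⟩
  · have h4 : s' = 0 := by linarith
    exact Or.inr ⟨by rw [h4], by linarith, h4⟩

theorem NTF_ne : wnd 0 ≠ wnd 7 := by
  intro h
  have := NTF_eq h (by norm_num) (by norm_num)
  norm_num at this

open Classical in
theorem NTF_rel (p : ℕ) (a : ℤ) (j : Fin 3) {y : (V2 × ℝ) × V2} (h1 : y.1.1 ∈ wnd '' NTF_I true)
    (h2 : y.1.1 ∈ wnd '' NTF_I false) :
    NTF_phi p a j (j, true) y =
      NTF_phi p a j (j, false) y + (if y.1.1 = wnd 7 then (0 : ZMod p) else (a : ZMod p)) := by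
  rw [NTF_phi, NTF_phi, if_pos rfl, if_pos rfl]
  by_cases hy : y.2 ∈ gam
  · rw [if_pos hy, if_pos hy]
    show NTF_fl p a (NTF_par true y.1.1) (ang y.2) =
      NTF_fl p a (NTF_par false y.1.1) (ang y.2) + _
    rcases NTF_two h1 h2 with ⟨h3, h4, h5⟩ | ⟨h3, h4, h5⟩
    · rw [h4, h5, if_pos h3, add_zero]
    · rw [h4, h5, if_neg (by rw [h3]; exact NTF_ne), NTF_fl_eight]
  · rw [if_neg hy, if_neg hy, if_neg (c := ((j, false) : Fin 3 × Bool).2 = true ∧ y.1.1 = wnd 0)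
      (fun h => Bool.false_ne_true h.1), zero_add]
    rcases NTF_two h1 h2 with ⟨h3, -, -⟩ | ⟨h3, -, -⟩
    · rw [if_pos h3, if_neg]
      rintro ⟨-, h⟩
      exact NTF_ne (h.symm.trans h3)
    · rw [if_pos ⟨rfl, h3⟩, if_neg (by rw [h3]; exact NTF_ne)]

theorem NTF_sep {z₀ : V2} (X : Type*) [TopologicalSpace X] {f : X → V2} (hf : Continuous f) {x : X}
    (hx : f x = z₀) : ∃ U ∈ 𝓝 x, ∀ y ∈ U, f y ∈ ({wnd 0, wnd 7} : Set V2) → f y = z₀ := by
  have hfin : (({wnd 0, wnd 7} : Set V2) \ {z₀}).Finite := (Set.toFinite _).sdiff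
  refine ⟨f ⁻¹' (({wnd 0, wnd 7} : Set V2) \ {z₀})ᶜ,
    hf.continuousAt.preimage_mem_nhds (hfin.isClosed.isOpen_compl.mem_nhds ?_), ?_⟩
  · rw [hx]
    exact fun h => h.2 rfl
  · intro y hy h
    by_contra hne
    exact hy ⟨h, hne⟩

theorem NTF_two' {z : V2} {b b' : Bool} (hb : b ≠ b') (h1 : z ∈ wnd '' NTF_I b)
    (h2 : z ∈ wnd '' NTF_I b') : z ∈ ({wnd 0, wnd 7} : Set V2) := by
  have h3 : z ∈ wnd '' NTF_I true ∧ z ∈ wnd '' NTF_I false := by
    cases b <;> cases b'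
    · exact absurd rfl hb
    · exact ⟨h2, h1⟩
    · exact ⟨h1, h2⟩
    · exact absurd rfl hb
  rcases NTF_two h3.1 h3.2 with ⟨h, -, -⟩ | ⟨h, -, -⟩
  · exact Or.inr h
  · exact Or.inl h

open Classical in
theorem NTF_compat (p : ℕ) (a : ℤ) (i : Fin 3) (c c' : Fin 3 × Bool) :
    ∀ x ∈ NTF_A c ∩ NTF_A c', ∃ U ∈ 𝓝 x, ∀ y ∈ U ∩ (NTF_A c ∩ NTF_A c'),
      NTF_phi p a i c y - NTF_phi p a i c' y = NTF_phi p a i c x - NTF_phi p a i c' x := by
  rintro x ⟨hx, hx'⟩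
  obtain ⟨j, b⟩ := c
  obtain ⟨j', b'⟩ := c'
  have hj : j = j' := by
    have h1 : x.1.2 = ((j : ℕ) : ℝ) := hx.1.2
    have h2 : x.1.2 = ((j' : ℕ) : ℝ) := hx'.1.2
    rw [h1] at h2
    exact Fin.ext (by exact_mod_cast h2)
  subst hj
  by_cases hij : i = j
  · subst hij
    by_cases hb : b = b'
    · subst hb
      exact ⟨univ, Filter.univ_mem, fun y _ => by rw [sub_self, sub_self]⟩
    · obtain ⟨U, hU, h⟩ := NTF_sep ((V2 × ℝ) × V2) (continuous_fst.comp continuous_fst)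
        (x := x) rfl
      refine ⟨U, hU, ?_⟩
      rintro y ⟨hyU, hy, hy'⟩
      have h1 : y.1.1 = x.1.1 := h y hyU (NTF_two' hb hy.1.1 hy'.1.1)
      cases b <;> cases b'
      · exact absurd rfl hb
      · have e1 := NTF_rel p a i hy'.1.1 hy.1.1
        have e2 := NTF_rel p a i hx'.1.1 hx.1.1
        rw [e1, e2, h1]
        ring
      · have e1 := NTF_rel p a i hy.1.1 hy'.1.1
        have e2 := NTF_rel p a i hx.1.1 hx'.1.1
        rw [e1, e2, h1]
        ring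
      · exact absurd rfl hb
  · refine ⟨univ, Filter.univ_mem, fun y _ => ?_⟩
    rw [NTF_phi_ne p a (c := (j, b)) hij, NTF_phi_ne p a (c := (j, b')) hij,
      NTF_phi_ne p a (c := (j, b)) hij, NTF_phi_ne p a (c := (j, b')) hij]

noncomputable def NTF_B (p : ℕ) (a : ℤ) : EvB 3 B3 (ZMod p) where
  ι := Fin 3 × Bool
  fin := inferInstance
  A := NTF_A
  poly := fun c => ((((wnd_pl _ _).image).prod (IsPoly.singleton _)).prod (isPoly_closedBall 2 1))
  cover := NTF_cover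
  φ := NTF_phi p a
  compat := NTF_compat p a
  off := fun c => by
    obtain ⟨i, hi⟩ : ∃ i : Fin 3, i ≠ c.1 := exists_ne c.1
    exact ⟨i, fun x _ x' _ => by rw [NTF_phi_ne p a hi, NTF_phi_ne p a hi]⟩

theorem NTF_near (b : Bool) {s₀ : ℝ} (hs₀ : s₀ ∈ NTF_I b) {ε : ℝ} (h0 : 0 < ε) (h1 : ε ≤ 1) :
    ∀ᶠ z in 𝓝 (wnd s₀), ∀ s ∈ NTF_I b, wnd s = z → |s - s₀| < ε := by
  have h := wnd_open s₀ h0
  rw [mem_nhdsWithin_iff_eventually] at h
  filter_upwards [h] with z hz s hs hsz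
  obtain ⟨t, ht, htz⟩ := hz (hsz ▸ wnd_mem s)
  have hl := NTF_len b
  have a1 := hs.1
  have a2 := hs.2
  have a3 := hs₀.1
  have a4 := hs₀.2
  have a5 := ht.1
  have a6 := ht.2
  have e : s = t := NTF_eq (hsz.trans htz.symm) (by linarith) (by linarith)
  rw [e, abs_lt]
  constructor <;> linarith

theorem NTF_near' (t₀ : ℝ) {ε : ℝ} (h0 : 0 < ε) :
    ∀ᶠ w in 𝓝 (wnd t₀), w ∈ gam → ∃ t, wnd t = w ∧ |t - t₀| < ε := by
  have h := wnd_open t₀ h0
  rw [mem_nhdsWithin_iff_eventually] at h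
  filter_upwards [h] with w hw hwg
  obtain ⟨t, ht, htw⟩ := hw hwg
  have a5 := ht.1
  have a6 := ht.2
  refine ⟨t, htw, ?_⟩
  rw [abs_lt]
  constructor <;> linarith

theorem NTF_floor {v : ℝ} (h0 : 0 ≤ v) (h1 : v < 8) (k : ℤ) : ⌊(v + 8 * k) / 8⌋ = k := by
  rw [Int.floor_eq_iff]
  constructor <;> linarith

theorem NTF_rest {u u' : ℝ} (h : wnd u ∈ wnd '' Icc 0 7) (h' : wnd u' ∈ wnd '' Icc 0 7)
    (hd : |u' - u| < 1) : ⌊u' / 8⌋ = ⌊u / 8⌋ := by
  obtain ⟨v, hv, e⟩ := h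
  obtain ⟨v', hv', e'⟩ := h'
  obtain ⟨k, hk⟩ := wnd_eq_iff.1 e
  obtain ⟨k', hk'⟩ := wnd_eq_iff.1 e'
  rw [abs_lt] at hd
  have a1 := hv.1
  have a2 := hv.2
  have a3 := hv'.1
  have a4 := hv'.2
  have h3 : k' - k = 0 := NTF_int (by push_cast; linarith) (by push_cast; linarith)
  rw [hk, hk', NTF_floor a1 (by linarith), NTF_floor a3 (by linarith)]
  omega

open Classical in
theorem NTF_slab1 (p : ℕ) {v : ℝ} (h7 : 7 ≤ v) (h8 : v ≤ 8) (k : ℤ) :
    (if wnd (v + 8 * k) = wnd 0 then (1 : ZMod p) else 0) -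
      ((⌊(v + 8 * k) / 8⌋ : ℤ) : ZMod p) = -((k : ℤ) : ZMod p) := by
  rw [wnd_per]
  by_cases h : v = 8
  · have e1 : wnd v = wnd 0 := by
      rw [h]
      have := wnd_per 0 1
      rw [← this]
      norm_num
    have e2 : (v + 8 * k) / 8 = 0 + ((k + 1 : ℤ) : ℝ) := by
      rw [h]
      push_cast
      ring
    rw [if_pos e1, e2, Int.floor_add_intCast, Int.floor_zero]
    push_cast
    ring
  · have h9 : v < 8 := lt_of_le_of_ne h8 h
    have e1 : wnd v ≠ wnd 0 := by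
      intro h1
      have := NTF_eq h1 (by linarith) (by linarith)
      linarith
    rw [if_neg e1, NTF_floor (by linarith) h9, zero_sub]

open Classical in
theorem NTF_slab (p : ℕ) {u u' : ℝ} (h : wnd u ∈ wnd '' Icc 7 8) (h' : wnd u' ∈ wnd '' Icc 7 8)
    (hd : |u' - u| < 1) :
    (if wnd u' = wnd 0 then (1 : ZMod p) else 0) - ((⌊u' / 8⌋ : ℤ) : ZMod p) =
      (if wnd u = wnd 0 then (1 : ZMod p) else 0) - ((⌊u / 8⌋ : ℤ) : ZMod p) := by
  obtain ⟨v, hv, e⟩ := h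
  obtain ⟨v', hv', e'⟩ := h'
  obtain ⟨k, hk⟩ := wnd_eq_iff.1 e
  obtain ⟨k', hk'⟩ := wnd_eq_iff.1 e'
  rw [abs_lt] at hd
  have a1 := hv.1
  have a2 := hv.2
  have a3 := hv'.1
  have a4 := hv'.2
  have h3 : k' - k = 0 := NTF_int (by push_cast; linarith) (by push_cast; linarith)
  have h4 : k' = k := by omega
  rw [hk, hk', NTF_slab1 p a1 a2, NTF_slab1 p a3 a4, h4]

theorem NTF_fin (j : Fin 3) : j = 0 ∨ j = 1 ∨ j = 2 := by
  fin_cases j <;> simp

/-- coordinates of the image of the gluing map -/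
theorem NTF_co {T : V2 × V2 → V2 × V2} (hTm : MapsTo T (gam ×ˢ gam) (gam ×ˢ gam))
    {z w : V2} (hz : z ∈ gam) (hw : w ∈ gam) (j : Fin 3) :
    co3 j (phi3 T ((z, ((j : ℕ) : ℝ)), w)) = (T (z, w)).1 ∧
    (∃ i, i ≠ j ∧ co3 i (phi3 T ((z, ((j : ℕ) : ℝ)), w)) ∈ wnd '' Icc (3 / 4) (5 / 4)) ∧
    ∀ i, i ≠ j → co3 i (phi3 T ((z, ((j : ℕ) : ℝ)), w)) ∈
      wnd '' Icc (3 / 4) (5 / 4) ∪ wnd '' Icc (11 / 4) (13 / 4) := by
  have h2 : (T (z, w)).2 ∈ gam := (hTm (show (z, w) ∈ gam ×ˢ gam from ⟨hz, hw⟩)).2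
  rcases hTT : T (z, w) with ⟨z', w'⟩
  rw [hTT] at h2
  have hn : ‖w'‖ = 1 := mem_sphere_zero_iff_norm.1 h2
  have hb : ∀ i, |w' i| ≤ 1 := by
    intro i
    have := norm_le_pi_norm w' i
    rw [hn, Real.norm_eq_abs] at this
    exact this
  have b0 := abs_le.1 (hb 0)
  have b1 := abs_le.1 (hb 1)
  have c1 : wnd (1 + w' 0 / 4) ∈ wnd '' Icc (3 / 4) (5 / 4) :=
    ⟨_, ⟨by linarith, by linarith⟩, rfl⟩
  have c3 : wnd (3 + w' 1 / 4) ∈ wnd '' Icc (11 / 4) (13 / 4) :=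
    ⟨_, ⟨by linarith, by linarith⟩, rfl⟩
  rcases NTF_fin j with rfl | rfl | rfl
  · have e : phi3 T ((z, (((0 : Fin 3) : ℕ) : ℝ)), w) =
        (z', wnd (1 + w' 0 / 4), wnd (3 + w' 1 / 4)) := by
      simp [phi3, hTT, tub3, tub0]
    rw [e]
    refine ⟨rfl, ⟨1, by decide, c1⟩, fun i hi => ?_⟩
    rcases NTF_fin i with rfl | rfl | rfl
    · exact absurd rfl hi
    · exact Or.inl c1
    · exact Or.inr c3
  · have e : phi3 T ((z, (((1 : Fin 3) : ℕ) : ℝ)), w) =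
        (wnd (3 + w' 1 / 4), z', wnd (1 + w' 0 / 4)) := by
      simp [phi3, hTT, tub3, tub0, rho]
    rw [e]
    refine ⟨rfl, ⟨2, by decide, c1⟩, fun i hi => ?_⟩
    rcases NTF_fin i with rfl | rfl | rfl
    · exact Or.inr c3
    · exact absurd rfl hi
    · exact Or.inl c1
  · have e : phi3 T ((z, (((2 : Fin 3) : ℕ) : ℝ)), w) =
        (wnd (1 + w' 0 / 4), wnd (3 + w' 1 / 4), z') := by
      simp [phi3, hTT, tub3, tub0, rho]
    rw [e]
    refine ⟨rfl, ⟨0, by decide, c1⟩, fun i hi => ?_⟩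
    rcases NTF_fin i with rfl | rfl | rfl
    · exact Or.inl c1
    · exact Or.inr c3
    · exact absurd rfl hi

theorem NTF_d78_1 {z : V2} (h : z ∈ wnd '' Icc 7 8) (h' : z ∈ wnd '' Icc (3 / 4) (5 / 4)) :
    False := by
  obtain ⟨s, hs, rfl⟩ := h
  obtain ⟨t, ht, h⟩ := h'
  have a1 := hs.1
  have a2 := hs.2
  have a3 := ht.1
  have a4 := ht.2
  have := NTF_eq h (by linarith) (by linarith)
  linarith

theorem NTF_d78_3 {z : V2} (h : z ∈ wnd '' Icc 7 8) (h' : z ∈ wnd '' Icc (11 / 4) (13 / 4)) :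
    False := by
  obtain ⟨s, hs, rfl⟩ := h
  obtain ⟨t, ht, h⟩ := h'
  have a1 := hs.1
  have a2 := hs.2
  have a3 := ht.1
  have a4 := ht.2
  have := NTF_eq h (by linarith) (by linarith)
  linarith

theorem NTF_d13 {z : V2} (h : z ∈ wnd '' Icc (3 / 4) (5 / 4))
    (h' : z ∈ wnd '' Icc (11 / 4) (13 / 4)) : False := by
  obtain ⟨s, hs, rfl⟩ := h
  obtain ⟨t, ht, h⟩ := h'
  have a1 := hs.1
  have a2 := hs.2
  have a3 := ht.1
  have a4 := ht.2
  have := NTF_eq h (by linarith) (by linarith)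
  linarith

theorem NTF_ar1 {z : V2} (h : z ∈ ar1) : z ∈ wnd '' Icc (3 / 4) (5 / 4) :=
  image_mono Ioo_subset_Icc_self h

theorem NTF_ar3 {z : V2} (h : z ∈ ar3) : z ∈ wnd '' Icc (11 / 4) (13 / 4) :=
  image_mono Ioo_subset_Icc_self h

/-- a point of the removed tubes has a coordinate in the first arc -/
theorem NTF_mem {x : V6} (h : x ∈ tub3 '' ((gam ×ˢ J3) ×ˢ ball (0 : V2) 1)) :
    ∃ i, co3 i x ∈ wnd '' Icc (3 / 4) (5 / 4) := by
  rcases (mem_tub3 x).1 h with ⟨-, h1, -⟩ | ⟨-, h1, -⟩ | ⟨-, h1, -⟩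
  · exact ⟨1, NTF_ar1 h1⟩
  · exact ⟨2, NTF_ar1 h1⟩
  · exact ⟨0, NTF_ar1 h1⟩

open Classical in
theorem NTF_cross (p : ℕ) (l : ℕ) {a c : ℤ} {T : V2 × V2 → V2 × V2}
    (hTm : MapsTo T (gam ×ˢ gam) (gam ×ˢ gam))
    (hTf : ∀ s t : ℝ, T (wnd s, wnd t) = (wnd (a * s + p * t), wnd (c * s + l * t)))
    (i : Fin 3) {A : Set V6} {f : V6 → ZMod p}
    (hf : (∀ x ∈ A, co3 i x ∈ wnd '' Icc 7 8 ∧ f x = if co3 i x = wnd 0 then 1 else 0) ∨
      ∀ x ∈ A, co3 i x ∈ wnd '' Icc 0 7 ∧ f x = 0) (d : Fin 3 × Bool) :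
    ∀ y ∈ DB3, y ∈ NTF_A d → phi3 T y ∈ A → ∃ U ∈ 𝓝 y, ∀ y' ∈ U ∩ DB3,
      y' ∈ NTF_A d → phi3 T y' ∈ A →
      f (phi3 T y') - NTF_phi p a i d y' = f (phi3 T y) - NTF_phi p a i d y := by
  obtain ⟨j, b⟩ := d
  by_cases hij : i = j
  · subst hij
    rintro ⟨⟨z, r⟩, w⟩ hy hyd hyA
    obtain ⟨s₀, hs₀, hz⟩ : z ∈ wnd '' NTF_I b := hyd.1.1
    have hr : r = ((i : ℕ) : ℝ) := hyd.1.2
    obtain ⟨t₀, -, hw⟩ := wnd_surj 0 (show w ∈ gam from hy.2)
    subst hz hr hw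
    obtain ⟨ε, hε0, hε1, hε⟩ : ∃ ε : ℝ, 0 < ε ∧ ε ≤ 1 ∧ (|(a : ℝ)| + p) * ε < 1 := by
      refine ⟨(|(a : ℝ)| + p + 1)⁻¹, by positivity, ?_, ?_⟩
      · exact inv_le_one_of_one_le₀ (by have := abs_nonneg (a : ℝ); linarith [Nat.cast_nonneg (α := ℝ) p])
      · rw [← div_eq_mul_inv, div_lt_one (by positivity)]
        linarith
    have hc1 : Continuous (fun q : (V2 × ℝ) × V2 => q.1.1) := continuous_fst.comp continuous_fst
    refine ⟨{q | (∀ s ∈ NTF_I b, wnd s = q.1.1 → |s - s₀| < ε) ∧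
      (q.2 ∈ gam → ∃ t, wnd t = q.2 ∧ |t - t₀| < ε)}, ?_, ?_⟩
    · have q1 : Filter.Tendsto (fun q : (V2 × ℝ) × V2 => q.1.1)
          (𝓝 ((wnd s₀, ((i : ℕ) : ℝ)), wnd t₀)) (𝓝 (wnd s₀)) := hc1.tendsto _
      have q2 : Filter.Tendsto (fun q : (V2 × ℝ) × V2 => q.2)
          (𝓝 ((wnd s₀, ((i : ℕ) : ℝ)), wnd t₀)) (𝓝 (wnd t₀)) := continuous_snd.tendsto _
      exact Filter.inter_mem (q1.eventually (NTF_near b hs₀ hε0 hε1))
        (q2.eventually (NTF_near' t₀ hε0))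
    rintro ⟨⟨z', r'⟩, w'⟩ ⟨⟨hU1, hU2⟩, hy'⟩ hyd' hyA'
    obtain ⟨s, hs, hz'⟩ : z' ∈ wnd '' NTF_I b := hyd'.1.1
    have hr' : r' = ((i : ℕ) : ℝ) := hyd'.1.2
    obtain ⟨t, hw', ht⟩ := hU2 hy'.2
    have hss := hU1 s hs hz'
    dsimp only at hw'
    subst hz' hr' hw'
    have hu : |(a * s + p * t) - (a * s₀ + p * t₀)| < 1 := by
      have e : ((a : ℝ) * s + p * t) - (a * s₀ + p * t₀) = a * (s - s₀) + p * (t - t₀) := by ring
      rw [e]
      refine (abs_add_le _ _).trans_lt ?_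
      rw [abs_mul, abs_mul, Nat.abs_cast]
      have h1 : |(a : ℝ)| * |s - s₀| ≤ |(a : ℝ)| * ε :=
        mul_le_mul_of_nonneg_left hss.le (abs_nonneg _)
      have h2 : (p : ℝ) * |t - t₀| ≤ p * ε := mul_le_mul_of_nonneg_left ht.le (Nat.cast_nonneg p)
      linarith
    have k1 := (NTF_co hTm (wnd_mem s) (wnd_mem t) i).1
    have k0 := (NTF_co hTm (wnd_mem s₀) (wnd_mem t₀) i).1
    rw [hTf] at k1 k0
    rw [NTF_phi_gam p a i b hs, NTF_phi_gam p a i b hs₀]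
    rcases hf with hf | hf
    · obtain ⟨m1, m2⟩ := hf _ hyA'
      obtain ⟨m3, m4⟩ := hf _ hyA
      rw [m2, m4, k1, k0]
      rw [k1] at m1
      rw [k0] at m3
      exact NTF_slab p m3 m1 hu
    · obtain ⟨m1, m2⟩ := hf _ hyA'
      obtain ⟨m3, m4⟩ := hf _ hyA
      rw [k1] at m1
      rw [k0] at m3
      rw [m2, m4, NTF_fl, NTF_fl, NTF_rest m3 m1 hu]
  · have key : ∀ y ∈ DB3, y ∈ NTF_A (j, b) → phi3 T y ∈ A → f (phi3 T y) = 0 := by
      rintro ⟨⟨z, r⟩, w⟩ hy hyd hyA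
      have hr : r = ((j : ℕ) : ℝ) := hyd.1.2
      subst hr
      have h1 := (NTF_co hTm (show z ∈ gam from hy.1.1) (show w ∈ gam from hy.2) j).2.2 i hij
      rcases hf with hf | hf
      · exfalso
        rcases h1 with h1 | h1
        · exact NTF_d78_1 (hf _ hyA).1 h1
        · exact NTF_d78_3 (hf _ hyA).1 h1
      · exact (hf _ hyA).2
    intro y hy hyd hyA
    refine ⟨univ, Filter.univ_mem, fun y' hy' hyd' hyA' => ?_⟩
    rw [key y hy hyd hyA, key y' hy'.2 hyd' hyA', NTF_phi_ne p a (c := (j, b)) hij,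
      NTF_phi_ne p a (c := (j, b)) hij]

theorem base_evc {H : Type*} [NormedAddCommGroup H] [NormedSpace ℝ H] [FiniteDimensional ℝ H]
    (p : ℕ) [Fact p.Prime] (l : ℕ) {a c : ℤ} {T : V2 × V2 → V2 × V2}
    (hT : PLOn T (gam ×ˢ gam)) (hTm : MapsTo T (gam ×ˢ gam) (gam ×ˢ gam))
    (hTf : ∀ s t : ℝ, T (wnd s, wnd t) = (wnd (a * s + p * t), wnd (c * s + l * t)))
    {jA : V6 → H} {jB : (V2 × ℝ) × V2 → H} (g : Glued A3 B3 DB3 (phi3 T) jA jB)
    (hDB : IsPoly DB3) : Nonempty (EvC 3 (jA '' A3 ∪ jB '' B3) (ZMod p)) := by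
  obtain ⟨D, hD1, hD2, hD3⟩ := T3_evc (ZMod p)
  have hA3 : IsPoly A3 := tub3_tube.poly_remove J3_mfd.1 T3_mfd.1 (by norm_num)
  obtain ⟨D', hι, hκ', ho', hA'⟩ := D.restrict hA3 sdiff_subset (fun x hx => by
      refine ⟨?_, fun h => ?_⟩
      · rw [D.cover]
        exact mem_iUnion.2 ⟨_, hx⟩
      · obtain ⟨i, hi⟩ := NTF_mem h
        exact NTF_d78_1 (hD2 x hx i) hi)
    (fun v hv => by
      refine ⟨D.cube.maps hv, fun h => ?_⟩
      obtain ⟨i, hi⟩ := NTF_mem h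
      exact NTF_d13 hi (hD3 v hv i))
  have hDBj : ∀ y ∈ DB3, ∃ j : Fin 3, y.1.2 = ((j : ℕ) : ℝ) := fun y hy => (NTF_J3 _).1 hy.1.2
  have har : ∀ y ∈ DB3, ∃ i, co3 i (phi3 T y) ∈ wnd '' Icc (3 / 4) (5 / 4) := by
    rintro ⟨⟨z, r⟩, w⟩ hy
    obtain ⟨j, hj⟩ := hDBj _ hy
    have hr : r = ((j : ℕ) : ℝ) := hj
    subst hr
    obtain ⟨i, -, hi⟩ :=
      (NTF_co hTm (show z ∈ gam from hy.1.1) (show w ∈ gam from hy.2) j).2.1
    exact ⟨i, hi⟩
  refine g.evc hDB D' (NTF_B p a) ?_ ?_ ?_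
  · intro i a' d
    obtain ⟨a₀, ha₀, hφ⟩ := hA' a'
    intro y hy hyd hyA
    have hf : (∀ x ∈ D'.A a', co3 i x ∈ wnd '' Icc 7 8 ∧
        D'.φ i a' x = open Classical in if co3 i x = wnd 0 then 1 else 0) ∨
        ∀ x ∈ D'.A a', co3 i x ∈ wnd '' Icc 0 7 ∧ D'.φ i a' x = 0 := by
      rcases hD1 i a₀ with h | h
      · refine Or.inl fun x hx => ?_
        rw [ha₀] at hx
        rw [hφ]
        exact h x hx.1
      · refine Or.inr fun x hx => ?_
        rw [ha₀] at hx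
        rw [hφ]
        exact h x hx.1
    exact NTF_cross p l hTm hTf i hf d y hy hyd hyA
  · intro y hy h
    rw [ho'] at h
    obtain ⟨i, hi⟩ := har y hy
    exact NTF_d78_1 (hD2 _ h i) hi
  · rintro u hu ⟨y, hy, h⟩
    obtain ⟨i, hi⟩ := har y hy
    rw [h, hκ'] at hi
    exact NTF_d13 hi (hD3 u hu i)

end Pool.H54.UB

end S_NTF
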