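import Pool.Agent.H54.UB.Core
import Pool.Agent.H54.UM.G5
import Pool.Agent.H54.UM.G6
import Pool.Agent.H54.UM.G7

/-! Universal bases, part G8: this file joins several modules to save build time. -/

section S_STM

/-!
# Row STM: surgery on a tube `gam × cube`

`A = X \ ι (gam × ball 0 1)`, `B = closedBall 0 1 × sphere 0 1` (in `ℝ^2 × ℝ^n`), glued along
`DB = gam × sphere 0 1` (`gam` is the boundary of `closedBall 0 1 ⊆ ℝ^2`) by `ι`.

* Write `n = k + 1`.  `DA = ι '' (gam × sphere 0 1)`.  `IsPoly A`: `Tube.poly_remove`; points of `DA`: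
  `Tube.bdpt` (`BdPt (1 + k) = BdPt n`); other points of `A`: `Tube.intpt` (dimension `n + 1`).
* `B`: boundary points: `BdPt.prod_int` (`bdpt_ball 1`, and `sphere 0 1` in `Fin (k+1) → ℝ` is a closed
  PL `k`-manifold: `sphere_manifold`; for `k ≥ 1`); interior points: `IntPt.prod` with
  `intpt_of_interior` (`finrank (Fin 2 → ℝ) = 2`).
* `glue_mfd` with `φ = ι` gives `jA`, `jB`.
* connected: `jA '' A` is connected (`Tube.connected_remove`, `gam × sphere 0 1` is connected), `jB '' B` is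
  connected, and they meet.
-/

open Set Topology Metric

namespace Pool.H54.UB

variable {E : Type*} [NormedAddCommGroup E] [NormedSpace ℝ E] [FiniteDimensional ℝ E]

theorem STM_aux {k : ℕ} (hk : 1 ≤ k) {X : Set E} (hX : IsClosedPLManifold (k + 1 + 1) X)
    (hc : IsConnected X) {ι : V2 × (Fin (k + 1) → ℝ) → E} (h : Tube gam (k + 1) X ι) :
    ∃ (jA : E → E × (V2 × (Fin (k + 1) → ℝ)) × ℝ)
      (jB : V2 × (Fin (k + 1) → ℝ) → E × (V2 × (Fin (k + 1) → ℝ)) × ℝ),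
      Glued (X \ ι '' (gam ×ˢ ball (0 : Fin (k + 1) → ℝ) 1))
        (closedBall (0 : V2) 1 ×ˢ sphere (0 : Fin (k + 1) → ℝ) 1)
        (gam ×ˢ sphere (0 : Fin (k + 1) → ℝ) 1) ι jA jB ∧
      IsClosedPLManifold (k + 1 + 1) (jA '' (X \ ι '' (gam ×ˢ ball (0 : Fin (k + 1) → ℝ) 1)) ∪
        jB '' (closedBall (0 : V2) 1 ×ˢ sphere (0 : Fin (k + 1) → ℝ) 1)) ∧
      IsConnected (jA '' (X \ ι '' (gam ×ˢ ball (0 : Fin (k + 1) → ℝ) 1)) ∪
        jB '' (closedBall (0 : V2) 1 ×ˢ sphere (0 : Fin (k + 1) → ℝ) 1)) := by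
  have hP : IsPoly gam := gam_mfd.1
  have hsph : IsClosedPLManifold k (sphere (0 : Fin (k + 1) → ℝ) 1) := sphere_manifold k hk
  have hA : IsPoly (X \ ι '' (gam ×ˢ ball (0 : Fin (k + 1) → ℝ) 1)) :=
    h.poly_remove hP hX.1 (by omega)
  have hB : IsPoly (closedBall (0 : V2) 1 ×ˢ sphere (0 : Fin (k + 1) → ℝ) 1) :=
    (isPoly_closedBall 2 1).prod hsph.1
  have hDB : IsPoly (gam ×ˢ sphere (0 : Fin (k + 1) → ℝ) 1) := hP.prod hsph.1
  have hsub2 : gam ×ˢ sphere (0 : Fin (k + 1) → ℝ) 1 ⊆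
      gam ×ˢ closedBall (0 : Fin (k + 1) → ℝ) 2 :=
    prod_mono Subset.rfl (sphere_subset_closedBall.trans (closedBall_subset_closedBall one_le_two))
  have hsub1 : gam ×ˢ ball (0 : Fin (k + 1) → ℝ) 1 ⊆
      gam ×ˢ closedBall (0 : Fin (k + 1) → ℝ) 2 :=
    prod_mono Subset.rfl (ball_subset_closedBall.trans (closedBall_subset_closedBall one_le_two))
  have hDA : IsPoly (ι '' (gam ×ˢ sphere (0 : Fin (k + 1) → ℝ) 1)) := h.pl.image_poly hDB hsub2
  have hAs : ι '' (gam ×ˢ sphere (0 : Fin (k + 1) → ℝ) 1) ⊆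
      X \ ι '' (gam ×ˢ ball (0 : Fin (k + 1) → ℝ) 1) := by
    rintro _ ⟨q, hq, rfl⟩
    refine ⟨h.maps (hsub2 hq), ?_⟩
    rintro ⟨q', hq', e⟩
    have e' : q' = q := h.inj (hsub1 hq') (hsub2 hq) e
    rw [e'] at hq'
    have h1 := hq.2
    have h2 := hq'.2
    rw [mem_sphere_zero_iff_norm] at h1
    rw [mem_ball_zero_iff] at h2
    linarith
  have hBs : gam ×ˢ sphere (0 : Fin (k + 1) → ℝ) 1 ⊆
      closedBall (0 : V2) 1 ×ˢ sphere (0 : Fin (k + 1) → ℝ) 1 :=
    prod_mono sphere_subset_closedBall Subset.rfl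
  have hAi : ∀ x ∈ (X \ ι '' (gam ×ˢ ball (0 : Fin (k + 1) → ℝ) 1)) \
      ι '' (gam ×ˢ sphere (0 : Fin (k + 1) → ℝ) 1),
      IntPt (k + 1 + 1) (X \ ι '' (gam ×ˢ ball (0 : Fin (k + 1) → ℝ) 1)) x := by
    rintro x ⟨⟨hxX, hx1⟩, hx2⟩
    refine h.intpt hP ?_ (hX.2 x hxX)
    rintro ⟨q, hq, e⟩
    have hq1 := hq.2
    rw [mem_closedBall_zero_iff] at hq1
    rcases eq_or_lt_of_le hq1 with h1 | h1
    · exact hx2 ⟨q, ⟨hq.1, by rw [mem_sphere_zero_iff_norm]; exact h1⟩, e⟩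
    · exact hx1 ⟨q, ⟨hq.1, by rw [mem_ball_zero_iff]; exact h1⟩, e⟩
  have hAb : ∀ x ∈ ι '' (gam ×ˢ sphere (0 : Fin (k + 1) → ℝ) 1),
      BdPt (k + 1) (X \ ι '' (gam ×ˢ ball (0 : Fin (k + 1) → ℝ) 1))
        (ι '' (gam ×ˢ sphere (0 : Fin (k + 1) → ℝ) 1)) x := by
    rintro _ ⟨⟨z, u⟩, ⟨hz, hu⟩, rfl⟩
    have h1 := h.bdpt gam_mfd hz (u := u) (by rwa [← mem_sphere_zero_iff_norm])
    rw [add_comm 1 k] at h1
    exact h1
  have hBi : ∀ x ∈ (closedBall (0 : V2) 1 ×ˢ sphere (0 : Fin (k + 1) → ℝ) 1) \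
      (gam ×ˢ sphere (0 : Fin (k + 1) → ℝ) 1),
      IntPt (k + 1 + 1) (closedBall (0 : V2) 1 ×ˢ sphere (0 : Fin (k + 1) → ℝ) 1) x := by
    rintro ⟨w, u⟩ ⟨⟨hw, hu⟩, hn⟩
    change w ∈ closedBall (0 : V2) 1 at hw
    change u ∈ sphere (0 : Fin (k + 1) → ℝ) 1 at hu
    have hw1 : w ∈ ball (0 : V2) 1 := by
      rw [mem_closedBall_zero_iff] at hw
      rw [mem_ball_zero_iff]
      refine lt_of_le_of_ne hw fun e => hn ⟨?_, hu⟩
      show w ∈ sphere (0 : V2) 1
      rw [mem_sphere_zero_iff_norm]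
      exact e
    have h1 : IntPt 2 (closedBall (0 : V2) 1) w :=
      intpt_of_interior (by simp) (ball_subset_interior_closedBall hw1)
    have h2 := h1.prod (show IntPt k (sphere (0 : Fin (k + 1) → ℝ) 1) u from hsph.2 u hu)
    have h3 : 2 + k = k + 1 + 1 := by omega
    rw [h3] at h2
    exact h2
  have hBb : ∀ x ∈ gam ×ˢ sphere (0 : Fin (k + 1) → ℝ) 1,
      BdPt (k + 1) (closedBall (0 : V2) 1 ×ˢ sphere (0 : Fin (k + 1) → ℝ) 1)
        (gam ×ˢ sphere (0 : Fin (k + 1) → ℝ) 1) x := by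
    rintro ⟨w, u⟩ ⟨hw, hu⟩
    change w ∈ sphere (0 : V2) 1 at hw
    change u ∈ sphere (0 : Fin (k + 1) → ℝ) 1 at hu
    have h1 : BdPt 1 (closedBall (0 : V2) 1) (sphere (0 : V2) 1) w :=
      bdpt_ball 1 (by rwa [← mem_sphere_zero_iff_norm])
    have h2 := h1.prod_int (show IntPt k (sphere (0 : Fin (k + 1) → ℝ) 1) u from hsph.2 u hu)
    rw [add_comm 1 k] at h2
    exact h2
  obtain ⟨jA, jB, g1, g2, g3, g4, g5, g6, g7⟩ := glue_mfd hA hB hDA hDB hAs hBs hAi hAb hBi hBb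
    (φ := ι) (h.pl.mono hDB hsub2) (h.inj.mono hsub2) rfl
  refine ⟨jA, jB, ?_, g7, ?_⟩
  · exact
      { plA := g1
        injA := g2
        plB := g3
        injB := g4
        sub := hBs
        maps := fun q hq => hAs ⟨q, hq, rfl⟩
        plφ := h.pl.mono hDB hsub2
        comm := g5
        sep := g6 }
  · have hS : IsConnected (gam ×ˢ sphere (0 : Fin (k + 1) → ℝ) 1) :=
      gam_conn.prod (sphere_connected k hk)
    have hAc : IsConnected (X \ ι '' (gam ×ˢ ball (0 : Fin (k + 1) → ℝ) 1)) :=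
      h.connected_remove hP hc hX.1.isCompact.isClosed hS
    have hBall : IsConnected (closedBall (0 : V2) 1) :=
      ⟨⟨0, mem_closedBall_self zero_le_one⟩, (convex_closedBall (0 : V2) 1).isPreconnected⟩
    have hBc : IsConnected (closedBall (0 : V2) 1 ×ˢ sphere (0 : Fin (k + 1) → ℝ) 1) :=
      hBall.prod (sphere_connected k hk)
    obtain ⟨q, hq⟩ := hS.nonempty
    refine IsConnected.union ⟨jB q, ⟨ι q, hAs ⟨q, hq, rfl⟩, g5 q hq⟩, ⟨q, hBs hq, rfl⟩⟩
      (hAc.image _ g1.continuousOn) (hBc.image _ g3.continuousOn)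

theorem step_glue {n : ℕ} (hn : 2 ≤ n) {X : Set E} (hX : IsClosedPLManifold (n + 1) X)
    (hc : IsConnected X) {ι : V2 × (Fin n → ℝ) → E} (h : Tube gam n X ι) :
    ∃ (jA : E → E × (V2 × (Fin n → ℝ)) × ℝ) (jB : V2 × (Fin n → ℝ) → E × (V2 × (Fin n → ℝ)) × ℝ),
      Glued (X \ ι '' (gam ×ˢ ball (0 : Fin n → ℝ) 1))
        (closedBall (0 : V2) 1 ×ˢ sphere (0 : Fin n → ℝ) 1) (gam ×ˢ sphere (0 : Fin n → ℝ) 1)
        ι jA jB ∧
      IsClosedPLManifold (n + 1) (jA '' (X \ ι '' (gam ×ˢ ball (0 : Fin n → ℝ) 1)) ∪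
        jB '' (closedBall (0 : V2) 1 ×ˢ sphere (0 : Fin n → ℝ) 1)) ∧
      IsConnected (jA '' (X \ ι '' (gam ×ˢ ball (0 : Fin n → ℝ) 1)) ∪
        jB '' (closedBall (0 : V2) 1 ×ˢ sphere (0 : Fin n → ℝ) 1)) := by
  obtain ⟨k, rfl⟩ : ∃ k, n = k + 1 := ⟨n - 1, by omega⟩
  exact STM_aux (by omega) hX hc h

end Pool.H54.UB

end S_STM

section S_STQ

/-!
# Row STQ: cocycles on the result of a surgery

* `step_qtriv`: let `c` be a cocycle on `jA '' A ∪ jB '' B`.  `cB x y = c (jB x) (jB y)` is a cocycle on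
  `B = closedBall × sphere` (`NCoc.comp`), trivial by `QTriv.prod` (`QTriv.convex`, `sphere_qtriv` for the
  sphere in `Fin n → ℝ`, `n ≥ 3`; write `n = k + 1`).  So `c` is trivial on `jB '' DB = jA '' (ι '' ..)`
  and `cA x y = c (jA x) (jA y)` is trivial on `ι '' (gam × sphere 0 1)` (`NTriv.comp`, `NTriv.mono`).
  `tube_extend` gives `c'` on `X`; by `hT` it is trivial on `X`, so `cA` is trivial on `A`
  (`NTriv.of_local_eq`).  Then `c` is trivial on `jA '' A` and on `jB '' B` (compose with the inverse,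
  continuous on the compact image, `NTriv.comp`), and `NTriv.union_closed` applies: the intersection is
  `jB '' DB`, `DB = gam × sphere` connected.
* `strand_triv`: `c` is a cocycle on `N × gam` which is trivial on the strand tube
  `(ι (κ p).2, (κ p).1)`.  On the solid torus put `c₂ (z,v) (z',v') = c (ι v, z) (ι v', z')` on
  `gam × closedBall 0 1`.  `solid_torus` gives `τ`; the loop `z ↦ κ (z, 0)` (in `gam × closedBall 0 1`,
  first coordinate `wnd (p s)`) is trivial, so `τ ^ p = 1`; with `τ ^ l = 1` and `p ∤ l`, `τ = 1`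
  (`p` prime).  So `c₂` is trivial, hence `c` is trivial on `{ι 0} × gam`; on `N × {wnd 0}` it is trivial by
  `hQ`; `NTriv.prod`.
-/

open Set Topology Metric

namespace Pool.H54.UB

variable {E H : Type*} [NormedAddCommGroup E] [NormedSpace ℝ E] [FiniteDimensional ℝ E]
  [NormedAddCommGroup H] [NormedSpace ℝ H] [FiniteDimensional ℝ H]

/-- transport of triviality to the image of an embedding -/
theorem STQ_inv {X Y Q : Type*} [TopologicalSpace X] [TopologicalSpace Y] [T2Space Y] [Group Q]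
    {K : Set X} (hK : IsCompact K) {j : X → Y} (hj : ContinuousOn j K) (hi : InjOn j K)
    {c : Y → Y → Q} (h : NTriv (fun a b => c (j a) (j b)) K) : NTriv c (j '' K) := by
  rcases K.eq_empty_or_nonempty with hE | ⟨x₀, hx₀⟩
  · refine ⟨fun _ => 1, fun x hx => ?_⟩
    rw [hE, image_empty] at hx
    exact absurd hx (notMem_empty x)
  have : Nonempty X := ⟨x₀⟩
  have hψ : ContinuousOn (Function.invFunOn j K) (j '' K) := by
    rintro _ ⟨q, hq, rfl⟩
    rw [ContinuousWithinAt, hi.leftInvOn_invFunOn hq]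
    intro V hV
    have h1 := emb_nhds hK hj hi hq (mem_nhdsWithin_of_mem_nhds hV)
    rw [Filter.mem_map]
    refine Filter.mem_of_superset h1 ?_
    rintro _ ⟨q', ⟨hq1, hq2⟩, rfl⟩
    show Function.invFunOn j K (j q') ∈ V
    rw [hi.leftInvOn_invFunOn hq2]
    exact hq1
  have h1 : Function.invFunOn j K '' (j '' K) ⊆ K := by
    rintro _ ⟨_, ⟨q, hq, rfl⟩, rfl⟩
    rw [hi.leftInvOn_invFunOn hq]
    exact hq
  obtain ⟨g, hg⟩ := NTriv.comp hψ (h.mono h1)
  refine ⟨g, fun x hx => ?_⟩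
  obtain ⟨U, hU, h2⟩ := hg x hx
  refine ⟨U, hU, fun a ha b hb => ?_⟩
  have h3 : c (j (Function.invFunOn j K a)) (j (Function.invFunOn j K b)) = (g a)⁻¹ * g b :=
    h2 a ha b hb
  rwa [Function.invFunOn_eq ha.2, Function.invFunOn_eq hb.2] at h3

theorem STQ_B (k : ℕ) (hk : 2 ≤ k) (Q : Type*) [Group Q] :
    QTriv Q (closedBall (0 : V2) 1 ×ˢ sphere (0 : Fin (k + 1) → ℝ) 1) :=
  QTriv.prod (isCompact_closedBall _ _) (isCompact_sphere _ _)
    (convex_closedBall _ _).isPreconnected (sphere_connected k (by omega)).isPreconnected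
    (QTriv.convex (convex_closedBall _ _)) (sphere_qtriv k hk Q)

theorem step_qtriv {n : ℕ} (hn : 3 ≤ n) {X : Set E} (hX : IsPoly X)
    {ι : V2 × (Fin n → ℝ) → E} (h : Tube gam n X ι) {jA : E → H} {jB : V2 × (Fin n → ℝ) → H}
    (g : Glued (X \ ι '' (gam ×ˢ ball (0 : Fin n → ℝ) 1))
        (closedBall (0 : V2) 1 ×ˢ sphere (0 : Fin n → ℝ) 1) (gam ×ˢ sphere (0 : Fin n → ℝ) 1)
        ι jA jB) (Q : Type*) [Group Q]
    (hT : ∀ c : E → E → Q, NCoc c X →
      NTriv c (ι '' (gam ×ˢ closedBall (0 : Fin n → ℝ) 2)) → NTriv c X) :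
    QTriv Q (jA '' (X \ ι '' (gam ×ˢ ball (0 : Fin n → ℝ) 1)) ∪
        jB '' (closedBall (0 : V2) 1 ×ˢ sphere (0 : Fin n → ℝ) 1)) := by
  obtain ⟨k, rfl⟩ : ∃ k, n = k + 1 := ⟨n - 1, by omega⟩
  intro c hc
  have hAc : IsCompact (X \ ι '' (gam ×ˢ ball (0 : Fin (k + 1) → ℝ) 1)) :=
    g.plA.domain.isCompact
  have hBc : IsCompact (closedBall (0 : V2) 1 ×ˢ sphere (0 : Fin (k + 1) → ℝ) 1) :=
    (isCompact_closedBall _ _).prod (isCompact_sphere _ _)
  have hjA := g.plA.continuousOn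
  have hjB := g.plB.continuousOn
  have hdiff := fun x (hx : x ∈ gam ×ˢ sphere (0 : Fin (k + 1) → ℝ) 1) => g.comm x hx
  -- the second part
  have hB : NTriv c (jB '' (closedBall (0 : V2) 1 ×ˢ sphere (0 : Fin (k + 1) → ℝ) 1)) :=
    STQ_inv hBc hjB g.injB (STQ_B k (by omega) Q _ (NCoc.comp hjB (hc.mono subset_union_right)))
  -- the first part
  have hcA := NCoc.comp hjA (hc.mono subset_union_left)
  have hsubA : ι '' (gam ×ˢ sphere (0 : Fin (k + 1) → ℝ) 1) ⊆
      X \ ι '' (gam ×ˢ ball (0 : Fin (k + 1) → ℝ) 1) := g.maps.image_subset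
  have hshell : NTriv (fun a b => c (jA a) (jA b)) (ι '' (gam ×ˢ sphere (0 : Fin (k + 1) → ℝ) 1)) := by
    refine NTriv.comp (hjA.mono hsubA) (hB.mono ?_)
    rintro _ ⟨_, ⟨y, hy, rfl⟩, rfl⟩
    rw [hdiff y hy]
    exact mem_image_of_mem _ (g.sub hy)
  obtain ⟨c', hc'1, hc'2, hc'3⟩ := tube_extend h gam_mfd.1 hX.isCompact.isClosed hcA hshell
  have hA : NTriv c (jA '' (X \ ι '' (gam ×ˢ ball (0 : Fin (k + 1) → ℝ) 1))) :=
    STQ_inv hAc hjA g.injA (NTriv.of_local_eq hc'2 ((hT c' hc'1 hc'3).mono sdiff_subset))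
  refine NTriv.union_closed (hAc.image_of_continuousOn hjA).isClosed
    (hBc.image_of_continuousOn hjB).isClosed hc ?_ hA hB
  have hint : jA '' (X \ ι '' (gam ×ˢ ball (0 : Fin (k + 1) → ℝ) 1)) ∩
      jB '' (closedBall (0 : V2) 1 ×ˢ sphere (0 : Fin (k + 1) → ℝ) 1) =
      jB '' (gam ×ˢ sphere (0 : Fin (k + 1) → ℝ) 1) := by
    apply Subset.antisymm
    · rintro _ ⟨⟨x, hx, rfl⟩, ⟨y, hy, hxy⟩⟩
      rw [← hxy]
      exact mem_image_of_mem _ (g.sep x hx y hy hxy.symm).1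
    · rintro _ ⟨y, hy, rfl⟩
      refine ⟨?_, mem_image_of_mem _ (g.sub hy)⟩
      rw [← hdiff y hy]
      exact mem_image_of_mem _ (g.maps hy)
  rw [hint]
  exact (gam_conn.isPreconnected.prod (sphere_connected k (by omega)).isPreconnected).image _
    (hjB.mono g.sub)

theorem strand_triv {n : ℕ} {N : Set E} (hN : IsPoly N) (hc : IsConnected N)
    {ι : (Fin n → ℝ) → E} (h : CubeT n N ι) (Q : Type*) [Group Q] (hQ : QTriv Q N) {p l : ℕ}
    (hp : p.Prime) (hpl : ¬ p ∣ l) (hl : ∀ q : Q, q ^ l = 1)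
    {κ : V2 × (Fin n → ℝ) → V2 × (Fin n → ℝ)}
    (hκ : Tube gam n (gam ×ˢ closedBall (0 : Fin n → ℝ) 2) κ)
    (hκ1 : MapsTo κ (gam ×ˢ closedBall (0 : Fin n → ℝ) 2) (gam ×ˢ closedBall (0 : Fin n → ℝ) 1))
    (hκ2 : ∀ (s : ℝ) (u : Fin n → ℝ), (κ (wnd s, u)).1 = wnd (p * s))
    (c : E × V2 → E × V2 → Q) (hcc : NCoc c (N ×ˢ gam))
    (ht : NTriv c ((fun q : V2 × (Fin n → ℝ) => (ι (κ q).2, (κ q).1)) ''
      (gam ×ˢ closedBall (0 : Fin n → ℝ) 2))) : NTriv c (N ×ˢ gam) := by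
  have h0 : (0 : Fin n → ℝ) ∈ closedBall (0 : Fin n → ℝ) 1 := mem_closedBall_self zero_le_one
  have h02 : (0 : Fin n → ℝ) ∈ closedBall (0 : Fin n → ℝ) 2 := mem_closedBall_self (by norm_num)
  have h12 : closedBall (0 : Fin n → ℝ) 1 ⊆ closedBall (0 : Fin n → ℝ) 2 :=
    closedBall_subset_closedBall (by norm_num)
  have hιc := h.pl.continuousOn
  have hκc := hκ.pl.continuousOn
  -- the cocycle on the solid torus
  obtain ⟨φ, hφ⟩ : ∃ φ : V2 × (Fin n → ℝ) → E × V2, ∀ q, φ q = (ι q.2, q.1) := ⟨_, fun _ => rfl⟩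
  have hφc : ContinuousOn φ (gam ×ˢ closedBall (0 : Fin n → ℝ) 1) := by
    have h1 : φ = fun q => (ι q.2, q.1) := funext hφ
    rw [h1]
    refine ContinuousOn.prodMk ?_ continuous_fst.continuousOn
    exact (hιc.mono h12).comp continuous_snd.continuousOn fun q hq => hq.2
  have hφm : φ '' (gam ×ˢ closedBall (0 : Fin n → ℝ) 1) ⊆ N ×ˢ gam := by
    rintro _ ⟨q, hq, rfl⟩
    rw [hφ]
    exact ⟨h.maps (h12 hq.2), hq.1⟩
  have hc₂ := NCoc.comp hφc (hcc.mono hφm)
  obtain ⟨τ, hτ1, hτ2⟩ := solid_torus (convex_closedBall (0 : Fin n → ℝ) 1) ⟨0, h0⟩ hc₂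
  have hm0 : ∀ z ∈ gam, (z, (0 : Fin n → ℝ)) ∈ gam ×ˢ closedBall (0 : Fin n → ℝ) 2 :=
    fun z hz => ⟨hz, h02⟩
  have hκ0 : ContinuousOn (fun z : V2 => κ (z, 0)) gam :=
    hκc.comp (Continuous.prodMk_left (0 : Fin n → ℝ)).continuousOn hm0
  have hκm0 : MapsTo (fun z : V2 => κ (z, 0)) gam (gam ×ˢ closedBall (0 : Fin n → ℝ) 1) :=
    fun z hz => hκ1 (hm0 z hz)
  have hτ3 := hτ2 (p : ℤ) 0 (fun z => κ (z, 0)) hκ0 hκm0 (fun s => by
    rw [hκ2, add_zero]
    norm_num)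
  have hloop : NTriv (fun a b => c (φ (κ (a, 0))) (φ (κ (b, 0)))) gam := by
    refine NTriv.comp (φ := fun z => φ (κ (z, 0))) (hφc.comp hκ0 hκm0) (ht.mono ?_)
    rintro _ ⟨z, hz, rfl⟩
    refine ⟨(z, 0), hm0 z hz, ?_⟩
    beta_reduce
    rw [hφ]
  have hτp : τ ^ p = 1 := by
    have := hτ3.1 hloop
    rwa [zpow_natCast] at this
  have hτ : τ = 1 := by
    have h1 : orderOf τ ∣ p := orderOf_dvd_of_pow_eq_one hτp
    have h2 : orderOf τ ∣ l := orderOf_dvd_of_pow_eq_one (hl τ)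
    have h3 : Nat.Coprime p l := (Nat.Prime.coprime_iff_not_dvd hp).2 hpl
    have h4 : orderOf τ ∣ 1 := by
      have := Nat.dvd_gcd h1 h2
      rwa [h3] at this
    exact orderOf_eq_one_iff.1 (Nat.dvd_one.1 h4)
  have hS := hτ1 hτ
  have hι0 : ι 0 ∈ N := h.maps h02
  have hgc : IsCompact gam := gam_mfd.1.isCompact
  refine NTriv.prod hN.isCompact hgc hc.isPreconnected gam_conn.isPreconnected hcc hι0
    (wnd_mem 0) ?_ ?_
  · rw [NTriv.slice_iff]
    refine hQ _ (NCoc.comp (φ := fun a => (a, wnd 0)) (Continuous.prodMk_left _).continuousOn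
      (hcc.mono ?_))
    rintro _ ⟨a, ha, rfl⟩
    exact ⟨ha, wnd_mem 0⟩
  · rw [NTriv.slice_iff']
    have h1 : NTriv (fun a b : V2 => c (φ (a, 0)) (φ (b, 0))) gam := by
      refine NTriv.comp (c := fun x y => c (φ x) (φ y)) (φ := fun z : V2 => (z, (0 : Fin n → ℝ)))
        (Continuous.prodMk_left _).continuousOn (hS.mono ?_)
      rintro _ ⟨z, hz, rfl⟩
      exact ⟨hz, h0⟩
    have h2 : (fun a b : V2 => c (φ (a, 0)) (φ (b, 0))) =
        fun b b' => c (ι 0, b) (ι 0, b') := by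
      funext a b
      rw [hφ, hφ]
    rwa [h2] at h1

end Pool.H54.UB

end S_STQ

section S_EVP

/-!
# Row EVP: evaluation data on `N × gam`

Arcs: `slab = wnd '' Icc 7 8`, `rest = wnd '' Icc 0 7`; `gam = slab ∪ rest`, `slab ∩ rest` consists of the
two points `wnd 0 = wnd 8` and `wnd 7` (`wnd_eq_iff`).
* index type `D.ι × Bool`; pieces `D.A a × slab` (true), `D.A a × rest` (false); `o' = (o, true)`.
* `φ (castSucc i) (a, _) (x, z) = D.φ i a x`; `φ last (a, true) (x, z) = if z = wnd 0 then 1 else 0`,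
  `φ last (a, false) = 0`.
* compat: for `castSucc i` from `D.compat` (neighbourhood `U × univ`); for `last` on the same kind of
  pieces trivial, on `slab ∩ rest = {wnd 0, wnd 7}` every function of `z` is locally constant.
* `y (x, z) = Fin.snoc (D.y x) (s - 7)` for `z = wnd s`, `s ∈ [7,8]` (use `Function.invFunOn wnd (Icc 7 8)`;
  PL by `PLOn.of_leftInv`); `y = 1` in the last coordinate iff `z = wnd 8 = wnd 0`.
* nhd: `slab` is a neighbourhood in `gam` of `wnd s`, `s ∈ (7,8)` (`wnd_open`), product neighbourhood.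
* off: `(a, true)`, `a ≠ o`: from `D.off`; `(a, false)`: `φ last = 0`.
* cube `κ v = (D.κ (c + (1/8) • tail v), wnd (3 + v 0 / 8))`, `c = fun _ => 3/2`, `tail v = v ∘ Fin.succ`: in
  the ball of radius 2 as `3/2 + 1/4 < 2`; openness from `D.cube.image_nhds` and `wnd_open`.
  It does not meet `D.A D.o × slab` by `D.disj`.
* the last clauses are then immediate.
-/

open Set Topology Metric

namespace Pool.H54.UB

variable {E : Type*} [NormedAddCommGroup E] [NormedSpace ℝ E] [FiniteDimensional ℝ E]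

private theorem EVP_nw {s t : ℝ} (h : wnd s = wnd t) (h1 : -8 < t - s) (h2 : t - s < 8) :
    s = t := by
  obtain ⟨k, hk⟩ := wnd_eq_iff.1 h
  have h3 : ((-1 : ℤ) : ℝ) < k := by push_cast; linarith
  have h4 : (k : ℝ) < ((1 : ℤ) : ℝ) := by push_cast; linarith
  have h5 : -1 < k := by exact_mod_cast h3
  have h6 : k < 1 := by exact_mod_cast h4
  have h7 : k = 0 := by omega
  subst h7
  simpa using hk.symm

private theorem EVP_08 : wnd 0 = wnd 8 := by
  have := wnd_per 0 1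
  simpa using this.symm

/-- The two arcs. -/
private def EVP_arc : Bool → Set V2
  | true => wnd '' Icc 7 8
  | false => wnd '' Icc 0 7

private theorem EVP_arc_poly (b : Bool) : IsPoly (EVP_arc b) := by
  cases b
  · exact (wnd_pl 0 7).image
  · exact (wnd_pl 7 8).image

private theorem EVP_arc_sub (b : Bool) : EVP_arc b ⊆ gam := by
  cases b
  · rintro _ ⟨s, _, rfl⟩; exact wnd_mem s
  · rintro _ ⟨s, _, rfl⟩; exact wnd_mem s

private theorem EVP_arc_cover {z : V2} (hz : z ∈ gam) : ∃ b, z ∈ EVP_arc b := by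
  obtain ⟨s, hs, rfl⟩ := wnd_surj 0 hz
  rcases le_total s 7 with h | h
  · exact ⟨false, s, ⟨hs.1, h⟩, rfl⟩
  · exact ⟨true, s, ⟨h, by linarith [hs.2]⟩, rfl⟩

private theorem EVP_arc_inter {z : V2} (h1 : z ∈ EVP_arc true) (h2 : z ∈ EVP_arc false) :
    z = wnd 0 ∨ z = wnd 7 := by
  obtain ⟨s, hs, rfl⟩ := h1
  obtain ⟨t, ht, hst⟩ := h2
  rcases lt_or_ge (s - t) 8 with h | h
  · have h3 : t = s := EVP_nw hst (by linarith [hs.1, ht.2]) h
    right
    have : s = 7 := le_antisymm (by linarith [ht.2]) hs.1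
    rw [this]
  · left
    have h4 : t = 0 := le_antisymm (by linarith [hs.2]) ht.1
    rw [← hst, h4]

private noncomputable def EVP_g (z : V2) : ℝ := Function.invFunOn wnd (Icc 7 8) z

private theorem EVP_g_wnd {s : ℝ} (hs : s ∈ Icc (7 : ℝ) 8) : EVP_g (wnd s) = s :=
  (wnd_injOn (by norm_num)).leftInvOn_invFunOn hs

private theorem EVP_g_arc {z : V2} (hz : z ∈ EVP_arc true) :
    EVP_g z ∈ Icc (7 : ℝ) 8 ∧ wnd (EVP_g z) = z := by
  obtain ⟨s, hs, rfl⟩ := hz
  rw [EVP_g_wnd hs]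
  exact ⟨hs, rfl⟩

private theorem EVP_g_pl : PLOn EVP_g (EVP_arc true) :=
  PLOn.of_leftInv (wnd_pl 7 8) fun _ hs => EVP_g_wnd hs

/-- The last primitive. -/
private noncomputable def EVP_last (R : Type*) [CommRing R] (b : Bool) (z : V2) : R :=
  open Classical in if b = true ∧ z = wnd 0 then 1 else 0

private theorem EVP_last_false (R : Type*) [CommRing R] (z : V2) : EVP_last R false z = 0 := by
  simp [EVP_last]

private theorem EVP_last_true (R : Type*) [CommRing R] (z : V2) :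
    EVP_last R true z = open Classical in if z = wnd 0 then 1 else 0 := by
  simp [EVP_last]

/-- The affine map of the small cube. -/
private noncomputable def EVP_t {n : ℕ} (v : Fin (n + 1) → ℝ) : Fin n → ℝ :=
  (fun _ => 3 / 2) + (1 / 8 : ℝ) • fun i => v i.succ

private theorem EVP_t_apply {n : ℕ} (v : Fin (n + 1) → ℝ) (i : Fin n) :
    EVP_t v i = 3 / 2 + 1 / 8 * v i.succ := rfl

private theorem EVP_abs {n : ℕ} {v : Fin n → ℝ} (hv : v ∈ closedBall (0 : Fin n → ℝ) 2)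
    (i : Fin n) : |v i| ≤ 2 := by
  rw [mem_closedBall_zero_iff, pi_norm_le_iff_of_nonneg (by norm_num)] at hv
  simpa using hv i

private theorem EVP_t_mem {n : ℕ} {v : Fin (n + 1) → ℝ}
    (hv : v ∈ closedBall (0 : Fin (n + 1) → ℝ) 2) : EVP_t v ∈ ball (0 : Fin n → ℝ) 2 := by
  rw [mem_ball_zero_iff, pi_norm_lt_iff (by norm_num)]
  intro i
  rw [Real.norm_eq_abs, EVP_t_apply, abs_lt]
  have := abs_le.1 (EVP_abs hv i.succ)
  constructor <;> linarith [this.1, this.2]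

private theorem EVP_t_cont {n : ℕ} : Continuous (EVP_t (n := n)) := by
  unfold EVP_t
  fun_prop

private theorem EVP_t_pl {n : ℕ} {X : Set (Fin (n + 1) → ℝ)} (hX : IsPoly X) :
    PLOn (EVP_t (n := n)) X := by
  refine PLOn.pi hX fun i => ?_
  have h1 : PLOn (fun v : Fin (n + 1) → ℝ => v i.succ) X := (PLOn.id hX).apply i.succ
  have h2 : PLOn (fun v : Fin (n + 1) → ℝ => (3 / 2 : ℝ) + (1 / 8 : ℝ) • v i.succ) X :=
    (PLOn.const hX (3 / 2 : ℝ)).add (h1.const_smul (1 / 8 : ℝ))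
  exact h2.congr fun v _ => rfl

private theorem EVP_w_mem {n : ℕ} {v : Fin (n + 1) → ℝ}
    (hv : v ∈ closedBall (0 : Fin (n + 1) → ℝ) 2) : 3 + v 0 / 8 ∈ Icc (2 : ℝ) 4 := by
  have := abs_le.1 (EVP_abs hv 0)
  constructor <;> linarith [this.1, this.2]

private theorem EVP_w_pl {n : ℕ} {X : Set (Fin (n + 1) → ℝ)} (hX : IsPoly X) :
    PLOn (fun v : Fin (n + 1) → ℝ => 3 + v 0 / 8) X := by
  have h1 : PLOn (fun v : Fin (n + 1) → ℝ => v 0) X := (PLOn.id hX).apply 0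
  have h2 : PLOn (fun v : Fin (n + 1) → ℝ => (3 : ℝ) + (1 / 8 : ℝ) • v 0) X :=
    (PLOn.const hX (3 : ℝ)).add (h1.const_smul (1 / 8 : ℝ))
  refine h2.congr fun v _ => ?_
  simp only [smul_eq_mul]
  ring

private theorem EVP_box (n : ℕ) : IsPoly (closedBall (0 : Fin n → ℝ) 2) := by
  have h := isPoly_box (m := n) (fun _ => (-2 : ℝ)) (fun _ => 2)
  have e : closedBall (0 : Fin n → ℝ) 2 = {y : Fin n → ℝ | ∀ i, -2 ≤ y i ∧ y i ≤ 2} := by
    ext y
    rw [mem_closedBall_zero_iff, pi_norm_le_iff_of_nonneg (by norm_num)]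
    simp [abs_le]
  rw [e]
  exact h

private theorem EVP_cube {n : ℕ} {N : Set E} {κ : (Fin n → ℝ) → E} (h : CubeT n N κ) :
    CubeT (n + 1) (N ×ˢ gam)
      (fun v : Fin (n + 1) → ℝ => (κ (EVP_t v), wnd (3 + v 0 / 8))) where
  pl := by
    have hX := EVP_box (n + 1)
    refine PLOn.prodMk ?_ ?_
    · exact h.pl.comp (EVP_t_pl hX) fun v hv => ball_subset_closedBall (EVP_t_mem hv)
    · exact (wnd_pl 2 4).comp (EVP_w_pl hX) fun v hv => EVP_w_mem hv
  inj := by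
    intro v hv v' hv' he
    have h1 : κ (EVP_t v) = κ (EVP_t v') := congrArg Prod.fst he
    have h2 : wnd (3 + v 0 / 8) = wnd (3 + v' 0 / 8) := congrArg Prod.snd he
    have h3 := h.inj (ball_subset_closedBall (EVP_t_mem hv))
      (ball_subset_closedBall (EVP_t_mem hv')) h1
    have h4 := wnd_injOn (a := 2) (b := 4) (by norm_num) (EVP_w_mem hv) (EVP_w_mem hv') h2
    funext i
    refine Fin.cases ?_ (fun j => ?_) i
    · linarith
    · have := congrFun h3 j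
      rw [EVP_t_apply, EVP_t_apply] at this
      linarith
  maps := fun v hv => ⟨h.maps (ball_subset_closedBall (EVP_t_mem hv)), wnd_mem _⟩
  nhd := by
    intro p hp
    have hpc := ball_subset_closedBall hp
    have hu := EVP_t_mem hpc
    have hp' : ∀ i, |p i| < 2 := by
      rw [mem_ball_zero_iff, pi_norm_lt_iff (by norm_num)] at hp
      simpa using hp
    let W : Set (Fin n → ℝ) := {u | ∀ i, |8 * (u i - 3 / 2)| < 2}
    have hWo : IsOpen W := by
      have : W = ⋂ i, {u : Fin n → ℝ | |8 * (u i - 3 / 2)| < 2} := by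
        ext u
        simp [W]
      rw [this]
      refine isOpen_iInter_of_finite fun i => ?_
      exact isOpen_lt (by fun_prop) continuous_const
    have hW : W ∈ 𝓝 (EVP_t p) := by
      refine hWo.mem_nhds fun i => ?_
      rw [EVP_t_apply]
      have : 8 * (3 / 2 + 1 / 8 * p i.succ - 3 / 2) = p i.succ := by ring
      rw [this]
      exact hp' _
    have h1 := h.image_nhds hu hW
    have hε : 0 < (2 - |p 0|) / 8 := by
      have := hp' 0
      linarith
    have h2 := wnd_open (3 + p 0 / 8) hε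
    refine Filter.mem_of_superset (nhdsWithin_prod h1 h2) ?_
    rintro ⟨x, z⟩ ⟨⟨u, ⟨huW, huc⟩, rfl⟩, ⟨s, hs, rfl⟩⟩
    refine ⟨Fin.cons (8 * (s - 3)) (fun i => 8 * (u i - 3 / 2)), ?_, ?_⟩
    · rw [mem_closedBall_zero_iff, pi_norm_le_iff_of_nonneg (by norm_num)]
      intro i
      rw [Real.norm_eq_abs]
      refine Fin.cases ?_ (fun j => ?_) i
      · rw [Fin.cons_zero, abs_le]
        have h3 := le_abs_self (p 0)
        have h4 := neg_abs_le (p 0)
        constructor <;> linarith [hs.1, hs.2]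
      · rw [Fin.cons_succ]
        exact (huW j).le
    · simp only [Prod.mk.injEq]
      constructor
      · congr 1
        funext i
        rw [EVP_t_apply, Fin.cons_succ]
        ring
      · congr 1
        rw [Fin.cons_zero]
        ring

private theorem EVP_ne0 {n : ℕ} {v : Fin (n + 1) → ℝ}
    (hv : v ∈ closedBall (0 : Fin (n + 1) → ℝ) 2) : wnd (3 + v 0 / 8) ≠ wnd 0 := by
  intro h
  have h1 := EVP_w_mem hv
  have h2 := EVP_nw h (by linarith [h1.2]) (by linarith [h1.1])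
  linarith [h1.1]

private theorem EVP_slab_nhds {z : V2} (hz : z ∈ EVP_arc true) (h1 : 0 < EVP_g z - 7)
    (h2 : EVP_g z - 7 < 1) : EVP_arc true ∈ 𝓝[gam] z := by
  obtain ⟨_, hg⟩ := EVP_g_arc hz
  have hε : 0 < min (EVP_g z - 7) (8 - EVP_g z) := lt_min h1 (by linarith)
  have h3 := wnd_open (EVP_g z) hε
  rw [hg] at h3
  refine Filter.mem_of_superset h3 ?_
  rintro _ ⟨s, hs, rfl⟩
  have h4 := min_le_left (EVP_g z - 7) (8 - EVP_g z)
  have h5 := min_le_right (EVP_g z - 7) (8 - EVP_g z)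
  exact ⟨s, ⟨by linarith [hs.1], by linarith [hs.2]⟩, rfl⟩

/-- The functions on the product. -/
private noncomputable def EVP_phi {n : ℕ} {N : Set E} {R : Type*} [CommRing R] (D : EvC n N R)
    (i : Fin (n + 1)) (a : D.ι × Bool) (x : E × V2) : R :=
  Fin.snoc (α := fun _ => R) (fun j => D.φ j a.1 x.1) (EVP_last R a.2 x.2) i

private theorem EVP_phi_c {n : ℕ} {N : Set E} {R : Type*} [CommRing R] (D : EvC n N R)
    (i : Fin n) (a : D.ι × Bool) (x : E × V2) :
    EVP_phi D i.castSucc a x = D.φ i a.1 x.1 := by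
  unfold EVP_phi
  rw [Fin.snoc_castSucc]

private theorem EVP_phi_l {n : ℕ} {N : Set E} {R : Type*} [CommRing R] (D : EvC n N R)
    (a : D.ι × Bool) (x : E × V2) :
    EVP_phi D (Fin.last n) a x = EVP_last R a.2 x.2 := by
  unfold EVP_phi
  rw [Fin.snoc_last]

private noncomputable def EVP_y {n : ℕ} {N : Set E} {R : Type*} [CommRing R] (D : EvC n N R)
    (x : E × V2) : Fin (n + 1) → ℝ :=
  Fin.snoc (α := fun _ => ℝ) (D.y x.1) (EVP_g x.2 - 7)

private theorem EVP_y_c {n : ℕ} {N : Set E} {R : Type*} [CommRing R] (D : EvC n N R)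
    (x : E × V2) (i : Fin n) : EVP_y D x i.castSucc = D.y x.1 i := by
  unfold EVP_y
  rw [Fin.snoc_castSucc]

private theorem EVP_y_l {n : ℕ} {N : Set E} {R : Type*} [CommRing R] (D : EvC n N R)
    (x : E × V2) : EVP_y D x (Fin.last n) = EVP_g x.2 - 7 := by
  unfold EVP_y
  rw [Fin.snoc_last]

private noncomputable def EVP_D {n : ℕ} {N : Set E} {R : Type*} [CommRing R] (D : EvC n N R) :
    EvC (n + 1) (N ×ˢ gam) R where
  ι := D.ι × Bool
  fin := by
    have := D.fin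
    infer_instance
  A := fun a => D.A a.1 ×ˢ EVP_arc a.2
  poly := fun a => (D.poly a.1).prod (EVP_arc_poly a.2)
  cover := by
    ext ⟨x, z⟩
    constructor
    · rintro ⟨hx, hz⟩
      simp only at hx hz
      rw [D.cover] at hx
      obtain ⟨a, ha⟩ := mem_iUnion.1 hx
      obtain ⟨b, hb⟩ := EVP_arc_cover hz
      exact mem_iUnion.2 ⟨(a, b), ha, hb⟩
    · intro h
      obtain ⟨a, ha⟩ := mem_iUnion.1 h
      refine ⟨?_, EVP_arc_sub _ ha.2⟩
      rw [D.cover]
      exact mem_iUnion.2 ⟨a.1, ha.1⟩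
  φ := EVP_phi D
  compat := by
    intro i a b x hx
    refine Fin.lastCases ?_ (fun j => ?_) i
    · by_cases hab : a.2 = b.2
      · refine ⟨univ, Filter.univ_mem, fun y _ => ?_⟩
        rw [EVP_phi_l, EVP_phi_l, EVP_phi_l, EVP_phi_l, hab, sub_self, sub_self]
      · have hfin : ∀ y : E × V2, y ∈ (D.A a.1 ×ˢ EVP_arc a.2) ∩ (D.A b.1 ×ˢ EVP_arc b.2) →
            y.2 = wnd 0 ∨ y.2 = wnd 7 := by
          rintro y ⟨hya, hyb⟩
          have h1 := hya.2
          have h2 := hyb.2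
          rcases ha2 : a.2 with _ | _ <;> rcases hb2 : b.2 with _ | _
          · exact absurd (ha2.trans hb2.symm) hab
          · rw [ha2] at h1
            rw [hb2] at h2
            exact EVP_arc_inter h2 h1
          · rw [ha2] at h1
            rw [hb2] at h2
            exact EVP_arc_inter h1 h2
          · exact absurd (ha2.trans hb2.symm) hab
        have hfs : (({wnd 0, wnd 7} : Set V2) \ {x.2}).Finite :=
          ((finite_singleton _).insert _).subset sdiff_subset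
        refine ⟨Prod.snd ⁻¹' ((({wnd 0, wnd 7} : Set V2) \ {x.2})ᶜ), ?_, ?_⟩
        · refine continuous_snd.continuousAt.preimage_mem_nhds
            (hfs.isClosed.isOpen_compl.mem_nhds ?_)
          intro h
          exact h.2 rfl
        · rintro y ⟨hyU, hy⟩
          have hy2 : y.2 = x.2 := by
            by_contra hne
            apply hyU
            exact ⟨hfin y hy, hne⟩
          rw [EVP_phi_l, EVP_phi_l, EVP_phi_l, EVP_phi_l, hy2]
    · obtain ⟨U, hU, hc⟩ := D.compat j a.1 b.1 x.1 ⟨hx.1.1, hx.2.1⟩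
      refine ⟨Prod.fst ⁻¹' U, continuous_fst.continuousAt.preimage_mem_nhds hU, ?_⟩
      rintro y ⟨hyU, hy⟩
      rw [EVP_phi_c, EVP_phi_c, EVP_phi_c, EVP_phi_c]
      exact hc y.1 ⟨hyU, hy.1.1, hy.2.1⟩
  o := (D.o, true)
  y := EVP_y D
  pl := by
    have hA : IsPoly (D.A D.o ×ˢ EVP_arc true) := (D.poly D.o).prod (EVP_arc_poly true)
    refine PLOn.pi hA fun i => ?_
    refine Fin.lastCases ?_ (fun j => ?_) i
    · have h1 : PLOn (fun x : E × V2 => EVP_g x.2) (D.A D.o ×ˢ EVP_arc true) :=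
        EVP_g_pl.comp (PLOn.affine (LinearMap.snd ℝ E V2).toAffineMap hA) fun x hx => hx.2
      have h2 := h1.add (PLOn.const hA (-7 : ℝ))
      refine h2.congr fun x _ => ?_
      simp only
      rw [EVP_y_l]
      ring
    · have h1 : PLOn (fun x : E × V2 => D.y x.1 j) (D.A D.o ×ˢ EVP_arc true) :=
        (D.pl.apply j).comp (PLOn.affine (LinearMap.fst ℝ E V2).toAffineMap hA) fun x hx => hx.1
      refine h1.congr fun x _ => ?_
      simp only
      rw [EVP_y_c]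
  inj := by
    rintro ⟨x, z⟩ hx ⟨x', z'⟩ hx' he
    have h1 : x = x' := by
      refine D.inj hx.1 hx'.1 ?_
      funext j
      have := congrFun he j.castSucc
      rwa [EVP_y_c, EVP_y_c] at this
    have h2 : z = z' := by
      have := congrFun he (Fin.last n)
      rw [EVP_y_l, EVP_y_l] at this
      have h3 : EVP_g z = EVP_g z' := by
        simp only at this
        linarith
      exact (EVP_g_arc hx.2).2.symm.trans ((congrArg wnd h3).trans (EVP_g_arc hx'.2).2)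
    rw [h1, h2]
  img := by
    ext w
    constructor
    · rintro ⟨x, hx, rfl⟩ i
      refine Fin.lastCases ?_ (fun j => ?_) i
      · rw [EVP_y_l]
        have := (EVP_g_arc hx.2).1
        constructor <;> linarith [this.1, this.2]
      · rw [EVP_y_c]
        have : D.y x.1 ∈ D.y '' D.A D.o := mem_image_of_mem _ hx.1
        rw [D.img] at this
        exact this j
    · intro hw
      have h1 : (fun j : Fin n => w j.castSucc) ∈ D.y '' D.A D.o := by
        rw [D.img]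
        exact fun j => hw j.castSucc
      obtain ⟨x, hx, hxw⟩ := h1
      have hl := hw (Fin.last n)
      have h7 : 7 + w (Fin.last n) ∈ Icc (7 : ℝ) 8 := ⟨by linarith [hl.1], by linarith [hl.2]⟩
      refine ⟨(x, wnd (7 + w (Fin.last n))), ⟨hx, ⟨_, h7, rfl⟩⟩, ?_⟩
      funext i
      refine Fin.lastCases ?_ (fun j => ?_) i
      · rw [EVP_y_l]
        simp only
        rw [EVP_g_wnd h7]
        ring
      · rw [EVP_y_c]
        exact congrFun hxw j
  nhd := by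
    rintro ⟨x, z⟩ hv h
    have h1 : D.A D.o ∈ 𝓝[N] x := by
      refine D.nhd x hv.1 fun j => ?_
      have := h j.castSucc
      rwa [EVP_y_c] at this
    have h2 : EVP_arc true ∈ 𝓝[gam] z := by
      have := h (Fin.last n)
      rw [EVP_y_l] at this
      exact EVP_slab_nhds hv.2 this.1 this.2
    exact nhdsWithin_prod h1 h2
  wall := by
    intro i v hv
    refine Fin.lastCases ?_ (fun j => ?_) i
    · rw [EVP_y_l, EVP_phi_l]
      obtain ⟨hg1, hg2⟩ := EVP_g_arc hv.2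
      show (_ → EVP_last R true v.2 = 1) ∧ (_ → EVP_last R true v.2 = 0)
      rw [EVP_last_true]
      constructor
      · intro h
        have h8 : EVP_g v.2 = 8 := by linarith
        rw [if_pos]
        rw [← hg2, h8, EVP_08]
      · intro h
        rw [if_neg]
        intro h0
        apply h
        rw [h0, EVP_08, EVP_g_wnd ⟨by norm_num, le_rfl⟩]
        norm_num
    · rw [EVP_y_c, EVP_phi_c]
      exact D.wall j v.1 hv.1
  off := by
    intro a ha
    by_cases h : a.1 = D.o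
    · refine ⟨Fin.last n, fun x _ x' _ => ?_⟩
      have hf : a.2 = false := by
        rcases h2 : a.2 with _ | _
        · rfl
        · exact absurd (Prod.ext h h2) ha
      rw [EVP_phi_l, EVP_phi_l, hf, EVP_last_false, EVP_last_false]
    · obtain ⟨i, hi⟩ := D.off a.1 h
      refine ⟨i.castSucc, fun x hx x' hx' => ?_⟩
      rw [EVP_phi_c, EVP_phi_c]
      exact hi x.1 hx.1 x'.1 hx'.1
  κ := fun v => (D.κ (EVP_t v), wnd (3 + v 0 / 8))
  cube := EVP_cube D.cube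
  lc := by
    intro i a u hu hm
    refine Fin.lastCases ?_ (fun j => ?_) i
    · refine ⟨univ, Filter.univ_mem, fun u' hu' _ => ?_⟩
      rw [EVP_phi_l, EVP_phi_l]
      simp only [EVP_last, EVP_ne0 hu, EVP_ne0 hu'.2, and_false]
    · obtain ⟨U, hU, hc⟩ := D.lc j a.1 (EVP_t u) (ball_subset_closedBall (EVP_t_mem hu)) hm.1
      refine ⟨EVP_t ⁻¹' U, EVP_t_cont.continuousAt.preimage_mem_nhds hU, ?_⟩
      intro u' hu' hm'
      rw [EVP_phi_c, EVP_phi_c]
      exact hc _ ⟨hu'.1, ball_subset_closedBall (EVP_t_mem hu'.2)⟩ hm'.1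
  disj := fun u hu h => D.disj _ (ball_subset_closedBall (EVP_t_mem hu)) h.1

theorem EvC.prodGam {n : ℕ} {N : Set E} {R : Type*} [CommRing R] (D : EvC n N R) :
    ∃ D' : EvC (n + 1) (N ×ˢ gam) R,
      (∀ i : Fin n, ∀ a, ∀ v ∈ closedBall (0 : Fin n → ℝ) 2, ∀ z ∈ gam, (D.κ v, z) ∈ D'.A a →
        ∃ U ∈ 𝓝 (v, z), ∀ q ∈ U, q.1 ∈ closedBall (0 : Fin n → ℝ) 2 → q.2 ∈ gam →
          (D.κ q.1, q.2) ∈ D'.A a →
          D'.φ i.castSucc a (D.κ q.1, q.2) = D'.φ i.castSucc a (D.κ v, z)) ∧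
      (∀ a, (∀ x ∈ D'.A a, x.2 ∈ wnd '' Icc 7 8 ∧
            D'.φ (Fin.last n) a x = open Classical in if x.2 = wnd 0 then 1 else 0) ∨
          ∀ x ∈ D'.A a, x.2 ∈ wnd '' Icc 0 7 ∧ D'.φ (Fin.last n) a x = 0) ∧
      D'.A D'.o ⊆ D.A D.o ×ˢ gam ∧
      ∀ v, D'.κ v = (D.κ ((fun _ => 3 / 2) + (1 / 8 : ℝ) • fun i => v i.succ),
        wnd (3 + v 0 / 8)) := by
  refine ⟨EVP_D D, ?_, ?_, ?_, fun v => rfl⟩
  · intro i a v hv z _ hm
    obtain ⟨U, hU, hc⟩ := D.lc i a.1 v hv hm.1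
    refine ⟨Prod.fst ⁻¹' U, continuous_fst.continuousAt.preimage_mem_nhds hU, ?_⟩
    intro q hq hq1 _ hqm
    exact (EVP_phi_c D i a (D.κ q.1, q.2)).trans
      ((hc q.1 ⟨hq, hq1⟩ hqm.1).trans (EVP_phi_c D i a (D.κ v, z)).symm)
  · rintro ⟨a, b⟩
    rcases b with _ | _
    · right
      intro x hx
      refine ⟨hx.2, ?_⟩
      show EVP_phi D (Fin.last n) (a, false) x = 0
      rw [EVP_phi_l, EVP_last_false]
    · left
      intro x hx
      refine ⟨hx.2, ?_⟩
      show EVP_phi D (Fin.last n) (a, true) x = _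
      rw [EVP_phi_l, EVP_last_true]
  · intro x hx
    exact ⟨hx.1, EVP_arc_sub _ hx.2⟩

end Pool.H54.UB

end S_EVP

section S_STE

/-!
# Row STE: evaluation data after the surgery

`X = N × gam`, tube `θ q = (D.κ (κ q).2, (κ q).1)`, `A = X \ θ (gam × ball 0 1)`.
* `D₁` on `X` from `EvC.prodGam D`; restrict to `A` (`EvC.restrict`, `Tube.poly_remove`): the distinguished
  piece `D₁.A D₁.o ⊆ D.A D.o × gam` does not meet the image of `θ` (`D.disj`), the new cube has first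
  coordinate `D.κ w` with all coordinates of `w` at least `3/2 - 1/4 > 1`, so (injectivity of `D.κ`,
  `n ≥ 1`) it does not meet the image of `θ`, whose points have `‖(κ q).2‖ ≤ 1`.
* `EvB` on `B = closedBall × sphere`: one piece, `φ (castSucc i) = 0`,
  `φ last (z, u) = (⌊p * ang z / 8⌋ : ZMod p)` (cast of an integer floor).
* cross condition for `y = (z, u) ∈ DB`: for `castSucc i`: the first clause of `prodGam` and continuity of
  `κ`.  For `last`, second alternative (`rest`): `(θ y).2 = wnd (p s) ∈ wnd '' Icc 0 7` for `z = wnd s`; the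
  integer `⌊p s / 8⌋ mod p` (independent of the choice of `s`, since `s + 8` adds `p = 0`) is locally
  constant on `{s : wnd (p s) ∈ wnd '' Icc 0 7} = {s : p s ∈ ⋃ [8k, 8k+7]}` and the fractional parts stay
  away from `1`.  First alternative (`slab`): `p s ∈ ⋃ [8k+7, 8k+8]`, the difference of
  `if wnd (p s) = wnd 0 then 1 else 0` and `⌊p s / 8⌋` equals `-k` on `[8k+7, 8k+8]`: locally constant.
  Near `z = wnd s` every point of `gam` is `wnd s'` with `s'` near `s` (`wnd_open`).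
* `Glued.evc`.
-/

open Set Topology Metric

namespace Pool.H54.UB

variable {E H : Type*} [NormedAddCommGroup E] [NormedSpace ℝ E] [FiniteDimensional ℝ E]
  [NormedAddCommGroup H] [NormedSpace ℝ H] [FiniteDimensional ℝ H]

private theorem STE_floor (p : ℕ) (s : ℝ) :
    ((⌊(p : ℝ) * ang (wnd s) / 8⌋ : ℤ) : ZMod p) = ((⌊(p : ℝ) * s / 8⌋ : ℤ) : ZMod p) := by
  obtain ⟨k, hk⟩ := ang_wnd s
  rw [hk]
  have h1 : (p : ℝ) * (s + 8 * k) / 8 = (p : ℝ) * s / 8 + (((p : ℤ) * k : ℤ) : ℝ) := by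
    push_cast
    ring
  rw [h1, Int.floor_add_intCast]
  push_cast
  rw [ZMod.natCast_self, zero_mul, add_zero]

private theorem STE_slab (p : ℕ) {x : ℝ} (h : wnd x ∈ wnd '' Icc 7 8) :
    ∃ k : ℤ, 8 * (k : ℝ) + 7 ≤ x ∧ x ≤ 8 * k + 8 ∧
      (open Classical in if wnd x = wnd 0 then (1 : ZMod p) else 0) - ((⌊x / 8⌋ : ℤ) : ZMod p) =
        -(k : ZMod p) := by
  classical
  obtain ⟨t, ht, he⟩ := h
  obtain ⟨k, hk⟩ := wnd_eq_iff.1 he
  refine ⟨k, by linarith [ht.1], by linarith [ht.2], ?_⟩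
  rcases eq_or_lt_of_le ht.2 with h8 | h8
  · have h1 : wnd x = wnd 0 := by
      rw [hk, h8]
      have := wnd_per 0 (k + 1)
      rw [← this]
      congr 1
      push_cast
      ring
    have h2 : ⌊x / 8⌋ = k + 1 := by
      rw [Int.floor_eq_iff]
      push_cast
      constructor
      · linarith
      · linarith
    rw [if_pos h1, h2]
    push_cast
    ring
  · have h1 : ¬ wnd x = wnd 0 := by
      intro hc
      obtain ⟨m, hm⟩ := wnd_eq_iff.1 hc
      have h3 : (0 : ℝ) = t + 8 * ((k + m : ℤ) : ℝ) := by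
        push_cast
        linarith
      have h4 : ((k + m : ℤ) : ℝ) < 0 := by linarith [ht.1]
      have h5 : (-1 : ℝ) < ((k + m : ℤ) : ℝ) := by linarith [ht.1]
      have h6 : k + m < 0 := by exact_mod_cast h4
      have h7 : -1 < k + m := by exact_mod_cast h5
      omega
    have h2 : ⌊x / 8⌋ = k := by
      rw [Int.floor_eq_iff]
      constructor
      · linarith [ht.1]
      · linarith
    rw [if_neg h1, h2]
    ring

private theorem STE_rest {x : ℝ} (h : wnd x ∈ wnd '' Icc 0 7) :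
    ∃ k : ℤ, 8 * (k : ℝ) ≤ x ∧ x ≤ 8 * k + 7 ∧ ⌊x / 8⌋ = k := by
  obtain ⟨t, ht, he⟩ := h
  obtain ⟨k, hk⟩ := wnd_eq_iff.1 he
  refine ⟨k, by linarith [ht.1], by linarith [ht.2], ?_⟩
  rw [Int.floor_eq_iff]
  constructor
  · linarith [ht.1]
  · linarith [ht.2]

private theorem STE_eq {k l : ℤ} (h1 : (8 : ℝ) * k - 8 < 8 * l) (h2 : (8 : ℝ) * l < 8 * k + 8) :
    k = l := by
  have h3 : ((k - 1 : ℤ) : ℝ) < l := by push_cast; linarith
  have h4 : (l : ℝ) < ((k + 1 : ℤ) : ℝ) := by push_cast; linarith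
  have h5 : k - 1 < l := by exact_mod_cast h3
  have h6 : l < k + 1 := by exact_mod_cast h4
  omega

private theorem STE_lift {X : Type*} [TopologicalSpace X] {S V : Set X} {y : X}
    (h : V ∈ 𝓝[S] y) : ∃ U ∈ 𝓝 y, ∀ y' ∈ U ∩ S, y' ∈ V := by
  obtain ⟨W, hW, hyW, hWsub⟩ := mem_nhdsWithin.1 h
  exact ⟨W, hW.mem_nhds hyW, fun y' hy' => hWsub hy'⟩

private noncomputable def STE_B {n : ℕ} (hn : 1 ≤ n) (p : ℕ) :
    EvB (n + 1) (closedBall (0 : V2) 1 ×ˢ sphere (0 : Fin n → ℝ) 1) (ZMod p) where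
  ι := Unit
  fin := inferInstance
  A := fun _ => closedBall (0 : V2) 1 ×ˢ sphere (0 : Fin n → ℝ) 1
  poly := fun _ => (isPoly_closedBall 2 1).prod (isPoly_sphere n)
  cover := (iUnion_const _).symm
  φ := fun i _ q => Fin.lastCases (motive := fun _ => ZMod p)
    ((⌊(p : ℝ) * ang q.1 / 8⌋ : ℤ) : ZMod p) (fun _ => 0) i
  compat := fun i a b x _ => ⟨univ, Filter.univ_mem, fun y _ => by rw [sub_self, sub_self]⟩
  off := fun a => ⟨Fin.castSucc ⟨0, hn⟩, fun x _ x' _ => by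
    rw [Fin.lastCases_castSucc, Fin.lastCases_castSucc]⟩

theorem step_evc {n : ℕ} (hn : 1 ≤ n) {N : Set E} (hN : IsPoly N) (p : ℕ) [Fact p.Prime]
    (D : EvC n N (ZMod p)) {κ : V2 × (Fin n → ℝ) → V2 × (Fin n → ℝ)}
    (hκ : Tube gam n (gam ×ˢ closedBall (0 : Fin n → ℝ) 2) κ)
    (hκ1 : MapsTo κ (gam ×ˢ closedBall (0 : Fin n → ℝ) 2) (gam ×ˢ closedBall (0 : Fin n → ℝ) 1))
    (hκ2 : ∀ (s : ℝ) (u : Fin n → ℝ), (κ (wnd s, u)).1 = wnd (p * s))
    (hθ : Tube gam n (N ×ˢ gam) (fun q => (D.κ (κ q).2, (κ q).1)))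
    {jA : E × V2 → H} {jB : V2 × (Fin n → ℝ) → H}
    (g : Glued ((N ×ˢ gam) \ (fun q : V2 × (Fin n → ℝ) => (D.κ (κ q).2, (κ q).1)) ''
          (gam ×ˢ ball (0 : Fin n → ℝ) 1))
        (closedBall (0 : V2) 1 ×ˢ sphere (0 : Fin n → ℝ) 1) (gam ×ˢ sphere (0 : Fin n → ℝ) 1)
        (fun q : V2 × (Fin n → ℝ) => (D.κ (κ q).2, (κ q).1)) jA jB) :
    Nonempty (EvC (n + 1) (jA '' ((N ×ˢ gam) \ (fun q : V2 × (Fin n → ℝ) =>
        (D.κ (κ q).2, (κ q).1)) '' (gam ×ˢ ball (0 : Fin n → ℝ) 1)) ∪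
        jB '' (closedBall (0 : V2) 1 ×ˢ sphere (0 : Fin n → ℝ) 1)) (ZMod p)) := by
  classical
  have hp : 0 < p := (Fact.out : p.Prime).pos
  have hp' : (0 : ℝ) < p := by exact_mod_cast hp
  obtain ⟨D₁, h1, h2, h3, h4⟩ := D.prodGam
  have hκm : ∀ q ∈ gam ×ˢ closedBall (0 : Fin n → ℝ) 2,
      (κ q).1 ∈ gam ∧ (κ q).2 ∈ closedBall (0 : Fin n → ℝ) 1 := fun q hq => hκ1 hq
  have h12 : closedBall (0 : Fin n → ℝ) 1 ⊆ closedBall (0 : Fin n → ℝ) 2 :=
    closedBall_subset_closedBall (by norm_num)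
  have hb : gam ×ˢ ball (0 : Fin n → ℝ) 1 ⊆ gam ×ˢ closedBall (0 : Fin n → ℝ) 2 :=
    prod_mono_right (ball_subset_closedBall.trans h12)
  have hsp : gam ×ˢ sphere (0 : Fin n → ℝ) 1 ⊆ gam ×ˢ closedBall (0 : Fin n → ℝ) 2 :=
    prod_mono_right (sphere_subset_closedBall.trans h12)
  have hAo : ∀ q ∈ gam ×ˢ closedBall (0 : Fin n → ℝ) 2,
      ((D.κ (κ q).2, (κ q).1) : E × V2) ∉ D₁.A D₁.o := by
    intro q hq hcon
    exact D.disj _ (h12 (hκm q hq).2) (h3 hcon).1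
  have hκθ : ∀ v ∈ closedBall (0 : Fin (n + 1) → ℝ) 2,
      ∀ q ∈ gam ×ˢ closedBall (0 : Fin n → ℝ) 2,
      D₁.κ v ≠ ((D.κ (κ q).2, (κ q).1) : E × V2) := by
    intro v hv q hq he
    rw [h4] at he
    have e1 : D.κ ((fun _ => 3 / 2) + (1 / 8 : ℝ) • fun i => v i.succ) = D.κ (κ q).2 :=
      congrArg Prod.fst he
    have hv' : ∀ i, |v i| ≤ 2 := by
      intro i
      have := norm_le_pi_norm v i
      rw [mem_closedBall_zero_iff] at hv
      rw [Real.norm_eq_abs] at this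
      linarith
    have hw : ((fun _ => 3 / 2) + (1 / 8 : ℝ) • fun i => v i.succ) ∈
        closedBall (0 : Fin n → ℝ) 2 := by
      rw [mem_closedBall_zero_iff, pi_norm_le_iff_of_nonneg (by norm_num)]
      intro i
      have h5 := abs_le.1 (hv' i.succ)
      show ‖(3 / 2 : ℝ) + (1 / 8) * v i.succ‖ ≤ 2
      rw [Real.norm_eq_abs, abs_le]
      constructor <;> linarith
    have e2 := D.cube.inj hw (h12 (hκm q hq).2) e1
    have h5 := (hκm q hq).2
    rw [← e2, mem_closedBall_zero_iff, pi_norm_le_iff_of_nonneg (by norm_num)] at h5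
    have h6 : ‖(3 / 2 : ℝ) + (1 / 8) * v (Fin.succ ⟨0, hn⟩)‖ ≤ 1 := h5 ⟨0, hn⟩
    have h7 := abs_le.1 (hv' (Fin.succ ⟨0, hn⟩))
    rw [Real.norm_eq_abs] at h6
    have h8 := abs_le.1 h6
    linarith
  have hX : IsPoly (N ×ˢ gam) := hN.prod gam_mfd.1
  have hA := hθ.poly_remove gam_mfd.1 hX hn
  obtain ⟨D₂, -, k1, k2, k3⟩ := D₁.restrict hA sdiff_subset (by
      intro x hx
      refine ⟨?_, ?_⟩
      · rw [D₁.cover]
        exact mem_iUnion.2 ⟨_, hx⟩
      · rintro ⟨q, hq, rfl⟩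
        exact hAo q (hb hq) hx) (by
      intro v hv
      refine ⟨D₁.cube.maps hv, ?_⟩
      rintro ⟨q, hq, he⟩
      exact hκθ v hv q (hb hq) he.symm)
  refine g.evc (gam_mfd.1.prod (isPoly_sphere n)) D₂ (STE_B hn p) ?_ ?_ ?_
  · intro i a b y hy hyB hya
    obtain ⟨a₁, ka, kφ⟩ := k3 a
    have hya1 : ((D.κ (κ y).2, (κ y).1) : E × V2) ∈ D₁.A a₁ := by
      have hya' : ((D.κ (κ y).2, (κ y).1) : E × V2) ∈ D₂.A a := hya
      rw [ka] at hya'
      exact hya'.1
    induction i using Fin.lastCases with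
    | last =>
      obtain ⟨s, -, hs⟩ := wnd_surj 0 hy.1
      have hnb : {q : V2 × (Fin n → ℝ) | q.1 ∈ wnd '' Ioo (s - 1 / p) (s + 1 / p)} ∈
          𝓝[gam ×ˢ sphere (0 : Fin n → ℝ) 1] y := by
        have h5 := wnd_open s (ε := 1 / p) (by positivity)
        rw [hs] at h5
        have h6 : Filter.Tendsto (fun q : V2 × (Fin n → ℝ) => q.1)
            (𝓝[gam ×ˢ sphere (0 : Fin n → ℝ) 1] y) (𝓝[gam] y.1) :=
          tendsto_nhdsWithin_of_tendsto_nhds_of_eventually_within _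
            (continuous_fst.continuousWithinAt.tendsto)
            (Filter.eventually_of_mem self_mem_nhdsWithin fun q hq => hq.1)
        exact h6 h5
      obtain ⟨W, hW, hW2⟩ := STE_lift hnb
      refine ⟨W, hW, ?_⟩
      intro y' hy' hyB' hya'
      obtain ⟨s', hs', hse'⟩ := hW2 y' hy'
      have hya2 : ((D.κ (κ y').2, (κ y').1) : E × V2) ∈ D₁.A a₁ := by
        have hya'' : ((D.κ (κ y').2, (κ y').1) : E × V2) ∈ D₂.A a := hya'
        rw [ka] at hya''
        exact hya''.1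
      have e1 : (κ y).1 = wnd (p * s) := by
        have := hκ2 s y.2
        rwa [hs] at this
      have e2 : (κ y').1 = wnd (p * s') := by
        have := hκ2 s' y'.2
        rwa [hse'] at this
      have v1 : (STE_B hn p).φ (Fin.last n) b y = ((⌊(p : ℝ) * s / 8⌋ : ℤ) : ZMod p) := by
        rw [← STE_floor, hs]
        show Fin.lastCases (motive := fun _ => ZMod p) _ _ _ = _
        rw [Fin.lastCases_last]
      have v2 : (STE_B hn p).φ (Fin.last n) b y' = ((⌊(p : ℝ) * s' / 8⌋ : ℤ) : ZMod p) := by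
        rw [← STE_floor, hse']
        show Fin.lastCases (motive := fun _ => ZMod p) _ _ _ = _
        rw [Fin.lastCases_last]
      have hd1 : (p : ℝ) * s - 1 < p * s' := by
        have h5 : (p : ℝ) * (s - 1 / p) < p * s' := mul_lt_mul_of_pos_left hs'.1 hp'
        have h6 : (p : ℝ) * (s - 1 / p) = p * s - 1 := by field_simp
        linarith
      have hd2 : (p : ℝ) * s' < p * s + 1 := by
        have h5 : (p : ℝ) * s' < p * (s + 1 / p) := mul_lt_mul_of_pos_left hs'.2 hp'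
        have h6 : (p : ℝ) * (s + 1 / p) = p * s + 1 := by field_simp
        linarith
      rw [v1, v2, kφ, kφ]
      rcases h2 a₁ with hsl | hre
      · obtain ⟨m1, m1'⟩ := hsl _ hya1
        obtain ⟨m2, m2'⟩ := hsl _ hya2
        have m3 : (κ y).1 ∈ wnd '' Icc 7 8 := m1
        have m4 : (κ y').1 ∈ wnd '' Icc 7 8 := m2
        rw [e1] at m3
        rw [e2] at m4
        obtain ⟨k, a1, a2, a3⟩ := STE_slab p m3
        obtain ⟨l, b1, b2, b3⟩ := STE_slab p m4
        have hkl : k = l := STE_eq (by linarith) (by linarith)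
        have m5 : D₁.φ (Fin.last n) a₁ (D.κ (κ y).2, (κ y).1) =
            if wnd (p * s) = wnd 0 then 1 else 0 := by
          rw [m1']
          show (if (κ y).1 = wnd 0 then (1 : ZMod p) else 0) = _
          rw [e1]
        have m6 : D₁.φ (Fin.last n) a₁ (D.κ (κ y').2, (κ y').1) =
            if wnd (p * s') = wnd 0 then 1 else 0 := by
          rw [m2']
          show (if (κ y').1 = wnd 0 then (1 : ZMod p) else 0) = _
          rw [e2]
        rw [m5, m6, a3, b3, hkl]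
      · obtain ⟨m1, m1'⟩ := hre _ hya1
        obtain ⟨m2, m2'⟩ := hre _ hya2
        have m3 : (κ y).1 ∈ wnd '' Icc 0 7 := m1
        have m4 : (κ y').1 ∈ wnd '' Icc 0 7 := m2
        rw [e1] at m3
        rw [e2] at m4
        obtain ⟨k, a1, a2, a3⟩ := STE_rest m3
        obtain ⟨l, b1, b2, b3⟩ := STE_rest m4
        have hkl : k = l := STE_eq (by linarith) (by linarith)
        rw [m1', m2', a3, b3, hkl]
    | cast i =>
      have hval : ∀ y', (STE_B hn p).φ i.castSucc b y' = 0 := by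
        intro y'
        show Fin.lastCases (motive := fun _ => ZMod p) _ _ _ = _
        rw [Fin.lastCases_castSucc]
      obtain ⟨hz, hv⟩ := hκm y (hsp hy)
      obtain ⟨U, hU, hU2⟩ := h1 i a₁ (κ y).2 (h12 hv) (κ y).1 hz hya1
      have hc1 : ContinuousWithinAt κ (gam ×ˢ sphere (0 : Fin n → ℝ) 1) y :=
        (hκ.pl.continuousOn y (hsp hy)).mono hsp
      have hc2 : ContinuousWithinAt (fun q => ((κ q).2, (κ q).1))
          (gam ×ˢ sphere (0 : Fin n → ℝ) 1) y := hc1.snd.prodMk hc1.fst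
      obtain ⟨W, hW, hW2⟩ := STE_lift (hc2.preimage_mem_nhdsWithin hU)
      refine ⟨W, hW, ?_⟩
      intro y' hy' hyB' hya'
      have hya2 : ((D.κ (κ y').2, (κ y').1) : E × V2) ∈ D₁.A a₁ := by
        have hya'' : ((D.κ (κ y').2, (κ y').1) : E × V2) ∈ D₂.A a := hya'
        rw [ka] at hya''
        exact hya''.1
      obtain ⟨hz', hv'⟩ := hκm y' (hsp hy'.2)
      rw [hval, hval, sub_zero, sub_zero, kφ, kφ]
      exact hU2 ((κ y').2, (κ y').1) (hW2 y' hy') (h12 hv') hz' hya2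
  · intro y hy
    rw [k2]
    exact hAo y (hsp hy)
  · intro u hu
    rw [k1]
    rintro ⟨q, hq, he⟩
    exact hκθ u hu q (hsp hq) he.symm

end Pool.H54.UB

end S_STE

section S_STR

/-!
# Row STR: the tube around a closed braid with `p` strands in `gam × (cube)`

On `[0, 8p]` put
`X r = min (r/8) ((p-1) * max 0 (min 1 ((8p-2-r)/4)))`,
`Y r = max 0 (min 1 (min ((r - 8(p-1))/2) ((8p-r)/2)))`.
`X 0 = X (8p) = 0 = Y 0 = Y (8p)`, `0 ≤ X ≤ p-1`, `0 ≤ Y ≤ 1`.
Separation: if `r, r' = r + 8 i ∈ [0, 8p]`, `i ≥ 1` an integer and `(r, r') ≠ (0, 8p)` then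
`|X r - X r'| ≥ 3/4` or `|Y r - Y r'| ≥ 3/4`:
if `r' ≤ 8(p-1)`: `X r' - X r = i`.  Otherwise `t = r' - 8(p-1) ∈ (0,8]`, `r = 8 j + t`, `j = p-1-i`,
`X r = j + t/8`, `Y r = 0` (as `r ≤ 8(p-1)`; here `j + t/8 > 0`).  If `t ≤ 2`: `X r' = p-1` and
`p-1-j-t/8 ≥ 1 - 1/4`.  If `2 ≤ t ≤ 6`: `Y r' = 1`.  If `t ≥ 6`: `X r' = 0` and `X r ≥ 3/4`.

`Z z ∈ Fin n → ℝ`, with coordinates `X (p θ)/(2p)`, `Y (p θ)/(2p)`, `0, ..., 0`, `θ = ang z` (`pl_desc`);
`ψ z = wnd (p * ang z)`; `δ = 1/(16p)`; `κ (z,u) = (ψ z, Z z + δ • u)`.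
* PL: `pl_desc`, `PLOn.prodMap`, `PLOn.add`.
* `‖Z z + δ u‖ ≤ 1/2 + 1/8 ≤ 1` for `‖u‖ ≤ 2`.
* injective: `ψ z = ψ z'` gives `p θ' = p θ + 8 i`; if `i ≠ 0` the separation gives
  `‖Z z - Z z'‖ ≥ 3/(8p) > 1/(4p) ≥ ‖δ u - δ u'‖`.
* neighbourhood: given `(z, u)`, `‖u‖ < 2`, `z = wnd s`: points `(r, y)` near `κ (z,u)`: `r = wnd (p s')` with
  `s'` near `s` (`wnd_open`), `z' = wnd s'`, `u' = (y - Z z')/δ` has norm `< 2` by continuity of `Z`.
-/

open Set Topology Metric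

namespace Pool.H54.UB

/-- first coordinate -/
noncomputable def STR_X (p r : ℝ) : ℝ :=
  min (r / 8) ((p - 1) * max 0 (min 1 ((8 * p - 2 - r) / 4)))

/-- second coordinate -/
noncomputable def STR_Y (p r : ℝ) : ℝ :=
  max 0 (min 1 (min ((r - 8 * (p - 1)) / 2) ((8 * p - r) / 2)))

/-- the displacement -/
noncomputable def STR_V (n : ℕ) (p r : ℝ) : Fin n → ℝ := fun i =>
  if i.1 = 0 then STR_X p r / (2 * p) else if i.1 = 1 then STR_Y p r / (2 * p) else 0

theorem STR_X_low {p r : ℝ} (_hp : 2 ≤ p) (h : r ≤ 8 * (p - 1)) : STR_X p r = r / 8 := by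
  unfold STR_X
  have h1 : min 1 ((8 * p - 2 - r) / 4) = 1 := min_eq_left (by linarith)
  rw [h1, max_eq_right zero_le_one, mul_one]
  exact min_eq_left (by linarith)

theorem STR_X_mid {p r : ℝ} (_hp : 2 ≤ p) (h : 8 * (p - 1) ≤ r) (h' : r ≤ 8 * p - 6) :
    STR_X p r = p - 1 := by
  unfold STR_X
  have h1 : min 1 ((8 * p - 2 - r) / 4) = 1 := min_eq_left (by linarith)
  rw [h1, max_eq_right zero_le_one, mul_one]
  exact min_eq_right (by linarith)

theorem STR_X_high {p r : ℝ} (hp : 2 ≤ p) (h : 8 * p - 2 ≤ r) : STR_X p r = 0 := by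
  unfold STR_X
  have h1 : min 1 ((8 * p - 2 - r) / 4) = (8 * p - 2 - r) / 4 := min_eq_right (by linarith)
  rw [h1, max_eq_left (by linarith), mul_zero]
  exact min_eq_right (by linarith)

theorem STR_X_nonneg {p r : ℝ} (hp : 2 ≤ p) (h : 0 ≤ r) : 0 ≤ STR_X p r := by
  unfold STR_X
  refine le_min (by linarith) (mul_nonneg (by linarith) (le_max_left _ _))

theorem STR_X_le {p r : ℝ} (hp : 2 ≤ p) : STR_X p r ≤ p - 1 := by
  unfold STR_X
  refine (min_le_right _ _).trans ?_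
  have h1 : max 0 (min 1 ((8 * p - 2 - r) / 4)) ≤ 1 := max_le zero_le_one (min_le_left _ _)
  have h2 : (p - 1) * max 0 (min 1 ((8 * p - 2 - r) / 4)) ≤ (p - 1) * 1 :=
    mul_le_mul_of_nonneg_left h1 (by linarith)
  linarith

theorem STR_Y_low {p r : ℝ} (h : r ≤ 8 * (p - 1)) : STR_Y p r = 0 := by
  unfold STR_Y
  refine max_eq_left ((min_le_right _ _).trans ((min_le_left _ _).trans (by linarith)))

theorem STR_Y_end {p r : ℝ} (h : 8 * p ≤ r) : STR_Y p r = 0 := by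
  unfold STR_Y
  refine max_eq_left ((min_le_right _ _).trans ((min_le_right _ _).trans (by linarith)))

theorem STR_Y_mid {p r : ℝ} (h : 8 * p - 6 ≤ r) (h' : r ≤ 8 * p - 2) : STR_Y p r = 1 := by
  unfold STR_Y
  have h1 : min 1 (min ((r - 8 * (p - 1)) / 2) ((8 * p - r) / 2)) = 1 :=
    min_eq_left (le_min (by linarith) (by linarith))
  rw [h1, max_eq_right zero_le_one]

theorem STR_Y_nonneg (p r : ℝ) : 0 ≤ STR_Y p r := le_max_left _ _

theorem STR_Y_le (p r : ℝ) : STR_Y p r ≤ 1 := max_le zero_le_one (min_le_left _ _)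

theorem STR_sep {p : ℕ} (hp : 2 ≤ p) {r r' : ℝ} {i : ℤ} (hi : 1 ≤ i) (hr : 0 ≤ r)
    (hr' : r' < 8 * p) (h : r' = r + 8 * i) :
    3 / 4 ≤ |STR_X p r - STR_X p r'| ∨ 3 / 4 ≤ |STR_Y p r - STR_Y p r'| := by
  have hp' : (2 : ℝ) ≤ p := by exact_mod_cast hp
  have hi' : (1 : ℝ) ≤ i := by exact_mod_cast hi
  rcases le_total r' (8 * ((p : ℝ) - 1)) with h1 | h1
  · left
    rw [STR_X_low hp' h1, STR_X_low hp' (by linarith), h, abs_sub_comm]
    refine le_trans ?_ (le_abs_self _)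
    linarith
  · have hX : STR_X p r = r / 8 := STR_X_low hp' (by linarith)
    have hY : STR_Y p r = 0 := STR_Y_low (by linarith)
    rcases le_total r' (8 * (p : ℝ) - 6) with h2 | h2
    · left
      rw [STR_X_mid hp' h1 h2, hX, abs_sub_comm]
      refine le_trans ?_ (le_abs_self _)
      linarith
    · rcases le_total r' (8 * (p : ℝ) - 2) with h3 | h3
      · right
        rw [hY, STR_Y_mid h2 h3]
        norm_num
      · left
        rw [STR_X_high hp' h3, hX, sub_zero]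
        refine le_trans ?_ (le_abs_self _)
        have h4 : (i : ℝ) < p := by linarith
        have h5 : i < (p : ℤ) := by exact_mod_cast h4
        have h6 : i + 1 ≤ (p : ℤ) := h5
        have h7 : (i : ℝ) + 1 ≤ p := by exact_mod_cast h6
        linarith

theorem STR_aff (c d a b : ℝ) : PLOn (fun r : ℝ => c * r + d) (Icc a b) := by
  have h := ((PLOn.id (isPoly_Icc a b)).const_smul c).add (PLOn.const (isPoly_Icc a b) d)
  exact h.congr fun x _ => by simp

theorem STR_X_pl (p a b : ℝ) : PLOn (STR_X p) (Icc a b) := by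
  have hc : ∀ c : ℝ, PLOn (fun _ : ℝ => c) (Icc a b) := fun c => PLOn.const (isPoly_Icc a b) c
  have h := (STR_aff (1 / 8) 0 a b).min
    (((hc 0).max ((hc 1).min (STR_aff (-1 / 4) ((8 * p - 2) / 4) a b))).const_smul (p - 1))
  refine h.congr fun x _ => ?_
  simp only [STR_X, smul_eq_mul]
  congr 1
  · ring
  · congr 3
    ring

theorem STR_Y_pl (p a b : ℝ) : PLOn (STR_Y p) (Icc a b) := by
  have hc : ∀ c : ℝ, PLOn (fun _ : ℝ => c) (Icc a b) := fun c => PLOn.const (isPoly_Icc a b) c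
  have h := (hc 0).max ((hc 1).min ((STR_aff (1 / 2) (-(8 * (p - 1)) / 2) a b).min
    (STR_aff (-1 / 2) (8 * p / 2) a b)))
  refine h.congr fun x _ => ?_
  simp only [STR_Y]
  congr 3
  · ring
  · ring

theorem STR_V_pl (n : ℕ) (p a b : ℝ) : PLOn (STR_V n p) (Icc a b) := by
  refine PLOn.pi (isPoly_Icc a b) fun i => ?_
  by_cases h0 : i.1 = 0
  · refine ((STR_X_pl p a b).const_smul (1 / (2 * p))).congr fun x _ => ?_
    simp only [STR_V, if_pos h0, smul_eq_mul]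
    ring
  · by_cases h1 : i.1 = 1
    · refine ((STR_Y_pl p a b).const_smul (1 / (2 * p))).congr fun x _ => ?_
      simp only [STR_V, if_neg h0, if_pos h1, smul_eq_mul]
      ring
    · refine (PLOn.const (isPoly_Icc a b) (0 : ℝ)).congr fun x _ => ?_
      simp only [STR_V, if_neg h0, if_neg h1]

theorem STR_V_norm (n : ℕ) {p r : ℝ} (hp : 2 ≤ p) (hr : 0 ≤ r) : ‖STR_V n p r‖ ≤ 1 / 2 := by
  refine (pi_norm_le_iff_of_nonneg (by norm_num)).2 fun i => ?_
  have hp2 : 0 < 2 * p := by linarith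
  by_cases h0 : i.1 = 0
  · simp only [STR_V, if_pos h0, Real.norm_eq_abs]
    have h1 := STR_X_nonneg hp hr
    have h2 := STR_X_le (r := r) hp
    rw [abs_of_nonneg (div_nonneg h1 hp2.le), div_le_iff₀ hp2]
    linarith
  · by_cases h1 : i.1 = 1
    · simp only [STR_V, if_neg h0, if_pos h1, Real.norm_eq_abs]
      have h1 := STR_Y_nonneg p r
      have h2 := STR_Y_le p r
      rw [abs_of_nonneg (div_nonneg h1 hp2.le), div_le_iff₀ hp2]
      linarith
    · simp only [STR_V, if_neg h0, if_neg h1, norm_zero]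
      norm_num

theorem STR_V_sep {n : ℕ} (hn : 2 ≤ n) {p : ℕ} (hp : 2 ≤ p) {r r' : ℝ} {i : ℤ} (hi : 1 ≤ i)
    (hr : 0 ≤ r) (hr' : r' < 8 * p) (h : r' = r + 8 * i) :
    3 / (8 * p) ≤ ‖STR_V n p r - STR_V n p r'‖ := by
  have hp' : (2 : ℝ) ≤ p := by exact_mod_cast hp
  have hp2 : 0 < 2 * (p : ℝ) := by linarith
  have key : ∀ x y : ℝ, 3 / 4 ≤ |x - y| → 3 / (8 * (p : ℝ)) ≤ |x / (2 * p) - y / (2 * p)| := by
    intro x y hxy
    rw [← sub_div, abs_div, abs_of_pos hp2, le_div_iff₀ hp2]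
    have : 3 / (8 * (p : ℝ)) * (2 * p) = 3 / 4 := by
      field_simp
      norm_num
    rw [this]
    exact hxy
  rcases STR_sep hp hi hr hr' h with h1 | h1
  · refine (key _ _ h1).trans ?_
    have h2 := norm_le_pi_norm (STR_V n p r - STR_V n p r') ⟨0, by omega⟩
    simpa [STR_V] using h2
  · refine (key _ _ h1).trans ?_
    have h2 := norm_le_pi_norm (STR_V n p r - STR_V n p r') ⟨1, by omega⟩
    simpa [STR_V] using h2

/-- the core curve -/
noncomputable def STR_F (n : ℕ) (p : ℝ) (s : ℝ) : V2 × (Fin n → ℝ) := (wnd (p * s), STR_V n p (p * s))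

theorem STR_F_pl (n : ℕ) {p : ℝ} (hp : 2 ≤ p) : PLOn (STR_F n p) (Icc 0 8) := by
  have hm : MapsTo (fun s : ℝ => p * s + 0) (Icc 0 8) (Icc 0 (p * 8)) := by
    intro s hs
    have h0 : 0 ≤ s := hs.1
    have h8 : s ≤ 8 := hs.2
    refine ⟨?_, ?_⟩
    · have : 0 ≤ p * s := mul_nonneg (by linarith) h0
      simpa using this
    · have : p * s ≤ p * 8 := mul_le_mul_of_nonneg_left h8 (by linarith)
      simpa using this
  have h1 := (wnd_pl 0 (p * 8)).comp (STR_aff p 0 0 8) hm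
  have h2 := (STR_V_pl n p 0 (p * 8)).comp (STR_aff p 0 0 8) hm
  refine (h1.prodMk h2).congr fun x _ => ?_
  simp only [STR_F, add_zero]

theorem STR_F_per (n : ℕ) {p : ℕ} (hp : 2 ≤ p) : STR_F n p 8 = STR_F n p 0 := by
  have hp' : (2 : ℝ) ≤ p := by exact_mod_cast hp
  have h1 : wnd ((p : ℝ) * 8) = wnd ((p : ℝ) * 0) := by
    have := wnd_per ((p : ℝ) * 0) (p : ℤ)
    rw [← this]
    congr 1
    push_cast
    ring
  have h2 : STR_V n p ((p : ℝ) * 8) = STR_V n p ((p : ℝ) * 0) := by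
    funext i
    have hX : STR_X p ((p : ℝ) * 8) = STR_X p ((p : ℝ) * 0) := by
      rw [STR_X_high hp' (by linarith), STR_X_low hp' (by linarith)]
      simp
    have hY : STR_Y p ((p : ℝ) * 8) = STR_Y p ((p : ℝ) * 0) := by
      rw [STR_Y_end (by linarith), STR_Y_low (by linarith)]
    simp only [STR_V, hX, hY]
  simp only [STR_F, h1, h2]

/-- the affine map `((a, b), u) ↦ (a, b + δ u)` -/
noncomputable def STR_A (n : ℕ) (δ : ℝ) : (V2 × (Fin n → ℝ)) × (Fin n → ℝ) →ᵃ[ℝ] V2 × (Fin n → ℝ) :=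
  (((LinearMap.fst ℝ V2 (Fin n → ℝ)).comp
    (LinearMap.fst ℝ (V2 × (Fin n → ℝ)) (Fin n → ℝ))).prod
    ((LinearMap.snd ℝ V2 (Fin n → ℝ)).comp
      (LinearMap.fst ℝ (V2 × (Fin n → ℝ)) (Fin n → ℝ)) +
      δ • LinearMap.snd ℝ (V2 × (Fin n → ℝ)) (Fin n → ℝ))).toAffineMap

theorem STR_A_apply (n : ℕ) (δ : ℝ) (q : V2 × (Fin n → ℝ)) (u : Fin n → ℝ) :
    STR_A n δ (q, u) = (q.1, q.2 + δ • u) := rfl

theorem STR_cball (n : ℕ) (r : ℝ) : IsPoly (closedBall (0 : Fin n → ℝ) r) := by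
  rcases lt_or_ge r 0 with hr | hr
  · rw [closedBall_eq_empty.2 hr]
    exact IsPoly.empty
  · have h := isPoly_box (fun _ : Fin n => -r) (fun _ : Fin n => r)
    have h1 : {y : Fin n → ℝ | ∀ i, -r ≤ y i ∧ y i ≤ r} = closedBall (0 : Fin n → ℝ) r := by
      ext y
      rw [mem_closedBall_zero_iff, pi_norm_le_iff_of_nonneg hr]
      simp only [Set.mem_ofPred_eq, Real.norm_eq_abs, abs_le]
    rw [← h1]
    exact h

theorem strand_tube (n : ℕ) (hn : 2 ≤ n) (p : ℕ) (hp : 2 ≤ p) :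
    ∃ κ : V2 × (Fin n → ℝ) → V2 × (Fin n → ℝ),
      Tube gam n (gam ×ˢ closedBall (0 : Fin n → ℝ) 2) κ ∧
      MapsTo κ (gam ×ˢ closedBall (0 : Fin n → ℝ) 2) (gam ×ˢ closedBall (0 : Fin n → ℝ) 1) ∧
      ∀ (s : ℝ) (u : Fin n → ℝ), (κ (wnd s, u)).1 = wnd (p * s) := by
  have hp' : (2 : ℝ) ≤ p := by exact_mod_cast hp
  have hp0 : (0 : ℝ) < p := by linarith
  obtain ⟨hpl, hdesc⟩ := pl_desc (STR_F_pl n hp') (STR_F_per n hp)
  obtain ⟨δ, hδ⟩ : ∃ δ : ℝ, δ = 1 / (16 * p) := ⟨_, rfl⟩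
  have hδ0 : 0 < δ := by rw [hδ]; positivity
  have hδp : δ * (16 * p) = 1 := by rw [hδ]; field_simp
  obtain ⟨Q, hQ⟩ : ∃ Q : V2 → V2 × (Fin n → ℝ), Q = fun z => STR_F n p (ang z) := ⟨_, rfl⟩
  have hQpl : PLOn Q gam := by rw [hQ]; exact hpl
  have hQw : ∀ s : ℝ, (Q (wnd s)).1 = wnd (p * s) := by
    intro s
    obtain ⟨k, hk⟩ := ang_wnd s
    have h1 := wnd_per ((p : ℝ) * s) ((p : ℤ) * k)
    rw [← h1]
    simp only [hQ, STR_F, hk]
    congr 1
    push_cast
    ring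
  have hQ2 : ∀ z ∈ gam, ‖(Q z).2‖ ≤ 1 / 2 := by
    intro z hz
    have h1 := (ang_mem hz).1.1
    simp only [hQ, STR_F]
    exact STR_V_norm n hp' (mul_nonneg hp0.le h1)
  have hQ1 : ∀ z ∈ gam, (Q z).1 ∈ gam := by
    intro z hz
    simp only [hQ, STR_F]
    exact wnd_mem _
  obtain ⟨κ, hκ⟩ : ∃ κ : V2 × (Fin n → ℝ) → V2 × (Fin n → ℝ),
      κ = fun q => ((Q q.1).1, (Q q.1).2 + δ • q.2) := ⟨_, rfl⟩
  have hκa : ∀ z u, κ (z, u) = ((Q z).1, (Q z).2 + δ • u) := by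
    intro z u
    rw [hκ]
  have hκpl : PLOn κ (gam ×ˢ closedBall (0 : Fin n → ℝ) 2) := by
    have h1 := (hQpl.prodMap (PLOn.id (STR_cball n 2))).affine_comp (STR_A n δ)
    refine h1.congr fun q _ => ?_
    rw [hκ]
    exact STR_A_apply n δ (Q q.1) q.2
  have hmaps : MapsTo κ (gam ×ˢ closedBall (0 : Fin n → ℝ) 2)
      (gam ×ˢ closedBall (0 : Fin n → ℝ) 1) := by
    rintro ⟨z, u⟩ ⟨hz, hu⟩
    rw [hκa]
    refine ⟨hQ1 z hz, ?_⟩
    rw [mem_closedBall_zero_iff] at hu ⊢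
    simp only at hu ⊢
    have h1 : ‖(Q z).2 + δ • u‖ ≤ ‖(Q z).2‖ + ‖δ • u‖ := norm_add_le _ _
    have h2 := hQ2 z hz
    have h3 : ‖δ • u‖ ≤ δ * 2 := by
      rw [norm_smul, Real.norm_eq_abs, abs_of_pos hδ0]
      exact mul_le_mul_of_nonneg_left hu hδ0.le
    have h4 : δ * 32 ≤ 1 := by
      rw [← hδp]
      exact mul_le_mul_of_nonneg_left (by linarith) hδ0.le
    linarith
  have hinj1 : ∀ z ∈ gam, ∀ z' ∈ gam, ∀ u ∈ closedBall (0 : Fin n → ℝ) 2,
      ∀ u' ∈ closedBall (0 : Fin n → ℝ) 2, κ (z, u) = κ (z', u') → ∀ i : ℤ, 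
      (p : ℝ) * ang z' = p * ang z + 8 * i → ¬ 1 ≤ i := by
    intro z hz z' hz' u hu u' hu' he i hi h1i
    have hz1 := (ang_mem hz).1
    have hz1' := (ang_mem hz').1
    rw [hκa, hκa, Prod.mk.injEq] at he
    have he2 := he.2
    have hsep := STR_V_sep hn hp h1i (mul_nonneg hp0.le hz1.1)
      (show (p : ℝ) * ang z' < 8 * p by
        have := mul_lt_mul_of_pos_left hz1'.2 hp0
        linarith) hi
    have hQz : (Q z).2 = STR_V n p (p * ang z) := by rw [hQ]; rfl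
    have hQz' : (Q z').2 = STR_V n p (p * ang z') := by rw [hQ]; rfl
    rw [← hQz, ← hQz'] at hsep
    have h2 : (Q z).2 - (Q z').2 = δ • (u' - u) := by
      rw [smul_sub, sub_eq_sub_iff_add_eq_add, he2, add_comm]
    rw [h2, norm_smul, Real.norm_eq_abs, abs_of_pos hδ0] at hsep
    rw [mem_closedBall_zero_iff] at hu hu'
    have h3 : ‖u' - u‖ ≤ 4 := (norm_sub_le _ _).trans (by linarith)
    have h4 : δ * ‖u' - u‖ ≤ δ * 4 := mul_le_mul_of_nonneg_left h3 hδ0.le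
    have h5 : 3 / (8 * (p : ℝ)) ≤ δ * 4 := hsep.trans h4
    rw [div_le_iff₀ (by positivity)] at h5
    linarith
  refine ⟨κ, ⟨hκpl, ?_, ?_, ?_⟩, hmaps, ?_⟩
  · rintro ⟨z, u⟩ ⟨hz, hu⟩ ⟨z', u'⟩ ⟨hz', hu'⟩ he
    change z ∈ gam at hz
    change z' ∈ gam at hz'
    change u ∈ closedBall (0 : Fin n → ℝ) 2 at hu
    change u' ∈ closedBall (0 : Fin n → ℝ) 2 at hu'
    have he' := he
    rw [hκa, hκa, Prod.mk.injEq] at he'
    have hz1 := (ang_mem hz)
    have hz1' := (ang_mem hz')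
    have hw : wnd (p * ang z) = wnd (p * ang z') := by
      have h1 := he'.1
      simp only [hQ, STR_F] at h1
      exact h1
    obtain ⟨k, hk⟩ := wnd_eq_iff.1 hw
    have hk1 := hinj1 z hz z' hz' u hu u' hu' he k hk
    have hk2 := hinj1 z' hz' z hz u' hu' u hu he.symm (-k) (by push_cast; linarith)
    have hk0 : k = 0 := by omega
    rw [hk0] at hk
    simp only [Int.cast_zero, mul_zero, add_zero] at hk
    have hang : ang z' = ang z := mul_left_cancel₀ hp0.ne' hk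
    have hzz : z' = z := by rw [← hz1'.2, ← hz1.2, hang]
    subst hzz
    have h3 : δ • u = δ • u' := add_left_cancel he'.2
    have h4 : u = u' := smul_right_injective _ hδ0.ne' h3
    rw [h4]
  · intro q hq
    have h1 := hmaps hq
    exact ⟨h1.1, closedBall_subset_closedBall one_le_two h1.2⟩
  · rintro ⟨z, u⟩ ⟨hz, hu⟩
    change z ∈ gam at hz
    change u ∈ ball (0 : Fin n → ℝ) 2 at hu
    rw [mem_ball_zero_iff] at hu
    obtain ⟨s, hs, hsz⟩ := wnd_surj 0 hz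
    obtain ⟨η, hη⟩ : ∃ η : ℝ, η = δ * (2 - ‖u‖) / 2 := ⟨_, rfl⟩
    have hη0 : 0 < η := by
      rw [hη]
      have : 0 < δ * (2 - ‖u‖) := mul_pos hδ0 (by linarith)
      linarith
    have hG : Continuous fun t : ℝ => (Q (wnd t)).2 := by
      have h1 : Continuous fun t : ℝ => Q (wnd t) := by
        rw [← continuousOn_univ]
        exact hQpl.continuousOn.comp wnd_cont.continuousOn fun t _ => wnd_mem t
      exact continuous_snd.comp h1
    obtain ⟨ε, hε0, hε⟩ := Metric.continuousAt_iff.1 (hG.continuousAt (x := s)) η hη0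
    have hpε : 0 < (p : ℝ) * ε := mul_pos hp0 hε0
    have hW1 := wnd_open ((p : ℝ) * s) hpε
    have hW2 : ball ((Q z).2 + δ • u) η ∈
        𝓝[closedBall (0 : Fin n → ℝ) 2] ((Q z).2 + δ • u) :=
      mem_nhdsWithin_of_mem_nhds (ball_mem_nhds _ hη0)
    have hz1 : (Q z).1 = wnd (p * s) := by rw [← hsz, hQw]
    rw [hκa, hz1, nhdsWithin_prod_eq]
    refine Filter.mem_of_superset (Filter.prod_mem_prod hW1 hW2) ?_
    rintro ⟨r, y⟩ ⟨hr, hy⟩
    obtain ⟨t, ht, rfl⟩ := hr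
    have hst : |t / p - s| < ε := by
      have h1 : t / p - s = (t - p * s) / p := by field_simp
      rw [h1, abs_div, abs_of_pos hp0, div_lt_iff₀ hp0, abs_lt]
      have ht1 := ht.1
      have ht2 := ht.2
      constructor <;> linarith
    have hGd := hε (x := t / p) (by rw [Real.dist_eq]; exact hst)
    rw [hsz, dist_eq_norm] at hGd
    rw [mem_ball, dist_eq_norm] at hy
    refine ⟨(wnd (t / p), δ⁻¹ • (y - (Q (wnd (t / p))).2)), ⟨wnd_mem _, ?_⟩, ?_⟩
    · rw [mem_closedBall_zero_iff]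
      simp only
      rw [norm_smul, norm_inv, Real.norm_eq_abs, abs_of_pos hδ0, inv_mul_le_iff₀ hδ0]
      have h1 : y - (Q (wnd (t / p))).2 = (y - ((Q z).2 + δ • u)) -
          ((Q (wnd (t / p))).2 - (Q z).2) + δ • u := by abel
      have h2 : ‖δ • u‖ = δ * ‖u‖ := by
        rw [norm_smul, Real.norm_eq_abs, abs_of_pos hδ0]
      have h3 : ‖y - (Q (wnd (t / p))).2‖ ≤ η + η + δ * ‖u‖ := by
        rw [h1]
        refine (norm_add_le _ _).trans ?_
        rw [h2]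
        have := norm_sub_le (y - ((Q z).2 + δ • u)) ((Q (wnd (t / p))).2 - (Q z).2)
        linarith
      have h4 : η + η + δ * ‖u‖ = δ * 2 := by rw [hη]; ring
      linarith
    · rw [hκa, hQw, smul_inv_smul₀ hδ0.ne']
      refine Prod.ext ?_ ?_
      · simp only
        congr 1
        field_simp
      · simp only
        abel
  · intro s u
    rw [hκa]
    exact hQw s


end Pool.H54.UB

end S_STR

section S_STA

/-!
# Row STA: the induction step for the test manifolds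

`strand_tube` gives `κ`, `D.cube.tubeGam` and `Tube.comp` the tube
`θ q = (D.κ (κ q).2, (κ q).1)` in `X = N × gam`, a closed PL `(n+1)`-manifold
(`IsClosedPLManifold.prod`, `gam_mfd`).  `step_glue`, then `step_qtriv` with `strand_triv`, and
`step_evc`.
-/

open Set Topology Metric

namespace Pool.H54.UB

theorem test_step {E : Type} [NormedAddCommGroup E] [NormedSpace ℝ E] [FiniteDimensional ℝ E]
    {n : ℕ} (hn : 3 ≤ n) {N : Set E} (hN : IsClosedPLManifold n N) (hc : IsConnected N)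
    (p : ℕ) [Fact p.Prime] (l : ℕ) (hl : ¬ p ∣ l)
    (hQ : ∀ (Q : Type) [Group Q], (∀ q : Q, q ^ l = 1) → QTriv Q N) (D : EvC n N (ZMod p)) :
    ∃ N' : Set ((E × V2) × (V2 × (Fin n → ℝ)) × ℝ),
      IsClosedPLManifold (n + 1) N' ∧ IsConnected N' ∧
      (∀ (Q : Type) [Group Q], (∀ q : Q, q ^ l = 1) → QTriv Q N') ∧
      Nonempty (EvC (n + 1) N' (ZMod p)) := by
  have hp : p.Prime := Fact.out
  obtain ⟨κ, hκ, hκ1, hκ2⟩ := strand_tube n (by omega) p hp.two_le
  have hm : MapsTo κ (gam ×ˢ closedBall (0 : Fin n → ℝ) 2) (gam ×ˢ ball (0 : Fin n → ℝ) 2) := by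
    intro q hq
    have h1 := hκ1 hq
    exact ⟨h1.1, closedBall_subset_ball one_lt_two h1.2⟩
  have hθ : Tube gam n (N ×ˢ gam) (fun q => (D.κ (κ q).2, (κ q).1)) :=
    Tube.comp D.cube.tubeGam hκ hm
  have hX : IsClosedPLManifold (n + 1) (N ×ˢ gam) := hN.prod gam_mfd
  have hXc : IsConnected (N ×ˢ gam) := hc.prod gam_conn
  obtain ⟨jA, jB, g, hM, hC⟩ := step_glue (by omega) hX hXc hθ
  refine ⟨_, hM, hC, ?_, ?_⟩
  · intro Q _ hl1
    refine step_qtriv hn hX.1 hθ g Q ?_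
    intro c hcc ht
    exact strand_triv hN.1 hc D.cube Q (hQ Q hl1) hp hl hl1 hκ hκ1 hκ2 c hcc ht
  · exact step_evc (by omega) hN.1 p D hκ hκ1 hκ2 hθ g

end Pool.H54.UB

end S_STA

section S_NTG

/-!
# Row NTG: the test manifolds

* `base3`: `a, c` with `a l - p c = 1` (`p` prime, `p ∤ l`: Bezout), `torus_auto a p c l`, `base_glue`,
  `base_qtriv`, `base_evc`.
* `test_pre`: induction on `m ≥ 3` with `test_step`.
* `test_manifold`: `E` has dimension `r`; a linear equivalence `L : E ≃L[ℝ] (Fin r → ℝ)`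
  (`ContinuousLinearEquiv.ofFinrankEq`); the image `L '' N` is a closed PL manifold (`IntPt.image`, or
  directly), connected, `QTriv` (`QTriv.retract`), and `EvC.map`, `EvC.toEvalData`.
-/

open Set Topology Metric

namespace Pool.H54.UB

theorem base3 (p : ℕ) [Fact p.Prime] (l : ℕ) (hl : ¬ p ∣ l) :
    ∃ N : Set (V6 × ((V2 × ℝ) × V2) × ℝ), IsClosedPLManifold 3 N ∧ IsConnected N ∧
      (∀ (Q : Type) [Group Q], (∀ q : Q, q ^ l = 1) → QTriv Q N) ∧
      Nonempty (EvC 3 N (ZMod p)) := by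
  have hp : p.Prime := Fact.out
  obtain ⟨a, c, hac⟩ : ∃ a c : ℤ, a * l - p * c = 1 := by
    obtain ⟨u, v, h⟩ := Nat.isCoprime_iff_coprime.2 ((Nat.Prime.coprime_iff_not_dvd hp).2 hl)
    exact ⟨v, -u, by linear_combination h⟩
  obtain ⟨T, T', h1, h2, h3, h4, h5, h6, h7⟩ := torus_auto a p c l hac
  have hTm : MapsTo T (gam ×ˢ gam) (gam ×ˢ gam) := by
    intro q hq
    rw [← h3]
    exact ⟨q, hq, rfl⟩
  have hTf : ∀ s t : ℝ, T (wnd s, wnd t) = (wnd (a * s + p * t), wnd (c * s + l * t)) := by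
    intro s t
    have := h4 s t
    rw [Int.cast_natCast, Int.cast_natCast] at this
    exact this
  have hTf' : ∀ s t : ℝ, T' (wnd s, wnd t) = (wnd (l * s - p * t), wnd (-c * s + a * t)) := by
    intro s t
    have := h7 s t
    rw [Int.cast_natCast, Int.cast_natCast] at this
    exact this
  obtain ⟨jA, jB, g, hDB, hM, hC⟩ := base_glue h1 h2 h3
  exact ⟨_, hM, hC, fun Q _ hq => base_qtriv hp hl hac h1 h5 h6 hTm hTf hTf' g Q hq,
    base_evc p l h1 hTm hTf g hDB⟩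

theorem test_pre (m : ℕ) (hm : 3 ≤ m) (p : ℕ) [Fact p.Prime] (l : ℕ) (hl : ¬ p ∣ l) :
    ∃ (E : Type) (_ : NormedAddCommGroup E) (_ : NormedSpace ℝ E) (_ : FiniteDimensional ℝ E)
      (N : Set E), IsClosedPLManifold m N ∧ IsConnected N ∧
      (∀ (Q : Type) [Group Q], (∀ q : Q, q ^ l = 1) → QTriv Q N) ∧
      Nonempty (EvC m N (ZMod p)) := by
  induction m, hm using Nat.le_induction with
  | base =>
    obtain ⟨N, h1, h2, h3, h4⟩ := base3 p l hl
    exact ⟨V6 × ((V2 × ℝ) × V2) × ℝ, inferInstance, inferInstance, inferInstance, N, h1, h2, h3, h4⟩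
  | succ n hn ih =>
    obtain ⟨E, i1, i2, i3, N, h1, h2, h3, ⟨D⟩⟩ := ih
    obtain ⟨N', g1, g2, g3, g4⟩ := test_step hn h1 h2 p l hl h3 D
    exact ⟨(E × V2) × (V2 × (Fin n → ℝ)) × ℝ, inferInstance, inferInstance, inferInstance, N',
      g1, g2, g3, g4⟩

theorem test_manifold (m : ℕ) (hm : 3 ≤ m) (p : ℕ) [Fact p.Prime] (l : ℕ) (hl : ¬ p ∣ l) :
    ∃ (r : ℕ) (N : Set (Fin r → ℝ)), IsClosedPLManifold m N ∧ IsConnected N ∧
      (∀ (Q : Type) [Group Q], (∀ q : Q, q ^ l = 1) → QTriv Q N) ∧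
      Nonempty (EvalData m N (ZMod p)) := by
  obtain ⟨E, i1, i2, i3, N, h1, h2, h3, ⟨D⟩⟩ := test_pre m hm p l hl
  obtain ⟨L⟩ : Nonempty (E ≃L[ℝ] (Fin (Module.finrank ℝ E) → ℝ)) :=
    ⟨ContinuousLinearEquiv.ofFinrankEq (by simp)⟩
  obtain ⟨A, hA⟩ : ∃ A : E →ᵃ[ℝ] (Fin (Module.finrank ℝ E) → ℝ), ∀ v, A v = L v :=
    ⟨(L : E →ₗ[ℝ] (Fin (Module.finrank ℝ E) → ℝ)).toAffineMap, fun _ => rfl⟩
  have hpl : PLOn L N := (PLOn.affine A h1.1).congr fun v _ => hA v
  refine ⟨Module.finrank ℝ E, L '' N, ⟨hpl.image, ?_⟩, h2.image _ L.continuous.continuousOn, ?_, ?_⟩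
  · rintro _ ⟨x, hx, rfl⟩
    exact IntPt.image hpl L.injective.injOn hx (h1.2 x hx)
  · intro Q _ hq
    refine QTriv.retract (φ := L) (ψ := L.symm) L.continuous.continuousOn
      L.symm.continuous.continuousOn (mapsTo_image _ _) ?_ (fun y _ => L.apply_symm_apply y) (h3 Q hq)
    rintro _ ⟨x, hx, rfl⟩
    rw [L.symm_apply_apply]
    exact hx
  · obtain ⟨D'⟩ := D.map L
    exact D'.toEvalData

end Pool.H54.UB

end S_NTG
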