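import Pool.Agent.H54.UB.Core
import Pool.Agent.H54.UM.G1
import Pool.Agent.H54.UM.G2
import Pool.Agent.H54.UM.G3
import Pool.Agent.H54.UM.G4
import Pool.Agent.H54.UM.G5
import Pool.Agent.H54.UM.G8

/-! Universal bases, part G9: this file joins several modules to save build time. -/

section S_FD

/-!
# Row FD: dimension at least 3

`Q = FundamentalGroup M x`, `l = card Q` (`Fintype.ofFinite`).  Choose a prime `p > m + 1 + k + 2 l`.
`N` from `test_manifold m p (2 l)`: `q ^ (2l) = 1` for `q ∈ Q` and for `q ∈ ℤˣ`; so `QTriv Q N`,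
`QTriv ℤˣ N`, `IsOrientable` (`orientable_of_qtriv`), and `hu` gives a branched cover `f : N → M`.
The sphere `S^m` in `Fin (m+1) → ℝ` (`sphere_manifold`, `sphere_connected`, `sphere_qtriv` for `Q` and `ℤˣ`)
gives `f₀ : S^m → M`.
`R = ZMod p`: `(m+1)! ≠ 0`, `(k : R) ≠ 0` (`0 < k < p`).
`Y` from `brc_eval`, families `G` from `brc_family` for `f` (with `Y`) and for `f₀` (with `∅`); `K` from
`triang M` adapted to the union of both.  `Ori` from `GC.orientation`.  `c` from `ccov_pi1`; `g`, `g₀` from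
`lprim_exists`.  `til_degree` for `f`: `d * l = k`.  `cover_acyclic` for `f₀`.
If `d < m`: `berstein_edmonds` for `T = tilT c (K.tops m)`, `L = tilL (lifts S f) g`,
`ε u = (ε₀ (fst ∘ u) : R)`, `stokes` from `til_stokes`, gives that the sum over `tilT` is `0`; by `til_sum` it
equals the sum in `brc_eval`, which is not `0`.  So `m ≤ d` and `m * l ≤ d * l = k`.
-/

open Set Topology

namespace Pool.H54.UB

theorem main_ge_three {m n k : ℕ} (hm : 3 ≤ m) {M : Set (Fin n → ℝ)}
    (hM : IsClosedPLManifold m M) (hc : IsConnected M) (ho : IsOrientable m M) (x : M)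
    [Finite (FundamentalGroup M x)] (hk : 2 ≤ k) (hu : IsUniversalBase m k M) :
    m * Nat.card (FundamentalGroup M x) ≤ k := by
  classical
  haveI : Fintype (FundamentalGroup M x) := Fintype.ofFinite _
  have hl : 0 < Nat.card (FundamentalGroup M x) := Nat.card_pos
  obtain ⟨l, hldef⟩ : ∃ l, l = Nat.card (FundamentalGroup M x) := ⟨_, rfl⟩
  rw [← hldef] at hl ⊢
  obtain ⟨p, hpge, hp⟩ := Nat.exists_infinite_primes (m + 1 + k + 2 * l + 1)
  haveI : Fact p.Prime := ⟨hp⟩
  have hnd : ¬ p ∣ 2 * l := fun h => by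
    have := Nat.le_of_dvd (by omega) h
    omega
  obtain ⟨r, N, hN, hNc, hNQ, ⟨D⟩⟩ := test_manifold m hm p (2 * l) hnd
  have hQ1 : QTriv (FundamentalGroup M x) N := hNQ _ (fun q => by
    rw [mul_comm, pow_mul, hldef, pow_card_eq_one', one_pow])
  have hQ2 : QTriv ℤˣ N := hNQ _ (fun u => by
    rw [pow_mul, Int.units_sq, one_pow])
  obtain ⟨f, hf⟩ := hu r N hN hNc (orientable_of_qtriv hN hQ2)
  have hS := sphere_manifold m (by omega)
  obtain ⟨f₀, hf₀⟩ := hu (m + 1) (Metric.sphere 0 1) hS (sphere_connected m (by omega))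
    (orientable_of_qtriv hS (sphere_qtriv m (by omega) ℤˣ))
  have hfac : (((m + 1).factorial : ℕ) : ZMod p) ≠ 0 := by
    rw [Ne, ZMod.natCast_eq_zero_iff, hp.dvd_factorial]
    omega
  have hfac' : (((m).factorial : ℕ) : ZMod p) ≠ 0 := by
    rw [Ne, ZMod.natCast_eq_zero_iff, hp.dvd_factorial]
    omega
  have hkR : (k : ZMod p) ≠ 0 := by
    rw [Ne, ZMod.natCast_eq_zero_iff]
    intro h
    have := Nat.le_of_dvd (by omega) h
    omega
  obtain ⟨Y, hY, hYe⟩ := brc_eval (F := Fin n → ℝ) D hfac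
  obtain ⟨S, G, hG, hGK⟩ := brc_family (by omega) hM hf Y hY
  obtain ⟨S₀, G₀, hG₀, hGK₀⟩ := brc_family (by omega) hM hf₀ ∅ (by simp)
  obtain ⟨K, hK, hKad⟩ := triang M hM.1 (G ∪ G₀) (by
    intro A hA
    rcases Finset.mem_union.1 hA with h | h
    · exact hG A h
    · exact hG₀ A h)
  obtain ⟨hB, hBY⟩ := hGK K hK (fun A hA => hKad A (Finset.mem_union_left _ hA))
  obtain ⟨hB₀, -⟩ := hGK₀ K hK (fun A hA => hKad A (Finset.mem_union_right _ hA))
  obtain ⟨ε, e1, e2, e3, e4⟩ := GC.orientation (by omega) hM ho K hK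
  obtain ⟨c, hcc, hcov⟩ := ccov_pi1 hM hc K hK x
  obtain ⟨g, hg⟩ := lprim_exists (m := m) hB.adm hf.1.continuousOn hQ1 c hcc
  obtain ⟨g₀, hg₀⟩ := lprim_exists (m := m) hB₀.adm hf₀.1.continuousOn
    (sphere_qtriv m (by omega) (FundamentalGroup M x)) c hcc
  obtain ⟨d, hd, hdcard, hdfac, hdcons⟩ := til_degree hB hcov hg
  have hacyc := cover_acyclic (by omega) hB₀ hcov hg₀ (ZMod p) hkR
  rw [← Nat.card_eq_fintype_card, ← hldef] at hd
  by_contra hcon
  have hdm : d < m := by
    by_contra h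
    have h1 : m * l ≤ d * l := Nat.mul_le_mul_right l (not_lt.1 h)
    omega
  obtain ⟨y, hy, hne⟩ := hYe K S f hB hBY ε ⟨e1, e2, e3, e4⟩
  apply hne
  have h1 := berstein_edmonds m d hdm (tilT c (K.tops m))
    (fun u => ((ε (fun i => (u i).1) : ℤ) : ZMod p))
    (fun φ => til_stokes (by omega) c (K.tops m) hcov.coc (fun t => ((ε t : ℤ) : ZMod p))
      (e4 (ZMod p)) φ)
    (tilL (lifts S f) g) hdcard hdfac hdcons hacyc y (by
      intro i u hu σ hσ a b c'
      have h2 := ((mem_tilT hcov.coc).1 hu).1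
      have h3 : σ ∈ lifts S f (fun i => (u i).1) := by
        unfold tilL at hσ
        exact (Finset.mem_filter.1 hσ).1
      exact hy i _ h2 σ h3 a b c') hfac'
  rw [til_sum c (K.tops m) hcov.coc (lifts S f) g hg (fun t => ((ε t : ℤ) : ZMod p))] at h1
  exact h1

end Pool.H54.UB

end S_FD

section S_FE

/-!
# Row FE: facets and strong connectivity of the covering complex

`T = K.tops m`, `T' = tilT c T` (`mem_tilT`).

* `til_perm`: immediate from `mem_tilT`.
* `til_two`: `cons u r ∈ T'` with `u : F × Q`, `r : Fin m → F × Q`, `m ≥ 1`.  `Ori.two` for `fst ∘ r` gives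
  `u₀ ≠ v₀`; a tuple `cons (w, q) r` is in `T'` iff `cons w (fst ∘ r) ∈ T` and `(r i).2 = q * c w (r i).1` for
  all `i` (the compatibility of the entries of `r` among themselves holds because `cons u r ∈ T'`);
  so `q = (r 0).2 * (c w (r 0).1)⁻¹` is determined by `w`, and this `q` works by the cocycle identity on the
  top tuple `cons w (fst ∘ r)`.
* `til_strong`: let `P` be as in the statement, `P u₁` for some `u₁ ∈ T'`.  For `v ∈ F`, `q ∈ Q` let
  `D v q = 1` if there is `u ∈ T'` and `i` with `u i = (v, q)` and `P u`, and `0` otherwise.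
  Claim A: if `u, u' ∈ T'`, `u i = u' i' = (v, q)` and `P u` then `P u'`.  Use `GC.localConn` at `s = {v}` with
  the property of a face `a` with `m + 1` vertices: for all `w ∈ T'` with `range (fst ∘ w) = a` and
  `w j = (v, q)` for some `j`: `P w`.  If `a`, `b` have a common facet `ρ ∋ v`, order it as `r₀ : Fin m → F`,
  and lift it: `r i = (r₀ i, q * c v (r₀ i))`; the lifts through `(v, q)` of the tuples `cons x r₀`
  (`range = a`), `cons y r₀` (`range = b`) are `cons _ r`, `cons _ r`; use the second hypothesis on `P`.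
  Any other ordering of `a` is a permutation (first hypothesis on `P`), and the lift through `(v, q)` of a
  given ordering is unique.
  Claim B: `D (t i) q = D (t j) (q * c (t i) (t j))` for `t ∈ T`: the lift of `t` through `(t i, q)` passes
  through `(t j, q * c (t i) (t j))`; by Claim A both sides are `1` iff this lift satisfies `P`.
  By `CCov.conn`, `D = 1` everywhere on the vertices, and by Claim A every `u ∈ T'` satisfies `P`.
-/

open Set Topology

namespace Pool.H54.UB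

variable {F : Type*} [NormedAddCommGroup F] [NormedSpace ℝ F] [FiniteDimensional ℝ F]

private theorem FE_fst {V Q : Type*} {m : ℕ} (u : V × Q) (r : Fin m → V × Q) :
    (fun i => ((Fin.cons u r : Fin (m + 1) → V × Q) i).1) =
      (Fin.cons u.1 (fun i => (r i).1) : Fin (m + 1) → V) := by
  funext i
  refine Fin.cases ?_ (fun k => ?_) i
  · rw [Fin.cons_zero, Fin.cons_zero]
  · rw [Fin.cons_succ, Fin.cons_succ]

private theorem FE_base {V Q : Type*} [Group Q] [Fintype Q] {m : ℕ} {c : V → V → Q}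
    {T : Finset (Fin (m + 1) → V)}
    (hc : ∀ t ∈ T, ∀ i j k, c (t i) (t j) * c (t j) (t k) = c (t i) (t k))
    {u : Fin (m + 1) → V × Q} (hu : (fun i => (u i).1) ∈ T) (b : Fin (m + 1))
    (h : ∀ j, (u j).2 = (u b).2 * c (u b).1 (u j).1) : u ∈ tilT c T := by
  refine (mem_tilT hc).2 ⟨hu, fun i j => ?_⟩
  have h1 : c (u b).1 (u i).1 * c (u i).1 (u j).1 = c (u b).1 (u j).1 := hc _ hu b i j
  rw [h j, h i, mul_assoc, h1]

private theorem FE_perm {V Q : Type*} [Group Q] [Fintype Q] {m : ℕ} {c : V → V → Q}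
    {T : Finset (Fin (m + 1) → V)}
    (hc : ∀ t ∈ T, ∀ i j k, c (t i) (t j) * c (t j) (t k) = c (t i) (t k))
    {u w : Fin (m + 1) → V × Q} (hu : u ∈ tilT c T) (hw : w ∈ tilT c T)
    (hwi : Function.Injective fun i => (w i).1) (h : ∀ i, ∃ j, (u j).1 = (w i).1)
    {i₀ j₀ : Fin (m + 1)} (h0 : u i₀ = w j₀) : ∃ π : Equiv.Perm (Fin (m + 1)), w = u ∘ π := by
  choose f hf using h
  have hinj : Function.Injective f := by
    intro a b hab
    apply hwi
    show (w a).1 = (w b).1
    rw [← hf a, ← hf b, hab]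
  refine ⟨Equiv.ofBijective f (Finite.injective_iff_bijective.1 hinj), ?_⟩
  funext i
  have h1 := ((mem_tilT hc).1 hu).2 i₀ (f i)
  have h2 := ((mem_tilT hc).1 hw).2 j₀ i
  show w i = u (f i)
  refine Prod.ext (hf i).symm ?_
  rw [h1, h2, hf i, h0]

private theorem FE_lift {V Q : Type*} [Group Q] [Fintype Q] {m : ℕ} {c : V → V → Q}
    {T : Finset (Fin (m + 1) → V)}
    (hc : ∀ t ∈ T, ∀ i j k, c (t i) (t j) * c (t j) (t k) = c (t i) (t k))
    {t : Fin (m + 1) → V} (ht : t ∈ T) (i : Fin (m + 1)) (q : Q) :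
    (fun j => (t j, q * c (t i) (t j))) ∈ tilT c T := by
  refine FE_base hc (u := fun j => (t j, q * c (t i) (t j))) ht i (fun j => ?_)
  show q * c (t i) (t j) = q * c (t i) (t i) * c (t i) (t j)
  rw [TIL_self (hc t ht) i, mul_one]

private theorem FE_cons {V Q : Type*} [Group Q] [Fintype Q] {m : ℕ} (hm : 1 ≤ m) {c : V → V → Q}
    {T : Finset (Fin (m + 1) → V)}
    (hc : ∀ t ∈ T, ∀ i j k, c (t i) (t j) * c (t j) (t k) = c (t i) (t k))
    {r : Fin m → V × Q} {u₁ : V × Q} (hr : (Fin.cons u₁ r : Fin (m + 1) → V × Q) ∈ tilT c T)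
    (w : V × Q) : (Fin.cons w r : Fin (m + 1) → V × Q) ∈ tilT c T ↔
      (Fin.cons w.1 (fun i => (r i).1) : Fin (m + 1) → V) ∈ T ∧
        w.2 = (r ⟨0, hm⟩).2 * c (r ⟨0, hm⟩).1 w.1 := by
  constructor
  · intro h
    have h1 := (mem_tilT hc).1 h
    refine ⟨?_, ?_⟩
    · rw [← FE_fst]
      exact h1.1
    · have h2 := h1.2 (Fin.succ ⟨0, hm⟩) 0
      rw [Fin.cons_succ, Fin.cons_zero] at h2
      exact h2
  · rintro ⟨h1, h2⟩
    refine FE_base hc (by rw [FE_fst]; exact h1) (Fin.succ ⟨0, hm⟩) (fun j => ?_)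
    refine Fin.cases ?_ (fun k => ?_) j
    · rw [Fin.cons_succ, Fin.cons_zero]
      exact h2
    · have h3 := ((mem_tilT hc).1 hr).2 (Fin.succ ⟨0, hm⟩) (Fin.succ k)
      rw [Fin.cons_succ, Fin.cons_succ] at h3
      rw [Fin.cons_succ, Fin.cons_succ]
      exact h3

omit [FiniteDimensional ℝ F] in
private theorem FE_cons_tops {m : ℕ} {K : GC F} {ρ : Finset F} {x : F} {r : Fin m → F}
    (hx : x ∉ ρ) (hr : Function.Injective r) (hrρ : ∀ k, r k ∈ ρ) {a : Finset F}
    (ha : a ∈ K.faces) (hxa : x ∈ a) (hρa : ρ ⊆ a) :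
    (Fin.cons x r : Fin (m + 1) → F) ∈ K.tops m := by
  refine GC.mem_tops.2 ⟨?_, a, ha, fun i => ?_⟩
  · refine Fin.cons_injective_iff.2 ⟨?_, hr⟩
    rintro ⟨k, hk⟩
    exact hx (by rw [← hk]; exact hrρ k)
  · refine Fin.cases ?_ (fun k => ?_) i
    · rw [Fin.cons_zero]
      exact hxa
    · rw [Fin.cons_succ]
      exact hρa (hrρ k)

/-- one step through a facet -/
private theorem FE_step {m : ℕ} {K : GC F} {Q : Type*} [Group Q] [Fintype Q] {c : F → F → Q}
    (hc : CCov m K Q c) (P : (Fin (m + 1) → F × Q) → Prop)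
    (h2 : ∀ (r : Fin m → F × Q) u v, (Fin.cons u r : Fin (m + 1) → F × Q) ∈ tilT c (K.tops m) →
      (Fin.cons v r : Fin (m + 1) → F × Q) ∈ tilT c (K.tops m) →
      P (Fin.cons u r : Fin (m + 1) → F × Q) → P (Fin.cons v r : Fin (m + 1) → F × Q))
    (v : F) (q : Q) {ρ : Finset F} {a b : Finset F} (ha : a ∈ K.faces) (hb : b ∈ K.faces)
    (hac : a.card = m + 1) (hbc : b.card = m + 1) (hvρ : v ∈ ρ) (hρa : ρ ⊆ a) (hρb : ρ ⊆ b)
    (hρ : ρ.card = m)
    (hPa : ∀ w ∈ tilT c (K.tops m), (∀ x, x ∈ a ↔ ∃ j, (w j).1 = x) → (∃ j, w j = (v, q)) → P w) :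
    ∃ w ∈ tilT c (K.tops m), (∀ x, x ∈ b → ∃ j, (w j).1 = x) ∧ (∃ j, w j = (v, q)) ∧ P w := by
  classical
  obtain ⟨x, hx, hxa⟩ := Finset.exists_eq_insert_iff.2 ⟨hρa, by rw [hρ, hac]⟩
  obtain ⟨y, hy, hyb⟩ := Finset.exists_eq_insert_iff.2 ⟨hρb, by rw [hρ, hbc]⟩
  obtain ⟨r, hri, hrρ, hrs⟩ : ∃ r : Fin m → F, Function.Injective r ∧ (∀ k, r k ∈ ρ) ∧
      ∀ z ∈ ρ, ∃ k, r k = z := by
    refine ⟨fun k => ((ρ.equivFinOfCardEq hρ).symm k : F), ?_, ?_, ?_⟩
    · intro k l hkl
      exact (ρ.equivFinOfCardEq hρ).symm.injective (Subtype.ext hkl)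
    · intro k
      exact ((ρ.equivFinOfCardEq hρ).symm k).2
    · intro z hz
      refine ⟨ρ.equivFinOfCardEq hρ ⟨z, hz⟩, ?_⟩
      show ((ρ.equivFinOfCardEq hρ).symm (ρ.equivFinOfCardEq hρ ⟨z, hz⟩) : F) = z
      rw [Equiv.symm_apply_apply]
  obtain ⟨k, hk⟩ := hrs v hvρ
  have key : ∀ z : F, (Fin.cons z r : Fin (m + 1) → F) ∈ K.tops m →
      (Fin.cons (z, q * c v z) (fun i => (r i, q * c v (r i))) : Fin (m + 1) → F × Q) ∈
        tilT c (K.tops m) ∧
      (Fin.cons (z, q * c v z) (fun i => (r i, q * c v (r i))) : Fin (m + 1) → F × Q) k.succ =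
        (v, q) := by
    intro z hz
    have h3 := FE_lift hc.coc hz k.succ q
    have h4 : (fun j => ((Fin.cons z r : Fin (m + 1) → F) j,
        q * c ((Fin.cons z r : Fin (m + 1) → F) k.succ) ((Fin.cons z r : Fin (m + 1) → F) j))) =
        (Fin.cons (z, q * c v z) (fun i => (r i, q * c v (r i))) : Fin (m + 1) → F × Q) := by
      funext j
      refine Fin.cases ?_ (fun l => ?_) j
      · rw [Fin.cons_succ, Fin.cons_zero, Fin.cons_zero, hk]
      · rw [Fin.cons_succ, Fin.cons_succ, Fin.cons_succ, hk]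
    rw [h4] at h3
    refine ⟨h3, ?_⟩
    have h5 : c v v = 1 := by
      have h6 := TIL_self (hc.coc _ hz) k.succ
      rw [Fin.cons_succ, hk] at h6
      exact h6
    rw [Fin.cons_succ, hk, h5, mul_one]
  have hxT := FE_cons_tops hx hri hrρ ha (by rw [← hxa]; exact Finset.mem_insert_self _ _) hρa
  have hyT := FE_cons_tops hy hri hrρ hb (by rw [← hyb]; exact Finset.mem_insert_self _ _) hρb
  obtain ⟨kx1, kx2⟩ := key x hxT
  obtain ⟨ky1, ky2⟩ := key y hyT
  have hran : ∀ z : F, ∀ z', z' ∈ insert z ρ ↔ ∃ j, ((Fin.cons (z, q * c v z)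
      (fun i => (r i, q * c v (r i))) : Fin (m + 1) → F × Q) j).1 = z' := by
    intro z z'
    rw [Finset.mem_insert]
    constructor
    · rintro (h | h)
      · exact ⟨0, by rw [Fin.cons_zero]; exact h.symm⟩
      · obtain ⟨l, hl⟩ := hrs z' h
        exact ⟨l.succ, by rw [Fin.cons_succ]; exact hl⟩
    · rintro ⟨j, hj⟩
      revert hj
      refine Fin.cases ?_ (fun l => ?_) j
      · intro hj
        rw [Fin.cons_zero] at hj
        exact Or.inl hj.symm
      · intro hj
        rw [Fin.cons_succ] at hj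
        exact Or.inr (by rw [← hj]; exact hrρ l)
  have hPx := hPa _ kx1 (by rw [← hxa]; exact hran x) ⟨_, kx2⟩
  have hPy := h2 _ _ _ kx1 ky1 hPx
  refine ⟨_, ky1, ?_, ⟨_, ky2⟩, hPy⟩
  intro z hz
  rw [← hyb] at hz
  exact (hran y z).1 hz

private theorem FE_claimA {m : ℕ} {M : Set F} (hM : IsClosedPLManifold m M)
    {K : GC F} (hK : K.space = M) {Q : Type*} [Group Q] [Fintype Q] {c : F → F → Q}
    (hc : CCov m K Q c) (P : (Fin (m + 1) → F × Q) → Prop)
    (h1 : ∀ t ∈ tilT c (K.tops m), ∀ π : Equiv.Perm (Fin (m + 1)), P t → P (t ∘ π))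
    (h2 : ∀ (r : Fin m → F × Q) u v, (Fin.cons u r : Fin (m + 1) → F × Q) ∈ tilT c (K.tops m) →
      (Fin.cons v r : Fin (m + 1) → F × Q) ∈ tilT c (K.tops m) →
      P (Fin.cons u r : Fin (m + 1) → F × Q) → P (Fin.cons v r : Fin (m + 1) → F × Q))
    {u u' : Fin (m + 1) → F × Q} (hu : u ∈ tilT c (K.tops m)) (hu' : u' ∈ tilT c (K.tops m))
    {i i' : Fin (m + 1)} (he : u i = u' i') (hPu : P u) : P u' := by
  classical
  have hface : ∀ w ∈ tilT c (K.tops m), ∃ a ∈ K.faces, a.card = m + 1 ∧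
      ∀ x, x ∈ a ↔ ∃ j, (w j).1 = x := by
    intro w hw
    obtain ⟨hinj, s, hs, hws⟩ := GC.mem_tops.1 ((mem_tilT hc.coc).1 hw).1
    refine ⟨Finset.univ.image fun j => (w j).1, ?_, ?_, ?_⟩
    · refine K.down s hs _ ?_ ⟨(w 0).1, Finset.mem_image_of_mem _ (Finset.mem_univ _)⟩
      intro x hx
      obtain ⟨j, -, rfl⟩ := Finset.mem_image.1 hx
      exact hws j
    · rw [Finset.card_image_of_injective _ hinj, Finset.card_univ, Fintype.card_fin]
    · intro x
      rw [Finset.mem_image]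
      constructor
      · rintro ⟨j, -, hj⟩
        exact ⟨j, hj⟩
      · rintro ⟨j, hj⟩
        exact ⟨j, Finset.mem_univ _, hj⟩
  have hinj : ∀ w ∈ tilT c (K.tops m), Function.Injective fun j => (w j).1 := fun w hw =>
    (GC.mem_tops.1 ((mem_tilT hc.coc).1 hw).1).1
  obtain ⟨a, ha, hac, har⟩ := hface u hu
  obtain ⟨b, hb, hbc, hbr⟩ := hface u' hu'
  have hva : (u i).1 ∈ a := (har _).2 ⟨i, rfl⟩
  have hvb : (u i).1 ∈ b := by
    rw [he]
    exact (hbr _).2 ⟨i', rfl⟩
  have hs : {(u i).1} ∈ K.faces :=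
    K.down a ha _ (Finset.singleton_subset_iff.2 hva) (Finset.singleton_nonempty _)
  have hmain := GC.localConn hM K hK {(u i).1} hs
    (fun a => ∀ w ∈ tilT c (K.tops m), (∀ x, x ∈ a ↔ ∃ j, (w j).1 = x) →
      (∃ j, w j = ((u i).1, (u i).2)) → P w) (by
      intro a' ha' b' hb' hac' hbc' hr hPa' w hw hwr hwj
      obtain ⟨ρ, hρ1, hρ2, hρ3, hρ4⟩ := hr
      obtain ⟨w', hw', hw'r, ⟨j', hj'⟩, hPw'⟩ := FE_step hc P h2 (u i).1 (u i).2 ha' hb' hac' hbc'
        (Finset.singleton_subset_iff.1 hρ1) hρ2 hρ3 hρ4 hPa'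
      obtain ⟨j, hj⟩ := hwj
      obtain ⟨π, hπ⟩ := FE_perm hc.coc hw' hw (hinj w hw)
        (fun l => hw'r _ ((hwr _).2 ⟨l, rfl⟩)) (hj'.trans hj.symm)
      rw [hπ]
      exact h1 w' hw' π hPw')
    a b ha hb hac hbc (Finset.singleton_subset_iff.2 hva) (Finset.singleton_subset_iff.2 hvb) (by
      intro w hw hwr hwj
      obtain ⟨j, hj⟩ := hwj
      obtain ⟨π, hπ⟩ := FE_perm hc.coc hu hw (hinj w hw) (i₀ := i) (j₀ := j)
        (fun l => (har _).1 ((hwr _).2 ⟨l, rfl⟩)) (by rw [hj])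
      rw [hπ]
      exact h1 u hu π hPu)
  exact hmain u' hu' hbr ⟨i', by rw [← he]⟩

theorem til_perm {m : ℕ} {K : GC F} {Q : Type*} [Group Q] [Fintype Q] {c : F → F → Q}
    (hc : CCov m K Q c) : ∀ t ∈ tilT c (K.tops m), ∀ π : Equiv.Perm (Fin (m + 1)),
      t ∘ π ∈ tilT c (K.tops m) := by
  intro t ht π
  have h1 := (mem_tilT hc.coc).1 ht
  refine (mem_tilT hc.coc).2 ⟨?_, fun i j => h1.2 (π i) (π j)⟩
  obtain ⟨hinj, s, hs, hts⟩ := GC.mem_tops.1 h1.1
  exact GC.mem_tops.2 ⟨hinj.comp π.injective, s, hs, fun a => hts (π a)⟩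

theorem til_two {m : ℕ} (hm : 1 ≤ m) {K : GC F} {Q : Type*} [Group Q] [Fintype Q]
    {c : F → F → Q} (hc : CCov m K Q c) {ε : (Fin (m + 1) → F) → ℤ} (hε : Ori m K ε)
    (r : Fin m → F × Q) (hr : ∃ u, (Fin.cons u r : Fin (m + 1) → F × Q) ∈ tilT c (K.tops m)) :
    ∃ u v, u ≠ v ∧ (Fin.cons u r : Fin (m + 1) → F × Q) ∈ tilT c (K.tops m) ∧
      (Fin.cons v r : Fin (m + 1) → F × Q) ∈ tilT c (K.tops m) ∧
      (∀ w, (Fin.cons w r : Fin (m + 1) → F × Q) ∈ tilT c (K.tops m) → w = u ∨ w = v) ∧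
      ε (fun i => ((Fin.cons u r : Fin (m + 1) → F × Q) i).1) =
        - ε (fun i => ((Fin.cons v r : Fin (m + 1) → F × Q) i).1) := by
  obtain ⟨u₁, hu₁⟩ := hr
  have hcons := FE_cons hm hc.coc hu₁
  obtain ⟨u₀, v₀, hne, hu, hv, huniq, hsgn⟩ := hε.two (fun i => (r i).1)
    ⟨u₁.1, ((hcons u₁).1 hu₁).1⟩
  refine ⟨(u₀, (r ⟨0, hm⟩).2 * c (r ⟨0, hm⟩).1 u₀), (v₀, (r ⟨0, hm⟩).2 * c (r ⟨0, hm⟩).1 v₀),
    fun h => hne (congrArg Prod.fst h), (hcons _).2 ⟨hu, rfl⟩, (hcons _).2 ⟨hv, rfl⟩, ?_, ?_⟩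
  · intro w hw
    obtain ⟨h1, h2⟩ := (hcons w).1 hw
    rcases huniq w.1 h1 with h3 | h3
    · left
      refine Prod.ext h3 ?_
      rw [h2, h3]
    · right
      refine Prod.ext h3 ?_
      rw [h2, h3]
  · rw [FE_fst, FE_fst]
    exact hsgn

theorem til_strong {m : ℕ} (hm : 1 ≤ m) {M : Set F} (hM : IsClosedPLManifold m M) {K : GC F}
    (hK : K.space = M) {Q : Type*} [Group Q] [Fintype Q] {c : F → F → Q} (hc : CCov m K Q c)
    (P : (Fin (m + 1) → F × Q) → Prop)
    (h1 : ∀ t ∈ tilT c (K.tops m), ∀ π : Equiv.Perm (Fin (m + 1)), P t → P (t ∘ π))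
    (h2 : ∀ (r : Fin m → F × Q) u v, (Fin.cons u r : Fin (m + 1) → F × Q) ∈ tilT c (K.tops m) →
      (Fin.cons v r : Fin (m + 1) → F × Q) ∈ tilT c (K.tops m) →
      P (Fin.cons u r : Fin (m + 1) → F × Q) → P (Fin.cons v r : Fin (m + 1) → F × Q)) :
    ∀ t ∈ tilT c (K.tops m), ∀ t' ∈ tilT c (K.tops m), P t → P t' := by
  classical
  have hA := fun {u u' : Fin (m + 1) → F × Q} (hu : u ∈ tilT c (K.tops m))
    (hu' : u' ∈ tilT c (K.tops m)) {i i' : Fin (m + 1)} (he : u i = u' i') (hPu : P u) =>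
    FE_claimA hM hK hc P h1 h2 hu hu' he hPu
  have hconn := hc.conn (fun v q => if ∃ u ∈ tilT c (K.tops m), ∃ i, u i = (v, q) ∧ P u then 1
    else 0) (by
      intro t ht i j q
      have hl := FE_lift hc.coc ht i q
      have hi : (fun j => (t j, q * c (t i) (t j))) i = (t i, q) := by
        show (t i, q * c (t i) (t i)) = (t i, q)
        rw [TIL_self (hc.coc t ht) i, mul_one]
      have hiff1 : (∃ u ∈ tilT c (K.tops m), ∃ l, u l = (t i, q) ∧ P u) ↔
          P (fun j => (t j, q * c (t i) (t j))) := by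
        constructor
        · rintro ⟨u, hu, l, hul, hPu⟩
          exact hA hu hl (i := l) (i' := i) (by rw [hul]; exact hi.symm) hPu
        · intro h
          exact ⟨_, hl, i, hi, h⟩
      have hiff2 : (∃ u ∈ tilT c (K.tops m), ∃ l, u l = (t j, q * c (t i) (t j)) ∧ P u) ↔
          P (fun j => (t j, q * c (t i) (t j))) := by
        constructor
        · rintro ⟨u, hu, l, hul, hPu⟩
          exact hA hu hl (i := l) (i' := j) hul hPu
        · intro h
          exact ⟨_, hl, j, rfl, h⟩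
      show (if ∃ u ∈ tilT c (K.tops m), ∃ l, u l = (t i, q) ∧ P u then 1 else 0) =
        (if ∃ u ∈ tilT c (K.tops m), ∃ l, u l = (t j, q * c (t i) (t j)) ∧ P u then 1 else 0)
      rw [if_congr (hiff1.trans hiff2.symm) rfl rfl])
  intro t ht t' ht' hPt
  have h3 := hconn _ ((mem_tilT hc.coc).1 ht).1 _ ((mem_tilT hc.coc).1 ht').1 0 0 (t 0).2 (t' 0).2
  have h4 : ∃ u ∈ tilT c (K.tops m), ∃ i, u i = ((t 0).1, (t 0).2) ∧ P u := ⟨t, ht, 0, rfl, hPt⟩
  have h5 : ∃ u ∈ tilT c (K.tops m), ∃ i, u i = ((t' 0).1, (t' 0).2) ∧ P u := by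
    by_contra hcon
    have h6 : (if ∃ u ∈ tilT c (K.tops m), ∃ i, u i = ((t 0).1, (t 0).2) ∧ P u then 1 else 0) =
      (if ∃ u ∈ tilT c (K.tops m), ∃ i, u i = ((t' 0).1, (t' 0).2) ∧ P u then 1 else 0) := h3
    rw [if_pos h4, if_neg hcon] at h6
    exact one_ne_zero h6
  obtain ⟨u, hu, i, hui, hPu⟩ := h5
  exact hA hu ht' (i := i) (i' := 0) hui hPu

end Pool.H54.UB

end S_FE

section S_EUC

/-!
# Row EUC: the covering complex multiplies the numbers of simplices by `|Q|`

`u ↦ (fst ∘ u)` maps `tilT c T` onto `T` with fibres of size `|Q|` (a member over `t` is determined by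
the second component at any one index, which is arbitrary in `Q`; `mem_tilT`).  Similarly for the
vertices and the ordered edges: a vertex `v` of `T` has the `|Q|` lifts `(v, q)`, an edge
`(t a, t b)`, has the `|Q|` lifts `((t a, q), (t b, q * c (t a) (t b)))`.
-/

namespace Pool.H54.UB

open Finset

open Classical in
theorem til_counts {V Q : Type*} [Group Q] [Fintype Q] (c : V → V → Q) (T : Finset (Fin 3 → V))
    (hc : ∀ t ∈ T, ∀ i j k, c (t i) (t j) * c (t j) (t k) = c (t i) (t k)) :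
    (tilT c T).card = Fintype.card Q * T.card ∧
    ((tilT c T).biUnion fun t => univ.image t).card =
      Fintype.card Q * (T.biUnion fun t => univ.image t).card ∧
    ((tilT c T).biUnion fun t => (univ.filter (fun p : Fin 3 × Fin 3 => p.1 ≠ p.2)).image
        (fun p => (t p.1, t p.2))).card =
      Fintype.card Q * (T.biUnion fun t =>
        (univ.filter (fun p : Fin 3 × Fin 3 => p.1 ≠ p.2)).image (fun p => (t p.1, t p.2))).card := by
  refine ⟨?_, ?_, ?_⟩
  · unfold tilT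
    rw [Finset.card_image_of_injOn (TIL_inj hc), Finset.card_product, Finset.card_univ, mul_comm]
  · have h : ((tilT c T).biUnion fun t => univ.image t) =
        (T.biUnion fun t => univ.image t) ×ˢ (univ : Finset Q) := by
      ext ⟨v, q⟩
      simp only [Finset.mem_biUnion, Finset.mem_image, Finset.mem_univ, true_and,
        Finset.mem_product, and_true]
      constructor
      · rintro ⟨u, hu, i, hi⟩
        rw [mem_tilT hc] at hu
        exact ⟨_, hu.1, i, by rw [hi]⟩
      · rintro ⟨t, ht, i, rfl⟩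
        refine ⟨fun j => (t j, q * c (t i) (t j)), ?_, i, ?_⟩
        · rw [mem_tilT hc]
          refine ⟨ht, fun j k => ?_⟩
          show q * c (t i) (t k) = q * c (t i) (t j) * c (t j) (t k)
          rw [mul_assoc, hc t ht]
        · have h1 : c (t i) (t i) = 1 := TIL_self (hc t ht) i
          simp only [h1, mul_one]
    rw [h, Finset.card_product, Finset.card_univ, mul_comm]
  · have h : ((tilT c T).biUnion fun t => (univ.filter (fun p : Fin 3 × Fin 3 => p.1 ≠ p.2)).image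
        (fun p => (t p.1, t p.2))) =
        ((T.biUnion fun t => (univ.filter (fun p : Fin 3 × Fin 3 => p.1 ≠ p.2)).image
          (fun p => (t p.1, t p.2))) ×ˢ (univ : Finset Q)).image
          (fun w => ((w.1.1, w.2), (w.1.2, w.2 * c w.1.1 w.1.2))) := by
      ext ⟨⟨v, q⟩, ⟨v', q'⟩⟩
      simp only [Finset.mem_biUnion, Finset.mem_image, Finset.mem_univ, true_and,
        Finset.mem_product, and_true, Finset.mem_filter]
      constructor
      · rintro ⟨u, hu, ⟨i, j⟩, hij, he⟩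
        rw [mem_tilT hc] at hu
        simp only [Prod.mk.injEq] at he
        refine ⟨((v, v'), q), ⟨_, hu.1, (i, j), hij, ?_⟩, ?_⟩
        · simp only [he.1, he.2]
        · have h1 := hu.2 i j
          rw [he.1, he.2] at h1
          have h2 : q' = q * c v v' := h1
          simp only [h2]
      · rintro ⟨⟨⟨x, y⟩, q0⟩, ⟨t, ht, ⟨i, j⟩, hij, he⟩, he2⟩
        simp only [Prod.mk.injEq] at he he2
        obtain ⟨rfl, rfl⟩ := he
        obtain ⟨⟨rfl, rfl⟩, ⟨rfl, rfl⟩⟩ := he2
        refine ⟨fun k => (t k, q0 * c (t i) (t k)), ?_, (i, j), hij, ?_⟩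
        · rw [mem_tilT hc]
          refine ⟨ht, fun j k => ?_⟩
          show q0 * c (t i) (t k) = q0 * c (t i) (t j) * c (t j) (t k)
          rw [mul_assoc, hc t ht]
        · have h1 : c (t i) (t i) = 1 := TIL_self (hc t ht) i
          simp only [h1, mul_one]
    rw [h, Finset.card_image_of_injective, Finset.card_product, Finset.card_univ, mul_comm]
    rintro ⟨⟨x, y⟩, q⟩ ⟨⟨x', y'⟩, q'⟩ he
    simp only [Prod.mk.injEq] at he
    obtain ⟨⟨rfl, rfl⟩, ⟨rfl, -⟩⟩ := he
    rfl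

/-- Uniqueness of the alternating 2-cycle up to a scalar on the covering complex, from the pairs
structure of facets and connectivity through facets. -/
theorem cycle_unique {X R : Type*} [Field R] (T : Finset (Fin 3 → X))
    (hperm : ∀ t ∈ T, ∀ π : Equiv.Perm (Fin 3), t ∘ π ∈ T) (hne : T.Nonempty)
    (ε : (Fin 3 → X) → R) (hε : ∀ t ∈ T, ε t ≠ 0)
    (hεalt : ∀ t ∈ T, ∀ π : Equiv.Perm (Fin 3), ε (t ∘ π) = ((Equiv.Perm.sign π : ℤ) : R) * ε t)
    (htwo : ∀ r : Fin 2 → X, (∃ u, (Fin.cons u r : Fin 3 → X) ∈ T) →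
      ∃ u v, u ≠ v ∧ (Fin.cons u r : Fin 3 → X) ∈ T ∧ (Fin.cons v r : Fin 3 → X) ∈ T ∧
        (∀ w, (Fin.cons w r : Fin 3 → X) ∈ T → w = u ∨ w = v) ∧
        ε (Fin.cons u r : Fin 3 → X) = - ε (Fin.cons v r : Fin 3 → X))
    (hstrong : ∀ P : (Fin 3 → X) → Prop,
      (∀ t ∈ T, ∀ π : Equiv.Perm (Fin 3), P t → P (t ∘ π)) →
      (∀ (r : Fin 2 → X) u v, (Fin.cons u r : Fin 3 → X) ∈ T → (Fin.cons v r : Fin 3 → X) ∈ T →
        P (Fin.cons u r : Fin 3 → X) → P (Fin.cons v r : Fin 3 → X)) →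
      ∀ t ∈ T, ∀ t' ∈ T, P t → P t')
    (ζ : (Fin 3 → X) → R)
    (hζ : ∀ t ∈ T, ∀ π : Equiv.Perm (Fin 3), ζ (t ∘ π) = ((Equiv.Perm.sign π : ℤ) : R) * ζ t)
    (hζc : ∀ φ : (Fin 2 → X) → R, ∑ t ∈ T, ζ t * φ (fun i : Fin 2 => t i.succ) = 0) :
    ∃ l : R, ∀ t ∈ T, ζ t = l * ε t := by
  classical
  obtain ⟨t0, ht0⟩ := hne
  obtain ⟨l, hl⟩ : ∃ l : R, l = ζ t0 / ε t0 := ⟨_, rfl⟩
  have hsum : ∀ (r : Fin 2 → X) u v, u ≠ v → (Fin.cons u r : Fin 3 → X) ∈ T →
      (Fin.cons v r : Fin 3 → X) ∈ T →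
      (∀ w, (Fin.cons w r : Fin 3 → X) ∈ T → w = u ∨ w = v) →
      ζ (Fin.cons u r : Fin 3 → X) + ζ (Fin.cons v r : Fin 3 → X) = 0 := by
    intro r u v huv hu hv hw
    have h := hζc (fun r' => if r' = r then 1 else 0)
    have h1 : ∑ t ∈ T, ζ t * (if (fun i : Fin 2 => t i.succ) = r then (1 : R) else 0) =
        ∑ t ∈ ({(Fin.cons u r : Fin 3 → X), (Fin.cons v r : Fin 3 → X)} : Finset (Fin 3 → X)),
          ζ t := by
      have h2 : ({(Fin.cons u r : Fin 3 → X), (Fin.cons v r : Fin 3 → X)} :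
          Finset (Fin 3 → X)) = T.filter (fun t => (fun i : Fin 2 => t i.succ) = r) := by
        ext t
        simp only [Finset.mem_insert, Finset.mem_singleton, Finset.mem_filter]
        constructor
        · rintro (rfl | rfl)
          · refine ⟨hu, ?_⟩
            funext i
            rw [Fin.cons_succ]
          · refine ⟨hv, ?_⟩
            funext i
            rw [Fin.cons_succ]
        · rintro ⟨ht, hr⟩
          have h3 : t = (Fin.cons (t 0) r : Fin 3 → X) := by
            rw [← hr]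
            exact (Fin.cons_self_tail t).symm
          rw [h3] at ht
          rcases hw _ ht with h4 | h4
          · left
            rw [h3, h4]
          · right
            rw [h3, h4]
      rw [h2, Finset.sum_filter]
      refine Finset.sum_congr rfl fun t _ => ?_
      split_ifs <;> simp
    rw [h1, Finset.sum_pair] at h
    · exact h
    · intro he
      exact huv (by simpa using congrFun he 0)
  refine ⟨l, fun t ht => ?_⟩
  refine hstrong (fun t => t ∈ T → ζ t = l * ε t) ?_ ?_ t0 ht0 t ht ?_ ht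
  · intro t ht π hP _
    rw [hζ t ht, hεalt t ht, hP ht]
    ring
  · intro r u v hu hv hP _
    by_cases huv : u = v
    · rw [← huv]
      exact hP hu
    · obtain ⟨u0, v0, huv0, hu0, hv0, hw, hε0⟩ := htwo r ⟨u, hu⟩
      have h1 := hsum r u0 v0 huv0 hu0 hv0 hw
      have h2 := hP hu
      rcases hw u hu with rfl | rfl
      · rcases hw v hv with rfl | rfl
        · exact absurd rfl huv
        · rw [eq_neg_of_add_eq_zero_right h1, h2, hε0]
          ring
      · rcases hw v hv with rfl | rfl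
        · rw [eq_neg_of_add_eq_zero_left h1, h2, hε0]
          ring
        · exact absurd rfl huv
  · intro _
    rw [hl, div_mul_cancel₀ _ (hε t0 ht0)]

end Pool.H54.UB

end S_EUC

section S_EUL

/-!
# Row EUL: Euler characteristic of a closed oriented surface with `H¹ = 0` (combinatorial form)

`T` = ordered triangles (all orderings), `R` a field with `6 ≠ 0`.
`V₁` = vertices, `E₂` = ordered edges `(t a, t b)`, `a ≠ b`.  Claim: `6 |V₁| + |T| = 3 |E₂| + 12`
(i.e. `V - E + F = 2` with `E = |E₂|/2`, `F = |T|/6`).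

Proof.  Vector spaces: `C⁰ = V₁ → R`; `C¹` = alternating functions on `E₂` (`f (a,b) = - f (b,a)`),
dimension `|E₂|/2`; `C²` = alternating functions on `T`, dimension `|T|/6` (`T` is closed under
permutations and its members are injective, so the symmetric group `S₃` acts freely on `T`; choose
representatives).  `δ⁰ f (a,b) = f b - f a`, kernel = constants (dimension 1, by `conn` and `T ≠ ∅`).
`δ¹ g (a,b,c) = g(b,c) - g(a,c) + g(a,b)`; its kernel is the image of `δ⁰` (`H1`: extend `g` by `0` to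
all pairs, also `g(a,a) = 0`; the cocycle condition on all index maps `α : Fin 3 → Fin 3` follows from
the one for injective `α` and from being alternating).  So `rank δ¹ = |E₂|/2 - (|V₁| - 1)`.
The cokernel of `δ¹` has dimension 1: the annihilator of the image of `δ¹` in the dual of `C²` is,
with the pairing `⟨ζ, f⟩ = ∑_{t ∈ T} ζ t f t` on `C²` (nondegenerate as `6 ≠ 0`), the space of
alternating `ζ` with `∑_{t ∈ T} ζ t (δ¹ g)(t) = 0` for all `g`, i.e.
(each of the three terms of `δ¹ g` contributes the same) `∑_{t : (t 1, t 2) = (a, b)} ζ t = 0` for all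
edges `(a,b)`, i.e. the cycles: by `Z2` it is one-dimensional.  So
`|T|/6 - rank δ¹ = 1`.
-/

namespace Pool.H54.UB

open Finset

section EULaux

variable {X R : Type*} [LinearOrder X] [Field R]

theorem EUL_mono (t : Fin 3 → X) : (t 0 < t 1 ∧ t 1 < t 2) ↔ StrictMono t := by
  rw [Fin.strictMono_iff_lt_succ, Fin.forall_fin_two]
  rfl

/-- the increasing members -/
def EUL_S (T : Finset (Fin 3 → X)) : Finset (Fin 3 → X) := T.filter (fun t => t 0 < t 1 ∧ t 1 < t 2)

theorem EUL_mem (T : Finset (Fin 3 → X)) (t : Fin 3 → X) :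
    t ∈ EUL_S T ↔ t ∈ T ∧ StrictMono t := by
  unfold EUL_S
  rw [mem_filter, EUL_mono]

omit [LinearOrder X] in
theorem EUL_inj {t : Fin 3 → X} (ht : Function.Injective t) {π σ : Equiv.Perm (Fin 3)}
    (h : t ∘ π = t ∘ σ) : π = σ :=
  Equiv.ext fun i => ht (congrFun h i)

theorem EUL_sorted {t : Fin 3 → X} (ht : Function.Injective t) : StrictMono (t ∘ Tuple.sort t) :=
  (Tuple.monotone_sort t).strictMono_of_injective (ht.comp (Tuple.sort t).injective)

theorem EUL_sum {M : Type*} [AddCommMonoid M] (T : Finset (Fin 3 → X))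
    (hinj : ∀ t ∈ T, Function.Injective t)
    (hperm : ∀ t ∈ T, ∀ π : Equiv.Perm (Fin 3), t ∘ π ∈ T) (φ : (Fin 3 → X) → M) :
    ∑ t ∈ T, φ t = ∑ s ∈ EUL_S T, ∑ π : Equiv.Perm (Fin 3), φ (s ∘ π) := by
  rw [← Finset.sum_product' (EUL_S T) univ (fun s (π : Equiv.Perm (Fin 3)) => φ (s ∘ π))]
  symm
  refine Finset.sum_bij' (fun q _ => q.1 ∘ q.2)
    (fun t _ => (t ∘ Tuple.sort t, (Tuple.sort t)⁻¹)) ?_ ?_ ?_ ?_ ?_
  · intro q hq
    rw [mem_product] at hq
    exact hperm _ ((EUL_mem T _).1 hq.1).1 _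
  · intro t ht
    rw [mem_product]
    exact ⟨(EUL_mem T _).2 ⟨hperm t ht _, EUL_sorted (hinj t ht)⟩, mem_univ _⟩
  · intro q hq
    rw [mem_product] at hq
    have h1 := (EUL_mem T _).1 hq.1
    have h2 : (q.1 ∘ q.2) ∘ Tuple.sort (q.1 ∘ q.2) = q.1 := by
      rw [Tuple.comp_perm_comp_sort_eq_comp_sort,
        Tuple.sort_eq_refl_iff_monotone.2 h1.2.monotone]
      rfl
    have h3 : q.2 * Tuple.sort (q.1 ∘ q.2) = 1 := by
      apply EUL_inj h1.2.injective
      exact h2
    refine Prod.ext h2 ?_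
    show (Tuple.sort (q.1 ∘ q.2))⁻¹ = q.2
    exact (eq_inv_of_mul_eq_one_left h3).symm
  · intro t ht
    funext i
    simp
  · intro q hq
    rfl

/-- the incidence number -/
def EUL_D (R : Type*) [Field R] (s : Fin 3 → X) (x y : X) : R :=
  (if s 1 = x ∧ s 2 = y then 1 else 0) - (if s 0 = x ∧ s 2 = y then 1 else 0) +
    (if s 0 = x ∧ s 1 = y then 1 else 0)

theorem EUL_and (a b : Prop) [Decidable a] [Decidable b] :
    (if a ∧ b then (1 : R) else 0) = (if a then 1 else 0) * (if b then 1 else 0) := by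
  by_cases ha : a <;> by_cases hb : b <;> simp [ha, hb]

theorem EUL_det (s : Fin 3 → X) (x y : X) :
    ∑ π : Equiv.Perm (Fin 3), (if s (π 1) = x ∧ s (π 2) = y then ((Equiv.Perm.sign π : ℤ) : R)
      else 0) = EUL_D R s x y - EUL_D R s y x := by
  let A : Matrix (Fin 3) (Fin 3) R :=
    Matrix.of fun i j => ![1, if s i = x then 1 else 0, if s i = y then 1 else 0] j
  have h1 : A.det = ∑ π : Equiv.Perm (Fin 3),
      (if s (π 1) = x ∧ s (π 2) = y then ((Equiv.Perm.sign π : ℤ) : R) else 0) := by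
    rw [Matrix.det_apply']
    refine Finset.sum_congr rfl fun π _ => ?_
    rw [Fin.prod_univ_three]
    show ((Equiv.Perm.sign π : ℤ) : R) *
      (1 * (if s (π 1) = x then (1 : R) else 0) * (if s (π 2) = y then (1 : R) else 0)) = _
    by_cases ha : s (π 1) = x <;> by_cases hb : s (π 2) = y <;> simp [ha, hb]
  rw [← h1, Matrix.det_fin_three]
  simp only [EUL_D, EUL_and]
  show (1 : R) * (if s 1 = x then (1 : R) else 0) * (if s 2 = y then (1 : R) else 0) -
      1 * (if s 1 = y then (1 : R) else 0) * (if s 2 = x then (1 : R) else 0) -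
      (if s 0 = x then (1 : R) else 0) * 1 * (if s 2 = y then (1 : R) else 0) +
      (if s 0 = x then (1 : R) else 0) * (if s 1 = y then (1 : R) else 0) * 1 +
      (if s 0 = y then (1 : R) else 0) * 1 * (if s 2 = x then (1 : R) else 0) -
      (if s 0 = y then (1 : R) else 0) * (if s 1 = x then (1 : R) else 0) * 1 = _
  ring

/-- the alternating functions -/
def EUL_Alt (T : Finset (Fin 3 → X)) (ζ : (Fin 3 → X) → R) : Prop :=
  ∀ t ∈ T, ∀ π : Equiv.Perm (Fin 3), ζ (t ∘ π) = ((Equiv.Perm.sign π : ℤ) : R) * ζ t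

theorem EUL_bd (T : Finset (Fin 3 → X)) (hinj : ∀ t ∈ T, Function.Injective t)
    (hperm : ∀ t ∈ T, ∀ π : Equiv.Perm (Fin 3), t ∘ π ∈ T) (ζ : (Fin 3 → X) → R)
    (hζ : EUL_Alt T ζ) (x y : X) :
    ∑ t ∈ T, (if t 1 = x ∧ t 2 = y then ζ t else 0) =
      ∑ s ∈ EUL_S T, (EUL_D R s x y - EUL_D R s y x) * ζ s := by
  rw [EUL_sum T hinj hperm]
  refine Finset.sum_congr rfl fun s hs => ?_
  have hs' := ((EUL_mem T s).1 hs).1
  rw [← EUL_det, Finset.sum_mul]
  refine Finset.sum_congr rfl fun π _ => ?_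
  rw [hζ s hs' π]
  show (if s (π 1) = x ∧ s (π 2) = y then _ else _) = _
  split_ifs
  · rfl
  · rw [zero_mul]

theorem EUL_D0 {s : Fin 3 → X} (hs : StrictMono s) {x y : X} (h : x < y) :
    EUL_D R s y x = 0 := by
  have h01 : s 0 < s 1 := hs (by decide)
  have h12 : s 1 < s 2 := hs (by decide)
  have h02 : s 0 < s 2 := hs (by decide)
  unfold EUL_D
  rw [if_neg, if_neg, if_neg]
  · ring
  · rintro ⟨h1, h2⟩
    rw [← h1, ← h2] at h
    exact lt_asymm h h01
  · rintro ⟨h1, h2⟩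
    rw [← h1, ← h2] at h
    exact lt_asymm h h02
  · rintro ⟨h1, h2⟩
    rw [← h1, ← h2] at h
    exact lt_asymm h h12

/-- extension of a function on the increasing triangles to an alternating function -/
noncomputable def EUL_ext (T : Finset (Fin 3 → X)) (ζ : {s // s ∈ EUL_S T} → R)
    (t : Fin 3 → X) : R :=
  if h : t ∘ Tuple.sort t ∈ EUL_S T then
    ((Equiv.Perm.sign (Tuple.sort t) : ℤ) : R) * ζ ⟨_, h⟩ else 0

theorem EUL_ext_S (T : Finset (Fin 3 → X)) (ζ : {s // s ∈ EUL_S T} → R)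
    (s : {s // s ∈ EUL_S T}) : EUL_ext T ζ s.1 = ζ s := by
  obtain ⟨s, hs⟩ := s
  have h1 := (EUL_mem T s).1 hs
  have h2 : Tuple.sort s = Equiv.refl _ := Tuple.sort_eq_refl_iff_monotone.2 h1.2.monotone
  have h3 : s ∘ Tuple.sort s = s := by rw [h2]; rfl
  unfold EUL_ext
  show (if h : s ∘ Tuple.sort s ∈ EUL_S T then _ else _) = _
  rw [dif_pos (by rw [h3]; exact hs)]
  have h4 : (⟨s ∘ Tuple.sort s, by rw [h3]; exact hs⟩ : {s // s ∈ EUL_S T}) = ⟨s, hs⟩ :=
    Subtype.ext h3
  rw [h4, h2]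
  simp

theorem EUL_ext_alt (T : Finset (Fin 3 → X)) (hinj : ∀ t ∈ T, Function.Injective t)
    (ζ : {s // s ∈ EUL_S T} → R) : EUL_Alt T (EUL_ext T ζ) := by
  intro t ht π
  have h1 : (t ∘ π) ∘ Tuple.sort (t ∘ π) = t ∘ Tuple.sort t :=
    Tuple.comp_perm_comp_sort_eq_comp_sort
  have h2 : π * Tuple.sort (t ∘ π) = Tuple.sort t := EUL_inj (hinj t ht) h1
  have h3 : Equiv.Perm.sign (Tuple.sort (t ∘ π)) =
      Equiv.Perm.sign π * Equiv.Perm.sign (Tuple.sort t) := by
    rw [← h2, Equiv.Perm.sign_mul, ← mul_assoc, Int.units_mul_self, one_mul]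
  unfold EUL_ext
  by_cases h : t ∘ Tuple.sort t ∈ EUL_S T
  · have h' : (t ∘ π) ∘ Tuple.sort (t ∘ π) ∈ EUL_S T := by rw [h1]; exact h
    rw [dif_pos h, dif_pos h', h3]
    have h4 : (⟨(t ∘ π) ∘ Tuple.sort (t ∘ π), h'⟩ : {s // s ∈ EUL_S T}) =
        ⟨t ∘ Tuple.sort t, h⟩ := Subtype.ext h1
    rw [h4]
    push_cast
    ring
  · have h' : ¬ (t ∘ π) ∘ Tuple.sort (t ∘ π) ∈ EUL_S T := by rw [h1]; exact h
    rw [dif_neg h, dif_neg h', mul_zero]

/-- alternating extension of a function on increasing edges -/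
noncomputable def EUL_c (F : Finset (X × X)) (g : {p // p ∈ F} → R) (r : Fin 2 → X) : R :=
  (if h : (r 0, r 1) ∈ F then g ⟨_, h⟩ else 0) - (if h : (r 1, r 0) ∈ F then g ⟨_, h⟩ else 0)

theorem EUL_core (T : Finset (Fin 3 → X)) (V : Finset X) (E : Finset (X × X))
    (hV : ∀ x, x ∈ V ↔ ∃ t ∈ T, ∃ i, t i = x)
    (hE : ∀ p : X × X, p ∈ E ↔ ∃ t ∈ T, ∃ i j, i ≠ j ∧ (t i, t j) = p)
    (hinj : ∀ t ∈ T, Function.Injective t)
    (hperm : ∀ t ∈ T, ∀ π : Equiv.Perm (Fin 3), t ∘ π ∈ T) (hne : T.Nonempty)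
    (conn : ∀ D : X → R, (∀ t ∈ T, ∀ a b, D (t a) = D (t b)) →
      ∀ t ∈ T, ∀ t' ∈ T, ∀ a b, D (t a) = D (t' b))
    (H1 : ∀ c : (Fin 2 → X) → R,
      (∀ t ∈ T, ∀ α : Fin 3 → Fin 3, ∑ j : Fin 3, (-1) ^ (j : ℕ) * c ((t ∘ α) ∘ j.succAbove) = 0) →
      ∃ b : (Fin 1 → X) → R, ∀ t ∈ T, ∀ α : Fin 2 → Fin 3,
        c (t ∘ α) = ∑ j : Fin 2, (-1) ^ (j : ℕ) * b ((t ∘ α) ∘ j.succAbove))
    (ε : (Fin 3 → X) → R) (hε : ∀ t ∈ T, ε t ≠ 0) (hεalt : EUL_Alt T ε)
    (hεcyc : ∀ x y : X, ∑ t ∈ T, (if t 1 = x ∧ t 2 = y then ε t else 0) = 0)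
    (Z2 : ∀ ζ : (Fin 3 → X) → R, EUL_Alt T ζ →
      (∀ x y : X, ∑ t ∈ T, (if t 1 = x ∧ t 2 = y then ζ t else 0) = 0) →
      ∃ l : R, ∀ t ∈ T, ζ t = l * ε t) :
    6 * V.card + T.card = 3 * E.card + 12 := by
  classical
  -- orientation of the edges
  obtain ⟨F, hF⟩ : ∃ F : Finset (X × X), F = E.filter (fun p => p.1 < p.2) := ⟨_, rfl⟩
  have memF : ∀ p : X × X, p ∈ F ↔ p ∈ E ∧ p.1 < p.2 := fun p => by rw [hF, mem_filter]
  have EV1 : ∀ p ∈ E, p.1 ∈ V := by
    intro p hp
    obtain ⟨t, ht, i, j, -, rfl⟩ := (hE p).1 hp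
    exact (hV _).2 ⟨t, ht, i, rfl⟩
  have EV2 : ∀ p ∈ E, p.2 ∈ V := by
    intro p hp
    obtain ⟨t, ht, i, j, -, rfl⟩ := (hE p).1 hp
    exact (hV _).2 ⟨t, ht, j, rfl⟩
  have Ene : ∀ p ∈ E, p.1 ≠ p.2 := by
    intro p hp
    obtain ⟨t, ht, i, j, hij, rfl⟩ := (hE p).1 hp
    exact fun h => hij (hinj t ht h)
  have Esw : ∀ p ∈ E, p.swap ∈ E := by
    intro p hp
    obtain ⟨t, ht, i, j, hij, rfl⟩ := (hE p).1 hp
    exact (hE _).2 ⟨t, ht, j, i, hij.symm, rfl⟩
  -- cardinalities
  have cT : T.card = 6 * (EUL_S T).card := by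
    have h := EUL_sum T hinj hperm (fun _ => (1 : ℕ))
    rw [Finset.sum_const, smul_eq_mul, mul_one] at h
    rw [h]
    simp only [Finset.sum_const, smul_eq_mul, mul_one, Finset.card_univ, Fintype.card_perm,
      Fintype.card_fin]
    rw [mul_comm]
    rfl
  have cE : E.card = 2 * F.card := by
    have h1 := Finset.card_filter_add_card_filter_not (s := E) (fun p : X × X => p.1 < p.2)
    have h2 : (E.filter (fun p : X × X => ¬ p.1 < p.2)).card = F.card := by
      refine Finset.card_bij' (fun p _ => p.swap) (fun p _ => p.swap) ?_ ?_ ?_ ?_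
      · intro p hp
        rw [mem_filter] at hp
        rw [memF]
        exact ⟨Esw p hp.1, lt_of_le_of_ne (not_lt.1 hp.2) (Ene p hp.1).symm⟩
      · intro p hp
        rw [memF] at hp
        rw [mem_filter]
        exact ⟨Esw p hp.1, not_lt.2 hp.2.le⟩
      · intro p _
        exact Prod.swap_swap p
      · intro p _
        exact Prod.swap_swap p
    rw [← hF, h2] at h1
    omega
  -- faces of the increasing triangles
  have fc : ∀ s ∈ EUL_S T, ∀ i j : Fin 3, i < j → (s i, s j) ∈ F := by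
    intro s hs i j hij
    have h1 := (EUL_mem T s).1 hs
    exact (memF _).2 ⟨(hE _).2 ⟨s, h1.1, i, j, hij.ne, rfl⟩, h1.2 hij⟩
  let M : Matrix {s // s ∈ EUL_S T} {p // p ∈ F} R := fun s p => EUL_D R s.1 p.1.1 p.1.2
  let N : Matrix {p // p ∈ F} {v // v ∈ V} R := fun p v =>
    (if p.1.2 = v.1 then 1 else 0) - (if p.1.1 = v.1 then 1 else 0)
  have hN : ∀ (f : {v // v ∈ V} → R) (p : {p // p ∈ F}), N.mulVec f p =
      f ⟨p.1.2, EV2 _ ((memF _).1 p.2).1⟩ - f ⟨p.1.1, EV1 _ ((memF _).1 p.2).1⟩ := by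
    intro f p
    show ∑ v, N p v * f v = _
    simp only [N, sub_mul, Finset.sum_sub_distrib, ite_mul, one_mul, zero_mul]
    rw [Finset.sum_eq_single (⟨p.1.2, EV2 _ ((memF _).1 p.2).1⟩ : {v // v ∈ V}),
      Finset.sum_eq_single (⟨p.1.1, EV1 _ ((memF _).1 p.2).1⟩ : {v // v ∈ V}), if_pos rfl,
      if_pos rfl]
    · intro v _ hv
      rw [if_neg]
      intro h
      exact hv (Subtype.ext h.symm)
    · intro h
      exact absurd (mem_univ _) h
    · intro v _ hv
      rw [if_neg]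
      intro h
      exact hv (Subtype.ext h.symm)
    · intro h
      exact absurd (mem_univ _) h
  have one : ∀ (g : {p // p ∈ F} → R) (a b : X) (h : (a, b) ∈ F),
      ∑ p : {p // p ∈ F}, (if a = p.1.1 ∧ b = p.1.2 then (1 : R) else 0) * g p = g ⟨(a, b), h⟩ := by
    intro g a b h
    rw [Finset.sum_eq_single (⟨(a, b), h⟩ : {p // p ∈ F}), if_pos ⟨rfl, rfl⟩, one_mul]
    · intro p _ hp
      rw [if_neg, zero_mul]
      rintro ⟨h1, h2⟩
      exact hp (Subtype.ext (Prod.ext h1.symm h2.symm))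
    · intro h
      exact absurd (mem_univ _) h
  have hM : ∀ (g : {p // p ∈ F} → R) (s : {s // s ∈ EUL_S T}), M.mulVec g s =
      g ⟨(s.1 1, s.1 2), fc _ s.2 _ _ (by decide)⟩ - g ⟨(s.1 0, s.1 2), fc _ s.2 _ _ (by decide)⟩ +
        g ⟨(s.1 0, s.1 1), fc _ s.2 _ _ (by decide)⟩ := by
    intro g s
    show ∑ p, M s p * g p = _
    simp only [M, EUL_D, sub_mul, add_mul, Finset.sum_sub_distrib, Finset.sum_add_distrib]
    rw [one g _ _ (fc _ s.2 1 2 (by decide)), one g _ _ (fc _ s.2 0 2 (by decide)),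
      one g _ _ (fc _ s.2 0 1 (by decide))]
  -- the kernel of N
  obtain ⟨t0, ht0⟩ := hne
  have kN : Module.finrank R (LinearMap.ker N.mulVecLin) = 1 := by
    rw [finrank_eq_one_iff']
    refine ⟨⟨fun _ => 1, ?_⟩, ?_, ?_⟩
    · rw [LinearMap.mem_ker]
      funext p
      rw [Matrix.mulVecLin_apply, hN]
      simp
    · intro h
      have h1 := congrFun (congrArg Subtype.val h) ⟨t0 0, (hV _).2 ⟨t0, ht0, 0, rfl⟩⟩
      simp at h1
    · rintro ⟨f, hf⟩
      rw [LinearMap.mem_ker] at hf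
      have hf' : ∀ p : {p // p ∈ F}, f ⟨p.1.2, EV2 _ ((memF _).1 p.2).1⟩ =
          f ⟨p.1.1, EV1 _ ((memF _).1 p.2).1⟩ := by
        intro p
        have h := congrFun hf p
        rw [Matrix.mulVecLin_apply, hN] at h
        exact sub_eq_zero.1 h
      obtain ⟨D, hD⟩ : ∃ D : X → R, ∀ v : {v // v ∈ V}, D v.1 = f v :=
        ⟨fun x => if h : x ∈ V then f ⟨x, h⟩ else 0, fun v => dif_pos v.2⟩
      have hD1 : ∀ t ∈ T, ∀ a b, t a < t b → D (t a) = D (t b) := by
        intro t ht a b hab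
        have hab' : a ≠ b := by
          rintro rfl
          exact lt_irrefl _ hab
        have hp : (t a, t b) ∈ F := (memF _).2 ⟨(hE _).2 ⟨t, ht, a, b, hab', rfl⟩, hab⟩
        have h1 := hf' ⟨_, hp⟩
        rw [← hD, ← hD] at h1
        exact h1.symm
      have hD2 : ∀ t ∈ T, ∀ a b, D (t a) = D (t b) := by
        intro t ht a b
        rcases lt_trichotomy (t a) (t b) with h | h | h
        · exact hD1 t ht a b h
        · rw [h]
        · exact (hD1 t ht b a h).symm
      refine ⟨D (t0 0), ?_⟩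
      apply Subtype.ext
      funext v
      obtain ⟨t, ht, i, hi⟩ := (hV _).1 v.2
      show D (t0 0) * 1 = f v
      rw [mul_one, ← hD, ← hi]
      exact conn D hD2 t0 ht0 t ht 0 i
  -- exactness in the middle
  have ex : LinearMap.ker M.mulVecLin = LinearMap.range N.mulVecLin := by
    apply le_antisymm
    · intro g hg
      rw [LinearMap.mem_ker] at hg
      have hg' : ∀ s : {s // s ∈ EUL_S T},
          g ⟨(s.1 1, s.1 2), fc _ s.2 _ _ (by decide)⟩ -
            g ⟨(s.1 0, s.1 2), fc _ s.2 _ _ (by decide)⟩ +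
            g ⟨(s.1 0, s.1 1), fc _ s.2 _ _ (by decide)⟩ = 0 := by
        intro s
        have h := congrFun hg s
        rw [Matrix.mulVecLin_apply, hM] at h
        exact h
      have c1 : ∀ r : Fin 2 → X, ∀ h : (r 0, r 1) ∈ F, EUL_c F g r = g ⟨(r 0, r 1), h⟩ := by
        intro r h
        unfold EUL_c
        rw [dif_pos h, dif_neg, sub_zero]
        intro h'
        exact lt_asymm ((memF _).1 h).2 ((memF _).1 h').2
      have csw : ∀ x y : X, EUL_c F g ![x, y] = - EUL_c F g ![y, x] := by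
        intro x y
        unfold EUL_c
        simp only [Matrix.cons_val_zero, Matrix.cons_val_one]
        ring
      have pot : ∀ t ∈ T, ∃ P : Fin 3 → R, ∀ i j, EUL_c F g ![t i, t j] = P j - P i := by
        intro t ht
        -- sorted version
        have hs : t ∘ Tuple.sort t ∈ EUL_S T :=
          (EUL_mem T _).2 ⟨hperm t ht _, EUL_sorted (hinj t ht)⟩
        obtain ⟨s, hs'⟩ : ∃ s, s = t ∘ Tuple.sort t := ⟨_, rfl⟩
        rw [← hs'] at hs
        have r1 := hg' ⟨s, hs⟩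
        have e01 : EUL_c F g ![s 0, s 1] = g ⟨(s 0, s 1), fc s hs _ _ (by decide)⟩ :=
          c1 ![s 0, s 1] (fc s hs _ _ (by decide))
        have e02 : EUL_c F g ![s 0, s 2] = g ⟨(s 0, s 2), fc s hs _ _ (by decide)⟩ :=
          c1 ![s 0, s 2] (fc s hs _ _ (by decide))
        have e12 : EUL_c F g ![s 1, s 2] = g ⟨(s 1, s 2), fc s hs _ _ (by decide)⟩ :=
          c1 ![s 1, s 2] (fc s hs _ _ (by decide))
        simp only at r1
        rw [← e01, ← e02, ← e12] at r1
        have dg : ∀ x, EUL_c F g ![x, x] = 0 := by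
          intro x
          unfold EUL_c
          simp
        have key : ∀ i j, EUL_c F g ![s i, s j] = EUL_c F g ![s 0, s j] - EUL_c F g ![s 0, s i] := by
          intro i j
          fin_cases i <;> fin_cases j
          · show EUL_c F g ![s 0, s 0] = EUL_c F g ![s 0, s 0] - EUL_c F g ![s 0, s 0]
            rw [dg]; ring
          · show EUL_c F g ![s 0, s 1] = EUL_c F g ![s 0, s 1] - EUL_c F g ![s 0, s 0]
            rw [dg]; ring
          · show EUL_c F g ![s 0, s 2] = EUL_c F g ![s 0, s 2] - EUL_c F g ![s 0, s 0]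
            rw [dg]; ring
          · show EUL_c F g ![s 1, s 0] = EUL_c F g ![s 0, s 0] - EUL_c F g ![s 0, s 1]
            rw [dg, csw]; ring
          · show EUL_c F g ![s 1, s 1] = EUL_c F g ![s 0, s 1] - EUL_c F g ![s 0, s 1]
            rw [dg]; ring
          · show EUL_c F g ![s 1, s 2] = EUL_c F g ![s 0, s 2] - EUL_c F g ![s 0, s 1]
            linear_combination r1
          · show EUL_c F g ![s 2, s 0] = EUL_c F g ![s 0, s 0] - EUL_c F g ![s 0, s 2]
            rw [dg, csw]; ring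
          · show EUL_c F g ![s 2, s 1] = EUL_c F g ![s 0, s 1] - EUL_c F g ![s 0, s 2]
            rw [csw (s 2) (s 1)]
            linear_combination -r1
          · show EUL_c F g ![s 2, s 2] = EUL_c F g ![s 0, s 2] - EUL_c F g ![s 0, s 2]
            rw [dg]; ring
        refine ⟨fun i => EUL_c F g ![s 0, t i], fun i j => ?_⟩
        have h3 : ∀ i, t i = s ((Tuple.sort t).symm i) := by
          intro i
          rw [hs']
          simp
        simp only [h3 i, h3 j]
        exact key _ _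
      obtain ⟨b, hb⟩ := H1 (EUL_c F g) (by
        intro t ht α
        obtain ⟨P, hP⟩ := pot t ht
        rw [Fin.sum_univ_three]
        have a0 : (t ∘ α) ∘ (0 : Fin 3).succAbove = ![t (α 1), t (α 2)] := by
          funext i
          fin_cases i <;> rfl
        have a1 : (t ∘ α) ∘ (1 : Fin 3).succAbove = ![t (α 0), t (α 2)] := by
          funext i
          fin_cases i <;> rfl
        have a2 : (t ∘ α) ∘ (2 : Fin 3).succAbove = ![t (α 0), t (α 1)] := by
          funext i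
          fin_cases i <;> rfl
        rw [a0, a1, a2, hP, hP, hP]
        simp)
      refine ⟨fun v => b (fun _ => v.1), ?_⟩
      funext p
      rw [Matrix.mulVecLin_apply, hN]
      obtain ⟨t, ht, i, j, hij, e⟩ := (hE _).1 ((memF _).1 p.2).1
      have h5 := hb t ht ![i, j]
      have h6 : t ∘ ![i, j] = ![p.1.1, p.1.2] := by
        funext k
        fin_cases k
        · exact congrArg Prod.fst e
        · exact congrArg Prod.snd e
      rw [h6, Fin.sum_univ_two] at h5
      have b0 : (![p.1.1, p.1.2] : Fin 2 → X) ∘ (0 : Fin 2).succAbove = fun _ => p.1.2 := by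
        funext k
        fin_cases k
        rfl
      have b1 : (![p.1.1, p.1.2] : Fin 2 → X) ∘ (1 : Fin 2).succAbove = fun _ => p.1.1 := by
        funext k
        fin_cases k
        rfl
      rw [b0, b1, c1 ![p.1.1, p.1.2] p.2] at h5
      have h7 : g p = b (fun _ => p.1.2) - b (fun _ => p.1.1) := by
        have h8 : g p = g ⟨(p.1.1, p.1.2), p.2⟩ := rfl
        rw [h8]
        refine h5.trans ?_
        simp
        ring
      exact h7.symm
    · rintro _ ⟨f, rfl⟩
      rw [LinearMap.mem_ker]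
      funext s
      rw [Matrix.mulVecLin_apply, hM, Matrix.mulVecLin_apply, hN, hN, hN]
      show _ = (0 : R)
      ring
  -- the kernel of the transpose
  have hMt : ∀ (ζ : {s // s ∈ EUL_S T} → R) (p : {p // p ∈ F}),
      M.transpose.mulVec ζ p = ∑ s : {s // s ∈ EUL_S T}, EUL_D R s.1 p.1.1 p.1.2 * ζ s := by
    intro ζ p
    rfl
  have att : ∀ φ : (Fin 3 → X) → R, ∑ s : {s // s ∈ EUL_S T}, φ s.1 = ∑ s ∈ EUL_S T, φ s := by
    intro φ
    exact Finset.sum_coe_sort (EUL_S T) φ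
  have t0S : t0 ∘ Tuple.sort t0 ∈ EUL_S T :=
    (EUL_mem T _).2 ⟨hperm t0 ht0 _, EUL_sorted (hinj t0 ht0)⟩
  have kM : Module.finrank R (LinearMap.ker M.transpose.mulVecLin) = 1 := by
    rw [finrank_eq_one_iff']
    refine ⟨⟨fun s => ε s.1, ?_⟩, ?_, ?_⟩
    · rw [LinearMap.mem_ker]
      funext p
      rw [Matrix.mulVecLin_apply, hMt, att (fun s => EUL_D R s p.1.1 p.1.2 * ε s)]
      have h1 := EUL_bd T hinj hperm ε hεalt p.1.1 p.1.2
      rw [hεcyc] at h1
      show _ = (0 : R)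
      rw [h1]
      refine Finset.sum_congr rfl fun s hs => ?_
      rw [EUL_D0 ((EUL_mem T s).1 hs).2 ((memF _).1 p.2).2, sub_zero]
    · intro h
      have h1 := congrFun (congrArg Subtype.val h) ⟨_, t0S⟩
      exact hε _ ((EUL_mem T _).1 t0S).1 h1
    · rintro ⟨ζ, hζ⟩
      rw [LinearMap.mem_ker] at hζ
      have hz : ∀ x y : X, x < y → ∑ s ∈ EUL_S T, EUL_D R s x y * EUL_ext T ζ s = 0 := by
        intro x y hxy
        by_cases hp : (x, y) ∈ F
        · have h1 := congrFun hζ ⟨_, hp⟩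
          rw [Matrix.mulVecLin_apply, hMt] at h1
          rw [← att (fun s => EUL_D R s x y * EUL_ext T ζ s)]
          simp only [EUL_ext_S]
          exact h1
        · refine Finset.sum_eq_zero fun s hs => ?_
          have h2 : EUL_D R s x y = 0 := by
            unfold EUL_D
            rw [if_neg, if_neg, if_neg]
            · ring
            · rintro ⟨h1, h2⟩
              apply hp
              rw [← h1, ← h2]
              exact fc s hs _ _ (by decide)
            · rintro ⟨h1, h2⟩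
              apply hp
              rw [← h1, ← h2]
              exact fc s hs _ _ (by decide)
            · rintro ⟨h1, h2⟩
              apply hp
              rw [← h1, ← h2]
              exact fc s hs _ _ (by decide)
          rw [h2, zero_mul]
      have hz2 : ∀ x y : X, x < y →
          ∑ s ∈ EUL_S T, (EUL_D R s x y - EUL_D R s y x) * EUL_ext T ζ s = 0 := by
        intro x y hxy
        rw [← hz x y hxy]
        refine Finset.sum_congr rfl fun s hs => ?_
        rw [EUL_D0 ((EUL_mem T s).1 hs).2 hxy, sub_zero]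
      have hz3 : ∀ x y : X,
          ∑ s ∈ EUL_S T, (EUL_D R s x y - EUL_D R s y x) * EUL_ext T ζ s = 0 := by
        intro x y
        rcases lt_trichotomy x y with h | h | h
        · exact hz2 x y h
        · subst h
          refine Finset.sum_eq_zero fun s _ => ?_
          rw [sub_self, zero_mul]
        · rw [← neg_eq_zero, ← Finset.sum_neg_distrib, ← hz2 y x h]
          refine Finset.sum_congr rfl fun s _ => ?_
          ring
      obtain ⟨l, hl⟩ := Z2 (EUL_ext T ζ) (EUL_ext_alt T hinj ζ) (by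
        intro x y
        rw [EUL_bd T hinj hperm _ (EUL_ext_alt T hinj ζ), hz3])
      refine ⟨l, ?_⟩
      apply Subtype.ext
      funext s
      have h1 := hl s.1 ((EUL_mem T _).1 s.2).1
      rw [EUL_ext_S] at h1
      exact h1.symm
  -- counting
  have d1 := LinearMap.finrank_range_add_finrank_ker N.mulVecLin
  have d2 := LinearMap.finrank_range_add_finrank_ker M.mulVecLin
  have d3 := LinearMap.finrank_range_add_finrank_ker M.transpose.mulVecLin
  have d4 : Module.finrank R (LinearMap.range M.transpose.mulVecLin) =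
      Module.finrank R (LinearMap.range M.mulVecLin) := Matrix.rank_transpose M
  rw [kN] at d1
  rw [ex] at d2
  rw [kM, d4] at d3
  rw [Module.finrank_fintype_fun_eq_card, Fintype.card_coe] at d1 d2 d3
  rw [cT, cE]
  omega

end EULaux

open Classical in
theorem euler_char {X R : Type*} [Field R] (hR : (6 : R) ≠ 0) (T : Finset (Fin 3 → X))
    (hinj : ∀ t ∈ T, Function.Injective t)
    (hperm : ∀ t ∈ T, ∀ π : Equiv.Perm (Fin 3), t ∘ π ∈ T) (hne : T.Nonempty)
    (conn : ∀ D : X → R, (∀ t ∈ T, ∀ a b, D (t a) = D (t b)) →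
      ∀ t ∈ T, ∀ t' ∈ T, ∀ a b, D (t a) = D (t' b))
    (H1 : ∀ c : (Fin 2 → X) → R,
      (∀ t ∈ T, ∀ α : Fin 3 → Fin 3, ∑ j : Fin 3, (-1) ^ (j : ℕ) * c ((t ∘ α) ∘ j.succAbove) = 0) →
      ∃ b : (Fin 1 → X) → R, ∀ t ∈ T, ∀ α : Fin 2 → Fin 3,
        c (t ∘ α) = ∑ j : Fin 2, (-1) ^ (j : ℕ) * b ((t ∘ α) ∘ j.succAbove))
    (ε : (Fin 3 → X) → R) (hε : ∀ t ∈ T, ε t ≠ 0)
    (hεalt : ∀ t ∈ T, ∀ π : Equiv.Perm (Fin 3), ε (t ∘ π) = ((Equiv.Perm.sign π : ℤ) : R) * ε t)
    (hεcyc : ∀ r : Fin 2 → X, ∑ t ∈ T.filter (fun t => (fun i : Fin 2 => t i.succ) = r), ε t = 0)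
    (Z2 : ∀ ζ : (Fin 3 → X) → R,
      (∀ t ∈ T, ∀ π : Equiv.Perm (Fin 3), ζ (t ∘ π) = ((Equiv.Perm.sign π : ℤ) : R) * ζ t) →
      (∀ r : Fin 2 → X, ∑ t ∈ T.filter (fun t => (fun i : Fin 2 => t i.succ) = r), ζ t = 0) →
      ∃ l : R, ∀ t ∈ T, ζ t = l * ε t) :
    6 * (T.biUnion fun t => univ.image t).card + T.card =
      3 * (T.biUnion fun t => (univ.filter (fun p : Fin 3 × Fin 3 => p.1 ≠ p.2)).image
        (fun p => (t p.1, t p.2))).card + 12 := by
  classical
  let _ : LinearOrder X := linearOrderOfSTO (WellOrderingRel (α := X))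
  refine EUL_core T _ _ ?_ ?_ hinj hperm hne conn H1 ε hε hεalt ?_ ?_
  · intro x
    simp only [mem_biUnion, mem_image, mem_univ, true_and]
  · intro p
    simp only [mem_biUnion, mem_image, mem_filter, mem_univ, true_and, Prod.exists]
  · intro x y
    have h := hεcyc ![x, y]
    rw [Finset.sum_filter] at h
    refine Eq.trans ?_ h
    refine Finset.sum_congr rfl fun t _ => ?_
    have e : (t 1 = x ∧ t 2 = y) ↔ (fun i : Fin 2 => t i.succ) = ![x, y] := by
      constructor
      · rintro ⟨h1, h2⟩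
        funext k
        fin_cases k
        · exact h1
        · exact h2
      · intro h
        exact ⟨congrFun h 0, congrFun h 1⟩
    by_cases h1 : t 1 = x ∧ t 2 = y
    · rw [if_pos h1, if_pos (e.1 h1)]
    · rw [if_neg h1, if_neg (fun h2 => h1 (e.2 h2))]
  · intro ζ halt hcyc
    refine Z2 ζ halt ?_
    intro r
    rw [Finset.sum_filter]
    refine Eq.trans ?_ (hcyc (r 0) (r 1))
    refine Finset.sum_congr rfl fun t _ => ?_
    have e : (t 1 = r 0 ∧ t 2 = r 1) ↔ (fun i : Fin 2 => t i.succ) = r := by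
      constructor
      · rintro ⟨h1, h2⟩
        funext k
        fin_cases k
        · exact h1
        · exact h2
      · intro h
        exact ⟨congrFun h 0, congrFun h 1⟩
    by_cases h1 : t 1 = r 0 ∧ t 2 = r 1
    · rw [if_pos h1, if_pos (e.1 h1)]
    · rw [if_neg h1, if_neg (fun h2 => h1 (e.2 h2))]

end Pool.H54.UB

end S_EUL

section S_FG

/-!
# Row FG: dimension 2

* `til_euler`: `euler_char` for `T' = tilT c (K.tops 2)`, `R = ℚ`: `hinj` (the first components are
  injective), `til_perm`, `ne`; `conn`: for `D : F × Q → ℚ` constant on the tuples of `T'` and a fixed vertex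
  `w₀`, apply `CCov.conn` to `D' v q = if D (v, q) = D w₀ then 1 else 0`; `H1` is `Acyc` for `i = 1`;
  `ε' u = ε (fst ∘ u)` cast to `ℚ`, not zero by `Ori.sign`; `hεcyc`: for given `r` the tuples `t ∈ T'` with
  `t ∘ succ = r` are `cons u r`, `cons v r` of `til_two` (or there are none), the sum is `0`;
  `Z2`: `cycle_unique` with `til_two`, `til_strong`; its hypothesis `hζc` follows by summing over the fibres of
  `t ↦ t ∘ succ`.
* `main_two`: `f₀ : S^2 → M` from `hu` (`sphere_manifold`, `sphere_connected`, `sphere_qtriv`,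
  `orientable_of_qtriv`), `brc_family` with `Y = ∅`, `triang`, `GC.orientation`, `ccov_pi1`,
  `lprim_exists`, `cover_acyclic` with `R = ℚ`, `(k : ℚ) ≠ 0`.  `til_euler` for `Q = π₁` and `c`; and for
  `Multiplicative Unit` and the trivial cocycle (`ccov_unit`; `LPrim` with `g = 1` is trivial).  With
  `til_counts` for both: `l * (6 V + T) = 3 l E + 12` and `6 V + T = 3 E + 12` (numbers of `K`), so
  `12 l = 12`, `l = 1`, `2 * 1 ≤ k`.
-/

open Set Topology

namespace Pool.H54.UB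

theorem FG_lift {F : Type*} [NormedAddCommGroup F] [NormedSpace ℝ F] {m : ℕ} {K : GC F}
    {Q : Type*} [Group Q] [Fintype Q] {c : F → F → Q} (hc : CCov m K Q c) {t : Fin (m + 1) → F}
    (ht : t ∈ K.tops m) (i : Fin (m + 1)) (q : Q) :
    (fun k => (t k, q * c (t i) (t k))) ∈ tilT c (K.tops m) := by
  rw [mem_tilT hc.coc]
  refine ⟨ht, fun j k => ?_⟩
  change q * c (t i) (t k) = q * c (t i) (t j) * c (t j) (t k)
  rw [mul_assoc, hc.coc t ht]

open Classical Finset in
theorem til_euler {F : Type*} [NormedAddCommGroup F] [NormedSpace ℝ F] [FiniteDimensional ℝ F]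
    {M : Set F} (hM : IsClosedPLManifold 2 M) {K : GC F} (hK : K.space = M) {Q : Type*} [Group Q]
    [Fintype Q] {c : F → F → Q} (hc : CCov 2 K Q c) {ε : (Fin 3 → F) → ℤ} (hε : Ori 2 K ε)
    (ha : Acyc 2 (tilT c (K.tops 2)) ℚ) :
    6 * ((tilT c (K.tops 2)).biUnion fun t => Finset.univ.image t).card + (tilT c (K.tops 2)).card =
      3 * ((tilT c (K.tops 2)).biUnion fun t =>
        (Finset.univ.filter (fun p : Fin 3 × Fin 3 => p.1 ≠ p.2)).image
        (fun p => (t p.1, t p.2))).card + 12 := by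
  have hmem : ∀ u ∈ tilT c (K.tops 2), (fun i => (u i).1) ∈ K.tops 2 :=
    fun u hu => ((mem_tilT hc.coc).1 hu).1
  have hne : (tilT c (K.tops 2)).Nonempty := by
    obtain ⟨t, ht⟩ := hc.ne
    exact ⟨_, FG_lift hc ht 0 1⟩
  have hεne : ∀ t ∈ tilT c (K.tops 2), ((ε (fun i => (t i).1) : ℤ) : ℚ) ≠ 0 := by
    intro t ht
    rcases hε.sign _ (hmem t ht) with h | h
    · rw [h]; norm_num
    · rw [h]; norm_num
  have halt : ∀ t ∈ tilT c (K.tops 2), ∀ π : Equiv.Perm (Fin 3),
      ((ε (fun i => ((t ∘ π) i).1) : ℤ) : ℚ) =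
        ((Equiv.Perm.sign π : ℤ) : ℚ) * ((ε (fun i => (t i).1) : ℤ) : ℚ) := by
    intro t ht π
    have h := hε.alt _ (hmem t ht) π
    have h' : ε (fun i => ((t ∘ π) i).1) = (Equiv.Perm.sign π : ℤ) * ε (fun i => (t i).1) := h
    rw [h', Int.cast_mul]
  have htwo : ∀ r : Fin 2 → F × Q, (∃ u, (Fin.cons u r : Fin 3 → F × Q) ∈ tilT c (K.tops 2)) →
      ∃ u v, u ≠ v ∧ (Fin.cons u r : Fin 3 → F × Q) ∈ tilT c (K.tops 2) ∧
        (Fin.cons v r : Fin 3 → F × Q) ∈ tilT c (K.tops 2) ∧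
        (∀ w, (Fin.cons w r : Fin 3 → F × Q) ∈ tilT c (K.tops 2) → w = u ∨ w = v) ∧
        ((ε (fun i => ((Fin.cons u r : Fin 3 → F × Q) i).1) : ℤ) : ℚ) =
          - ((ε (fun i => ((Fin.cons v r : Fin 3 → F × Q) i).1) : ℤ) : ℚ) := by
    intro r hr
    obtain ⟨u, v, h1, h2, h3, h4, h5⟩ := til_two (m := 2) (by norm_num) hc hε r hr
    refine ⟨u, v, h1, h2, h3, h4, ?_⟩
    rw [h5, Int.cast_neg]
  have main := euler_char (R := ℚ) (by norm_num) (tilT c (K.tops 2))
    (fun t ht => Function.Injective.of_comp (f := Prod.fst) (GC.mem_tops.1 (hmem t ht)).1)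
    (til_perm hc) hne ?_ (ha 1 one_pos one_lt_two)
    (fun u => ((ε (fun i => (u i).1) : ℤ) : ℚ)) hεne halt ?_ ?_
  · have e1 : ∀ (s s' : Finset (F × Q)), (∀ x, x ∈ s ↔ x ∈ s') → s.card = s'.card :=
      fun s s' h => congrArg Finset.card (Finset.ext h)
    have e2 : ∀ (s s' : Finset ((F × Q) × (F × Q))), (∀ x, x ∈ s ↔ x ∈ s') → s.card = s'.card :=
      fun s s' h => congrArg Finset.card (Finset.ext h)
    refine (congrArg₂ (fun a b : ℕ => 6 * a + b) (e1 _ _ fun x => ?_) rfl).trans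
      (main.trans (congrArg (fun a : ℕ => 3 * a + 12) (e2 _ _ fun x => ?_)))
    · simp only [Finset.mem_biUnion, Finset.mem_image, Finset.mem_univ, true_and]
    · simp only [Finset.mem_biUnion, Finset.mem_image, Finset.mem_filter]
  · intro D hD t ht t' ht' a b
    have h := hc.conn (fun v q => if D (v, q) = D (t a) then 1 else 0) ?_ _ (hmem t ht) _
      (hmem t' ht') a b (t a).2 (t' b).2
    · have h1 : (if D (t a) = D (t a) then 1 else 0) = if D (t' b) = D (t a) then 1 else 0 := h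
      rw [if_pos rfl] at h1
      by_contra hcon
      rw [if_neg (fun h2 => hcon h2.symm)] at h1
      exact one_ne_zero h1
    · intro s hs i j q
      have h1 := hD _ (FG_lift hc hs i q) i j
      have h2 : c (s i) (s i) = 1 := TIL_self (hc.coc s hs) i
      simp only [h2, mul_one] at h1
      simp only [h1]
  · intro r
    by_cases hr : ∃ u, (Fin.cons u r : Fin 3 → F × Q) ∈ tilT c (K.tops 2)
    · obtain ⟨u, v, huv, hu, hv, hw, he⟩ := htwo r hr
      have h2 : ({(Fin.cons u r : Fin 3 → F × Q), (Fin.cons v r : Fin 3 → F × Q)} :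
          Finset (Fin 3 → F × Q)) =
            (tilT c (K.tops 2)).filter (fun t => (fun i : Fin 2 => t i.succ) = r) := by
        ext t
        simp only [Finset.mem_insert, Finset.mem_singleton, Finset.mem_filter]
        constructor
        · rintro (rfl | rfl)
          · refine ⟨hu, ?_⟩
            funext i
            rw [Fin.cons_succ]
          · refine ⟨hv, ?_⟩
            funext i
            rw [Fin.cons_succ]
        · rintro ⟨ht, hr⟩
          have h3 : t = (Fin.cons (t 0) r : Fin 3 → F × Q) := by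
            rw [← hr]
            exact (Fin.cons_self_tail t).symm
          rw [h3] at ht
          rcases hw _ ht with h4 | h4
          · left
            rw [h3, h4]
          · right
            rw [h3, h4]
      have h3 : (Fin.cons u r : Fin 3 → F × Q) ≠ (Fin.cons v r : Fin 3 → F × Q) := by
        intro h
        exact huv (congrFun h 0)
      have h4 : ∀ (s₁ s₂ : Finset (Fin 3 → F × Q)), s₁ = s₂ →
          ∑ t ∈ s₁, ((ε (fun i => (t i).1) : ℤ) : ℚ) = ∑ t ∈ s₂, ((ε (fun i => (t i).1) : ℤ) : ℚ) := by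
        intro s₁ s₂ h
        rw [h]
      refine (h4 _ _ (Eq.trans (by ext t; simp only [Finset.mem_filter]) h2.symm)).trans ?_
      rw [Finset.sum_pair h3, he]
      ring
    · refine Finset.sum_eq_zero fun t ht' => ?_
      exfalso
      have ht : t ∈ tilT c (K.tops 2) ∧ (fun i : Fin 2 => t i.succ) = r := by
        simpa using ht'
      refine hr ⟨t 0, ?_⟩
      have h3 : t = (Fin.cons (t 0) r : Fin 3 → F × Q) := by
        rw [← ht.2]
        exact (Fin.cons_self_tail t).symm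
      rw [← h3]
      exact ht.1
  · intro ζ hζ hz
    refine cycle_unique (tilT c (K.tops 2)) (til_perm hc) hne
      (fun u => ((ε (fun i => (u i).1) : ℤ) : ℚ)) hεne halt htwo
      (fun P h1 h2 => til_strong (by norm_num) hM hK hc P h1 h2) ζ hζ ?_
    intro φ
    rw [← Finset.sum_fiberwise_of_maps_to (s := tilT c (K.tops 2))
      (t := (tilT c (K.tops 2)).image (fun t => fun i : Fin 2 => t i.succ))
      (g := fun t => fun i : Fin 2 => t i.succ) (fun t ht => Finset.mem_image_of_mem _ ht)]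
    refine Finset.sum_eq_zero fun r _ => ?_
    have h1 : ∀ t ∈ (tilT c (K.tops 2)).filter (fun t => (fun i : Fin 2 => t i.succ) = r),
        ζ t * φ (fun i : Fin 2 => t i.succ) = ζ t * φ r := by
      intro t ht
      rw [Finset.mem_filter] at ht
      rw [ht.2]
    rw [Finset.sum_congr rfl h1, ← Finset.sum_mul]
    have h2 := hz r
    have h3 : ∑ t ∈ (tilT c (K.tops 2)).filter (fun t => (fun i : Fin 2 => t i.succ) = r), ζ t
        = 0 := by
      exact Eq.trans (Finset.sum_congr (by ext t; simp only [Finset.mem_filter]) fun _ _ => rfl) h2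
    rw [h3, zero_mul]

theorem main_two {n k : ℕ} {M : Set (Fin n → ℝ)}
    (hM : IsClosedPLManifold 2 M) (hc : IsConnected M) (ho : IsOrientable 2 M) (x : M)
    [Finite (FundamentalGroup M x)] (hk : 2 ≤ k) (hu : IsUniversalBase 2 k M) :
    2 * Nat.card (FundamentalGroup M x) ≤ k := by
  classical
  have : Fintype (FundamentalGroup M x) := Fintype.ofFinite _
  have hSm := sphere_manifold 2 (by norm_num)
  obtain ⟨f, hf⟩ := hu 3 (Metric.sphere 0 1) hSm (sphere_connected 2 (by norm_num))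
    (orientable_of_qtriv hSm (sphere_qtriv 2 le_rfl ℤˣ))
  obtain ⟨S, G, hG, hG2⟩ := brc_family (by norm_num) hM hf ∅ (by simp)
  obtain ⟨K, hK, hKad⟩ := triang M hM.1 G hG
  obtain ⟨hB, -⟩ := hG2 K hK hKad
  obtain ⟨ε, h1, h2, h3, h4⟩ := GC.orientation (by norm_num) hM ho K hK
  have hε : Ori 2 K ε := ⟨h1, h2, h3, h4⟩
  obtain ⟨c, hcf, hcc⟩ := ccov_pi1 hM hc K hK x
  have hcont : ContinuousOn f (Metric.sphere 0 1) := hf.1.continuousOn
  obtain ⟨g, hg⟩ := lprim_exists (m := 2) hB.adm hcont (sphere_qtriv 2 le_rfl _) c hcf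
  have hk0 : (k : ℚ) ≠ 0 := by
    have : k ≠ 0 := by omega
    exact_mod_cast this
  have ha := cover_acyclic (by norm_num) hB hcc hg ℚ hk0
  have he := til_euler hM hK hcc hε ha
  have hcu := ccov_unit hcc
  have hgu : LPrim 2 K S f (fun _ _ => (1 : Multiplicative Unit)) (fun _ => 1) :=
    fun t _ σ _ i j => Subsingleton.elim _ _
  have hau := cover_acyclic (by norm_num) hB hcu hgu ℚ hk0
  have heu := til_euler hM hK hcu hε hau
  obtain ⟨a1, a2, a3⟩ := til_counts c (K.tops 2) hcc.coc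
  obtain ⟨b1, b2, b3⟩ := til_counts (fun _ _ => (1 : Multiplicative Unit)) (K.tops 2) hcu.coc
  rw [a1, a2, a3] at he
  rw [b1, b2, b3] at heu
  have hone : Fintype.card (Multiplicative Unit) = 1 := Fintype.card_unit
  rw [hone] at heu
  simp only [one_mul] at heu
  rw [Nat.card_eq_fintype_card]
  generalize Fintype.card (FundamentalGroup M x) = l at he ⊢
  have hl : l * 12 = 12 := by
    have h5 := congrArg (fun z => l * z) heu
    simp only [mul_add] at h5
    have e1 := he
    nlinarith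
  omega

end Pool.H54.UB

end S_FG

section S_FH

/-!
# Row FH: the theorem

`m = 0`: trivial.  `m = 1`: `hu` applied to `M` itself gives a branched cover, whose branch set `B` is
nonempty but of codimension two: all the finite sets in `IsCodimTwo 1 B` are empty, so `B` is empty.
`m = 2`: `main_two`.  `m ≥ 3`: `main_ge_three`.
-/

open Set Topology

namespace Pool.H54.UB

theorem universal_base_degree {m n k : ℕ} {M : Set (Fin n → ℝ)}
    (hM : IsClosedPLManifold m M) (hc : IsConnected M) (ho : IsOrientable m M) (x : M)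
    [Finite (FundamentalGroup M x)] (hk : 2 ≤ k) (hu : IsUniversalBase m k M) :
    m * Nat.card (FundamentalGroup M x) ≤ k := by
  match m, hM, ho, hu with
  | 0, _, _, _ => simp
  | 1, hM, ho, hu =>
    exfalso
    obtain ⟨f, -, -, -, B, -, hne, ⟨⟨S, hS, hB⟩, -⟩, -⟩ := hu n M hM hc ho
    obtain ⟨y, hy⟩ := hne
    rw [hB] at hy
    simp only [mem_iUnion] at hy
    obtain ⟨s, hs, hy⟩ := hy
    have h0 : s.card = 0 := by
      have := hS s hs
      omega
    rw [Finset.card_eq_zero] at h0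
    rw [h0] at hy
    simp at hy
  | 2, hM, ho, hu => exact main_two hM hc ho x hk hu
  | (m + 3), hM, ho, hu => exact main_ge_three (by omega) hM hc ho x hk hu

end Pool.H54.UB

end S_FH
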